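import Pool.Agent.Lib.MP_cf17a0_co.Mg.G001

section

/-! # FAR arcs: Stirling bounds, the midpoint rule, `log (sinh y / y)`, the real denominators
(helper97) -/

namespace Pool.Agent.SignedQ.Far

open Real Finset Pool.Agent.SignedQ.An

/-! ## Stirling -/

theorem log_two_pi_gt : 1.8378 < log (2 * π) := by
  have h1 := Real.pi_gt_d6
  have h3 := Real.le_log_one_add_of_nonneg (x := 4719 / 100000) (by norm_num)
  have h4 : log 6 + log (1 + 4719 / 100000) ≤ log (2 * π) := by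
    rw [← log_mul (by norm_num) (by norm_num)]
    exact log_le_log (by norm_num) (by norm_num; linarith)
  have h5 : log 6 = log 2 + log 3 := by rw [← log_mul (by norm_num) (by norm_num)]; norm_num
  have h6 := Real.log_two_gt_d9
  have h7 := Real.log_three_gt_d9
  norm_num at h3 h4 ⊢
  linarith

/-- `log m! ≤ m log m - m + (1/2) log m + 1`. -/
theorem log_fact_le {m : ℕ} (hm : 1 ≤ m) :
    log (m.factorial : ℝ) ≤ m * log m - m + 1 / 2 * log m + 1 := by
  obtain ⟨n, rfl⟩ : ∃ n, m = n + 1 := ⟨m - 1, by omega⟩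
  have h1 := Stirling.log_stirlingSeq'_antitone (Nat.zero_le n)
  simp only [Function.comp] at h1
  rw [Stirling.log_stirlingSeq_formula, show Nat.succ 0 = 1 from rfl, Stirling.stirlingSeq_one,
    log_div (exp_pos 1).ne' (by positivity), log_exp, log_sqrt (by norm_num)] at h1
  have hn : (0 : ℝ) < ((n + 1 : ℕ) : ℝ) := by positivity
  rw [show n.succ = n + 1 from rfl, log_mul (by norm_num) hn.ne', log_div hn.ne' (exp_pos 1).ne',
    log_exp] at h1
  linarith

/-- `log m! ≥ m log m - m + (1/2) log m + 0.9189`. -/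
theorem log_fact_ge {m : ℕ} (hm : 1 ≤ m) :
    m * log m - m + 1 / 2 * log m + 9189 / 10000 ≤ log (m.factorial : ℝ) := by
  have h1 := Stirling.le_log_factorial_stirling (n := m) (by omega)
  have h2 := log_two_pi_gt
  norm_num at h2
  linarith

theorem sum_log_nat (m : ℕ) : ∑ i ∈ Icc 1 m, log (i : ℝ) = log (m.factorial : ℝ) := by
  induction m with
  | zero => simp
  | succ m ih =>
    rw [sum_Icc_succ_top (by omega), ih, Nat.factorial_succ, Nat.cast_mul,
      log_mul (by positivity) (by positivity)]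
    ring

/-! ## The midpoint rule -/

/-- `F x = x log x - x`. -/
noncomputable def FF (x : ℝ) : ℝ := x * log x - x

/-- Midpoint rule for the concave function `log`. -/
theorem FF_mid {x : ℝ} (hx : 1 / 2 < x) : FF (x + 1 / 2) - FF (x - 1 / 2) ≤ log x := by
  have hx0 : 0 < x := by linarith
  have hder : ∀ h : ℝ, 0 < x + h → 0 < x - h → HasDerivAt (fun h : ℝ => (x + h) * log (x + h) -
      (x - h) * log (x - h) - 2 * h - 2 * h * log x) (log (x + h) + log (x - h) - 2 * log x) h := by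
    intro h e1 e2
    have d1 : HasDerivAt (fun h : ℝ => x + h) 1 h := (hasDerivAt_id h).const_add x
    have d2 : HasDerivAt (fun h : ℝ => x - h) (-1) h := (hasDerivAt_id h).const_sub x
    have d3 := d1.mul (d1.log e1.ne')
    have d4 := d2.mul (d2.log e2.ne')
    have d5 : HasDerivAt (fun h : ℝ => 2 * h) (2 * 1) h := (hasDerivAt_id h).const_mul 2
    have d6 := ((d3.sub d4).sub d5).sub (d5.mul_const (log x))
    refine HasDerivAt.congr_deriv d6 ?_
    field_simp
    ring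
  have h1 : AntitoneOn (fun h : ℝ => (x + h) * log (x + h) - (x - h) * log (x - h) - 2 * h -
      2 * h * log x) (Set.Icc 0 (1 / 2)) := by
    apply antitoneOn_of_deriv_nonpos (convex_Icc 0 (1 / 2))
    · intro h hh
      exact (hder h (by linarith [hh.1]) (by linarith [hh.2])).continuousAt.continuousWithinAt
    · intro h hh
      rw [interior_Icc] at hh
      exact (hder h (by linarith [hh.1])
        (by linarith [hh.2])).differentiableAt.differentiableWithinAt
    · intro h hh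
      rw [interior_Icc] at hh
      have h6 : 0 < x + h := by linarith [hh.1]
      have h7 : 0 < x - h := by linarith [hh.2]
      rw [(hder h h6 h7).deriv]
      have h4 : log (x + h) + log (x - h) = log ((x + h) * (x - h)) := (log_mul h6.ne' h7.ne').symm
      have h5 : 2 * log x = log (x ^ 2) := by rw [log_pow]; push_cast; ring
      rw [h4, h5, sub_nonpos]
      exact log_le_log (by positivity) (by nlinarith [hh.1])
  have h2 := h1 (Set.left_mem_Icc.2 (by norm_num)) (Set.right_mem_Icc.2 (by norm_num))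
    (by norm_num : (0 : ℝ) ≤ 1 / 2)
  simp only [add_zero, sub_zero, mul_zero, zero_mul, sub_self] at h2
  unfold FF
  linarith

/-- `∑ log (x + i) ≥ F (x + N + 1/2) - F (x + 1/2)`, `x ≥ 0`. -/
theorem sum_log_ge {x : ℝ} (hx : 0 ≤ x) (N : ℕ) :
    FF (x + N + 1 / 2) - FF (x + 1 / 2) ≤ ∑ i ∈ Icc 1 N, log (x + i) := by
  induction N with
  | zero => simp
  | succ N ih =>
    rw [sum_Icc_succ_top (by omega)]
    have h1 := FF_mid (x := x + (N + 1 : ℕ)) (by push_cast; linarith [Nat.cast_nonneg (α := ℝ) N])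
    have e1 : x + ((N + 1 : ℕ) : ℝ) - 1 / 2 = x + N + 1 / 2 := by push_cast; ring
    rw [e1] at h1
    linarith

/-! ## `log (sinh y / y)` -/

theorem ycoth_ge {y : ℝ} (hy : 0 ≤ y) :
    (1 + y ^ 2 / 3 - y ^ 4 / 45) * sinh y ≤ y * cosh y := by
  have hg : ∀ x : ℝ, 0 ≤ x → 0 ≤ (1 / 3 + 4 * x ^ 2 / 45) * sinh x - (x / 3 - x ^ 3 / 45) * cosh x := by
    intro x hx
    refine nonneg_of_deriv (f := fun x => (1 / 3 + 4 * x ^ 2 / 45) * sinh x -
      (x / 3 - x ^ 3 / 45) * cosh x) (f' := fun x => ((8 * x / 45) * sinh x +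
        (1 / 3 + 4 * x ^ 2 / 45) * cosh x) - ((1 / 3 - x ^ 2 / 15) * cosh x +
        (x / 3 - x ^ 3 / 45) * sinh x)) ?_ (by simp) ?_ hx
    · intro x _
      have d1 : HasDerivAt (fun x : ℝ => 1 / 3 + 4 * x ^ 2 / 45) (8 * x / 45) x := by
        have := (((hasDerivAt_pow 2 x).const_mul 4).div_const 45).const_add (1 / 3)
        refine HasDerivAt.congr_deriv this ?_
        push_cast; ring
      have d2 : HasDerivAt (fun x : ℝ => x / 3 - x ^ 3 / 45) (1 / 3 - x ^ 2 / 15) x := by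
        have := ((hasDerivAt_id x).div_const 3).sub ((hasDerivAt_pow 3 x).div_const 45)
        refine HasDerivAt.congr_deriv this ?_
        push_cast; ring
      exact (d1.mul (hasDerivAt_sinh x)).sub (d2.mul (hasDerivAt_cosh x))
    · intro x hx
      have h1 := sinh_le_mul_cosh hx.le
      have h2 := sinh_nonneg_iff.2 hx.le
      have e : ((8 * x / 45) * sinh x + (1 / 3 + 4 * x ^ 2 / 45) * cosh x) -
        ((1 / 3 - x ^ 2 / 15) * cosh x + (x / 3 - x ^ 3 / 45) * sinh x) =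
        x / 45 * (7 * (x * cosh x - sinh x) + x ^ 2 * sinh x) := by ring
      rw [e]
      have h3 : 0 ≤ x * cosh x - sinh x := by linarith
      positivity
  have h := nonneg_of_deriv (f := fun y => y * cosh y - (1 + y ^ 2 / 3 - y ^ 4 / 45) * sinh y)
    (f' := fun y => (1 * cosh y + y * sinh y) - ((2 * y / 3 - 4 * y ^ 3 / 45) * sinh y +
      (1 + y ^ 2 / 3 - y ^ 4 / 45) * cosh y)) ?_ (by simp) ?_ hy
  · linarith
  · intro y _
    have d1 : HasDerivAt (fun y : ℝ => 1 + y ^ 2 / 3 - y ^ 4 / 45) (2 * y / 3 - 4 * y ^ 3 / 45) y := by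
      have := (((hasDerivAt_pow 2 y).div_const 3).const_add 1).sub ((hasDerivAt_pow 4 y).div_const 45)
      refine HasDerivAt.congr_deriv this ?_
      push_cast; ring
    exact ((hasDerivAt_id y).mul (hasDerivAt_cosh y)).sub (d1.mul (hasDerivAt_sinh y))
  · intro y hy
    have h1 := hg y hy.le
    have e : (1 * cosh y + y * sinh y) - ((2 * y / 3 - 4 * y ^ 3 / 45) * sinh y +
      (1 + y ^ 2 / 3 - y ^ 4 / 45) * cosh y) =
      y * ((1 / 3 + 4 * y ^ 2 / 45) * sinh y - (y / 3 - y ^ 3 / 45) * cosh y) := by ring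
    rw [e]
    positivity

theorem ycoth_le {y : ℝ} (hy : 0 ≤ y) : y * cosh y ≤ (1 + y ^ 2 / 3) * sinh y := by
  have h := nonneg_of_deriv (f := fun x => (1 + x ^ 2 / 3) * Real.sinh x - x * Real.cosh x)
    (f' := fun x => (((2 : ℕ) * x ^ 1 / 3) * Real.sinh x + (1 + x ^ 2 / 3) * Real.cosh x) -
      (1 * Real.cosh x + x * Real.sinh x))
    (fun x _ => ((((hasDerivAt_pow 2 x).div_const 3).const_add 1).mul
      (Real.hasDerivAt_sinh x)).sub ((hasDerivAt_id x).mul (Real.hasDerivAt_cosh x)))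
    (by simp) (fun x hx => by
      have h1 := sinh_le_mul_cosh hx.le
      push_cast
      nlinarith [mul_nonneg hx.le (sub_nonneg.2 h1)]) hy
  linarith

theorem hasDerivAt_lsc {y : ℝ} (hy : 0 < y) :
    HasDerivAt (fun y => log (sinh y) - log y) (cosh y / sinh y - 1 / y) y := by
  have hs := sinh_pos_iff.2 hy
  have := ((hasDerivAt_sinh y).log hs.ne').sub (hasDerivAt_log hy.ne')
  refine HasDerivAt.congr_deriv this ?_
  rw [one_div]

/-- `log (sinh y / y) ≥ y²/6 - y⁴/180`. -/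
theorem log_sinh_ge {y : ℝ} (hy : 0 < y) :
    log y + (y ^ 2 / 6 - y ^ 4 / 180) ≤ log (sinh y) := by
  have hm : MonotoneOn (fun y => log (sinh y) - log y - (y ^ 2 / 6 - y ^ 4 / 180)) (Set.Ioi 0) := by
    have hd : ∀ x : ℝ, 0 < x → HasDerivAt (fun y => log (sinh y) - log y -
        (y ^ 2 / 6 - y ^ 4 / 180)) (cosh x / sinh x - 1 / x - (x / 3 - x ^ 3 / 45)) x := by
      intro x hx
      have := (hasDerivAt_lsc hx).sub (((hasDerivAt_pow 2 x).div_const 6).sub
        ((hasDerivAt_pow 4 x).div_const 180))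
      refine HasDerivAt.congr_deriv this ?_
      push_cast; ring
    apply monotoneOn_of_deriv_nonneg (convex_Ioi 0)
    · intro x hx
      exact (hd x hx).continuousAt.continuousWithinAt
    · intro x hx
      rw [interior_Ioi] at hx
      exact (hd x hx).differentiableAt.differentiableWithinAt
    · intro x hx
      rw [interior_Ioi] at hx
      have hx' : 0 < x := hx
      rw [(hd x hx).deriv]
      have hs := sinh_pos_iff.2 hx'
      have h1 := ycoth_ge hx'.le
      have e : cosh x / sinh x - 1 / x - (x / 3 - x ^ 3 / 45) =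
        (x * cosh x - (1 + x ^ 2 / 3 - x ^ 4 / 45) * sinh x) / (x * sinh x) := by
        field_simp
        ring
      rw [e]
      exact div_nonneg (by linarith) (by positivity)
  have h0 : ∀ e : ℝ, 0 < e → e ≤ y → -(e ^ 2 / 6) ≤ log (sinh y) - log y -
      (y ^ 2 / 6 - y ^ 4 / 180) := by
    intro e he hey
    have h1 := hm he (Set.mem_Ioi.2 hy) hey
    have h2 : log e ≤ log (sinh e) := log_le_log he (self_le_sinh_iff.2 he.le)
    have h3 : 0 ≤ e ^ 4 / 180 := by positivity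
    simp only at h1
    linarith
  by_contra hc
  rw [not_le] at hc
  obtain ⟨d, hd⟩ : ∃ d, d = (y ^ 2 / 6 - y ^ 4 / 180) - (log (sinh y) - log y) := ⟨_, rfl⟩
  have hd0 : 0 < d := by rw [hd]; linarith
  have h4 := h0 (min y (min 1 d)) (by positivity) (min_le_left _ _)
  have h5 : min y (min 1 d) ≤ 1 := (min_le_right _ _).trans (min_le_left _ _)
  have h6 : min y (min 1 d) ≤ d := (min_le_right _ _).trans (min_le_right _ _)
  have h7 : 0 < min y (min 1 d) := by positivity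
  have h8 : (min y (min 1 d)) ^ 2 ≤ d := by nlinarith
  linarith

/-- `log (sinh y / y) ≤ y²/6`. -/
theorem log_sinh_le {y : ℝ} (hy : 0 < y) : log (sinh y) ≤ log y + y ^ 2 / 6 := by
  have hm : MonotoneOn (fun y => y ^ 2 / 6 - (log (sinh y) - log y)) (Set.Ioi 0) := by
    have hd : ∀ x : ℝ, 0 < x → HasDerivAt (fun y => y ^ 2 / 6 - (log (sinh y) - log y))
        (x / 3 - (cosh x / sinh x - 1 / x)) x := by
      intro x hx
      have := ((hasDerivAt_pow 2 x).div_const 6).sub (hasDerivAt_lsc hx)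
      refine HasDerivAt.congr_deriv this ?_
      push_cast; ring
    apply monotoneOn_of_deriv_nonneg (convex_Ioi 0)
    · intro x hx
      exact (hd x hx).continuousAt.continuousWithinAt
    · intro x hx
      rw [interior_Ioi] at hx
      exact (hd x hx).differentiableAt.differentiableWithinAt
    · intro x hx
      rw [interior_Ioi] at hx
      have hx' : 0 < x := hx
      rw [(hd x hx).deriv]
      have hs := sinh_pos_iff.2 hx'
      have h1 := ycoth_le hx'.le
      have e : x / 3 - (cosh x / sinh x - 1 / x) =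
        ((1 + x ^ 2 / 3) * sinh x - x * cosh x) / (x * sinh x) := by
        field_simp
        ring
      rw [e]
      exact div_nonneg (by linarith) (by positivity)
  have h0 : ∀ e : ℝ, 0 < e → e ≤ y → -(e ^ 2) ≤ y ^ 2 / 6 - (log (sinh y) - log y) := by
    intro e he hey
    have h1 := hm he (Set.mem_Ioi.2 hy) hey
    have h2 : log (sinh e) ≤ log e + e ^ 2 / 2 := by
      have h3 : sinh e ≤ e * cosh e := sinh_le_mul_cosh he.le
      have h4 := Real.cosh_le_exp_half_sq e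
      have h5 : log (sinh e) ≤ log (e * exp (e ^ 2 / 2)) :=
        log_le_log (sinh_pos_iff.2 he) (h3.trans (mul_le_mul_of_nonneg_left h4 he.le))
      rwa [log_mul he.ne' (exp_pos _).ne', log_exp] at h5
    simp only at h1
    nlinarith [sq_nonneg e]
  by_contra hc
  rw [not_le] at hc
  obtain ⟨d, hd⟩ : ∃ d, d = (log (sinh y) - log y) - y ^ 2 / 6 := ⟨_, rfl⟩
  have hd0 : 0 < d := by rw [hd]; linarith
  have h4 := h0 (min y (min 1 (d / 2))) (by positivity) (min_le_left _ _)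
  have h5 : min y (min 1 (d / 2)) ≤ 1 := (min_le_right _ _).trans (min_le_left _ _)
  have h6 : min y (min 1 (d / 2)) ≤ d / 2 := (min_le_right _ _).trans (min_le_right _ _)
  have h7 : 0 < min y (min 1 (d / 2)) := by positivity
  have h8 : (min y (min 1 (d / 2))) ^ 2 ≤ d / 2 := by nlinarith
  linarith

/-! ## The real denominators -/

/-- The quadratic terms. -/
theorem quad_le (k : ℕ) : ∑ j ∈ Icc 1 k, ((if Even j then 1 / 24 else 1 / 8) - 7 / 40) *
    (j : ℝ) ^ 2 ≤ -(3 / 100 * (k : ℝ) ^ 3) := by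
  have key : ∀ m : ℕ, (∑ j ∈ Icc 1 (2 * m), ((if Even j then 1 / 24 else 1 / 8) - 7 / 40) *
      (j : ℝ) ^ 2 ≤ -(3 / 100 * ((2 * m : ℕ) : ℝ) ^ 3)) ∧
      ∑ j ∈ Icc 1 (2 * m + 1), ((if Even j then 1 / 24 else 1 / 8) - 7 / 40) *
      (j : ℝ) ^ 2 ≤ -(3 / 100 * ((2 * m + 1 : ℕ) : ℝ) ^ 3) := by
    intro m
    induction m with
    | zero => norm_num
    | succ m ih =>
      have h1 : Even (2 * m + 1 + 1) := ⟨m + 1, by ring⟩
      have h2 : ¬ Even (2 * m + 1 + 1 + 1) := by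
        rw [Nat.not_even_iff_odd]; exact ⟨m + 1, by ring⟩
      have h3 : ¬ Even (2 * m + 1) := by rw [Nat.not_even_iff_odd]; exact ⟨m, by ring⟩
      have i1 := ih.1
      have i2 := ih.2
      have hm : (0 : ℝ) ≤ m := Nat.cast_nonneg m
      constructor
      · rw [show 2 * (m + 1) = 2 * m + 1 + 1 by ring, sum_Icc_succ_top (by omega),
          sum_Icc_succ_top (by omega), if_pos h1, if_neg h3]
        push_cast at i1 ⊢
        nlinarith [mul_nonneg hm hm]
      · rw [show 2 * (m + 1) + 1 = 2 * m + 1 + 1 + 1 by ring, sum_Icc_succ_top (by omega),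
          sum_Icc_succ_top (by omega), if_neg h2, if_pos h1]
        push_cast at i2 ⊢
        nlinarith [mul_nonneg hm hm]
  rcases Nat.even_or_odd k with hk | hk
  · obtain ⟨m, rfl⟩ := hk
    rw [← two_mul]
    exact (key m).1
  · obtain ⟨m, rfl⟩ := hk
    exact (key m).2

/-- Sum of `log j` over the even `j`. -/
theorem sum_even_log (k : ℕ) (c d : ℝ) : ∑ j ∈ Icc 1 k, (if Even j then log (j : ℝ) + c else d) =
    log ((k / 2).factorial : ℝ) + (k / 2 : ℕ) * (log 2 + c) + (k - (k / 2 : ℕ)) * d := by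
  have key : ∀ m : ℕ, ∑ j ∈ Icc 1 (2 * m), (if Even j then log (j : ℝ) + c else d) =
      log (m.factorial : ℝ) + m * (log 2 + c) + m * d := by
    intro m
    induction m with
    | zero => simp
    | succ m ih =>
      have h1 : Even (2 * m + 1 + 1) := ⟨m + 1, by ring⟩
      have h3 : ¬ Even (2 * m + 1) := by rw [Nat.not_even_iff_odd]; exact ⟨m, by ring⟩
      rw [show 2 * (m + 1) = 2 * m + 1 + 1 by ring, sum_Icc_succ_top (by omega),
          sum_Icc_succ_top (by omega), if_pos h1, if_neg h3, ih, Nat.factorial_succ, Nat.cast_mul,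
          log_mul (by positivity) (by positivity)]
      have e1 : ((2 * m + 1 + 1 : ℕ) : ℝ) = 2 * ((m + 1 : ℕ) : ℝ) := by push_cast; ring
      rw [e1, log_mul (by norm_num) (by positivity)]
      push_cast
      ring
  rcases Nat.even_or_odd k with hk | hk
  · obtain ⟨m, rfl⟩ := hk
    rw [← two_mul, key, show 2 * m / 2 = m by omega]
    push_cast
    ring
  · obtain ⟨m, rfl⟩ := hk
    have h3 : ¬ Even (2 * m + 1) := by rw [Nat.not_even_iff_odd]; exact ⟨m, by ring⟩
    rw [sum_Icc_succ_top (by omega), if_neg h3, key, show (2 * m + 1) / 2 = m by omega]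
    push_cast
    ring

/-- First form: logarithms and the quadratic gain. -/
theorem real_den_aux {k : ℕ} {t : ℝ} (ht : 0 < t) (hkt : k * t ≤ 1) :
    ∑ j ∈ Icc 1 k, (if Even j then log (2 * sinh (j * t / 2)) else log (2 * cosh (j * t / 2))) -
      1 / 6 * ∑ j ∈ Icc 1 k, log (2 * sinh (3 * (j * t))) ≤
    log ((k / 2).factorial : ℝ) + (k / 2 : ℕ) * (log 2 + log t) + (k - (k / 2 : ℕ)) * log 2 -
      1 / 6 * (k * (log 6 + log t) + log (k.factorial : ℝ)) - 3 / 100 * (k * t) ^ 2 * k := by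
  have h1 : ∀ j ∈ Icc 1 k, (if Even j then log (2 * sinh (j * t / 2)) else
      log (2 * cosh (j * t / 2))) - 1 / 6 * log (2 * sinh (3 * (j * t))) ≤
      (if Even j then log (j : ℝ) + log t else log 2) - 1 / 6 * (log 6 + log t + log (j : ℝ)) +
      t ^ 2 * (((if Even j then 1 / 24 else 1 / 8) - 7 / 40) * (j : ℝ) ^ 2) := by
    intro j hj
    have hj' := mem_Icc.1 hj
    have hj1 : (1 : ℝ) ≤ j := by exact_mod_cast hj'.1
    have hjk : (j : ℝ) ≤ k := by exact_mod_cast hj'.2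
    have hjt : (j : ℝ) * t ≤ 1 := (mul_le_mul_of_nonneg_right hjk ht.le).trans hkt
    have hy : 0 < (j : ℝ) * t := by positivity
    have a1 : log (j : ℝ) + log t = log (j * t) := (log_mul (by positivity) ht.ne').symm
    have a2 : log 6 + log t + log (j : ℝ) = log 2 + log (3 * (j * t)) := by
      rw [log_mul (by norm_num) hy.ne', ← a1, show (6 : ℝ) = 2 * 3 by norm_num,
        log_mul (by norm_num) (by norm_num)]
      ring
    have h3s : 0 < 3 * ((j : ℝ) * t) := by positivity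
    have b1 := log_sinh_ge h3s
    have b2 : log (2 * sinh (3 * ((j : ℝ) * t))) = log 2 + log (sinh (3 * (j * t))) :=
      log_mul (by norm_num) (sinh_pos_iff.2 h3s).ne'
    have b3 : 21 / 20 * (t ^ 2 * (j : ℝ) ^ 2) ≤ (3 * ((j : ℝ) * t)) ^ 2 / 6 -
        (3 * ((j : ℝ) * t)) ^ 4 / 180 := by
      have : ((j : ℝ) * t) ^ 2 * ((j : ℝ) * t) ^ 2 ≤ ((j : ℝ) * t) ^ 2 * 1 :=
        mul_le_mul_of_nonneg_left (by nlinarith) (sq_nonneg _)
      nlinarith
    rw [b2, a2]
    split_ifs with he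
    · have hs : 0 < (j : ℝ) * t / 2 := by positivity
      have c1 := log_sinh_le hs
      have c2 : log (2 * sinh ((j : ℝ) * t / 2)) = log 2 + log (sinh (j * t / 2)) :=
        log_mul (by norm_num) (sinh_pos_iff.2 hs).ne'
      have c3 : log ((j : ℝ) * t / 2) = log (j * t) - log 2 := log_div hy.ne' (by norm_num)
      rw [c2, a1]
      have c4 : ((j : ℝ) * t / 2) ^ 2 / 6 = t ^ 2 * (j : ℝ) ^ 2 / 24 := by ring
      rw [c3, c4] at c1
      linarith
    · have c1 : log (cosh ((j : ℝ) * t / 2)) ≤ (j * t / 2) ^ 2 / 2 := by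
        have := log_le_log (cosh_pos _) (Real.cosh_le_exp_half_sq ((j : ℝ) * t / 2))
        rwa [log_exp] at this
      have c2 : log (2 * cosh ((j : ℝ) * t / 2)) = log 2 + log (cosh (j * t / 2)) :=
        log_mul (by norm_num) (cosh_pos _).ne'
      have c4 : ((j : ℝ) * t / 2) ^ 2 / 2 = t ^ 2 * (j : ℝ) ^ 2 / 8 := by ring
      rw [c4] at c1
      rw [c2]
      linarith
  have h2 := sum_le_sum h1
  rw [sum_sub_distrib, ← mul_sum, sum_add_distrib, sum_sub_distrib, ← mul_sum, ← mul_sum,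
    sum_even_log, sum_add_distrib, sum_log_nat] at h2
  have e1 : ∑ i ∈ Icc 1 k, (log 6 + log t) = k * (log 6 + log t) := by
    rw [sum_const, Nat.card_Icc, nsmul_eq_mul]
    congr 1
  rw [e1] at h2
  have h3 := mul_le_mul_of_nonneg_left (quad_le k) (sq_nonneg t)
  have e2 : t ^ 2 * -(3 / 100 * (k : ℝ) ^ 3) = -(3 / 100 * (k * t) ^ 2 * k) := by ring
  rw [e2] at h3
  linarith

/-- **The real denominators**, `c = k t ≤ 1`, `L = - log c`. -/
theorem D0 {k : ℕ} (hk : 26 ≤ k) {t : ℝ} (ht : 0 < t) (hkt : k * t ≤ 1) :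
    ∑ j ∈ Icc 1 k, (if Even j then log (2 * sinh (j * t / 2)) else log (2 * cosh (j * t / 2))) -
      1 / 6 * ∑ j ∈ Icc 1 k, log (2 * sinh (3 * (j * t))) ≤
    k * (-(28538 / 100000) + log (k * t) / 3 - 3 / 100 * (k * t) ^ 2) + 5 / 12 * log k +
      (if Even k then 51 / 100 else -log (k * t) / 2 + 87 / 100) := by
  have h1 := real_den_aux (k := k) ht hkt
  have hk' : (26 : ℝ) ≤ k := by exact_mod_cast hk
  have h2 := log_fact_le (m := k / 2) (by omega)
  have h3 := log_fact_ge (m := k) (by omega)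
  have h6 : log 6 = log 2 + log 3 := by rw [← log_mul (by norm_num) (by norm_num)]; norm_num
  have l2 := Real.log_two_gt_d9
  have l2' := Real.log_two_lt_d9
  have l3 := Real.log_three_gt_d9
  have e0 : log ((k : ℝ) * t) = log k + log t := log_mul (by positivity) ht.ne'
  rw [h6] at h1
  rw [e0]
  rcases Nat.even_or_odd k with he | ho
  · rw [if_pos he]
    obtain ⟨m, rfl⟩ := he
    have em : (m + m) / 2 = m := by omega
    rw [em] at h1 h2
    have hm' : (13 : ℝ) ≤ m := by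
      have : 13 ≤ m := by omega
      exact_mod_cast this
    have e2 : log (((m + m : ℕ) : ℝ)) = log m + log 2 := by
      rw [show ((m + m : ℕ) : ℝ) = m * 2 by push_cast; ring, log_mul (by positivity) (by norm_num)]
    rw [e2] at h3 ⊢
    push_cast at h1 h3 ⊢
    nlinarith
  · rw [if_neg (Nat.not_even_iff_odd.2 ho)]
    obtain ⟨m, rfl⟩ := ho
    have em : (2 * m + 1) / 2 = m := by omega
    rw [em] at h1 h2
    have hm' : (13 : ℝ) ≤ m := by
      have : 13 ≤ m := by omega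
      exact_mod_cast this
    have e2 : log (m : ℝ) ≤ log ((2 * m + 1 : ℕ) : ℝ) - log 2 - 1 / (2 * m + 1 : ℕ) := by
      have e3 : log (m : ℝ) = log ((2 * m + 1 : ℕ) : ℝ) - log 2 +
          log (1 - 1 / ((2 * m + 1 : ℕ) : ℝ)) := by
        have e4 : (m : ℝ) = ((2 * m + 1 : ℕ) : ℝ) / 2 * (1 - 1 / ((2 * m + 1 : ℕ) : ℝ)) := by
          push_cast
          field_simp
          ring
        have e5 : 0 < 1 - 1 / ((2 * m + 1 : ℕ) : ℝ) := by
          push_cast
          rw [sub_pos, div_lt_one (by positivity)]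
          linarith
        conv_lhs => rw [e4]
        rw [log_mul (by positivity) e5.ne', log_div (by positivity) (by norm_num)]
      have e6 : log (1 - 1 / ((2 * m + 1 : ℕ) : ℝ)) ≤ -(1 / ((2 * m + 1 : ℕ) : ℝ)) := by
        have e5 : 0 < 1 - 1 / ((2 * m + 1 : ℕ) : ℝ) := by
          push_cast
          rw [sub_pos, div_lt_one (by positivity)]
          linarith
        have := Real.log_le_sub_one_of_pos e5
        linarith
      linarith
    have e7 : (m : ℝ) * log m ≤ m * (log ((2 * m + 1 : ℕ) : ℝ) - log 2) - (1 / 2 -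
        1 / (2 * (2 * m + 1 : ℕ))) := by
      have := mul_le_mul_of_nonneg_left e2 (by positivity : (0 : ℝ) ≤ m)
      have e8 : (m : ℝ) * (1 / ((2 * m + 1 : ℕ) : ℝ)) = 1 / 2 - 1 / (2 * (2 * m + 1 : ℕ)) := by
        push_cast
        field_simp
        ring
      nlinarith
    have e9 : log (m : ℝ) ≤ log ((2 * m + 1 : ℕ) : ℝ) - log 2 := by
      have : 0 ≤ 1 / ((2 * m + 1 : ℕ) : ℝ) := by positivity
      linarith
    have e10 : (1 : ℝ) / (2 * (2 * m + 1 : ℕ)) ≤ 1 / 54 := by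
      push_cast
      rw [div_le_div_iff₀ (by positivity) (by norm_num)]
      linarith
    obtain ⟨lk, hlk⟩ : ∃ lk, lk = log ((2 * m + 1 : ℕ) : ℝ) := ⟨_, rfl⟩
    rw [← hlk] at e7 e9 h3 ⊢
    push_cast at h1 h3 e7 e10 ⊢
    nlinarith

end Pool.Agent.SignedQ.Far
end

section

/-! # FAR arcs: the real product (task FI) -/

namespace Pool.Agent.SignedQ.Far

open Real Finset

/-- Cost function of the product `∏ (n/2 + i)`. -/
noncomputable def Sx (x : ℝ) : ℝ :=
  1 / 2 * log (x + 1 / 2) + 1 / 2 - 1 / 2 * ((1 + x) * log (1 + x) - x * log x)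

/-- `sum_log_ge` with `x = N`: `FF (K(1+ν)) - FF (Kν)`, `ν = (2N+1)/(2K)`, and `log_fact_le`. -/
theorem ev_gen {N K : ℕ} (hK : 1 ≤ K) {a : ℝ} (ha : 0 < a) :
    -∑ i ∈ Icc 1 K, log (a * ((N : ℝ) + (i : ℝ)) / i) ≤
      -(K * log (a * (2 * N + K + 1) / (2 * K))) + 2 * K * Sx ((2 * N + 1) / (2 * K)) - K +
        1 / 2 * log K + 1 := by
  have hK0 : (0 : ℝ) < K := by exact_mod_cast hK
  have hN0 : (0 : ℝ) ≤ N := Nat.cast_nonneg N
  have h1 := sum_log_ge hN0 K
  have h2 := log_fact_le hK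
  rw [← sum_log_nat] at h2
  have e1 : ∑ i ∈ Icc 1 K, log (a * ((N : ℝ) + (i : ℝ)) / i) =
      K * log a + ∑ i ∈ Icc 1 K, log ((N : ℝ) + i) - ∑ i ∈ Icc 1 K, log (i : ℝ) := by
    rw [show (K : ℝ) * log a = ∑ i ∈ Icc 1 K, log a by
      rw [sum_const, Nat.card_Icc, nsmul_eq_mul]; congr 1, ← sum_add_distrib, ← sum_sub_distrib]
    refine sum_congr rfl fun i hi => ?_
    have hi' : (1 : ℝ) ≤ i := by exact_mod_cast (mem_Icc.1 hi).1
    rw [log_div (by positivity) (by positivity), log_mul ha.ne' (by positivity)]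
  obtain ⟨ν, hν⟩ : ∃ ν : ℝ, ν = (2 * N + 1) / (2 * K) := ⟨_, rfl⟩
  have hν0 : 0 < ν := by rw [hν]; positivity
  have e2 : (N : ℝ) + 1 / 2 = K * ν := by rw [hν]; field_simp
  have e3 : (N : ℝ) + K + 1 / 2 = K * (1 + ν) := by rw [hν]; field_simp; ring
  have e4 : a * (2 * (N : ℝ) + K + 1) / (2 * K) = a * (ν + 1 / 2) := by
    rw [hν]; field_simp; ring
  rw [← hν, e1, e4, log_mul ha.ne' (by positivity)]
  rw [e2, e3] at h1
  unfold FF at h1
  rw [log_mul hK0.ne' (by positivity), log_mul hK0.ne' hν0.ne'] at h1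
  unfold Sx
  linarith

/-- `2 (y - z)/(y + z) ≤ log y - log z` for `0 < z ≤ y`. -/
theorem log_diff_ge {y z : ℝ} (hz : 0 < z) (h : z ≤ y) :
    2 * (y - z) / (y + z) ≤ log y - log z := by
  have hy : 0 < y := hz.trans_le h
  have h1 := Real.le_log_one_add_of_nonneg (x := (y - z) / z) (div_nonneg (by linarith) hz.le)
  have e1 : 1 + (y - z) / z = y / z := by field_simp; ring
  have e2 : 2 * ((y - z) / z) / ((y - z) / z + 2) = 2 * (y - z) / (y + z) := by
    have : (y - z) / z + 2 = (y + z) / z := by field_simp; ring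
    rw [this]
    field_simp
  rw [e1, e2, log_div hy.ne' hz.ne'] at h1
  exact h1

theorem hasDerivAt_Sx {x : ℝ} (hx : 0 < x) :
    HasDerivAt Sx (1 / (1 + 2 * x) - 1 / 2 * (log (1 + x) - log x)) x := by
  have d1 : HasDerivAt (fun x : ℝ => x + 1 / 2) 1 x := (hasDerivAt_id x).add_const _
  have d2 : HasDerivAt (fun x : ℝ => 1 + x) 1 x := (hasDerivAt_id x).const_add _
  have e1 : x + 1 / 2 ≠ 0 := by positivity
  have e2 : 1 + x ≠ 0 := by positivity
  have d3 := ((d1.log e1).const_mul (1 / 2)).add_const (1 / 2)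
  have d4 := ((d2.mul (d2.log e2)).sub ((hasDerivAt_id x).mul (hasDerivAt_log hx.ne'))).const_mul (1 / 2)
  have d5 := d3.sub d4
  refine HasDerivAt.congr_deriv (f' := _) d5 ?_
  simp only [id]
  field_simp
  ring

theorem dSx_nonpos {x : ℝ} (hx : 0 < x) : 1 / (1 + 2 * x) - 1 / 2 * (log (1 + x) - log x) ≤ 0 := by
  have h := log_diff_ge (y := 1 + x) hx (by linarith)
  have e : 2 * (1 + x - x) / (1 + x + x) = 2 * (1 / (1 + 2 * x)) := by
    field_simp
    ring
  rw [e] at h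
  linarith

/-- `Sx' x = 1/(1+2x) - (1/2) log ((1+x)/x) ≤ 0`. -/
theorem Sx_antitone : AntitoneOn Sx (Set.Ioi 0) := by
  apply antitoneOn_of_deriv_nonpos (convex_Ioi 0)
  · intro x hx
    exact (hasDerivAt_Sx hx).continuousAt.continuousWithinAt
  · intro x hx
    rw [interior_Ioi] at hx
    exact (hasDerivAt_Sx hx).differentiableAt.differentiableWithinAt
  · intro x hx
    rw [interior_Ioi] at hx
    rw [(hasDerivAt_Sx hx).deriv]
    exact dSx_nonpos hx

theorem dSx_mono : MonotoneOn (fun x : ℝ => 1 / (1 + 2 * x) - 1 / 2 * (log (1 + x) - log x))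
    (Set.Ioi 0) := by
  have hd : ∀ x : ℝ, 0 < x → HasDerivAt (fun x : ℝ => 1 / (1 + 2 * x) -
      1 / 2 * (log (1 + x) - log x)) (-(2 / (1 + 2 * x) ^ 2) + 1 / (2 * (x * (1 + x)))) x := by
    intro x hx
    have d2 : HasDerivAt (fun x : ℝ => 1 + x) 1 x := (hasDerivAt_id x).const_add _
    have d6 : HasDerivAt (fun x : ℝ => 1 + 2 * x) (2 * 1) x :=
      ((hasDerivAt_id x).const_mul 2).const_add _
    have e2 : 1 + x ≠ 0 := by positivity
    have e3 : 1 + 2 * x ≠ 0 := by positivity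
    have d7 := (d6.inv e3).sub (((d2.log e2).sub (hasDerivAt_log hx.ne')).const_mul (1 / 2))
    have e4 : (fun x : ℝ => 1 / (1 + 2 * x) - 1 / 2 * (log (1 + x) - log x)) =
        fun x : ℝ => (1 + 2 * x)⁻¹ - 1 / 2 * (log (1 + x) - log x) := by
      ext x
      rw [one_div (1 + 2 * x)]
    rw [e4]
    refine HasDerivAt.congr_deriv d7 ?_
    field_simp
    ring
  apply monotoneOn_of_deriv_nonneg (convex_Ioi 0)
  · intro x hx
    exact (hd x hx).continuousAt.continuousWithinAt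
  · intro x hx
    rw [interior_Ioi] at hx
    exact (hd x hx).differentiableAt.differentiableWithinAt
  · intro x hx
    rw [interior_Ioi] at hx
    have hx' : 0 < x := hx
    rw [(hd x hx).deriv]
    have e : -(2 / (1 + 2 * x) ^ 2) + 1 / (2 * (x * (1 + x))) =
        1 / (2 * (x * (1 + x)) * (1 + 2 * x) ^ 2) := by
      field_simp
      ring
    rw [e]
    positivity

/-- `Sx'' x = -2/(1+2x)² + 1/(2x(1+x)) ≥ 0`. -/
theorem Sx_convex : ConvexOn ℝ (Set.Ioi 0) Sx := by
  refine MonotoneOn.convexOn_of_deriv (convex_Ioi 0) ?_ ?_ ?_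
  · intro x hx
    exact (hasDerivAt_Sx hx).continuousAt.continuousWithinAt
  · intro x hx
    rw [interior_Ioi] at hx
    exact (hasDerivAt_Sx hx).differentiableAt.differentiableWithinAt
  · rw [interior_Ioi]
    intro x hx y hy hxy
    rw [(hasDerivAt_Sx hx).deriv, (hasDerivAt_Sx hy).deriv]
    exact dSx_mono hx hy hxy

/-- Nonnegativity (midpoint rule). -/
theorem Sx_nonneg {x : ℝ} (hx : 0 < x) : 0 ≤ Sx x := by
  have h := FF_mid (x := x + 1 / 2) (by linarith)
  rw [show x + 1 / 2 + 1 / 2 = 1 + x by ring, show x + 1 / 2 - 1 / 2 = x by ring] at h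
  unfold FF at h
  unfold Sx
  linarith

/-! ### Logarithms -/

theorem log7_lt : log 7 ≤ log 36 - log 5 - 2 / 71 := by
  have h := log_diff_ge (y := 36 / 5) (z := 7) (by norm_num) (by norm_num)
  rw [log_div (by norm_num) (by norm_num)] at h
  norm_num at h
  linarith

theorem log36 : log 36 = 2 * log 2 + 2 * log 3 := by
  have : (36 : ℝ) = 2 ^ 2 * 3 ^ 2 := by norm_num
  rw [this, log_mul (by norm_num) (by norm_num), log_pow, log_pow]
  push_cast
  ring

/-- True value `.02263`. -/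
theorem Sx_half : Sx (1 / 2) ≤ 0.0227 := by
  unfold Sx
  have l2 := Real.log_two_lt_d9
  have l3 := Real.log_three_gt_d9
  have e1 : log (1 / 2 + 1 / 2 : ℝ) = 0 := by norm_num
  have e2 : log (1 + 1 / 2 : ℝ) = log 3 - log 2 := by
    rw [← log_div (by norm_num) (by norm_num)]; norm_num
  have e3 : log (1 / 2 : ℝ) = - log 2 := by rw [one_div, log_inv]
  rw [e1, e2, e3]
  norm_num at *
  linarith

/-- True value `.0162`. -/
theorem Sx_two_thirds : Sx (2 / 3) ≤ 0.0163 := by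
  unfold Sx
  have l2 := Real.log_two_lt_d9
  have l2' := Real.log_two_gt_d9
  have l3 := Real.log_three_gt_d9
  have l3' := Real.log_three_lt_d9
  have l5 := Real.log_five_gt_d9
  have l5' := Real.log_five_lt_d9
  have l7 := log7_lt
  rw [log36] at l7
  have e1 : log (2 / 3 + 1 / 2 : ℝ) = log 7 - log 2 - log 3 := by
    rw [sub_sub, ← log_mul (by norm_num) (by norm_num), ← log_div (by norm_num) (by norm_num)]
    norm_num
  have e2 : log (1 + 2 / 3 : ℝ) = log 5 - log 3 := by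
    rw [← log_div (by norm_num) (by norm_num)]; norm_num
  have e3 : log (2 / 3 : ℝ) = log 2 - log 3 := log_div (by norm_num) (by norm_num)
  rw [e1, e2, e3]
  norm_num at *
  linarith

/-- True value `.06196`. -/
theorem Sx_three_twentieth : Sx (3 / 20) ≤ 0.0621 := by
  unfold Sx
  have l2 := Real.log_two_lt_d9
  have l2' := Real.log_two_gt_d9
  have l3 := Real.log_three_gt_d9
  have l3' := Real.log_three_lt_d9
  have l5 := Real.log_five_gt_d9
  have l5' := Real.log_five_lt_d9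
  -- `13/20 ≤ 27/40`, `23/20 ≥ 9/8`
  have h1 := log_diff_ge (y := 27 / 40) (z := 3 / 20 + 1 / 2) (by norm_num) (by norm_num)
  have h2 := log_diff_ge (y := 1 + 3 / 20) (z := 9 / 8) (by norm_num) (by norm_num)
  have e1 : log (27 / 40 : ℝ) = 3 * log 3 - 3 * log 2 - log 5 := by
    have : (27 / 40 : ℝ) = 3 ^ 3 / (2 ^ 3 * 5) := by norm_num
    rw [this, log_div (by norm_num) (by norm_num), log_mul (by norm_num) (by norm_num), log_pow,
      log_pow]
    push_cast
    ring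
  have e2 : log (9 / 8 : ℝ) = 2 * log 3 - 3 * log 2 := by
    have : (9 / 8 : ℝ) = 3 ^ 2 / 2 ^ 3 := by norm_num
    rw [this, log_div (by norm_num) (by norm_num), log_pow, log_pow]
    push_cast
    ring
  have e3 : log (3 / 20 : ℝ) = log 3 - 2 * log 2 - log 5 := by
    have : (3 / 20 : ℝ) = 3 / (2 ^ 2 * 5) := by norm_num
    rw [this, log_div (by norm_num) (by norm_num), log_mul (by norm_num) (by norm_num), log_pow]
    push_cast
    ring
  rw [e1] at h1
  rw [e2] at h2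
  rw [e3]
  obtain ⟨A, hA⟩ : ∃ A, A = log (3 / 20 + 1 / 2 : ℝ) := ⟨_, rfl⟩
  obtain ⟨B, hB⟩ : ∃ B, B = log (1 + 3 / 20 : ℝ) := ⟨_, rfl⟩
  rw [← hA] at h1 ⊢
  rw [← hB] at h2 ⊢
  norm_num at h1 h2 l2 l2' l3 l3' l5 l5' ⊢
  linarith

/-- True value `.10058`. -/
theorem Sx_one_twentieth : Sx (1 / 20) ≤ 0.1007 := by
  unfold Sx
  have l2 := Real.log_two_lt_d9
  have l2' := Real.log_two_gt_d9
  have l3 := Real.log_three_gt_d9
  have l3' := Real.log_three_lt_d9
  have l5 := Real.log_five_gt_d9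
  have l5' := Real.log_five_lt_d9
  -- `11/20 ≤ 9/16`, `21/20 ≥ 25/24`
  have h1 := log_diff_ge (y := 9 / 16) (z := 1 / 20 + 1 / 2) (by norm_num) (by norm_num)
  have h2 := log_diff_ge (y := 1 + 1 / 20) (z := 25 / 24) (by norm_num) (by norm_num)
  have e1 : log (9 / 16 : ℝ) = 2 * log 3 - 4 * log 2 := by
    have : (9 / 16 : ℝ) = 3 ^ 2 / 2 ^ 4 := by norm_num
    rw [this, log_div (by norm_num) (by norm_num), log_pow, log_pow]
    push_cast
    ring
  have e2 : log (25 / 24 : ℝ) = 2 * log 5 - 3 * log 2 - log 3 := by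
    have : (25 / 24 : ℝ) = 5 ^ 2 / (2 ^ 3 * 3) := by norm_num
    rw [this, log_div (by norm_num) (by norm_num), log_mul (by norm_num) (by norm_num), log_pow,
      log_pow]
    push_cast
    ring
  have e3 : log (1 / 20 : ℝ) = - (2 * log 2) - log 5 := by
    have : (1 / 20 : ℝ) = 1 / (2 ^ 2 * 5) := by norm_num
    rw [this, log_div (by norm_num) (by norm_num), log_mul (by norm_num) (by norm_num), log_pow,
      log_one]
    push_cast
    ring
  rw [e1] at h1
  rw [e2] at h2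
  rw [e3]
  obtain ⟨A, hA⟩ : ∃ A, A = log (1 / 20 + 1 / 2 : ℝ) := ⟨_, rfl⟩
  obtain ⟨B, hB⟩ : ∃ B, B = log (1 + 1 / 20 : ℝ) := ⟨_, rfl⟩
  rw [← hA] at h1 ⊢
  rw [← hB] at h2 ⊢
  norm_num at h1 h2 l2 l2' l3 l3' l5 l5' ⊢
  linarith

/-- `κ Sx (1/κ)`: `(κ/2) log (1 + 2/κ) ≤ 1`, `(κ+1) log (1+1/κ) ≥ 1`, `(1 - log 2)/2 ≤ .15343`. -/
theorem Sx_inv_le {x : ℝ} (hx : 1 ≤ x) : x * Sx (1 / x) ≤ 0.15343 * x + 1 / 2 - 1 / 2 * log x := by
  have hx0 : 0 < x := by linarith
  unfold Sx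
  have h1 : log (1 / x + 1 / 2) = log (1 + 2 / x) - log 2 := by
    rw [← log_div (by positivity) (by norm_num)]
    congr 1
    field_simp
    ring
  have h2 : log (1 + 2 / x) ≤ 2 / x := by
    have := Real.log_le_sub_one_of_pos (show 0 < 1 + 2 / x by positivity)
    linarith
  have h3 : 1 / (x + 1) ≤ log (1 + 1 / x) := by
    have h4 := Real.one_sub_inv_le_log_of_pos (show 0 < 1 + 1 / x by positivity)
    refine le_trans (le_of_eq ?_) h4
    field_simp
    ring
  have h5 : log (1 / x) = - log x := by rw [one_div, log_inv]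
  have l2 := Real.log_two_gt_d9
  have h6 : x * log (1 + 2 / x) ≤ 2 := by
    have := mul_le_mul_of_nonneg_left h2 hx0.le
    rwa [mul_div_cancel₀ _ hx0.ne'] at this
  have h7 : 1 ≤ (x + 1) * log (1 + 1 / x) := by
    have := mul_le_mul_of_nonneg_left h3 (show 0 ≤ x + 1 by linarith)
    rwa [mul_div_cancel₀ _ (show x + 1 ≠ 0 by positivity)] at this
  rw [h1, h5]
  have e : x * (1 / 2 * (log (1 + 2 / x) - log 2) + 1 / 2 -
      1 / 2 * ((1 + 1 / x) * log (1 + 1 / x) - 1 / x * -log x)) =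
      1 / 2 * (x * log (1 + 2 / x)) - x / 2 * log 2 + x / 2 -
        1 / 2 * ((x + 1) * log (1 + 1 / x)) - 1 / 2 * log x := by
    field_simp
    ring
  rw [e]
  have h8 : x * 0.6931471803 ≤ x * log 2 := mul_le_mul_of_nonneg_left l2.le hx0.le
  have h9 : x / 2 * log 2 = 1 / 2 * (x * log 2) := by ring
  rw [h9]
  linarith

/-- Increments of a convex function. -/
theorem incr_le {x x' d : ℝ} (hx : 0 < x) (hxx : x ≤ x') (hd : 0 < d) :
    Sx x' + Sx (x + d) ≤ Sx x + Sx (x' + d) := by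
  rcases eq_or_lt_of_le hxx with h | h
  · rw [h]
  · obtain ⟨lam, hlam⟩ : ∃ lam : ℝ, lam = (x' - x) / (x' + d - x) := ⟨_, rfl⟩
    have hpos : 0 < x' + d - x := by linarith
    have h0 : 0 ≤ lam := by rw [hlam]; exact div_nonneg (by linarith) hpos.le
    have h1 : 0 ≤ 1 - lam := by
      rw [hlam, sub_nonneg, div_le_one hpos]
      linarith
    have c1 := Sx_convex.2 (Set.mem_Ioi.2 hx) (Set.mem_Ioi.2 (by linarith : 0 < x' + d)) h1 h0
      (by ring)
    have c2 := Sx_convex.2 (Set.mem_Ioi.2 hx) (Set.mem_Ioi.2 (by linarith : 0 < x' + d)) h0 h1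
      (by ring)
    simp only [smul_eq_mul] at c1 c2
    have e1 : (1 - lam) * x + lam * (x' + d) = x' := by
      rw [hlam]; field_simp; ring
    have e2 : lam * x + (1 - lam) * (x' + d) = x + d := by
      rw [hlam]; field_simp; ring
    rw [e1] at c1
    rw [e2] at c2
    linarith

/-- Chord of a convex function. -/
theorem chord_le {x y d c : ℝ} (hx : 0 < x) (hd : 0 < d) (hxy : x ≤ y) (hy : y ≤ x + d)
    (h : Sx (x + d) ≤ Sx x - c * d) : Sx y ≤ Sx x - c * (y - x) := by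
  obtain ⟨lam, hlam⟩ : ∃ lam : ℝ, lam = (y - x) / d := ⟨_, rfl⟩
  have h0 : 0 ≤ lam := by rw [hlam]; exact div_nonneg (by linarith) hd.le
  have h1 : 0 ≤ 1 - lam := by
    rw [hlam, sub_nonneg, div_le_one hd]
    linarith
  have c1 := Sx_convex.2 (Set.mem_Ioi.2 hx) (Set.mem_Ioi.2 (by linarith : 0 < x + d)) h1 h0
      (by ring)
  simp only [smul_eq_mul] at c1
  have e1 : (1 - lam) * x + lam * (x + d) = y := by
    rw [hlam]; field_simp; ring
  rw [e1] at c1
  have e2 : lam * d = y - x := by rw [hlam]; field_simp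
  have h3 := mul_le_mul_of_nonneg_left h h0
  have e3 : lam * (Sx x - c * d) = lam * Sx x - c * (y - x) := by rw [← e2]; ring
  rw [e3] at h3
  linarith

theorem num26 : Sx (1 / 26 + 4 / 25) ≤ Sx (1 / 26) - 7 / 20 * (4 / 25) := by
  unfold Sx
  have l2 := Real.log_two_lt_d9
  have l2' := Real.log_two_gt_d9
  have l3 := Real.log_three_gt_d9
  have l3' := Real.log_three_lt_d9
  have l5 := Real.log_five_gt_d9
  have l5' := Real.log_five_lt_d9
  have h1 := log_diff_ge (y := 45 / 64) (z := 1 / 26 + 4 / 25 + 1 / 2) (by norm_num) (by norm_num)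
  have h2 := log_diff_ge (y := 1 + (1 / 26 + 4 / 25)) (z := 32 / 27) (by norm_num) (by norm_num)
  have h3 := log_diff_ge (y := 1 / 5) (z := 1 / 26 + 4 / 25) (by norm_num) (by norm_num)
  -- `7/13 ≥ 8/15`, `27/26 ≤ 25/24`, `1/26 ≥ 3/80`
  have h4 := log_diff_ge (y := 1 / 26 + 1 / 2) (z := 8 / 15) (by norm_num) (by norm_num)
  have h5 := log_diff_ge (y := 25 / 24) (z := 1 + 1 / 26) (by norm_num) (by norm_num)
  have h6 := log_diff_ge (y := 1 / 26) (z := 3 / 80) (by norm_num) (by norm_num)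
  have e1 : log (45 / 64 : ℝ) = 2 * log 3 + log 5 - 6 * log 2 := by
    have : (45 / 64 : ℝ) = 3 ^ 2 * 5 / 2 ^ 6 := by norm_num
    rw [this, log_div (by norm_num) (by norm_num), log_mul (by norm_num) (by norm_num), log_pow,
      log_pow]
    push_cast
    ring
  have e2 : log (32 / 27 : ℝ) = 5 * log 2 - 3 * log 3 := by
    have : (32 / 27 : ℝ) = 2 ^ 5 / 3 ^ 3 := by norm_num
    rw [this, log_div (by norm_num) (by norm_num), log_pow, log_pow]
    push_cast
    ring
  have e3 : log (1 / 5 : ℝ) = - log 5 := by rw [one_div, log_inv]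
  have e4 : log (8 / 15 : ℝ) = 3 * log 2 - log 3 - log 5 := by
    have : (8 / 15 : ℝ) = 2 ^ 3 / (3 * 5) := by norm_num
    rw [this, log_div (by norm_num) (by norm_num), log_mul (by norm_num) (by norm_num), log_pow]
    push_cast
    ring
  have e5 : log (25 / 24 : ℝ) = 2 * log 5 - 3 * log 2 - log 3 := by
    have : (25 / 24 : ℝ) = 5 ^ 2 / (2 ^ 3 * 3) := by norm_num
    rw [this, log_div (by norm_num) (by norm_num), log_mul (by norm_num) (by norm_num), log_pow,
      log_pow]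
    push_cast
    ring
  have e6 : log (3 / 80 : ℝ) = log 3 - 4 * log 2 - log 5 := by
    have : (3 / 80 : ℝ) = 3 / (2 ^ 4 * 5) := by norm_num
    rw [this, log_div (by norm_num) (by norm_num), log_mul (by norm_num) (by norm_num), log_pow]
    push_cast
    ring
  rw [e1] at h1
  rw [e2] at h2
  rw [e3] at h3
  rw [e4] at h4
  rw [e5] at h5
  rw [e6] at h6
  obtain ⟨A, hA⟩ : ∃ A, A = log (1 / 26 + 4 / 25 + 1 / 2 : ℝ) := ⟨_, rfl⟩
  obtain ⟨B, hB⟩ : ∃ B, B = log (1 + (1 / 26 + 4 / 25) : ℝ) := ⟨_, rfl⟩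
  obtain ⟨C, hC⟩ : ∃ C, C = log (1 / 26 + 4 / 25 : ℝ) := ⟨_, rfl⟩
  obtain ⟨D, hD⟩ : ∃ D, D = log (1 / 26 + 1 / 2 : ℝ) := ⟨_, rfl⟩
  obtain ⟨E, hE⟩ : ∃ E, E = log (1 + 1 / 26 : ℝ) := ⟨_, rfl⟩
  obtain ⟨F, hF⟩ : ∃ F, F = log (1 / 26 : ℝ) := ⟨_, rfl⟩
  rw [← hA] at h1 ⊢
  rw [← hB] at h2 ⊢
  rw [← hC] at h3 ⊢
  rw [← hD] at h4 ⊢
  rw [← hE] at h5 ⊢
  rw [← hF] at h6 ⊢
  norm_num at h1 h2 h3 h4 h5 h6 l2 l2' l3 l3' l5 l5' ⊢
  linarith

theorem num59 : Sx (1 / 59 + 4 / 25) ≤ Sx (1 / 59) - 11 / 25 * (4 / 25) := by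
  unfold Sx
  have l2 := Real.log_two_lt_d9
  have l2' := Real.log_two_gt_d9
  have l3 := Real.log_three_gt_d9
  have l3' := Real.log_three_lt_d9
  have l5 := Real.log_five_gt_d9
  have l5' := Real.log_five_lt_d9
  have h1 := log_diff_ge (y := 256 / 375) (z := 1 / 59 + 4 / 25 + 1 / 2) (by norm_num) (by norm_num)
  have h2 := log_diff_ge (y := 1 + (1 / 59 + 4 / 25)) (z := 75 / 64) (by norm_num) (by norm_num)
  have h3 := log_diff_ge (y := 8 / 45) (z := 1 / 59 + 4 / 25) (by norm_num) (by norm_num)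
  have h4 := log_diff_ge (y := 1 / 59 + 1 / 2) (z := 64 / 125) (by norm_num) (by norm_num)
  have h5 : log (1 + 1 / 59 : ℝ) ≤ 1 / 59 := by
    have := Real.log_le_sub_one_of_pos (show (0 : ℝ) < 1 + 1 / 59 by norm_num)
    linarith
  have h6 := log_diff_ge (y := 1 / 59) (z := 1 / 60) (by norm_num) (by norm_num)
  have e1 : log (256 / 375 : ℝ) = 8 * log 2 - log 3 - 3 * log 5 := by
    have : (256 / 375 : ℝ) = 2 ^ 8 / (3 * 5 ^ 3) := by norm_num
    rw [this, log_div (by norm_num) (by norm_num), log_mul (by norm_num) (by norm_num), log_pow,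
      log_pow]
    push_cast
    ring
  have e2 : log (75 / 64 : ℝ) = log 3 + 2 * log 5 - 6 * log 2 := by
    have : (75 / 64 : ℝ) = 3 * 5 ^ 2 / 2 ^ 6 := by norm_num
    rw [this, log_div (by norm_num) (by norm_num), log_mul (by norm_num) (by norm_num), log_pow,
      log_pow]
    push_cast
    ring
  have e3 : log (8 / 45 : ℝ) = 3 * log 2 - 2 * log 3 - log 5 := by
    have : (8 / 45 : ℝ) = 2 ^ 3 / (3 ^ 2 * 5) := by norm_num
    rw [this, log_div (by norm_num) (by norm_num), log_mul (by norm_num) (by norm_num), log_pow,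
      log_pow]
    push_cast
    ring
  have e4 : log (64 / 125 : ℝ) = 6 * log 2 - 3 * log 5 := by
    have : (64 / 125 : ℝ) = 2 ^ 6 / 5 ^ 3 := by norm_num
    rw [this, log_div (by norm_num) (by norm_num), log_pow, log_pow]
    push_cast
    ring
  have e6 : log (1 / 60 : ℝ) = - (2 * log 2) - log 3 - log 5 := by
    have : (1 / 60 : ℝ) = 1 / (2 ^ 2 * (3 * 5)) := by norm_num
    rw [this, log_div (by norm_num) (by norm_num), log_mul (by norm_num) (by norm_num), log_pow,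
      log_mul (by norm_num) (by norm_num), log_one]
    push_cast
    ring
  rw [e1] at h1
  rw [e2] at h2
  rw [e3] at h3
  rw [e4] at h4
  rw [e6] at h6
  obtain ⟨A, hA⟩ : ∃ A, A = log (1 / 59 + 4 / 25 + 1 / 2 : ℝ) := ⟨_, rfl⟩
  obtain ⟨B, hB⟩ : ∃ B, B = log (1 + (1 / 59 + 4 / 25) : ℝ) := ⟨_, rfl⟩
  obtain ⟨C, hC⟩ : ∃ C, C = log (1 / 59 + 4 / 25 : ℝ) := ⟨_, rfl⟩
  obtain ⟨D, hD⟩ : ∃ D, D = log (1 / 59 + 1 / 2 : ℝ) := ⟨_, rfl⟩
  obtain ⟨E, hE⟩ : ∃ E, E = log (1 + 1 / 59 : ℝ) := ⟨_, rfl⟩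
  obtain ⟨F, hF⟩ : ∃ F, F = log (1 / 59 : ℝ) := ⟨_, rfl⟩
  rw [← hA] at h1 ⊢
  rw [← hB] at h2 ⊢
  rw [← hC] at h3 ⊢
  rw [← hD] at h4 ⊢
  rw [← hE] at h5 ⊢
  rw [← hF] at h6 ⊢
  norm_num at h1 h2 h3 h4 h5 h6 l2 l2' l3 l3' l5 l5' ⊢
  linarith

/-- Convexity: `Sx x - Sx (x + 4/25)` is antitone in `x`, at `x = 1/26` it is `≥ .056`. -/
theorem Sx_diff {x y : ℝ} (hx : 0 < x) (hx1 : x ≤ 1 / 26) (hxy : x ≤ y) (hy : y ≤ x + 4 / 25) :
    Sx y ≤ Sx x - 7 / 20 * (y - x) := by
  refine chord_le (d := 4 / 25) hx (by norm_num) hxy hy ?_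
  have h1 := incr_le (d := 4 / 25) hx hx1 (by norm_num)
  have h2 := num26
  linarith

/-- The same at `1/59` (`k ≥ 60`). -/
theorem Sx_diff' {x y : ℝ} (hx : 0 < x) (hx1 : x ≤ 1 / 59) (hxy : x ≤ y) (hy : y ≤ x + 4 / 25) :
    Sx y ≤ Sx x - 11 / 25 * (y - x) := by
  refine chord_le (d := 4 / 25) hx (by norm_num) hxy hy ?_
  have h1 := incr_le (d := 4 / 25) hx hx1 (by norm_num)
  have h2 := num59
  linarith

/-- The normalised size of the numerators. -/
noncomputable def nb (n k : ℕ) : ℝ := n + ((k : ℝ) + 1) / 2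

/-- `k` and `n` even: `ev_gen`, `log (a (nb+1/2)/k) ≥ log (a nb/k)`, `log (k/2) = log k - log 2`. -/
theorem ev_ee {n k a : ℕ} (hk : 26 ≤ k) (hek : Even k) (hen : Even n) (ha : 1 ≤ a) :
    -∑ i ∈ Icc 1 (k / 2), log ((a : ℝ) * ((n / 2 : ℕ) + (i : ℝ)) / i) ≤
      -(k / 2 * log (a * nb n k / k)) - k / 2 + 1 / 2 * log k + 0.6535 +
        k * Sx ((n + 1) / k) := by
  obtain ⟨K, rfl⟩ := hek
  obtain ⟨N, rfl⟩ := hen
  have ha0 : (0 : ℝ) < a := by exact_mod_cast ha
  have hK : 1 ≤ K := by omega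
  have hK0 : (0 : ℝ) < K := by exact_mod_cast hK
  rw [show (K + K) / 2 = K by omega, show (N + N) / 2 = N by omega]
  have h := ev_gen (N := N) hK ha0
  have e1 : (((N + N : ℕ) : ℝ) + 1) / ((K + K : ℕ) : ℝ) = (2 * N + 1) / (2 * K) := by
    push_cast; ring
  have e2 : log (((K + K : ℕ) : ℝ)) = log 2 + log K := by
    rw [show ((K + K : ℕ) : ℝ) = 2 * K by push_cast; ring, log_mul (by norm_num) hK0.ne']
  have h3 : log (a * nb (N + N) (K + K) / ((K + K : ℕ) : ℝ)) ≤
      log (a * (2 * N + K + 1) / (2 * K)) := by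
    unfold nb
    refine log_le_log (by positivity) ?_
    push_cast
    rw [← two_mul (K : ℝ)]
    refine div_le_div_of_nonneg_right ?_ (by positivity)
    refine mul_le_mul_of_nonneg_left ?_ ha0.le
    linarith
  have l2 := Real.log_two_gt_d9
  rw [e1, e2]
  have h4 := mul_le_mul_of_nonneg_left h3 hK0.le
  push_cast at h4 ⊢
  norm_num at l2 ⊢
  linarith

/-- `k` even, `n` odd: `2 (n/2) + k/2 + 1 = nb - 1/2 =: B`, `log (nb/B) ≤ 1/(2B)`, `B = n + k/2`. -/
theorem ev_eo {n k a : ℕ} (hk : 26 ≤ k) (hek : Even k) (hon : Odd n) (ha : 1 ≤ a) :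
    -∑ i ∈ Icc 1 (k / 2), log ((a : ℝ) * ((n / 2 : ℕ) + (i : ℝ)) / i) ≤
      -(k / 2 * log (a * nb n k / k)) - k / 2 + 1 / 2 * log k + 0.6535 +
        k * Sx (n / k) + k / (4 * n + 2 * k) := by
  obtain ⟨K, rfl⟩ := hek
  obtain ⟨N, rfl⟩ := hon
  have ha0 : (0 : ℝ) < a := by exact_mod_cast ha
  have hK : 1 ≤ K := by omega
  have hK0 : (0 : ℝ) < K := by exact_mod_cast hK
  rw [show (K + K) / 2 = K by omega, show (2 * N + 1) / 2 = N by omega]
  have h := ev_gen (N := N) hK ha0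
  have e1 : (((2 * N + 1 : ℕ) : ℝ)) / ((K + K : ℕ) : ℝ) = (2 * N + 1) / (2 * K) := by
    push_cast; ring
  have e2 : log (((K + K : ℕ) : ℝ)) = log 2 + log K := by
    rw [show ((K + K : ℕ) : ℝ) = 2 * K by push_cast; ring, log_mul (by norm_num) hK0.ne']
  have h3 : log (a * nb (2 * N + 1) (K + K) / ((K + K : ℕ) : ℝ)) ≤
      log (a * (2 * N + K + 1) / (2 * K)) + 1 / (2 * (2 * N + K + 1)) := by
    unfold nb
    have e3 : (a : ℝ) * (((2 * N + 1 : ℕ) : ℝ) + (((K + K : ℕ) : ℝ) + 1) / 2) /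
        ((K + K : ℕ) : ℝ) = (a * (2 * N + K + 1) / (2 * K)) *
          (1 + 1 / (2 * (2 * N + K + 1))) := by
      push_cast
      field_simp
      ring
    rw [e3, log_mul (by positivity) (by positivity)]
    have := Real.log_le_sub_one_of_pos (show (0 : ℝ) < 1 + 1 / (2 * (2 * N + K + 1)) by positivity)
    linarith
  have l2 := Real.log_two_gt_d9
  rw [e1, e2]
  have h4 := mul_le_mul_of_nonneg_left h3 hK0.le
  have e5 : (K : ℝ) * (1 / (2 * (2 * N + K + 1))) =
      ((K + K : ℕ) : ℝ) / (4 * ((2 * N + 1 : ℕ) : ℝ) + 2 * ((K + K : ℕ) : ℝ)) := by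
    push_cast
    field_simp
    ring
  rw [mul_add, e5] at h4
  push_cast at h4 ⊢
  norm_num at l2 ⊢
  linarith

/-- `k` odd, `n` even: `2 (n/2) + k/2 + 1 = nb`; `-(k-1)/2 log (k/(k-1)) ≤ -1/2 + 1/(2k)`. -/
theorem ev_odd {n k a : ℕ} (hk : 26 ≤ k) (hok : Odd k) (hen : Even n) (ha : 1 ≤ a) :
    -∑ i ∈ Icc 1 (k / 2), log ((a : ℝ) * ((n / 2 : ℕ) + (i : ℝ)) / i) ≤
      -(k / 2 * log (a * nb n k / k)) + 1 / 2 * log (a * nb n k / k) - k / 2 + 1 / 2 * log k +
        0.6535 + 1 / (2 * k) + (k - 1) * Sx ((n + 1) / (k - 1)) := by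
  obtain ⟨K, rfl⟩ := hok
  obtain ⟨N, rfl⟩ := hen
  have ha0 : (0 : ℝ) < a := by exact_mod_cast ha
  have hK : 1 ≤ K := by omega
  have hK0 : (0 : ℝ) < K := by exact_mod_cast hK
  rw [show (2 * K + 1) / 2 = K by omega, show (N + N) / 2 = N by omega]
  have h := ev_gen (N := N) hK ha0
  have e1 : (((N + N : ℕ) : ℝ) + 1) / (((2 * K + 1 : ℕ) : ℝ) - 1) = (2 * N + 1) / (2 * K) := by
    push_cast; ring
  have e2 : log (K : ℝ) ≤ log ((2 * K + 1 : ℕ) : ℝ) - log 2 := by
    rw [← log_div (by positivity) (by norm_num)]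
    refine log_le_log hK0 ?_
    push_cast
    linarith
  have h3 : log (a * nb (N + N) (2 * K + 1) / ((2 * K + 1 : ℕ) : ℝ)) + 1 / (2 * K + 1) ≤
      log (a * (2 * N + K + 1) / (2 * K)) := by
    unfold nb
    have e3 : (a : ℝ) * (2 * N + K + 1) / (2 * K) =
        (a * (((N + N : ℕ) : ℝ) + (((2 * K + 1 : ℕ) : ℝ) + 1) / 2) / ((2 * K + 1 : ℕ) : ℝ)) *
          (1 - 1 / (2 * (K : ℝ) + 1))⁻¹ := by
      have : (1 - 1 / (2 * (K : ℝ) + 1)) = 2 * K / (2 * K + 1) := by field_simp; ring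
      rw [this]
      push_cast
      field_simp
      ring
    have h5 : 0 < 1 - 1 / (2 * (K : ℝ) + 1) := by
      rw [sub_pos, div_lt_one (by positivity)]
      linarith
    rw [e3, log_mul (by positivity) (by positivity), log_inv]
    have := Real.log_le_sub_one_of_pos h5
    linarith
  have l2 := Real.log_two_gt_d9
  rw [e1]
  have h4 := mul_le_mul_of_nonneg_left h3 hK0.le
  have e6 : (K : ℝ) * (1 / (2 * K + 1)) = 1 / 2 - 1 / (2 * ((2 * K + 1 : ℕ) : ℝ)) := by
    push_cast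
    field_simp
    ring
  rw [mul_add, e6] at h4
  obtain ⟨Q, hQ⟩ : ∃ Q, Q = log (a * nb (N + N) (2 * K + 1) / ((2 * K + 1 : ℕ) : ℝ)) := ⟨_, rfl⟩
  obtain ⟨R, hR⟩ : ∃ R, R = log ((2 * K + 1 : ℕ) : ℝ) := ⟨_, rfl⟩
  rw [← hQ] at h4 ⊢
  rw [← hR] at e2 ⊢
  obtain ⟨P, hP⟩ : ∃ P : ℝ, P = 1 / (2 * ((2 * K + 1 : ℕ) : ℝ)) := ⟨_, rfl⟩
  rw [← hP] at h4 ⊢
  have e7 : (((2 * K + 1 : ℕ) : ℝ) - 1) = 2 * K := by push_cast; ring
  have e8 : (((2 * K + 1 : ℕ) : ℝ)) = 2 * K + 1 := by push_cast; ring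
  rw [e7, e8]
  linarith

end Pool.Agent.SignedQ.Far
end

section

/-! # FAR arcs: the real product of the denominators (from `D0` of Fi0) -/

namespace Pool.Agent.SignedQ.Far

open Real Finset

noncomputable def D0x (k : ℕ) (t : ℝ) : ℝ :=
  ∑ j ∈ Icc 1 k, 1 / 2 * log (2 * (cosh (j * t) - cos (j * π))) -
    ∑ j ∈ Icc 1 k, 1 / 6 * log (2 * sinh (3 * (j * t)))

theorem D0x_eq {k : ℕ} {t : ℝ} (ht : 0 < t) : D0x k t =
    ∑ j ∈ Icc 1 k, (if Even j then log (2 * sinh (j * t / 2)) else log (2 * cosh (j * t / 2))) -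
      1 / 6 * ∑ j ∈ Icc 1 k, log (2 * sinh (3 * (j * t))) := by
  unfold D0x
  rw [mul_sum]
  congr 1
  refine sum_congr rfl fun j hj => ?_
  rw [mem_Icc] at hj
  have hj0 : (0:ℝ) < j := by exact_mod_cast hj.1
  have h1 : cosh (j * t) = cosh (j * t / 2) ^ 2 + sinh (j * t / 2) ^ 2 := by
    rw [← cosh_two_mul]; ring_nf
  have h2 := cosh_sq (j * t / 2)
  have hs : 0 < sinh (j * t / 2) := sinh_pos_iff.2 (by positivity)
  have hc := cosh_pos (j * t / 2)
  rw [cos_nat_mul_pi]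
  split_ifs with he
  · rw [he.neg_one_pow, show 2 * (cosh (j * t) - 1) = (2 * sinh (j * t / 2)) ^ 2 by rw [h1]; linarith,
      log_pow]
    push_cast; ring
  · rw [(Nat.not_even_iff_odd.1 he).neg_one_pow,
      show 2 * (cosh (j * t) - -1) = (2 * cosh (j * t / 2)) ^ 2 by rw [h1]; linarith, log_pow]
    push_cast; ring

theorem D0x_le {k : ℕ} (hk : 26 ≤ k) {t : ℝ} (ht : 0 < t) (hkt : k * t ≤ 1) :
    D0x k t ≤ k * (-(28538 / 100000) + log (k * t) / 3 - 3 / 100 * (k * t) ^ 2) + 5 / 12 * log k +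
      (if Even k then 51 / 100 else -log (k * t) / 2 + 87 / 100) := by
  rw [D0x_eq ht]
  exact D0 hk ht hkt

/-- `-c² ≤ -c₀² (1 + 2 log (c/c₀))`, `c₀ = 4/5`. -/
theorem quad_tangent {c : ℝ} (hc : 0 < c) :
    -(3 / 100 * c ^ 2) ≤ -(2776 / 100000) - 384 / 10000 * log c := by
  have h1 : log ((c / (4 / 5)) ^ 2) ≤ (c / (4 / 5)) ^ 2 - 1 := log_le_sub_one_of_pos (by positivity)
  have h2 : log ((c / (4 / 5)) ^ 2) = 2 * (log c - log (4 / 5)) := by
    rw [log_pow, log_div hc.ne' (by norm_num)]; push_cast; ring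
  have h3 : log (4 / 5 : ℝ) ≤ -(2231 / 10000) := by
    rw [log_le_iff_le_exp (by norm_num), exp_neg]
    rw [le_inv_comm₀ (by norm_num) (exp_pos _)]
    have := exp_bound' (x := (2231 / 10000 : ℝ)) (by norm_num) (by norm_num) (n := 6) (by norm_num)
    refine this.trans ?_
    norm_num [sum_range_succ, Nat.factorial]
  have h4 : (c / (4 / 5)) ^ 2 = 25 / 16 * c ^ 2 := by ring
  rw [h4] at h1 h2
  rw [h2] at h1
  linarith

/-- The linear bounds of `D0x`, with and without the quadratic gain. -/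
theorem D0x_lin {k : ℕ} (hk : 26 ≤ k) {t : ℝ} (ht : 0 < t) (hkt : k * t ≤ 1) (q : Bool) :
    D0x k t ≤ k * (-(if q then 31314 / 100000 else 28538 / 100000 : ℝ) -
        (if q then 1 / 3 - 384 / 10000 else 1 / 3 : ℝ) * log (1 / (k * t))) + 5 / 12 * log k +
      ((if Even k then 51 / 100 else 87 / 100 : ℝ) + (if Even k then 0 else 1 / 2 : ℝ) *
        log (1 / (k * t))) := by
  have hk0 : (0:ℝ) < k := by have : 0 < k := by omega
                             exact_mod_cast this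
  have h := D0x_le hk ht hkt
  have hc : 0 < k * t := by positivity
  have e : log (1 / (k * t)) = -log (k * t) := by rw [one_div, log_inv]
  rw [e]
  have hq := quad_tangent hc
  have hq2 : (0:ℝ) ≤ (k * t) ^ 2 := by positivity
  have hp : (if Even k then (51 / 100 : ℝ) else -log (k * t) / 2 + 87 / 100) =
      ((if Even k then 51 / 100 else 87 / 100 : ℝ) + (if Even k then 0 else 1 / 2 : ℝ) *
        -log (k * t)) := by
    split_ifs <;> ring
  rw [hp] at h
  refine h.trans ?_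
  have : k * (-(28538 / 100000) + log (k * t) / 3 - 3 / 100 * (k * t) ^ 2) ≤
      k * (-(if q then 31314 / 100000 else 28538 / 100000 : ℝ) -
        (if q then 1 / 3 - 384 / 10000 else 1 / 3 : ℝ) * -log (k * t)) := by
    refine mul_le_mul_of_nonneg_left ?_ hk0.le
    cases q
    · simp only [Bool.false_eq_true, if_false]; linarith
    · simp only [if_true]; linarith
  linarith

end Pool.Agent.SignedQ.Far
end
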