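import Mathlib
import Pool.Agent.Lib.MP_cf17a0_co.Sym

section

/-! # Alternating sums of unimodal functions, and the functions `u²/sinh² u`, `u²/cosh² u` -/

namespace Pool.Agent.SignedQ.An

open Finset

/-! ### Alternating sums -/

/-- Alternating sum of a nonnegative nonincreasing sequence. -/
theorem alt_antitone (g : ℕ → ℝ) (m : ℕ) (h0 : ∀ j < m, 0 ≤ g j)
    (h1 : ∀ j, j + 1 < m → g (j + 1) ≤ g j) :
    0 ≤ ∑ j ∈ range m, (-1 : ℝ) ^ j * g j ∧ ∀ H : ℝ, 0 ≤ H → (0 < m → g 0 ≤ H) →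
      ∑ j ∈ range m, (-1 : ℝ) ^ j * g j ≤ H := by
  induction m generalizing g with
  | zero => exact ⟨by simp, fun H hH _ => by simpa using hH⟩
  | succ m ih =>
    have e : ∑ j ∈ range (m + 1), (-1 : ℝ) ^ j * g j =
        g 0 - ∑ j ∈ range m, (-1 : ℝ) ^ j * g (j + 1) := by
      rw [sum_range_succ', pow_zero, one_mul, sub_eq_add_neg, ← sum_neg_distrib, add_comm]
      congr 1
      exact sum_congr rfl fun j _ => by rw [pow_succ]; ring
    obtain ⟨i1, i2⟩ := ih (fun j => g (j + 1)) (fun j hj => h0 _ (by omega))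
      (fun j hj => h1 _ (by omega))
    rw [e]
    constructor
    · have := i2 (g 0) (h0 0 (by omega)) (fun hm => h1 0 (by omega))
      linarith
    · intro H _ hH
      have := hH (by omega)
      linarith

theorem alt_split (g : ℕ → ℝ) (p q : ℕ) : ∑ j ∈ range (p + q), (-1 : ℝ) ^ j * g j =
    ∑ j ∈ range p, (-1 : ℝ) ^ j * g j + (-1) ^ p * ∑ j ∈ range q, (-1 : ℝ) ^ j * g (p + j) := by
  rw [sum_range_add, mul_sum]
  congr 1
  exact sum_congr rfl fun j _ => by rw [pow_add]; ring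

theorem alt_reverse (g : ℕ → ℝ) (p : ℕ) : ∑ j ∈ range (p + 1), (-1 : ℝ) ^ j * g j =
    (-1) ^ p * ∑ j ∈ range (p + 1), (-1 : ℝ) ^ j * g (p - j) := by
  rw [← sum_range_reflect, mul_sum]
  refine sum_congr rfl fun j hj => ?_
  have hj' : j ≤ p := by have := mem_range.1 hj; omega
  rw [show p + 1 - 1 - j = p - j by omega, ← mul_assoc, ← pow_add]
  congr 1
  rw [show p + j = (p - j) + 2 * j by omega, pow_add, pow_mul]
  norm_num

/-- Alternating sum of a unimodal sequence. -/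
theorem alt_unimodal_seq (g : ℕ → ℝ) (m p : ℕ) (hp : p ≤ m) (H : ℝ) (hH : 0 ≤ H)
    (h0 : ∀ j < m, 0 ≤ g j) (hle : ∀ j < m, g j ≤ H)
    (h1 : ∀ j, j + 1 < p → g j ≤ g (j + 1)) (h2 : ∀ j, p ≤ j → j + 1 < m → g (j + 1) ≤ g j) :
    |∑ j ∈ range m, (-1 : ℝ) ^ j * g j| ≤ H := by
  obtain ⟨q, rfl⟩ := Nat.exists_eq_add_of_le hp
  rw [alt_split]
  obtain ⟨b0, b1⟩ := alt_antitone (fun j => g (p + j)) q (fun j hj => h0 _ (by omega))
    (fun j hj => h2 (p + j) (by omega) (by omega))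
  have b1' := b1 H hH (fun hq => hle _ (by omega))
  set Y := ∑ j ∈ range q, (-1 : ℝ) ^ j * g (p + j)
  rcases Nat.eq_zero_or_pos p with hp0 | hp0
  · subst hp0
    rw [sum_range_zero, pow_zero, one_mul, zero_add, abs_le]
    constructor <;> linarith
  · obtain ⟨p', rfl⟩ : ∃ p', p = p' + 1 := ⟨p - 1, by omega⟩
    rw [alt_reverse]
    obtain ⟨a0, a1⟩ := alt_antitone (fun j => g (p' - j)) (p' + 1) (fun j hj => h0 _ (by omega))
      (fun j hj => by
        have := h1 (p' - (j + 1)) (by omega)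
        rwa [show p' - (j + 1) + 1 = p' - j by omega] at this)
    have a1' := a1 H hH (fun _ => by simpa using hle p' (by omega))
    set Z := ∑ j ∈ range (p' + 1), (-1 : ℝ) ^ j * g (p' - j)
    have e : (-1 : ℝ) ^ p' * Z + (-1) ^ (p' + 1) * Y = (-1) ^ p' * (Z - Y) := by
      rw [pow_succ]; ring
    rw [e, abs_mul, abs_pow, abs_neg, abs_one, one_pow, one_mul, abs_le]
    constructor <;> linarith

/-- Alternating sum of a unimodal function along an increasing sequence. -/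
theorem alt_unimodal {f : ℝ → ℝ} {c : ℝ} (hm : MonotoneOn f (Set.Icc 0 c)) (ha : AntitoneOn f (Set.Ici c))
    (x : ℕ → ℝ) (hx : Monotone x) (hx0 : ∀ j, 0 ≤ x j) (m : ℕ) (H : ℝ) (hH : 0 ≤ H)
    (h0 : ∀ j < m, 0 ≤ f (x j)) (hle : ∀ j < m, f (x j) ≤ H) :
    |∑ j ∈ range m, (-1 : ℝ) ^ j * f (x j)| ≤ H := by
  classical
  have hex : ∃ j, m ≤ j ∨ c < x j := ⟨m, Or.inl le_rfl⟩
  set p := Nat.find hex with hp
  have hpm : p ≤ m := Nat.find_min' hex (Or.inl le_rfl)
  refine alt_unimodal_seq (fun j => f (x j)) m p hpm H hH h0 hle ?_ ?_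
  · intro j hj
    have h1 := Nat.find_min hex (show j < p by omega)
    have h2 := Nat.find_min hex (show j + 1 < p by omega)
    push Not at h1 h2
    exact hm ⟨hx0 _, h1.2⟩ ⟨hx0 _, h2.2⟩ (hx (Nat.le_succ j))
  · intro j hj hjm
    have hs := Nat.find_spec hex
    rcases hs with hs | hs
    · omega
    · have h3 : c ≤ x j := hs.le.trans (hx hj)
      exact ha h3 (h3.trans (hx (Nat.le_succ j))) (hx (Nat.le_succ j))

/-! ### Elementary calculus -/

theorem nonneg_of_deriv {f f' : ℝ → ℝ} (hf : ∀ x, 0 ≤ x → HasDerivAt f (f' x) x) (h0 : 0 ≤ f 0)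
    (h' : ∀ x, 0 < x → 0 ≤ f' x) {x : ℝ} (hx : 0 ≤ x) : 0 ≤ f x := by
  have hm : MonotoneOn f (Set.Ici 0) := by
    refine monotoneOn_of_deriv_nonneg (convex_Ici 0) ?_ ?_ ?_
    · intro x hx
      exact (hf x hx).continuousAt.continuousWithinAt
    · intro x hx
      rw [interior_Ici] at hx
      exact (hf x (le_of_lt hx)).differentiableAt.differentiableWithinAt
    · intro x hx
      rw [interior_Ici] at hx
      rw [(hf x (le_of_lt hx)).deriv]
      exact h' x hx
  exact h0.trans (hm Set.self_mem_Ici hx hx)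

theorem unimodal_of_deriv {f f' : ℝ → ℝ} (hf : ∀ x, 0 ≤ x → HasDerivAt f (f' x) x) {c : ℝ}
    (hc : 0 ≤ c) (h1 : ∀ x, 0 < x → x < c → 0 ≤ f' x) (h2 : ∀ x, c < x → f' x ≤ 0) :
    MonotoneOn f (Set.Icc 0 c) ∧ AntitoneOn f (Set.Ici c) := by
  constructor
  · refine monotoneOn_of_deriv_nonneg (convex_Icc 0 c) ?_ ?_ ?_
    · intro x hx
      exact (hf x hx.1).continuousAt.continuousWithinAt
    · intro x hx
      rw [interior_Icc] at hx
      exact (hf x hx.1.le).differentiableAt.differentiableWithinAt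
    · intro x hx
      rw [interior_Icc] at hx
      rw [(hf x hx.1.le).deriv]
      exact h1 x hx.1 hx.2
  · refine antitoneOn_of_deriv_nonpos (convex_Ici c) ?_ ?_ ?_
    · intro x hx
      exact (hf x (hc.trans hx)).continuousAt.continuousWithinAt
    · intro x hx
      rw [interior_Ici] at hx
      exact (hf x (hc.trans (le_of_lt hx))).differentiableAt.differentiableWithinAt
    · intro x hx
      rw [interior_Ici] at hx
      rw [(hf x (hc.trans (le_of_lt hx))).deriv]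
      exact h2 x hx

/-- `sinh x ≤ x cosh x`. -/
theorem sinh_le_mul_cosh {x : ℝ} (hx : 0 ≤ x) : Real.sinh x ≤ x * Real.cosh x := by
  have h := nonneg_of_deriv (f := fun x => x * Real.cosh x - Real.sinh x)
    (f' := fun x => 1 * Real.cosh x + x * Real.sinh x - Real.cosh x)
    (fun x _ => ((hasDerivAt_id x).mul (Real.hasDerivAt_cosh x)).sub (Real.hasDerivAt_sinh x))
    (by simp) (fun x hx => by
      have := Real.sinh_pos_iff.2 hx
      nlinarith [mul_pos hx this]) hx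
  linarith

/-- `x³/3 ≤ x cosh x - sinh x`. -/
theorem cube_le {x : ℝ} (hx : 0 ≤ x) : x ^ 3 / 3 ≤ x * Real.cosh x - Real.sinh x := by
  have h := nonneg_of_deriv (f := fun x => x * Real.cosh x - Real.sinh x - x ^ 3 / 3)
    (f' := fun x => 1 * Real.cosh x + x * Real.sinh x - Real.cosh x - (3 : ℕ) * x ^ 2 / 3)
    (fun x _ => (((hasDerivAt_id x).mul (Real.hasDerivAt_cosh x)).sub
      (Real.hasDerivAt_sinh x)).sub ((hasDerivAt_pow 3 x).div_const 3))
    (by simp) (fun x hx => by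
      have := Real.self_le_sinh_iff.2 hx.le
      push_cast
      nlinarith [mul_le_mul_of_nonneg_left this hx.le]) hx
  linarith

/-- `(6 - x²) sinh x ≤ 6 x`. -/
theorem sinh_upper {x : ℝ} (hx : 0 ≤ x) : (6 - x ^ 2) * Real.sinh x ≤ 6 * x := by
  have hg : ∀ x : ℝ, 0 ≤ x → 0 ≤ 6 + 2 * x * Real.sinh x - (6 - x ^ 2) * Real.cosh x := by
    intro x hx
    refine nonneg_of_deriv (f := fun x => 6 + 2 * x * Real.sinh x - (6 - x ^ 2) * Real.cosh x)
      (f' := fun x => (2 * Real.sinh x + 2 * x * Real.cosh x) -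
        ((-(2 * x)) * Real.cosh x + (6 - x ^ 2) * Real.sinh x)) ?_ (by simp) ?_ hx
    · intro x _
      have e1 : HasDerivAt (fun x : ℝ => 2 * x * Real.sinh x)
          (2 * Real.sinh x + 2 * x * Real.cosh x) x := by
        have := ((hasDerivAt_id x).const_mul 2).mul (Real.hasDerivAt_sinh x)
        convert! this using 1
        simp
      have e2 : HasDerivAt (fun x : ℝ => (6 - x ^ 2)) (-(2 * x)) x := by
        have := (hasDerivAt_pow 2 x).const_sub 6
        simpa using this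
      exact (e1.const_add 6).sub (e2.mul (Real.hasDerivAt_cosh x))
    · intro x hx
      have h1 := sinh_le_mul_cosh hx.le
      have h2 := Real.sinh_pos_iff.2 hx
      nlinarith [mul_pos (pow_pos hx 2) h2]
  have h := nonneg_of_deriv (f := fun x => 6 * x - (6 - x ^ 2) * Real.sinh x)
    (f' := fun x => 6 - ((-(2 * x)) * Real.sinh x + (6 - x ^ 2) * Real.cosh x))
    (fun x _ => by
      have e1 : HasDerivAt (fun x : ℝ => 6 * x) 6 x := by
        simpa using (hasDerivAt_id x).const_mul (6 : ℝ)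
      have e2 : HasDerivAt (fun x : ℝ => (6 - x ^ 2)) (-(2 * x)) x := by
        have := (hasDerivAt_pow 2 x).const_sub 6
        simpa using this
      exact e1.sub (e2.mul (Real.hasDerivAt_sinh x)))
    (by simp) (fun x hx => by have := hg x hx.le; linarith) hx
  linarith

/-! ### The functions -/

/-- `(u / sinh u)²`. -/
noncomputable def pS (u : ℝ) : ℝ := (u / Real.sinh u) ^ 2

/-- `(u / cosh u)²`. -/
noncomputable def hS (u : ℝ) : ℝ := (u / Real.cosh u) ^ 2

theorem pS_sub_hS {u : ℝ} (hu : 0 < u) : pS u - hS u = pS (2 * u) := by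
  have h1 := (Real.sinh_pos_iff.2 hu).ne'
  have h2 := (Real.cosh_pos u).ne'
  unfold pS hS
  rw [Real.sinh_two_mul, div_pow, div_pow, div_pow, div_sub_div _ _ (pow_ne_zero 2 h1)
    (pow_ne_zero 2 h2), div_eq_div_iff (by positivity) (by positivity)]
  have h3 := Real.cosh_sq u
  linear_combination (u ^ 2 * (2 * Real.sinh u * Real.cosh u) ^ 2) * h3

theorem hS_nonneg (u : ℝ) : 0 ≤ hS u := sq_nonneg _

theorem pS_nonneg (u : ℝ) : 0 ≤ pS u := sq_nonneg _

theorem hS_le_sq (u : ℝ) : hS u ≤ u ^ 2 := by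
  unfold hS
  rw [div_pow]
  refine div_le_self (sq_nonneg _) ?_
  have := Real.one_le_cosh u
  nlinarith

theorem hS_le_half (u : ℝ) : hS u ≤ 1 / 2 := by
  unfold hS
  have h1 := Real.cosh_pos u
  rw [div_pow, div_le_iff₀ (by positivity)]
  have h2 : 1 + u ^ 2 / 2 ≤ Real.cosh u := by
    have h := nonneg_of_deriv (f := fun x => Real.cosh x - 1 - x ^ 2 / 2)
      (f' := fun x => Real.sinh x - (2 : ℕ) * x ^ 1 / 2)
      (fun x _ => ((Real.hasDerivAt_cosh x).sub_const 1).sub ((hasDerivAt_pow 2 x).div_const 2))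
      (by simp) (fun x hx => by
        have := Real.self_le_sinh_iff.2 hx.le
        push_cast
        linarith) (abs_nonneg u)
    simp only [sq_abs, Real.cosh_abs] at h
    linarith
  nlinarith [sq_nonneg (u ^ 2 / 2 - 1), sq_nonneg (1 - u ^ 2 / 2)]

theorem pS_antitone : AntitoneOn pS (Set.Ioi 0) := by
  intro x hx y hy hxy
  have hx' : 0 < x := hx
  have hy' : 0 < y := hy
  have h1 := Real.sinh_pos_iff.2 hx'
  have h2 := Real.sinh_pos_iff.2 hy'
  have h3 : MonotoneOn (fun x => Real.sinh x / x) (Set.Ioi 0) := by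
    have hd : ∀ x : ℝ, 0 < x → HasDerivAt (fun x => Real.sinh x / x)
        ((Real.cosh x * x - Real.sinh x * 1) / x ^ 2) x := fun x hx =>
      (Real.hasDerivAt_sinh x).div (hasDerivAt_id x) hx.ne'
    refine monotoneOn_of_deriv_nonneg (convex_Ioi 0) ?_ ?_ ?_
    · intro x hx
      exact (hd x hx).continuousAt.continuousWithinAt
    · intro x hx
      rw [interior_Ioi] at hx
      exact (hd x hx).differentiableAt.differentiableWithinAt
    · intro x hx
      rw [interior_Ioi] at hx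
      rw [(hd x hx).deriv]
      refine div_nonneg ?_ (sq_nonneg _)
      have := sinh_le_mul_cosh (le_of_lt hx : (0 : ℝ) ≤ x)
      linarith
  have h4 := h3 hx hy hxy
  simp only at h4
  unfold pS
  have h5 : y / Real.sinh y ≤ x / Real.sinh x := by
    rw [div_le_div_iff₀ h2 h1]
    rw [div_le_div_iff₀ hx' hy'] at h4
    linarith
  exact pow_le_pow_left₀ (by positivity) h5 2

theorem pS_le_one {u : ℝ} (hu : 0 < u) : pS u ≤ 1 := by
  have h1 := Real.sinh_pos_iff.2 hu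
  have h2 := Real.self_le_sinh_iff.2 hu.le
  unfold pS
  have h3 : u / Real.sinh u ≤ 1 := by rw [div_le_one h1]; exact h2
  have h4 : 0 ≤ u / Real.sinh u := by positivity
  nlinarith

/-- `1 - u²/3 ≤ (u/sinh u)²`. -/
theorem pS_ge {u : ℝ} (hu : 0 < u) : 1 - u ^ 2 / 3 ≤ pS u := by
  have h1 := Real.sinh_pos_iff.2 hu
  have h2 := sinh_upper hu.le
  rcases le_or_gt 6 (u ^ 2) with h | h
  · have := pS_nonneg u
    linarith
  · have h3 : 1 - u ^ 2 / 6 ≤ u / Real.sinh u := by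
      rw [le_div_iff₀ h1]
      linarith
    unfold pS
    have h4 : 0 ≤ 1 - u ^ 2 / 6 := by linarith
    nlinarith [pow_le_pow_left₀ h4 h3 2, sq_nonneg (u ^ 2)]

theorem hS_unimodal : ∃ c : ℝ, MonotoneOn hS (Set.Icc 0 c) ∧ AntitoneOn hS (Set.Ici c) := by
  -- `φ u = cosh u - u sinh u`
  have hφ : ∀ x y : ℝ, 0 ≤ x → x ≤ y → Real.cosh y - y * Real.sinh y ≤
      Real.cosh x - x * Real.sinh x := by
    intro x y hx hxy
    have hm : AntitoneOn (fun u => Real.cosh u - u * Real.sinh u) (Set.Ici 0) := by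
      have hd : ∀ x : ℝ, HasDerivAt (fun u => Real.cosh u - u * Real.sinh u)
          (Real.sinh x - (1 * Real.sinh x + x * Real.cosh x)) x := fun x =>
        (Real.hasDerivAt_cosh x).sub ((hasDerivAt_id x).mul (Real.hasDerivAt_sinh x))
      refine antitoneOn_of_deriv_nonpos (convex_Ici 0) ?_ ?_ ?_
      · intro x _
        exact (hd x).continuousAt.continuousWithinAt
      · intro x _
        exact (hd x).differentiableAt.differentiableWithinAt
      · intro x hx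
        rw [interior_Ici] at hx
        rw [(hd x).deriv]
        have hx' : 0 < x := hx
        have := Real.cosh_pos x
        nlinarith [mul_pos hx' this]
    exact hm hx (hx.trans hxy) hxy
  have hcont : ContinuousOn (fun u => Real.cosh u - u * Real.sinh u) (Set.Icc 0 2) := by
    fun_prop
  have h2 : Real.cosh 2 - 2 * Real.sinh 2 ≤ 0 := by
    have e1 := Real.cosh_sub_sinh 2
    have e2 : Real.exp (-2) ≤ 1 := by rw [Real.exp_le_one_iff]; norm_num
    have e3 : (2 : ℝ) ≤ Real.sinh 2 := Real.self_le_sinh_iff.2 (by norm_num)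
    linarith
  obtain ⟨c, hc, hc0⟩ := intermediate_value_Icc' (by norm_num : (0 : ℝ) ≤ 2) hcont
    (show (0 : ℝ) ∈ Set.Icc (Real.cosh 2 - 2 * Real.sinh 2) (Real.cosh 0 - 0 * Real.sinh 0) from
      ⟨h2, by simp⟩)
  refine ⟨c, ?_⟩
  refine unimodal_of_deriv (f' := fun u => 2 * (u / Real.cosh u) *
    ((1 * Real.cosh u - u * Real.sinh u) / Real.cosh u ^ 2)) ?_ hc.1 ?_ ?_
  · intro x _
    have h := ((hasDerivAt_id x).div (Real.hasDerivAt_cosh x) (Real.cosh_pos x).ne').pow 2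
    convert! h using 1
    simp
  · intro x hx hxc
    have h1 := hφ x c hx.le hxc.le
    have h3 := Real.cosh_pos x
    have h4 : 0 ≤ 1 * Real.cosh x - x * Real.sinh x := by
      simp only at hc0
      linarith
    positivity
  · intro x hx
    have h0 : 0 ≤ x := hc.1.trans hx.le
    have h1 := hφ c x hc.1 hx.le
    have h3 := Real.cosh_pos x
    have h4 : 1 * Real.cosh x - x * Real.sinh x ≤ 0 := by
      simp only at hc0
      linarith
    exact mul_nonpos_of_nonneg_of_nonpos (by positivity)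
      (div_nonpos_of_nonpos_of_nonneg h4 (by positivity))

/-- `p(2u) - p(3u) ≥ (9/20) u²` for `0 < u ≤ 9/20`. -/
theorem pS_diff {u : ℝ} (hu : 0 < u) (hu1 : u ≤ 9 / 20) :
    9 / 20 * u ^ 2 ≤ pS (2 * u) - pS (3 * u) := by
  have hd : ∀ x : ℝ, 0 < x → HasDerivAt pS (2 * (x / Real.sinh x) *
      ((1 * Real.sinh x - x * Real.cosh x) / Real.sinh x ^ 2)) x := by
    intro x hx
    have h := ((hasDerivAt_id x).div (Real.hasDerivAt_sinh x) (Real.sinh_pos_iff.2 hx).ne').pow 2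
    convert! h using 1
    simp
  have hlt : 2 * u < 3 * u := by linarith
  obtain ⟨ξ, hξ, he⟩ := exists_hasDerivAt_eq_slope pS _ hlt
    (fun x hx => (hd x (by linarith [hx.1])).continuousAt.continuousWithinAt)
    (fun x hx => hd x (by linarith [hx.1]))
  have hξ0 : 0 < ξ := by linarith [hξ.1]
  have hs := Real.sinh_pos_iff.2 hξ0
  have h1 := cube_le hξ0.le
  have h2 := sinh_upper hξ0.le
  have hξ1 : ξ ≤ 27 / 20 := by linarith [hξ.2]
  -- r = ξ / sinh ξ ≥ 1 - ξ²/6
  have h3 : 1 - ξ ^ 2 / 6 ≤ ξ / Real.sinh ξ := by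
    rw [le_div_iff₀ hs]; linarith
  have h4 : (557 : ℝ) / 800 ≤ 1 - ξ ^ 2 / 6 := by nlinarith
  set r := ξ / Real.sinh ξ with hr
  have hr0 : 557 / 800 ≤ r := h4.trans h3
  -- the derivative
  have h5 : 2 * r * ((1 * Real.sinh ξ - ξ * Real.cosh ξ) / Real.sinh ξ ^ 2) ≤
      - (2 / 3 * ξ * r ^ 3) := by
    have h6 : (1 * Real.sinh ξ - ξ * Real.cosh ξ) / Real.sinh ξ ^ 2 ≤
        - (ξ ^ 3 / 3) / Real.sinh ξ ^ 2 := by
      refine div_le_div_of_nonneg_right ?_ (by positivity)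
      linarith
    have h7 : - (ξ ^ 3 / 3) / Real.sinh ξ ^ 2 = - (ξ / 3 * r ^ 2) := by
      rw [hr]; field_simp
    rw [h7] at h6
    have h8 := mul_le_mul_of_nonneg_left h6 (show 0 ≤ 2 * r by linarith)
    refine h8.trans (le_of_eq ?_)
    ring
  rw [he] at h5
  have h9 : 3 * u - 2 * u = u := by ring
  rw [h9, div_le_iff₀ hu] at h5
  have h10 : (557 / 800 : ℝ) ^ 3 ≤ r ^ 3 := pow_le_pow_left₀ (by norm_num) hr0 3
  have h11 : 2 / 3 * (2 * u) * (557 / 800 : ℝ) ^ 3 ≤ 2 / 3 * ξ * r ^ 3 := by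
    refine mul_le_mul (by linarith [hξ.1]) h10 (by norm_num) (by positivity)
  have h12 : 9 / 20 * u ≤ 2 / 3 * ξ * r ^ 3 := by
    refine le_trans ?_ h11
    norm_num
    nlinarith
  nlinarith

end Pool.Agent.SignedQ.An
end

section

/-! # Coefficients of a real polynomial as integrals over a circle, and the positivity criterion -/

namespace Pool.Agent.SignedQ.An

open Polynomial MeasureTheory intervalIntegral Set

/-- The value of a polynomial with rational coefficients at a complex point. -/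
noncomputable def cev (f : ℚ[X]) (z : ℂ) : ℂ := Polynomial.eval₂ (algebraMap ℚ ℂ) z f

/-- The value of a polynomial with rational coefficients at a real point. -/
noncomputable def rev (f : ℚ[X]) (x : ℝ) : ℝ := Polynomial.eval₂ (algebraMap ℚ ℝ) x f

theorem cev_eq_sum (f : ℚ[X]) (z : ℂ) :
    cev f z = ∑ j ∈ Finset.range (f.natDegree + 1), (f.coeff j : ℂ) * z ^ j := by
  unfold cev
  rw [Polynomial.eval₂_eq_sum_range]
  rfl

theorem rev_eq_sum (f : ℚ[X]) (x : ℝ) :
    rev f x = ∑ j ∈ Finset.range (f.natDegree + 1), (f.coeff j : ℝ) * x ^ j := by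
  unfold rev
  rw [Polynomial.eval₂_eq_sum_range]
  rfl

theorem cev_ofReal (f : ℚ[X]) (x : ℝ) : cev f (x : ℂ) = (rev f x : ℂ) := by
  rw [cev_eq_sum, rev_eq_sum]
  push_cast
  rfl

theorem cev_mul (f g : ℚ[X]) (z : ℂ) : cev (f * g) z = cev f z * cev g z := by
  unfold cev; rw [Polynomial.eval₂_mul]

theorem rev_mul (f g : ℚ[X]) (x : ℝ) : rev (f * g) x = rev f x * rev g x := by
  unfold rev; rw [Polynomial.eval₂_mul]

/-- The point `exp (-t + i θ)` of the circle of radius `exp (-t)`. -/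
noncomputable def pt (t θ : ℝ) : ℂ := Complex.exp (-(t : ℂ) + θ * Complex.I)

theorem pt_pow (t θ : ℝ) (j : ℕ) : pt t θ ^ j =
    (Real.exp (-(t * j)) : ℂ) * Complex.exp ((j * θ : ℝ) * Complex.I) := by
  unfold pt
  rw [← Complex.exp_nat_mul, Complex.ofReal_exp, ← Complex.exp_add]
  congr 1
  push_cast
  ring

theorem norm_pt (t θ : ℝ) : ‖pt t θ‖ = Real.exp (-t) := by
  unfold pt
  rw [Complex.norm_exp]
  simp

/-- Real part of `f (e^(-t + iθ)) e^(-imθ)`. -/
noncomputable def reT (f : ℚ[X]) (t : ℝ) (m : ℕ) (θ : ℝ) : ℝ :=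
  (cev f (pt t θ) * Complex.exp (-((m * θ : ℝ) : ℂ) * Complex.I)).re

theorem reT_eq_sum (f : ℚ[X]) (t : ℝ) (m : ℕ) (θ : ℝ) :
    reT f t m θ = ∑ j ∈ Finset.range (f.natDegree + 1),
      (f.coeff j : ℝ) * Real.exp (-(t * j)) * Real.cos (((j : ℝ) - m) * θ) := by
  unfold reT
  rw [cev_eq_sum, Finset.sum_mul, Complex.re_sum]
  refine Finset.sum_congr rfl fun j _ => ?_
  rw [pt_pow]
  have h1 : (f.coeff j : ℂ) * ((Real.exp (-(t * j)) : ℂ) * Complex.exp ((j * θ : ℝ) * Complex.I)) *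
      Complex.exp (-((m * θ : ℝ) : ℂ) * Complex.I) =
      (((f.coeff j : ℝ) * Real.exp (-(t * j)) : ℝ) : ℂ) *
        Complex.exp (((((j : ℝ) - m) * θ : ℝ) : ℂ) * Complex.I) := by
    have h2 : Complex.exp (((((j : ℝ) - m) * θ : ℝ) : ℂ) * Complex.I) =
        Complex.exp ((j * θ : ℝ) * Complex.I) * Complex.exp (-((m * θ : ℝ) : ℂ) * Complex.I) := by
      rw [← Complex.exp_add]
      congr 1
      push_cast
      ring
    rw [h2]
    push_cast
    ring
  rw [h1, Complex.re_ofReal_mul, Complex.exp_ofReal_mul_I_re]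

theorem abs_reT_le (f : ℚ[X]) (t : ℝ) (m : ℕ) (θ : ℝ) : |reT f t m θ| ≤ ‖cev f (pt t θ)‖ := by
  unfold reT
  refine (Complex.abs_re_le_norm _).trans ?_
  rw [norm_mul]
  have : ‖Complex.exp (-((m * θ : ℝ) : ℂ) * Complex.I)‖ = 1 := by
    rw [← Complex.ofReal_neg]
    exact Complex.norm_exp_ofReal_mul_I _
  rw [this, mul_one]

theorem reT_continuous (f : ℚ[X]) (t : ℝ) (m : ℕ) : Continuous (reT f t m) := by
  have : reT f t m = fun θ => ∑ j ∈ Finset.range (f.natDegree + 1),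
      (f.coeff j : ℝ) * Real.exp (-(t * j)) * Real.cos (((j : ℝ) - m) * θ) :=
    funext fun θ => reT_eq_sum f t m θ
  rw [this]
  fun_prop

theorem integral_cos_int (l : ℤ) :
    ∫ θ in (0 : ℝ)..Real.pi, Real.cos ((l : ℝ) * θ) = if l = 0 then Real.pi else 0 := by
  split
  · rename_i h
    subst h
    simp
  · rename_i h
    have h1 : (l : ℝ) ≠ 0 := by exact_mod_cast h
    rw [intervalIntegral.integral_comp_mul_left (fun x => Real.cos x) h1]
    rw [integral_cos]
    simp [Real.sin_int_mul_pi]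

/-- The coefficient as an integral over half of the circle. -/
theorem coeff_eq_integral (f : ℚ[X]) (t : ℝ) (m : ℕ) :
    ∫ θ in (0 : ℝ)..Real.pi, reT f t m θ = Real.pi * (f.coeff m : ℝ) * Real.exp (-(t * m)) := by
  have h0 : (fun θ => reT f t m θ) = fun θ => ∑ j ∈ Finset.range (f.natDegree + 1),
      (f.coeff j : ℝ) * Real.exp (-(t * j)) * Real.cos (((j : ℝ) - m) * θ) :=
    funext fun θ => reT_eq_sum f t m θ
  rw [h0, intervalIntegral.integral_finsetSum]
  · have h1 : ∀ j ∈ Finset.range (f.natDegree + 1),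
        ∫ θ in (0 : ℝ)..Real.pi, (f.coeff j : ℝ) * Real.exp (-(t * j)) *
          Real.cos (((j : ℝ) - m) * θ) =
        if j = m then Real.pi * (f.coeff m : ℝ) * Real.exp (-(t * m)) else 0 := by
      intro j _
      rw [intervalIntegral.integral_const_mul]
      have h2 := integral_cos_int ((j : ℤ) - m)
      have h3 : (((j : ℤ) - (m : ℤ) : ℤ) : ℝ) = (j : ℝ) - m := by push_cast; ring
      rw [h3] at h2
      rw [h2]
      by_cases h : j = m
      · subst h
        simp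
        ring
      · have h4 : ¬ ((j : ℤ) - m = 0) := by omega
        rw [if_neg h4, if_neg h, mul_zero]
    rw [Finset.sum_congr rfl h1, Finset.sum_ite_eq' ]
    split
    · rfl
    · rename_i h
      have : f.coeff m = 0 := by
        apply Polynomial.coeff_eq_zero_of_natDegree_lt
        simpa using h
      simp [this]
  · intro j _
    apply Continuous.intervalIntegrable
    fun_prop

/-- **Positivity criterion.** `L` bounds the real part from below on `[0, θ₁]`, `B` bounds the modulus on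
`[θ₁, π]`. -/
theorem coeff_pos_of (f : ℚ[X]) (t : ℝ) (m : ℕ) (θ₁ : ℝ) (h0 : 0 ≤ θ₁) (h1 : θ₁ ≤ Real.pi)
    (L B : ℝ → ℝ) (hLi : IntervalIntegrable L volume 0 θ₁)
    (hBi : IntervalIntegrable B volume θ₁ Real.pi)
    (hL : ∀ θ ∈ Icc 0 θ₁, L θ ≤ reT f t m θ)
    (hB : ∀ θ ∈ Icc θ₁ Real.pi, ‖cev f (pt t θ)‖ ≤ B θ)
    (hlt : ∫ θ in θ₁..Real.pi, B θ < ∫ θ in (0 : ℝ)..θ₁, L θ) : 0 < f.coeff m := by
  have hint : ∀ a b : ℝ, IntervalIntegrable (reT f t m) volume a b := fun a b =>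
    (reT_continuous f t m).intervalIntegrable a b
  have h2 : ∫ θ in (0 : ℝ)..θ₁, L θ ≤ ∫ θ in (0 : ℝ)..θ₁, reT f t m θ :=
    intervalIntegral.integral_mono_on h0 hLi (hint _ _) hL
  have h3 : ∫ θ in θ₁..Real.pi, - B θ ≤ ∫ θ in θ₁..Real.pi, reT f t m θ := by
    refine intervalIntegral.integral_mono_on h1 hBi.neg (hint _ _) fun θ hθ => ?_
    have := abs_reT_le f t m θ
    have h4 := hB θ hθ
    have h5 := neg_abs_le (reT f t m θ)
    linarith
  rw [intervalIntegral.integral_neg] at h3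
  have h4 : ∫ θ in (0 : ℝ)..Real.pi, reT f t m θ =
      (∫ θ in (0 : ℝ)..θ₁, reT f t m θ) + ∫ θ in θ₁..Real.pi, reT f t m θ :=
    (intervalIntegral.integral_add_adjacent_intervals (hint _ _) (hint _ _)).symm
  rw [coeff_eq_integral] at h4
  have h5 : 0 < Real.pi * (f.coeff m : ℝ) * Real.exp (-(t * m)) := by linarith
  have h6 : 0 < Real.exp (-(t * m)) := Real.exp_pos _
  have h7 : 0 < Real.pi * (f.coeff m : ℝ) := by
    by_contra h
    push Not at h
    have := mul_nonpos_of_nonpos_of_nonneg h h6.le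
    linarith
  have h8 : 0 < (f.coeff m : ℝ) := by
    by_contra h
    push Not at h
    have := mul_nonpos_of_nonneg_of_nonpos Real.pi_pos.le h
    linarith
  exact_mod_cast h8

end Pool.Agent.SignedQ.An
end

section

/-! # The modulus of `f` on a circle as a product of real factors -/

namespace Pool.Agent.SignedQ.An

open Polynomial Finset

/-- `|1 - (-z)^v|² = 4 r^v fac v t θ` for `z = exp (-t + i θ)`, `r = exp (-t)`. -/
noncomputable def fac (v : ℕ) (t θ : ℝ) : ℝ :=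
  if Even v then Real.sinh (v * t / 2) ^ 2 + Real.sin (v * θ / 2) ^ 2
  else Real.cosh (v * t / 2) ^ 2 - Real.sin (v * θ / 2) ^ 2

theorem fac_even {v : ℕ} (h : Even v) (t θ : ℝ) :
    fac v t θ = Real.sinh (v * t / 2) ^ 2 + Real.sin (v * θ / 2) ^ 2 := by
  unfold fac; rw [if_pos h]

theorem fac_odd {v : ℕ} (h : Odd v) (t θ : ℝ) :
    fac v t θ = Real.cosh (v * t / 2) ^ 2 - Real.sin (v * θ / 2) ^ 2 := by
  unfold fac; rw [if_neg (Nat.not_even_iff_odd.2 h)]

theorem fac_zero_even {v : ℕ} (h : Even v) (t : ℝ) : fac v t 0 = Real.sinh (v * t / 2) ^ 2 := by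
  rw [fac_even h]; simp

theorem fac_zero_odd {v : ℕ} (h : Odd v) (t : ℝ) : fac v t 0 = Real.cosh (v * t / 2) ^ 2 := by
  rw [fac_odd h]; simp

/-- Another form for odd `v`. -/
theorem fac_odd' {v : ℕ} (h : Odd v) (t θ : ℝ) :
    fac v t θ = Real.sinh (v * t / 2) ^ 2 + Real.cos (v * θ / 2) ^ 2 := by
  rw [fac_odd h, Real.cosh_sq, ← Real.cos_sq_add_sin_sq (v * θ / 2)]
  ring

theorem fac_nonneg (v : ℕ) (t θ : ℝ) : 0 ≤ fac v t θ := by
  rcases Nat.even_or_odd v with h | h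
  · rw [fac_even h]; positivity
  · rw [fac_odd' h]; positivity

theorem fac_pos {v : ℕ} (hv : 1 ≤ v) {t : ℝ} (ht : 0 < t) (θ : ℝ) : 0 < fac v t θ := by
  have h1 : 0 < Real.sinh (v * t / 2) := by
    rw [Real.sinh_pos_iff]
    have : (1 : ℝ) ≤ v := by exact_mod_cast hv
    positivity
  rcases Nat.even_or_odd v with h | h
  · rw [fac_even h]; positivity
  · rw [fac_odd' h]; positivity

theorem one_sub_even_sq (t θ : ℝ) :
    (1 - Real.exp (-t) * Real.cos θ) ^ 2 + (Real.exp (-t) * Real.sin θ) ^ 2 =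
      4 * Real.exp (-t) * (Real.sinh (t / 2) ^ 2 + Real.sin (θ / 2) ^ 2) := by
  have h1 : Real.cos θ = 1 - 2 * Real.sin (θ / 2) ^ 2 := by
    have := Real.cos_two_mul' (θ / 2)
    rw [show 2 * (θ / 2) = θ by ring] at this
    rw [this, Real.cos_sq']
    ring
  have h2 : Real.sin θ ^ 2 = 1 - Real.cos θ ^ 2 := by rw [Real.sin_sq]
  have h3 : Real.exp (-t) * Real.sinh (t / 2) ^ 2 = (1 - Real.exp (-t)) ^ 2 / 4 := by
    rw [Real.sinh_eq]
    have h4 : Real.exp (-t) = Real.exp (-(t / 2)) ^ 2 := by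
      rw [← Real.exp_nat_mul]; congr 1; push_cast; ring
    have h5 : Real.exp (-(t / 2)) * Real.exp (t / 2) = 1 := by
      rw [← Real.exp_add]; simp
    rw [h4]
    have h6 : Real.exp (-(t / 2)) ^ 2 * ((Real.exp (t / 2) - Real.exp (-(t / 2))) / 2) ^ 2 =
        (Real.exp (-(t / 2)) * Real.exp (t / 2) - Real.exp (-(t / 2)) ^ 2) ^ 2 / 4 := by ring
    rw [h6, h5]
  calc _ = 1 - 2 * Real.exp (-t) * Real.cos θ + Real.exp (-t) ^ 2 * (Real.cos θ ^ 2 +
        Real.sin θ ^ 2) := by ring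
    _ = 4 * (Real.exp (-t) * Real.sinh (t / 2) ^ 2) + 4 * Real.exp (-t) * Real.sin (θ / 2) ^ 2 := by
        rw [h2, h3, h1]; ring
    _ = _ := by ring

theorem normSq_one_sub (t θ : ℝ) :
    Complex.normSq (1 - (Real.exp (-t) : ℂ) * Complex.exp ((θ : ℝ) * Complex.I)) =
      4 * Real.exp (-t) * (Real.sinh (t / 2) ^ 2 + Real.sin (θ / 2) ^ 2) := by
  rw [← one_sub_even_sq, Complex.normSq_apply]
  have h1 : (1 - (Real.exp (-t) : ℂ) * Complex.exp ((θ : ℝ) * Complex.I)).re =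
      1 - Real.exp (-t) * Real.cos θ := by
    rw [Complex.sub_re, Complex.re_ofReal_mul, Complex.exp_ofReal_mul_I_re, Complex.one_re]
  have h2 : (1 - (Real.exp (-t) : ℂ) * Complex.exp ((θ : ℝ) * Complex.I)).im =
      - (Real.exp (-t) * Real.sin θ) := by
    rw [Complex.sub_im, Complex.im_ofReal_mul, Complex.exp_ofReal_mul_I_im, Complex.one_im]
    ring
  rw [h1, h2]
  ring

theorem normSq_one_add (t θ : ℝ) :
    Complex.normSq (1 + (Real.exp (-t) : ℂ) * Complex.exp ((θ : ℝ) * Complex.I)) =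
      4 * Real.exp (-t) * (Real.cosh (t / 2) ^ 2 - Real.sin (θ / 2) ^ 2) := by
  have h := normSq_one_sub t (θ + Real.pi)
  have h1 : Complex.exp (((θ + Real.pi : ℝ) : ℂ) * Complex.I) = - Complex.exp ((θ : ℝ) * Complex.I) := by
    push_cast
    rw [add_mul, Complex.exp_add, Complex.exp_pi_mul_I]
    ring
  rw [h1] at h
  have h2 : Real.sin ((θ + Real.pi) / 2) = Real.cos (θ / 2) := by
    rw [add_div, Real.sin_add_pi_div_two]
  rw [h2] at h
  have h3 : (1 + (Real.exp (-t) : ℂ) * Complex.exp ((θ : ℝ) * Complex.I)) =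
      1 - (Real.exp (-t) : ℂ) * -Complex.exp ((θ : ℝ) * Complex.I) := by ring
  rw [h3, h, Real.cosh_sq, ← Real.cos_sq_add_sin_sq (θ / 2)]
  ring

/-- The modulus of one factor. -/
theorem normSq_factor (v : ℕ) (t θ : ℝ) :
    ‖1 - (-(pt t θ)) ^ v‖ ^ 2 = 4 * Real.exp (-(t * v)) * fac v t θ := by
  rw [← Complex.normSq_eq_norm_sq]
  rcases Nat.even_or_odd v with h | h
  · rw [h.neg_pow, pt_pow, normSq_one_sub, fac_even h]
    rw [show t * (v : ℝ) / 2 = v * t / 2 by ring]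
  · rw [h.neg_pow, pt_pow, sub_neg_eq_add, normSq_one_add, fac_odd h]
    rw [show t * (v : ℝ) / 2 = v * t / 2 by ring]

theorem cev_factor (v : ℕ) (z : ℂ) : cev (1 - (-X) ^ v) z = 1 - (-z) ^ v := by
  unfold cev
  simp

theorem cev_one_add (z : ℂ) : cev (1 + X) z = 1 - (-z) ^ 1 := by
  unfold cev
  simp

theorem cev_pow (f : ℚ[X]) (n : ℕ) (z : ℂ) : cev (f ^ n) z = cev f z ^ n := by
  unfold cev; rw [Polynomial.eval₂_pow]

theorem cev_prod {ι : Type*} (s : Finset ι) (f : ι → ℚ[X]) (z : ℂ) :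
    cev (∏ i ∈ s, f i) z = ∏ i ∈ s, cev (f i) z := by
  unfold cev; rw [Polynomial.eval₂_finsetProd]

theorem cev_poch (k : ℕ) (z : ℂ) : cev (poch (-X) k) z = ∏ v ∈ range k, (1 - (-z) ^ (v + 1)) := by
  unfold poch
  rw [cev_prod]
  exact prod_congr rfl fun v _ => cev_factor _ _

theorem cev_num (n k a : ℕ) (z : ℂ) : cev (num n k a) z =
    (1 - (-z) ^ 1) ^ ((k + 1) / 2) * ∏ v ∈ range k, (1 - (-z) ^ (a * (n + v + 1))) := by
  unfold num
  rw [cev_mul, cev_pow, cev_one_add, cev_prod]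
  congr 1
  exact prod_congr rfl fun v _ => cev_factor _ _

/-- The (squared) normalised modulus: `|f(e^(-t+iθ))|² e^(tD) 4^(-c)`, `c = ⌈k/2⌉`. -/
noncomputable def GG (n k a : ℕ) (t θ : ℝ) : ℝ :=
  fac 1 t θ ^ ((k + 1) / 2) * ∏ v ∈ range k, (fac (a * (n + v + 1)) t θ / fac (v + 1) t θ)

theorem GG_nonneg (n k a : ℕ) (t θ : ℝ) : 0 ≤ GG n k a t θ := by
  unfold GG
  refine mul_nonneg (pow_nonneg (fac_nonneg _ _ _) _) (prod_nonneg fun v _ =>
    div_nonneg (fac_nonneg _ _ _) (fac_nonneg _ _ _))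

theorem GG_pos {n k a : ℕ} (ha : 1 ≤ a) {t : ℝ} (ht : 0 < t) (θ : ℝ) : 0 < GG n k a t θ := by
  unfold GG
  refine mul_pos (pow_pos (fac_pos le_rfl ht θ) _) (prod_pos fun v _ =>
    div_pos (fac_pos (Nat.mul_pos ha (by omega)) ht θ) (fac_pos (by omega) ht θ))

/-- **The modulus of `f`.** -/
theorem norm_sq_cev {n k a : ℕ} (ha : 1 ≤ a) {f : ℚ[X]} (hf : f * poch (-X : ℚ[X]) k = num n k a)
    {t : ℝ} (ht : 0 < t) (θ : ℝ) :
    ‖cev f (pt t θ)‖ ^ 2 = 4 ^ ((k + 1) / 2) * Real.exp (-(t * f.natDegree)) * GG n k a t θ := by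
  have h1 : cev f (pt t θ) * cev (poch (-X) k) (pt t θ) = cev (num n k a) (pt t θ) := by
    rw [← cev_mul, hf]
  rw [cev_poch, cev_num] at h1
  have h2 := congrArg (fun w : ℂ => ‖w‖ ^ 2) h1
  simp only [norm_mul, mul_pow, norm_pow, norm_prod] at h2
  have h3 : ∀ (v : ℕ), ‖1 - (-(pt t θ)) ^ v‖ ^ 2 = 4 * Real.exp (-(t * v)) * fac v t θ :=
    fun v => normSq_factor v t θ
  have h4 : (∏ v ∈ range k, ‖1 - (-(pt t θ)) ^ (v + 1)‖) ^ 2 =
      ∏ v ∈ range k, (4 * Real.exp (-(t * ((v + 1 : ℕ) : ℝ))) * fac (v + 1) t θ) := by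
    rw [← prod_pow]; exact prod_congr rfl fun v _ => h3 _
  have h5 : (∏ v ∈ range k, ‖1 - (-(pt t θ)) ^ (a * (n + v + 1))‖) ^ 2 =
      ∏ v ∈ range k, (4 * Real.exp (-(t * ((a * (n + v + 1) : ℕ) : ℝ))) *
        fac (a * (n + v + 1)) t θ) := by
    rw [← prod_pow]; exact prod_congr rfl fun v _ => h3 _
  have h6 : (‖1 - (-(pt t θ)) ^ 1‖ ^ ((k + 1) / 2)) ^ 2 =
      (4 * Real.exp (-(t * ((1 : ℕ) : ℝ))) * fac 1 t θ) ^ ((k + 1) / 2) := by
    rw [← pow_mul, mul_comm, pow_mul, h3]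
  rw [h4, h5, h6] at h2
  have h7 : ∏ v ∈ range k, (4 * Real.exp (-(t * ((v + 1 : ℕ) : ℝ))) * fac (v + 1) t θ) =
      4 ^ k * Real.exp (-(t * ((∑ v ∈ range k, (v + 1) : ℕ) : ℝ))) *
        ∏ v ∈ range k, fac (v + 1) t θ := by
    rw [prod_mul_distrib, prod_mul_distrib, prod_const, card_range, ← Real.exp_sum]
    congr 3
    rw [sum_neg_distrib, ← mul_sum]
    push_cast
    ring
  have h8 : ∏ v ∈ range k, (4 * Real.exp (-(t * ((a * (n + v + 1) : ℕ) : ℝ))) *
        fac (a * (n + v + 1)) t θ) =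
      4 ^ k * Real.exp (-(t * ((∑ v ∈ range k, a * (n + v + 1) : ℕ) : ℝ))) *
        ∏ v ∈ range k, fac (a * (n + v + 1)) t θ := by
    rw [prod_mul_distrib, prod_mul_distrib, prod_const, card_range, ← Real.exp_sum]
    congr 3
    rw [sum_neg_distrib, ← mul_sum]
    push_cast
    ring
  have h9 : (4 * Real.exp (-(t * ((1 : ℕ) : ℝ))) * fac 1 t θ) ^ ((k + 1) / 2) =
      4 ^ ((k + 1) / 2) * Real.exp (-(t * (((k + 1) / 2 : ℕ) : ℝ))) * fac 1 t θ ^ ((k + 1) / 2) := by
    rw [mul_pow, mul_pow, ← Real.exp_nat_mul]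
    congr 3
    push_cast
    ring
  rw [h7, h8, h9] at h2
  have hdeg := natDegree_f ha hf
  have hdeg' : (f.natDegree : ℝ) + ((∑ v ∈ range k, (v + 1) : ℕ) : ℝ) =
      (((k + 1) / 2 : ℕ) : ℝ) + ((∑ v ∈ range k, a * (n + v + 1) : ℕ) : ℝ) := by
    exact_mod_cast hdeg
  have hP : 0 < ∏ v ∈ range k, fac (v + 1) t θ := prod_pos fun v _ => fac_pos (by omega) ht θ
  have hexp : Real.exp (-(t * f.natDegree)) * Real.exp (-(t * ((∑ v ∈ range k, (v + 1) : ℕ) : ℝ))) =
      Real.exp (-(t * (((k + 1) / 2 : ℕ) : ℝ))) *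
        Real.exp (-(t * ((∑ v ∈ range k, a * (n + v + 1) : ℕ) : ℝ))) := by
    rw [← Real.exp_add, ← Real.exp_add]
    congr 1
    linear_combination (-t) * hdeg'
  have hpos : 0 < 4 ^ k * Real.exp (-(t * ((∑ v ∈ range k, (v + 1) : ℕ) : ℝ))) *
        ∏ v ∈ range k, fac (v + 1) t θ := by positivity
  refine mul_right_cancel₀ hpos.ne' ?_
  rw [h2]
  unfold GG
  rw [prod_div_distrib]
  have h10 : (4 ^ ((k + 1) / 2) * Real.exp (-(t * f.natDegree)) * (fac 1 t θ ^ ((k + 1) / 2) *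
      ((∏ v ∈ range k, fac (a * (n + v + 1)) t θ) / ∏ v ∈ range k, fac (v + 1) t θ))) *
      (4 ^ k * Real.exp (-(t * ((∑ v ∈ range k, (v + 1) : ℕ) : ℝ))) *
        ∏ v ∈ range k, fac (v + 1) t θ) =
      4 ^ ((k + 1) / 2) * 4 ^ k * (Real.exp (-(t * f.natDegree)) *
        Real.exp (-(t * ((∑ v ∈ range k, (v + 1) : ℕ) : ℝ)))) * fac 1 t θ ^ ((k + 1) / 2) *
      (∏ v ∈ range k, fac (a * (n + v + 1)) t θ) := by
    field_simp
  rw [h10, hexp]
  ring

end Pool.Agent.SignedQ.An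
end

section

/-! # The pair inequality: `|(1+z)/((1 - z^L)(1 + z^(L+1)))|` (`L` even) is largest at `|z|` -/

namespace Pool.Agent.SignedQ.An

open Polynomial Finset

theorem norm_sq_sinh (a b : ℝ) : ‖Complex.sinh (a + b * Complex.I)‖ ^ 2 =
    Real.sinh a ^ 2 + Real.sin b ^ 2 := by
  have h : Complex.sinh (a + b * Complex.I) =
      ((Real.sinh a * Real.cos b : ℝ) : ℂ) + ((Real.cosh a * Real.sin b : ℝ) : ℂ) * Complex.I := by
    rw [Complex.sinh_add, Complex.sinh_mul_I, Complex.cosh_mul_I]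
    push_cast
    ring
  rw [h, ← Complex.normSq_eq_norm_sq, Complex.normSq_add_mul_I, mul_pow, mul_pow, Real.cosh_sq,
    Real.cos_sq']
  ring

theorem norm_sq_cosh (a b : ℝ) : ‖Complex.cosh (a + b * Complex.I)‖ ^ 2 =
    Real.cosh a ^ 2 - Real.sin b ^ 2 := by
  have h : Complex.cosh (a + b * Complex.I) =
      ((Real.cosh a * Real.cos b : ℝ) : ℂ) + ((Real.sinh a * Real.sin b : ℝ) : ℂ) * Complex.I := by
    rw [Complex.cosh_add, Complex.sinh_mul_I, Complex.cosh_mul_I]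
    push_cast
    ring
  rw [h, ← Complex.normSq_eq_norm_sq, Complex.normSq_add_mul_I, mul_pow, mul_pow, Real.sinh_sq,
    Real.cos_sq']
  ring

/-- The inequality behind the pair bound (two circles). -/
theorem pair_complex (A B u v : ℝ) (hA : 0 < A) (hAB : A ≤ B) :
    ‖Complex.cosh ((B - A : ℝ) + (v - u : ℝ) * Complex.I)‖ * (Real.sinh A * Real.cosh B) ≤
      Real.cosh (B - A) * (‖Complex.sinh (A + u * Complex.I)‖ *
        ‖Complex.cosh (B + v * Complex.I)‖) := by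
  set α : ℂ := A + u * Complex.I with hα
  set β : ℂ := B + v * Complex.I with hβ
  have hsA : 0 < Real.sinh A := Real.sinh_pos_iff.2 hA
  have hsB : 0 < Real.sinh B := Real.sinh_pos_iff.2 (hA.trans_le hAB)
  have hcA : 0 < Real.cosh A := Real.cosh_pos A
  have hcB : 0 < Real.cosh B := Real.cosh_pos B
  set S : ℝ := ‖Complex.sinh α‖ with hS
  set C : ℝ := ‖Complex.cosh β‖ with hC
  have hS0 : 0 ≤ S := norm_nonneg _
  have hC0 : 0 ≤ C := norm_nonneg _
  -- conjugates
  have hSc : ‖Complex.sinh (A - u * Complex.I)‖ = S := by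
    have h1 := norm_sq_sinh A (-u)
    have h2 := norm_sq_sinh A u
    rw [Real.sin_neg, neg_sq, ← h2] at h1
    have h3 : ((A : ℂ) + ((-u : ℝ) : ℂ) * Complex.I) = A - u * Complex.I := by push_cast; ring
    rw [h3] at h1
    exact (pow_left_inj₀ (norm_nonneg _) (norm_nonneg _) two_ne_zero).1 h1
  have hCc : ‖Complex.cosh (B - v * Complex.I)‖ = C := by
    have h1 := norm_sq_cosh B (-v)
    have h2 := norm_sq_cosh B v
    rw [Real.sin_neg, neg_sq, ← h2] at h1
    have h3 : ((B : ℂ) + ((-v : ℝ) : ℂ) * Complex.I) = B - v * Complex.I := by push_cast; ring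
    rw [h3] at h1
    exact (pow_left_inj₀ (norm_nonneg _) (norm_nonneg _) two_ne_zero).1 h1
  -- sinh(2A) cosh α - cosh(2A) sinh α = sinh (conj α)
  have e1 : (Real.sinh (2 * A) : ℂ) * Complex.cosh α - (Real.cosh (2 * A) : ℂ) * Complex.sinh α =
      Complex.sinh (A - u * Complex.I) := by
    rw [Complex.ofReal_sinh, Complex.ofReal_cosh, ← Complex.sinh_sub]
    congr 1
    rw [hα]; push_cast; ring
  have e2 : (Real.cosh (2 * B) : ℂ) * Complex.cosh β - (Real.sinh (2 * B) : ℂ) * Complex.sinh β =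
      Complex.cosh (B - v * Complex.I) := by
    rw [Complex.ofReal_sinh, Complex.ofReal_cosh, ← Complex.cosh_sub]
    congr 1
    rw [hβ]; push_cast; ring
  have e3 : Complex.cosh ((B - A : ℝ) + (v - u : ℝ) * Complex.I) =
      Complex.cosh α * Complex.cosh β - Complex.sinh α * Complex.sinh β := by
    rw [mul_comm (Complex.cosh α), mul_comm (Complex.sinh α), ← Complex.cosh_sub]
    congr 1
    rw [hα, hβ]; push_cast; ring
  have h2A : Real.sinh (2 * A) = 2 * Real.sinh A * Real.cosh A := Real.sinh_two_mul A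
  have h2B : Real.sinh (2 * B) = 2 * Real.sinh B * Real.cosh B := Real.sinh_two_mul B
  have h2A0 : 0 < Real.sinh (2 * A) := by rw [h2A]; positivity
  have h2B0 : 0 < Real.sinh (2 * B) := by rw [h2B]; positivity
  -- the main identity
  have e4 : (Real.sinh (2 * A) * Real.sinh (2 * B) : ℝ) *
      Complex.cosh ((B - A : ℝ) + (v - u : ℝ) * Complex.I) =
      (Real.sinh (2 * B) : ℂ) * (Complex.sinh (A - u * Complex.I) * Complex.cosh β) +
      (Real.sinh (2 * (B - A)) : ℂ) * (Complex.sinh α * Complex.cosh β) * 1 +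
      (Real.sinh (2 * A) : ℂ) * (Complex.sinh α * Complex.cosh (B - v * Complex.I)) * 1 := by
    have h5 : (Real.sinh (2 * (B - A)) : ℂ) = (Real.sinh (2 * B) : ℂ) * (Real.cosh (2 * A) : ℂ) -
        (Real.cosh (2 * B) : ℂ) * (Real.sinh (2 * A) : ℂ) := by
      rw [show 2 * (B - A) = 2 * B - 2 * A by ring, Real.sinh_sub]
      push_cast
      ring
    rw [e3, ← e1, ← e2, h5]
    push_cast
    ring
  have e5 := congrArg (fun w : ℂ => ‖w‖) e4
  simp only [norm_mul, norm_one, mul_one] at e5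
  have hre : ∀ x : ℝ, 0 ≤ x → ‖(x : ℂ)‖ = x := fun x hx => by
    rw [Complex.norm_real, Real.norm_of_nonneg hx]
  rw [hre _ (by positivity)] at e5
  have h2BA0 : 0 ≤ Real.sinh (2 * (B - A)) := Real.sinh_nonneg_iff.2 (by linarith)
  have e6 : Real.sinh (2 * A) * Real.sinh (2 * B) *
      ‖Complex.cosh ((B - A : ℝ) + (v - u : ℝ) * Complex.I)‖ ≤
      Real.sinh (2 * B) * (S * C) + Real.sinh (2 * (B - A)) * (S * C) +
        Real.sinh (2 * A) * (S * C) := by
    rw [e5]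
    refine (norm_add_le _ _).trans ?_
    refine add_le_add ((norm_add_le _ _).trans ?_) ?_
    · rw [norm_mul, norm_mul, norm_mul, norm_mul, hre _ h2B0.le, hre _ h2BA0, hSc]
    · rw [norm_mul, norm_mul, hre _ h2A0.le, hCc]
  have h7 : Real.sinh (2 * B) + Real.sinh (2 * (B - A)) + Real.sinh (2 * A) =
      4 * Real.sinh B * Real.cosh A * Real.cosh (B - A) := by
    rw [show 2 * (B - A) = 2 * B - 2 * A by ring, Real.sinh_sub, Real.cosh_sub, Real.cosh_two_mul,
      Real.cosh_two_mul, h2A, h2B, Real.cosh_sq A, Real.cosh_sq B]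
    ring_nf
    have := Real.cosh_sq A
    have := Real.cosh_sq B
    nlinarith [Real.cosh_sq A, Real.cosh_sq B]
  have e8 : Real.sinh (2 * A) * Real.sinh (2 * B) *
      ‖Complex.cosh ((B - A : ℝ) + (v - u : ℝ) * Complex.I)‖ ≤
      4 * Real.sinh B * Real.cosh A * Real.cosh (B - A) * (S * C) := by
    rw [← h7]; linarith
  rw [h2A, h2B] at e8
  have h9 : 0 < 4 * Real.sinh B * Real.cosh A := by positivity
  refine le_of_mul_le_mul_left ?_ h9
  calc _ = 2 * Real.sinh A * Real.cosh A * (2 * Real.sinh B * Real.cosh B) *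
      ‖Complex.cosh ((B - A : ℝ) + (v - u : ℝ) * Complex.I)‖ := by ring
    _ ≤ _ := e8
    _ = _ := by ring

/-- The real form of the pair inequality. -/
theorem pair_real (A B u v : ℝ) (hA : 0 < A) (hAB : A ≤ B) :
    (Real.cosh (B - A) ^ 2 - Real.sin (v - u) ^ 2) * (Real.sinh A ^ 2 * Real.cosh B ^ 2) ≤
      Real.cosh (B - A) ^ 2 * ((Real.sinh A ^ 2 + Real.sin u ^ 2) *
        (Real.cosh B ^ 2 - Real.sin v ^ 2)) := by
  have h := pair_complex A B u v hA hAB
  have h1 := pow_le_pow_left₀ (by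
    have := Real.sinh_pos_iff.2 hA
    have := Real.cosh_pos B
    positivity) h 2
  rw [mul_pow, mul_pow, mul_pow, mul_pow, norm_sq_cosh, norm_sq_sinh, norm_sq_cosh] at h1
  exact h1

/-- **Pair inequality**: `L` even. -/
theorem fac_pair {L : ℕ} (hL : Even L) (hL1 : 1 ≤ L) {t : ℝ} (ht : 0 < t) (θ : ℝ) :
    fac 1 t θ * (fac L t 0 * fac (L + 1) t 0) ≤ fac 1 t 0 * (fac L t θ * fac (L + 1) t θ) := by
  have h1 : (1 : ℝ) ≤ L := by exact_mod_cast hL1
  have h := pair_real (L * t / 2) ((L + 1 : ℕ) * t / 2) (L * θ / 2) ((L + 1 : ℕ) * θ / 2)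
    (by positivity) (by push_cast; nlinarith)
  rw [fac_odd odd_one, fac_zero_odd odd_one, fac_zero_even hL, fac_zero_odd hL.add_one, fac_even hL,
    fac_odd hL.add_one]
  rw [show ((L + 1 : ℕ) : ℝ) * t / 2 - L * t / 2 = ((1 : ℕ) : ℝ) * t / 2 by push_cast; ring,
    show ((L + 1 : ℕ) : ℝ) * θ / 2 - L * θ / 2 = ((1 : ℕ) : ℝ) * θ / 2 by push_cast; ring] at h
  exact h

/-- The squared ratio `Q_i²` of helper68. -/
noncomputable def Qsq (L : ℕ) (t θ : ℝ) : ℝ :=
  (fac 1 t θ / (fac L t θ * fac (L + 1) t θ)) / (fac 1 t 0 / (fac L t 0 * fac (L + 1) t 0))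

theorem Qsq_le_one {L : ℕ} (hL : Even L) (hL1 : 1 ≤ L) {t : ℝ} (ht : 0 < t) (θ : ℝ) :
    Qsq L t θ ≤ 1 := by
  have p1 := fac_pos (v := 1) le_rfl ht θ
  have p2 := fac_pos (v := 1) le_rfl ht 0
  have p3 := fac_pos hL1 ht θ
  have p4 := fac_pos hL1 ht 0
  have p5 := fac_pos (v := L + 1) (by omega) ht θ
  have p6 := fac_pos (v := L + 1) (by omega) ht 0
  unfold Qsq
  rw [div_le_one (by positivity), div_le_div_iff₀ (by positivity) (by positivity)]
  exact fac_pair hL hL1 ht θ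

end Pool.Agent.SignedQ.An
end
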