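import Pool.Agent.Lib.MP_cf17a0_co.Mg.G001

section

/-! # All zeros are on the unit circle: `|f(e^(-t+iθ))| e^(tD/2)` is nondecreasing in `t ≥ 0` -/

namespace Pool.Agent.SignedQ.An

open Polynomial Finset

/-- One linear factor. -/
theorem lin_factor (t θ : ℝ) {ζ : ℂ} (hζ : ‖ζ‖ = 1) :
    ‖pt t θ - ζ‖ ^ 2 * Real.exp t = 2 * (Real.cosh t - Real.cos (θ - ζ.arg)) := by
  have h1 : ζ = Complex.exp ((ζ.arg : ℝ) * Complex.I) := by
    have := Complex.norm_mul_exp_arg_mul_I ζ
    rw [hζ] at this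
    simpa using this.symm
  have h2 : pt t θ - ζ = -(Complex.exp ((ζ.arg : ℝ) * Complex.I)) *
      (1 - (Real.exp (-t) : ℂ) * Complex.exp (((θ - ζ.arg : ℝ) : ℂ) * Complex.I)) := by
    have h3 : pt t θ = (Real.exp (-t) : ℂ) * Complex.exp ((ζ.arg : ℝ) * Complex.I) *
        Complex.exp (((θ - ζ.arg : ℝ) : ℂ) * Complex.I) := by
      unfold pt
      rw [Complex.ofReal_exp, ← Complex.exp_add, ← Complex.exp_add]
      congr 1
      push_cast
      ring
    rw [h3]
    have h4 : (Real.exp (-t) : ℂ) * Complex.exp ((ζ.arg : ℝ) * Complex.I) *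
        Complex.exp (((θ - ζ.arg : ℝ) : ℂ) * Complex.I) - ζ =
        (Real.exp (-t) : ℂ) * Complex.exp ((ζ.arg : ℝ) * Complex.I) *
        Complex.exp (((θ - ζ.arg : ℝ) : ℂ) * Complex.I) -
          Complex.exp ((ζ.arg : ℝ) * Complex.I) := by
      congr 1
    rw [h4]
    ring
  rw [h2, norm_mul, norm_neg, Complex.norm_exp_ofReal_mul_I, one_mul, ← Complex.normSq_eq_norm_sq,
    normSq_one_sub]
  have h4 : Real.exp (-t) * Real.exp t = 1 := by rw [← Real.exp_add]; simp
  have h5 : Real.cosh t = 1 + 2 * Real.sinh (t / 2) ^ 2 := by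
    have := Real.cosh_two_mul (t / 2)
    rw [show 2 * (t / 2) = t by ring] at this
    rw [this, Real.cosh_sq]
    ring
  have h6 : Real.cos (θ - ζ.arg) = 1 - 2 * Real.sin ((θ - ζ.arg) / 2) ^ 2 := by
    have := Real.cos_two_mul' ((θ - ζ.arg) / 2)
    rw [show 2 * ((θ - ζ.arg) / 2) = θ - ζ.arg by ring] at this
    rw [this, Real.cos_sq']
    ring
  rw [h5, h6]
  calc 4 * Real.exp (-t) * (Real.sinh (t / 2) ^ 2 + Real.sin ((θ - ζ.arg) / 2) ^ 2) * Real.exp t =
      4 * (Real.exp (-t) * Real.exp t) *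
        (Real.sinh (t / 2) ^ 2 + Real.sin ((θ - ζ.arg) / 2) ^ 2) := by ring
    _ = _ := by rw [h4]; ring

theorem cev_eq_eval_map (f : ℚ[X]) (z : ℂ) : cev f z = (f.map (algebraMap ℚ ℂ)).eval z := by
  unfold cev
  rw [Polynomial.eval₂_eq_eval_map]

/-- The product over the roots. -/
theorem norm_sq_roots (f : ℚ[X]) (hr : ∀ z : ℂ, cev f z = 0 → ‖z‖ = 1) (hf : f ≠ 0) (t θ : ℝ) :
    ‖cev f (pt t θ)‖ ^ 2 * Real.exp (t * f.natDegree) = |(f.leadingCoeff : ℝ)| ^ 2 *
      (((f.map (algebraMap ℚ ℂ)).roots.map fun ζ =>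
        2 * (Real.cosh t - Real.cos (θ - ζ.arg)))).prod := by
  set g : ℂ[X] := f.map (algebraMap ℚ ℂ) with hg
  have hg0 : g ≠ 0 := (Polynomial.map_ne_zero_iff (algebraMap ℚ ℂ).injective).2 hf
  have hs : g = C g.leadingCoeff * (g.roots.map fun a => X - C a).prod :=
    (IsAlgClosed.splits g).eq_prod_roots
  have hcard : g.roots.card = f.natDegree := by
    rw [← Polynomial.natDegree_map (algebraMap ℚ ℂ) (p := f), ← hg]
    exact (IsAlgClosed.splits g).natDegree_eq_card_roots.symm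
  have hlead : g.leadingCoeff = (f.leadingCoeff : ℂ) := by
    rw [hg, Polynomial.leadingCoeff_map]; rfl
  have h1 : cev f (pt t θ) = g.leadingCoeff * (g.roots.map fun a => pt t θ - a).prod := by
    rw [cev_eq_eval_map, ← hg]
    conv_lhs => rw [hs]
    rw [eval_mul, eval_C, eval_multiset_prod, Multiset.map_map]
    congr 2
    refine Multiset.map_congr rfl fun a _ => ?_
    simp
  rw [h1, norm_mul, mul_pow, hlead]
  have h2 : ‖((f.leadingCoeff : ℚ) : ℂ)‖ = |(f.leadingCoeff : ℝ)| := by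
    rw [← Complex.ofReal_ratCast, Complex.norm_real, Real.norm_eq_abs]
  rw [h2, mul_assoc]
  congr 1
  have h3 : ∀ s : Multiset ℂ, (∀ ζ ∈ s, ‖ζ‖ = 1) →
      ‖(s.map fun a => pt t θ - a).prod‖ ^ 2 * Real.exp (t * (s.card : ℝ)) =
        (s.map fun ζ => 2 * (Real.cosh t - Real.cos (θ - ζ.arg))).prod := by
    intro s
    induction s using Multiset.induction_on with
    | empty => intro _; simp
    | cons ζ s ih =>
      intro h
      have ih' := ih fun w hw => h w (Multiset.mem_cons_of_mem hw)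
      rw [Multiset.map_cons, Multiset.map_cons, Multiset.prod_cons, Multiset.prod_cons,
        Multiset.card_cons, ← ih', ← lin_factor t θ (h ζ (Multiset.mem_cons_self _ _)), norm_mul]
      have h4 : Real.exp (t * ((s.card + 1 : ℕ) : ℝ)) = Real.exp t * Real.exp (t * (s.card : ℝ)) := by
        rw [← Real.exp_add]
        congr 1
        push_cast
        ring
      rw [h4]
      ring
  rw [← hcard]
  refine h3 _ fun ζ hζ => hr ζ ?_
  rw [cev_eq_eval_map, ← hg]
  exact (Polynomial.mem_roots hg0).1 hζ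

theorem prod_mono (s : Multiset ℂ) (t₁ t₂ θ : ℝ) (h1 : 0 ≤ t₁) (h2 : t₁ ≤ t₂) :
    0 ≤ (s.map fun ζ => 2 * (Real.cosh t₁ - Real.cos (θ - ζ.arg))).prod ∧
    (s.map fun ζ => 2 * (Real.cosh t₁ - Real.cos (θ - ζ.arg))).prod ≤
      (s.map fun ζ => 2 * (Real.cosh t₂ - Real.cos (θ - ζ.arg))).prod := by
  have hcosh : Real.cosh t₁ ≤ Real.cosh t₂ := by
    rw [Real.cosh_le_cosh, abs_of_nonneg h1, abs_of_nonneg (h1.trans h2)]
    exact h2
  induction s using Multiset.induction_on with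
  | empty => simp
  | cons ζ s ih =>
    simp only [Multiset.map_cons, Multiset.prod_cons]
    have h3 : 0 ≤ 2 * (Real.cosh t₁ - Real.cos (θ - ζ.arg)) := by
      have := Real.one_le_cosh t₁
      have := Real.cos_le_one (θ - ζ.arg)
      linarith
    exact ⟨mul_nonneg h3 ih.1, mul_le_mul (by linarith) ih.2 ih.1 (by linarith)⟩

/-- **Monotonicity in `t`.** -/
theorem norm_mono {f : ℚ[X]} (hr : ∀ z : ℂ, cev f z = 0 → ‖z‖ = 1) (hf : f ≠ 0) {t₁ t₂ : ℝ}
    (h1 : 0 ≤ t₁) (h2 : t₁ ≤ t₂) (θ : ℝ) :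
    ‖cev f (pt t₁ θ)‖ ^ 2 * Real.exp (t₁ * f.natDegree) ≤
      ‖cev f (pt t₂ θ)‖ ^ 2 * Real.exp (t₂ * f.natDegree) := by
  rw [norm_sq_roots f hr hf, norm_sq_roots f hr hf]
  exact mul_le_mul_of_nonneg_left (prod_mono _ _ _ _ h1 h2).2 (by positivity)

/-- The zeros of our polynomial are on the unit circle. -/
theorem zeros_num {n k a : ℕ} (ha : 1 ≤ a) {f : ℚ[X]} (hf : f * poch (-X : ℚ[X]) k = num n k a)
    {z : ℂ} (hz : cev f z = 0) : ‖z‖ = 1 := by
  have h1 : cev (num n k a) z = 0 := by rw [← hf, cev_mul, hz, zero_mul]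
  rw [cev_num] at h1
  have h2 : ∀ b : ℕ, 1 ≤ b → 1 - (-z) ^ b = 0 → ‖z‖ = 1 := by
    intro b hb h
    have h3 : (-z) ^ b = 1 := by linear_combination -h
    have h4 := congrArg (fun w : ℂ => ‖w‖) h3
    simp only [norm_pow, norm_neg, norm_one] at h4
    exact (pow_eq_one_iff_of_nonneg (norm_nonneg _) (by omega)).1 h4
  have hpz : ∀ {w : ℂ} {c : ℕ}, w ^ c = 0 → w = 0 := fun {w c} h => by
    rcases Nat.eq_zero_or_pos c with h0 | h0
    · subst h0; simp at h
    · exact (pow_eq_zero_iff (by omega)).1 h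
  rcases mul_eq_zero.1 h1 with h | h
  · exact h2 1 le_rfl (hpz h)
  · obtain ⟨v, _, hv⟩ := prod_eq_zero_iff.1 h
    exact h2 _ (Nat.mul_pos ha (by omega)) hv

theorem f_ne_zero {n k a : ℕ} (ha : 1 ≤ a) {f : ℚ[X]}
    (hf : f * poch (-X : ℚ[X]) k = num n k a) : f ≠ 0 := by
  rintro rfl
  rw [zero_mul] at hf
  have h1 : eval 0 (num n k a) = 1 := by
    unfold num
    have h2 : ∀ v : ℕ, a * (n + v + 1) ≠ 0 := fun v => (Nat.mul_pos ha (by omega)).ne'
    simp [eval_prod, h2]
  rw [← hf] at h1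
  simp at h1

end Pool.Agent.SignedQ.An
end

section

/-! # Convexity in `log t` -/

namespace Pool.Agent.SignedQ.An

open Set

/-- The logarithmic derivative (with respect to `log u`) of `(1/2) log (sinh² u + s)`. -/
noncomputable def Dlog (s u : ℝ) : ℝ := u * Real.sinh u * Real.cosh u / (Real.sinh u ^ 2 + s)

theorem Dlog_den_pos {s u : ℝ} (hs : 0 ≤ s) (hu : 0 < u) : 0 < Real.sinh u ^ 2 + s := by
  have := Real.sinh_pos_iff.2 hu
  positivity

theorem Dlog_nonneg {s u : ℝ} (hs : 0 ≤ s) (hu : 0 < u) : 0 ≤ Dlog s u := by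
  have h1 := Real.sinh_pos_iff.2 hu
  have h2 := Real.cosh_pos u
  have h3 := Dlog_den_pos hs hu
  unfold Dlog
  positivity

theorem Dlog_deriv {s u : ℝ} (hs : 0 ≤ s) (hu : 0 < u) :
    HasDerivAt (Dlog s) (((Real.sinh u * Real.cosh u + u * (Real.cosh u ^ 2 + Real.sinh u ^ 2)) *
      (Real.sinh u ^ 2 + s) - u * Real.sinh u * Real.cosh u * (2 * Real.sinh u * Real.cosh u)) /
      (Real.sinh u ^ 2 + s) ^ 2) u := by
  have h3 := Dlog_den_pos hs hu
  have h4 : HasDerivAt (fun u => u * Real.sinh u * Real.cosh u)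
      (Real.sinh u * Real.cosh u + u * (Real.cosh u ^ 2 + Real.sinh u ^ 2)) u := by
    have := ((hasDerivAt_id u).mul (Real.hasDerivAt_sinh u)).mul (Real.hasDerivAt_cosh u)
    convert! this using 1
    simp only [id, Pi.mul_apply]
    ring
  have h5 : HasDerivAt (fun u => Real.sinh u ^ 2 + s) (2 * Real.sinh u * Real.cosh u) u := by
    have := ((Real.hasDerivAt_sinh u).pow 2).add_const s
    convert! this using 1
    simp
  exact h4.div h5 h3.ne'

/-- `D` is nondecreasing in `u`. -/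
theorem Dlog_mono {s : ℝ} (hs : 0 ≤ s) (hs1 : s ≤ 1) {u u₁ : ℝ} (hu : 0 < u) (h : u ≤ u₁) :
    Dlog s u ≤ Dlog s u₁ := by
  have hm : MonotoneOn (Dlog s) (Ioi 0) := by
    refine monotoneOn_of_deriv_nonneg (convex_Ioi 0) ?_ ?_ ?_
    · intro x hx
      exact (Dlog_deriv hs hx).continuousAt.continuousWithinAt
    · intro x hx
      rw [interior_Ioi] at hx
      exact (Dlog_deriv hs hx).differentiableAt.differentiableWithinAt
    · intro x hx
      rw [interior_Ioi] at hx
      have hx' : 0 < x := hx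
      rw [(Dlog_deriv hs hx').deriv]
      refine div_nonneg ?_ (sq_nonneg _)
      have h1 := Real.sinh_pos_iff.2 hx'
      have h2 := Real.one_le_cosh x
      have h3 : x ≤ Real.sinh x := Real.self_le_sinh_iff.2 hx'.le
      have h4 := Real.cosh_sq x
      set S := Real.sinh x
      set C := Real.cosh x
      -- numerator = S C (S² + s) + x (C² + S²)(S² + s) - 2 x S² C²
      have e : (S * C + x * (C ^ 2 + S ^ 2)) * (S ^ 2 + s) - x * S * C * (2 * S * C) =
          (S * C - x) * S ^ 2 + s * (S * C + x * (2 * S ^ 2 + 1)) := by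
        linear_combination (x * (S ^ 2 + s) - 2 * x * S ^ 2) * h4
      rw [e]
      have h5 : 0 ≤ S * C - x := by nlinarith
      positivity
  exact hm hu (hu.trans_le h) h

theorem log_sinh_deriv {s u : ℝ} (hs : 0 ≤ s) (hu : 0 < u) :
    HasDerivAt (fun u => Real.log (Real.sinh u ^ 2 + s)) (2 * Dlog s u / u) u := by
  have h3 := Dlog_den_pos hs hu
  have h5 : HasDerivAt (fun u => Real.sinh u ^ 2 + s) (2 * Real.sinh u * Real.cosh u) u := by
    have := ((Real.hasDerivAt_sinh u).pow 2).add_const s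
    convert! this using 1
    simp
  have := h5.log h3.ne'
  convert! this using 1
  unfold Dlog
  field_simp

/-- **The tangent inequality** (convexity in `log u`), below `u₁`. -/
theorem log_tangent {s : ℝ} (hs : 0 ≤ s) (hs1 : s ≤ 1) {u u₁ : ℝ} (hu : 0 < u) (h : u ≤ u₁) :
    Real.log (Real.sinh u₁ ^ 2 + s) - 2 * Dlog s u₁ * Real.log (u₁ / u) ≤
      Real.log (Real.sinh u ^ 2 + s) := by
  have hu1 : 0 < u₁ := hu.trans_le h
  have hm : AntitoneOn (fun x => Real.log (Real.sinh x ^ 2 + s) - 2 * Dlog s u₁ * Real.log x)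
      (Ioc 0 u₁) := by
    have hd : ∀ x : ℝ, 0 < x → HasDerivAt
        (fun x => Real.log (Real.sinh x ^ 2 + s) - 2 * Dlog s u₁ * Real.log x)
        (2 * Dlog s x / x - 2 * Dlog s u₁ * x⁻¹) x := by
      intro x hx
      exact (log_sinh_deriv hs hx).sub ((Real.hasDerivAt_log hx.ne').const_mul _)
    refine antitoneOn_of_deriv_nonpos (convex_Ioc 0 u₁) ?_ ?_ ?_
    · intro x hx
      exact (hd x hx.1).continuousAt.continuousWithinAt
    · intro x hx
      rw [interior_Ioc] at hx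
      exact (hd x hx.1).differentiableAt.differentiableWithinAt
    · intro x hx
      rw [interior_Ioc] at hx
      rw [(hd x hx.1).deriv]
      have h1 := Dlog_mono hs hs1 hx.1 hx.2.le
      have h2 : 2 * Dlog s x / x - 2 * Dlog s u₁ * x⁻¹ = 2 * (Dlog s x - Dlog s u₁) / x := by
        field_simp
      rw [h2]
      exact div_nonpos_of_nonpos_of_nonneg (by linarith) hx.1.le
  have h1 := hm ⟨hu, h⟩ ⟨hu1, le_rfl⟩ h
  simp only at h1
  rw [Real.log_div hu1.ne' hu.ne']
  linarith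

/-- The same above `u₁`. -/
theorem log_tangent' {s : ℝ} (hs : 0 ≤ s) (hs1 : s ≤ 1) {u u₁ : ℝ} (hu1 : 0 < u₁) (h : u₁ ≤ u) :
    Real.log (Real.sinh u₁ ^ 2 + s) + 2 * Dlog s u₁ * Real.log (u / u₁) ≤
      Real.log (Real.sinh u ^ 2 + s) := by
  have hu : 0 < u := hu1.trans_le h
  have hm : MonotoneOn (fun x => Real.log (Real.sinh x ^ 2 + s) - 2 * Dlog s u₁ * Real.log x)
      (Ici u₁) := by
    have hd : ∀ x : ℝ, 0 < x → HasDerivAt
        (fun x => Real.log (Real.sinh x ^ 2 + s) - 2 * Dlog s u₁ * Real.log x)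
        (2 * Dlog s x / x - 2 * Dlog s u₁ * x⁻¹) x := by
      intro x hx
      exact (log_sinh_deriv hs hx).sub ((Real.hasDerivAt_log hx.ne').const_mul _)
    refine monotoneOn_of_deriv_nonneg (convex_Ici u₁) ?_ ?_ ?_
    · intro x hx
      exact (hd x (hu1.trans_le hx)).continuousAt.continuousWithinAt
    · intro x hx
      rw [interior_Ici] at hx
      exact (hd x (hu1.trans hx)).differentiableAt.differentiableWithinAt
    · intro x hx
      rw [interior_Ici] at hx
      have hx' : u₁ < x := hx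
      rw [(hd x (hu1.trans hx')).deriv]
      have h1 := Dlog_mono hs hs1 hu1 hx'.le
      have h2 : 2 * Dlog s x / x - 2 * Dlog s u₁ * x⁻¹ = 2 * (Dlog s x - Dlog s u₁) / x := by
        field_simp
      rw [h2]
      exact div_nonneg (by linarith) (hu1.trans hx').le
  have h1 := hm (self_mem_Ici) h h
  simp only at h1
  rw [Real.log_div hu.ne' hu1.ne']
  linarith

/-- `fac` in the form `sinh² + s`. -/
theorem fac_eq_sinh (v : ℕ) (t θ : ℝ) : fac v t θ = Real.sinh (v * t / 2) ^ 2 +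
    (if Even v then Real.sin (v * θ / 2) ^ 2 else Real.cos (v * θ / 2) ^ 2) := by
  rcases Nat.even_or_odd v with h | h
  · rw [fac_even h, if_pos h]
  · rw [fac_odd' h, if_neg (Nat.not_even_iff_odd.2 h)]

/-- The exponent of `fac v` at `t₁`. -/
noncomputable def Dfac (v : ℕ) (t θ : ℝ) : ℝ :=
  Dlog (if Even v then Real.sin (v * θ / 2) ^ 2 else Real.cos (v * θ / 2) ^ 2) (v * t / 2)

theorem fac_s_mem (v : ℕ) (θ : ℝ) :
    0 ≤ (if Even v then Real.sin (v * θ / 2) ^ 2 else Real.cos (v * θ / 2) ^ 2) ∧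
    (if Even v then Real.sin (v * θ / 2) ^ 2 else Real.cos (v * θ / 2) ^ 2) ≤ 1 := by
  split
  · exact ⟨sq_nonneg _, Real.sin_sq_le_one _⟩
  · exact ⟨sq_nonneg _, Real.cos_sq_le_one _⟩

/-- **Comparison of `fac` at two radii.** -/
theorem log_fac_tangent {v : ℕ} (hv : 1 ≤ v) {t t₁ : ℝ} (ht : 0 < t) (h : t ≤ t₁) (θ : ℝ) :
    Real.log (fac v t₁ θ) - 2 * Dfac v t₁ θ * Real.log (t₁ / t) ≤ Real.log (fac v t θ) := by
  have hv' : (1 : ℝ) ≤ v := by exact_mod_cast hv
  have h1 := log_tangent (fac_s_mem v θ).1 (fac_s_mem v θ).2 (u := v * t / 2) (u₁ := v * t₁ / 2)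
    (by positivity) (by nlinarith)
  rw [← fac_eq_sinh, ← fac_eq_sinh] at h1
  have h2 : (v * t₁ / 2) / (v * t / 2) = t₁ / t := by
    field_simp
  rw [h2] at h1
  exact h1

theorem sinh_div_mono {x y : ℝ} (hx : 0 < x) (hxy : x ≤ y) :
    y * Real.sinh x ≤ x * Real.sinh y := by
  have hm : MonotoneOn (fun x => Real.sinh x / x) (Ioi 0) := by
    have hd : ∀ x : ℝ, 0 < x → HasDerivAt (fun x => Real.sinh x / x)
        ((Real.cosh x * x - Real.sinh x * 1) / x ^ 2) x := fun x hx =>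
      (Real.hasDerivAt_sinh x).div (hasDerivAt_id x) hx.ne'
    refine monotoneOn_of_deriv_nonneg (convex_Ioi 0) ?_ ?_ ?_
    · intro x hx
      exact (hd x hx).continuousAt.continuousWithinAt
    · intro x hx
      rw [interior_Ioi] at hx
      exact (hd x hx).differentiableAt.differentiableWithinAt
    · intro x hx
      rw [interior_Ioi] at hx
      rw [(hd x hx).deriv]
      refine div_nonneg ?_ (sq_nonneg _)
      -- `sinh x ≤ x cosh x`
      have h2 : MonotoneOn (fun x => x * Real.cosh x - Real.sinh x) (Ici 0) := by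
        have hd2 : ∀ x : ℝ, HasDerivAt (fun x => x * Real.cosh x - Real.sinh x)
            (1 * Real.cosh x + x * Real.sinh x - Real.cosh x) x := fun x =>
          ((hasDerivAt_id x).mul (Real.hasDerivAt_cosh x)).sub (Real.hasDerivAt_sinh x)
        refine monotoneOn_of_deriv_nonneg (convex_Ici 0) ?_ ?_ ?_
        · intro x _
          exact (hd2 x).continuousAt.continuousWithinAt
        · intro x _
          exact (hd2 x).differentiableAt.differentiableWithinAt
        · intro x hx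
          rw [interior_Ici] at hx
          rw [(hd2 x).deriv]
          have := Real.sinh_pos_iff.2 hx
          have hx' : 0 < x := hx
          nlinarith [mul_pos hx' this]
      have h3 := h2 (self_mem_Ici) (le_of_lt hx : (0 : ℝ) ≤ x) (le_of_lt hx : (0 : ℝ) ≤ x)
      simp only [zero_mul, Real.sinh_zero, sub_zero] at h3
      linarith
  have h1 := hm (show x ∈ Ioi (0 : ℝ) from hx) (show y ∈ Ioi (0 : ℝ) from hx.trans_le hxy) hxy
  simp only at h1
  rw [div_le_div_iff₀ hx (hx.trans_le hxy)] at h1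
  linarith

/-- For even `v` and `θ = 0`: `fac v t 0 ≤ (t/t₁)² fac v t₁ 0`. -/
theorem fac_zero_even_le {v : ℕ} (hv : Even v) {t t₁ : ℝ} (ht : 0 < t) (h : t ≤ t₁) :
    fac v t 0 ≤ (t / t₁) ^ 2 * fac v t₁ 0 := by
  rw [fac_zero_even hv, fac_zero_even hv]
  have ht1 : 0 < t₁ := ht.trans_le h
  have hv0 : (0 : ℝ) ≤ v := Nat.cast_nonneg v
  rcases eq_or_lt_of_le hv0 with h0 | h0
  · rw [← h0]; simp
  · have h1 := sinh_div_mono (x := v * t / 2) (y := v * t₁ / 2) (by positivity) (by nlinarith)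
    have h2 : Real.sinh (v * t / 2) ≤ (t / t₁) * Real.sinh (v * t₁ / 2) := by
      rw [div_mul_eq_mul_div, le_div_iff₀ ht1]
      have h3 : 0 < (v : ℝ) / 2 := by positivity
      refine le_of_mul_le_mul_left ?_ h3
      calc (v : ℝ) / 2 * (Real.sinh (v * t / 2) * t₁) = v * t₁ / 2 * Real.sinh (v * t / 2) := by ring
        _ ≤ v * t / 2 * Real.sinh (v * t₁ / 2) := h1
        _ = _ := by ring
    have h4 : 0 ≤ Real.sinh (v * t / 2) := Real.sinh_nonneg_iff.2 (by positivity)
    calc Real.sinh (v * t / 2) ^ 2 ≤ ((t / t₁) * Real.sinh (v * t₁ / 2)) ^ 2 :=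
          pow_le_pow_left₀ h4 h2 2
      _ = _ := by ring

end Pool.Agent.SignedQ.An
end
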