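import Pool.Agent.Lib.MP_cf17a0_co.Mg.G002
import Pool.Agent.Lib.MP_cf17a0_co.Final
import Pool.Agent.Lib.MP_cf17a0_co.Mg.G001

section

/-! # The logarithmic derivative on the real axis and the saddle point -/

namespace Pool.Agent.SignedQ.An

open Polynomial Finset

/-- The derivative of `(1/2) log (fac v t 0)` with respect to `t`. -/
noncomputable def dl (v : ℕ) (t : ℝ) : ℝ :=
  if Even v then v / 2 * (Real.cosh (v * t / 2) / Real.sinh (v * t / 2))
  else v / 2 * (Real.sinh (v * t / 2) / Real.cosh (v * t / 2))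

theorem hasDerivAt_log_fac {v : ℕ} (hv : 1 ≤ v) {t : ℝ} (ht : 0 < t) :
    HasDerivAt (fun t => 1 / 2 * Real.log (fac v t 0)) (dl v t) t := by
  have hv' : (1 : ℝ) ≤ v := by exact_mod_cast hv
  have hs : 0 < Real.sinh (v * t / 2) := Real.sinh_pos_iff.2 (by positivity)
  have hc : 0 < Real.cosh (v * t / 2) := Real.cosh_pos _
  have hl : HasDerivAt (fun t : ℝ => (v : ℝ) * t / 2) (v / 2) t := by
    have := ((hasDerivAt_id t).const_mul (v : ℝ)).div_const 2
    simpa using this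
  rcases Nat.even_or_odd v with h | h
  · have h1 : HasDerivAt (fun t => Real.sinh ((v : ℝ) * t / 2)) (Real.cosh (v * t / 2) * (v / 2)) t :=
      hl.sinh
    have h2 := (h1.log hs.ne')
    unfold dl
    rw [if_pos h]
    have h3 : (fun t => 1 / 2 * Real.log (fac v t 0)) =
        fun t => Real.log (Real.sinh ((v : ℝ) * t / 2)) := by
      funext x
      rw [fac_zero_even h, Real.log_pow]
      push_cast
      ring
    rw [h3]
    convert! h2 using 1
    ring
  · have h1 : HasDerivAt (fun t => Real.cosh ((v : ℝ) * t / 2)) (Real.sinh (v * t / 2) * (v / 2)) t :=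
      hl.cosh
    have h2 := (h1.log hc.ne')
    unfold dl
    rw [if_neg (Nat.not_even_iff_odd.2 h)]
    have h3 : (fun t => 1 / 2 * Real.log (fac v t 0)) =
        fun t => Real.log (Real.cosh ((v : ℝ) * t / 2)) := by
      funext x
      rw [fac_zero_odd h, Real.log_pow]
      push_cast
      ring
    rw [h3]
    convert! h2 using 1
    ring

/-- The derivative of `(1/2) log (GG n k a t 0)`. -/
noncomputable def slope (n k a : ℕ) (t : ℝ) : ℝ :=
  ((k + 1) / 2 : ℕ) * dl 1 t + ∑ v ∈ range k, (dl (a * (n + v + 1)) t - dl (v + 1) t)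

theorem log_GG {n k a : ℕ} (ha : 1 ≤ a) {t : ℝ} (ht : 0 < t) (θ : ℝ) :
    Real.log (GG n k a t θ) = ((k + 1) / 2 : ℕ) * Real.log (fac 1 t θ) +
      ∑ v ∈ range k, (Real.log (fac (a * (n + v + 1)) t θ) - Real.log (fac (v + 1) t θ)) := by
  have h1 := fac_pos (v := 1) le_rfl ht θ
  have h2 : ∀ v, 0 < fac (a * (n + v + 1)) t θ := fun v => fac_pos (Nat.mul_pos ha (by omega)) ht θ
  have h3 : ∀ v, 0 < fac (v + 1) t θ := fun v => fac_pos (by omega) ht θ
  unfold GG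
  rw [Real.log_mul (by positivity) (prod_pos fun v _ => div_pos (h2 v) (h3 v)).ne', Real.log_pow,
    Real.log_prod fun v _ => (div_pos (h2 v) (h3 v)).ne']
  congr 1
  exact sum_congr rfl fun v _ => Real.log_div (h2 v).ne' (h3 v).ne'

theorem hasDerivAt_log_GG {n k a : ℕ} (ha : 1 ≤ a) {t : ℝ} (ht : 0 < t) :
    HasDerivAt (fun t => 1 / 2 * Real.log (GG n k a t 0)) (slope n k a t) t := by
  have h1 : HasDerivAt (fun t => ((k + 1) / 2 : ℕ) * (1 / 2 * Real.log (fac 1 t 0)) +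
      ∑ v ∈ range k, (1 / 2 * Real.log (fac (a * (n + v + 1)) t 0) -
        1 / 2 * Real.log (fac (v + 1) t 0))) (slope n k a t) t := by
    unfold slope
    refine ((hasDerivAt_log_fac le_rfl ht).const_mul _).add ?_
    refine HasDerivAt.fun_sum fun v _ => ?_
    exact (hasDerivAt_log_fac (Nat.mul_pos ha (by omega)) ht).sub
      (hasDerivAt_log_fac (by omega) ht)
  refine h1.congr_of_eventuallyEq ?_
  filter_upwards [lt_mem_nhds ht] with x hx
  rw [log_GG ha hx, mul_add, mul_sum]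
  congr 1
  · ring
  · exact sum_congr rfl fun v _ => by ring

theorem rev_factor (v : ℕ) (x : ℝ) : rev (1 - (-X) ^ v) x = 1 - (-x) ^ v := by
  unfold rev
  simp

theorem rev_pow (f : ℚ[X]) (n : ℕ) (x : ℝ) : rev (f ^ n) x = rev f x ^ n := by
  unfold rev; rw [Polynomial.eval₂_pow]

theorem rev_prod {ι : Type*} (s : Finset ι) (f : ι → ℚ[X]) (x : ℝ) :
    rev (∏ i ∈ s, f i) x = ∏ i ∈ s, rev (f i) x := by
  unfold rev; rw [Polynomial.eval₂_finsetProd]

theorem factor_pos {x : ℝ} (h0 : 0 ≤ x) (h1 : x < 1) {v : ℕ} (hv : 1 ≤ v) : 0 < 1 - (-x) ^ v := by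
  rcases Nat.even_or_odd v with h | h
  · rw [h.neg_pow]
    have := pow_lt_one₀ h0 h1 (show v ≠ 0 by omega)
    linarith
  · rw [h.neg_pow]
    have := pow_nonneg h0 v
    linarith

theorem rev_pos {n k a : ℕ} (ha : 1 ≤ a) {f : ℚ[X]} (hf : f * poch (-X : ℚ[X]) k = num n k a)
    {x : ℝ} (h0 : 0 ≤ x) (h1 : x < 1) : 0 < rev f x := by
  have h2 : rev f x * rev (poch (-X) k) x = rev (num n k a) x := by rw [← rev_mul, hf]
  have h3 : 0 < rev (poch (-X) k) x := by
    unfold poch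
    rw [rev_prod]
    refine prod_pos fun v _ => ?_
    rw [rev_factor]
    exact factor_pos h0 h1 (by omega)
  have h4 : 0 < rev (num n k a) x := by
    unfold num
    rw [rev_mul, rev_pow, rev_prod]
    refine mul_pos (pow_pos ?_ _) (prod_pos fun v _ => ?_)
    · have : rev (1 + X) x = 1 + x := by unfold rev; simp
      rw [this]; linarith
    · rw [rev_factor]
      exact factor_pos h0 h1 (Nat.mul_pos ha (by omega))
  rw [← h2] at h4
  exact (pos_iff_pos_of_mul_pos h4).2 h3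

theorem pt_zero (t : ℝ) : pt t 0 = ((Real.exp (-t) : ℝ) : ℂ) := by
  unfold pt
  simp

theorem norm_cev_zero {n k a : ℕ} (ha : 1 ≤ a) {f : ℚ[X]}
    (hf : f * poch (-X : ℚ[X]) k = num n k a) {t : ℝ} (ht : 0 < t) :
    ‖cev f (pt t 0)‖ = rev f (Real.exp (-t)) := by
  rw [pt_zero, cev_ofReal, Complex.norm_real, Real.norm_of_nonneg]
  exact (rev_pos ha hf (Real.exp_pos _).le (by rw [Real.exp_lt_one_iff]; linarith)).le

/-- **The modulus ratio.** -/
theorem ratio_sq {n k a : ℕ} (ha : 1 ≤ a) {f : ℚ[X]} (hf : f * poch (-X : ℚ[X]) k = num n k a)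
    {t : ℝ} (ht : 0 < t) (θ : ℝ) :
    (‖cev f (pt t θ)‖ / rev f (Real.exp (-t))) ^ 2 = GG n k a t θ / GG n k a t 0 := by
  rw [← norm_cev_zero ha hf ht, div_pow, norm_sq_cev ha hf ht, norm_sq_cev ha hf ht]
  have h1 := GG_pos (n := n) (k := k) ha ht 0
  field_simp

/-! ### The saddle point -/

theorem coth_bound {u : ℝ} (hu : 0 < u) : 1 ≤ u * (Real.cosh u / Real.sinh u) ∧
    u * (Real.cosh u / Real.sinh u) ≤ 1 + u ^ 2 := by
  have hs := Real.sinh_pos_iff.2 hu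
  have hc := Real.cosh_pos u
  have h1 : Real.sinh u ≤ u * Real.cosh u := by
    have h2 : MonotoneOn (fun x => x * Real.cosh x - Real.sinh x) (Set.Ici 0) := by
      have hd2 : ∀ x : ℝ, HasDerivAt (fun x => x * Real.cosh x - Real.sinh x)
          (1 * Real.cosh x + x * Real.sinh x - Real.cosh x) x := fun x =>
        ((hasDerivAt_id x).mul (Real.hasDerivAt_cosh x)).sub (Real.hasDerivAt_sinh x)
      refine monotoneOn_of_deriv_nonneg (convex_Ici 0) ?_ ?_ ?_
      · intro x _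
        exact (hd2 x).continuousAt.continuousWithinAt
      · intro x _
        exact (hd2 x).differentiableAt.differentiableWithinAt
      · intro x hx
        rw [interior_Ici] at hx
        rw [(hd2 x).deriv]
        have := Real.sinh_pos_iff.2 hx
        have hx' : 0 < x := hx
        nlinarith [mul_pos hx' this]
    have h3 := h2 (Set.self_mem_Ici) (hu.le : (0 : ℝ) ≤ u) hu.le
    simp only [zero_mul, Real.sinh_zero, sub_zero] at h3
    linarith
  have h2 : u ≤ Real.sinh u := Real.self_le_sinh_iff.2 hu.le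
  -- `cosh u ≤ 1 + u sinh u` since `cosh u - 1 = 2 sinh²(u/2) ≤ u sinh u`
  have h3 : Real.cosh u ≤ 1 + u * Real.sinh u := by
    have e1 : Real.cosh u = 1 + 2 * Real.sinh (u / 2) ^ 2 := by
      have := Real.cosh_two_mul (u / 2)
      rw [show 2 * (u / 2) = u by ring] at this
      rw [this, Real.cosh_sq]; ring
    have e2 : Real.sinh u = 2 * Real.sinh (u / 2) * Real.cosh (u / 2) := by
      have := Real.sinh_two_mul (u / 2)
      rw [show 2 * (u / 2) = u by ring] at this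
      exact this
    have h5 : Real.sinh (u / 2) ≤ u / 2 * Real.cosh (u / 2) := by
      have h6 : MonotoneOn (fun x => x * Real.cosh x - Real.sinh x) (Set.Ici 0) := by
        have hd2 : ∀ x : ℝ, HasDerivAt (fun x => x * Real.cosh x - Real.sinh x)
            (1 * Real.cosh x + x * Real.sinh x - Real.cosh x) x := fun x =>
          ((hasDerivAt_id x).mul (Real.hasDerivAt_cosh x)).sub (Real.hasDerivAt_sinh x)
        refine monotoneOn_of_deriv_nonneg (convex_Ici 0) ?_ ?_ ?_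
        · intro x _
          exact (hd2 x).continuousAt.continuousWithinAt
        · intro x _
          exact (hd2 x).differentiableAt.differentiableWithinAt
        · intro x hx
          rw [interior_Ici] at hx
          rw [(hd2 x).deriv]
          have := Real.sinh_pos_iff.2 hx
          have hx' : 0 < x := hx
          nlinarith [mul_pos hx' this]
      have hu2 : (0 : ℝ) ≤ u / 2 := by linarith
      have h7 := h6 (Set.self_mem_Ici) hu2 hu2
      simp only [zero_mul, Real.sinh_zero, sub_zero] at h7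
      linarith
    have h8 : 0 < Real.sinh (u / 2) := Real.sinh_pos_iff.2 (by linarith)
    have h9 : 0 < Real.cosh (u / 2) := Real.cosh_pos _
    rw [e1, e2]
    nlinarith [mul_pos h8 h9, mul_pos hu (mul_pos h8 h9)]
  constructor
  · rw [mul_div_assoc', le_div_iff₀ hs]; linarith
  · rw [mul_div_assoc', div_le_iff₀ hs]
    nlinarith [mul_pos hu hs]

theorem tanh_le {u : ℝ} (hu : 0 ≤ u) : Real.sinh u / Real.cosh u ≤ u := by
  have hc := Real.cosh_pos u
  rcases eq_or_lt_of_le hu with h | h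
  · subst h; simp
  · have h1 := (coth_bound h).1
    have hs := Real.sinh_pos_iff.2 h
    rw [div_le_iff₀ hc]
    rw [mul_div_assoc', le_div_iff₀ hs] at h1
    linarith

theorem dl_even_bound {v : ℕ} (h : Even v) (hv : 1 ≤ v) {t : ℝ} (ht : 0 < t) :
    1 / t ≤ dl v t ∧ dl v t ≤ 1 / t + (v : ℝ) ^ 2 / 4 * t := by
  have hv' : (1 : ℝ) ≤ v := by exact_mod_cast hv
  have hu : 0 < (v : ℝ) * t / 2 := by positivity
  have h1 := coth_bound hu
  unfold dl
  rw [if_pos h]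
  have h2 : (v : ℝ) / 2 * (Real.cosh (v * t / 2) / Real.sinh (v * t / 2)) =
      ((v : ℝ) * t / 2 * (Real.cosh (v * t / 2) / Real.sinh (v * t / 2))) / t := by
    field_simp
  rw [h2]
  constructor
  · exact div_le_div_of_nonneg_right h1.1 ht.le
  · rw [div_le_iff₀ ht]
    refine h1.2.trans (le_of_eq ?_)
    field_simp
    ring

theorem dl_odd_bound {v : ℕ} (h : Odd v) {t : ℝ} (ht : 0 < t) :
    0 ≤ dl v t ∧ dl v t ≤ (v : ℝ) ^ 2 / 4 * t := by
  have hv0 : (0 : ℝ) ≤ v := Nat.cast_nonneg v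
  have hu : 0 ≤ (v : ℝ) * t / 2 := by positivity
  have hs := Real.sinh_nonneg_iff.2 hu
  have hc := Real.cosh_pos (v * t / 2)
  unfold dl
  rw [if_neg (Nat.not_even_iff_odd.2 h)]
  constructor
  · positivity
  · have := tanh_le hu
    have h2 : (v : ℝ) / 2 * (Real.sinh (v * t / 2) / Real.cosh (v * t / 2)) ≤
        v / 2 * (v * t / 2) := mul_le_mul_of_nonneg_left this (by positivity)
    refine h2.trans (le_of_eq ?_)
    ring

theorem slope_le {n k a : ℕ} (h : Even (n * k)) (ha : Odd a) {t : ℝ} (ht : 0 < t) :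
    slope n k a t ≤ (((k + 1) / 2 : ℕ) + ∑ v ∈ range k, ((a * (n + v + 1) : ℕ) : ℝ) ^ 2) / 4 * t := by
  have h1 := (dl_odd_bound (v := 1) odd_one ht).2
  -- bounds for the factors
  have h2 : ∀ v : ℕ, dl (a * (n + v + 1)) t ≤ (if Even (n + v + 1) then 1 / t else 0) +
      ((a * (n + v + 1) : ℕ) : ℝ) ^ 2 / 4 * t := by
    intro v
    rcases Nat.even_or_odd (n + v + 1) with hv | hv
    · rw [if_pos hv]
      exact (dl_even_bound (hv.mul_left a) (Nat.mul_pos ha.pos (by omega)) ht).2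
    · rw [if_neg (Nat.not_even_iff_odd.2 hv), zero_add]
      exact (dl_odd_bound (ha.mul hv) ht).2
  have h3 : ∀ v : ℕ, (if Even (0 + v + 1) then 1 / t else 0) ≤ dl (v + 1) t := by
    intro v
    rw [zero_add]
    rcases Nat.even_or_odd (v + 1) with hv | hv
    · rw [if_pos hv]
      exact (dl_even_bound hv (by omega) ht).1
    · rw [if_neg (Nat.not_even_iff_odd.2 hv)]
      exact (dl_odd_bound hv ht).1
  have h4 : ∀ m : ℕ, Even (m * k) → ∑ v ∈ range k, (if Even (m + v + 1) then 1 / t else 0) =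
      ((k / 2 : ℕ) : ℝ) * (1 / t) := by
    intro m hm
    rw [← sum_filter, sum_const, nsmul_eq_mul]
    have := card_ev hm
    unfold ev at this
    rw [this]
  unfold slope
  have h5 : ∑ v ∈ range k, (dl (a * (n + v + 1)) t - dl (v + 1) t) ≤
      ∑ v ∈ range k, (((a * (n + v + 1) : ℕ) : ℝ) ^ 2 / 4 * t) := by
    have h6 : ∑ v ∈ range k, (dl (a * (n + v + 1)) t - dl (v + 1) t) ≤
        ∑ v ∈ range k, ((if Even (n + v + 1) then 1 / t else 0) -
          (if Even (0 + v + 1) then 1 / t else 0) + ((a * (n + v + 1) : ℕ) : ℝ) ^ 2 / 4 * t) := by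
      refine sum_le_sum fun v _ => ?_
      have := h2 v
      have := h3 v
      linarith
    refine h6.trans (le_of_eq ?_)
    rw [sum_add_distrib, sum_sub_distrib, h4 n h, h4 0 (by simp)]
    ring
  have h7 : (((k + 1) / 2 : ℕ) : ℝ) * dl 1 t ≤ (((k + 1) / 2 : ℕ) : ℝ) * (((1 : ℕ) : ℝ) ^ 2 / 4 * t) :=
    mul_le_mul_of_nonneg_left h1 (Nat.cast_nonneg _)
  calc _ ≤ (((k + 1) / 2 : ℕ) : ℝ) * (((1 : ℕ) : ℝ) ^ 2 / 4 * t) +
      ∑ v ∈ range k, (((a * (n + v + 1) : ℕ) : ℝ) ^ 2 / 4 * t) := add_le_add h7 h5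
    _ = _ := by
      rw [← sum_mul, ← sum_div]
      push_cast
      ring

theorem tanh_mono_aux {x y : ℝ} (h : x ≤ y) :
    Real.sinh x / Real.cosh x ≤ Real.sinh y / Real.cosh y := by
  have hx := Real.cosh_pos x
  have hy := Real.cosh_pos y
  rw [div_le_div_iff₀ hx hy]
  have := Real.sinh_nonneg_iff.2 (show 0 ≤ y - x by linarith)
  rw [Real.sinh_sub] at this
  linarith

/-- A lower bound for the slope (with `T = tanh (t/2)`). -/
theorem slope_ge {n k a : ℕ} (ha : 1 ≤ a) {t : ℝ} (ht : 0 < t) :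
    ((((k + 1) / 2 : ℕ) : ℝ) + ((∑ v ∈ range k, a * (n + v + 1) : ℕ) : ℝ)) / 2 *
      (Real.sinh (t / 2) / Real.cosh (t / 2)) -
      ((∑ v ∈ range k, (v + 1) : ℕ) : ℝ) / 2 * (Real.cosh (t / 2) / Real.sinh (t / 2)) ≤
      slope n k a t := by
  have hs : 0 < Real.sinh (t / 2) := Real.sinh_pos_iff.2 (by linarith)
  have hc : 0 < Real.cosh (t / 2) := Real.cosh_pos _
  have hT1 : Real.sinh (t / 2) / Real.cosh (t / 2) ≤ 1 := by
    rw [div_le_one hc]; exact (Real.sinh_lt_cosh _).le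
  have hmono : ∀ v : ℕ, 1 ≤ v → Real.sinh (t / 2) / Real.cosh (t / 2) ≤
      Real.sinh (v * t / 2) / Real.cosh (v * t / 2) := by
    intro v hv
    have hv' : (1 : ℝ) ≤ v := by exact_mod_cast hv
    exact tanh_mono_aux (by nlinarith)
  have hlow : ∀ v : ℕ, 1 ≤ v → (v : ℝ) / 2 * (Real.sinh (t / 2) / Real.cosh (t / 2)) ≤ dl v t := by
    intro v hv
    have hv' : (1 : ℝ) ≤ v := by exact_mod_cast hv
    have hsv : 0 < Real.sinh (v * t / 2) := Real.sinh_pos_iff.2 (by positivity)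
    have hcv : 0 < Real.cosh (v * t / 2) := Real.cosh_pos _
    unfold dl
    split
    · refine mul_le_mul_of_nonneg_left ?_ (by positivity)
      refine hT1.trans ?_
      rw [one_le_div hsv]
      exact (Real.sinh_lt_cosh _).le
    · exact mul_le_mul_of_nonneg_left (hmono v hv) (by positivity)
  have hup : ∀ v : ℕ, 1 ≤ v → dl v t ≤ (v : ℝ) / 2 * (Real.cosh (t / 2) / Real.sinh (t / 2)) := by
    intro v hv
    have hv' : (1 : ℝ) ≤ v := by exact_mod_cast hv
    have hsv : 0 < Real.sinh (v * t / 2) := Real.sinh_pos_iff.2 (by positivity)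
    have hcv : 0 < Real.cosh (v * t / 2) := Real.cosh_pos _
    unfold dl
    split
    · refine mul_le_mul_of_nonneg_left ?_ (by positivity)
      have := hmono v hv
      rw [div_le_div_iff₀ hc hcv] at this
      rw [div_le_div_iff₀ hsv hs]
      linarith
    · refine mul_le_mul_of_nonneg_left ?_ (by positivity)
      have h1 : Real.sinh (v * t / 2) / Real.cosh (v * t / 2) ≤ 1 := by
        rw [div_le_one hcv]; exact (Real.sinh_lt_cosh _).le
      refine h1.trans ?_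
      rw [one_le_div hs]
      exact (Real.sinh_lt_cosh _).le
  unfold slope
  have e1 : (((k + 1) / 2 : ℕ) : ℝ) * (((1 : ℕ) : ℝ) / 2 * (Real.sinh (t / 2) / Real.cosh (t / 2))) ≤
      (((k + 1) / 2 : ℕ) : ℝ) * dl 1 t :=
    mul_le_mul_of_nonneg_left (hlow 1 le_rfl) (Nat.cast_nonneg _)
  have e2 : ∑ v ∈ range k, (((a * (n + v + 1) : ℕ) : ℝ) / 2 * (Real.sinh (t / 2) / Real.cosh (t / 2)) -
      ((v + 1 : ℕ) : ℝ) / 2 * (Real.cosh (t / 2) / Real.sinh (t / 2))) ≤
      ∑ v ∈ range k, (dl (a * (n + v + 1)) t - dl (v + 1) t) := by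
    refine sum_le_sum fun v _ => ?_
    have := hlow (a * (n + v + 1)) (Nat.mul_pos ha (by omega))
    have := hup (v + 1) (by omega)
    linarith
  refine le_trans (le_of_eq ?_) (add_le_add e1 e2)
  rw [sum_sub_distrib, ← sum_mul, ← sum_mul, ← sum_div, ← sum_div]
  push_cast
  ring

theorem tanh_tendsto : Filter.Tendsto (fun t : ℝ => Real.sinh (t / 2) / Real.cosh (t / 2))
    Filter.atTop (nhds 1) := by
  have h1 : (fun t : ℝ => Real.sinh (t / 2) / Real.cosh (t / 2)) =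
      fun t : ℝ => (1 - Real.exp (-t)) / (1 + Real.exp (-t)) := by
    funext t
    have h2 : Real.exp (-t) = Real.exp (-(t / 2)) ^ 2 := by
      rw [← Real.exp_nat_mul]; congr 1; push_cast; ring
    have h3 : Real.exp (-(t / 2)) * Real.exp (t / 2) = 1 := by rw [← Real.exp_add]; simp
    have h4 := Real.exp_pos (-(t / 2))
    have h5 := Real.exp_pos (t / 2)
    rw [Real.sinh_eq, Real.cosh_eq, h2, div_div_div_cancel_right₀ two_ne_zero,
      div_eq_div_iff (by positivity) (by positivity)]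
    linear_combination ((2 : ℝ) * Real.exp (-(t / 2))) * h3
  rw [h1]
  have h2 : Filter.Tendsto (fun t : ℝ => Real.exp (-t)) Filter.atTop (nhds 0) :=
    Real.tendsto_exp_neg_atTop_nhds_zero
  have h3 : Filter.Tendsto (fun t : ℝ => (1 - Real.exp (-t)) / (1 + Real.exp (-t))) Filter.atTop
      (nhds ((1 - 0) / (1 + 0))) := (h2.const_sub 1).div (h2.const_add 1) (by norm_num)
  simpa using h3

theorem slope_continuousOn {n k a : ℕ} (ha : 1 ≤ a) :
    ContinuousOn (slope n k a) (Set.Ioi 0) := by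
  have h1 : ∀ v : ℕ, 1 ≤ v → ContinuousOn (dl v) (Set.Ioi 0) := by
    intro v hv t ht
    have ht' : 0 < t := ht
    have hv' : (1 : ℝ) ≤ v := by exact_mod_cast hv
    have hsv : Real.sinh (v * t / 2) ≠ 0 := (Real.sinh_pos_iff.2 (by positivity)).ne'
    have hcv : Real.cosh (v * t / 2) ≠ 0 := (Real.cosh_pos _).ne'
    have hd : dl v = fun t => if Even v then (v : ℝ) / 2 * (Real.cosh (v * t / 2) / Real.sinh (v * t / 2))
        else v / 2 * (Real.sinh (v * t / 2) / Real.cosh (v * t / 2)) := rfl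
    rw [hd]
    have c1 : Continuous fun t : ℝ => Real.sinh ((v : ℝ) * t / 2) := by fun_prop
    have c2 : Continuous fun t : ℝ => Real.cosh ((v : ℝ) * t / 2) := by fun_prop
    split
    · exact (continuousAt_const.mul (c2.continuousAt.div c1.continuousAt hsv)).continuousWithinAt
    · exact (continuousAt_const.mul (c1.continuousAt.div c2.continuousAt hcv)).continuousWithinAt
  unfold slope
  refine (continuousOn_const.mul (h1 1 le_rfl)).add (continuousOn_finset_sum _ fun v _ => ?_)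
  exact (h1 _ (Nat.mul_pos ha (by omega))).sub (h1 _ (by omega))

/-- **Existence of the saddle point.** -/
theorem exists_saddle {n k a : ℕ} (h : Even (n * k)) (ha : Odd a) {f : ℚ[X]}
    (hf : f * poch (-X : ℚ[X]) k = num n k a) {s : ℝ} (hs : 0 < s)
    (hs1 : s < (f.natDegree : ℝ) / 2) : ∃ t : ℝ, 0 < t ∧ slope n k a t = s := by
  have ha1 : 1 ≤ a := ha.pos
  have hdeg := natDegree_f ha1 hf
  have hdeg' : (f.natDegree : ℝ) + ((∑ v ∈ range k, (v + 1) : ℕ) : ℝ) =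
      (((k + 1) / 2 : ℕ) : ℝ) + ((∑ v ∈ range k, a * (n + v + 1) : ℕ) : ℝ) := by
    exact_mod_cast hdeg
  set A : ℝ := ((((k + 1) / 2 : ℕ) : ℝ) + ((∑ v ∈ range k, a * (n + v + 1) : ℕ) : ℝ)) / 2 with hA
  set B : ℝ := ((∑ v ∈ range k, (v + 1) : ℕ) : ℝ) / 2 with hB
  have hAB : A - B = (f.natDegree : ℝ) / 2 := by rw [hA, hB]; linarith
  -- large `t`
  have h1 : Filter.Tendsto (fun t : ℝ => A * (Real.sinh (t / 2) / Real.cosh (t / 2)) -
      B * (Real.sinh (t / 2) / Real.cosh (t / 2))⁻¹) Filter.atTop (nhds (A * 1 - B * 1⁻¹)) :=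
    (tanh_tendsto.const_mul A).sub ((tanh_tendsto.inv₀ one_ne_zero).const_mul B)
  rw [mul_one, inv_one, mul_one, hAB] at h1
  obtain ⟨t₁, ht₁⟩ := ((h1.eventually (lt_mem_nhds hs1)).and
    (Filter.eventually_gt_atTop (0 : ℝ))).exists
  have h2 : s < slope n k a t₁ := by
    refine lt_of_lt_of_le ht₁.1 ?_
    have := slope_ge (n := n) (k := k) ha1 ht₁.2
    rw [inv_div]
    exact this
  -- small `t`
  set C : ℝ := (((k + 1) / 2 : ℕ) + ∑ v ∈ range k, ((a * (n + v + 1) : ℕ) : ℝ) ^ 2) / 4 with hC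
  have hC0 : 0 ≤ C := by positivity
  set t₀ : ℝ := min t₁ (s / (C + 1)) with ht₀
  have h3 : 0 < t₀ := lt_min ht₁.2 (by positivity)
  have h4 : slope n k a t₀ ≤ s := by
    refine (slope_le h ha h3).trans ?_
    rw [← hC]
    have h5 : t₀ ≤ s / (C + 1) := min_le_right _ _
    calc C * t₀ ≤ (C + 1) * (s / (C + 1)) := by
          refine mul_le_mul (by linarith) h5 h3.le (by linarith)
      _ = s := by field_simp
  have h5 : t₀ ≤ t₁ := min_le_left _ _
  have hcont : ContinuousOn (slope n k a) (Set.Icc t₀ t₁) :=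
    (slope_continuousOn ha1).mono fun x hx => lt_of_lt_of_le h3 hx.1
  obtain ⟨t, ht, hts⟩ := intermediate_value_Icc h5 hcont ⟨h4, h2.le⟩
  exact ⟨t, lt_of_lt_of_le h3 ht.1, hts⟩

end Pool.Agent.SignedQ.An
end

section

/-! # Interface: the forms of the modulus used in the estimates

`g2 j t θ` is `|1 - x^j|² e^(jt) / 4` for `x = -exp (-t + iθ)`; `N R ψ = |1 - R e^(iψ)|²`. -/

namespace Pool.Agent.SignedQ.An

open Polynomial Finset

/-- `|1 - R e^(iψ)|²`. -/
noncomputable def N (R ψ : ℝ) : ℝ := (1 - R) ^ 2 + 4 * R * Real.sin (ψ / 2) ^ 2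

/-- `sinh(jt/2)² + s`, `s = sin²(jθ/2)` for even `j`, `cos²(jθ/2)` for odd `j`. -/
noncomputable def g2 (j : ℕ) (t θ : ℝ) : ℝ := Real.sinh (j * t / 2) ^ 2 +
    (if Even j then Real.sin (j * θ / 2) ^ 2 else Real.cos (j * θ / 2) ^ 2)

theorem g2_eq_fac (j : ℕ) (t θ : ℝ) : g2 j t θ = fac j t θ := (fac_eq_sinh j t θ).symm

theorem g2_even {j : ℕ} (h : Even j) (t θ : ℝ) :
    g2 j t θ = Real.sinh (j * t / 2) ^ 2 + Real.sin (j * θ / 2) ^ 2 := by
  unfold g2; rw [if_pos h]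

theorem g2_odd {j : ℕ} (h : Odd j) (t θ : ℝ) :
    g2 j t θ = Real.sinh (j * t / 2) ^ 2 + Real.cos (j * θ / 2) ^ 2 := by
  unfold g2; rw [if_neg (Nat.not_even_iff_odd.2 h)]

theorem g2_odd' {j : ℕ} (h : Odd j) (t θ : ℝ) :
    g2 j t θ = Real.cosh (j * t / 2) ^ 2 - Real.sin (j * θ / 2) ^ 2 := by
  rw [g2_eq_fac, fac_odd h]

theorem g2_zero_even {j : ℕ} (h : Even j) (t : ℝ) : g2 j t 0 = Real.sinh (j * t / 2) ^ 2 := by
  rw [g2_eq_fac, fac_zero_even h]

theorem g2_zero_odd {j : ℕ} (h : Odd j) (t : ℝ) : g2 j t 0 = Real.cosh (j * t / 2) ^ 2 := by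
  rw [g2_eq_fac, fac_zero_odd h]

theorem g2_pos {j : ℕ} (hj : 1 ≤ j) {t : ℝ} (ht : 0 < t) (θ : ℝ) : 0 < g2 j t θ := by
  rw [g2_eq_fac]; exact fac_pos hj ht θ

theorem g2_nonneg (j : ℕ) (t θ : ℝ) : 0 ≤ g2 j t θ := by
  rw [g2_eq_fac]; exact fac_nonneg j t θ

/-- `|1 - x^j|² = 4 e^(-jt) g2 j t θ`. -/
theorem norm_sq_one_sub (j : ℕ) (t θ : ℝ) :
    ‖1 - (-(pt t θ)) ^ j‖ ^ 2 = 4 * Real.exp (-(t * j)) * g2 j t θ := by
  rw [g2_eq_fac, normSq_factor]

theorem N_eq (t ψ : ℝ) : N (Real.exp (-t)) ψ =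
    4 * Real.exp (-t) * (Real.sinh (t / 2) ^ 2 + Real.sin (ψ / 2) ^ 2) := by
  unfold N
  rw [← one_sub_even_sq]
  have h1 : Real.cos ψ = 1 - 2 * Real.sin (ψ / 2) ^ 2 := by
    have := Real.cos_two_mul' (ψ / 2)
    rw [show 2 * (ψ / 2) = ψ by ring] at this
    rw [this, Real.cos_sq']
    ring
  have h2 : Real.sin ψ ^ 2 = 1 - Real.cos ψ ^ 2 := Real.sin_sq ψ
  have h3 : (1 - Real.exp (-t) * Real.cos ψ) ^ 2 + (Real.exp (-t) * Real.sin ψ) ^ 2 =
      1 - 2 * Real.exp (-t) * Real.cos ψ + Real.exp (-t) ^ 2 * (Real.cos ψ ^ 2 + Real.sin ψ ^ 2) := by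
    ring
  rw [h3, h2, h1]
  ring

theorem g2_one (t θ : ℝ) : g2 1 t θ = (Real.cosh t + Real.cos θ) / 2 := by
  rw [g2_odd' odd_one]
  have h1 : Real.cos θ = 1 - 2 * Real.sin (θ / 2) ^ 2 := by
    have := Real.cos_two_mul' (θ / 2)
    rw [show 2 * (θ / 2) = θ by ring] at this
    rw [this, Real.cos_sq']
    ring
  have h2 : Real.cosh t = 2 * Real.cosh (t / 2) ^ 2 - 1 := by
    have := Real.cosh_two_mul (t / 2)
    rw [show 2 * (t / 2) = t by ring] at this
    rw [this, Real.sinh_sq]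
    ring
  rw [h1, h2, Nat.cast_one, one_mul, one_mul]
  ring

/-- **The modulus of `f`**: for `t > 0`,
`(|f(e^(-t+iθ))| / f(e^(-t)))² = ((cosh t + cos θ)/(cosh t + 1))^c ∏_j [g2 b_j t θ / g2 b_j t 0] / [g2 j t θ / g2 j t 0]`,
`b_j = a (n + j)`, `c = ⌈k/2⌉`. -/
theorem ratio_formula {n k a : ℕ} (ha : 1 ≤ a) {f : ℚ[X]}
    (hf : f * poch (-X : ℚ[X]) k = num n k a) {t : ℝ} (ht : 0 < t) (θ : ℝ) :
    (‖cev f (pt t θ)‖ / rev f (Real.exp (-t))) ^ 2 =
      ((Real.cosh t + Real.cos θ) / (Real.cosh t + 1)) ^ ((k + 1) / 2) *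
      ∏ j ∈ Icc 1 k, ((g2 (a * (n + j)) t θ / g2 (a * (n + j)) t 0) / (g2 j t θ / g2 j t 0)) := by
  rw [ratio_sq ha hf ht θ]
  unfold GG
  have hicc : ∀ F : ℕ → ℝ, ∏ j ∈ Icc 1 k, F j = ∏ v ∈ range k, F (v + 1) := by
    intro F
    rw [range_eq_Ico, prod_Ico_add' F 0 k 1, zero_add]
    congr 1
  rw [hicc]
  have h1 : (Real.cosh t + Real.cos θ) / (Real.cosh t + 1) = fac 1 t θ / fac 1 t 0 := by
    rw [← g2_eq_fac, ← g2_eq_fac, g2_one, g2_one, Real.cos_zero, div_div_div_cancel_right₀ two_ne_zero]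
  rw [h1, div_pow, mul_div_mul_comm, ← prod_div_distrib]
  congr 1
  refine prod_congr rfl fun v _ => ?_
  have p1 := fac_pos (Nat.mul_pos ha (show 0 < n + v + 1 by omega)) ht θ
  have p2 := fac_pos (Nat.mul_pos ha (show 0 < n + v + 1 by omega)) ht 0
  have p3 := fac_pos (v := v + 1) (by omega) ht θ
  have p4 := fac_pos (v := v + 1) (by omega) ht 0
  rw [g2_eq_fac, g2_eq_fac, g2_eq_fac, g2_eq_fac, show n + (v + 1) = n + v + 1 by ring]
  field_simp

/-- Monotonicity in `t` in terms of `GG` (`GG n k a t θ = |f|² e^(tD) / 4^c`). -/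
theorem GG_mono {n k a : ℕ} (ha : 1 ≤ a) {t₁ t₂ : ℝ} (h1 : 0 < t₁) (h2 : t₁ ≤ t₂) (θ : ℝ) :
    GG n k a t₁ θ ≤ GG n k a t₂ θ := by
  obtain ⟨f, hf'⟩ := den_dvd n k a ha
  have hf : f * poch (-X : ℚ[X]) k = num n k a := by rw [hf', mul_comm]
  have h3 := norm_mono (fun z hz => zeros_num ha hf hz) (f_ne_zero ha hf) h1.le h2 θ
  rw [norm_sq_cev ha hf h1, norm_sq_cev ha hf (h1.trans_le h2)] at h3
  have e : ∀ t : ℝ, 4 ^ ((k + 1) / 2) * Real.exp (-(t * f.natDegree)) * GG n k a t θ *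
      Real.exp (t * f.natDegree) = 4 ^ ((k + 1) / 2) * GG n k a t θ := by
    intro t
    have : Real.exp (-(t * f.natDegree)) * Real.exp (t * f.natDegree) = 1 := by
      rw [← Real.exp_add]; simp
    linear_combination (4 ^ ((k + 1) / 2) * GG n k a t θ) * this
  rw [e, e] at h3
  exact le_of_mul_le_mul_left h3 (by positivity)

/-- **The criterion, in normalised form.** `ρ` bounds the modulus ratio on `[θ₁, π]`, `L` bounds
`Re (f(e^(-t+iθ)) e^(-imθ)) / f(e^(-t))` from below on `[0, θ₁]`. -/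
theorem coeff_pos_criterion {n k a : ℕ} (ha : 1 ≤ a) {f : ℚ[X]}
    (hf : f * poch (-X : ℚ[X]) k = num n k a) {t : ℝ} (ht : 0 < t) (m : ℕ) (θ₁ : ℝ) (h0 : 0 ≤ θ₁)
    (h1 : θ₁ ≤ Real.pi) (L ρ : ℝ → ℝ) (hLi : IntervalIntegrable L MeasureTheory.volume 0 θ₁)
    (hρi : IntervalIntegrable ρ MeasureTheory.volume θ₁ Real.pi)
    (hL : ∀ θ ∈ Set.Icc 0 θ₁, L θ * rev f (Real.exp (-t)) ≤ reT f t m θ)
    (hρ : ∀ θ ∈ Set.Icc θ₁ Real.pi, ‖cev f (pt t θ)‖ / rev f (Real.exp (-t)) ≤ ρ θ)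
    (hlt : ∫ θ in θ₁..Real.pi, ρ θ < ∫ θ in (0 : ℝ)..θ₁, L θ) : 0 < f.coeff m := by
  have hF : 0 < rev f (Real.exp (-t)) :=
    rev_pos ha hf (Real.exp_pos _).le (by rw [Real.exp_lt_one_iff]; linarith)
  refine coeff_pos_of f t m θ₁ h0 h1 (fun θ => L θ * rev f (Real.exp (-t)))
    (fun θ => ρ θ * rev f (Real.exp (-t))) (hLi.mul_const _) (hρi.mul_const _) hL ?_ ?_
  · intro θ hθ
    rw [← div_le_iff₀ hF]
    exact hρ θ hθ
  · rw [intervalIntegral.integral_mul_const, intervalIntegral.integral_mul_const]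
    exact mul_lt_mul_of_pos_right hlt hF

end Pool.Agent.SignedQ.An
end

section

/-! # The matched product bound (helper78)

`∏ (1 - y^(c(N+i+1))) / (1 - y^(i+1))` is a polynomial in `y` with nonnegative coefficients. -/

namespace Pool.Agent.SignedQ.An

open Polynomial Finset

namespace Z3a

lemma norm_qb_le (w : ℂ) : ∀ n k : ℕ, ‖qb w n k‖ ≤ qb ‖w‖ n k := by
  intro n
  induction n with
  | zero =>
    intro k
    cases k with
    | zero => simp [qb_zero_right]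
    | succ k => simp [qb]
  | succ n ih =>
    intro k
    cases k with
    | zero => simp [qb_zero_right]
    | succ k =>
      rw [qb_succ, qb_succ]
      refine (norm_add_le _ _).trans ?_
      rw [norm_mul, norm_pow]
      have h1 := ih k
      have h2 := mul_le_mul_of_nonneg_left (ih (k + 1)) (show 0 ≤ ‖w‖ ^ (k + 1) by positivity)
      linarith

lemma one_sub_pow_ne {y : ℂ} (hy : ‖y‖ < 1) {m : ℕ} (hm : 1 ≤ m) : 1 - y ^ m ≠ 0 := by
  intro h
  have h1 : y ^ m = 1 := by linear_combination -h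
  have h2 : ‖y‖ ^ m = 1 := by rw [← norm_pow, h1, norm_one]
  have h3 := pow_lt_one₀ (norm_nonneg y) hy (show m ≠ 0 by omega)
  linarith

/-- the product of the numerators as a Gaussian binomial. -/
lemma num_eq_qb {R : Type*} [CommRing R] [IsDomain R] (Y : R) (N I : ℕ)
    (h : ∀ m : ℕ, 1 ≤ m → 1 - Y ^ m ≠ 0) :
    ∏ i ∈ range I, (1 - Y ^ (N + i + 1)) = qb Y (N + I) I * ∏ i ∈ range I, (1 - Y ^ (i + 1)) := by
  have h1 := qb_mul Y (N + I) N I rfl
  have h2 : poch Y (N + I) = poch Y N * ∏ i ∈ range I, (1 - Y ^ (N + i + 1)) := by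
    unfold poch
    rw [prod_range_add]
  have h3 : poch Y N ≠ 0 := by
    unfold poch
    exact prod_ne_zero_iff.2 fun i _ => h (i + 1) (by omega)
  refine mul_left_cancel₀ h3 ?_
  rw [← h2, ← h1]
  unfold poch
  ring

lemma norm_one_sub_le (y : ℂ) {c : ℕ} :
    ‖1 - y ^ c‖ ≤ ‖1 - y‖ * ∑ s ∈ range c, ‖y‖ ^ s := by
  rw [← mul_neg_geom_sum y c, norm_mul]
  apply mul_le_mul_of_nonneg_left _ (norm_nonneg _)
  refine (norm_sum_le _ _).trans (le_of_eq ?_)
  exact sum_congr rfl fun s _ => norm_pow y s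

/-- **The matched product bound.** -/
theorem matched {y : ℂ} (hy : ‖y‖ < 1) (c N I : ℕ) (hc : 1 ≤ c) :
    (∏ i ∈ range I, ‖1 - y ^ (c * (N + i + 1))‖) * ∏ i ∈ range I, (1 - ‖y‖ ^ (i + 1)) ≤
      (∏ i ∈ range I, (1 - ‖y‖ ^ (c * (N + i + 1)))) * ∏ i ∈ range I, ‖1 - y ^ (i + 1)‖ := by
  obtain ⟨r, hr⟩ : ∃ r, r = ‖y‖ := ⟨_, rfl⟩
  have hr0 : 0 ≤ r := by rw [hr]; exact norm_nonneg y
  have hr1 : r < 1 := by rw [hr]; exact hy
  have hY : ‖y ^ c‖ < 1 := by
    rw [norm_pow]; exact pow_lt_one₀ (norm_nonneg y) hy (by omega)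
  have hpos : ∀ m : ℕ, 1 ≤ m → 0 < 1 - r ^ m := by
    intro m hm
    have := pow_lt_one₀ hr0 hr1 (show m ≠ 0 by omega)
    linarith
  have e1 : ∏ i ∈ range I, ‖1 - y ^ (c * (N + i + 1))‖ =
      ‖qb (y ^ c) (N + I) I‖ * ∏ i ∈ range I, ‖1 - (y ^ c) ^ (i + 1)‖ := by
    rw [← norm_prod, ← norm_prod, ← norm_mul, ← num_eq_qb (y ^ c) N I
      (fun m hm => one_sub_pow_ne hY hm)]
    congr 1
    exact prod_congr rfl fun i _ => by rw [← pow_mul]
  have e2 : ∏ i ∈ range I, (1 - r ^ (c * (N + i + 1))) =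
      qb (r ^ c) (N + I) I * ∏ i ∈ range I, (1 - (r ^ c) ^ (i + 1)) := by
    rw [← num_eq_qb (r ^ c) N I (fun m hm => by
      rw [← pow_mul]; exact (hpos _ (Nat.mul_pos hc hm)).ne')]
    exact prod_congr rfl fun i _ => by rw [← pow_mul]
  have h1 : ‖qb (y ^ c) (N + I) I‖ ≤ qb (r ^ c) (N + I) I := by
    have := norm_qb_le (y ^ c) (N + I) I
    rw [norm_pow, ← hr] at this
    exact this
  have h2 : (∏ i ∈ range I, ‖1 - (y ^ c) ^ (i + 1)‖) * ∏ i ∈ range I, (1 - r ^ (i + 1)) ≤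
      (∏ i ∈ range I, ‖1 - y ^ (i + 1)‖) * ∏ i ∈ range I, (1 - (r ^ c) ^ (i + 1)) := by
    rw [← prod_mul_distrib, ← prod_mul_distrib]
    apply prod_le_prod
    · intro i _
      exact mul_nonneg (norm_nonneg _) (hpos _ (by omega)).le
    · intro i _
      have h3 := norm_one_sub_le (y ^ (i + 1)) (c := c)
      rw [norm_pow, ← hr] at h3
      have h4 : (∑ s ∈ range c, (r ^ (i + 1)) ^ s) * (1 - r ^ (i + 1)) = 1 - (r ^ c) ^ (i + 1) := by
        rw [geom_sum_mul_neg]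
        congr 1
        rw [← pow_mul, ← pow_mul, mul_comm]
      have h5 : (y ^ c) ^ (i + 1) = (y ^ (i + 1)) ^ c := by
        rw [← pow_mul, ← pow_mul, mul_comm]
      rw [h5, ← h4, ← mul_assoc]
      exact mul_le_mul_of_nonneg_right h3 (hpos _ (by omega)).le
  rw [← hr, e1, e2]
  have h6 : 0 ≤ (∏ i ∈ range I, ‖1 - (y ^ c) ^ (i + 1)‖) * ∏ i ∈ range I, (1 - r ^ (i + 1)) :=
    mul_nonneg (prod_nonneg fun i _ => norm_nonneg _)
      (prod_nonneg fun i _ => (hpos _ (by omega)).le)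
  calc ‖qb (y ^ c) (N + I) I‖ * (∏ i ∈ range I, ‖1 - (y ^ c) ^ (i + 1)‖) *
        ∏ i ∈ range I, (1 - r ^ (i + 1))
      = ‖qb (y ^ c) (N + I) I‖ * ((∏ i ∈ range I, ‖1 - (y ^ c) ^ (i + 1)‖) *
        ∏ i ∈ range I, (1 - r ^ (i + 1))) := by ring
    _ ≤ qb (r ^ c) (N + I) I * ((∏ i ∈ range I, ‖1 - y ^ (i + 1)‖) *
        ∏ i ∈ range I, (1 - (r ^ c) ^ (i + 1))) :=
        mul_le_mul h1 h2 h6 ((norm_nonneg _).trans h1)
    _ = _ := by ring

lemma one_sub_exp_sq (s : ℝ) :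
    (1 - Real.exp (-s)) ^ 2 = 4 * Real.exp (-s) * Real.sinh (s / 2) ^ 2 := by
  rw [Real.sinh_eq]
  have h1 : Real.exp (-s) = Real.exp (-(s / 2)) ^ 2 := by
    rw [← Real.exp_nat_mul]; congr 1; push_cast; ring
  have h2 : Real.exp (s / 2) * Real.exp (-(s / 2)) = 1 := by
    rw [← Real.exp_add]; simp
  rw [h1]
  have h3 : (4 * Real.exp (-(s / 2)) ^ 2 * ((Real.exp (s / 2) - Real.exp (-(s / 2))) / 2) ^ 2) =
      (Real.exp (s / 2) * Real.exp (-(s / 2)) - Real.exp (-(s / 2)) ^ 2) ^ 2 := by ring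
  rw [h3, h2]

/-- **The matched product bound for `g2`.** -/
theorem matched_g2 {t : ℝ} (ht : 0 < t) (θ : ℝ) (c N I : ℕ) (hc : 1 ≤ c) :
    (∏ i ∈ range I, g2 (3 * (c * (N + i + 1))) t θ) *
      ∏ i ∈ range I, Real.sinh ((3 * (i + 1) : ℕ) * (t / 2)) ^ 2 ≤
    (∏ i ∈ range I, Real.sinh ((3 * (c * (N + i + 1)) : ℕ) * (t / 2)) ^ 2) *
      ∏ i ∈ range I, g2 (3 * (i + 1)) t θ := by
  obtain ⟨y, hy⟩ : ∃ y : ℂ, y = (-(pt t θ)) ^ 3 := ⟨_, rfl⟩
  have hny : ‖y‖ = Real.exp (-(3 * t)) := by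
    rw [hy, norm_pow, norm_neg, norm_pt, ← Real.exp_nat_mul]
    congr 1; push_cast; ring
  have hy1 : ‖y‖ < 1 := by
    rw [hny, Real.exp_lt_one_iff]; linarith
  have h := matched hy1 c N I hc
  have e1 : ∀ m : ℕ, ‖1 - y ^ m‖ ^ 2 = 4 * Real.exp (-(t * (3 * m : ℕ))) * g2 (3 * m) t θ := by
    intro m
    rw [hy, ← pow_mul, norm_sq_one_sub]
  have e2 : ∀ m : ℕ, (1 - ‖y‖ ^ m) ^ 2 = 4 * Real.exp (-(t * (3 * m : ℕ))) *
      Real.sinh ((3 * m : ℕ) * (t / 2)) ^ 2 := by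
    intro m
    rw [hny, ← Real.exp_nat_mul]
    have : (m : ℝ) * -(3 * t) = -(t * (3 * m : ℕ)) := by push_cast; ring
    rw [this, one_sub_exp_sq]
    congr 3
    ring
  have h0 : 0 ≤ (∏ i ∈ range I, ‖1 - y ^ (c * (N + i + 1))‖) *
      ∏ i ∈ range I, (1 - ‖y‖ ^ (i + 1)) := by
    apply mul_nonneg (prod_nonneg fun i _ => norm_nonneg _)
    apply prod_nonneg
    intro i _
    have := pow_lt_one₀ (norm_nonneg y) hy1 (show i + 1 ≠ 0 by omega)
    linarith
  have h2 := pow_le_pow_left₀ h0 h 2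
  rw [mul_pow, mul_pow, ← prod_pow, ← prod_pow, ← prod_pow, ← prod_pow] at h2
  simp_rw [e1, e2] at h2
  have p1 : ∀ F G : ℕ → ℝ, ∏ i ∈ range I, (F i * G i) = (∏ i ∈ range I, F i) * ∏ i ∈ range I, G i :=
    fun F G => prod_mul_distrib
  have hE : 0 < (∏ i ∈ range I, 4 * Real.exp (-(t * (3 * (c * (N + i + 1)) : ℕ)))) *
      ∏ i ∈ range I, 4 * Real.exp (-(t * (3 * (i + 1) : ℕ))) := by
    apply mul_pos <;> exact prod_pos fun i _ => by positivity
  rw [p1 (fun i => 4 * Real.exp (-(t * (3 * (c * (N + i + 1)) : ℕ)))),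
    p1 (fun i => 4 * Real.exp (-(t * (3 * (i + 1) : ℕ)))),
    p1 (fun i => 4 * Real.exp (-(t * (3 * (c * (N + i + 1)) : ℕ)))),
    p1 (fun i => 4 * Real.exp (-(t * (3 * (i + 1) : ℕ))))] at h2
  refine le_of_mul_le_mul_left ?_ hE
  generalize (∏ i ∈ range I, 4 * Real.exp (-(t * (3 * (c * (N + i + 1)) : ℕ)))) = E1 at *
  generalize (∏ i ∈ range I, 4 * Real.exp (-(t * (3 * (i + 1) : ℕ)))) = E2 at *
  linarith

end Z3a

end Pool.Agent.SignedQ.An
end
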