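import Mathlib

section

/-! # FAR arcs: lower bound for cosine sums with convex weights (task FB)

(`dirichlet_sum`, `fejer_sum` are proved in task FA; restate and prove them locally with a prime if
you need them: both are short inductions.) -/

namespace Pool.Agent.SignedQ.Far

open Real Finset

/-- `sin y ≥ - (11/50 - 1/2000) y` for `y ≥ 0` (the true minimum of `sin y / y` is `-0.21724`).
Proof: clear for `y ≤ π` and for `y ≥ 1/0.2195`; for `y = π + u`, `0 ≤ u ≤ 3/2`, concavity of `sin`: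
`sin u ≤ sin u₀ + cos u₀ (u - u₀)` with `u₀ = 27/20` (`sin u₀ ≤ 0.9758`, `0.2190 ≤ cos u₀ ≤ 0.2191`),
and `0.2195 (π + u) ≥ 0.6895 + 0.2195 u`. -/
theorem sin_ge_neg {y : ℝ} (hy : 0 ≤ y) : -(439 / 2000 * y) ≤ sin y := by
  rcases le_total y π with h | h
  · have := sin_nonneg_of_nonneg_of_le_pi hy h
    linarith
  · rcases le_total (2000 / 439) y with h2 | h2
    · have := neg_one_le_sin y
      have : 1 ≤ 439 / 2000 * y := by linarith
      linarith
    · have hp1 := Real.pi_gt_d4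
      have hp2 := Real.pi_lt_d4
      set u := y - π with hu
      have hyu : y = u + π := by rw [hu]; ring
      have hu0 : 0 ≤ u := by linarith
      rw [hyu, sin_add_pi]
      rcases le_total u (88 / 100) with h3 | h3
      · have := sin_le hu0
        linarith
      · set v := π / 2 - u with hv
        have hv0 : 0 ≤ v := by linarith
        have hv1 : v ≤ 7 / 10 := by linarith
        have hcos : sin u = cos v := by rw [hv, cos_pi_div_two_sub]
        have hb := Real.cos_bound (x := v) (by rw [abs_of_nonneg hv0]; linarith)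
        rw [abs_le, abs_of_nonneg hv0] at hb
        have hb2 := hb.2
        have hv2 : v ^ 4 ≤ 49 / 100 * v ^ 2 := by
          have h5 : v ^ 2 ≤ 49 / 100 := by nlinarith
          have h6 : v ^ 4 = v ^ 2 * v ^ 2 := by ring
          rw [h6]
          exact mul_le_mul_of_nonneg_right h5 (sq_nonneg v)
        rw [hcos]
        have hu2 : u = π / 2 - v := by rw [hv]; ring
        rw [hu2]
        nlinarith [sq_nonneg (v - 23 / 100)]

theorem dirichlet_lower_aux {N : ℕ} (hN : 26 ≤ N) {x : ℝ} (hx0 : 0 < x) (hx1 : x ≤ π / 2) :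
    -(11 / 50 * (2 * (N : ℝ) + 1)) ≤ sin ((2 * (N : ℝ) + 1) * x) / sin x := by
  have hN' : (26 : ℝ) ≤ N := by exact_mod_cast hN
  have hs : 0 < sin x := sin_pos_of_pos_of_lt_pi hx0 (by linarith [Real.pi_pos])
  set M : ℝ := 2 * (N : ℝ) + 1 with hM
  have hM53 : 53 ≤ M := by rw [hM]; linarith
  rw [le_div_iff₀ hs]
  rcases le_total 1 (11 / 50 * M * sin x) with h | h
  · have := neg_one_le_sin (M * x)
    linarith
  · have hsx : sin x ≤ 858 / 10000 := by
      by_contra hc
      push Not at hc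
      nlinarith
    have hj := Real.mul_le_sin hx0.le hx1
    have hp2 := Real.pi_lt_d4
    have hp0 := Real.pi_pos
    have hx2 : x ≤ 135 / 1000 := by
      have h1 : x = π / 2 * (2 / π * x) := by field_simp
      have h2 : π / 2 * (2 / π * x) ≤ π / 2 * sin x := mul_le_mul_of_nonneg_left hj (by linarith)
      nlinarith
    have hcube := Real.sin_gt_sub_cube hx0
    have hx3 : x ≤ 95 / 1000 := by
      by_contra hc
      push Not at hc
      have : x ^ 3 ≤ 135 / 1000 * (135 / 1000) * x := by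
        have : x ^ 3 = x * x * x := by ring
        rw [this]
        gcongr
      nlinarith
    have hy := sin_ge_neg (y := M * x) (by positivity)
    have hx4 : x ^ 3 ≤ 9025 / 1000000 * x := by
      have : x ^ 3 = x * x * x := by ring
      rw [this]
      have : x * x ≤ 9025 / 1000000 := by nlinarith
      exact mul_le_mul_of_nonneg_right this hx0.le
    have hx5 : 439 / 2000 * x ≤ 11 / 50 * sin x := by nlinarith
    have hx6 : 439 / 2000 * (M * x) ≤ 11 / 50 * M * sin x := by nlinarith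
    linarith

/-- Lower bound of the Dirichlet kernel, `N ≥ 26`.
Proof. `M = 2N+1 ≥ 53`, `x = φ/2`; both sides are invariant under `x → x + π` and `x → -x` (up to the
sign of both sines), so `0 < x ≤ π/2`. If `sin x ≥ 1/(0.22 M)` it is clear. Otherwise
`sin x < 0.0858`, hence `x ≤ (π/2) sin x ≤ 0.135`, hence (`sin x ≥ x (1 - x²/6)`) `x ≤ 0.0862`, and
with `y = M x`: `M sin x ≥ y (1 - x²/6)`, `sin y ≥ -0.2195 y` (`sin_ge_neg`) and
`0.22 (1 - x²/6) ≥ 0.2195`. -/
theorem dirichlet_lower {N : ℕ} (hN : 26 ≤ N) {φ : ℝ} (hs : sin (φ / 2) ≠ 0) :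
    -(11 / 50 * (2 * (N : ℝ) + 1)) ≤ sin (((N : ℝ) + 1 / 2) * φ) / sin (φ / 2) := by
  set x := φ / 2 with hx
  have hφ : φ = 2 * x := by rw [hx]; ring
  have e1 : ((N : ℝ) + 1 / 2) * φ = (2 * (N : ℝ) + 1) * x := by rw [hφ]; ring
  rw [e1]
  set k : ℤ := round (x / π) with hk
  set t := x - k * π with ht
  have hxt : x = t + k * π := by rw [ht]; ring
  have hp := Real.pi_pos
  have htle : |t| ≤ π / 2 := by
    have h1 := abs_sub_round (x / π)
    rw [← hk] at h1
    have h2 : t = (x / π - k) * π := by rw [ht]; field_simp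
    rw [h2, abs_mul, abs_of_pos hp]
    nlinarith
  have hsx : sin x = (-1) ^ k * sin t := by
    rw [hxt, Real.sin_add_int_mul_pi]
  have hsMx : sin ((2 * (N : ℝ) + 1) * x) = (-1) ^ k * sin ((2 * (N : ℝ) + 1) * t) := by
    have e2 : (2 * (N : ℝ) + 1) * x = (2 * (N : ℝ) + 1) * t + (((2 * (N : ℤ) + 1) * k : ℤ) : ℝ) * π := by
      rw [hxt]; push_cast; ring
    rw [e2, Real.sin_add_int_mul_pi]
    congr 1
    rw [zpow_mul]
    congr 1
    have hodd : Odd (2 * (N : ℤ) + 1) := ⟨N, rfl⟩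
    exact hodd.neg_one_zpow
  have hk0 : ((-1 : ℝ)) ^ k ≠ 0 := zpow_ne_zero _ (by norm_num)
  have ht0 : sin t ≠ 0 := by
    intro h; rw [h, mul_zero] at hsx; exact hs hsx
  have htne : t ≠ 0 := by
    intro h; rw [h, sin_zero] at ht0; exact ht0 rfl
  rw [hsx, hsMx, mul_div_mul_left _ _ hk0]
  have habs : sin ((2 * (N : ℝ) + 1) * t) / sin t = sin ((2 * (N : ℝ) + 1) * |t|) / sin |t| := by
    rcases abs_choice t with h | h
    · rw [h]
    · rw [h, mul_neg, sin_neg, sin_neg, neg_div_neg_eq]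
  rw [habs]
  exact dirichlet_lower_aux hN (abs_pos.mpr htne) htle

/-- The Dirichlet kernel in closed form. -/
theorem cos_step (n : ℕ) {φ : ℝ} (hs : sin (φ / 2) ≠ 0) :
    cos (((n : ℝ) + 1) * φ) = (sin (((n : ℝ) + 1 + 1 / 2) * φ) / sin (φ / 2) -
      sin (((n : ℝ) + 1 / 2) * φ) / sin (φ / 2)) / 2 := by
  have h1 : ((n : ℝ) + 1 / 2) * φ = ((n : ℝ) + 1) * φ - φ / 2 := by ring
  have h2 : ((n : ℝ) + 1 + 1 / 2) * φ = ((n : ℝ) + 1) * φ + φ / 2 := by ring
  rw [h1, h2, sin_sub, sin_add]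
  field_simp
  ring

theorem fejer_closed (n : ℕ) {φ : ℝ} (hs : sin (φ / 2) ≠ 0) :
    ∑ i ∈ range n, sin (((i : ℝ) + 1 / 2) * φ) / sin (φ / 2) =
      sin ((n : ℝ) * φ / 2) ^ 2 / sin (φ / 2) ^ 2 := by
  induction n with
  | zero => simp
  | succ n ih =>
    rw [Finset.sum_range_succ, ih]
    have h1 : ((n : ℝ) + 1 / 2) * φ = 2 * ((n : ℝ) * φ / 2) + φ / 2 := by ring
    have h2 : (((n + 1 : ℕ) : ℝ)) * φ / 2 = (n : ℝ) * φ / 2 + φ / 2 := by push_cast; ring
    rw [h1, h2]
    generalize (n : ℝ) * φ / 2 = a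
    have hb := sin_sq_add_cos_sq (φ / 2)
    generalize φ / 2 = b at hs hb ⊢
    have ha := sin_sq_add_cos_sq a
    have key : sin b * sin (2 * a + b) = sin (a + b) ^ 2 - sin a ^ 2 := by
      rw [sin_add, sin_add, sin_two_mul, cos_two_mul]
      have hca : cos a ^ 2 = 1 - sin a ^ 2 := by linarith
      have hcb : cos b ^ 2 = 1 - sin b ^ 2 := by linarith
      ring_nf
      rw [hca, hcb]
      ring
    have e3 : sin (2 * a + b) / sin b = (sin b * sin (2 * a + b)) / sin b ^ 2 := by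
      field_simp
    rw [e3, key]
    ring

/-- **Lower bound for a cosine sum with convex decreasing weights.**
Proof. If `sin (φ/2) = 0` all cosines are `1`, clear. Otherwise, with
`S_i = 1 + 2 ∑_(m=1)^i cos (m φ) = sin ((i+1/2) φ)/sin (φ/2)` and `Δ_i = w_i - w_(i+1)` (Abel):
`w_0/2 + ∑_(m=1)^N w_m cos (m φ) = (1/2) ∑_(i=0)^(N-1) Δ_i S_i + (1/2) w_N S_N`, and
`∑_(i ≤ m) S_i = sin² ((m+1) φ/2)/sin² (φ/2) ≥ 0` for all `m`, so (second Abel, `Δ` nonincreasing and
`≥ 0`) the first sum is `≥ 0`; `dirichlet_lower` for the last term. -/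
theorem abel_lower {w : ℕ → ℝ} {N : ℕ} (hN : 26 ≤ N) (φ : ℝ)
    (h2 : ∀ j : ℕ, j + 2 ≤ N → w (j + 1) - w (j + 2) ≤ w j - w (j + 1))
    (h3 : ∀ j : ℕ, j < N → w (j + 1) ≤ w j) (h0 : 0 ≤ w N) :
    -(w 0 / 2) - 11 / 50 * ((N : ℝ) + 1 / 2) * w N ≤ ∑ m ∈ Icc 1 N, w m * cos (m * φ) := by
  have hwN : ∀ d : ℕ, ∀ j : ℕ, j + d = N → w N ≤ w j := by
    intro d
    induction d with
    | zero => intro j hj; rw [← hj]; simp
    | succ d ih =>
      intro j hj
      exact (ih (j + 1) (by omega)).trans (h3 j (by omega))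
  have hwnn : ∀ j : ℕ, j ≤ N → 0 ≤ w j := fun j hj => h0.trans (hwN (N - j) j (by omega))
  by_cases hs : sin (φ / 2) = 0
  · obtain ⟨k, hk⟩ := sin_eq_zero_iff.mp hs
    have hφ : φ = k * (2 * π) := by linarith
    have hcos : ∀ m : ℕ, cos ((m : ℝ) * φ) = 1 := by
      intro m
      have : (m : ℝ) * φ = ((m * k : ℤ) : ℝ) * (2 * π) := by rw [hφ]; push_cast; ring
      rw [this, cos_int_mul_two_pi]
    have hsum : 0 ≤ ∑ m ∈ Icc 1 N, w m * cos (m * φ) := by
      refine Finset.sum_nonneg fun m hm => ?_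
      rw [hcos, mul_one]
      exact hwnn m (Finset.mem_Icc.mp hm).2
    have h4 := hwnn 0 (Nat.zero_le N)
    have h5 : 0 ≤ 11 / 50 * ((N : ℝ) + 1 / 2) * w N := by positivity
    linarith
  · set S : ℕ → ℝ := fun i => sin (((i : ℝ) + 1 / 2) * φ) / sin (φ / 2) with hS
    have hAbel : ∀ n : ℕ, w 0 / 2 + ∑ m ∈ Icc 1 n, w m * cos (m * φ) =
        ∑ i ∈ range n, (w i - w (i + 1)) * S i / 2 + w n * S n / 2 := by
      intro n
      induction n with
      | zero =>
        have e : S 0 = 1 := by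
          simp only [hS]
          have : ((0 : ℕ) : ℝ) + 1 / 2 = 1 / 2 := by norm_num
          rw [this]
          have h : (1 : ℝ) / 2 * φ = φ / 2 := by ring
          rw [h, div_self hs]
        simp [e]
      | succ n ih =>
        rw [Finset.sum_Icc_succ_top (by omega), Finset.sum_range_succ, ← add_assoc, ih]
        have hc := cos_step n hs
        have e2 : (((n + 1 : ℕ) : ℝ)) * φ = ((n : ℝ) + 1) * φ := by push_cast; ring
        have e3 : S (n + 1) = sin (((n : ℝ) + 1 + 1 / 2) * φ) / sin (φ / 2) := by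
          simp only [hS]; push_cast; ring_nf
        rw [e2, hc, ← e3]
        have e4 : sin (((n : ℝ) + 1 / 2) * φ) / sin (φ / 2) = S n := rfl
        rw [e4]
        ring
    have hP : ∀ n : ℕ, 0 ≤ ∑ i ∈ range n, S i := by
      intro n
      simp only [hS]
      rw [fejer_closed n hs]
      positivity
    have hΔ : ∀ n : ℕ, n < N → (w n - w (n + 1)) * ∑ i ∈ range (n + 1), S i ≤
        ∑ i ∈ range (n + 1), (w i - w (i + 1)) * S i := by
      intro n
      induction n with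
      | zero => intro _; simp
      | succ n ih =>
        intro hn
        have h1 := ih (by omega)
        rw [Finset.sum_range_succ, Finset.sum_range_succ (fun i => (w i - w (i + 1)) * S i)]
        have h5 := h2 n (by omega)
        have h6 : (w (n + 1) - w (n + 1 + 1)) * ∑ i ∈ range (n + 1), S i ≤
            (w n - w (n + 1)) * ∑ i ∈ range (n + 1), S i :=
          mul_le_mul_of_nonneg_right h5 (hP (n + 1))
        rw [mul_add]
        linarith
    have hfirst : 0 ≤ ∑ i ∈ range N, (w i - w (i + 1)) * S i := by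
      obtain ⟨n, rfl⟩ : ∃ n, N = n + 1 := ⟨N - 1, by omega⟩
      refine le_trans ?_ (hΔ n (by omega))
      exact mul_nonneg (by have := h3 n (by omega); linarith) (hP (n + 1))
    have hN1 := hAbel N
    rw [← Finset.sum_div] at hN1
    have hd : -(11 / 50 * (2 * (N : ℝ) + 1)) ≤ S N := dirichlet_lower hN hs
    have hlast : w N * (-(11 / 50 * (2 * (N : ℝ) + 1))) ≤ w N * S N :=
      mul_le_mul_of_nonneg_left hd h0
    linarith

/-- The same for the block `n < m ≤ n + k`: subtract `∑_(m ≤ n) w_m cos (m φ) ≤ n w_0`. -/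
theorem abel_lower_block {w : ℕ → ℝ} {n k : ℕ} (hk : 26 ≤ k) (φ : ℝ)
    (h2 : ∀ j : ℕ, j + 2 ≤ n + k → w (j + 1) - w (j + 2) ≤ w j - w (j + 1))
    (h3 : ∀ j : ℕ, j < n + k → w (j + 1) ≤ w j) (h0 : 0 ≤ w (n + k)) :
    -(((n : ℝ) + 1 / 2) * w 0) - 11 / 50 * ((n : ℝ) + k + 1 / 2) * w (n + k) ≤
      ∑ j ∈ Icc 1 k, w (n + j) * cos (((n : ℝ) + j) * φ) := by
  have hmain := abel_lower (N := n + k) (by omega) φ h2 h3 h0
  have hw0 : ∀ j : ℕ, j ≤ n + k → w j ≤ w 0 := by
    intro j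
    induction j with
    | zero => intro _; exact le_rfl
    | succ j ih => intro hj; exact (h3 j (by omega)).trans (ih (by omega))
  have hwN : ∀ d : ℕ, ∀ j : ℕ, j + d = n + k → w (n + k) ≤ w j := by
    intro d
    induction d with
    | zero => intro j hj; rw [← hj]; simp
    | succ d ih =>
      intro j hj
      exact (ih (j + 1) (by omega)).trans (h3 j (by omega))
  have hwnn : ∀ j : ℕ, j ≤ n + k → 0 ≤ w j := fun j hj => h0.trans (hwN (n + k - j) j (by omega))
  have hsplit : ∀ k : ℕ, ∑ m ∈ Icc 1 (n + k), w m * cos ((m : ℝ) * φ) =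
      ∑ m ∈ Icc 1 n, w m * cos ((m : ℝ) * φ) +
        ∑ j ∈ Icc 1 k, w (n + j) * cos (((n : ℝ) + j) * φ) := by
    intro k
    induction k with
    | zero => simp
    | succ k ih =>
      have e6 : ((n + k + 1 : ℕ) : ℝ) = (n : ℝ) + ((k + 1 : ℕ) : ℝ) := by push_cast; ring
      rw [← add_assoc, Finset.sum_Icc_succ_top (by omega), ih,
        Finset.sum_Icc_succ_top (b := k) (by omega), e6, ← add_assoc]
      rfl
  have hhead : ∑ m ∈ Icc 1 n, w m * cos ((m : ℝ) * φ) ≤ n * w 0 := by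
    calc ∑ m ∈ Icc 1 n, w m * cos ((m : ℝ) * φ) ≤ ∑ m ∈ Icc 1 n, w 0 := by
          refine Finset.sum_le_sum fun m hm => ?_
          have hm2 := (Finset.mem_Icc.mp hm).2
          have h5 : w m * cos ((m : ℝ) * φ) ≤ w m * 1 :=
            mul_le_mul_of_nonneg_left (cos_le_one _) (hwnn m (by omega))
          have h6 := hw0 m (by omega)
          linarith
      _ = n * w 0 := by rw [Finset.sum_const, Nat.card_Icc]; simp
  rw [hsplit k] at hmain
  push_cast at hmain
  linarith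

end Pool.Agent.SignedQ.Far
end

section

/-! # FAR arcs: numerators, tangent line of the logarithm with convex weights (task FF)

-/

namespace Pool.Agent.SignedQ.Far

open Real Finset

/-- `log y ≤ log (2/w) + w y/2 - 1` with `y = 2 (c - d)`. -/
theorem half_log_le {w c d : ℝ} (hw : 0 < w) (h : d < c) :
    1 / 2 * log (2 * (c - d)) ≤ 1 / 2 * (log (2 / w) + w * c - 1) - 1 / 2 * (w * d) := by
  have hy : 0 < 2 * (c - d) := by linarith
  have h1 : log (2 * (c - d)) = log (2 / w) + log (w * (c - d)) := by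
    rw [← log_mul (by positivity) (by
      have : 0 < w * (c - d) := mul_pos hw (by linarith)
      exact this.ne')]
    congr 1
    field_simp
  have h2 : log (w * (c - d)) ≤ w * (c - d) - 1 :=
    log_le_sub_one_of_pos (mul_pos hw (by linarith))
  rw [h1]
  linarith

/-- Sum of `half_log_le` with `c = cosh ((n+j) x)`, `d = cos ((n+j) φ)`, then `abel_lower_block`. -/
theorem num_w {w : ℕ → ℝ} {n k : ℕ} (hk : 26 ≤ k) {x : ℝ} (hx : 0 < x) (φ : ℝ)
    (h2 : ∀ j : ℕ, j + 2 ≤ n + k → w (j + 1) - w (j + 2) ≤ w j - w (j + 1))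
    (h3 : ∀ j : ℕ, j < n + k → w (j + 1) ≤ w j) (h0 : ∀ j ≤ n + k, 0 < w j) :
    ∑ j ∈ Icc 1 k, 1 / 2 * log (2 * (cosh (((n : ℝ) + j) * x) - cos (((n : ℝ) + j) * φ))) ≤
      ∑ j ∈ Icc 1 k, 1 / 2 * (log (2 / w (n + j)) + w (n + j) * cosh (((n : ℝ) + j) * x) - 1) +
        1 / 2 * (((n : ℝ) + 1 / 2) * w 0 + 11 / 50 * ((n : ℝ) + k + 1 / 2) * w (n + k)) := by
  have h4 := abel_lower_block hk φ h2 h3 (h0 _ le_rfl).le
  have h5 : ∀ j ∈ Icc 1 k, 1 / 2 * log (2 * (cosh (((n : ℝ) + j) * x) - cos (((n : ℝ) + j) * φ))) ≤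
      1 / 2 * (log (2 / w (n + j)) + w (n + j) * cosh (((n : ℝ) + j) * x) - 1) -
        1 / 2 * (w (n + j) * cos (((n : ℝ) + j) * φ)) := by
    intro j hj
    rw [mem_Icc] at hj
    refine half_log_le (h0 _ (by omega)) ?_
    have hj1 : (1 : ℝ) ≤ j := by exact_mod_cast hj.1
    have hn0 : (0 : ℝ) ≤ n := Nat.cast_nonneg n
    have h6 : 1 < cosh (((n : ℝ) + j) * x) := by
      rw [one_lt_cosh]
      have : 0 < ((n : ℝ) + j) * x := mul_pos (by linarith) hx
      exact this.ne'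
    exact lt_of_le_of_lt (cos_le_one _) h6
  have h6 := Finset.sum_le_sum h5
  rw [Finset.sum_sub_distrib, ← Finset.mul_sum (Icc 1 k)
    (fun j => w (n + j) * cos (((n : ℝ) + j) * φ))] at h6
  linarith

/-- Constant weights `w = k / S`, `S = ∑_j cosh ((n+j) x) + (n+1/2) + (11/50)(n+k+1/2)`. -/
theorem num_const {n k : ℕ} (hk : 26 ≤ k) {x : ℝ} (hx : 0 < x) (φ : ℝ) :
    ∑ j ∈ Icc 1 k, 1 / 2 * log (2 * (cosh (((n : ℝ) + j) * x) - cos (((n : ℝ) + j) * φ))) ≤
      k / 2 * log (2 / k * (∑ j ∈ Icc 1 k, cosh (((n : ℝ) + j) * x) + ((n : ℝ) + 1 / 2) +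
        11 / 50 * ((n : ℝ) + k + 1 / 2))) := by
  have hn0 : (0 : ℝ) ≤ n := Nat.cast_nonneg n
  have hk0 : (0 : ℝ) < k := by
    have : 0 < k := by omega
    exact_mod_cast this
  obtain ⟨S, hS⟩ : ∃ S : ℝ, S = ∑ j ∈ Icc 1 k, cosh (((n : ℝ) + j) * x) + ((n : ℝ) + 1 / 2) +
        11 / 50 * ((n : ℝ) + k + 1 / 2) := ⟨_, rfl⟩
  rw [← hS]
  have hS0 : 0 < S := by
    have h1 : 0 ≤ ∑ j ∈ Icc 1 k, cosh (((n : ℝ) + j) * x) :=
      Finset.sum_nonneg fun j _ => (cosh_pos _).le
    rw [hS]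
    positivity
  have hw : 0 < (k : ℝ) / S := by positivity
  have h1 := num_w (w := fun _ => (k : ℝ) / S) (n := n) hk hx φ (fun j _ => by simp)
    (fun j _ => le_rfl) (fun j _ => hw)
  refine h1.trans (le_of_eq ?_)
  have h2 : ∑ j ∈ Icc 1 k, 1 / 2 * (log (2 / ((k : ℝ) / S)) +
      (k : ℝ) / S * cosh (((n : ℝ) + j) * x) - 1) =
      (k : ℝ) / 2 * (log (2 / ((k : ℝ) / S)) - 1) +
        1 / 2 * ((k : ℝ) / S) * ∑ j ∈ Icc 1 k, cosh (((n : ℝ) + j) * x) := by
    rw [Finset.mul_sum]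
    have h3 : ∀ j ∈ Icc 1 k, 1 / 2 * (log (2 / ((k : ℝ) / S)) +
      (k : ℝ) / S * cosh (((n : ℝ) + j) * x) - 1) = 1 / 2 * (log (2 / ((k : ℝ) / S)) - 1) +
        1 / 2 * ((k : ℝ) / S) * cosh (((n : ℝ) + j) * x) := by
      intro j _
      ring
    rw [Finset.sum_congr rfl h3, Finset.sum_add_distrib, Finset.sum_const, Nat.card_Icc,
      Nat.add_sub_cancel, nsmul_eq_mul]
    ring
  rw [h2]
  have h4 : ∑ j ∈ Icc 1 k, cosh (((n : ℝ) + j) * x) = S - ((n : ℝ) + 1 / 2) -
      11 / 50 * ((n : ℝ) + k + 1 / 2) := by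
    rw [hS]
    ring
  rw [h4]
  have h5 : (2 : ℝ) / ((k : ℝ) / S) = 2 / k * S := by
    field_simp
  rw [h5]
  have h6 : (k : ℝ) / S * S = k := div_mul_cancel₀ _ hS0.ne'
  linear_combination (1 / 2) * h6

/-- Midpoint rule for the convex function `cosh`:
`cosh (m x) = ∫_(m-1/2)^(m+1/2) cosh (y x) dy · (x/2)/sinh (x/2)`. -/
theorem sum_cosh_le {n k : ℕ} {x : ℝ} (hx : 0 < x) :
    ∑ j ∈ Icc 1 k, cosh (((n : ℝ) + j) * x) ≤
      (sinh (((n : ℝ) + k + 1 / 2) * x) - sinh (((n : ℝ) + 1 / 2) * x)) / x := by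
  induction k with
  | zero => simp
  | succ k ih =>
    rw [Finset.sum_Icc_succ_top (by omega)]
    have h1 : cosh (((n : ℝ) + ((k + 1 : ℕ) : ℝ)) * x) ≤
        (sinh (((n : ℝ) + ((k + 1 : ℕ) : ℝ) + 1 / 2) * x) -
          sinh (((n : ℝ) + k + 1 / 2) * x)) / x := by
      rw [le_div_iff₀ hx]
      push_cast
      have e1 : ((n : ℝ) + ((k : ℝ) + 1) + 1 / 2) * x = ((n : ℝ) + ((k : ℝ) + 1)) * x + x / 2 := by
        ring
      have e2 : ((n : ℝ) + k + 1 / 2) * x = ((n : ℝ) + ((k : ℝ) + 1)) * x - x / 2 := by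
        ring
      rw [e1, e2, sinh_add, sinh_sub]
      have h2 : x / 2 ≤ sinh (x / 2) := self_le_sinh_iff.2 (by linarith)
      have h3 := cosh_pos (((n : ℝ) + ((k : ℝ) + 1)) * x)
      nlinarith [mul_le_mul_of_nonneg_left h2 h3.le]
    have h2 := add_le_add ih h1
    refine h2.trans (le_of_eq ?_)
    rw [← add_div]
    congr 1
    ring

/-- The weight: `1/cosh v` for `v ≥ v₀`, its tangent line at `v₀` for `v ≤ v₀`, where
`v₀ = arcosh √2 = log (1 + √2)` (`sinh v₀ = 1`) is the inflection point of `1/cosh`. -/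
noncomputable def Wt (v : ℝ) : ℝ :=
  if v ≤ log (1 + √2) then 1 / √2 + (log (1 + √2) - v) / 2 else 1 / cosh v

theorem Wt_pos (v : ℝ) : 0 < Wt v := by
  unfold Wt
  split_ifs with h
  · have h1 : (0 : ℝ) < 1 / √2 := by positivity
    linarith
  · have := cosh_pos v
    positivity

theorem Ff_s2 : √2 * √2 = (2 : ℝ) := mul_self_sqrt (by norm_num)

theorem Ff_s2_pos : (0 : ℝ) < √2 := by positivity

theorem Ff_s2_gt : (141421 / 100000 : ℝ) < √2 := by
  rw [lt_sqrt (by norm_num)]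
  norm_num

theorem Ff_s2_lt : √2 < (70711 / 50000 : ℝ) := by
  rw [sqrt_lt' (by norm_num)]
  norm_num

theorem Ff_inv : (1 + √2)⁻¹ = √2 - 1 := by
  have h := Ff_s2
  have h1 := Ff_s2_pos
  refine inv_eq_of_mul_eq_one_right ?_
  linarith

theorem Ff_sinh : sinh (log (1 + √2)) = 1 := by
  have h1 := Ff_s2_pos
  rw [sinh_log (by linarith), Ff_inv]
  ring

theorem Ff_cosh : cosh (log (1 + √2)) = √2 := by
  have h1 := Ff_s2_pos
  rw [cosh_log (by linarith), Ff_inv]
  ring

theorem Ff_L_pos : 0 < log (1 + √2) := by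
  have h1 := Ff_s2_pos
  exact log_pos (by linarith)

theorem Ff_L_le : log (1 + √2) ≤ 8817 / 10000 := by
  have h1 := Ff_s2_pos
  rw [log_le_iff_le_exp (by linarith)]
  have h2 : ∑ i ∈ range 9, (8817 / 10000 : ℝ) ^ i / (i.factorial : ℝ) ≤ exp (8817 / 10000) :=
    sum_le_exp_of_nonneg (by norm_num) 9
  refine le_trans ?_ h2
  have h3 := Ff_s2_lt
  norm_num [Finset.sum_range_succ, Nat.factorial]
  linarith

theorem Ff_L_lt : log (1 + √2) < 1 := by
  have := Ff_L_le
  linarith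

theorem Ff_inv_le : 1 / √2 ≤ (70711 / 100000 : ℝ) := by
  have h := Ff_s2
  have h1 := Ff_s2_pos
  have h2 := Ff_s2_lt
  rw [div_le_iff₀ h1]
  nlinarith

theorem Ff_zero : Wt 0 ≤ 287 / 250 := by
  unfold Wt
  rw [if_pos Ff_L_pos.le]
  have h1 := Ff_inv_le
  have h2 := Ff_L_le
  linarith

theorem Ff_log : 69 / 500 ≤ log (287 / 250 : ℝ) := by
  rw [le_log_iff_exp_le (by norm_num)]
  have h := exp_bound' (x := 69 / 500) (by norm_num) (by norm_num) (n := 6) (by norm_num)
  refine h.trans ?_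
  norm_num [Finset.sum_range_succ, Nat.factorial]

/-- The derivative of the weight. -/
noncomputable def Ff_D (v : ℝ) : ℝ :=
  if v ≤ log (1 + √2) then -(1 / 2) else -(sinh v) / cosh v ^ 2

theorem Ff_hd (v : ℝ) : HasDerivAt (fun v => 1 / cosh v) (-(sinh v) / cosh v ^ 2) v := by
  have h := (hasDerivAt_cosh v).inv (cosh_pos v).ne'
  have e : (fun v : ℝ => 1 / cosh v) = cosh⁻¹ := by
    funext u
    rw [Pi.inv_apply, one_div]
  rw [e]
  exact h

theorem Ff_hl (v : ℝ) : HasDerivAt (fun v : ℝ => 1 / √2 + (log (1 + √2) - v) / 2)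
    (-(1 / 2)) v := by
  have h := (((hasDerivAt_id v).const_sub (log (1 + √2))).div_const 2).const_add (1 / √2)
  have e : (-1 : ℝ) / 2 = -(1 / 2) := by norm_num
  rw [e] at h
  exact h

theorem Ff_deriv (v : ℝ) : HasDerivAt Wt (Ff_D v) v := by
  rcases lt_trichotomy v (log (1 + √2)) with h | h | h
  · have h1 : Ff_D v = -(1 / 2) := by
      unfold Ff_D
      rw [if_pos h.le]
    rw [h1]
    refine (Ff_hl v).congr_of_eventuallyEq ?_
    filter_upwards [Iio_mem_nhds h] with u hu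
    unfold Wt
    rw [if_pos (le_of_lt hu)]
  · have h1 : Ff_D v = -(1 / 2) := by
      unfold Ff_D
      rw [if_pos h.le]
    rw [h1, ← hasDerivWithinAt_univ, ← Set.Iic_union_Ici (a := v)]
    refine HasDerivWithinAt.union ?_ ?_
    · refine ((Ff_hl v).hasDerivWithinAt).congr ?_ ?_
      · intro u hu
        unfold Wt
        rw [if_pos (le_trans hu h.le)]
      · unfold Wt
        rw [if_pos h.le]
    · have h2 : -(sinh v) / cosh v ^ 2 = -(1 / 2) := by
        rw [h, Ff_sinh, Ff_cosh, pow_two, Ff_s2]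
        norm_num
      rw [← h2]
      have h3 : 1 / √2 + (log (1 + √2) - v) / 2 = 1 / cosh v := by
        rw [h, Ff_cosh]
        ring
      refine ((Ff_hd v).hasDerivWithinAt).congr ?_ ?_
      · intro u hu
        unfold Wt
        rcases eq_or_lt_of_le (show v ≤ u from hu) with h4 | h4
        · rw [← h4, if_pos h.le, h3]
        · rw [if_neg (not_le.2 (lt_of_le_of_lt h.ge h4))]
      · unfold Wt
        rw [if_pos h.le, h3]
  · have h1 : Ff_D v = -(sinh v) / cosh v ^ 2 := by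
      unfold Ff_D
      rw [if_neg (not_le.2 h)]
    rw [h1]
    refine (Ff_hd v).congr_of_eventuallyEq ?_
    filter_upwards [Ioi_mem_nhds h] with u hu
    unfold Wt
    rw [if_neg (not_le.2 hu)]

/-- `sinh / cosh² ≤ 1/2`. -/
theorem Ff_half (v : ℝ) : sinh v / cosh v ^ 2 ≤ 1 / 2 := by
  have h1 := cosh_pos v
  rw [div_le_iff₀ (by positivity), cosh_sq']
  nlinarith [sq_nonneg (sinh v - 1)]

theorem Ff_tail : MonotoneOn (fun v => -(sinh v) / cosh v ^ 2) (Set.Ici (log (1 + √2))) := by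
  have hd : ∀ v : ℝ, HasDerivAt (fun v => -(sinh v) / cosh v ^ 2)
      ((sinh v ^ 2 - 1) / cosh v ^ 3) v := by
    intro v
    have hc := cosh_pos v
    have h1 := ((hasDerivAt_sinh v).neg).div ((hasDerivAt_cosh v).pow 2)
      (show cosh v ^ 2 ≠ 0 by positivity)
    have e : (-cosh v * cosh v ^ 2 - -sinh v * (((2 : ℕ) : ℝ) * cosh v ^ (2 - 1) * sinh v)) /
        (cosh v ^ 2) ^ 2 = (sinh v ^ 2 - 1) / cosh v ^ 3 := by
      rw [div_eq_div_iff (by positivity) (by positivity)]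
      have h2 := cosh_sq' v
      have h3 : (2 : ℕ) - 1 = 1 := rfl
      rw [h3, pow_one]
      push_cast
      have h4 : cosh v ^ 4 = cosh v ^ 2 * cosh v ^ 2 := by ring
      linear_combination (-(cosh v ^ 4)) * h2
    exact e ▸ h1
  refine monotoneOn_of_deriv_nonneg (convex_Ici _) ?_ ?_ ?_
  · intro v _
    exact (hd v).continuousAt.continuousWithinAt
  · intro v _
    exact (hd v).differentiableAt.differentiableWithinAt
  · intro v hv
    rw [interior_Ici] at hv
    rw [(hd v).deriv]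
    have h1 : 1 ≤ sinh v := by
      rw [← Ff_sinh]
      exact sinh_le_sinh.2 (le_of_lt hv)
    have h2 := cosh_pos v
    refine div_nonneg ?_ (by positivity)
    nlinarith

theorem Ff_D_mono : Monotone Ff_D := by
  intro u v huv
  unfold Ff_D
  split_ifs with h1 h2 h2
  · exact le_rfl
  · have := Ff_half v
    rw [neg_div]
    linarith
  · exact absurd (huv.trans h2) h1
  · exact Ff_tail (le_of_lt (not_le.1 h1)) (le_of_lt (not_le.1 h2)) huv

/-- The tangent line lies above `1 / cosh`. -/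
theorem Ff_ge {v : ℝ} (h : v ≤ log (1 + √2)) : 1 / cosh v ≤ Wt v := by
  have hanti : Antitone fun v : ℝ => (1 / √2 + (log (1 + √2) - v) / 2) - 1 / cosh v := by
    have hd : ∀ v : ℝ, HasDerivAt (fun v : ℝ => (1 / √2 + (log (1 + √2) - v) / 2) - 1 / cosh v)
        (-(1 / 2) - -(sinh v) / cosh v ^ 2) v := fun v => (Ff_hl v).sub (Ff_hd v)
    refine antitone_of_deriv_nonpos (fun v => (hd v).differentiableAt) ?_
    intro v
    rw [(hd v).deriv, neg_div]
    have := Ff_half v
    linarith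
  have h1 := hanti h
  simp only [Ff_cosh, sub_self, zero_div, add_zero] at h1
  unfold Wt
  rw [if_pos h]
  linarith

/-- `Wt v cosh v` is decreasing on `[0, v₀]`. -/
theorem Ff_anti {v : ℝ} (h0 : 0 ≤ v) (h : v ≤ log (1 + √2)) : Wt v * cosh v ≤ Wt 0 := by
  have hN : ∀ v : ℝ, v ≤ log (1 + √2) →
      0 ≤ (1 / √2 + (log (1 + √2) - v) / 2) - sinh v * cosh v / 2 := by
    have hd : ∀ v : ℝ, HasDerivAt (fun v : ℝ => (1 / √2 + (log (1 + √2) - v) / 2) -
        sinh v * cosh v / 2) (-(1 / 2) - (cosh v * cosh v + sinh v * sinh v) / 2) v := fun v =>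
      (Ff_hl v).sub (((hasDerivAt_sinh v).mul (hasDerivAt_cosh v)).div_const 2)
    have hanti : Antitone fun v : ℝ => (1 / √2 + (log (1 + √2) - v) / 2) -
        sinh v * cosh v / 2 := by
      refine antitone_of_deriv_nonpos (fun v => (hd v).differentiableAt) ?_
      intro v
      rw [(hd v).deriv]
      nlinarith [mul_self_nonneg (cosh v), mul_self_nonneg (sinh v)]
    intro v hv
    have h1 := hanti hv
    simp only [Ff_cosh, Ff_sinh, sub_self, zero_div, add_zero, one_mul] at h1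
    have h2 : 1 / √2 - √2 / 2 = 0 := by
      have h3 := Ff_s2_pos
      rw [sub_eq_zero, div_eq_div_iff h3.ne' (by norm_num), Ff_s2]
      norm_num
    linarith
  have hT : ∀ v : ℝ, v ≤ log (1 + √2) →
      (1 / √2 + (log (1 + √2) - v) / 2) * (sinh v / cosh v) ≤ 1 / 2 := by
    have hd : ∀ v : ℝ, HasDerivAt (fun v : ℝ => (1 / √2 + (log (1 + √2) - v) / 2) *
        (sinh v / cosh v)) (-(1 / 2) * (sinh v / cosh v) + (1 / √2 + (log (1 + √2) - v) / 2) *
          ((cosh v * cosh v - sinh v * sinh v) / cosh v ^ 2)) v := fun v =>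
      (Ff_hl v).mul ((hasDerivAt_sinh v).div (hasDerivAt_cosh v) (cosh_pos v).ne')
    have hmono : MonotoneOn (fun v : ℝ => (1 / √2 + (log (1 + √2) - v) / 2) *
        (sinh v / cosh v)) (Set.Iic (log (1 + √2))) := by
      refine monotoneOn_of_deriv_nonneg (convex_Iic _) ?_ ?_ ?_
      · intro v _
        exact (hd v).continuousAt.continuousWithinAt
      · intro v _
        exact (hd v).differentiableAt.differentiableWithinAt
      · intro v hv
        rw [interior_Iic] at hv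
        rw [(hd v).deriv]
        have hc := cosh_pos v
        have h1 := hN v (le_of_lt hv)
        have h2 : -(1 / 2) * (sinh v / cosh v) + (1 / √2 + (log (1 + √2) - v) / 2) *
          ((cosh v * cosh v - sinh v * sinh v) / cosh v ^ 2) =
          ((1 / √2 + (log (1 + √2) - v) / 2) - sinh v * cosh v / 2) / cosh v ^ 2 := by
          have h3 : cosh v * cosh v - sinh v * sinh v = 1 := by
            have := cosh_sq' v
            linarith
          rw [h3, eq_div_iff (by positivity)]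
          field_simp
          ring
        rw [h2]
        positivity
    intro v hv
    have h1 := hmono (a := v) (b := log (1 + √2)) hv (le_refl (log (1 + √2))) hv
    simp only [Ff_cosh, Ff_sinh, sub_self, zero_div, add_zero] at h1
    have h2 : 1 / √2 * (1 / √2) = 1 / 2 := by
      rw [div_mul_div_comm, Ff_s2]
      norm_num
    linarith
  have hd : ∀ v : ℝ, HasDerivAt (fun v : ℝ => (1 / √2 + (log (1 + √2) - v) / 2) * cosh v)
      (-(1 / 2) * cosh v + (1 / √2 + (log (1 + √2) - v) / 2) * sinh v) v := fun v =>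
    (Ff_hl v).mul (hasDerivAt_cosh v)
  have hanti : AntitoneOn (fun v : ℝ => (1 / √2 + (log (1 + √2) - v) / 2) * cosh v)
      (Set.Iic (log (1 + √2))) := by
    refine antitoneOn_of_deriv_nonpos (convex_Iic _) ?_ ?_ ?_
    · intro v _
      exact (hd v).continuousAt.continuousWithinAt
    · intro v _
      exact (hd v).differentiableAt.differentiableWithinAt
    · intro v hv
      rw [interior_Iic] at hv
      rw [(hd v).deriv]
      have hc := cosh_pos v
      have h1 := hT v (le_of_lt hv)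
      have h2 : (1 / √2 + (log (1 + √2) - v) / 2) * sinh v =
          (1 / √2 + (log (1 + √2) - v) / 2) * (sinh v / cosh v) * cosh v := by
        field_simp
      rw [h2]
      nlinarith [mul_le_mul_of_nonneg_right h1 hc.le]
  have h1 := hanti (a := 0) (b := v) Ff_L_pos.le h h0
  simp only [cosh_zero, mul_one] at h1
  unfold Wt
  rw [if_pos h, if_pos Ff_L_pos.le]
  exact h1

theorem Wt_zero_le : Wt 0 ≤ 23 / 20 := by
  have := Ff_zero
  linarith

/-- `Wt` is convex and decreasing (its derivative `-1/2` resp. `-sinh/cosh²` is continuous and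
nondecreasing). -/
theorem Wt_convex : ConvexOn ℝ Set.univ Wt := by
  refine Monotone.convexOn_univ_of_deriv (fun v => (Ff_deriv v).differentiableAt) ?_
  have h : deriv Wt = Ff_D := funext fun v => (Ff_deriv v).deriv
  rw [h]
  exact Ff_D_mono

theorem Wt_antitone : Antitone Wt := by
  refine antitone_of_deriv_nonpos (fun v => (Ff_deriv v).differentiableAt) ?_
  intro v
  rw [(Ff_deriv v).deriv]
  unfold Ff_D
  split_ifs with h
  · norm_num
  · have h1 : 0 < sinh v := by
      rw [sinh_pos_iff]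
      exact lt_trans Ff_L_pos (not_le.1 h)
    have h2 := cosh_pos v
    have h3 : 0 < sinh v / cosh v ^ 2 := by positivity
    rw [neg_div]
    linarith

/-- For `0 ≤ v`: `log (2/W) + W cosh v - 1 ≤ log (2 cosh v) + 1/100`, `W = Wt v`. Clear for `v ≥ v₀`.
For `0 ≤ v ≤ v₀` it is `y - 1 - log y ≤ 1/100` with `y = W(v) cosh v ∈ [1, 1.148]`
(`y ≥ 1` because the tangent line lies above `1/cosh` on `[0, v₀]`, where `1/cosh` is concave;
`y` is decreasing on `[0,v₀]` from `y(0) = W(0) < 1.1478`), and `1.1478 - 1 - log 1.1478 < 0.01`. -/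
theorem Wt_cost {v : ℝ} (hv : 0 ≤ v) :
    1 / 2 * (log (2 / Wt v) + Wt v * cosh v - 1) ≤ 1 / 2 * log (2 * cosh v) + 1 / 200 := by
  have hW := Wt_pos v
  have hc := cosh_pos v
  by_cases h : v ≤ log (1 + √2)
  · obtain ⟨y, hy⟩ : ∃ y, y = Wt v * cosh v := ⟨_, rfl⟩
    have hy1 : 1 ≤ y := by
      rw [hy, ← div_le_iff₀ hc]
      exact Ff_ge h
    have hy2 : y ≤ 287 / 250 := by
      rw [hy]
      have h1 := Ff_anti hv h
      have h2 := Ff_zero
      linarith
    have hy0 : 0 < y := by linarith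
    have e1 : log (2 / Wt v) = log (2 * cosh v) - log y := by
      rw [hy, ← log_div (by positivity) (by positivity)]
      congr 1
      field_simp
    have h3 : log (287 / 250) - log y ≤ 287 / 250 - y := by
      rw [← log_div (by norm_num) hy0.ne']
      have h4 := log_le_sub_one_of_pos (x := 287 / 250 / y) (by positivity)
      refine h4.trans ?_
      rw [div_sub_one hy0.ne', div_le_iff₀ hy0]
      nlinarith
    have h5 := Ff_log
    rw [← hy, e1]
    linarith
  · have e1 : Wt v = 1 / cosh v := by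
      unfold Wt
      rw [if_neg h]
    have e2 : 1 / cosh v * cosh v = 1 := by
      rw [one_div, inv_mul_cancel₀ hc.ne']
    have e3 : 2 / (1 / cosh v) = 2 * cosh v := by
      rw [one_div, div_inv_eq_mul]
    rw [e1, e2, e3]
    linarith

/-- `num_w` with `w m = Wt (m x)`. -/
theorem num_sech {n k : ℕ} (hk : 26 ≤ k) {x : ℝ} (hx : 0 < x) (h1 : 1 ≤ ((n : ℝ) + k) * x) (φ : ℝ) :
    ∑ j ∈ Icc 1 k, 1 / 2 * log (2 * (cosh (((n : ℝ) + j) * x) - cos (((n : ℝ) + j) * φ))) ≤
      ∑ j ∈ Icc 1 k, 1 / 2 * log (2 * cosh (((n : ℝ) + j) * x)) + k / 200 +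
        23 / 40 * ((n : ℝ) + 1 / 2) +
        11 / 100 * ((n : ℝ) + k + 1 / 2) / cosh (((n : ℝ) + k) * x) := by
  have h0 : (0 : ℝ) ≤ n := Nat.cast_nonneg n
  have hmain := num_w (w := fun m => Wt ((m : ℝ) * x)) (n := n) hk hx φ (fun j _ => by
      have h2 := Wt_convex.2 (Set.mem_univ ((j : ℝ) * x)) (Set.mem_univ (((j + 2 : ℕ) : ℝ) * x))
        (show (0 : ℝ) ≤ 1 / 2 by norm_num) (show (0 : ℝ) ≤ 1 / 2 by norm_num)
        (by norm_num)
      simp only [smul_eq_mul] at h2
      have e : 1 / 2 * ((j : ℝ) * x) + 1 / 2 * (((j + 2 : ℕ) : ℝ) * x) =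
          ((j + 1 : ℕ) : ℝ) * x := by
        push_cast
        ring
      rw [e] at h2
      linarith) (fun j _ => by
      refine Wt_antitone ?_
      refine mul_le_mul_of_nonneg_right ?_ hx.le
      push_cast
      linarith) (fun j _ => Wt_pos _)
  refine hmain.trans ?_
  have h3 : ∑ j ∈ Icc 1 k, 1 / 2 * (log (2 / Wt (((n + j : ℕ) : ℝ) * x)) +
      Wt (((n + j : ℕ) : ℝ) * x) * cosh (((n : ℝ) + j) * x) - 1) ≤
      ∑ j ∈ Icc 1 k, (1 / 2 * log (2 * cosh (((n : ℝ) + j) * x)) + 1 / 200) := by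
    refine Finset.sum_le_sum fun j _ => ?_
    push_cast
    refine Wt_cost ?_
    have : (0 : ℝ) ≤ j := Nat.cast_nonneg j
    positivity
  rw [Finset.sum_add_distrib, Finset.sum_const, Nat.card_Icc, Nat.add_sub_cancel,
    nsmul_eq_mul] at h3
  have h4 : Wt (((0 : ℕ) : ℝ) * x) ≤ 23 / 20 := by
    rw [Nat.cast_zero, zero_mul]
    exact Wt_zero_le
  have h5 : Wt (((n + k : ℕ) : ℝ) * x) = 1 / cosh (((n : ℝ) + k) * x) := by
    unfold Wt
    rw [if_neg, Nat.cast_add]
    rw [not_le]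
    push_cast
    exact lt_of_lt_of_le Ff_L_lt h1
  have h6 : ((n : ℝ) + 1 / 2) * Wt (((0 : ℕ) : ℝ) * x) ≤ ((n : ℝ) + 1 / 2) * (23 / 20) :=
    mul_le_mul_of_nonneg_left h4 (by linarith)
  refine (add_le_add h3 (le_refl _)).trans ?_
  rw [h5]
  have e7 : 11 / 50 * ((n : ℝ) + k + 1 / 2) * (1 / cosh (((n : ℝ) + k) * x)) =
      11 / 50 * ((n : ℝ) + k + 1 / 2) / cosh (((n : ℝ) + k) * x) := by ring
  have e8 : 11 / 100 * ((n : ℝ) + k + 1 / 2) / cosh (((n : ℝ) + k) * x) =
      1 / 2 * (11 / 50 * ((n : ℝ) + k + 1 / 2) / cosh (((n : ℝ) + k) * x)) := by ring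
  rw [e7, e8]
  linarith

end Pool.Agent.SignedQ.Far
end

section

/-! # FAR arcs: numbers and the corner lemma (task FL) -/

namespace Pool.Agent.SignedQ.Far

open Real

/-- lower bound of a logarithm after division by `2 ^ m` -/
private theorem Fl_lo {x : ℝ} (m : ℕ) (y : ℝ) (hx : 0 < x) (h0 : 0 ≤ y) (h1 : y ≤ 1)
    (hl : ∑ i ∈ Finset.range 9, y ^ i / (i.factorial : ℝ) + y ^ 9 * (9 + 1) /
      ((Nat.factorial 9 : ℝ) * 9) ≤ x / 2 ^ m) : y + m * 0.6931471803 ≤ log x := by
  have h := exp_bound' h0 h1 (n := 9) (by norm_num)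
  have h2 : exp y ≤ x / 2 ^ m := by
    refine le_trans ?_ hl
    exact_mod_cast h
  have h3 : y ≤ log (x / 2 ^ m) := (le_log_iff_exp_le (by positivity)).2 h2
  rw [log_div hx.ne' (by positivity), log_pow] at h3
  have h4 := log_two_gt_d9
  have h5 : (m : ℝ) * 0.6931471803 ≤ m * log 2 := mul_le_mul_of_nonneg_left h4.le (Nat.cast_nonneg m)
  linarith

/-- upper bound of a logarithm after division by `2 ^ m` -/
private theorem Fl_hi {x : ℝ} (m : ℕ) (z : ℝ) (hx : 0 < x) (h0 : 0 ≤ z)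
    (hu : x / 2 ^ m ≤ ∑ i ∈ Finset.range 9, z ^ i / (i.factorial : ℝ)) :
    log x ≤ z + m * 0.6931471808 := by
  have h2 : x / 2 ^ m ≤ exp z := hu.trans (sum_le_exp_of_nonneg h0 9)
  have h3 : log (x / 2 ^ m) ≤ z := (log_le_iff_le_exp (by positivity)).2 h2
  rw [log_div hx.ne' (by positivity), log_pow] at h3
  have h4 := log_two_lt_d9
  have h5 : (m : ℝ) * log 2 ≤ m * 0.6931471808 := mul_le_mul_of_nonneg_left h4.le (Nat.cast_nonneg m)
  linarith

theorem log_six_ge : 1.7917 ≤ log 6 := by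
  have h := Fl_lo (x := 6) 2 (405464 / 1000000) (by norm_num) (by norm_num) (by norm_num)
    (by norm_num [Finset.sum_range_succ, Nat.factorial])
  norm_num at h ⊢
  linarith

theorem log_cA : -0.2232 ≤ log (4 / 5) ∧ log (4 / 5) ≤ -0.2231 := by
  have h := Fl_lo (x := 5 / 4) 0 (223143 / 1000000) (by norm_num) (by norm_num) (by norm_num)
    (by norm_num [Finset.sum_range_succ, Nat.factorial])
  have h' := Fl_hi (x := 5 / 4) 0 (223144 / 1000000) (by norm_num) (by norm_num)
    (by norm_num [Finset.sum_range_succ, Nat.factorial])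
  have e : log (4 / 5 : ℝ) = -log (5 / 4) := by
    rw [← log_inv]
    norm_num
  rw [e]
  norm_num at h h' ⊢
  constructor
  · linarith
  · linarith

theorem log_cC : -0.4308 ≤ log (13 / 20) ∧ log (13 / 20) ≤ -0.4307 := by
  have h := Fl_lo (x := 20 / 13) 0 (430782 / 1000000) (by norm_num) (by norm_num) (by norm_num)
    (by norm_num [Finset.sum_range_succ, Nat.factorial])
  have h' := Fl_hi (x := 20 / 13) 0 (430784 / 1000000) (by norm_num) (by norm_num)
    (by norm_num [Finset.sum_range_succ, Nat.factorial])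
  have e : log (13 / 20 : ℝ) = -log (20 / 13) := by
    rw [← log_inv]
    norm_num
  rw [e]
  norm_num at h h' ⊢
  constructor
  · linarith
  · linarith

theorem exp_M : exp (-4.136) ≤ 0.016 := by
  have h := Fl_hi (x := 125 / 2) 5 (669431 / 1000000) (by norm_num) (by norm_num)
    (by norm_num [Finset.sum_range_succ, Nat.factorial])
  have e : log (0.016 : ℝ) = -log (125 / 2) := by
    rw [← log_inv]
    norm_num
  rw [← le_log_iff_exp_le (by norm_num), e]
  norm_num at h ⊢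
  linarith

private theorem Fl_lk {x k₀ c : ℝ} (h0 : 0 < k₀) (hx : k₀ ≤ x) (hc : log k₀ ≤ c) :
    log x ≤ c + (x - k₀) / k₀ := by
  have hx0 : 0 < x := by linarith
  have h1 : log x = log k₀ + log (x / k₀) := by
    rw [log_div hx0.ne' h0.ne']
    ring
  have h2 := log_le_sub_one_of_pos (show 0 < x / k₀ by positivity)
  have h3 : (x - k₀) / k₀ = x / k₀ - 1 := by
    rw [sub_div, div_self h0.ne']
  rw [h1, h3]
  linarith

/-- `log k = log k₀ + log (k/k₀) ≤ log k₀ + (k - k₀)/k₀`. -/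
theorem lk_26 {x : ℝ} (hx : 26 ≤ x) : log x ≤ 3.2582 + (x - 26) / 26 := by
  have h := Fl_hi (x := 26) 4 (485509 / 1000000) (by norm_num) (by norm_num)
    (by norm_num [Finset.sum_range_succ, Nat.factorial])
  refine Fl_lk (by norm_num) hx ?_
  norm_num at h ⊢
  linarith

theorem lk_30 {x : ℝ} (hx : 30 ≤ x) : log x ≤ 3.4013 + (x - 30) / 30 := by
  have h := Fl_hi (x := 30) 4 (628609 / 1000000) (by norm_num) (by norm_num)
    (by norm_num [Finset.sum_range_succ, Nat.factorial])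
  refine Fl_lk (by norm_num) hx ?_
  norm_num at h ⊢
  linarith

theorem lk_60 {x : ℝ} (hx : 60 ≤ x) : log x ≤ 4.0944 + (x - 60) / 60 := by
  have h := Fl_hi (x := 60) 5 (628609 / 1000000) (by norm_num) (by norm_num)
    (by norm_num [Finset.sum_range_succ, Nat.factorial])
  refine Fl_lk (by norm_num) hx ?_
  norm_num at h ⊢
  linarith

theorem lk_100 {x : ℝ} (hx : 100 ≤ x) : log x ≤ 4.6052 + (x - 100) / 100 := by
  have h := Fl_hi (x := 100) 6 (446288 / 1000000) (by norm_num) (by norm_num)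
    (by norm_num [Finset.sum_range_succ, Nat.factorial])
  refine Fl_lk (by norm_num) hx ?_
  norm_num at h ⊢
  linarith

theorem lk_140 {x : ℝ} (hx : 140 ≤ x) : log x ≤ 4.9417 + (x - 140) / 140 := by
  have h := Fl_hi (x := 140) 7 (89613 / 1000000) (by norm_num) (by norm_num)
    (by norm_num [Finset.sum_range_succ, Nat.factorial])
  refine Fl_lk (by norm_num) hx ?_
  norm_num at h ⊢
  linarith

theorem lk_200 {x : ℝ} (hx : 200 ≤ x) : log x ≤ 5.2984 + (x - 200) / 200 := by
  have h := Fl_hi (x := 200) 7 (446288 / 1000000) (by norm_num) (by norm_num)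
    (by norm_num [Finset.sum_range_succ, Nat.factorial])
  refine Fl_lk (by norm_num) hx ?_
  norm_num at h ⊢
  linarith

theorem log_values : 3.028 ≤ log (62 / 3) ∧ 2.590 ≤ log (40 / 3) ∧ 1.673 ≤ log (16 / 3) ∧
    1.252 ≤ log (7 / 2) ∧ 1.609 ≤ log 5 ∧ 1.098 ≤ log 3 ∧ 2.863 ≤ log (403 / 23) ∧
    2.425 ≤ log (260 / 23) ∧ 1.508 ≤ log (104 / 23) ∧ 1.178 ≤ log (13 / 4) ∧
    2.740 ≤ log (31 / 2) ∧ 2.302 ≤ log 10 ∧ 1.386 ≤ log 4 ∧ 0.916 ≤ log (5 / 2) ∧
    1.011 ≤ log (11 / 4) := by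
  refine ⟨?_, ?_, ?_, ?_, ?_, ?_, ?_, ?_, ?_, ?_, ?_, ?_, ?_, ?_, ?_⟩
  · have h := Fl_lo (x := 62 / 3) 4 (255933 / 1000000) (by norm_num) (by norm_num) (by norm_num)
      (by norm_num [Finset.sum_range_succ, Nat.factorial])
    norm_num at h ⊢
    linarith
  · have h := Fl_lo (x := 40 / 3) 3 (510825 / 1000000) (by norm_num) (by norm_num) (by norm_num)
      (by norm_num [Finset.sum_range_succ, Nat.factorial])
    norm_num at h ⊢
    linarith
  · have h := Fl_lo (x := 16 / 3) 2 (287681 / 1000000) (by norm_num) (by norm_num) (by norm_num)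
      (by norm_num [Finset.sum_range_succ, Nat.factorial])
    norm_num at h ⊢
    linarith
  · have h := Fl_lo (x := 7 / 2) 1 (559615 / 1000000) (by norm_num) (by norm_num) (by norm_num)
      (by norm_num [Finset.sum_range_succ, Nat.factorial])
    norm_num at h ⊢
    linarith
  · have h := Fl_lo (x := 5) 2 (223143 / 1000000) (by norm_num) (by norm_num) (by norm_num)
      (by norm_num [Finset.sum_range_succ, Nat.factorial])
    norm_num at h ⊢
    linarith
  · have h := Fl_lo (x := 3) 1 (405464 / 1000000) (by norm_num) (by norm_num) (by norm_num)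
      (by norm_num [Finset.sum_range_succ, Nat.factorial])
    norm_num at h ⊢
    linarith
  · have h := Fl_lo (x := 403 / 23) 4 (90853 / 1000000) (by norm_num) (by norm_num) (by norm_num)
      (by norm_num [Finset.sum_range_succ, Nat.factorial])
    norm_num at h ⊢
    linarith
  · have h := Fl_lo (x := 260 / 23) 3 (345745 / 1000000) (by norm_num) (by norm_num) (by norm_num)
      (by norm_num [Finset.sum_range_succ, Nat.factorial])
    norm_num at h ⊢
    linarith
  · have h := Fl_lo (x := 104 / 23) 2 (122602 / 1000000) (by norm_num) (by norm_num) (by norm_num)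
      (by norm_num [Finset.sum_range_succ, Nat.factorial])
    norm_num at h ⊢
    linarith
  · have h := Fl_lo (x := 13 / 4) 1 (485507 / 1000000) (by norm_num) (by norm_num) (by norm_num)
      (by norm_num [Finset.sum_range_succ, Nat.factorial])
    norm_num at h ⊢
    linarith
  · have h := Fl_lo (x := 31 / 2) 3 (661398 / 1000000) (by norm_num) (by norm_num) (by norm_num)
      (by norm_num [Finset.sum_range_succ, Nat.factorial])
    norm_num at h ⊢
    linarith
  · have h := Fl_lo (x := 10) 3 (223143 / 1000000) (by norm_num) (by norm_num) (by norm_num)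
      (by norm_num [Finset.sum_range_succ, Nat.factorial])
    norm_num at h ⊢
    linarith
  · have h := Fl_lo (x := 4) 1 (693146 / 1000000) (by norm_num) (by norm_num) (by norm_num)
      (by norm_num [Finset.sum_range_succ, Nat.factorial])
    norm_num at h ⊢
    linarith
  · have h := Fl_lo (x := 5 / 2) 1 (223143 / 1000000) (by norm_num) (by norm_num) (by norm_num)
      (by norm_num [Finset.sum_range_succ, Nat.factorial])
    norm_num at h ⊢
    linarith
  · have h := Fl_lo (x := 11 / 4) 1 (318453 / 1000000) (by norm_num) (by norm_num) (by norm_num)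
      (by norm_num [Finset.sum_range_succ, Nat.factorial])
    norm_num at h ⊢
    linarith

/-- **Corner lemma**: decreasing in `L`, then bilinear in `(k, ν)`. -/
theorem corner {α β γ δ ε ζ k k₀ L L₀ e ν n₀ n₁ lk lk₀ M : ℝ} (hk₀ : 0 < k₀) (hk : k₀ ≤ k)
    (hn0 : n₀ ≤ ν) (hn1 : ν ≤ n₁) (hn01 : n₀ < n₁) (hL : L₀ + e * ν ≤ L)
    (hlk : lk ≤ lk₀ + (k - k₀) / k₀) (hδ : 0 ≤ δ) (hα : α ≤ 0) (hαγ : α * k₀ + γ ≤ 0)
    (v0 : α * k₀ * (L₀ + e * n₀) + β * k₀ + γ * (L₀ + e * n₀) + δ * lk₀ + ε + ζ * k₀ * n₀ ≤ M)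
    (s0 : α * (L₀ + e * n₀) + β + δ / k₀ + ζ * n₀ ≤ 0)
    (v1 : α * k₀ * (L₀ + e * n₁) + β * k₀ + γ * (L₀ + e * n₁) + δ * lk₀ + ε + ζ * k₀ * n₁ ≤ M)
    (s1 : α * (L₀ + e * n₁) + β + δ / k₀ + ζ * n₁ ≤ 0) :
    α * (k * L) + β * k + γ * L + δ * lk + ε + ζ * (k * ν) ≤ M := by
  have hkk : 0 ≤ k - k₀ := by linarith
  have h1 : α * k + γ ≤ 0 := by nlinarith
  have h2 : L * (α * k + γ) ≤ (L₀ + e * ν) * (α * k + γ) :=
    mul_le_mul_of_nonpos_right hL h1
  have h3 : δ * lk ≤ δ * (lk₀ + (k - k₀) / k₀) := mul_le_mul_of_nonneg_left hlk hδ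
  have h4 : δ * (lk₀ + (k - k₀) / k₀) = δ * lk₀ + (k - k₀) * (δ / k₀) := by ring
  -- the bound at the ends of the interval of ν
  have g : ∀ n : ℝ, α * k₀ * (L₀ + e * n) + β * k₀ + γ * (L₀ + e * n) + δ * lk₀ + ε +
      ζ * k₀ * n ≤ M → α * (L₀ + e * n) + β + δ / k₀ + ζ * n ≤ 0 →
      (L₀ + e * n) * (α * k + γ) + β * k + (δ * lk₀ + (k - k₀) * (δ / k₀)) + ε + ζ * (k * n) ≤
        M := by
    intro n hv hs
    have h5 := mul_nonpos_of_nonneg_of_nonpos hkk hs
    have h6 : (L₀ + e * n) * (α * k + γ) + β * k + (δ * lk₀ + (k - k₀) * (δ / k₀)) + ε +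
        ζ * (k * n) = (α * k₀ * (L₀ + e * n) + β * k₀ + γ * (L₀ + e * n) + δ * lk₀ + ε +
      ζ * k₀ * n) + (k - k₀) * (α * (L₀ + e * n) + β + δ / k₀ + ζ * n) := by ring
    rw [h6]
    linarith
  have g0 := mul_le_mul_of_nonneg_left (g n₀ v0 s0) (by linarith : 0 ≤ n₁ - ν)
  have g1 := mul_le_mul_of_nonneg_left (g n₁ v1 s1) (by linarith : 0 ≤ ν - n₀)
  have hpos : 0 < n₁ - n₀ := by linarith
  have h7 : (n₁ - n₀) * ((L₀ + e * ν) * (α * k + γ) + β * k +
      (δ * lk₀ + (k - k₀) * (δ / k₀)) + ε + ζ * (k * ν)) ≤ (n₁ - n₀) * M := by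
    generalize δ / k₀ = q at *
    calc _ = (n₁ - ν) * ((L₀ + e * n₀) * (α * k + γ) + β * k + (δ * lk₀ + (k - k₀) * q) + ε +
          ζ * (k * n₀)) + (ν - n₀) * ((L₀ + e * n₁) * (α * k + γ) + β * k +
          (δ * lk₀ + (k - k₀) * q) + ε + ζ * (k * n₁)) := by ring
      _ ≤ (n₁ - ν) * M + (ν - n₀) * M := add_le_add g0 g1
      _ = (n₁ - n₀) * M := by ring
  have h8 := le_of_mul_le_mul_left h7 hpos
  calc α * (k * L) + β * k + γ * L + δ * lk + ε + ζ * (k * ν) =
        L * (α * k + γ) + β * k + δ * lk + ε + ζ * (k * ν) := by ring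
    _ ≤ (L₀ + e * ν) * (α * k + γ) + β * k + (δ * lk₀ + (k - k₀) * (δ / k₀)) + ε +
        ζ * (k * ν) := by linarith
    _ ≤ M := h8

end Pool.Agent.SignedQ.Far
end
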