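import Pool.Agent.Lib.MP_cf17a0_co.Far.Fu0

section

/-! # FAR arcs: the harmonics on one interval of `θ` (task FUR2) -/

namespace Pool.Agent.SignedQ.Far

open Real Finset

/-! Interval R2. Lower bounds `s l` of `|sin (l (π+θ)/2)|` (for even `l` this is `|sin (l θ/2)|`, for odd `l`
`|cos (l θ/2)|`) on the interval: l = 1: s = 0.099; l = 2: s = 0.198; l = 3: s = 0.295; l = 4: s = 0.389; l = 5: s = 0.479. They come from `sin u ≥ u - u³/6` with `u` = the distance of
`l (π+θ)/2` to the nearest multiple of `π` at the worse end of the interval (`|sin|` is concave between its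
zeros). The last term: `K_term_le` with `c = 0.07161` rounded up (`cosh T ≤ 1.0001` since `T ≤ 1/78`).
Then `log (1/T) = log (1/(kT)) + log k`, `log T = -log (1/T)`, `log (1/(kT)) ≥ log 3 > 0`, the numbers of Fn, `log_fact_ge0`,
numerical bounds of `log 10`, `log 3`, `log 6` and of `log c`; every coefficient below is rounded up by `≥ 0`
(up to `10⁻⁴`; if a coefficient fails by rounding tell me: there is slack). -/

/-- Lower bound of `|sin|` between two multiples of `π`. -/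
theorem Fu_R2_sinlb {x u w s : ℝ} (m : ℕ) (hu0 : 0 ≤ u) (hw0 : 0 ≤ w) (h1 : m * π + u ≤ x)
    (h2 : x ≤ m * π + π - w) (hs1 : s ≤ u - u ^ 3 / 6) (hs2 : s ≤ w - w ^ 3 / 6) :
    s ≤ |sin x| := by
  have e : |sin x| = |sin (x - m * π)| := by
    have e1 : sin x = (-1) ^ m * sin (x - m * π) := by
      rw [← sin_add_nat_mul_pi]
      congr 1
      ring
    rw [e1, abs_mul, abs_pow, abs_neg, abs_one, one_pow, one_mul]
  rw [e]
  refine le_trans ?_ (le_abs_self _)
  have hc : ConcaveOn ℝ (Set.Icc 0 π) sin := strictConcaveOn_sin_Icc.concaveOn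
  have hu1 : u ≤ x - m * π := by linarith
  have hw1 : x - m * π ≤ π - w := by linarith
  have hmin := hc.min_le_of_mem_Icc (x := u) (y := π - w) (z := x - m * π)
    ⟨hu0, by linarith⟩ ⟨by linarith, by linarith⟩ ⟨hu1, hw1⟩
  refine le_trans (le_min ?_ ?_) hmin
  · exact hs1.trans (sin_ge_sub_cube hu0)
  · rw [sin_pi_sub]
    exact hs2.trans (sin_ge_sub_cube hw0)

theorem Fu_R2_cosh {T : ℝ} (hT : 0 < T) (hT1 : T ≤ 1 / 78) : cosh T ≤ 100009 / 100000 := by
  have h1 : cosh T ≤ exp (T ^ 2 / 2) := cosh_le_exp_half_sq T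
  have h2 : T ^ 2 / 2 ≤ 1 / 12168 := by nlinarith
  have h3 : exp (T ^ 2 / 2) ≤ exp (1 / 12168) := exp_le_exp.2 h2
  have h4 : exp (1 / 12168 : ℝ) ≤ 1 / (1 - 1 / 12168) :=
    exp_bound_div_one_sub_of_interval (by norm_num) (by norm_num)
  have h5 : (1 / (1 - 1 / 12168) : ℝ) ≤ 100009 / 100000 := by norm_num
  linarith

theorem Fu_R2_logs : (2302585 / 1000000 : ℝ) ≤ log 10 ∧ log 10 ≤ 2302586 / 1000000 ∧
    (1098612 / 1000000 : ℝ) ≤ log 3 ∧ log 3 ≤ 1098613 / 1000000 ∧
    (1791759 / 1000000 : ℝ) ≤ log 6 := by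
  have g1 := log_two_gt_d9
  have g2 := log_two_lt_d9
  norm_num at g1 g2
  have h1 := Fn_bd (x := 5 / 4) (y := (2231435 / 10000000 : ℝ)) (z := (2231436 / 10000000 : ℝ))
    (by norm_num) (by norm_num) (by norm_num) (by norm_num)
    (by norm_num [Finset.sum_range_succ, Nat.factorial])
    (by norm_num [Finset.sum_range_succ, Nat.factorial])
  have h2 := Fn_bd (x := 3 / 2) (y := (4054651 / 10000000 : ℝ)) (z := (4054652 / 10000000 : ℝ))
    (by norm_num) (by norm_num) (by norm_num) (by norm_num)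
    (by norm_num [Finset.sum_range_succ, Nat.factorial])
    (by norm_num [Finset.sum_range_succ, Nat.factorial])
  have e1 : log 10 = 3 * log 2 + log (5 / 4 : ℝ) := by
    rw [show (10 : ℝ) = 2 ^ 3 * (5 / 4) by norm_num, log_mul (by norm_num) (by norm_num), log_pow]
    push_cast
    ring
  have e2 : log 3 = log 2 + log (3 / 2 : ℝ) := by
    rw [← log_mul (by norm_num) (by norm_num)]
    norm_num
  have e3 : log 6 = log 2 + log 3 := by
    rw [← log_mul (by norm_num) (by norm_num)]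
    norm_num
  refine ⟨?_, ?_, ?_, ?_, ?_⟩
  · rw [e1]
    linarith [h1.1]
  · rw [e1]
    linarith [h1.2]
  · rw [e2]
    linarith [h2.1]
  · rw [e2]
    linarith [h2.2]
  · rw [e3, e2]
    linarith [h2.1]

theorem Fu_R2_logT {k : ℕ} (hk : 26 ≤ k) {T : ℝ} (hT : 0 < T) :
    log T = -(log (1 / (k * T)) + log k) ∧ log (1 / T) = log (1 / (k * T)) + log k := by
  have hk0 : (0 : ℝ) < k := by
    have : 0 < k := by omega
    exact_mod_cast this
  have e : log (1 / (k * T)) = -(log k + log T) := by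
    rw [log_div one_ne_zero (mul_pos hk0 hT).ne', log_one, log_mul hk0.ne' hT.ne']
    ring
  constructor
  · rw [e]
    ring
  · rw [e, log_div one_ne_zero hT.ne', log_one]
    ring

/-- The lower bounds of the sines. -/
noncomputable def Fu_R2_s (l : ℕ) : ℝ :=
  if l = 1 then 99 / 1000 else if l = 2 then 99 / 500 else if l = 3 then 59 / 200 else if l = 4 then 389 / 1000 else 479 / 1000

theorem Fu_R2_hs {θ : ℝ} (h0 : 13 / 5 ≤ θ) (h1 : θ ≤ π - 1 / 5) : ∀ l : ℕ, 1 ≤ l → l ≤ 5 → 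
    0 < Fu_R2_s l ∧ Fu_R2_s l ≤ |sin (l * (π + θ) / 2)| := by
  intro l hl1 hl5
  have p1 := pi_gt_d6
  have p2 := pi_lt_d6
  interval_cases l
  · refine ⟨by norm_num [Fu_R2_s], ?_⟩
    have e : Fu_R2_s 1 = 99 / 1000 := by norm_num [Fu_R2_s]
    rw [e]
    refine Fu_R2_sinlb (u := 141 / 100) (w := 1 / 10) 0 (by norm_num) (by norm_num) ?_ ?_
      (by norm_num) (by norm_num)
    · push_cast
      linarith
    · push_cast
      linarith
  · refine ⟨by norm_num [Fu_R2_s], ?_⟩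
    have e : Fu_R2_s 2 = 99 / 500 := by norm_num [Fu_R2_s]
    rw [e]
    refine Fu_R2_sinlb (u := 141 / 100) (w := 1 / 5) 1 (by norm_num) (by norm_num) ?_ ?_
      (by norm_num) (by norm_num)
    · push_cast
      linarith
    · push_cast
      linarith
  · refine ⟨by norm_num [Fu_R2_s], ?_⟩
    have e : Fu_R2_s 3 = 59 / 200 := by norm_num [Fu_R2_s]
    rw [e]
    refine Fu_R2_sinlb (u := 141 / 100) (w := 3 / 10) 2 (by norm_num) (by norm_num) ?_ ?_
      (by norm_num) (by norm_num)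
    · push_cast
      linarith
    · push_cast
      linarith
  · refine ⟨by norm_num [Fu_R2_s], ?_⟩
    have e : Fu_R2_s 4 = 389 / 1000 := by norm_num [Fu_R2_s]
    rw [e]
    refine Fu_R2_sinlb (u := 141 / 100) (w := 2 / 5) 3 (by norm_num) (by norm_num) ?_ ?_
      (by norm_num) (by norm_num)
    · push_cast
      linarith
    · push_cast
      linarith
  · refine ⟨by norm_num [Fu_R2_s], ?_⟩
    have e : Fu_R2_s 5 = 479 / 1000 := by norm_num [Fu_R2_s]
    rw [e]
    refine Fu_R2_sinlb (u := 141 / 100) (w := 1 / 2) 4 (by norm_num) (by norm_num) ?_ ?_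
      (by norm_num) (by norm_num)
    · push_cast
      linarith
    · push_cast
      linarith

theorem Fu_R2_cos {θ : ℝ} (h0 : 13 / 5 ≤ θ) (h1 : θ ≤ π - 1 / 5) : cos θ ≤ -85687 / 100000 := by
  have p1 := pi_gt_d6
  have p2 := pi_lt_d6
  have hm : cos θ ≤ cos (13 / 5) :=
    cos_le_cos_of_nonneg_of_le_pi (by norm_num) (by linarith) h0
  refine hm.trans ?_
  have e : cos (13 / 5) = -(cos (π / 6) * cos (5 * π / 6 - 13 / 5) -
      sin (π / 6) * sin (5 * π / 6 - 13 / 5)) := by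
    rw [← cos_add, ← cos_pi_sub]
    congr 1
    ring
  rw [e, cos_pi_div_six, sin_pi_div_six]
  generalize hy : 5 * π / 6 - 13 / 5 = y
  have y1 : 17993 / 1000000 ≤ y := by linarith
  have y2 : y ≤ 17995 / 1000000 := by linarith
  have c1 : 1 - y ^ 2 / 2 ≤ cos y := one_sub_sq_div_two_le_cos
  have s1 : sin y ≤ y := sin_le (by linarith)
  have y4 : y ^ 2 ≤ 324 / 1000000 := by nlinarith
  have c2 : 999838 / 1000000 ≤ cos y := by linarith
  have q : (173205 / 100000 : ℝ) ≤ √3 := le_sqrt_of_sq_le (by norm_num)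
  nlinarith

theorem Fu_R2_logc : log (7161 / 100000 : ℝ) ≤ -5273 / 2000 := by
  have g1 := log_two_gt_d9
  norm_num at g1
  have e : log (7161 / 100000 : ℝ) = log (7161 / 6250) - 4 * log 2 := by
    rw [show (7161 / 100000 : ℝ) = 7161 / 6250 / 2 ^ 4 by norm_num,
      log_div (by norm_num) (by norm_num), log_pow]
    push_cast
    ring
  have h := (Fn_bd (x := 7161 / 6250) (y := 13 / 100) (z := 13607 / 100000)
    (by norm_num) (by norm_num) (by norm_num) (by norm_num)
    (by norm_num [Finset.sum_range_succ, Nat.factorial])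
    (by norm_num [Finset.sum_range_succ, Nat.factorial])).2
  rw [e]
  linarith

theorem U_R2_ten {k : ℕ} (hk : 26 ≤ k) {T θ : ℝ} (hT : 0 < T) (hv : k * T ≤ 1 / 10)
    (h0 : 13 / 5 ≤ θ) (h1 : θ ≤ π - 1 / 5) :
    HS k T θ + (((k + 1) / 2 : ℕ) : ℝ) / 2 * log ((cosh T + cos θ) / 2) ≤
      (-0.6591) * k + 0 * (k * log (1 / (k * T))) + 2.6986 * log (1 / (k * T)) +
        (-0.4166) * log k + 5.8075 := by
  have hk0 : (26 : ℝ) ≤ k := by exact_mod_cast hk
  have hk1 : 1 ≤ k := by omega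
  have hkT : 0 < k * T := mul_pos (by linarith) hT
  have hT1 : T ≤ 1 / 260 := by nlinarith
  obtain ⟨l10a, l10b, l3a, l3b, l6a⟩ := Fu_R2_logs
  obtain ⟨hlT, hlT'⟩ := Fu_R2_logT hk hT
  have hL : log 10 ≤ log (1 / (k * T)) := by
    apply log_le_log (by norm_num)
    rw [le_div_iff₀ hkT]
    linarith
  have hlk : 0 ≤ log (k : ℝ) := log_nonneg (by linarith)
  have hcosh := Fu_R2_cosh hT (by linarith)
  have hcos := Fu_R2_cos h0 h1
  have hK := K_term_le (k := k) (T := T) (θ := θ) (c := 7161 / 100000) hT (neg_one_le_cos θ)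
    (by linarith) (by norm_num) (by norm_num)
  have hlc := Fu_R2_logc
  have hv1 : log (1 / 10 : ℝ) = -log 10 := by
    rw [one_div, log_inv]
  have hS := HS_le hk1 hT hv θ Fu_R2_s (Fu_R2_hs h0 h1)
  rw [show Icc 1 5 = ({1, 2, 3, 4, 5} : Finset ℕ) from by decide] at hS
  rw [hv1, hlT] at hS
  have d1 := dd_one_tenth
  have d2 := dd_two_tenth
  have d3 := dd_three_tenth
  have d4 := dd_four_tenth
  have d5 := dd_five_tenth
  have e1 : Fu_R2_s 1 = 99 / 1000 := by norm_num [Fu_R2_s]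
  have e2 : Fu_R2_s 2 = 99 / 500 := by norm_num [Fu_R2_s]
  have e3 : Fu_R2_s 3 = 59 / 200 := by norm_num [Fu_R2_s]
  have e4 : Fu_R2_s 4 = 389 / 1000 := by norm_num [Fu_R2_s]
  have e5 : Fu_R2_s 5 = 479 / 1000 := by norm_num [Fu_R2_s]
  have a1 : al 1 = 41 / 100 := by norm_num [al]
  have a2 : al 2 = 2 / 9 := by norm_num [al]
  have a3 : al 3 = 1 / 6 := by norm_num [al]
  have a4 : al 4 = 1 / 9 := by norm_num [al]
  have a5 : al 5 = 1 / 18 := by norm_num [al]
  rw [sum_insert (by decide), sum_insert (by decide), sum_insert (by decide), sum_insert (by decide), sum_singleton, e1, e2, e3, e4, e5, a1, a2, a3, a4, a5] at hS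
  generalize hLL : log (1 / (k * T)) = L at *
  generalize log (k : ℝ) = lk at *
  have hkc : (k : ℝ) / 4 * log (7161 / 100000) ≤ k / 4 * (-5273 / 2000) :=
    mul_le_mul_of_nonneg_left hlc (by linarith)
  norm_num at hS hK hkc d1 d2 d3 d4 d5 ⊢
  linarith

theorem U_R2_three {k : ℕ} (hk : 26 ≤ k) {T θ : ℝ} (hT : 0 < T) (hv : k * T ≤ 1 / 3)
    (h0 : 13 / 5 ≤ θ) (h1 : θ ≤ π - 1 / 5) :
    HS k T θ + (((k + 1) / 2 : ℕ) : ℝ) / 2 * log ((cosh T + cos θ) / 2) ≤
      (-0.6591) * k + 0 * (k * log (1 / (k * T))) + 2.6986 * log (1 / (k * T)) +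
        (-0.4166) * log k + 6.5847 := by
  have hk0 : (26 : ℝ) ≤ k := by exact_mod_cast hk
  have hk1 : 1 ≤ k := by omega
  have hkT : 0 < k * T := mul_pos (by linarith) hT
  have hT1 : T ≤ 1 / 78 := by nlinarith
  obtain ⟨l10a, l10b, l3a, l3b, l6a⟩ := Fu_R2_logs
  obtain ⟨hlT, hlT'⟩ := Fu_R2_logT hk hT
  have hL : log 3 ≤ log (1 / (k * T)) := by
    apply log_le_log (by norm_num)
    rw [le_div_iff₀ hkT]
    linarith
  have hlk : 0 ≤ log (k : ℝ) := log_nonneg (by linarith)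
  have hcosh := Fu_R2_cosh hT (by linarith)
  have hcos := Fu_R2_cos h0 h1
  have hK := K_term_le (k := k) (T := T) (θ := θ) (c := 7161 / 100000) hT (neg_one_le_cos θ)
    (by linarith) (by norm_num) (by norm_num)
  have hlc := Fu_R2_logc
  have hv1 : log (1 / 3 : ℝ) = -log 3 := by
    rw [one_div, log_inv]
  have hS := HS_le hk1 hT hv θ Fu_R2_s (Fu_R2_hs h0 h1)
  rw [show Icc 1 5 = ({1, 2, 3, 4, 5} : Finset ℕ) from by decide] at hS
  rw [hv1, hlT] at hS
  have d1 := dd_one_third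
  have d2 := dd_two_third
  have d3 := dd_three_third
  have d4 := dd_four_third
  have d5 := dd_five_third
  have e1 : Fu_R2_s 1 = 99 / 1000 := by norm_num [Fu_R2_s]
  have e2 : Fu_R2_s 2 = 99 / 500 := by norm_num [Fu_R2_s]
  have e3 : Fu_R2_s 3 = 59 / 200 := by norm_num [Fu_R2_s]
  have e4 : Fu_R2_s 4 = 389 / 1000 := by norm_num [Fu_R2_s]
  have e5 : Fu_R2_s 5 = 479 / 1000 := by norm_num [Fu_R2_s]
  have a1 : al 1 = 41 / 100 := by norm_num [al]
  have a2 : al 2 = 2 / 9 := by norm_num [al]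
  have a3 : al 3 = 1 / 6 := by norm_num [al]
  have a4 : al 4 = 1 / 9 := by norm_num [al]
  have a5 : al 5 = 1 / 18 := by norm_num [al]
  rw [sum_insert (by decide), sum_insert (by decide), sum_insert (by decide), sum_insert (by decide), sum_singleton, e1, e2, e3, e4, e5, a1, a2, a3, a4, a5] at hS
  generalize hLL : log (1 / (k * T)) = L at *
  generalize log (k : ℝ) = lk at *
  have hkc : (k : ℝ) / 4 * log (7161 / 100000) ≤ k / 4 * (-5273 / 2000) :=
    mul_le_mul_of_nonneg_left hlc (by linarith)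
  norm_num at hS hK hkc d1 d2 d3 d4 d5 ⊢
  linarith

end Pool.Agent.SignedQ.Far
end

section

/-! # FAR arcs: the harmonics on one interval of `θ` (task FUm) -/

namespace Pool.Agent.SignedQ.Far

open Real Finset

/-! Interval m. Lower bounds `s l` of `|sin (l (π+θ)/2)|` (for even `l` this is `|sin (l θ/2)|`, for odd `l`
`|cos (l θ/2)|`) on the interval: l = 1: s = 0.266; l = 2: s = 0.514; l = 3: s = 0.722; l = 4: s = 0.860; l = 5: s = 0.511. They come from `sin u ≥ u - u³/6` with `u` = the distance of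
`l (π+θ)/2` to the nearest multiple of `π` at the worse end of the interval (`|sin|` is concave between its
zeros). The last term: `K_term_le` with `c = 0.24763` rounded up (`cosh T ≤ 1.0001` since `T ≤ 1/78`).
Then `log (1/T) = log (1/(kT)) + log k`, `log T = -log (1/T)`, `log (1/(kT)) ≥ log 3 > 0`, the numbers of Fn, `log_fact_ge0`,
numerical bounds of `log 10`, `log 3`, `log 6` and of `log c`; every coefficient below is rounded up by `≥ 0`
(up to `10⁻⁴`; if a coefficient fails by rounding tell me: there is slack). -/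

/-- Lower bound of `|sin|` between two multiples of `π`. -/
theorem Fu_m_sinlb {x u w s : ℝ} (m : ℕ) (hu0 : 0 ≤ u) (hw0 : 0 ≤ w) (h1 : m * π + u ≤ x)
    (h2 : x ≤ m * π + π - w) (hs1 : s ≤ u - u ^ 3 / 6) (hs2 : s ≤ w - w ^ 3 / 6) :
    s ≤ |sin x| := by
  have e : |sin x| = |sin (x - m * π)| := by
    have e1 : sin x = (-1) ^ m * sin (x - m * π) := by
      rw [← sin_add_nat_mul_pi]
      congr 1
      ring
    rw [e1, abs_mul, abs_pow, abs_neg, abs_one, one_pow, one_mul]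
  rw [e]
  refine le_trans ?_ (le_abs_self _)
  have hc : ConcaveOn ℝ (Set.Icc 0 π) sin := strictConcaveOn_sin_Icc.concaveOn
  have hu1 : u ≤ x - m * π := by linarith
  have hw1 : x - m * π ≤ π - w := by linarith
  have hmin := hc.min_le_of_mem_Icc (x := u) (y := π - w) (z := x - m * π)
    ⟨hu0, by linarith⟩ ⟨by linarith, by linarith⟩ ⟨hu1, hw1⟩
  refine le_trans (le_min ?_ ?_) hmin
  · exact hs1.trans (sin_ge_sub_cube hu0)
  · rw [sin_pi_sub]
    exact hs2.trans (sin_ge_sub_cube hw0)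

theorem Fu_m_cosh {T : ℝ} (hT : 0 < T) (hT1 : T ≤ 1 / 78) : cosh T ≤ 100009 / 100000 := by
  have h1 : cosh T ≤ exp (T ^ 2 / 2) := cosh_le_exp_half_sq T
  have h2 : T ^ 2 / 2 ≤ 1 / 12168 := by nlinarith
  have h3 : exp (T ^ 2 / 2) ≤ exp (1 / 12168) := exp_le_exp.2 h2
  have h4 : exp (1 / 12168 : ℝ) ≤ 1 / (1 - 1 / 12168) :=
    exp_bound_div_one_sub_of_interval (by norm_num) (by norm_num)
  have h5 : (1 / (1 - 1 / 12168) : ℝ) ≤ 100009 / 100000 := by norm_num
  linarith

theorem Fu_m_logs : (2302585 / 1000000 : ℝ) ≤ log 10 ∧ log 10 ≤ 2302586 / 1000000 ∧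
    (1098612 / 1000000 : ℝ) ≤ log 3 ∧ log 3 ≤ 1098613 / 1000000 ∧
    (1791759 / 1000000 : ℝ) ≤ log 6 := by
  have g1 := log_two_gt_d9
  have g2 := log_two_lt_d9
  norm_num at g1 g2
  have h1 := Fn_bd (x := 5 / 4) (y := (2231435 / 10000000 : ℝ)) (z := (2231436 / 10000000 : ℝ))
    (by norm_num) (by norm_num) (by norm_num) (by norm_num)
    (by norm_num [Finset.sum_range_succ, Nat.factorial])
    (by norm_num [Finset.sum_range_succ, Nat.factorial])
  have h2 := Fn_bd (x := 3 / 2) (y := (4054651 / 10000000 : ℝ)) (z := (4054652 / 10000000 : ℝ))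
    (by norm_num) (by norm_num) (by norm_num) (by norm_num)
    (by norm_num [Finset.sum_range_succ, Nat.factorial])
    (by norm_num [Finset.sum_range_succ, Nat.factorial])
  have e1 : log 10 = 3 * log 2 + log (5 / 4 : ℝ) := by
    rw [show (10 : ℝ) = 2 ^ 3 * (5 / 4) by norm_num, log_mul (by norm_num) (by norm_num), log_pow]
    push_cast
    ring
  have e2 : log 3 = log 2 + log (3 / 2 : ℝ) := by
    rw [← log_mul (by norm_num) (by norm_num)]
    norm_num
  have e3 : log 6 = log 2 + log 3 := by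
    rw [← log_mul (by norm_num) (by norm_num)]
    norm_num
  refine ⟨?_, ?_, ?_, ?_, ?_⟩
  · rw [e1]
    linarith [h1.1]
  · rw [e1]
    linarith [h1.2]
  · rw [e2]
    linarith [h2.1]
  · rw [e2]
    linarith [h2.2]
  · rw [e3, e2]
    linarith [h2.1]

theorem Fu_m_logT {k : ℕ} (hk : 26 ≤ k) {T : ℝ} (hT : 0 < T) :
    log T = -(log (1 / (k * T)) + log k) ∧ log (1 / T) = log (1 / (k * T)) + log k := by
  have hk0 : (0 : ℝ) < k := by
    have : 0 < k := by omega
    exact_mod_cast this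
  have e : log (1 / (k * T)) = -(log k + log T) := by
    rw [log_div one_ne_zero (mul_pos hk0 hT).ne', log_one, log_mul hk0.ne' hT.ne']
    ring
  constructor
  · rw [e]
    ring
  · rw [e, log_div one_ne_zero hT.ne', log_one]
    ring

/-- The lower bounds of the sines. -/
noncomputable def Fu_m_s (l : ℕ) : ℝ :=
  if l = 1 then 133 / 500 else if l = 2 then 257 / 500 else if l = 3 then 361 / 500 else if l = 4 then 43 / 50 else 511 / 1000

theorem Fu_m_hs {θ : ℝ} (h0 : 21 / 10 ≤ θ) (h1 : θ ≤ 13 / 5) : ∀ l : ℕ, 1 ≤ l → l ≤ 5 → 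
    0 < Fu_m_s l ∧ Fu_m_s l ≤ |sin (l * (π + θ) / 2)| := by
  intro l hl1 hl5
  have p1 := pi_gt_d6
  have p2 := pi_lt_d6
  interval_cases l
  · refine ⟨by norm_num [Fu_m_s], ?_⟩
    have e : Fu_m_s 1 = 133 / 500 := by norm_num [Fu_m_s]
    rw [e]
    refine Fu_m_sinlb (u := 141 / 100) (w := 2707 / 10000) 0 (by norm_num) (by norm_num) ?_ ?_
      (by norm_num) (by norm_num)
    · push_cast
      linarith
    · push_cast
      linarith
  · refine ⟨by norm_num [Fu_m_s], ?_⟩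
    have e : Fu_m_s 2 = 257 / 500 := by norm_num [Fu_m_s]
    rw [e]
    refine Fu_m_sinlb (u := 141 / 100) (w := 1083 / 2000) 1 (by norm_num) (by norm_num) ?_ ?_
      (by norm_num) (by norm_num)
    · push_cast
      linarith
    · push_cast
      linarith
  · refine ⟨by norm_num [Fu_m_s], ?_⟩
    have e : Fu_m_s 3 = 361 / 500 := by norm_num [Fu_m_s]
    rw [e]
    refine Fu_m_sinlb (u := 141 / 100) (w := 8123 / 10000) 2 (by norm_num) (by norm_num) ?_ ?_
      (by norm_num) (by norm_num)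
    · push_cast
      linarith
    · push_cast
      linarith
  · refine ⟨by norm_num [Fu_m_s], ?_⟩
    have e : Fu_m_s 4 = 43 / 50 := by norm_num [Fu_m_s]
    rw [e]
    refine Fu_m_sinlb (u := 1323 / 1250) (w := 10831 / 10000) 3 (by norm_num) (by norm_num) ?_ ?_
      (by norm_num) (by norm_num)
    · push_cast
      linarith
    · push_cast
      linarith
  · refine ⟨by norm_num [Fu_m_s], ?_⟩
    have e : Fu_m_s 5 = 511 / 1000 := by norm_num [Fu_m_s]
    rw [e]
    refine Fu_m_sinlb (u := 336 / 625) (w := 13539 / 10000) 4 (by norm_num) (by norm_num) ?_ ?_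
      (by norm_num) (by norm_num)
    · push_cast
      linarith
    · push_cast
      linarith

theorem Fu_m_cos {θ : ℝ} (h0 : 21 / 10 ≤ θ) (h1 : θ ≤ 13 / 5) : cos θ ≤ -50483 / 100000 := by
  have p1 := pi_gt_d6
  have p2 := pi_lt_d6
  have hm : cos θ ≤ cos (21 / 10) :=
    cos_le_cos_of_nonneg_of_le_pi (by norm_num) (by linarith) h0
  refine hm.trans ?_
  have e : cos (21 / 10) = -(cos (π / 3) * cos (21 / 10 - 2 * π / 3) +
      sin (π / 3) * sin (21 / 10 - 2 * π / 3)) := by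
    rw [← cos_sub, ← cos_pi_sub]
    congr 1
    ring
  rw [e, cos_pi_div_three, sin_pi_div_three]
  generalize hy : 21 / 10 - 2 * π / 3 = y
  have y1 : 56 / 10000 ≤ y := by linarith
  have y2 : y ≤ 57 / 10000 := by linarith
  have c1 : 1 - y ^ 2 / 2 ≤ cos y := one_sub_sq_div_two_le_cos
  have s1 : y - y ^ 3 / 6 ≤ sin y := sin_ge_sub_cube (by linarith)
  have y3 : y ^ 3 ≤ 1 / 1000000 := by
    calc y ^ 3 ≤ (57 / 10000) ^ 3 := pow_le_pow_left₀ (by linarith) y2 3
      _ ≤ 1 / 1000000 := by norm_num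
  have y4 : y ^ 2 ≤ 33 / 1000000 := by nlinarith
  have s2 : 5599 / 1000000 ≤ sin y := by linarith
  have c2 : 99998 / 100000 ≤ cos y := by linarith
  have q : (1732 / 1000 : ℝ) ≤ √3 := le_sqrt_of_sq_le (by norm_num)
  nlinarith

theorem Fu_m_logc : log (24763 / 100000 : ℝ) ≤ -13957 / 10000 := by
  have g1 := log_two_gt_d9
  norm_num at g1
  have e : log (24763 / 100000 : ℝ) = log (24763 / 25000) - 2 * log 2 := by
    rw [show (24763 / 100000 : ℝ) = 24763 / 25000 / 2 ^ 2 by norm_num,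
      log_div (by norm_num) (by norm_num), log_pow]
    push_cast
    ring
  have h := log_le_sub_one_of_pos (x := 24763 / 25000) (by norm_num)
  rw [e]
  linarith

theorem U_m_ten {k : ℕ} (hk : 26 ≤ k) {T θ : ℝ} (hT : 0 < T) (hv : k * T ≤ 1 / 10)
    (h0 : 21 / 10 ≤ θ) (h1 : θ ≤ 13 / 5) :
    HS k T θ + (((k + 1) / 2 : ℕ) : ℝ) / 2 * log ((cosh T + cos θ) / 2) ≤
      (-0.3489) * k + 0 * (k * log (1 / (k * T))) + 0.8046 * log (1 / (k * T)) +
        (-0.4166) * log k + 1.6037 := by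
  have hk0 : (26 : ℝ) ≤ k := by exact_mod_cast hk
  have hk1 : 1 ≤ k := by omega
  have hkT : 0 < k * T := mul_pos (by linarith) hT
  have hT1 : T ≤ 1 / 260 := by nlinarith
  obtain ⟨l10a, l10b, l3a, l3b, l6a⟩ := Fu_m_logs
  obtain ⟨hlT, hlT'⟩ := Fu_m_logT hk hT
  have hL : log 10 ≤ log (1 / (k * T)) := by
    apply log_le_log (by norm_num)
    rw [le_div_iff₀ hkT]
    linarith
  have hlk : 0 ≤ log (k : ℝ) := log_nonneg (by linarith)
  have hcosh := Fu_m_cosh hT (by linarith)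
  have hcos := Fu_m_cos h0 h1
  have hK := K_term_le (k := k) (T := T) (θ := θ) (c := 24763 / 100000) hT (neg_one_le_cos θ)
    (by linarith) (by norm_num) (by norm_num)
  have hlc := Fu_m_logc
  have hv1 : log (1 / 10 : ℝ) = -log 10 := by
    rw [one_div, log_inv]
  have hS := HS_le hk1 hT hv θ Fu_m_s (Fu_m_hs h0 h1)
  rw [show Icc 1 5 = ({1, 2, 3, 4, 5} : Finset ℕ) from by decide] at hS
  rw [hv1, hlT] at hS
  have d1 := dd_one_tenth
  have d2 := dd_two_tenth
  have d3 := dd_three_tenth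
  have d4 := dd_four_tenth
  have d5 := dd_five_tenth
  have e1 : Fu_m_s 1 = 133 / 500 := by norm_num [Fu_m_s]
  have e2 : Fu_m_s 2 = 257 / 500 := by norm_num [Fu_m_s]
  have e3 : Fu_m_s 3 = 361 / 500 := by norm_num [Fu_m_s]
  have e4 : Fu_m_s 4 = 43 / 50 := by norm_num [Fu_m_s]
  have e5 : Fu_m_s 5 = 511 / 1000 := by norm_num [Fu_m_s]
  have a1 : al 1 = 41 / 100 := by norm_num [al]
  have a2 : al 2 = 2 / 9 := by norm_num [al]
  have a3 : al 3 = 1 / 6 := by norm_num [al]
  have a4 : al 4 = 1 / 9 := by norm_num [al]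
  have a5 : al 5 = 1 / 18 := by norm_num [al]
  rw [sum_insert (by decide), sum_insert (by decide), sum_insert (by decide), sum_insert (by decide), sum_singleton, e1, e2, e3, e4, e5, a1, a2, a3, a4, a5] at hS
  generalize hLL : log (1 / (k * T)) = L at *
  generalize log (k : ℝ) = lk at *
  have hkc : (k : ℝ) / 4 * log (24763 / 100000) ≤ k / 4 * (-13957 / 10000) :=
    mul_le_mul_of_nonneg_left hlc (by linarith)
  norm_num at hS hK hkc d1 d2 d3 d4 d5 ⊢
  linarith

theorem U_m_three {k : ℕ} (hk : 26 ≤ k) {T θ : ℝ} (hT : 0 < T) (hv : k * T ≤ 1 / 3)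
    (h0 : 21 / 10 ≤ θ) (h1 : θ ≤ 13 / 5) :
    HS k T θ + (((k + 1) / 2 : ℕ) : ℝ) / 2 * log ((cosh T + cos θ) / 2) ≤
      (-0.3489) * k + 0 * (k * log (1 / (k * T))) + 0.8046 * log (1 / (k * T)) +
        (-0.4166) * log k + 1.8992 := by
  have hk0 : (26 : ℝ) ≤ k := by exact_mod_cast hk
  have hk1 : 1 ≤ k := by omega
  have hkT : 0 < k * T := mul_pos (by linarith) hT
  have hT1 : T ≤ 1 / 78 := by nlinarith
  obtain ⟨l10a, l10b, l3a, l3b, l6a⟩ := Fu_m_logs
  obtain ⟨hlT, hlT'⟩ := Fu_m_logT hk hT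
  have hL : log 3 ≤ log (1 / (k * T)) := by
    apply log_le_log (by norm_num)
    rw [le_div_iff₀ hkT]
    linarith
  have hlk : 0 ≤ log (k : ℝ) := log_nonneg (by linarith)
  have hcosh := Fu_m_cosh hT (by linarith)
  have hcos := Fu_m_cos h0 h1
  have hK := K_term_le (k := k) (T := T) (θ := θ) (c := 24763 / 100000) hT (neg_one_le_cos θ)
    (by linarith) (by norm_num) (by norm_num)
  have hlc := Fu_m_logc
  have hv1 : log (1 / 3 : ℝ) = -log 3 := by
    rw [one_div, log_inv]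
  have hS := HS_le hk1 hT hv θ Fu_m_s (Fu_m_hs h0 h1)
  rw [show Icc 1 5 = ({1, 2, 3, 4, 5} : Finset ℕ) from by decide] at hS
  rw [hv1, hlT] at hS
  have d1 := dd_one_third
  have d2 := dd_two_third
  have d3 := dd_three_third
  have d4 := dd_four_third
  have d5 := dd_five_third
  have e1 : Fu_m_s 1 = 133 / 500 := by norm_num [Fu_m_s]
  have e2 : Fu_m_s 2 = 257 / 500 := by norm_num [Fu_m_s]
  have e3 : Fu_m_s 3 = 361 / 500 := by norm_num [Fu_m_s]
  have e4 : Fu_m_s 4 = 43 / 50 := by norm_num [Fu_m_s]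
  have e5 : Fu_m_s 5 = 511 / 1000 := by norm_num [Fu_m_s]
  have a1 : al 1 = 41 / 100 := by norm_num [al]
  have a2 : al 2 = 2 / 9 := by norm_num [al]
  have a3 : al 3 = 1 / 6 := by norm_num [al]
  have a4 : al 4 = 1 / 9 := by norm_num [al]
  have a5 : al 5 = 1 / 18 := by norm_num [al]
  rw [sum_insert (by decide), sum_insert (by decide), sum_insert (by decide), sum_insert (by decide), sum_singleton, e1, e2, e3, e4, e5, a1, a2, a3, a4, a5] at hS
  generalize hLL : log (1 / (k * T)) = L at *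
  generalize log (k : ℝ) = lk at *
  have hkc : (k : ℝ) / 4 * log (24763 / 100000) ≤ k / 4 * (-13957 / 10000) :=
    mul_le_mul_of_nonneg_left hlc (by linarith)
  norm_num at hS hK hkc d1 d2 d3 d4 d5 ⊢
  linarith

end Pool.Agent.SignedQ.Far
end

section

/-! # FAR arcs: the harmonics on one interval of `θ` (task FUp2) -/

namespace Pool.Agent.SignedQ.Far

open Real Finset

/-! Interval p2. Lower bounds `s l` of `|sin (l (π+θ)/2)|` (for even `l` this is `|sin (l θ/2)|`, for odd `l`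
`|cos (l θ/2)|`) on the interval: l = 1: s = 0.679; l = 2: s = 0.942; l = 3: s = 0.626; l = 4: cap (`HS_le_cap`, c = 4); l = 5: s = 0.573. They come from `sin u ≥ u - u³/6` with `u` = the distance of
`l (π+θ)/2` to the nearest multiple of `π` at the worse end of the interval (`|sin|` is concave between its
zeros). The last term: `K_term_le` with `c = 0.53542` rounded up (`cosh T ≤ 1.0001` since `T ≤ 1/78`).
Then `log (1/T) = log (1/(kT)) + log k`, `log T = -log (1/T)`, `log (1/(kT)) ≥ log 3 > 0`, the numbers of Fn, `log_fact_ge0`,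
numerical bounds of `log 10`, `log 3`, `log 6` and of `log c`; every coefficient below is rounded up by `≥ 0`
(up to `10⁻⁴`; if a coefficient fails by rounding tell me: there is slack). -/

/-- Lower bound of `|sin|` between two multiples of `π`. -/
theorem Fu_p2_sinlb {x u w s : ℝ} (m : ℕ) (hu0 : 0 ≤ u) (hw0 : 0 ≤ w) (h1 : m * π + u ≤ x)
    (h2 : x ≤ m * π + π - w) (hs1 : s ≤ u - u ^ 3 / 6) (hs2 : s ≤ w - w ^ 3 / 6) :
    s ≤ |sin x| := by
  have e : |sin x| = |sin (x - m * π)| := by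
    have e1 : sin x = (-1) ^ m * sin (x - m * π) := by
      rw [← sin_add_nat_mul_pi]
      congr 1
      ring
    rw [e1, abs_mul, abs_pow, abs_neg, abs_one, one_pow, one_mul]
  rw [e]
  refine le_trans ?_ (le_abs_self _)
  have hc : ConcaveOn ℝ (Set.Icc 0 π) sin := strictConcaveOn_sin_Icc.concaveOn
  have hu1 : u ≤ x - m * π := by linarith
  have hw1 : x - m * π ≤ π - w := by linarith
  have hmin := hc.min_le_of_mem_Icc (x := u) (y := π - w) (z := x - m * π)
    ⟨hu0, by linarith⟩ ⟨by linarith, by linarith⟩ ⟨hu1, hw1⟩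
  refine le_trans (le_min ?_ ?_) hmin
  · exact hs1.trans (sin_ge_sub_cube hu0)
  · rw [sin_pi_sub]
    exact hs2.trans (sin_ge_sub_cube hw0)

theorem Fu_p2_cosh {T : ℝ} (hT : 0 < T) (hT1 : T ≤ 1 / 78) : cosh T ≤ 100009 / 100000 := by
  have h1 : cosh T ≤ exp (T ^ 2 / 2) := cosh_le_exp_half_sq T
  have h2 : T ^ 2 / 2 ≤ 1 / 12168 := by nlinarith
  have h3 : exp (T ^ 2 / 2) ≤ exp (1 / 12168) := exp_le_exp.2 h2
  have h4 : exp (1 / 12168 : ℝ) ≤ 1 / (1 - 1 / 12168) :=
    exp_bound_div_one_sub_of_interval (by norm_num) (by norm_num)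
  have h5 : (1 / (1 - 1 / 12168) : ℝ) ≤ 100009 / 100000 := by norm_num
  linarith

theorem Fu_p2_logs : (2302585 / 1000000 : ℝ) ≤ log 10 ∧ log 10 ≤ 2302586 / 1000000 ∧
    (1098612 / 1000000 : ℝ) ≤ log 3 ∧ log 3 ≤ 1098613 / 1000000 ∧
    (1791759 / 1000000 : ℝ) ≤ log 6 := by
  have g1 := log_two_gt_d9
  have g2 := log_two_lt_d9
  norm_num at g1 g2
  have h1 := Fn_bd (x := 5 / 4) (y := (2231435 / 10000000 : ℝ)) (z := (2231436 / 10000000 : ℝ))
    (by norm_num) (by norm_num) (by norm_num) (by norm_num)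
    (by norm_num [Finset.sum_range_succ, Nat.factorial])
    (by norm_num [Finset.sum_range_succ, Nat.factorial])
  have h2 := Fn_bd (x := 3 / 2) (y := (4054651 / 10000000 : ℝ)) (z := (4054652 / 10000000 : ℝ))
    (by norm_num) (by norm_num) (by norm_num) (by norm_num)
    (by norm_num [Finset.sum_range_succ, Nat.factorial])
    (by norm_num [Finset.sum_range_succ, Nat.factorial])
  have e1 : log 10 = 3 * log 2 + log (5 / 4 : ℝ) := by
    rw [show (10 : ℝ) = 2 ^ 3 * (5 / 4) by norm_num, log_mul (by norm_num) (by norm_num), log_pow]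
    push_cast
    ring
  have e2 : log 3 = log 2 + log (3 / 2 : ℝ) := by
    rw [← log_mul (by norm_num) (by norm_num)]
    norm_num
  have e3 : log 6 = log 2 + log 3 := by
    rw [← log_mul (by norm_num) (by norm_num)]
    norm_num
  refine ⟨?_, ?_, ?_, ?_, ?_⟩
  · rw [e1]
    linarith [h1.1]
  · rw [e1]
    linarith [h1.2]
  · rw [e2]
    linarith [h2.1]
  · rw [e2]
    linarith [h2.2]
  · rw [e3, e2]
    linarith [h2.1]

theorem Fu_p2_logT {k : ℕ} (hk : 26 ≤ k) {T : ℝ} (hT : 0 < T) :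
    log T = -(log (1 / (k * T)) + log k) ∧ log (1 / T) = log (1 / (k * T)) + log k := by
  have hk0 : (0 : ℝ) < k := by
    have : 0 < k := by omega
    exact_mod_cast this
  have e : log (1 / (k * T)) = -(log k + log T) := by
    rw [log_div one_ne_zero (mul_pos hk0 hT).ne', log_one, log_mul hk0.ne' hT.ne']
    ring
  constructor
  · rw [e]
    ring
  · rw [e, log_div one_ne_zero hT.ne', log_one]
    ring

/-- The lower bounds of the sines. -/
noncomputable def Fu_p2_s (l : ℕ) : ℝ :=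
  if l = 1 then 679 / 1000 else if l = 2 then 471 / 500 else if l = 3 then 313 / 500 else if l = 4 then 1 else 573 / 1000

theorem Fu_p2_hs {θ : ℝ} (h0 : 3 / 2 ≤ θ) (h1 : θ ≤ 41 / 25) : ∀ l : ℕ, 1 ≤ l → l ≤ 5 → l ≠ 4 → 
    0 < Fu_p2_s l ∧ Fu_p2_s l ≤ |sin (l * (π + θ) / 2)| := by
  intro l hl1 hl5 hlc
  have p1 := pi_gt_d6
  have p2 := pi_lt_d6
  interval_cases l
  · refine ⟨by norm_num [Fu_p2_s], ?_⟩
    have e : Fu_p2_s 1 = 679 / 1000 := by norm_num [Fu_p2_s]
    rw [e]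
    refine Fu_p2_sinlb (u := 141 / 100) (w := 7507 / 10000) 0 (by norm_num) (by norm_num) ?_ ?_
      (by norm_num) (by norm_num)
    · push_cast
      linarith
    · push_cast
      linarith
  · refine ⟨by norm_num [Fu_p2_s], ?_⟩
    have e : Fu_p2_s 2 = 471 / 500 := by norm_num [Fu_p2_s]
    rw [e]
    refine Fu_p2_sinlb (u := 141 / 100) (w := 141 / 100) 1 (by norm_num) (by norm_num) ?_ ?_
      (by norm_num) (by norm_num)
    · push_cast
      linarith
    · push_cast
      linarith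
  · refine ⟨by norm_num [Fu_p2_s], ?_⟩
    have e : Fu_p2_s 3 = 313 / 500 := by norm_num [Fu_p2_s]
    rw [e]
    refine Fu_p2_sinlb (u := 849 / 1250) (w := 141 / 100) 2 (by norm_num) (by norm_num) ?_ ?_
      (by norm_num) (by norm_num)
    · push_cast
      linarith
    · push_cast
      linarith
  · exact absurd rfl hlc
  · refine ⟨by norm_num [Fu_p2_s], ?_⟩
    have e : Fu_p2_s 5 = 573 / 1000 := by norm_num [Fu_p2_s]
    rw [e]
    refine Fu_p2_sinlb (u := 141 / 100) (w := 6123 / 10000) 3 (by norm_num) (by norm_num) ?_ ?_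
      (by norm_num) (by norm_num)
    · push_cast
      linarith
    · push_cast
      linarith

theorem Fu_p2_cos {θ : ℝ} (h0 : 3 / 2 ≤ θ) (h1 : θ ≤ 41 / 25) : cos θ ≤ 283 / 4000 := by
  have p1 := pi_gt_d6
  have p2 := pi_lt_d6
  have hm : cos θ ≤ cos (3 / 2) :=
    cos_le_cos_of_nonneg_of_le_pi (by norm_num) (by linarith) h0
  refine hm.trans ?_
  have e : cos (3 / 2) = sin (π / 2 - 3 / 2) := (sin_pi_div_two_sub _).symm
  rw [e]
  have h2 : sin (π / 2 - 3 / 2) ≤ sin (707965 / 10000000) :=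
    sin_le_sin_of_le_of_le_pi_div_two (by linarith) (by linarith) (by linarith)
  have h3 := sin_bound (x := 707965 / 10000000) (by rw [abs_of_nonneg] <;> norm_num)
  rw [abs_of_nonneg (by norm_num : (0 : ℝ) ≤ 707965 / 10000000)] at h3
  have h4 := (abs_le.1 h3).2
  norm_num at h4 ⊢
  linarith

theorem Fu_p2_logc : log (26771 / 50000 : ℝ) ≤ -6247 / 10000 := by
  have g1 := log_two_gt_d9
  norm_num at g1
  have e : log (26771 / 50000 : ℝ) = log (26771 / 25000) - 1 * log 2 := by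
    rw [show (26771 / 50000 : ℝ) = 26771 / 25000 / 2 ^ 1 by norm_num,
      log_div (by norm_num) (by norm_num), log_pow]
    push_cast
    ring
  have h := (Fn_bd (x := 26771 / 25000) (y := 6 / 100) (z := 68446 / 1000000)
    (by norm_num) (by norm_num) (by norm_num) (by norm_num)
    (by norm_num [Finset.sum_range_succ, Nat.factorial])
    (by norm_num [Finset.sum_range_succ, Nat.factorial])).2
  rw [e]
  linarith

theorem U_p2_ten {k : ℕ} (hk : 26 ≤ k) {T θ : ℝ} (hT : 0 < T) (hv : k * T ≤ 1 / 10)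
    (h0 : 3 / 2 ≤ θ) (h1 : θ ≤ 41 / 25) :
    HS k T θ + (((k + 1) / 2 : ℕ) : ℝ) / 2 * log ((cosh T + cos θ) / 2) ≤
      (-0.1149) * k + 0.1112 * (k * log (1 / (k * T))) + 0.2404 * log (1 / (k * T)) +
        (-0.4166) * log k + 0.1855 := by
  have hk0 : (26 : ℝ) ≤ k := by exact_mod_cast hk
  have hk1 : 1 ≤ k := by omega
  have hkT : 0 < k * T := mul_pos (by linarith) hT
  have hT1 : T ≤ 1 / 260 := by nlinarith
  obtain ⟨l10a, l10b, l3a, l3b, l6a⟩ := Fu_p2_logs
  obtain ⟨hlT, hlT'⟩ := Fu_p2_logT hk hT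
  have hL : log 10 ≤ log (1 / (k * T)) := by
    apply log_le_log (by norm_num)
    rw [le_div_iff₀ hkT]
    linarith
  have hlk : 0 ≤ log (k : ℝ) := log_nonneg (by linarith)
  have hcosh := Fu_p2_cosh hT (by linarith)
  have hcos := Fu_p2_cos h0 h1
  have hK := K_term_le (k := k) (T := T) (θ := θ) (c := 26771 / 50000) hT (neg_one_le_cos θ)
    (by linarith) (by norm_num) (by norm_num)
  have hlc := Fu_p2_logc
  have hv1 : log (1 / 10 : ℝ) = -log 10 := by
    rw [one_div, log_inv]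
  have hf := log_fact_ge0 hk1
  have hS := HS_le_cap hk1 hT hv θ Fu_p2_s (c := 4) (by norm_num) (by norm_num) (Fu_p2_hs h0 h1)
  rw [show (Icc 1 5).erase 4 = ({1, 2, 3, 5} : Finset ℕ) from by decide] at hS
  rw [hv1, hlT] at hS
  rw [hlT'] at hS
  have d1 := dd_one_tenth
  have d2 := dd_two_tenth
  have d3 := dd_three_tenth
  have d4 := dd_four_tenth
  have d5 := dd_five_tenth
  have e1 : Fu_p2_s 1 = 679 / 1000 := by norm_num [Fu_p2_s]
  have e2 : Fu_p2_s 2 = 471 / 500 := by norm_num [Fu_p2_s]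
  have e3 : Fu_p2_s 3 = 313 / 500 := by norm_num [Fu_p2_s]
  have e5 : Fu_p2_s 5 = 573 / 1000 := by norm_num [Fu_p2_s]
  have a1 : al 1 = 41 / 100 := by norm_num [al]
  have a2 : al 2 = 2 / 9 := by norm_num [al]
  have a3 : al 3 = 1 / 6 := by norm_num [al]
  have a4 : al 4 = 1 / 9 := by norm_num [al]
  have a5 : al 5 = 1 / 18 := by norm_num [al]
  rw [sum_insert (by decide), sum_insert (by decide), sum_insert (by decide), sum_singleton, e1, e2, e3, e5, a1, a2, a3, a4, a5] at hS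
  generalize hLL : log (1 / (k * T)) = L at *
  generalize log (k : ℝ) = lk at *
  have hkd : (k : ℝ) * dd 4 (1 / 10) ≤ k * (0.186) := mul_le_mul_of_nonneg_left d4 (by linarith)
  have hkl : (k : ℝ) * log 10 ≥ k * (2302585 / 1000000) := mul_le_mul_of_nonneg_left l10a (by linarith)
  have hkL : 0 ≤ k * L := mul_nonneg (by linarith) (by linarith)
  have hkc : (k : ℝ) * log (26771 / 50000) ≤ k * (-6247 / 10000) := mul_le_mul_of_nonneg_left hlc (by linarith)
  have r1 : (k : ℝ) * (dd 4 (1 / 10) + 1 / 9 * -log 10) + 1 / 9 * (k * (L + lk) - log (k.factorial : ℝ)) =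
      k * dd 4 (1 / 10) - 1 / 9 * (k * log 10) + 1 / 9 * (k * L) + 1 / 9 * (k * lk) -
        1 / 9 * log (k.factorial : ℝ) := by ring
  rw [r1] at hS
  norm_num at hS hK hf hkd hkl hkc d1 d2 d3 d4 d5 ⊢
  linarith

theorem U_p2_three {k : ℕ} (hk : 26 ≤ k) {T θ : ℝ} (hT : 0 < T) (hv : k * T ≤ 1 / 3)
    (h0 : 3 / 2 ≤ θ) (h1 : θ ≤ 41 / 25) :
    HS k T θ + (((k + 1) / 2 : ℕ) : ℝ) / 2 * log ((cosh T + cos θ) / 2) ≤
      (-0.1028) * k + 0.1112 * (k * log (1 / (k * T))) + 0.2404 * log (1 / (k * T)) +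
        (-0.4166) * log k + 0.3148 := by
  have hk0 : (26 : ℝ) ≤ k := by exact_mod_cast hk
  have hk1 : 1 ≤ k := by omega
  have hkT : 0 < k * T := mul_pos (by linarith) hT
  have hT1 : T ≤ 1 / 78 := by nlinarith
  obtain ⟨l10a, l10b, l3a, l3b, l6a⟩ := Fu_p2_logs
  obtain ⟨hlT, hlT'⟩ := Fu_p2_logT hk hT
  have hL : log 3 ≤ log (1 / (k * T)) := by
    apply log_le_log (by norm_num)
    rw [le_div_iff₀ hkT]
    linarith
  have hlk : 0 ≤ log (k : ℝ) := log_nonneg (by linarith)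
  have hcosh := Fu_p2_cosh hT (by linarith)
  have hcos := Fu_p2_cos h0 h1
  have hK := K_term_le (k := k) (T := T) (θ := θ) (c := 26771 / 50000) hT (neg_one_le_cos θ)
    (by linarith) (by norm_num) (by norm_num)
  have hlc := Fu_p2_logc
  have hv1 : log (1 / 3 : ℝ) = -log 3 := by
    rw [one_div, log_inv]
  have hf := log_fact_ge0 hk1
  have hS := HS_le_cap hk1 hT hv θ Fu_p2_s (c := 4) (by norm_num) (by norm_num) (Fu_p2_hs h0 h1)
  rw [show (Icc 1 5).erase 4 = ({1, 2, 3, 5} : Finset ℕ) from by decide] at hS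
  rw [hv1, hlT] at hS
  rw [hlT'] at hS
  have d1 := dd_one_third
  have d2 := dd_two_third
  have d3 := dd_three_third
  have d4 := dd_four_third
  have d5 := dd_five_third
  have e1 : Fu_p2_s 1 = 679 / 1000 := by norm_num [Fu_p2_s]
  have e2 : Fu_p2_s 2 = 471 / 500 := by norm_num [Fu_p2_s]
  have e3 : Fu_p2_s 3 = 313 / 500 := by norm_num [Fu_p2_s]
  have e5 : Fu_p2_s 5 = 573 / 1000 := by norm_num [Fu_p2_s]
  have a1 : al 1 = 41 / 100 := by norm_num [al]
  have a2 : al 2 = 2 / 9 := by norm_num [al]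
  have a3 : al 3 = 1 / 6 := by norm_num [al]
  have a4 : al 4 = 1 / 9 := by norm_num [al]
  have a5 : al 5 = 1 / 18 := by norm_num [al]
  rw [sum_insert (by decide), sum_insert (by decide), sum_insert (by decide), sum_singleton, e1, e2, e3, e5, a1, a2, a3, a4, a5] at hS
  generalize hLL : log (1 / (k * T)) = L at *
  generalize log (k : ℝ) = lk at *
  have hkd : (k : ℝ) * dd 4 (1 / 3) ≤ k * (0.0643) := mul_le_mul_of_nonneg_left d4 (by linarith)
  have hkl : (k : ℝ) * log 3 ≥ k * (1098612 / 1000000) := mul_le_mul_of_nonneg_left l3a (by linarith)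
  have hkL : 0 ≤ k * L := mul_nonneg (by linarith) (by linarith)
  have hkc : (k : ℝ) * log (26771 / 50000) ≤ k * (-6247 / 10000) := mul_le_mul_of_nonneg_left hlc (by linarith)
  have r1 : (k : ℝ) * (dd 4 (1 / 3) + 1 / 9 * -log 3) + 1 / 9 * (k * (L + lk) - log (k.factorial : ℝ)) =
      k * dd 4 (1 / 3) - 1 / 9 * (k * log 3) + 1 / 9 * (k * L) + 1 / 9 * (k * lk) -
        1 / 9 * log (k.factorial : ℝ) := by ring
  rw [r1] at hS
  norm_num at hS hK hf hkd hkl hkc d1 d2 d3 d4 d5 ⊢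
  linarith

end Pool.Agent.SignedQ.Far
end

section

/-! # FAR arcs: the harmonics on one interval of `θ` (task FUp3m) -/

namespace Pool.Agent.SignedQ.Far

open Real Finset

/-! Interval p3m. Lower bounds `s l` of `|sin (l (π+θ)/2)|` (for even `l` this is `|sin (l θ/2)|`, for odd `l`
`|cos (l θ/2)|`) on the interval: l = 1: s = 0.855; l = 2: s = 0.807; l = 3: 1/s = 0.66710 k; l = 4: s = 0.855; l = 5: s = 0.717 (`HS_le_three` with `e = 33/200 k`, `end_three`). They come from `sin u ≥ u - u³/6` with `u` = the distance of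
`l (π+θ)/2` to the nearest multiple of `π` at the worse end of the interval (`|sin|` is concave between its
zeros). The last term: `K_term_le` with `c = 0.79089` rounded up (`cosh T ≤ 1.0001` since `T ≤ 1/78`).
Then `log (1/T) = log (1/(kT)) + log k`, `log T = -log (1/T)`, `log (1/(kT)) ≥ log 3 > 0`, the numbers of Fn, `log_fact_ge0`,
numerical bounds of `log 10`, `log 3`, `log 6` and of `log c`; every coefficient below is rounded up by `≥ 0`
(up to `10⁻⁴`; if a coefficient fails by rounding tell me: there is slack). -/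

theorem p3m_sqrt_three : (0.855 : ℝ) ≤ √3 / 2 := by
  have h : (1.71 : ℝ) ≤ √3 := by
    apply Real.le_sqrt_of_sq_le
    norm_num
  linarith

theorem p3m_s1 {θ : ℝ} (h0 : 19 / 20 ≤ θ) (h1 : θ ≤ π / 3) :
    (0.855 : ℝ) ≤ |sin ((1 : ℕ) * (π + θ) / 2)| := by
  have hpi := Real.pi_pos
  have e1 : ((1 : ℕ) : ℝ) * (π + θ) / 2 = θ / 2 + π / 2 := by
    push_cast
    ring
  rw [e1, sin_add_pi_div_two]
  refine le_trans ?_ (le_abs_self _)
  have h2 : cos (π / 6) ≤ cos (θ / 2) := by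
    apply cos_le_cos_of_nonneg_of_le_pi <;> linarith
  rw [cos_pi_div_six] at h2
  linarith [p3m_sqrt_three]

theorem p3m_s2 {θ : ℝ} (h0 : 19 / 20 ≤ θ) (h1 : θ ≤ π / 3) :
    (0.807 : ℝ) ≤ |sin ((2 : ℕ) * (π + θ) / 2)| := by
  have hpi := Real.pi_pos
  have e1 : ((2 : ℕ) : ℝ) * (π + θ) / 2 = θ + π := by
    push_cast
    ring
  rw [e1, sin_add_pi, abs_neg]
  refine le_trans ?_ (le_abs_self _)
  have h2 : sin (19 / 20) ≤ sin θ := by
    apply sin_le_sin_of_le_of_le_pi_div_two <;> linarith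
  have h3 := sin_ge_sub_cube (show (0 : ℝ) ≤ 19 / 20 by norm_num)
  have h4 : (0.807 : ℝ) ≤ 19 / 20 - (19 / 20) ^ 3 / 6 := by norm_num
  linarith

theorem p3m_s4 {θ : ℝ} (h0 : 19 / 20 ≤ θ) (h1 : θ ≤ π / 3) :
    (0.855 : ℝ) ≤ |sin ((4 : ℕ) * (π + θ) / 2)| := by
  have hpi := Real.pi_pos
  have hpi2 := Real.pi_lt_d2
  have e1 : ((4 : ℕ) : ℝ) * (π + θ) / 2 = 2 * θ + 2 * π := by
    push_cast
    ring
  rw [e1, sin_add_two_pi, ← sin_pi_sub]
  refine le_trans ?_ (le_abs_self _)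
  have h2 : sin (π / 3) ≤ sin (π - 2 * θ) := by
    apply sin_le_sin_of_le_of_le_pi_div_two <;> linarith
  rw [sin_pi_div_three] at h2
  linarith [p3m_sqrt_three]

theorem p3m_s5 {θ : ℝ} (h0 : 19 / 20 ≤ θ) (h1 : θ ≤ π / 3) :
    (0.717 : ℝ) ≤ |sin ((5 : ℕ) * (π + θ) / 2)| := by
  have hpi := Real.pi_pos
  have hpi2 := Real.pi_lt_d4
  have e1 : ((5 : ℕ) : ℝ) * (π + θ) / 2 = (5 * θ / 2 - π / 2) + π + 2 * π := by
    push_cast
    ring
  rw [e1, sin_add_two_pi, sin_add_pi, abs_neg]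
  refine le_trans ?_ (le_abs_self _)
  have h2 : sin (8042 / 10000) ≤ sin (5 * θ / 2 - π / 2) := by
    apply sin_le_sin_of_le_of_le_pi_div_two <;> linarith
  have h3 := sin_ge_sub_cube (show (0 : ℝ) ≤ 8042 / 10000 by norm_num)
  have h4 : (0.717 : ℝ) ≤ 8042 / 10000 - (8042 / 10000) ^ 3 / 6 := by norm_num
  linarith

theorem p3m_s3 {k : ℕ} (hk : 26 ≤ k) {θ : ℝ} (h0 : 19 / 20 ≤ θ) (h1 : θ ≤ π / 3 - 1 / k) :
    1 / (0.6671 * (k : ℝ)) ≤ |sin ((3 : ℕ) * (π + θ) / 2)| := by
  have hpi := Real.pi_pos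
  have hk' : (26 : ℝ) ≤ k := by exact_mod_cast hk
  have hk0 : (0 : ℝ) < k := by linarith
  have e1 : ((3 : ℕ) : ℝ) * (π + θ) / 2 = (3 * θ / 2 + π / 2) + π := by
    push_cast
    ring
  rw [e1, sin_add_pi, abs_neg, sin_add_pi_div_two]
  refine le_trans ?_ (le_abs_self _)
  have hk1 : (0 : ℝ) < 1 / k := by positivity
  have h2 : cos (π / 2 - 3 / 2 * (1 / k)) ≤ cos (3 * θ / 2) := by
    apply cos_le_cos_of_nonneg_of_le_pi <;> linarith
  rw [cos_pi_div_two_sub] at h2
  have h3 := sin_ge_sub_cube (show (0 : ℝ) ≤ 3 / 2 * (1 / k) by positivity)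
  have h5 : (1 : ℝ) / k ≤ 1 / 26 := one_div_le_one_div_of_le (by norm_num) hk'
  have e2 : 1 / (0.6671 * (k : ℝ)) = (1 / 0.6671) * (1 / k) := by
    rw [one_div_mul_one_div]
  rw [e2]
  have h6 : (1 / 0.6671 : ℝ) * (1 / k) ≤ 3 / 2 * (1 / k) - (3 / 2 * (1 / k)) ^ 3 / 6 := by
    have h7 : (1 / (k : ℝ)) ^ 2 ≤ (1 / 26) ^ 2 := by
      apply pow_le_pow_left₀ hk1.le h5
    have h8 : (3 / 2 * (1 / (k : ℝ)) - (3 / 2 * (1 / k)) ^ 3 / 6) =
        (1 / k) * (3 / 2 - 27 / 48 * (1 / (k : ℝ)) ^ 2) := by ring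
    rw [h8, mul_comm]
    refine mul_le_mul_of_nonneg_left ?_ hk1.le
    have h9 : (1 / 0.6671 : ℝ) ≤ 3 / 2 - 27 / 48 * (1 / 26) ^ 2 := by norm_num
    linarith
  linarith

theorem p3m_cos : cos (19 / 20) ≤ 0.581688 := by
  have h1 := sin_ge_sub_cube (show (0 : ℝ) ≤ 19 / 160 by norm_num)
  have h2 : (0.1184708 : ℝ) ≤ sin (19 / 160) := by
    refine le_trans ?_ h1
    norm_num
  have h3 : cos (19 / 80) ≤ 0.97192935 := by
    have : cos (19 / 80 : ℝ) = 1 - 2 * sin (19 / 160) ^ 2 := by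
      rw [show (19 / 80 : ℝ) = 2 * (19 / 160) by norm_num, cos_two_mul, cos_sq']
      ring
    rw [this]
    nlinarith
  have h3' : 0 ≤ cos (19 / 80 : ℝ) := by
    apply cos_nonneg_of_mem_Icc
    constructor <;> linarith [Real.pi_gt_three]
  have h4 : cos (19 / 40) ≤ 0.8892934 := by
    have : cos (19 / 40 : ℝ) = 2 * cos (19 / 80) ^ 2 - 1 := by
      rw [show (19 / 40 : ℝ) = 2 * (19 / 80) by norm_num, cos_two_mul]
    rw [this]
    nlinarith
  have h4' : 0 ≤ cos (19 / 40 : ℝ) := by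
    apply cos_nonneg_of_mem_Icc
    constructor <;> linarith [Real.pi_gt_three]
  have : cos (19 / 20 : ℝ) = 2 * cos (19 / 40) ^ 2 - 1 := by
    rw [show (19 / 20 : ℝ) = 2 * (19 / 40) by norm_num, cos_two_mul]
  rw [this]
  nlinarith

theorem p3m_cosh {T : ℝ} (hT : 0 < T) (h : T ≤ 1 / 78) : cosh T ≤ 1.00009 := by
  have h1 := Real.cosh_le_exp_half_sq T
  have h2 : T ^ 2 / 2 ≤ 1 / 12000 := by nlinarith
  have h3 : exp (T ^ 2 / 2) ≤ exp (1 / 12000) := exp_le_exp.mpr h2
  have h4 : exp (1 / 12000 : ℝ) ≤ 1 / (1 - 1 / 12000) := Real.exp_bound_div_one_sub_of_interval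
    (by norm_num) (by norm_num)
  have h5 : (1 / (1 - 1 / 12000) : ℝ) ≤ 1.00009 := by norm_num
  linarith

theorem p3m_log10 : (2.30258 : ℝ) ≤ log 10 := by
  have h1 : log 10 = 3 * log 2 - log (1 - 1 / 5) := by
    rw [show (1 - 1 / 5 : ℝ) = 2 ^ 3 / 10 by norm_num, log_div (by norm_num) (by norm_num), log_pow]
    push_cast
    ring
  have h2 := Real.abs_log_sub_add_sum_range_le (x := (1 / 5 : ℝ)) (by norm_num) 9
  have h3 := (abs_le.mp h2).2
  norm_num [Finset.sum_range_succ] at h3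
  have h4 := Real.log_two_gt_d9
  rw [h1]
  norm_num at h3 h4 ⊢
  linarith

theorem p3m_log3 : (1.0986 : ℝ) ≤ log 3 := by
  have h1 : log 3 = 2 * log 2 + log (1 - 1 / 4) := by
    rw [show (1 - 1 / 4 : ℝ) = 3 / 2 ^ 2 by norm_num, log_div (by norm_num) (by norm_num), log_pow]
    push_cast
    ring
  have h2 := Real.abs_log_sub_add_sum_range_le (x := (1 / 4 : ℝ)) (by norm_num) 9
  have h3 := (abs_le.mp h2).1
  norm_num [Finset.sum_range_succ] at h3
  have h4 := Real.log_two_gt_d9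
  rw [h1]
  norm_num at h3 h4 ⊢
  linarith

theorem p3m_logc : log 0.79089 ≤ -0.23459 := by
  have h2 := Real.abs_log_sub_add_sum_range_le (x := (0.20911 : ℝ)) (by norm_num) 10
  have h3 := (abs_le.mp h2).2
  norm_num [Finset.sum_range_succ] at h3
  norm_num
  linarith

/-- The lower bounds of `|sin|` for this interval. -/
noncomputable def p3m_s (k : ℕ) (l : ℕ) : ℝ :=
  if l = 1 then 0.855 else if l = 2 then 0.807 else if l = 3 then 1 / (0.6671 * k)
    else if l = 4 then 0.855 else 0.717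

theorem p3m_hs {k : ℕ} (hk : 26 ≤ k) {θ : ℝ} (h0 : 19 / 20 ≤ θ) (h1 : θ ≤ π / 3 - 1 / k) :
    ∀ l, 1 ≤ l → l ≤ 5 → 0 < p3m_s k l ∧ p3m_s k l ≤ |sin (l * (π + θ) / 2)| := by
  have hk' : (26 : ℝ) ≤ k := by exact_mod_cast hk
  have hk0 : (0 : ℝ) < k := by linarith
  have hk1 : (0 : ℝ) < 1 / k := by positivity
  have h1' : θ ≤ π / 3 := by linarith
  intro l hl1 hl5
  interval_cases l
  · exact ⟨by norm_num [p3m_s], by simpa [p3m_s] using p3m_s1 h0 h1'⟩
  · exact ⟨by norm_num [p3m_s], by simpa [p3m_s] using p3m_s2 h0 h1'⟩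
  · refine ⟨by simp only [p3m_s]; norm_num; positivity, ?_⟩
    have := p3m_s3 hk h0 h1
    simpa [p3m_s] using this
  · exact ⟨by norm_num [p3m_s], by simpa [p3m_s] using p3m_s4 h0 h1'⟩
  · exact ⟨by norm_num [p3m_s], by simpa [p3m_s] using p3m_s5 h0 h1'⟩

theorem p3m_gen {k : ℕ} (hk : 26 ≤ k) {T θ v : ℝ} (hT : 0 < T) (hv : k * T ≤ v) (hv3 : v ≤ 1 / 3)
    (h0 : 19 / 20 ≤ θ) (h1 : θ ≤ π / 3 - 1 / k) :
    HS k T θ + (((k + 1) / 2 : ℕ) : ℝ) / 2 * log ((cosh T + cos θ) / 2) ≤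
      (0.41 * (1 / 0.855 - 11 / 12) +
        (dd 1 v + 0.41 * (log v + log (1 / (k * T)))) * (1 / (2 * 0.855))) +
      (4 / 18 * (1 / 0.807 - 11 / 12) +
        (dd 2 v + 4 / 18 * (log v + log (1 / (k * T)))) * (1 / (2 * 0.807))) +
      (3 / 18 * (0.6671 * k - 11 / 12) +
        (dd 3 v + 3 / 18 * (log v + log (1 / (k * T)))) * (33 / 200 * k)) +
      (2 / 18 * (1 / 0.855 - 11 / 12) +
        (dd 4 v + 2 / 18 * (log v + log (1 / (k * T)))) * (1 / (2 * 0.855))) +
      (1 / 18 * (1 / 0.717 - 11 / 12) +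
        (dd 5 v + 1 / 18 * (log v + log (1 / (k * T)))) * (1 / (2 * 0.717))) +
      5 / 12 * (- log (1 / (k * T)) - log k) - log 6 / 12 + T / 4 + k / 4 * (-0.23459) := by
  have hk' : (26 : ℝ) ≤ k := by exact_mod_cast hk
  have hk0 : (0 : ℝ) < k := by linarith
  have hk1 : (0 : ℝ) < 1 / k := by positivity
  have hpi := Real.pi_gt_three
  have hpi2 := Real.pi_lt_d2
  have habs : 1 / (k : ℝ) ≤ |θ - π / 3| := by
    rw [abs_sub_comm]
    refine le_trans ?_ (le_abs_self _)
    linarith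
  have he := end_three hk h0 (by linarith) habs
  have hA := HS_le_three (by omega) hT hv θ (p3m_s k) (p3m_hs hk h0 h1)
    (e := 33 / 200 * k) (by positivity) he
  have hsum : ∑ l ∈ Icc 1 5, (al l * (1 / p3m_s k l - 11 / 12) +
        (dd l v + al l * (log v + log (1 / (k * T)))) *
          (if l = 3 then 33 / 200 * (k : ℝ) else 1 / (2 * p3m_s k l))) =
      (0.41 * (1 / 0.855 - 11 / 12) +
        (dd 1 v + 0.41 * (log v + log (1 / (k * T)))) * (1 / (2 * 0.855))) +
      (4 / 18 * (1 / 0.807 - 11 / 12) +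
        (dd 2 v + 4 / 18 * (log v + log (1 / (k * T)))) * (1 / (2 * 0.807))) +
      (3 / 18 * (0.6671 * k - 11 / 12) +
        (dd 3 v + 3 / 18 * (log v + log (1 / (k * T)))) * (33 / 200 * k)) +
      (2 / 18 * (1 / 0.855 - 11 / 12) +
        (dd 4 v + 2 / 18 * (log v + log (1 / (k * T)))) * (1 / (2 * 0.855))) +
      (1 / 18 * (1 / 0.717 - 11 / 12) +
        (dd 5 v + 1 / 18 * (log v + log (1 / (k * T)))) * (1 / (2 * 0.717))) := by
    have hI : Icc 1 5 = ({1, 2, 3, 4, 5} : Finset ℕ) := by decide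
    rw [hI]
    rw [Finset.sum_insert (by decide), Finset.sum_insert (by decide), Finset.sum_insert (by decide),
      Finset.sum_insert (by decide), Finset.sum_singleton]
    simp only [al, p3m_s]
    norm_num
    ring
  rw [hsum] at hA
  have hT78 : T ≤ 1 / 78 := by
    have h2 : (26 : ℝ) * T ≤ k * T := mul_le_mul_of_nonneg_right hk' hT.le
    linarith
  have hcos : cos θ ≤ cos (19 / 20) := by
    apply cos_le_cos_of_nonneg_of_le_pi <;> linarith
  have hc1 := p3m_cos
  have hc2 := p3m_cosh hT hT78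
  have hK := K_term_le (k := k) (c := 0.79089) hT (neg_one_le_cos θ) (by linarith) (by norm_num)
    (by norm_num)
  have hK2 : (k : ℝ) / 4 * log 0.79089 ≤ k / 4 * (-0.23459) :=
    mul_le_mul_of_nonneg_left p3m_logc (by positivity)
  have hlogT : log T = - log (1 / (k * T)) - log k := by
    rw [one_div, log_inv, log_mul hk0.ne' hT.ne']
    ring
  rw [hlogT] at hA
  linarith

theorem U_p3m_ten {k : ℕ} (hk : 26 ≤ k) {T θ : ℝ} (hT : 0 < T) (hv : k * T ≤ 1 / 10)
    (h0 : 19 / 20 ≤ θ) (h1 : θ ≤ π / 3 - 1 / k) :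
    HS k T θ + (((k + 1) / 2 : ℕ) : ℝ) / 2 * log ((cosh T + cos θ) / 2) ≤
      0.0417 * k + 0.0275 * (k * log (1 / (k * T))) + 0.0646 * log (1 / (k * T)) +
        (-0.4166) * log k + (-0.0305) := by
  have hk' : (26 : ℝ) ≤ k := by exact_mod_cast hk
  have hk0 : (0 : ℝ) < k := by linarith
  have hg := p3m_gen hk hT hv (by norm_num) h0 h1
  have hL : 0 ≤ log (1 / (k * T)) := by
    apply log_nonneg
    rw [le_div_iff₀ (by positivity)]
    linarith
  have hlk : 0 ≤ log (k : ℝ) := log_nonneg (by linarith)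
  have hT2 : T ≤ 1 / 260 := by
    have h2 : (26 : ℝ) * T ≤ k * T := mul_le_mul_of_nonneg_right hk' hT.le
    linarith
  have hlv : log (1 / 10 : ℝ) = - log 10 := by
    rw [one_div, log_inv]
  rw [hlv] at hg
  have h10 := p3m_log10
  have h10k : (k : ℝ) * 2.30258 ≤ k * log 10 := mul_le_mul_of_nonneg_left h10 hk0.le
  have h6 : log 6 = log 2 + log 3 := by
    rw [← log_mul (by norm_num) (by norm_num)]
    norm_num
  have h2 := Real.log_two_gt_d9
  have h3 := p3m_log3
  have d1 := dd_one_tenth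
  have d2 := dd_two_tenth
  have d3 := dd_three_tenth
  have d4 := dd_four_tenth
  have d5 := dd_five_tenth
  have d3k : (k : ℝ) * dd 3 (1 / 10) ≤ k * 0.318 := mul_le_mul_of_nonneg_left d3 hk0.le
  rw [h6] at hg
  refine hg.trans ?_
  generalize log (1 / (k * T)) = L at *
  generalize log (k : ℝ) = K at *
  generalize dd 1 (1 / 10) = D1 at *
  generalize dd 2 (1 / 10) = D2 at *
  generalize dd 3 (1 / 10) = D3 at *
  generalize dd 4 (1 / 10) = D4 at *
  generalize dd 5 (1 / 10) = D5 at *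
  generalize log 10 = l10 at *
  generalize log 2 = l2 at *
  generalize log 3 = l3 at *
  generalize (k : ℝ) = x at *
  norm_num at *
  nlinarith

theorem U_p3m_three {k : ℕ} (hk : 26 ≤ k) {T θ : ℝ} (hT : 0 < T) (hv : k * T ≤ 1 / 3)
    (h0 : 19 / 20 ≤ θ) (h1 : θ ≤ π / 3 - 1 / k) :
    HS k T θ + (((k + 1) / 2 : ℕ) : ℝ) / 2 * log ((cosh T + cos θ) / 2) ≤
      0.0437 * k + 0.0275 * (k * log (1 / (k * T))) + 0.0646 * log (1 / (k * T)) +
        (-0.4166) * log k + 0.0677 := by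
  have hk' : (26 : ℝ) ≤ k := by exact_mod_cast hk
  have hk0 : (0 : ℝ) < k := by linarith
  have hg := p3m_gen hk hT hv (by norm_num) h0 h1
  have hL : 0 ≤ log (1 / (k * T)) := by
    apply log_nonneg
    rw [le_div_iff₀ (by positivity)]
    linarith
  have hlk : 0 ≤ log (k : ℝ) := log_nonneg (by linarith)
  have hT2 : T ≤ 1 / 78 := by
    have h2 : (26 : ℝ) * T ≤ k * T := mul_le_mul_of_nonneg_right hk' hT.le
    linarith
  have hlv : log (1 / 3 : ℝ) = - log 3 := by
    rw [one_div, log_inv]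
  rw [hlv] at hg
  have h6 : log 6 = log 2 + log 3 := by
    rw [← log_mul (by norm_num) (by norm_num)]
    norm_num
  have h2 := Real.log_two_gt_d9
  have h3 := p3m_log3
  have h3k : (k : ℝ) * 1.0986 ≤ k * log 3 := mul_le_mul_of_nonneg_left h3 hk0.le
  have d1 := dd_one_third
  have d2 := dd_two_third
  have d3 := dd_three_third
  have d4 := dd_four_third
  have d5 := dd_five_third
  have d3k : (k : ℝ) * dd 3 (1 / 3) ≤ k * 0.129 := mul_le_mul_of_nonneg_left d3 hk0.le
  rw [h6] at hg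
  refine hg.trans ?_
  generalize log (1 / (k * T)) = L at *
  generalize log (k : ℝ) = K at *
  generalize dd 1 (1 / 3) = D1 at *
  generalize dd 2 (1 / 3) = D2 at *
  generalize dd 3 (1 / 3) = D3 at *
  generalize dd 4 (1 / 3) = D4 at *
  generalize dd 5 (1 / 3) = D5 at *
  generalize log 2 = l2 at *
  generalize log 3 = l3 at *
  generalize (k : ℝ) = x at *
  norm_num at *
  nlinarith

end Pool.Agent.SignedQ.Far
end

section

/-! # FAR arcs: the harmonics on one interval of `θ` (task FUp3p) -/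

namespace Pool.Agent.SignedQ.Far

open Real Finset

/-! Interval p3p. Lower bounds `s l` of `|sin (l (π+θ)/2)|` (for even `l` this is `|sin (l θ/2)|`, for odd `l`
`|cos (l θ/2)|`) on the interval: l = 1: s = 0.728; l = 2: s = 0.855; l = 3: 1/s = 0.66710 k; l = 4: s = 0.140; l = 5: s = 0.813 (`HS_le_three` with `e = 33/200 k`, `end_three`). They come from `sin u ≥ u - u³/6` with `u` = the distance of
`l (π+θ)/2` to the nearest multiple of `π` at the worse end of the interval (`|sin|` is concave between its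
zeros). The last term: `K_term_le` with `c = 0.75005` rounded up (`cosh T ≤ 1.0001` since `T ≤ 1/78`).
Then `log (1/T) = log (1/(kT)) + log k`, `log T = -log (1/T)`, `log (1/(kT)) ≥ log 3 > 0`, the numbers of Fn, `log_fact_ge0`,
numerical bounds of `log 10`, `log 3`, `log 6` and of `log c`; every coefficient below is rounded up by `≥ 0`
(up to `10⁻⁴`; if a coefficient fails by rounding tell me: there is slack). -/

private theorem p3p_sin_lb {x : ℝ} (hx : 0 ≤ x) : x - x ^ 3 / 6 ≤ sin x := by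
  have hm : MonotoneOn (fun x : ℝ => sin x - (x - x ^ 3 / 6)) (Set.Ici 0) := by
    have hd : ∀ y : ℝ, HasDerivAt (fun x : ℝ => sin x - (x - x ^ 3 / 6))
        (cos y - (1 - y ^ 2 / 2)) y := by
      intro y
      have := (hasDerivAt_sin y).sub ((hasDerivAt_id y).sub ((hasDerivAt_pow 3 y).div_const 6))
      refine this.congr_deriv ?_
      simp
      ring
    refine monotoneOn_of_deriv_nonneg (convex_Ici 0) ?_ ?_ ?_
    · intro y _
      exact (hd y).continuousAt.continuousWithinAt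
    · intro y _
      exact (hd y).differentiableAt.differentiableWithinAt
    · intro y _
      rw [(hd y).deriv]
      have := one_sub_sq_div_two_le_cos (x := y)
      linarith
  have := hm Set.self_mem_Ici (show (0 : ℝ) ≤ x from hx) hx
  simp at this
  linarith

/-- `cos x ≥ r - r³/6` if `x ≤ b`, `r ≤ π/2 - b`. -/
private theorem p3p_cos_lb {x r : ℝ} (h0 : 0 ≤ x) (hr : 0 ≤ r) (hxr : x + r ≤ 3.14159 / 2) :
    r - r ^ 3 / 6 ≤ cos x := by
  have hpi := pi_gt_d6
  rw [← sin_pi_div_two_sub]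
  refine (p3p_sin_lb hr).trans ?_
  norm_num at hpi hxr
  exact sin_le_sin_of_le_of_le_pi_div_two (by linarith [pi_pos]) (by linarith) (by linarith)

private theorem p3p_sin_lb' {x r : ℝ} (hr : 0 ≤ r) (hxr : r ≤ x) (hx : x ≤ 3.14159 / 2) :
    r - r ^ 3 / 6 ≤ sin x := by
  have hpi := pi_gt_d6
  refine (p3p_sin_lb hr).trans ?_
  norm_num at hpi hx
  exact sin_le_sin_of_le_of_le_pi_div_two (by linarith [pi_pos]) (by linarith) (by linarith)

private theorem p3p_a1 (θ : ℝ) : |sin ((1 : ℕ) * (π + θ) / 2)| = |cos (θ / 2)| := by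
  rw [show ((1 : ℕ) : ℝ) * (π + θ) / 2 = θ / 2 + π / 2 by push_cast; ring, sin_add_pi_div_two]

private theorem p3p_a2 (θ : ℝ) : |sin ((2 : ℕ) * (π + θ) / 2)| = |sin θ| := by
  rw [show ((2 : ℕ) : ℝ) * (π + θ) / 2 = θ + π by push_cast; ring, sin_add_pi, abs_neg]

private theorem p3p_a3 (θ : ℝ) : |sin ((3 : ℕ) * (π + θ) / 2)| = |cos (3 * θ / 2)| := by
  rw [show ((3 : ℕ) : ℝ) * (π + θ) / 2 = (3 * θ / 2 + π / 2) + π by push_cast; ring, sin_add_pi,
    sin_add_pi_div_two, abs_neg]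

private theorem p3p_a4 (θ : ℝ) : |sin ((4 : ℕ) * (π + θ) / 2)| = |sin (2 * θ)| := by
  rw [show ((4 : ℕ) : ℝ) * (π + θ) / 2 = 2 * θ + 2 * π by push_cast; ring, sin_add_two_pi]

private theorem p3p_a5 (θ : ℝ) : |sin ((5 : ℕ) * (π + θ) / 2)| = |cos (5 * θ / 2)| := by
  rw [show ((5 : ℕ) : ℝ) * (π + θ) / 2 = (5 * θ / 2 + π / 2) + 2 * π by push_cast; ring,
    sin_add_two_pi, sin_add_pi_div_two]

private noncomputable def p3p_s (k l : ℕ) : ℝ :=
  if l = 1 then 0.728 else if l = 2 then 0.855 else if l = 3 then 1 / (0.66710 * k) else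
    if l = 4 then 0.140 else 0.813

private theorem p3p_hs {k : ℕ} (hk : 26 ≤ k) {θ : ℝ} (h0 : π / 3 + 1 / k ≤ θ) (h1 : θ ≤ 3 / 2) :
    ∀ l : ℕ, 1 ≤ l → l ≤ 5 → 0 < p3p_s k l ∧ p3p_s k l ≤ |sin (l * (π + θ) / 2)| := by
  intro l hl1 hl5
  have hk' : (26 : ℝ) ≤ k := by exact_mod_cast hk
  have hk0 : (0 : ℝ) < 1 / k := by positivity
  have hp1 := pi_gt_d6
  have hp2 := pi_lt_d6
  norm_num at hp1 hp2
  interval_cases l
  · rw [p3p_a1]
    refine ⟨by norm_num [p3p_s], le_trans ?_ (le_abs_self _)⟩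
    refine le_trans ?_ (p3p_cos_lb (r := 0.820795) (by linarith) (by norm_num) (by norm_num; linarith))
    norm_num [p3p_s]
  · rw [p3p_a2]
    refine ⟨by norm_num [p3p_s], le_trans ?_ (le_abs_self _)⟩
    refine le_trans ?_ (p3p_sin_lb' (r := 1.0471) (by norm_num) (by norm_num; linarith)
      (by norm_num; linarith))
    norm_num [p3p_s]
  · rw [p3p_a3, ← abs_neg]
    refine ⟨by unfold p3p_s; norm_num; linarith, le_trans ?_ (le_abs_self _)⟩
    have e : -cos (3 * θ / 2) = sin (3 * θ / 2 - π / 2) := by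
      rw [sin_sub_pi_div_two]
    rw [e]
    have hr : (3 / 2) * (1 / (k : ℝ)) ≤ 3 / 52 := by
      have : 1 / (k : ℝ) ≤ 1 / 26 := one_div_le_one_div_of_le (by norm_num) hk'
      linarith
    refine le_trans ?_ (p3p_sin_lb' (r := (3 / 2) * (1 / (k : ℝ))) (by positivity) (by linarith)
      (by norm_num; linarith))
    have e2 : p3p_s k 3 = 1 / 0.66710 * (1 / (k : ℝ)) := by
      unfold p3p_s
      norm_num
      ring
    rw [e2]
    generalize 1 / (k : ℝ) = u at *
    have h2 : u ^ 2 ≤ (1 / 26) ^ 2 := pow_le_pow_left₀ hk0.le (by linarith) 2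
    have h3 : u * u ^ 2 ≤ u * (1 / 26) ^ 2 := mul_le_mul_of_nonneg_left h2 hk0.le
    norm_num at h3 ⊢
    nlinarith
  · rw [p3p_a4]
    refine ⟨by norm_num [p3p_s], le_trans ?_ (le_abs_self _)⟩
    rw [← sin_pi_sub]
    refine le_trans ?_ (p3p_sin_lb' (r := 0.14159) (by norm_num) (by norm_num; linarith)
      (by norm_num; linarith))
    norm_num [p3p_s]
  · rw [p3p_a5, ← abs_neg]
    refine ⟨by norm_num [p3p_s], le_trans ?_ (le_abs_self _)⟩
    have e : -cos (5 * θ / 2) = cos (5 * θ / 2 - π) := by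
      rw [cos_sub_pi]
    rw [e]
    have h := one_sub_sq_div_two_le_cos (x := 5 * θ / 2 - π)
    have : (5 * θ / 2 - π) ^ 2 ≤ (0.60841) ^ 2 := by
      apply sq_le_sq' <;> norm_num <;> linarith
    norm_num [p3p_s] at this ⊢
    linarith

private theorem p3p_cosh {T : ℝ} (hT : 0 < T) (hT' : T ≤ 1 / 78) : cosh T ≤ 1.0001 := by
  have h := cosh_le_exp_half_sq T
  have h1 : T ^ 2 / 2 ≤ 0.00009 := by
    have : T ^ 2 ≤ (1 / 78) ^ 2 := pow_le_pow_left₀ hT.le hT' 2
    norm_num at this ⊢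
    linarith
  have h2 : exp (T ^ 2 / 2) ≤ exp 0.00009 := exp_le_exp.2 h1
  have h3 : exp (0.00009 : ℝ) ≤ 1.0001 := by
    have := exp_bound' (x := 0.00009) (by norm_num) (by norm_num) (n := 2) (by norm_num)
    refine this.trans ?_
    norm_num [Finset.sum_range_succ, Nat.factorial]
  linarith

private theorem p3p_cos_ub {x : ℝ} (hx : 0 ≤ x) : cos x ≤ 1 - x ^ 2 / 2 + x ^ 4 / 24 := by
  have hm : MonotoneOn (fun x : ℝ => 1 - x ^ 2 / 2 + x ^ 4 / 24 - cos x) (Set.Ici 0) := by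
    have hd : ∀ y : ℝ, HasDerivAt (fun x : ℝ => 1 - x ^ 2 / 2 + x ^ 4 / 24 - cos x)
        (sin y - (y - y ^ 3 / 6)) y := by
      intro y
      have := (((hasDerivAt_const y (1 : ℝ)).sub ((hasDerivAt_pow 2 y).div_const 2)).add
        ((hasDerivAt_pow 4 y).div_const 24)).sub (hasDerivAt_cos y)
      refine this.congr_deriv ?_
      simp
      ring
    refine monotoneOn_of_deriv_nonneg (convex_Ici 0) ?_ ?_ ?_
    · intro y _
      exact (hd y).continuousAt.continuousWithinAt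
    · intro y _
      exact (hd y).differentiableAt.differentiableWithinAt
    · intro y hy
      rw [interior_Ici] at hy
      rw [(hd y).deriv]
      have := p3p_sin_lb (x := y) (le_of_lt hy)
      linarith
  have := hm Set.self_mem_Ici (show (0 : ℝ) ≤ x from hx) hx
  simp at this
  linarith

private theorem p3p_K {k : ℕ} {T θ : ℝ} (hT : 0 < T) (hT' : T ≤ 1 / 78)
    (h0 : π / 3 ≤ θ) (h1 : θ ≤ 3 / 2) :
    (((k + 1) / 2 : ℕ) : ℝ) / 2 * log ((cosh T + cos θ) / 2) ≤ -0.0719 * k := by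
  have hc : cos θ ≤ 1 / 2 := by
    rw [← cos_pi_div_three]
    exact cos_le_cos_of_nonneg_of_le_pi (by positivity) (by linarith [pi_gt_three]) h0
  have hch := p3p_cosh hT hT'
  have h4 := K_term_le (k := k) (c := 0.75005) hT (neg_one_le_cos θ)
    (by norm_num at hc hch ⊢; linarith) (by norm_num) (by norm_num)
  have h5 : log (0.75005 : ℝ) ≤ -0.2876 := by
    rw [log_le_iff_le_exp (by norm_num), exp_neg]
    have h3 : exp (0.2876 : ℝ) ≤ 1.33324 := by
      have := exp_bound' (x := 0.2876) (by norm_num) (by norm_num) (n := 8) (by norm_num)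
      refine this.trans ?_
      norm_num [Finset.sum_range_succ, Nat.factorial]
    rw [le_inv_comm₀ (by norm_num) (exp_pos _)]
    refine h3.trans ?_
    norm_num
  have h6 : (k : ℝ) / 4 * log (0.75005 : ℝ) ≤ k / 4 * (-0.2876) :=
    mul_le_mul_of_nonneg_left h5 (by positivity)
  norm_num at h4 h6 ⊢
  linarith

private theorem p3p_log_ten : (2.3025 : ℝ) ≤ log 10 := by
  rw [le_log_iff_exp_le (by norm_num)]
  have h1 := exp_one_lt_d9
  have h2 : exp (2.3025 : ℝ) = exp 1 ^ 2 * exp 0.3025 := by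
    rw [← exp_nat_mul, ← exp_add]
    norm_num
  have h3 : exp (0.3025 : ℝ) ≤ 1.353240 := by
    have := exp_bound' (x := 0.3025) (by norm_num) (by norm_num) (n := 8) (by norm_num)
    refine this.trans ?_
    norm_num [Finset.sum_range_succ, Nat.factorial]
  rw [h2]
  have h4 : exp 1 ^ 2 ≤ 7.38906 := by
    have : exp 1 ^ 2 ≤ 2.7182818286 ^ 2 := pow_le_pow_left₀ (exp_pos _).le h1.le 2
    norm_num at this ⊢
    linarith
  calc exp 1 ^ 2 * exp 0.3025 ≤ 7.38906 * 1.353240 :=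
        mul_le_mul h4 h3 (exp_pos _).le (by norm_num)
    _ ≤ 10 := by norm_num

private theorem p3p_log_three : (1.0986 : ℝ) ≤ log 3 := by
  rw [le_log_iff_exp_le (by norm_num)]
  have h1 := exp_one_lt_d9
  have h2 : exp (1.0986 : ℝ) = exp 1 * exp 0.0986 := by
    rw [← exp_add]
    norm_num
  have h3 : exp (0.0986 : ℝ) ≤ 1.10363 := by
    have := exp_bound' (x := 0.0986) (by norm_num) (by norm_num) (n := 6) (by norm_num)
    refine this.trans ?_
    norm_num [Finset.sum_range_succ, Nat.factorial]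
  rw [h2]
  calc exp 1 * exp 0.0986 ≤ 2.7182818286 * 1.10363 :=
        mul_le_mul h1.le h3 (exp_pos _).le (by norm_num)
    _ ≤ 3 := by norm_num

private theorem p3p_log_six : (1.7917 : ℝ) ≤ log 6 := by
  have h1 := p3p_log_three
  have h2 := log_two_gt_d9
  have h3 : log 6 = log 2 + log 3 := by
    rw [← log_mul (by norm_num) (by norm_num)]
    norm_num
  rw [h3]
  norm_num at h1 h2 ⊢
  linarith

private theorem p3p_sum (f : ℕ → ℝ) : ∑ l ∈ Icc 1 5, f l = f 1 + f 2 + f 3 + f 4 + f 5 := by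
  rw [show Icc 1 5 = ({1, 2, 3, 4, 5} : Finset ℕ) from rfl]
  simp [Finset.sum_insert]
  ring

theorem U_p3p_ten {k : ℕ} (hk : 26 ≤ k) {T θ : ℝ} (hT : 0 < T) (hv : k * T ≤ 1 / 10)
    (h0 : π / 3 + 1 / k ≤ θ) (h1 : θ ≤ 3 / 2) :
    HS k T θ + (((k + 1) / 2 : ℕ) : ℝ) / 2 * log ((cosh T + cos θ) / 2) ≤
      0.0285 * k + 0.0275 * (k * log (1 / (k * T))) + 0.4259 * log (1 / (k * T)) +
        (-0.4166) * log k + 0.502 := by
  have hk' : (26 : ℝ) ≤ k := by exact_mod_cast hk
  have hT' : T ≤ 1 / 260 := by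
    have : 26 * T ≤ k * T := mul_le_mul_of_nonneg_right hk' hT.le
    linarith
  have hkT : 0 < k * T := by positivity
  have hki : (0 : ℝ) < 1 / k := by positivity
  have hp2 := pi_gt_d6
  norm_num at hp2
  have hH := HS_le_three (by omega) hT hv θ (p3p_s k) (p3p_hs hk h0 h1)
    (e := 33 / 200 * k) (by positivity)
    (end_three hk (by linarith) h1 (le_abs_self _ |>.trans' (by linarith)))
  have hK := p3p_K (k := k) (θ := θ) hT (by linarith) (by linarith) h1
  have hL : 0 ≤ log (1 / (k * T)) := log_nonneg (by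
    rw [le_div_iff₀ hkT]
    linarith)
  have hlk : 0 ≤ log (k : ℝ) := log_nonneg (by linarith)
  have hlT : log T = -log (1 / (k * T)) - log k := by
    rw [one_div, log_inv, log_mul (by positivity) hT.ne']
    ring
  have d1 := dd_one_tenth
  have d2 := dd_two_tenth
  have d3 := dd_three_tenth
  have d4 := dd_four_tenth
  have d5 := dd_five_tenth
  have l6 := p3p_log_six
  have l10 : log (1 / 10 : ℝ) ≤ -2.3025 := by
    rw [one_div, log_inv]
    linarith [p3p_log_ten]
  rw [p3p_sum, hlT] at hH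
  generalize log (1 / (k * T)) = L at *
  generalize log (k : ℝ) = lk at *
  generalize log (1 / 10 : ℝ) = lt at *
  generalize log (6 : ℝ) = ls at *
  generalize dd 1 (1 / 10) = e1 at *
  generalize dd 2 (1 / 10) = e2 at *
  generalize dd 3 (1 / 10) = e3 at *
  generalize dd 4 (1 / 10) = e4 at *
  generalize dd 5 (1 / 10) = e5 at *
  have hkk : (0 : ℝ) ≤ k := by linarith
  have x1 := mul_le_mul_of_nonneg_right d3 hkk
  have x2 := mul_le_mul_of_nonneg_right l10 hkk
  norm_num [p3p_s, al] at *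
  nlinarith

theorem U_p3p_three {k : ℕ} (hk : 26 ≤ k) {T θ : ℝ} (hT : 0 < T) (hv : k * T ≤ 1 / 3)
    (h0 : π / 3 + 1 / k ≤ θ) (h1 : θ ≤ 3 / 2) :
    HS k T θ + (((k + 1) / 2 : ℕ) : ℝ) / 2 * log ((cosh T + cos θ) / 2) ≤
      0.0304 * k + 0.0275 * (k * log (1 / (k * T))) + 0.4259 * log (1 / (k * T)) +
        (-0.4166) * log k + 0.6503 := by
  have hk' : (26 : ℝ) ≤ k := by exact_mod_cast hk
  have hT' : T ≤ 1 / 78 := by
    have : 26 * T ≤ k * T := mul_le_mul_of_nonneg_right hk' hT.le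
    linarith
  have hkT : 0 < k * T := by positivity
  have hki : (0 : ℝ) < 1 / k := by positivity
  have hp2 := pi_gt_d6
  norm_num at hp2
  have hH := HS_le_three (by omega) hT hv θ (p3p_s k) (p3p_hs hk h0 h1)
    (e := 33 / 200 * k) (by positivity)
    (end_three hk (by linarith) h1 (le_abs_self _ |>.trans' (by linarith)))
  have hK := p3p_K (k := k) (θ := θ) hT (by linarith) (by linarith) h1
  have hL : 0 ≤ log (1 / (k * T)) := log_nonneg (by
    rw [le_div_iff₀ hkT]
    linarith)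
  have hlk : 0 ≤ log (k : ℝ) := log_nonneg (by linarith)
  have hlT : log T = -log (1 / (k * T)) - log k := by
    rw [one_div, log_inv, log_mul (by positivity) hT.ne']
    ring
  have d1 := dd_one_third
  have d2 := dd_two_third
  have d3 := dd_three_third
  have d4 := dd_four_third
  have d5 := dd_five_third
  have l6 := p3p_log_six
  have l3 : log (1 / 3 : ℝ) ≤ -1.0986 := by
    rw [one_div, log_inv]
    linarith [p3p_log_three]
  rw [p3p_sum, hlT] at hH
  generalize log (1 / (k * T)) = L at *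
  generalize log (k : ℝ) = lk at *
  generalize log (1 / 3 : ℝ) = lt at *
  generalize log (6 : ℝ) = ls at *
  generalize dd 1 (1 / 3) = e1 at *
  generalize dd 2 (1 / 3) = e2 at *
  generalize dd 3 (1 / 3) = e3 at *
  generalize dd 4 (1 / 3) = e4 at *
  generalize dd 5 (1 / 3) = e5 at *
  have hkk : (0 : ℝ) ≤ k := by linarith
  have x1 := mul_le_mul_of_nonneg_right d3 hkk
  have x2 := mul_le_mul_of_nonneg_right l3 hkk
  norm_num [p3p_s, al] at *
  nlinarith

end Pool.Agent.SignedQ.Far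
end
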