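import Mathlib

section

/-!
S1 part F, file F1: cosine sums with the weights `sech (b s) ^ p` (positive definiteness of the
Cauchy kernel) and their finite versions.
-/

namespace MPcf17a0.S1F

open Finset MeasureTheory

/-- `∫ τ^(p-1) e^{-rτ} = (p-1)!/r^p`. -/
lemma F1_int (p : ℕ) (hp : 1 ≤ p) (r : ℝ) (hr : 0 < r) :
    ∫ τ in Set.Ioi (0:ℝ), τ ^ (p - 1) * Real.exp (-(r * τ)) = ((p - 1).factorial : ℝ) / r ^ p := by
  have h := Real.integral_rpow_mul_exp_neg_mul_Ioi (a := (p:ℝ)) (r := r)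
    (by exact_mod_cast hp) hr
  obtain ⟨m, rfl⟩ : ∃ m, p = m + 1 := ⟨p - 1, by omega⟩
  simp only [Nat.add_sub_cancel]
  have h2 : ((m + 1 : ℕ) : ℝ) - 1 = (m : ℝ) := by push_cast; ring
  rw [h2] at h
  have h3 : Real.Gamma ((m + 1 : ℕ) : ℝ) = (m.factorial : ℝ) := by
    push_cast
    exact Real.Gamma_nat_eq_factorial m
  rw [h3] at h
  have h4 : ∀ τ : ℝ, τ ^ ((m : ℕ) : ℝ) = τ ^ m := fun τ => Real.rpow_natCast τ m
  simp only [h4] at h
  rw [h, Real.rpow_natCast, one_div, inv_pow]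
  field_simp

lemma F1_intble (p : ℕ) (hp : 1 ≤ p) (r : ℝ) (hr : 0 < r) :
    IntegrableOn (fun τ : ℝ => τ ^ (p - 1) * Real.exp (-(r * τ))) (Set.Ioi 0) := by
  by_contra h
  have h1 := integral_undef h
  rw [F1_int p hp r hr] at h1
  have : (0:ℝ) < ((p - 1).factorial : ℝ) / r ^ p := by positivity
  linarith

/-- positive definiteness of `sech(s (i-j))^p cos((i-j) ψ)`. -/
theorem F1_psd (s ψ : ℝ) (p M : ℕ) (hp : 1 ≤ p) :
    0 ≤ ∑ i ∈ range M, ∑ j ∈ range M,
      (Real.cosh (((i:ℝ) - j) * s))⁻¹ ^ p * Real.cos (((i:ℝ) - j) * ψ) := by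
  set x : ℕ → ℝ := fun i => Real.exp (i * s) with hx
  have hxpos : ∀ i, 0 < x i := fun i => Real.exp_pos _
  have hkey : ∀ i j : ℕ, (Real.cosh (((i:ℝ) - j) * s))⁻¹ = 2 * x i * x j / (x i ^ 2 + x j ^ 2) := by
    intro i j
    rw [Real.cosh_eq]
    have e1 : Real.exp (((i:ℝ) - j) * s) = x i / x j := by
      simp only [hx]; rw [← Real.exp_sub]; ring_nf
    have e2 : Real.exp (-(((i:ℝ) - j) * s)) = x j / x i := by
      simp only [hx]; rw [← Real.exp_sub]; ring_nf
    rw [e1, e2]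
    have := hxpos i; have := hxpos j
    field_simp
  have hterm : ∀ i j : ℕ, (Real.cosh (((i:ℝ) - j) * s))⁻¹ ^ p * Real.cos (((i:ℝ) - j) * ψ)
      = (2 ^ p / ((p - 1).factorial : ℝ)) * ∫ τ in Set.Ioi (0:ℝ),
        (x i ^ p * x j ^ p * Real.cos (((i:ℝ) - j) * ψ)) *
          (τ ^ (p - 1) * Real.exp (-((x i ^ 2 + x j ^ 2) * τ))) := by
    intro i j
    have hi := hxpos i; have hj := hxpos j
    rw [integral_const_mul, F1_int p hp _ (by positivity), hkey, div_pow, mul_pow, mul_pow]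
    have hf : ((p - 1).factorial : ℝ) ≠ 0 := by positivity
    field_simp
  have hsum : ∑ i ∈ range M, ∑ j ∈ range M,
      (Real.cosh (((i:ℝ) - j) * s))⁻¹ ^ p * Real.cos (((i:ℝ) - j) * ψ)
      = (2 ^ p / ((p - 1).factorial : ℝ)) * ∫ τ in Set.Ioi (0:ℝ),
        ∑ i ∈ range M, ∑ j ∈ range M, (x i ^ p * x j ^ p * Real.cos (((i:ℝ) - j) * ψ)) *
          (τ ^ (p - 1) * Real.exp (-((x i ^ 2 + x j ^ 2) * τ))) := by
    have hint : ∀ i j : ℕ, IntegrableOn (fun τ : ℝ =>
        (x i ^ p * x j ^ p * Real.cos (((i:ℝ) - j) * ψ)) *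
          (τ ^ (p - 1) * Real.exp (-((x i ^ 2 + x j ^ 2) * τ)))) (Set.Ioi 0) := by
      intro i j
      have hi := hxpos i; have hj := hxpos j
      exact (F1_intble p hp _ (by positivity)).const_mul _
    rw [integral_finsetSum _ (fun i _ => integrable_finsetSum _ (fun j _ => hint i j)),
      mul_sum]
    refine sum_congr rfl fun i _ => ?_
    rw [integral_finsetSum _ (fun j _ => hint i j), mul_sum]
    exact sum_congr rfl fun j _ => hterm i j
  rw [hsum]
  refine mul_nonneg (by positivity) (setIntegral_nonneg measurableSet_Ioi fun τ hτ => ?_)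
  have hτ0 : (0:ℝ) < τ := hτ
  have hsq : ∑ i ∈ range M, ∑ j ∈ range M, (x i ^ p * x j ^ p * Real.cos (((i:ℝ) - j) * ψ)) *
          (τ ^ (p - 1) * Real.exp (-((x i ^ 2 + x j ^ 2) * τ)))
      = τ ^ (p - 1) * ((∑ i ∈ range M, x i ^ p * Real.exp (-(x i ^ 2 * τ)) * Real.cos (i * ψ)) ^ 2
        + (∑ i ∈ range M, x i ^ p * Real.exp (-(x i ^ 2 * τ)) * Real.sin (i * ψ)) ^ 2) := by
    rw [sq, sq, sum_mul_sum, sum_mul_sum, ← sum_add_distrib, mul_sum]
    refine sum_congr rfl fun i _ => ?_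
    rw [← sum_add_distrib, mul_sum]
    refine sum_congr rfl fun j _ => ?_
    have e1 : Real.exp (-((x i ^ 2 + x j ^ 2) * τ))
        = Real.exp (-(x i ^ 2 * τ)) * Real.exp (-(x j ^ 2 * τ)) := by
      rw [← Real.exp_add]; ring_nf
    have e2 : Real.cos (((i:ℝ) - j) * ψ)
        = Real.cos (i * ψ) * Real.cos (j * ψ) + Real.sin (i * ψ) * Real.sin (j * ψ) := by
      rw [sub_mul, Real.cos_sub]
    rw [e1, e2]; ring
  rw [hsq]
  positivity

/-- `c s p b = sech (b s)^p`. -/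
noncomputable def y (s : ℝ) (b : ℕ) : ℝ := (Real.cosh (b * s))⁻¹

lemma y_pos (s : ℝ) (b : ℕ) : 0 < y s b := inv_pos.mpr (Real.cosh_pos _)

lemma y_le_one (s : ℝ) (b : ℕ) : y s b ≤ 1 := inv_le_one_of_one_le₀ (Real.one_le_cosh _)

lemma y_zero (s : ℝ) : y s 0 = 1 := by simp [y]

/-- finite cosine sum -/
noncomputable def G (s ψ : ℝ) (p : ℕ) (m : ℕ) : ℝ := ∑ b ∈ Icc 1 m, y s b ^ p * Real.cos (b * ψ)

lemma G_succ (s ψ : ℝ) (p m : ℕ) :
    G s ψ p (m + 1) = G s ψ p m + y s (m + 1) ^ p * Real.cos ((m + 1 : ℕ) * ψ) := by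
  unfold G
  rw [sum_Icc_succ_top (by omega)]

lemma G_reflect (s ψ : ℝ) (p M : ℕ) :
    ∑ i ∈ range M, (Real.cosh (((i:ℝ) - M) * s))⁻¹ ^ p * Real.cos (((i:ℝ) - M) * ψ)
      = G s ψ p M := by
  unfold G
  have h1 : ∀ i ∈ range M, (Real.cosh (((i:ℝ) - M) * s))⁻¹ ^ p * Real.cos (((i:ℝ) - M) * ψ)
      = (fun b : ℕ => y s (b + 1) ^ p * Real.cos ((b + 1 : ℕ) * ψ)) (M - 1 - i) := by
    intro i hi
    have hi' : i < M := mem_range.mp hi
    have e : ((M - 1 - i + 1 : ℕ) : ℝ) = (M:ℝ) - i := by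
      have : M - 1 - i + 1 = M - i := by omega
      rw [this, Nat.cast_sub hi'.le]
    simp only [y]
    rw [e]
    have e1 : ((i:ℝ) - M) * s = -(((M:ℝ) - i) * s) := by ring
    have e2 : ((i:ℝ) - M) * ψ = -(((M:ℝ) - i) * ψ) := by ring
    rw [e1, e2, Real.cosh_neg, Real.cos_neg]
  rw [sum_congr rfl h1, sum_range_reflect (fun b : ℕ => y s (b + 1) ^ p * Real.cos ((b + 1 : ℕ) * ψ)) M]
  rw [range_eq_Ico, sum_Ico_add' (fun b : ℕ => y s b ^ p * Real.cos (b * ψ)) 0 M 1]
  congr 1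

lemma F1_double (s ψ : ℝ) (p M : ℕ) :
    ∑ i ∈ range M, ∑ j ∈ range M,
      (Real.cosh (((i:ℝ) - j) * s))⁻¹ ^ p * Real.cos (((i:ℝ) - j) * ψ)
    = M + 2 * ∑ m ∈ range M, G s ψ p m := by
  induction M with
  | zero => simp
  | succ M ih =>
    rw [sum_range_succ]
    have h1 : ∀ i ∈ range M, ∑ j ∈ range (M + 1),
        (Real.cosh (((i:ℝ) - j) * s))⁻¹ ^ p * Real.cos (((i:ℝ) - j) * ψ)
        = ∑ j ∈ range M, (Real.cosh (((i:ℝ) - j) * s))⁻¹ ^ p * Real.cos (((i:ℝ) - j) * ψ)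
          + (Real.cosh (((i:ℝ) - M) * s))⁻¹ ^ p * Real.cos (((i:ℝ) - M) * ψ) := fun i _ => by
      rw [sum_range_succ]
    rw [sum_congr rfl h1, sum_add_distrib, ih, G_reflect, sum_range_succ]
    have h2 : ∑ j ∈ range M, (Real.cosh (((M:ℝ) - j) * s))⁻¹ ^ p * Real.cos (((M:ℝ) - j) * ψ)
        = G s ψ p M := by
      rw [← G_reflect]
      refine sum_congr rfl fun j _ => ?_
      have e1 : ((M:ℝ) - j) * s = -(((j:ℝ) - M) * s) := by ring
      have e2 : ((M:ℝ) - j) * ψ = -(((j:ℝ) - M) * ψ) := by ring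
      rw [e1, e2, Real.cosh_neg, Real.cos_neg]
    rw [h2, sum_range_succ (fun m => G s ψ p m)]
    simp
    ring

/-- Cesaro conclusion: if `G m ≤ A` for all `m ≥ N` then `-1/2 ≤ A`. -/
lemma F1_cesaro (g : ℕ → ℝ) (A : ℝ) (N : ℕ)
    (h0 : ∀ M : ℕ, 0 ≤ (M:ℝ) + 2 * ∑ m ∈ range M, g m)
    (hA : ∀ m, N ≤ m → g m ≤ A) : -(1/2) ≤ A := by
  by_contra hcon
  push Not at hcon
  set d : ℝ := -(1/2) - A with hd
  have hdpos : 0 < d := by rw [hd]; linarith
  set C : ℝ := ∑ m ∈ range N, (g m - A) with hC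
  obtain ⟨M, hM⟩ := exists_nat_gt (C / d)
  have h1 := h0 (N + M)
  have h2 : ∑ m ∈ range (N + M), g m ≤ (N + M : ℕ) * A + C := by
    have : ∑ m ∈ range (N + M), (g m - A) ≤ C := by
      rw [sum_range_add, hC]
      have : ∑ m ∈ range M, (g (N + m) - A) ≤ 0 :=
        sum_nonpos fun m _ => by linarith [hA (N + m) (by omega)]
      linarith
    rw [sum_sub_distrib, sum_const, card_range, nsmul_eq_mul] at this
    linarith
  have h3 : C < M * d := by rwa [div_lt_iff₀ hdpos] at hM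
  push_cast at h1 h2
  have h4 : (0:ℝ) ≤ N := Nat.cast_nonneg N
  nlinarith [mul_nonneg h4 hdpos.le]

lemma F1_G_ces (s ψ : ℝ) (p : ℕ) (hp : 1 ≤ p) (M : ℕ) :
    0 ≤ (M:ℝ) + 2 * ∑ m ∈ range M, G s ψ p m := by
  rw [← F1_double]; exact F1_psd s ψ p M hp

lemma y_anti (s : ℝ) (hs : 0 < s) {b c : ℕ} (h : b ≤ c) : y s c ≤ y s b := by
  unfold y
  apply inv_anti₀ (Real.cosh_pos _)
  rw [Real.cosh_le_cosh]
  have hb : (0:ℝ) ≤ b * s := by positivity
  have hc : (0:ℝ) ≤ c * s := by positivity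
  rw [abs_of_nonneg hb, abs_of_nonneg hc]
  exact mul_le_mul_of_nonneg_right (by exact_mod_cast h) hs.le

lemma y_le_exp (s : ℝ) (b : ℕ) : y s b ≤ 2 * Real.exp (-(b * s)) := by
  unfold y
  rw [Real.cosh_eq, inv_div]
  rw [div_le_iff₀ (by positivity)]
  have : Real.exp (-(b * s)) * Real.exp (b * s) = 1 := by rw [← Real.exp_add]; simp
  nlinarith [Real.exp_pos (-(b * s)), Real.exp_pos (b*s), sq_nonneg (Real.exp (-(b * s)))]

/-- Tail sums of `y^p`. -/
lemma F1_tail (s : ℝ) (hs : 0 < s) (p : ℕ) (hp : 1 ≤ p) (N m : ℕ) (hNm : N ≤ m) :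
    ∑ b ∈ Ioc N m, y s b ^ p ≤ 2 ^ p / (p * s) * (Real.exp (-(p * (N * s))) - Real.exp (-(p * (m * s)))) := by
  induction m, hNm using Nat.le_induction with
  | base => simp
  | succ m hm ih =>
    rw [sum_Ioc_succ_top hm, add_comm]
    have hp0 : (0:ℝ) < p := by exact_mod_cast hp
    have h1 : y s (m + 1) ^ p ≤ 2 ^ p * Real.exp (-(p * ((m + 1 : ℕ) * s))) := by
      calc y s (m + 1) ^ p ≤ (2 * Real.exp (-((m + 1 : ℕ) * s))) ^ p :=
            pow_le_pow_left₀ (y_pos s _).le (y_le_exp s (m + 1)) p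
        _ = 2 ^ p * Real.exp (-(p * ((m + 1 : ℕ) * s))) := by
            rw [mul_pow, ← Real.exp_nat_mul]; ring_nf
    have h2 : p * s * Real.exp (-(p * ((m + 1 : ℕ) * s)))
        ≤ Real.exp (-(p * (m * s))) - Real.exp (-(p * ((m + 1 : ℕ) * s))) := by
      have e : Real.exp (-(p * (m * s))) = Real.exp (-(p * ((m + 1 : ℕ) * s))) * Real.exp (p * s) := by
        rw [← Real.exp_add]; push_cast; ring_nf
      rw [e]
      have := Real.add_one_le_exp (p * s)
      nlinarith [Real.exp_pos (-(p * ((m + 1 : ℕ) * s)))]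
    have h3 : 2 ^ p * Real.exp (-(p * ((m + 1 : ℕ) * s)))
        ≤ 2 ^ p / (p * s) * (Real.exp (-(p * (m * s))) - Real.exp (-(p * ((m + 1 : ℕ) * s)))) := by
      rw [div_mul_eq_mul_div, le_div_iff₀ (by positivity)]
      have : (0:ℝ) < 2 ^ p := by positivity
      nlinarith
    calc y s (m + 1) ^ p + ∑ b ∈ Ioc N m, y s b ^ p
        ≤ 2 ^ p / (p * s) * (Real.exp (-(p * (m * s))) - Real.exp (-(p * ((m + 1 : ℕ) * s))))
          + 2 ^ p / (p * s) * (Real.exp (-(p * (N * s))) - Real.exp (-(p * (m * s)))) :=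
          add_le_add (h1.trans h3) ih
      _ = _ := by ring

lemma G_sub (s ψ : ℝ) (p N m : ℕ) (h : N ≤ m) :
    G s ψ p m = G s ψ p N + ∑ b ∈ Ioc N m, y s b ^ p * Real.cos (b * ψ) := by
  induction m, h using Nat.le_induction with
  | base => simp
  | succ m hm ih => rw [G_succ, ih, sum_Ioc_succ_top hm]; push_cast; ring

/-- lower bound of the finite cosine sums, crude tail. -/
theorem G_lower (s ψ : ℝ) (hs : 0 < s) (p : ℕ) (hp : 1 ≤ p) (N : ℕ) :
    -(1/2) - 2 ^ p / (p * s) * Real.exp (-(p * (N * s))) ≤ G s ψ p N := by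
  have h := F1_cesaro (G s ψ p) (G s ψ p N + 2 ^ p / (p * s) * Real.exp (-(p * (N * s)))) N
    (F1_G_ces s ψ p hp) (fun m hm => by
      rw [G_sub s ψ p N m hm]
      have h1 : ∑ b ∈ Ioc N m, y s b ^ p * Real.cos (b * ψ) ≤ ∑ b ∈ Ioc N m, y s b ^ p :=
        sum_le_sum fun b _ => by
          have := Real.cos_le_one (b * ψ)
          have h2 : 0 < y s b ^ p := pow_pos (y_pos s b) p
          nlinarith
      have h2 := F1_tail s hs p hp N m hm
      have hp0 : (0:ℝ) < p := by exact_mod_cast hp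
      have h3 : 0 ≤ 2 ^ p / (p * s) * Real.exp (-(p * (m * s))) := by positivity
      linarith)
  linarith

/-- Abel bound for the tails. -/
lemma F1_abel (s ψ : ℝ) (hs : 0 < s) (hψ : Real.sin (ψ / 2) ≠ 0) (N m : ℕ) (hNm : N ≤ m) :
    ∑ b ∈ Ioc N m, y s b ^ 1 * Real.cos (b * ψ) ≤ y s (N + 1) / |Real.sin (ψ / 2)| := by
  set e : ℝ := 1 / (2 * |Real.sin (ψ / 2)|) with he
  have hab : 0 < |Real.sin (ψ / 2)| := abs_pos.mpr hψ
  have hepos : 0 < e := by positivity
  set E : ℕ → ℝ := fun b => Real.sin ((b + 1 / 2) * ψ) / (2 * Real.sin (ψ / 2)) with hE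
  have hEle : ∀ b, |E b| ≤ e := by
    intro b
    simp only [hE, he]
    rw [abs_div, abs_mul, abs_two]
    exact div_le_div_of_nonneg_right (Real.abs_sin_le_one _) (by positivity)
  have hcos : ∀ b : ℕ, Real.cos ((b + 1 : ℕ) * ψ) = E (b + 1) - E b := by
    intro b
    simp only [hE]
    rw [div_sub_div_same, eq_div_iff (by simpa using hψ)]
    have h1 : ((((b + 1 : ℕ) : ℝ)) + 1 / 2) * ψ = ((b + 1 : ℕ) : ℝ) * ψ + ψ / 2 := by ring
    have h2 : ((b : ℝ) + 1 / 2) * ψ = ((b + 1 : ℕ) : ℝ) * ψ - ψ / 2 := by push_cast; ring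
    rw [h1, h2, Real.sin_add, Real.sin_sub]; ring
  have key : ∑ b ∈ Ioc N m, y s b ^ 1 * Real.cos (b * ψ)
      ≤ (y s (N + 1) - y s (m + 1)) * e + y s (N + 1) * e + y s (m + 1) * E m := by
    induction m, hNm using Nat.le_induction with
    | base =>
      have h1 := (abs_le.mp (hEle N)).1
      have h2 := y_pos s (N + 1)
      simp
      nlinarith
    | succ m hm ih =>
      rw [sum_Ioc_succ_top hm, hcos m, pow_one]
      have h1 := (abs_le.mp (hEle (m + 1))).2
      have h2 : y s (m + 1 + 1) ≤ y s (m + 1) := y_anti s hs (by omega)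
      have h3 : (y s (m + 1) - y s (m + 1 + 1)) * E (m + 1) ≤ (y s (m + 1) - y s (m + 1 + 1)) * e :=
        mul_le_mul_of_nonneg_left h1 (by linarith)
      linarith
  have h1 := (abs_le.mp (hEle m)).2
  have h2 := y_pos s (m + 1)
  have h3 : y s (m + 1) * E m ≤ y s (m + 1) * e := mul_le_mul_of_nonneg_left h1 h2.le
  have h4 : y s (N + 1) / |Real.sin (ψ / 2)| = 2 * (y s (N + 1) * e) := by
    rw [he]; field_simp
  rw [h4]; linarith

theorem G_lower_abel (s ψ : ℝ) (hs : 0 < s) (hψ : Real.sin (ψ / 2) ≠ 0) (N : ℕ) :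
    -(1/2) - 2 * Real.exp (-(N * s)) / |Real.sin (ψ / 2)| ≤ G s ψ 1 N := by
  have h := F1_cesaro (G s ψ 1) (G s ψ 1 N + y s (N + 1) / |Real.sin (ψ / 2)|) N
    (F1_G_ces s ψ 1 le_rfl) (fun m hm => by
      rw [G_sub s ψ 1 N m hm]
      linarith [F1_abel s ψ hs hψ N m hm])
  have h1 : y s (N + 1) ≤ 2 * Real.exp (-(N * s)) := by
    refine (y_le_exp s (N + 1)).trans ?_
    have : Real.exp (-((N + 1 : ℕ) * s)) ≤ Real.exp (-(N * s)) :=
      Real.exp_le_exp.mpr (by push_cast; nlinarith)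
    linarith
  have hab : 0 < |Real.sin (ψ / 2)| := abs_pos.mpr hψ
  have h2 : y s (N + 1) / |Real.sin (ψ / 2)| ≤ 2 * Real.exp (-(N * s)) / |Real.sin (ψ / 2)| :=
    div_le_div_of_nonneg_right h1 hab.le
  linarith

end MPcf17a0.S1F
end

section

/-!
S1 part F, file F2a: `A u = - log tanh u = log coth u` and its primitive
`J x = ∑ e^{-2(2m+1)x}/(2m+1)² = ∫_x^∞ A`.
-/

namespace MPcf17a0.S1F

open Finset Filter Topology

/-- `log coth` -/
noncomputable def A (u : ℝ) : ℝ := -Real.log (Real.tanh u)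

noncomputable def At (x : ℝ) (m : ℕ) : ℝ := 2 * (Real.exp (-(2 * (2 * m + 1) * x)) / (2 * m + 1))

noncomputable def Jt (x : ℝ) (m : ℕ) : ℝ := Real.exp (-(2 * (2 * m + 1) * x)) / (2 * m + 1) ^ 2

noncomputable def J (x : ℝ) : ℝ := ∑' m : ℕ, Jt x m

lemma tanh_pos' {x : ℝ} (hx : 0 < x) : 0 < Real.tanh x := by
  rw [Real.tanh_eq_sinh_div_cosh]
  exact div_pos (Real.sinh_pos_iff.mpr hx) (Real.cosh_pos _)

lemma A_hasSum {x : ℝ} (hx : 0 < x) : HasSum (At x) (A x) := by
  have hX : |Real.exp (-(2 * x))| < 1 := by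
    rw [abs_of_pos (Real.exp_pos _), Real.exp_lt_one_iff]; linarith
  have h := Real.hasSum_log_sub_log_of_abs_lt_one hX
  have e1 : A x = Real.log (1 + Real.exp (-(2 * x))) - Real.log (1 - Real.exp (-(2 * x))) := by
    unfold A
    have hlt : Real.exp (-(2 * x)) < 1 := by rw [Real.exp_lt_one_iff]; linarith
    rw [← Real.log_div (by positivity) (by linarith), ← Real.log_inv]
    congr 1
    rw [Real.tanh_eq_sinh_div_cosh, Real.sinh_eq, Real.cosh_eq]
    have e2 : Real.exp (-(2 * x)) = Real.exp (-x) / Real.exp x := by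
      rw [← Real.exp_sub]; ring_nf
    rw [e2] at hlt ⊢
    have := Real.exp_pos x
    have h3 : Real.exp (-x) < Real.exp x := by rwa [div_lt_one this] at hlt
    have h4 : Real.exp x - Real.exp (-x) ≠ 0 := by linarith
    have h5 : Real.exp x + Real.exp (-x) ≠ 0 := by positivity
    field_simp
  rw [e1]
  have e4 : At x = fun k : ℕ => (2:ℝ) * (1 / (2 * k + 1)) * Real.exp (-(2 * x)) ^ (2 * k + 1) := by
    funext m
    unfold At
    have e3 : Real.exp (-(2 * (2 * m + 1) * x)) = Real.exp (-(2 * x)) ^ (2 * m + 1) := by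
      rw [← Real.exp_nat_mul]; push_cast; ring_nf
    rw [e3]; ring
  rw [e4]; exact h

lemma Jt_nonneg (x : ℝ) (m : ℕ) : 0 ≤ Jt x m := by unfold Jt; positivity

lemma summable_odd_sq : Summable (fun m : ℕ => 1 / ((2 * (m:ℝ) + 1) ^ 2)) := by
  have h := (hasSum_zeta_two).summable
  have h2 := h.comp_injective (i := fun m : ℕ => 2 * m + 1) (fun a b hab => by simpa using hab)
  refine h2.congr fun m => ?_
  simp [Function.comp]

lemma J_summable {x : ℝ} (hx : 0 ≤ x) : Summable (Jt x) := by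
  refine Summable.of_nonneg_of_le (Jt_nonneg x) (fun m => ?_) summable_odd_sq
  unfold Jt
  apply div_le_div_of_nonneg_right _ (by positivity)
  rw [Real.exp_le_one_iff]
  have : 0 ≤ 2 * (2 * (m:ℝ) + 1) * x := by positivity
  linarith

lemma J_zero : J 0 = Real.pi ^ 2 / 8 := by
  have h := hasSum_zeta_two
  have hodd : Summable (fun m : ℕ => 1 / (((2 * m + 1 : ℕ) : ℝ) ^ 2)) := by
    refine summable_odd_sq.congr fun m => ?_
    push_cast; rfl
  have heven : HasSum (fun m : ℕ => 1 / (((2 * m : ℕ) : ℝ) ^ 2)) (Real.pi ^ 2 / 6 / 4) := by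
    have h1 := h.div_const 4
    have e : (fun m : ℕ => 1 / (((2 * m : ℕ) : ℝ) ^ 2)) = fun m : ℕ => 1 / (m:ℝ) ^ 2 / 4 := by
      funext m
      push_cast
      rw [mul_pow, ← div_div, div_right_comm]
      norm_num
    rw [e]; exact h1
  have h2 := HasSum.even_add_odd (f := fun n : ℕ => 1 / (n:ℝ) ^ 2) heven hodd.hasSum
  have h3 := h2.unique h
  have h4 : J 0 = ∑' m : ℕ, 1 / (((2 * m + 1 : ℕ) : ℝ) ^ 2) := by
    unfold J Jt
    congr 1; ext m; simp
  rw [h4]; linarith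

lemma J_anti {x b : ℝ} (hx : 0 ≤ x) (h : x ≤ b) : J b ≤ J x := by
  unfold J
  refine (J_summable (hx.trans h)).tsum_le_tsum (fun m => ?_) (J_summable hx)
  unfold Jt
  apply div_le_div_of_nonneg_right _ (by positivity)
  rw [Real.exp_le_exp]
  have : 2 * (2 * (m:ℝ) + 1) * x ≤ 2 * (2 * (m:ℝ) + 1) * b :=
    mul_le_mul_of_nonneg_left h (by positivity)
  linarith

lemma J_nonneg (x : ℝ) : 0 ≤ J x := tsum_nonneg (Jt_nonneg x)

lemma J_sub_hasSum {x b : ℝ} (hx : 0 ≤ x) (hb : 0 ≤ b) :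
    HasSum (fun m => Jt x m - Jt b m) (J x - J b) :=
  (J_summable hx).hasSum.sub (J_summable hb).hasSum

/-- midpoint inequality -/
lemma J_mid {x h : ℝ} (hh : 0 ≤ h) (hx : 0 < x) (hhx : h ≤ x) : 2 * h * A x ≤ J (x - h) - J (x + h) := by
  refine hasSum_le (fun m => ?_) ((A_hasSum hx).mul_left (2 * h))
    (J_sub_hasSum (by linarith) (by linarith))
  unfold At Jt
  set M : ℝ := 2 * (m:ℝ) + 1 with hM
  have hMpos : 0 < M := by positivity
  have e1 : Real.exp (-(2 * M * (x - h))) = Real.exp (-(2 * M * x)) * Real.exp (2 * M * h) := by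
    rw [← Real.exp_add]; ring_nf
  have e2 : Real.exp (-(2 * M * (x + h))) = Real.exp (-(2 * M * x)) * Real.exp (-(2 * M * h)) := by
    rw [← Real.exp_add]; ring_nf
  rw [e1, e2, ← sub_div, ← mul_sub, le_div_iff₀ (by positivity)]
  have hv : 0 ≤ 2 * M * h := by positivity
  have h1 : 2 * (2 * M * h) ≤ Real.exp (2 * M * h) - Real.exp (-(2 * M * h)) := by
    have := Real.self_le_sinh_iff.mpr hv
    rw [Real.sinh_eq] at this; linarith
  have h2 := Real.exp_pos (-(2 * M * x))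
  calc 2 * h * (2 * (Real.exp (-(2 * M * x)) / M)) * M ^ 2
      = Real.exp (-(2 * M * x)) * (2 * (2 * M * h)) := by field_simp
    _ ≤ _ := mul_le_mul_of_nonneg_left h1 h2.le

/-- left difference -/
lemma J_left {x h : ℝ} (hh : 0 ≤ h) (hx : 0 < x) (hhx : h ≤ x) : h * A x ≤ J (x - h) - J x := by
  refine hasSum_le (fun m => ?_) ((A_hasSum hx).mul_left h)
    (J_sub_hasSum (by linarith) hx.le)
  unfold At Jt
  set M : ℝ := 2 * (m:ℝ) + 1 with hM
  have hMpos : 0 < M := by positivity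
  have e1 : Real.exp (-(2 * M * (x - h))) = Real.exp (-(2 * M * x)) * Real.exp (2 * M * h) := by
    rw [← Real.exp_add]; ring_nf
  rw [e1, ← sub_div, le_div_iff₀ (by positivity)]
  have h1 : 2 * M * h ≤ Real.exp (2 * M * h) - 1 := by
    have := Real.add_one_le_exp (2 * M * h); linarith
  have h2 := Real.exp_pos (-(2 * M * x))
  calc h * (2 * (Real.exp (-(2 * M * x)) / M)) * M ^ 2
      = Real.exp (-(2 * M * x)) * (2 * M * h) := by field_simp
    _ ≤ Real.exp (-(2 * M * x)) * (Real.exp (2 * M * h) - 1) := mul_le_mul_of_nonneg_left h1 h2.le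
    _ = _ := by ring

/-- convexity -/
lemma J_conv {x b : ℝ} (hx : 0 < x) (hb : x ≤ b) : J x - J b ≤ (b - x) * A x := by
  refine hasSum_le (fun m => ?_) (J_sub_hasSum hx.le (by linarith))
    ((A_hasSum hx).mul_left (b - x))
  unfold At Jt
  set M : ℝ := 2 * (m:ℝ) + 1 with hM
  have hMpos : 0 < M := by positivity
  have e1 : Real.exp (-(2 * M * b)) = Real.exp (-(2 * M * x)) * Real.exp (-(2 * M * (b - x))) := by
    rw [← Real.exp_add]; ring_nf
  rw [e1, ← sub_div, div_le_iff₀ (by positivity)]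
  have h1 : 1 - Real.exp (-(2 * M * (b - x))) ≤ 2 * M * (b - x) := by
    have := Real.add_one_le_exp (-(2 * M * (b - x))); linarith
  have h2 := Real.exp_pos (-(2 * M * x))
  calc Real.exp (-(2 * M * x)) - Real.exp (-(2 * M * x)) * Real.exp (-(2 * M * (b - x)))
      = Real.exp (-(2 * M * x)) * (1 - Real.exp (-(2 * M * (b - x)))) := by ring
    _ ≤ Real.exp (-(2 * M * x)) * (2 * M * (b - x)) := mul_le_mul_of_nonneg_left h1 h2.le
    _ = _ := by field_simp

lemma A_nonneg {x : ℝ} (hx : 0 < x) : 0 ≤ A x :=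
  (A_hasSum hx).nonneg (fun m => by unfold At; positivity)

lemma A_anti {x b : ℝ} (hx : 0 < x) (h : x ≤ b) : A b ≤ A x := by
  refine hasSum_le (fun m => ?_) (A_hasSum (hx.trans_le h)) (A_hasSum hx)
  unfold At
  have h1 : Real.exp (-(2 * (2 * (m:ℝ) + 1) * b)) ≤ Real.exp (-(2 * (2 * (m:ℝ) + 1) * x)) := by
    rw [Real.exp_le_exp]
    have : 2 * (2 * (m:ℝ) + 1) * x ≤ 2 * (2 * (m:ℝ) + 1) * b :=
      mul_le_mul_of_nonneg_left h (by positivity)
    linarith
  have := div_le_div_of_nonneg_right h1 (by positivity : (0:ℝ) ≤ 2 * (m:ℝ) + 1)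
  linarith

/-- convexity of `A` at equidistant nodes. -/
lemma A_convex {u h : ℝ} (hh : 0 ≤ h) (hu : h < u) : 2 * A u ≤ A (u - h) + A (u + h) := by
  refine hasSum_le (fun m => ?_) ((A_hasSum (by linarith : 0 < u)).mul_left 2)
    ((A_hasSum (by linarith : 0 < u - h)).add (A_hasSum (by linarith : 0 < u + h)))
  unfold At
  set M : ℝ := 2 * (m:ℝ) + 1 with hM
  have hMpos : 0 < M := by positivity
  have e1 : Real.exp (-(2 * M * (u - h))) = Real.exp (-(2 * M * u)) * Real.exp (2 * M * h) := by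
    rw [← Real.exp_add]; ring_nf
  have e2 : Real.exp (-(2 * M * (u + h))) = Real.exp (-(2 * M * u)) * Real.exp (-(2 * M * h)) := by
    rw [← Real.exp_add]; ring_nf
  rw [e1, e2]
  have h1 : 2 ≤ Real.exp (2 * M * h) + Real.exp (-(2 * M * h)) := by
    have := Real.one_le_cosh (2 * M * h)
    rw [Real.cosh_eq] at this; linarith
  have h2 : 0 < Real.exp (-(2 * M * u)) / M := by positivity
  calc 2 * (2 * (Real.exp (-(2 * M * u)) / M)) = 2 * (Real.exp (-(2 * M * u)) / M) * 2 := by ring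
    _ ≤ 2 * (Real.exp (-(2 * M * u)) / M) * (Real.exp (2 * M * h) + Real.exp (-(2 * M * h))) :=
        mul_le_mul_of_nonneg_left h1 (by positivity)
    _ = _ := by ring

lemma tanh_le_self {x : ℝ} (hx : 0 ≤ x) : Real.tanh x ≤ x := by
  rw [Real.tanh_eq_sinh_div_cosh, div_le_iff₀ (Real.cosh_pos _)]
  have h1 : MonotoneOn (fun x : ℝ => x * Real.cosh x - Real.sinh x) (Set.Ici 0) := by
    apply monotoneOn_of_deriv_nonneg (convex_Ici 0)
    · fun_prop
    · fun_prop
    · intro z hz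
      rw [interior_Ici] at hz
      have hz0 : (0:ℝ) < z := hz
      have hd : HasDerivAt (fun x : ℝ => x * Real.cosh x - Real.sinh x)
          (1 * Real.cosh z + z * Real.sinh z - Real.cosh z) z :=
        ((hasDerivAt_id z).mul (Real.hasDerivAt_cosh z)).sub (Real.hasDerivAt_sinh z)
      rw [hd.deriv]
      have := mul_pos hz0 (Real.sinh_pos_iff.mpr hz0)
      linarith
  have h2 := h1 (Set.mem_Ici.mpr le_rfl) (Set.mem_Ici.mpr hx) hx
  simp at h2
  linarith

/-- `A x ≥ - log x`. -/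
lemma A_ge {x : ℝ} (hx : 0 < x) : -Real.log x ≤ A x := by
  unfold A
  have := Real.log_le_log (tanh_pos' hx) (tanh_le_self hx.le)
  linarith

lemma log_sum_ge (M : ℕ) (hM : 1 ≤ M) :
    (M:ℝ) - 1 - Real.log M ≤ ∑ i ∈ Icc 1 M, (Real.log M - Real.log i) := by
  have key : ∀ K : ℕ, 1 ≤ K → (K:ℝ) * (1 + Real.log M - Real.log K) - (1 + Real.log M)
      ≤ ∑ i ∈ Icc 1 (K - 1), (Real.log M - Real.log i) := by
    intro K hK
    induction K, hK using Nat.le_induction with
    | base => simp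
    | succ K hK ih =>
      have e : K + 1 - 1 = (K - 1) + 1 := by omega
      rw [e, sum_Icc_succ_top (by omega)]
      have e2 : K - 1 + 1 = K := by omega
      rw [e2]
      have hKpos : (0:ℝ) < K := by exact_mod_cast hK
      have h1 : 1 ≤ ((K:ℝ) + 1) * (Real.log (K + 1) - Real.log K) := by
        have h2 : Real.log ((K:ℝ) / (K + 1)) ≤ (K:ℝ) / (K + 1) - 1 :=
          Real.log_le_sub_one_of_pos (by positivity)
        rw [Real.log_div (by positivity) (by positivity)] at h2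
        have h3 : (K:ℝ) / (K + 1) - 1 = -(1 / (K + 1)) := by field_simp; ring
        rw [h3] at h2
        have h4 : 1 / ((K:ℝ) + 1) ≤ Real.log (K + 1) - Real.log K := by linarith
        calc (1:ℝ) = (K + 1) * (1 / (K + 1)) := by field_simp
          _ ≤ _ := mul_le_mul_of_nonneg_left h4 (by positivity)
      push_cast
      nlinarith
  have h := key M hM
  have hlast : ∑ i ∈ Icc 1 M, (Real.log M - Real.log i)
      = ∑ i ∈ Icc 1 (M - 1), (Real.log M - Real.log i) := by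
    obtain ⟨K, rfl⟩ : ∃ K, M = K + 1 := ⟨M - 1, by omega⟩
    rw [sum_Icc_succ_top (by omega)]; simp
  rw [hlast]
  have : (M:ℝ) * (1 + Real.log M - Real.log M) - (1 + Real.log M) = M - 1 - Real.log M := by ring
  linarith

/-- `J 0 - J x ≥ x (1 - log x)`. -/
lemma J_low {x : ℝ} (hx : 0 < x) : x * (1 - Real.log x) ≤ J 0 - J x := by
  have hM : ∀ M : ℕ, 1 ≤ M → x * (1 - Real.log x) - x * ((1 + Real.log M) / M) ≤ J 0 - J x := by
    intro M hM
    have hMpos : (0:ℝ) < M := by exact_mod_cast hM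
    have tel : ∑ i ∈ Icc 1 M, (J (((i:ℝ) - 1) * (x / M)) - J ((i:ℝ) * (x / M)))
        = J 0 - J ((M:ℝ) * (x / M)) := by
      clear hM hMpos
      suffices ∀ (K : ℕ) (d : ℝ), ∑ i ∈ Icc 1 K, (J (((i:ℝ) - 1) * d) - J ((i:ℝ) * d))
          = J 0 - J ((K:ℝ) * d) from this M (x / M)
      intro K d
      induction K with
      | zero => simp
      | succ K ih => rw [sum_Icc_succ_top (by omega), ih]; push_cast; ring_nf
    have e0 : (M:ℝ) * (x / M) = x := by field_simp
    rw [e0] at tel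
    rw [← tel]
    have h1 : ∀ i ∈ Icc 1 M, (x / M) * (Real.log M - Real.log i - Real.log x)
        ≤ J (((i:ℝ) - 1) * (x / M)) - J ((i:ℝ) * (x / M)) := by
      intro i hi
      have hi1 : 1 ≤ i := (mem_Icc.mp hi).1
      have hipos : (0:ℝ) < i := by exact_mod_cast hi1
      have hd : 0 < x / M := by positivity
      have h2 := J_left (x := (i:ℝ) * (x / M)) (h := x / M) hd.le (by positivity) (by
        have : (1:ℝ) ≤ i := by exact_mod_cast hi1
        nlinarith)
      have e : (i:ℝ) * (x / M) - x / M = ((i:ℝ) - 1) * (x / M) := by ring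
      rw [e] at h2
      refine le_trans ?_ h2
      apply mul_le_mul_of_nonneg_left _ hd.le
      refine le_trans (le_of_eq ?_) (A_ge (by positivity))
      rw [Real.log_mul hipos.ne' hd.ne', Real.log_div hx.ne' hMpos.ne']
      ring
    have h3 := sum_le_sum h1
    refine le_trans ?_ h3
    rw [← mul_sum, sum_sub_distrib, sum_const, Nat.card_Icc, nsmul_eq_mul]
    have h4 := log_sum_ge M hM
    have e5 : ((M + 1 - 1 : ℕ) : ℝ) = M := by simp
    rw [e5]
    have h6 : x * (1 - Real.log x) - x * ((1 + Real.log M) / M)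
        = (x / M) * ((M - 1 - Real.log M) - M * Real.log x) := by field_simp; ring
    rw [h6]
    apply mul_le_mul_of_nonneg_left _ (by positivity)
    linarith
  have hlim : Tendsto (fun M : ℕ => x * (1 - Real.log x) - x * ((1 + Real.log M) / M)) atTop
      (𝓝 (x * (1 - Real.log x) - x * 0)) := by
    refine Tendsto.sub tendsto_const_nhds (Tendsto.const_mul _ ?_)
    have h1 : Tendsto (fun M : ℕ => Real.log M / (M:ℝ)) atTop (𝓝 0) := by
      have := (Real.isLittleO_log_id_atTop.tendsto_div_nhds_zero).comp tendsto_natCast_atTop_atTop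
      simpa [Function.comp_def] using this
    have h2 : Tendsto (fun M : ℕ => 1 / (M:ℝ)) atTop (𝓝 0) := tendsto_one_div_atTop_nhds_zero_nat
    have h3 := h2.add h1
    simp only [add_zero] at h3
    refine h3.congr fun M => ?_
    rw [← add_div]
  rw [mul_zero, sub_zero] at hlim
  exact le_of_tendsto hlim (eventually_atTop.mpr ⟨1, hM⟩)

/-- upper bound of `J`. -/
lemma J_up {x : ℝ} (hx : 0 < x) :
    J x ≤ Real.exp (-(2 * x)) + Real.exp (-(6 * x)) / (9 * (1 - Real.exp (-(4 * x)))) := by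
  have hq : Real.exp (-(4 * x)) < 1 := by rw [Real.exp_lt_one_iff]; linarith
  have h0 := (J_summable hx.le).hasSum
  have h1 : HasSum (fun m : ℕ => Jt x (m + 1)) (J x - Jt x 0) := by
    have := (hasSum_nat_add_iff' 1).mpr h0
    simpa [J] using this
  have h2 : HasSum (fun m : ℕ => Real.exp (-(6 * x)) / 9 * Real.exp (-(4 * x)) ^ m)
      (Real.exp (-(6 * x)) / 9 * (1 - Real.exp (-(4 * x)))⁻¹) :=
    (hasSum_geometric_of_lt_one (Real.exp_pos _).le hq).mul_left _
  have h3 : J x - Jt x 0 ≤ Real.exp (-(6 * x)) / 9 * (1 - Real.exp (-(4 * x)))⁻¹ := by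
    refine hasSum_le (fun m => ?_) h1 h2
    unfold Jt
    have e : Real.exp (-(2 * (2 * ((m + 1 : ℕ) : ℝ) + 1) * x))
        = Real.exp (-(6 * x)) * Real.exp (-(4 * x)) ^ m := by
      rw [← Real.exp_nat_mul, ← Real.exp_add]; push_cast; ring_nf
    rw [e, div_mul_eq_mul_div]
    apply div_le_div_of_nonneg_left (by positivity) (by norm_num)
    push_cast
    have : (0:ℝ) ≤ m := Nat.cast_nonneg m
    nlinarith
  have e4 : Jt x 0 = Real.exp (-(2 * x)) := by simp [Jt]
  have e5 : Real.exp (-(6 * x)) / (9 * (1 - Real.exp (-(4 * x))))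
      = Real.exp (-(6 * x)) / 9 * (1 - Real.exp (-(4 * x)))⁻¹ := by
    rw [div_mul_eq_div_div]; rfl
  rw [e5]; linarith

end MPcf17a0.S1F
end

section

/-!
S1 part F, file F2b: the sums over `m ∈ (n, n+k]` which occur in the numerators.
-/

namespace MPcf17a0.S1F

open Finset

lemma tanh_half_mul {u : ℝ} : 1 - (Real.cosh u)⁻¹ = Real.tanh u * Real.tanh (u / 2) := by
  have h1 : Real.cosh u = Real.cosh (u / 2) ^ 2 + Real.sinh (u / 2) ^ 2 := by
    rw [← Real.cosh_two_mul]; ring_nf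
  have h2 : Real.sinh u = 2 * Real.sinh (u / 2) * Real.cosh (u / 2) := by
    rw [← Real.sinh_two_mul]; ring_nf
  have h3 := Real.cosh_sq (u / 2)
  rw [Real.tanh_eq_sinh_div_cosh, Real.tanh_eq_sinh_div_cosh, h2]
  have hc := Real.cosh_pos u
  have hc2 := Real.cosh_pos (u / 2)
  field_simp
  rw [h1, h3]; ring

lemma tanh_half_div {u : ℝ} (hu : 0 < u) : 1 + (Real.cosh u)⁻¹ = Real.tanh u / Real.tanh (u / 2) := by
  have h1 : Real.cosh u = Real.cosh (u / 2) ^ 2 + Real.sinh (u / 2) ^ 2 := by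
    rw [← Real.cosh_two_mul]; ring_nf
  have h2 : Real.sinh u = 2 * Real.sinh (u / 2) * Real.cosh (u / 2) := by
    rw [← Real.sinh_two_mul]; ring_nf
  have h3 := Real.cosh_sq (u / 2)
  have hs2 : 0 < Real.sinh (u / 2) := Real.sinh_pos_iff.mpr (by linarith)
  rw [Real.tanh_eq_sinh_div_cosh, Real.tanh_eq_sinh_div_cosh, h2]
  have hc := Real.cosh_pos u
  have hc2 := Real.cosh_pos (u / 2)
  field_simp
  rw [h1, h3]; ring

/-- the logarithm of the real factor. -/
lemma log_real_factor (s : ℝ) (hs : 0 < s) (m : ℕ) (hm : 1 ≤ m) :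
    -Real.log (1 - (-1) ^ m * y s m) = A (m * s) + (-1) ^ m * A (m * s / 2) := by
  have hmpos : (0:ℝ) < m := by exact_mod_cast hm
  have hu : 0 < (m:ℝ) * s := by positivity
  have t1 := tanh_pos' hu
  have t2 := tanh_pos' (half_pos hu)
  rcases Nat.even_or_odd m with h | h
  · rw [h.neg_one_pow, one_mul, one_mul]
    unfold y A
    rw [tanh_half_mul, Real.log_mul t1.ne' t2.ne']; ring
  · rw [h.neg_one_pow]
    unfold y A
    have : 1 - -1 * (Real.cosh ((m:ℝ) * s))⁻¹ = 1 + (Real.cosh ((m:ℝ) * s))⁻¹ := by ring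
    rw [this, tanh_half_div hu, Real.log_div t1.ne' t2.ne']; ring

lemma sumA_le (s : ℝ) (hs : 0 < s) (n N : ℕ) (h : n ≤ N) :
    ∑ m ∈ Ioc n N, A (m * s) ≤ (J ((n + 1/2) * s) - J ((N + 1/2) * s)) / s := by
  induction N, h using Nat.le_induction with
  | base => simp
  | succ N hN ih =>
    rw [sum_Ioc_succ_top hN]
    have h1 := J_mid (x := ((N + 1 : ℕ) : ℝ) * s) (h := s / 2) (by linarith) (by positivity) (by
      push_cast; nlinarith [(Nat.cast_nonneg N : (0:ℝ) ≤ N)])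
    have e1 : ((N + 1 : ℕ) : ℝ) * s - s / 2 = (N + 1/2) * s := by push_cast; ring
    have e2 : ((N + 1 : ℕ) : ℝ) * s + s / 2 = (((N + 1 : ℕ) : ℝ) + 1/2) * s := by push_cast; ring
    rw [e1, e2] at h1
    have h2 : A (((N + 1 : ℕ) : ℝ) * s) ≤ (J ((N + 1/2) * s) - J ((((N + 1 : ℕ) : ℝ) + 1/2) * s)) / s := by
      rw [le_div_iff₀ hs]; linarith
    have h3 : (J ((n + 1/2) * s) - J ((N + 1/2) * s)) / s
        + (J ((N + 1/2) * s) - J ((((N + 1 : ℕ) : ℝ) + 1/2) * s)) / s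
        = (J ((n + 1/2) * s) - J ((((N + 1 : ℕ) : ℝ) + 1/2) * s)) / s := by ring
    linarith

lemma sumA_le' (s : ℝ) (hs : 0 < s) (n N : ℕ) (h : n ≤ N) :
    ∑ m ∈ Ioc n N, A (m * s) ≤ J ((n + 1/2) * s) / s := by
  refine (sumA_le s hs n N h).trans (div_le_div_of_nonneg_right ?_ hs.le)
  linarith [J_nonneg ((N + 1/2) * s)]

lemma alt_even_aux (s : ℝ) (hs : 0 < s) (n : ℕ) (hn : Even n) (j : ℕ) :
    ∑ m ∈ Ioc n (n + 2 * j), (-1:ℝ) ^ m * A (m * s / 2) ≤ 0 := by
  induction j with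
  | zero => simp
  | succ j ih =>
    have e : n + 2 * (j + 1) = (n + 2 * j + 1) + 1 := by ring
    rw [e, sum_Ioc_succ_top (by omega), sum_Ioc_succ_top (by omega)]
    have o1 : Odd (n + 2 * j + 1) := (hn.add (even_two_mul j)).add_one
    have o2 : Even (n + 2 * j + 1 + 1) := o1.add_one
    rw [o1.neg_one_pow, o2.neg_one_pow]
    have h1 : A (((n + 2 * j + 1 + 1 : ℕ) : ℝ) * s / 2) ≤ A (((n + 2 * j + 1 : ℕ) : ℝ) * s / 2) :=
      A_anti (by positivity) (by push_cast; nlinarith)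
    linarith

lemma alt_even (s : ℝ) (hs : 0 < s) (n k : ℕ) (hn : Even n) :
    ∑ m ∈ Ioc n (n + k), (-1:ℝ) ^ m * A (m * s / 2) ≤ 0 := by
  rcases Nat.even_or_odd' k with ⟨j, rfl | rfl⟩
  · exact alt_even_aux s hs n hn j
  · have e : n + (2 * j + 1) = (n + 2 * j) + 1 := by ring
    rw [e, sum_Ioc_succ_top (by omega)]
    have o1 : Odd (n + 2 * j + 1) := (hn.add (even_two_mul j)).add_one
    rw [o1.neg_one_pow]
    have h1 := alt_even_aux s hs n hn j
    have h2 : 0 ≤ A (((n + 2 * j + 1 : ℕ) : ℝ) * s / 2) := A_nonneg (by positivity)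
    linarith

lemma alt_odd (s : ℝ) (hs : 0 < s) (n k : ℕ) (hn : Odd n) (hk : Even k) :
    ∑ m ∈ Ioc n (n + k), (-1:ℝ) ^ m * A (m * s / 2) ≤ 1 / 2 * A (n * s / 2) := by
  obtain ⟨j, rfl⟩ := hk
  have hnpos : (0:ℝ) < n := by exact_mod_cast hn.pos
  have key : ∑ m ∈ Ioc n (n + 2 * j), (-1:ℝ) ^ m * A (m * s / 2)
      ≤ 1 / 2 * (A (n * s / 2) - A (((n + 2 * j : ℕ) : ℝ) * s / 2)) := by
    induction j with
    | zero => simp
    | succ j ih =>
      have e : n + 2 * (j + 1) = (n + 2 * j + 1) + 1 := by ring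
      rw [e, sum_Ioc_succ_top (by omega), sum_Ioc_succ_top (by omega)]
      have o1 : Even (n + 2 * j + 1) := (hn.add_even (even_two_mul j)).add_one
      have o2 : Odd (n + 2 * j + 1 + 1) := o1.add_one
      rw [o1.neg_one_pow, o2.neg_one_pow]
      have h1 := A_convex (u := ((n + 2 * j + 1 : ℕ) : ℝ) * s / 2) (h := s / 2) (by linarith) (by
        push_cast; nlinarith [(Nat.cast_nonneg j : (0:ℝ) ≤ j), mul_pos hnpos hs,
          mul_nonneg (Nat.cast_nonneg j : (0:ℝ) ≤ j) hs.le])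
      have e1 : ((n + 2 * j + 1 : ℕ) : ℝ) * s / 2 - s / 2 = ((n + 2 * j : ℕ) : ℝ) * s / 2 := by
        push_cast; ring
      have e2 : ((n + 2 * j + 1 : ℕ) : ℝ) * s / 2 + s / 2 = ((n + 2 * j + 1 + 1 : ℕ) : ℝ) * s / 2 := by
        push_cast; ring
      rw [e1, e2] at h1
      linarith
  have hnj : (0:ℝ) < ((n + 2 * j : ℕ) : ℝ) := by
    have := hn.pos
    exact_mod_cast (by omega : 0 < n + 2 * j)
  have h2 : 0 ≤ A (((n + 2 * j : ℕ) : ℝ) * s / 2) := A_nonneg (by positivity)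
  have e3 : n + (j + j) = n + 2 * j := by ring
  rw [e3]
  linarith

/-- the trivial bound: the sum over even `m`. -/
lemma triv_even_aux (s : ℝ) (hs : 0 < s) (n : ℕ) (hn : Even n) (k : ℕ) :
    ∑ m ∈ Ioc n (n + k), (if Even m then 2 * A (m * s / 2) else 0)
      ≤ 2 / s * (J ((n + 1) * s / 2) - J ((n + k + 1) * s / 2)) := by
  have hstep : ∀ m : ℕ, Even m → 1 ≤ m → 2 * A (m * s / 2) ≤ 2 / s * (J ((m - 1) * s / 2) - J ((m + 1) * s / 2)) := by
    intro m _ hm
    have hm1 : (1:ℝ) ≤ m := by exact_mod_cast hm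
    have h1 := J_mid (x := (m:ℝ) * s / 2) (h := s / 2) (by linarith) (by positivity) (by nlinarith)
    have e1 : (m:ℝ) * s / 2 - s / 2 = (m - 1) * s / 2 := by ring
    have e2 : (m:ℝ) * s / 2 + s / 2 = (m + 1) * s / 2 := by ring
    rw [e1, e2] at h1
    rw [div_mul_eq_mul_div, le_div_iff₀ hs]
    linarith
  have main : ∀ j : ℕ, ∑ m ∈ Ioc n (n + 2 * j), (if Even m then 2 * A (m * s / 2) else 0)
      ≤ 2 / s * (J ((n + 1) * s / 2) - J ((n + 2 * j + 1) * s / 2)) := by
    intro j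
    induction j with
    | zero => simp
    | succ j ih =>
      have e : n + 2 * (j + 1) = (n + 2 * j + 1) + 1 := by ring
      rw [e, sum_Ioc_succ_top (by omega), sum_Ioc_succ_top (by omega)]
      have o1 : Odd (n + 2 * j + 1) := (hn.add (even_two_mul j)).add_one
      have o2 : Even (n + 2 * j + 1 + 1) := o1.add_one
      rw [if_neg (by rwa [Nat.not_even_iff_odd]), if_pos o2]
      have h1 := hstep _ o2 (by omega)
      push_cast at h1 ih ⊢
      have e3 : (n:ℝ) + 2 * j + 1 + 1 - 1 = n + 2 * j + 1 := by ring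
      have e4 : (n:ℝ) + 2 * (j + 1) + 1 = n + 2 * j + 1 + 1 + 1 := by ring
      rw [e3] at h1
      rw [e4]
      have e5 : 2 / s * (J (((n:ℝ) + 1) * s / 2) - J (((n:ℝ) + 2 * j + 1 + 1 + 1) * s / 2))
          = 2 / s * (J (((n:ℝ) + 1) * s / 2) - J (((n:ℝ) + 2 * j + 1) * s / 2))
            + 2 / s * (J (((n:ℝ) + 2 * j + 1) * s / 2) - J (((n:ℝ) + 2 * j + 1 + 1 + 1) * s / 2)) := by ring
      rw [e5]; linarith
  rcases Nat.even_or_odd' k with ⟨j, rfl | rfl⟩
  · have := main j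
    push_cast at this ⊢
    exact this
  · have e : n + (2 * j + 1) = (n + 2 * j) + 1 := by ring
    rw [e, sum_Ioc_succ_top (by omega)]
    have o1 : Odd (n + 2 * j + 1) := (hn.add (even_two_mul j)).add_one
    rw [if_neg (by rwa [Nat.not_even_iff_odd]), add_zero]
    refine (main j).trans ?_
    apply mul_le_mul_of_nonneg_left _ (by positivity)
    have : J ((n + (2 * j + 1 : ℕ) + 1) * s / 2) ≤ J ((n + 2 * j + 1) * s / 2) :=
      J_anti (by positivity) (by push_cast; nlinarith)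
    linarith

lemma triv_sum (s : ℝ) (hs : 0 < s) (n k : ℕ) :
    ∑ m ∈ Ioc n (n + k), (if Even m then 2 * A (m * s / 2) else 0) ≤ 2 * J (n * s / 2) / s := by
  rcases Nat.even_or_odd n with hn | hn
  · refine (triv_even_aux s hs n hn k).trans ?_
    have h1 : J ((n + 1) * s / 2) ≤ J (n * s / 2) := J_anti (by positivity) (by nlinarith)
    have h2 := J_nonneg ((n + k + 1) * s / 2)
    have : 2 / s * (J ((n + 1) * s / 2) - J ((n + k + 1) * s / 2)) ≤ 2 / s * J (n * s / 2) :=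
      mul_le_mul_of_nonneg_left (by linarith) (by positivity)
    refine this.trans (le_of_eq (by ring))
  · obtain ⟨j, rfl⟩ := hn
    have h := triv_even_aux s hs (2 * j) (even_two_mul j) (k + 1)
    have e1 : ∑ m ∈ Ioc (2 * j + 1) (2 * j + 1 + k), (if Even m then 2 * A ((m:ℝ) * s / 2) else 0)
        ≤ ∑ m ∈ Ioc (2 * j) (2 * j + (k + 1)), (if Even m then 2 * A ((m:ℝ) * s / 2) else 0) := by
      apply sum_le_sum_of_subset_of_nonneg
      · intro m hm; rw [mem_Ioc] at hm ⊢; omega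
      · intro m hm _
        split_ifs
        · rw [mem_Ioc] at hm
          have : (0:ℝ) < m := by exact_mod_cast (by omega : 0 < m)
          have := A_nonneg (x := (m:ℝ) * s / 2) (by positivity)
          linarith
        · exact le_rfl
    refine e1.trans (h.trans ?_)
    push_cast
    have h2 := J_nonneg ((2 * (j:ℝ) + (k + 1) + 1) * s / 2)
    have : 2 / s * (J ((2 * (j:ℝ) + 1) * s / 2) - J ((2 * (j:ℝ) + (k + 1) + 1) * s / 2))
        ≤ 2 / s * J ((2 * (j:ℝ) + 1) * s / 2) :=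
      mul_le_mul_of_nonneg_left (by linarith) (by positivity)
    refine this.trans (le_of_eq (by ring))

/-- lower bound for the sum of `sech²`. -/
lemma tanh_sub_le {a h : ℝ} (ha : 0 ≤ a) (hh : 0 ≤ h) :
    Real.tanh (a + h) - Real.tanh a ≤ h * (Real.cosh a)⁻¹ ^ 2 := by
  have hc := Real.cosh_pos a
  have hc2 := Real.cosh_pos (a + h)
  have e : Real.tanh (a + h) - Real.tanh a = Real.sinh h / (Real.cosh a * Real.cosh (a + h)) := by
    rw [Real.tanh_eq_sinh_div_cosh, Real.tanh_eq_sinh_div_cosh]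
    rw [div_sub_div _ _ hc2.ne' hc.ne']
    rw [mul_comm (Real.cosh (a + h)) (Real.cosh a)]
    congr 1
    have : Real.sinh h = Real.sinh ((a + h) - a) := by ring_nf
    rw [this, Real.sinh_sub]
  rw [e, div_le_iff₀ (by positivity), inv_pow]
  have h1 : Real.sinh h ≤ h * Real.cosh h := by
    have := tanh_le_self hh
    rw [Real.tanh_eq_sinh_div_cosh, div_le_iff₀ (Real.cosh_pos _)] at this
    exact this
  have h2 : Real.cosh a * Real.cosh h ≤ Real.cosh (a + h) := by
    rw [Real.cosh_add]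
    have := mul_nonneg (Real.sinh_nonneg_iff.mpr ha) (Real.sinh_nonneg_iff.mpr hh)
    linarith
  have h3 : h * (Real.cosh a ^ 2)⁻¹ * (Real.cosh a * Real.cosh (a + h))
      = h * (Real.cosh (a + h) / Real.cosh a) := by field_simp
  rw [h3]
  have h4 : Real.cosh h ≤ Real.cosh (a + h) / Real.cosh a := by
    rw [le_div_iff₀ hc]; linarith
  calc Real.sinh h ≤ h * Real.cosh h := h1
    _ ≤ _ := mul_le_mul_of_nonneg_left h4 hh

lemma one_sub_le_tanh (x : ℝ) : 1 - 2 * Real.exp (-(2 * x)) ≤ Real.tanh x := by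
  rw [Real.tanh_eq_sinh_div_cosh, le_div_iff₀ (Real.cosh_pos _), Real.sinh_eq, Real.cosh_eq]
  have e : Real.exp (-(2 * x)) = Real.exp (-x) * Real.exp (-x) := by rw [← Real.exp_add]; ring_nf
  have e2 : Real.exp (-x) * Real.exp x = 1 := by rw [← Real.exp_add]; simp
  rw [e]
  have h1 : Real.exp (-x) * Real.exp (-x) * ((Real.exp x + Real.exp (-x)) / 2) * 2
      = Real.exp (-x) * (Real.exp (-x) * Real.exp x) + Real.exp (-x) ^ 3 := by ring
  have h2 : 0 < Real.exp (-x) ^ 3 := by positivity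
  rw [e2] at h1
  nlinarith

lemma sum_sq_ge (s : ℝ) (hs : 0 < s) (n N : ℕ) (h : n ≤ N) :
    (1 - 2 * Real.exp (-(2 * (N * s)))) / s - (n + 1) ≤ ∑ m ∈ Ioc n N, y s m ^ 2 := by
  have key : (Real.tanh ((N + 1) * s) - Real.tanh ((n + 1) * s)) / s ≤ ∑ m ∈ Ioc n N, y s m ^ 2 := by
    induction N, h using Nat.le_induction with
    | base => simp
    | succ N hN ih =>
      rw [sum_Ioc_succ_top hN]
      have h1 := tanh_sub_le (a := ((N + 1 : ℕ) : ℝ) * s) (h := s) (by positivity) hs.le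
      have e1 : ((N + 1 : ℕ) : ℝ) * s + s = (((N + 1 : ℕ) : ℝ) + 1) * s := by ring
      rw [e1] at h1
      have h2 : (Real.tanh ((((N + 1 : ℕ) : ℝ) + 1) * s) - Real.tanh (((N + 1 : ℕ) : ℝ) * s)) / s
          ≤ y s (N + 1) ^ 2 := by
        rw [div_le_iff₀ hs]
        unfold y
        linarith
      push_cast at h2 ⊢
      have h3 : (Real.tanh (((N:ℝ) + 1 + 1) * s) - Real.tanh (((n:ℝ) + 1) * s)) / s
          = (Real.tanh (((N:ℝ) + 1) * s) - Real.tanh (((n:ℝ) + 1) * s)) / s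
            + (Real.tanh (((N:ℝ) + 1 + 1) * s) - Real.tanh (((N:ℝ) + 1) * s)) / s := by ring
      rw [h3]; linarith
  refine le_trans ?_ key
  have h1 := one_sub_le_tanh ((N + 1) * s)
  have h2 : Real.tanh ((n + 1) * s) ≤ (n + 1) * s := tanh_le_self (by positivity)
  have h3 : Real.exp (-(2 * ((N + 1) * s))) ≤ Real.exp (-(2 * (N * s))) :=
    Real.exp_le_exp.mpr (by nlinarith)
  have h4 : (1 - 2 * Real.exp (-(2 * (N * s)))) / s - (n + 1)
      = ((1 - 2 * Real.exp (-(2 * (N * s)))) - (n + 1) * s) / s := by field_simp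
  rw [h4]
  apply div_le_div_of_nonneg_right _ hs.le
  linarith

end MPcf17a0.S1F
end

section

/-!
S1 part F, file F2c: bounds for the numerators.
-/

namespace MPcf17a0.S1F

open Finset

lemma log_one_sub_le3 {v : ℝ} (hv : v < 1) : Real.log (1 - v) ≤ -v - v ^ 2 / 2 - v ^ 3 / 3 := by
  set f : ℝ → ℝ := fun v => -v - v ^ 2 / 2 - v ^ 3 / 3 - Real.log (1 - v) with hf
  have hd : ∀ v < 1, HasDerivAt f (v ^ 3 / (1 - v)) v := by
    intro v hv
    have h1 : HasDerivAt (fun v : ℝ => 1 - v) (-1) v := by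
      simpa using (hasDerivAt_id v).const_sub 1
    have h2 := h1.log (by linarith : (1:ℝ) - v ≠ 0)
    have h3 : HasDerivAt (fun v : ℝ => -v - v ^ 2 / 2 - v ^ 3 / 3) (-1 - v - v ^ 2) v := by
      have a1 : HasDerivAt (fun v : ℝ => -v) (-1) v := (hasDerivAt_id v).neg
      have a2 : HasDerivAt (fun v : ℝ => v ^ 2 / 2) v v := by
        have := (hasDerivAt_pow 2 v).div_const 2
        refine this.congr_deriv ?_
        norm_num
      have a3 : HasDerivAt (fun v : ℝ => v ^ 3 / 3) (v ^ 2) v := by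
        have := (hasDerivAt_pow 3 v).div_const 3
        refine this.congr_deriv ?_
        norm_num
      exact (a1.sub a2).sub a3
    have h4 := h3.sub h2
    refine h4.congr_deriv ?_
    have : (1:ℝ) - v ≠ 0 := by linarith
    field_simp
    ring
  have h0 : f 0 = 0 := by simp [hf]
  have key : 0 ≤ f v := by
    rcases le_total 0 v with h | h
    · have hm : MonotoneOn f (Set.Ico 0 1) := by
        apply monotoneOn_of_deriv_nonneg (convex_Ico 0 1)
        · intro x hx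
          exact (hd x hx.2).continuousAt.continuousWithinAt
        · intro x hx
          rw [interior_Ico] at hx
          exact (hd x hx.2).differentiableAt.differentiableWithinAt
        · intro x hx
          rw [interior_Ico] at hx
          rw [(hd x hx.2).deriv]
          have : 0 < 1 - x := by linarith [hx.2]
          have h1 : 0 ≤ x ^ 3 := pow_nonneg hx.1.le 3
          positivity
      have := hm (Set.mem_Ico.mpr ⟨le_rfl, one_pos⟩) (Set.mem_Ico.mpr ⟨h, hv⟩) h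
      rwa [h0] at this
    · have hm : AntitoneOn f (Set.Iic 0) := by
        apply antitoneOn_of_deriv_nonpos (convex_Iic 0)
        · intro x hx
          have hx' : x ≤ 0 := hx
          exact (hd x (by linarith)).continuousAt.continuousWithinAt
        · intro x hx
          rw [interior_Iic] at hx
          have hx' : x < 0 := hx
          exact (hd x (by linarith)).differentiableAt.differentiableWithinAt
        · intro x hx
          rw [interior_Iic] at hx
          have hx' : x < 0 := hx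
          rw [(hd x (by linarith)).deriv]
          have h2 : 0 < 1 - x := by linarith
          apply div_nonpos_of_nonpos_of_nonneg _ h2.le
          have : x ^ 3 = x ^ 2 * x := by ring
          rw [this]
          exact mul_nonpos_of_nonneg_of_nonpos (sq_nonneg x) hx'.le
      have := hm (Set.mem_Iic.mpr h) (Set.mem_Iic.mpr le_rfl) h
      rwa [h0] at this
  simp only [hf] at key
  linarith

lemma y_lt_one {s : ℝ} (hs : 0 < s) {m : ℕ} (hm : 1 ≤ m) : y s m < 1 := by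
  have hmpos : (0:ℝ) < m := by exact_mod_cast hm
  exact inv_lt_one_of_one_lt₀ (Real.one_lt_cosh.mpr (by positivity))

lemma yc_lt {s : ℝ} (hs : 0 < s) {m : ℕ} (hm : 1 ≤ m) (ψ : ℝ) : y s m * Real.cos (m * ψ) < 1 := by
  have h1 := y_lt_one hs hm
  have h2 := y_pos s m
  have h3 := Real.cos_le_one (m * ψ)
  nlinarith

lemma G_le (s ψ : ℝ) (p n : ℕ) : G s ψ p n ≤ n := by
  unfold G
  calc ∑ b ∈ Icc 1 n, y s b ^ p * Real.cos (b * ψ) ≤ ∑ _b ∈ Icc 1 n, (1:ℝ) := by
        refine sum_le_sum fun b _ => ?_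
        have h1 : y s b ^ p ≤ 1 := pow_le_one₀ (y_pos s b).le (y_le_one s b)
        have h2 : 0 < y s b ^ p := pow_pos (y_pos s b) p
        have h3 := Real.cos_le_one (b * ψ)
        nlinarith
    _ = n := by simp

/-- `M = 1` -/
lemma lsum1 (s ψ T : ℝ) (hs : 0 < s) (n k : ℕ) (hT : -(1/2) - T ≤ G s ψ 1 (n + k)) :
    ∑ m ∈ Ioc n (n + k), Real.log (1 - y s m * Real.cos (m * ψ)) ≤ 1/2 + T + n := by
  have h1 : ∑ m ∈ Ioc n (n + k), Real.log (1 - y s m * Real.cos (m * ψ))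
      ≤ ∑ m ∈ Ioc n (n + k), -(y s m ^ 1 * Real.cos (m * ψ)) := by
    refine sum_le_sum fun m hm => ?_
    rw [mem_Ioc] at hm
    have hv := yc_lt hs (by omega : 1 ≤ m) ψ
    have := Real.log_le_sub_one_of_pos (by linarith : 0 < 1 - y s m * Real.cos (m * ψ))
    rw [pow_one]; linarith
  rw [sum_neg_distrib] at h1
  have h2 := G_sub s ψ 1 n (n + k) (by omega)
  have h3 := G_le s ψ 1 n
  linarith

/-- `M = 3` -/
lemma lsum3 (s ψ T : ℝ) (hs : 0 < s) (n k : ℕ) (hT : -(1/2) - T ≤ G s ψ 1 (n + k)) :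
    ∑ m ∈ Ioc n (n + k), Real.log (1 - y s m * Real.cos (m * ψ))
      ≤ -(1/4) / s + 25/24 + 11/6 * n + T + Real.exp (-(2 * ((n + k : ℕ) * s))) / s
        + 8/9 * Real.exp (-(3 * ((n + k : ℕ) * s))) / s := by
  have h1 : ∑ m ∈ Ioc n (n + k), Real.log (1 - y s m * Real.cos (m * ψ))
      ≤ ∑ m ∈ Ioc n (n + k), (-(y s m ^ 1 * Real.cos (m * ψ)) - 1/4 * y s m ^ 2
        - 1/4 * (y s m ^ 2 * Real.cos (m * (2 * ψ))) - 1/4 * (y s m ^ 3 * Real.cos (m * ψ))
        - 1/12 * (y s m ^ 3 * Real.cos (m * (3 * ψ)))) := by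
    refine sum_le_sum fun m hm => ?_
    rw [mem_Ioc] at hm
    have hv := yc_lt hs (by omega : 1 ≤ m) ψ
    refine (log_one_sub_le3 hv).trans (le_of_eq ?_)
    have e2 : Real.cos (m * (2 * ψ)) = 2 * Real.cos (m * ψ) ^ 2 - 1 := by
      rw [← Real.cos_two_mul]; ring_nf
    have e3 : Real.cos (m * (3 * ψ)) = 4 * Real.cos (m * ψ) ^ 3 - 3 * Real.cos (m * ψ) := by
      rw [← Real.cos_three_mul]; ring_nf
    rw [e2, e3]; ring
  rw [sum_sub_distrib, sum_sub_distrib, sum_sub_distrib, sum_sub_distrib, sum_neg_distrib,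
    ← mul_sum, ← mul_sum, ← mul_sum, ← mul_sum] at h1
  have g1 := G_sub s ψ 1 n (n + k) (by omega)
  have g2 := G_sub s (2 * ψ) 2 n (n + k) (by omega)
  have g3 := G_sub s ψ 3 n (n + k) (by omega)
  have g4 := G_sub s (3 * ψ) 3 n (n + k) (by omega)
  have b1 := G_le s ψ 1 n
  have b2 := G_le s (2 * ψ) 2 n
  have b3 := G_le s ψ 3 n
  have b4 := G_le s (3 * ψ) 3 n
  have l2 := G_lower s (2 * ψ) hs 2 (by norm_num) (n + k)
  have l3 := G_lower s ψ hs 3 (by norm_num) (n + k)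
  have l4 := G_lower s (3 * ψ) hs 3 (by norm_num) (n + k)
  have sq := sum_sq_ge s hs n (n + k) (by omega)
  set E2 := Real.exp (-(2 * ((n + k : ℕ) * s))) with hE2
  set E3 := Real.exp (-(3 * ((n + k : ℕ) * s))) with hE3
  have q2 : Real.exp (-(((2:ℕ):ℝ) * ((n + k : ℕ) * s))) = E2 := by rw [hE2]; norm_num
  have q3 : Real.exp (-(((3:ℕ):ℝ) * ((n + k : ℕ) * s))) = E3 := by rw [hE3]; norm_num
  rw [q2] at l2
  rw [q3] at l3 l4
  have r2 : (2:ℝ) ^ 2 / (((2:ℕ):ℝ) * s) * E2 = 2 * (E2 / s) := by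
    push_cast; field_simp
  have r3 : (2:ℝ) ^ 3 / (((3:ℕ):ℝ) * s) * E3 = 8/3 * (E3 / s) := by
    push_cast; field_simp; ring
  rw [r2] at l2
  rw [r3] at l3 l4
  have r5 : (1 - 2 * E2) / s = 1 / s - 2 * (E2 / s) := by ring
  rw [r5] at sq
  have r6 : -(1/4) / s = -(1/4) * (1 / s) := by ring
  have r7 : 8/9 * E3 / s = 8/9 * (E3 / s) := by ring
  rw [r6, r7]
  linarith

/-- the real part of the numerators. -/
lemma rsum (s : ℝ) (hs : 0 < s) (n k : ℕ) :
    ∑ m ∈ Ioc n (n + k), -Real.log (1 - (-1) ^ m * y s m)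
      = ∑ m ∈ Ioc n (n + k), A (m * s) + ∑ m ∈ Ioc n (n + k), (-1) ^ m * A (m * s / 2) := by
  rw [← sum_add_distrib]
  refine sum_congr rfl fun m hm => ?_
  rw [mem_Ioc] at hm
  exact log_real_factor s hs m (by omega)

noncomputable def NC (s ψ : ℝ) (n k : ℕ) : ℝ :=
  ∑ m ∈ Ioc n (n + k), (Real.log (1 - y s m * Real.cos (m * ψ)) - Real.log (1 - (-1) ^ m * y s m))

lemma NC_split (s ψ : ℝ) (n k : ℕ) : NC s ψ n k
    = ∑ m ∈ Ioc n (n + k), Real.log (1 - y s m * Real.cos (m * ψ))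
      + ∑ m ∈ Ioc n (n + k), -Real.log (1 - (-1) ^ m * y s m) := by
  unfold NC
  rw [← sum_add_distrib]
  exact sum_congr rfl fun m _ => by ring

lemma NC_triv (s ψ : ℝ) (hs : 0 < s) (n k : ℕ) : NC s ψ n k ≤ 2 * J (n * s / 2) / s := by
  refine le_trans ?_ (triv_sum s hs n k)
  unfold NC
  refine sum_le_sum fun m hm => ?_
  rw [mem_Ioc] at hm
  have hm1 : 1 ≤ m := by omega
  have hmpos : (0:ℝ) < m := by exact_mod_cast hm1
  have hu : 0 < (m:ℝ) * s := by positivity
  have hr := log_real_factor s hs m hm1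
  have hv := yc_lt hs hm1 ψ
  have hyp := y_pos s m
  have h1 : Real.log (1 - y s m * Real.cos (m * ψ)) ≤ A (m * s / 2) - A (m * s) := by
    have e1 : A (m * s / 2) - A (m * s) = Real.log (1 + y s m) := by
      have t1 := tanh_pos' hu
      have t2 := tanh_pos' (half_pos hu)
      unfold A y
      rw [tanh_half_div hu, Real.log_div t1.ne' t2.ne']; ring
    rw [e1]
    apply Real.log_le_log (by linarith)
    have := Real.neg_one_le_cos (m * ψ)
    nlinarith
  rcases Nat.even_or_odd m with h | h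
  · rw [if_pos h]
    rw [h.neg_one_pow] at hr ⊢
    linarith
  · rw [if_neg (by rwa [Nat.not_even_iff_odd])]
    rw [h.neg_one_pow] at hr ⊢
    linarith

/-- `A (x/2) - A (x + w) ≤ log 3` if `w ≤ x/2`. -/
lemma A_log3 {x w : ℝ} (hx : 0 < x) (hw : w ≤ x / 2) (hw0 : 0 ≤ w) :
    A (x / 2) - A (x + w) ≤ Real.log 3 := by
  have h1 : A (3 * (x / 2)) ≤ A (x + w) := A_anti (by linarith) (by linarith)
  have h2 : A (x / 2) - A (3 * (x / 2)) ≤ Real.log 3 := by
    have t1 := tanh_pos' (half_pos hx)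
    have t2 := tanh_pos' (by linarith : 0 < 3 * (x / 2))
    have : Real.tanh (3 * (x / 2)) ≤ 3 * Real.tanh (x / 2) := by
      set u := x / 2 with hu
      have hc := Real.cosh_pos u
      have hc3 := Real.cosh_pos (3 * u)
      rw [Real.tanh_eq_sinh_div_cosh, Real.tanh_eq_sinh_div_cosh, div_le_iff₀ hc3,
        Real.sinh_three_mul, Real.cosh_three_mul]
      have e : 3 * (Real.sinh u / Real.cosh u) * (4 * Real.cosh u ^ 3 - 3 * Real.cosh u)
          = 3 * Real.sinh u * (4 * Real.cosh u ^ 2 - 3) := by field_simp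
      rw [e, Real.cosh_sq]
      have : 0 ≤ Real.sinh u := Real.sinh_nonneg_iff.mpr (by rw [hu]; linarith)
      nlinarith [pow_nonneg this 3]
    unfold A
    have h3 := Real.log_le_log t2 this
    rw [Real.log_mul (by norm_num) t1.ne'] at h3
    linarith
  linarith

/-- the real part is at most `J((n+1/2)s)/s + alt`; we record the consequence we use:
`rsum ≤ (J x + (s/2) log 3)/s` for `x = n s`, in the odd case, and `J(x+s/2)/s` in the even case. -/
lemma rsum_le (s : ℝ) (hs : 0 < s) (n k : ℕ) (hnk : Even (n * k)) :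
    (Even n ∧ ∑ m ∈ Ioc n (n + k), -Real.log (1 - (-1) ^ m * y s m) ≤ J (n * s + s / 2) / s) ∨
    (1 ≤ n ∧ ∑ m ∈ Ioc n (n + k), -Real.log (1 - (-1) ^ m * y s m)
      ≤ J (n * s) / s + 1 / 2 * Real.log 3) := by
  have h0 := sumA_le' s hs n (n + k) (by omega)
  have e0 : ((n:ℝ) + 1/2) * s = n * s + s / 2 := by ring
  rw [e0] at h0
  rcases Nat.even_or_odd n with hn | hn
  · left
    refine ⟨hn, ?_⟩
    rw [rsum s hs n k]
    have := alt_even s hs n k hn
    linarith
  · right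
    have hn1 : 1 ≤ n := hn.pos
    refine ⟨hn1, ?_⟩
    have hk : Even k := by
      rcases Nat.even_mul.mp hnk with h | h
      · exact absurd h (by rwa [Nat.not_even_iff_odd])
      · exact h
    rw [rsum s hs n k]
    have h1 := alt_odd s hs n k hn hk
    have hn1' : (1:ℝ) ≤ n := by exact_mod_cast hn1
    have hx : 0 < (n:ℝ) * s := by positivity
    have hsx : s / 2 ≤ n * s / 2 := by nlinarith
    have h2 := A_log3 hx hsx (by linarith)
    have h3 := J_left (x := n * s + s / 2) (h := s / 2) (by linarith) (by linarith) (by linarith)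
    have e1 : (n:ℝ) * s + s / 2 - s / 2 = n * s := by ring
    rw [e1] at h3
    have h4 : J (n * s + s / 2) / s ≤ J (n * s) / s - 1/2 * A (n * s + s / 2) := by
      rw [div_le_iff₀ hs]
      have : (J (n * s) / s - 1/2 * A (n * s + s / 2)) * s
          = J (n * s) - s / 2 * A (n * s + s / 2) := by field_simp
      rw [this]; linarith
    linarith

/-! numerical values of `J` -/

lemma exp_neg_le (x b : ℝ) (n : ℕ) (hx : 0 ≤ x) (h : 1 ≤ b * (∑ m ∈ range n, x ^ m / m.factorial)) :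
    Real.exp (-x) ≤ b := by
  have h1 := Real.sum_le_exp_of_nonneg hx n
  rw [Real.exp_neg]
  have hpos := Real.exp_pos x
  rw [inv_le_iff_one_le_mul₀ hpos]
  have hb : 0 ≤ b := by
    by_contra hb
    push Not at hb
    have : 0 ≤ ∑ m ∈ range n, x ^ m / m.factorial := sum_nonneg fun m _ => by positivity
    nlinarith
  calc 1 ≤ b * (∑ m ∈ range n, x ^ m / m.factorial) := h
    _ ≤ b * Real.exp x := mul_le_mul_of_nonneg_left h1 hb

lemma J_num (x a b c : ℝ) (hx : 0 < x) (ha : Real.exp (-(2 * x)) ≤ a) (hb : Real.exp (-(6 * x)) ≤ b)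
    (hc : Real.exp (-(4 * x)) ≤ c) (hc1 : c < 1) : J x ≤ a + b / (9 * (1 - c)) := by
  refine (J_up hx).trans (add_le_add ha ?_)
  have hb0 : 0 ≤ b := (Real.exp_pos _).le.trans hb
  apply div_le_div₀ hb0 hb (by linarith) (by linarith)

lemma J_285 : J 0.285 ≤ 0.597 := by
  have h := J_num 0.285 0.5656 0.181 0.3199 (by norm_num)
    (exp_neg_le _ _ 8 (by norm_num) (by norm_num [sum_range_succ, Nat.factorial]))
    (exp_neg_le _ _ 12 (by norm_num) (by norm_num [sum_range_succ, Nat.factorial]))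
    (exp_neg_le _ _ 12 (by norm_num) (by norm_num [sum_range_succ, Nat.factorial])) (by norm_num)
  refine h.trans (by norm_num)

lemma J_375 : J 0.375 ≤ 0.4880 := by
  have h := J_num 0.375 0.4724 0.1055 0.2232 (by norm_num)
    (exp_neg_le _ _ 8 (by norm_num) (by norm_num [sum_range_succ, Nat.factorial]))
    (exp_neg_le _ _ 14 (by norm_num) (by norm_num [sum_range_succ, Nat.factorial]))
    (exp_neg_le _ _ 12 (by norm_num) (by norm_num [sum_range_succ, Nat.factorial])) (by norm_num)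
  refine h.trans (by norm_num)

lemma J_75 : J 0.75 ≤ 0.2246 := by
  have h := J_num 0.75 0.22315 0.0112 0.0499 (by norm_num)
    (exp_neg_le _ _ 12 (by norm_num) (by norm_num [sum_range_succ, Nat.factorial]))
    (exp_neg_le _ _ 18 (by norm_num) (by norm_num [sum_range_succ, Nat.factorial]))
    (exp_neg_le _ _ 16 (by norm_num) (by norm_num [sum_range_succ, Nat.factorial])) (by norm_num)
  refine h.trans (by norm_num)

end MPcf17a0.S1F
end

section

/-!
# Lemma E (helper78, MP_cf17a0_co): the exact decay of an even pair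

For `0 < u`, `1 ≤ c`, `0 ≤ x ≤ π / 2` (or `c` a natural number and `x` arbitrary)
`(1 + sin² (c x) / sinh² (c u)) (1 + sin² x (1 / sinh² u - c² / sinh² (c u))) ≤ 1 + sin² x / sinh² u`.
-/

namespace CF17.N3

open Real Set

lemma sinh_aux {y : ℝ} (hy : 0 ≤ y) : 0 ≤ sinh y ^ 3 + 3 * sinh y - 3 * (y * cosh y) := by
  have hd : ∀ z : ℝ, HasDerivAt (fun z : ℝ => sinh z ^ 3 + 3 * sinh z - 3 * (z * cosh z))
      (3 * sinh z * (sinh z * cosh z - z)) z := by
    intro z
    have h1 := ((hasDerivAt_sinh z).pow 3)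
    have h2 := (hasDerivAt_sinh z).const_mul 3
    have h3 := ((hasDerivAt_id z).mul (hasDerivAt_cosh z)).const_mul 3
    have h4 := (h1.add h2).sub h3
    refine h4.congr_deriv ?_
    simp only [id]
    push_cast
    ring
  have hmono : MonotoneOn (fun z : ℝ => sinh z ^ 3 + 3 * sinh z - 3 * (z * cosh z)) (Ici 0) := by
    apply monotoneOn_of_deriv_nonneg (convex_Ici 0)
    · exact fun z _ => (hd z).continuousAt.continuousWithinAt
    · exact fun z _ => (hd z).differentiableAt.differentiableWithinAt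
    · intro z hz
      rw [interior_Ici] at hz
      have hz0 : 0 < z := hz
      rw [(hd z).deriv]
      have h1 : 0 ≤ sinh z := (sinh_pos_iff.2 hz0).le
      have h2 : z ≤ sinh z := self_le_sinh_iff.2 hz0.le
      have h3 : 1 ≤ cosh z := one_le_cosh z
      have h4 : z ≤ sinh z * cosh z := by nlinarith
      have : 0 ≤ sinh z * cosh z - z := by linarith
      positivity
  have := hmono (mem_Ici.2 le_rfl) (mem_Ici.2 hy) hy
  simpa using this

lemma sin_aux {y : ℝ} (hy : 0 ≤ y) (hy' : y ≤ π) :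
    0 ≤ 3 * (sin y - y * cos y) - sin y ^ 3 := by
  have hd : ∀ z : ℝ, HasDerivAt (fun z : ℝ => 3 * (sin z - z * cos z) - sin z ^ 3)
      (3 * sin z * (z - sin z * cos z)) z := by
    intro z
    have h1 := ((hasDerivAt_sin z).pow 3)
    have h3 := ((hasDerivAt_id z).mul (hasDerivAt_cos z))
    have h4 := (((hasDerivAt_sin z).sub h3).const_mul 3).sub h1
    refine h4.congr_deriv ?_
    simp only [id]
    push_cast
    ring
  have hmono : MonotoneOn (fun z : ℝ => 3 * (sin z - z * cos z) - sin z ^ 3) (Icc 0 π) := by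
    apply monotoneOn_of_deriv_nonneg (convex_Icc 0 π)
    · exact fun z _ => (hd z).continuousAt.continuousWithinAt
    · exact fun z _ => (hd z).differentiableAt.differentiableWithinAt
    · intro z hz
      rw [interior_Icc] at hz
      rw [(hd z).deriv]
      have h1 : 0 ≤ sin z := (sin_pos_of_pos_of_lt_pi hz.1 hz.2).le
      have h2 : sin z ≤ z := sin_le hz.1.le
      have h3 : cos z ≤ 1 := cos_le_one z
      have h4 : sin z * cos z ≤ z := by nlinarith
      have : 0 ≤ z - sin z * cos z := by linarith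
      positivity
  have := hmono (mem_Icc.2 ⟨le_rfl, pi_pos.le⟩) (mem_Icc.2 ⟨hy, hy'⟩) hy
  simpa using this

/-- `y² / sinh² y + y² / 3` is nondecreasing. -/
lemma hyp_mono {y z : ℝ} (hy : 0 < y) (hyz : y ≤ z) :
    y ^ 2 / sinh y ^ 2 + y ^ 2 / 3 ≤ z ^ 2 / sinh z ^ 2 + z ^ 2 / 3 := by
  have hd : ∀ w : ℝ, 0 < w → HasDerivAt (fun w : ℝ => w ^ 2 / sinh w ^ 2 + w ^ 2 / 3)
      (2 * w / (3 * sinh w ^ 3) * (sinh w ^ 3 + 3 * sinh w - 3 * (w * cosh w))) w := by
    intro w hw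
    have hs : sinh w ≠ 0 := (sinh_pos_iff.2 hw).ne'
    have h1 := ((hasDerivAt_id w).pow 2).div ((hasDerivAt_sinh w).pow 2) (pow_ne_zero 2 hs)
    have h2 := ((hasDerivAt_id w).pow 2).div_const 3
    refine (h1.add h2).congr_deriv ?_
    simp only [Pi.pow_apply, id]
    push_cast
    field_simp
    ring
  have hmono : MonotoneOn (fun w : ℝ => w ^ 2 / sinh w ^ 2 + w ^ 2 / 3) (Ioi 0) := by
    apply monotoneOn_of_deriv_nonneg (convex_Ioi 0)
    · exact fun w hw => (hd w hw).continuousAt.continuousWithinAt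
    · intro w hw
      rw [interior_Ioi] at hw
      exact (hd w hw).differentiableAt.differentiableWithinAt
    · intro w hw
      rw [interior_Ioi] at hw
      have hw0 : 0 < w := hw
      rw [(hd w hw).deriv]
      have h1 : 0 < sinh w := sinh_pos_iff.2 hw0
      have h2 := sinh_aux hw0.le
      positivity
  exact hmono (mem_Ioi.2 hy) (mem_Ioi.2 (hy.trans_le hyz)) hyz

/-- `y² / sin² y - y² / 3` is nondecreasing on `(0, π)`. -/
lemma trig_mono {y z : ℝ} (hy : 0 < y) (hyz : y ≤ z) (hz : z < π) :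
    y ^ 2 / sin y ^ 2 - y ^ 2 / 3 ≤ z ^ 2 / sin z ^ 2 - z ^ 2 / 3 := by
  have hd : ∀ w : ℝ, w ∈ Ioo 0 π → HasDerivAt (fun w : ℝ => w ^ 2 / sin w ^ 2 - w ^ 2 / 3)
      (2 * w / (3 * sin w ^ 3) * (3 * (sin w - w * cos w) - sin w ^ 3)) w := by
    intro w hw
    have hs : sin w ≠ 0 := (sin_pos_of_pos_of_lt_pi hw.1 hw.2).ne'
    have h1 := ((hasDerivAt_id w).pow 2).div ((hasDerivAt_sin w).pow 2) (pow_ne_zero 2 hs)
    have h2 := ((hasDerivAt_id w).pow 2).div_const 3
    refine (h1.sub h2).congr_deriv ?_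
    simp only [Pi.pow_apply, id]
    push_cast
    field_simp
  have hmono : MonotoneOn (fun w : ℝ => w ^ 2 / sin w ^ 2 - w ^ 2 / 3) (Ioo 0 π) := by
    apply monotoneOn_of_deriv_nonneg (convex_Ioo 0 π)
    · exact fun w hw => (hd w hw).continuousAt.continuousWithinAt
    · intro w hw
      rw [interior_Ioo] at hw
      exact (hd w hw).differentiableAt.differentiableWithinAt
    · intro w hw
      rw [interior_Ioo] at hw
      rw [(hd w hw).deriv]
      have h1 : 0 < sin w := sin_pos_of_pos_of_lt_pi hw.1 hw.2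
      have h2 := sin_aux hw.1.le hw.2.le
      have h3 : 0 < w := hw.1
      positivity
  exact hmono ⟨hy, hyz.trans_lt hz⟩ ⟨hy.trans_le hyz, hz⟩ hyz

/-- the variance of a pair is at most its value at `t = 0`. -/
lemma var_le {c u : ℝ} (hc : 1 ≤ c) (hu : 0 < u) :
    1 / sinh u ^ 2 - c ^ 2 / sinh (c * u) ^ 2 ≤ (c ^ 2 - 1) / 3 := by
  have h1 : u ≤ c * u := by nlinarith
  have h2 := hyp_mono hu h1
  have hu2 : 0 < u ^ 2 := by positivity
  have h3 : u ^ 2 * (1 / sinh u ^ 2 + 1 / 3) ≤ u ^ 2 * (c ^ 2 / sinh (c * u) ^ 2 + c ^ 2 / 3) := by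
    have e1 : u ^ 2 * (1 / sinh u ^ 2 + 1 / 3) = u ^ 2 / sinh u ^ 2 + u ^ 2 / 3 := by ring
    have e2 : u ^ 2 * (c ^ 2 / sinh (c * u) ^ 2 + c ^ 2 / 3)
        = (c * u) ^ 2 / sinh (c * u) ^ 2 + (c * u) ^ 2 / 3 := by ring
    rw [e1, e2]
    exact h2
  have h4 := le_of_mul_le_mul_left h3 hu2
  linarith

/-- the variance of a pair is nonnegative. -/
lemma var_nonneg {c u : ℝ} (hc : 1 ≤ c) (hu : 0 < u) :
    0 ≤ 1 / sinh u ^ 2 - c ^ 2 / sinh (c * u) ^ 2 := by
  have hs : 0 < sinh u := sinh_pos_iff.2 hu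
  have h1 : c * sinh u ≤ sinh (c * u) := by
    have hd : ∀ z : ℝ, HasDerivAt (fun z : ℝ => sinh (c * z) - c * sinh z)
        (c * (cosh (c * z) - cosh z)) z := by
      intro z
      have h1 := ((hasDerivAt_id z).const_mul c).sinh
      have h2 := (hasDerivAt_sinh z).const_mul c
      refine (h1.sub h2).congr_deriv ?_
      simp only [id]
      ring
    have hmono : MonotoneOn (fun z : ℝ => sinh (c * z) - c * sinh z) (Ici 0) := by
      apply monotoneOn_of_deriv_nonneg (convex_Ici 0)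
      · exact fun z _ => (hd z).continuousAt.continuousWithinAt
      · exact fun z _ => (hd z).differentiableAt.differentiableWithinAt
      · intro z hz
        rw [interior_Ici] at hz
        have hz0 : 0 < z := hz
        rw [(hd z).deriv]
        have : cosh z ≤ cosh (c * z) := by
          rw [cosh_le_cosh, abs_of_pos hz0, abs_of_pos (by positivity)]
          nlinarith
        have h2 : 0 ≤ cosh (c * z) - cosh z := by linarith
        positivity
    have := hmono (mem_Ici.2 le_rfl) (mem_Ici.2 hu.le) hu.le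
    simp only [mul_zero, sinh_zero, sub_zero] at this
    linarith
  have h2 : 0 < sinh (c * u) := sinh_pos_iff.2 (by positivity)
  rw [sub_nonneg, div_le_div_iff₀ (by positivity) (by positivity)]
  have h3 : 0 ≤ c * sinh u := by positivity
  nlinarith [mul_self_le_mul_self h3 h1]

/-- the case `t = 0`. -/
lemma sin_pair {c x : ℝ} (hc : 1 ≤ c) (hx : 0 ≤ x) (hx' : x ≤ π / 2) :
    sin (c * x) ^ 2 * (1 + sin x ^ 2 * ((c ^ 2 - 1) / 3)) ≤ c ^ 2 * sin x ^ 2 := by
  rcases hx.eq_or_lt with h0 | h0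
  · subst h0
    simp
  have hsx : 0 < sin x := sin_pos_of_pos_of_lt_pi h0 (by linarith [pi_pos])
  by_cases hS : sin (c * x) = 0
  · rw [hS]
    simp only [ne_eq, OfNat.ofNat_ne_zero, not_false_eq_true, zero_pow, zero_mul]
    positivity
  have hS2 : 0 < sin (c * x) ^ 2 := by positivity
  -- it is enough to show `1 / sin² x + (c² - 1) / 3 ≤ c² / sin² (c x)`
  suffices h : 1 / sin x ^ 2 + (c ^ 2 - 1) / 3 ≤ c ^ 2 / sin (c * x) ^ 2 by
    have h1 := mul_le_mul_of_nonneg_left h (show 0 ≤ sin x ^ 2 * sin (c * x) ^ 2 by positivity)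
    have e1 : sin x ^ 2 * sin (c * x) ^ 2 * (1 / sin x ^ 2 + (c ^ 2 - 1) / 3)
        = sin (c * x) ^ 2 * (1 + sin x ^ 2 * ((c ^ 2 - 1) / 3)) := by
      field_simp
    have e2 : sin x ^ 2 * sin (c * x) ^ 2 * (c ^ 2 / sin (c * x) ^ 2) = c ^ 2 * sin x ^ 2 := by
      field_simp
    rw [e1, e2] at h1
    exact h1
  by_cases hcx : c * x < π
  · have h1 : x ≤ c * x := by nlinarith
    have h2 := trig_mono h0 h1 hcx
    have hx2 : 0 < x ^ 2 := by positivity
    have h3 : x ^ 2 * (1 / sin x ^ 2 - 1 / 3) ≤ x ^ 2 * (c ^ 2 / sin (c * x) ^ 2 - c ^ 2 / 3) := by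
      have e1 : x ^ 2 * (1 / sin x ^ 2 - 1 / 3) = x ^ 2 / sin x ^ 2 - x ^ 2 / 3 := by ring
      have e2 : x ^ 2 * (c ^ 2 / sin (c * x) ^ 2 - c ^ 2 / 3)
          = (c * x) ^ 2 / sin (c * x) ^ 2 - (c * x) ^ 2 / 3 := by ring
      rw [e1, e2]
      exact h2
    have h4 := le_of_mul_le_mul_left h3 hx2
    linarith
  · push Not at hcx
    have h1 : c ^ 2 ≤ c ^ 2 / sin (c * x) ^ 2 := by
      rw [le_div_iff₀ hS2]
      have : sin (c * x) ^ 2 ≤ 1 := sin_sq_le_one _
      nlinarith [sq_nonneg c]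
    have h2 : 2 / π * x ≤ sin x := mul_le_sin hx hx'
    have h3 : 2 ≤ c * sin x := by
      have : c * (2 / π * x) ≤ c * sin x := mul_le_mul_of_nonneg_left h2 (by linarith)
      have e : c * (2 / π * x) = 2 / π * (c * x) := by ring
      have h4 : 2 / π * π ≤ 2 / π * (c * x) := mul_le_mul_of_nonneg_left hcx (by positivity)
      have e2 : 2 / π * π = 2 := by field_simp
      linarith
    have h5 : 1 / sin x ^ 2 ≤ c ^ 2 / 4 := by
      rw [div_le_div_iff₀ (by positivity) (by norm_num)]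
      nlinarith
    have : 0 ≤ c ^ 2 := sq_nonneg c
    linarith

/-- **Lemma E**. -/
theorem pairE {c x u : ℝ} (hc : 1 ≤ c) (hu : 0 < u) (hx : 0 ≤ x) (hx' : x ≤ π / 2) :
    (1 + sin (c * x) ^ 2 / sinh (c * u) ^ 2) *
      (1 + sin x ^ 2 * (1 / sinh u ^ 2 - c ^ 2 / sinh (c * u) ^ 2))
      ≤ 1 + sin x ^ 2 / sinh u ^ 2 := by
  have h1 := sin_pair hc hx hx'
  have h2 := var_le hc hu
  have h3 : sin (c * x) ^ 2 * (1 + sin x ^ 2 * (1 / sinh u ^ 2 - c ^ 2 / sinh (c * u) ^ 2))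
      ≤ c ^ 2 * sin x ^ 2 := by
    refine le_trans ?_ h1
    apply mul_le_mul_of_nonneg_left _ (sq_nonneg _)
    have := mul_le_mul_of_nonneg_left h2 (sq_nonneg (sin x))
    linarith
  have hB : 0 ≤ 1 / sinh (c * u) ^ 2 := by positivity
  have h4 := mul_le_mul_of_nonneg_left h3 hB
  have e : (1 + sin (c * x) ^ 2 / sinh (c * u) ^ 2) *
      (1 + sin x ^ 2 * (1 / sinh u ^ 2 - c ^ 2 / sinh (c * u) ^ 2))
      = 1 + sin x ^ 2 * (1 / sinh u ^ 2) - 1 / sinh (c * u) ^ 2 * (c ^ 2 * sin x ^ 2)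
        + 1 / sinh (c * u) ^ 2 * (sin (c * x) ^ 2 *
          (1 + sin x ^ 2 * (1 / sinh u ^ 2 - c ^ 2 / sinh (c * u) ^ 2))) := by
    ring
  rw [e]
  have e2 : sin x ^ 2 / sinh u ^ 2 = sin x ^ 2 * (1 / sinh u ^ 2) := by ring
  rw [e2]
  linarith

/-- Lemma E for a natural number `c` holds for all real `x`. -/
theorem pairE_nat {c : ℕ} {x u : ℝ} (hc : 1 ≤ c) (hu : 0 < u) :
    (1 + sin (c * x) ^ 2 / sinh (c * u) ^ 2) *
      (1 + sin x ^ 2 * (1 / sinh u ^ 2 - (c : ℝ) ^ 2 / sinh (c * u) ^ 2))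
      ≤ 1 + sin x ^ 2 / sinh u ^ 2 := by
  -- reduce to `|y| ≤ π / 2`
  obtain ⟨m, y, hxy, hy⟩ : ∃ (m : ℤ) (y : ℝ), x = y + m * π ∧ |y| ≤ π / 2 := by
    refine ⟨round (x / π), x - round (x / π) * π, by ring, ?_⟩
    have h := abs_sub_round (x / π)
    have e : x - round (x / π) * π = (x / π - round (x / π)) * π := by
      field_simp
    rw [e, abs_mul, abs_of_pos pi_pos]
    nlinarith [pi_pos]
  have e1 : sin x ^ 2 = sin |y| ^ 2 := by
    have h1 : sin x ^ 2 = sin y ^ 2 := by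
      rw [hxy, sin_add_int_mul_pi, mul_pow]
      have : ((-1 : ℝ) ^ m) ^ 2 = 1 := by
        rw [← zpow_natCast, ← zpow_mul, mul_comm, zpow_mul]
        norm_num
      rw [this, one_mul]
    rw [h1]
    rcases abs_cases y with h | h
    · rw [h.1]
    · rw [h.1, sin_neg]; ring
  have e2 : sin (c * x) ^ 2 = sin (c * |y|) ^ 2 := by
    have h1 : sin (c * x) ^ 2 = sin (c * y) ^ 2 := by
      have : (c : ℝ) * x = c * y + ((c * m : ℤ) : ℝ) * π := by
        rw [hxy]; push_cast; ring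
      rw [this, sin_add_int_mul_pi, mul_pow]
      have : ((-1 : ℝ) ^ (c * m : ℤ)) ^ 2 = 1 := by
        rw [← zpow_natCast, ← zpow_mul, mul_comm, zpow_mul]
        norm_num
      rw [this, one_mul]
    rw [h1]
    rcases abs_cases y with h | h
    · rw [h.1]
    · rw [h.1, mul_neg, sin_neg]; ring
  rw [e1, e2]
  exact pairE (by exact_mod_cast hc) hu (abs_nonneg y) hy

end CF17.N3
end
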