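import Pool.Agent.Lib.MP_cf17a0_co.Far.Fu0
import Pool.Agent.Lib.MP_cf17a0_co.S1.F2d
import Pool.Agent.Lib.MP_cf17a0_co.Mg.G007

section

/-! # FAR arcs: the harmonics on one interval of `θ` (task FUp5) -/

namespace Pool.Agent.SignedQ.Far

open Real Finset

/-! Interval p5. Lower bounds `s l` of `|sin (l (π+θ)/2)|` (for even `l` this is `|sin (l θ/2)|`, for odd `l`
`|cos (l θ/2)|`) on the interval: l = 1: s = 0.921; l = 2: s = 0.554; l = 3: s = 0.534; l = 4: s = 0.905; l = 5: cap (`HS_le_cap`, c = 5). They come from `sin u ≥ u - u³/6` with `u` = the distance of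
`l (π+θ)/2` to the nearest multiple of `π` at the worse end of the interval (`|sin|` is concave between its
zeros). The last term: `K_term_le` with `c = 0.91552` rounded up (`cosh T ≤ 1.0001` since `T ≤ 1/78`).
Then `log (1/T) = log (1/(kT)) + log k`, `log T = -log (1/T)`, `log (1/(kT)) ≥ log 3 > 0`, the numbers of Fn, `log_fact_ge0`,
numerical bounds of `log 10`, `log 3`, `log 6` and of `log c`; every coefficient below is rounded up by `≥ 0`
(up to `10⁻⁴`; if a coefficient fails by rounding tell me: there is slack). -/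

private theorem p5_sin_one {θ : ℝ} (h0 : 59 / 100 ≤ θ) (h1 : θ ≤ 67 / 100) :
    (0.921 : ℝ) ≤ |sin ((1 : ℕ) * (π + θ) / 2)| := by
  have e : ((1 : ℕ) : ℝ) * (π + θ) / 2 = θ / 2 + π / 2 := by push_cast; ring
  rw [e, sin_add_pi_div_two]
  refine le_trans ?_ (le_abs_self _)
  have h := one_sub_sq_div_two_le_cos (x := θ / 2)
  nlinarith

private theorem p5_sin_two {θ : ℝ} (h0 : 59 / 100 ≤ θ) (h1 : θ ≤ 67 / 100) :
    (0.554 : ℝ) ≤ |sin ((2 : ℕ) * (π + θ) / 2)| := by
  have e : ((2 : ℕ) : ℝ) * (π + θ) / 2 = θ + π := by push_cast; ring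
  rw [e, sin_add_pi, abs_neg]
  refine le_trans ?_ (le_abs_self _)
  have hp := pi_gt_three
  have h2 : sin (59 / 100) ≤ sin θ := sin_le_sin_of_le_of_le_pi_div_two (by linarith) (by linarith) h0
  have h3 := sin_ge_sub_cube (x := 59 / 100) (by norm_num)
  norm_num at h3 ⊢
  linarith

private theorem p5_sin_three {θ : ℝ} (h0 : 59 / 100 ≤ θ) (h1 : θ ≤ 67 / 100) :
    (0.534 : ℝ) ≤ |sin ((3 : ℕ) * (π + θ) / 2)| := by
  have e : ((3 : ℕ) : ℝ) * (π + θ) / 2 = (3 * θ / 2 + π / 2) + π := by push_cast; ring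
  rw [e, sin_add_pi, sin_add_pi_div_two, abs_neg]
  refine le_trans ?_ (le_abs_self _)
  rw [← sin_pi_div_two_sub]
  have hp := pi_gt_d4
  have hp2 := pi_lt_d4
  have h2 : sin (5657 / 10000) ≤ sin (π / 2 - 3 * θ / 2) :=
    sin_le_sin_of_le_of_le_pi_div_two (by linarith) (by linarith) (by linarith)
  have h3 := sin_ge_sub_cube (x := 5657 / 10000) (by norm_num)
  norm_num at h3 ⊢
  linarith

private theorem p5_sin_four {θ : ℝ} (h0 : 59 / 100 ≤ θ) (h1 : θ ≤ 67 / 100) :
    (0.905 : ℝ) ≤ |sin ((4 : ℕ) * (π + θ) / 2)| := by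
  have e : ((4 : ℕ) : ℝ) * (π + θ) / 2 = 2 * θ + 2 * π := by push_cast; ring
  rw [e, sin_add_two_pi]
  refine le_trans ?_ (le_abs_self _)
  have hp := pi_gt_three
  have h2 : sin (118 / 100) ≤ sin (2 * θ) :=
    sin_le_sin_of_le_of_le_pi_div_two (by linarith) (by linarith) (by linarith)
  have h3 := sin_ge_sub_cube (x := 118 / 100) (by norm_num)
  norm_num at h3 ⊢
  linarith

private theorem p5_cosh {T : ℝ} (hT : 0 < T) (hT1 : T ≤ 1 / 78) : cosh T ≤ 1.0001 := by
  have h1 := cosh_le_exp_half_sq T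
  have h2 : T ^ 2 / 2 ≤ 1 / 12168 := by nlinarith
  have h3 : exp (T ^ 2 / 2) ≤ exp (1 / 12168) := exp_le_exp.2 h2
  have h4 : exp (1 / 12168) ≤ 1 / (1 - 1 / 12168) := by
    have h5 := add_one_le_exp (-(1 / 12168) : ℝ)
    rw [exp_neg] at h5
    have h6 : 0 < exp (1 / 12168 : ℝ) := exp_pos _
    rw [le_div_iff₀ (by norm_num)]
    have h7 : (exp (1 / 12168 : ℝ))⁻¹ * exp (1 / 12168 : ℝ) = 1 := inv_mul_cancel₀ h6.ne'
    nlinarith
  norm_num at h4 ⊢
  linarith

private theorem p5_cos {θ : ℝ} (h0 : 59 / 100 ≤ θ) (h1 : θ ≤ 67 / 100) : cos θ ≤ 0.83097 := by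
  have e : cos θ = 1 - 2 * sin (θ / 2) ^ 2 := by
    have h := cos_sq' (θ / 2)
    have h' := cos_two_mul (θ / 2)
    rw [show 2 * (θ / 2) = θ by ring] at h'
    rw [h', h]
    ring
  have hp := pi_gt_three
  have h2 : sin (295 / 1000) ≤ sin (θ / 2) :=
    sin_le_sin_of_le_of_le_pi_div_two (by linarith) (by linarith) (by linarith)
  have h3 := sin_ge_sub_cube (x := 295 / 1000) (by norm_num)
  have h4 : (0.29072 : ℝ) ≤ sin (θ / 2) := by
    norm_num at h3 ⊢
    linarith
  rw [e]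
  norm_num at h4 ⊢
  nlinarith

private theorem p5_log {x y : ℝ} (hx : 0 < x) (h : x ≤ ∑ m ∈ Finset.range 9, y ^ m / (m.factorial : ℝ))
    (hy : 0 ≤ y) : log x ≤ y := by
  rw [log_le_iff_le_exp hx]
  exact h.trans (sum_le_exp_of_nonneg hy 9)

private theorem p5_logc : log (0.91555 : ℝ) ≤ -0.08822 := by
  have h : (0.08822 : ℝ) ≤ log (1 / 0.91555) := by
    rw [le_log_iff_exp_le (by norm_num)]
    have h := exp_bound' (x := 0.08822) (by norm_num) (by norm_num) (n := 5) (by norm_num)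
    refine h.trans ?_
    norm_num [Finset.sum_range_succ, Nat.factorial]
  rw [one_div, log_inv] at h
  linarith

/-- lower bounds of the sines -/
private noncomputable def p5_s (l : ℕ) : ℝ :=
  if l = 1 then 0.921 else if l = 2 then 0.554 else if l = 3 then 0.534 else 0.905

private theorem p5_core {k : ℕ} (hk : 26 ≤ k) {T θ v : ℝ} (hT : 0 < T) (hv : k * T ≤ v)
    (hv3 : v ≤ 1 / 3) (h0 : 59 / 100 ≤ θ) (h1 : θ ≤ 67 / 100) :
    HS k T θ + (((k + 1) / 2 : ℕ) : ℝ) / 2 * log ((cosh T + cos θ) / 2) ≤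
      (0.41 * (1 / 0.921 - 11 / 12) + (dd 1 v + 0.41 * (log v + log (1 / (k * T)))) * (1 / (2 * 0.921))) +
      (2 / 9 * (1 / 0.554 - 11 / 12) + (dd 2 v + 2 / 9 * (log v + log (1 / (k * T)))) * (1 / (2 * 0.554))) +
      (1 / 6 * (1 / 0.534 - 11 / 12) + (dd 3 v + 1 / 6 * (log v + log (1 / (k * T)))) * (1 / (2 * 0.534))) +
      (1 / 9 * (1 / 0.905 - 11 / 12) + (dd 4 v + 1 / 9 * (log v + log (1 / (k * T)))) * (1 / (2 * 0.905))) +
      (k * (dd 5 v + 1 / 18 * log v) + 1 / 18 * (k * log (1 / (k * T)) + k - 1 / 2 * log k - 0.846)) +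
      1 / 2 * (dd 5 v + 1 / 18 * (log v + (log (1 / (k * T)) + log k))) -
      5 / 12 * (log (1 / (k * T)) + log k) - log 6 / 12 + T / 4 + k / 4 * (-0.08822) := by
  have hk0 : (0 : ℝ) < k := by
    have : (26 : ℝ) ≤ k := by exact_mod_cast hk
    linarith
  have hk26 : (26 : ℝ) ≤ k := by exact_mod_cast hk
  have hT78 : T ≤ 1 / 78 := by nlinarith
  have hlT : log T = -(log (1 / (k * T)) + log k) := by
    rw [one_div, log_inv, log_mul hk0.ne' hT.ne']
    ring
  have hl1T : log (1 / T) = log (1 / (k * T)) + log k := by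
    rw [one_div T, log_inv, hlT]
    ring
  have hH := HS_le_cap (k := k) (by omega) hT hv θ p5_s (c := 5) (by norm_num) (by norm_num) (by
    intro l hl1 hl5 hlc
    interval_cases l
    · exact ⟨by norm_num [p5_s], by simpa [p5_s] using p5_sin_one h0 h1⟩
    · exact ⟨by norm_num [p5_s], by simpa [p5_s] using p5_sin_two h0 h1⟩
    · exact ⟨by norm_num [p5_s], by simpa [p5_s] using p5_sin_three h0 h1⟩
    · exact ⟨by norm_num [p5_s], by simpa [p5_s] using p5_sin_four h0 h1⟩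
    · exact absurd rfl hlc)
  have hE : (Icc 1 5).erase 5 = ({1, 2, 3, 4} : Finset ℕ) := by decide
  rw [hE] at hH
  have a1 : al 1 = 0.41 := by norm_num [al]
  have a2 : al 2 = 2 / 9 := by norm_num [al]
  have a3 : al 3 = 1 / 6 := by norm_num [al]
  have a4 : al 4 = 1 / 9 := by norm_num [al]
  have a5 : al 5 = 1 / 18 := by norm_num [al]
  have s1 : p5_s 1 = 0.921 := by simp [p5_s]
  have s2 : p5_s 2 = 0.554 := by simp [p5_s]
  have s3 : p5_s 3 = 0.534 := by simp [p5_s]
  have s4 : p5_s 4 = 0.905 := by simp [p5_s]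
  rw [Finset.sum_insert (by decide), Finset.sum_insert (by decide), Finset.sum_insert (by decide),
    Finset.sum_singleton, a1, a2, a3, a4, a5, s1, s2, s3, s4, hl1T, hlT] at hH
  have hf := log_fact_ge0 (k := k) (by omega)
  have hK := K_term_le (k := k) (T := T) (θ := θ) (c := 0.91555) hT (neg_one_le_cos θ) (by
    have := p5_cosh hT hT78
    have := p5_cos h0 h1
    norm_num at *
    linarith) (by norm_num) (by norm_num)
  have hc := p5_logc
  have hK2 : (k : ℝ) / 4 * log 0.91555 ≤ k / 4 * (-0.08822) :=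
    mul_le_mul_of_nonneg_left hc (by positivity)
  have hkl : (k : ℝ) * (log (1 / (k * T)) + log k) - log (k.factorial : ℝ) ≤
      k * log (1 / (k * T)) + k - 1 / 2 * log k - 0.846 := by linarith
  have hkl2 : (1 : ℝ) / 18 * (k * (log (1 / (k * T)) + log k) - log (k.factorial : ℝ)) ≤
      1 / 18 * (k * log (1 / (k * T)) + k - 1 / 2 * log k - 0.846) :=
    mul_le_mul_of_nonneg_left hkl (by norm_num)
  linarith

private theorem p5_log_three : (1.0985 : ℝ) ≤ log 3 := by
  have h2 := log_two_gt_d9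
  have h : (0.4054 : ℝ) ≤ log (3 / 2) := by
    rw [le_log_iff_exp_le (by norm_num)]
    have h := exp_bound' (x := 0.4054) (by norm_num) (by norm_num) (n := 7) (by norm_num)
    refine h.trans ?_
    norm_num [Finset.sum_range_succ, Nat.factorial]
  rw [log_div (by norm_num) (by norm_num)] at h
  linarith

private theorem p5_log_ten : (2.3025 : ℝ) ≤ log 10 := by
  have h2 := log_two_gt_d9
  have h : (0.2231 : ℝ) ≤ log (10 / 8) := by
    rw [le_log_iff_exp_le (by norm_num)]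
    have h := exp_bound' (x := 0.2231) (by norm_num) (by norm_num) (n := 7) (by norm_num)
    refine h.trans ?_
    norm_num [Finset.sum_range_succ, Nat.factorial]
  have h8 : log (8 : ℝ) = 3 * log 2 := by
    rw [show (8 : ℝ) = 2 ^ 3 by norm_num, log_pow]
    norm_num
  rw [log_div (by norm_num) (by norm_num), h8] at h
  linarith

private theorem p5_log_six : (1.7916 : ℝ) ≤ log 6 := by
  have h2 := log_two_gt_d9
  have h3 := p5_log_three
  rw [show (6 : ℝ) = 2 * 3 by norm_num, log_mul (by norm_num) (by norm_num)]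
  linarith

theorem U_p5_ten {k : ℕ} (hk : 26 ≤ k) {T θ : ℝ} (hT : 0 < T) (hv : k * T ≤ 1 / 10)
    (h0 : 59 / 100 ≤ θ) (h1 : θ ≤ 67 / 100) :
    HS k T θ + (((k + 1) / 2 : ℕ) : ℝ) / 2 * log ((cosh T + cos θ) / 2) ≤
      (-0.0074) * k + 0.0556 * (k * log (1 / (k * T))) + 0.2517 * log (1 / (k * T)) +
        (-0.4166) * log k + 0.2416 := by
  have hk26 : (26 : ℝ) ≤ k := by exact_mod_cast hk
  have hk0 : (0 : ℝ) < k := by linarith
  have hkT : 0 < k * T := mul_pos hk0 hT
  have hL : 0 ≤ log (1 / (k * T)) := by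
    apply log_nonneg
    rw [le_div_iff₀ hkT]
    linarith
  have hlk : 0 ≤ log (k : ℝ) := log_nonneg (by linarith)
  have hT4 : T ≤ 1 / 260 := by nlinarith
  have h := p5_core hk hT hv (by norm_num) h0 h1
  have d1 := dd_one_tenth
  have d2 := dd_two_tenth
  have d3 := dd_three_tenth
  have d4 := dd_four_tenth
  have d5 := dd_five_tenth
  have hl10 := p5_log_ten
  have hl6 := p5_log_six
  have hlv : log (1 / 10 : ℝ) ≤ -2.3025 := by
    rw [one_div, log_inv]
    linarith
  have e1 : (k : ℝ) * dd 5 (1 / 10) ≤ k * 0.087 := mul_le_mul_of_nonneg_left d5 hk0.le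
  have e2 : (k : ℝ) * log (1 / 10 : ℝ) ≤ k * (-2.3025) := mul_le_mul_of_nonneg_left hlv hk0.le
  have e3 : 0 ≤ (k : ℝ) * log (1 / (k * T)) := mul_nonneg hk0.le hL
  refine h.trans ?_
  generalize log (1 / ((k : ℝ) * T)) = L at *
  generalize log (1 / 10 : ℝ) = V at *
  generalize log (k : ℝ) = M at *
  generalize log (6 : ℝ) = S at *
  norm_num at *
  nlinarith

theorem U_p5_three {k : ℕ} (hk : 26 ≤ k) {T θ : ℝ} (hT : 0 < T) (hv : k * T ≤ 1 / 3)
    (h0 : 59 / 100 ≤ θ) (h1 : θ ≤ 67 / 100) :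
    HS k T θ + (((k + 1) / 2 : ℕ) : ℝ) / 2 * log ((cosh T + cos θ) / 2) ≤
      (-0.0002) * k + 0.0556 * (k * log (1 / (k * T))) + 0.2517 * log (1 / (k * T)) +
        (-0.4166) * log k + 0.344 := by
  have hk26 : (26 : ℝ) ≤ k := by exact_mod_cast hk
  have hk0 : (0 : ℝ) < k := by linarith
  have hkT : 0 < k * T := mul_pos hk0 hT
  have hL : 0 ≤ log (1 / (k * T)) := by
    apply log_nonneg
    rw [le_div_iff₀ hkT]
    linarith
  have hlk : 0 ≤ log (k : ℝ) := log_nonneg (by linarith)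
  have hT4 : T ≤ 1 / 78 := by nlinarith
  have h := p5_core hk hT hv (by norm_num) h0 h1
  have d1 := dd_one_third
  have d2 := dd_two_third
  have d3 := dd_three_third
  have d4 := dd_four_third
  have d5 := dd_five_third
  have hl3 := p5_log_three
  have hl6 := p5_log_six
  have hlv : log (1 / 3 : ℝ) ≤ -1.0985 := by
    rw [one_div, log_inv]
    linarith
  have e1 : (k : ℝ) * dd 5 (1 / 3) ≤ k * 0.0273 := mul_le_mul_of_nonneg_left d5 hk0.le
  have e2 : (k : ℝ) * log (1 / 3 : ℝ) ≤ k * (-1.0985) := mul_le_mul_of_nonneg_left hlv hk0.le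
  have e3 : 0 ≤ (k : ℝ) * log (1 / (k * T)) := mul_nonneg hk0.le hL
  refine h.trans ?_
  generalize log (1 / ((k : ℝ) * T)) = L at *
  generalize log (1 / 3 : ℝ) = V at *
  generalize log (k : ℝ) = M at *
  generalize log (6 : ℝ) = S at *
  norm_num at *
  nlinarith

end Pool.Agent.SignedQ.Far
end

section

/-! # FAR arcs: the harmonics on one interval of `θ` (task FUq) -/

namespace Pool.Agent.SignedQ.Far

open Real Finset

/-! Interval q. Lower bounds `s l` of `|sin (l (π+θ)/2)|` (for even `l` this is `|sin (l θ/2)|`, for odd `l`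
`|cos (l θ/2)|`) on the interval: l = 1: s = 0.496; l = 2: s = 0.852; l = 3: s = 0.771; l = 4: s = 0.137; l = 5: cap (`HS_le_cap`, c = 5). They come from `sin u ≥ u - u³/6` with `u` = the distance of
`l (π+θ)/2` to the nearest multiple of `π` at the worse end of the interval (`|sin|` is concave between its
zeros). The last term: `K_term_le` with `c = 0.46548` rounded up (`cosh T ≤ 1.0001` since `T ≤ 1/78`).
Then `log (1/T) = log (1/(kT)) + log k`, `log T = -log (1/T)`, `log (1/(kT)) ≥ log 3 > 0`, the numbers of Fn, `log_fact_ge0`,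
numerical bounds of `log 10`, `log 3`, `log 6` and of `log c`; every coefficient below is rounded up by `≥ 0`
(up to `10⁻⁴`; if a coefficient fails by rounding tell me: there is slack). -/

private noncomputable def Fuq_s (l : ℕ) : ℝ :=
  if l = 1 then 62 / 125 else if l = 2 then 213 / 250 else if l = 3 then 771 / 1000 else
    137 / 1000

private theorem Fuq_s1 : Fuq_s 1 = 62 / 125 := by norm_num [Fuq_s]
private theorem Fuq_s2 : Fuq_s 2 = 213 / 250 := by norm_num [Fuq_s]
private theorem Fuq_s3 : Fuq_s 3 = 771 / 1000 := by norm_num [Fuq_s]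
private theorem Fuq_s4 : Fuq_s 4 = 137 / 1000 := by norm_num [Fuq_s]

private theorem Fuq_al1 : al 1 = 41 / 100 := by norm_num [al]
private theorem Fuq_al2 : al 2 = 2 / 9 := by norm_num [al]
private theorem Fuq_al3 : al 3 = 1 / 6 := by norm_num [al]
private theorem Fuq_al4 : al 4 = 1 / 9 := by norm_num [al]
private theorem Fuq_al5 : al 5 = 1 / 18 := by norm_num [al]

private theorem Fuq_sum (f : ℕ → ℝ) :
    ∑ l ∈ (Icc 1 5).erase 5, f l = f 1 + f 2 + f 3 + f 4 := by
  have h : (Icc 1 5).erase 5 = ({1, 2, 3, 4} : Finset ℕ) := by decide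
  rw [h]
  simp [Finset.sum_insert]
  ring

/-- `sin u ≤ sin x` for `u ≤ x ≤ π - u`. -/
private theorem Fuq_sin {u x : ℝ} (h0 : 0 ≤ u) (h1 : u ≤ x) (h2 : x ≤ π - u) : sin u ≤ sin x := by
  rcases le_total x (π / 2) with h | h
  · exact sin_le_sin_of_le_of_le_pi_div_two (by linarith [pi_pos]) h h1
  · rw [← sin_pi_sub x]
    exact sin_le_sin_of_le_of_le_pi_div_two (by linarith [pi_pos]) (by linarith) (by linarith)

private theorem Fuq_sin' {u x s : ℝ} (h0 : 0 < u) (h1 : u ≤ x) (h2 : x ≤ π - u)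
    (h : s ≤ u - u ^ 3 / 6) : s ≤ sin x :=
  h.trans ((sin_gt_sub_cube h0).le.trans (Fuq_sin h0.le h1 h2))

private theorem Fuq_hs {θ : ℝ} (h0 : 41 / 25 ≤ θ) (h1 : θ ≤ 21 / 10) :
    ∀ l, 1 ≤ l → l ≤ 5 → l ≠ 5 → 0 < Fuq_s l ∧ Fuq_s l ≤ |sin (l * (π + θ) / 2)| := by
  have p1 := pi_gt_d6
  have p2 := pi_lt_d6
  norm_num at p1 p2
  intro l hl1 hl5 hl
  have hl4 : l ≤ 4 := by omega
  clear hl5 hl
  interval_cases l
  · rw [Fuq_s1]
    refine ⟨by norm_num, ?_⟩
    refine le_trans ?_ (le_abs_self _)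
    have e : ((1 : ℕ) : ℝ) * (π + θ) / 2 = (π + θ) / 2 := by push_cast; ring
    rw [e]
    exact Fuq_sin' (u := 5207 / 10000) (by norm_num) (by linarith) (by linarith) (by norm_num)
  · rw [Fuq_s2]
    refine ⟨by norm_num, ?_⟩
    have e : ((2 : ℕ) : ℝ) * (π + θ) / 2 = θ + π := by push_cast; ring
    rw [e, sin_add_pi, abs_neg]
    refine le_trans ?_ (le_abs_self _)
    exact Fuq_sin' (u := 10415 / 10000) (by norm_num) (by linarith) (by linarith) (by norm_num)
  · rw [Fuq_s3]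
    refine ⟨by norm_num, ?_⟩
    have e : ((3 : ℕ) : ℝ) * (π + θ) / 2 = (3 * θ / 2 - π / 2) + 2 * π := by push_cast; ring
    rw [e, sin_add_two_pi]
    refine le_trans ?_ (le_abs_self _)
    exact Fuq_sin' (u := 8892 / 10000) (by norm_num) (by linarith) (by linarith) (by norm_num)
  · rw [Fuq_s4]
    refine ⟨by norm_num, ?_⟩
    have e : ((4 : ℕ) : ℝ) * (π + θ) / 2 = ((2 * θ - π) + π) + 2 * π := by push_cast; ring
    rw [e, sin_add_two_pi, sin_add_pi, abs_neg]
    refine le_trans ?_ (le_abs_self _)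
    exact Fuq_sin' (u := 1384 / 10000) (by norm_num) (by linarith) (by linarith) (by norm_num)

private theorem Fuq_cosh {T : ℝ} (hT : 0 < T) (hT1 : T ≤ 1 / 78) : cosh T ≤ 10001 / 10000 := by
  have h1 : cosh T ≤ exp (T ^ 2 / 2) := cosh_le_exp_half_sq T
  have h2 : T ^ 2 / 2 ≤ 1 / 12000 := by nlinarith
  have h3 : exp (T ^ 2 / 2) ≤ exp (1 / 12000) := exp_le_exp.2 h2
  have h4 := exp_bound' (x := 1 / 12000) (by norm_num) (by norm_num) (n := 2) (by norm_num)
  norm_num [Finset.sum_range_succ, Nat.factorial] at h4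
  linarith

private theorem Fuq_cos {θ : ℝ} (h0 : 41 / 25 ≤ θ) (h1 : θ ≤ 21 / 10) :
    cos θ ≤ -(6914 / 100000) := by
  have p1 := pi_gt_d6
  have p2 := pi_lt_d6
  norm_num at p1 p2
  have e : cos θ = -sin (θ - π / 2) := by
    rw [sin_sub_pi_div_two, neg_neg]
  rw [e]
  have h := Fuq_sin' (u := 69203 / 1000000) (x := θ - π / 2) (s := 6914 / 100000) (by norm_num)
    (by linarith) (by linarith) (by norm_num)
  linarith

/-- `log 10`, `log 6`, `log 0.46548` -/
private theorem Fuq_log10 : 2302585 / 1000000 ≤ log 10 ∧ log 10 ≤ 2302586 / 1000000 := by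
  have g1 := log_two_gt_d9
  have g2 := log_two_lt_d9
  norm_num at g1 g2
  have h := Fn_bd (x := 5 / 4) (y := (2231435 / 10000000 : ℝ)) (z := (2231437 / 10000000 : ℝ))
    (by norm_num) (by norm_num) (by norm_num) (by norm_num)
    (by norm_num [Finset.sum_range_succ, Nat.factorial])
    (by norm_num [Finset.sum_range_succ, Nat.factorial])
  have e : log (5 / 4) = log 10 - 3 * log 2 := by
    rw [show (5 / 4 : ℝ) = 10 / 2 ^ 3 by norm_num, log_div (by norm_num) (by norm_num), log_pow]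
    push_cast
    ring
  rw [e] at h
  constructor
  · linarith [h.1]
  · linarith [h.2]

private theorem Fuq_log3 : 1098612 / 1000000 ≤ log 3 ∧ log 3 ≤ 1098613 / 1000000 := by
  have g1 := log_two_gt_d9
  have g2 := log_two_lt_d9
  norm_num at g1 g2
  have h := Fn_bd (x := 3 / 2) (y := (4054650 / 10000000 : ℝ)) (z := (4054652 / 10000000 : ℝ))
    (by norm_num) (by norm_num) (by norm_num) (by norm_num)
    (by norm_num [Finset.sum_range_succ, Nat.factorial])
    (by norm_num [Finset.sum_range_succ, Nat.factorial])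
  have e : log (3 / 2) = log 3 - log 2 := log_div (by norm_num) (by norm_num)
  rw [e] at h
  constructor
  · linarith [h.1]
  · linarith [h.2]

private theorem Fuq_log6 : 1791759 / 1000000 ≤ log 6 ∧ log 6 ≤ 1791761 / 1000000 := by
  have g1 := log_two_gt_d9
  have g2 := log_two_lt_d9
  norm_num at g1 g2
  obtain ⟨h1, h2⟩ := Fuq_log3
  have e : log 6 = log 3 + log 2 := by
    rw [show (6 : ℝ) = 3 * 2 by norm_num, log_mul (by norm_num) (by norm_num)]
  rw [e]
  constructor
  · linarith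
  · linarith

private theorem Fuq_logc : log (46548 / 100000) ≤ -(764683 / 1000000) := by
  have g1 := log_two_gt_d9
  have g2 := log_two_lt_d9
  norm_num at g1 g2
  have h := Fn_bd (x := 100000 / 93096) (y := (71536 / 1000000 : ℝ)) (z := (71540 / 1000000 : ℝ))
    (by norm_num) (by norm_num) (by norm_num) (by norm_num)
    (by norm_num [Finset.sum_range_succ, Nat.factorial])
    (by norm_num [Finset.sum_range_succ, Nat.factorial])
  have e : log (46548 / 100000) = -(log (100000 / 93096) + log 2) := by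
    rw [← log_mul (by norm_num) (by norm_num), ← log_inv]
    norm_num
  rw [e]
  linarith [h.1]

/-- the elementary facts about `k`, `T` -/
private theorem Fuq_basic {k : ℕ} (hk : 26 ≤ k) {T : ℝ} (hT : 0 < T) (hv : k * T ≤ 1 / 3) :
    (26 : ℝ) ≤ k ∧ T ≤ 1 / 78 ∧ 0 ≤ log (1 / (k * T)) ∧ 0 ≤ log (k : ℝ) ∧
      log (1 / T) = log (1 / (k * T)) + log (k : ℝ) ∧
      log T = -(log (1 / (k * T)) + log (k : ℝ)) := by
  have hk' : (26 : ℝ) ≤ k := by exact_mod_cast hk
  have hk0 : (0 : ℝ) < k := by linarith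
  have hT1 : T ≤ 1 / 78 := by nlinarith
  have hkT : 0 < (k : ℝ) * T := by positivity
  have h1 : 1 ≤ 1 / ((k : ℝ) * T) := by
    rw [le_div_iff₀ hkT]
    linarith
  have e1 : log (1 / T) = log (1 / (k * T)) + log (k : ℝ) := by
    rw [← log_mul (by positivity) (by positivity)]
    congr 1
    field_simp
  refine ⟨hk', hT1, log_nonneg h1, log_nonneg (by linarith), e1, ?_⟩
  rw [← e1, one_div, log_inv, neg_neg]

theorem U_q_ten {k : ℕ} (hk : 26 ≤ k) {T θ : ℝ} (hT : 0 < T) (hv : k * T ≤ 1 / 10)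
    (h0 : 41 / 25 ≤ θ) (h1 : θ ≤ 21 / 10) :
    HS k T θ + (((k + 1) / 2 : ℕ) : ℝ) / 2 * log ((cosh T + cos θ) / 2) ≤
      (-0.1765) * k + 0.0556 * (k * log (1 / (k * T))) + 0.6685 * log (1 / (k * T)) +
        (-0.4166) * log k + 0.9423 := by
  obtain ⟨hk', hT1, hL, hlk, eT, eT'⟩ := Fuq_basic hk hT (hv.trans (by norm_num))
  have H := HS_le_cap (by omega : 1 ≤ k) hT hv θ Fuq_s (c := 5) (by norm_num) le_rfl
    (Fuq_hs h0 h1)
  have hc : (cosh T + cos θ) / 2 ≤ 46548 / 100000 := by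
    linarith [Fuq_cosh hT hT1, Fuq_cos h0 h1]
  have K := K_term_le (k := k) hT (neg_one_le_cos θ) hc (by norm_num) (by norm_num)
  have F := log_fact_ge0 (by omega : 1 ≤ k)
  have d1 := dd_one_tenth
  have d2 := dd_two_tenth
  have d3 := dd_three_tenth
  have d4 := dd_four_tenth
  have d5 := dd_five_tenth
  obtain ⟨v1, v2⟩ := Fuq_log10
  obtain ⟨w1, w2⟩ := Fuq_log6
  have c1 := Fuq_logc
  have ev : log (1 / 10 : ℝ) = -log 10 := by rw [one_div, log_inv]
  rw [Fuq_sum, eT, eT', ev] at H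
  simp only [Fuq_s1, Fuq_s2, Fuq_s3, Fuq_s4, Fuq_al1, Fuq_al2, Fuq_al3, Fuq_al4, Fuq_al5] at H
  refine (add_le_add H K).trans ?_
  have m1 : (k : ℝ) * dd 5 (1 / 10) ≤ k * 0.087 := mul_le_mul_of_nonneg_left d5 (by linarith)
  have m2 : (k : ℝ) * (2302585 / 1000000) ≤ k * log 10 :=
    mul_le_mul_of_nonneg_left v1 (by linarith)
  have m3 : (k : ℝ) * log (46548 / 100000) ≤ k * (-(764683 / 1000000)) :=
    mul_le_mul_of_nonneg_left c1 (by linarith)
  have m4 : 0 ≤ (k : ℝ) * log (1 / (k * T)) := mul_nonneg (by linarith) hL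
  clear H K hc eT eT' ev
  generalize log (1 / ((k : ℝ) * T)) = L at *
  generalize log ((k.factorial : ℕ) : ℝ) = kf at *
  generalize log (k : ℝ) = lk at *
  generalize log (10 : ℝ) = v at *
  generalize log (6 : ℝ) = w at *
  generalize log (46548 / 100000 : ℝ) = lc at *
  generalize dd 1 (1 / 10) = x1 at *
  generalize dd 2 (1 / 10) = x2 at *
  generalize dd 3 (1 / 10) = x3 at *
  generalize dd 4 (1 / 10) = x4 at *
  generalize dd 5 (1 / 10) = x5 at *
  generalize (k : ℝ) = K at *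
  norm_num at *
  nlinarith

theorem U_q_three {k : ℕ} (hk : 26 ≤ k) {T θ : ℝ} (hT : 0 < T) (hv : k * T ≤ 1 / 3)
    (h0 : 41 / 25 ≤ θ) (h1 : θ ≤ 21 / 10) :
    HS k T θ + (((k + 1) / 2 : ℕ) : ℝ) / 2 * log ((cosh T + cos θ) / 2) ≤
      (-0.1693) * k + 0.0556 * (k * log (1 / (k * T))) + 0.6685 * log (1 / (k * T)) +
        (-0.4166) * log k + 1.1443 := by
  obtain ⟨hk', hT1, hL, hlk, eT, eT'⟩ := Fuq_basic hk hT hv
  have H := HS_le_cap (by omega : 1 ≤ k) hT hv θ Fuq_s (c := 5) (by norm_num) le_rfl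
    (Fuq_hs h0 h1)
  have hc : (cosh T + cos θ) / 2 ≤ 46548 / 100000 := by
    linarith [Fuq_cosh hT hT1, Fuq_cos h0 h1]
  have K := K_term_le (k := k) hT (neg_one_le_cos θ) hc (by norm_num) (by norm_num)
  have F := log_fact_ge0 (by omega : 1 ≤ k)
  have d1 := dd_one_third
  have d2 := dd_two_third
  have d3 := dd_three_third
  have d4 := dd_four_third
  have d5 := dd_five_third
  obtain ⟨v1, v2⟩ := Fuq_log3
  obtain ⟨w1, w2⟩ := Fuq_log6
  have c1 := Fuq_logc
  have ev : log (1 / 3 : ℝ) = -log 3 := by rw [one_div, log_inv]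
  rw [Fuq_sum, eT, eT', ev] at H
  simp only [Fuq_s1, Fuq_s2, Fuq_s3, Fuq_s4, Fuq_al1, Fuq_al2, Fuq_al3, Fuq_al4, Fuq_al5] at H
  refine (add_le_add H K).trans ?_
  have m1 : (k : ℝ) * dd 5 (1 / 3) ≤ k * 0.0273 := mul_le_mul_of_nonneg_left d5 (by linarith)
  have m2 : (k : ℝ) * (1098612 / 1000000) ≤ k * log 3 :=
    mul_le_mul_of_nonneg_left v1 (by linarith)
  have m3 : (k : ℝ) * log (46548 / 100000) ≤ k * (-(764683 / 1000000)) :=
    mul_le_mul_of_nonneg_left c1 (by linarith)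
  have m4 : 0 ≤ (k : ℝ) * log (1 / (k * T)) := mul_nonneg (by linarith) hL
  clear H K hc eT eT' ev
  generalize log (1 / ((k : ℝ) * T)) = L at *
  generalize log ((k.factorial : ℕ) : ℝ) = kf at *
  generalize log (k : ℝ) = lk at *
  generalize log (3 : ℝ) = v at *
  generalize log (6 : ℝ) = w at *
  generalize log (46548 / 100000 : ℝ) = lc at *
  generalize dd 1 (1 / 3) = x1 at *
  generalize dd 2 (1 / 3) = x2 at *
  generalize dd 3 (1 / 3) = x3 at *
  generalize dd 4 (1 / 3) = x4 at *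
  generalize dd 5 (1 / 3) = x5 at *
  generalize (k : ℝ) = K at *
  norm_num at *
  nlinarith

end Pool.Agent.SignedQ.Far
end

section

/-! # FAR arcs: sums of `A` as averages (task GA)

`A u = -log tanh u`, `J x = ∫_x^∞ A` (S1/F2a; only its inequalities `J_mid`, `J_left`, `J_conv` and
`A_convex`, `A_anti`, `J_anti` are known there). `Gm z r` is the average of `A` over
`[z (1-r), z (1+r)]`. Needed first: `HasDerivAt J (-(A x)) x` for `x > 0` (from `J_left`, `J_conv`:
`h A (x+h) <= J x - J (x+h) <= h A x`, and continuity of `A`), and continuity of `J` at `0`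
(`J` is a uniformly convergent series on `[0, ∞)`).

* `Gm_mono`: `g h = J (z-h) - J (z+h)` on `[0, z]` is continuous, `g 0 = 0`, with derivative
  `A (z-h) + A (z+h)`, nondecreasing on `(0, z)` (convexity of `A`: from the midpoint convexity
  `A_convex` and continuity, or from the derivative `A' = -2/sinh 2u`), so `g` is convex and `g h / h` is
  nondecreasing; `Gm z r = g (z r)/(2 z r)`.
* `Gm_anti`: `λ ↦ (J (λ p) - J (λ q))/λ` is nonincreasing, `0 <= p < q`: (average of `A (λ u)`);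
  derivative `<= 0` iff `λ (q A (λq) - p A (λp)) <= J (λp) - J (λq)`, which follows from
  `q A(λq) - p A(λp) <= (q-p) A (λq)` and `J_left`.
* `ST`: `n` even: even `m` in `(n, n+k]` are `n+2, .., n + 2 ⌊k/2⌋`; `J_mid` with `h = s/2`:
  `ST <= (1/s) (J ((n+1)s/2) - J ((n+1+2⌊k/2⌋)s/2))` (see `triv_even_aux`), which is
  `⌊k/2⌋` times the average of `A` over that interval, i.e. `⌊k/2⌋ * Gm z' r'` with
  `z' = (n+1+⌊k/2⌋) s/2`, `r' = ⌊k/2⌋/(n+1+⌊k/2⌋) <= 1/(1+2r)`; `n` odd (`k` even):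
  `ST <= (1/s) (J (n s/2) - J ((n+k) s/2))`, `z' = (2n+k)s/4`, `r' = k/(2n+k)`.
* `SA`: `sumA_le`. -/

namespace Pool.Agent.SignedQ.Far

open Finset MPcf17a0.S1F

noncomputable def Gm (z r : ℝ) : ℝ := (J (z * (1 - r)) - J (z * (1 + r))) / (2 * z * r)

/-- `∑_(m even, n < m ≤ n+k) A (m s/2)`. -/
noncomputable def ST (s : ℝ) (n k : ℕ) : ℝ := ∑ m ∈ Ioc n (n + k), (if Even m then A (m * s / 2) else 0)

/-- `(1/2) ∑_(n < m ≤ n+k) A (m s)`. -/
noncomputable def SA (s : ℝ) (n k : ℕ) : ℝ := 1 / 2 * ∑ m ∈ Ioc n (n + k), A (m * s)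

theorem GA_A_eq {x : ℝ} (hx : 0 < x) : A x = Real.log (Real.cosh x) - Real.log (Real.sinh x) := by
  unfold A
  rw [Real.tanh_eq_sinh_div_cosh, Real.log_div (Real.sinh_pos_iff.2 hx).ne' (Real.cosh_pos x).ne']
  ring

theorem hasDerivAt_A {x : ℝ} (hx : 0 < x) : HasDerivAt A (-(2 / Real.sinh (2 * x))) x := by
  have hs := Real.sinh_pos_iff.2 hx
  have hc := Real.cosh_pos x
  have h1 : HasDerivAt (fun y => Real.log (Real.cosh y) - Real.log (Real.sinh y))
      (Real.sinh x / Real.cosh x - Real.cosh x / Real.sinh x) x :=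
    ((Real.hasDerivAt_cosh x).log hc.ne').sub ((Real.hasDerivAt_sinh x).log hs.ne')
  have h2 : HasDerivAt A (Real.sinh x / Real.cosh x - Real.cosh x / Real.sinh x) x := by
    apply h1.congr_of_eventuallyEq
    filter_upwards [lt_mem_nhds hx] with y hy
    exact GA_A_eq hy
  refine h2.congr_deriv ?_
  have e := Real.cosh_sq x
  rw [Real.sinh_two_mul]
  have hs' := hs.ne'
  have hc' := hc.ne'
  field_simp
  nlinarith

theorem hasDerivAt_J {x : ℝ} (hx : 0 < x) : HasDerivAt J (-(A x)) x := by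
  rw [hasDerivAt_iff_tendsto_slope, tendsto_iff_norm_sub_tendsto_zero]
  have hA : Filter.Tendsto (fun y => |A y - A x|) (nhdsWithin x {x}ᶜ) (nhds 0) := by
    have h1 := (hasDerivAt_A hx).continuousAt.tendsto
    have h2 : Filter.Tendsto (fun y => |A y - A x|) (nhds x) (nhds |A x - A x|) :=
      (h1.sub tendsto_const_nhds).abs
    rw [sub_self, abs_zero] at h2
    exact h2.mono_left nhdsWithin_le_nhds
  refine squeeze_zero' (Filter.Eventually.of_forall fun y => norm_nonneg _) ?_ hA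
  have h0 : ∀ᶠ y in nhdsWithin x {x}ᶜ, 0 < y := nhdsWithin_le_nhds (lt_mem_nhds hx)
  filter_upwards [h0, self_mem_nhdsWithin] with y hy hyx
  rw [Set.mem_compl_iff, Set.mem_singleton_iff] at hyx
  rw [Real.norm_eq_abs, slope_def_field]
  rcases lt_or_gt_of_ne hyx with h | h
  · -- `y < x`
    have e1 := J_left (x := x) (h := x - y) (by linarith) hx (by linarith)
    have e2 := J_conv hy h.le
    have e3 := A_anti hy h.le
    rw [sub_sub_cancel] at e1
    have hd : 0 < x - y := by linarith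
    have e4 : (J y - J x) / (y - x) - -(A x) = -((J y - J x) / (x - y) - A x) := by
      have : y - x = -(x - y) := by ring
      rw [this, div_neg]
      ring
    rw [e4, abs_neg, abs_of_nonneg, abs_of_nonneg (by linarith)]
    · have : (J y - J x) / (x - y) ≤ A y := by
        rw [div_le_iff₀ hd]
        linarith
      linarith
    · have : A x ≤ (J y - J x) / (x - y) := by
        rw [le_div_iff₀ hd]
        linarith
      linarith
  · have e1 := J_left (x := y) (h := y - x) (by linarith) hy (by linarith)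
    have e2 := J_conv hx h.le
    have e3 := A_anti hx h.le
    rw [sub_sub_cancel] at e1
    have hd : 0 < y - x := by linarith
    have e4 : (J y - J x) / (y - x) = -((J x - J y) / (y - x)) := by
      rw [← neg_div]
      ring
    rw [e4]
    have h5 : A y ≤ (J x - J y) / (y - x) := by
      rw [le_div_iff₀ hd]
      linarith
    have h6 : (J x - J y) / (y - x) ≤ A x := by
      rw [div_le_iff₀ hd]
      linarith
    rw [abs_of_nonneg (by linarith), abs_of_nonpos (by linarith)]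
    linarith

theorem continuousOn_J : ContinuousOn J (Set.Ici 0) := by
  have h : ContinuousOn (fun x => ∑' m : ℕ, Jt x m) (Set.Ici 0) := by
    apply continuousOn_tsum (u := fun m : ℕ => 1 / ((2 * (m : ℝ) + 1) ^ 2)) _ summable_odd_sq
    · intro m x hx
      rw [Real.norm_eq_abs, abs_of_nonneg (Jt_nonneg x m)]
      unfold Jt
      apply div_le_div_of_nonneg_right _ (by positivity)
      rw [Real.exp_le_one_iff]
      have : (0 : ℝ) ≤ x := hx
      have h2 : 0 ≤ 2 * (2 * (m : ℝ) + 1) * x := by positivity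
      linarith
    · intro m
      unfold Jt
      fun_prop
  exact h

theorem GA_sinh_div {x y : ℝ} (hx : 0 < x) (h : x ≤ y) :
    Real.sinh x * y ≤ Real.sinh y * x := by
  have hd : ∀ v : ℝ, HasDerivAt (fun v => Real.sinh v * x - Real.sinh x * v)
      (Real.cosh v * x - Real.sinh x) v := by
    intro v
    have h1 := ((Real.hasDerivAt_sinh v).mul_const x).sub ((hasDerivAt_id v).const_mul (Real.sinh x))
    refine h1.congr_deriv ?_
    ring
  have hm : MonotoneOn (fun v => Real.sinh v * x - Real.sinh x * v) (Set.Ici x) := by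
    apply monotoneOn_of_deriv_nonneg (convex_Ici x)
    · intro v _
      exact (hd v).continuousAt.continuousWithinAt
    · intro v _
      exact (hd v).differentiableAt.differentiableWithinAt
    · intro v hv
      rw [interior_Ici] at hv
      have hv' : x < v := hv
      rw [(hd v).deriv]
      have h1 := tanh_le_self hx.le
      rw [Real.tanh_eq_sinh_div_cosh, div_le_iff₀ (Real.cosh_pos x)] at h1
      have h2 : Real.cosh x ≤ Real.cosh v := by
        rw [Real.cosh_le_cosh, abs_of_pos hx, abs_of_pos (hx.trans hv')]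
        exact hv'.le
      have h3 := mul_le_mul_of_nonneg_right h2 hx.le
      linarith
  have h1 := hm (Set.mem_Ici.2 le_rfl) (Set.mem_Ici.2 h) h
  simp only at h1
  linarith

/-- `τ ↦ A (b e^τ)` is convex: its derivative is `-2x/sinh (2x)`, `x = b e^τ`. -/
theorem A_exp_convex {b : ℝ} (hb : 0 < b) : ConvexOn ℝ Set.univ (fun τ => A (b * Real.exp τ)) := by
  have hd : ∀ τ : ℝ, HasDerivAt (fun τ => A (b * Real.exp τ))
      (-(2 / Real.sinh (2 * (b * Real.exp τ))) * (b * Real.exp τ)) τ := by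
    intro τ
    have hx : 0 < b * Real.exp τ := by positivity
    have h := (hasDerivAt_A hx).comp τ ((Real.hasDerivAt_exp τ).const_mul b)
    exact h
  apply Monotone.convexOn_univ_of_deriv
  · intro τ
    exact (hd τ).differentiableAt
  · intro τ τ' hτ
    rw [(hd τ).deriv, (hd τ').deriv]
    have hx : 0 < b * Real.exp τ := by positivity
    have hx' : 0 < b * Real.exp τ' := by positivity
    have hle : b * Real.exp τ ≤ b * Real.exp τ' :=
      mul_le_mul_of_nonneg_left (Real.exp_le_exp.2 hτ) hb.le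
    obtain ⟨x, hxd⟩ : ∃ x, x = b * Real.exp τ := ⟨_, rfl⟩
    obtain ⟨x', hxd'⟩ : ∃ x, x = b * Real.exp τ' := ⟨_, rfl⟩
    rw [← hxd, ← hxd'] at hle ⊢
    rw [← hxd] at hx
    rw [← hxd'] at hx'
    have h1 := GA_sinh_div (x := 2 * x) (y := 2 * x') (by linarith) (by linarith)
    have s1 : 0 < Real.sinh (2 * x) := Real.sinh_pos_iff.2 (by linarith)
    have s2 : 0 < Real.sinh (2 * x') := Real.sinh_pos_iff.2 (by linarith)
    have h2 : 2 / Real.sinh (2 * x') * x' ≤ 2 / Real.sinh (2 * x) * x := by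
      rw [div_mul_eq_mul_div, div_mul_eq_mul_div, div_le_div_iff₀ s2 s1]
      linarith
    linarith

theorem A_convexOn : ConvexOn ℝ (Set.Ioi 0) A := by
  apply MonotoneOn.convexOn_of_deriv (convex_Ioi 0)
  · intro x hx
    exact (hasDerivAt_A hx).continuousAt.continuousWithinAt
  · intro x hx
    rw [interior_Ioi] at hx
    exact (hasDerivAt_A hx).differentiableAt.differentiableWithinAt
  · rw [interior_Ioi]
    intro x hx y hy hxy
    have hx0 : (0 : ℝ) < x := hx
    have hy0 : (0 : ℝ) < y := hy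
    rw [(hasDerivAt_A hx0).deriv, (hasDerivAt_A hy0).deriv]
    have s1 : 0 < Real.sinh (2 * x) := Real.sinh_pos_iff.2 (by linarith)
    have s2 : Real.sinh (2 * x) ≤ Real.sinh (2 * y) := Real.sinh_le_sinh.2 (by linarith)
    have := div_le_div_of_nonneg_left (show (0 : ℝ) ≤ 2 by norm_num) s1 s2
    linarith

theorem Gm_nonneg {z r : ℝ} (hz : 0 < z) (hr : 0 < r) (h1 : r ≤ 1) : 0 ≤ Gm z r := by
  unfold Gm
  have h2 : 0 ≤ z * (1 - r) := mul_nonneg hz.le (by linarith)
  have h3 : z * (1 - r) ≤ z * (1 + r) := mul_le_mul_of_nonneg_left (by linarith) hz.le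
  have h4 := J_anti h2 h3
  apply div_nonneg (by linarith) (by positivity)

theorem GA_sym {z h h' : ℝ} (h0 : 0 < h) (hh : h ≤ h') (hz : h' < z) :
    A (z - h) + A (z + h) ≤ A (z - h') + A (z + h') := by
  have hh' : 0 < h' := h0.trans_le hh
  obtain ⟨l, hl⟩ : ∃ l, l = (h' + h) / (2 * h') := ⟨_, rfl⟩
  have hl0 : 0 ≤ l := by rw [hl]; positivity
  have hl1 : l ≤ 1 := by rw [hl, div_le_one (by positivity)]; linarith
  have m1 : z - h' ∈ Set.Ioi (0 : ℝ) := Set.mem_Ioi.2 (by linarith)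
  have m2 : z + h' ∈ Set.Ioi (0 : ℝ) := Set.mem_Ioi.2 (by linarith)
  have e1 := A_convexOn.2 m1 m2 hl0 (sub_nonneg.2 hl1) (by ring)
  have e2 := A_convexOn.2 m1 m2 (sub_nonneg.2 hl1) hl0 (by ring)
  simp only [smul_eq_mul] at e1 e2
  have f1 : l * (z - h') + (1 - l) * (z + h') = z - h := by
    rw [hl]; field_simp; ring
  have f2 : (1 - l) * (z - h') + l * (z + h') = z + h := by
    rw [hl]; field_simp; ring
  rw [f1] at e1
  rw [f2] at e2
  linarith

theorem GA_g_convex {z : ℝ} (hz : 0 < z) :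
    ConvexOn ℝ (Set.Icc 0 z) (fun h => J (z - h) - J (z + h)) := by
  have hd : ∀ h : ℝ, 0 < h → h < z → HasDerivAt (fun h => J (z - h) - J (z + h))
      (A (z - h) + A (z + h)) h := by
    intro h h0 h1
    have d1 : HasDerivAt (fun h : ℝ => z - h) (-1) h := (hasDerivAt_id h).const_sub z
    have d2 : HasDerivAt (fun h : ℝ => z + h) 1 h := (hasDerivAt_id h).const_add z
    have d3 := (hasDerivAt_J (show 0 < z - h by linarith)).comp h d1
    have d4 := (hasDerivAt_J (show 0 < z + h by linarith)).comp h d2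
    refine (d3.sub d4).congr_deriv ?_
    ring
  apply MonotoneOn.convexOn_of_deriv (convex_Icc 0 z)
  · apply ContinuousOn.sub
    · apply continuousOn_J.comp (by fun_prop)
      intro h hh
      exact Set.mem_Ici.2 (by linarith [hh.2])
    · apply continuousOn_J.comp (by fun_prop)
      intro h hh
      exact Set.mem_Ici.2 (by linarith [hh.1])
  · intro h hh
    rw [interior_Icc] at hh
    exact (hd h hh.1 hh.2).differentiableAt.differentiableWithinAt
  · rw [interior_Icc]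
    intro h hh h' hh' hle
    rw [(hd h hh.1 hh.2).deriv, (hd h' hh'.1 hh'.2).deriv]
    exact GA_sym hh.1 hle hh'.2

theorem Gm_mono {z r r' : ℝ} (hz : 0 < z) (hr : 0 < r) (h : r ≤ r') (h1 : r' ≤ 1) :
    Gm z r ≤ Gm z r' := by
  have hr' : 0 < r' := hr.trans_le h
  have m1 : z * r' ∈ Set.Icc 0 z := by
    constructor
    · positivity
    · nlinarith
  have m0 : (0 : ℝ) ∈ Set.Icc 0 z := ⟨le_rfl, hz.le⟩
  have e1 := (GA_g_convex hz).2 m1 m0 (show 0 ≤ r / r' by positivity)
    (show 0 ≤ 1 - r / r' by rw [sub_nonneg, div_le_one hr']; exact h) (by ring)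
  simp only [smul_eq_mul] at e1
  have f1 : r / r' * (z * r') + (1 - r / r') * 0 = z * r := by field_simp; ring
  rw [f1, sub_zero, add_zero, sub_self, mul_zero, add_zero] at e1
  unfold Gm
  have g1 : z * (1 - r) = z - z * r := by ring
  have g2 : z * (1 + r) = z + z * r := by ring
  have g3 : z * (1 - r') = z - z * r' := by ring
  have g4 : z * (1 + r') = z + z * r' := by ring
  rw [g1, g2, g3, g4, div_le_div_iff₀ (by positivity) (by positivity)]
  have e2 := mul_le_mul_of_nonneg_right e1 (show 0 ≤ 2 * z * r' by positivity)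
  refine e2.trans (le_of_eq ?_)
  field_simp

theorem GA_D_anti {c : ℝ} (hc : 1 ≤ c) : AntitoneOn (fun x => c * J x - J (c * x)) (Set.Ici 0) := by
  have hc0 : 0 < c := by linarith
  have hd : ∀ x : ℝ, 0 < x → HasDerivAt (fun x => c * J x - J (c * x))
      (c * -(A x) - -(A (c * x)) * c) x := by
    intro x hx
    have d1 := (hasDerivAt_J hx).const_mul c
    have d2 : HasDerivAt (fun x : ℝ => c * x) c x := by
      have := (hasDerivAt_id x).const_mul c
      simpa using this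
    have d3 := (hasDerivAt_J (show 0 < c * x by positivity)).comp x d2
    exact d1.sub d3
  apply antitoneOn_of_deriv_nonpos (convex_Ici 0)
  · apply ContinuousOn.sub
    · exact continuousOn_const.mul continuousOn_J
    · apply continuousOn_J.comp (by fun_prop)
      intro x hx
      exact Set.mem_Ici.2 (mul_nonneg hc0.le hx)
  · intro x hx
    rw [interior_Ici] at hx
    exact (hd x hx).differentiableAt.differentiableWithinAt
  · intro x hx
    rw [interior_Ici] at hx
    have hx0 : (0 : ℝ) < x := hx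
    rw [(hd x hx0).deriv]
    have h1 : A (c * x) ≤ A x := A_anti hx0 (by nlinarith)
    nlinarith

theorem Gm_anti {z z' r : ℝ} (hz : 0 < z) (h : z ≤ z') (hr : 0 < r) (h1 : r ≤ 1) :
    Gm z' r ≤ Gm z r := by
  obtain ⟨c, hc⟩ : ∃ c, c = z' / z := ⟨_, rfl⟩
  have hc1 : 1 ≤ c := by rw [hc, le_div_iff₀ hz]; linarith
  have hc0 : 0 < c := by linarith
  have hz' : z' = c * z := by rw [hc]; field_simp
  have h2 : 0 ≤ z * (1 - r) := mul_nonneg hz.le (by linarith)
  have h3 : z * (1 - r) ≤ z * (1 + r) := mul_le_mul_of_nonneg_left (by linarith) hz.le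
  have e1 := GA_D_anti hc1 (Set.mem_Ici.2 h2) (Set.mem_Ici.2 (h2.trans h3)) h3
  simp only at e1
  unfold Gm
  rw [hz']
  have g1 : c * z * (1 - r) = c * (z * (1 - r)) := by ring
  have g2 : c * z * (1 + r) = c * (z * (1 + r)) := by ring
  rw [g1, g2, div_le_div_iff₀ (by positivity) (by positivity)]
  have e2 : J (c * (z * (1 - r))) - J (c * (z * (1 + r))) ≤
      c * (J (z * (1 - r)) - J (z * (1 + r))) := by linarith
  have e3 := mul_le_mul_of_nonneg_right e2 (show 0 ≤ 2 * z * r by positivity)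
  refine e3.trans (le_of_eq ?_)
  ring

/-- From the exact interval to the relaxed parameters. -/
theorem GA_relax {z₁ r₁ z r : ℝ} (hr1 : 0 < r₁) (hz : 0 < z) (h : z ≤ z₁)
    (hr : 0 ≤ r) (hrr : r₁ ≤ 1 / (1 + 2 * r)) : Gm z₁ r₁ ≤ Gm z (1 / (1 + 2 * r)) := by
  have h1 : 1 / (1 + 2 * r) ≤ 1 := by
    rw [div_le_one (by positivity)]
    linarith
  exact (Gm_mono (hz.trans_le h) hr1 hrr h1).trans (Gm_anti hz h (hr1.trans_le hrr) h1)

theorem GA_two (s : ℝ) (n k : ℕ) : ∑ m ∈ Ioc n (n + k), (if Even m then 2 * A (m * s / 2) else 0) =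
    2 * ST s n k := by
  unfold ST
  rw [mul_sum]
  apply sum_congr rfl
  intro m _
  split_ifs <;> ring

theorem GA_even_exact {n k : ℕ} (hn : Even n) {s : ℝ} (hs : 0 < s) :
    ST s n k ≤ 1 / s * (J ((n + 1) * s / 2) - J ((n + 1 + 2 * (k / 2 : ℕ)) * s / 2)) := by
  have h1 : ST s n k = ST s n (2 * (k / 2)) := by
    rcases Nat.even_or_odd' k with ⟨j, hj | hj⟩
    · have : 2 * (k / 2) = k := by omega
      rw [this]
    · have e : n + k = (n + 2 * (k / 2)) + 1 := by omega
      unfold ST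
      rw [e, sum_Ioc_succ_top (by omega)]
      have o1 : ¬ Even (n + 2 * (k / 2) + 1) := by
        rw [Nat.not_even_iff_odd]
        exact (hn.add (even_two_mul _)).add_one
      rw [if_neg o1, add_zero]
  have h2 := triv_even_aux s hs n hn (2 * (k / 2))
  rw [GA_two] at h2
  rw [h1]
  push_cast at h2 ⊢
  have e1 : ((n : ℝ) + 2 * ((k / 2 : ℕ) : ℝ) + 1) = (n + 1 + 2 * ((k / 2 : ℕ) : ℝ)) := by ring
  rw [e1] at h2
  have e2 : 2 / s * (J (((n : ℝ) + 1) * s / 2) - J ((n + 1 + 2 * ((k / 2 : ℕ) : ℝ)) * s / 2)) =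
      2 * (1 / s * (J (((n : ℝ) + 1) * s / 2) - J ((n + 1 + 2 * ((k / 2 : ℕ) : ℝ)) * s / 2))) := by
    ring
  rw [e2] at h2
  linarith

/-- For even `n` the centre is a little further to the right. -/
theorem ST_le_even {n k : ℕ} (hn : Even n) (hk : 2 ≤ k) {s z r : ℝ} (hs : 0 < s) (hr : 0 ≤ r)
    (hrn : r * k ≤ n) (hz : 0 < z) (hzs : z ≤ s * (2 * n + k + 1) / 4) :
    ST s n k ≤ k / 2 * Gm z (1 / (1 + 2 * r)) := by
  have h := GA_even_exact (k := k) hn hs
  obtain ⟨j, hj⟩ : ∃ j, j = k / 2 := ⟨_, rfl⟩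
  have hj1 : 1 ≤ j := by omega
  have hjk : 2 * j ≤ k := by omega
  have hjk' : k ≤ 2 * j + 1 := by omega
  rw [← hj] at h
  have hj0 : (1 : ℝ) ≤ j := by exact_mod_cast hj1
  have hjkr : 2 * (j : ℝ) ≤ k := by exact_mod_cast hjk
  have hjkr' : (k : ℝ) ≤ 2 * j + 1 := by exact_mod_cast hjk'
  have hn0 : (0 : ℝ) ≤ n := Nat.cast_nonneg n
  obtain ⟨z₁, hz1⟩ : ∃ z : ℝ, z = (n + 1 + j) * s / 2 := ⟨_, rfl⟩
  obtain ⟨r₁, hr1⟩ : ∃ r : ℝ, r = j / (n + 1 + j) := ⟨_, rfl⟩
  have hr10 : 0 < r₁ := by rw [hr1]; positivity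
  have e1 : z₁ * (1 - r₁) = (n + 1) * s / 2 := by rw [hz1, hr1]; field_simp; ring
  have e2 : z₁ * (1 + r₁) = (n + 1 + 2 * j) * s / 2 := by rw [hz1, hr1]; field_simp; ring
  have e3 : 2 * z₁ * r₁ = j * s := by rw [hz1, hr1]; field_simp
  have e4 : 1 / s * (J ((n + 1) * s / 2) - J ((n + 1 + 2 * j) * s / 2)) = j * Gm z₁ r₁ := by
    unfold Gm
    rw [e1, e2, e3]
    field_simp
  rw [e4] at h
  have hrr : r₁ ≤ 1 / (1 + 2 * r) := by
    rw [hr1, div_le_div_iff₀ (by positivity) (by positivity)]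
    have : 2 * (j : ℝ) * r ≤ k * r := mul_le_mul_of_nonneg_right hjkr hr
    linarith
  have hzz : z ≤ z₁ := by
    refine hzs.trans ?_
    rw [hz1]
    have := mul_le_mul_of_nonneg_left hjkr' hs.le
    linarith
  have h1 := GA_relax hr10 hz hzz hr hrr
  have hG0 : 0 ≤ Gm z (1 / (1 + 2 * r)) := Gm_nonneg hz (by positivity)
    (by rw [div_le_one (by positivity)]; linarith)
  calc ST s n k ≤ j * Gm z₁ r₁ := h
    _ ≤ j * Gm z (1 / (1 + 2 * r)) := mul_le_mul_of_nonneg_left h1 (by linarith)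
    _ ≤ k / 2 * Gm z (1 / (1 + 2 * r)) := mul_le_mul_of_nonneg_right (by linarith) hG0

theorem GA_shift {n k : ℕ} (hn : Odd n) (hk : Even k) (s : ℝ) : ST s n k = ST s (n - 1) k := by
  obtain ⟨m, rfl⟩ : ∃ m, n = m + 1 := ⟨n - 1, by rcases hn with ⟨i, hi⟩; omega⟩
  have hm : Even m := by
    rcases hn with ⟨i, hi⟩
    exact ⟨i, by omega⟩
  simp only [Nat.add_sub_cancel]
  unfold ST
  have e1 : ∑ i ∈ Ioc m (m + 1 + k), (if Even i then A (i * s / 2) else 0) =
      ∑ i ∈ Ioc m (m + k), (if Even i then A (i * s / 2) else 0) := by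
    have : m + 1 + k = (m + k) + 1 := by omega
    rw [this, sum_Ioc_succ_top (by omega)]
    have o1 : ¬ Even (m + k + 1) := by
      rw [Nat.not_even_iff_odd]
      exact (hm.add hk).add_one
    rw [if_neg o1, add_zero]
  rw [← e1]
  have e2 : Ioc m (m + 1 + k) = insert (m + 1) (Ioc (m + 1) (m + 1 + k)) := by
    ext i
    simp only [mem_insert, mem_Ioc]
    omega
  rw [e2, sum_insert (by simp)]
  have o2 : ¬ Even (m + 1) := by
    rw [Nat.not_even_iff_odd]
    exact hn
  rw [if_neg o2, zero_add]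

theorem ST_le {n k : ℕ} (hnk : Even (n * k)) (hk : 2 ≤ k) {s z r : ℝ} (hs : 0 < s) (hr : 0 ≤ r)
    (hrn : r * k ≤ n) (hz : 0 < z) (hzs : z ≤ s * (2 * n + k) / 4) :
    ST s n k ≤ k / 2 * Gm z (1 / (1 + 2 * r)) := by
  rcases Nat.even_or_odd n with hn | hn
  · exact ST_le_even hn hk hs hr hrn hz (by linarith)
  · have hke : Even k := by
      rcases Nat.even_mul.1 hnk with h | h
      · exact absurd h (Nat.not_even_iff_odd.2 hn)
      · exact h
    have hn1 : 1 ≤ n := hn.pos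
    have hk0 : (2 : ℝ) ≤ k := by exact_mod_cast hk
    have hn0 : (1 : ℝ) ≤ n := by exact_mod_cast hn1
    have hev : Even (n - 1) := by
      rcases hn with ⟨i, hi⟩
      exact ⟨i, by omega⟩
    have h2 := triv_even_aux s hs (n - 1) hev k
    rw [GA_two, ← GA_shift hn hke, Nat.cast_sub hn1, Nat.cast_one] at h2
    have f1 : ((n : ℝ) - 1 + 1) * s / 2 = n * s / 2 := by ring
    have f2 : ((n : ℝ) - 1 + k + 1) * s / 2 = (n + k) * s / 2 := by ring
    rw [f1, f2] at h2
    obtain ⟨z₁, hz1⟩ : ∃ z : ℝ, z = s * (2 * n + k) / 4 := ⟨_, rfl⟩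
    obtain ⟨r₁, hr1⟩ : ∃ r : ℝ, r = k / (2 * n + k) := ⟨_, rfl⟩
    have hr10 : 0 < r₁ := by rw [hr1]; positivity
    have e1 : z₁ * (1 - r₁) = n * s / 2 := by rw [hz1, hr1]; field_simp; ring
    have e2 : z₁ * (1 + r₁) = (n + k) * s / 2 := by rw [hz1, hr1]; field_simp; ring
    have e3 : 2 * z₁ * r₁ = k / 2 * s := by rw [hz1, hr1]; field_simp; ring
    have e4 : 2 / s * (J (n * s / 2) - J ((n + k) * s / 2)) = 2 * (k / 2 * Gm z₁ r₁) := by
      unfold Gm
      rw [e1, e2, e3]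
      have : (0 : ℝ) < k := by linarith
      field_simp
    rw [e4] at h2
    have hrr : r₁ ≤ 1 / (1 + 2 * r) := by
      rw [hr1, div_le_div_iff₀ (by positivity) (by positivity)]
      linarith
    have h1 := GA_relax hr10 hz (hz1 ▸ hzs) hr hrr
    have h3 := mul_le_mul_of_nonneg_left h1 (show 0 ≤ (k : ℝ) / 2 by positivity)
    linarith

theorem SA_le {n k : ℕ} (hk : 1 ≤ k) {s y r : ℝ} (hs : 0 < s) (hr : 0 ≤ r)
    (hrn : r * k ≤ n) (hy : 0 < y) (hys : y ≤ s * (2 * n + k + 1) / 2) :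
    SA s n k ≤ k / 2 * Gm y (1 / (1 + 2 * r)) := by
  have hk0 : (1 : ℝ) ≤ k := by exact_mod_cast hk
  have hn0 : (0 : ℝ) ≤ n := Nat.cast_nonneg n
  have h := sumA_le s hs n (n + k) (by omega)
  push_cast at h
  obtain ⟨z₁, hz1⟩ : ∃ z : ℝ, z = s * (2 * n + k + 1) / 2 := ⟨_, rfl⟩
  obtain ⟨r₁, hr1⟩ : ∃ r : ℝ, r = k / (2 * n + k + 1) := ⟨_, rfl⟩
  have hr10 : 0 < r₁ := by rw [hr1]; positivity
  have e1 : z₁ * (1 - r₁) = (n + 1 / 2) * s := by rw [hz1, hr1]; field_simp; ring
  have e2 : z₁ * (1 + r₁) = (n + k + 1 / 2) * s := by rw [hz1, hr1]; field_simp; ring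
  have e3 : 2 * z₁ * r₁ = k * s := by rw [hz1, hr1]; field_simp
  have e4 : (J ((n + 1 / 2) * s) - J ((n + k + 1 / 2) * s)) / s = k * Gm z₁ r₁ := by
    unfold Gm
    rw [e1, e2, e3]
    have : (0 : ℝ) < k := by linarith
    field_simp
  rw [e4] at h
  have hrr : r₁ ≤ 1 / (1 + 2 * r) := by
    rw [hr1, div_le_div_iff₀ (by positivity) (by positivity)]
    linarith
  have h1 := GA_relax hr10 hy (hz1 ▸ hys) hr hrr
  have h3 := mul_le_mul_of_nonneg_left h1 (show 0 ≤ (k : ℝ) by positivity)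
  unfold SA
  linarith

/-- See `NC_triv`: each term of `NC` is at most `2 A (m s/2)` (`m` even), `0` (`m` odd). -/
theorem NC_le_ST {n k : ℕ} {s ψ : ℝ} (hs : 0 < s) : NC s ψ n k / 2 ≤ ST s n k := by
  have h : NC s ψ n k ≤ ∑ m ∈ Ioc n (n + k), (if Even m then 2 * A (m * s / 2) else 0) := by
    unfold NC
    refine sum_le_sum fun m hm => ?_
    rw [mem_Ioc] at hm
    have hm1 : 1 ≤ m := by omega
    have hmpos : (0:ℝ) < m := by exact_mod_cast hm1
    have hu : 0 < (m:ℝ) * s := by positivity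
    have hr := log_real_factor s hs m hm1
    have hv := yc_lt hs hm1 ψ
    have hyp := y_pos s m
    have h1 : Real.log (1 - y s m * Real.cos (m * ψ)) ≤ A (m * s / 2) - A (m * s) := by
      have e1 : A (m * s / 2) - A (m * s) = Real.log (1 + y s m) := by
        have t1 := tanh_pos' hu
        have t2 := tanh_pos' (half_pos hu)
        unfold A y
        rw [tanh_half_div hu, Real.log_div t1.ne' t2.ne']; ring
      rw [e1]
      apply Real.log_le_log (by linarith)
      have := Real.neg_one_le_cos (m * ψ)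
      nlinarith
    rcases Nat.even_or_odd m with h | h
    · rw [if_pos h]
      rw [h.neg_one_pow] at hr ⊢
      linarith
    · rw [if_neg (by rwa [Nat.not_even_iff_odd])]
      rw [h.neg_one_pow] at hr ⊢
      linarith
  rw [GA_two] at h
  linarith

end Pool.Agent.SignedQ.Far
end

section

/-! # FAR arcs: the numerators of region C (task GB, helper68)

`y s m = 1/cosh (m s)` (S1/F1). `NC s ψ n k = ∑_(n<m≤n+k) (log (1 - y cos (mψ)) - log (1 - (-1)^m y))`. -/

namespace Pool.Agent.SignedQ.Far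

open Finset MPcf17a0.S1F

theorem sum_Ioc_shift (g : ℕ → ℝ) (n k : ℕ) :
    ∑ m ∈ Ioc n (n + k), g m = ∑ j ∈ Icc 1 k, g (n + j) := by
  induction k with
  | zero => simp
  | succ k ih =>
    rw [← add_assoc, sum_Ioc_succ_top (by omega), ih, sum_Icc_succ_top (by omega)]
    rfl

/-- The oscillating part. -/
theorem NC_osc {n k : ℕ} (hk : 26 ≤ k) {s ψ : ℝ} (hs : 0 < s) (h1 : 1 ≤ ((n : ℝ) + k) * s) :
    1 / 2 * ∑ m ∈ Ioc n (n + k), Real.log (1 - y s m * Real.cos (m * ψ)) ≤
      k / 200 + 23 / 40 * ((n : ℝ) + 1 / 2) +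
      11 / 100 * ((n : ℝ) + k + 1 / 2) / Real.cosh (((n : ℝ) + k) * s) := by
  have h := num_sech (n := n) hk hs h1 ψ
  rw [sum_Ioc_shift (fun m : ℕ => Real.log (1 - y s m * Real.cos (m * ψ))) n k, mul_sum]
  have e : ∑ j ∈ Icc 1 k, 1 / 2 * Real.log (2 * (Real.cosh (((n : ℝ) + j) * s) -
      Real.cos (((n : ℝ) + j) * ψ))) =
      ∑ j ∈ Icc 1 k, 1 / 2 * Real.log (2 * Real.cosh (((n : ℝ) + j) * s)) +
      ∑ j ∈ Icc 1 k, 1 / 2 * Real.log (1 - y s (n + j) * Real.cos (((n + j : ℕ) : ℝ) * ψ)) := by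
    rw [← sum_add_distrib]
    refine sum_congr rfl fun j hj => ?_
    have hj1 := (mem_Icc.1 hj).1
    have hc : 0 < Real.cosh (((n : ℝ) + j) * s) := Real.cosh_pos _
    have hlt := yc_lt hs (show 1 ≤ n + j by omega) ψ
    rw [← mul_add, ← Real.log_mul (by positivity) (by linarith)]
    congr 2
    unfold y
    push_cast
    field_simp
  rw [e] at h
  linarith

theorem rsum_even_le {n k : ℕ} (hn : Even n) {s : ℝ} (hs : 0 < s) :
    1 / 2 * ∑ m ∈ Ioc n (n + k), -Real.log (1 - (-1) ^ m * y s m) ≤ SA s n k := by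
  rw [rsum s hs n k]
  have := alt_even s hs n k hn
  unfold SA
  linarith

theorem NC_le_SA_even {n k : ℕ} (hn : Even n) (hk : 26 ≤ k) {s ψ : ℝ} (hs : 0 < s)
    (h1 : 1 ≤ ((n : ℝ) + k) * s) :
    NC s ψ n k / 2 ≤ SA s n k + k / 200 + 23 / 40 * ((n : ℝ) + 1 / 2) +
      11 / 100 * ((n : ℝ) + k + 1 / 2) / Real.cosh (((n : ℝ) + k) * s) := by
  have h2 := NC_osc hk (ψ := ψ) hs h1
  have h3 := rsum_even_le (k := k) hn hs
  rw [NC_split]
  linarith

theorem NC_le_SA_odd {n k : ℕ} (hn : Odd n) (hke : Even k) (hk : 26 ≤ k) {s ψ : ℝ} (hs : 0 < s)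
    (h1 : 1 ≤ ((n : ℝ) + k) * s) :
    NC s ψ n k / 2 ≤ SA s (n - 1) k + 1 / 2 * Real.log 2 + k / 200 + 23 / 40 * ((n : ℝ) + 1 / 2) +
      11 / 100 * ((n : ℝ) + k + 1 / 2) / Real.cosh (((n : ℝ) + k) * s) := by
  have h2 := NC_osc hk (ψ := ψ) hs h1
  obtain ⟨m, rfl⟩ : ∃ m, n = m + 1 := ⟨n - 1, by have := hn.pos; omega⟩
  have hm : Even m := by
    rcases Nat.even_or_odd m with h | h
    · exact h
    · exact absurd h.add_one (Nat.not_even_iff_odd.2 hn)
  have h3 := rsum_even_le (k := k) hm hs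
  -- shift of the range by one
  have e1 : ∑ j ∈ Ioc m (m + k + 1), -Real.log (1 - (-1) ^ j * y s j) =
      ∑ j ∈ Ioc m (m + k), -Real.log (1 - (-1) ^ j * y s j) +
        -Real.log (1 - (-1) ^ (m + k + 1) * y s (m + k + 1)) := sum_Ioc_succ_top (by omega) _
  have e2 : ∑ j ∈ Ioc m (m + k + 1), -Real.log (1 - (-1) ^ j * y s j) =
      -Real.log (1 - (-1) ^ (m + 1) * y s (m + 1)) +
        ∑ j ∈ Ioc (m + 1) (m + k + 1), -Real.log (1 - (-1) ^ j * y s j) := by
    rw [← sum_Ioc_consecutive _ (show m ≤ m + 1 by omega) (show m + 1 ≤ m + k + 1 by omega)]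
    simp
  have o2 : Odd (m + k + 1) := (hm.add hke).add_one
  rw [hn.neg_one_pow] at e2
  rw [o2.neg_one_pow] at e1
  have h4 : 0 ≤ Real.log (1 - -1 * y s (m + k + 1)) := by
    refine Real.log_nonneg ?_
    have := y_pos s (m + k + 1)
    linarith
  have h5 : Real.log (1 - -1 * y s (m + 1)) ≤ Real.log 2 := by
    refine Real.log_le_log ?_ ?_
    · have := y_pos s (m + 1)
      linarith
    · have := y_le_one s (m + 1)
      linarith
  have e3 : m + 1 + k = m + k + 1 := by ring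
  rw [NC_split, Nat.add_sub_cancel, e3]
  rw [e3] at h2
  push_cast at h2 ⊢
  linarith

end Pool.Agent.SignedQ.Far
end
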