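import Pool.Agent.Lib.MP_cf17a0_co.S1.Far2a
import Pool.Agent.Lib.MP_cf17a0_co.Mg.G006
import Pool.Agent.Lib.MP_cf17a0_co.Mg.G007
import Pool.Agent.Lib.MP_cf17a0_co.Far.Fu_L
import Pool.Agent.Lib.MP_cf17a0_co.Far.Fu_M1
import Pool.Agent.Lib.MP_cf17a0_co.Mg.G014
import Pool.Agent.Lib.MP_cf17a0_co.Far.Fu_M2
import Pool.Agent.Lib.MP_cf17a0_co.Mg.G013
import Pool.Agent.Lib.MP_cf17a0_co.Far.Fu_R1

section

/-! # FAR arcs: structure of the modulus (task FH) -/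

namespace Pool.Agent.SignedQ.Far

open Real Finset Pool.Agent.SignedQ.An

/-- `fac j = sinh² (jT/2) + sin²` resp. `cos²`; double angles; `cos (j (π+θ)) = (-1)^j cos (jθ)`. -/
theorem four_fac (j : ℕ) (T θ : ℝ) :
    4 * fac j T θ = 2 * (cosh (j * T) - cos (j * (π + θ))) := by
  have h1 : cosh ((j : ℝ) * T) = 1 + 2 * sinh (j * T / 2) ^ 2 := by
    have e : (j : ℝ) * T = 2 * (j * T / 2) := by ring
    rw [e, cosh_two_mul, cosh_sq, mul_div_cancel_left₀ _ (two_ne_zero)]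
    ring
  have h2 : cos ((j : ℝ) * θ) = 1 - 2 * sin (j * θ / 2) ^ 2 := by
    have e : (j : ℝ) * θ = 2 * (j * θ / 2) := by ring
    rw [e, cos_two_mul, cos_sq', mul_div_cancel_left₀ _ (two_ne_zero)]
    ring
  have h3 : cos ((j : ℝ) * (π + θ)) = (-1) ^ j * cos (j * θ) := by
    rw [mul_add, add_comm, cos_add_nat_mul_pi]
  rcases Nat.even_or_odd j with hj | hj
  · rw [fac_even hj, h3, hj.neg_one_pow, h1, h2]
    ring
  · rw [fac_odd hj, h3, hj.neg_one_pow, h1, h2, cosh_sq]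
    ring

theorem four_fac_num (a m : ℕ) (T θ : ℝ) :
    4 * fac (a * m) T θ = 2 * (cosh (m * (a * T)) - cos (m * (a * (π + θ)))) := by
  rw [four_fac, Nat.cast_mul, show (a : ℝ) * m * T = m * (a * T) by ring,
    show (a : ℝ) * m * (π + θ) = m * (a * (π + θ)) by ring]

theorem sum_Icc_range (F : ℕ → ℝ) (k : ℕ) : ∑ j ∈ Icc 1 k, F j = ∑ v ∈ range k, F (v + 1) := by
  induction k with
  | zero => simp
  | succ k ih => rw [sum_Icc_succ_top (by omega), ih, sum_range_succ]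

/-- Logarithm of `GG`. -/
theorem half_log_GG {n k a : ℕ} (ha : 1 ≤ a) {T : ℝ} (hT : 0 < T) (θ : ℝ) :
    1 / 2 * log (GG n k a T θ) = ((k + 1) / 2 : ℕ) / 2 * log ((cosh T + cos θ) / 2) +
      ∑ j ∈ Icc 1 k, 1 / 2 * log (2 * (cosh (((n : ℝ) + j) * (a * T)) -
        cos (((n : ℝ) + j) * (a * (π + θ))))) -
      ∑ j ∈ Icc 1 k, 1 / 2 * log (2 * (cosh (j * T) - cos (j * (π + θ)))) := by
  rw [log_GG ha hT, ← g2_eq_fac 1, g2_one, sum_Icc_range, sum_Icc_range, add_sub_assoc,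
    ← sum_sub_distrib, mul_add, mul_sum]
  congr 1
  · ring
  · refine sum_congr rfl fun v _ => ?_
    have h1 := four_fac_num a (n + v + 1) T θ
    have h2 := four_fac (v + 1) T θ
    have e1 : (n : ℝ) + ((v + 1 : ℕ) : ℝ) = ((n + v + 1 : ℕ) : ℝ) := by push_cast; ring
    rw [e1, ← h1, ← h2, log_mul (by norm_num)
      (fac_pos (Nat.mul_pos ha (by omega)) hT θ).ne', log_mul (by norm_num)
      (fac_pos (by omega) hT θ).ne']
    ring

theorem half_log_lw (v : ℕ) : 1 / 2 * log (Far2.lw v) = if Even v then log v else 0 := by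
  unfold Far2.lw
  split_ifs with h
  · rw [log_pow]
    push_cast
    ring
  · simp

theorem half_log_G00 {n k a : ℕ} (h : Even (n * k)) (ha : Odd a) :
    1 / 2 * log (Far2.G00 n k a) =
      ∑ i ∈ Icc 1 (k / 2), log ((a : ℝ) * ((n / 2 : ℕ) + (i : ℝ)) / i) := by
  have hp1 : ∀ v : ℕ, 0 < Far2.lw (a * (n + v + 1)) :=
    fun v => Far2.lw_pos (Nat.mul_pos ha.pos (by omega))
  have hp2 : ∀ v : ℕ, 0 < Far2.lw (v + 1) := fun v => Far2.lw_pos (by omega)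
  unfold Far2.G00
  rw [log_prod fun v _ => (div_pos (hp1 v) (hp2 v)).ne', mul_sum]
  have e1 : ∑ v ∈ range k, 1 / 2 * log (Far2.lw (a * (n + v + 1)) / Far2.lw (v + 1)) =
      ∑ v ∈ range k, (if Even (n + v + 1) then log (a * ((n + v + 1 : ℕ) : ℝ)) else 0) -
      ∑ v ∈ range k, (if Even (0 + v + 1) then log ((0 + v + 1 : ℕ) : ℝ) else 0) := by
    rw [← sum_sub_distrib]
    refine sum_congr rfl fun v _ => ?_
    have he : Even (a * (n + v + 1)) ↔ Even (n + v + 1) := by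
      rw [Nat.even_mul]
      have := Nat.not_even_iff_odd.2 ha
      tauto
    rw [log_div (hp1 v).ne' (hp2 v).ne', mul_sub, half_log_lw, half_log_lw]
    simp only [he, zero_add, Nat.cast_mul]
  rw [e1, sum_even (fun m => log (a * (m : ℝ))) h, sum_even (fun m => log (m : ℝ)) (n := 0)
    (k := k) (by simp), sum_Icc_range, ← sum_sub_distrib]
  refine sum_congr rfl fun i _ => ?_
  have ha0 : (0 : ℝ) < a := by exact_mod_cast ha.pos
  have e2 : ((n + 2 * i + 1 + (if Even n then 1 else 0) : ℕ) : ℝ) =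
      2 * (((n / 2 : ℕ) : ℝ) + ((i + 1 : ℕ) : ℝ)) := by
    have e3 : n + 2 * i + 1 + (if Even n then 1 else 0) = 2 * (n / 2 + (i + 1)) := by
      split_ifs with hn
      · rw [Nat.even_iff] at hn; omega
      · rw [Nat.even_iff] at hn; omega
    rw [e3]
    push_cast
    ring
  have e4 : ((0 + 2 * i + 1 + (if Even 0 then 1 else 0) : ℕ) : ℝ) = 2 * ((i + 1 : ℕ) : ℝ) := by
    simp only [Even.zero, if_true]
    push_cast
    ring
  rw [e2, e4, ← log_div (by positivity) (by positivity)]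
  congr 1
  have : (((i + 1 : ℕ) : ℝ)) ≠ 0 := by positivity
  field_simp

/-- Lower bound of the real value. -/
theorem half_log_GG_zero_ge {n k a : ℕ} (h : Even (n * k)) (ha : Odd a) {t : ℝ} (ht : 0 < t) :
    ∑ i ∈ Icc 1 (k / 2), log ((a : ℝ) * ((n / 2 : ℕ) + (i : ℝ)) / i) ≤
      1 / 2 * log (GG n k a t 0) := by
  rw [← half_log_G00 h ha]
  have h1 := Far2.G00_le (k := k) h ha ht
  have h2 := log_le_log (Far2.G00_pos ha.pos) h1
  linarith

/-- **Structure for `t ≤ T`**: `GG_mono` and the last theorem. -/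
theorem far2_structure {n k a : ℕ} (h : Even (n * k)) (ha : Odd a) {t T : ℝ} (ht : 0 < t)
    (hT : t ≤ T) (θ : ℝ) :
    log (rho n k a t θ) ≤ ((k + 1) / 2 : ℕ) / 2 * log ((cosh T + cos θ) / 2) +
      ∑ j ∈ Icc 1 k, 1 / 2 * log (2 * (cosh (((n : ℝ) + j) * (a * T)) -
        cos (((n : ℝ) + j) * (a * (π + θ))))) -
      ∑ j ∈ Icc 1 k, 1 / 2 * log (2 * (cosh (j * T) - cos (j * (π + θ)))) -
      ∑ i ∈ Icc 1 (k / 2), log ((a : ℝ) * ((n / 2 : ℕ) + (i : ℝ)) / i) := by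
  rw [← half_log_GG ha.pos (ht.trans_le hT)]
  have h1 := half_log_GG_zero_ge h ha ht
  have h2 := GG_pos (n := n) (k := k) ha.pos ht θ
  have h3 := GG_pos (n := n) (k := k) ha.pos ht 0
  have h4 := log_le_log h2 (GG_mono ha.pos ht hT θ)
  unfold rho
  rw [log_sqrt (by positivity), log_div h2.ne' h3.ne']
  linarith

/-- Standard deviation near `t = 0`. -/
theorem sig2_le_zero {n k a : ℕ} (h : Even (n * k)) (ha : Odd a) {t : ℝ} (ht : 0 < t) :
    sig2 n k a t ≤ ((k + 1) / 2 : ℕ) / 4 +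
      ∑ j ∈ Icc 1 k, (if Even (n + j) then ((a : ℝ) * (n + j)) ^ 2 / 12
        else ((a : ℝ) * (n + j)) ^ 2 / 4) := by
  refine (Far2.sig2_le_sum h ha ht).trans (le_of_eq ?_)
  rw [sum_Icc_range]
  congr 1
  refine sum_congr rfl fun v _ => ?_
  rw [← add_assoc]
  split_ifs
  · push_cast; ring
  · push_cast; ring

/-- Closed form of the last bound. -/
theorem sig2_le_closed {n k a : ℕ} (h : Even (n * k)) (ha : Odd a) {t : ℝ} (ht : 0 < t) :
    sig2 n k a t ≤ ((k : ℝ) + 1) / 8 +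
      (a : ℝ) ^ 2 * (((k : ℝ) + 1) / 6 * (((n : ℝ) + (k + 1) / 2) ^ 2 + (k : ℝ) ^ 2 / 12)) :=
  Far2.sig2_le_S2 h ha ht

end Pool.Agent.SignedQ.Far
end

section

/-! # FAR arcs: standard deviation, constants, the regimes (task FJ) -/

namespace Pool.Agent.SignedQ.Far

open Real Finset Pool.Agent.SignedQ.An

/-- `L = log (a nb/k)`. -/
noncomputable def LL (n k a : ℕ) : ℝ := log (a * nb n k / k)

theorem nb_pos (n k : ℕ) : 0 < nb n k := by
  unfold nb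
  positivity

theorem LL_eq {n k a : ℕ} (hk : 1 ≤ k) (ha : 1 ≤ a) :
    LL n k a = log (a * nb n k) - log k := by
  have hk' : (0 : ℝ) < k := by exact_mod_cast (show 0 < k by omega)
  have ha' : (0 : ℝ) < a := by exact_mod_cast (show 0 < a by omega)
  unfold LL
  exact log_div (mul_pos ha' (nb_pos n k)).ne' hk'.ne'

theorem le_LL {n k a : ℕ} (hk : 1 ≤ k) {r : ℝ} (hr : 0 < r) (h : r * k ≤ a * nb n k) :
    log r ≤ LL n k a := by
  have hk' : (0 : ℝ) < k := by exact_mod_cast (show 0 < k by omega)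
  unfold LL
  exact log_le_log hr ((le_div_iff₀ hk').2 h)

/-- General form of the three bounds of the variance. -/
theorem S2_gen {n k a : ℕ} (hk : 26 ≤ k) (ha1 : 1 ≤ a) {α β v w : ℝ} (hα : 0 < α) (hβ : 0 < β)
    (ha : α ≤ a) (hB : β * k ≤ nb n k) (hv : exp v ≤ w)
    (hw : (27 / 26) / 6 * (1 + 1 / (12 * β ^ 2) + 3 / (4 * α ^ 2 * β ^ 2 * 676)) * w ^ 2 ≤ 1)
    (_hv0 : 0 ≤ v) (_hw0 : 0 < w) :
    1 / 2 * log (Far2.S2 n k a) ≤ LL n k a + 3 / 2 * log k - v := by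
  have hk' : (26 : ℝ) ≤ k := by exact_mod_cast hk
  have hk0 : (0 : ℝ) < k := by linarith
  have hB0 := nb_pos n k
  have ha0 : (0 : ℝ) < a := hα.trans_le ha
  have hBk : β * k ≤ nb n k := hB
  have hβk : 0 < β * k := by positivity
  set B := nb n k with hBdef
  have e1 : (n : ℝ) + (k + 1) / 2 = B := by rw [hBdef]; unfold nb; ring
  set R := (27 / 26) / 6 * (1 + 1 / (12 * β ^ 2) + 3 / (4 * α ^ 2 * β ^ 2 * 676)) with hR
  have hR0 : 0 < R := by rw [hR]; positivity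
  -- `S2 ≤ a² B² k R`
  have key : Far2.S2 n k a ≤ (a * B) ^ 2 * k * R := by
    unfold Far2.S2
    rw [e1]
    have hB2 : (β * k) ^ 2 ≤ B ^ 2 := pow_le_pow_left₀ hβk.le hBk 2
    have ha2 : α ^ 2 ≤ (a : ℝ) ^ 2 := pow_le_pow_left₀ hα.le ha 2
    have h1 : (k : ℝ) ^ 2 / 12 ≤ B ^ 2 * (1 / (12 * β ^ 2)) := by
      rw [mul_one_div, div_le_div_iff₀ (by norm_num) (by positivity)]
      nlinarith
    have h2 : (3 : ℝ) / 4 ≤ (a * B) ^ 2 * (3 / (4 * α ^ 2 * β ^ 2 * 676)) := by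
      rw [← mul_div_assoc, div_le_div_iff₀ (by norm_num) (by positivity)]
      have h3 : (676 : ℝ) ≤ (k : ℝ) ^ 2 := by nlinarith
      have h4 : α ^ 2 * (β ^ 2 * 676) ≤ (a : ℝ) ^ 2 * B ^ 2 := by
        refine mul_le_mul ha2 ?_ (by positivity) (by positivity)
        refine le_trans ?_ hB2
        rw [mul_pow]
        exact mul_le_mul_of_nonneg_left h3 (sq_nonneg _)
      nlinarith
    have h3 : (k : ℝ) + 1 ≤ 27 / 26 * k := by linarith
    have e2 : (k + 1 : ℝ) / 8 + (a : ℝ) ^ 2 * ((k + 1) / 6 * (B ^ 2 + (k : ℝ) ^ 2 / 12)) =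
        (k + 1) / 6 * (3 / 4 + (a : ℝ) ^ 2 * (B ^ 2 + (k : ℝ) ^ 2 / 12)) := by ring
    rw [e2]
    have h4 : 3 / 4 + (a : ℝ) ^ 2 * (B ^ 2 + (k : ℝ) ^ 2 / 12) ≤
        (a * B) ^ 2 * (1 + 1 / (12 * β ^ 2) + 3 / (4 * α ^ 2 * β ^ 2 * 676)) := by
      have h5 := mul_le_mul_of_nonneg_left h1 (sq_nonneg (a : ℝ))
      have e3 : (a * B) ^ 2 * (1 + 1 / (12 * β ^ 2) + 3 / (4 * α ^ 2 * β ^ 2 * 676)) =
          (a : ℝ) ^ 2 * B ^ 2 + (a : ℝ) ^ 2 * (B ^ 2 * (1 / (12 * β ^ 2))) +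
            (a * B) ^ 2 * (3 / (4 * α ^ 2 * β ^ 2 * 676)) := by ring
      rw [e3]
      linarith
    calc ((k : ℝ) + 1) / 6 * (3 / 4 + (a : ℝ) ^ 2 * (B ^ 2 + (k : ℝ) ^ 2 / 12))
        ≤ (27 / 26 * k) / 6 * ((a * B) ^ 2 *
            (1 + 1 / (12 * β ^ 2) + 3 / (4 * α ^ 2 * β ^ 2 * 676))) := by
          refine mul_le_mul (by linarith) h4 (by positivity) (by positivity)
      _ = _ := by rw [hR]; ring
  have hlog : log (Far2.S2 n k a) ≤ log ((a * B) ^ 2 * k * R) :=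
    log_le_log (Far2.S2_pos n k a) key
  have e4 : log ((a * B) ^ 2 * k * R) = 2 * log (a * B) + log k + log R := by
    rw [log_mul (by positivity) hR0.ne', log_mul (by positivity) hk0.ne', log_pow]
    push_cast
    ring
  have hLR : log R ≤ -(2 * v) := by
    rw [log_le_iff_le_exp hR0, exp_neg, le_inv_comm₀ hR0 (exp_pos _)]
    have h6 : exp (2 * v) ≤ w ^ 2 := by
      rw [show (2 : ℝ) * v = v + v by ring, exp_add, sq]
      exact mul_le_mul hv hv (exp_pos _).le ((exp_pos _).le.trans hv)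
    refine h6.trans ?_
    rw [← one_div, le_div_iff₀ hR0]
    linarith
  have hLL := LL_eq (n := n) (k := k) (a := a) (by omega) ha1
  rw [← hBdef] at hLL
  linarith

/-- `S2 = a² nb² (k/6) (1+1/k) (1 + k²/(12nb²)) (1 + small)`: regime A (`nb ≥ k`).
True constant `½ log (1/6) + ½ log (13/12) + 1/52 + .0003 = -.83633`. -/
theorem S2_A {n k a : ℕ} (hk : 26 ≤ k) (ha : 3 ≤ a) (hn : k ≤ 2 * n) :
    1 / 2 * log (Far2.S2 n k a) ≤ LL n k a + 3 / 2 * log k - 0.8363 := by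
  have hk' : (26 : ℝ) ≤ k := by exact_mod_cast hk
  have hn' : (k : ℝ) ≤ 2 * n := by exact_mod_cast hn
  refine S2_gen hk (by omega) (α := 3) (β := 1) (v := 0.8363) (w := 2.3085) (by norm_num) (by norm_num)
    (by exact_mod_cast ha) (by unfold nb; linarith) ?_ ?_ (by norm_num) (by norm_num)
  · refine (exp_bound' (by norm_num) (by norm_num) (n := 8) (by norm_num)).trans ?_
    norm_num [Finset.sum_range_succ, Nat.factorial]
  · norm_num

/-- Regime B: `nb ≥ .65 k`. -/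
theorem S2_B {n k a : ℕ} (hk : 26 ≤ k) (ha : 5 ≤ a) (hn : 3 * k ≤ 20 * n) :
    1 / 2 * log (Far2.S2 n k a) ≤ LL n k a + 3 / 2 * log k - 0.7863 := by
  have hk' : (26 : ℝ) ≤ k := by exact_mod_cast hk
  have hn' : 3 * (k : ℝ) ≤ 20 * n := by exact_mod_cast hn
  refine S2_gen hk (by omega) (α := 5) (β := 13 / 20) (v := 0.7863) (w := 2.19535) (by norm_num)
    (by norm_num) (by exact_mod_cast ha) (by unfold nb; linarith) ?_ ?_ (by norm_num) (by norm_num)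
  · refine (exp_bound' (by norm_num) (by norm_num) (n := 9) (by norm_num)).trans ?_
    norm_num [Finset.sum_range_succ, Nat.factorial]
  · norm_num

/-- Regime C: `nb ≥ (k+1)/2`. -/
theorem S2_C {n k a : ℕ} (hk : 26 ≤ k) (ha : 5 ≤ a) :
    1 / 2 * log (Far2.S2 n k a) ≤ LL n k a + 3 / 2 * log k - 0.7325 := by
  have hk' : (26 : ℝ) ≤ k := by exact_mod_cast hk
  have hn' : (0 : ℝ) ≤ n := Nat.cast_nonneg n
  refine S2_gen hk (by omega) (α := 5) (β := 1 / 2) (v := 0.7325) (w := 2.0804) (by norm_num)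
    (by norm_num) (by exact_mod_cast ha) (by unfold nb; linarith) ?_ ?_ (by norm_num) (by norm_num)
  · refine (exp_bound' (by norm_num) (by norm_num) (n := 9) (by norm_num)).trans ?_
    norm_num [Finset.sum_range_succ, Nat.factorial]
  · norm_num

/-- `T = c/(a nb)`: `log T = log c - L - log k`; `log k! ≥ k log k - k + (1/2) log k + .9189`. -/
theorem den_const {n k a : ℕ} (hk : 1 ≤ k) (ha : 1 ≤ a) {c : ℝ} (hc : 0 < c) :
    -(1 / 6 * (k * log (6 * (c / (a * nb n k))) + log (k.factorial : ℝ))) ≤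
      1 / 6 * (k * LL n k a) + (1 - log 6 - log c) / 6 * k - 1 / 12 * log k - 0.153 := by
  have hk' : (0 : ℝ) < k := by exact_mod_cast (show 0 < k by omega)
  have ha' : (0 : ℝ) < a := by exact_mod_cast (show 0 < a by omega)
  have hB := nb_pos n k
  have hLL := LL_eq (n := n) (k := k) (a := a) hk ha
  have h1 := log_fact_ge hk
  have e1 : log (6 * (c / (a * nb n k))) = log 6 + (log c - log (a * nb n k)) := by
    rw [log_mul (by norm_num) (by positivity), log_div hc.ne' (by positivity)]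
  rw [e1, hLL]
  have e2 : -(1 / 6 * ((k : ℝ) * (log 6 + (log c - log (a * nb n k))) + log (k.factorial : ℝ))) =
      1 / 6 * (k * (log (a * nb n k) - log k)) + (1 - log 6 - log c) / 6 * k -
        1 / 6 * (log (k.factorial : ℝ) - (k * log k - k)) := by ring
  rw [e2]
  linarith

/-- `log (1/(kT)) = L - log c`. -/
theorem log_inv_kT {n k a : ℕ} (hk : 1 ≤ k) (ha : 1 ≤ a) {c : ℝ} (hc : 0 < c) :
    log (1 / (k * (c / (a * nb n k)))) = LL n k a - log c := by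
  have hk' : (0 : ℝ) < k := by exact_mod_cast (show 0 < k by omega)
  have ha' : (0 : ℝ) < a := by exact_mod_cast (show 0 < a by omega)
  have hB := nb_pos n k
  have hLL := LL_eq (n := n) (k := k) (a := a) hk ha
  rw [hLL, one_div, log_inv, log_mul hk'.ne' (by positivity), log_div hc.ne' (by positivity)]
  ring

/-- `nb ≥ n + k/2 ≥ (2/3)(n+k)`. -/
theorem LL_A {n k a M : ℕ} (hk : 1 ≤ k) (hM : 1 ≤ M) (hn : k ≤ 2 * n) (h : M * k ≤ a * (n + k)) :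
    log (2 / 3 * M) ≤ LL n k a := by
  have hM' : (0 : ℝ) < M := by exact_mod_cast (show 0 < M by omega)
  have hn' : (k : ℝ) ≤ 2 * n := by exact_mod_cast hn
  have h' : (M : ℝ) * k ≤ a * (n + k) := by exact_mod_cast h
  refine le_LL hk (by positivity) ?_
  have h1 : 2 / 3 * ((n : ℝ) + k) ≤ nb n k := by unfold nb; linarith
  have h2 := mul_le_mul_of_nonneg_left h1 (Nat.cast_nonneg (α := ℝ) a)
  linarith

theorem LL_A' {n k a : ℕ} (hk : 1 ≤ k) (hn : k ≤ 2 * n) (ha : 1 ≤ a) : log a ≤ LL n k a := by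
  have hn' : (k : ℝ) ≤ 2 * n := by exact_mod_cast hn
  refine le_LL hk (by exact_mod_cast (show 0 < a by omega)) ?_
  have h1 : (k : ℝ) ≤ nb n k := by unfold nb; linarith
  exact mul_le_mul_of_nonneg_left h1 (Nat.cast_nonneg (α := ℝ) a)

/-- `3(n+k) ≥ 5k`: `nb ≥ 7k/6`. -/
theorem LL_A3 {n k : ℕ} (hk : 1 ≤ k) (hn : 2 * k ≤ 3 * n) : log (7 / 2) ≤ LL n k 3 := by
  have hn' : 2 * (k : ℝ) ≤ 3 * n := by exact_mod_cast hn
  refine le_LL hk (by norm_num) ?_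
  have h1 : 7 / 6 * (k : ℝ) ≤ nb n k := by unfold nb; linarith
  push_cast
  linarith

/-- `nb ≥ n + k/2 ≥ (13/23)(n+k)`. -/
theorem LL_B {n k a M : ℕ} (hk : 1 ≤ k) (hM : 1 ≤ M) (hn : 3 * k ≤ 20 * n)
    (h : M * k ≤ a * (n + k)) : log (13 / 23 * M) ≤ LL n k a := by
  have hM' : (0 : ℝ) < M := by exact_mod_cast (show 0 < M by omega)
  have hn' : 3 * (k : ℝ) ≤ 20 * n := by exact_mod_cast hn
  have h' : (M : ℝ) * k ≤ a * (n + k) := by exact_mod_cast h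
  refine le_LL hk (by positivity) ?_
  have h1 : 13 / 23 * ((n : ℝ) + k) ≤ nb n k := by unfold nb; linarith
  have h2 := mul_le_mul_of_nonneg_left h1 (Nat.cast_nonneg (α := ℝ) a)
  linarith

theorem LL_B' {n k a : ℕ} (hk : 1 ≤ k) (hn : 3 * k ≤ 20 * n) (ha : 5 ≤ a) :
    log (13 / 4) ≤ LL n k a := by
  have hn' : 3 * (k : ℝ) ≤ 20 * n := by exact_mod_cast hn
  have ha' : (5 : ℝ) ≤ a := by exact_mod_cast ha
  refine le_LL hk (by norm_num) ?_
  have h1 : 13 / 20 * (k : ℝ) ≤ nb n k := by unfold nb; linarith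
  have h2 : 5 * nb n k ≤ a * nb n k := mul_le_mul_of_nonneg_right ha' (nb_pos n k).le
  linarith

/-- `exp y ≤ 1 + y + y²/2 + y³/4`, `0 ≤ y ≤ 1`. -/
theorem exp_le_cubic {y : ℝ} (h0 : 0 ≤ y) (h1 : y ≤ 1) :
    exp y ≤ 1 + y + y ^ 2 / 2 + y ^ 3 / 4 := by
  have h := exp_bound' h0 h1 (n := 3) (by norm_num)
  have e : ∑ m ∈ range 3, y ^ m / (m.factorial : ℝ) + y ^ 3 * ((3 : ℕ) + 1) / ((3 : ℕ).factorial * (3 : ℕ)) =
      1 + y + y ^ 2 / 2 + y ^ 3 * (4 / 18) := by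
    norm_num [Finset.sum_range_succ, Nat.factorial]
    ring
  rw [e] at h
  have : 0 ≤ y ^ 3 := by positivity
  linarith

/-- `nb/k ≥ ν + 1/2`, `a ≥ M/(1+ν)`; `(1+2ν) ≥ (1+ν) exp (4ν/5)` for `0 ≤ ν ≤ .15`
(`exp y ≤ 1 + y + y²/2 + y³/4`). -/
theorem LL_C {n k a M : ℕ} (hk : 1 ≤ k) (hM : 1 ≤ M) (hn : 20 * n ≤ 3 * k)
    (h : M * k ≤ a * (n + k)) : log (M / 2) + 4 / 5 * (n / k) ≤ LL n k a := by
  have hk' : (0 : ℝ) < k := by exact_mod_cast (show 0 < k by omega)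
  have hM' : (0 : ℝ) < M := by exact_mod_cast (show 0 < M by omega)
  have hn' : 20 * (n : ℝ) ≤ 3 * k := by exact_mod_cast hn
  have h' : (M : ℝ) * k ≤ a * (n + k) := by exact_mod_cast h
  have ha0 : (0 : ℝ) ≤ a := Nat.cast_nonneg a
  set ν : ℝ := n / k with hν
  have hnν : (n : ℝ) = ν * k := by rw [hν]; field_simp
  have ν0 : 0 ≤ ν := by rw [hν]; positivity
  have ν1 : ν ≤ 3 / 20 := by
    rw [hν, div_le_iff₀ hk']
    linarith
  rw [← log_exp (4 / 5 * ν), ← log_mul (by positivity) (exp_pos _).ne']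
  refine le_LL hk (by positivity) ?_
  have h1 : exp (4 / 5 * ν) * (1 + ν) ≤ 1 + 2 * ν := by
    have h2 := exp_le_cubic (y := 4 / 5 * ν) (by positivity) (by linarith)
    have h3 := mul_le_mul_of_nonneg_right h2 (show 0 ≤ 1 + ν by linarith)
    refine h3.trans ?_
    have h4 : ν ^ 2 ≤ 3 / 20 * ν := by nlinarith
    have h5 : ν ^ 3 ≤ 9 / 400 * ν := by nlinarith
    have h6 : ν ^ 4 ≤ 27 / 8000 * ν := by nlinarith [mul_nonneg ν0 (sq_nonneg ν)]
    nlinarith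
  have h2 : (M : ℝ) ≤ a * (1 + ν) := by
    rw [hnν] at h'
    have : (M : ℝ) * k ≤ (a * (1 + ν)) * k := by linarith
    exact le_of_mul_le_mul_right this hk'
  have h3 : (1 + 2 * ν) / 2 * k ≤ nb n k := by
    unfold nb
    rw [hnν]
    linarith
  calc (M : ℝ) / 2 * exp (4 / 5 * ν) * k ≤ (a * (1 + ν)) / 2 * exp (4 / 5 * ν) * k := by
        refine mul_le_mul_of_nonneg_right (mul_le_mul_of_nonneg_right ?_ (exp_pos _).le) hk'.le
        linarith
    _ = a * ((exp (4 / 5 * ν) * (1 + ν)) / 2 * k) := by ring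
    _ ≤ a * ((1 + 2 * ν) / 2 * k) := by
        refine mul_le_mul_of_nonneg_left (mul_le_mul_of_nonneg_right ?_ hk'.le) ha0
        linarith
    _ ≤ a * nb n k := mul_le_mul_of_nonneg_left h3 ha0

/-- `1 + 2ν ≥ exp (1.74 ν)` for `0 ≤ ν ≤ .15`. -/
theorem LL_C' {n k a A : ℕ} (hk : 1 ≤ k) (hA : 1 ≤ A) (hn : 20 * n ≤ 3 * k) (ha : A ≤ a) :
    log (A / 2) + 1.74 * (n / k) ≤ LL n k a := by
  have hk' : (0 : ℝ) < k := by exact_mod_cast (show 0 < k by omega)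
  have hA' : (0 : ℝ) < A := by exact_mod_cast (show 0 < A by omega)
  have hn' : 20 * (n : ℝ) ≤ 3 * k := by exact_mod_cast hn
  have ha' : (A : ℝ) ≤ a := by exact_mod_cast ha
  set ν : ℝ := n / k with hν
  have hnν : (n : ℝ) = ν * k := by rw [hν]; field_simp
  have ν0 : 0 ≤ ν := by rw [hν]; positivity
  have ν1 : ν ≤ 3 / 20 := by
    rw [hν, div_le_iff₀ hk']
    linarith
  rw [← log_exp (1.74 * ν), ← log_mul (by positivity) (exp_pos _).ne']
  refine le_LL hk (by positivity) ?_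
  have h1 : exp (1.74 * ν) ≤ 1 + 2 * ν := by
    have h2 := exp_le_cubic (y := 1.74 * ν) (by positivity) (by norm_num; linarith)
    refine h2.trans ?_
    have h4 : ν ^ 2 ≤ 3 / 20 * ν := by nlinarith
    have h5 : ν ^ 3 ≤ 9 / 400 * ν := by nlinarith
    norm_num
    nlinarith
  have h3 : (1 + 2 * ν) / 2 * k ≤ nb n k := by
    unfold nb
    rw [hnν]
    linarith
  calc (A : ℝ) / 2 * exp (1.74 * ν) * k ≤ (A : ℝ) / 2 * (1 + 2 * ν) * k :=
        mul_le_mul_of_nonneg_right (mul_le_mul_of_nonneg_left h1 (by positivity)) hk'.le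
    _ = A * ((1 + 2 * ν) / 2 * k) := by ring
    _ ≤ a * nb n k := mul_le_mul ha' h3 (by positivity) (by positivity)

/-- `(ν + 1/2)/(.55) ≥ exp (1.66 (ν - .05))` for `.05 ≤ ν ≤ .15`. -/
theorem LL_C5 {n k : ℕ} (hk : 1 ≤ k) (hn : 20 * n ≤ 3 * k) (hn1 : k ≤ 20 * n) :
    log (11 / 4) + 1.66 * (n / k - 1 / 20) ≤ LL n k 5 := by
  have hk' : (0 : ℝ) < k := by exact_mod_cast (show 0 < k by omega)
  have hn' : 20 * (n : ℝ) ≤ 3 * k := by exact_mod_cast hn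
  have hn1' : (k : ℝ) ≤ 20 * n := by exact_mod_cast hn1
  set ν : ℝ := n / k with hν
  have hnν : (n : ℝ) = ν * k := by rw [hν]; field_simp
  have ν0 : 1 / 20 ≤ ν := by
    rw [hν, le_div_iff₀ hk']
    linarith
  have ν1 : ν ≤ 3 / 20 := by
    rw [hν, div_le_iff₀ hk']
    linarith
  obtain ⟨δ, hδ⟩ : ∃ δ, ν = 1 / 20 + δ := ⟨ν - 1 / 20, by ring⟩
  have δ0 : 0 ≤ δ := by linarith
  have δ1 : δ ≤ 1 / 10 := by linarith
  rw [show ν - 1 / 20 = δ by linarith, ← log_exp (1.66 * δ),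
    ← log_mul (by norm_num) (exp_pos _).ne']
  refine le_LL hk (by positivity) ?_
  have h1 : exp (1.66 * δ) ≤ 1 + 20 / 11 * δ := by
    have h2 := exp_le_cubic (y := 1.66 * δ) (by positivity) (by norm_num; linarith)
    refine h2.trans ?_
    have h4 : δ ^ 2 ≤ 1 / 10 * δ := by nlinarith
    have h5 : δ ^ 3 ≤ 1 / 100 * δ := by nlinarith
    norm_num
    nlinarith
  have h3 : (ν + 1 / 2) * k ≤ nb n k := by
    unfold nb
    rw [hnν]
    linarith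
  calc (11 : ℝ) / 4 * exp (1.66 * δ) * k ≤ 11 / 4 * (1 + 20 / 11 * δ) * k :=
        mul_le_mul_of_nonneg_right (mul_le_mul_of_nonneg_left h1 (by norm_num)) hk'.le
    _ = 5 * ((ν + 1 / 2) * k) := by rw [hδ]; ring
    _ ≤ 5 * nb n k := by linarith
    _ = ((5 : ℕ) : ℝ) * nb n k := by norm_num

/-- `kT ≤ 1/M'` from `L ≥ …`: `a nb ≥ r k`, `c ≤ r v`. -/
theorem kT_le {n k a : ℕ} (hk : 1 ≤ k) (ha : 1 ≤ a) {c r v : ℝ} (hc : 0 < c) (hr : 0 < r)
    (hv : c ≤ r * v) (h : log r ≤ LL n k a) : k * (c / (a * nb n k)) ≤ v := by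
  have hk' : (0 : ℝ) < k := by exact_mod_cast (show 0 < k by omega)
  have ha' : (0 : ℝ) < a := by exact_mod_cast (show 0 < a by omega)
  have hB := nb_pos n k
  have h1 : r ≤ a * nb n k / k := by
    unfold LL at h
    exact (log_le_log_iff hr (by positivity)).1 h
  rw [le_div_iff₀ hk'] at h1
  rw [← mul_div_assoc, div_le_iff₀ (by positivity)]
  have hv0 : 0 < v := by
    by_contra hneg
    have := mul_nonpos_of_nonneg_of_nonpos hr.le (not_lt.1 hneg)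
    linarith
  calc (k : ℝ) * c ≤ k * (r * v) := mul_le_mul_of_nonneg_left hv hk'.le
    _ = v * (r * k) := by ring
    _ ≤ v * (a * nb n k) := mul_le_mul_of_nonneg_left h1 hv0.le

end Pool.Agent.SignedQ.Far
end

section

/-! # FAR arcs: the final inequality, one regime and one interval -/

namespace Pool.Agent.SignedQ.Far

open Real

/-- The eleven bounds, `kT ≤ 1/10`. -/
def UB10 (k L lc lk w : ℝ) : Prop :=
    w ≤ 0.046 * k + 0.0235 * (k * (L - lc)) + (-0.0771) * (L - lc) + (-0.4166) * lk + (-0.3276) ∨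
    w ≤ (-0.0024) * k + 0 * (k * (L - lc)) + 0.9356 * (L - lc) + (-0.4166) * lk + 1.4624 ∨
    w ≤ (-0.0074) * k + 0.0556 * (k * (L - lc)) + 0.2517 * (L - lc) + (-0.4166) * lk + 0.2416 ∨
    w ≤ (-0.0285) * k + 0 * (k * (L - lc)) + 0.9055 * (L - lc) + (-0.4166) * lk + 1.2586 ∨
    w ≤ 0.0417 * k + 0.0275 * (k * (L - lc)) + 0.0646 * (L - lc) + (-0.4166) * lk + (-0.0305) ∨
    w ≤ 0.0285 * k + 0.0275 * (k * (L - lc)) + 0.4259 * (L - lc) + (-0.4166) * lk + 0.502 ∨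
    w ≤ (-0.1149) * k + 0.1112 * (k * (L - lc)) + 0.2404 * (L - lc) + (-0.4166) * lk + 0.1855 ∨
    w ≤ (-0.1765) * k + 0.0556 * (k * (L - lc)) + 0.6685 * (L - lc) + (-0.4166) * lk + 0.9423 ∨
    w ≤ (-0.3489) * k + 0 * (k * (L - lc)) + 0.8046 * (L - lc) + (-0.4166) * lk + 1.6037 ∨
    w ≤ (-0.6591) * k + 0 * (k * (L - lc)) + 2.6986 * (L - lc) + (-0.4166) * lk + 5.8075 ∨
    w ≤ (-0.8783) * k + 0.1239 * (k * (L - lc)) + (-0.4166) * (L - lc) + (-0.4166) * lk + (-1.0304)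

/-- The eleven bounds, `kT ≤ 1/3`. -/
def UB3 (k L lc lk w : ℝ) : Prop :=
    w ≤ 0.0468 * k + 0.0235 * (k * (L - lc)) + (-0.0771) * (L - lc) + (-0.4166) * lk + (-0.2409) ∨
    w ≤ (-0.0024) * k + 0 * (k * (L - lc)) + 0.9356 * (L - lc) + (-0.4166) * lk + 1.6117 ∨
    w ≤ (-0.0002) * k + 0.0556 * (k * (L - lc)) + 0.2517 * (L - lc) + (-0.4166) * lk + 0.344 ∨
    w ≤ (-0.0285) * k + 0 * (k * (L - lc)) + 0.9055 * (L - lc) + (-0.4166) * lk + 1.4253 ∨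
    w ≤ 0.0437 * k + 0.0275 * (k * (L - lc)) + 0.0646 * (L - lc) + (-0.4166) * lk + 0.0677 ∨
    w ≤ 0.0304 * k + 0.0275 * (k * (L - lc)) + 0.4259 * (L - lc) + (-0.4166) * lk + 0.6503 ∨
    w ≤ (-0.1028) * k + 0.1112 * (k * (L - lc)) + 0.2404 * (L - lc) + (-0.4166) * lk + 0.3148 ∨
    w ≤ (-0.1693) * k + 0.0556 * (k * (L - lc)) + 0.6685 * (L - lc) + (-0.4166) * lk + 1.1443 ∨
    w ≤ (-0.3489) * k + 0 * (k * (L - lc)) + 0.8046 * (L - lc) + (-0.4166) * lk + 1.8992 ∨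
    w ≤ (-0.6591) * k + 0 * (k * (L - lc)) + 2.6986 * (L - lc) + (-0.4166) * lk + 6.5847 ∨
    w ≤ (-0.8475) * k + 0.1239 * (k * (L - lc)) + (-0.4166) * (L - lc) + (-0.4166) * lk + (-1.0304)

theorem W_UB10 {n k a : ℕ} (hk : 26 ≤ k) (ha : 1 ≤ a) {c θ : ℝ} (hc : 0 < c)
    (hv : k * (c / (a * nb n k)) ≤ 1 / 10) (h6 : 6 / (k : ℝ) ≤ θ) (hpi : θ ≤ π - 5 / k)
    (hex : 1 / (k : ℝ) ≤ |θ - π / 3|) :
    UB10 k (LL n k a) (log c) (log k) (HS k (c / (a * nb n k)) θ +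
      (((k + 1) / 2 : ℕ) : ℝ) / 2 * log ((cosh (c / (a * nb n k)) + cos θ) / 2)) := by
  have hT : 0 < c / (a * nb n k) := by
    have h1 : (0 : ℝ) < a := by exact_mod_cast ha
    have h2 : 0 < nb n k := by unfold nb; positivity
    positivity
  have hl := log_inv_kT (n := n) (a := a) (by omega : 1 ≤ k) ha hc
  have hp1 := pi_gt_d2
  have hp2 := pi_lt_d2
  unfold UB10
  rw [← hl]
  rcases le_total θ (1 / 5) with h | h
  · exact Or.inl (U_L_ten hk hT hv h6 h)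
  refine Or.inr ?_
  rcases le_total θ (59 / 100) with h' | h'
  · exact Or.inl (U_M1_ten hk hT hv h h')
  refine Or.inr ?_
  rcases le_total θ (67 / 100) with h | h
  · exact Or.inl (U_p5_ten hk hT hv h' h)
  refine Or.inr ?_
  rcases le_total θ (19 / 20) with h' | h'
  · exact Or.inl (U_M2_ten hk hT hv h h')
  refine Or.inr ?_
  rcases le_abs'.1 hex with h | h
  · exact Or.inl (U_p3m_ten hk hT hv h' (by linarith))
  refine Or.inr ?_
  rcases le_total θ (3 / 2) with h' | h'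
  · exact Or.inl (U_p3p_ten hk hT hv (by linarith) h')
  refine Or.inr ?_
  rcases le_total θ (41 / 25) with h | h
  · exact Or.inl (U_p2_ten hk hT hv h' h)
  refine Or.inr ?_
  rcases le_total θ (21 / 10) with h' | h'
  · exact Or.inl (U_q_ten hk hT hv h h')
  refine Or.inr ?_
  rcases le_total θ (13 / 5) with h | h
  · exact Or.inl (U_m_ten hk hT hv h' h)
  refine Or.inr ?_
  rcases le_total θ (π - 1 / 5) with h' | h'
  · exact Or.inl (U_R2_ten hk hT hv h h')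
  exact Or.inr (U_R1_ten hk hT hv h' hpi)

theorem W_UB3 {n k a : ℕ} (hk : 26 ≤ k) (ha : 1 ≤ a) {c θ : ℝ} (hc : 0 < c)
    (hv : k * (c / (a * nb n k)) ≤ 1 / 3) (h6 : 6 / (k : ℝ) ≤ θ) (hpi : θ ≤ π - 5 / k)
    (hex : 1 / (k : ℝ) ≤ |θ - π / 3|) :
    UB3 k (LL n k a) (log c) (log k) (HS k (c / (a * nb n k)) θ +
      (((k + 1) / 2 : ℕ) : ℝ) / 2 * log ((cosh (c / (a * nb n k)) + cos θ) / 2)) := by
  have hT : 0 < c / (a * nb n k) := by
    have h1 : (0 : ℝ) < a := by exact_mod_cast ha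
    have h2 : 0 < nb n k := by unfold nb; positivity
    positivity
  have hl := log_inv_kT (n := n) (a := a) (by omega : 1 ≤ k) ha hc
  have hp1 := pi_gt_d2
  have hp2 := pi_lt_d2
  unfold UB3
  rw [← hl]
  rcases le_total θ (1 / 5) with h | h
  · exact Or.inl (U_L_three hk hT hv h6 h)
  refine Or.inr ?_
  rcases le_total θ (59 / 100) with h' | h'
  · exact Or.inl (U_M1_three hk hT hv h h')
  refine Or.inr ?_
  rcases le_total θ (67 / 100) with h | h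
  · exact Or.inl (U_p5_three hk hT hv h' h)
  refine Or.inr ?_
  rcases le_total θ (19 / 20) with h' | h'
  · exact Or.inl (U_M2_three hk hT hv h h')
  refine Or.inr ?_
  rcases le_abs'.1 hex with h | h
  · exact Or.inl (U_p3m_three hk hT hv h' (by linarith))
  refine Or.inr ?_
  rcases le_total θ (3 / 2) with h' | h'
  · exact Or.inl (U_p3p_three hk hT hv (by linarith) h')
  refine Or.inr ?_
  rcases le_total θ (41 / 25) with h | h
  · exact Or.inl (U_p2_three hk hT hv h' h)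
  refine Or.inr ?_
  rcases le_total θ (21 / 10) with h' | h'
  · exact Or.inl (U_q_three hk hT hv h h')
  refine Or.inr ?_
  rcases le_total θ (13 / 5) with h | h
  · exact Or.inl (U_m_three hk hT hv h' h)
  refine Or.inr ?_
  rcases le_total θ (π - 1 / 5) with h' | h'
  · exact Or.inl (U_R2_three hk hT hv h h')
  exact Or.inr (U_R1_three hk hT hv h' hpi)

/-- One interval, nonnegative coefficient of `L - log c`. -/
theorem caseP {w k L lk ν lc lo ck ckl cl clk co β₀ γ₀ δ₀ ε₀ ζ k₀ L₀ e n₀ n₁ lk₀ M : ℝ}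
    (h : w ≤ ck * k + ckl * (k * (L - lc)) + cl * (L - lc) + clk * lk + co)
    (hk : k₀ ≤ k) (hn0 : n₀ ≤ ν) (hn1 : ν ≤ n₁) (hL : L₀ + e * ν ≤ L)
    (hlk : lk ≤ lk₀ + (k - k₀) / k₀) (hlo : lo ≤ lc) (hk₀ : 0 < k₀) (hn01 : n₀ < n₁)
    (hckl : 0 ≤ ckl) (hcl : 0 ≤ cl) (hδ : 0 ≤ δ₀ + clk) (hα : -(1 / 3) + ckl ≤ 0)
    (hαγ : (-(1 / 3) + ckl) * k₀ + (γ₀ + cl) ≤ 0)
    (v0 : (-(1 / 3) + ckl) * k₀ * (L₀ + e * n₀) + (β₀ + ck - ckl * lo) * k₀ +
      (γ₀ + cl) * (L₀ + e * n₀) + (δ₀ + clk) * lk₀ + (ε₀ + co - cl * lo) + ζ * k₀ * n₀ ≤ M)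
    (s0 : (-(1 / 3) + ckl) * (L₀ + e * n₀) + (β₀ + ck - ckl * lo) + (δ₀ + clk) / k₀ + ζ * n₀ ≤ 0)
    (v1 : (-(1 / 3) + ckl) * k₀ * (L₀ + e * n₁) + (β₀ + ck - ckl * lo) * k₀ +
      (γ₀ + cl) * (L₀ + e * n₁) + (δ₀ + clk) * lk₀ + (ε₀ + co - cl * lo) + ζ * k₀ * n₁ ≤ M)
    (s1 : (-(1 / 3) + ckl) * (L₀ + e * n₁) + (β₀ + ck - ckl * lo) + (δ₀ + clk) / k₀ + ζ * n₁ ≤ 0) :
    w + (-(1 / 3) * (k * L) + β₀ * k + γ₀ * L + δ₀ * lk + ε₀ + ζ * (k * ν)) ≤ M := by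
  have hc := corner hk₀ hk hn0 hn1 hn01 hL hlk hδ hα hαγ v0 s0 v1 s1
  have h1 : ckl * k * lo ≤ ckl * k * lc :=
    mul_le_mul_of_nonneg_left hlo (mul_nonneg hckl (hk₀.le.trans hk))
  have h2 : cl * lo ≤ cl * lc := mul_le_mul_of_nonneg_left hlo hcl
  linarith

/-- The same for a nonpositive coefficient, `log c ≤ 0`. -/
theorem caseN {w k L lk ν lc lo ck ckl cl clk co β₀ γ₀ δ₀ ε₀ ζ k₀ L₀ e n₀ n₁ lk₀ M : ℝ}
    (h : w ≤ ck * k + ckl * (k * (L - lc)) + cl * (L - lc) + clk * lk + co)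
    (hk : k₀ ≤ k) (hn0 : n₀ ≤ ν) (hn1 : ν ≤ n₁) (hL : L₀ + e * ν ≤ L)
    (hlk : lk ≤ lk₀ + (k - k₀) / k₀) (hlo : lo ≤ lc) (hhi : lc ≤ 0) (hk₀ : 0 < k₀)
    (hn01 : n₀ < n₁) (hckl : 0 ≤ ckl) (hcl : cl ≤ 0) (hδ : 0 ≤ δ₀ + clk)
    (hα : -(1 / 3) + ckl ≤ 0) (hαγ : (-(1 / 3) + ckl) * k₀ + (γ₀ + cl) ≤ 0)
    (v0 : (-(1 / 3) + ckl) * k₀ * (L₀ + e * n₀) + (β₀ + ck - ckl * lo) * k₀ +
      (γ₀ + cl) * (L₀ + e * n₀) + (δ₀ + clk) * lk₀ + (ε₀ + co) + ζ * k₀ * n₀ ≤ M)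
    (s0 : (-(1 / 3) + ckl) * (L₀ + e * n₀) + (β₀ + ck - ckl * lo) + (δ₀ + clk) / k₀ + ζ * n₀ ≤ 0)
    (v1 : (-(1 / 3) + ckl) * k₀ * (L₀ + e * n₁) + (β₀ + ck - ckl * lo) * k₀ +
      (γ₀ + cl) * (L₀ + e * n₁) + (δ₀ + clk) * lk₀ + (ε₀ + co) + ζ * k₀ * n₁ ≤ M)
    (s1 : (-(1 / 3) + ckl) * (L₀ + e * n₁) + (β₀ + ck - ckl * lo) + (δ₀ + clk) / k₀ + ζ * n₁ ≤ 0) :
    w + (-(1 / 3) * (k * L) + β₀ * k + γ₀ * L + δ₀ * lk + ε₀ + ζ * (k * ν)) ≤ M := by
  have hc := corner hk₀ hk hn0 hn1 hn01 hL hlk hδ hα hαγ v0 s0 v1 s1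
  have h1 : ckl * k * lo ≤ ckl * k * lc :=
    mul_le_mul_of_nonneg_left hlo (mul_nonneg hckl (hk₀.le.trans hk))
  have h2 : 0 ≤ cl * lc := mul_nonneg_of_nonpos_of_nonpos hcl hhi
  linarith

end Pool.Agent.SignedQ.Far
end
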