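import Mathlib

section

/-! # FAR arcs: summation by parts for convex sequences, upper bound (task FA) -/

namespace Pool.Agent.SignedQ.Far

open Real Finset

/-- Dirichlet kernel. Induction on `N`, product formulas. -/
theorem dirichlet_sum (N : ℕ) (φ : ℝ) :
    2 * sin (φ / 2) * ∑ j ∈ Icc 1 N, cos (j * φ) = sin ((N + 1 / 2) * φ) - sin (φ / 2) := by
  induction N with
  | zero =>
    simp only [Finset.Icc_eq_empty_of_lt (Nat.zero_lt_one), Finset.sum_empty, mul_zero,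
      Nat.cast_zero]
    have : ((0 : ℝ) + 1 / 2) * φ = φ / 2 := by ring
    rw [this]; ring
  | succ N ih =>
    rw [Finset.sum_Icc_succ_top (by omega), mul_add, ih]
    have h1 : ((N : ℝ) + 1 / 2) * φ = ((N : ℝ) + 1) * φ - φ / 2 := by ring
    have h2 : (((N + 1 : ℕ) : ℝ) + 1 / 2) * φ = ((N : ℝ) + 1) * φ + φ / 2 := by
      push_cast; ring
    rw [h1, h2, sin_sub, sin_add]
    push_cast
    ring

theorem sin_mul_step (i : ℕ) (φ : ℝ) :
    sin (φ / 2) * sin (((i : ℝ) + 1 / 2) * φ) =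
      sin (((i : ℝ) + 1) * φ / 2) ^ 2 - sin ((i : ℝ) * φ / 2) ^ 2 := by
  have h1 : ((i : ℝ) + 1 / 2) * φ = 2 * ((i : ℝ) * φ / 2) + φ / 2 := by ring
  have h2 : ((i : ℝ) + 1) * φ / 2 = (i : ℝ) * φ / 2 + φ / 2 := by ring
  rw [h1, h2]
  generalize (i : ℝ) * φ / 2 = a
  generalize φ / 2 = b
  rw [sin_add, sin_add, sin_two_mul, cos_two_mul]
  have ha := sin_sq_add_cos_sq a
  have hb := sin_sq_add_cos_sq b
  have hca : cos a ^ 2 = 1 - sin a ^ 2 := by linarith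
  have hcb : cos b ^ 2 = 1 - sin b ^ 2 := by linarith
  ring_nf
  rw [hca, hcb]
  ring

/-- Fejer kernel. Induction on `N`: `sin (φ/2) sin ((N+1/2) φ) = sin² ((N+1) φ/2) - sin² (N φ/2)`. -/
theorem fejer_sum (N : ℕ) (φ : ℝ) :
    sin (φ / 2) * ∑ i ∈ range N, sin (((i : ℝ) + 1 / 2) * φ) = sin (N * φ / 2) ^ 2 := by
  induction N with
  | zero => simp
  | succ N ih =>
    rw [Finset.sum_range_succ, mul_add, ih, sin_mul_step]
    push_cast
    ring

/-- `|sin (m y)| ≤ m |sin y|`. -/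
theorem abs_sin_mul_le (m : ℕ) (y : ℝ) : |sin (m * y)| ≤ m * |sin y| := by
  induction m with
  | zero => simp
  | succ m ih =>
    have h1 : ((m + 1 : ℕ) : ℝ) * y = (m : ℝ) * y + y := by push_cast; ring
    rw [h1, sin_add]
    calc |sin ((m : ℝ) * y) * cos y + cos ((m : ℝ) * y) * sin y|
        ≤ |sin ((m : ℝ) * y) * cos y| + |cos ((m : ℝ) * y) * sin y| := abs_add_le _ _
      _ = |sin ((m : ℝ) * y)| * |cos y| + |cos ((m : ℝ) * y)| * |sin y| := by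
          rw [abs_mul, abs_mul]
      _ ≤ |sin ((m : ℝ) * y)| * 1 + 1 * |sin y| := by
          gcongr
          · exact abs_cos_le_one y
          · exact abs_cos_le_one _
      _ ≤ (m : ℝ) * |sin y| + 1 * |sin y| := by linarith
      _ = ((m + 1 : ℕ) : ℝ) * |sin y| := by push_cast; ring

/-- `(i + 1/2) log (1 + 1/i) ≤ 1 + 1/(12 i (i+1))`, `i ≥ 1` (classical, Stirling): with
`z = 1/(2i+1)`, `log ((1+z)/(1-z)) = 2 (z + z³/3 + z⁵/5 + ..) ≤ 2 z (1 + z²/(3 (1 - z²)))`. -/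
theorem log_succ_div_le {i : ℕ} (hi : 1 ≤ i) :
    ((i : ℝ) + 1 / 2) * log (((i : ℝ) + 1) / i) ≤ 1 + 1 / (12 * i * (i + 1)) := by
  have hi0 : (0 : ℝ) < i := by exact_mod_cast hi
  have hsum := Real.hasSum_log_one_add_inv hi0
  have e1 : ((i : ℝ) + 1) / i = 1 + (i : ℝ)⁻¹ := by field_simp
  set z : ℝ := 1 / (2 * (i : ℝ) + 1) with hz
  have hz0 : 0 < z := by positivity
  have hz1 : z < 1 := by
    rw [hz, div_lt_one (by positivity)]; linarith
  have hz2 : z ^ 2 < 1 := by nlinarith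
  have hzi : ((i : ℝ) + 1 / 2) * (2 * z) = 1 := by
    rw [hz]; field_simp
  have hs1 := hsum.mul_left ((i : ℝ) + 1 / 2)
  have hs2 : HasSum (fun k : ℕ => (z ^ 2) ^ k * (1 / 3) + (if k = 0 then (2 / 3 : ℝ) else 0))
      ((1 - z ^ 2)⁻¹ * (1 / 3) + 2 / 3) :=
    ((hasSum_geometric_of_lt_one (by positivity) hz2).mul_right (1 / 3)).add
      (hasSum_ite_eq 0 (2 / 3 : ℝ))
  rw [e1]
  have hle : ((i : ℝ) + 1 / 2) * log (1 + (i : ℝ)⁻¹) ≤ (1 - z ^ 2)⁻¹ * (1 / 3) + 2 / 3 := by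
    refine hasSum_le ?_ hs1 hs2
    intro k
    have h1 : ((i : ℝ) + 1 / 2) * (2 * (1 / (2 * (k : ℝ) + 1)) * z ^ (2 * k + 1)) =
        (z ^ 2) ^ k * (1 / (2 * (k : ℝ) + 1)) := by
      have : ((i : ℝ) + 1 / 2) * (2 * (1 / (2 * (k : ℝ) + 1)) * z ^ (2 * k + 1)) =
        (((i : ℝ) + 1 / 2) * (2 * z)) * (z ^ (2 * k) * (1 / (2 * (k : ℝ) + 1))) := by ring
      rw [this, hzi, one_mul, pow_mul]
    rw [h1]
    rcases Nat.eq_zero_or_pos k with hk | hk
    · subst hk; norm_num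
    · have hk' : (1 : ℝ) ≤ k := by exact_mod_cast hk
      rw [if_neg (by omega), add_zero]
      have hp : 0 ≤ (z ^ 2) ^ k := by positivity
      refine mul_le_mul_of_nonneg_left ?_ hp
      rw [div_le_div_iff₀ (by positivity) (by norm_num)]
      linarith
  refine hle.trans (le_of_eq ?_)
  have hd : 1 - z ^ 2 = 4 * i * (i + 1) / (2 * (i : ℝ) + 1) ^ 2 := by
    rw [hz]; field_simp; ring
  rw [hd]
  field_simp
  ring

/-- Abel summation. -/
theorem abel_one (g u : ℕ → ℝ) (M : ℕ) :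
    ∑ j ∈ Icc 1 (M + 1), g j * u j =
      ∑ i ∈ Icc 1 M, (g i - g (i + 1)) * ∑ j ∈ Icc 1 i, u j +
        g (M + 1) * ∑ j ∈ Icc 1 (M + 1), u j := by
  induction M with
  | zero => simp
  | succ M ih =>
    have e1 : ∑ j ∈ Icc 1 (M + 1 + 1), g j * u j =
        ∑ j ∈ Icc 1 (M + 1), g j * u j + g (M + 1 + 1) * u (M + 1 + 1) :=
      Finset.sum_Icc_succ_top (by omega) _
    have e2 : ∑ j ∈ Icc 1 (M + 1 + 1), u j = ∑ j ∈ Icc 1 (M + 1), u j + u (M + 1 + 1) :=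
      Finset.sum_Icc_succ_top (by omega) _
    have e3 : ∑ i ∈ Icc 1 (M + 1), (g i - g (i + 1)) * ∑ j ∈ Icc 1 i, u j =
        ∑ i ∈ Icc 1 M, (g i - g (i + 1)) * ∑ j ∈ Icc 1 i, u j +
          (g (M + 1) - g (M + 1 + 1)) * ∑ j ∈ Icc 1 (M + 1), u j :=
      Finset.sum_Icc_succ_top (by omega) _
    rw [e1, e2, e3, ih]
    ring

/-- Comparison of sums with nonincreasing nonnegative weights. -/
theorem abel_compare (Δ e : ℕ → ℝ) (M : ℕ)
    (hmono : ∀ i, 1 ≤ i → i < M → Δ (i + 1) ≤ Δ i)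
    (hE : ∀ i, 1 ≤ i → i ≤ M → ∑ j ∈ Icc 1 i, e j ≤ 0) :
    ∀ m, 1 ≤ m → m ≤ M → ∑ i ∈ Icc 1 m, Δ i * e i ≤ Δ m * ∑ j ∈ Icc 1 m, e j := by
  intro m hm
  induction m, hm using Nat.le_induction with
  | base => intro _; simp
  | succ m hm ih =>
    intro hmM
    have h1 := ih (by omega)
    rw [Finset.sum_Icc_succ_top (by omega), Finset.sum_Icc_succ_top (b := m) (by omega)]
    have h2 := hmono m hm (by omega)
    have h3 := hE m hm (by omega)
    have h4 : Δ m * ∑ j ∈ Icc 1 m, e j ≤ Δ (m + 1) * ∑ j ∈ Icc 1 m, e j :=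
      mul_le_mul_of_nonpos_right h2 h3
    rw [mul_add]
    linarith

/-- The sum of the increments. -/
theorem log_incr_sum {y : ℝ} (hy : 1 ≤ y) (M : ℕ) :
    ∑ i ∈ Icc 1 M, log (((i : ℝ) + 1) / i) *
        ((min y ((i : ℝ) + 1) ^ 2 - min y (i : ℝ) ^ 2) / 2) ≤
      min y ((M : ℝ) + 1) - 1 + 1 / 12 * (1 - 1 / ((M : ℝ) + 1)) := by
  induction M with
  | zero => simp [hy]
  | succ M ih =>
    rw [Finset.sum_Icc_succ_top (by omega)]
    have hlog := log_succ_div_le (i := M + 1) (by omega)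
    have hM0 : (0 : ℝ) ≤ M := Nat.cast_nonneg M
    have ha1 : min y (((M + 1 : ℕ) : ℝ)) ≤ (M : ℝ) + 1 := by push_cast; exact min_le_right _ _
    have hb1 : min y (((M + 1 : ℕ) : ℝ) + 1) ≤ (M : ℝ) + 2 := by
      push_cast
      have := min_le_right y ((M : ℝ) + 1 + 1)
      linarith
    have hab : min y (((M + 1 : ℕ) : ℝ)) ≤ min y (((M + 1 : ℕ) : ℝ) + 1) :=
      min_le_min_left _ (by linarith)
    have hab1 : min y (((M + 1 : ℕ) : ℝ) + 1) ≤ min y (((M + 1 : ℕ) : ℝ)) + 1 := by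
      rw [← min_add_add_right]
      exact min_le_min_right _ (by linarith)
    have e1 : min y ((M : ℝ) + 1) = min y (((M + 1 : ℕ) : ℝ)) := by push_cast; rfl
    rw [e1] at ih
    set a := min y (((M + 1 : ℕ) : ℝ)) with ha
    set b := min y (((M + 1 : ℕ) : ℝ) + 1) with hb
    have hL0 : 0 ≤ log ((((M + 1 : ℕ) : ℝ) + 1) / ((M + 1 : ℕ) : ℝ)) := by
      apply log_nonneg
      rw [one_le_div (by positivity)]
      linarith
    set L := log ((((M + 1 : ℕ) : ℝ) + 1) / ((M + 1 : ℕ) : ℝ)) with hL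
    have h1 : (b ^ 2 - a ^ 2) / 2 ≤ (b - a) * (((M + 1 : ℕ) : ℝ) + 1 / 2) := by
      push_cast
      nlinarith
    have h2 : L * ((b ^ 2 - a ^ 2) / 2) ≤ (b - a) * (1 + 1 / (12 * ((M + 1 : ℕ) : ℝ) * (((M + 1 : ℕ) : ℝ) + 1))) := by
      calc L * ((b ^ 2 - a ^ 2) / 2) ≤ L * ((b - a) * (((M + 1 : ℕ) : ℝ) + 1 / 2)) :=
            mul_le_mul_of_nonneg_left h1 hL0
        _ = (b - a) * ((((M + 1 : ℕ) : ℝ) + 1 / 2) * L) := by ring
        _ ≤ _ := mul_le_mul_of_nonneg_left hlog (by linarith)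
    have h3 : (b - a) * (1 + 1 / (12 * ((M + 1 : ℕ) : ℝ) * (((M + 1 : ℕ) : ℝ) + 1))) ≤
        (b - a) + 1 / (12 * ((M + 1 : ℕ) : ℝ) * (((M + 1 : ℕ) : ℝ) + 1)) := by
      have hp : 0 ≤ 1 / (12 * ((M + 1 : ℕ) : ℝ) * (((M + 1 : ℕ) : ℝ) + 1)) := by positivity
      nlinarith
    have h4 : 1 / 12 * (1 - 1 / ((M : ℝ) + 1)) + 1 / (12 * ((M + 1 : ℕ) : ℝ) * (((M + 1 : ℕ) : ℝ) + 1)) =
        1 / 12 * (1 - 1 / (((M + 1 : ℕ) : ℝ) + 1)) := by
      push_cast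
      field_simp
      ring
    linarith

/-- **Upper bound for a cosine sum with a convex decreasing sequence** whose differences are at
most `α log ((j+1)/j)`.

Proof. Let `s = |sin (φ/2)| ∈ (0, 1]`, `Δ_j = g j - g (j+1)` (`1 ≤ j < N`; nonincreasing, `≥ 0`).
By `dirichlet_sum`, `D_i := ∑_(j ≤ i) cos (j φ) = sin ((i + 1/2) φ) / (2 sin (φ/2)) - 1/2`, and
(Abel) `∑_(j=1)^N g_j cos (jφ) = ∑_(i=1)^(N-1) Δ_i D_i + g_N D_N
 = -g_1/2 + ∑_(i=1)^(N-1) Δ_i sin ((i+1/2) φ)/(2 sin (φ/2)) + g_N sin ((N+1/2) φ)/(2 sin (φ/2))`.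
Let `C_m = ∑_(i=1)^m sin ((i+1/2) φ)/(2 sin (φ/2)) = sin² ((m+1) φ/2)/(2 s²) - 1/2` (`fejer_sum`).
Second Abel: `S = ∑_(i=1)^(N-1) Δ_i (C_i - C_(i-1)) = Δ_(N-1) C_(N-1) + ∑_(i=1)^(N-2) (Δ_i - Δ_(i+1)) C_i`,
the coefficients are `≥ 0`, and `C_i ≤ c_i := min (1/(2 s²)) ((i+1)²/2) - 1/2` (`abs_sin_mul_le`),
`c_0 = 0`. Hence `S ≤ ∑ Δ_i (c_i - c_(i-1)) ≤ α ∑_(i=1)^(N-1) log ((i+1)/i) (c_i - c_(i-1))`
(`c` is nondecreasing). With `y = 1/s ≥ 1`, `M = ⌊y⌋`: for `i < M` the increment is `i + 1/2`, for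
`i = M` it is `(y² - M²)/2 ≤ (y - M)(M + 1/2)`, for `i > M` it is `0`. By `log_succ_div_le` the sum
is at most `∑_(i<M) (1 + 1/(12 i (i+1))) + (y - M)(1 + 1/(12 M (M+1))) ≤ y - 1 + 1/12`. -/
theorem abel_upper {g : ℕ → ℝ} {N : ℕ} (hN : 1 ≤ N) {α φ : ℝ} (hα : 0 ≤ α)
    (hs : sin (φ / 2) ≠ 0)
    (h1 : ∀ j : ℕ, 1 ≤ j → j < N → g j - g (j + 1) ≤ α * log (((j : ℝ) + 1) / j))
    (h2 : ∀ j : ℕ, 1 ≤ j → j + 1 < N → g (j + 1) - g (j + 2) ≤ g j - g (j + 1))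
    (h3 : ∀ j : ℕ, 1 ≤ j → j < N → g (j + 1) ≤ g j) :
    ∑ j ∈ Icc 1 N, g j * cos (j * φ) ≤
      α * (1 / |sin (φ / 2)| - 11 / 12) - g 1 / 2 +
        g N * (sin (((N : ℝ) + 1 / 2) * φ) / (2 * sin (φ / 2))) := by
  obtain ⟨M, rfl⟩ : ∃ M, N = M + 1 := ⟨N - 1, by omega⟩
  set s := sin (φ / 2) with hsdef
  have hspos : 0 < |s| := abs_pos.mpr hs
  have hs1 : |s| ≤ 1 := abs_sin_le_one _
  set y := 1 / |s| with hy
  have hy1 : 1 ≤ y := by rw [hy, one_le_div hspos]; exact hs1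
  set T : ℕ → ℝ := fun i => sin (((i : ℝ) + 1 / 2) * φ) / (2 * s) with hT
  -- the Dirichlet kernel
  have hD : ∀ i : ℕ, ∑ j ∈ Icc 1 i, cos ((j : ℝ) * φ) = T i - 1 / 2 := by
    intro i
    have := dirichlet_sum i φ
    rw [← hsdef] at this
    simp only [hT]
    have h2s : (2 * s) ≠ 0 := mul_ne_zero two_ne_zero hs
    have e4 : s / (2 * s) = 1 / 2 := by field_simp
    have e5 : ∑ j ∈ Icc 1 i, cos ((j : ℝ) * φ) = (sin (((i : ℝ) + 1 / 2) * φ) - s) / (2 * s) := by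
      rw [eq_div_iff h2s, mul_comm, this]
    rw [e5, sub_div, e4]
  -- first Abel
  have hA := abel_one g (fun j => cos ((j : ℝ) * φ)) M
  simp only [hD] at hA
  have htel : ∀ m : ℕ, ∑ i ∈ Icc 1 m, (g i - g (i + 1)) = g 1 - g (m + 1) := by
    intro m
    induction m with
    | zero => simp
    | succ m ih => rw [Finset.sum_Icc_succ_top (by omega), ih]; ring
  have hsplit : ∑ i ∈ Icc 1 M, (g i - g (i + 1)) * (T i - 1 / 2) =
      ∑ i ∈ Icc 1 M, (g i - g (i + 1)) * T i - (g 1 - g (M + 1)) / 2 := by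
    rw [← htel M, Finset.sum_div, ← Finset.sum_sub_distrib]
    refine Finset.sum_congr rfl fun i _ => by ring
  -- the Fejer kernel
  have hC : ∀ m : ℕ, ∑ i ∈ Icc 1 m, T i = sin (((m : ℝ) + 1) * φ / 2) ^ 2 / (2 * s ^ 2) - 1 / 2 := by
    intro m
    induction m with
    | zero =>
      have e : ((0 : ℕ) : ℝ) + 1 = 1 := by norm_num
      rw [e, one_mul, ← hsdef]
      simp only [Finset.Icc_eq_empty_of_lt (Nat.zero_lt_one), Finset.sum_empty]
      field_simp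
      ring
    | succ m ih =>
      rw [Finset.sum_Icc_succ_top (by omega), ih]
      have hst := sin_mul_step (m + 1) φ
      rw [← hsdef] at hst
      simp only [hT]
      have e2 : sin ((((m + 1 : ℕ) : ℝ) + 1 / 2) * φ) / (2 * s) =
          (s * sin ((((m + 1 : ℕ) : ℝ) + 1 / 2) * φ)) / (2 * s ^ 2) := by
        field_simp
      rw [e2, hst]
      push_cast
      ring
  -- comparison
  set e : ℕ → ℝ := fun i => T i - (min y ((i : ℝ) + 1) ^ 2 - min y (i : ℝ) ^ 2) / 2 with he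
  have hcsum : ∀ m : ℕ, ∑ i ∈ Icc 1 m, (min y ((i : ℝ) + 1) ^ 2 - min y (i : ℝ) ^ 2) / 2 =
      (min y ((m : ℝ) + 1) ^ 2 - 1) / 2 := by
    intro m
    induction m with
    | zero => simp [min_eq_right hy1]
    | succ m ih =>
      rw [Finset.sum_Icc_succ_top (by omega), ih]
      push_cast
      ring
  have hE : ∀ m : ℕ, ∑ i ∈ Icc 1 m, e i ≤ 0 := by
    intro m
    simp only [he]
    rw [Finset.sum_sub_distrib, hC, hcsum]
    have hk1 : |sin (((m : ℝ) + 1) * φ / 2)| ≤ |s| * min y ((m : ℝ) + 1) := by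
      rw [mul_min_of_nonneg _ _ hspos.le]
      refine le_min ?_ ?_
      · rw [hy, mul_one_div_cancel hspos.ne']; exact abs_sin_le_one _
      · have := abs_sin_mul_le (m + 1) (φ / 2)
        rw [← hsdef] at this
        push_cast at this
        have e3 : ((m : ℝ) + 1) * φ / 2 = ((m : ℝ) + 1) * (φ / 2) := by ring
        rw [e3]
        linarith
    have hk2 : sin (((m : ℝ) + 1) * φ / 2) ^ 2 ≤ s ^ 2 * min y ((m : ℝ) + 1) ^ 2 := by
      have h := pow_le_pow_left₀ (abs_nonneg _) hk1 2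
      rw [mul_pow, sq_abs, sq_abs] at h
      exact h
    have hs2 : 0 < s ^ 2 := by positivity
    have hk3 : sin (((m : ℝ) + 1) * φ / 2) ^ 2 / (2 * s ^ 2) ≤ min y ((m : ℝ) + 1) ^ 2 / 2 := by
      rw [div_le_div_iff₀ (by positivity) (by norm_num)]
      linarith
    linarith
  have hS : ∑ i ∈ Icc 1 M, (g i - g (i + 1)) * T i ≤ α * (y - 11 / 12) := by
    have hb1 : ∑ i ∈ Icc 1 M, (g i - g (i + 1)) * T i ≤
        ∑ i ∈ Icc 1 M, (g i - g (i + 1)) *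
          ((min y ((i : ℝ) + 1) ^ 2 - min y (i : ℝ) ^ 2) / 2) := by
      rcases Nat.eq_zero_or_pos M with h0 | hpos
      · subst h0; simp
      · have hc := abel_compare (fun i => g i - g (i + 1)) e M
          (fun i hi hiM => h2 i hi (by omega)) (fun i _ _ => hE i) M hpos le_rfl
        have hneg : (g M - g (M + 1)) * ∑ j ∈ Icc 1 M, e j ≤ 0 :=
          mul_nonpos_of_nonneg_of_nonpos (by have := h3 M hpos (by omega); linarith) (hE M)
        have hc2 : ∑ i ∈ Icc 1 M, (g i - g (i + 1)) * e i ≤ 0 := hc.trans hneg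
        have : ∑ i ∈ Icc 1 M, (g i - g (i + 1)) * e i =
            ∑ i ∈ Icc 1 M, (g i - g (i + 1)) * T i - ∑ i ∈ Icc 1 M, (g i - g (i + 1)) *
          ((min y ((i : ℝ) + 1) ^ 2 - min y (i : ℝ) ^ 2) / 2) := by
          rw [← Finset.sum_sub_distrib]
          refine Finset.sum_congr rfl fun i _ => by simp only [he]; ring
        linarith
    have hb2 : ∑ i ∈ Icc 1 M, (g i - g (i + 1)) *
          ((min y ((i : ℝ) + 1) ^ 2 - min y (i : ℝ) ^ 2) / 2) ≤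
        α * ∑ i ∈ Icc 1 M, log (((i : ℝ) + 1) / i) *
          ((min y ((i : ℝ) + 1) ^ 2 - min y (i : ℝ) ^ 2) / 2) := by
      rw [Finset.mul_sum]
      refine Finset.sum_le_sum fun i hi => ?_
      rw [Finset.mem_Icc] at hi
      have hd := h1 i hi.1 (by omega)
      have hnn : 0 ≤ (min y ((i : ℝ) + 1) ^ 2 - min y (i : ℝ) ^ 2) / 2 := by
        have hm0 : 0 ≤ min y (i : ℝ) := le_min (by linarith) (Nat.cast_nonneg i)
        have hmm : min y (i : ℝ) ≤ min y ((i : ℝ) + 1) := min_le_min_left _ (by linarith)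
        have := pow_le_pow_left₀ hm0 hmm 2
        linarith
      calc _ ≤ α * log (((i : ℝ) + 1) / i) *
            ((min y ((i : ℝ) + 1) ^ 2 - min y (i : ℝ) ^ 2) / 2) :=
            mul_le_mul_of_nonneg_right hd hnn
        _ = _ := by ring
    have hb3 := log_incr_sum hy1 M
    have hb4 : min y ((M : ℝ) + 1) - 1 + 1 / 12 * (1 - 1 / ((M : ℝ) + 1)) ≤ y - 11 / 12 := by
      have h5 : min y ((M : ℝ) + 1) ≤ y := min_le_left _ _
      have h6 : 0 ≤ 1 / ((M : ℝ) + 1) := by positivity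
      linarith
    calc _ ≤ _ := hb1
      _ ≤ _ := hb2
      _ ≤ α * (y - 11 / 12) := mul_le_mul_of_nonneg_left (hb3.trans hb4) hα
  have hgoal : ∑ j ∈ Icc 1 (M + 1), g j * cos (j * φ) =
      ∑ i ∈ Icc 1 M, (g i - g (i + 1)) * T i - g 1 / 2 + g (M + 1) * T (M + 1) := by
    rw [hA, hsplit]; ring
  rw [hgoal]
  simp only [hT] at hS ⊢
  linarith

end Pool.Agent.SignedQ.Far
end

section

/-! # FAR arcs: the coefficients of the `N = 6` majorant of `-log |1 - z|` -/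

namespace Pool.Agent.SignedQ.Far

open Real Finset

/-- Kernel: `kap l w = sinh ((6-l) w) / (cosh (6 w) - 1)`. -/
noncomputable def kap (l : ℕ) (w : ℝ) : ℝ := sinh ((6 - (l : ℝ)) * w) / (cosh (6 * w) - 1)

/-- Coefficient of `cos (l φ)` in the majorant of `-log |1 - e^(-v + iφ)|`
(it is `Herm.cD 5 (l-1) (exp (-v))`). -/
noncomputable def dd (l : ℕ) (v : ℝ) : ℝ :=
  ∫ s in (0 : ℝ)..exp (-v), (s ^ (l - 1) - s ^ (11 - l)) / (1 - s ^ 6) ^ 2

end Pool.Agent.SignedQ.Far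
end

section

/-! # FAR arcs: the kernels `kap l` (task FC) -/

namespace Pool.Agent.SignedQ.Far

open Real Finset

theorem Fc_den {w : ℝ} (hw : 0 < w) : 0 < cosh (6 * w) - 1 := by
  have h := Real.one_lt_cosh.2 (show 6 * w ≠ 0 by positivity)
  linarith

theorem kap_pos {l : ℕ} (h1 : 1 ≤ l) (h5 : l ≤ 5) {w : ℝ} (hw : 0 < w) : 0 < kap l w := by
  unfold kap
  refine div_pos (Real.sinh_pos_iff.2 (mul_pos ?_ hw)) (Fc_den hw)
  have : (l : ℝ) ≤ 5 := by exact_mod_cast h5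
  linarith

/-- `kap l w = s^l (1 - s^(12-2l)) / (1 - s^6)²`, `s = e^(-w)`. -/
theorem kap_eq {l : ℕ} (h1 : 1 ≤ l) (h5 : l ≤ 5) {w : ℝ} (hw : 0 < w) :
    kap l w = exp (-w) ^ l * (1 - exp (-w) ^ (12 - 2 * l)) / (1 - exp (-w) ^ 6) ^ 2 := by
  have hs0 : 0 < exp (-w) := exp_pos _
  have hs1 : exp (-w) < 1 := by
    rw [Real.exp_lt_one_iff]
    linarith
  have hE : exp w = (exp (-w))⁻¹ := by rw [Real.exp_neg, inv_inv]
  have hd : (1 - exp (-w) ^ 6) ^ 2 ≠ 0 := by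
    have : exp (-w) ^ 6 < 1 := pow_lt_one₀ hs0.le hs1 (by norm_num)
    have h2 : 0 < 1 - exp (-w) ^ 6 := by linarith
    positivity
  have hc := (Fc_den hw).ne'
  have hx : ∀ n : ℕ, exp ((n : ℝ) * w) = (exp (-w))⁻¹ ^ n := fun n => by
    rw [← hE, Real.exp_nat_mul]
  have hy : ∀ n : ℕ, exp (-((n : ℝ) * w)) = exp (-w) ^ n := fun n => by
    rw [← Real.exp_nat_mul, mul_neg]
  have c6 : cosh (6 * w) - 1 = (exp (-w))⁻¹ ^ 6 * (1 - exp (-w) ^ 6) ^ 2 / 2 := by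
    have a1 := hx 6
    have a2 := hy 6
    rw [Nat.cast_ofNat] at a1 a2
    rw [Real.cosh_eq, a1, a2]
    field_simp
    ring
  have hp : (6 : ℝ) - (l : ℝ) = ((6 - l : ℕ) : ℝ) := by
    rw [Nat.cast_sub (by omega)]
    norm_num
  unfold kap
  rw [c6, hp, Real.sinh_eq, hx, hy]
  generalize exp (-w) = s at *
  have hs : s ≠ 0 := hs0.ne'
  interval_cases l
  all_goals
    norm_num
    field_simp
    try ring

theorem Fc_mono_aux {N N' : ℝ → ℝ} (hN : ∀ s, HasDerivAt N (N' s) s)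
    (hP : ∀ s : ℝ, 0 < s → s < 1 → 0 ≤ N' s * (1 - s ^ 6) + 12 * s ^ 5 * N s) :
    MonotoneOn (fun s : ℝ => N s / (1 - s ^ 6) ^ 2) (Set.Ioo 0 1) := by
  have hD : ∀ s : ℝ, s ∈ Set.Ioo (0 : ℝ) 1 → 0 < 1 - s ^ 6 := fun s hs => by
    have : s ^ 6 < 1 := pow_lt_one₀ hs.1.le hs.2 (by norm_num)
    linarith
  have hder : ∀ s : ℝ, s ∈ Set.Ioo (0 : ℝ) 1 → HasDerivAt (fun s : ℝ => N s / (1 - s ^ 6) ^ 2)
      ((N' s * (1 - s ^ 6) + 12 * s ^ 5 * N s) / (1 - s ^ 6) ^ 3) s := fun s hs => by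
    have h1 : HasDerivAt (fun s : ℝ => (1 - s ^ 6) ^ 2) (2 * (1 - s ^ 6) * (-(6 * s ^ 5))) s := by
      have h := (((hasDerivAt_id s).pow 6).const_sub 1).pow 2
      refine h.congr_deriv ?_
      simp only [id_eq]
      norm_num
    have hne : (1 - s ^ 6) ≠ 0 := (hD s hs).ne'
    refine ((hN s).div h1 (pow_ne_zero 2 hne)).congr_deriv ?_
    field_simp
    ring
  refine monotoneOn_of_deriv_nonneg (convex_Ioo 0 1)
    (fun s hs => (hder s hs).continuousAt.continuousWithinAt) ?_ ?_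
  · rw [interior_Ioo]
    exact fun s hs => (hder s hs).differentiableAt.differentiableWithinAt
  · rw [interior_Ioo]
    intro s hs
    rw [(hder s hs).deriv]
    exact div_nonneg (hP s hs.1 hs.2) (pow_nonneg (hD s hs).le 3)

theorem Fc_mono {l : ℕ} (h1 : 1 ≤ l) (h5 : l ≤ 5) : MonotoneOn
    (fun s : ℝ => s ^ l * (1 - s ^ (12 - 2 * l)) / (1 - s ^ 6) ^ 2) (Set.Ioo 0 1) := by
  refine Fc_mono_aux (N := fun s => s ^ l * (1 - s ^ (12 - 2 * l)))
    (N' := fun s => (l : ℝ) * s ^ (l - 1) * (1 - s ^ (12 - 2 * l)) -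
      s ^ l * (((12 - 2 * l : ℕ) : ℝ) * s ^ (12 - 2 * l - 1))) (fun s => ?_) (fun s h0 h1' => ?_)
  · have h := ((hasDerivAt_pow l s)).mul ((hasDerivAt_pow (12 - 2 * l) s).const_sub 1)
    refine h.congr_deriv ?_
    ring
  · have q : ∀ n : ℕ, s ^ n ≤ 1 := fun n => pow_le_one₀ h0.le h1'.le
    have q0 : ∀ n : ℕ, 0 ≤ s ^ n := fun n => pow_nonneg h0.le n
    interval_cases l
    · have e : ((1 : ℕ) : ℝ) * s ^ (1 - 1) * (1 - s ^ (12 - 2 * 1)) -
          s ^ 1 * (((12 - 2 * 1 : ℕ) : ℝ) * s ^ (12 - 2 * 1 - 1)) = 1 - 11 * s ^ 10 := by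
        norm_num
        ring
      rw [e]
      have e2 : (1 - 11 * s ^ 10) * (1 - s ^ 6) + 12 * s ^ 5 * (s ^ 1 * (1 - s ^ (12 - 2 * 1))) =
          (1 - s ^ 16) + 11 * s ^ 6 * (1 - s ^ 4) := by
        norm_num
        ring
      rw [e2]
      have := mul_nonneg (mul_nonneg (show (0 : ℝ) ≤ 11 by norm_num) (q0 6))
        (sub_nonneg.2 (q 4))
      linarith [q 16]
    · have e : ((2 : ℕ) : ℝ) * s ^ (2 - 1) * (1 - s ^ (12 - 2 * 2)) -
          s ^ 2 * (((12 - 2 * 2 : ℕ) : ℝ) * s ^ (12 - 2 * 2 - 1)) = 2 * s - 10 * s ^ 9 := by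
        norm_num
        ring
      rw [e]
      have e2 : (2 * s - 10 * s ^ 9) * (1 - s ^ 6) +
          12 * s ^ 5 * (s ^ 2 * (1 - s ^ (12 - 2 * 2))) =
          s * (2 * (1 - s ^ 14) + 10 * s ^ 6 * (1 - s ^ 2)) := by
        norm_num
        ring
      rw [e2]
      have := mul_nonneg (mul_nonneg (show (0 : ℝ) ≤ 10 by norm_num) (q0 6))
        (sub_nonneg.2 (q 2))
      refine mul_nonneg h0.le ?_
      linarith [q 14]
    · have e : ((3 : ℕ) : ℝ) * s ^ (3 - 1) * (1 - s ^ (12 - 2 * 3)) -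
          s ^ 3 * (((12 - 2 * 3 : ℕ) : ℝ) * s ^ (12 - 2 * 3 - 1)) = 3 * s ^ 2 - 9 * s ^ 8 := by
        norm_num
        ring
      rw [e]
      have e2 : (3 * s ^ 2 - 9 * s ^ 8) * (1 - s ^ 6) +
          12 * s ^ 5 * (s ^ 3 * (1 - s ^ (12 - 2 * 3))) =
          s ^ 2 * (3 * (1 - s ^ 12)) := by
        norm_num
        ring
      rw [e2]
      refine mul_nonneg (q0 2) ?_
      linarith [q 12]
    · have e : ((4 : ℕ) : ℝ) * s ^ (4 - 1) * (1 - s ^ (12 - 2 * 4)) -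
          s ^ 4 * (((12 - 2 * 4 : ℕ) : ℝ) * s ^ (12 - 2 * 4 - 1)) = 4 * s ^ 3 - 8 * s ^ 7 := by
        norm_num
        ring
      rw [e]
      have e2 : (4 * s ^ 3 - 8 * s ^ 7) * (1 - s ^ 6) +
          12 * s ^ 5 * (s ^ 4 * (1 - s ^ (12 - 2 * 4))) =
          s ^ 3 * (4 * ((1 - s ^ 2) * (1 + s ^ 2 * (1 - s ^ 2) + s ^ 6 + s ^ 8))) := by
        norm_num
        ring
      rw [e2]
      have a := mul_nonneg (q0 2) (sub_nonneg.2 (q 2))
      refine mul_nonneg (q0 3) (mul_nonneg (by norm_num) (mul_nonneg (sub_nonneg.2 (q 2)) ?_))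
      linarith [q0 6, q0 8]
    · have e : ((5 : ℕ) : ℝ) * s ^ (5 - 1) * (1 - s ^ (12 - 2 * 5)) -
          s ^ 5 * (((12 - 2 * 5 : ℕ) : ℝ) * s ^ (12 - 2 * 5 - 1)) = 5 * s ^ 4 - 7 * s ^ 6 := by
        norm_num
        ring
      rw [e]
      have e2 : (5 * s ^ 4 - 7 * s ^ 6) * (1 - s ^ 6) +
          12 * s ^ 5 * (s ^ 5 * (1 - s ^ (12 - 2 * 5))) =
          s ^ 4 * ((1 - s ^ 4) * (5 * (1 - s ^ 2) ^ 2 + 3 * s ^ 2)) := by
        norm_num
        ring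
      rw [e2]
      refine mul_nonneg (q0 4) (mul_nonneg (sub_nonneg.2 (q 4)) ?_)
      positivity

/-- `kap l` is decreasing. Proof: as a function of `s = e^(-w) ∈ (0,1)` it is increasing; with
`y = s²`, `p = 6 - l`, the logarithmic derivative times `s (1-y^p)(1-y³)` is
`P_l(y) = l (1-y^p)(1-y³) - 2 p y^p (1-y³) + 12 y³ (1-y^p)`, and
`P_1 = (1-y⁸) + 11 y³ (1-y²)`, `P_2 = 2 (1-y⁷) + 10 y³ (1-y)`, `P_3 = 3 (1-y⁶)`,
`P_4 = 4 (1-y) (1 + y - y² + y³ + y⁴)`, `P_5 = (1-y²)(5 - 7 y + 5 y²)`, all `≥ 0`. -/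
theorem kap_antitone {l : ℕ} (h1 : 1 ≤ l) (h5 : l ≤ 5) : AntitoneOn (kap l) (Set.Ioi 0) := by
  intro a ha b hb hab
  rw [kap_eq h1 h5 ha, kap_eq h1 h5 hb]
  have hI : ∀ w : ℝ, w ∈ Set.Ioi (0 : ℝ) → exp (-w) ∈ Set.Ioo (0 : ℝ) 1 := fun w hw =>
    ⟨exp_pos _, by
      rw [Real.exp_lt_one_iff]
      exact neg_lt_zero.2 hw⟩
  exact Fc_mono h1 h5 (hI b hb) (hI a ha) (Real.exp_le_exp.2 (neg_le_neg hab))

theorem Fc_series {p c : ℝ}
    (H : ∀ n : ℕ, 2 * ((n : ℝ) + 1) * p ^ (2 * n + 1) ≤ c * 36 ^ (n + 1)) {w : ℝ} (hw : 0 < w) :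
    w * sinh (p * w) ≤ c * (cosh (6 * w) - 1) := by
  have h1 := (Real.hasSum_sinh (p * w)).mul_left w
  have h2 := (hasSum_nat_add_iff' 1).2 (Real.hasSum_cosh (6 * w))
  have h3 := h2.mul_left c
  simp only [Finset.sum_range_one, mul_zero, pow_zero, Nat.factorial_zero, Nat.cast_one,
    div_one] at h3
  refine hasSum_le (fun n => ?_) h1 h3
  have e1 : w * ((p * w) ^ (2 * n + 1) / ((2 * n + 1).factorial : ℝ)) =
      (2 * ((n : ℝ) + 1) * p ^ (2 * n + 1)) * (w ^ (2 * (n + 1)) /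
        ((2 * (n + 1)).factorial : ℝ)) := by
    rw [show 2 * (n + 1) = (2 * n + 1) + 1 by ring, Nat.factorial_succ (2 * n + 1)]
    push_cast
    have hf : ((2 * n + 1).factorial : ℝ) ≠ 0 := by positivity
    have hn : (n : ℝ) + 1 ≠ 0 := by positivity
    field_simp
    ring
  have e2 : c * ((6 * w) ^ (2 * (n + 1)) / ((2 * (n + 1)).factorial : ℝ)) =
      (c * 36 ^ (n + 1)) * (w ^ (2 * (n + 1)) / ((2 * (n + 1)).factorial : ℝ)) := by
    rw [mul_pow, pow_mul (6 : ℝ) 2 (n + 1)]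
    norm_num
    ring
  rw [e1, e2]
  exact mul_le_mul_of_nonneg_right (H n) (by positivity)

/-- `w kap l w ≤ (6-l)/18` for `2 ≤ l ≤ 5`. Proof: with `p = 6 - l ≤ 4`, `cosh 6w - 1 = ∑_(m≥1)
(6w)^(2m)/(2m)!` and `w sinh (p w) = ∑_(m≥1) p^(2m-1) w^(2m)/(2m-1)!`; the claim
`18 w sinh (p w) ≤ p (cosh 6w - 1)` holds coefficient by coefficient: it is `36 m ≤ 36^m / p^(2m-2)`,
i.e. `m ≤ (36/p²)^(m-1)`, true because `36/p² ≥ 9/4 ≥ 2`. -/
theorem mul_kap_le {l : ℕ} (h2 : 2 ≤ l) (h5 : l ≤ 5) {w : ℝ} (hw : 0 < w) :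
    w * kap l w ≤ (6 - (l : ℝ)) / 18 := by
  have hl2 : (2 : ℝ) ≤ l := by exact_mod_cast h2
  have hl5 : (l : ℝ) ≤ 5 := by exact_mod_cast h5
  have hp0 : 0 ≤ 6 - (l : ℝ) := by linarith
  have hp4 : 6 - (l : ℝ) ≤ 4 := by linarith
  have key : ∀ n : ℕ, ((n : ℝ) + 1) * 16 ^ n ≤ 36 ^ n := by
    intro n
    induction n with
    | zero => norm_num
    | succ n ih =>
      push_cast
      have a : (0 : ℝ) ≤ 16 ^ n := by positivity
      have b : (0 : ℝ) ≤ (n : ℝ) * 16 ^ n := by positivity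
      rw [pow_succ, pow_succ]
      nlinarith
  have h := Fc_series (p := 6 - (l : ℝ)) (c := (6 - (l : ℝ)) / 18) (fun n => by
    have a : (6 - (l : ℝ)) ^ (2 * n) ≤ 16 ^ n := by
      rw [pow_mul]
      refine pow_le_pow_left₀ (by positivity) ?_ n
      nlinarith
    have b : ((n : ℝ) + 1) * (6 - (l : ℝ)) ^ (2 * n) ≤ 36 ^ n :=
      (mul_le_mul_of_nonneg_left a (by positivity)).trans (key n)
    have e1 : 2 * ((n : ℝ) + 1) * (6 - (l : ℝ)) ^ (2 * n + 1) =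
        2 * (6 - (l : ℝ)) * (((n : ℝ) + 1) * (6 - (l : ℝ)) ^ (2 * n)) := by ring
    have e2 : (6 - (l : ℝ)) / 18 * 36 ^ (n + 1) = 2 * (6 - (l : ℝ)) * 36 ^ n := by ring
    rw [e1, e2]
    exact mul_le_mul_of_nonneg_left b (by positivity)) hw
  unfold kap
  rw [← mul_div_assoc, div_le_iff₀ (Fc_den hw)]
  exact h

/-- `w kap 1 w ≤ 41/100`: coefficient by coefficient, `2 m 5^(2m-1) ≤ (41/100) 36^m`, i.e.
`m ≤ (41/40) (36/25)^m` (`m = 1, 2, 3` by computation, then `(36/25)^m` grows faster: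
`(m+1)/m ≤ 4/3 < 36/25`). -/
theorem mul_kap_one_le {w : ℝ} (hw : 0 < w) : w * kap 1 w ≤ 41 / 100 := by
  have key : ∀ n : ℕ, 10 * ((n : ℝ) + 3) * 25 ^ (n + 2) ≤ 1476 / 100 * 36 ^ (n + 2) := by
    intro n
    induction n with
    | zero => norm_num
    | succ n ih =>
      push_cast
      have a : (0 : ℝ) ≤ 25 ^ (n + 2) := by positivity
      have b : (0 : ℝ) ≤ (n : ℝ) * 25 ^ (n + 2) := by positivity
      have e1 : (25 : ℝ) ^ (n + 1 + 2) = 25 * 25 ^ (n + 2) := by ring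
      have e2 : (36 : ℝ) ^ (n + 1 + 2) = 36 * 36 ^ (n + 2) := by ring
      rw [e1, e2]
      nlinarith
  have h := Fc_series (p := 5) (c := 41 / 100) (fun n => by
    have e1 : 2 * ((n : ℝ) + 1) * 5 ^ (2 * n + 1) = 10 * ((n : ℝ) + 1) * 25 ^ n := by
      rw [pow_succ, pow_mul]
      norm_num
      ring
    have e2 : (41 : ℝ) / 100 * 36 ^ (n + 1) = 1476 / 100 * 36 ^ n := by ring
    rw [e1, e2]
    rcases n with _ | _ | n
    · norm_num
    · norm_num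
    · have := key n
      push_cast

      rw [show ((n : ℝ) + 1 + 1 + 1) = (n : ℝ) + 3 by ring]
      exact this) hw
  have e : (6 : ℝ) - ((1 : ℕ) : ℝ) = 5 := by norm_num
  unfold kap
  rw [e, ← mul_div_assoc, div_le_iff₀ (Fc_den hw)]
  exact h

end Pool.Agent.SignedQ.Far
end

section

/-! # FAR arcs: the coefficients `dd l` as functions of `v` (task FD)

-/

namespace Pool.Agent.SignedQ.Far

open Real Finset

/-- `dd l` is an integral from `0` to `e^(-v)`, chain rule, `kap_eq`. -/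
theorem hasDerivAt_dd {l : ℕ} (h1 : 1 ≤ l) (h5 : l ≤ 5) {v : ℝ} (hv : 0 < v) :
    HasDerivAt (dd l) (-(kap l v)) v := by
  have ht0 : 0 < exp (-v) := exp_pos _
  have ht1 : exp (-v) < 1 := by
    rw [exp_lt_one_iff]
    linarith
  have hden : ∀ s : ℝ, 0 ≤ s → s < 1 → (1 - s ^ 6) ^ 2 ≠ 0 := by
    intro s h0 h1
    have : s ^ 6 < 1 := pow_lt_one₀ h0 h1 (by norm_num)
    have h2 : (0 : ℝ) < 1 - s ^ 6 := by linarith
    positivity
  have hcont : ∀ s : ℝ, 0 ≤ s → s < 1 →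
      ContinuousAt (fun s : ℝ => (s ^ (l - 1) - s ^ (11 - l)) / (1 - s ^ 6) ^ 2) s := by
    intro s h0 h1
    refine ContinuousAt.div (by fun_prop) (by fun_prop) (hden s h0 h1)
  have hmeas : Measurable (fun s : ℝ => (s ^ (l - 1) - s ^ (11 - l)) / (1 - s ^ 6) ^ 2) := by
    fun_prop
  have hint : IntervalIntegrable (fun s : ℝ => (s ^ (l - 1) - s ^ (11 - l)) / (1 - s ^ 6) ^ 2)
      MeasureTheory.volume 0 (exp (-v)) := by
    refine ContinuousOn.intervalIntegrable ?_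
    intro s hs
    rw [Set.uIcc_of_le ht0.le] at hs
    exact (hcont s hs.1 (lt_of_le_of_lt hs.2 ht1)).continuousWithinAt
  have h3 := intervalIntegral.integral_hasDerivAt_right hint
    (hmeas.stronglyMeasurable.stronglyMeasurableAtFilter) (hcont _ ht0.le ht1)
  have h4 : HasDerivAt (fun v : ℝ => exp (-v)) (-exp (-v)) v := by
    have := (hasDerivAt_id v).neg.exp
    simpa using this
  have h6 := h3.comp v h4
  have h7 : (exp (-v) ^ (l - 1) - exp (-v) ^ (11 - l)) / (1 - exp (-v) ^ 6) ^ 2 * -exp (-v) =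
      -(kap l v) := by
    rw [kap_eq h1 h5 hv]
    generalize exp (-v) = t
    have e1 : t ^ l = t ^ (l - 1) * t := by
      rw [← pow_succ]
      congr 1
      omega
    have e2 : t ^ l * t ^ (12 - 2 * l) = t ^ (11 - l) * t := by
      rw [← pow_succ, ← pow_add]
      congr 1
      omega
    have e3 : t ^ l * (1 - t ^ (12 - 2 * l)) = (t ^ (l - 1) - t ^ (11 - l)) * t := by
      rw [mul_sub, e2, mul_one, e1]
      ring
    rw [e3]
    ring
  rw [h7] at h6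
  exact h6

theorem dd_nonneg {l : ℕ} (h1 : 1 ≤ l) (h5 : l ≤ 5) {v : ℝ} (hv : 0 < v) : 0 ≤ dd l v := by
  have ht0 : 0 < exp (-v) := exp_pos _
  have ht1 : exp (-v) < 1 := by
    rw [exp_lt_one_iff]
    linarith
  unfold dd
  refine intervalIntegral.integral_nonneg ht0.le ?_
  intro s hs
  have h0 : 0 ≤ s := hs.1
  have h1' : s ≤ 1 := hs.2.trans ht1.le
  refine div_nonneg ?_ (sq_nonneg _)
  rw [sub_nonneg]
  exact pow_le_pow_of_le_one h0 h1' (by omega)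

theorem dd_antitone {l : ℕ} (h1 : 1 ≤ l) (h5 : l ≤ 5) : AntitoneOn (dd l) (Set.Ioi 0) := by
  have hd : ∀ v : ℝ, 0 < v → HasDerivAt (dd l) (-(kap l v)) v := fun v hv =>
    hasDerivAt_dd h1 h5 hv
  refine antitoneOn_of_deriv_nonpos (convex_Ioi 0) ?_ ?_ ?_
  · intro v hv
    exact (hd v hv).continuousAt.continuousWithinAt
  · intro v hv
    rw [interior_Ioi] at hv
    exact (hd v hv).differentiableAt.differentiableWithinAt
  · intro v hv
    rw [interior_Ioi] at hv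
    rw [(hd v hv).deriv]
    have := kap_pos h1 h5 (w := v) hv
    linarith

theorem Fd_diff {l : ℕ} (h1 : 1 ≤ l) (h5 : l ≤ 5) {c : ℝ}
    (hc : ∀ w : ℝ, 0 < w → w * kap l w ≤ c) {u v : ℝ} (hu : 0 < u) (huv : u ≤ v) :
    dd l u - dd l v ≤ c * log (v / u) := by
  have hv : 0 < v := lt_of_lt_of_le hu huv
  have hg : ∀ t : ℝ, 0 < t → HasDerivAt (fun t => dd l t + c * log t) (-(kap l t) + c * t⁻¹) t := by
    intro t ht
    exact (hasDerivAt_dd h1 h5 ht).add ((hasDerivAt_log ht.ne').const_mul c)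
  have hmono : MonotoneOn (fun t => dd l t + c * log t) (Set.Ioi 0) := by
    refine monotoneOn_of_deriv_nonneg (convex_Ioi 0) ?_ ?_ ?_
    · intro t ht
      exact (hg t ht).continuousAt.continuousWithinAt
    · intro t ht
      rw [interior_Ioi] at ht
      exact (hg t ht).differentiableAt.differentiableWithinAt
    · intro t ht
      rw [interior_Ioi] at ht
      rw [(hg t ht).deriv]
      have ht' : (0 : ℝ) < t := ht
      have h3 := hc t ht'
      have h4 : kap l t ≤ c * t⁻¹ := by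
        rw [← div_eq_mul_inv, le_div_iff₀ ht', mul_comm]
        exact h3
      linarith
  have h6 := hmono (a := u) (b := v) hu hv huv
  simp only at h6
  rw [log_div hv.ne' hu.ne']
  linarith

/-- From `kap l w ≤ ((6-l)/18)/w` (`mul_kap_le`): the function `dd l v + (6-l)/18 log v` is
nondecreasing. -/
theorem dd_diff_le {l : ℕ} (h2 : 2 ≤ l) (h5 : l ≤ 5) {u v : ℝ} (hu : 0 < u) (huv : u ≤ v) :
    dd l u - dd l v ≤ (6 - (l : ℝ)) / 18 * log (v / u) := by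
  exact Fd_diff (by omega) h5 (fun w hw => mul_kap_le h2 h5 hw) hu huv

theorem dd_one_diff_le {u v : ℝ} (hu : 0 < u) (huv : u ≤ v) :
    dd 1 u - dd 1 v ≤ 41 / 100 * log (v / u) := by
  exact Fd_diff le_rfl (by norm_num) (fun w hw => mul_kap_one_le hw) hu huv

/-- Convexity (`kap l` is decreasing): `dd l y - dd l (y+x) = ∫_y^(y+x) kap l`, or monotonicity in `y`
of the difference. -/
theorem dd_convex {l : ℕ} (h1 : 1 ≤ l) (h5 : l ≤ 5) {x y : ℝ} (hx : 0 < x) (hy : 0 < y) :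
    dd l (y + x) - dd l (y + 2 * x) ≤ dd l y - dd l (y + x) := by
  have hd : ∀ v : ℝ, 0 < v → HasDerivAt (dd l) (-(kap l v)) v := fun v hv =>
    hasDerivAt_dd h1 h5 hv
  have hg : ∀ v : ℝ, 0 < v → HasDerivAt (fun v => dd l v - dd l (v + x))
      (-(kap l v) - -(kap l (v + x))) v := by
    intro v hv
    have h3 := (hd (v + x) (by linarith)).comp_add_const v x
    exact (hd v hv).sub h3
  have hanti : AntitoneOn (fun v => dd l v - dd l (v + x)) (Set.Ioi 0) := by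
    refine antitoneOn_of_deriv_nonpos (convex_Ioi 0) ?_ ?_ ?_
    · intro v hv
      exact (hg v hv).continuousAt.continuousWithinAt
    · intro v hv
      rw [interior_Ioi] at hv
      exact (hg v hv).differentiableAt.differentiableWithinAt
    · intro v hv
      rw [interior_Ioi] at hv
      rw [(hg v hv).deriv]
      have hv' : (0 : ℝ) < v := hv
      have h4 := kap_antitone h1 h5 (a := v) (b := v + x) hv
        (show (0 : ℝ) < v + x by linarith) (by linarith)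
      linarith
  have h6 := hanti (a := y) (b := y + x) hy (show (0 : ℝ) < y + x by linarith) (by linarith)
  simp only at h6
  have e : y + x + x = y + 2 * x := by ring
  rw [e] at h6
  exact h6

end Pool.Agent.SignedQ.Far
end
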