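import Pool.Agent.Lib.MP_cf17a0_co.Far.Fu0
import Pool.Agent.Lib.MP_cf17a0_co.Mg.G005
import Pool.Agent.Lib.MP_cf17a0_co.Far.Fk
import Pool.Agent.Lib.MP_cf17a0_co.Far.Fkc
import Pool.Agent.Lib.MP_cf17a0_co.Mg.G007

section

/-! # FAR arcs: the bound for `t ≤ T₀`, up to the harmonics (task FM) -/

namespace Pool.Agent.SignedQ.Far

open Real Finset Pool.Agent.SignedQ.An

/-- What depends on `θ`. -/
noncomputable def W (k : ℕ) (T θ : ℝ) : ℝ :=
  HS k T θ + (((k + 1) / 2 : ℕ) : ℝ) / 2 * log ((cosh T + cos θ) / 2)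

theorem nb_pos_m (n k : ℕ) : 0 < nb n k := by
  unfold nb
  positivity

/-- Common part: everything except numerators and real product. -/
theorem main_gen {n k a : ℕ} (hk : 26 ≤ k) (hnk : Even (n * k)) (ha : Odd a) {c t s N : ℝ}
    (hc : 0 < c) (ht : 0 < t) (htT : t ≤ c / (a * nb n k)) (θ : ℝ)
    (hs : 1 / 2 * log (Far2.S2 n k a) ≤ LL n k a + 3 / 2 * log k + s)
    (hN : NUM n k (c / nb n k) (a * (π + θ)) -
      ∑ i ∈ Icc 1 (k / 2), log ((a : ℝ) * ((n / 2 : ℕ) + (i : ℝ)) / i) ≤ N) :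
    sigma n k a t * rho n k a t θ ≤ exp (W k (c / (a * nb n k)) θ +
      (LL n k a + 3 / 2 * log k + s + N + 1 / 6 * (k * LL n k a) + (1 - log 6 - log c) / 6 * k -
        1 / 12 * log k - 0.153)) := by
  have hnb := nb_pos_m n k
  have ha0 : (0 : ℝ) < a := by exact_mod_cast ha.pos
  have hT : 0 < c / (a * nb n k) := by positivity
  refine (Far2.sigma_rho_log hnk ha ht htT θ).trans (exp_le_exp.2 ?_)
  have h1 := half_log_GG (n := n) (k := k) (a := a) ha.pos hT θ
  have h2 := half_log_G00 hnk ha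
  have h3 := den_sum (k := k) hT (π + θ)
  have h4 := den_const (n := n) (k := k) (a := a) (by omega) ha.pos hc
  have e1 : (a : ℝ) * (c / (a * nb n k)) = c / nb n k := by field_simp
  rw [e1] at h1
  unfold NUM at hN
  rw [h1, h2]
  unfold W HS
  linarith

/-! ### The real product -/

theorem Sx_mono_le {x y s : ℝ} (hx : 0 < x) (hxy : x ≤ y) (hs : Sx x ≤ s) : Sx y ≤ s :=
  (Sx_antitone (Set.mem_Ioi.2 hx) (Set.mem_Ioi.2 (hx.trans_le hxy)) hxy).trans hs

/-- `k` even, any `n` with `Sx (n/k) ≤ s`, `k/(4n+2k) ≤ e`. -/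
theorem real_even {n k a : ℕ} (hk : 26 ≤ k) (hek : Even k) (ha : 1 ≤ a) (hn : 1 ≤ n) {s e : ℝ}
    (hs : Sx (n / k) ≤ s) (he0 : 0 ≤ e) (he : (k : ℝ) / (4 * n + 2 * k) ≤ e) :
    -∑ i ∈ Icc 1 (k / 2), log ((a : ℝ) * ((n / 2 : ℕ) + (i : ℝ)) / i) ≤
      -(k / 2 * LL n k a) - k / 2 + 1 / 2 * log k + 0.6535 + k * s + e := by
  have hk0 : (0 : ℝ) < k := by
    have : 0 < k := by omega
    exact_mod_cast this
  have hn0 : (0 : ℝ) < n := by exact_mod_cast hn
  unfold LL
  rcases Nat.even_or_odd n with hne | hno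
  · have h := ev_ee hk hek hne ha
    have h1 : Sx ((n + 1) / k) ≤ s :=
      Sx_mono_le (x := n / k) (by positivity) (by
        apply div_le_div_of_nonneg_right _ hk0.le
        linarith) hs
    have h2 := mul_le_mul_of_nonneg_left h1 hk0.le
    linarith
  · have h := ev_eo hk hek hno ha
    have h2 := mul_le_mul_of_nonneg_left hs hk0.le
    linarith

/-- `k` odd. -/
theorem real_odd {n k a : ℕ} (hk : 26 ≤ k) (hok : Odd k) (hen : Even n) (ha : 1 ≤ a) (hn : 1 ≤ n)
    {s : ℝ} (hs : Sx (n / k) ≤ s) :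
    -∑ i ∈ Icc 1 (k / 2), log ((a : ℝ) * ((n / 2 : ℕ) + (i : ℝ)) / i) ≤
      -(k / 2 * LL n k a) + 1 / 2 * LL n k a - k / 2 + 1 / 2 * log k + 0.6535 + 0.01852 +
        k * s := by
  have hk27 : 27 ≤ k := by
    rcases hok with ⟨j, rfl⟩
    omega
  have hk0 : (27 : ℝ) ≤ k := by exact_mod_cast hk27
  have hn0 : (0 : ℝ) < n := by exact_mod_cast hn
  have h := ev_odd (a := a) hk hok hen ha
  have h0 : 0 < (n : ℝ) / k := by positivity
  have h1 : Sx ((n + 1) / (k - 1)) ≤ s := by
    refine Sx_mono_le (x := n / k) h0 ?_ hs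
    rw [div_le_div_iff₀ (by linarith) (by linarith)]
    nlinarith
  have h3 : 0 ≤ s := (Sx_nonneg h0).trans hs
  have h2 : ((k : ℝ) - 1) * Sx ((n + 1) / (k - 1)) ≤ k * s := by
    have := mul_le_mul_of_nonneg_left h1 (show (0 : ℝ) ≤ k - 1 by linarith)
    linarith
  have h4 : 1 / (2 * (k : ℝ)) ≤ 0.01852 := by
    rw [div_le_iff₀ (by linarith)]
    linarith
  unfold LL
  linarith

/-- Regime C, `k` even, slope `σ` of the chord. -/
theorem real_C_even {n k a : ℕ} (hk : 26 ≤ k) (hek : Even k) (ha : 1 ≤ a) {σ : ℝ} (hσ : 0 ≤ σ)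
    (hch : ∀ y : ℝ, 1 / (k : ℝ) ≤ y → y ≤ 1 / k + 4 / 25 → Sx y ≤ Sx (1 / k) - σ * (y - 1 / k))
    (hn : 20 * n ≤ 3 * k) :
    -∑ i ∈ Icc 1 (k / 2), log ((a : ℝ) * ((n / 2 : ℕ) + (i : ℝ)) / i) ≤
      -(k / 2 * LL n k a) - k / 2 + 0.6535 + 0.15343 * k + 1 - σ * n + σ := by
  have hk0 : (26 : ℝ) ≤ k := by exact_mod_cast hk
  have hn' : (20 : ℝ) * n ≤ 3 * k := by exact_mod_cast hn
  have hn0 : (0 : ℝ) ≤ n := Nat.cast_nonneg n
  have hinv := Sx_inv_le (x := k) (by linarith)
  have hnk : (n : ℝ) / k ≤ 3 / 20 := by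
    rw [div_le_iff₀ (by linarith)]
    linarith
  unfold LL
  rcases Nat.even_or_odd n with hne | hno
  · have h := ev_ee (a := a) hk hek hne ha
    have e1 : ((n : ℝ) + 1) / k = 1 / k + n / k := by ring
    have h1 := hch ((n + 1) / k) (by rw [e1]; linarith [div_nonneg hn0 (by linarith : (0:ℝ) ≤ k)])
      (by rw [e1]; linarith)
    have h2 := mul_le_mul_of_nonneg_left h1 (by linarith : (0 : ℝ) ≤ k)
    have e2 : (k : ℝ) * (Sx (1 / k) - σ * ((n + 1) / k - 1 / k)) = k * Sx (1 / k) - σ * n := by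
      field_simp
      ring
    rw [e2] at h2
    linarith
  · have h := ev_eo (a := a) hk hek hno ha
    have hn1 : (1 : ℝ) ≤ n := by exact_mod_cast hno.pos
    have h1 := hch (n / k) (by
      apply div_le_div_of_nonneg_right hn1 (by linarith)) (by
        have : 0 < 1 / (k : ℝ) := by positivity
        linarith)
    have h2 := mul_le_mul_of_nonneg_left h1 (by linarith : (0 : ℝ) ≤ k)
    have e2 : (k : ℝ) * (Sx (1 / k) - σ * (n / k - 1 / k)) = k * Sx (1 / k) - σ * (n - 1) := by
      field_simp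
    rw [e2] at h2
    have h3 : (k : ℝ) / (4 * n + 2 * k) ≤ 1 / 2 := by
      rw [div_le_div_iff₀ (by linarith) (by norm_num)]
      linarith
    linarith

/-- Regime C, `k` odd. -/
theorem real_C_odd {n k a : ℕ} (hk : 26 ≤ k) (hok : Odd k) (hen : Even n) (ha : 1 ≤ a) {σ : ℝ}
    (hch : ∀ y : ℝ, 1 / ((k : ℝ) - 1) ≤ y → y ≤ 1 / (k - 1) + 4 / 25 →
      Sx y ≤ Sx (1 / (k - 1)) - σ * (y - 1 / (k - 1)))
    (hn : 20 * n ≤ 3 * k) :
    -∑ i ∈ Icc 1 (k / 2), log ((a : ℝ) * ((n / 2 : ℕ) + (i : ℝ)) / i) ≤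
      -(k / 2 * LL n k a) + 1 / 2 * LL n k a - k / 2 + 0.6535 + 0.15343 * k + 1 / 2 +
        0.0386 - σ * n := by
  have hk27 : 27 ≤ k := by
    rcases hok with ⟨j, rfl⟩
    omega
  have hk0 : (27 : ℝ) ≤ k := by exact_mod_cast hk27
  have hn' : (20 : ℝ) * n ≤ 3 * k := by exact_mod_cast hn
  have hn0 : (0 : ℝ) ≤ n := Nat.cast_nonneg n
  have hinv := Sx_inv_le (x := (k : ℝ) - 1) (by linarith)
  have hk1 : (0 : ℝ) < k - 1 := by linarith
  have hnk : (n : ℝ) / (k - 1) ≤ 4 / 25 := by
    rw [div_le_iff₀ hk1]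
    linarith
  have h := ev_odd (a := a) hk hok hen ha
  have e1 : ((n : ℝ) + 1) / (k - 1) = 1 / (k - 1) + n / (k - 1) := by ring
  have h1 := hch ((n + 1) / (k - 1)) (by rw [e1]; linarith [div_nonneg hn0 hk1.le])
    (by rw [e1]; linarith)
  have h2 := mul_le_mul_of_nonneg_left h1 hk1.le
  have e2 : ((k : ℝ) - 1) * (Sx (1 / (k - 1)) - σ * ((n + 1) / (k - 1) - 1 / (k - 1))) =
      (k - 1) * Sx (1 / (k - 1)) - σ * n := by
    have := hk1.ne'
    field_simp
    ring
  rw [e2] at h2
  have h4 : 1 / (2 * (k : ℝ)) ≤ 0.01852 := by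
    rw [div_le_iff₀ (by linarith)]
    linarith
  have h5 : log (k : ℝ) ≤ log ((k : ℝ) - 1) + 1 / 26 := by
    have e3 : (k : ℝ) = (k - 1) * (1 + 1 / (k - 1)) := by
      have := hk1.ne'
      field_simp
      ring
    conv_lhs => rw [e3]
    rw [log_mul hk1.ne' (by positivity)]
    have := Real.log_le_sub_one_of_pos (show (0 : ℝ) < 1 + 1 / (k - 1) by positivity)
    have h6 : 1 / ((k : ℝ) - 1) ≤ 1 / 26 := one_div_le_one_div_of_le (by norm_num) (by linarith)
    linarith
  unfold LL
  linarith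

theorem chord_C5 {x : ℝ} (h0 : 1 / 20 ≤ x) (h1 : x ≤ 3 / 20) : Sx x ≤ 0.1200 - 0.386 * x := by
  obtain ⟨lam, hlam⟩ : ∃ lam : ℝ, lam = 10 * (x - 1 / 20) := ⟨_, rfl⟩
  have l0 : 0 ≤ lam := by rw [hlam]; linarith
  have l1 : 0 ≤ 1 - lam := by rw [hlam]; linarith
  have c1 := Sx_convex.2 (Set.mem_Ioi.2 (by norm_num : (0 : ℝ) < 1 / 20))
    (Set.mem_Ioi.2 (by norm_num : (0 : ℝ) < 3 / 20)) l1 l0 (by ring)
  simp only [smul_eq_mul] at c1
  have e1 : (1 - lam) * (1 / 20) + lam * (3 / 20) = x := by rw [hlam]; ring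
  rw [e1] at c1
  have h2 := mul_le_mul_of_nonneg_left Sx_one_twentieth l1
  have h3 := mul_le_mul_of_nonneg_left Sx_three_twentieth l0
  have e2 : lam = 10 * (x - 1 / 20) := hlam
  nlinarith

/-- `(1 - log 6 - log c)/6 k`. -/
theorem cst_le {k : ℕ} {c d : ℝ} (h : -log c ≤ d) :
    (1 - log 6 - log c) / 6 * (k : ℝ) ≤ (1 - 1.7917 + d) / 6 * k := by
  have h1 := log_six_ge
  refine mul_le_mul_of_nonneg_right ?_ (Nat.cast_nonneg k)
  linarith

/-- Regime A, `k` even. -/
theorem main_A_even {n k a : ℕ} (hk : 26 ≤ k) (hek : Even k) (ha : Odd a) (ha3 : 3 ≤ a)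
    (hn : k ≤ 2 * n) {s : ℝ} (hs : Sx (n / k) ≤ s) {t : ℝ} (ht : 0 < t)
    (htT : t ≤ 4 / 5 / (a * nb n k)) (θ : ℝ) :
    sigma n k a t * rho n k a t θ ≤ exp (W k (4 / 5 / (a * nb n k)) θ +
      (-(1 / 3) * (k * LL n k a) + (0.1852 + s) * k + LL n k a + 23 / 12 * log k + -0.0858)) := by
  have hk0 : (26 : ℝ) ≤ k := by exact_mod_cast hk
  have hn' : (k : ℝ) ≤ 2 * n := by exact_mod_cast hn
  have h1 := num_A (n := n) (k := k) (by omega) hn (a * (π + θ))
  have h2 := real_even (a := a) hk hek ha.pos (by omega) hs (e := 1 / 4) (by norm_num) (by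
    rw [div_le_div_iff₀ (by linarith) (by norm_num)]
    linarith)
  refine (main_gen hk (hek.mul_left n) ha (by norm_num) ht htT θ (S2_A hk ha3 hn)
    (by linarith : _ ≤ 0.7799 * (k : ℝ) + (-(k / 2 * LL n k a) - k / 2 + 1 / 2 * log k + 0.6535 +
      k * s + 1 / 4))).trans (exp_le_exp.2 ?_)
  have h3 := cst_le (k := k) (c := 4 / 5) (d := 0.2232) (by have := log_cA.1; linarith)
  linarith

theorem main_A_odd {n k a : ℕ} (hk : 26 ≤ k) (hok : Odd k) (hen : Even n) (ha : Odd a)
    (ha3 : 3 ≤ a) (hn : k ≤ 2 * n) {s : ℝ} (hs : Sx (n / k) ≤ s) {t : ℝ} (ht : 0 < t)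
    (htT : t ≤ 4 / 5 / (a * nb n k)) (θ : ℝ) :
    sigma n k a t * rho n k a t θ ≤ exp (W k (4 / 5 / (a * nb n k)) θ +
      (-(1 / 3) * (k * LL n k a) + (0.1852 + s) * k + 3 / 2 * LL n k a + 23 / 12 * log k +
        -0.3172)) := by
  have hk0 : (26 : ℝ) ≤ k := by exact_mod_cast hk
  have h1 := num_A (n := n) (k := k) (by omega) hn (a * (π + θ))
  have h2 := real_odd (a := a) hk hok hen ha.pos (by omega) hs
  refine (main_gen hk (hen.mul_right k) ha (by norm_num) ht htT θ (S2_A hk ha3 hn)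
    (by linarith : _ ≤ 0.7799 * (k : ℝ) + (-(k / 2 * LL n k a) + 1 / 2 * LL n k a - k / 2 +
      1 / 2 * log k + 0.6535 + 0.01852 + k * s))).trans (exp_le_exp.2 ?_)
  have h3 := cst_le (k := k) (c := 4 / 5) (d := 0.2232) (by have := log_cA.1; linarith)
  linarith

/-- Regime B. -/
theorem main_B_even {n k a : ℕ} (hk : 26 ≤ k) (hek : Even k) (ha : Odd a) (ha5 : 5 ≤ a)
    (hn : 3 * k ≤ 20 * n) (hn2 : 2 * n < k) {t : ℝ} (ht : 0 < t)
    (htT : t ≤ 1 / (a * nb n k)) (θ : ℝ) :
    sigma n k a t * rho n k a t θ ≤ exp (W k (1 / (a * nb n k)) θ +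
      (-(1 / 3) * (k * LL n k a) + 0.1879 * k + LL n k a + 23 / 12 * log k + 0.0989)) := by
  have hk0 : (26 : ℝ) ≤ k := by exact_mod_cast hk
  have hn' : 3 * (k : ℝ) ≤ 20 * n := by exact_mod_cast hn
  have h1 := num_B (n := n) (k := k) hk hn hn2 (a * (π + θ))
  have h2 := real_even (a := a) hk hek ha.pos (by omega) (le_refl (Sx (n / k)))
    (e := 0.38462) (by norm_num) (by
      rw [div_le_iff₀ (by linarith)]
      linarith)
  refine (main_gen hk (hek.mul_left n) ha one_pos ht htT θ (S2_B hk ha5 hn)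
    (by linarith : _ ≤ 0.8198 * (k : ℝ) + (-(k / 2 * LL n k a) - k / 2 + 1 / 2 * log k + 0.6535 +
      0.38462))).trans (exp_le_exp.2 ?_)
  have h3 := cst_le (k := k) (c := 1) (d := 0) (by simp)
  linarith

theorem main_B_odd {n k a : ℕ} (hk : 26 ≤ k) (hok : Odd k) (hen : Even n) (ha : Odd a)
    (ha5 : 5 ≤ a) (hn : 3 * k ≤ 20 * n) (hn2 : 2 * n < k) {t : ℝ} (ht : 0 < t)
    (htT : t ≤ 1 / (a * nb n k)) (θ : ℝ) :
    sigma n k a t * rho n k a t θ ≤ exp (W k (1 / (a * nb n k)) θ +
      (-(1 / 3) * (k * LL n k a) + 0.1879 * k + 3 / 2 * LL n k a + 23 / 12 * log k +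
        -0.2672)) := by
  have hk0 : (26 : ℝ) ≤ k := by exact_mod_cast hk
  have h1 := num_B (n := n) (k := k) hk hn hn2 (a * (π + θ))
  have h2 := real_odd (a := a) hk hok hen ha.pos (by omega) (le_refl (Sx (n / k)))
  refine (main_gen hk (hen.mul_right k) ha one_pos ht htT θ (S2_B hk ha5 hn)
    (by linarith : _ ≤ 0.8198 * (k : ℝ) + (-(k / 2 * LL n k a) + 1 / 2 * LL n k a - k / 2 +
      1 / 2 * log k + 0.6535 + 0.01852))).trans (exp_le_exp.2 ?_)
  have h3 := cst_le (k := k) (c := 1) (d := 0) (by simp)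
  linarith

/-- Regime C. -/
theorem main_C_even {n k a : ℕ} (hk : 26 ≤ k) (hek : Even k) (ha : Odd a) (ha5 : 5 ≤ a)
    (hn : 20 * n ≤ 3 * k) {t : ℝ} (ht : 0 < t) (htT : t ≤ 13 / 20 / (a * nb n k)) (θ : ℝ) :
    sigma n k a t * rho n k a t θ ≤ exp (W k (13 / 20 / (a * nb n k)) θ +
      (-(1 / 3) * (k * LL n k a) + 0.1256 * k + LL n k a + 17 / 12 * log k + 1.5001 +
        0.3471 * (k * (n / k)))) := by
  have hk0 : (26 : ℝ) ≤ k := by exact_mod_cast hk
  have h1 : NUM n k (13 / 20 / nb n k) (a * (π + θ)) ≤ 0.5323 * k + 0.6971 * n + 0.3821 :=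
    num_C (n := n) (k := k) hk hn (a * (π + θ))
  have h2 := real_C_even (a := a) hk hek ha.pos (σ := 7 / 20) (by norm_num)
    (fun y h0 h1 => Sx_diff (by positivity)
      (one_div_le_one_div_of_le (by norm_num) hk0) h0 h1) hn
  refine (main_gen hk (hek.mul_left n) ha (by norm_num) ht htT θ (S2_C hk ha5)
    (by linarith : _ ≤ 0.5323 * (k : ℝ) + 0.6971 * n + 0.3821 + (-(k / 2 * LL n k a) - k / 2 +
      0.6535 + 0.15343 * k + 1 - 7 / 20 * n + 7 / 20))).trans (exp_le_exp.2 ?_)
  have h3 := cst_le (k := k) (c := 13 / 20) (d := 0.4308) (by have := log_cC.1; linarith)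
  have e1 : (k : ℝ) * (n / k) = n := by field_simp
  rw [e1]
  have hlog : 0 ≤ log (k : ℝ) := log_nonneg (by linarith)
  linarith

theorem main_C_odd {n k a : ℕ} (hk : 26 ≤ k) (hok : Odd k) (hen : Even n) (ha : Odd a)
    (ha5 : 5 ≤ a) (hn : 20 * n ≤ 3 * k) {t : ℝ} (ht : 0 < t)
    (htT : t ≤ 13 / 20 / (a * nb n k)) (θ : ℝ) :
    sigma n k a t * rho n k a t θ ≤ exp (W k (13 / 20 / (a * nb n k)) θ +
      (-(1 / 3) * (k * LL n k a) + 0.1256 * k + 3 / 2 * LL n k a + 17 / 12 * log k + 0.6887 +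
        0.3471 * (k * (n / k)))) := by
  have hk0 : (26 : ℝ) ≤ k := by exact_mod_cast hk
  have hk27 : (27 : ℝ) ≤ k := by
    have : 27 ≤ k := by
      rcases hok with ⟨j, rfl⟩
      omega
    exact_mod_cast this
  have h1 : NUM n k (13 / 20 / nb n k) (a * (π + θ)) ≤ 0.5323 * k + 0.6971 * n + 0.3821 :=
    num_C (n := n) (k := k) hk hn (a * (π + θ))
  have h2 := real_C_odd (a := a) hk hok hen ha.pos (σ := 7 / 20)
    (fun y h0 h1 => Sx_diff (one_div_pos.2 (by linarith))
      (one_div_le_one_div_of_le (by norm_num) (by linarith)) h0 h1) hn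
  refine (main_gen hk (hen.mul_right k) ha (by norm_num) ht htT θ (S2_C hk ha5)
    (by linarith : _ ≤ 0.5323 * (k : ℝ) + 0.6971 * n + 0.3821 + (-(k / 2 * LL n k a) +
      1 / 2 * LL n k a - k / 2 + 0.6535 + 0.15343 * k + 1 / 2 + 0.0386 - 7 / 20 * n))).trans
      (exp_le_exp.2 ?_)
  have h3 := cst_le (k := k) (c := 13 / 20) (d := 0.4308) (by have := log_cC.1; linarith)
  have e1 : (k : ℝ) * (n / k) = n := by field_simp
  rw [e1]
  linarith

/-- The same with `σ = 11/25` for `k ≥ 60`. -/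
theorem main_C_even' {n k a : ℕ} (hk : 60 ≤ k) (hek : Even k) (ha : Odd a) (ha5 : 5 ≤ a)
    (hn : 20 * n ≤ 3 * k) {t : ℝ} (ht : 0 < t) (htT : t ≤ 13 / 20 / (a * nb n k)) (θ : ℝ) :
    sigma n k a t * rho n k a t θ ≤ exp (W k (13 / 20 / (a * nb n k)) θ +
      (-(1 / 3) * (k * LL n k a) + 0.1256 * k + LL n k a + 17 / 12 * log k + 1.5901 +
        0.2571 * (k * (n / k)))) := by
  have hk0 : (60 : ℝ) ≤ k := by exact_mod_cast hk
  have hk' : 26 ≤ k := by omega
  have h1 : NUM n k (13 / 20 / nb n k) (a * (π + θ)) ≤ 0.5323 * k + 0.6971 * n + 0.3821 :=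
    num_C (n := n) (k := k) hk' hn (a * (π + θ))
  have h2 := real_C_even (a := a) hk' hek ha.pos (σ := 11 / 25) (by norm_num)
    (fun y h0 h1 => Sx_diff' (by positivity)
      (one_div_le_one_div_of_le (by norm_num) (by linarith)) h0 h1) hn
  refine (main_gen hk' (hek.mul_left n) ha (by norm_num) ht htT θ (S2_C hk' ha5)
    (by linarith : _ ≤ 0.5323 * (k : ℝ) + 0.6971 * n + 0.3821 + (-(k / 2 * LL n k a) - k / 2 +
      0.6535 + 0.15343 * k + 1 - 11 / 25 * n + 11 / 25))).trans (exp_le_exp.2 ?_)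
  have h3 := cst_le (k := k) (c := 13 / 20) (d := 0.4308) (by have := log_cC.1; linarith)
  have e1 : (k : ℝ) * (n / k) = n := by field_simp
  rw [e1]
  linarith

theorem main_C_odd' {n k a : ℕ} (hk : 60 ≤ k) (hok : Odd k) (hen : Even n) (ha : Odd a)
    (ha5 : 5 ≤ a) (hn : 20 * n ≤ 3 * k) {t : ℝ} (ht : 0 < t)
    (htT : t ≤ 13 / 20 / (a * nb n k)) (θ : ℝ) :
    sigma n k a t * rho n k a t θ ≤ exp (W k (13 / 20 / (a * nb n k)) θ +
      (-(1 / 3) * (k * LL n k a) + 0.1256 * k + 3 / 2 * LL n k a + 17 / 12 * log k + 0.6887 +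
        0.2571 * (k * (n / k)))) := by
  have hk0 : (60 : ℝ) ≤ k := by exact_mod_cast hk
  have hk' : 26 ≤ k := by omega
  have h1 : NUM n k (13 / 20 / nb n k) (a * (π + θ)) ≤ 0.5323 * k + 0.6971 * n + 0.3821 :=
    num_C (n := n) (k := k) hk' hn (a * (π + θ))
  have h2 := real_C_odd (a := a) hk' hok hen ha.pos (σ := 11 / 25)
    (fun y h0 h1 => Sx_diff' (one_div_pos.2 (by linarith))
      (one_div_le_one_div_of_le (by norm_num) (by linarith)) h0 h1) hn
  refine (main_gen hk' (hen.mul_right k) ha (by norm_num) ht htT θ (S2_C hk' ha5)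
    (by linarith : _ ≤ 0.5323 * (k : ℝ) + 0.6971 * n + 0.3821 + (-(k / 2 * LL n k a) +
      1 / 2 * LL n k a - k / 2 + 0.6535 + 0.15343 * k + 1 / 2 + 0.0386 - 11 / 25 * n))).trans
      (exp_le_exp.2 ?_)
  have h3 := cst_le (k := k) (c := 13 / 20) (d := 0.4308) (by have := log_cC.1; linarith)
  have e1 : (k : ℝ) * (n / k) = n := by field_simp
  rw [e1]
  linarith

/-- `n ≥ k/20`: `Sx` by its chord on `[1/20, 3/20]`. -/
theorem main_C5_even {n k a : ℕ} (hk : 26 ≤ k) (hek : Even k) (ha : Odd a) (ha5 : 5 ≤ a)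
    (hn : 20 * n ≤ 3 * k) (hn1 : k ≤ 20 * n) {t : ℝ} (ht : 0 < t)
    (htT : t ≤ 13 / 20 / (a * nb n k)) (θ : ℝ) :
    sigma n k a t * rho n k a t θ ≤ exp (W k (13 / 20 / (a * nb n k)) θ +
      (-(1 / 3) * (k * LL n k a) + 0.0922 * k + LL n k a + 23 / 12 * log k + 0.6047 +
        0.3111 * (k * (n / k)))) := by
  have hk0 : (26 : ℝ) ≤ k := by exact_mod_cast hk
  have hn' : (20 : ℝ) * n ≤ 3 * k := by exact_mod_cast hn
  have hn1' : (k : ℝ) ≤ 20 * n := by exact_mod_cast hn1
  have h1 : NUM n k (13 / 20 / nb n k) (a * (π + θ)) ≤ 0.5323 * k + 0.6971 * n + 0.3821 :=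
    num_C (n := n) (k := k) hk hn (a * (π + θ))
  have hs : Sx (n / k) ≤ 0.1200 - 0.386 * (n / k) := by
    apply chord_C5
    · rw [le_div_iff₀ (by linarith)]; linarith
    · rw [div_le_iff₀ (by linarith)]; linarith
  have h2 := real_even (a := a) hk hek ha.pos (by omega) hs (e := 0.4546) (by norm_num) (by
      rw [div_le_iff₀ (by linarith)]
      linarith)
  have e1 : (k : ℝ) * (n / k) = n := by field_simp
  refine (main_gen hk (hek.mul_left n) ha (by norm_num) ht htT θ (S2_C hk ha5)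
    (by linarith : _ ≤ 0.5323 * (k : ℝ) + 0.6971 * n + 0.3821 + (-(k / 2 * LL n k a) - k / 2 +
      1 / 2 * log k + 0.6535 + k * (0.1200 - 0.386 * (n / k)) + 0.4546))).trans
      (exp_le_exp.2 ?_)
  have h3 := cst_le (k := k) (c := 13 / 20) (d := 0.4308) (by have := log_cC.1; linarith)
  have e2 : (k : ℝ) * (0.1200 - 0.386 * (n / k)) = 0.1200 * k - 0.386 * (k * (n / k)) := by ring
  rw [e2, e1]
  linarith

theorem main_C5_odd {n k a : ℕ} (hk : 26 ≤ k) (hok : Odd k) (hen : Even n) (ha : Odd a)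
    (ha5 : 5 ≤ a) (hn : 20 * n ≤ 3 * k) (hn1 : k ≤ 20 * n) {t : ℝ} (ht : 0 < t)
    (htT : t ≤ 13 / 20 / (a * nb n k)) (θ : ℝ) :
    sigma n k a t * rho n k a t θ ≤ exp (W k (13 / 20 / (a * nb n k)) θ +
      (-(1 / 3) * (k * LL n k a) + 0.0922 * k + 3 / 2 * LL n k a + 23 / 12 * log k + 0.1687 +
        0.3111 * (k * (n / k)))) := by
  have hk0 : (26 : ℝ) ≤ k := by exact_mod_cast hk
  have hn' : (20 : ℝ) * n ≤ 3 * k := by exact_mod_cast hn
  have hn1' : (k : ℝ) ≤ 20 * n := by exact_mod_cast hn1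
  have h1 : NUM n k (13 / 20 / nb n k) (a * (π + θ)) ≤ 0.5323 * k + 0.6971 * n + 0.3821 :=
    num_C (n := n) (k := k) hk hn (a * (π + θ))
  have hs : Sx (n / k) ≤ 0.1200 - 0.386 * (n / k) := by
    apply chord_C5
    · rw [le_div_iff₀ (by linarith)]; linarith
    · rw [div_le_iff₀ (by linarith)]; linarith
  have h2 := real_odd (a := a) hk hok hen ha.pos (by omega) hs
  have e1 : (k : ℝ) * (n / k) = n := by field_simp
  refine (main_gen hk (hen.mul_right k) ha (by norm_num) ht htT θ (S2_C hk ha5)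
    (by linarith : _ ≤ 0.5323 * (k : ℝ) + 0.6971 * n + 0.3821 + (-(k / 2 * LL n k a) +
      1 / 2 * LL n k a - k / 2 + 1 / 2 * log k + 0.6535 + 0.01852 +
      k * (0.1200 - 0.386 * (n / k))))).trans (exp_le_exp.2 ?_)
  have h3 := cst_le (k := k) (c := 13 / 20) (d := 0.4308) (by have := log_cC.1; linarith)
  have e2 : (k : ℝ) * (0.1200 - 0.386 * (n / k)) = 0.1200 * k - 0.386 * (k * (n / k)) := by ring
  rw [e2, e1]
  linarith

end Pool.Agent.SignedQ.Far
end

section

/-! # FAR arcs: the final inequality, regime B (generated) -/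

namespace Pool.Agent.SignedQ.Far

theorem r_B26_even {k L lc lk w : ℝ} (h : UB10 k L lc lk w) (hk : 26 ≤ k)
    (hL : 2.863 ≤ L) (hlk : lk ≤ 3.2582 + (k - 26) / 26) (hlo : 0 ≤ lc) (hhi : lc ≤ 0) :
    w + (-(1 / 3) * (k * L) + 0.1879 * k + 1 * L + 23 / 12 * lk + 0.0989) ≤ -4.136 := by
  have key : ∀ x : ℝ, w + (-(1 / 3) * (k * L) + 0.1879 * k + 1 * L + 23 / 12 * lk + 0.0989 +
      0 * (k * 0)) ≤ -4.136 → w + (-(1 / 3) * (k * L) + 0.1879 * k + 1 * L + 23 / 12 * lk + 0.0989) ≤ -4.136 := by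
    intro _ hx
    linarith
  have hL' : 2.863 + 0 * (0 : ℝ) ≤ L := by linarith
  refine key 0 ?_
  have hz0 : (0 : ℝ) ≤ 0 := le_rfl
  have hz1 : (0 : ℝ) ≤ 1 := zero_le_one
  rcases h with h | h | h | h | h | h | h | h | h | h | h
  · exact caseN h hk hz0 hz1 hL' hlk hlo hhi (by norm_num) (by norm_num) (by norm_num) (by norm_num)
      (by norm_num) (by norm_num) (by norm_num) (by norm_num) (by norm_num) (by norm_num) (by norm_num)
  · exact caseP h hk hz0 hz1 hL' hlk hlo (by norm_num) (by norm_num) (by norm_num) (by norm_num)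
      (by norm_num) (by norm_num) (by norm_num) (by norm_num) (by norm_num) (by norm_num) (by norm_num)
  · exact caseP h hk hz0 hz1 hL' hlk hlo (by norm_num) (by norm_num) (by norm_num) (by norm_num)
      (by norm_num) (by norm_num) (by norm_num) (by norm_num) (by norm_num) (by norm_num) (by norm_num)
  · exact caseP h hk hz0 hz1 hL' hlk hlo (by norm_num) (by norm_num) (by norm_num) (by norm_num)
      (by norm_num) (by norm_num) (by norm_num) (by norm_num) (by norm_num) (by norm_num) (by norm_num)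
  · exact caseP h hk hz0 hz1 hL' hlk hlo (by norm_num) (by norm_num) (by norm_num) (by norm_num)
      (by norm_num) (by norm_num) (by norm_num) (by norm_num) (by norm_num) (by norm_num) (by norm_num)
  · exact caseP h hk hz0 hz1 hL' hlk hlo (by norm_num) (by norm_num) (by norm_num) (by norm_num)
      (by norm_num) (by norm_num) (by norm_num) (by norm_num) (by norm_num) (by norm_num) (by norm_num)
  · exact caseP h hk hz0 hz1 hL' hlk hlo (by norm_num) (by norm_num) (by norm_num) (by norm_num)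
      (by norm_num) (by norm_num) (by norm_num) (by norm_num) (by norm_num) (by norm_num) (by norm_num)
  · exact caseP h hk hz0 hz1 hL' hlk hlo (by norm_num) (by norm_num) (by norm_num) (by norm_num)
      (by norm_num) (by norm_num) (by norm_num) (by norm_num) (by norm_num) (by norm_num) (by norm_num)
  · exact caseP h hk hz0 hz1 hL' hlk hlo (by norm_num) (by norm_num) (by norm_num) (by norm_num)
      (by norm_num) (by norm_num) (by norm_num) (by norm_num) (by norm_num) (by norm_num) (by norm_num)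
  · exact caseP h hk hz0 hz1 hL' hlk hlo (by norm_num) (by norm_num) (by norm_num) (by norm_num)
      (by norm_num) (by norm_num) (by norm_num) (by norm_num) (by norm_num) (by norm_num) (by norm_num)
  · exact caseN h hk hz0 hz1 hL' hlk hlo hhi (by norm_num) (by norm_num) (by norm_num) (by norm_num)
      (by norm_num) (by norm_num) (by norm_num) (by norm_num) (by norm_num) (by norm_num) (by norm_num)

theorem r_B26_odd {k L lc lk w : ℝ} (h : UB10 k L lc lk w) (hk : 26 ≤ k)
    (hL : 2.863 ≤ L) (hlk : lk ≤ 3.2582 + (k - 26) / 26) (hlo : 0 ≤ lc) (hhi : lc ≤ 0) :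
    w + (-(1 / 3) * (k * L) + 0.1879 * k + 3 / 2 * L + 23 / 12 * lk + -0.2672) ≤ -4.136 := by
  have key : ∀ x : ℝ, w + (-(1 / 3) * (k * L) + 0.1879 * k + 3 / 2 * L + 23 / 12 * lk + -0.2672 +
      0 * (k * 0)) ≤ -4.136 → w + (-(1 / 3) * (k * L) + 0.1879 * k + 3 / 2 * L + 23 / 12 * lk + -0.2672) ≤ -4.136 := by
    intro _ hx
    linarith
  have hL' : 2.863 + 0 * (0 : ℝ) ≤ L := by linarith
  refine key 0 ?_
  have hz0 : (0 : ℝ) ≤ 0 := le_rfl
  have hz1 : (0 : ℝ) ≤ 1 := zero_le_one
  rcases h with h | h | h | h | h | h | h | h | h | h | h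
  · exact caseN h hk hz0 hz1 hL' hlk hlo hhi (by norm_num) (by norm_num) (by norm_num) (by norm_num)
      (by norm_num) (by norm_num) (by norm_num) (by norm_num) (by norm_num) (by norm_num) (by norm_num)
  · exact caseP h hk hz0 hz1 hL' hlk hlo (by norm_num) (by norm_num) (by norm_num) (by norm_num)
      (by norm_num) (by norm_num) (by norm_num) (by norm_num) (by norm_num) (by norm_num) (by norm_num)
  · exact caseP h hk hz0 hz1 hL' hlk hlo (by norm_num) (by norm_num) (by norm_num) (by norm_num)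
      (by norm_num) (by norm_num) (by norm_num) (by norm_num) (by norm_num) (by norm_num) (by norm_num)
  · exact caseP h hk hz0 hz1 hL' hlk hlo (by norm_num) (by norm_num) (by norm_num) (by norm_num)
      (by norm_num) (by norm_num) (by norm_num) (by norm_num) (by norm_num) (by norm_num) (by norm_num)
  · exact caseP h hk hz0 hz1 hL' hlk hlo (by norm_num) (by norm_num) (by norm_num) (by norm_num)
      (by norm_num) (by norm_num) (by norm_num) (by norm_num) (by norm_num) (by norm_num) (by norm_num)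
  · exact caseP h hk hz0 hz1 hL' hlk hlo (by norm_num) (by norm_num) (by norm_num) (by norm_num)
      (by norm_num) (by norm_num) (by norm_num) (by norm_num) (by norm_num) (by norm_num) (by norm_num)
  · exact caseP h hk hz0 hz1 hL' hlk hlo (by norm_num) (by norm_num) (by norm_num) (by norm_num)
      (by norm_num) (by norm_num) (by norm_num) (by norm_num) (by norm_num) (by norm_num) (by norm_num)
  · exact caseP h hk hz0 hz1 hL' hlk hlo (by norm_num) (by norm_num) (by norm_num) (by norm_num)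
      (by norm_num) (by norm_num) (by norm_num) (by norm_num) (by norm_num) (by norm_num) (by norm_num)
  · exact caseP h hk hz0 hz1 hL' hlk hlo (by norm_num) (by norm_num) (by norm_num) (by norm_num)
      (by norm_num) (by norm_num) (by norm_num) (by norm_num) (by norm_num) (by norm_num) (by norm_num)
  · exact caseP h hk hz0 hz1 hL' hlk hlo (by norm_num) (by norm_num) (by norm_num) (by norm_num)
      (by norm_num) (by norm_num) (by norm_num) (by norm_num) (by norm_num) (by norm_num) (by norm_num)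
  · exact caseN h hk hz0 hz1 hL' hlk hlo hhi (by norm_num) (by norm_num) (by norm_num) (by norm_num)
      (by norm_num) (by norm_num) (by norm_num) (by norm_num) (by norm_num) (by norm_num) (by norm_num)

theorem r_B30_even {k L lc lk w : ℝ} (h : UB10 k L lc lk w) (hk : 30 ≤ k)
    (hL : 2.425 ≤ L) (hlk : lk ≤ 3.4013 + (k - 30) / 30) (hlo : 0 ≤ lc) (hhi : lc ≤ 0) :
    w + (-(1 / 3) * (k * L) + 0.1879 * k + 1 * L + 23 / 12 * lk + 0.0989) ≤ -4.136 := by
  have key : ∀ x : ℝ, w + (-(1 / 3) * (k * L) + 0.1879 * k + 1 * L + 23 / 12 * lk + 0.0989 +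
      0 * (k * 0)) ≤ -4.136 → w + (-(1 / 3) * (k * L) + 0.1879 * k + 1 * L + 23 / 12 * lk + 0.0989) ≤ -4.136 := by
    intro _ hx
    linarith
  have hL' : 2.425 + 0 * (0 : ℝ) ≤ L := by linarith
  refine key 0 ?_
  have hz0 : (0 : ℝ) ≤ 0 := le_rfl
  have hz1 : (0 : ℝ) ≤ 1 := zero_le_one
  rcases h with h | h | h | h | h | h | h | h | h | h | h
  · exact caseN h hk hz0 hz1 hL' hlk hlo hhi (by norm_num) (by norm_num) (by norm_num) (by norm_num)
      (by norm_num) (by norm_num) (by norm_num) (by norm_num) (by norm_num) (by norm_num) (by norm_num)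
  · exact caseP h hk hz0 hz1 hL' hlk hlo (by norm_num) (by norm_num) (by norm_num) (by norm_num)
      (by norm_num) (by norm_num) (by norm_num) (by norm_num) (by norm_num) (by norm_num) (by norm_num)
  · exact caseP h hk hz0 hz1 hL' hlk hlo (by norm_num) (by norm_num) (by norm_num) (by norm_num)
      (by norm_num) (by norm_num) (by norm_num) (by norm_num) (by norm_num) (by norm_num) (by norm_num)
  · exact caseP h hk hz0 hz1 hL' hlk hlo (by norm_num) (by norm_num) (by norm_num) (by norm_num)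
      (by norm_num) (by norm_num) (by norm_num) (by norm_num) (by norm_num) (by norm_num) (by norm_num)
  · exact caseP h hk hz0 hz1 hL' hlk hlo (by norm_num) (by norm_num) (by norm_num) (by norm_num)
      (by norm_num) (by norm_num) (by norm_num) (by norm_num) (by norm_num) (by norm_num) (by norm_num)
  · exact caseP h hk hz0 hz1 hL' hlk hlo (by norm_num) (by norm_num) (by norm_num) (by norm_num)
      (by norm_num) (by norm_num) (by norm_num) (by norm_num) (by norm_num) (by norm_num) (by norm_num)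
  · exact caseP h hk hz0 hz1 hL' hlk hlo (by norm_num) (by norm_num) (by norm_num) (by norm_num)
      (by norm_num) (by norm_num) (by norm_num) (by norm_num) (by norm_num) (by norm_num) (by norm_num)
  · exact caseP h hk hz0 hz1 hL' hlk hlo (by norm_num) (by norm_num) (by norm_num) (by norm_num)
      (by norm_num) (by norm_num) (by norm_num) (by norm_num) (by norm_num) (by norm_num) (by norm_num)
  · exact caseP h hk hz0 hz1 hL' hlk hlo (by norm_num) (by norm_num) (by norm_num) (by norm_num)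
      (by norm_num) (by norm_num) (by norm_num) (by norm_num) (by norm_num) (by norm_num) (by norm_num)
  · exact caseP h hk hz0 hz1 hL' hlk hlo (by norm_num) (by norm_num) (by norm_num) (by norm_num)
      (by norm_num) (by norm_num) (by norm_num) (by norm_num) (by norm_num) (by norm_num) (by norm_num)
  · exact caseN h hk hz0 hz1 hL' hlk hlo hhi (by norm_num) (by norm_num) (by norm_num) (by norm_num)
      (by norm_num) (by norm_num) (by norm_num) (by norm_num) (by norm_num) (by norm_num) (by norm_num)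

theorem r_B30_odd {k L lc lk w : ℝ} (h : UB10 k L lc lk w) (hk : 30 ≤ k)
    (hL : 2.425 ≤ L) (hlk : lk ≤ 3.4013 + (k - 30) / 30) (hlo : 0 ≤ lc) (hhi : lc ≤ 0) :
    w + (-(1 / 3) * (k * L) + 0.1879 * k + 3 / 2 * L + 23 / 12 * lk + -0.2672) ≤ -4.136 := by
  have key : ∀ x : ℝ, w + (-(1 / 3) * (k * L) + 0.1879 * k + 3 / 2 * L + 23 / 12 * lk + -0.2672 +
      0 * (k * 0)) ≤ -4.136 → w + (-(1 / 3) * (k * L) + 0.1879 * k + 3 / 2 * L + 23 / 12 * lk + -0.2672) ≤ -4.136 := by
    intro _ hx
    linarith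
  have hL' : 2.425 + 0 * (0 : ℝ) ≤ L := by linarith
  refine key 0 ?_
  have hz0 : (0 : ℝ) ≤ 0 := le_rfl
  have hz1 : (0 : ℝ) ≤ 1 := zero_le_one
  rcases h with h | h | h | h | h | h | h | h | h | h | h
  · exact caseN h hk hz0 hz1 hL' hlk hlo hhi (by norm_num) (by norm_num) (by norm_num) (by norm_num)
      (by norm_num) (by norm_num) (by norm_num) (by norm_num) (by norm_num) (by norm_num) (by norm_num)
  · exact caseP h hk hz0 hz1 hL' hlk hlo (by norm_num) (by norm_num) (by norm_num) (by norm_num)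
      (by norm_num) (by norm_num) (by norm_num) (by norm_num) (by norm_num) (by norm_num) (by norm_num)
  · exact caseP h hk hz0 hz1 hL' hlk hlo (by norm_num) (by norm_num) (by norm_num) (by norm_num)
      (by norm_num) (by norm_num) (by norm_num) (by norm_num) (by norm_num) (by norm_num) (by norm_num)
  · exact caseP h hk hz0 hz1 hL' hlk hlo (by norm_num) (by norm_num) (by norm_num) (by norm_num)
      (by norm_num) (by norm_num) (by norm_num) (by norm_num) (by norm_num) (by norm_num) (by norm_num)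
  · exact caseP h hk hz0 hz1 hL' hlk hlo (by norm_num) (by norm_num) (by norm_num) (by norm_num)
      (by norm_num) (by norm_num) (by norm_num) (by norm_num) (by norm_num) (by norm_num) (by norm_num)
  · exact caseP h hk hz0 hz1 hL' hlk hlo (by norm_num) (by norm_num) (by norm_num) (by norm_num)
      (by norm_num) (by norm_num) (by norm_num) (by norm_num) (by norm_num) (by norm_num) (by norm_num)
  · exact caseP h hk hz0 hz1 hL' hlk hlo (by norm_num) (by norm_num) (by norm_num) (by norm_num)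
      (by norm_num) (by norm_num) (by norm_num) (by norm_num) (by norm_num) (by norm_num) (by norm_num)
  · exact caseP h hk hz0 hz1 hL' hlk hlo (by norm_num) (by norm_num) (by norm_num) (by norm_num)
      (by norm_num) (by norm_num) (by norm_num) (by norm_num) (by norm_num) (by norm_num) (by norm_num)
  · exact caseP h hk hz0 hz1 hL' hlk hlo (by norm_num) (by norm_num) (by norm_num) (by norm_num)
      (by norm_num) (by norm_num) (by norm_num) (by norm_num) (by norm_num) (by norm_num) (by norm_num)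
  · exact caseP h hk hz0 hz1 hL' hlk hlo (by norm_num) (by norm_num) (by norm_num) (by norm_num)
      (by norm_num) (by norm_num) (by norm_num) (by norm_num) (by norm_num) (by norm_num) (by norm_num)
  · exact caseN h hk hz0 hz1 hL' hlk hlo hhi (by norm_num) (by norm_num) (by norm_num) (by norm_num)
      (by norm_num) (by norm_num) (by norm_num) (by norm_num) (by norm_num) (by norm_num) (by norm_num)

theorem r_B60_even {k L lc lk w : ℝ} (h : UB3 k L lc lk w) (hk : 60 ≤ k)
    (hL : 1.508 ≤ L) (hlk : lk ≤ 4.0944 + (k - 60) / 60) (hlo : 0 ≤ lc) (hhi : lc ≤ 0) :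
    w + (-(1 / 3) * (k * L) + 0.1879 * k + 1 * L + 23 / 12 * lk + 0.0989) ≤ -4.136 := by
  have key : ∀ x : ℝ, w + (-(1 / 3) * (k * L) + 0.1879 * k + 1 * L + 23 / 12 * lk + 0.0989 +
      0 * (k * 0)) ≤ -4.136 → w + (-(1 / 3) * (k * L) + 0.1879 * k + 1 * L + 23 / 12 * lk + 0.0989) ≤ -4.136 := by
    intro _ hx
    linarith
  have hL' : 1.508 + 0 * (0 : ℝ) ≤ L := by linarith
  refine key 0 ?_
  have hz0 : (0 : ℝ) ≤ 0 := le_rfl
  have hz1 : (0 : ℝ) ≤ 1 := zero_le_one
  rcases h with h | h | h | h | h | h | h | h | h | h | h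
  · exact caseN h hk hz0 hz1 hL' hlk hlo hhi (by norm_num) (by norm_num) (by norm_num) (by norm_num)
      (by norm_num) (by norm_num) (by norm_num) (by norm_num) (by norm_num) (by norm_num) (by norm_num)
  · exact caseP h hk hz0 hz1 hL' hlk hlo (by norm_num) (by norm_num) (by norm_num) (by norm_num)
      (by norm_num) (by norm_num) (by norm_num) (by norm_num) (by norm_num) (by norm_num) (by norm_num)
  · exact caseP h hk hz0 hz1 hL' hlk hlo (by norm_num) (by norm_num) (by norm_num) (by norm_num)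
      (by norm_num) (by norm_num) (by norm_num) (by norm_num) (by norm_num) (by norm_num) (by norm_num)
  · exact caseP h hk hz0 hz1 hL' hlk hlo (by norm_num) (by norm_num) (by norm_num) (by norm_num)
      (by norm_num) (by norm_num) (by norm_num) (by norm_num) (by norm_num) (by norm_num) (by norm_num)
  · exact caseP h hk hz0 hz1 hL' hlk hlo (by norm_num) (by norm_num) (by norm_num) (by norm_num)
      (by norm_num) (by norm_num) (by norm_num) (by norm_num) (by norm_num) (by norm_num) (by norm_num)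
  · exact caseP h hk hz0 hz1 hL' hlk hlo (by norm_num) (by norm_num) (by norm_num) (by norm_num)
      (by norm_num) (by norm_num) (by norm_num) (by norm_num) (by norm_num) (by norm_num) (by norm_num)
  · exact caseP h hk hz0 hz1 hL' hlk hlo (by norm_num) (by norm_num) (by norm_num) (by norm_num)
      (by norm_num) (by norm_num) (by norm_num) (by norm_num) (by norm_num) (by norm_num) (by norm_num)
  · exact caseP h hk hz0 hz1 hL' hlk hlo (by norm_num) (by norm_num) (by norm_num) (by norm_num)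
      (by norm_num) (by norm_num) (by norm_num) (by norm_num) (by norm_num) (by norm_num) (by norm_num)
  · exact caseP h hk hz0 hz1 hL' hlk hlo (by norm_num) (by norm_num) (by norm_num) (by norm_num)
      (by norm_num) (by norm_num) (by norm_num) (by norm_num) (by norm_num) (by norm_num) (by norm_num)
  · exact caseP h hk hz0 hz1 hL' hlk hlo (by norm_num) (by norm_num) (by norm_num) (by norm_num)
      (by norm_num) (by norm_num) (by norm_num) (by norm_num) (by norm_num) (by norm_num) (by norm_num)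
  · exact caseN h hk hz0 hz1 hL' hlk hlo hhi (by norm_num) (by norm_num) (by norm_num) (by norm_num)
      (by norm_num) (by norm_num) (by norm_num) (by norm_num) (by norm_num) (by norm_num) (by norm_num)

theorem r_B60_odd {k L lc lk w : ℝ} (h : UB3 k L lc lk w) (hk : 60 ≤ k)
    (hL : 1.508 ≤ L) (hlk : lk ≤ 4.0944 + (k - 60) / 60) (hlo : 0 ≤ lc) (hhi : lc ≤ 0) :
    w + (-(1 / 3) * (k * L) + 0.1879 * k + 3 / 2 * L + 23 / 12 * lk + -0.2672) ≤ -4.136 := by
  have key : ∀ x : ℝ, w + (-(1 / 3) * (k * L) + 0.1879 * k + 3 / 2 * L + 23 / 12 * lk + -0.2672 +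
      0 * (k * 0)) ≤ -4.136 → w + (-(1 / 3) * (k * L) + 0.1879 * k + 3 / 2 * L + 23 / 12 * lk + -0.2672) ≤ -4.136 := by
    intro _ hx
    linarith
  have hL' : 1.508 + 0 * (0 : ℝ) ≤ L := by linarith
  refine key 0 ?_
  have hz0 : (0 : ℝ) ≤ 0 := le_rfl
  have hz1 : (0 : ℝ) ≤ 1 := zero_le_one
  rcases h with h | h | h | h | h | h | h | h | h | h | h
  · exact caseN h hk hz0 hz1 hL' hlk hlo hhi (by norm_num) (by norm_num) (by norm_num) (by norm_num)
      (by norm_num) (by norm_num) (by norm_num) (by norm_num) (by norm_num) (by norm_num) (by norm_num)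
  · exact caseP h hk hz0 hz1 hL' hlk hlo (by norm_num) (by norm_num) (by norm_num) (by norm_num)
      (by norm_num) (by norm_num) (by norm_num) (by norm_num) (by norm_num) (by norm_num) (by norm_num)
  · exact caseP h hk hz0 hz1 hL' hlk hlo (by norm_num) (by norm_num) (by norm_num) (by norm_num)
      (by norm_num) (by norm_num) (by norm_num) (by norm_num) (by norm_num) (by norm_num) (by norm_num)
  · exact caseP h hk hz0 hz1 hL' hlk hlo (by norm_num) (by norm_num) (by norm_num) (by norm_num)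
      (by norm_num) (by norm_num) (by norm_num) (by norm_num) (by norm_num) (by norm_num) (by norm_num)
  · exact caseP h hk hz0 hz1 hL' hlk hlo (by norm_num) (by norm_num) (by norm_num) (by norm_num)
      (by norm_num) (by norm_num) (by norm_num) (by norm_num) (by norm_num) (by norm_num) (by norm_num)
  · exact caseP h hk hz0 hz1 hL' hlk hlo (by norm_num) (by norm_num) (by norm_num) (by norm_num)
      (by norm_num) (by norm_num) (by norm_num) (by norm_num) (by norm_num) (by norm_num) (by norm_num)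
  · exact caseP h hk hz0 hz1 hL' hlk hlo (by norm_num) (by norm_num) (by norm_num) (by norm_num)
      (by norm_num) (by norm_num) (by norm_num) (by norm_num) (by norm_num) (by norm_num) (by norm_num)
  · exact caseP h hk hz0 hz1 hL' hlk hlo (by norm_num) (by norm_num) (by norm_num) (by norm_num)
      (by norm_num) (by norm_num) (by norm_num) (by norm_num) (by norm_num) (by norm_num) (by norm_num)
  · exact caseP h hk hz0 hz1 hL' hlk hlo (by norm_num) (by norm_num) (by norm_num) (by norm_num)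
      (by norm_num) (by norm_num) (by norm_num) (by norm_num) (by norm_num) (by norm_num) (by norm_num)
  · exact caseP h hk hz0 hz1 hL' hlk hlo (by norm_num) (by norm_num) (by norm_num) (by norm_num)
      (by norm_num) (by norm_num) (by norm_num) (by norm_num) (by norm_num) (by norm_num) (by norm_num)
  · exact caseN h hk hz0 hz1 hL' hlk hlo hhi (by norm_num) (by norm_num) (by norm_num) (by norm_num)
      (by norm_num) (by norm_num) (by norm_num) (by norm_num) (by norm_num) (by norm_num) (by norm_num)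

theorem r_B100_even {k L lc lk w : ℝ} (h : UB3 k L lc lk w) (hk : 100 ≤ k)
    (hL : 1.178 ≤ L) (hlk : lk ≤ 4.6052 + (k - 100) / 100) (hlo : 0 ≤ lc) (hhi : lc ≤ 0) :
    w + (-(1 / 3) * (k * L) + 0.1879 * k + 1 * L + 23 / 12 * lk + 0.0989) ≤ -4.136 := by
  have key : ∀ x : ℝ, w + (-(1 / 3) * (k * L) + 0.1879 * k + 1 * L + 23 / 12 * lk + 0.0989 +
      0 * (k * 0)) ≤ -4.136 → w + (-(1 / 3) * (k * L) + 0.1879 * k + 1 * L + 23 / 12 * lk + 0.0989) ≤ -4.136 := by
    intro _ hx
    linarith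
  have hL' : 1.178 + 0 * (0 : ℝ) ≤ L := by linarith
  refine key 0 ?_
  have hz0 : (0 : ℝ) ≤ 0 := le_rfl
  have hz1 : (0 : ℝ) ≤ 1 := zero_le_one
  rcases h with h | h | h | h | h | h | h | h | h | h | h
  · exact caseN h hk hz0 hz1 hL' hlk hlo hhi (by norm_num) (by norm_num) (by norm_num) (by norm_num)
      (by norm_num) (by norm_num) (by norm_num) (by norm_num) (by norm_num) (by norm_num) (by norm_num)
  · exact caseP h hk hz0 hz1 hL' hlk hlo (by norm_num) (by norm_num) (by norm_num) (by norm_num)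
      (by norm_num) (by norm_num) (by norm_num) (by norm_num) (by norm_num) (by norm_num) (by norm_num)
  · exact caseP h hk hz0 hz1 hL' hlk hlo (by norm_num) (by norm_num) (by norm_num) (by norm_num)
      (by norm_num) (by norm_num) (by norm_num) (by norm_num) (by norm_num) (by norm_num) (by norm_num)
  · exact caseP h hk hz0 hz1 hL' hlk hlo (by norm_num) (by norm_num) (by norm_num) (by norm_num)
      (by norm_num) (by norm_num) (by norm_num) (by norm_num) (by norm_num) (by norm_num) (by norm_num)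
  · exact caseP h hk hz0 hz1 hL' hlk hlo (by norm_num) (by norm_num) (by norm_num) (by norm_num)
      (by norm_num) (by norm_num) (by norm_num) (by norm_num) (by norm_num) (by norm_num) (by norm_num)
  · exact caseP h hk hz0 hz1 hL' hlk hlo (by norm_num) (by norm_num) (by norm_num) (by norm_num)
      (by norm_num) (by norm_num) (by norm_num) (by norm_num) (by norm_num) (by norm_num) (by norm_num)
  · exact caseP h hk hz0 hz1 hL' hlk hlo (by norm_num) (by norm_num) (by norm_num) (by norm_num)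
      (by norm_num) (by norm_num) (by norm_num) (by norm_num) (by norm_num) (by norm_num) (by norm_num)
  · exact caseP h hk hz0 hz1 hL' hlk hlo (by norm_num) (by norm_num) (by norm_num) (by norm_num)
      (by norm_num) (by norm_num) (by norm_num) (by norm_num) (by norm_num) (by norm_num) (by norm_num)
  · exact caseP h hk hz0 hz1 hL' hlk hlo (by norm_num) (by norm_num) (by norm_num) (by norm_num)
      (by norm_num) (by norm_num) (by norm_num) (by norm_num) (by norm_num) (by norm_num) (by norm_num)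
  · exact caseP h hk hz0 hz1 hL' hlk hlo (by norm_num) (by norm_num) (by norm_num) (by norm_num)
      (by norm_num) (by norm_num) (by norm_num) (by norm_num) (by norm_num) (by norm_num) (by norm_num)
  · exact caseN h hk hz0 hz1 hL' hlk hlo hhi (by norm_num) (by norm_num) (by norm_num) (by norm_num)
      (by norm_num) (by norm_num) (by norm_num) (by norm_num) (by norm_num) (by norm_num) (by norm_num)

theorem r_B100_odd {k L lc lk w : ℝ} (h : UB3 k L lc lk w) (hk : 100 ≤ k)
    (hL : 1.178 ≤ L) (hlk : lk ≤ 4.6052 + (k - 100) / 100) (hlo : 0 ≤ lc) (hhi : lc ≤ 0) :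
    w + (-(1 / 3) * (k * L) + 0.1879 * k + 3 / 2 * L + 23 / 12 * lk + -0.2672) ≤ -4.136 := by
  have key : ∀ x : ℝ, w + (-(1 / 3) * (k * L) + 0.1879 * k + 3 / 2 * L + 23 / 12 * lk + -0.2672 +
      0 * (k * 0)) ≤ -4.136 → w + (-(1 / 3) * (k * L) + 0.1879 * k + 3 / 2 * L + 23 / 12 * lk + -0.2672) ≤ -4.136 := by
    intro _ hx
    linarith
  have hL' : 1.178 + 0 * (0 : ℝ) ≤ L := by linarith
  refine key 0 ?_
  have hz0 : (0 : ℝ) ≤ 0 := le_rfl
  have hz1 : (0 : ℝ) ≤ 1 := zero_le_one
  rcases h with h | h | h | h | h | h | h | h | h | h | h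
  · exact caseN h hk hz0 hz1 hL' hlk hlo hhi (by norm_num) (by norm_num) (by norm_num) (by norm_num)
      (by norm_num) (by norm_num) (by norm_num) (by norm_num) (by norm_num) (by norm_num) (by norm_num)
  · exact caseP h hk hz0 hz1 hL' hlk hlo (by norm_num) (by norm_num) (by norm_num) (by norm_num)
      (by norm_num) (by norm_num) (by norm_num) (by norm_num) (by norm_num) (by norm_num) (by norm_num)
  · exact caseP h hk hz0 hz1 hL' hlk hlo (by norm_num) (by norm_num) (by norm_num) (by norm_num)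
      (by norm_num) (by norm_num) (by norm_num) (by norm_num) (by norm_num) (by norm_num) (by norm_num)
  · exact caseP h hk hz0 hz1 hL' hlk hlo (by norm_num) (by norm_num) (by norm_num) (by norm_num)
      (by norm_num) (by norm_num) (by norm_num) (by norm_num) (by norm_num) (by norm_num) (by norm_num)
  · exact caseP h hk hz0 hz1 hL' hlk hlo (by norm_num) (by norm_num) (by norm_num) (by norm_num)
      (by norm_num) (by norm_num) (by norm_num) (by norm_num) (by norm_num) (by norm_num) (by norm_num)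
  · exact caseP h hk hz0 hz1 hL' hlk hlo (by norm_num) (by norm_num) (by norm_num) (by norm_num)
      (by norm_num) (by norm_num) (by norm_num) (by norm_num) (by norm_num) (by norm_num) (by norm_num)
  · exact caseP h hk hz0 hz1 hL' hlk hlo (by norm_num) (by norm_num) (by norm_num) (by norm_num)
      (by norm_num) (by norm_num) (by norm_num) (by norm_num) (by norm_num) (by norm_num) (by norm_num)
  · exact caseP h hk hz0 hz1 hL' hlk hlo (by norm_num) (by norm_num) (by norm_num) (by norm_num)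
      (by norm_num) (by norm_num) (by norm_num) (by norm_num) (by norm_num) (by norm_num) (by norm_num)
  · exact caseP h hk hz0 hz1 hL' hlk hlo (by norm_num) (by norm_num) (by norm_num) (by norm_num)
      (by norm_num) (by norm_num) (by norm_num) (by norm_num) (by norm_num) (by norm_num) (by norm_num)
  · exact caseP h hk hz0 hz1 hL' hlk hlo (by norm_num) (by norm_num) (by norm_num) (by norm_num)
      (by norm_num) (by norm_num) (by norm_num) (by norm_num) (by norm_num) (by norm_num) (by norm_num)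
  · exact caseN h hk hz0 hz1 hL' hlk hlo hhi (by norm_num) (by norm_num) (by norm_num) (by norm_num)
      (by norm_num) (by norm_num) (by norm_num) (by norm_num) (by norm_num) (by norm_num) (by norm_num)

end Pool.Agent.SignedQ.Far
end
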