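import Pool.Agent.Lib.MP_cf17a0_co.Mg.G005
import Pool.Agent.Lib.MP_cf17a0_co.Far.GU0
import Pool.Agent.Lib.MP_cf17a0_co.Mg.G006
import Pool.Agent.Lib.MP_cf17a0_co.Mg.G017
import Pool.Agent.Lib.MP_cf17a0_co.S1.PI

section

/-! # FAR arcs: the final inequality, regime C (generated) -/

namespace Pool.Agent.SignedQ.Far

theorem r_C26_even {k L lc lk w ν : ℝ} (h : UB10 k L lc lk w) (hk : 26 ≤ k)
    (hL : 2.74 + 0.8 * ν ≤ L) (hlk : lk ≤ 3.2582 + (k - 26) / 26) (hlo : -0.4308 ≤ lc) (hhi : lc ≤ 0) (hn0 : 0 ≤ ν)
    (hn1 : ν ≤ 0.15) :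
    w + (-(1 / 3) * (k * L) + 0.1256 * k + 1 * L + 17 / 12 * lk + 1.5001 + 0.3471 * (k * ν)) ≤ -4.136 := by
  rcases h with h | h | h | h | h | h | h | h | h | h | h
  · exact caseN h hk hn0 hn1 hL hlk hlo hhi (by norm_num) (by norm_num) (by norm_num) (by norm_num)
      (by norm_num) (by norm_num) (by norm_num) (by norm_num) (by norm_num) (by norm_num) (by norm_num)
  · exact caseP h hk hn0 hn1 hL hlk hlo (by norm_num) (by norm_num) (by norm_num) (by norm_num)
      (by norm_num) (by norm_num) (by norm_num) (by norm_num) (by norm_num) (by norm_num) (by norm_num)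
  · exact caseP h hk hn0 hn1 hL hlk hlo (by norm_num) (by norm_num) (by norm_num) (by norm_num)
      (by norm_num) (by norm_num) (by norm_num) (by norm_num) (by norm_num) (by norm_num) (by norm_num)
  · exact caseP h hk hn0 hn1 hL hlk hlo (by norm_num) (by norm_num) (by norm_num) (by norm_num)
      (by norm_num) (by norm_num) (by norm_num) (by norm_num) (by norm_num) (by norm_num) (by norm_num)
  · exact caseP h hk hn0 hn1 hL hlk hlo (by norm_num) (by norm_num) (by norm_num) (by norm_num)
      (by norm_num) (by norm_num) (by norm_num) (by norm_num) (by norm_num) (by norm_num) (by norm_num)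
  · exact caseP h hk hn0 hn1 hL hlk hlo (by norm_num) (by norm_num) (by norm_num) (by norm_num)
      (by norm_num) (by norm_num) (by norm_num) (by norm_num) (by norm_num) (by norm_num) (by norm_num)
  · exact caseP h hk hn0 hn1 hL hlk hlo (by norm_num) (by norm_num) (by norm_num) (by norm_num)
      (by norm_num) (by norm_num) (by norm_num) (by norm_num) (by norm_num) (by norm_num) (by norm_num)
  · exact caseP h hk hn0 hn1 hL hlk hlo (by norm_num) (by norm_num) (by norm_num) (by norm_num)
      (by norm_num) (by norm_num) (by norm_num) (by norm_num) (by norm_num) (by norm_num) (by norm_num)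
  · exact caseP h hk hn0 hn1 hL hlk hlo (by norm_num) (by norm_num) (by norm_num) (by norm_num)
      (by norm_num) (by norm_num) (by norm_num) (by norm_num) (by norm_num) (by norm_num) (by norm_num)
  · exact caseP h hk hn0 hn1 hL hlk hlo (by norm_num) (by norm_num) (by norm_num) (by norm_num)
      (by norm_num) (by norm_num) (by norm_num) (by norm_num) (by norm_num) (by norm_num) (by norm_num)
  · exact caseN h hk hn0 hn1 hL hlk hlo hhi (by norm_num) (by norm_num) (by norm_num) (by norm_num)
      (by norm_num) (by norm_num) (by norm_num) (by norm_num) (by norm_num) (by norm_num) (by norm_num)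

theorem r_C26_odd {k L lc lk w ν : ℝ} (h : UB10 k L lc lk w) (hk : 26 ≤ k)
    (hL : 2.74 + 0.8 * ν ≤ L) (hlk : lk ≤ 3.2582 + (k - 26) / 26) (hlo : -0.4308 ≤ lc) (hhi : lc ≤ 0) (hn0 : 0 ≤ ν)
    (hn1 : ν ≤ 0.15) :
    w + (-(1 / 3) * (k * L) + 0.1256 * k + 3 / 2 * L + 17 / 12 * lk + 0.6887 + 0.3471 * (k * ν)) ≤ -4.136 := by
  rcases h with h | h | h | h | h | h | h | h | h | h | h
  · exact caseN h hk hn0 hn1 hL hlk hlo hhi (by norm_num) (by norm_num) (by norm_num) (by norm_num)
      (by norm_num) (by norm_num) (by norm_num) (by norm_num) (by norm_num) (by norm_num) (by norm_num)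
  · exact caseP h hk hn0 hn1 hL hlk hlo (by norm_num) (by norm_num) (by norm_num) (by norm_num)
      (by norm_num) (by norm_num) (by norm_num) (by norm_num) (by norm_num) (by norm_num) (by norm_num)
  · exact caseP h hk hn0 hn1 hL hlk hlo (by norm_num) (by norm_num) (by norm_num) (by norm_num)
      (by norm_num) (by norm_num) (by norm_num) (by norm_num) (by norm_num) (by norm_num) (by norm_num)
  · exact caseP h hk hn0 hn1 hL hlk hlo (by norm_num) (by norm_num) (by norm_num) (by norm_num)
      (by norm_num) (by norm_num) (by norm_num) (by norm_num) (by norm_num) (by norm_num) (by norm_num)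
  · exact caseP h hk hn0 hn1 hL hlk hlo (by norm_num) (by norm_num) (by norm_num) (by norm_num)
      (by norm_num) (by norm_num) (by norm_num) (by norm_num) (by norm_num) (by norm_num) (by norm_num)
  · exact caseP h hk hn0 hn1 hL hlk hlo (by norm_num) (by norm_num) (by norm_num) (by norm_num)
      (by norm_num) (by norm_num) (by norm_num) (by norm_num) (by norm_num) (by norm_num) (by norm_num)
  · exact caseP h hk hn0 hn1 hL hlk hlo (by norm_num) (by norm_num) (by norm_num) (by norm_num)
      (by norm_num) (by norm_num) (by norm_num) (by norm_num) (by norm_num) (by norm_num) (by norm_num)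
  · exact caseP h hk hn0 hn1 hL hlk hlo (by norm_num) (by norm_num) (by norm_num) (by norm_num)
      (by norm_num) (by norm_num) (by norm_num) (by norm_num) (by norm_num) (by norm_num) (by norm_num)
  · exact caseP h hk hn0 hn1 hL hlk hlo (by norm_num) (by norm_num) (by norm_num) (by norm_num)
      (by norm_num) (by norm_num) (by norm_num) (by norm_num) (by norm_num) (by norm_num) (by norm_num)
  · exact caseP h hk hn0 hn1 hL hlk hlo (by norm_num) (by norm_num) (by norm_num) (by norm_num)
      (by norm_num) (by norm_num) (by norm_num) (by norm_num) (by norm_num) (by norm_num) (by norm_num)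
  · exact caseN h hk hn0 hn1 hL hlk hlo hhi (by norm_num) (by norm_num) (by norm_num) (by norm_num)
      (by norm_num) (by norm_num) (by norm_num) (by norm_num) (by norm_num) (by norm_num) (by norm_num)

theorem r_C30_even {k L lc lk w ν : ℝ} (h : UB10 k L lc lk w) (hk : 30 ≤ k)
    (hL : 2.302 + 0.8 * ν ≤ L) (hlk : lk ≤ 3.4013 + (k - 30) / 30) (hlo : -0.4308 ≤ lc) (hhi : lc ≤ 0) (hn0 : 0 ≤ ν)
    (hn1 : ν ≤ 0.15) :
    w + (-(1 / 3) * (k * L) + 0.1256 * k + 1 * L + 17 / 12 * lk + 1.5001 + 0.3471 * (k * ν)) ≤ -4.136 := by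
  rcases h with h | h | h | h | h | h | h | h | h | h | h
  · exact caseN h hk hn0 hn1 hL hlk hlo hhi (by norm_num) (by norm_num) (by norm_num) (by norm_num)
      (by norm_num) (by norm_num) (by norm_num) (by norm_num) (by norm_num) (by norm_num) (by norm_num)
  · exact caseP h hk hn0 hn1 hL hlk hlo (by norm_num) (by norm_num) (by norm_num) (by norm_num)
      (by norm_num) (by norm_num) (by norm_num) (by norm_num) (by norm_num) (by norm_num) (by norm_num)
  · exact caseP h hk hn0 hn1 hL hlk hlo (by norm_num) (by norm_num) (by norm_num) (by norm_num)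
      (by norm_num) (by norm_num) (by norm_num) (by norm_num) (by norm_num) (by norm_num) (by norm_num)
  · exact caseP h hk hn0 hn1 hL hlk hlo (by norm_num) (by norm_num) (by norm_num) (by norm_num)
      (by norm_num) (by norm_num) (by norm_num) (by norm_num) (by norm_num) (by norm_num) (by norm_num)
  · exact caseP h hk hn0 hn1 hL hlk hlo (by norm_num) (by norm_num) (by norm_num) (by norm_num)
      (by norm_num) (by norm_num) (by norm_num) (by norm_num) (by norm_num) (by norm_num) (by norm_num)
  · exact caseP h hk hn0 hn1 hL hlk hlo (by norm_num) (by norm_num) (by norm_num) (by norm_num)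
      (by norm_num) (by norm_num) (by norm_num) (by norm_num) (by norm_num) (by norm_num) (by norm_num)
  · exact caseP h hk hn0 hn1 hL hlk hlo (by norm_num) (by norm_num) (by norm_num) (by norm_num)
      (by norm_num) (by norm_num) (by norm_num) (by norm_num) (by norm_num) (by norm_num) (by norm_num)
  · exact caseP h hk hn0 hn1 hL hlk hlo (by norm_num) (by norm_num) (by norm_num) (by norm_num)
      (by norm_num) (by norm_num) (by norm_num) (by norm_num) (by norm_num) (by norm_num) (by norm_num)
  · exact caseP h hk hn0 hn1 hL hlk hlo (by norm_num) (by norm_num) (by norm_num) (by norm_num)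
      (by norm_num) (by norm_num) (by norm_num) (by norm_num) (by norm_num) (by norm_num) (by norm_num)
  · exact caseP h hk hn0 hn1 hL hlk hlo (by norm_num) (by norm_num) (by norm_num) (by norm_num)
      (by norm_num) (by norm_num) (by norm_num) (by norm_num) (by norm_num) (by norm_num) (by norm_num)
  · exact caseN h hk hn0 hn1 hL hlk hlo hhi (by norm_num) (by norm_num) (by norm_num) (by norm_num)
      (by norm_num) (by norm_num) (by norm_num) (by norm_num) (by norm_num) (by norm_num) (by norm_num)

theorem r_C30_odd {k L lc lk w ν : ℝ} (h : UB10 k L lc lk w) (hk : 30 ≤ k)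
    (hL : 2.302 + 0.8 * ν ≤ L) (hlk : lk ≤ 3.4013 + (k - 30) / 30) (hlo : -0.4308 ≤ lc) (hhi : lc ≤ 0) (hn0 : 0 ≤ ν)
    (hn1 : ν ≤ 0.15) :
    w + (-(1 / 3) * (k * L) + 0.1256 * k + 3 / 2 * L + 17 / 12 * lk + 0.6887 + 0.3471 * (k * ν)) ≤ -4.136 := by
  rcases h with h | h | h | h | h | h | h | h | h | h | h
  · exact caseN h hk hn0 hn1 hL hlk hlo hhi (by norm_num) (by norm_num) (by norm_num) (by norm_num)
      (by norm_num) (by norm_num) (by norm_num) (by norm_num) (by norm_num) (by norm_num) (by norm_num)
  · exact caseP h hk hn0 hn1 hL hlk hlo (by norm_num) (by norm_num) (by norm_num) (by norm_num)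
      (by norm_num) (by norm_num) (by norm_num) (by norm_num) (by norm_num) (by norm_num) (by norm_num)
  · exact caseP h hk hn0 hn1 hL hlk hlo (by norm_num) (by norm_num) (by norm_num) (by norm_num)
      (by norm_num) (by norm_num) (by norm_num) (by norm_num) (by norm_num) (by norm_num) (by norm_num)
  · exact caseP h hk hn0 hn1 hL hlk hlo (by norm_num) (by norm_num) (by norm_num) (by norm_num)
      (by norm_num) (by norm_num) (by norm_num) (by norm_num) (by norm_num) (by norm_num) (by norm_num)
  · exact caseP h hk hn0 hn1 hL hlk hlo (by norm_num) (by norm_num) (by norm_num) (by norm_num)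
      (by norm_num) (by norm_num) (by norm_num) (by norm_num) (by norm_num) (by norm_num) (by norm_num)
  · exact caseP h hk hn0 hn1 hL hlk hlo (by norm_num) (by norm_num) (by norm_num) (by norm_num)
      (by norm_num) (by norm_num) (by norm_num) (by norm_num) (by norm_num) (by norm_num) (by norm_num)
  · exact caseP h hk hn0 hn1 hL hlk hlo (by norm_num) (by norm_num) (by norm_num) (by norm_num)
      (by norm_num) (by norm_num) (by norm_num) (by norm_num) (by norm_num) (by norm_num) (by norm_num)
  · exact caseP h hk hn0 hn1 hL hlk hlo (by norm_num) (by norm_num) (by norm_num) (by norm_num)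
      (by norm_num) (by norm_num) (by norm_num) (by norm_num) (by norm_num) (by norm_num) (by norm_num)
  · exact caseP h hk hn0 hn1 hL hlk hlo (by norm_num) (by norm_num) (by norm_num) (by norm_num)
      (by norm_num) (by norm_num) (by norm_num) (by norm_num) (by norm_num) (by norm_num) (by norm_num)
  · exact caseP h hk hn0 hn1 hL hlk hlo (by norm_num) (by norm_num) (by norm_num) (by norm_num)
      (by norm_num) (by norm_num) (by norm_num) (by norm_num) (by norm_num) (by norm_num) (by norm_num)
  · exact caseN h hk hn0 hn1 hL hlk hlo hhi (by norm_num) (by norm_num) (by norm_num) (by norm_num)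
      (by norm_num) (by norm_num) (by norm_num) (by norm_num) (by norm_num) (by norm_num) (by norm_num)

theorem r_C60_even {k L lc lk w ν : ℝ} (h : UB3 k L lc lk w) (hk : 60 ≤ k)
    (hL : 1.386 + 0.8 * ν ≤ L) (hlk : lk ≤ 4.0944 + (k - 60) / 60) (hlo : -0.4308 ≤ lc) (hhi : lc ≤ 0) (hn0 : 0 ≤ ν)
    (hn1 : ν ≤ 0.15) :
    w + (-(1 / 3) * (k * L) + 0.1256 * k + 1 * L + 17 / 12 * lk + 1.5901 + 0.2571 * (k * ν)) ≤ -4.136 := by
  rcases h with h | h | h | h | h | h | h | h | h | h | h
  · exact caseN h hk hn0 hn1 hL hlk hlo hhi (by norm_num) (by norm_num) (by norm_num) (by norm_num)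
      (by norm_num) (by norm_num) (by norm_num) (by norm_num) (by norm_num) (by norm_num) (by norm_num)
  · exact caseP h hk hn0 hn1 hL hlk hlo (by norm_num) (by norm_num) (by norm_num) (by norm_num)
      (by norm_num) (by norm_num) (by norm_num) (by norm_num) (by norm_num) (by norm_num) (by norm_num)
  · exact caseP h hk hn0 hn1 hL hlk hlo (by norm_num) (by norm_num) (by norm_num) (by norm_num)
      (by norm_num) (by norm_num) (by norm_num) (by norm_num) (by norm_num) (by norm_num) (by norm_num)
  · exact caseP h hk hn0 hn1 hL hlk hlo (by norm_num) (by norm_num) (by norm_num) (by norm_num)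
      (by norm_num) (by norm_num) (by norm_num) (by norm_num) (by norm_num) (by norm_num) (by norm_num)
  · exact caseP h hk hn0 hn1 hL hlk hlo (by norm_num) (by norm_num) (by norm_num) (by norm_num)
      (by norm_num) (by norm_num) (by norm_num) (by norm_num) (by norm_num) (by norm_num) (by norm_num)
  · exact caseP h hk hn0 hn1 hL hlk hlo (by norm_num) (by norm_num) (by norm_num) (by norm_num)
      (by norm_num) (by norm_num) (by norm_num) (by norm_num) (by norm_num) (by norm_num) (by norm_num)
  · exact caseP h hk hn0 hn1 hL hlk hlo (by norm_num) (by norm_num) (by norm_num) (by norm_num)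
      (by norm_num) (by norm_num) (by norm_num) (by norm_num) (by norm_num) (by norm_num) (by norm_num)
  · exact caseP h hk hn0 hn1 hL hlk hlo (by norm_num) (by norm_num) (by norm_num) (by norm_num)
      (by norm_num) (by norm_num) (by norm_num) (by norm_num) (by norm_num) (by norm_num) (by norm_num)
  · exact caseP h hk hn0 hn1 hL hlk hlo (by norm_num) (by norm_num) (by norm_num) (by norm_num)
      (by norm_num) (by norm_num) (by norm_num) (by norm_num) (by norm_num) (by norm_num) (by norm_num)
  · exact caseP h hk hn0 hn1 hL hlk hlo (by norm_num) (by norm_num) (by norm_num) (by norm_num)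
      (by norm_num) (by norm_num) (by norm_num) (by norm_num) (by norm_num) (by norm_num) (by norm_num)
  · exact caseN h hk hn0 hn1 hL hlk hlo hhi (by norm_num) (by norm_num) (by norm_num) (by norm_num)
      (by norm_num) (by norm_num) (by norm_num) (by norm_num) (by norm_num) (by norm_num) (by norm_num)

theorem r_C60_odd {k L lc lk w ν : ℝ} (h : UB3 k L lc lk w) (hk : 60 ≤ k)
    (hL : 1.386 + 0.8 * ν ≤ L) (hlk : lk ≤ 4.0944 + (k - 60) / 60) (hlo : -0.4308 ≤ lc) (hhi : lc ≤ 0) (hn0 : 0 ≤ ν)
    (hn1 : ν ≤ 0.15) :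
    w + (-(1 / 3) * (k * L) + 0.1256 * k + 3 / 2 * L + 17 / 12 * lk + 0.6887 + 0.2571 * (k * ν)) ≤ -4.136 := by
  rcases h with h | h | h | h | h | h | h | h | h | h | h
  · exact caseN h hk hn0 hn1 hL hlk hlo hhi (by norm_num) (by norm_num) (by norm_num) (by norm_num)
      (by norm_num) (by norm_num) (by norm_num) (by norm_num) (by norm_num) (by norm_num) (by norm_num)
  · exact caseP h hk hn0 hn1 hL hlk hlo (by norm_num) (by norm_num) (by norm_num) (by norm_num)
      (by norm_num) (by norm_num) (by norm_num) (by norm_num) (by norm_num) (by norm_num) (by norm_num)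
  · exact caseP h hk hn0 hn1 hL hlk hlo (by norm_num) (by norm_num) (by norm_num) (by norm_num)
      (by norm_num) (by norm_num) (by norm_num) (by norm_num) (by norm_num) (by norm_num) (by norm_num)
  · exact caseP h hk hn0 hn1 hL hlk hlo (by norm_num) (by norm_num) (by norm_num) (by norm_num)
      (by norm_num) (by norm_num) (by norm_num) (by norm_num) (by norm_num) (by norm_num) (by norm_num)
  · exact caseP h hk hn0 hn1 hL hlk hlo (by norm_num) (by norm_num) (by norm_num) (by norm_num)
      (by norm_num) (by norm_num) (by norm_num) (by norm_num) (by norm_num) (by norm_num) (by norm_num)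
  · exact caseP h hk hn0 hn1 hL hlk hlo (by norm_num) (by norm_num) (by norm_num) (by norm_num)
      (by norm_num) (by norm_num) (by norm_num) (by norm_num) (by norm_num) (by norm_num) (by norm_num)
  · exact caseP h hk hn0 hn1 hL hlk hlo (by norm_num) (by norm_num) (by norm_num) (by norm_num)
      (by norm_num) (by norm_num) (by norm_num) (by norm_num) (by norm_num) (by norm_num) (by norm_num)
  · exact caseP h hk hn0 hn1 hL hlk hlo (by norm_num) (by norm_num) (by norm_num) (by norm_num)
      (by norm_num) (by norm_num) (by norm_num) (by norm_num) (by norm_num) (by norm_num) (by norm_num)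
  · exact caseP h hk hn0 hn1 hL hlk hlo (by norm_num) (by norm_num) (by norm_num) (by norm_num)
      (by norm_num) (by norm_num) (by norm_num) (by norm_num) (by norm_num) (by norm_num) (by norm_num)
  · exact caseP h hk hn0 hn1 hL hlk hlo (by norm_num) (by norm_num) (by norm_num) (by norm_num)
      (by norm_num) (by norm_num) (by norm_num) (by norm_num) (by norm_num) (by norm_num) (by norm_num)
  · exact caseN h hk hn0 hn1 hL hlk hlo hhi (by norm_num) (by norm_num) (by norm_num) (by norm_num)
      (by norm_num) (by norm_num) (by norm_num) (by norm_num) (by norm_num) (by norm_num) (by norm_num)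

theorem r_C100a7_even {k L lc lk w ν : ℝ} (h : UB3 k L lc lk w) (hk : 100 ≤ k)
    (hL : 1.252 + 1.74 * ν ≤ L) (hlk : lk ≤ 4.6052 + (k - 100) / 100) (hlo : -0.4308 ≤ lc) (hhi : lc ≤ 0) (hn0 : 0 ≤ ν)
    (hn1 : ν ≤ 0.15) :
    w + (-(1 / 3) * (k * L) + 0.1256 * k + 1 * L + 17 / 12 * lk + 1.5901 + 0.2571 * (k * ν)) ≤ -4.136 := by
  rcases h with h | h | h | h | h | h | h | h | h | h | h
  · exact caseN h hk hn0 hn1 hL hlk hlo hhi (by norm_num) (by norm_num) (by norm_num) (by norm_num)
      (by norm_num) (by norm_num) (by norm_num) (by norm_num) (by norm_num) (by norm_num) (by norm_num)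
  · exact caseP h hk hn0 hn1 hL hlk hlo (by norm_num) (by norm_num) (by norm_num) (by norm_num)
      (by norm_num) (by norm_num) (by norm_num) (by norm_num) (by norm_num) (by norm_num) (by norm_num)
  · exact caseP h hk hn0 hn1 hL hlk hlo (by norm_num) (by norm_num) (by norm_num) (by norm_num)
      (by norm_num) (by norm_num) (by norm_num) (by norm_num) (by norm_num) (by norm_num) (by norm_num)
  · exact caseP h hk hn0 hn1 hL hlk hlo (by norm_num) (by norm_num) (by norm_num) (by norm_num)
      (by norm_num) (by norm_num) (by norm_num) (by norm_num) (by norm_num) (by norm_num) (by norm_num)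
  · exact caseP h hk hn0 hn1 hL hlk hlo (by norm_num) (by norm_num) (by norm_num) (by norm_num)
      (by norm_num) (by norm_num) (by norm_num) (by norm_num) (by norm_num) (by norm_num) (by norm_num)
  · exact caseP h hk hn0 hn1 hL hlk hlo (by norm_num) (by norm_num) (by norm_num) (by norm_num)
      (by norm_num) (by norm_num) (by norm_num) (by norm_num) (by norm_num) (by norm_num) (by norm_num)
  · exact caseP h hk hn0 hn1 hL hlk hlo (by norm_num) (by norm_num) (by norm_num) (by norm_num)
      (by norm_num) (by norm_num) (by norm_num) (by norm_num) (by norm_num) (by norm_num) (by norm_num)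
  · exact caseP h hk hn0 hn1 hL hlk hlo (by norm_num) (by norm_num) (by norm_num) (by norm_num)
      (by norm_num) (by norm_num) (by norm_num) (by norm_num) (by norm_num) (by norm_num) (by norm_num)
  · exact caseP h hk hn0 hn1 hL hlk hlo (by norm_num) (by norm_num) (by norm_num) (by norm_num)
      (by norm_num) (by norm_num) (by norm_num) (by norm_num) (by norm_num) (by norm_num) (by norm_num)
  · exact caseP h hk hn0 hn1 hL hlk hlo (by norm_num) (by norm_num) (by norm_num) (by norm_num)
      (by norm_num) (by norm_num) (by norm_num) (by norm_num) (by norm_num) (by norm_num) (by norm_num)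
  · exact caseN h hk hn0 hn1 hL hlk hlo hhi (by norm_num) (by norm_num) (by norm_num) (by norm_num)
      (by norm_num) (by norm_num) (by norm_num) (by norm_num) (by norm_num) (by norm_num) (by norm_num)

theorem r_C100a7_odd {k L lc lk w ν : ℝ} (h : UB3 k L lc lk w) (hk : 100 ≤ k)
    (hL : 1.252 + 1.74 * ν ≤ L) (hlk : lk ≤ 4.6052 + (k - 100) / 100) (hlo : -0.4308 ≤ lc) (hhi : lc ≤ 0) (hn0 : 0 ≤ ν)
    (hn1 : ν ≤ 0.15) :
    w + (-(1 / 3) * (k * L) + 0.1256 * k + 3 / 2 * L + 17 / 12 * lk + 0.6887 + 0.2571 * (k * ν)) ≤ -4.136 := by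
  rcases h with h | h | h | h | h | h | h | h | h | h | h
  · exact caseN h hk hn0 hn1 hL hlk hlo hhi (by norm_num) (by norm_num) (by norm_num) (by norm_num)
      (by norm_num) (by norm_num) (by norm_num) (by norm_num) (by norm_num) (by norm_num) (by norm_num)
  · exact caseP h hk hn0 hn1 hL hlk hlo (by norm_num) (by norm_num) (by norm_num) (by norm_num)
      (by norm_num) (by norm_num) (by norm_num) (by norm_num) (by norm_num) (by norm_num) (by norm_num)
  · exact caseP h hk hn0 hn1 hL hlk hlo (by norm_num) (by norm_num) (by norm_num) (by norm_num)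
      (by norm_num) (by norm_num) (by norm_num) (by norm_num) (by norm_num) (by norm_num) (by norm_num)
  · exact caseP h hk hn0 hn1 hL hlk hlo (by norm_num) (by norm_num) (by norm_num) (by norm_num)
      (by norm_num) (by norm_num) (by norm_num) (by norm_num) (by norm_num) (by norm_num) (by norm_num)
  · exact caseP h hk hn0 hn1 hL hlk hlo (by norm_num) (by norm_num) (by norm_num) (by norm_num)
      (by norm_num) (by norm_num) (by norm_num) (by norm_num) (by norm_num) (by norm_num) (by norm_num)
  · exact caseP h hk hn0 hn1 hL hlk hlo (by norm_num) (by norm_num) (by norm_num) (by norm_num)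
      (by norm_num) (by norm_num) (by norm_num) (by norm_num) (by norm_num) (by norm_num) (by norm_num)
  · exact caseP h hk hn0 hn1 hL hlk hlo (by norm_num) (by norm_num) (by norm_num) (by norm_num)
      (by norm_num) (by norm_num) (by norm_num) (by norm_num) (by norm_num) (by norm_num) (by norm_num)
  · exact caseP h hk hn0 hn1 hL hlk hlo (by norm_num) (by norm_num) (by norm_num) (by norm_num)
      (by norm_num) (by norm_num) (by norm_num) (by norm_num) (by norm_num) (by norm_num) (by norm_num)
  · exact caseP h hk hn0 hn1 hL hlk hlo (by norm_num) (by norm_num) (by norm_num) (by norm_num)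
      (by norm_num) (by norm_num) (by norm_num) (by norm_num) (by norm_num) (by norm_num) (by norm_num)
  · exact caseP h hk hn0 hn1 hL hlk hlo (by norm_num) (by norm_num) (by norm_num) (by norm_num)
      (by norm_num) (by norm_num) (by norm_num) (by norm_num) (by norm_num) (by norm_num) (by norm_num)
  · exact caseN h hk hn0 hn1 hL hlk hlo hhi (by norm_num) (by norm_num) (by norm_num) (by norm_num)
      (by norm_num) (by norm_num) (by norm_num) (by norm_num) (by norm_num) (by norm_num) (by norm_num)

theorem r_C140_even {k L lc lk w ν : ℝ} (h : UB3 k L lc lk w) (hk : 140 ≤ k)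
    (hL : 0.916 + 1.74 * ν ≤ L) (hlk : lk ≤ 4.9417 + (k - 140) / 140) (hlo : -0.4308 ≤ lc) (hhi : lc ≤ 0) (hn0 : 0 ≤ ν)
    (hn1 : ν ≤ 0.15) :
    w + (-(1 / 3) * (k * L) + 0.1256 * k + 1 * L + 17 / 12 * lk + 1.5901 + 0.2571 * (k * ν)) ≤ -4.136 := by
  rcases h with h | h | h | h | h | h | h | h | h | h | h
  · exact caseN h hk hn0 hn1 hL hlk hlo hhi (by norm_num) (by norm_num) (by norm_num) (by norm_num)
      (by norm_num) (by norm_num) (by norm_num) (by norm_num) (by norm_num) (by norm_num) (by norm_num)
  · exact caseP h hk hn0 hn1 hL hlk hlo (by norm_num) (by norm_num) (by norm_num) (by norm_num)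
      (by norm_num) (by norm_num) (by norm_num) (by norm_num) (by norm_num) (by norm_num) (by norm_num)
  · exact caseP h hk hn0 hn1 hL hlk hlo (by norm_num) (by norm_num) (by norm_num) (by norm_num)
      (by norm_num) (by norm_num) (by norm_num) (by norm_num) (by norm_num) (by norm_num) (by norm_num)
  · exact caseP h hk hn0 hn1 hL hlk hlo (by norm_num) (by norm_num) (by norm_num) (by norm_num)
      (by norm_num) (by norm_num) (by norm_num) (by norm_num) (by norm_num) (by norm_num) (by norm_num)
  · exact caseP h hk hn0 hn1 hL hlk hlo (by norm_num) (by norm_num) (by norm_num) (by norm_num)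
      (by norm_num) (by norm_num) (by norm_num) (by norm_num) (by norm_num) (by norm_num) (by norm_num)
  · exact caseP h hk hn0 hn1 hL hlk hlo (by norm_num) (by norm_num) (by norm_num) (by norm_num)
      (by norm_num) (by norm_num) (by norm_num) (by norm_num) (by norm_num) (by norm_num) (by norm_num)
  · exact caseP h hk hn0 hn1 hL hlk hlo (by norm_num) (by norm_num) (by norm_num) (by norm_num)
      (by norm_num) (by norm_num) (by norm_num) (by norm_num) (by norm_num) (by norm_num) (by norm_num)
  · exact caseP h hk hn0 hn1 hL hlk hlo (by norm_num) (by norm_num) (by norm_num) (by norm_num)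
      (by norm_num) (by norm_num) (by norm_num) (by norm_num) (by norm_num) (by norm_num) (by norm_num)
  · exact caseP h hk hn0 hn1 hL hlk hlo (by norm_num) (by norm_num) (by norm_num) (by norm_num)
      (by norm_num) (by norm_num) (by norm_num) (by norm_num) (by norm_num) (by norm_num) (by norm_num)
  · exact caseP h hk hn0 hn1 hL hlk hlo (by norm_num) (by norm_num) (by norm_num) (by norm_num)
      (by norm_num) (by norm_num) (by norm_num) (by norm_num) (by norm_num) (by norm_num) (by norm_num)
  · exact caseN h hk hn0 hn1 hL hlk hlo hhi (by norm_num) (by norm_num) (by norm_num) (by norm_num)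
      (by norm_num) (by norm_num) (by norm_num) (by norm_num) (by norm_num) (by norm_num) (by norm_num)

theorem r_C140_odd {k L lc lk w ν : ℝ} (h : UB3 k L lc lk w) (hk : 140 ≤ k)
    (hL : 0.916 + 1.74 * ν ≤ L) (hlk : lk ≤ 4.9417 + (k - 140) / 140) (hlo : -0.4308 ≤ lc) (hhi : lc ≤ 0) (hn0 : 0 ≤ ν)
    (hn1 : ν ≤ 0.15) :
    w + (-(1 / 3) * (k * L) + 0.1256 * k + 3 / 2 * L + 17 / 12 * lk + 0.6887 + 0.2571 * (k * ν)) ≤ -4.136 := by
  rcases h with h | h | h | h | h | h | h | h | h | h | h
  · exact caseN h hk hn0 hn1 hL hlk hlo hhi (by norm_num) (by norm_num) (by norm_num) (by norm_num)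
      (by norm_num) (by norm_num) (by norm_num) (by norm_num) (by norm_num) (by norm_num) (by norm_num)
  · exact caseP h hk hn0 hn1 hL hlk hlo (by norm_num) (by norm_num) (by norm_num) (by norm_num)
      (by norm_num) (by norm_num) (by norm_num) (by norm_num) (by norm_num) (by norm_num) (by norm_num)
  · exact caseP h hk hn0 hn1 hL hlk hlo (by norm_num) (by norm_num) (by norm_num) (by norm_num)
      (by norm_num) (by norm_num) (by norm_num) (by norm_num) (by norm_num) (by norm_num) (by norm_num)
  · exact caseP h hk hn0 hn1 hL hlk hlo (by norm_num) (by norm_num) (by norm_num) (by norm_num)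
      (by norm_num) (by norm_num) (by norm_num) (by norm_num) (by norm_num) (by norm_num) (by norm_num)
  · exact caseP h hk hn0 hn1 hL hlk hlo (by norm_num) (by norm_num) (by norm_num) (by norm_num)
      (by norm_num) (by norm_num) (by norm_num) (by norm_num) (by norm_num) (by norm_num) (by norm_num)
  · exact caseP h hk hn0 hn1 hL hlk hlo (by norm_num) (by norm_num) (by norm_num) (by norm_num)
      (by norm_num) (by norm_num) (by norm_num) (by norm_num) (by norm_num) (by norm_num) (by norm_num)
  · exact caseP h hk hn0 hn1 hL hlk hlo (by norm_num) (by norm_num) (by norm_num) (by norm_num)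
      (by norm_num) (by norm_num) (by norm_num) (by norm_num) (by norm_num) (by norm_num) (by norm_num)
  · exact caseP h hk hn0 hn1 hL hlk hlo (by norm_num) (by norm_num) (by norm_num) (by norm_num)
      (by norm_num) (by norm_num) (by norm_num) (by norm_num) (by norm_num) (by norm_num) (by norm_num)
  · exact caseP h hk hn0 hn1 hL hlk hlo (by norm_num) (by norm_num) (by norm_num) (by norm_num)
      (by norm_num) (by norm_num) (by norm_num) (by norm_num) (by norm_num) (by norm_num) (by norm_num)
  · exact caseP h hk hn0 hn1 hL hlk hlo (by norm_num) (by norm_num) (by norm_num) (by norm_num)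
      (by norm_num) (by norm_num) (by norm_num) (by norm_num) (by norm_num) (by norm_num) (by norm_num)
  · exact caseN h hk hn0 hn1 hL hlk hlo hhi (by norm_num) (by norm_num) (by norm_num) (by norm_num)
      (by norm_num) (by norm_num) (by norm_num) (by norm_num) (by norm_num) (by norm_num) (by norm_num)

theorem r_C100a5_even {k L lc lk w ν : ℝ} (h : UB3 k L lc lk w) (hk : 100 ≤ k)
    (hL : 0.928 + 1.66 * ν ≤ L) (hlk : lk ≤ 4.6052 + (k - 100) / 100) (hlo : -0.4308 ≤ lc) (hhi : lc ≤ 0) (hn0 : 0.05 ≤ ν)
    (hn1 : ν ≤ 0.15) :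
    w + (-(1 / 3) * (k * L) + 0.0922 * k + 1 * L + 23 / 12 * lk + 0.6047 + 0.3111 * (k * ν)) ≤ -4.136 := by
  rcases h with h | h | h | h | h | h | h | h | h | h | h
  · exact caseN h hk hn0 hn1 hL hlk hlo hhi (by norm_num) (by norm_num) (by norm_num) (by norm_num)
      (by norm_num) (by norm_num) (by norm_num) (by norm_num) (by norm_num) (by norm_num) (by norm_num)
  · exact caseP h hk hn0 hn1 hL hlk hlo (by norm_num) (by norm_num) (by norm_num) (by norm_num)
      (by norm_num) (by norm_num) (by norm_num) (by norm_num) (by norm_num) (by norm_num) (by norm_num)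
  · exact caseP h hk hn0 hn1 hL hlk hlo (by norm_num) (by norm_num) (by norm_num) (by norm_num)
      (by norm_num) (by norm_num) (by norm_num) (by norm_num) (by norm_num) (by norm_num) (by norm_num)
  · exact caseP h hk hn0 hn1 hL hlk hlo (by norm_num) (by norm_num) (by norm_num) (by norm_num)
      (by norm_num) (by norm_num) (by norm_num) (by norm_num) (by norm_num) (by norm_num) (by norm_num)
  · exact caseP h hk hn0 hn1 hL hlk hlo (by norm_num) (by norm_num) (by norm_num) (by norm_num)
      (by norm_num) (by norm_num) (by norm_num) (by norm_num) (by norm_num) (by norm_num) (by norm_num)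
  · exact caseP h hk hn0 hn1 hL hlk hlo (by norm_num) (by norm_num) (by norm_num) (by norm_num)
      (by norm_num) (by norm_num) (by norm_num) (by norm_num) (by norm_num) (by norm_num) (by norm_num)
  · exact caseP h hk hn0 hn1 hL hlk hlo (by norm_num) (by norm_num) (by norm_num) (by norm_num)
      (by norm_num) (by norm_num) (by norm_num) (by norm_num) (by norm_num) (by norm_num) (by norm_num)
  · exact caseP h hk hn0 hn1 hL hlk hlo (by norm_num) (by norm_num) (by norm_num) (by norm_num)
      (by norm_num) (by norm_num) (by norm_num) (by norm_num) (by norm_num) (by norm_num) (by norm_num)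
  · exact caseP h hk hn0 hn1 hL hlk hlo (by norm_num) (by norm_num) (by norm_num) (by norm_num)
      (by norm_num) (by norm_num) (by norm_num) (by norm_num) (by norm_num) (by norm_num) (by norm_num)
  · exact caseP h hk hn0 hn1 hL hlk hlo (by norm_num) (by norm_num) (by norm_num) (by norm_num)
      (by norm_num) (by norm_num) (by norm_num) (by norm_num) (by norm_num) (by norm_num) (by norm_num)
  · exact caseN h hk hn0 hn1 hL hlk hlo hhi (by norm_num) (by norm_num) (by norm_num) (by norm_num)
      (by norm_num) (by norm_num) (by norm_num) (by norm_num) (by norm_num) (by norm_num) (by norm_num)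

theorem r_C100a5_odd {k L lc lk w ν : ℝ} (h : UB3 k L lc lk w) (hk : 100 ≤ k)
    (hL : 0.928 + 1.66 * ν ≤ L) (hlk : lk ≤ 4.6052 + (k - 100) / 100) (hlo : -0.4308 ≤ lc) (hhi : lc ≤ 0) (hn0 : 0.05 ≤ ν)
    (hn1 : ν ≤ 0.15) :
    w + (-(1 / 3) * (k * L) + 0.0922 * k + 3 / 2 * L + 23 / 12 * lk + 0.1687 + 0.3111 * (k * ν)) ≤ -4.136 := by
  rcases h with h | h | h | h | h | h | h | h | h | h | h
  · exact caseN h hk hn0 hn1 hL hlk hlo hhi (by norm_num) (by norm_num) (by norm_num) (by norm_num)
      (by norm_num) (by norm_num) (by norm_num) (by norm_num) (by norm_num) (by norm_num) (by norm_num)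
  · exact caseP h hk hn0 hn1 hL hlk hlo (by norm_num) (by norm_num) (by norm_num) (by norm_num)
      (by norm_num) (by norm_num) (by norm_num) (by norm_num) (by norm_num) (by norm_num) (by norm_num)
  · exact caseP h hk hn0 hn1 hL hlk hlo (by norm_num) (by norm_num) (by norm_num) (by norm_num)
      (by norm_num) (by norm_num) (by norm_num) (by norm_num) (by norm_num) (by norm_num) (by norm_num)
  · exact caseP h hk hn0 hn1 hL hlk hlo (by norm_num) (by norm_num) (by norm_num) (by norm_num)
      (by norm_num) (by norm_num) (by norm_num) (by norm_num) (by norm_num) (by norm_num) (by norm_num)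
  · exact caseP h hk hn0 hn1 hL hlk hlo (by norm_num) (by norm_num) (by norm_num) (by norm_num)
      (by norm_num) (by norm_num) (by norm_num) (by norm_num) (by norm_num) (by norm_num) (by norm_num)
  · exact caseP h hk hn0 hn1 hL hlk hlo (by norm_num) (by norm_num) (by norm_num) (by norm_num)
      (by norm_num) (by norm_num) (by norm_num) (by norm_num) (by norm_num) (by norm_num) (by norm_num)
  · exact caseP h hk hn0 hn1 hL hlk hlo (by norm_num) (by norm_num) (by norm_num) (by norm_num)
      (by norm_num) (by norm_num) (by norm_num) (by norm_num) (by norm_num) (by norm_num) (by norm_num)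
  · exact caseP h hk hn0 hn1 hL hlk hlo (by norm_num) (by norm_num) (by norm_num) (by norm_num)
      (by norm_num) (by norm_num) (by norm_num) (by norm_num) (by norm_num) (by norm_num) (by norm_num)
  · exact caseP h hk hn0 hn1 hL hlk hlo (by norm_num) (by norm_num) (by norm_num) (by norm_num)
      (by norm_num) (by norm_num) (by norm_num) (by norm_num) (by norm_num) (by norm_num) (by norm_num)
  · exact caseP h hk hn0 hn1 hL hlk hlo (by norm_num) (by norm_num) (by norm_num) (by norm_num)
      (by norm_num) (by norm_num) (by norm_num) (by norm_num) (by norm_num) (by norm_num) (by norm_num)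
  · exact caseN h hk hn0 hn1 hL hlk hlo hhi (by norm_num) (by norm_num) (by norm_num) (by norm_num)
      (by norm_num) (by norm_num) (by norm_num) (by norm_num) (by norm_num) (by norm_num) (by norm_num)

end Pool.Agent.SignedQ.Far
end

section

/-! # FAR-1: the structure of `log (sigma * rho)` -/

namespace Pool.Agent.SignedQ.Far1

open Real Finset Pool.Agent.SignedQ.An Pool.Agent.SignedQ.Far
open MPcf17a0.S1F (NC y)

theorem log_num {s : ℝ} (hs : 0 < s) {m : ℕ} (hm : 1 ≤ m) (ψ : ℝ) :
    1 / 2 * log (2 * (cosh (m * s) - cos (m * ψ))) =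
      1 / 2 * log (2 * cosh (m * s)) + 1 / 2 * log (1 - y s m * cos (m * ψ)) := by
  have hc := cosh_pos (m * s)
  have h1 : 0 < 1 - y s m * cos (m * ψ) := by
    have := MPcf17a0.S1F.yc_lt hs hm ψ
    linarith
  rw [← mul_add, ← log_mul (by positivity) h1.ne']
  congr 2
  unfold MPcf17a0.S1F.y
  field_simp

theorem sum_Icc_eq_Ioc (f : ℕ → ℝ) (n k : ℕ) :
    ∑ j ∈ Icc 1 k, f (n + j) = ∑ m ∈ Ioc n (n + k), f m := by
  induction k with
  | zero => simp
  | succ k ih =>
    rw [← add_assoc, sum_Ioc_succ_top (by omega), ← ih, sum_Icc_succ_top (by omega)]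
    rfl

theorem num_NC {n k a : ℕ} (ha : Odd a) {t : ℝ} (ht : 0 < t) (θ : ℝ) :
    ∑ j ∈ Icc 1 k, 1 / 2 * log (2 * (cosh (((n : ℝ) + j) * (a * t)) -
        cos (((n : ℝ) + j) * (a * (π + θ))))) -
      ∑ j ∈ Icc 1 k, 1 / 2 * log (2 * (cosh (((n : ℝ) + j) * (a * t)) -
        cos (((n : ℝ) + j) * (a * (π + 0))))) = NC (a * t) (a * (π + θ)) n k / 2 := by
  have ha1 : (0:ℝ) < a := by exact_mod_cast ha.pos
  have hs : 0 < (a:ℝ) * t := by positivity
  have e1 : ∀ θ : ℝ, ∑ j ∈ Icc 1 k, 1 / 2 * log (2 * (cosh (((n : ℝ) + j) * (a * t)) -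
        cos (((n : ℝ) + j) * (a * (π + θ))))) =
      ∑ m ∈ Ioc n (n + k), 1 / 2 * log (2 * (cosh ((m:ℝ) * (a * t)) - cos ((m:ℝ) * (a * (π + θ))))) := by
    intro θ
    rw [← sum_Icc_eq_Ioc (fun m => 1 / 2 * log (2 * (cosh ((m:ℝ) * (a * t)) -
      cos ((m:ℝ) * (a * (π + θ)))))) n k]
    refine sum_congr rfl fun j _ => ?_
    push_cast
    rfl
  rw [e1, e1, ← sum_sub_distrib]
  unfold MPcf17a0.S1F.NC
  rw [sum_div]
  refine sum_congr rfl fun m hm => ?_
  rw [mem_Ioc] at hm
  rw [log_num hs (by omega), log_num hs (by omega)]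
  have e2 : cos ((m:ℝ) * (a * (π + 0))) = (-1) ^ m := by
    have : (m:ℝ) * (a * (π + 0)) = ((m * a : ℕ) : ℝ) * π := by push_cast; ring
    rw [this, cos_nat_mul_pi, mul_comm m a, pow_mul, ha.neg_one_pow]
  rw [e2]
  ring_nf

/-- **Structure.** -/
theorem log_rho {n k a : ℕ} (ha : Odd a) {t : ℝ} (ht : 0 < t) (θ : ℝ) :
    log (rho n k a t θ) ≤ NC (a * t) (a * (π + θ)) n k / 2 + D0x k t + UU k t θ := by
  have ha1 : 1 ≤ a := ha.pos
  have g0 : 0 < GG n k a t 0 := GG_pos ha1 ht 0
  have g1 : 0 < GG n k a t θ := GG_pos ha1 ht θ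
  have e1 : log (rho n k a t θ) = 1 / 2 * log (GG n k a t θ) - 1 / 2 * log (GG n k a t 0) := by
    unfold rho
    rw [log_sqrt (by positivity), log_div g1.ne' g0.ne']
    ring
  have h1 : (1:ℝ) < cosh t := one_lt_cosh.2 ht.ne'
  have h2 := neg_one_le_cos θ
  have e2 : log ((cosh t + cos θ) / (cosh t + 1)) =
      log ((cosh t + cos θ) / 2) - log ((cosh t + cos 0) / 2) := by
    rw [cos_zero, ← log_div (by linarith) (by linarith)]
    congr 1
    have : cosh t + 1 ≠ 0 := by linarith
    field_simp
  have hn := num_NC (n := n) (k := k) ha ht θ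
  have hd : ∀ j ∈ Icc 1 k, -(1 / 2 * log (2 * (cosh (j * t) - cos (j * (π + θ))))) ≤
      -(1 / 6 * log (2 * sinh (3 * (j * t)))) +
        ∑ l ∈ Icc 1 5, dd l (j * t) * cos (j * (l * (π + θ))) := by
    intro j hj
    rw [mem_Icc] at hj
    have hj0 : (0:ℝ) < j := by exact_mod_cast hj.1
    have h := den_factor (v := j * t) (by positivity) (j * (π + θ))
    refine h.trans (le_of_eq ?_)
    congr 1
    refine sum_congr rfl fun l _ => ?_
    congr 2
    ring
  have hs := sum_le_sum hd
  rw [sum_add_distrib, sum_comm, sum_neg_distrib, sum_neg_distrib] at hs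
  have e3 : ∑ j ∈ Icc 1 k, 1 / 2 * log (2 * (cosh (j * t) - cos (j * (π + 0)))) =
      ∑ j ∈ Icc 1 k, 1 / 2 * log (2 * (cosh (j * t) - cos (j * π))) := by
    rw [add_zero]
  rw [e1, half_log_GG ha1 ht θ, half_log_GG ha1 ht 0]
  unfold UU D0x
  rw [e2]
  linarith

theorem log_sigma {n k a : ℕ} (h : Even (n * k)) (hao : Odd a) (ha : 3 ≤ a) (hk : 26 ≤ k) {t : ℝ}
    (ht : 0 < t) (ht' : t ≤ 31 / 2000) (hσ : 0 < sigma n k a t) :
    log (sigma n k a t) ≤ 1 / 2 * log k + 1 / 2000 + log (1 / t) := by
  have hk' : (0:ℝ) < k := by have : 0 < k := by omega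
                             exact_mod_cast this
  have h1 := PIarc.sigma_le (n := n) h hao ha hk ht ht'
  have h2 : √(1001 / 1000 * k) * (tanh ((a * (n + k) : ℕ) * (t / 2)) / t) ≤
      √(1001 / 1000 * k) * (1 / t) := by
    refine mul_le_mul_of_nonneg_left ?_ (sqrt_nonneg _)
    exact div_le_div_of_nonneg_right (tanh_lt_one _).le ht.le
  have h3 := log_le_log hσ (h1.trans h2)
  rw [log_mul (by positivity) (by positivity), log_sqrt (by positivity),
    log_mul (by norm_num) hk'.ne'] at h3
  have h4 : log (1001 / 1000 : ℝ) ≤ 1 / 1000 := by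
    have := log_le_sub_one_of_pos (x := (1001 / 1000 : ℝ)) (by norm_num)
    norm_num at this ⊢
    linarith
  linarith

theorem log_small : log (0.016 : ℝ) ≥ -(41352 / 10000) := by
  rw [ge_iff_le, le_log_iff_exp_le (by norm_num), exp_neg, inv_le_comm₀ (exp_pos _) (by norm_num)]
  have h1 : exp (41352 / 10000) = exp (41352 / 50000) ^ 5 := by
    rw [← exp_nat_mul]; norm_num
  rw [h1]
  have h2 : (2.28654 : ℝ) ≤ exp (41352 / 50000) := by
    have := sum_le_exp_of_nonneg (x := (41352 / 50000 : ℝ)) (by norm_num) 10
    refine le_trans ?_ this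
    norm_num [sum_range_succ, Nat.factorial]
  refine le_trans ?_ (pow_le_pow_left₀ (by norm_num) h2 5)
  norm_num

/-- The goal in logarithmic form. -/
theorem sr_le {n k a : ℕ} (hP : Par n k a) {t θ : ℝ} (hD : DOM k t)
    (hB : 1 / 2 * log k + 1 / 2000 + log (1 / t) + NC (a * t) (a * (π + θ)) n k / 2 + D0x k t +
      UU k t θ ≤ -(41352 / 10000)) : sigma n k a t * rho n k a t θ ≤ 0.016 := by
  obtain ⟨hpar, hao, ha, -⟩ := hP
  obtain ⟨hk, ht, ht', -, -⟩ := hD
  have hr : 0 < rho n k a t θ := by
    unfold rho
    exact sqrt_pos.2 (div_pos (GG_pos hao.pos ht θ) (GG_pos hao.pos ht 0))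
  rcases (sqrt_nonneg (sig2 n k a t)).eq_or_lt with h0 | h0
  · have : sigma n k a t = 0 := h0.symm
    rw [this, zero_mul]; norm_num
  · have hσ : 0 < sigma n k a t := h0
    have h1 := log_sigma hpar hao ha hk ht ht' hσ
    have h2 := log_rho (n := n) (k := k) hao ht θ
    have h3 : log (sigma n k a t * rho n k a t θ) ≤ log 0.016 := by
      rw [log_mul hσ.ne' hr.ne']
      have := log_small
      linarith
    exact (log_le_log_iff (by positivity) (by norm_num)).1 h3

end Pool.Agent.SignedQ.Far1
end
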