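import Pool.Agent.Lib.MP_cf17a0_co.Mg.G005
import Pool.Agent.Lib.MP_cf17a0_co.Mg.G012
import Pool.Agent.Lib.MP_cf17a0_co.Mg.G016

section

/-! # FAR arcs: the final inequality, regime A (generated) -/

namespace Pool.Agent.SignedQ.Far

theorem r_A26_even {k L lc lk w : ℝ} (h : UB10 k L lc lk w) (hk : 26 ≤ k)
    (hL : 3.028 ≤ L) (hlk : lk ≤ 3.2582 + (k - 26) / 26) (hlo : -0.2232 ≤ lc) (hhi : lc ≤ 0) :
    w + (-(1 / 3) * (k * L) + 0.2079 * k + 1 * L + 23 / 12 * lk + -0.0858) ≤ -4.136 := by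
  have key : ∀ x : ℝ, w + (-(1 / 3) * (k * L) + 0.2079 * k + 1 * L + 23 / 12 * lk + -0.0858 +
      0 * (k * 0)) ≤ -4.136 → w + (-(1 / 3) * (k * L) + 0.2079 * k + 1 * L + 23 / 12 * lk + -0.0858) ≤ -4.136 := by
    intro _ hx
    linarith
  have hL' : 3.028 + 0 * (0 : ℝ) ≤ L := by linarith
  refine key 0 ?_
  have hz0 : (0 : ℝ) ≤ 0 := le_rfl
  have hz1 : (0 : ℝ) ≤ 1 := zero_le_one
  rcases h with h | h | h | h | h | h | h | h | h | h | h
  · exact caseN h hk hz0 hz1 hL' hlk hlo hhi (by norm_num) (by norm_num) (by norm_num) (by norm_num)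
      (by norm_num) (by norm_num) (by norm_num) (by norm_num) (by norm_num) (by norm_num) (by norm_num)
  · exact caseP h hk hz0 hz1 hL' hlk hlo (by norm_num) (by norm_num) (by norm_num) (by norm_num)
      (by norm_num) (by norm_num) (by norm_num) (by norm_num) (by norm_num) (by norm_num) (by norm_num)
  · exact caseP h hk hz0 hz1 hL' hlk hlo (by norm_num) (by norm_num) (by norm_num) (by norm_num)
      (by norm_num) (by norm_num) (by norm_num) (by norm_num) (by norm_num) (by norm_num) (by norm_num)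
  · exact caseP h hk hz0 hz1 hL' hlk hlo (by norm_num) (by norm_num) (by norm_num) (by norm_num)
      (by norm_num) (by norm_num) (by norm_num) (by norm_num) (by norm_num) (by norm_num) (by norm_num)
  · exact caseP h hk hz0 hz1 hL' hlk hlo (by norm_num) (by norm_num) (by norm_num) (by norm_num)
      (by norm_num) (by norm_num) (by norm_num) (by norm_num) (by norm_num) (by norm_num) (by norm_num)
  · exact caseP h hk hz0 hz1 hL' hlk hlo (by norm_num) (by norm_num) (by norm_num) (by norm_num)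
      (by norm_num) (by norm_num) (by norm_num) (by norm_num) (by norm_num) (by norm_num) (by norm_num)
  · exact caseP h hk hz0 hz1 hL' hlk hlo (by norm_num) (by norm_num) (by norm_num) (by norm_num)
      (by norm_num) (by norm_num) (by norm_num) (by norm_num) (by norm_num) (by norm_num) (by norm_num)
  · exact caseP h hk hz0 hz1 hL' hlk hlo (by norm_num) (by norm_num) (by norm_num) (by norm_num)
      (by norm_num) (by norm_num) (by norm_num) (by norm_num) (by norm_num) (by norm_num) (by norm_num)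
  · exact caseP h hk hz0 hz1 hL' hlk hlo (by norm_num) (by norm_num) (by norm_num) (by norm_num)
      (by norm_num) (by norm_num) (by norm_num) (by norm_num) (by norm_num) (by norm_num) (by norm_num)
  · exact caseP h hk hz0 hz1 hL' hlk hlo (by norm_num) (by norm_num) (by norm_num) (by norm_num)
      (by norm_num) (by norm_num) (by norm_num) (by norm_num) (by norm_num) (by norm_num) (by norm_num)
  · exact caseN h hk hz0 hz1 hL' hlk hlo hhi (by norm_num) (by norm_num) (by norm_num) (by norm_num)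
      (by norm_num) (by norm_num) (by norm_num) (by norm_num) (by norm_num) (by norm_num) (by norm_num)

theorem r_A26_odd {k L lc lk w : ℝ} (h : UB10 k L lc lk w) (hk : 26 ≤ k)
    (hL : 3.028 ≤ L) (hlk : lk ≤ 3.2582 + (k - 26) / 26) (hlo : -0.2232 ≤ lc) (hhi : lc ≤ 0) :
    w + (-(1 / 3) * (k * L) + 0.2079 * k + 3 / 2 * L + 23 / 12 * lk + -0.3172) ≤ -4.136 := by
  have key : ∀ x : ℝ, w + (-(1 / 3) * (k * L) + 0.2079 * k + 3 / 2 * L + 23 / 12 * lk + -0.3172 +
      0 * (k * 0)) ≤ -4.136 → w + (-(1 / 3) * (k * L) + 0.2079 * k + 3 / 2 * L + 23 / 12 * lk + -0.3172) ≤ -4.136 := by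
    intro _ hx
    linarith
  have hL' : 3.028 + 0 * (0 : ℝ) ≤ L := by linarith
  refine key 0 ?_
  have hz0 : (0 : ℝ) ≤ 0 := le_rfl
  have hz1 : (0 : ℝ) ≤ 1 := zero_le_one
  rcases h with h | h | h | h | h | h | h | h | h | h | h
  · exact caseN h hk hz0 hz1 hL' hlk hlo hhi (by norm_num) (by norm_num) (by norm_num) (by norm_num)
      (by norm_num) (by norm_num) (by norm_num) (by norm_num) (by norm_num) (by norm_num) (by norm_num)
  · exact caseP h hk hz0 hz1 hL' hlk hlo (by norm_num) (by norm_num) (by norm_num) (by norm_num)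
      (by norm_num) (by norm_num) (by norm_num) (by norm_num) (by norm_num) (by norm_num) (by norm_num)
  · exact caseP h hk hz0 hz1 hL' hlk hlo (by norm_num) (by norm_num) (by norm_num) (by norm_num)
      (by norm_num) (by norm_num) (by norm_num) (by norm_num) (by norm_num) (by norm_num) (by norm_num)
  · exact caseP h hk hz0 hz1 hL' hlk hlo (by norm_num) (by norm_num) (by norm_num) (by norm_num)
      (by norm_num) (by norm_num) (by norm_num) (by norm_num) (by norm_num) (by norm_num) (by norm_num)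
  · exact caseP h hk hz0 hz1 hL' hlk hlo (by norm_num) (by norm_num) (by norm_num) (by norm_num)
      (by norm_num) (by norm_num) (by norm_num) (by norm_num) (by norm_num) (by norm_num) (by norm_num)
  · exact caseP h hk hz0 hz1 hL' hlk hlo (by norm_num) (by norm_num) (by norm_num) (by norm_num)
      (by norm_num) (by norm_num) (by norm_num) (by norm_num) (by norm_num) (by norm_num) (by norm_num)
  · exact caseP h hk hz0 hz1 hL' hlk hlo (by norm_num) (by norm_num) (by norm_num) (by norm_num)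
      (by norm_num) (by norm_num) (by norm_num) (by norm_num) (by norm_num) (by norm_num) (by norm_num)
  · exact caseP h hk hz0 hz1 hL' hlk hlo (by norm_num) (by norm_num) (by norm_num) (by norm_num)
      (by norm_num) (by norm_num) (by norm_num) (by norm_num) (by norm_num) (by norm_num) (by norm_num)
  · exact caseP h hk hz0 hz1 hL' hlk hlo (by norm_num) (by norm_num) (by norm_num) (by norm_num)
      (by norm_num) (by norm_num) (by norm_num) (by norm_num) (by norm_num) (by norm_num) (by norm_num)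
  · exact caseP h hk hz0 hz1 hL' hlk hlo (by norm_num) (by norm_num) (by norm_num) (by norm_num)
      (by norm_num) (by norm_num) (by norm_num) (by norm_num) (by norm_num) (by norm_num) (by norm_num)
  · exact caseN h hk hz0 hz1 hL' hlk hlo hhi (by norm_num) (by norm_num) (by norm_num) (by norm_num)
      (by norm_num) (by norm_num) (by norm_num) (by norm_num) (by norm_num) (by norm_num) (by norm_num)

theorem r_A30_even {k L lc lk w : ℝ} (h : UB10 k L lc lk w) (hk : 30 ≤ k)
    (hL : 2.59 ≤ L) (hlk : lk ≤ 3.4013 + (k - 30) / 30) (hlo : -0.2232 ≤ lc) (hhi : lc ≤ 0) :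
    w + (-(1 / 3) * (k * L) + 0.2079 * k + 1 * L + 23 / 12 * lk + -0.0858) ≤ -4.136 := by
  have key : ∀ x : ℝ, w + (-(1 / 3) * (k * L) + 0.2079 * k + 1 * L + 23 / 12 * lk + -0.0858 +
      0 * (k * 0)) ≤ -4.136 → w + (-(1 / 3) * (k * L) + 0.2079 * k + 1 * L + 23 / 12 * lk + -0.0858) ≤ -4.136 := by
    intro _ hx
    linarith
  have hL' : 2.59 + 0 * (0 : ℝ) ≤ L := by linarith
  refine key 0 ?_
  have hz0 : (0 : ℝ) ≤ 0 := le_rfl
  have hz1 : (0 : ℝ) ≤ 1 := zero_le_one
  rcases h with h | h | h | h | h | h | h | h | h | h | h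
  · exact caseN h hk hz0 hz1 hL' hlk hlo hhi (by norm_num) (by norm_num) (by norm_num) (by norm_num)
      (by norm_num) (by norm_num) (by norm_num) (by norm_num) (by norm_num) (by norm_num) (by norm_num)
  · exact caseP h hk hz0 hz1 hL' hlk hlo (by norm_num) (by norm_num) (by norm_num) (by norm_num)
      (by norm_num) (by norm_num) (by norm_num) (by norm_num) (by norm_num) (by norm_num) (by norm_num)
  · exact caseP h hk hz0 hz1 hL' hlk hlo (by norm_num) (by norm_num) (by norm_num) (by norm_num)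
      (by norm_num) (by norm_num) (by norm_num) (by norm_num) (by norm_num) (by norm_num) (by norm_num)
  · exact caseP h hk hz0 hz1 hL' hlk hlo (by norm_num) (by norm_num) (by norm_num) (by norm_num)
      (by norm_num) (by norm_num) (by norm_num) (by norm_num) (by norm_num) (by norm_num) (by norm_num)
  · exact caseP h hk hz0 hz1 hL' hlk hlo (by norm_num) (by norm_num) (by norm_num) (by norm_num)
      (by norm_num) (by norm_num) (by norm_num) (by norm_num) (by norm_num) (by norm_num) (by norm_num)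
  · exact caseP h hk hz0 hz1 hL' hlk hlo (by norm_num) (by norm_num) (by norm_num) (by norm_num)
      (by norm_num) (by norm_num) (by norm_num) (by norm_num) (by norm_num) (by norm_num) (by norm_num)
  · exact caseP h hk hz0 hz1 hL' hlk hlo (by norm_num) (by norm_num) (by norm_num) (by norm_num)
      (by norm_num) (by norm_num) (by norm_num) (by norm_num) (by norm_num) (by norm_num) (by norm_num)
  · exact caseP h hk hz0 hz1 hL' hlk hlo (by norm_num) (by norm_num) (by norm_num) (by norm_num)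
      (by norm_num) (by norm_num) (by norm_num) (by norm_num) (by norm_num) (by norm_num) (by norm_num)
  · exact caseP h hk hz0 hz1 hL' hlk hlo (by norm_num) (by norm_num) (by norm_num) (by norm_num)
      (by norm_num) (by norm_num) (by norm_num) (by norm_num) (by norm_num) (by norm_num) (by norm_num)
  · exact caseP h hk hz0 hz1 hL' hlk hlo (by norm_num) (by norm_num) (by norm_num) (by norm_num)
      (by norm_num) (by norm_num) (by norm_num) (by norm_num) (by norm_num) (by norm_num) (by norm_num)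
  · exact caseN h hk hz0 hz1 hL' hlk hlo hhi (by norm_num) (by norm_num) (by norm_num) (by norm_num)
      (by norm_num) (by norm_num) (by norm_num) (by norm_num) (by norm_num) (by norm_num) (by norm_num)

theorem r_A30_odd {k L lc lk w : ℝ} (h : UB10 k L lc lk w) (hk : 30 ≤ k)
    (hL : 2.59 ≤ L) (hlk : lk ≤ 3.4013 + (k - 30) / 30) (hlo : -0.2232 ≤ lc) (hhi : lc ≤ 0) :
    w + (-(1 / 3) * (k * L) + 0.2079 * k + 3 / 2 * L + 23 / 12 * lk + -0.3172) ≤ -4.136 := by
  have key : ∀ x : ℝ, w + (-(1 / 3) * (k * L) + 0.2079 * k + 3 / 2 * L + 23 / 12 * lk + -0.3172 +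
      0 * (k * 0)) ≤ -4.136 → w + (-(1 / 3) * (k * L) + 0.2079 * k + 3 / 2 * L + 23 / 12 * lk + -0.3172) ≤ -4.136 := by
    intro _ hx
    linarith
  have hL' : 2.59 + 0 * (0 : ℝ) ≤ L := by linarith
  refine key 0 ?_
  have hz0 : (0 : ℝ) ≤ 0 := le_rfl
  have hz1 : (0 : ℝ) ≤ 1 := zero_le_one
  rcases h with h | h | h | h | h | h | h | h | h | h | h
  · exact caseN h hk hz0 hz1 hL' hlk hlo hhi (by norm_num) (by norm_num) (by norm_num) (by norm_num)
      (by norm_num) (by norm_num) (by norm_num) (by norm_num) (by norm_num) (by norm_num) (by norm_num)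
  · exact caseP h hk hz0 hz1 hL' hlk hlo (by norm_num) (by norm_num) (by norm_num) (by norm_num)
      (by norm_num) (by norm_num) (by norm_num) (by norm_num) (by norm_num) (by norm_num) (by norm_num)
  · exact caseP h hk hz0 hz1 hL' hlk hlo (by norm_num) (by norm_num) (by norm_num) (by norm_num)
      (by norm_num) (by norm_num) (by norm_num) (by norm_num) (by norm_num) (by norm_num) (by norm_num)
  · exact caseP h hk hz0 hz1 hL' hlk hlo (by norm_num) (by norm_num) (by norm_num) (by norm_num)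
      (by norm_num) (by norm_num) (by norm_num) (by norm_num) (by norm_num) (by norm_num) (by norm_num)
  · exact caseP h hk hz0 hz1 hL' hlk hlo (by norm_num) (by norm_num) (by norm_num) (by norm_num)
      (by norm_num) (by norm_num) (by norm_num) (by norm_num) (by norm_num) (by norm_num) (by norm_num)
  · exact caseP h hk hz0 hz1 hL' hlk hlo (by norm_num) (by norm_num) (by norm_num) (by norm_num)
      (by norm_num) (by norm_num) (by norm_num) (by norm_num) (by norm_num) (by norm_num) (by norm_num)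
  · exact caseP h hk hz0 hz1 hL' hlk hlo (by norm_num) (by norm_num) (by norm_num) (by norm_num)
      (by norm_num) (by norm_num) (by norm_num) (by norm_num) (by norm_num) (by norm_num) (by norm_num)
  · exact caseP h hk hz0 hz1 hL' hlk hlo (by norm_num) (by norm_num) (by norm_num) (by norm_num)
      (by norm_num) (by norm_num) (by norm_num) (by norm_num) (by norm_num) (by norm_num) (by norm_num)
  · exact caseP h hk hz0 hz1 hL' hlk hlo (by norm_num) (by norm_num) (by norm_num) (by norm_num)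
      (by norm_num) (by norm_num) (by norm_num) (by norm_num) (by norm_num) (by norm_num) (by norm_num)
  · exact caseP h hk hz0 hz1 hL' hlk hlo (by norm_num) (by norm_num) (by norm_num) (by norm_num)
      (by norm_num) (by norm_num) (by norm_num) (by norm_num) (by norm_num) (by norm_num) (by norm_num)
  · exact caseN h hk hz0 hz1 hL' hlk hlo hhi (by norm_num) (by norm_num) (by norm_num) (by norm_num)
      (by norm_num) (by norm_num) (by norm_num) (by norm_num) (by norm_num) (by norm_num) (by norm_num)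

theorem r_A60_even {k L lc lk w : ℝ} (h : UB3 k L lc lk w) (hk : 60 ≤ k)
    (hL : 1.673 ≤ L) (hlk : lk ≤ 4.0944 + (k - 60) / 60) (hlo : -0.2232 ≤ lc) (hhi : lc ≤ 0) :
    w + (-(1 / 3) * (k * L) + 0.2079 * k + 1 * L + 23 / 12 * lk + -0.0858) ≤ -4.136 := by
  have key : ∀ x : ℝ, w + (-(1 / 3) * (k * L) + 0.2079 * k + 1 * L + 23 / 12 * lk + -0.0858 +
      0 * (k * 0)) ≤ -4.136 → w + (-(1 / 3) * (k * L) + 0.2079 * k + 1 * L + 23 / 12 * lk + -0.0858) ≤ -4.136 := by
    intro _ hx
    linarith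
  have hL' : 1.673 + 0 * (0 : ℝ) ≤ L := by linarith
  refine key 0 ?_
  have hz0 : (0 : ℝ) ≤ 0 := le_rfl
  have hz1 : (0 : ℝ) ≤ 1 := zero_le_one
  rcases h with h | h | h | h | h | h | h | h | h | h | h
  · exact caseN h hk hz0 hz1 hL' hlk hlo hhi (by norm_num) (by norm_num) (by norm_num) (by norm_num)
      (by norm_num) (by norm_num) (by norm_num) (by norm_num) (by norm_num) (by norm_num) (by norm_num)
  · exact caseP h hk hz0 hz1 hL' hlk hlo (by norm_num) (by norm_num) (by norm_num) (by norm_num)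
      (by norm_num) (by norm_num) (by norm_num) (by norm_num) (by norm_num) (by norm_num) (by norm_num)
  · exact caseP h hk hz0 hz1 hL' hlk hlo (by norm_num) (by norm_num) (by norm_num) (by norm_num)
      (by norm_num) (by norm_num) (by norm_num) (by norm_num) (by norm_num) (by norm_num) (by norm_num)
  · exact caseP h hk hz0 hz1 hL' hlk hlo (by norm_num) (by norm_num) (by norm_num) (by norm_num)
      (by norm_num) (by norm_num) (by norm_num) (by norm_num) (by norm_num) (by norm_num) (by norm_num)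
  · exact caseP h hk hz0 hz1 hL' hlk hlo (by norm_num) (by norm_num) (by norm_num) (by norm_num)
      (by norm_num) (by norm_num) (by norm_num) (by norm_num) (by norm_num) (by norm_num) (by norm_num)
  · exact caseP h hk hz0 hz1 hL' hlk hlo (by norm_num) (by norm_num) (by norm_num) (by norm_num)
      (by norm_num) (by norm_num) (by norm_num) (by norm_num) (by norm_num) (by norm_num) (by norm_num)
  · exact caseP h hk hz0 hz1 hL' hlk hlo (by norm_num) (by norm_num) (by norm_num) (by norm_num)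
      (by norm_num) (by norm_num) (by norm_num) (by norm_num) (by norm_num) (by norm_num) (by norm_num)
  · exact caseP h hk hz0 hz1 hL' hlk hlo (by norm_num) (by norm_num) (by norm_num) (by norm_num)
      (by norm_num) (by norm_num) (by norm_num) (by norm_num) (by norm_num) (by norm_num) (by norm_num)
  · exact caseP h hk hz0 hz1 hL' hlk hlo (by norm_num) (by norm_num) (by norm_num) (by norm_num)
      (by norm_num) (by norm_num) (by norm_num) (by norm_num) (by norm_num) (by norm_num) (by norm_num)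
  · exact caseP h hk hz0 hz1 hL' hlk hlo (by norm_num) (by norm_num) (by norm_num) (by norm_num)
      (by norm_num) (by norm_num) (by norm_num) (by norm_num) (by norm_num) (by norm_num) (by norm_num)
  · exact caseN h hk hz0 hz1 hL' hlk hlo hhi (by norm_num) (by norm_num) (by norm_num) (by norm_num)
      (by norm_num) (by norm_num) (by norm_num) (by norm_num) (by norm_num) (by norm_num) (by norm_num)

theorem r_A60_odd {k L lc lk w : ℝ} (h : UB3 k L lc lk w) (hk : 60 ≤ k)
    (hL : 1.673 ≤ L) (hlk : lk ≤ 4.0944 + (k - 60) / 60) (hlo : -0.2232 ≤ lc) (hhi : lc ≤ 0) :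
    w + (-(1 / 3) * (k * L) + 0.2079 * k + 3 / 2 * L + 23 / 12 * lk + -0.3172) ≤ -4.136 := by
  have key : ∀ x : ℝ, w + (-(1 / 3) * (k * L) + 0.2079 * k + 3 / 2 * L + 23 / 12 * lk + -0.3172 +
      0 * (k * 0)) ≤ -4.136 → w + (-(1 / 3) * (k * L) + 0.2079 * k + 3 / 2 * L + 23 / 12 * lk + -0.3172) ≤ -4.136 := by
    intro _ hx
    linarith
  have hL' : 1.673 + 0 * (0 : ℝ) ≤ L := by linarith
  refine key 0 ?_
  have hz0 : (0 : ℝ) ≤ 0 := le_rfl
  have hz1 : (0 : ℝ) ≤ 1 := zero_le_one
  rcases h with h | h | h | h | h | h | h | h | h | h | h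
  · exact caseN h hk hz0 hz1 hL' hlk hlo hhi (by norm_num) (by norm_num) (by norm_num) (by norm_num)
      (by norm_num) (by norm_num) (by norm_num) (by norm_num) (by norm_num) (by norm_num) (by norm_num)
  · exact caseP h hk hz0 hz1 hL' hlk hlo (by norm_num) (by norm_num) (by norm_num) (by norm_num)
      (by norm_num) (by norm_num) (by norm_num) (by norm_num) (by norm_num) (by norm_num) (by norm_num)
  · exact caseP h hk hz0 hz1 hL' hlk hlo (by norm_num) (by norm_num) (by norm_num) (by norm_num)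
      (by norm_num) (by norm_num) (by norm_num) (by norm_num) (by norm_num) (by norm_num) (by norm_num)
  · exact caseP h hk hz0 hz1 hL' hlk hlo (by norm_num) (by norm_num) (by norm_num) (by norm_num)
      (by norm_num) (by norm_num) (by norm_num) (by norm_num) (by norm_num) (by norm_num) (by norm_num)
  · exact caseP h hk hz0 hz1 hL' hlk hlo (by norm_num) (by norm_num) (by norm_num) (by norm_num)
      (by norm_num) (by norm_num) (by norm_num) (by norm_num) (by norm_num) (by norm_num) (by norm_num)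
  · exact caseP h hk hz0 hz1 hL' hlk hlo (by norm_num) (by norm_num) (by norm_num) (by norm_num)
      (by norm_num) (by norm_num) (by norm_num) (by norm_num) (by norm_num) (by norm_num) (by norm_num)
  · exact caseP h hk hz0 hz1 hL' hlk hlo (by norm_num) (by norm_num) (by norm_num) (by norm_num)
      (by norm_num) (by norm_num) (by norm_num) (by norm_num) (by norm_num) (by norm_num) (by norm_num)
  · exact caseP h hk hz0 hz1 hL' hlk hlo (by norm_num) (by norm_num) (by norm_num) (by norm_num)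
      (by norm_num) (by norm_num) (by norm_num) (by norm_num) (by norm_num) (by norm_num) (by norm_num)
  · exact caseP h hk hz0 hz1 hL' hlk hlo (by norm_num) (by norm_num) (by norm_num) (by norm_num)
      (by norm_num) (by norm_num) (by norm_num) (by norm_num) (by norm_num) (by norm_num) (by norm_num)
  · exact caseP h hk hz0 hz1 hL' hlk hlo (by norm_num) (by norm_num) (by norm_num) (by norm_num)
      (by norm_num) (by norm_num) (by norm_num) (by norm_num) (by norm_num) (by norm_num) (by norm_num)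
  · exact caseN h hk hz0 hz1 hL' hlk hlo hhi (by norm_num) (by norm_num) (by norm_num) (by norm_num)
      (by norm_num) (by norm_num) (by norm_num) (by norm_num) (by norm_num) (by norm_num) (by norm_num)

theorem r_A100a3_even {k L lc lk w : ℝ} (h : UB3 k L lc lk w) (hk : 100 ≤ k)
    (hL : 1.252 ≤ L) (hlk : lk ≤ 4.6052 + (k - 100) / 100) (hlo : -0.2232 ≤ lc) (hhi : lc ≤ 0) :
    w + (-(1 / 3) * (k * L) + 0.2015 * k + 1 * L + 23 / 12 * lk + -0.0858) ≤ -4.136 := by
  have key : ∀ x : ℝ, w + (-(1 / 3) * (k * L) + 0.2015 * k + 1 * L + 23 / 12 * lk + -0.0858 +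
      0 * (k * 0)) ≤ -4.136 → w + (-(1 / 3) * (k * L) + 0.2015 * k + 1 * L + 23 / 12 * lk + -0.0858) ≤ -4.136 := by
    intro _ hx
    linarith
  have hL' : 1.252 + 0 * (0 : ℝ) ≤ L := by linarith
  refine key 0 ?_
  have hz0 : (0 : ℝ) ≤ 0 := le_rfl
  have hz1 : (0 : ℝ) ≤ 1 := zero_le_one
  rcases h with h | h | h | h | h | h | h | h | h | h | h
  · exact caseN h hk hz0 hz1 hL' hlk hlo hhi (by norm_num) (by norm_num) (by norm_num) (by norm_num)
      (by norm_num) (by norm_num) (by norm_num) (by norm_num) (by norm_num) (by norm_num) (by norm_num)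
  · exact caseP h hk hz0 hz1 hL' hlk hlo (by norm_num) (by norm_num) (by norm_num) (by norm_num)
      (by norm_num) (by norm_num) (by norm_num) (by norm_num) (by norm_num) (by norm_num) (by norm_num)
  · exact caseP h hk hz0 hz1 hL' hlk hlo (by norm_num) (by norm_num) (by norm_num) (by norm_num)
      (by norm_num) (by norm_num) (by norm_num) (by norm_num) (by norm_num) (by norm_num) (by norm_num)
  · exact caseP h hk hz0 hz1 hL' hlk hlo (by norm_num) (by norm_num) (by norm_num) (by norm_num)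
      (by norm_num) (by norm_num) (by norm_num) (by norm_num) (by norm_num) (by norm_num) (by norm_num)
  · exact caseP h hk hz0 hz1 hL' hlk hlo (by norm_num) (by norm_num) (by norm_num) (by norm_num)
      (by norm_num) (by norm_num) (by norm_num) (by norm_num) (by norm_num) (by norm_num) (by norm_num)
  · exact caseP h hk hz0 hz1 hL' hlk hlo (by norm_num) (by norm_num) (by norm_num) (by norm_num)
      (by norm_num) (by norm_num) (by norm_num) (by norm_num) (by norm_num) (by norm_num) (by norm_num)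
  · exact caseP h hk hz0 hz1 hL' hlk hlo (by norm_num) (by norm_num) (by norm_num) (by norm_num)
      (by norm_num) (by norm_num) (by norm_num) (by norm_num) (by norm_num) (by norm_num) (by norm_num)
  · exact caseP h hk hz0 hz1 hL' hlk hlo (by norm_num) (by norm_num) (by norm_num) (by norm_num)
      (by norm_num) (by norm_num) (by norm_num) (by norm_num) (by norm_num) (by norm_num) (by norm_num)
  · exact caseP h hk hz0 hz1 hL' hlk hlo (by norm_num) (by norm_num) (by norm_num) (by norm_num)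
      (by norm_num) (by norm_num) (by norm_num) (by norm_num) (by norm_num) (by norm_num) (by norm_num)
  · exact caseP h hk hz0 hz1 hL' hlk hlo (by norm_num) (by norm_num) (by norm_num) (by norm_num)
      (by norm_num) (by norm_num) (by norm_num) (by norm_num) (by norm_num) (by norm_num) (by norm_num)
  · exact caseN h hk hz0 hz1 hL' hlk hlo hhi (by norm_num) (by norm_num) (by norm_num) (by norm_num)
      (by norm_num) (by norm_num) (by norm_num) (by norm_num) (by norm_num) (by norm_num) (by norm_num)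

theorem r_A100a3_odd {k L lc lk w : ℝ} (h : UB3 k L lc lk w) (hk : 100 ≤ k)
    (hL : 1.252 ≤ L) (hlk : lk ≤ 4.6052 + (k - 100) / 100) (hlo : -0.2232 ≤ lc) (hhi : lc ≤ 0) :
    w + (-(1 / 3) * (k * L) + 0.2015 * k + 3 / 2 * L + 23 / 12 * lk + -0.3172) ≤ -4.136 := by
  have key : ∀ x : ℝ, w + (-(1 / 3) * (k * L) + 0.2015 * k + 3 / 2 * L + 23 / 12 * lk + -0.3172 +
      0 * (k * 0)) ≤ -4.136 → w + (-(1 / 3) * (k * L) + 0.2015 * k + 3 / 2 * L + 23 / 12 * lk + -0.3172) ≤ -4.136 := by
    intro _ hx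
    linarith
  have hL' : 1.252 + 0 * (0 : ℝ) ≤ L := by linarith
  refine key 0 ?_
  have hz0 : (0 : ℝ) ≤ 0 := le_rfl
  have hz1 : (0 : ℝ) ≤ 1 := zero_le_one
  rcases h with h | h | h | h | h | h | h | h | h | h | h
  · exact caseN h hk hz0 hz1 hL' hlk hlo hhi (by norm_num) (by norm_num) (by norm_num) (by norm_num)
      (by norm_num) (by norm_num) (by norm_num) (by norm_num) (by norm_num) (by norm_num) (by norm_num)
  · exact caseP h hk hz0 hz1 hL' hlk hlo (by norm_num) (by norm_num) (by norm_num) (by norm_num)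
      (by norm_num) (by norm_num) (by norm_num) (by norm_num) (by norm_num) (by norm_num) (by norm_num)
  · exact caseP h hk hz0 hz1 hL' hlk hlo (by norm_num) (by norm_num) (by norm_num) (by norm_num)
      (by norm_num) (by norm_num) (by norm_num) (by norm_num) (by norm_num) (by norm_num) (by norm_num)
  · exact caseP h hk hz0 hz1 hL' hlk hlo (by norm_num) (by norm_num) (by norm_num) (by norm_num)
      (by norm_num) (by norm_num) (by norm_num) (by norm_num) (by norm_num) (by norm_num) (by norm_num)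
  · exact caseP h hk hz0 hz1 hL' hlk hlo (by norm_num) (by norm_num) (by norm_num) (by norm_num)
      (by norm_num) (by norm_num) (by norm_num) (by norm_num) (by norm_num) (by norm_num) (by norm_num)
  · exact caseP h hk hz0 hz1 hL' hlk hlo (by norm_num) (by norm_num) (by norm_num) (by norm_num)
      (by norm_num) (by norm_num) (by norm_num) (by norm_num) (by norm_num) (by norm_num) (by norm_num)
  · exact caseP h hk hz0 hz1 hL' hlk hlo (by norm_num) (by norm_num) (by norm_num) (by norm_num)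
      (by norm_num) (by norm_num) (by norm_num) (by norm_num) (by norm_num) (by norm_num) (by norm_num)
  · exact caseP h hk hz0 hz1 hL' hlk hlo (by norm_num) (by norm_num) (by norm_num) (by norm_num)
      (by norm_num) (by norm_num) (by norm_num) (by norm_num) (by norm_num) (by norm_num) (by norm_num)
  · exact caseP h hk hz0 hz1 hL' hlk hlo (by norm_num) (by norm_num) (by norm_num) (by norm_num)
      (by norm_num) (by norm_num) (by norm_num) (by norm_num) (by norm_num) (by norm_num) (by norm_num)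
  · exact caseP h hk hz0 hz1 hL' hlk hlo (by norm_num) (by norm_num) (by norm_num) (by norm_num)
      (by norm_num) (by norm_num) (by norm_num) (by norm_num) (by norm_num) (by norm_num) (by norm_num)
  · exact caseN h hk hz0 hz1 hL' hlk hlo hhi (by norm_num) (by norm_num) (by norm_num) (by norm_num)
      (by norm_num) (by norm_num) (by norm_num) (by norm_num) (by norm_num) (by norm_num) (by norm_num)

theorem r_A100_even {k L lc lk w : ℝ} (h : UB3 k L lc lk w) (hk : 100 ≤ k)
    (hL : 1.609 ≤ L) (hlk : lk ≤ 4.6052 + (k - 100) / 100) (hlo : -0.2232 ≤ lc) (hhi : lc ≤ 0) :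
    w + (-(1 / 3) * (k * L) + 0.2079 * k + 1 * L + 23 / 12 * lk + -0.0858) ≤ -4.136 := by
  have key : ∀ x : ℝ, w + (-(1 / 3) * (k * L) + 0.2079 * k + 1 * L + 23 / 12 * lk + -0.0858 +
      0 * (k * 0)) ≤ -4.136 → w + (-(1 / 3) * (k * L) + 0.2079 * k + 1 * L + 23 / 12 * lk + -0.0858) ≤ -4.136 := by
    intro _ hx
    linarith
  have hL' : 1.609 + 0 * (0 : ℝ) ≤ L := by linarith
  refine key 0 ?_
  have hz0 : (0 : ℝ) ≤ 0 := le_rfl
  have hz1 : (0 : ℝ) ≤ 1 := zero_le_one
  rcases h with h | h | h | h | h | h | h | h | h | h | h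
  · exact caseN h hk hz0 hz1 hL' hlk hlo hhi (by norm_num) (by norm_num) (by norm_num) (by norm_num)
      (by norm_num) (by norm_num) (by norm_num) (by norm_num) (by norm_num) (by norm_num) (by norm_num)
  · exact caseP h hk hz0 hz1 hL' hlk hlo (by norm_num) (by norm_num) (by norm_num) (by norm_num)
      (by norm_num) (by norm_num) (by norm_num) (by norm_num) (by norm_num) (by norm_num) (by norm_num)
  · exact caseP h hk hz0 hz1 hL' hlk hlo (by norm_num) (by norm_num) (by norm_num) (by norm_num)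
      (by norm_num) (by norm_num) (by norm_num) (by norm_num) (by norm_num) (by norm_num) (by norm_num)
  · exact caseP h hk hz0 hz1 hL' hlk hlo (by norm_num) (by norm_num) (by norm_num) (by norm_num)
      (by norm_num) (by norm_num) (by norm_num) (by norm_num) (by norm_num) (by norm_num) (by norm_num)
  · exact caseP h hk hz0 hz1 hL' hlk hlo (by norm_num) (by norm_num) (by norm_num) (by norm_num)
      (by norm_num) (by norm_num) (by norm_num) (by norm_num) (by norm_num) (by norm_num) (by norm_num)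
  · exact caseP h hk hz0 hz1 hL' hlk hlo (by norm_num) (by norm_num) (by norm_num) (by norm_num)
      (by norm_num) (by norm_num) (by norm_num) (by norm_num) (by norm_num) (by norm_num) (by norm_num)
  · exact caseP h hk hz0 hz1 hL' hlk hlo (by norm_num) (by norm_num) (by norm_num) (by norm_num)
      (by norm_num) (by norm_num) (by norm_num) (by norm_num) (by norm_num) (by norm_num) (by norm_num)
  · exact caseP h hk hz0 hz1 hL' hlk hlo (by norm_num) (by norm_num) (by norm_num) (by norm_num)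
      (by norm_num) (by norm_num) (by norm_num) (by norm_num) (by norm_num) (by norm_num) (by norm_num)
  · exact caseP h hk hz0 hz1 hL' hlk hlo (by norm_num) (by norm_num) (by norm_num) (by norm_num)
      (by norm_num) (by norm_num) (by norm_num) (by norm_num) (by norm_num) (by norm_num) (by norm_num)
  · exact caseP h hk hz0 hz1 hL' hlk hlo (by norm_num) (by norm_num) (by norm_num) (by norm_num)
      (by norm_num) (by norm_num) (by norm_num) (by norm_num) (by norm_num) (by norm_num) (by norm_num)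
  · exact caseN h hk hz0 hz1 hL' hlk hlo hhi (by norm_num) (by norm_num) (by norm_num) (by norm_num)
      (by norm_num) (by norm_num) (by norm_num) (by norm_num) (by norm_num) (by norm_num) (by norm_num)

theorem r_A100_odd {k L lc lk w : ℝ} (h : UB3 k L lc lk w) (hk : 100 ≤ k)
    (hL : 1.609 ≤ L) (hlk : lk ≤ 4.6052 + (k - 100) / 100) (hlo : -0.2232 ≤ lc) (hhi : lc ≤ 0) :
    w + (-(1 / 3) * (k * L) + 0.2079 * k + 3 / 2 * L + 23 / 12 * lk + -0.3172) ≤ -4.136 := by
  have key : ∀ x : ℝ, w + (-(1 / 3) * (k * L) + 0.2079 * k + 3 / 2 * L + 23 / 12 * lk + -0.3172 +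
      0 * (k * 0)) ≤ -4.136 → w + (-(1 / 3) * (k * L) + 0.2079 * k + 3 / 2 * L + 23 / 12 * lk + -0.3172) ≤ -4.136 := by
    intro _ hx
    linarith
  have hL' : 1.609 + 0 * (0 : ℝ) ≤ L := by linarith
  refine key 0 ?_
  have hz0 : (0 : ℝ) ≤ 0 := le_rfl
  have hz1 : (0 : ℝ) ≤ 1 := zero_le_one
  rcases h with h | h | h | h | h | h | h | h | h | h | h
  · exact caseN h hk hz0 hz1 hL' hlk hlo hhi (by norm_num) (by norm_num) (by norm_num) (by norm_num)
      (by norm_num) (by norm_num) (by norm_num) (by norm_num) (by norm_num) (by norm_num) (by norm_num)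
  · exact caseP h hk hz0 hz1 hL' hlk hlo (by norm_num) (by norm_num) (by norm_num) (by norm_num)
      (by norm_num) (by norm_num) (by norm_num) (by norm_num) (by norm_num) (by norm_num) (by norm_num)
  · exact caseP h hk hz0 hz1 hL' hlk hlo (by norm_num) (by norm_num) (by norm_num) (by norm_num)
      (by norm_num) (by norm_num) (by norm_num) (by norm_num) (by norm_num) (by norm_num) (by norm_num)
  · exact caseP h hk hz0 hz1 hL' hlk hlo (by norm_num) (by norm_num) (by norm_num) (by norm_num)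
      (by norm_num) (by norm_num) (by norm_num) (by norm_num) (by norm_num) (by norm_num) (by norm_num)
  · exact caseP h hk hz0 hz1 hL' hlk hlo (by norm_num) (by norm_num) (by norm_num) (by norm_num)
      (by norm_num) (by norm_num) (by norm_num) (by norm_num) (by norm_num) (by norm_num) (by norm_num)
  · exact caseP h hk hz0 hz1 hL' hlk hlo (by norm_num) (by norm_num) (by norm_num) (by norm_num)
      (by norm_num) (by norm_num) (by norm_num) (by norm_num) (by norm_num) (by norm_num) (by norm_num)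
  · exact caseP h hk hz0 hz1 hL' hlk hlo (by norm_num) (by norm_num) (by norm_num) (by norm_num)
      (by norm_num) (by norm_num) (by norm_num) (by norm_num) (by norm_num) (by norm_num) (by norm_num)
  · exact caseP h hk hz0 hz1 hL' hlk hlo (by norm_num) (by norm_num) (by norm_num) (by norm_num)
      (by norm_num) (by norm_num) (by norm_num) (by norm_num) (by norm_num) (by norm_num) (by norm_num)
  · exact caseP h hk hz0 hz1 hL' hlk hlo (by norm_num) (by norm_num) (by norm_num) (by norm_num)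
      (by norm_num) (by norm_num) (by norm_num) (by norm_num) (by norm_num) (by norm_num) (by norm_num)
  · exact caseP h hk hz0 hz1 hL' hlk hlo (by norm_num) (by norm_num) (by norm_num) (by norm_num)
      (by norm_num) (by norm_num) (by norm_num) (by norm_num) (by norm_num) (by norm_num) (by norm_num)
  · exact caseN h hk hz0 hz1 hL' hlk hlo hhi (by norm_num) (by norm_num) (by norm_num) (by norm_num)
      (by norm_num) (by norm_num) (by norm_num) (by norm_num) (by norm_num) (by norm_num) (by norm_num)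

theorem r_A200_even {k L lc lk w : ℝ} (h : UB3 k L lc lk w) (hk : 200 ≤ k)
    (hL : 1.098 ≤ L) (hlk : lk ≤ 5.2984 + (k - 200) / 200) (hlo : -0.2232 ≤ lc) (hhi : lc ≤ 0) :
    w + (-(1 / 3) * (k * L) + 0.2079 * k + 1 * L + 23 / 12 * lk + -0.0858) ≤ -4.136 := by
  have key : ∀ x : ℝ, w + (-(1 / 3) * (k * L) + 0.2079 * k + 1 * L + 23 / 12 * lk + -0.0858 +
      0 * (k * 0)) ≤ -4.136 → w + (-(1 / 3) * (k * L) + 0.2079 * k + 1 * L + 23 / 12 * lk + -0.0858) ≤ -4.136 := by
    intro _ hx
    linarith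
  have hL' : 1.098 + 0 * (0 : ℝ) ≤ L := by linarith
  refine key 0 ?_
  have hz0 : (0 : ℝ) ≤ 0 := le_rfl
  have hz1 : (0 : ℝ) ≤ 1 := zero_le_one
  rcases h with h | h | h | h | h | h | h | h | h | h | h
  · exact caseN h hk hz0 hz1 hL' hlk hlo hhi (by norm_num) (by norm_num) (by norm_num) (by norm_num)
      (by norm_num) (by norm_num) (by norm_num) (by norm_num) (by norm_num) (by norm_num) (by norm_num)
  · exact caseP h hk hz0 hz1 hL' hlk hlo (by norm_num) (by norm_num) (by norm_num) (by norm_num)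
      (by norm_num) (by norm_num) (by norm_num) (by norm_num) (by norm_num) (by norm_num) (by norm_num)
  · exact caseP h hk hz0 hz1 hL' hlk hlo (by norm_num) (by norm_num) (by norm_num) (by norm_num)
      (by norm_num) (by norm_num) (by norm_num) (by norm_num) (by norm_num) (by norm_num) (by norm_num)
  · exact caseP h hk hz0 hz1 hL' hlk hlo (by norm_num) (by norm_num) (by norm_num) (by norm_num)
      (by norm_num) (by norm_num) (by norm_num) (by norm_num) (by norm_num) (by norm_num) (by norm_num)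
  · exact caseP h hk hz0 hz1 hL' hlk hlo (by norm_num) (by norm_num) (by norm_num) (by norm_num)
      (by norm_num) (by norm_num) (by norm_num) (by norm_num) (by norm_num) (by norm_num) (by norm_num)
  · exact caseP h hk hz0 hz1 hL' hlk hlo (by norm_num) (by norm_num) (by norm_num) (by norm_num)
      (by norm_num) (by norm_num) (by norm_num) (by norm_num) (by norm_num) (by norm_num) (by norm_num)
  · exact caseP h hk hz0 hz1 hL' hlk hlo (by norm_num) (by norm_num) (by norm_num) (by norm_num)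
      (by norm_num) (by norm_num) (by norm_num) (by norm_num) (by norm_num) (by norm_num) (by norm_num)
  · exact caseP h hk hz0 hz1 hL' hlk hlo (by norm_num) (by norm_num) (by norm_num) (by norm_num)
      (by norm_num) (by norm_num) (by norm_num) (by norm_num) (by norm_num) (by norm_num) (by norm_num)
  · exact caseP h hk hz0 hz1 hL' hlk hlo (by norm_num) (by norm_num) (by norm_num) (by norm_num)
      (by norm_num) (by norm_num) (by norm_num) (by norm_num) (by norm_num) (by norm_num) (by norm_num)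
  · exact caseP h hk hz0 hz1 hL' hlk hlo (by norm_num) (by norm_num) (by norm_num) (by norm_num)
      (by norm_num) (by norm_num) (by norm_num) (by norm_num) (by norm_num) (by norm_num) (by norm_num)
  · exact caseN h hk hz0 hz1 hL' hlk hlo hhi (by norm_num) (by norm_num) (by norm_num) (by norm_num)
      (by norm_num) (by norm_num) (by norm_num) (by norm_num) (by norm_num) (by norm_num) (by norm_num)

theorem r_A200_odd {k L lc lk w : ℝ} (h : UB3 k L lc lk w) (hk : 200 ≤ k)
    (hL : 1.098 ≤ L) (hlk : lk ≤ 5.2984 + (k - 200) / 200) (hlo : -0.2232 ≤ lc) (hhi : lc ≤ 0) :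
    w + (-(1 / 3) * (k * L) + 0.2079 * k + 3 / 2 * L + 23 / 12 * lk + -0.3172) ≤ -4.136 := by
  have key : ∀ x : ℝ, w + (-(1 / 3) * (k * L) + 0.2079 * k + 3 / 2 * L + 23 / 12 * lk + -0.3172 +
      0 * (k * 0)) ≤ -4.136 → w + (-(1 / 3) * (k * L) + 0.2079 * k + 3 / 2 * L + 23 / 12 * lk + -0.3172) ≤ -4.136 := by
    intro _ hx
    linarith
  have hL' : 1.098 + 0 * (0 : ℝ) ≤ L := by linarith
  refine key 0 ?_
  have hz0 : (0 : ℝ) ≤ 0 := le_rfl
  have hz1 : (0 : ℝ) ≤ 1 := zero_le_one
  rcases h with h | h | h | h | h | h | h | h | h | h | h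
  · exact caseN h hk hz0 hz1 hL' hlk hlo hhi (by norm_num) (by norm_num) (by norm_num) (by norm_num)
      (by norm_num) (by norm_num) (by norm_num) (by norm_num) (by norm_num) (by norm_num) (by norm_num)
  · exact caseP h hk hz0 hz1 hL' hlk hlo (by norm_num) (by norm_num) (by norm_num) (by norm_num)
      (by norm_num) (by norm_num) (by norm_num) (by norm_num) (by norm_num) (by norm_num) (by norm_num)
  · exact caseP h hk hz0 hz1 hL' hlk hlo (by norm_num) (by norm_num) (by norm_num) (by norm_num)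
      (by norm_num) (by norm_num) (by norm_num) (by norm_num) (by norm_num) (by norm_num) (by norm_num)
  · exact caseP h hk hz0 hz1 hL' hlk hlo (by norm_num) (by norm_num) (by norm_num) (by norm_num)
      (by norm_num) (by norm_num) (by norm_num) (by norm_num) (by norm_num) (by norm_num) (by norm_num)
  · exact caseP h hk hz0 hz1 hL' hlk hlo (by norm_num) (by norm_num) (by norm_num) (by norm_num)
      (by norm_num) (by norm_num) (by norm_num) (by norm_num) (by norm_num) (by norm_num) (by norm_num)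
  · exact caseP h hk hz0 hz1 hL' hlk hlo (by norm_num) (by norm_num) (by norm_num) (by norm_num)
      (by norm_num) (by norm_num) (by norm_num) (by norm_num) (by norm_num) (by norm_num) (by norm_num)
  · exact caseP h hk hz0 hz1 hL' hlk hlo (by norm_num) (by norm_num) (by norm_num) (by norm_num)
      (by norm_num) (by norm_num) (by norm_num) (by norm_num) (by norm_num) (by norm_num) (by norm_num)
  · exact caseP h hk hz0 hz1 hL' hlk hlo (by norm_num) (by norm_num) (by norm_num) (by norm_num)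
      (by norm_num) (by norm_num) (by norm_num) (by norm_num) (by norm_num) (by norm_num) (by norm_num)
  · exact caseP h hk hz0 hz1 hL' hlk hlo (by norm_num) (by norm_num) (by norm_num) (by norm_num)
      (by norm_num) (by norm_num) (by norm_num) (by norm_num) (by norm_num) (by norm_num) (by norm_num)
  · exact caseP h hk hz0 hz1 hL' hlk hlo (by norm_num) (by norm_num) (by norm_num) (by norm_num)
      (by norm_num) (by norm_num) (by norm_num) (by norm_num) (by norm_num) (by norm_num) (by norm_num)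
  · exact caseN h hk hz0 hz1 hL' hlk hlo hhi (by norm_num) (by norm_num) (by norm_num) (by norm_num)
      (by norm_num) (by norm_num) (by norm_num) (by norm_num) (by norm_num) (by norm_num) (by norm_num)

end Pool.Agent.SignedQ.Far
end

section

/-! # FAR arcs, `t ≤ T₀`: assembly -/

namespace Pool.Agent.SignedQ.Far

open Real Finset Pool.Agent.SignedQ.An

theorem fin {x w R : ℝ} (h : x ≤ exp (w + R)) (hw : w + R ≤ -4.136) : x ≤ 0.016 :=
  h.trans ((exp_le_exp.2 hw).trans exp_M)

theorem f_A26 {n k a : ℕ} {t θ : ℝ} (hk : 26 ≤ k) (hpar : Even (n * k)) (ha : Odd a)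
    (ha3 : 3 ≤ a) (hn : k ≤ 2 * n) (hs : Sx (n / k) ≤ 0.0227)
    (hL : 3.028 ≤ LL n k a) (hv : k * (4 / 5 / (a * nb n k)) ≤ 1 / 10)
    (ht : 0 < t) (htT : t ≤ 4 / 5 / (a * nb n k)) (h6 : 6 / (k : ℝ) ≤ θ) (hpi : θ ≤ π - 5 / k)
    (hex : 1 / (k : ℝ) ≤ |θ - π / 3|) : sigma n k a t * rho n k a t θ ≤ 0.016 := by
  have ha1 : 1 ≤ a := ha.pos
  have hU := W_UB10 hk ha1 (by norm_num : (0 : ℝ) < 4 / 5) hv h6 hpi hex
  have hkR : (26 : ℝ) ≤ k := by exact_mod_cast hk
  have hl1 : log (4 / 5) ≤ 0 := by linarith [log_cA.2]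
  rcases Nat.even_or_odd k with he | ho
  · have hm := main_A_even hk he ha ha3 hn hs ht htT θ
    have hr := r_A26_even hU hkR hL (lk_26 hkR) log_cA.1 hl1
    exact fin hm (by unfold W; linarith)
  · have hen : Even n := (Nat.even_mul.1 hpar).resolve_right (Nat.not_even_iff_odd.2 ho)
    have hm := main_A_odd hk ho hen ha ha3 hn hs ht htT θ
    have hr := r_A26_odd hU hkR hL (lk_26 hkR) log_cA.1 hl1
    exact fin hm (by unfold W; linarith)

theorem f_A30 {n k a : ℕ} {t θ : ℝ} (hk : 30 ≤ k) (hpar : Even (n * k)) (ha : Odd a)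
    (ha3 : 3 ≤ a) (hn : k ≤ 2 * n) (hs : Sx (n / k) ≤ 0.0227)
    (hL : 2.59 ≤ LL n k a) (hv : k * (4 / 5 / (a * nb n k)) ≤ 1 / 10)
    (ht : 0 < t) (htT : t ≤ 4 / 5 / (a * nb n k)) (h6 : 6 / (k : ℝ) ≤ θ) (hpi : θ ≤ π - 5 / k)
    (hex : 1 / (k : ℝ) ≤ |θ - π / 3|) : sigma n k a t * rho n k a t θ ≤ 0.016 := by
  have ha1 : 1 ≤ a := ha.pos
  have hU := W_UB10 (by omega) ha1 (by norm_num : (0 : ℝ) < 4 / 5) hv h6 hpi hex
  have hkR : (30 : ℝ) ≤ k := by exact_mod_cast hk
  have hl1 : log (4 / 5) ≤ 0 := by linarith [log_cA.2]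
  rcases Nat.even_or_odd k with he | ho
  · have hm := main_A_even (by omega) he ha ha3 hn hs ht htT θ
    have hr := r_A30_even hU hkR hL (lk_30 hkR) log_cA.1 hl1
    exact fin hm (by unfold W; linarith)
  · have hen : Even n := (Nat.even_mul.1 hpar).resolve_right (Nat.not_even_iff_odd.2 ho)
    have hm := main_A_odd (by omega) ho hen ha ha3 hn hs ht htT θ
    have hr := r_A30_odd hU hkR hL (lk_30 hkR) log_cA.1 hl1
    exact fin hm (by unfold W; linarith)

theorem f_A60 {n k a : ℕ} {t θ : ℝ} (hk : 60 ≤ k) (hpar : Even (n * k)) (ha : Odd a)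
    (ha3 : 3 ≤ a) (hn : k ≤ 2 * n) (hs : Sx (n / k) ≤ 0.0227)
    (hL : 1.673 ≤ LL n k a) (hv : k * (4 / 5 / (a * nb n k)) ≤ 1 / 3)
    (ht : 0 < t) (htT : t ≤ 4 / 5 / (a * nb n k)) (h6 : 6 / (k : ℝ) ≤ θ) (hpi : θ ≤ π - 5 / k)
    (hex : 1 / (k : ℝ) ≤ |θ - π / 3|) : sigma n k a t * rho n k a t θ ≤ 0.016 := by
  have ha1 : 1 ≤ a := ha.pos
  have hU := W_UB3 (by omega) ha1 (by norm_num : (0 : ℝ) < 4 / 5) hv h6 hpi hex
  have hkR : (60 : ℝ) ≤ k := by exact_mod_cast hk
  have hl1 : log (4 / 5) ≤ 0 := by linarith [log_cA.2]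
  rcases Nat.even_or_odd k with he | ho
  · have hm := main_A_even (by omega) he ha ha3 hn hs ht htT θ
    have hr := r_A60_even hU hkR hL (lk_60 hkR) log_cA.1 hl1
    exact fin hm (by unfold W; linarith)
  · have hen : Even n := (Nat.even_mul.1 hpar).resolve_right (Nat.not_even_iff_odd.2 ho)
    have hm := main_A_odd (by omega) ho hen ha ha3 hn hs ht htT θ
    have hr := r_A60_odd hU hkR hL (lk_60 hkR) log_cA.1 hl1
    exact fin hm (by unfold W; linarith)

theorem f_A100a3 {n k a : ℕ} {t θ : ℝ} (hk : 100 ≤ k) (hpar : Even (n * k)) (ha : Odd a)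
    (ha3 : 3 ≤ a) (hn : k ≤ 2 * n) (hs : Sx (n / k) ≤ 0.0163)
    (hL : 1.252 ≤ LL n k a) (hv : k * (4 / 5 / (a * nb n k)) ≤ 1 / 3)
    (ht : 0 < t) (htT : t ≤ 4 / 5 / (a * nb n k)) (h6 : 6 / (k : ℝ) ≤ θ) (hpi : θ ≤ π - 5 / k)
    (hex : 1 / (k : ℝ) ≤ |θ - π / 3|) : sigma n k a t * rho n k a t θ ≤ 0.016 := by
  have ha1 : 1 ≤ a := ha.pos
  have hU := W_UB3 (by omega) ha1 (by norm_num : (0 : ℝ) < 4 / 5) hv h6 hpi hex
  have hkR : (100 : ℝ) ≤ k := by exact_mod_cast hk
  have hl1 : log (4 / 5) ≤ 0 := by linarith [log_cA.2]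
  rcases Nat.even_or_odd k with he | ho
  · have hm := main_A_even (by omega) he ha ha3 hn hs ht htT θ
    have hr := r_A100a3_even hU hkR hL (lk_100 hkR) log_cA.1 hl1
    exact fin hm (by unfold W; linarith)
  · have hen : Even n := (Nat.even_mul.1 hpar).resolve_right (Nat.not_even_iff_odd.2 ho)
    have hm := main_A_odd (by omega) ho hen ha ha3 hn hs ht htT θ
    have hr := r_A100a3_odd hU hkR hL (lk_100 hkR) log_cA.1 hl1
    exact fin hm (by unfold W; linarith)

theorem f_A100 {n k a : ℕ} {t θ : ℝ} (hk : 100 ≤ k) (hpar : Even (n * k)) (ha : Odd a)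
    (ha3 : 3 ≤ a) (hn : k ≤ 2 * n) (hs : Sx (n / k) ≤ 0.0227)
    (hL : 1.609 ≤ LL n k a) (hv : k * (4 / 5 / (a * nb n k)) ≤ 1 / 3)
    (ht : 0 < t) (htT : t ≤ 4 / 5 / (a * nb n k)) (h6 : 6 / (k : ℝ) ≤ θ) (hpi : θ ≤ π - 5 / k)
    (hex : 1 / (k : ℝ) ≤ |θ - π / 3|) : sigma n k a t * rho n k a t θ ≤ 0.016 := by
  have ha1 : 1 ≤ a := ha.pos
  have hU := W_UB3 (by omega) ha1 (by norm_num : (0 : ℝ) < 4 / 5) hv h6 hpi hex
  have hkR : (100 : ℝ) ≤ k := by exact_mod_cast hk
  have hl1 : log (4 / 5) ≤ 0 := by linarith [log_cA.2]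
  rcases Nat.even_or_odd k with he | ho
  · have hm := main_A_even (by omega) he ha ha3 hn hs ht htT θ
    have hr := r_A100_even hU hkR hL (lk_100 hkR) log_cA.1 hl1
    exact fin hm (by unfold W; linarith)
  · have hen : Even n := (Nat.even_mul.1 hpar).resolve_right (Nat.not_even_iff_odd.2 ho)
    have hm := main_A_odd (by omega) ho hen ha ha3 hn hs ht htT θ
    have hr := r_A100_odd hU hkR hL (lk_100 hkR) log_cA.1 hl1
    exact fin hm (by unfold W; linarith)

theorem f_A200 {n k a : ℕ} {t θ : ℝ} (hk : 200 ≤ k) (hpar : Even (n * k)) (ha : Odd a)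
    (ha3 : 3 ≤ a) (hn : k ≤ 2 * n) (hs : Sx (n / k) ≤ 0.0227)
    (hL : 1.098 ≤ LL n k a) (hv : k * (4 / 5 / (a * nb n k)) ≤ 1 / 3)
    (ht : 0 < t) (htT : t ≤ 4 / 5 / (a * nb n k)) (h6 : 6 / (k : ℝ) ≤ θ) (hpi : θ ≤ π - 5 / k)
    (hex : 1 / (k : ℝ) ≤ |θ - π / 3|) : sigma n k a t * rho n k a t θ ≤ 0.016 := by
  have ha1 : 1 ≤ a := ha.pos
  have hU := W_UB3 (by omega) ha1 (by norm_num : (0 : ℝ) < 4 / 5) hv h6 hpi hex
  have hkR : (200 : ℝ) ≤ k := by exact_mod_cast hk
  have hl1 : log (4 / 5) ≤ 0 := by linarith [log_cA.2]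
  rcases Nat.even_or_odd k with he | ho
  · have hm := main_A_even (by omega) he ha ha3 hn hs ht htT θ
    have hr := r_A200_even hU hkR hL (lk_200 hkR) log_cA.1 hl1
    exact fin hm (by unfold W; linarith)
  · have hen : Even n := (Nat.even_mul.1 hpar).resolve_right (Nat.not_even_iff_odd.2 ho)
    have hm := main_A_odd (by omega) ho hen ha ha3 hn hs ht htT θ
    have hr := r_A200_odd hU hkR hL (lk_200 hkR) log_cA.1 hl1
    exact fin hm (by unfold W; linarith)

theorem f_B26 {n k a : ℕ} {t θ : ℝ} (hk : 26 ≤ k) (hpar : Even (n * k)) (ha : Odd a)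
    (ha5 : 5 ≤ a) (hn : 3 * k ≤ 20 * n) (hn2 : 2 * n < k) 
    (hL : 2.863 ≤ LL n k a) (hv : k * (1 / (a * nb n k)) ≤ 1 / 10)
    (ht : 0 < t) (htT : t ≤ 1 / (a * nb n k)) (h6 : 6 / (k : ℝ) ≤ θ) (hpi : θ ≤ π - 5 / k)
    (hex : 1 / (k : ℝ) ≤ |θ - π / 3|) : sigma n k a t * rho n k a t θ ≤ 0.016 := by
  have ha1 : 1 ≤ a := ha.pos
  have hU := W_UB10 hk ha1 (by norm_num : (0 : ℝ) < 1) hv h6 hpi hex
  have hkR : (26 : ℝ) ≤ k := by exact_mod_cast hk
  have hl0 : (0 : ℝ) ≤ log 1 := log_one.ge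
  have hl1 : log 1 ≤ (0 : ℝ) := log_one.le
  rcases Nat.even_or_odd k with he | ho
  · have hm := main_B_even hk he ha ha5 hn hn2 ht htT θ
    have hr := r_B26_even hU hkR hL (lk_26 hkR) hl0 hl1
    exact fin hm (by unfold W; linarith)
  · have hen : Even n := (Nat.even_mul.1 hpar).resolve_right (Nat.not_even_iff_odd.2 ho)
    have hm := main_B_odd hk ho hen ha ha5 hn hn2 ht htT θ
    have hr := r_B26_odd hU hkR hL (lk_26 hkR) hl0 hl1
    exact fin hm (by unfold W; linarith)

theorem f_B30 {n k a : ℕ} {t θ : ℝ} (hk : 30 ≤ k) (hpar : Even (n * k)) (ha : Odd a)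
    (ha5 : 5 ≤ a) (hn : 3 * k ≤ 20 * n) (hn2 : 2 * n < k) 
    (hL : 2.425 ≤ LL n k a) (hv : k * (1 / (a * nb n k)) ≤ 1 / 10)
    (ht : 0 < t) (htT : t ≤ 1 / (a * nb n k)) (h6 : 6 / (k : ℝ) ≤ θ) (hpi : θ ≤ π - 5 / k)
    (hex : 1 / (k : ℝ) ≤ |θ - π / 3|) : sigma n k a t * rho n k a t θ ≤ 0.016 := by
  have ha1 : 1 ≤ a := ha.pos
  have hU := W_UB10 (by omega) ha1 (by norm_num : (0 : ℝ) < 1) hv h6 hpi hex
  have hkR : (30 : ℝ) ≤ k := by exact_mod_cast hk
  have hl0 : (0 : ℝ) ≤ log 1 := log_one.ge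
  have hl1 : log 1 ≤ (0 : ℝ) := log_one.le
  rcases Nat.even_or_odd k with he | ho
  · have hm := main_B_even (by omega) he ha ha5 hn hn2 ht htT θ
    have hr := r_B30_even hU hkR hL (lk_30 hkR) hl0 hl1
    exact fin hm (by unfold W; linarith)
  · have hen : Even n := (Nat.even_mul.1 hpar).resolve_right (Nat.not_even_iff_odd.2 ho)
    have hm := main_B_odd (by omega) ho hen ha ha5 hn hn2 ht htT θ
    have hr := r_B30_odd hU hkR hL (lk_30 hkR) hl0 hl1
    exact fin hm (by unfold W; linarith)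

theorem f_B60 {n k a : ℕ} {t θ : ℝ} (hk : 60 ≤ k) (hpar : Even (n * k)) (ha : Odd a)
    (ha5 : 5 ≤ a) (hn : 3 * k ≤ 20 * n) (hn2 : 2 * n < k) 
    (hL : 1.508 ≤ LL n k a) (hv : k * (1 / (a * nb n k)) ≤ 1 / 3)
    (ht : 0 < t) (htT : t ≤ 1 / (a * nb n k)) (h6 : 6 / (k : ℝ) ≤ θ) (hpi : θ ≤ π - 5 / k)
    (hex : 1 / (k : ℝ) ≤ |θ - π / 3|) : sigma n k a t * rho n k a t θ ≤ 0.016 := by
  have ha1 : 1 ≤ a := ha.pos
  have hU := W_UB3 (by omega) ha1 (by norm_num : (0 : ℝ) < 1) hv h6 hpi hex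
  have hkR : (60 : ℝ) ≤ k := by exact_mod_cast hk
  have hl0 : (0 : ℝ) ≤ log 1 := log_one.ge
  have hl1 : log 1 ≤ (0 : ℝ) := log_one.le
  rcases Nat.even_or_odd k with he | ho
  · have hm := main_B_even (by omega) he ha ha5 hn hn2 ht htT θ
    have hr := r_B60_even hU hkR hL (lk_60 hkR) hl0 hl1
    exact fin hm (by unfold W; linarith)
  · have hen : Even n := (Nat.even_mul.1 hpar).resolve_right (Nat.not_even_iff_odd.2 ho)
    have hm := main_B_odd (by omega) ho hen ha ha5 hn hn2 ht htT θ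
    have hr := r_B60_odd hU hkR hL (lk_60 hkR) hl0 hl1
    exact fin hm (by unfold W; linarith)

theorem f_B100 {n k a : ℕ} {t θ : ℝ} (hk : 100 ≤ k) (hpar : Even (n * k)) (ha : Odd a)
    (ha5 : 5 ≤ a) (hn : 3 * k ≤ 20 * n) (hn2 : 2 * n < k) 
    (hL : 1.178 ≤ LL n k a) (hv : k * (1 / (a * nb n k)) ≤ 1 / 3)
    (ht : 0 < t) (htT : t ≤ 1 / (a * nb n k)) (h6 : 6 / (k : ℝ) ≤ θ) (hpi : θ ≤ π - 5 / k)
    (hex : 1 / (k : ℝ) ≤ |θ - π / 3|) : sigma n k a t * rho n k a t θ ≤ 0.016 := by
  have ha1 : 1 ≤ a := ha.pos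
  have hU := W_UB3 (by omega) ha1 (by norm_num : (0 : ℝ) < 1) hv h6 hpi hex
  have hkR : (100 : ℝ) ≤ k := by exact_mod_cast hk
  have hl0 : (0 : ℝ) ≤ log 1 := log_one.ge
  have hl1 : log 1 ≤ (0 : ℝ) := log_one.le
  rcases Nat.even_or_odd k with he | ho
  · have hm := main_B_even (by omega) he ha ha5 hn hn2 ht htT θ
    have hr := r_B100_even hU hkR hL (lk_100 hkR) hl0 hl1
    exact fin hm (by unfold W; linarith)
  · have hen : Even n := (Nat.even_mul.1 hpar).resolve_right (Nat.not_even_iff_odd.2 ho)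
    have hm := main_B_odd (by omega) ho hen ha ha5 hn hn2 ht htT θ
    have hr := r_B100_odd hU hkR hL (lk_100 hkR) hl0 hl1
    exact fin hm (by unfold W; linarith)

theorem f_C26 {n k a : ℕ} {t θ : ℝ} (hk : 26 ≤ k) (hpar : Even (n * k)) (ha : Odd a)
    (ha5 : 5 ≤ a) (hn : 20 * n ≤ 3 * k) 
    (hL : 2.74 + 0.8 * (n / k) ≤ LL n k a) (hv : k * (13 / 20 / (a * nb n k)) ≤ 1 / 10)
    (ht : 0 < t) (htT : t ≤ 13 / 20 / (a * nb n k)) (h6 : 6 / (k : ℝ) ≤ θ) (hpi : θ ≤ π - 5 / k)
    (hex : 1 / (k : ℝ) ≤ |θ - π / 3|) : sigma n k a t * rho n k a t θ ≤ 0.016 := by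
  have ha1 : 1 ≤ a := ha.pos
  have hU := W_UB10 hk ha1 (by norm_num : (0 : ℝ) < 13 / 20) hv h6 hpi hex
  have hkR : (26 : ℝ) ≤ k := by exact_mod_cast hk
  have hl1 : log (13 / 20) ≤ 0 := by linarith [log_cC.2]
  have hk0 : (0 : ℝ) < k := by linarith
  have hnR : (20 : ℝ) * n ≤ 3 * k := by exact_mod_cast hn
  have hu1 : (n : ℝ) / k ≤ 0.15 := by rw [div_le_iff₀ hk0]; linarith
  have hu0 : (0 : ℝ) ≤ (n : ℝ) / k := by positivity
  rcases Nat.even_or_odd k with he | ho
  · have hm := main_C_even hk he ha ha5 hn ht htT θ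
    have hr := r_C26_even hU hkR hL (lk_26 hkR) log_cC.1 hl1 hu0 hu1
    exact fin hm (by unfold W; linarith)
  · have hen : Even n := (Nat.even_mul.1 hpar).resolve_right (Nat.not_even_iff_odd.2 ho)
    have hm := main_C_odd hk ho hen ha ha5 hn ht htT θ
    have hr := r_C26_odd hU hkR hL (lk_26 hkR) log_cC.1 hl1 hu0 hu1
    exact fin hm (by unfold W; linarith)

theorem f_C30 {n k a : ℕ} {t θ : ℝ} (hk : 30 ≤ k) (hpar : Even (n * k)) (ha : Odd a)
    (ha5 : 5 ≤ a) (hn : 20 * n ≤ 3 * k) 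
    (hL : 2.302 + 0.8 * (n / k) ≤ LL n k a) (hv : k * (13 / 20 / (a * nb n k)) ≤ 1 / 10)
    (ht : 0 < t) (htT : t ≤ 13 / 20 / (a * nb n k)) (h6 : 6 / (k : ℝ) ≤ θ) (hpi : θ ≤ π - 5 / k)
    (hex : 1 / (k : ℝ) ≤ |θ - π / 3|) : sigma n k a t * rho n k a t θ ≤ 0.016 := by
  have ha1 : 1 ≤ a := ha.pos
  have hU := W_UB10 (by omega) ha1 (by norm_num : (0 : ℝ) < 13 / 20) hv h6 hpi hex
  have hkR : (30 : ℝ) ≤ k := by exact_mod_cast hk
  have hl1 : log (13 / 20) ≤ 0 := by linarith [log_cC.2]
  have hk0 : (0 : ℝ) < k := by linarith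
  have hnR : (20 : ℝ) * n ≤ 3 * k := by exact_mod_cast hn
  have hu1 : (n : ℝ) / k ≤ 0.15 := by rw [div_le_iff₀ hk0]; linarith
  have hu0 : (0 : ℝ) ≤ (n : ℝ) / k := by positivity
  rcases Nat.even_or_odd k with he | ho
  · have hm := main_C_even (by omega) he ha ha5 hn ht htT θ
    have hr := r_C30_even hU hkR hL (lk_30 hkR) log_cC.1 hl1 hu0 hu1
    exact fin hm (by unfold W; linarith)
  · have hen : Even n := (Nat.even_mul.1 hpar).resolve_right (Nat.not_even_iff_odd.2 ho)
    have hm := main_C_odd (by omega) ho hen ha ha5 hn ht htT θ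
    have hr := r_C30_odd hU hkR hL (lk_30 hkR) log_cC.1 hl1 hu0 hu1
    exact fin hm (by unfold W; linarith)

theorem f_C60 {n k a : ℕ} {t θ : ℝ} (hk : 60 ≤ k) (hpar : Even (n * k)) (ha : Odd a)
    (ha5 : 5 ≤ a) (hn : 20 * n ≤ 3 * k) 
    (hL : 1.386 + 0.8 * (n / k) ≤ LL n k a) (hv : k * (13 / 20 / (a * nb n k)) ≤ 1 / 3)
    (ht : 0 < t) (htT : t ≤ 13 / 20 / (a * nb n k)) (h6 : 6 / (k : ℝ) ≤ θ) (hpi : θ ≤ π - 5 / k)
    (hex : 1 / (k : ℝ) ≤ |θ - π / 3|) : sigma n k a t * rho n k a t θ ≤ 0.016 := by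
  have ha1 : 1 ≤ a := ha.pos
  have hU := W_UB3 (by omega) ha1 (by norm_num : (0 : ℝ) < 13 / 20) hv h6 hpi hex
  have hkR : (60 : ℝ) ≤ k := by exact_mod_cast hk
  have hl1 : log (13 / 20) ≤ 0 := by linarith [log_cC.2]
  have hk0 : (0 : ℝ) < k := by linarith
  have hnR : (20 : ℝ) * n ≤ 3 * k := by exact_mod_cast hn
  have hu1 : (n : ℝ) / k ≤ 0.15 := by rw [div_le_iff₀ hk0]; linarith
  have hu0 : (0 : ℝ) ≤ (n : ℝ) / k := by positivity
  rcases Nat.even_or_odd k with he | ho
  · have hm := main_C_even' hk he ha ha5 hn ht htT θ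
    have hr := r_C60_even hU hkR hL (lk_60 hkR) log_cC.1 hl1 hu0 hu1
    exact fin hm (by unfold W; linarith)
  · have hen : Even n := (Nat.even_mul.1 hpar).resolve_right (Nat.not_even_iff_odd.2 ho)
    have hm := main_C_odd' hk ho hen ha ha5 hn ht htT θ
    have hr := r_C60_odd hU hkR hL (lk_60 hkR) log_cC.1 hl1 hu0 hu1
    exact fin hm (by unfold W; linarith)

theorem f_C100a7 {n k a : ℕ} {t θ : ℝ} (hk : 100 ≤ k) (hpar : Even (n * k)) (ha : Odd a)
    (ha5 : 5 ≤ a) (hn : 20 * n ≤ 3 * k) 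
    (hL : 1.252 + 1.74 * (n / k) ≤ LL n k a) (hv : k * (13 / 20 / (a * nb n k)) ≤ 1 / 3)
    (ht : 0 < t) (htT : t ≤ 13 / 20 / (a * nb n k)) (h6 : 6 / (k : ℝ) ≤ θ) (hpi : θ ≤ π - 5 / k)
    (hex : 1 / (k : ℝ) ≤ |θ - π / 3|) : sigma n k a t * rho n k a t θ ≤ 0.016 := by
  have ha1 : 1 ≤ a := ha.pos
  have hU := W_UB3 (by omega) ha1 (by norm_num : (0 : ℝ) < 13 / 20) hv h6 hpi hex
  have hkR : (100 : ℝ) ≤ k := by exact_mod_cast hk
  have hl1 : log (13 / 20) ≤ 0 := by linarith [log_cC.2]
  have hk0 : (0 : ℝ) < k := by linarith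
  have hnR : (20 : ℝ) * n ≤ 3 * k := by exact_mod_cast hn
  have hu1 : (n : ℝ) / k ≤ 0.15 := by rw [div_le_iff₀ hk0]; linarith
  have hu0 : (0 : ℝ) ≤ (n : ℝ) / k := by positivity
  rcases Nat.even_or_odd k with he | ho
  · have hm := main_C_even' (by omega) he ha ha5 hn ht htT θ
    have hr := r_C100a7_even hU hkR hL (lk_100 hkR) log_cC.1 hl1 hu0 hu1
    exact fin hm (by unfold W; linarith)
  · have hen : Even n := (Nat.even_mul.1 hpar).resolve_right (Nat.not_even_iff_odd.2 ho)
    have hm := main_C_odd' (by omega) ho hen ha ha5 hn ht htT θ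
    have hr := r_C100a7_odd hU hkR hL (lk_100 hkR) log_cC.1 hl1 hu0 hu1
    exact fin hm (by unfold W; linarith)

theorem f_C140 {n k a : ℕ} {t θ : ℝ} (hk : 140 ≤ k) (hpar : Even (n * k)) (ha : Odd a)
    (ha5 : 5 ≤ a) (hn : 20 * n ≤ 3 * k) 
    (hL : 0.916 + 1.74 * (n / k) ≤ LL n k a) (hv : k * (13 / 20 / (a * nb n k)) ≤ 1 / 3)
    (ht : 0 < t) (htT : t ≤ 13 / 20 / (a * nb n k)) (h6 : 6 / (k : ℝ) ≤ θ) (hpi : θ ≤ π - 5 / k)
    (hex : 1 / (k : ℝ) ≤ |θ - π / 3|) : sigma n k a t * rho n k a t θ ≤ 0.016 := by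
  have ha1 : 1 ≤ a := ha.pos
  have hU := W_UB3 (by omega) ha1 (by norm_num : (0 : ℝ) < 13 / 20) hv h6 hpi hex
  have hkR : (140 : ℝ) ≤ k := by exact_mod_cast hk
  have hl1 : log (13 / 20) ≤ 0 := by linarith [log_cC.2]
  have hk0 : (0 : ℝ) < k := by linarith
  have hnR : (20 : ℝ) * n ≤ 3 * k := by exact_mod_cast hn
  have hu1 : (n : ℝ) / k ≤ 0.15 := by rw [div_le_iff₀ hk0]; linarith
  have hu0 : (0 : ℝ) ≤ (n : ℝ) / k := by positivity
  rcases Nat.even_or_odd k with he | ho
  · have hm := main_C_even' (by omega) he ha ha5 hn ht htT θ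
    have hr := r_C140_even hU hkR hL (lk_140 hkR) log_cC.1 hl1 hu0 hu1
    exact fin hm (by unfold W; linarith)
  · have hen : Even n := (Nat.even_mul.1 hpar).resolve_right (Nat.not_even_iff_odd.2 ho)
    have hm := main_C_odd' (by omega) ho hen ha ha5 hn ht htT θ
    have hr := r_C140_odd hU hkR hL (lk_140 hkR) log_cC.1 hl1 hu0 hu1
    exact fin hm (by unfold W; linarith)

theorem f_C100a5 {n k a : ℕ} {t θ : ℝ} (hk : 100 ≤ k) (hpar : Even (n * k)) (ha : Odd a)
    (ha5 : 5 ≤ a) (hn : 20 * n ≤ 3 * k) (hn1 : k ≤ 20 * n) 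
    (hL : 0.928 + 1.66 * (n / k) ≤ LL n k a) (hv : k * (13 / 20 / (a * nb n k)) ≤ 1 / 3)
    (ht : 0 < t) (htT : t ≤ 13 / 20 / (a * nb n k)) (h6 : 6 / (k : ℝ) ≤ θ) (hpi : θ ≤ π - 5 / k)
    (hex : 1 / (k : ℝ) ≤ |θ - π / 3|) : sigma n k a t * rho n k a t θ ≤ 0.016 := by
  have ha1 : 1 ≤ a := ha.pos
  have hU := W_UB3 (by omega) ha1 (by norm_num : (0 : ℝ) < 13 / 20) hv h6 hpi hex
  have hkR : (100 : ℝ) ≤ k := by exact_mod_cast hk
  have hl1 : log (13 / 20) ≤ 0 := by linarith [log_cC.2]
  have hk0 : (0 : ℝ) < k := by linarith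
  have hnR : (20 : ℝ) * n ≤ 3 * k := by exact_mod_cast hn
  have hu1 : (n : ℝ) / k ≤ 0.15 := by rw [div_le_iff₀ hk0]; linarith
  have hn1R : (k : ℝ) ≤ 20 * n := by exact_mod_cast hn1
  have hu0 : (0.05 : ℝ) ≤ (n : ℝ) / k := by rw [le_div_iff₀ hk0]; linarith
  rcases Nat.even_or_odd k with he | ho
  · have hm := main_C5_even (by omega) he ha ha5 hn hn1 ht htT θ
    have hr := r_C100a5_even hU hkR hL (lk_100 hkR) log_cC.1 hl1 hu0 hu1
    exact fin hm (by unfold W; linarith)
  · have hen : Even n := (Nat.even_mul.1 hpar).resolve_right (Nat.not_even_iff_odd.2 ho)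
    have hm := main_C5_odd (by omega) ho hen ha ha5 hn hn1 ht htT θ
    have hr := r_C100a5_odd hU hkR hL (lk_100 hkR) log_cC.1 hl1 hu0 hu1
    exact fin hm (by unfold W; linarith)

/-- **Regime A** (`k ≤ 2n`). -/
theorem far2_A {n k a : ℕ} {t θ : ℝ} (hP : Par n k a) (hk : 26 ≤ k) (hn : k ≤ 2 * n)
    (ht : 0 < t) (htT : t ≤ 4 / 5 / (a * nb n k)) (h6 : 6 / (k : ℝ) ≤ θ) (hpi : θ ≤ π - 5 / k)
    (hex : 1 / (k : ℝ) ≤ |θ - π / 3|) : sigma n k a t * rho n k a t θ ≤ 0.016 := by
  obtain ⟨v1, v2, v3, v4, v5, v6, -⟩ := log_values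
  have hpar := hP.1
  have ha := hP.2.1
  have ha3 := hP.2.2.1
  have ha1 : 1 ≤ a := ha.pos
  have hk1 : 1 ≤ k := by omega
  have hk0 : (0 : ℝ) < k := by exact_mod_cast hk1
  have hnR : (k : ℝ) ≤ 2 * n := by exact_mod_cast hn
  have hu : (1 / 2 : ℝ) ≤ (n : ℝ) / k := by rw [le_div_iff₀ hk0]; linarith
  have hs : Sx (n / k) ≤ 0.0227 := (Sx_antitone (Set.mem_Ioi.2 (by norm_num : (0 : ℝ) < 1 / 2))
    (Set.mem_Ioi.2 (by linarith)) hu).trans Sx_half
  rcases lt_or_ge k 30 with h30 | h30
  · have h := LL_A hk1 (by norm_num) hn (hP.lt30 h30)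
    have e : (2 / 3 * ((31 : ℕ) : ℝ)) = 62 / 3 := by norm_num
    rw [e] at h
    exact f_A26 hk hpar ha ha3 hn hs (v1.trans h)
      (kT_le hk1 ha1 (by norm_num) (by norm_num) (by norm_num) h) ht htT h6 hpi hex
  rcases lt_or_ge k 60 with h60 | h60
  · have h := LL_A hk1 (by norm_num) hn (hP.lt60 h60)
    have e : (2 / 3 * ((20 : ℕ) : ℝ)) = 40 / 3 := by norm_num
    rw [e] at h
    exact f_A30 h30 hpar ha ha3 hn hs (by linarith)
      (kT_le hk1 ha1 (by norm_num) (by norm_num) (by norm_num) h) ht htT h6 hpi hex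
  rcases lt_or_ge k 100 with h100 | h100
  · have h := LL_A hk1 (by norm_num) hn (hP.lt100 h100)
    have e : (2 / 3 * ((8 : ℕ) : ℝ)) = 16 / 3 := by norm_num
    rw [e] at h
    exact f_A60 h60 hpar ha ha3 hn hs (v3.trans h)
      (kT_le hk1 ha1 (by norm_num) (by norm_num) (by norm_num) h) ht htT h6 hpi hex
  rcases lt_or_ge k 200 with h200 | h200
  · rcases Nat.lt_or_ge a 5 with h5 | h5
    · have ha' : a = 3 := by
        rcases ha with ⟨m, hm⟩
        omega
      subst ha'
      have h2 := hP.lt200 h200 rfl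
      have h3 : 2 * k ≤ 3 * n := by omega
      have h := LL_A3 hk1 h3
      have h3R : (2 : ℝ) * k ≤ 3 * n := by exact_mod_cast h3
      have hu' : (2 / 3 : ℝ) ≤ (n : ℝ) / k := by rw [le_div_iff₀ hk0]; linarith
      have hs' : Sx (n / k) ≤ 0.0163 :=
        (Sx_antitone (Set.mem_Ioi.2 (by norm_num : (0 : ℝ) < 2 / 3))
          (Set.mem_Ioi.2 (by linarith)) hu').trans Sx_two_thirds
      exact f_A100a3 h100 hpar ha ha3 hn hs' (v4.trans h)
        (kT_le hk1 ha1 (by norm_num) (by norm_num) (by norm_num) h) ht htT h6 hpi hex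
    · have h := LL_A' (a := a) hk1 hn ha1
      have h5R : (5 : ℝ) ≤ a := by exact_mod_cast h5
      have h' : log 5 ≤ LL n k a := (log_le_log (by norm_num) h5R).trans h
      exact f_A100 h100 hpar ha ha3 hn hs (v5.trans h')
        (kT_le hk1 ha1 (by norm_num) (by norm_num) (by norm_num) h') ht htT h6 hpi hex
  · have h := LL_A' (a := a) hk1 hn ha1
    have h3R : (3 : ℝ) ≤ a := by exact_mod_cast ha3
    have h' : log 3 ≤ LL n k a := (log_le_log (by norm_num) h3R).trans h
    exact f_A200 h200 hpar ha ha3 hn hs (v6.trans h')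
      (kT_le hk1 ha1 (by norm_num) (by norm_num) (by norm_num) h') ht htT h6 hpi hex

/-- **Regime B** (`3k/20 ≤ n < k/2`, `a ≥ 5`). -/
theorem far2_B {n k a : ℕ} {t θ : ℝ} (hP : Par n k a) (hk : 26 ≤ k) (ha5 : 5 ≤ a)
    (hn : 3 * k ≤ 20 * n) (hn2 : 2 * n < k)
    (ht : 0 < t) (htT : t ≤ 1 / (a * nb n k)) (h6 : 6 / (k : ℝ) ≤ θ) (hpi : θ ≤ π - 5 / k)
    (hex : 1 / (k : ℝ) ≤ |θ - π / 3|) : sigma n k a t * rho n k a t θ ≤ 0.016 := by
  obtain ⟨-, -, -, -, -, -, v7, v8, v9, v10, -⟩ := log_values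
  have hpar := hP.1
  have ha := hP.2.1
  have ha1 : 1 ≤ a := ha.pos
  have hk1 : 1 ≤ k := by omega
  rcases lt_or_ge k 30 with h30 | h30
  · have h := LL_B hk1 (by norm_num) hn (hP.lt30 h30)
    have e : (13 / 23 * ((31 : ℕ) : ℝ)) = 403 / 23 := by norm_num
    rw [e] at h
    exact f_B26 hk hpar ha ha5 hn hn2 (v7.trans h)
      (kT_le hk1 ha1 (by norm_num) (by norm_num) (by norm_num) h) ht htT h6 hpi hex
  rcases lt_or_ge k 60 with h60 | h60
  · have h := LL_B hk1 (by norm_num) hn (hP.lt60 h60)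
    have e : (13 / 23 * ((20 : ℕ) : ℝ)) = 260 / 23 := by norm_num
    rw [e] at h
    exact f_B30 h30 hpar ha ha5 hn hn2 (v8.trans h)
      (kT_le hk1 ha1 (by norm_num) (by norm_num) (by norm_num) h) ht htT h6 hpi hex
  rcases lt_or_ge k 100 with h100 | h100
  · have h := LL_B hk1 (by norm_num) hn (hP.lt100 h100)
    have e : (13 / 23 * ((8 : ℕ) : ℝ)) = 104 / 23 := by norm_num
    rw [e] at h
    exact f_B60 h60 hpar ha ha5 hn hn2 (v9.trans h)
      (kT_le hk1 ha1 (by norm_num) (by norm_num) (by norm_num) h) ht htT h6 hpi hex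
  · have h := LL_B' (a := a) hk1 hn ha5
    exact f_B100 h100 hpar ha ha5 hn hn2 (v10.trans h)
      (kT_le hk1 ha1 (by norm_num) (by norm_num) (by norm_num) h) ht htT h6 hpi hex

/-- **Regime C** (`n ≤ 3k/20`, `a ≥ 5`). -/
theorem far2_C {n k a : ℕ} {t θ : ℝ} (hP : Par n k a) (hk : 26 ≤ k) (ha5 : 5 ≤ a)
    (hn : 20 * n ≤ 3 * k)
    (ht : 0 < t) (htT : t ≤ 13 / 20 / (a * nb n k)) (h6 : 6 / (k : ℝ) ≤ θ) (hpi : θ ≤ π - 5 / k)
    (hex : 1 / (k : ℝ) ≤ |θ - π / 3|) : sigma n k a t * rho n k a t θ ≤ 0.016 := by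
  obtain ⟨-, -, -, v4, -, -, -, -, -, -, v11, v12, v13, v14, v15⟩ := log_values
  have hpar := hP.1
  have ha := hP.2.1
  have ha1 : 1 ≤ a := ha.pos
  have hk1 : 1 ≤ k := by omega
  have hk0 : (0 : ℝ) < k := by exact_mod_cast hk1
  have hu0 : (0 : ℝ) ≤ (n : ℝ) / k := by positivity
  rcases lt_or_ge k 30 with h30 | h30
  · have h := LL_C hk1 (by norm_num) hn (hP.lt30 h30)
    have e : (((31 : ℕ) : ℝ) / 2) = 31 / 2 := by norm_num
    rw [e] at h
    exact f_C26 hk hpar ha ha5 hn (by linarith)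
      (kT_le hk1 ha1 (by norm_num) (by norm_num) (by norm_num)
        (by linarith : log (31 / 2) ≤ LL n k a)) ht htT h6 hpi hex
  rcases lt_or_ge k 60 with h60 | h60
  · have h := LL_C hk1 (by norm_num) hn (hP.lt60 h60)
    have e : (((20 : ℕ) : ℝ) / 2) = 10 := by norm_num
    rw [e] at h
    exact f_C30 h30 hpar ha ha5 hn (by linarith)
      (kT_le hk1 ha1 (by norm_num) (by norm_num) (by norm_num)
        (by linarith : log 10 ≤ LL n k a)) ht htT h6 hpi hex
  rcases lt_or_ge k 100 with h100 | h100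
  · have h := LL_C hk1 (by norm_num) hn (hP.lt100 h100)
    have e : (((8 : ℕ) : ℝ) / 2) = 4 := by norm_num
    rw [e] at h
    exact f_C60 h60 hpar ha ha5 hn (by linarith)
      (kT_le hk1 ha1 (by norm_num) (by norm_num) (by norm_num)
        (by linarith : log 4 ≤ LL n k a)) ht htT h6 hpi hex
  rcases Nat.lt_or_ge a 7 with h7 | h7
  · have ha' : a = 5 := by
      rcases ha with ⟨m, hm⟩
      omega
    subst ha'
    rcases lt_or_ge k 140 with h140 | h140
    · have hn1 := hP.lt140 h140 rfl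
      have h := LL_C5 hk1 hn hn1
      have hn1R : (k : ℝ) ≤ 20 * n := by exact_mod_cast hn1
      have hu1 : (1 / 20 : ℝ) ≤ (n : ℝ) / k := by rw [le_div_iff₀ hk0]; linarith
      exact f_C100a5 h100 hpar ha ha5 hn hn1 (by linarith)
        (kT_le hk1 ha1 (by norm_num) (by norm_num) (by norm_num)
          (by linarith : log (11 / 4) ≤ LL n k 5)) ht htT h6 hpi hex
    · have h := LL_C' hk1 (by norm_num) hn (le_refl 5)
      have e : (((5 : ℕ) : ℝ) / 2) = 5 / 2 := by norm_num
      rw [e] at h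
      exact f_C140 h140 hpar ha ha5 hn (by linarith)
        (kT_le hk1 ha1 (by norm_num) (by norm_num) (by norm_num)
          (by linarith : log (5 / 2) ≤ LL n k 5)) ht htT h6 hpi hex
  · have h := LL_C' hk1 (by norm_num) hn h7
    have e : (((7 : ℕ) : ℝ) / 2) = 7 / 2 := by norm_num
    rw [e] at h
    exact f_C100a7 h100 hpar ha ha5 hn (by linarith)
      (kT_le hk1 ha1 (by norm_num) (by norm_num) (by norm_num)
        (by linarith : log (7 / 2) ≤ LL n k a)) ht htT h6 hpi hex

end Pool.Agent.SignedQ.Far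
end
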