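import Pool.Agent.Lib.MP_cf17a0_co.Far.GU1

section

/-! # FAR arcs: the U lemma, intervals (generated) -/

namespace Pool.Agent.SignedQ.Far

open Real Finset

theorem UI_L2 {k : ℕ} (hk : 26 ≤ k) {t θ : ℝ} {v₁ b1 b2 b3 b4 b5 : ℝ} (ht : 0 < t)
    (ht' : t ≤ 1 / 26) (hv : k * t ≤ v₁) (hB : BB v₁ b1 b2 b3 b4 b5) (h0 : 0.25 ≤ θ) (h1 : θ ≤ 0.45) :
    UU k t θ ≤ k * (-(0.01565 / 4)) + ((41 / 100 * (1.026 - 11 / 12) + (b1 + 41 / 100 * log (1 / (k * t))) * (1.026 / 2)) +
      (2 / 9 * (4.042 - 11 / 12) + (b2 + 2 / 9 * log (1 / (k * t))) * (4.042 / 2)) +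
      (1 / 6 * (1.281 - 11 / 12) + (b3 + 1 / 6 * log (1 / (k * t))) * (1.281 / 2)) +
      (1 / 9 * (2.0859 - 11 / 12) + (b4 + 1 / 9 * log (1 / (k * t))) * (2.0859 / 2)) +
      (1 / 18 * (2.3198 - 11 / 12) + (b5 + 1 / 18 * log (1 / (k * t))) * (2.3198 / 2))) -
      5 / 12 * log (1 / t) - 1 / 12 * log 6 + t / 4 := by
  have hp1 := pi_gt_d6
  have hp2 := pi_lt_d6
  norm_num at hp1 hp2 h0 h1
  have hK := K_le (k := k) (θ := θ) (x := 0.031087) (y := 0.01565) ht ht'
    (one_sub_cos_ge (a := 0.25) (by norm_num) (by norm_num; linarith) (by linarith) (by norm_num))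
    (by norm_num) (log_le_neg (by norm_num) (by norm_num) (by norm_num)
      (by norm_num [Finset.sum_range_succ, Nat.factorial])) (by norm_num)
  have H1 := one_nc (l := 1) (by norm_num) (by norm_num) hk ht hv θ hB.h1 (q := 1.026)
    (by norm_num) (le_trans (by norm_num) (abs_sin_ge 0 (r := 1.3457) (by norm_num)
      (by norm_num; linarith) (by norm_num; linarith) (by norm_num; linarith)))
  rw [al1] at H1
  have H2 := one_nc (l := 2) (by norm_num) (by norm_num) hk ht hv θ hB.h2 (q := 4.042)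
    (by norm_num) (le_trans (by norm_num) (abs_sin_ge 1 (r := 0.25) (by norm_num)
      (by norm_num; linarith) (by norm_num; linarith) (by norm_num; linarith)))
  rw [al2] at H2
  have H3 := one_nc (l := 3) (by norm_num) (by norm_num) hk ht hv θ hB.h3 (q := 1.281)
    (by norm_num) (le_trans (by norm_num) (abs_sin_ge 1 (r := 0.8957) (by norm_num)
      (by norm_num; linarith) (by norm_num; linarith) (by norm_num; linarith)))
  rw [al3] at H3
  have H4 := one_nc (l := 4) (by norm_num) (by norm_num) hk ht hv θ hB.h4 (q := 2.0859)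
    (by norm_num) (le_trans (by norm_num) (abs_sin_ge 2 (r := 0.5) (by norm_num)
      (by norm_num; linarith) (by norm_num; linarith) (by norm_num; linarith)))
  rw [al4] at H4
  have H5 := one_nc (l := 5) (by norm_num) (by norm_num) hk ht hv θ hB.h5 (q := 2.3198)
    (by norm_num) (le_trans (by norm_num) (abs_sin_ge 2 (r := 0.4457) (by norm_num)
      (by norm_num; linarith) (by norm_num; linarith) (by norm_num; linarith)))
  rw [al5] at H5
  exact UU_core ht hK H1 H2 H3 H4 H5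

theorem UI_a {k : ℕ} (hk : 26 ≤ k) {t θ : ℝ} {v₁ b1 b2 b3 b4 b5 : ℝ} (ht : 0 < t)
    (ht' : t ≤ 1 / 26) (hv : k * t ≤ v₁) (hB : BB v₁ b1 b2 b3 b4 b5) (h0 : 0.45 ≤ θ) (h1 : θ ≤ 0.59) :
    UU k t θ ≤ k * (-(0.05103 / 4)) + ((41 / 100 * (1.0453 - 11 / 12) + (b1 + 41 / 100 * log (1 / (k * t))) * (1.0453 / 2)) +
      (2 / 9 * (2.2991 - 11 / 12) + (b2 + 2 / 9 * log (1 / (k * t))) * (2.2991 / 2)) +
      (1 / 6 * (1.5793 - 11 / 12) + (b3 + 1 / 6 * log (1 / (k * t))) * (1.5793 / 2)) +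
      (1 / 9 * (1.2767 - 11 / 12) + (b4 + 1 / 9 * log (1 / (k * t))) * (1.2767 / 2)) +
      (1 / 18 * (10.4653 - 11 / 12) + (b5 + 1 / 18 * log (1 / (k * t))) * (10.4653 / 2))) -
      5 / 12 * log (1 / t) - 1 / 12 * log 6 + t / 4 := by
  have hp1 := pi_gt_d6
  have hp2 := pi_lt_d6
  norm_num at hp1 hp2 h0 h1
  have hK := K_le (k := k) (θ := θ) (x := 0.099552) (y := 0.05103) ht ht'
    (one_sub_cos_ge (a := 0.45) (by norm_num) (by norm_num; linarith) (by linarith) (by norm_num))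
    (by norm_num) (log_le_neg (by norm_num) (by norm_num) (by norm_num)
      (by norm_num [Finset.sum_range_succ, Nat.factorial])) (by norm_num)
  have H1 := one_nc (l := 1) (by norm_num) (by norm_num) hk ht hv θ hB.h1 (q := 1.0453)
    (by norm_num) (le_trans (by norm_num) (abs_sin_ge 0 (r := 1.2757) (by norm_num)
      (by norm_num; linarith) (by norm_num; linarith) (by norm_num; linarith)))
  rw [al1] at H1
  have H2 := one_nc (l := 2) (by norm_num) (by norm_num) hk ht hv θ hB.h2 (q := 2.2991)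
    (by norm_num) (le_trans (by norm_num) (abs_sin_ge 1 (r := 0.45) (by norm_num)
      (by norm_num; linarith) (by norm_num; linarith) (by norm_num; linarith)))
  rw [al2] at H2
  have H3 := one_nc (l := 3) (by norm_num) (by norm_num) hk ht hv θ hB.h3 (q := 1.5793)
    (by norm_num) (le_trans (by norm_num) (abs_sin_ge 1 (r := 0.6857) (by norm_num)
      (by norm_num; linarith) (by norm_num; linarith) (by norm_num; linarith)))
  rw [al3] at H3
  have H4 := one_nc (l := 4) (by norm_num) (by norm_num) hk ht hv θ hB.h4 (q := 1.2767)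
    (by norm_num) (le_trans (by norm_num) (abs_sin_ge 2 (r := 0.9) (by norm_num)
      (by norm_num; linarith) (by norm_num; linarith) (by norm_num; linarith)))
  rw [al4] at H4
  have H5 := one_nc (l := 5) (by norm_num) (by norm_num) hk ht hv θ hB.h5 (q := 10.4653)
    (by norm_num) (le_trans (by norm_num) (abs_sin_ge 2 (r := 0.0957) (by norm_num)
      (by norm_num; linarith) (by norm_num; linarith) (by norm_num; linarith)))
  rw [al5] at H5
  exact UU_core ht hK H1 H2 H3 H4 H5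

theorem UI_p5 {k : ℕ} (hk : 26 ≤ k) {t θ : ℝ} {v₁ b1 b2 b3 b4 b5 : ℝ} (ht : 0 < t)
    (ht' : t ≤ 1 / 26) (hv : k * t ≤ v₁) (hB : BB v₁ b1 b2 b3 b4 b5) (h0 : 0.59 ≤ θ) (h1 : θ ≤ 0.67) :
    UU k t θ ≤ k * (-(0.08827 / 4)) + ((41 / 100 * (1.059 - 11 / 12) + (b1 + 41 / 100 * log (1 / (k * t))) * (1.059 / 2)) +
      (2 / 9 * (1.7974 - 11 / 12) + (b2 + 2 / 9 * log (1 / (k * t))) * (1.7974 / 2)) +
      (1 / 6 * (1.8657 - 11 / 12) + (b3 + 1 / 6 * log (1 / (k * t))) * (1.8657 / 2)) +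
      (1 / 9 * (1.0816 - 11 / 12) + (b4 + 1 / 9 * log (1 / (k * t))) * (1.0816 / 2)) +
      (k * (b5 + 1 / 18) + 1 / 18 * k * log (1 / (k * t)) + b5 / 2 + 1 / 18 * log (1 / (k * t)) / 2 - 1 / 18 * 0.9189)) -
      5 / 12 * log (1 / t) - 1 / 12 * log 6 + t / 4 := by
  have hp1 := pi_gt_d6
  have hp2 := pi_lt_d6
  norm_num at hp1 hp2 h0 h1
  have hK := K_le (k := k) (θ := θ) (x := 0.169059) (y := 0.08827) ht ht'
    (one_sub_cos_ge (a := 0.59) (by norm_num) (by norm_num; linarith) (by linarith) (by norm_num))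
    (by norm_num) (log_le_neg (by norm_num) (by norm_num) (by norm_num)
      (by norm_num [Finset.sum_range_succ, Nat.factorial])) (by norm_num)
  have H1 := one_nc (l := 1) (by norm_num) (by norm_num) hk ht hv θ hB.h1 (q := 1.059)
    (by norm_num) (le_trans (by norm_num) (abs_sin_ge 0 (r := 1.2357) (by norm_num)
      (by norm_num; linarith) (by norm_num; linarith) (by norm_num; linarith)))
  rw [al1] at H1
  have H2 := one_nc (l := 2) (by norm_num) (by norm_num) hk ht hv θ hB.h2 (q := 1.7974)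
    (by norm_num) (le_trans (by norm_num) (abs_sin_ge 1 (r := 0.59) (by norm_num)
      (by norm_num; linarith) (by norm_num; linarith) (by norm_num; linarith)))
  rw [al2] at H2
  have H3 := one_nc (l := 3) (by norm_num) (by norm_num) hk ht hv θ hB.h3 (q := 1.8657)
    (by norm_num) (le_trans (by norm_num) (abs_sin_ge 1 (r := 0.5657) (by norm_num)
      (by norm_num; linarith) (by norm_num; linarith) (by norm_num; linarith)))
  rw [al3] at H3
  have H4 := one_nc (l := 4) (by norm_num) (by norm_num) hk ht hv θ hB.h4 (q := 1.0816)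
    (by norm_num) (le_trans (by norm_num) (abs_sin_ge 2 (r := 1.18) (by norm_num)
      (by norm_num; linarith) (by norm_num; linarith) (by norm_num; linarith)))
  rw [al4] at H4
  have H5 := one_cap (l := 5) (by norm_num) (by norm_num) hk ht hv θ hB.h5
  rw [al5] at H5
  exact UU_core ht hK H1 H2 H3 H4 H5

theorem UI_b {k : ℕ} (hk : 26 ≤ k) {t θ : ℝ} {v₁ b1 b2 b3 b4 b5 : ℝ} (ht : 0 < t)
    (ht' : t ≤ 1 / 26) (hv : k * t ≤ v₁) (hB : BB v₁ b1 b2 b3 b4 b5) (h0 : 0.67 ≤ θ) (h1 : θ ≤ 0.8) :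
    UU k t θ ≤ k * (-(0.11434 / 4)) + ((41 / 100 * (1.0858 - 11 / 12) + (b1 + 41 / 100 * log (1 / (k * t))) * (1.0858 / 2)) +
      (2 / 9 * (1.6104 - 11 / 12) + (b2 + 2 / 9 * log (1 / (k * t))) * (1.6104 / 2)) +
      (1 / 6 * (2.7604 - 11 / 12) + (b3 + 1 / 6 * log (1 / (k * t))) * (2.7604 / 2)) +
      (1 / 9 * (1.0273 - 11 / 12) + (b4 + 1 / 9 * log (1 / (k * t))) * (1.0273 / 2)) +
      (1 / 18 * (9.6144 - 11 / 12) + (b5 + 1 / 18 * log (1 / (k * t))) * (9.6144 / 2))) -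
      5 / 12 * log (1 / t) - 1 / 12 * log 6 + t / 4 := by
  have hp1 := pi_gt_d6
  have hp2 := pi_lt_d6
  norm_num at hp1 hp2 h0 h1
  have hK := K_le (k := k) (θ := θ) (x := 0.216178) (y := 0.11434) ht ht'
    (one_sub_cos_ge (a := 0.67) (by norm_num) (by norm_num; linarith) (by linarith) (by norm_num))
    (by norm_num) (log_le_neg (by norm_num) (by norm_num) (by norm_num)
      (by norm_num [Finset.sum_range_succ, Nat.factorial])) (by norm_num)
  have H1 := one_nc (l := 1) (by norm_num) (by norm_num) hk ht hv θ hB.h1 (q := 1.0858)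
    (by norm_num) (le_trans (by norm_num) (abs_sin_ge 0 (r := 1.1707) (by norm_num)
      (by norm_num; linarith) (by norm_num; linarith) (by norm_num; linarith)))
  rw [al1] at H1
  have H2 := one_nc (l := 2) (by norm_num) (by norm_num) hk ht hv θ hB.h2 (q := 1.6104)
    (by norm_num) (le_trans (by norm_num) (abs_sin_ge 1 (r := 0.67) (by norm_num)
      (by norm_num; linarith) (by norm_num; linarith) (by norm_num; linarith)))
  rw [al2] at H2
  have H3 := one_nc (l := 3) (by norm_num) (by norm_num) hk ht hv θ hB.h3 (q := 2.7604)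
    (by norm_num) (le_trans (by norm_num) (abs_sin_ge 1 (r := 0.3707) (by norm_num)
      (by norm_num; linarith) (by norm_num; linarith) (by norm_num; linarith)))
  rw [al3] at H3
  have H4 := one_nc (l := 4) (by norm_num) (by norm_num) hk ht hv θ hB.h4 (q := 1.0273)
    (by norm_num) (le_trans (by norm_num) (abs_sin_ge 2 (r := 1.34) (by norm_num)
      (by norm_num; linarith) (by norm_num; linarith) (by norm_num; linarith)))
  rw [al4] at H4
  have H5 := one_nc (l := 5) (by norm_num) (by norm_num) hk ht hv θ hB.h5 (q := 9.6144)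
    (by norm_num) (le_trans (by norm_num) (abs_sin_ge 3 (r := 0.1042) (by norm_num)
      (by norm_num; linarith) (by norm_num; linarith) (by norm_num; linarith)))
  rw [al5] at H5
  exact UU_core ht hK H1 H2 H3 H4 H5

theorem UI_p3a {k : ℕ} (hk : 26 ≤ k) {t θ : ℝ} {v₁ b1 b2 b3 b4 b5 : ℝ} (ht : 0 < t)
    (ht' : t ≤ 1 / 26) (hv : k * t ≤ v₁) (hB : BB v₁ b1 b2 b3 b4 b5) (h0 : 0.8 ≤ θ) (h1 : θ ≤ 0.92) :
    UU k t θ ≤ k * (-(0.16438 / 4)) + ((41 / 100 * (1.1161 - 11 / 12) + (b1 + 41 / 100 * log (1 / (k * t))) * (1.1161 / 2)) +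
      (2 / 9 * (1.3941 - 11 / 12) + (b2 + 2 / 9 * log (1 / (k * t))) * (1.3941 / 2)) +
      (1 / 6 * (5.2758 - 11 / 12) + (b3 + 1 / 6 * log (1 / (k * t))) * (5.2758 / 2)) +
      (1 / 9 * (1.0375 - 11 / 12) + (b4 + 1 / 9 * log (1 / (k * t))) * (1.0375 / 2)) +
      (1 / 18 * (2.4031 - 11 / 12) + (b5 + 1 / 18 * log (1 / (k * t))) * (2.4031 / 2))) -
      5 / 12 * log (1 / t) - 1 / 12 * log 6 + t / 4 := by
  have hp1 := pi_gt_d6
  have hp2 := pi_lt_d6
  norm_num at hp1 hp2 h0 h1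
  have hK := K_le (k := k) (θ := θ) (x := 0.303293) (y := 0.16438) ht ht'
    (one_sub_cos_ge (a := 0.8) (by norm_num) (by norm_num; linarith) (by linarith) (by norm_num))
    (by norm_num) (log_le_neg (by norm_num) (by norm_num) (by norm_num)
      (by norm_num [Finset.sum_range_succ, Nat.factorial])) (by norm_num)
  have H1 := one_nc (l := 1) (by norm_num) (by norm_num) hk ht hv θ hB.h1 (q := 1.1161)
    (by norm_num) (le_trans (by norm_num) (abs_sin_ge 0 (r := 1.1107) (by norm_num)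
      (by norm_num; linarith) (by norm_num; linarith) (by norm_num; linarith)))
  rw [al1] at H1
  have H2 := one_nc (l := 2) (by norm_num) (by norm_num) hk ht hv θ hB.h2 (q := 1.3941)
    (by norm_num) (le_trans (by norm_num) (abs_sin_ge 1 (r := 0.8) (by norm_num)
      (by norm_num; linarith) (by norm_num; linarith) (by norm_num; linarith)))
  rw [al2] at H2
  have H3 := one_nc (l := 3) (by norm_num) (by norm_num) hk ht hv θ hB.h3 (q := 5.2758)
    (by norm_num) (le_trans (by norm_num) (abs_sin_ge 1 (r := 0.1907) (by norm_num)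
      (by norm_num; linarith) (by norm_num; linarith) (by norm_num; linarith)))
  rw [al3] at H3
  have H4 := one_nc (l := 4) (by norm_num) (by norm_num) hk ht hv θ hB.h4 (q := 1.0375)
    (by norm_num) (le_trans (by norm_num) (abs_sin_ge 2 (r := 1.3015) (by norm_num)
      (by norm_num; linarith) (by norm_num; linarith) (by norm_num; linarith)))
  rw [al4] at H4
  have H5 := one_nc (l := 5) (by norm_num) (by norm_num) hk ht hv θ hB.h5 (q := 2.4031)
    (by norm_num) (le_trans (by norm_num) (abs_sin_ge 3 (r := 0.4292) (by norm_num)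
      (by norm_num; linarith) (by norm_num; linarith) (by norm_num; linarith)))
  rw [al5] at H5
  exact UU_core ht hK H1 H2 H3 H4 H5

theorem UI_p3a2 {k : ℕ} (hk : 26 ≤ k) {t θ : ℝ} {v₁ b1 b2 b3 b4 b5 : ℝ} (ht : 0 < t)
    (ht' : t ≤ 1 / 26) (hv : k * t ≤ v₁) (hB : BB v₁ b1 b2 b3 b4 b5) (h0 : 0.92 ≤ θ) (h1 : θ ≤ 1) :
    UU k t θ ≤ k * (-(0.21941 / 4)) + ((41 / 100 * (1.1396 - 11 / 12) + (b1 + 41 / 100 * log (1 / (k * t))) * (1.1396 / 2)) +
      (2 / 9 * (1.257 - 11 / 12) + (b2 + 2 / 9 * log (1 / (k * t))) * (1.257 / 2)) +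
      (1 / 6 * (14.1561 - 11 / 12) + (b3 + 1 / 6 * log (1 / (k * t))) * (14.1561 / 2)) +
      (1 / 9 * (1.0999 - 11 / 12) + (b4 + 1 / 9 * log (1 / (k * t))) * (1.0999 / 2)) +
      (1 / 18 * (1.5009 - 11 / 12) + (b5 + 1 / 18 * log (1 / (k * t))) * (1.5009 / 2))) -
      5 / 12 * log (1 / t) - 1 / 12 * log 6 + t / 4 := by
  have hp1 := pi_gt_d6
  have hp2 := pi_lt_d6
  norm_num at hp1 hp2 h0 h1
  have hK := K_le (k := k) (θ := θ) (x := 0.394179) (y := 0.21941) ht ht'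
    (one_sub_cos_ge (a := 0.92) (by norm_num) (by norm_num; linarith) (by linarith) (by norm_num))
    (by norm_num) (log_le_neg (by norm_num) (by norm_num) (by norm_num)
      (by norm_num [Finset.sum_range_succ, Nat.factorial])) (by norm_num)
  have H1 := one_nc (l := 1) (by norm_num) (by norm_num) hk ht hv θ hB.h1 (q := 1.1396)
    (by norm_num) (le_trans (by norm_num) (abs_sin_ge 0 (r := 1.0707) (by norm_num)
      (by norm_num; linarith) (by norm_num; linarith) (by norm_num; linarith)))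
  rw [al1] at H1
  have H2 := one_nc (l := 2) (by norm_num) (by norm_num) hk ht hv θ hB.h2 (q := 1.257)
    (by norm_num) (le_trans (by norm_num) (abs_sin_ge 1 (r := 0.92) (by norm_num)
      (by norm_num; linarith) (by norm_num; linarith) (by norm_num; linarith)))
  rw [al2] at H2
  have H3 := one_nc (l := 3) (by norm_num) (by norm_num) hk ht hv θ hB.h3 (q := 14.1561)
    (by norm_num) (le_trans (by norm_num) (abs_sin_ge 1 (r := 0.0707) (by norm_num)
      (by norm_num; linarith) (by norm_num; linarith) (by norm_num; linarith)))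
  rw [al3] at H3
  have H4 := one_nc (l := 4) (by norm_num) (by norm_num) hk ht hv θ hB.h4 (q := 1.0999)
    (by norm_num) (le_trans (by norm_num) (abs_sin_ge 2 (r := 1.1415) (by norm_num)
      (by norm_num; linarith) (by norm_num; linarith) (by norm_num; linarith)))
  rw [al4] at H4
  have H5 := one_nc (l := 5) (by norm_num) (by norm_num) hk ht hv θ hB.h5 (q := 1.5009)
    (by norm_num) (le_trans (by norm_num) (abs_sin_ge 3 (r := 0.7292) (by norm_num)
      (by norm_num; linarith) (by norm_num; linarith) (by norm_num; linarith)))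
  rw [al5] at H5
  exact UU_core ht hK H1 H2 H3 H4 H5

theorem UI_p3d {k : ℕ} (hk : 26 ≤ k) {t θ : ℝ} {v₁ b1 b2 b3 b4 b5 : ℝ} (ht : 0 < t)
    (ht' : t ≤ 1 / 26) (hv : k * t ≤ v₁) (hB : BB v₁ b1 b2 b3 b4 b5) (h0 : 1.2 ≤ θ) (h1 : θ ≤ 1.3) :
    UU k t θ ≤ k * (-(0.38375 / 4)) + ((41 / 100 * (1.2563 - 11 / 12) + (b1 + 41 / 100 * log (1 / (k * t))) * (1.2563 / 2)) +
      (2 / 9 * (1.073 - 11 / 12) + (b2 + 2 / 9 * log (1 / (k * t))) * (1.073 / 2)) +
      (1 / 6 * (4.4015 - 11 / 12) + (b3 + 1 / 6 * log (1 / (k * t))) * (4.4015 / 2)) +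
      (1 / 9 * (1.9402 - 11 / 12) + (b4 + 1 / 9 * log (1 / (k * t))) * (1.9402 / 2)) +
      (1 / 18 * (1.0102 - 11 / 12) + (b5 + 1 / 18 * log (1 / (k * t))) * (1.0102 / 2))) -
      5 / 12 * log (1 / t) - 1 / 12 * log 6 + t / 4 := by
  have hp1 := pi_gt_d6
  have hp2 := pi_lt_d6
  norm_num at hp1 hp2 h0 h1
  have hK := K_le (k := k) (θ := θ) (x := 0.63764) (y := 0.38375) ht ht'
    (one_sub_cos_ge (a := 1.2) (by norm_num) (by norm_num; linarith) (by linarith) (by norm_num))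
    (by norm_num) (log_le_neg (by norm_num) (by norm_num) (by norm_num)
      (by norm_num [Finset.sum_range_succ, Nat.factorial])) (by norm_num)
  have H1 := one_nc (l := 1) (by norm_num) (by norm_num) hk ht hv θ hB.h1 (q := 1.2563)
    (by norm_num) (le_trans (by norm_num) (abs_sin_ge 0 (r := 0.9207) (by norm_num)
      (by norm_num; linarith) (by norm_num; linarith) (by norm_num; linarith)))
  rw [al1] at H1
  have H2 := one_nc (l := 2) (by norm_num) (by norm_num) hk ht hv θ hB.h2 (q := 1.073)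
    (by norm_num) (le_trans (by norm_num) (abs_sin_ge 1 (r := 1.2) (by norm_num)
      (by norm_num; linarith) (by norm_num; linarith) (by norm_num; linarith)))
  rw [al2] at H2
  have H3 := one_nc (l := 3) (by norm_num) (by norm_num) hk ht hv θ hB.h3 (q := 4.4015)
    (by norm_num) (le_trans (by norm_num) (abs_sin_ge 2 (r := 0.2292) (by norm_num)
      (by norm_num; linarith) (by norm_num; linarith) (by norm_num; linarith)))
  rw [al3] at H3
  have H4 := one_nc (l := 4) (by norm_num) (by norm_num) hk ht hv θ hB.h4 (q := 1.9402)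
    (by norm_num) (le_trans (by norm_num) (abs_sin_ge 2 (r := 0.5415) (by norm_num)
      (by norm_num; linarith) (by norm_num; linarith) (by norm_num; linarith)))
  rw [al4] at H4
  have H5 := one_nc (l := 5) (by norm_num) (by norm_num) hk ht hv θ hB.h5 (q := 1.0102)
    (by norm_num) (le_trans (by norm_num) (abs_sin_ge 3 (r := 1.4292) (by norm_num)
      (by norm_num; linarith) (by norm_num; linarith) (by norm_num; linarith)))
  rw [al5] at H5
  exact UU_core ht hK H1 H2 H3 H4 H5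

theorem UI_c {k : ℕ} (hk : 26 ≤ k) {t θ : ℝ} {v₁ b1 b2 b3 b4 b5 : ℝ} (ht : 0 < t)
    (ht' : t ≤ 1 / 26) (hv : k * t ≤ v₁) (hB : BB v₁ b1 b2 b3 b4 b5) (h0 : 1.3 ≤ θ) (h1 : θ ≤ 1.52) :
    UU k t θ ≤ k * (-(0.45587 / 4)) + ((41 / 100 * (1.3798 - 11 / 12) + (b1 + 41 / 100 * log (1 / (k * t))) * (1.3798 / 2)) +
      (2 / 9 * (1.0379 - 11 / 12) + (b2 + 2 / 9 * log (1 / (k * t))) * (1.0379 / 2)) +
      (1 / 6 * (2.7015 - 11 / 12) + (b3 + 1 / 6 * log (1 / (k * t))) * (2.7015 / 2)) +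
      (1 / 9 * (9.8692 - 11 / 12) + (b4 + 1 / 9 * log (1 / (k * t))) * (9.8692 / 2)) +
      (1 / 18 * (1.2644 - 11 / 12) + (b5 + 1 / 18 * log (1 / (k * t))) * (1.2644 / 2))) -
      5 / 12 * log (1 / t) - 1 / 12 * log 6 + t / 4 := by
  have hp1 := pi_gt_d6
  have hp2 := pi_lt_d6
  norm_num at hp1 hp2 h0 h1
  have hK := K_le (k := k) (θ := θ) (x := 0.732497) (y := 0.45587) ht ht'
    (one_sub_cos_ge (a := 1.3) (by norm_num) (by norm_num; linarith) (by linarith) (by norm_num))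
    (by norm_num) (log_le_neg (by norm_num) (by norm_num) (by norm_num)
      (by norm_num [Finset.sum_range_succ, Nat.factorial])) (by norm_num)
  have H1 := one_nc (l := 1) (by norm_num) (by norm_num) hk ht hv θ hB.h1 (q := 1.3798)
    (by norm_num) (le_trans (by norm_num) (abs_sin_ge 0 (r := 0.8107) (by norm_num)
      (by norm_num; linarith) (by norm_num; linarith) (by norm_num; linarith)))
  rw [al1] at H1
  have H2 := one_nc (l := 2) (by norm_num) (by norm_num) hk ht hv θ hB.h2 (q := 1.0379)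
    (by norm_num) (le_trans (by norm_num) (abs_sin_ge 1 (r := 1.3) (by norm_num)
      (by norm_num; linarith) (by norm_num; linarith) (by norm_num; linarith)))
  rw [al2] at H2
  have H3 := one_nc (l := 3) (by norm_num) (by norm_num) hk ht hv θ hB.h3 (q := 2.7015)
    (by norm_num) (le_trans (by norm_num) (abs_sin_ge 2 (r := 0.3792) (by norm_num)
      (by norm_num; linarith) (by norm_num; linarith) (by norm_num; linarith)))
  rw [al3] at H3
  have H4 := one_nc (l := 4) (by norm_num) (by norm_num) hk ht hv θ hB.h4 (q := 9.8692)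
    (by norm_num) (le_trans (by norm_num) (abs_sin_ge 2 (r := 0.1015) (by norm_num)
      (by norm_num; linarith) (by norm_num; linarith) (by norm_num; linarith)))
  rw [al4] at H4
  have H5 := one_nc (l := 5) (by norm_num) (by norm_num) hk ht hv θ hB.h5 (q := 1.2644)
    (by norm_num) (le_trans (by norm_num) (abs_sin_ge 3 (r := 0.9123) (by norm_num)
      (by norm_num; linarith) (by norm_num; linarith) (by norm_num; linarith)))
  rw [al5] at H5
  exact UU_core ht hK H1 H2 H3 H4 H5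

theorem UI_p2 {k : ℕ} (hk : 26 ≤ k) {t θ : ℝ} {v₁ b1 b2 b3 b4 b5 : ℝ} (ht : 0 < t)
    (ht' : t ≤ 1 / 26) (hv : k * t ≤ v₁) (hB : BB v₁ b1 b2 b3 b4 b5) (h0 : 1.52 ≤ θ) (h1 : θ ≤ 1.62) :
    UU k t θ ≤ k * (-(0.64326 / 4)) + ((41 / 100 * (1.4505 - 11 / 12) + (b1 + 41 / 100 * log (1 / (k * t))) * (1.4505 / 2)) +
      (2 / 9 * (1.0015 - 11 / 12) + (b2 + 2 / 9 * log (1 / (k * t))) * (1.0015 / 2)) +
      (1 / 6 * (1.5356 - 11 / 12) + (b3 + 1 / 6 * log (1 / (k * t))) * (1.5356 / 2)) +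
      (k * (b4 + 1 / 9) + 1 / 9 * k * log (1 / (k * t)) + b4 / 2 + 1 / 9 * log (1 / (k * t)) / 2 - 1 / 9 * 0.9189) +
      (1 / 18 * (1.6262 - 11 / 12) + (b5 + 1 / 18 * log (1 / (k * t))) * (1.6262 / 2))) -
      5 / 12 * log (1 / t) - 1 / 12 * log 6 + t / 4 := by
  have hp1 := pi_gt_d6
  have hp2 := pi_lt_d6
  norm_num at hp1 hp2 h0 h1
  have hK := K_le (k := k) (θ := θ) (x := 0.949207) (y := 0.64326) ht ht'
    (one_sub_cos_ge (a := 1.52) (by norm_num) (by norm_num; linarith) (by linarith) (by norm_num))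
    (by norm_num) (log_le_neg (by norm_num) (by norm_num) (by norm_num)
      (by norm_num [Finset.sum_range_succ, Nat.factorial])) (by norm_num)
  have H1 := one_nc (l := 1) (by norm_num) (by norm_num) hk ht hv θ hB.h1 (q := 1.4505)
    (by norm_num) (le_trans (by norm_num) (abs_sin_ge 0 (r := 0.7607) (by norm_num)
      (by norm_num; linarith) (by norm_num; linarith) (by norm_num; linarith)))
  rw [al1] at H1
  have H2 := one_nc (l := 2) (by norm_num) (by norm_num) hk ht hv θ hB.h2 (q := 1.0015)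
    (by norm_num) (le_trans (by norm_num) (abs_sin_ge 1 (r := 1.52) (by norm_num)
      (by norm_num; linarith) (by norm_num; linarith) (by norm_num; linarith)))
  rw [al2] at H2
  have H3 := one_nc (l := 3) (by norm_num) (by norm_num) hk ht hv θ hB.h3 (q := 1.5356)
    (by norm_num) (le_trans (by norm_num) (abs_sin_ge 2 (r := 0.7092) (by norm_num)
      (by norm_num; linarith) (by norm_num; linarith) (by norm_num; linarith)))
  rw [al3] at H3
  have H4 := one_cap (l := 4) (by norm_num) (by norm_num) hk ht hv θ hB.h4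
  rw [al4] at H4
  have H5 := one_nc (l := 5) (by norm_num) (by norm_num) hk ht hv θ hB.h5 (q := 1.6262)
    (by norm_num) (le_trans (by norm_num) (abs_sin_ge 3 (r := 0.6623) (by norm_num)
      (by norm_num; linarith) (by norm_num; linarith) (by norm_num; linarith)))
  rw [al5] at H5
  exact UU_core ht hK H1 H2 H3 H4 H5

theorem UI_d {k : ℕ} (hk : 26 ≤ k) {t θ : ℝ} {v₁ b1 b2 b3 b4 b5 : ℝ} (ht : 0 < t)
    (ht' : t ≤ 1 / 26) (hv : k * t ≤ v₁) (hB : BB v₁ b1 b2 b3 b4 b5) (h0 : 1.62 ≤ θ) (h1 : θ ≤ 1.75) :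
    UU k t θ ≤ k * (-(0.74312 / 4)) + ((41 / 100 * (1.5603 - 11 / 12) + (b1 + 41 / 100 * log (1 / (k * t))) * (1.5603 / 2)) +
      (2 / 9 * (1.0164 - 11 / 12) + (b2 + 2 / 9 * log (1 / (k * t))) * (1.0164 / 2)) +
      (1 / 6 * (1.3205 - 11 / 12) + (b3 + 1 / 6 * log (1 / (k * t))) * (1.3205 / 2)) +
      (1 / 9 * (10.1791 - 11 / 12) + (b4 + 1 / 9 * log (1 / (k * t))) * (10.1791 / 2)) +
      (1 / 18 * (3.0217 - 11 / 12) + (b5 + 1 / 18 * log (1 / (k * t))) * (3.0217 / 2))) -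
      5 / 12 * log (1 / t) - 1 / 12 * log 6 + t / 4 := by
  have hp1 := pi_gt_d6
  have hp2 := pi_lt_d6
  norm_num at hp1 hp2 h0 h1
  have hK := K_le (k := k) (θ := θ) (x := 1.04915) (y := 0.74312) ht ht'
    (one_sub_cos_ge (a := 1.62) (by norm_num) (by norm_num; linarith) (by linarith) (by norm_num))
    (by norm_num) (log_le_neg (by norm_num) (by norm_num) (by norm_num)
      (by norm_num [Finset.sum_range_succ, Nat.factorial])) (by norm_num)
  have H1 := one_nc (l := 1) (by norm_num) (by norm_num) hk ht hv θ hB.h1 (q := 1.5603)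
    (by norm_num) (le_trans (by norm_num) (abs_sin_ge 0 (r := 0.6957) (by norm_num)
      (by norm_num; linarith) (by norm_num; linarith) (by norm_num; linarith)))
  rw [al1] at H1
  have H2 := one_nc (l := 2) (by norm_num) (by norm_num) hk ht hv θ hB.h2 (q := 1.0164)
    (by norm_num) (le_trans (by norm_num) (abs_sin_ge 1 (r := 1.3915) (by norm_num)
      (by norm_num; linarith) (by norm_num; linarith) (by norm_num; linarith)))
  rw [al2] at H2
  have H3 := one_nc (l := 3) (by norm_num) (by norm_num) hk ht hv θ hB.h3 (q := 1.3205)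
    (by norm_num) (le_trans (by norm_num) (abs_sin_ge 2 (r := 0.8592) (by norm_num)
      (by norm_num; linarith) (by norm_num; linarith) (by norm_num; linarith)))
  rw [al3] at H3
  have H4 := one_nc (l := 4) (by norm_num) (by norm_num) hk ht hv θ hB.h4 (q := 10.1791)
    (by norm_num) (le_trans (by norm_num) (abs_sin_ge 3 (r := 0.0984) (by norm_num)
      (by norm_num; linarith) (by norm_num; linarith) (by norm_num; linarith)))
  rw [al4] at H4
  have H5 := one_nc (l := 5) (by norm_num) (by norm_num) hk ht hv θ hB.h5 (q := 3.0217)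
    (by norm_num) (le_trans (by norm_num) (abs_sin_ge 3 (r := 0.3373) (by norm_num)
      (by norm_num; linarith) (by norm_num; linarith) (by norm_num; linarith)))
  rw [al5] at H5
  exact UU_core ht hK H1 H2 H3 H4 H5

theorem UI_t5 {k : ℕ} (hk : 26 ≤ k) {t θ : ℝ} {v₁ b1 b2 b3 b4 b5 : ℝ} (ht : 0 < t)
    (ht' : t ≤ 1 / 26) (hv : k * t ≤ v₁) (hB : BB v₁ b1 b2 b3 b4 b5) (h0 : 1.75 ≤ θ) (h1 : θ ≤ 2.1) :
    UU k t θ ≤ k * (-(0.88883 / 4)) + ((41 / 100 * (2.0102 - 11 / 12) + (b1 + 41 / 100 * log (1 / (k * t))) * (2.0102 / 2)) +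
      (2 / 9 * (1.1586 - 11 / 12) + (b2 + 2 / 9 * log (1 / (k * t))) * (1.1586 / 2)) +
      (1 / 6 * (1.1501 - 11 / 12) + (b3 + 1 / 6 * log (1 / (k * t))) * (1.1501 / 2)) +
      (1 / 9 * (2.8509 - 11 / 12) + (b4 + 1 / 9 * log (1 / (k * t))) * (2.8509 / 2)) +
      (k * (b5 + 1 / 18) + 1 / 18 * k * log (1 / (k * t)) + b5 / 2 + 1 / 18 * log (1 / (k * t)) / 2 - 1 / 18 * 0.9189)) -
      5 / 12 * log (1 / t) - 1 / 12 * log 6 + t / 4 := by
  have hp1 := pi_gt_d6
  have hp2 := pi_lt_d6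
  norm_num at hp1 hp2 h0 h1
  have hK := K_le (k := k) (θ := θ) (x := 1.178173) (y := 0.88883) ht ht'
    (one_sub_cos_ge (a := 1.75) (by norm_num) (by norm_num; linarith) (by linarith) (by norm_num))
    (by norm_num) (log_le_neg (by norm_num) (by norm_num) (by norm_num)
      (by norm_num [Finset.sum_range_succ, Nat.factorial])) (by norm_num)
  have H1 := one_nc (l := 1) (by norm_num) (by norm_num) hk ht hv θ hB.h1 (q := 2.0102)
    (by norm_num) (le_trans (by norm_num) (abs_sin_ge 0 (r := 0.5207) (by norm_num)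
      (by norm_num; linarith) (by norm_num; linarith) (by norm_num; linarith)))
  rw [al1] at H1
  have H2 := one_nc (l := 2) (by norm_num) (by norm_num) hk ht hv θ hB.h2 (q := 1.1586)
    (by norm_num) (le_trans (by norm_num) (abs_sin_ge 1 (r := 1.0415) (by norm_num)
      (by norm_num; linarith) (by norm_num; linarith) (by norm_num; linarith)))
  rw [al2] at H2
  have H3 := one_nc (l := 3) (by norm_num) (by norm_num) hk ht hv θ hB.h3 (q := 1.1501)
    (by norm_num) (le_trans (by norm_num) (abs_sin_ge 2 (r := 1.0542) (by norm_num)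
      (by norm_num; linarith) (by norm_num; linarith) (by norm_num; linarith)))
  rw [al3] at H3
  have H4 := one_nc (l := 4) (by norm_num) (by norm_num) hk ht hv θ hB.h4 (q := 2.8509)
    (by norm_num) (le_trans (by norm_num) (abs_sin_ge 3 (r := 0.3584) (by norm_num)
      (by norm_num; linarith) (by norm_num; linarith) (by norm_num; linarith)))
  rw [al4] at H4
  have H5 := one_cap (l := 5) (by norm_num) (by norm_num) hk ht hv θ hB.h5
  rw [al5] at H5
  exact UU_core ht hK H1 H2 H3 H4 H5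

theorem UI_m {k : ℕ} (hk : 26 ≤ k) {t θ : ℝ} {v₁ b1 b2 b3 b4 b5 : ℝ} (ht : 0 < t)
    (ht' : t ≤ 1 / 26) (hv : k * t ≤ v₁) (hB : BB v₁ b1 b2 b3 b4 b5) (h0 : 2.1 ≤ θ) (h1 : θ ≤ 2.6) :
    UU k t θ ≤ k * (-(1.39399 / 4)) + ((41 / 100 * (3.7397 - 11 / 12) + (b1 + 41 / 100 * log (1 / (k * t))) * (3.7397 / 2)) +
      (2 / 9 * (1.9402 - 11 / 12) + (b2 + 2 / 9 * log (1 / (k * t))) * (1.9402 / 2)) +
      (1 / 6 * (1.3777 - 11 / 12) + (b3 + 1 / 6 * log (1 / (k * t))) * (1.3777 / 2)) +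
      (1 / 9 * (1.1474 - 11 / 12) + (b4 + 1 / 9 * log (1 / (k * t))) * (1.1474 / 2)) +
      (1 / 18 * (1.9529 - 11 / 12) + (b5 + 1 / 18 * log (1 / (k * t))) * (1.9529 / 2))) -
      5 / 12 * log (1 / t) - 1 / 12 * log 6 + t / 4 := by
  have hp1 := pi_gt_d6
  have hp2 := pi_lt_d6
  norm_num at hp1 hp2 h0 h1
  have hK := K_le (k := k) (θ := θ) (x := 1.504401) (y := 1.39399) ht ht'
    (one_sub_cos_ge (a := 2.1) (by norm_num) (by norm_num; linarith) (by linarith) (by norm_num))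
    (by norm_num) (log_le_neg (by norm_num) (by norm_num) (by norm_num)
      (by norm_num [Finset.sum_range_succ, Nat.factorial])) (by norm_num)
  have H1 := one_nc (l := 1) (by norm_num) (by norm_num) hk ht hv θ hB.h1 (q := 3.7397)
    (by norm_num) (le_trans (by norm_num) (abs_sin_ge 0 (r := 0.2707) (by norm_num)
      (by norm_num; linarith) (by norm_num; linarith) (by norm_num; linarith)))
  rw [al1] at H1
  have H2 := one_nc (l := 2) (by norm_num) (by norm_num) hk ht hv θ hB.h2 (q := 1.9402)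
    (by norm_num) (le_trans (by norm_num) (abs_sin_ge 1 (r := 0.5415) (by norm_num)
      (by norm_num; linarith) (by norm_num; linarith) (by norm_num; linarith)))
  rw [al2] at H2
  have H3 := one_nc (l := 3) (by norm_num) (by norm_num) hk ht hv θ hB.h3 (q := 1.3777)
    (by norm_num) (le_trans (by norm_num) (abs_sin_ge 2 (r := 0.8123) (by norm_num)
      (by norm_num; linarith) (by norm_num; linarith) (by norm_num; linarith)))
  rw [al3] at H3
  have H4 := one_nc (l := 4) (by norm_num) (by norm_num) hk ht hv θ hB.h4 (q := 1.1474)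
    (by norm_num) (le_trans (by norm_num) (abs_sin_ge 3 (r := 1.0584) (by norm_num)
      (by norm_num; linarith) (by norm_num; linarith) (by norm_num; linarith)))
  rw [al4] at H4
  have H5 := one_nc (l := 5) (by norm_num) (by norm_num) hk ht hv θ hB.h5 (q := 1.9529)
    (by norm_num) (le_trans (by norm_num) (abs_sin_ge 4 (r := 0.5376) (by norm_num)
      (by norm_num; linarith) (by norm_num; linarith) (by norm_num; linarith)))
  rw [al5] at H5
  exact UU_core ht hK H1 H2 H3 H4 H5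

theorem UI_R2 {k : ℕ} (hk : 26 ≤ k) {t θ : ℝ} {v₁ b1 b2 b3 b4 b5 : ℝ} (ht : 0 < t)
    (ht' : t ≤ 1 / 26) (hv : k * t ≤ v₁) (hB : BB v₁ b1 b2 b3 b4 b5) (h0 : 2.6 ≤ θ) (h1 : θ ≤ 2.942) :
    UU k t θ ≤ k * (-(2.60703 / 4)) + ((41 / 100 * (10.0468 - 11 / 12) + (b1 + 41 / 100 * log (1 / (k * t))) * (10.0468 / 2)) +
      (2 / 9 * (5.046 - 11 / 12) + (b2 + 2 / 9 * log (1 / (k * t))) * (5.046 / 2)) +
      (1 / 6 * (3.3916 - 11 / 12) + (b3 + 1 / 6 * log (1 / (k * t))) * (3.3916 / 2)) +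
      (1 / 9 * (2.5735 - 11 / 12) + (b4 + 1 / 9 * log (1 / (k * t))) * (2.5735 / 2)) +
      (1 / 18 * (2.0901 - 11 / 12) + (b5 + 1 / 18 * log (1 / (k * t))) * (2.0901 / 2))) -
      5 / 12 * log (1 / t) - 1 / 12 * log 6 + t / 4 := by
  have hp1 := pi_gt_d6
  have hp2 := pi_lt_d6
  norm_num at hp1 hp2 h0 h1
  have hK := K_le (k := k) (θ := θ) (x := 1.85319) (y := 2.60703) ht ht'
    (one_sub_cos_ge (a := 2.6) (by norm_num) (by norm_num; linarith) (by linarith) (by norm_num))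
    (by norm_num) (log_le_neg (by norm_num) (by norm_num) (by norm_num)
      (by norm_num [Finset.sum_range_succ, Nat.factorial])) (by norm_num)
  have H1 := one_nc (l := 1) (by norm_num) (by norm_num) hk ht hv θ hB.h1 (q := 10.0468)
    (by norm_num) (le_trans (by norm_num) (abs_sin_ge 0 (r := 0.0997) (by norm_num)
      (by norm_num; linarith) (by norm_num; linarith) (by norm_num; linarith)))
  rw [al1] at H1
  have H2 := one_nc (l := 2) (by norm_num) (by norm_num) hk ht hv θ hB.h2 (q := 5.046)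
    (by norm_num) (le_trans (by norm_num) (abs_sin_ge 1 (r := 0.1995) (by norm_num)
      (by norm_num; linarith) (by norm_num; linarith) (by norm_num; linarith)))
  rw [al2] at H2
  have H3 := one_nc (l := 3) (by norm_num) (by norm_num) hk ht hv θ hB.h3 (q := 3.3916)
    (by norm_num) (le_trans (by norm_num) (abs_sin_ge 2 (r := 0.2993) (by norm_num)
      (by norm_num; linarith) (by norm_num; linarith) (by norm_num; linarith)))
  rw [al3] at H3
  have H4 := one_nc (l := 4) (by norm_num) (by norm_num) hk ht hv θ hB.h4 (q := 2.5735)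
    (by norm_num) (le_trans (by norm_num) (abs_sin_ge 3 (r := 0.3991) (by norm_num)
      (by norm_num; linarith) (by norm_num; linarith) (by norm_num; linarith)))
  rw [al4] at H4
  have H5 := one_nc (l := 5) (by norm_num) (by norm_num) hk ht hv θ hB.h5 (q := 2.0901)
    (by norm_num) (le_trans (by norm_num) (abs_sin_ge 4 (r := 0.4989) (by norm_num)
      (by norm_num; linarith) (by norm_num; linarith) (by norm_num; linarith)))
  rw [al5] at H5
  exact UU_core ht hK H1 H2 H3 H4 H5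

end Pool.Agent.SignedQ.Far
end

section

/-! # FAR arcs: the U lemma, intervals (generated) -/

namespace Pool.Agent.SignedQ.Far

open Real Finset

theorem t_le {k : ℕ} (hk : 26 ≤ k) {t : ℝ} (ht : 0 < t) (hv : k * t ≤ 1) : t ≤ 1 / 26 := by
  have hk' : (26 : ℝ) ≤ k := by exact_mod_cast hk
  have : 26 * t ≤ k * t := mul_le_mul_of_nonneg_right hk' ht.le
  linarith

theorem L_ge_ten {k : ℕ} (hk : 26 ≤ k) {t : ℝ} (ht : 0 < t) (hv : k * t ≤ 1 / 10) :
    2.3025 ≤ log (1 / (k * t)) := by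
  have hk' : (26 : ℝ) ≤ k := by exact_mod_cast hk
  refine log_ten_ge.trans (log_le_log (by norm_num) ?_)
  rw [le_div_iff₀ (by positivity)]
  linarith

theorem L_ge_third {k : ℕ} (hk : 26 ≤ k) {t : ℝ} (ht : 0 < t) (hv : k * t ≤ 1 / 3) :
    1.0986 ≤ log (1 / (k * t)) := by
  have hk' : (26 : ℝ) ≤ k := by exact_mod_cast hk
  refine FarC.n3'.trans (log_le_log (by norm_num) ?_)
  rw [le_div_iff₀ (by positivity)]
  linarith

theorem L_ge_one {k : ℕ} (hk : 26 ≤ k) {t : ℝ} (ht : 0 < t) (hv : k * t ≤ 1) :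
    0 ≤ log (1 / (k * t)) := by
  have hk' : (26 : ℝ) ≤ k := by exact_mod_cast hk
  refine log_nonneg ?_
  rw [le_div_iff₀ (by positivity)]
  linarith

theorem D_L2_ten {k : ℕ} (hk : 26 ≤ k) {t θ : ℝ} (ht : 0 < t) (hv : k * t ≤ 1 / 10)
    (h0 : 0.25 ≤ θ) (h1 : θ ≤ 0.45) {M : ℝ} (hM : fm (-(73 / 10000)) (1 / 18) (37 / 100) (133 / 200) k t ≤ M) :
    UU k t θ ≤ M - 5 / 12 * log (1 / t) - 1 / 12 * log 6 + t / 4 := by
  have hk' : (26 : ℝ) ≤ k := by exact_mod_cast hk
  have h := UI_L2 hk ht (t_le hk ht (hv.trans (by norm_num))) hv BB_ten h0 h1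
  have hL := L_ge_ten hk ht hv
  unfold fm at hM
  have hd := dom 2.3025 (a1 := (-(313 / 80000))) (a2 := 0) (a3 := (2637837371 / 2700000000)) (a4 := (141977 / 150000)) hk' hL hM (by norm_num) (by norm_num)
    (by norm_num) (by norm_num)
  refine h.trans ?_
  generalize log (1 / ((k : ℝ) * t)) = L at *
  norm_num at hd ⊢
  linarith

theorem D_a_ten {k : ℕ} (hk : 26 ≤ k) {t θ : ℝ} (ht : 0 < t) (hv : k * t ≤ 1 / 10)
    (h0 : 0.45 ≤ θ) (h1 : θ ≤ 0.59) {M : ℝ} (hM : fm (-(73 / 10000)) (1 / 18) (37 / 100) (133 / 200) k t ≤ M) :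
    UU k t θ ≤ M - 5 / 12 * log (1 / t) - 1 / 12 * log 6 + t / 4 := by
  have hk' : (26 : ℝ) ≤ k := by exact_mod_cast hk
  have h := UI_a hk ht (t_le hk ht (hv.trans (by norm_num))) hv BB_ten h0 h1
  have hL := L_ge_ten hk ht hv
  unfold fm at hM
  have hd := dom 2.3025 (a1 := (-(5103 / 400000))) (a2 := 0) (a3 := (90844097 / 108000000)) (a4 := (17333657 / 18000000)) hk' hL hM (by norm_num) (by norm_num)
    (by norm_num) (by norm_num)
  refine h.trans ?_
  generalize log (1 / ((k : ℝ) * t)) = L at *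
  norm_num at hd ⊢
  linarith

theorem D_p5_ten {k : ℕ} (hk : 26 ≤ k) {t θ : ℝ} (ht : 0 < t) (hv : k * t ≤ 1 / 10)
    (h0 : 0.59 ≤ θ) (h1 : θ ≤ 0.67) {M : ℝ} (hM : fm (-(73 / 10000)) (1 / 18) (37 / 100) (133 / 200) k t ≤ M) :
    UU k t θ ≤ M - 5 / 12 * log (1 / t) - 1 / 12 * log 6 + t / 4 := by
  have hk' : (26 : ℝ) ≤ k := by exact_mod_cast hk
  have h := UI_p5 hk ht (t_le hk ht (hv.trans (by norm_num))) hv BB_ten h0 h1
  have hL := L_ge_ten hk ht hv
  unfold fm at hM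
  have hd := dom 2.3025 (a1 := (-(26683 / 3600000))) (a2 := (1 / 18)) (a3 := (219279737 / 600000000)) (a4 := (594133 / 900000)) hk' hL hM (by norm_num) (by norm_num)
    (by norm_num) (by norm_num)
  refine h.trans ?_
  generalize log (1 / ((k : ℝ) * t)) = L at *
  norm_num at hd ⊢
  linarith

theorem D_b_ten {k : ℕ} (hk : 26 ≤ k) {t θ : ℝ} (ht : 0 < t) (hv : k * t ≤ 1 / 10)
    (h0 : 0.67 ≤ θ) (h1 : θ ≤ 0.8) {M : ℝ} (hM : fm (-(73 / 10000)) (1 / 18) (37 / 100) (133 / 200) k t ≤ M) :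
    UU k t θ ≤ M - 5 / 12 * log (1 / t) - 1 / 12 * log 6 + t / 4 := by
  have hk' : (26 : ℝ) ≤ k := by exact_mod_cast hk
  have h := UI_b hk ht (t_le hk ht (hv.trans (by norm_num))) hv BB_ten h0 h1
  have hL := L_ge_ten hk ht hv
  unfold fm at hM
  have hd := dom 2.3025 (a1 := (-(5717 / 200000))) (a2 := 0) (a3 := (2182395443 / 2700000000)) (a4 := (8601251 / 9000000)) hk' hL hM (by norm_num) (by norm_num)
    (by norm_num) (by norm_num)
  refine h.trans ?_
  generalize log (1 / ((k : ℝ) * t)) = L at *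
  norm_num at hd ⊢
  linarith

theorem D_p3a_ten {k : ℕ} (hk : 26 ≤ k) {t θ : ℝ} (ht : 0 < t) (hv : k * t ≤ 1 / 10)
    (h0 : 0.8 ≤ θ) (h1 : θ ≤ 0.92) {M : ℝ} (hM : fm (-(73 / 10000)) (1 / 18) (37 / 100) (133 / 200) k t ≤ M) :
    UU k t θ ≤ M - 5 / 12 * log (1 / t) - 1 / 12 * log 6 + t / 4 := by
  have hk' : (26 : ℝ) ≤ k := by exact_mod_cast hk
  have h := UI_p3a hk ht (t_le hk ht (hv.trans (by norm_num))) hv BB_ten h0 h1
  have hL := L_ge_ten hk ht hv
  unfold fm at hM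
  have hd := dom 2.3025 (a1 := (-(8219 / 200000))) (a2 := 0) (a3 := (4625048353 / 5400000000)) (a4 := (5686453 / 6000000)) hk' hL hM (by norm_num) (by norm_num)
    (by norm_num) (by norm_num)
  refine h.trans ?_
  generalize log (1 / ((k : ℝ) * t)) = L at *
  norm_num at hd ⊢
  linarith

theorem D_p3a2_ten {k : ℕ} (hk : 26 ≤ k) {t θ : ℝ} (ht : 0 < t) (hv : k * t ≤ 1 / 10)
    (h0 : 0.92 ≤ θ) (h1 : θ ≤ 1) {M : ℝ} (hM : fm (-(73 / 10000)) (1 / 18) (37 / 100) (133 / 200) k t ≤ M) :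
    UU k t θ ≤ M - 5 / 12 * log (1 / t) - 1 / 12 * log 6 + t / 4 := by
  have hk' : (26 : ℝ) ≤ k := by exact_mod_cast hk
  have h := UI_p3a2 hk ht (t_le hk ht (hv.trans (by norm_num))) hv BB_ten h0 h1
  have hL := L_ge_ten hk ht hv
  unfold fm at hM
  have hd := dom 2.3025 (a1 := (-(21941 / 400000))) (a2 := 0) (a3 := (539234843 / 270000000)) (a4 := (3725453 / 2250000)) hk' hL hM (by norm_num) (by norm_num)
    (by norm_num) (by norm_num)
  refine h.trans ?_
  generalize log (1 / ((k : ℝ) * t)) = L at *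
  norm_num at hd ⊢
  linarith

theorem D_p3d_ten {k : ℕ} (hk : 26 ≤ k) {t θ : ℝ} (ht : 0 < t) (hv : k * t ≤ 1 / 10)
    (h0 : 1.2 ≤ θ) (h1 : θ ≤ 1.3) {M : ℝ} (hM : fm (-(73 / 10000)) (1 / 18) (37 / 100) (133 / 200) k t ≤ M) :
    UU k t θ ≤ M - 5 / 12 * log (1 / t) - 1 / 12 * log 6 + t / 4 := by
  have hk' : (26 : ℝ) ≤ k := by exact_mod_cast hk
  have h := UI_p3d hk ht (t_le hk ht (hv.trans (by norm_num))) hv BB_ten h0 h1
  have hL := L_ge_ten hk ht hv
  unfold fm at hM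
  have hd := dom 2.3025 (a1 := (-(307 / 3200))) (a2 := 0) (a3 := (4062829537 / 5400000000)) (a4 := (15829297 / 18000000)) hk' hL hM (by norm_num) (by norm_num)
    (by norm_num) (by norm_num)
  refine h.trans ?_
  generalize log (1 / ((k : ℝ) * t)) = L at *
  norm_num at hd ⊢
  linarith

theorem D_c_ten {k : ℕ} (hk : 26 ≤ k) {t θ : ℝ} (ht : 0 < t) (hv : k * t ≤ 1 / 10)
    (h0 : 1.3 ≤ θ) (h1 : θ ≤ 1.52) {M : ℝ} (hM : fm (-(73 / 10000)) (1 / 18) (37 / 100) (133 / 200) k t ≤ M) :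
    UU k t θ ≤ M - 5 / 12 * log (1 / t) - 1 / 12 * log 6 + t / 4 := by
  have hk' : (26 : ℝ) ≤ k := by exact_mod_cast hk
  have h := UI_c hk ht (t_le hk ht (hv.trans (by norm_num))) hv BB_ten h0 h1
  have hL := L_ge_ten hk ht hv
  unfold fm at hM
  have hd := dom 2.3025 (a1 := (-(45587 / 400000))) (a2 := 0) (a3 := (6426601933 / 5400000000)) (a4 := (452519 / 375000)) hk' hL hM (by norm_num) (by norm_num)
    (by norm_num) (by norm_num)
  refine h.trans ?_
  generalize log (1 / ((k : ℝ) * t)) = L at *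
  norm_num at hd ⊢
  linarith

theorem D_d_ten {k : ℕ} (hk : 26 ≤ k) {t θ : ℝ} (ht : 0 < t) (hv : k * t ≤ 1 / 10)
    (h0 : 1.62 ≤ θ) (h1 : θ ≤ 1.75) {M : ℝ} (hM : fm (-(73 / 10000)) (1 / 18) (37 / 100) (133 / 200) k t ≤ M) :
    UU k t θ ≤ M - 5 / 12 * log (1 / t) - 1 / 12 * log 6 + t / 4 := by
  have hk' : (26 : ℝ) ≤ k := by exact_mod_cast hk
  have h := UI_d hk ht (t_le hk ht (hv.trans (by norm_num))) hv BB_ten h0 h1
  have hL := L_ge_ten hk ht hv
  unfold fm at hM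
  have hd := dom 2.3025 (a1 := (-(9289 / 50000))) (a2 := 0) (a3 := (316886213 / 270000000)) (a4 := (7153669 / 6000000)) hk' hL hM (by norm_num) (by norm_num)
    (by norm_num) (by norm_num)
  refine h.trans ?_
  generalize log (1 / ((k : ℝ) * t)) = L at *
  norm_num at hd ⊢
  linarith

theorem D_t5_ten {k : ℕ} (hk : 26 ≤ k) {t θ : ℝ} (ht : 0 < t) (hv : k * t ≤ 1 / 10)
    (h0 : 1.75 ≤ θ) (h1 : θ ≤ 2.1) {M : ℝ} (hM : fm (-(1284 / 10000)) (1 / 9) (25 / 100) (51 / 100) k t ≤ M) :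
    UU k t θ ≤ M - 5 / 12 * log (1 / t) - 1 / 12 * log 6 + t / 4 := by
  have hk' : (26 : ℝ) ≤ k := by exact_mod_cast hk
  have h := UI_t5 hk ht (t_le hk ht (hv.trans (by norm_num))) hv BB_ten h0 h1
  have hL := L_ge_ten hk ht hv
  unfold fm at hM
  have hd := dom 2.3025 (a1 := (-(747187 / 3600000))) (a2 := (1 / 18)) (a3 := (5749317 / 8000000)) (a4 := (1851361 / 2250000)) hk' hL hM (by norm_num) (by norm_num)
    (by norm_num) (by norm_num)
  refine h.trans ?_
  generalize log (1 / ((k : ℝ) * t)) = L at *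
  norm_num at hd ⊢
  linarith

theorem D_m_ten {k : ℕ} (hk : 26 ≤ k) {t θ : ℝ} (ht : 0 < t) (hv : k * t ≤ 1 / 10)
    (h0 : 2.1 ≤ θ) (h1 : θ ≤ 2.6) {M : ℝ} (hM : fm (-(73 / 10000)) (1 / 18) (37 / 100) (133 / 200) k t ≤ M) :
    UU k t θ ≤ M - 5 / 12 * log (1 / t) - 1 / 12 * log 6 + t / 4 := by
  have hk' : (26 : ℝ) ≤ k := by exact_mod_cast hk
  have h := UI_m hk ht (t_le hk ht (hv.trans (by norm_num))) hv BB_ten h0 h1
  have hL := L_ge_ten hk ht hv
  unfold fm at hM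
  have hd := dom 2.3025 (a1 := (-(139399 / 400000))) (a2 := 0) (a3 := (4687304201 / 2700000000)) (a4 := (21870293 / 18000000)) hk' hL hM (by norm_num) (by norm_num)
    (by norm_num) (by norm_num)
  refine h.trans ?_
  generalize log (1 / ((k : ℝ) * t)) = L at *
  norm_num at hd ⊢
  linarith

theorem D_R2_ten {k : ℕ} (hk : 26 ≤ k) {t θ : ℝ} (ht : 0 < t) (hv : k * t ≤ 1 / 10)
    (h0 : 2.6 ≤ θ) (h1 : θ ≤ 2.942) {M : ℝ} (hM : fm (-(3 / 5)) (13 / 100) 3 (13 / 10) k t ≤ M) :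
    UU k t θ ≤ M - 5 / 12 * log (1 / t) - 1 / 12 * log 6 + t / 4 := by
  have hk' : (26 : ℝ) ≤ k := by exact_mod_cast hk
  have h := UI_R2 hk ht (t_le hk ht (hv.trans (by norm_num))) hv BB_ten h0 h1
  have hL := L_ge_ten hk ht hv
  unfold fm at hM
  have hd := dom 2.3025 (a1 := (-(260703 / 400000))) (a2 := 0) (a3 := (32003204563 / 5400000000)) (a4 := (27935321 / 9000000)) hk' hL hM (by norm_num) (by norm_num)
    (by norm_num) (by norm_num)
  refine h.trans ?_
  generalize log (1 / ((k : ℝ) * t)) = L at *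
  norm_num at hd ⊢
  linarith

theorem D_L2_third {k : ℕ} (hk : 26 ≤ k) {t θ : ℝ} (ht : 0 < t) (hv : k * t ≤ 1 / 3)
    (h0 : 0.25 ≤ θ) (h1 : θ ≤ 0.45) {M : ℝ} (hM : fm (-(1 / 10000)) (1 / 18) (47 / 100) (133 / 200) k t ≤ M) :
    UU k t θ ≤ M - 5 / 12 * log (1 / t) - 1 / 12 * log 6 + t / 4 := by
  have hk' : (26 : ℝ) ≤ k := by exact_mod_cast hk
  have h := UI_L2 hk ht (t_le hk ht (hv.trans (by norm_num))) hv BB_third h0 h1
  have hL := L_ge_third hk ht hv
  unfold fm at hM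
  have hd := dom 1.0986 (a1 := (-(313 / 80000))) (a2 := 0) (a3 := (5865382417 / 5400000000)) (a4 := (141977 / 150000)) hk' hL hM (by norm_num) (by norm_num)
    (by norm_num) (by norm_num)
  refine h.trans ?_
  generalize log (1 / ((k : ℝ) * t)) = L at *
  norm_num at hd ⊢
  linarith

theorem D_a_third {k : ℕ} (hk : 26 ≤ k) {t θ : ℝ} (ht : 0 < t) (hv : k * t ≤ 1 / 3)
    (h0 : 0.45 ≤ θ) (h1 : θ ≤ 0.59) {M : ℝ} (hM : fm (-(1 / 10000)) (1 / 18) (47 / 100) (133 / 200) k t ≤ M) :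
    UU k t θ ≤ M - 5 / 12 * log (1 / t) - 1 / 12 * log 6 + t / 4 := by
  have hk' : (26 : ℝ) ≤ k := by exact_mod_cast hk
  have h := UI_a hk ht (t_le hk ht (hv.trans (by norm_num))) hv BB_third h0 h1
  have hL := L_ge_third hk ht hv
  unfold fm at hM
  have hd := dom 1.0986 (a1 := (-(5103 / 400000))) (a2 := 0) (a3 := (5264260369 / 5400000000)) (a4 := (17333657 / 18000000)) hk' hL hM (by norm_num) (by norm_num)
    (by norm_num) (by norm_num)
  refine h.trans ?_
  generalize log (1 / ((k : ℝ) * t)) = L at *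
  norm_num at hd ⊢
  linarith

theorem D_p5_third {k : ℕ} (hk : 26 ≤ k) {t θ : ℝ} (ht : 0 < t) (hv : k * t ≤ 1 / 3)
    (h0 : 0.59 ≤ θ) (h1 : θ ≤ 0.67) {M : ℝ} (hM : fm (-(1 / 10000)) (1 / 18) (47 / 100) (133 / 200) k t ≤ M) :
    UU k t θ ≤ M - 5 / 12 * log (1 / t) - 1 / 12 * log 6 + t / 4 := by
  have hk' : (26 : ℝ) ≤ k := by exact_mod_cast hk
  have h := UI_p5 hk ht (t_le hk ht (hv.trans (by norm_num))) hv BB_third h0 h1
  have hL := L_ge_third hk ht hv
  unfold fm at hM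
  have hd := dom 1.0986 (a1 := (-(763 / 3600000))) (a2 := (1 / 18)) (a3 := (139711771 / 300000000)) (a4 := (594133 / 900000)) hk' hL hM (by norm_num) (by norm_num)
    (by norm_num) (by norm_num)
  refine h.trans ?_
  generalize log (1 / ((k : ℝ) * t)) = L at *
  norm_num at hd ⊢
  linarith

theorem D_b_third {k : ℕ} (hk : 26 ≤ k) {t θ : ℝ} (ht : 0 < t) (hv : k * t ≤ 1 / 3)
    (h0 : 0.67 ≤ θ) (h1 : θ ≤ 0.8) {M : ℝ} (hM : fm (-(1 / 10000)) (1 / 18) (47 / 100) (133 / 200) k t ≤ M) :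
    UU k t θ ≤ M - 5 / 12 * log (1 / t) - 1 / 12 * log 6 + t / 4 := by
  have hk' : (26 : ℝ) ≤ k := by exact_mod_cast hk
  have h := UI_b hk ht (t_le hk ht (hv.trans (by norm_num))) hv BB_third h0 h1
  have hL := L_ge_third hk ht hv
  unfold fm at hM
  have hd := dom 1.0986 (a1 := (-(5717 / 200000))) (a2 := 0) (a3 := (1021732481 / 1080000000)) (a4 := (8601251 / 9000000)) hk' hL hM (by norm_num) (by norm_num)
    (by norm_num) (by norm_num)
  refine h.trans ?_
  generalize log (1 / ((k : ℝ) * t)) = L at *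
  norm_num at hd ⊢
  linarith

theorem D_p3a_third {k : ℕ} (hk : 26 ≤ k) {t θ : ℝ} (ht : 0 < t) (hv : k * t ≤ 1 / 3)
    (h0 : 0.8 ≤ θ) (h1 : θ ≤ 0.92) {M : ℝ} (hM : fm (-(1 / 10000)) (1 / 18) (47 / 100) (133 / 200) k t ≤ M) :
    UU k t θ ≤ M - 5 / 12 * log (1 / t) - 1 / 12 * log 6 + t / 4 := by
  have hk' : (26 : ℝ) ≤ k := by exact_mod_cast hk
  have h := UI_p3a hk ht (t_le hk ht (hv.trans (by norm_num))) hv BB_third h0 h1
  have hL := L_ge_third hk ht hv
  unfold fm at hM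
  have hd := dom 1.0986 (a1 := (-(8219 / 200000))) (a2 := 0) (a3 := (5318230801 / 5400000000)) (a4 := (5686453 / 6000000)) hk' hL hM (by norm_num) (by norm_num)
    (by norm_num) (by norm_num)
  refine h.trans ?_
  generalize log (1 / ((k : ℝ) * t)) = L at *
  norm_num at hd ⊢
  linarith

theorem D_p3a2_third {k : ℕ} (hk : 26 ≤ k) {t θ : ℝ} (ht : 0 < t) (hv : k * t ≤ 1 / 3)
    (h0 : 0.92 ≤ θ) (h1 : θ ≤ 1) {M : ℝ} (hM : fm (-(1 / 10000)) (1 / 18) (47 / 100) (133 / 200) k t ≤ M) :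
    UU k t θ ≤ M - 5 / 12 * log (1 / t) - 1 / 12 * log 6 + t / 4 := by
  have hk' : (26 : ℝ) ≤ k := by exact_mod_cast hk
  have h := UI_p3a2 hk ht (t_le hk ht (hv.trans (by norm_num))) hv BB_third h0 h1
  have hL := L_ge_third hk ht hv
  unfold fm at hM
  have hd := dom 1.0986 (a1 := (-(21941 / 400000))) (a2 := 0) (a3 := (235014473 / 108000000)) (a4 := (3725453 / 2250000)) hk' hL hM (by norm_num) (by norm_num)
    (by norm_num) (by norm_num)
  refine h.trans ?_
  generalize log (1 / ((k : ℝ) * t)) = L at *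
  norm_num at hd ⊢
  linarith

theorem D_p3d_third {k : ℕ} (hk : 26 ≤ k) {t θ : ℝ} (ht : 0 < t) (hv : k * t ≤ 1 / 3)
    (h0 : 1.2 ≤ θ) (h1 : θ ≤ 1.3) {M : ℝ} (hM : fm (-(1 / 10000)) (1 / 18) (47 / 100) (133 / 200) k t ≤ M) :
    UU k t θ ≤ M - 5 / 12 * log (1 / t) - 1 / 12 * log 6 + t / 4 := by
  have hk' : (26 : ℝ) ≤ k := by exact_mod_cast hk
  have h := UI_p3d hk ht (t_le hk ht (hv.trans (by norm_num))) hv BB_third h0 h1
  have hL := L_ge_third hk ht hv
  unfold fm at hM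
  have hd := dom 1.0986 (a1 := (-(307 / 3200))) (a2 := 0) (a3 := (478213003 / 540000000)) (a4 := (15829297 / 18000000)) hk' hL hM (by norm_num) (by norm_num)
    (by norm_num) (by norm_num)
  refine h.trans ?_
  generalize log (1 / ((k : ℝ) * t)) = L at *
  norm_num at hd ⊢
  linarith

theorem D_c_third {k : ℕ} (hk : 26 ≤ k) {t θ : ℝ} (ht : 0 < t) (hv : k * t ≤ 1 / 3)
    (h0 : 1.3 ≤ θ) (h1 : θ ≤ 1.52) {M : ℝ} (hM : fm (-(1 / 10000)) (1 / 18) (47 / 100) (133 / 200) k t ≤ M) :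
    UU k t θ ≤ M - 5 / 12 * log (1 / t) - 1 / 12 * log 6 + t / 4 := by
  have hk' : (26 : ℝ) ≤ k := by exact_mod_cast hk
  have h := UI_c hk ht (t_le hk ht (hv.trans (by norm_num))) hv BB_third h0 h1
  have hL := L_ge_third hk ht hv
  unfold fm at hM
  have hd := dom 1.0986 (a1 := (-(45587 / 400000))) (a2 := 0) (a3 := (7403733229 / 5400000000)) (a4 := (452519 / 375000)) hk' hL hM (by norm_num) (by norm_num)
    (by norm_num) (by norm_num)
  refine h.trans ?_
  generalize log (1 / ((k : ℝ) * t)) = L at *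
  norm_num at hd ⊢
  linarith

theorem D_p2_third {k : ℕ} (hk : 26 ≤ k) {t θ : ℝ} (ht : 0 < t) (hv : k * t ≤ 1 / 3)
    (h0 : 1.52 ≤ θ) (h1 : θ ≤ 1.62) {M : ℝ} (hM : fm (-(1074 / 10000)) (1 / 9) (42 / 100) (16 / 25) k t ≤ M) :
    UU k t θ ≤ M - 5 / 12 * log (1 / t) - 1 / 12 * log 6 + t / 4 := by
  have hk' : (26 : ℝ) ≤ k := by exact_mod_cast hk
  have h := UI_p2 hk ht (t_le hk ht (hv.trans (by norm_num))) hv BB_third h0 h1
  have hL := L_ge_third hk ht hv
  unfold fm at hM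
  have hd := dom 1.0986 (a1 := (-(193327 / 1800000))) (a2 := (1 / 9)) (a3 := (2226104087 / 5400000000)) (a4 := (2294369 / 3600000)) hk' hL hM (by norm_num) (by norm_num)
    (by norm_num) (by norm_num)
  refine h.trans ?_
  generalize log (1 / ((k : ℝ) * t)) = L at *
  norm_num at hd ⊢
  linarith

theorem D_d_third {k : ℕ} (hk : 26 ≤ k) {t θ : ℝ} (ht : 0 < t) (hv : k * t ≤ 1 / 3)
    (h0 : 1.62 ≤ θ) (h1 : θ ≤ 1.75) {M : ℝ} (hM : fm (-(1 / 10000)) (1 / 18) (47 / 100) (133 / 200) k t ≤ M) :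
    UU k t θ ≤ M - 5 / 12 * log (1 / t) - 1 / 12 * log 6 + t / 4 := by
  have hk' : (26 : ℝ) ≤ k := by exact_mod_cast hk
  have h := UI_d hk ht (t_le hk ht (hv.trans (by norm_num))) hv BB_third h0 h1
  have hL := L_ge_third hk ht hv
  unfold fm at hM
  have hd := dom 1.0986 (a1 := (-(9289 / 50000))) (a2 := 0) (a3 := (1846324099 / 1350000000)) (a4 := (7153669 / 6000000)) hk' hL hM (by norm_num) (by norm_num)
    (by norm_num) (by norm_num)
  refine h.trans ?_
  generalize log (1 / ((k : ℝ) * t)) = L at *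
  norm_num at hd ⊢
  linarith

theorem D_t5_third {k : ℕ} (hk : 26 ≤ k) {t θ : ℝ} (ht : 0 < t) (hv : k * t ≤ 1 / 3)
    (h0 : 1.75 ≤ θ) (h1 : θ ≤ 2.1) {M : ℝ} (hM : fm (-(1074 / 10000)) (1 / 9) (42 / 100) (16 / 25) k t ≤ M) :
    UU k t θ ≤ M - 5 / 12 * log (1 / t) - 1 / 12 * log 6 + t / 4 := by
  have hk' : (26 : ℝ) ≤ k := by exact_mod_cast hk
  have h := UI_t5 hk ht (t_le hk ht (hv.trans (by norm_num))) hv BB_third h0 h1
  have hL := L_ge_third hk ht hv
  unfold fm at hM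
  have hd := dom 1.0986 (a1 := (-(721267 / 3600000))) (a2 := (1 / 18)) (a3 := (178520113 / 200000000)) (a4 := (1851361 / 2250000)) hk' hL hM (by norm_num) (by norm_num)
    (by norm_num) (by norm_num)
  refine h.trans ?_
  generalize log (1 / ((k : ℝ) * t)) = L at *
  norm_num at hd ⊢
  linarith

theorem D_m_third {k : ℕ} (hk : 26 ≤ k) {t θ : ℝ} (ht : 0 < t) (hv : k * t ≤ 1 / 3)
    (h0 : 2.1 ≤ θ) (h1 : θ ≤ 2.6) {M : ℝ} (hM : fm (-(1 / 10000)) (1 / 18) (47 / 100) (133 / 200) k t ≤ M) :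
    UU k t θ ≤ M - 5 / 12 * log (1 / t) - 1 / 12 * log 6 + t / 4 := by
  have hk' : (26 : ℝ) ≤ k := by exact_mod_cast hk
  have h := UI_m hk ht (t_le hk ht (hv.trans (by norm_num))) hv BB_third h0 h1
  have hL := L_ge_third hk ht hv
  unfold fm at hM
  have hd := dom 1.0986 (a1 := (-(139399 / 400000))) (a2 := 0) (a3 := (10961871253 / 5400000000)) (a4 := (21870293 / 18000000)) hk' hL hM (by norm_num) (by norm_num)
    (by norm_num) (by norm_num)
  refine h.trans ?_
  generalize log (1 / ((k : ℝ) * t)) = L at *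
  norm_num at hd ⊢
  linarith

theorem D_R2_third {k : ℕ} (hk : 26 ≤ k) {t θ : ℝ} (ht : 0 < t) (hv : k * t ≤ 1 / 3)
    (h0 : 2.6 ≤ θ) (h1 : θ ≤ 2.942) {M : ℝ} (hM : fm (-(1074 / 10000)) (1 / 9) (42 / 100) (16 / 25) k t ≤ M) :
    UU k t θ ≤ M - 5 / 12 * log (1 / t) - 1 / 12 * log 6 + t / 4 := by
  have hk' : (26 : ℝ) ≤ k := by exact_mod_cast hk
  have h := UI_R2 hk ht (t_le hk ht (hv.trans (by norm_num))) hv BB_third h0 h1
  have hL := L_ge_third hk ht hv
  unfold fm at hM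
  have hd := dom 1.0986 (a1 := (-(260703 / 400000))) (a2 := 0) (a3 := (2261130187 / 337500000)) (a4 := (27935321 / 9000000)) hk' hL hM (by norm_num) (by norm_num)
    (by norm_num) (by norm_num)
  refine h.trans ?_
  generalize log (1 / ((k : ℝ) * t)) = L at *
  norm_num at hd ⊢
  linarith

theorem D_L2_one {k : ℕ} (hk : 26 ≤ k) {t θ : ℝ} (ht : 0 < t) (hv : k * t ≤ 1)
    (h0 : 0.25 ≤ θ) (h1 : θ ≤ 0.45) {M : ℝ} (hM : fm (35 / 1000) (1 / 18) (133 / 200) (133 / 200) k t ≤ M) :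
    UU k t θ ≤ M - 5 / 12 * log (1 / t) - 1 / 12 * log 6 + t / 4 := by
  have hk' : (26 : ℝ) ≤ k := by exact_mod_cast hk
  have h := UI_L2 hk ht (t_le hk ht (hv.trans (by norm_num))) hv BB_one h0 h1
  have hL := L_ge_one hk ht hv
  unfold fm at hM
  have hd := dom 0 (a1 := (-(313 / 80000))) (a2 := 0) (a3 := (3663741197 / 2700000000)) (a4 := (141977 / 150000)) hk' hL hM (by norm_num) (by norm_num)
    (by norm_num) (by norm_num)
  refine h.trans ?_
  generalize log (1 / ((k : ℝ) * t)) = L at *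
  norm_num at hd ⊢
  linarith

theorem D_a_one {k : ℕ} (hk : 26 ≤ k) {t θ : ℝ} (ht : 0 < t) (hv : k * t ≤ 1)
    (h0 : 0.45 ≤ θ) (h1 : θ ≤ 0.59) {M : ℝ} (hM : fm (35 / 1000) (1 / 18) (133 / 200) (133 / 200) k t ≤ M) :
    UU k t θ ≤ M - 5 / 12 * log (1 / t) - 1 / 12 * log 6 + t / 4 := by
  have hk' : (26 : ℝ) ≤ k := by exact_mod_cast hk
  have h := UI_a hk ht (t_le hk ht (hv.trans (by norm_num))) hv BB_one h0 h1
  have hL := L_ge_one hk ht hv
  unfold fm at hM
  have hd := dom 0 (a1 := (-(5103 / 400000))) (a2 := 0) (a3 := (3614381477 / 2700000000)) (a4 := (17333657 / 18000000)) hk' hL hM (by norm_num) (by norm_num)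
    (by norm_num) (by norm_num)
  refine h.trans ?_
  generalize log (1 / ((k : ℝ) * t)) = L at *
  norm_num at hd ⊢
  linarith

theorem D_p5_one {k : ℕ} (hk : 26 ≤ k) {t θ : ℝ} (ht : 0 < t) (hv : k * t ≤ 1)
    (h0 : 0.59 ≤ θ) (h1 : θ ≤ 0.67) {M : ℝ} (hM : fm (35 / 1000) (1 / 18) (133 / 200) (133 / 200) k t ≤ M) :
    UU k t θ ≤ M - 5 / 12 * log (1 / t) - 1 / 12 * log 6 + t / 4 := by
  have hk' : (26 : ℝ) ≤ k := by exact_mod_cast hk
  have h := UI_p5 hk ht (t_le hk ht (hv.trans (by norm_num))) hv BB_one h0 h1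
  have hL := L_ge_one hk ht hv
  unfold fm at hM
  have hd := dom 0 (a1 := (125597 / 3600000)) (a2 := (1 / 18)) (a3 := (39456587 / 60000000)) (a4 := (594133 / 900000)) hk' hL hM (by norm_num) (by norm_num)
    (by norm_num) (by norm_num)
  refine h.trans ?_
  generalize log (1 / ((k : ℝ) * t)) = L at *
  norm_num at hd ⊢
  linarith

theorem D_b_one {k : ℕ} (hk : 26 ≤ k) {t θ : ℝ} (ht : 0 < t) (hv : k * t ≤ 1)
    (h0 : 0.67 ≤ θ) (h1 : θ ≤ 0.8) {M : ℝ} (hM : fm (35 / 1000) (1 / 18) (133 / 200) (133 / 200) k t ≤ M) :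
    UU k t θ ≤ M - 5 / 12 * log (1 / t) - 1 / 12 * log 6 + t / 4 := by
  have hk' : (26 : ℝ) ≤ k := by exact_mod_cast hk
  have h := UI_b hk ht (t_le hk ht (hv.trans (by norm_num))) hv BB_one h0 h1
  have hL := L_ge_one hk ht hv
  unfold fm at hM
  have hd := dom 0 (a1 := (-(5717 / 200000))) (a2 := 0) (a3 := (3553997171 / 2700000000)) (a4 := (8601251 / 9000000)) hk' hL hM (by norm_num) (by norm_num)
    (by norm_num) (by norm_num)
  refine h.trans ?_
  generalize log (1 / ((k : ℝ) * t)) = L at *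
  norm_num at hd ⊢
  linarith

theorem D_p3a_one {k : ℕ} (hk : 26 ≤ k) {t θ : ℝ} (ht : 0 < t) (hv : k * t ≤ 1)
    (h0 : 0.8 ≤ θ) (h1 : θ ≤ 0.92) {M : ℝ} (hM : fm (35 / 1000) (1 / 18) (133 / 200) (133 / 200) k t ≤ M) :
    UU k t θ ≤ M - 5 / 12 * log (1 / t) - 1 / 12 * log 6 + t / 4 := by
  have hk' : (26 : ℝ) ≤ k := by exact_mod_cast hk
  have h := UI_p3a hk ht (t_le hk ht (hv.trans (by norm_num))) hv BB_one h0 h1
  have hL := L_ge_one hk ht hv
  unfold fm at hM
  have hd := dom 0 (a1 := (-(8219 / 200000))) (a2 := 0) (a3 := (1774958347 / 1350000000)) (a4 := (5686453 / 6000000)) hk' hL hM (by norm_num) (by norm_num)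
    (by norm_num) (by norm_num)
  refine h.trans ?_
  generalize log (1 / ((k : ℝ) * t)) = L at *
  norm_num at hd ⊢
  linarith

theorem D_p3a2_one {k : ℕ} (hk : 26 ≤ k) {t θ : ℝ} (ht : 0 < t) (hv : k * t ≤ 1)
    (h0 : 0.92 ≤ θ) (h1 : θ ≤ 1) {M : ℝ} (hM : fm (35 / 1000) (1 / 18) (133 / 200) (133 / 200) k t ≤ M) :
    UU k t θ ≤ M - 5 / 12 * log (1 / t) - 1 / 12 * log 6 + t / 4 := by
  have hk' : (26 : ℝ) ≤ k := by exact_mod_cast hk
  have h := UI_p3a2 hk ht (t_le hk ht (hv.trans (by norm_num))) hv BB_one h0 h1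
  have hL := L_ge_one hk ht hv
  unfold fm at hM
  have hd := dom 0 (a1 := (-(21941 / 400000))) (a2 := 0) (a3 := (7574497421 / 2700000000)) (a4 := (3725453 / 2250000)) hk' hL hM (by norm_num) (by norm_num)
    (by norm_num) (by norm_num)
  refine h.trans ?_
  generalize log (1 / ((k : ℝ) * t)) = L at *
  norm_num at hd ⊢
  linarith

theorem D_p3d_one {k : ℕ} (hk : 26 ≤ k) {t θ : ℝ} (ht : 0 < t) (hv : k * t ≤ 1)
    (h0 : 1.2 ≤ θ) (h1 : θ ≤ 1.3) {M : ℝ} (hM : fm (35 / 1000) (1 / 18) (133 / 200) (133 / 200) k t ≤ M) :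
    UU k t θ ≤ M - 5 / 12 * log (1 / t) - 1 / 12 * log 6 + t / 4 := by
  have hk' : (26 : ℝ) ≤ k := by exact_mod_cast hk
  have h := UI_p3d hk ht (t_le hk ht (hv.trans (by norm_num))) hv BB_one h0 h1
  have hL := L_ge_one hk ht hv
  unfold fm at hM
  have hd := dom 0 (a1 := (-(307 / 3200))) (a2 := 0) (a3 := (3203979503 / 2700000000)) (a4 := (15829297 / 18000000)) hk' hL hM (by norm_num) (by norm_num)
    (by norm_num) (by norm_num)
  refine h.trans ?_
  generalize log (1 / ((k : ℝ) * t)) = L at *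
  norm_num at hd ⊢
  linarith

theorem D_c_one {k : ℕ} (hk : 26 ≤ k) {t θ : ℝ} (ht : 0 < t) (hv : k * t ≤ 1)
    (h0 : 1.3 ≤ θ) (h1 : θ ≤ 1.52) {M : ℝ} (hM : fm (35 / 1000) (1 / 18) (133 / 200) (133 / 200) k t ≤ M) :
    UU k t θ ≤ M - 5 / 12 * log (1 / t) - 1 / 12 * log 6 + t / 4 := by
  have hk' : (26 : ℝ) ≤ k := by exact_mod_cast hk
  have h := UI_c hk ht (t_le hk ht (hv.trans (by norm_num))) hv BB_one h0 h1
  have hL := L_ge_one hk ht hv
  unfold fm at hM
  have hd := dom 0 (a1 := (-(45587 / 400000))) (a2 := 0) (a3 := (5044821491 / 2700000000)) (a4 := (452519 / 375000)) hk' hL hM (by norm_num) (by norm_num)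
    (by norm_num) (by norm_num)
  refine h.trans ?_
  generalize log (1 / ((k : ℝ) * t)) = L at *
  norm_num at hd ⊢
  linarith

theorem D_p2_one {k : ℕ} (hk : 26 ≤ k) {t θ : ℝ} (ht : 0 < t) (hv : k * t ≤ 1)
    (h0 : 1.52 ≤ θ) (h1 : θ ≤ 1.62) {M : ℝ} (hM : fm (-(446 / 10000)) (1 / 9) (605 / 1000) (16 / 25) k t ≤ M) :
    UU k t θ ≤ M - 5 / 12 * log (1 / t) - 1 / 12 * log 6 + t / 4 := by
  have hk' : (26 : ℝ) ≤ k := by exact_mod_cast hk
  have h := UI_p2 hk ht (t_le hk ht (hv.trans (by norm_num))) hv BB_one h0 h1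
  have hL := L_ge_one hk ht hv
  unfold fm at hM
  have hd := dom 0 (a1 := (-(80467 / 1800000))) (a2 := (1 / 9)) (a3 := (807682769 / 1350000000)) (a4 := (2294369 / 3600000)) hk' hL hM (by norm_num) (by norm_num)
    (by norm_num) (by norm_num)
  refine h.trans ?_
  generalize log (1 / ((k : ℝ) * t)) = L at *
  norm_num at hd ⊢
  linarith

theorem D_d_one {k : ℕ} (hk : 26 ≤ k) {t θ : ℝ} (ht : 0 < t) (hv : k * t ≤ 1)
    (h0 : 1.62 ≤ θ) (h1 : θ ≤ 1.75) {M : ℝ} (hM : fm (35 / 1000) (1 / 18) (133 / 200) (133 / 200) k t ≤ M) :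
    UU k t θ ≤ M - 5 / 12 * log (1 / t) - 1 / 12 * log 6 + t / 4 := by
  have hk' : (26 : ℝ) ≤ k := by exact_mod_cast hk
  have h := UI_d hk ht (t_le hk ht (hv.trans (by norm_num))) hv BB_one h0 h1
  have hL := L_ge_one hk ht hv
  unfold fm at hM
  have hd := dom 0 (a1 := (-(9289 / 50000))) (a2 := 0) (a3 := (5028697163 / 2700000000)) (a4 := (7153669 / 6000000)) hk' hL hM (by norm_num) (by norm_num)
    (by norm_num) (by norm_num)
  refine h.trans ?_
  generalize log (1 / ((k : ℝ) * t)) = L at *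
  norm_num at hd ⊢
  linarith

theorem D_t5_one {k : ℕ} (hk : 26 ≤ k) {t θ : ℝ} (ht : 0 < t) (hv : k * t ≤ 1)
    (h0 : 1.75 ≤ θ) (h1 : θ ≤ 2.1) {M : ℝ} (hM : fm (-(446 / 10000)) (1 / 9) (605 / 1000) (16 / 25) k t ≤ M) :
    UU k t θ ≤ M - 5 / 12 * log (1 / t) - 1 / 12 * log 6 + t / 4 := by
  have hk' : (26 : ℝ) ≤ k := by exact_mod_cast hk
  have h := UI_t5 hk ht (t_le hk ht (hv.trans (by norm_num))) hv BB_one h0 h1
  have hL := L_ge_one hk ht hv
  unfold fm at hM
  have hd := dom 0 (a1 := (-(594907 / 3600000))) (a2 := (1 / 18)) (a3 := (11349231 / 10000000)) (a4 := (1851361 / 2250000)) hk' hL hM (by norm_num) (by norm_num)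
    (by norm_num) (by norm_num)
  refine h.trans ?_
  generalize log (1 / ((k : ℝ) * t)) = L at *
  norm_num at hd ⊢
  linarith

theorem D_m_one {k : ℕ} (hk : 26 ≤ k) {t θ : ℝ} (ht : 0 < t) (hv : k * t ≤ 1)
    (h0 : 2.1 ≤ θ) (h1 : θ ≤ 2.6) {M : ℝ} (hM : fm (35 / 1000) (1 / 18) (133 / 200) (133 / 200) k t ≤ M) :
    UU k t θ ≤ M - 5 / 12 * log (1 / t) - 1 / 12 * log 6 + t / 4 := by
  have hk' : (26 : ℝ) ≤ k := by exact_mod_cast hk
  have h := UI_m hk ht (t_le hk ht (hv.trans (by norm_num))) hv BB_one h0 h1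
  have hL := L_ge_one hk ht hv
  unfold fm at hM
  have hd := dom 0 (a1 := (-(139399 / 400000))) (a2 := 0) (a3 := (783215137 / 337500000)) (a4 := (21870293 / 18000000)) hk' hL hM (by norm_num) (by norm_num)
    (by norm_num) (by norm_num)
  refine h.trans ?_
  generalize log (1 / ((k : ℝ) * t)) = L at *
  norm_num at hd ⊢
  linarith

theorem D_R2_one {k : ℕ} (hk : 26 ≤ k) {t θ : ℝ} (ht : 0 < t) (hv : k * t ≤ 1)
    (h0 : 2.6 ≤ θ) (h1 : θ ≤ 2.942) {M : ℝ} (hM : fm (-(446 / 10000)) (1 / 9) (605 / 1000) (16 / 25) k t ≤ M) :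
    UU k t θ ≤ M - 5 / 12 * log (1 / t) - 1 / 12 * log 6 + t / 4 := by
  have hk' : (26 : ℝ) ≤ k := by exact_mod_cast hk
  have h := UI_R2 hk ht (t_le hk ht (hv.trans (by norm_num))) hv BB_one h0 h1
  have hL := L_ge_one hk ht hv
  unfold fm at hM
  have hd := dom 0 (a1 := (-(260703 / 400000))) (a2 := 0) (a3 := (9982912417 / 1350000000)) (a4 := (27935321 / 9000000)) hk' hL hM (by norm_num) (by norm_num)
    (by norm_num) (by norm_num)
  refine h.trans ?_
  generalize log (1 / ((k : ℝ) * t)) = L at *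
  norm_num at hd ⊢
  linarith

end Pool.Agent.SignedQ.Far
end
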