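import Pool.Agent.Lib.MP_cf17a0_co.Mg.G021

section

/-! # FAR arcs: the U lemma, intervals (generated) -/

namespace Pool.Agent.SignedQ.Far

open Real Finset

theorem abs_sin_ge_k {x p k : ℝ} (m : ℕ) (hk : 26 ≤ k) (hp0 : 0 ≤ p) (hp : p ≤ 40)
    (h0 : m * π + p * (1 / k) ≤ x) (h1 : x ≤ (m + 1) * π - p * (1 / k)) :
    p * (1 - (p / 26) ^ 2 / 6) * (1 / k) ≤ |sin x| := by
  have hk0 : 0 < k := by linarith
  have hi : 1 / k ≤ 1 / 26 := one_div_le_one_div_of_le (by norm_num) hk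
  have hi0 : 0 < 1 / k := by positivity
  have hr : p * (1 / k) ≤ p / 26 := by
    have := mul_le_mul_of_nonneg_left hi hp0
    linarith
  have hr0 : 0 ≤ p * (1 / k) := by positivity
  have hpi := pi_gt_d6
  have hr1 : p * (1 / k) ≤ π / 2 := by norm_num at hpi; linarith
  obtain ⟨y, hy⟩ : ∃ y : ℝ, y = x - m * π := ⟨_, rfl⟩
  have hx : x = y + m * π := by rw [hy]; ring
  have h2 : |sin x| = |sin y| := by
    rw [hx, sin_add_nat_mul_pi, abs_mul, abs_pow, abs_neg, abs_one, one_pow, one_mul]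
  have h3 : p * (1 / k) ≤ y := by rw [hy]; linarith
  have h4 : y ≤ π - p * (1 / k) := by rw [hy]; linarith
  have h5 : sin (p * (1 / k)) ≤ sin y := by
    rcases le_total y (π / 2) with h | h
    · exact sin_le_sin_of_le_of_le_pi_div_two (by linarith [pi_pos]) h h3
    · rw [← sin_pi_sub y]
      exact sin_le_sin_of_le_of_le_pi_div_two (by linarith [pi_pos]) (by linarith) (by linarith)
  rw [h2]
  refine le_trans ?_ (h5.trans (le_abs_self _))
  have h6 := FarC.sin3 hr0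
  have h7 : (p * (1 / k)) ^ 2 ≤ (p / 26) ^ 2 := pow_le_pow_left₀ hr0 hr 2
  have h8 : p * (1 / k) * ((p / 26) ^ 2 - (p * (1 / k)) ^ 2) ≥ 0 :=
    mul_nonneg hr0 (by linarith)
  nlinarith [h6, h8]

theorem inv_ck {k c v : ℝ} (hk : 0 < k) (hc : 1 / c ≤ v) : 1 / (c * k) ≤ v * (1 / k) := by
  rw [← one_div_mul_one_div]
  exact mul_le_mul_of_nonneg_right hc (by positivity)

theorem UI_L1 {k : ℕ} (hk : 26 ≤ k) {t θ : ℝ} {v₁ b1 b2 b3 b4 b5 : ℝ} (ht : 0 < t)
    (ht' : t ≤ 1 / 26) (hv : k * t ≤ v₁) (hB : BB v₁ b1 b2 b3 b4 b5)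
    (h0 : 6 * (1 / k) ≤ θ) (h1 : θ ≤ 0.25) :
    UU k t θ ≤ k * 0 + ((41 / 100 * (1.008 - 11 / 12) + (b1 + 41 / 100 * log (1 / (k * t))) * (1.008 / 2)) +
      (2 / 9 * ((0.1682 * k) - 11 / 12) + (b2 + 2 / 9 * log (1 / (k * t))) * ((0.1682 * k) / 2)) +
      (1 / 6 * (1.0748 - 11 / 12) + (b3 + 1 / 6 * log (1 / (k * t))) * (1.0748 / 2)) +
      (1 / 9 * ((0.0868 * k) - 11 / 12) + (b4 + 1 / 9 * log (1 / (k * t))) * ((0.0868 * k) / 2)) +
      (1 / 18 * (1.2332 - 11 / 12) + (b5 + 1 / 18 * log (1 / (k * t))) * (1.2332 / 2))) -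
      5 / 12 * log (1 / t) - 1 / 12 * log 6 + t / 4 := by
  have hp1 := pi_gt_d6
  have hp2 := pi_lt_d6
  norm_num at hp1 hp2
  have hk' : (26 : ℝ) ≤ k := by exact_mod_cast hk
  have hk0 : (0 : ℝ) < k := by linarith
  have hi : 1 / (k : ℝ) ≤ 1 / 26 := one_div_le_one_div_of_le (by norm_num) hk'
  have hi0 : 0 < 1 / (k : ℝ) := by positivity
  norm_num at h1
  simp only [one_div] at h0 hi hi0
  have hK := K_le_zero (k := k) (θ := θ) ht
  have H1 := one_nc (l := 1) (by norm_num) (by norm_num) hk ht hv θ hB.h1 (q := 1.008)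
    (by norm_num) (le_trans (by norm_num) (abs_sin_ge 0 (r := 1.4457) (by norm_num)
      (by norm_num; linarith) (by norm_num; linarith) (by norm_num; linarith)))
  rw [al1] at H1
  have H2 := one_nc (l := 2) (by norm_num) (by norm_num) hk ht hv θ hB.h2 (q := 0.1682 * k)
    (by positivity) (le_trans (inv_ck hk0 (by norm_num)) (abs_sin_ge_k 1 hk' (p := 6) (by norm_num)
      (by norm_num) (by norm_num; linarith) (by norm_num; linarith)))
  rw [al2] at H2
  have H3 := one_nc (l := 3) (by norm_num) (by norm_num) hk ht hv θ hB.h3 (q := 1.0748)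
    (by norm_num) (le_trans (by norm_num) (abs_sin_ge 1 (r := 1.1957) (by norm_num)
      (by norm_num; linarith) (by norm_num; linarith) (by norm_num; linarith)))
  rw [al3] at H3
  have H4 := one_nc (l := 4) (by norm_num) (by norm_num) hk ht hv θ hB.h4 (q := 0.0868 * k)
    (by positivity) (le_trans (inv_ck hk0 (by norm_num)) (abs_sin_ge_k 2 hk' (p := 12) (by norm_num)
      (by norm_num) (by norm_num; linarith) (by norm_num; linarith)))
  rw [al4] at H4
  have H5 := one_nc (l := 5) (by norm_num) (by norm_num) hk ht hv θ hB.h5 (q := 1.2332)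
    (by norm_num) (le_trans (by norm_num) (abs_sin_ge 2 (r := 0.9457) (by norm_num)
      (by norm_num; linarith) (by norm_num; linarith) (by norm_num; linarith)))
  rw [al5] at H5
  exact UU_core ht hK H1 H2 H3 H4 H5

theorem UI_R1 {k : ℕ} (hk : 26 ≤ k) {t θ : ℝ} {v₁ b1 b2 b3 b4 b5 : ℝ} (ht : 0 < t)
    (ht' : t ≤ 1 / 26) (hv : k * t ≤ v₁) (hB : BB v₁ b1 b2 b3 b4 b5)
    (h0 : 2.94 ≤ θ) (h1 : θ ≤ π - 5 * (1 / k)) :
    UU k t θ ≤ k * (-(4 / 4)) + ((41 / 100 * ((0.40062 * k) - 11 / 12) + (b1 + 41 / 100 * log (1 / (k * t))) * ((0.40062 * k) / 2)) +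
      (2 / 9 * ((0.20125 * k) - 11 / 12) + (b2 + 2 / 9 * log (1 / (k * t))) * ((0.20125 * k) / 2)) +
      (1 / 6 * ((0.13521 * k) - 11 / 12) + (b3 + 1 / 6 * log (1 / (k * t))) * ((0.13521 * k) / 2)) +
      (1 / 9 * ((0.10253 * k) - 11 / 12) + (b4 + 1 / 9 * log (1 / (k * t))) * ((0.10253 * k) / 2)) +
      (1 / 18 * ((0.08321 * k) - 11 / 12) + (b5 + 1 / 18 * log (1 / (k * t))) * ((0.08321 * k) / 2))) -
      5 / 12 * log (1 / t) - 1 / 12 * log 6 + t / 4 := by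
  have hp1 := pi_gt_d6
  have hp2 := pi_lt_d6
  norm_num at hp1 hp2
  have hk' : (26 : ℝ) ≤ k := by exact_mod_cast hk
  have hk0 : (0 : ℝ) < k := by linarith
  have hi : 1 / (k : ℝ) ≤ 1 / 26 := one_div_le_one_div_of_le (by norm_num) hk'
  have hi0 : 0 < 1 / (k : ℝ) := by positivity
  norm_num at h0
  simp only [one_div] at h1 hi hi0
  have hK := K_le (k := k) (θ := θ) (x := 1.967283) (y := 4) ht ht'
    (one_sub_cos_ge (a := 2.94) (by norm_num) (by norm_num at h0 ⊢; linarith) (by linarith) (by norm_num))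
    (by norm_num) (log_le_neg (by norm_num) (by norm_num) (by norm_num)
      (by norm_num [Finset.sum_range_succ, Nat.factorial])) (by norm_num)
  have H1 := one_nc (l := 1) (by norm_num) (by norm_num) hk ht hv θ hB.h1 (q := 0.40062 * k)
    (by positivity) (le_trans (inv_ck hk0 (by norm_num)) (abs_sin_ge_k 0 hk' (p := 2.5) (by norm_num)
      (by norm_num) (by norm_num; linarith) (by norm_num; linarith)))
  rw [al1] at H1
  have H2 := one_nc (l := 2) (by norm_num) (by norm_num) hk ht hv θ hB.h2 (q := 0.20125 * k)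
    (by positivity) (le_trans (inv_ck hk0 (by norm_num)) (abs_sin_ge_k 1 hk' (p := 5) (by norm_num)
      (by norm_num) (by norm_num; linarith) (by norm_num; linarith)))
  rw [al2] at H2
  have H3 := one_nc (l := 3) (by norm_num) (by norm_num) hk ht hv θ hB.h3 (q := 0.13521 * k)
    (by positivity) (le_trans (inv_ck hk0 (by norm_num)) (abs_sin_ge_k 2 hk' (p := 7.5) (by norm_num)
      (by norm_num) (by norm_num; linarith) (by norm_num; linarith)))
  rw [al3] at H3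
  have H4 := one_nc (l := 4) (by norm_num) (by norm_num) hk ht hv θ hB.h4 (q := 0.10253 * k)
    (by positivity) (le_trans (inv_ck hk0 (by norm_num)) (abs_sin_ge_k 3 hk' (p := 10) (by norm_num)
      (by norm_num) (by norm_num; linarith) (by norm_num; linarith)))
  rw [al4] at H4
  have H5 := one_nc (l := 5) (by norm_num) (by norm_num) hk ht hv θ hB.h5 (q := 0.08321 * k)
    (by positivity) (le_trans (inv_ck hk0 (by norm_num)) (abs_sin_ge_k 4 hk' (p := 12.5) (by norm_num)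
      (by norm_num) (by norm_num; linarith) (by norm_num; linarith)))
  rw [al5] at H5
  exact UU_core ht hK H1 H2 H3 H4 H5

theorem UI_p3bi {k : ℕ} (hk : 26 ≤ k) {t θ : ℝ} {v₁ b1 b2 b3 b4 b5 : ℝ} (ht : 0 < t)
    (ht' : t ≤ 1 / 26) (hv : k * t ≤ v₁) (hB : BB v₁ b1 b2 b3 b4 b5)
    (h0 : 1 ≤ θ) (h1 : θ ≤ 1.0472)
    (hs : 1 / (0.668 * k) ≤ |sin ((3 : ℕ) * (π + θ) / 2)|)
    (he : sin (((k : ℝ) + 1 / 2) * ((3 : ℕ) * (π + θ))) / (2 * sin ((3 : ℕ) * (π + θ) / 2)) ≤ 0.0475 * k) :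
    UU k t θ ≤ k * (-(0.26105 / 4)) + ((41 / 100 * (1.1548 - 11 / 12) + (b1 + 41 / 100 * log (1 / (k * t))) * (1.1548 / 2)) +
      (2 / 9 * (1.1884 - 11 / 12) + (b2 + 2 / 9 * log (1 / (k * t))) * (1.1884 / 2)) +
      (1 / 6 * (0.668 * k - 11 / 12) + (b3 + 1 / 6 * log (1 / (k * t))) * (0.0475 * k)) +
      (1 / 9 * (1.1548 - 11 / 12) + (b4 + 1 / 9 * log (1 / (k * t))) * (1.1548 / 2)) +
      (1 / 18 * (1.2483 - 11 / 12) + (b5 + 1 / 18 * log (1 / (k * t))) * (1.2483 / 2))) -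
      5 / 12 * log (1 / t) - 1 / 12 * log 6 + t / 4 := by
  have hp1 := pi_gt_d6
  have hp2 := pi_lt_d6
  norm_num at hp1 hp2
  have hk' : (26 : ℝ) ≤ k := by exact_mod_cast hk
  have hk0 : (0 : ℝ) < k := by linarith
  have hi : 1 / (k : ℝ) ≤ 1 / 26 := one_div_le_one_div_of_le (by norm_num) hk'
  norm_num at h0 h1
  have hK := K_le (k := k) (θ := θ) (x := 0.459697) (y := 0.26105) ht ht'
    (one_sub_cos_ge (a := 1) (by norm_num) (by norm_num at h0 ⊢; linarith) (by linarith) (by norm_num))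
    (by norm_num) (log_le_neg (by norm_num) (by norm_num) (by norm_num)
      (by norm_num [Finset.sum_range_succ, Nat.factorial])) (by norm_num)
  have H1 := one_nc (l := 1) (by norm_num) (by norm_num) hk ht hv θ hB.h1 (q := 1.1548)
    (by norm_num) (le_trans (by norm_num) (abs_sin_ge 0 (r := 1.0471) (by norm_num)
      (by norm_num; linarith) (by norm_num; linarith) (by norm_num; linarith)))
  rw [al1] at H1
  have H2 := one_nc (l := 2) (by norm_num) (by norm_num) hk ht hv θ hB.h2 (q := 1.1884)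
    (by norm_num) (le_trans (by norm_num) (abs_sin_ge 1 (r := 1) (by norm_num)
      (by norm_num; linarith) (by norm_num; linarith) (by norm_num; linarith)))
  rw [al2] at H2
  have H3 := one_end (l := 3) (by norm_num) (by norm_num) hk ht hv θ hB.h3 (q := 0.668 * k)
    (e := 0.0475 * k) (by positivity) hs (by positivity) he
  rw [al3] at H3
  have H4 := one_nc (l := 4) (by norm_num) (by norm_num) hk ht hv θ hB.h4 (q := 1.1548)
    (by norm_num) (le_trans (by norm_num) (abs_sin_ge 2 (r := 1.0471) (by norm_num)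
      (by norm_num; linarith) (by norm_num; linarith) (by norm_num; linarith)))
  rw [al4] at H4
  have H5 := one_nc (l := 5) (by norm_num) (by norm_num) hk ht hv θ hB.h5 (q := 1.2483)
    (by norm_num) (le_trans (by norm_num) (abs_sin_ge 3 (r := 0.9292) (by norm_num)
      (by norm_num; linarith) (by norm_num; linarith) (by norm_num; linarith)))
  rw [al5] at H5
  exact UU_core ht hK H1 H2 H3 H4 H5

theorem UI_p3bii {k : ℕ} (hk : 26 ≤ k) {t θ : ℝ} {v₁ b1 b2 b3 b4 b5 : ℝ} (ht : 0 < t)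
    (ht' : t ≤ 1 / 26) (hv : k * t ≤ v₁) (hB : BB v₁ b1 b2 b3 b4 b5)
    (h0 : 1 ≤ θ) (h1 : θ ≤ 1.0472)
    (hs : 1 / (0.33 * k) ≤ |sin ((3 : ℕ) * (π + θ) / 2)|) :
    UU k t θ ≤ k * (-(0.26105 / 4)) + ((41 / 100 * (1.1548 - 11 / 12) + (b1 + 41 / 100 * log (1 / (k * t))) * (1.1548 / 2)) +
      (2 / 9 * (1.1884 - 11 / 12) + (b2 + 2 / 9 * log (1 / (k * t))) * (1.1884 / 2)) +
      (1 / 6 * ((0.33 * k) - 11 / 12) + (b3 + 1 / 6 * log (1 / (k * t))) * ((0.33 * k) / 2)) +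
      (1 / 9 * (1.1548 - 11 / 12) + (b4 + 1 / 9 * log (1 / (k * t))) * (1.1548 / 2)) +
      (1 / 18 * (1.2483 - 11 / 12) + (b5 + 1 / 18 * log (1 / (k * t))) * (1.2483 / 2))) -
      5 / 12 * log (1 / t) - 1 / 12 * log 6 + t / 4 := by
  have hp1 := pi_gt_d6
  have hp2 := pi_lt_d6
  norm_num at hp1 hp2
  have hk' : (26 : ℝ) ≤ k := by exact_mod_cast hk
  have hk0 : (0 : ℝ) < k := by linarith
  have hi : 1 / (k : ℝ) ≤ 1 / 26 := one_div_le_one_div_of_le (by norm_num) hk'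
  norm_num at h0 h1
  have hK := K_le (k := k) (θ := θ) (x := 0.459697) (y := 0.26105) ht ht'
    (one_sub_cos_ge (a := 1) (by norm_num) (by norm_num at h0 ⊢; linarith) (by linarith) (by norm_num))
    (by norm_num) (log_le_neg (by norm_num) (by norm_num) (by norm_num)
      (by norm_num [Finset.sum_range_succ, Nat.factorial])) (by norm_num)
  have H1 := one_nc (l := 1) (by norm_num) (by norm_num) hk ht hv θ hB.h1 (q := 1.1548)
    (by norm_num) (le_trans (by norm_num) (abs_sin_ge 0 (r := 1.0471) (by norm_num)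
      (by norm_num; linarith) (by norm_num; linarith) (by norm_num; linarith)))
  rw [al1] at H1
  have H2 := one_nc (l := 2) (by norm_num) (by norm_num) hk ht hv θ hB.h2 (q := 1.1884)
    (by norm_num) (le_trans (by norm_num) (abs_sin_ge 1 (r := 1) (by norm_num)
      (by norm_num; linarith) (by norm_num; linarith) (by norm_num; linarith)))
  rw [al2] at H2
  have H3 := one_nc (l := 3) (by norm_num) (by norm_num) hk ht hv θ hB.h3 (q := 0.33 * k)
    (by positivity) hs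
  rw [al3] at H3
  have H4 := one_nc (l := 4) (by norm_num) (by norm_num) hk ht hv θ hB.h4 (q := 1.1548)
    (by norm_num) (le_trans (by norm_num) (abs_sin_ge 2 (r := 1.0471) (by norm_num)
      (by norm_num; linarith) (by norm_num; linarith) (by norm_num; linarith)))
  rw [al4] at H4
  have H5 := one_nc (l := 5) (by norm_num) (by norm_num) hk ht hv θ hB.h5 (q := 1.2483)
    (by norm_num) (le_trans (by norm_num) (abs_sin_ge 3 (r := 0.9292) (by norm_num)
      (by norm_num; linarith) (by norm_num; linarith) (by norm_num; linarith)))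
  rw [al5] at H5
  exact UU_core ht hK H1 H2 H3 H4 H5

theorem UI_p3ci {k : ℕ} (hk : 26 ≤ k) {t θ : ℝ} {v₁ b1 b2 b3 b4 b5 : ℝ} (ht : 0 < t)
    (ht' : t ≤ 1 / 26) (hv : k * t ≤ v₁) (hB : BB v₁ b1 b2 b3 b4 b5)
    (h0 : 1.0471 ≤ θ) (h1 : θ ≤ 1.2)
    (hs : 1 / (0.668 * k) ≤ |sin ((3 : ℕ) * (π + θ) / 2)|)
    (he : sin (((k : ℝ) + 1 / 2) * ((3 : ℕ) * (π + θ))) / (2 * sin ((3 : ℕ) * (π + θ) / 2)) ≤ 0.0475 * k) :
    UU k t θ ≤ k * (-(0.28749 / 4)) + ((41 / 100 * (1.2118 - 11 / 12) + (b1 + 41 / 100 * log (1 / (k * t))) * (1.2118 / 2)) +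
      (2 / 9 * (1.1548 - 11 / 12) + (b2 + 2 / 9 * log (1 / (k * t))) * (1.1548 / 2)) +
      (1 / 6 * (0.668 * k - 11 / 12) + (b3 + 1 / 6 * log (1 / (k * t))) * (0.0475 * k)) +
      (1 / 9 * (1.4807 - 11 / 12) + (b4 + 1 / 9 * log (1 / (k * t))) * (1.4807 / 2)) +
      (1 / 18 * (1.155 - 11 / 12) + (b5 + 1 / 18 * log (1 / (k * t))) * (1.155 / 2))) -
      5 / 12 * log (1 / t) - 1 / 12 * log 6 + t / 4 := by
  have hp1 := pi_gt_d6
  have hp2 := pi_lt_d6
  norm_num at hp1 hp2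
  have hk' : (26 : ℝ) ≤ k := by exact_mod_cast hk
  have hk0 : (0 : ℝ) < k := by linarith
  have hi : 1 / (k : ℝ) ≤ 1 / 26 := one_div_le_one_div_of_le (by norm_num) hk'
  norm_num at h0 h1
  have hK := K_le (k := k) (θ := θ) (x := 0.499915) (y := 0.28749) ht ht'
    (one_sub_cos_ge (a := 1.0471) (by norm_num) (by norm_num at h0 ⊢; linarith) (by linarith) (by norm_num))
    (by norm_num) (log_le_neg (by norm_num) (by norm_num) (by norm_num)
      (by norm_num [Finset.sum_range_succ, Nat.factorial])) (by norm_num)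
  have H1 := one_nc (l := 1) (by norm_num) (by norm_num) hk ht hv θ hB.h1 (q := 1.2118)
    (by norm_num) (le_trans (by norm_num) (abs_sin_ge 0 (r := 0.9707) (by norm_num)
      (by norm_num; linarith) (by norm_num; linarith) (by norm_num; linarith)))
  rw [al1] at H1
  have H2 := one_nc (l := 2) (by norm_num) (by norm_num) hk ht hv θ hB.h2 (q := 1.1548)
    (by norm_num) (le_trans (by norm_num) (abs_sin_ge 1 (r := 1.0471) (by norm_num)
      (by norm_num; linarith) (by norm_num; linarith) (by norm_num; linarith)))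
  rw [al2] at H2
  have H3 := one_end (l := 3) (by norm_num) (by norm_num) hk ht hv θ hB.h3 (q := 0.668 * k)
    (e := 0.0475 * k) (by positivity) hs (by positivity) he
  rw [al3] at H3
  have H4 := one_nc (l := 4) (by norm_num) (by norm_num) hk ht hv θ hB.h4 (q := 1.4807)
    (by norm_num) (le_trans (by norm_num) (abs_sin_ge 2 (r := 0.7415) (by norm_num)
      (by norm_num; linarith) (by norm_num; linarith) (by norm_num; linarith)))
  rw [al4] at H4
  have H5 := one_nc (l := 5) (by norm_num) (by norm_num) hk ht hv θ hB.h5 (q := 1.155)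
    (by norm_num) (le_trans (by norm_num) (abs_sin_ge 3 (r := 1.0469) (by norm_num)
      (by norm_num; linarith) (by norm_num; linarith) (by norm_num; linarith)))
  rw [al5] at H5
  exact UU_core ht hK H1 H2 H3 H4 H5

theorem UI_p3cii {k : ℕ} (hk : 26 ≤ k) {t θ : ℝ} {v₁ b1 b2 b3 b4 b5 : ℝ} (ht : 0 < t)
    (ht' : t ≤ 1 / 26) (hv : k * t ≤ v₁) (hB : BB v₁ b1 b2 b3 b4 b5)
    (h0 : 1.0471 ≤ θ) (h1 : θ ≤ 1.2)
    (hs : 1 / (0.33 * k) ≤ |sin ((3 : ℕ) * (π + θ) / 2)|) :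
    UU k t θ ≤ k * (-(0.28749 / 4)) + ((41 / 100 * (1.2118 - 11 / 12) + (b1 + 41 / 100 * log (1 / (k * t))) * (1.2118 / 2)) +
      (2 / 9 * (1.1548 - 11 / 12) + (b2 + 2 / 9 * log (1 / (k * t))) * (1.1548 / 2)) +
      (1 / 6 * ((0.33 * k) - 11 / 12) + (b3 + 1 / 6 * log (1 / (k * t))) * ((0.33 * k) / 2)) +
      (1 / 9 * (1.4807 - 11 / 12) + (b4 + 1 / 9 * log (1 / (k * t))) * (1.4807 / 2)) +
      (1 / 18 * (1.155 - 11 / 12) + (b5 + 1 / 18 * log (1 / (k * t))) * (1.155 / 2))) -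
      5 / 12 * log (1 / t) - 1 / 12 * log 6 + t / 4 := by
  have hp1 := pi_gt_d6
  have hp2 := pi_lt_d6
  norm_num at hp1 hp2
  have hk' : (26 : ℝ) ≤ k := by exact_mod_cast hk
  have hk0 : (0 : ℝ) < k := by linarith
  have hi : 1 / (k : ℝ) ≤ 1 / 26 := one_div_le_one_div_of_le (by norm_num) hk'
  norm_num at h0 h1
  have hK := K_le (k := k) (θ := θ) (x := 0.499915) (y := 0.28749) ht ht'
    (one_sub_cos_ge (a := 1.0471) (by norm_num) (by norm_num at h0 ⊢; linarith) (by linarith) (by norm_num))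
    (by norm_num) (log_le_neg (by norm_num) (by norm_num) (by norm_num)
      (by norm_num [Finset.sum_range_succ, Nat.factorial])) (by norm_num)
  have H1 := one_nc (l := 1) (by norm_num) (by norm_num) hk ht hv θ hB.h1 (q := 1.2118)
    (by norm_num) (le_trans (by norm_num) (abs_sin_ge 0 (r := 0.9707) (by norm_num)
      (by norm_num; linarith) (by norm_num; linarith) (by norm_num; linarith)))
  rw [al1] at H1
  have H2 := one_nc (l := 2) (by norm_num) (by norm_num) hk ht hv θ hB.h2 (q := 1.1548)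
    (by norm_num) (le_trans (by norm_num) (abs_sin_ge 1 (r := 1.0471) (by norm_num)
      (by norm_num; linarith) (by norm_num; linarith) (by norm_num; linarith)))
  rw [al2] at H2
  have H3 := one_nc (l := 3) (by norm_num) (by norm_num) hk ht hv θ hB.h3 (q := 0.33 * k)
    (by positivity) hs
  rw [al3] at H3
  have H4 := one_nc (l := 4) (by norm_num) (by norm_num) hk ht hv θ hB.h4 (q := 1.4807)
    (by norm_num) (le_trans (by norm_num) (abs_sin_ge 2 (r := 0.7415) (by norm_num)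
      (by norm_num; linarith) (by norm_num; linarith) (by norm_num; linarith)))
  rw [al4] at H4
  have H5 := one_nc (l := 5) (by norm_num) (by norm_num) hk ht hv θ hB.h5 (q := 1.155)
    (by norm_num) (le_trans (by norm_num) (abs_sin_ge 3 (r := 1.0469) (by norm_num)
      (by norm_num; linarith) (by norm_num; linarith) (by norm_num; linarith)))
  rw [al5] at H5
  exact UU_core ht hK H1 H2 H3 H4 H5

theorem UI_p2e {k : ℕ} (hk : 26 ≤ k) {t θ : ℝ} {v₁ b1 b2 b3 b4 b5 : ℝ} (ht : 0 < t)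
    (ht' : t ≤ 1 / 26) (hv : k * t ≤ v₁) (hB : BB v₁ b1 b2 b3 b4 b5)
    (h0 : 1.5569 ≤ θ) (h1 : θ ≤ 1.5847) :
    UU k t θ ≤ k * (-(0.67895 / 4)) + ((41 / 100 * (1.4243 - 11 / 12) + (b1 + 41 / 100 * log (1 / (k * t))) * (1.4243 / 2)) +
      (2 / 9 * (1.0003 - 11 / 12) + (b2 + 2 / 9 * log (1 / (k * t))) * (1.0003 / 2)) +
      (1 / 6 * (1.4448 - 11 / 12) + (b3 + 1 / 6 * log (1 / (k * t))) * (1.4448 / 2)) +
      (k * (b4 + 1 / 9) + 1 / 9 * k * log (1 / (k * t)) + b4 / 2 + 1 / 9 * log (1 / (k * t)) / 2 - 1 / 9 * 0.9189) +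
      (1 / 18 * (1.4662 - 11 / 12) + (b5 + 1 / 18 * log (1 / (k * t))) * (1.4662 / 2))) -
      5 / 12 * log (1 / t) - 1 / 12 * log 6 + t / 4 := by
  have hp1 := pi_gt_d6
  have hp2 := pi_lt_d6
  norm_num at hp1 hp2
  have hk' : (26 : ℝ) ≤ k := by exact_mod_cast hk
  have hk0 : (0 : ℝ) < k := by linarith
  have hi : 1 / (k : ℝ) ≤ 1 / 26 := one_div_le_one_div_of_le (by norm_num) hk'
  norm_num at h0 h1
  have hK := K_le (k := k) (θ := θ) (x := 0.986081) (y := 0.67895) ht ht'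
    (one_sub_cos_ge (a := 1.5569) (by norm_num) (by norm_num at h0 ⊢; linarith) (by linarith) (by norm_num))
    (by norm_num) (log_le_neg (by norm_num) (by norm_num) (by norm_num)
      (by norm_num [Finset.sum_range_succ, Nat.factorial])) (by norm_num)
  have H1 := one_nc (l := 1) (by norm_num) (by norm_num) hk ht hv θ hB.h1 (q := 1.4243)
    (by norm_num) (le_trans (by norm_num) (abs_sin_ge 0 (r := 0.7784) (by norm_num)
      (by norm_num; linarith) (by norm_num; linarith) (by norm_num; linarith)))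
  rw [al1] at H1
  have H2 := one_nc (l := 2) (by norm_num) (by norm_num) hk ht hv θ hB.h2 (q := 1.0003)
    (by norm_num) (le_trans (by norm_num) (abs_sin_ge 1 (r := 1.5568) (by norm_num)
      (by norm_num; linarith) (by norm_num; linarith) (by norm_num; linarith)))
  rw [al2] at H2
  have H3 := one_nc (l := 3) (by norm_num) (by norm_num) hk ht hv θ hB.h3 (q := 1.4448)
    (by norm_num) (le_trans (by norm_num) (abs_sin_ge 2 (r := 0.7645) (by norm_num)
      (by norm_num; linarith) (by norm_num; linarith) (by norm_num; linarith)))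
  rw [al3] at H3
  have H4 := one_cap (l := 4) (by norm_num) (by norm_num) hk ht hv θ hB.h4
  rw [al4] at H4
  have H5 := one_nc (l := 5) (by norm_num) (by norm_num) hk ht hv θ hB.h5 (q := 1.4662)
    (by norm_num) (le_trans (by norm_num) (abs_sin_ge 3 (r := 0.7506) (by norm_num)
      (by norm_num; linarith) (by norm_num; linarith) (by norm_num; linarith)))
  rw [al5] at H5
  exact UU_core ht hK H1 H2 H3 H4 H5

theorem UI_p2o {k : ℕ} (hk : 26 ≤ k) {t θ : ℝ} {v₁ b1 b2 b3 b4 b5 : ℝ} (ht : 0 < t)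
    (ht' : t ≤ 1 / 26) (hv : k * t ≤ v₁) (hB : BB v₁ b1 b2 b3 b4 b5)
    (h0 : 1.5569 ≤ θ) (h1 : θ ≤ 1.5847)
    (he : sin (((k : ℝ) + 1 / 2) * ((2 : ℕ) * (π + θ))) / (2 * sin ((2 : ℕ) * (π + θ) / 2)) ≤ 0) :
    UU k t θ ≤ k * (-(0.67895 / 4)) + ((41 / 100 * (1.4243 - 11 / 12) + (b1 + 41 / 100 * log (1 / (k * t))) * (1.4243 / 2)) +
      (2 / 9 * (1.0003 - 11 / 12) + (b2 + 2 / 9 * log (1 / (k * t))) * 0) +
      (1 / 6 * (1.4448 - 11 / 12) + (b3 + 1 / 6 * log (1 / (k * t))) * (1.4448 / 2)) +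
      (k * (b4 + 1 / 9) + 1 / 9 * k * log (1 / (k * t)) + b4 / 2 + 1 / 9 * log (1 / (k * t)) / 2 - 1 / 9 * 0.9189) +
      (1 / 18 * (1.4662 - 11 / 12) + (b5 + 1 / 18 * log (1 / (k * t))) * (1.4662 / 2))) -
      5 / 12 * log (1 / t) - 1 / 12 * log 6 + t / 4 := by
  have hp1 := pi_gt_d6
  have hp2 := pi_lt_d6
  norm_num at hp1 hp2
  have hk' : (26 : ℝ) ≤ k := by exact_mod_cast hk
  have hk0 : (0 : ℝ) < k := by linarith
  have hi : 1 / (k : ℝ) ≤ 1 / 26 := one_div_le_one_div_of_le (by norm_num) hk'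
  norm_num at h0 h1
  have hK := K_le (k := k) (θ := θ) (x := 0.986081) (y := 0.67895) ht ht'
    (one_sub_cos_ge (a := 1.5569) (by norm_num) (by norm_num at h0 ⊢; linarith) (by linarith) (by norm_num))
    (by norm_num) (log_le_neg (by norm_num) (by norm_num) (by norm_num)
      (by norm_num [Finset.sum_range_succ, Nat.factorial])) (by norm_num)
  have H1 := one_nc (l := 1) (by norm_num) (by norm_num) hk ht hv θ hB.h1 (q := 1.4243)
    (by norm_num) (le_trans (by norm_num) (abs_sin_ge 0 (r := 0.7784) (by norm_num)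
      (by norm_num; linarith) (by norm_num; linarith) (by norm_num; linarith)))
  rw [al1] at H1
  have H2 := one_end (l := 2) (by norm_num) (by norm_num) hk ht hv θ hB.h2 (q := 1.0003)
    (e := 0) (by norm_num) (le_trans (by norm_num) (abs_sin_ge 1 (r := 1.5568) (by norm_num)
      (by norm_num; linarith) (by norm_num; linarith) (by norm_num; linarith))) le_rfl he
  rw [al2] at H2
  have H3 := one_nc (l := 3) (by norm_num) (by norm_num) hk ht hv θ hB.h3 (q := 1.4448)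
    (by norm_num) (le_trans (by norm_num) (abs_sin_ge 2 (r := 0.7645) (by norm_num)
      (by norm_num; linarith) (by norm_num; linarith) (by norm_num; linarith)))
  rw [al3] at H3
  have H4 := one_cap (l := 4) (by norm_num) (by norm_num) hk ht hv θ hB.h4
  rw [al4] at H4
  have H5 := one_nc (l := 5) (by norm_num) (by norm_num) hk ht hv θ hB.h5 (q := 1.4662)
    (by norm_num) (le_trans (by norm_num) (abs_sin_ge 3 (r := 0.7506) (by norm_num)
      (by norm_num; linarith) (by norm_num; linarith) (by norm_num; linarith)))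
  rw [al5] at H5
  exact UU_core ht hK H1 H2 H3 H4 H5

theorem UI_p2x {k : ℕ} (hk : 26 ≤ k) {t θ : ℝ} {v₁ b1 b2 b3 b4 b5 : ℝ} (ht : 0 < t)
    (ht' : t ≤ 1 / 26) (hv : k * t ≤ v₁) (hB : BB v₁ b1 b2 b3 b4 b5)
    (h0 : 1.52 ≤ θ) (h1 : θ ≤ 1.62)
    (hs : 1 / (1.3891 * k) ≤ |sin ((4 : ℕ) * (π + θ) / 2)|) :
    UU k t θ ≤ k * (-(0.64326 / 4)) + ((41 / 100 * (1.4505 - 11 / 12) + (b1 + 41 / 100 * log (1 / (k * t))) * (1.4505 / 2)) +
      (2 / 9 * (1.0015 - 11 / 12) + (b2 + 2 / 9 * log (1 / (k * t))) * (1.0015 / 2)) +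
      (1 / 6 * (1.5356 - 11 / 12) + (b3 + 1 / 6 * log (1 / (k * t))) * (1.5356 / 2)) +
      (1 / 9 * ((1.3891 * k) - 11 / 12) + (b4 + 1 / 9 * log (1 / (k * t))) * ((1.3891 * k) / 2)) +
      (1 / 18 * (1.6262 - 11 / 12) + (b5 + 1 / 18 * log (1 / (k * t))) * (1.6262 / 2))) -
      5 / 12 * log (1 / t) - 1 / 12 * log 6 + t / 4 := by
  have hp1 := pi_gt_d6
  have hp2 := pi_lt_d6
  norm_num at hp1 hp2
  have hk' : (26 : ℝ) ≤ k := by exact_mod_cast hk
  have hk0 : (0 : ℝ) < k := by linarith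
  have hi : 1 / (k : ℝ) ≤ 1 / 26 := one_div_le_one_div_of_le (by norm_num) hk'
  norm_num at h0 h1
  have hK := K_le (k := k) (θ := θ) (x := 0.949207) (y := 0.64326) ht ht'
    (one_sub_cos_ge (a := 1.52) (by norm_num) (by norm_num at h0 ⊢; linarith) (by linarith) (by norm_num))
    (by norm_num) (log_le_neg (by norm_num) (by norm_num) (by norm_num)
      (by norm_num [Finset.sum_range_succ, Nat.factorial])) (by norm_num)
  have H1 := one_nc (l := 1) (by norm_num) (by norm_num) hk ht hv θ hB.h1 (q := 1.4505)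
    (by norm_num) (le_trans (by norm_num) (abs_sin_ge 0 (r := 0.7607) (by norm_num)
      (by norm_num; linarith) (by norm_num; linarith) (by norm_num; linarith)))
  rw [al1] at H1
  have H2 := one_nc (l := 2) (by norm_num) (by norm_num) hk ht hv θ hB.h2 (q := 1.0015)
    (by norm_num) (le_trans (by norm_num) (abs_sin_ge 1 (r := 1.52) (by norm_num)
      (by norm_num; linarith) (by norm_num; linarith) (by norm_num; linarith)))
  rw [al2] at H2
  have H3 := one_nc (l := 3) (by norm_num) (by norm_num) hk ht hv θ hB.h3 (q := 1.5356)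
    (by norm_num) (le_trans (by norm_num) (abs_sin_ge 2 (r := 0.7092) (by norm_num)
      (by norm_num; linarith) (by norm_num; linarith) (by norm_num; linarith)))
  rw [al3] at H3
  have H4 := one_nc (l := 4) (by norm_num) (by norm_num) hk ht hv θ hB.h4 (q := 1.3891 * k)
    (by positivity) hs
  rw [al4] at H4
  have H5 := one_nc (l := 5) (by norm_num) (by norm_num) hk ht hv θ hB.h5 (q := 1.6262)
    (by norm_num) (le_trans (by norm_num) (abs_sin_ge 3 (r := 0.6623) (by norm_num)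
      (by norm_num; linarith) (by norm_num; linarith) (by norm_num; linarith)))
  rw [al5] at H5
  exact UU_core ht hK H1 H2 H3 H4 H5

end Pool.Agent.SignedQ.Far
end

section

/-! # FAR arcs: the U lemma, intervals (generated) -/

namespace Pool.Agent.SignedQ.Far

open Real Finset

theorem D_L1_ten {k : ℕ} (hk : 26 ≤ k) {t θ : ℝ} (ht : 0 < t) (hv : k * t ≤ 1 / 10)
    (h0 : 6 * (1 / k) ≤ θ) (h1 : θ ≤ 0.25)
    {M : ℝ} (hM : fm (-(73 / 10000)) (1 / 18) (37 / 100) (133 / 200) k t ≤ M) :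
    UU k t θ ≤ M - 5 / 12 * log (1 / t) - 1 / 12 * log 6 + t / 4 := by
  have hk' : (26 : ℝ) ≤ k := by exact_mod_cast hk
  have h := UI_L1 hk ht (t_le hk ht (hv.trans (by norm_num))) hv BB_ten h0 h1
  have hL := L_ge_ten hk ht hv
  unfold fm at hM
  have hd := dom 2.3025 (a1 := (20758069 / 450000000)) (a2 := (529 / 22500)) (a3 := (-(139097431 / 675000000))) (a4 := (37177 / 112500)) hk' hL hM (by norm_num) (by norm_num)
    (by norm_num) (by norm_num)
  refine h.trans ?_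
  generalize log (1 / ((k : ℝ) * t)) = L at *
  norm_num at hd ⊢
  linarith

theorem D_L1_third {k : ℕ} (hk : 26 ≤ k) {t θ : ℝ} (ht : 0 < t) (hv : k * t ≤ 1 / 3)
    (h0 : 6 * (1 / k) ≤ θ) (h1 : θ ≤ 0.25)
    {M : ℝ} (hM : fm (471 / 10000) (236 / 10000) (-(12 / 100)) (67 / 200) k t ≤ M) :
    UU k t θ ≤ M - 5 / 12 * log (1 / t) - 1 / 12 * log 6 + t / 4 := by
  have hk' : (26 : ℝ) ≤ k := by exact_mod_cast hk
  have h := UI_L1 hk ht (t_le hk ht (hv.trans (by norm_num))) hv BB_third h0 h1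
  have hL := L_ge_third hk ht hv
  unfold fm at hM
  have hd := dom 1.0986 (a1 := (42253679 / 900000000)) (a2 := (529 / 22500)) (a3 := (-(166007837 / 1350000000))) (a4 := (37177 / 112500)) hk' hL hM (by norm_num) (by norm_num)
    (by norm_num) (by norm_num)
  refine h.trans ?_
  generalize log (1 / ((k : ℝ) * t)) = L at *
  norm_num at hd ⊢
  linarith

theorem D_L1_one {k : ℕ} (hk : 26 ≤ k) {t θ : ℝ} (ht : 0 < t) (hv : k * t ≤ 1)
    (h0 : 6 * (1 / k) ≤ θ) (h1 : θ ≤ 0.25)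
    {M : ℝ} (hM : fm (532 / 10000) (236 / 10000) (-(2 / 100)) (67 / 200) k t ≤ M) :
    UU k t θ ≤ M - 5 / 12 * log (1 / t) - 1 / 12 * log 6 + t / 4 := by
  have hk' : (26 : ℝ) ≤ k := by exact_mod_cast hk
  have h := UI_L1 hk ht (t_le hk ht (hv.trans (by norm_num))) hv BB_one h0 h1
  have hL := L_ge_one hk ht hv
  unfold fm at hM
  have hd := dom 0 (a1 := (59767 / 1125000)) (a2 := (529 / 22500)) (a3 := (-(4672537 / 168750000))) (a4 := (37177 / 112500)) hk' hL hM (by norm_num) (by norm_num)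
    (by norm_num) (by norm_num)
  refine h.trans ?_
  generalize log (1 / ((k : ℝ) * t)) = L at *
  norm_num at hd ⊢
  linarith

theorem D_R1_ten {k : ℕ} (hk : 26 ≤ k) {t θ : ℝ} (ht : 0 < t) (hv : k * t ≤ 1 / 10)
    (h0 : 2.94 ≤ θ) (h1 : θ ≤ π - 5 * (1 / k))
    {M : ℝ} (hM : fm (-(3 / 5)) (13 / 100) 3 (13 / 10) k t ≤ M) :
    UU k t θ ≤ M - 5 / 12 * log (1 / t) - 1 / 12 * log 6 + t / 4 := by
  have hk' : (26 : ℝ) ≤ k := by exact_mod_cast hk
  have h := UI_R1 hk ht (t_le hk ht (hv.trans (by norm_num))) hv BB_ten h0 h1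
  have hL := L_ge_ten hk ht hv
  unfold fm at hM
  have hd := dom 2.3025 (a1 := (-(1311103679 / 1800000000))) (a2 := (11138689 / 90000000)) (a3 := (-(9559 / 10800))) (a4 := 0) hk' hL hM (by norm_num) (by norm_num)
    (by norm_num) (by norm_num)
  refine h.trans ?_
  generalize log (1 / ((k : ℝ) * t)) = L at *
  norm_num at hd ⊢
  linarith

theorem D_R1_third {k : ℕ} (hk : 26 ≤ k) {t θ : ℝ} (ht : 0 < t) (hv : k * t ≤ 1 / 3)
    (h0 : 2.94 ≤ θ) (h1 : θ ≤ π - 5 * (1 / k))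
    {M : ℝ} (hM : fm (-(3 / 5)) (13 / 100) 3 (13 / 10) k t ≤ M) :
    UU k t θ ≤ M - 5 / 12 * log (1 / t) - 1 / 12 * log 6 + t / 4 := by
  have hk' : (26 : ℝ) ≤ k := by exact_mod_cast hk
  have h := UI_R1 hk ht (t_le hk ht (hv.trans (by norm_num))) hv BB_third h0 h1
  have hL := L_ge_third hk ht hv
  unfold fm at hM
  have hd := dom 1.0986 (a1 := (-(12556140989 / 18000000000))) (a2 := (11138689 / 90000000)) (a3 := (-(9559 / 10800))) (a4 := 0) hk' hL hM (by norm_num) (by norm_num)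
    (by norm_num) (by norm_num)
  refine h.trans ?_
  generalize log (1 / ((k : ℝ) * t)) = L at *
  norm_num at hd ⊢
  linarith

theorem D_R1_one {k : ℕ} (hk : 26 ≤ k) {t θ : ℝ} (ht : 0 < t) (hv : k * t ≤ 1)
    (h0 : 2.94 ≤ θ) (h1 : θ ≤ π - 5 * (1 / k))
    {M : ℝ} (hM : fm (-(3 / 5)) (13 / 100) 3 (13 / 10) k t ≤ M) :
    UU k t θ ≤ M - 5 / 12 * log (1 / t) - 1 / 12 * log 6 + t / 4 := by
  have hk' : (26 : ℝ) ≤ k := by exact_mod_cast hk
  have h := UI_R1 hk ht (t_le hk ht (hv.trans (by norm_num))) hv BB_one h0 h1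
  have hL := L_ge_one hk ht hv
  unfold fm at hM
  have hd := dom 0 (a1 := (-(6028661437 / 9000000000))) (a2 := (11138689 / 90000000)) (a3 := (-(9559 / 10800))) (a4 := 0) hk' hL hM (by norm_num) (by norm_num)
    (by norm_num) (by norm_num)
  refine h.trans ?_
  generalize log (1 / ((k : ℝ) * t)) = L at *
  norm_num at hd ⊢
  linarith

theorem D_p3bi_ten {k : ℕ} (hk : 26 ≤ k) {t θ : ℝ} (ht : 0 < t) (hv : k * t ≤ 1 / 10)
    (h0 : 1 ≤ θ) (h1 : θ ≤ 1.0472)
    (hs : 1 / (0.668 * k) ≤ |sin ((3 : ℕ) * (π + θ) / 2)|)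
    (he : sin (((k : ℝ) + 1 / 2) * ((3 : ℕ) * (π + θ))) / (2 * sin ((3 : ℕ) * (π + θ) / 2)) ≤ 0.0475 * k)
    {M : ℝ} (hM : fm (-(73 / 10000)) (1 / 18) (37 / 100) (133 / 200) k t ≤ M) :
    UU k t θ ≤ M - 5 / 12 * log (1 / t) - 1 / 12 * log 6 + t / 4 := by
  have hk' : (26 : ℝ) ≤ k := by exact_mod_cast hk
  have h := UI_p3bi hk ht (t_le hk ht (hv.trans (by norm_num))) hv BB_ten h0 h1 hs he
  have hL := L_ge_ten hk ht hv
  unfold fm at hM
  have hd := dom 2.3025 (a1 := (515401 / 12000000)) (a2 := (19 / 2400)) (a3 := (96619211 / 1080000000)) (a4 := (467609 / 1000000)) hk' hL hM (by norm_num) (by norm_num)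
    (by norm_num) (by norm_num)
  refine h.trans ?_
  generalize log (1 / ((k : ℝ) * t)) = L at *
  norm_num at hd ⊢
  linarith

theorem D_p3bi_third {k : ℕ} (hk : 26 ≤ k) {t θ : ℝ} (ht : 0 < t) (hv : k * t ≤ 1 / 3)
    (h0 : 1 ≤ θ) (h1 : θ ≤ 1.0472)
    (hs : 1 / (0.668 * k) ≤ |sin ((3 : ℕ) * (π + θ) / 2)|)
    (he : sin (((k : ℝ) + 1 / 2) * ((3 : ℕ) * (π + θ))) / (2 * sin ((3 : ℕ) * (π + θ) / 2)) ≤ 0.0475 * k)
    {M : ℝ} (hM : fm (-(1 / 10000)) (1 / 18) (47 / 100) (133 / 200) k t ≤ M) :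
    UU k t θ ≤ M - 5 / 12 * log (1 / t) - 1 / 12 * log 6 + t / 4 := by
  have hk' : (26 : ℝ) ≤ k := by exact_mod_cast hk
  have h := UI_p3bi hk ht (t_le hk ht (hv.trans (by norm_num))) hv BB_third h0 h1 hs he
  have hL := L_ge_third hk ht hv
  unfold fm at hM
  have hd := dom 1.0986 (a1 := (52207 / 1200000)) (a2 := (19 / 2400)) (a3 := (1004059759 / 5400000000)) (a4 := (467609 / 1000000)) hk' hL hM (by norm_num) (by norm_num)
    (by norm_num) (by norm_num)
  refine h.trans ?_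
  generalize log (1 / ((k : ℝ) * t)) = L at *
  norm_num at hd ⊢
  linarith

theorem D_p3bi_one {k : ℕ} (hk : 26 ≤ k) {t θ : ℝ} (ht : 0 < t) (hv : k * t ≤ 1)
    (h0 : 1 ≤ θ) (h1 : θ ≤ 1.0472)
    (hs : 1 / (0.668 * k) ≤ |sin ((3 : ℕ) * (π + θ) / 2)|)
    (he : sin (((k : ℝ) + 1 / 2) * ((3 : ℕ) * (π + θ))) / (2 * sin ((3 : ℕ) * (π + θ) / 2)) ≤ 0.0475 * k)
    {M : ℝ} (hM : fm (47 / 1000) (8 / 1000) (32 / 100) (1 / 2) k t ≤ M) :
    UU k t θ ≤ M - 5 / 12 * log (1 / t) - 1 / 12 * log 6 + t / 4 := by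
  have hk' : (26 : ℝ) ≤ k := by exact_mod_cast hk
  have h := UI_p3bi hk ht (t_le hk ht (hv.trans (by norm_num))) hv BB_one h0 h1 hs he
  have hL := L_ge_one hk ht hv
  unfold fm at hM
  have hd := dom 0 (a1 := (28127 / 600000)) (a2 := (19 / 2400)) (a3 := (834619187 / 2700000000)) (a4 := (467609 / 1000000)) hk' hL hM (by norm_num) (by norm_num)
    (by norm_num) (by norm_num)
  refine h.trans ?_
  generalize log (1 / ((k : ℝ) * t)) = L at *
  norm_num at hd ⊢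
  linarith

theorem D_p3bii_ten {k : ℕ} (hk : 26 ≤ k) {t θ : ℝ} (ht : 0 < t) (hv : k * t ≤ 1 / 10)
    (h0 : 1 ≤ θ) (h1 : θ ≤ 1.0472)
    (hs : 1 / (0.33 * k) ≤ |sin ((3 : ℕ) * (π + θ) / 2)|)
    {M : ℝ} (hM : fm (-(73 / 10000)) (1 / 18) (37 / 100) (133 / 200) k t ≤ M) :
    UU k t θ ≤ M - 5 / 12 * log (1 / t) - 1 / 12 * log 6 + t / 4 := by
  have hk' : (26 : ℝ) ≤ k := by exact_mod_cast hk
  have h := UI_p3bii hk ht (t_le hk ht (hv.trans (by norm_num))) hv BB_ten h0 h1 hs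
  have hL := L_ge_ten hk ht hv
  unfold fm at hM
  have hd := dom 2.3025 (a1 := (-(21103 / 1000000))) (a2 := (11 / 400)) (a3 := (96619211 / 1080000000)) (a4 := (467609 / 1000000)) hk' hL hM (by norm_num) (by norm_num)
    (by norm_num) (by norm_num)
  refine h.trans ?_
  generalize log (1 / ((k : ℝ) * t)) = L at *
  norm_num at hd ⊢
  linarith

theorem D_p3bii_third {k : ℕ} (hk : 26 ≤ k) {t θ : ℝ} (ht : 0 < t) (hv : k * t ≤ 1 / 3)
    (h0 : 1 ≤ θ) (h1 : θ ≤ 1.0472)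
    (hs : 1 / (0.33 * k) ≤ |sin ((3 : ℕ) * (π + θ) / 2)|)
    {M : ℝ} (hM : fm (-(1 / 10000)) (1 / 18) (47 / 100) (133 / 200) k t ≤ M) :
    UU k t θ ≤ M - 5 / 12 * log (1 / t) - 1 / 12 * log 6 + t / 4 := by
  have hk' : (26 : ℝ) ≤ k := by exact_mod_cast hk
  have h := UI_p3bii hk ht (t_le hk ht (hv.trans (by norm_num))) hv BB_third h0 h1 hs
  have hL := L_ge_third hk ht hv
  unfold fm at hM
  have hd := dom 1.0986 (a1 := (-(7669 / 400000))) (a2 := (11 / 400)) (a3 := (1004059759 / 5400000000)) (a4 := (467609 / 1000000)) hk' hL hM (by norm_num) (by norm_num)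
    (by norm_num) (by norm_num)
  refine h.trans ?_
  generalize log (1 / ((k : ℝ) * t)) = L at *
  norm_num at hd ⊢
  linarith

theorem D_p3bii_one {k : ℕ} (hk : 26 ≤ k) {t θ : ℝ} (ht : 0 < t) (hv : k * t ≤ 1)
    (h0 : 1 ≤ θ) (h1 : θ ≤ 1.0472)
    (hs : 1 / (0.33 * k) ≤ |sin ((3 : ℕ) * (π + θ) / 2)|)
    {M : ℝ} (hM : fm (35 / 1000) (1 / 18) (133 / 200) (133 / 200) k t ≤ M) :
    UU k t θ ≤ M - 5 / 12 * log (1 / t) - 1 / 12 * log 6 + t / 4 := by
  have hk' : (26 : ℝ) ≤ k := by exact_mod_cast hk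
  have h := UI_p3bii hk ht (t_le hk ht (hv.trans (by norm_num))) hv BB_one h0 h1 hs
  have hL := L_ge_one hk ht hv
  unfold fm at hM
  have hd := dom 0 (a1 := (-(2983 / 400000))) (a2 := (11 / 400)) (a3 := (834619187 / 2700000000)) (a4 := (467609 / 1000000)) hk' hL hM (by norm_num) (by norm_num)
    (by norm_num) (by norm_num)
  refine h.trans ?_
  generalize log (1 / ((k : ℝ) * t)) = L at *
  norm_num at hd ⊢
  linarith

theorem D_p3ci_ten {k : ℕ} (hk : 26 ≤ k) {t θ : ℝ} (ht : 0 < t) (hv : k * t ≤ 1 / 10)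
    (h0 : 1.0471 ≤ θ) (h1 : θ ≤ 1.2)
    (hs : 1 / (0.668 * k) ≤ |sin ((3 : ℕ) * (π + θ) / 2)|)
    (he : sin (((k : ℝ) + 1 / 2) * ((3 : ℕ) * (π + θ))) / (2 * sin ((3 : ℕ) * (π + θ) / 2)) ≤ 0.0475 * k)
    {M : ℝ} (hM : fm (-(73 / 10000)) (1 / 18) (37 / 100) (133 / 200) k t ≤ M) :
    UU k t θ ≤ M - 5 / 12 * log (1 / t) - 1 / 12 * log 6 + t / 4 := by
  have hk' : (26 : ℝ) ≤ k := by exact_mod_cast hk
  have h := UI_p3ci hk ht (t_le hk ht (hv.trans (by norm_num))) hv BB_ten h0 h1 hs he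
  have hL := L_ge_ten hk ht hv
  unfold fm at hM
  have hd := dom 2.3025 (a1 := (436081 / 12000000)) (a2 := (19 / 2400)) (a3 := (176778043 / 1350000000)) (a4 := (4419671 / 9000000)) hk' hL hM (by norm_num) (by norm_num)
    (by norm_num) (by norm_num)
  refine h.trans ?_
  generalize log (1 / ((k : ℝ) * t)) = L at *
  norm_num at hd ⊢
  linarith

theorem D_p3ci_third {k : ℕ} (hk : 26 ≤ k) {t θ : ℝ} (ht : 0 < t) (hv : k * t ≤ 1 / 3)
    (h0 : 1.0471 ≤ θ) (h1 : θ ≤ 1.2)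
    (hs : 1 / (0.668 * k) ≤ |sin ((3 : ℕ) * (π + θ) / 2)|)
    (he : sin (((k : ℝ) + 1 / 2) * ((3 : ℕ) * (π + θ))) / (2 * sin ((3 : ℕ) * (π + θ) / 2)) ≤ 0.0475 * k)
    {M : ℝ} (hM : fm (-(1 / 10000)) (1 / 18) (47 / 100) (133 / 200) k t ≤ M) :
    UU k t θ ≤ M - 5 / 12 * log (1 / t) - 1 / 12 * log 6 + t / 4 := by
  have hk' : (26 : ℝ) ≤ k := by exact_mod_cast hk
  have h := UI_p3ci hk ht (t_le hk ht (hv.trans (by norm_num))) hv BB_third h0 h1 hs he
  have hL := L_ge_third hk ht hv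
  unfold fm at hM
  have hd := dom 1.0986 (a1 := (1771 / 48000)) (a2 := (19 / 2400)) (a3 := (1258691797 / 5400000000)) (a4 := (4419671 / 9000000)) hk' hL hM (by norm_num) (by norm_num)
    (by norm_num) (by norm_num)
  refine h.trans ?_
  generalize log (1 / ((k : ℝ) * t)) = L at *
  norm_num at hd ⊢
  linarith

theorem D_p3ci_one {k : ℕ} (hk : 26 ≤ k) {t θ : ℝ} (ht : 0 < t) (hv : k * t ≤ 1)
    (h0 : 1.0471 ≤ θ) (h1 : θ ≤ 1.2)
    (hs : 1 / (0.668 * k) ≤ |sin ((3 : ℕ) * (π + θ) / 2)|)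
    (he : sin (((k : ℝ) + 1 / 2) * ((3 : ℕ) * (π + θ))) / (2 * sin ((3 : ℕ) * (π + θ) / 2)) ≤ 0.0475 * k)
    {M : ℝ} (hM : fm (47 / 1000) (8 / 1000) (32 / 100) (1 / 2) k t ≤ M) :
    UU k t θ ≤ M - 5 / 12 * log (1 / t) - 1 / 12 * log 6 + t / 4 := by
  have hk' : (26 : ℝ) ≤ k := by exact_mod_cast hk
  have h := UI_p3ci hk ht (t_le hk ht (hv.trans (by norm_num))) hv BB_one h0 h1 hs he
  have hL := L_ge_one hk ht hv
  unfold fm at hM
  have hd := dom 0 (a1 := (24161 / 600000)) (a2 := (19 / 2400)) (a3 := (39546119 / 108000000)) (a4 := (4419671 / 9000000)) hk' hL hM (by norm_num) (by norm_num)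
    (by norm_num) (by norm_num)
  refine h.trans ?_
  generalize log (1 / ((k : ℝ) * t)) = L at *
  norm_num at hd ⊢
  linarith

theorem D_p3cii_ten {k : ℕ} (hk : 26 ≤ k) {t θ : ℝ} (ht : 0 < t) (hv : k * t ≤ 1 / 10)
    (h0 : 1.0471 ≤ θ) (h1 : θ ≤ 1.2)
    (hs : 1 / (0.33 * k) ≤ |sin ((3 : ℕ) * (π + θ) / 2)|)
    {M : ℝ} (hM : fm (-(73 / 10000)) (1 / 18) (37 / 100) (133 / 200) k t ≤ M) :
    UU k t θ ≤ M - 5 / 12 * log (1 / t) - 1 / 12 * log 6 + t / 4 := by
  have hk' : (26 : ℝ) ≤ k := by exact_mod_cast hk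
  have h := UI_p3cii hk ht (t_le hk ht (hv.trans (by norm_num))) hv BB_ten h0 h1 hs
  have hL := L_ge_ten hk ht hv
  unfold fm at hM
  have hd := dom 2.3025 (a1 := (-(27713 / 1000000))) (a2 := (11 / 400)) (a3 := (176778043 / 1350000000)) (a4 := (4419671 / 9000000)) hk' hL hM (by norm_num) (by norm_num)
    (by norm_num) (by norm_num)
  refine h.trans ?_
  generalize log (1 / ((k : ℝ) * t)) = L at *
  norm_num at hd ⊢
  linarith

theorem D_p3cii_third {k : ℕ} (hk : 26 ≤ k) {t θ : ℝ} (ht : 0 < t) (hv : k * t ≤ 1 / 3)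
    (h0 : 1.0471 ≤ θ) (h1 : θ ≤ 1.2)
    (hs : 1 / (0.33 * k) ≤ |sin ((3 : ℕ) * (π + θ) / 2)|)
    {M : ℝ} (hM : fm (-(1 / 10000)) (1 / 18) (47 / 100) (133 / 200) k t ≤ M) :
    UU k t θ ≤ M - 5 / 12 * log (1 / t) - 1 / 12 * log 6 + t / 4 := by
  have hk' : (26 : ℝ) ≤ k := by exact_mod_cast hk
  have h := UI_p3cii hk ht (t_le hk ht (hv.trans (by norm_num))) hv BB_third h0 h1 hs
  have hL := L_ge_third hk ht hv
  unfold fm at hM
  have hd := dom 1.0986 (a1 := (-(10313 / 400000))) (a2 := (11 / 400)) (a3 := (1258691797 / 5400000000)) (a4 := (4419671 / 9000000)) hk' hL hM (by norm_num) (by norm_num)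
    (by norm_num) (by norm_num)
  refine h.trans ?_
  generalize log (1 / ((k : ℝ) * t)) = L at *
  norm_num at hd ⊢
  linarith

theorem D_p3cii_one {k : ℕ} (hk : 26 ≤ k) {t θ : ℝ} (ht : 0 < t) (hv : k * t ≤ 1)
    (h0 : 1.0471 ≤ θ) (h1 : θ ≤ 1.2)
    (hs : 1 / (0.33 * k) ≤ |sin ((3 : ℕ) * (π + θ) / 2)|)
    {M : ℝ} (hM : fm (35 / 1000) (1 / 18) (133 / 200) (133 / 200) k t ≤ M) :
    UU k t θ ≤ M - 5 / 12 * log (1 / t) - 1 / 12 * log 6 + t / 4 := by
  have hk' : (26 : ℝ) ≤ k := by exact_mod_cast hk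
  have h := UI_p3cii hk ht (t_le hk ht (hv.trans (by norm_num))) hv BB_one h0 h1 hs
  have hL := L_ge_one hk ht hv
  unfold fm at hM
  have hd := dom 0 (a1 := (-(5627 / 400000))) (a2 := (11 / 400)) (a3 := (39546119 / 108000000)) (a4 := (4419671 / 9000000)) hk' hL hM (by norm_num) (by norm_num)
    (by norm_num) (by norm_num)
  refine h.trans ?_
  generalize log (1 / ((k : ℝ) * t)) = L at *
  norm_num at hd ⊢
  linarith

theorem D_p2e_ten {k : ℕ} (hk : 26 ≤ k) {t θ : ℝ} (ht : 0 < t) (hv : k * t ≤ 1 / 10)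
    (h0 : 1.5569 ≤ θ) (h1 : θ ≤ 1.5847)
    {M : ℝ} (hM : fm (-(1284 / 10000)) (1 / 9) (26 / 100) (62 / 100) k t ≤ M) :
    UU k t θ ≤ M - 5 / 12 * log (1 / t) - 1 / 12 * log 6 + t / 4 := by
  have hk' : (26 : ℝ) ≤ k := by exact_mod_cast hk
  have h := UI_p2e hk ht (t_le hk ht (hv.trans (by norm_num))) hv BB_ten h0 h1
  have hL := L_ge_ten hk ht hv
  unfold fm at hM
  have hd := dom 2.3025 (a1 := (-(92467 / 720000))) (a2 := (1 / 9)) (a3 := (343737599 / 1350000000)) (a4 := (11156567 / 18000000)) hk' hL hM (by norm_num) (by norm_num)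
    (by norm_num) (by norm_num)
  refine h.trans ?_
  generalize log (1 / ((k : ℝ) * t)) = L at *
  norm_num at hd ⊢
  linarith

theorem D_p2o_ten {k : ℕ} (hk : 26 ≤ k) {t θ : ℝ} (ht : 0 < t) (hv : k * t ≤ 1 / 10)
    (h0 : 1.5569 ≤ θ) (h1 : θ ≤ 1.5847)
    (he : sin (((k : ℝ) + 1 / 2) * ((2 : ℕ) * (π + θ))) / (2 * sin ((2 : ℕ) * (π + θ) / 2)) ≤ 0)
    {M : ℝ} (hM : fm (-(1284 / 10000)) (1 / 9) (25 / 100) (51 / 100) k t ≤ M) :
    UU k t θ ≤ M - 5 / 12 * log (1 / t) - 1 / 12 * log 6 + t / 4 := by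
  have hk' : (26 : ℝ) ≤ k := by exact_mod_cast hk
  have h := UI_p2o hk ht (t_le hk ht (hv.trans (by norm_num))) hv BB_ten h0 h1 he
  have hL := L_ge_ten hk ht hv
  unfold fm at hM
  have hd := dom 2.3025 (a1 := (-(92467 / 720000))) (a2 := (1 / 9)) (a3 := (653174911 / 2700000000)) (a4 := (3051989 / 6000000)) hk' hL hM (by norm_num) (by norm_num)
    (by norm_num) (by norm_num)
  refine h.trans ?_
  generalize log (1 / ((k : ℝ) * t)) = L at *
  norm_num at hd ⊢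
  linarith

theorem D_p2xo_ten {k : ℕ} (hk : 26 ≤ k) {t θ : ℝ} (ht : 0 < t) (hv : k * t ≤ 1 / 10)
    (h0 : 1.52 ≤ θ) (h1 : θ ≤ 1.62)
    (hs : 1 / (1.3891 * k) ≤ |sin ((4 : ℕ) * (π + θ) / 2)|)
    {M : ℝ} (hM : fm (-(73 / 10000)) (1 / 18) (37 / 100) (133 / 200) k t ≤ M)
    (hM2 : fm (-(1284 / 10000)) (1 / 9) (25 / 100) (51 / 100) k t ≤ M) :
    UU k t θ ≤ M - 5 / 12 * log (1 / t) - 1 / 12 * log 6 + t / 4 := by
  have hk' : (26 : ℝ) ≤ k := by exact_mod_cast hk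
  have h := UI_p2x hk ht (t_le hk ht (hv.trans (by norm_num))) hv BB_ten h0 h1 hs
  have hL := L_ge_ten hk ht hv
  unfold fm at hM hM2
  have hM3 : k * ((-(1357 / 20000)) + (1 / 12) * log (1 / (k * t))) + (31 / 100) + (47 / 80) * log (1 / (k * t)) ≤ M := by
    linarith
  have hd := dom 2.3025 (a1 := (-(49455131 / 900000000))) (a2 := (13891 / 180000)) (a3 := (21640739 / 67500000)) (a4 := (698123 / 1200000)) hk' hL hM3 (by norm_num) (by norm_num)
    (by norm_num) (by norm_num)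
  refine h.trans ?_
  generalize log (1 / ((k : ℝ) * t)) = L at *
  norm_num at hd ⊢
  linarith

theorem D_p2xe_ten {k : ℕ} (hk : 26 ≤ k) {t θ : ℝ} (ht : 0 < t) (hv : k * t ≤ 1 / 10)
    (h0 : 1.52 ≤ θ) (h1 : θ ≤ 1.62)
    (hs : 1 / (1.3891 * k) ≤ |sin ((4 : ℕ) * (π + θ) / 2)|)
    {M : ℝ} (hM : fm (-(73 / 10000)) (1 / 18) (37 / 100) (133 / 200) k t ≤ M)
    (hM2 : fm (-(1284 / 10000)) (1 / 9) (26 / 100) (62 / 100) k t ≤ M) :
    UU k t θ ≤ M - 5 / 12 * log (1 / t) - 1 / 12 * log 6 + t / 4 := by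
  have hk' : (26 : ℝ) ≤ k := by exact_mod_cast hk
  have h := UI_p2x hk ht (t_le hk ht (hv.trans (by norm_num))) hv BB_ten h0 h1 hs
  have hL := L_ge_ten hk ht hv
  unfold fm at hM hM2
  have hM3 : k * ((-(1357 / 20000)) + (1 / 12) * log (1 / (k * t))) + (63 / 200) + (257 / 400) * log (1 / (k * t)) ≤ M := by
    linarith
  have hd := dom 2.3025 (a1 := (-(49455131 / 900000000))) (a2 := (13891 / 180000)) (a3 := (21640739 / 67500000)) (a4 := (698123 / 1200000)) hk' hL hM3 (by norm_num) (by norm_num)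
    (by norm_num) (by norm_num)
  refine h.trans ?_
  generalize log (1 / ((k : ℝ) * t)) = L at *
  norm_num at hd ⊢
  linarith

end Pool.Agent.SignedQ.Far
end
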