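import Pool.Agent.Lib.MP_cf17a0_co.Mg.G022
import Pool.Agent.Lib.MP_cf17a0_co.Mg.G016
import Pool.Agent.Lib.MP_cf17a0_co.Mg.G014
import Pool.Agent.Lib.MP_cf17a0_co.S1.C.E8b

section

/-! # FAR arcs: the U lemma, resonances (helper3) -/

namespace Pool.Agent.SignedQ.Far

open Real Finset

theorem sin_three_le : sin 3 ≤ 0.1416 := by
  have h1 := pi_gt_d6
  have h2 := pi_lt_d6
  norm_num at h1 h2
  rw [← sin_pi_sub]
  refine (sin_le (x := π - 3) (by linarith)).trans ?_
  norm_num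
  linarith

/-- The third harmonic near `θ = π/3`. -/
theorem three_lemma {k : ℕ} (hk : 26 ≤ k) {θ : ℝ} (h0 : 1 ≤ θ) (h1 : θ ≤ 1.2)
    (h3 : 1 / k ≤ |θ - π / 3|) :
    (1 / (0.668 * k) ≤ |sin ((3 : ℕ) * (π + θ) / 2)| ∧
      sin (((k : ℝ) + 1 / 2) * ((3 : ℕ) * (π + θ))) / (2 * sin ((3 : ℕ) * (π + θ) / 2)) ≤
        0.0475 * k) ∨
    1 / (0.33 * k) ≤ |sin ((3 : ℕ) * (π + θ) / 2)| := by
  have hk' : (26 : ℝ) ≤ k := by exact_mod_cast hk
  have hk0 : (0 : ℝ) < k := by linarith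
  have hp1 := pi_gt_d6
  have hp2 := pi_lt_d6
  norm_num at hp1 hp2 h1
  obtain ⟨y, hy⟩ : ∃ y : ℝ, y = 3 / 2 * |θ - π / 3| := ⟨_, rfl⟩
  have hy0 : 3 / 2 * (1 / k) ≤ y := by rw [hy]; linarith
  have hi0 : 0 < 1 / (k : ℝ) := by positivity
  have hypos : 0 < y := by linarith
  have hy1 : y ≤ 0.24 := by
    have : |θ - π / 3| ≤ 0.16 := by
      rw [abs_le]
      norm_num
      constructor <;> linarith
    rw [hy]
    norm_num at this ⊢
    linarith
  have hsy : 0 < sin y := sin_pos_of_pos_of_lt_pi hypos (by norm_num at hy1; linarith)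
  -- the two signs
  have hs : |sin ((3 : ℕ) * (π + θ) / 2)| = sin y ∧
      sin (((k : ℝ) + 1 / 2) * ((3 : ℕ) * (π + θ))) / (2 * sin ((3 : ℕ) * (π + θ) / 2)) =
        sin ((2 * k + 1) * y) / (2 * sin y) := by
    rcases le_total 0 (θ - π / 3) with h | h
    · rw [abs_of_nonneg h] at hy
      have e1 : ((3 : ℕ) : ℝ) * (π + θ) / 2 = y + 2 * π := by rw [hy]; push_cast; ring
      have e2 : ((k : ℝ) + 1 / 2) * (((3 : ℕ) : ℝ) * (π + θ)) =
          (2 * k + 1) * y + (((2 * k + 1 : ℕ)) : ℝ) * (2 * π) := by rw [hy]; push_cast; ring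
      rw [e2, e1, sin_add_nat_mul_two_pi, sin_add_two_pi, abs_of_pos hsy]
      exact ⟨rfl, rfl⟩
    · rw [abs_of_nonpos h] at hy
      have e1 : ((3 : ℕ) : ℝ) * (π + θ) / 2 = -y + 2 * π := by rw [hy]; push_cast; ring
      have e2 : ((k : ℝ) + 1 / 2) * (((3 : ℕ) : ℝ) * (π + θ)) =
          -((2 * k + 1) * y) + (((2 * k + 1 : ℕ)) : ℝ) * (2 * π) := by rw [hy]; push_cast; ring
      rw [e2, e1, sin_add_nat_mul_two_pi, sin_add_two_pi, sin_neg, sin_neg, abs_neg,
        abs_of_pos hsy]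
      refine ⟨rfl, ?_⟩
      rw [mul_neg, neg_div_neg_eq]
  rw [hs.1, hs.2]
  rcases le_total ((2 * k + 1) * y) (2 * π) with h | h
  · left
    -- sin y ≥ ...
    have a1 : 3 / 2 * (1 - (3 / 2 / 26) ^ 2 / 6) * (1 / (k : ℝ)) ≤ |sin y| := by
      refine abs_sin_ge_k 0 hk' (by norm_num) (by norm_num) (by push_cast; linarith) ?_
      have hi : 1 / (k : ℝ) ≤ 1 / 26 := one_div_le_one_div_of_le (by norm_num) hk'
      norm_num at hy1
      push_cast
      linarith
    rw [abs_of_pos hsy] at a1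
    have a2 : 1 / (0.668 * (k : ℝ)) ≤ sin y := (inv_ck hk0 (by norm_num)).trans a1
    refine ⟨a2, ?_⟩
    rcases le_total ((2 * k + 1) * y) π with h' | h'
    · have b1 : 3 ≤ (2 * k + 1) * y := by
        have : 3 / 2 * (1 / k) * (2 * k + 1) ≤ y * (2 * (k : ℝ) + 1) :=
          mul_le_mul_of_nonneg_right hy0 (by linarith)
        have e : 3 / 2 * (1 / k) * (2 * k + 1) = 3 + 3 / 2 * (1 / (k : ℝ)) := by
          field_simp
        linarith
      have b2 : sin ((2 * k + 1) * y) ≤ sin 3 := by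
        rw [← sin_pi_sub, ← sin_pi_sub 3]
        exact sin_le_sin_of_le_of_le_pi_div_two (by linarith) (by linarith) (by linarith)
      have b3 : sin ((2 * k + 1) * y) ≤ 0.1416 := b2.trans sin_three_le
      rw [div_le_iff₀ (by linarith)]
      have b4 : 0.0475 * (k : ℝ) * (2 * sin y) ≥ 0.0475 * k * (2 * (1 / (0.668 * (k : ℝ)))) :=
        mul_le_mul_of_nonneg_left (by linarith) (by positivity)
      have b5 : 0.0475 * k * (2 * (1 / (0.668 * (k : ℝ)))) = 0.095 / 0.668 := by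
        field_simp
        norm_num
      rw [b5] at b4
      refine b3.trans (le_trans ?_ b4)
      norm_num
    · have b1 : sin ((2 * k + 1) * y) ≤ 0 := by
        have e : sin ((2 * k + 1) * y) = -sin ((2 * k + 1) * y - π) := by rw [sin_sub_pi]; ring
        rw [e, neg_nonpos]
        exact sin_nonneg_of_nonneg_of_le_pi (by linarith) (by linarith)
      exact (div_nonpos_of_nonpos_of_nonneg b1 (by linarith)).trans (by positivity)
  · right
    have c1 : 3.08 * (1 / (k : ℝ)) ≤ y := by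
      have h5 : 3.08 * (2 * (k : ℝ) + 1) ≤ 2 * π * k := by
        have : (3.08 : ℝ) ≤ (2 * π - 6.16) * k := by
          have : (2 * π - 6.16) * 26 ≤ (2 * π - 6.16) * k :=
            mul_le_mul_of_nonneg_left hk' (by norm_num; linarith)
          refine le_trans ?_ this
          norm_num
          linarith
        norm_num at this ⊢
        linarith
      have h6 : 3.08 * (2 * (k : ℝ) + 1) ≤ (2 * k + 1) * y * k :=
        h5.trans (mul_le_mul_of_nonneg_right h hk0.le)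
      have h7 : 3.08 ≤ y * k := by
        have h8 : (2 * (k : ℝ) + 1) * 3.08 ≤ (2 * k + 1) * (y * k) := by linarith
        exact le_of_mul_le_mul_left h8 (by linarith)
      rw [mul_one_div, div_le_iff₀ hk0]
      exact h7
    have a1 : 3.08 * (1 - (3.08 / 26) ^ 2 / 6) * (1 / (k : ℝ)) ≤ |sin y| := by
      refine abs_sin_ge_k 0 hk' (by norm_num) (by norm_num) (by push_cast; linarith) ?_
      have hi : 1 / (k : ℝ) ≤ 1 / 26 := one_div_le_one_div_of_le (by norm_num) hk'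
      norm_num at hy1 ⊢
      norm_num at hi
      linarith
    rw [abs_of_pos hsy] at a1
    exact (inv_ck hk0 (by norm_num)).trans a1

/-- The second harmonic near `θ = π/2`, odd `k`. -/
theorem two_lemma {k : ℕ} (hk : 26 ≤ k) (ho : Odd k) {θ : ℝ}
    (h3 : |θ - π / 2| ≤ 36 / 100 * (1 / k)) :
    sin (((k : ℝ) + 1 / 2) * ((2 : ℕ) * (π + θ))) / (2 * sin ((2 : ℕ) * (π + θ) / 2)) ≤ 0 := by
  have hk' : (26 : ℝ) ≤ k := by exact_mod_cast hk
  have hk0 : (0 : ℝ) < k := by linarith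
  have hp1 := pi_gt_d6
  have hp2 := pi_lt_d6
  norm_num at hp1 hp2
  have hi : 1 / (k : ℝ) ≤ 1 / 26 := one_div_le_one_div_of_le (by norm_num) hk'
  have hi0 : 0 < 1 / (k : ℝ) := by positivity
  obtain ⟨η, hη⟩ : ∃ η : ℝ, η = θ - π / 2 := ⟨_, rfl⟩
  rw [← hη] at h3
  have hθ : θ = η + π / 2 := by rw [hη]; ring
  obtain ⟨m, hm⟩ := ho
  have hkm : (k : ℝ) = 2 * m + 1 := by rw [hm]; push_cast; ring
  have e1 : ((2 : ℕ) : ℝ) * (π + θ) / 2 = η + π / 2 + π := by rw [hθ]; push_cast; ring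
  have e2 : ((k : ℝ) + 1 / 2) * (((2 : ℕ) : ℝ) * (π + θ)) =
      (2 * k + 1) * η + π / 2 + ((3 * m + 2 : ℕ) : ℝ) * (2 * π) := by
    rw [hθ, hkm]; push_cast; ring
  rw [e2, e1, sin_add_nat_mul_two_pi, sin_add_pi, sin_add_pi_div_two, sin_add_pi_div_two]
  have ha : |η| ≤ 0.014 := by
    refine h3.trans ?_
    norm_num at hi ⊢
    linarith
  have hb : |(2 * k + 1) * η| ≤ 0.74 := by
    rw [abs_mul, abs_of_pos (by linarith)]
    have : (2 * k + 1) * |η| ≤ (2 * k + 1) * (36 / 100 * (1 / (k : ℝ))) :=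
      mul_le_mul_of_nonneg_left h3 (by linarith)
    have e : (2 * k + 1) * (36 / 100 * (1 / (k : ℝ))) = 72 / 100 + 36 / 100 * (1 / (k : ℝ)) := by
      field_simp
      ring
    rw [e] at this
    refine this.trans ?_
    norm_num at hi ⊢
    linarith
  rw [abs_le] at ha hb
  norm_num at ha hb
  have c1 : 0 < cos η := cos_pos_of_mem_Ioo ⟨by linarith, by linarith⟩
  have c2 : 0 < cos ((2 * k + 1) * η) := cos_pos_of_mem_Ioo ⟨by linarith, by linarith⟩
  exact div_nonpos_of_nonneg_of_nonpos c2.le (by linarith)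

/-- The fourth harmonic near `θ = π/2`. -/
theorem four_lemma {k : ℕ} (hk : 26 ≤ k) {θ : ℝ} (h0 : 1.52 ≤ θ) (h1 : θ ≤ 1.62)
    (h3 : 36 / 100 * (1 / (k : ℝ)) ≤ |θ - π / 2|) :
    1 / (1.3891 * k) ≤ |sin ((4 : ℕ) * (π + θ) / 2)| := by
  have hk' : (26 : ℝ) ≤ k := by exact_mod_cast hk
  have hk0 : (0 : ℝ) < k := by linarith
  have hp1 := pi_gt_d6
  have hp2 := pi_lt_d6
  norm_num at hp1 hp2 h0 h1
  have hi : 1 / (k : ℝ) ≤ 1 / 26 := one_div_le_one_div_of_le (by norm_num) hk'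
  rcases le_total 0 (θ - π / 2) with h | h
  · rw [abs_of_nonneg h] at h3
    refine (inv_ck (v := 72 / 100 * (1 - (72 / 100 / 26) ^ 2 / 6)) hk0 (by norm_num)).trans ?_
    refine abs_sin_ge_k 3 hk' (by norm_num) (by norm_num) ?_ ?_
    · push_cast; linarith
    · push_cast; linarith
  · rw [abs_of_nonpos h] at h3
    refine (inv_ck (v := 72 / 100 * (1 - (72 / 100 / 26) ^ 2 / 6)) hk0 (by norm_num)).trans ?_
    refine abs_sin_ge_k 2 hk' (by norm_num) (by norm_num) ?_ ?_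
    · push_cast; linarith
    · push_cast; linarith

end Pool.Agent.SignedQ.Far
end

section

/-! # FAR arcs: the U lemma (task GU, helper3) -/

namespace Pool.Agent.SignedQ.Far

open Real Finset

theorem U_tenth {k : ℕ} (hk : 26 ≤ k) {t θ : ℝ} (ht : 0 < t) (hv : k * t ≤ 1 / 10)
    (h6 : 6 / k ≤ θ) (h5 : θ ≤ π - 5 / k) (h3 : 1 / k ≤ |θ - π / 3|) {M : ℝ}
    (hP5 : fm (-(73 / 10000)) (1 / 18) (37 / 100) (133 / 200) k t ≤ M)
    (hP2 : fm (-(1284 / 10000)) (1 / 9) (if Even k then 26 / 100 else 25 / 100)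
      (if Even k then 62 / 100 else 51 / 100) k t ≤ M)
    (hR : fm (-(3 / 5)) (13 / 100) 3 (13 / 10) k t ≤ M) :
    UU k t θ ≤ M - 5 / 12 * log (1 / t) - 1 / 12 * log 6 + t / 4 := by
  have hp1 := pi_gt_d6
  have hp2 := pi_lt_d6
  norm_num at hp1 hp2
  have hk' : (26 : ℝ) ≤ k := by exact_mod_cast hk
  have hk0 : (0 : ℝ) < k := by linarith
  have hi : 1 / (k : ℝ) ≤ 1 / 26 := one_div_le_one_div_of_le (by norm_num) hk'
  have e6 : 6 / (k : ℝ) = 6 * (1 / k) := by ring
  have e5 : 5 / (k : ℝ) = 5 * (1 / k) := by ring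
  rw [e6] at h6
  rw [e5] at h5
  rcases le_total θ 0.25 with c | c
  · exact D_L1_ten hk ht hv h6 c hP5
  rcases le_total θ 0.45 with c' | c'
  · exact D_L2_ten hk ht hv c c' hP5
  clear c; rcases le_total θ 0.59 with c | c
  · exact D_a_ten hk ht hv c' c hP5
  clear c'; rcases le_total θ 0.67 with c' | c'
  · exact D_p5_ten hk ht hv c c' hP5
  clear c; rcases le_total θ 0.8 with c | c
  · exact D_b_ten hk ht hv c' c hP5
  clear c'; rcases le_total θ 0.92 with c' | c'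
  · exact D_p3a_ten hk ht hv c c' hP5
  clear c; rcases le_total θ 1 with c | c
  · exact D_p3a2_ten hk ht hv c' c hP5
  clear c'; rcases le_total θ 1.2 with c' | c'
  · rcases three_lemma hk c c' h3 with h | h
    · rcases le_total θ (π / 3) with d | d
      · exact D_p3bi_ten hk ht hv c (by norm_num; linarith) h.1 h.2 hP5
      · exact D_p3ci_ten hk ht hv (by norm_num; linarith) c' h.1 h.2 hP5
    · rcases le_total θ (π / 3) with d | d
      · exact D_p3bii_ten hk ht hv c (by norm_num; linarith) h hP5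
      · exact D_p3cii_ten hk ht hv (by norm_num; linarith) c' h hP5
  clear c; rcases le_total θ 1.3 with c | c
  · exact D_p3d_ten hk ht hv c' c hP5
  clear c'; rcases le_total θ 1.52 with c' | c'
  · exact D_c_ten hk ht hv c c' hP5
  clear c; rcases le_total θ 1.62 with c | c
  · rcases le_total |θ - π / 2| (36 / 100 * (1 / k)) with d | d
    · have d' : |θ - π / 2| ≤ 36 / 100 * (1 / 26) := d.trans (by linarith)
      rw [abs_le] at d'
      rcases Nat.even_or_odd k with he | ho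
      · rw [if_pos he, if_pos he] at hP2
        exact D_p2e_ten hk ht hv (by norm_num at d' ⊢; linarith) (by norm_num at d' ⊢; linarith) hP2
      · have hn : ¬ Even k := Nat.not_even_iff_odd.2 ho
        rw [if_neg hn, if_neg hn] at hP2
        exact D_p2o_ten hk ht hv (by norm_num at d' ⊢; linarith) (by norm_num at d' ⊢; linarith)
          (two_lemma hk ho d) hP2
    · have h4 := four_lemma hk c' c d
      rcases Nat.even_or_odd k with he | ho
      · rw [if_pos he, if_pos he] at hP2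
        exact D_p2xe_ten hk ht hv c' c h4 hP5 hP2
      · have hn : ¬ Even k := Nat.not_even_iff_odd.2 ho
        rw [if_neg hn, if_neg hn] at hP2
        exact D_p2xo_ten hk ht hv c' c h4 hP5 hP2
  clear c'; rcases le_total θ 1.75 with c' | c'
  · exact D_d_ten hk ht hv c c' hP5
  clear c; rcases le_total θ 2.1 with c | c
  · refine D_t5_ten hk ht hv c' c (le_trans ?_ hP2)
    have hL := L_ge_ten hk ht hv
    rcases Nat.even_or_odd k with he | ho
    · rw [if_pos he, if_pos he]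
      unfold fm
      generalize log (1 / ((k : ℝ) * t)) = L at *
      norm_num at hL
      linarith
    · have hn : ¬ Even k := Nat.not_even_iff_odd.2 ho
      rw [if_neg hn, if_neg hn]
  clear c'; rcases le_total θ 2.6 with c' | c'
  · exact D_m_ten hk ht hv c c' hP5
  clear c; rcases le_total θ 2.942 with c | c
  · exact D_R2_ten hk ht hv c' c hR
  exact D_R1_ten hk ht hv (le_trans (by norm_num) c) h5 hR

theorem U_third {k : ℕ} (hk : 26 ≤ k) {t θ : ℝ} (ht : 0 < t) (hv : k * t ≤ 1 / 3)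
    (h6 : 6 / k ≤ θ) (h5 : θ ≤ π - 5 / k) (h3 : 1 / k ≤ |θ - π / 3|) {M : ℝ}
    (hL : fm (471 / 10000) (236 / 10000) (-(12 / 100)) (67 / 200) k t ≤ M)
    (hP5 : fm (-(1 / 10000)) (1 / 18) (47 / 100) (133 / 200) k t ≤ M)
    (hP2 : fm (-(1074 / 10000)) (1 / 9) (42 / 100) (16 / 25) k t ≤ M)
    (hR : fm (-(3 / 5)) (13 / 100) 3 (13 / 10) k t ≤ M) :
    UU k t θ ≤ M - 5 / 12 * log (1 / t) - 1 / 12 * log 6 + t / 4 := by
  have hp1 := pi_gt_d6
  have hp2 := pi_lt_d6
  norm_num at hp1 hp2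
  have e6 : 6 / (k : ℝ) = 6 * (1 / k) := by ring
  have e5 : 5 / (k : ℝ) = 5 * (1 / k) := by ring
  rw [e6] at h6
  rw [e5] at h5
  rcases le_total θ 0.25 with c | c
  · exact D_L1_third hk ht hv h6 c hL
  rcases le_total θ 0.45 with c' | c'
  · exact D_L2_third hk ht hv c c' hP5
  clear c; rcases le_total θ 0.59 with c | c
  · exact D_a_third hk ht hv c' c hP5
  clear c'; rcases le_total θ 0.67 with c' | c'
  · exact D_p5_third hk ht hv c c' hP5
  clear c; rcases le_total θ 0.8 with c | c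
  · exact D_b_third hk ht hv c' c hP5
  clear c'; rcases le_total θ 0.92 with c' | c'
  · exact D_p3a_third hk ht hv c c' hP5
  clear c; rcases le_total θ 1 with c | c
  · exact D_p3a2_third hk ht hv c' c hP5
  clear c'; rcases le_total θ 1.2 with c' | c'
  · rcases three_lemma hk c c' h3 with h | h
    · rcases le_total θ (π / 3) with d | d
      · exact D_p3bi_third hk ht hv c (by norm_num; linarith) h.1 h.2 hP5
      · exact D_p3ci_third hk ht hv (by norm_num; linarith) c' h.1 h.2 hP5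
    · rcases le_total θ (π / 3) with d | d
      · exact D_p3bii_third hk ht hv c (by norm_num; linarith) h hP5
      · exact D_p3cii_third hk ht hv (by norm_num; linarith) c' h hP5
  clear c; rcases le_total θ 1.3 with c | c
  · exact D_p3d_third hk ht hv c' c hP5
  clear c'; rcases le_total θ 1.52 with c' | c'
  · exact D_c_third hk ht hv c c' hP5
  clear c; rcases le_total θ 1.62 with c | c
  · exact D_p2_third hk ht hv c' c hP2
  clear c'; rcases le_total θ 1.75 with c' | c'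
  · exact D_d_third hk ht hv c c' hP5
  clear c; rcases le_total θ 2.1 with c | c
  · exact D_t5_third hk ht hv c' c hP2
  clear c'; rcases le_total θ 2.6 with c' | c'
  · exact D_m_third hk ht hv c c' hP5
  clear c; rcases le_total θ 2.942 with c | c
  · exact D_R2_third hk ht hv c' c hP2
  exact D_R1_third hk ht hv (le_trans (by norm_num) c) h5 hR

theorem U_one {k : ℕ} (hk : 26 ≤ k) {t θ : ℝ} (ht : 0 < t) (hv : k * t ≤ 1)
    (h6 : 6 / k ≤ θ) (h5 : θ ≤ π - 5 / k) (h3 : 1 / k ≤ |θ - π / 3|) {M : ℝ}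
    (hL : fm (532 / 10000) (236 / 10000) (-(2 / 100)) (67 / 200) k t ≤ M)
    (hP5 : fm (35 / 1000) (1 / 18) (133 / 200) (133 / 200) k t ≤ M)
    (hP3 : fm (47 / 1000) (8 / 1000) (32 / 100) (1 / 2) k t ≤ M)
    (hP2 : fm (-(446 / 10000)) (1 / 9) (605 / 1000) (16 / 25) k t ≤ M)
    (hR : fm (-(3 / 5)) (13 / 100) 3 (13 / 10) k t ≤ M) :
    UU k t θ ≤ M - 5 / 12 * log (1 / t) - 1 / 12 * log 6 + t / 4 := by
  have hp1 := pi_gt_d6
  have hp2 := pi_lt_d6
  norm_num at hp1 hp2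
  have e6 : 6 / (k : ℝ) = 6 * (1 / k) := by ring
  have e5 : 5 / (k : ℝ) = 5 * (1 / k) := by ring
  rw [e6] at h6
  rw [e5] at h5
  rcases le_total θ 0.25 with c | c
  · exact D_L1_one hk ht hv h6 c hL
  rcases le_total θ 0.45 with c' | c'
  · exact D_L2_one hk ht hv c c' hP5
  clear c; rcases le_total θ 0.59 with c | c
  · exact D_a_one hk ht hv c' c hP5
  clear c'; rcases le_total θ 0.67 with c' | c'
  · exact D_p5_one hk ht hv c c' hP5
  clear c; rcases le_total θ 0.8 with c | c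
  · exact D_b_one hk ht hv c' c hP5
  clear c'; rcases le_total θ 0.92 with c' | c'
  · exact D_p3a_one hk ht hv c c' hP5
  clear c; rcases le_total θ 1 with c | c
  · exact D_p3a2_one hk ht hv c' c hP5
  clear c'; rcases le_total θ 1.2 with c' | c'
  · rcases three_lemma hk c c' h3 with h | h
    · rcases le_total θ (π / 3) with d | d
      · exact D_p3bi_one hk ht hv c (by norm_num; linarith) h.1 h.2 hP3
      · exact D_p3ci_one hk ht hv (by norm_num; linarith) c' h.1 h.2 hP3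
    · rcases le_total θ (π / 3) with d | d
      · exact D_p3bii_one hk ht hv c (by norm_num; linarith) h hP5
      · exact D_p3cii_one hk ht hv (by norm_num; linarith) c' h hP5
  clear c; rcases le_total θ 1.3 with c | c
  · exact D_p3d_one hk ht hv c' c hP5
  clear c'; rcases le_total θ 1.52 with c' | c'
  · exact D_c_one hk ht hv c c' hP5
  clear c; rcases le_total θ 1.62 with c | c
  · exact D_p2_one hk ht hv c' c hP2
  clear c'; rcases le_total θ 1.75 with c' | c'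
  · exact D_d_one hk ht hv c c' hP5
  clear c; rcases le_total θ 2.1 with c | c
  · exact D_t5_one hk ht hv c' c hP2
  clear c'; rcases le_total θ 2.6 with c' | c'
  · exact D_m_one hk ht hv c c' hP5
  clear c; rcases le_total θ 2.942 with c | c
  · exact D_R2_one hk ht hv c' c hP2
  exact D_R1_one hk ht hv (le_trans (by norm_num) c) h5 hR

end Pool.Agent.SignedQ.Far
end

section

/-! # FAR-1: chords in `log t`, the rational check, the generic cell -/

namespace Pool.Agent.SignedQ.Far1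

open Real Finset Pool.Agent.SignedQ.An Pool.Agent.SignedQ.Far
open MPcf17a0.S1F (NC y A)

/-- A function which is convex in `log t`, plus `β log t`, on `[t1, t2]`. -/
theorem chord {S : ℝ → ℝ} (hS : ConvexOn ℝ Set.univ (fun τ => S (exp τ))) {t1 t t2 β M : ℝ}
    (h0 : 0 < t1) (h1 : t1 ≤ t) (h2 : t ≤ t2) (hM1 : S t1 + β * log t1 ≤ M)
    (hM2 : S t2 + β * log t2 ≤ M) : S t + β * log t ≤ M := by
  have ht : 0 < t := h0.trans_le h1
  have ht2 : 0 < t2 := ht.trans_le h2
  have hl : ConvexOn ℝ Set.univ (fun τ : ℝ => β * τ) :=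
    ⟨convex_univ, fun x _ y _ p q _ _ _ => by
      simp only [smul_eq_mul]; exact le_of_eq (by ring)⟩
  have hc := hS.add hl
  have hmem : log t ∈ Set.Icc (log t1) (log t2) := ⟨log_le_log h0 h1, log_le_log ht h2⟩
  have h3 := hc.le_max_of_mem_Icc (Set.mem_univ _) (Set.mem_univ _) hmem
  simp only [Pi.add_apply, exp_log h0, exp_log ht, exp_log ht2] at h3
  exact h3.trans (max_le hM1 hM2)

theorem convexOn_exp_mul {f : ℝ → ℝ} {a : ℝ} (ha : 0 < a)
    (hf : ConvexOn ℝ Set.univ (fun τ => f (exp τ))) :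
    ConvexOn ℝ Set.univ (fun τ => f (a * exp τ)) := by
  have e : (fun τ => f (a * exp τ)) = fun τ => (fun τ => f (exp τ)) (τ + log a) := by
    funext τ
    simp only
    rw [exp_add, exp_log ha, mul_comm]
  rw [e]
  refine ⟨convex_univ, fun x _ y _ p q hp hq hpq => ?_⟩
  have h := hf.2 (Set.mem_univ (x + log a)) (Set.mem_univ (y + log a)) hp hq hpq
  have e2 : p • x + q • y + log a = p • (x + log a) + q • (y + log a) := by
    simp only [smul_eq_mul]
    linear_combination (-(log a)) * hpq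
  simp only [e2]
  exact h

theorem convexOn_sum' {ι : Type} (s : Finset ι) (f : ι → ℝ → ℝ)
    (h : ∀ i ∈ s, ConvexOn ℝ Set.univ (f i)) : ConvexOn ℝ Set.univ (fun τ => ∑ i ∈ s, f i τ) := by
  classical
  induction s using Finset.induction_on with
  | empty => simpa using convexOn_const (0:ℝ) convex_univ
  | insert i s hi ih =>
    have h1 := h i (mem_insert_self i s)
    have h2 := ih (fun j hj => h j (mem_insert_of_mem hj))
    have e : (fun τ => ∑ j ∈ insert i s, f j τ) = fun τ => f i τ + ∑ j ∈ s, f j τ := by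
      funext τ; rw [sum_insert hi]
    rw [e]
    exact h1.add h2

theorem ST_convex (n k : ℕ) {a : ℝ} (ha : 0 < a) :
    ConvexOn ℝ Set.univ (fun τ => Far.ST (a * exp τ) n k) := by
  unfold Far.ST
  refine convexOn_sum' _ _ fun m hm => ?_
  rw [mem_Ioc] at hm
  have hm0 : (0:ℝ) < m := by have : 0 < m := by omega
                             exact_mod_cast this
  by_cases h : Even m
  · simp only [if_pos h]
    have := A_exp_convex (b := m * a / 2) (by positivity)
    refine this.congr ?_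
    intro τ _
    simp only
    congr 1
    ring
  · simp only [if_neg h]
    exact convexOn_const (0:ℝ) convex_univ

theorem SA_convex (n k : ℕ) {a : ℝ} (ha : 0 < a) (c : ℝ) :
    ConvexOn ℝ Set.univ (fun τ => SA (a * exp τ) n k + c) := by
  unfold SA
  have h : ConvexOn ℝ Set.univ (fun τ => ∑ m ∈ Ioc n (n + k), A (m * (a * exp τ))) := by
    refine convexOn_sum' _ _ fun m hm => ?_
    rw [mem_Ioc] at hm
    have hm0 : (0:ℝ) < m := by have : 0 < m := by omega
                               exact_mod_cast this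
    have := A_exp_convex (b := m * a) (by positivity)
    refine this.congr ?_
    intro τ _
    simp only
    congr 1
    ring
  exact (h.smul (c := (1/2 : ℝ)) (by norm_num)).add (convexOn_const c convex_univ)

theorem inv_convex {C : ℝ} (hC : 0 ≤ C) (c : ℝ) :
    ConvexOn ℝ Set.univ (fun τ => C / exp τ + c) := by
  have h : ConvexOn ℝ Set.univ (fun τ : ℝ => exp (-τ)) := by
    refine ⟨convex_univ, fun x _ y _ p q hp hq hpq => ?_⟩
    have h := convexOn_exp.2 (Set.mem_univ (-x)) (Set.mem_univ (-y)) hp hq hpq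
    have e : -(p • x + q • y) = p • (-x) + q • (-y) := by simp only [smul_eq_mul]; ring
    simp only [e]
    exact h
  have h2 := (h.smul hC).add (convexOn_const c convex_univ)
  refine h2.congr ?_
  intro τ _
  simp only [Pi.add_apply, smul_eq_mul]
  rw [exp_neg, div_eq_mul_inv]

/-! ### The rational check -/

/-- Check of one form. `e0` is the constant of `D0x_even`/`D0x_odd`. -/
def okf (k0 lk L ν n d1 d2 e0 e1 : ℚ) (w : ℚ × ℚ × ℚ × ℚ) : Bool :=
  decide (0 < k0) && decide (0 ≤ w.2.1) && decide (7 / 12 + e1 + w.2.2.2 ≤ k0 * (d2 - w.2.1)) &&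
  decide (0 ≤ 7 / 12 + e1 + w.2.2.2) &&
  decide (-d1 + w.1 - (d2 - w.2.1) * L + ν + 3 / 2 / k0 ≤ 0) &&
  decide (k0 * (-d1 + w.1 - (d2 - w.2.1) * L + ν) + 3 / 2 * lk + (7 / 12 + e1 + w.2.2.2) * L +
    e0 + w.2.2.1 + n - 1449 / 10000 ≤ -(41352 / 10000))

/-- `x` is a shift: the numerator is better by `k/3 x` while `L` is worse by `x`. -/
theorem okf_sound {k0 lk L ν n d1 d2 e0 e1 : ℚ} {w : ℚ × ℚ × ℚ × ℚ}
    (h : okf k0 lk L ν n d1 d2 e0 e1 w = true) (hd2 : d2 ≤ 1 / 3) {k L' num x : ℝ} (hk : (k0:ℝ) ≤ k)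
    (hlk : log k0 ≤ lk) (hx : 0 ≤ x) (hL : (L:ℝ) - x ≤ L') (hnum : num ≤ k * ν + n - k / 3 * x) :
    num + 3 / 2 * log k + ((7:ℝ) / 12 + e1 + w.2.2.2) * L' +
      k * (-(d1:ℝ) + w.1 - ((d2:ℝ) - w.2.1) * L') + (e0 + w.2.2.1 - 1449 / 10000) ≤
      -(41352 / 10000) := by
  unfold okf at h
  simp only [Bool.and_eq_true, decide_eq_true_eq] at h
  obtain ⟨⟨⟨⟨⟨h0, hw⟩, h1⟩, h1'⟩, h2⟩, h3⟩ := h
  have g0 : (0:ℝ) < k0 := by exact_mod_cast h0
  have gw : (0:ℝ) ≤ w.2.1 := by exact_mod_cast hw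
  have g1 : (7:ℝ) / 12 + e1 + w.2.2.2 ≤ k0 * (d2 - w.2.1) := by
    have := (Rat.cast_le (K := ℝ)).2 h1
    push_cast at this; exact this
  have g1' : (0:ℝ) ≤ 7 / 12 + e1 + w.2.2.2 := by
    have := (Rat.cast_le (K := ℝ)).2 h1'
    push_cast at this; exact this
  have g2 : -(d1:ℝ) + w.1 - (d2 - w.2.1) * L + ν + 3 / 2 / k0 ≤ 0 := by
    have := (Rat.cast_le (K := ℝ)).2 h2
    push_cast at this; exact this
  have g3 : (k0:ℝ) * (-d1 + w.1 - (d2 - w.2.1) * L + ν) + 3 / 2 * lk +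
      (7 / 12 + e1 + w.2.2.2) * L + e0 + w.2.2.1 + n - 1449 / 10000 ≤ -(41352 / 10000) := by
    have := (Rat.cast_le (K := ℝ)).2 h3
    push_cast at this; exact this
  have gd2 : (d2:ℝ) ≤ 1 / 3 := by
    have := (Rat.cast_le (K := ℝ)).2 hd2
    push_cast at this; exact this
  obtain ⟨D, hD⟩ : ∃ D : ℝ, D = (d2:ℝ) - w.2.1 := ⟨_, rfl⟩
  obtain ⟨E, hE⟩ : ∃ E : ℝ, E = (7:ℝ) / 12 + e1 + w.2.2.2 := ⟨_, rfl⟩
  rw [← hD, ← hE] at g1 g3 ⊢
  rw [← hE] at g1'
  rw [← hD] at g2
  have hD0 : 0 ≤ D := by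
    by_contra hc
    have : k0 * D < 0 := mul_neg_of_pos_of_neg g0 (not_le.1 hc)
    linarith
  have hD3 : D ≤ 1 / 3 := by rw [hD]; linarith
  have hkpos : 0 < k := g0.trans_le hk
  -- log k
  have hlog : log k ≤ lk + (k - k0) / k0 := by
    have e1 : log k = log k0 + log (k / k0) := by
      rw [← log_mul g0.ne' (by positivity)]; congr 1; field_simp
    have e2 : log (k / k0) ≤ k / k0 - 1 := log_le_sub_one_of_pos (by positivity)
    have e3 : k / k0 - 1 = (k - k0) / k0 := by field_simp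
    rw [e1]; linarith
  -- the L part
  have hkD : E ≤ k * D := g1.trans (mul_le_mul_of_nonneg_right hk hD0)
  have hL1 : (E - k * D) * L' ≤ (E - k * D) * (L - x) :=
    mul_le_mul_of_nonpos_left hL (by linarith)
  have hx1 : (k * D - E) * x ≤ k / 3 * x := by
    refine mul_le_mul_of_nonneg_right ?_ hx
    nlinarith
  have hmain : num + 3 / 2 * log k + E * L' + k * (-(d1:ℝ) + w.1 - D * L') +
      (e0 + w.2.2.1 - 1449 / 10000) ≤ k * ν + n + 3 / 2 * (lk + (k - k0) / k0) + E * L +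
      k * (-(d1:ℝ) + w.1 - D * L) + (e0 + w.2.2.1 - 1449 / 10000) := by
    nlinarith
  refine hmain.trans ?_
  -- linear in k
  have hlin : (k - k0) * (-(d1:ℝ) + w.1 - D * L + ν + 3 / 2 / k0) ≤ 0 :=
    mul_nonpos_of_nonneg_of_nonpos (by linarith) g2
  have e4 : (k - k0) / k0 = (k - k0) * (1 / k0) := by ring
  have e5 : (3:ℝ) / 2 / k0 = 3 / 2 * (1 / k0) := by ring
  rw [e5] at hlin
  rw [e4]
  linarith

/-! ### The versions of the U lemma -/

noncomputable def wr (w : ℚ × ℚ × ℚ × ℚ) (k : ℕ) (t : ℝ) : ℝ := fm w.1 w.2.1 w.2.2.1 w.2.2.2 k t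

/-- The U lemma for `k t ≤ v1`; `F b` are the forms for even (`b = true`) or odd `k`. -/
def UV (v1 : ℝ) (F : Bool → List (ℚ × ℚ × ℚ × ℚ)) : Prop :=
  ∀ (k : ℕ) (t θ M : ℝ), 26 ≤ k → 0 < t → k * t ≤ v1 → 6 / k ≤ θ → θ ≤ π - 5 / k →
    1 / k ≤ |θ - π / 3| → (∀ w ∈ F (decide (Even k)), wr w k t ≤ M) →
    UU k t θ ≤ M - 5 / 12 * log (1 / t) - 1 / 12 * log 6 + t / 4

def FT (b : Bool) : List (ℚ × ℚ × ℚ × ℚ) :=
  [(-73 / 10000, 1 / 18, 37 / 100, 133 / 200),
   (-1284 / 10000, 1 / 9, if b then 26 / 100 else 25 / 100, if b then 62 / 100 else 51 / 100),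
   (-3 / 5, 13 / 100, 3, 13 / 10)]

def FH (_b : Bool) : List (ℚ × ℚ × ℚ × ℚ) :=
  [(471 / 10000, 236 / 10000, -12 / 100, 67 / 200),
   (-1 / 10000, 1 / 18, 47 / 100, 133 / 200),
   (-1074 / 10000, 1 / 9, 42 / 100, 16 / 25),
   (-3 / 5, 13 / 100, 3, 13 / 10)]

def F1 (_b : Bool) : List (ℚ × ℚ × ℚ × ℚ) :=
  [(532 / 10000, 236 / 10000, -2 / 100, 67 / 200),
   (35 / 1000, 1 / 18, 133 / 200, 133 / 200),
   (47 / 1000, 8 / 1000, 32 / 100, 1 / 2),
   (-446 / 10000, 1 / 9, 605 / 1000, 16 / 25),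
   (-3 / 5, 13 / 100, 3, 13 / 10)]

theorem UV_tenth : UV (1 / 10) FT := by
  intro k t θ M hk ht hv h6 h5 h3 hM
  refine U_tenth hk ht hv h6 h5 h3 ?_ ?_ ?_
  · have := hM (-73 / 10000, 1 / 18, 37 / 100, 133 / 200) (by simp [FT])
    refine le_of_eq_of_le ?_ this
    unfold wr; push_cast; congr 1; norm_num
  · by_cases he : Even k
    · have := hM (-1284 / 10000, 1 / 9, 26 / 100, 62 / 100) (by simp [FT, he])
      refine le_of_eq_of_le ?_ this
      rw [if_pos he, if_pos he]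
      unfold wr; push_cast; congr 1; norm_num
    · have := hM (-1284 / 10000, 1 / 9, 25 / 100, 51 / 100) (by simp [FT, he])
      refine le_of_eq_of_le ?_ this
      rw [if_neg he, if_neg he]
      unfold wr; push_cast; congr 1; norm_num
  · have := hM (-3 / 5, 13 / 100, 3, 13 / 10) (by simp [FT])
    refine le_of_eq_of_le ?_ this
    unfold wr; push_cast; congr 1; norm_num

theorem UV_third : UV (1 / 3) FH := by
  intro k t θ M hk ht hv h6 h5 h3 hM
  refine U_third hk ht hv h6 h5 h3 ?_ ?_ ?_ ?_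
  · have := hM (471 / 10000, 236 / 10000, -12 / 100, 67 / 200) (by simp [FH])
    refine le_of_eq_of_le ?_ this
    unfold wr; push_cast; congr 1; norm_num
  · have := hM (-1 / 10000, 1 / 18, 47 / 100, 133 / 200) (by simp [FH])
    refine le_of_eq_of_le ?_ this
    unfold wr; push_cast; congr 1; norm_num
  · have := hM (-1074 / 10000, 1 / 9, 42 / 100, 16 / 25) (by simp [FH])
    refine le_of_eq_of_le ?_ this
    unfold wr; push_cast; congr 1; norm_num
  · have := hM (-3 / 5, 13 / 100, 3, 13 / 10) (by simp [FH])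
    refine le_of_eq_of_le ?_ this
    unfold wr; push_cast; congr 1; norm_num

theorem UV_one : UV 1 F1 := by
  intro k t θ M hk ht hv h6 h5 h3 hM
  refine U_one hk ht hv h6 h5 h3 ?_ ?_ ?_ ?_ ?_
  · have := hM (532 / 10000, 236 / 10000, -2 / 100, 67 / 200) (by simp [F1])
    refine le_of_eq_of_le ?_ this
    unfold wr; push_cast; congr 1; norm_num
  · have := hM (35 / 1000, 1 / 18, 133 / 200, 133 / 200) (by simp [F1])
    refine le_of_eq_of_le ?_ this
    unfold wr; push_cast; congr 1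
  · have := hM (47 / 1000, 8 / 1000, 32 / 100, 1 / 2) (by simp [F1])
    refine le_of_eq_of_le ?_ this
    unfold wr; push_cast; congr 1
  · have := hM (-446 / 10000, 1 / 9, 605 / 1000, 16 / 25) (by simp [F1])
    refine le_of_eq_of_le ?_ this
    unfold wr; push_cast; congr 1; norm_num
  · have := hM (-3 / 5, 13 / 100, 3, 13 / 10) (by simp [F1])
    refine le_of_eq_of_le ?_ this
    unfold wr; push_cast; congr 1; norm_num

end Pool.Agent.SignedQ.Far1
end

section

/-! # Core region, `32 ≤ k < 60`, `k t ≤ 2/3` -/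

namespace Pool.Agent.SignedQ.Core

open Real Finset Pool.Agent.SignedQ.An

/-- Five cases; `regD_mk` (`c = 20`, `Par.lt60`, `r = 1`) and `regI_key3` with (checked
numerically, exact rationals; `R2 = ((2P1+1)/(2P1-1))²`, `κ = 1 + 3/P1 + 11/(4 P1²)`)
* `32 ≤ k ≤ 41`: `k0 = 32`, `P1 = 16`, `α = 187/10`, `τm = (1681/4000)²`;
* `42 ≤ k ≤ 47`: `k0 = 42`, `P1 = 21`, `α = 19`, `τm = (2209/4000)²`;
* `48 ≤ k ≤ 49`: `k0 = 48`, `P1 = 24`, `α = 19`, `τm = (2401/4000)²`;
* `50 ≤ k ≤ 51`: `k0 = 50`, `P1 = 25`, `α = 19`, `τm = (2601/4000)²`;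
* `52 ≤ k ≤ 59`: `k0 = 52`, `P1 = 26`, `α = 19`, `τm = 4/9`.
`xm = 17/25`: `(k+1) t ≤ 52 * 51/4000` for `k ≤ 51`, `(k+1) t ≤ (2/3)(53/52)` for `k ≥ 52`. -/
theorem regime_b1 {n k a : ℕ} {t : ℝ} (hp : Par n k a) (hd : DOM k t) (hk : 32 ≤ k) (hk' : k < 60)
    (hkt : k * t ≤ 2 / 3) :
    RegI n k a t 5 (61 / 10) (527 / 100) (107 / 125) (33 / 32) 16 := by
  have hk26 : 26 ≤ k := hd.1
  have ht : 0 < t := hd.2.1
  have hk32 : (32 : ℝ) ≤ k := by exact_mod_cast hk
  have hkt0 : 0 ≤ k * t := mul_nonneg (Nat.cast_nonneg k) ht.le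
  have hkk : 1 + 1 / (k : ℝ) ≤ 33 / 32 := by
    have : 1 / (k : ℝ) ≤ 1 / 32 := one_div_le_one_div_of_le (by norm_num) hk32
    linarith
  have hcase : k ≤ 41 ∨ (42 ≤ k ∧ k ≤ 47) ∨ (48 ≤ k ∧ k ≤ 49) ∨ (50 ≤ k ∧ k ≤ 51) ∨ 52 ≤ k := by
    omega
  rcases hcase with hc | ⟨hc1, hc2⟩ | ⟨hc1, hc2⟩ | ⟨hc1, hc2⟩ | hc1
  · have hb : k * t ≤ 1681 / 4000 := by
      have := kt_le hd (k1 := 41) (by omega)
      norm_num at this ⊢
      linarith
    have hτ : (k * t) ^ 2 ≤ (1681 / 4000) ^ 2 := pow_le_pow_left₀ hkt0 hb 2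
    have hxm : (k + 1) * t ≤ 17 / 25 := by
      have h1 : (k : ℝ) ≤ 41 := by exact_mod_cast (by omega : k ≤ 41)
      have h2 := hd.2.2.2.1
      nlinarith
    have D : RegD n k a t (187 / 10) ((1681 / 4000) ^ 2) 1 (((2 * ((16 : ℕ) : ℝ) + 1) / (2 * ((16 : ℕ) : ℝ) - 1)) ^ 2)
        (1 + 3 / ((16 : ℕ) : ℝ) + 11 / (4 * ((16 : ℕ) : ℝ) ^ 2)) 16 :=
      regD_mk (k0 := 32) (c := 20) hp hk26 ht hkt hτ (by norm_num) (by omega) (hp.lt60 hk')
        (by norm_num) (by norm_num) (by norm_num) (by omega) (Or.inl rfl) le_rfl le_rfl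
    refine regI_key3 D (by norm_num) (by norm_num) (by norm_num) (by norm_num) (by norm_num)
      (by norm_num) ?_ (by norm_num) hxm (by norm_num) hkk
    rintro A B (⟨rfl, rfl⟩ | ⟨rfl, rfl⟩ | ⟨rfl, rfl⟩) <;>
      refine ⟨by norm_num, by norm_num, by norm_num, by norm_num, by norm_num⟩
  · have hb : k * t ≤ 2209 / 4000 := by
      have := kt_le hd (k1 := 47) (by omega)
      norm_num at this ⊢
      linarith
    have hτ : (k * t) ^ 2 ≤ (2209 / 4000) ^ 2 := pow_le_pow_left₀ hkt0 hb 2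
    have hxm : (k + 1) * t ≤ 17 / 25 := by
      have h1 : (k : ℝ) ≤ 47 := by exact_mod_cast (by omega : k ≤ 47)
      have h2 := hd.2.2.2.1
      nlinarith
    have D : RegD n k a t (19) ((2209 / 4000) ^ 2) 1 (((2 * ((21 : ℕ) : ℝ) + 1) / (2 * ((21 : ℕ) : ℝ) - 1)) ^ 2)
        (1 + 3 / ((21 : ℕ) : ℝ) + 11 / (4 * ((21 : ℕ) : ℝ) ^ 2)) 21 :=
      regD_mk (k0 := 42) (c := 20) hp hk26 ht hkt hτ (by norm_num) (by omega) (hp.lt60 hk')
        (by norm_num) (by norm_num) (by norm_num) (by omega) (Or.inl rfl) le_rfl le_rfl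
    refine regI_key3 D (by norm_num) (by norm_num) (by norm_num) (by norm_num) (by norm_num)
      (by norm_num) ?_ (by norm_num) hxm (by norm_num) hkk
    rintro A B (⟨rfl, rfl⟩ | ⟨rfl, rfl⟩ | ⟨rfl, rfl⟩) <;>
      refine ⟨by norm_num, by norm_num, by norm_num, by norm_num, by norm_num⟩
  · have hb : k * t ≤ 2401 / 4000 := by
      have := kt_le hd (k1 := 49) (by omega)
      norm_num at this ⊢
      linarith
    have hτ : (k * t) ^ 2 ≤ (2401 / 4000) ^ 2 := pow_le_pow_left₀ hkt0 hb 2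
    have hxm : (k + 1) * t ≤ 17 / 25 := by
      have h1 : (k : ℝ) ≤ 49 := by exact_mod_cast (by omega : k ≤ 49)
      have h2 := hd.2.2.2.1
      nlinarith
    have D : RegD n k a t (19) ((2401 / 4000) ^ 2) 1 (((2 * ((24 : ℕ) : ℝ) + 1) / (2 * ((24 : ℕ) : ℝ) - 1)) ^ 2)
        (1 + 3 / ((24 : ℕ) : ℝ) + 11 / (4 * ((24 : ℕ) : ℝ) ^ 2)) 24 :=
      regD_mk (k0 := 48) (c := 20) hp hk26 ht hkt hτ (by norm_num) (by omega) (hp.lt60 hk')
        (by norm_num) (by norm_num) (by norm_num) (by omega) (Or.inl rfl) le_rfl le_rfl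
    refine regI_key3 D (by norm_num) (by norm_num) (by norm_num) (by norm_num) (by norm_num)
      (by norm_num) ?_ (by norm_num) hxm (by norm_num) hkk
    rintro A B (⟨rfl, rfl⟩ | ⟨rfl, rfl⟩ | ⟨rfl, rfl⟩) <;>
      refine ⟨by norm_num, by norm_num, by norm_num, by norm_num, by norm_num⟩
  · have hb : k * t ≤ 2601 / 4000 := by
      have := kt_le hd (k1 := 51) (by omega)
      norm_num at this ⊢
      linarith
    have hτ : (k * t) ^ 2 ≤ (2601 / 4000) ^ 2 := pow_le_pow_left₀ hkt0 hb 2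
    have hxm : (k + 1) * t ≤ 17 / 25 := by
      have h1 : (k : ℝ) ≤ 51 := by exact_mod_cast (by omega : k ≤ 51)
      have h2 := hd.2.2.2.1
      nlinarith
    have D : RegD n k a t (19) ((2601 / 4000) ^ 2) 1 (((2 * ((25 : ℕ) : ℝ) + 1) / (2 * ((25 : ℕ) : ℝ) - 1)) ^ 2)
        (1 + 3 / ((25 : ℕ) : ℝ) + 11 / (4 * ((25 : ℕ) : ℝ) ^ 2)) 25 :=
      regD_mk (k0 := 50) (c := 20) hp hk26 ht hkt hτ (by norm_num) (by omega) (hp.lt60 hk')
        (by norm_num) (by norm_num) (by norm_num) (by omega) (Or.inl rfl) le_rfl le_rfl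
    refine regI_key3 D (by norm_num) (by norm_num) (by norm_num) (by norm_num) (by norm_num)
      (by norm_num) ?_ (by norm_num) hxm (by norm_num) hkk
    rintro A B (⟨rfl, rfl⟩ | ⟨rfl, rfl⟩ | ⟨rfl, rfl⟩) <;>
      refine ⟨by norm_num, by norm_num, by norm_num, by norm_num, by norm_num⟩
  · have hτ : (k * t) ^ 2 ≤ 4 / 9 := by
      have := pow_le_pow_left₀ hkt0 hkt 2
      norm_num at this ⊢
      linarith
    have hxm : (k + 1) * t ≤ 17 / 25 := by
      have h1 : (52 : ℝ) ≤ k := by exact_mod_cast (by omega : 52 ≤ k)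
      have h2 : 52 * t ≤ k * t := mul_le_mul_of_nonneg_right h1 ht.le
      linarith
    have D : RegD n k a t (19) (4 / 9) 1 (((2 * ((26 : ℕ) : ℝ) + 1) / (2 * ((26 : ℕ) : ℝ) - 1)) ^ 2)
        (1 + 3 / ((26 : ℕ) : ℝ) + 11 / (4 * ((26 : ℕ) : ℝ) ^ 2)) 26 :=
      regD_mk (k0 := 52) (c := 20) hp hk26 ht hkt hτ (by norm_num) (by omega) (hp.lt60 hk')
        (by norm_num) (by norm_num) (by norm_num) (by omega) (Or.inl rfl) le_rfl le_rfl
    refine regI_key3 D (by norm_num) (by norm_num) (by norm_num) (by norm_num) (by norm_num)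
      (by norm_num) ?_ (by norm_num) hxm (by norm_num) hkk
    rintro A B (⟨rfl, rfl⟩ | ⟨rfl, rfl⟩ | ⟨rfl, rfl⟩) <;>
      refine ⟨by norm_num, by norm_num, by norm_num, by norm_num, by norm_num⟩

end Pool.Agent.SignedQ.Core
end
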