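import Pool.Agent.Lib.MP_cf17a0_co.Mg.G023
import Pool.Agent.Lib.MP_cf17a0_co.Far.GN

section

/-! # FAR-1: the generic cell -/

namespace Pool.Agent.SignedQ.Far1

open Real Finset Pool.Agent.SignedQ.An Pool.Agent.SignedQ.Far
open MPcf17a0.S1F (NC y A)

def dd1 (q : Bool) : ℚ := if q then 31314 / 100000 else 28538 / 100000
def dd2 (q : Bool) : ℚ := if q then 1 / 3 - 384 / 10000 else 1 / 3
def ee0 (b : Bool) : ℚ := if b then 51 / 100 else 87 / 100
def ee1 (b : Bool) : ℚ := if b then 0 else 1 / 2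

/-- The check at one end of a chord (`b`: `k` even; `q`: quadratic gain). -/
def okc (b q : Bool) (F : Bool → List (ℚ × ℚ × ℚ × ℚ)) (k0 lk L ν n : ℚ) : Bool :=
  (F b).all (okf k0 lk L ν n (dd1 q) (dd2 q) (ee0 b) (ee1 b))

theorem log6_ge : (1493 / 10000 : ℝ) ≤ 1 / 12 * log 6 := by
  have h : (17916 / 10000 : ℝ) ≤ log 6 := by
    rw [le_log_iff_exp_le (by norm_num)]
    have h1 : exp (17916 / 10000) = exp (17916 / 20000) ^ 2 := by
      rw [← exp_nat_mul]; norm_num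
    rw [h1]
    have h2 := exp_bound' (x := (17916 / 20000 : ℝ)) (by norm_num) (by norm_num) (n := 9) (by norm_num)
    have h3 : exp (17916 / 20000 : ℝ) ≤ 2.4494 := by
      refine h2.trans ?_
      norm_num [sum_range_succ, Nat.factorial]
    refine (pow_le_pow_left₀ (exp_pos _).le h3 2).trans ?_
    norm_num
  linarith

/-- Value of the bound at `t`, for one form. -/
noncomputable def HH (S : ℝ → ℝ) (k : ℕ) (b q : Bool) (w : ℚ × ℚ × ℚ × ℚ) (t : ℝ) : ℝ :=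
  S t + 3 / 2 * log k + ((7:ℝ) / 12 + ee1 b + w.2.2.2) * log (1 / (k * t)) +
    k * (-(dd1 q : ℝ) + w.1 - ((dd2 q : ℝ) - w.2.1) * log (1 / (k * t))) +
    (ee0 b + w.2.2.1 - 1449 / 10000)

theorem HH_chord {S : ℝ → ℝ} (hS : ConvexOn ℝ Set.univ (fun τ => S (exp τ))) {k : ℕ} (hk : 0 < k)
    (b q : Bool) (w : ℚ × ℚ × ℚ × ℚ) {t1 t t2 M : ℝ} (h0 : 0 < t1) (h1 : t1 ≤ t) (h2 : t ≤ t2)
    (hM1 : HH S k b q w t1 ≤ M) (hM2 : HH S k b q w t2 ≤ M) : HH S k b q w t ≤ M := by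
  have hk0 : (0:ℝ) < k := by exact_mod_cast hk
  have hl : ∀ s : ℝ, 0 < s → log (1 / (k * s)) = -log k - log s := by
    intro s hs
    rw [one_div, log_inv, log_mul hk0.ne' hs.ne']; ring
  obtain ⟨E, hE⟩ : ∃ E : ℝ, E = (7:ℝ) / 12 + ee1 b + w.2.2.2 := ⟨_, rfl⟩
  obtain ⟨D, hD⟩ : ∃ D : ℝ, D = (dd2 q : ℝ) - w.2.1 := ⟨_, rfl⟩
  have e : ∀ s : ℝ, 0 < s → HH S k b q w s = S s + (k * D - E) * log s +
      (3 / 2 * log k - E * log k + k * (-(dd1 q : ℝ) + w.1 + D * log k) +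
        (ee0 b + w.2.2.1 - 1449 / 10000)) := by
    intro s hs
    unfold HH
    rw [hl s hs, ← hE, ← hD]
    ring
  have ht : 0 < t := h0.trans_le h1
  rw [e t1 h0] at hM1
  rw [e t2 (ht.trans_le h2)] at hM2
  rw [e t ht]
  have := chord hS (β := k * D - E) (M := M - (3 / 2 * log k - E * log k +
    k * (-(dd1 q : ℝ) + w.1 + D * log k) + (ee0 b + w.2.2.1 - 1449 / 10000))) h0 h1 h2
    (by linarith) (by linarith)
  linarith

theorem dd2_le (q : Bool) : dd2 q ≤ 1 / 3 := by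
  cases q
  · simp [dd2]
  · simp only [dd2]; norm_num

theorem HH_end {S : ℝ → ℝ} {k : ℕ} {b q : Bool} {F : Bool → List (ℚ × ℚ × ℚ × ℚ)}
    {k0 lk L ν n : ℚ} (hc : okc b q F k0 lk L ν n = true) {x t : ℝ} (hk : (k0:ℝ) ≤ k)
    (hlk : log k0 ≤ lk) (hx : 0 ≤ x) (hL : (L:ℝ) - x ≤ log (1 / (k * t)))
    (hS : S t ≤ k * ν + n - k / 3 * x) : ∀ w ∈ F b, HH S k b q w t ≤ -(41352 / 10000) := by
  intro w hw
  unfold okc at hc
  rw [List.all_eq_true] at hc
  have h := okf_sound (hc w hw) (dd2_le q) hk hlk hx hL hS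
  unfold HH
  exact h

/-- **The generic cell.** -/
theorem cell {v1 : ℝ} {F : Bool → List (ℚ × ℚ × ℚ × ℚ)} (hU : UV v1 F) {n k a : ℕ}
    (hP : Par n k a) {t θ : ℝ} (hD : DOM k t) (hv : k * t ≤ v1) (hv1 : v1 ≤ 1)
    (h6 : 6 / k ≤ θ) (h5 : θ ≤ π - 5 / k) (h3 : 1 / k ≤ |θ - π / 3|) (b q : Bool)
    (hb : decide (Even k) = b) {S : ℝ → ℝ}
    (hconv : ConvexOn ℝ Set.univ (fun τ => S (exp τ)))
    (hS : NC (a * t) (a * (π + θ)) n k / 2 ≤ S t) {t1 t2 : ℝ} (h0 : 0 < t1) (h1 : t1 ≤ t)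
    (h2 : t ≤ t2) (hE1 : ∀ w ∈ F b, HH S k b q w t1 ≤ -(41352 / 10000))
    (hE2 : ∀ w ∈ F b, HH S k b q w t2 ≤ -(41352 / 10000)) :
    sigma n k a t * rho n k a t θ ≤ 0.016 := by
  have hk : 26 ≤ k := hD.1
  have ht : 0 < t := hD.2.1
  have ht' : t ≤ 31 / 2000 := hD.2.2.1
  have hk0 : (0:ℝ) < k := by have : 0 < k := by omega
                             exact_mod_cast this
  apply sr_le hP hD
  have hD0 := D0x_lin hk ht (hv.trans hv1) q
  have hp : ((if Even k then 51 / 100 else 87 / 100 : ℝ) + (if Even k then 0 else 1 / 2 : ℝ) *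
        log (1 / (k * t))) = (ee0 b : ℝ) + (ee1 b : ℝ) * log (1 / (k * t)) := by
    unfold ee0 ee1
    by_cases he : Even k
    · have : b = true := by rw [← hb]; exact decide_eq_true he
      rw [this, if_pos he, if_pos he]; push_cast; simp
    · have : b = false := by rw [← hb]; exact decide_eq_false he
      rw [this, if_neg he, if_neg he]; push_cast; simp
  have hq : k * (-(if q then 31314 / 100000 else 28538 / 100000 : ℝ) -
        (if q then 1 / 3 - 384 / 10000 else 1 / 3 : ℝ) * log (1 / (k * t))) =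
      k * (-(dd1 q : ℝ) - (dd2 q : ℝ) * log (1 / (k * t))) := by
    unfold dd1 dd2
    cases q <;> simp
  rw [hp, hq] at hD0
  have hlt : log (1 / t) = log (1 / (k * t)) + log k := by
    rw [one_div, one_div, log_inv, log_inv, log_mul hk0.ne' ht.ne']; ring
  have hU' := hU k t θ (-(41352 / 10000) - (S t + 3 / 2 * log k + ((7:ℝ) / 12 + ee1 b) *
    log (1 / (k * t)) + k * (-(dd1 q : ℝ) - (dd2 q : ℝ) * log (1 / (k * t))) +
    (ee0 b - 1449 / 10000))) hk ht hv h6 h5 h3 (by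
      rw [hb]
      intro w hw
      have h := HH_chord hconv (by omega) b q w h0 h1 h2 (hE1 w hw) (hE2 w hw)
      unfold HH at h
      unfold wr fm
      linarith)
  have h6' := log6_ge
  rw [hlt] at hU' ⊢
  linarith

end Pool.Agent.SignedQ.Far1
end

section

/-! # FAR-1: the ends of the chords -/

namespace Pool.Agent.SignedQ.Far1

open Real Finset Pool.Agent.SignedQ.An Pool.Agent.SignedQ.Far
open MPcf17a0.S1F (NC y A J)

/-- Certificate of `Gm z r ≤ g`. -/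
def okGm (z r g : ℚ) (d : ℕ × ℚ × ℚ) : Bool :=
  if d.1 = 0 then decide (r = 1) && gm0 z g d.2.2
  else if d.1 = 1 then gmS z r g d.2.1 d.2.2 else gmL z r g d.2.1 d.2.2

theorem okGm_sound {z r g : ℚ} {d : ℕ × ℚ × ℚ} (h : okGm z r g d = true) : Gm z r ≤ g := by
  unfold okGm at h
  split_ifs at h with h0 h1
  · simp only [Bool.and_eq_true, decide_eq_true_eq] at h
    rw [h.1]
    push_cast
    exact gm0_sound h.2
  · exact gmS_sound h
  · exact gmL_sound h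

theorem okGm_pos {z r g : ℚ} {d : ℕ × ℚ × ℚ} (h : okGm z r g d = true) : 0 < z ∧ 0 < r := by
  unfold okGm at h
  split_ifs at h with h0 h1
  · unfold gm0 at h
    simp only [Bool.and_eq_true, decide_eq_true_eq] at h
    exact ⟨h.2.1.1, by rw [h.1]; norm_num⟩
  · unfold gmS at h
    simp only [Bool.and_eq_true, decide_eq_true_eq] at h
    exact ⟨h.1.1.1.1.1.1, h.1.1.1.1.1.2⟩
  · unfold gmL at h
    simp only [Bool.and_eq_true, decide_eq_true_eq] at h
    exact ⟨h.1.1.1.1.1, h.1.1.1.1.2⟩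

/-- Lower bound of `log (1/c)`; `L = 0` if `c = 1`. -/
def okLc (L c : ℚ) : Bool := decide (0 < c) && ((decide (L = 0) && decide (c ≤ 1)) || lgL 8 L (1 / c))

theorem okLc_pos {L c : ℚ} (h : okLc L c = true) : 0 < c := by
  unfold okLc at h
  simp only [Bool.and_eq_true, decide_eq_true_eq] at h
  exact h.1

theorem okLc_sound {L c : ℚ} (h : okLc L c = true) : (L:ℝ) ≤ log (1 / c) := by
  have h0 := okLc_pos h
  unfold okLc at h
  simp only [Bool.and_eq_true, decide_eq_true_eq, Bool.or_eq_true] at h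
  obtain ⟨h1, h2 | h2⟩ := h
  · rw [h2.1]
    have : (c:ℝ) ≤ 1 := by exact_mod_cast h2.2
    have h0' : (0:ℝ) < c := by exact_mod_cast h0
    push_cast
    exact log_nonneg (by rw [le_div_iff₀ h0']; linarith)
  · have := lgL_sound h2
    push_cast at this
    exact this

theorem log_c {k : ℕ} (hk : 0 < k) {c : ℝ} (hc : 0 < c) : log (1 / (k * (c / k))) = log (1 / c) := by
  have hk0 : (0:ℝ) < k := by exact_mod_cast hk
  congr 2
  field_simp

/-! ### Trivial numerators -/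

def okSTc (b q : Bool) (F : Bool → List (ℚ × ℚ × ℚ × ℚ)) (k0 lk r κ c z g : ℚ) (d : ℕ × ℚ × ℚ)
    (L : ℚ) : Bool :=
  decide (0 ≤ r) && decide (0 < k0) && okLc L c && lgU 8 lk k0 && okGm z (1 / (1 + 2 * r)) g d &&
  decide (z ≤ κ * c / 2) && okc b q F k0 lk L (g / 2) 0

theorem STc {b q : Bool} {F : Bool → List (ℚ × ℚ × ℚ × ℚ)} {k0 lk r κ c z g : ℚ}
    {d : ℕ × ℚ × ℚ} {L : ℚ} (h : okSTc b q F k0 lk r κ c z g d L = true) {n k a : ℕ}
    (hnk : Even (n * k)) (ha : 0 < a) (hk2 : 2 ≤ k) (hk : (k0:ℝ) ≤ k) (hr : (r:ℝ) * k ≤ n)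
    (hκ : (κ:ℝ) * k ≤ a * (n + k / 2)) :
    ∀ w ∈ F b, HH (fun t => Far.ST (a * t) n k) k b q w (c / k) ≤ -(41352 / 10000) := by
  unfold okSTc at h
  simp only [Bool.and_eq_true, decide_eq_true_eq] at h
  obtain ⟨⟨⟨⟨⟨⟨hr0, hk0⟩, hL⟩, hlk⟩, hG⟩, hz⟩, hc⟩ := h
  have hkpos : (0:ℝ) < k := by have : 0 < k := by omega
                               exact_mod_cast this
  have hcpos : (0:ℝ) < c := by exact_mod_cast okLc_pos hL
  have hapos : (0:ℝ) < a := by exact_mod_cast ha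
  have hzpos : (0:ℝ) < z := by exact_mod_cast (okGm_pos hG).1
  have hr0' : (0:ℝ) ≤ r := by exact_mod_cast hr0
  refine HH_end hc hk (lgU_sound hlk) le_rfl (x := 0) ?_ ?_
  · rw [log_c (by omega) hcpos, sub_zero]
    exact okLc_sound hL
  · have hz' : (z:ℝ) ≤ κ * c / 2 := by exact_mod_cast hz
    have h1 := ST_le hnk hk2 (s := a * (c / k)) (z := z) (r := r) (by positivity) hr0' hr hzpos (by
      refine hz'.trans ?_
      have e : (a:ℝ) * (c / k) * (2 * n + k) / 4 = (a * (n + k / 2)) / k * (c / 2) := by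
        field_simp; ring
      rw [e]
      have : (κ:ℝ) ≤ (a * (n + k / 2)) / k := by rw [le_div_iff₀ hkpos]; exact hκ
      nlinarith)
    have h2 := okGm_sound hG
    push_cast at h2 ⊢
    nlinarith

def okSTT (b q : Bool) (F : Bool → List (ℚ × ℚ × ℚ × ℚ)) (k0 lk r κ c0 z g : ℚ)
    (d : ℕ × ℚ × ℚ) (L : ℚ) : Bool :=
  decide (0 ≤ r) && decide (0 < k0) && decide (0 < c0) && decide (0 < κ) && lgL 8 L (κ / c0) &&
  lgU 8 lk k0 && okGm z (1 / (1 + 2 * r)) g d &&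
  decide (z * ((1 + 2 * r) * k0 + 1) ≤ c0 / 2 * ((1 + 2 * r) * k0)) && okc b q F k0 lk L (g / 2) 0

theorem log_T0 {n k a : ℕ} (ha : 0 < a) (hk : 0 < k) {κ c0 : ℝ} (hc0 : 0 < c0) (hκ0 : 0 < κ)
    (hκ : κ * k ≤ a * (n + k / 2)) :
    log (κ / c0) ≤ log (1 / (k * (c0 / (a * ((n:ℝ) + (k + 1) / 2))))) := by
  have hkpos : (0:ℝ) < k := by exact_mod_cast hk
  have hapos : (0:ℝ) < a := by exact_mod_cast ha
  have hn : (0:ℝ) ≤ n := Nat.cast_nonneg n
  apply log_le_log (by positivity)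
  have e : 1 / (k * (c0 / (a * ((n:ℝ) + (k + 1) / 2)))) = (a * ((n:ℝ) + (k + 1) / 2)) / (k * c0) := by
    field_simp
  rw [e, div_le_div_iff₀ hc0 (by positivity)]
  have : κ * k ≤ a * ((n:ℝ) + (k + 1) / 2) := by nlinarith
  nlinarith

/-- Lower bound of `κ` when `a (n + k) ≥ th k`. -/
theorem kap_th {n k a : ℕ} (hk : 0 < k) {th r : ℝ} (hth : 0 ≤ th) (hr : 0 ≤ r)
    (h : th * k ≤ a * (n + k)) (hrn : r * k ≤ n) :
    th * ((r + 1 / 2) / (1 + r)) * k ≤ a * (n + k / 2) := by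
  have hkpos : (0:ℝ) < k := by exact_mod_cast hk
  have hn : (0:ℝ) ≤ n := Nat.cast_nonneg n
  have hnk : (0:ℝ) < n + k := by linarith
  have e1 : (r + 1 / 2) / (1 + r) ≤ (n + k / 2) / (n + k) := by
    rw [div_le_div_iff₀ (by linarith) hnk]
    nlinarith
  have e2 : (a:ℝ) * (n + k / 2) = a * (n + k) * ((n + k / 2) / (n + k)) := by
    field_simp
  rw [e2]
  have e3 : th * ((r + 1 / 2) / (1 + r)) * k = th * k * ((r + 1 / 2) / (1 + r)) := by ring
  rw [e3]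
  have hp : 0 ≤ (r + 1 / 2) / (1 + r) := by positivity
  calc th * k * ((r + 1 / 2) / (1 + r)) ≤ a * (n + k) * ((r + 1 / 2) / (1 + r)) :=
        mul_le_mul_of_nonneg_right h hp
    _ ≤ a * (n + k) * ((n + k / 2) / (n + k)) := mul_le_mul_of_nonneg_left e1 (by positivity)

theorem STT {b q : Bool} {F : Bool → List (ℚ × ℚ × ℚ × ℚ)} {k0 lk r κ c0 z g : ℚ}
    {d : ℕ × ℚ × ℚ} {L : ℚ} (h : okSTT b q F k0 lk r κ c0 z g d L = true) {n k a : ℕ}
    (hnk : Even (n * k)) (ha : 0 < a) (hk2 : 2 ≤ k) (hk : (k0:ℝ) ≤ k) (hr : (r:ℝ) * k ≤ n)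
    (hκ : (κ:ℝ) * k ≤ a * (n + k / 2)) :
    ∀ w ∈ F b, HH (fun t => Far.ST (a * t) n k) k b q w (c0 / (a * ((n:ℝ) + (k + 1) / 2))) ≤
      -(41352 / 10000) := by
  unfold okSTT at h
  simp only [Bool.and_eq_true, decide_eq_true_eq] at h
  obtain ⟨⟨⟨⟨⟨⟨⟨⟨hr0, hk0⟩, hc0⟩, hκ0⟩, hL⟩, hlk⟩, hG⟩, hz⟩, hc⟩ := h
  have hkpos : (0:ℝ) < k := by have : 0 < k := by omega
                               exact_mod_cast this
  have hk0' : (0:ℝ) < k0 := by exact_mod_cast hk0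
  have hc0' : (0:ℝ) < c0 := by exact_mod_cast hc0
  have hκ0' : (0:ℝ) < κ := by exact_mod_cast hκ0
  have hapos : (0:ℝ) < a := by exact_mod_cast ha
  have hzpos : (0:ℝ) < z := by exact_mod_cast (okGm_pos hG).1
  have hr0' : (0:ℝ) ≤ r := by exact_mod_cast hr0
  have hn : (0:ℝ) ≤ n := Nat.cast_nonneg n
  refine HH_end hc hk (lgU_sound hlk) le_rfl (x := 0) ?_ ?_
  · have h1 := lgL_sound hL
    push_cast at h1
    have h2 := log_T0 (n := n) ha (by omega : 0 < k) hc0' hκ0' hκ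
    linarith
  · have hz' : (z:ℝ) * ((1 + 2 * r) * k0 + 1) ≤ c0 / 2 * ((1 + 2 * r) * k0) := by
      have := (Rat.cast_le (K := ℝ)).2 hz
      push_cast at this; exact this
    have hs : (z:ℝ) ≤ a * (c0 / (a * ((n:ℝ) + (k + 1) / 2))) * (2 * n + k) / 4 := by
      have e : (a:ℝ) * (c0 / (a * ((n:ℝ) + (k + 1) / 2))) * (2 * n + k) / 4 =
          c0 / 2 * ((2 * n + k) / (2 * n + k + 1)) := by
        have : (2 * (n:ℝ) + k + 1) ≠ 0 := by positivity
        have : ((n:ℝ) + (k + 1) / 2) ≠ 0 := by positivity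
        field_simp
        ring
      rw [e]
      have e2 : (z:ℝ) ≤ c0 / 2 * (((1 + 2 * r) * k0) / ((1 + 2 * r) * k0 + 1)) := by
        rw [← mul_div_assoc, le_div_iff₀ (by positivity)]
        exact hz'
      have e3 : ((1 + 2 * (r:ℝ)) * k0) / ((1 + 2 * r) * k0 + 1) ≤ (2 * n + k) / (2 * n + k + 1) := by
        rw [div_le_div_iff₀ (by positivity) (by positivity)]
        have : (1 + 2 * (r:ℝ)) * k0 ≤ 2 * n + k := by nlinarith
        linarith
      refine e2.trans (mul_le_mul_of_nonneg_left e3 (by positivity))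
    have h1 := ST_le hnk hk2 (s := a * (c0 / (a * ((n:ℝ) + (k + 1) / 2)))) (z := z) (r := r)
      (by positivity) hr0' hr hzpos hs
    have h2 := okGm_sound hG
    push_cast at h2 ⊢
    nlinarith

end Pool.Agent.SignedQ.Far1
end

section

/-! # FAR-1: the ends of the chords, region C -/

namespace Pool.Agent.SignedQ.Far1

open Real Finset Pool.Agent.SignedQ.An Pool.Agent.SignedQ.Far
open MPcf17a0.S1F (NC y A J)

/-- The constant in the numerator bound of region C. -/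
noncomputable def cst (n k : ℕ) (Ch ex : ℝ) : ℝ :=
  k / 200 + 23 / 40 * ((n : ℝ) + 1 / 2) + 11 / 100 * ((n : ℝ) + k + 1 / 2) / Ch + ex

/-- Check at one end, region C. `r'`, `y`: parameters of `Gm`; `Ch`: lower bound of the hyperbolic
cosine; `ex`: extra constant. -/
def okSA (b q : Bool) (F : Bool → List (ℚ × ℚ × ℚ × ℚ)) (k0 lk r' r2 y g : ℚ) (d : ℕ × ℚ × ℚ)
    (L Ch ex : ℚ) : Bool :=
  decide (0 ≤ r') && decide (0 < k0) && decide (0 < Ch) && decide (0 ≤ r2) && lgU 8 lk k0 &&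
  okGm y (1 / (1 + 2 * r')) g d &&
  okc b q F k0 lk L (g / 2 + 1 / 200 + 23 / 40 * r2 + 11 / 100 * (1 + r2) / Ch)
    (23 / 80 + 11 / 200 / Ch + ex)

theorem SAe {b q : Bool} {F : Bool → List (ℚ × ℚ × ℚ × ℚ)} {k0 lk r' r2 y g : ℚ}
    {d : ℕ × ℚ × ℚ} {L Ch ex : ℚ} (h : okSA b q F k0 lk r' r2 y g d L Ch ex = true) {n n' k a : ℕ}
    (ha : 0 < a) (hk1 : 1 ≤ k) (hk : (k0:ℝ) ≤ k) (hr : (r':ℝ) * k ≤ n') {x t1 e' : ℝ} (ht1 : 0 < t1)
    (hx : 0 ≤ x) (hn : (n:ℝ) = r2 * k - k * x) (he : e' ≤ ex)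
    (hy : (y:ℝ) ≤ a * t1 * (2 * n' + k + 1) / 2) (hL : (L:ℝ) - x ≤ log (1 / (k * t1))) :
    ∀ w ∈ F b, HH (fun t => SA (a * t) n' k + cst n k Ch e') k b q w t1 ≤ -(41352 / 10000) := by
  unfold okSA at h
  simp only [Bool.and_eq_true, decide_eq_true_eq] at h
  obtain ⟨⟨⟨⟨⟨⟨hr0, hk0⟩, hCh⟩, hr2⟩, hlk⟩, hG⟩, hc⟩ := h
  have hkpos : (0:ℝ) < k := by have : 0 < k := by omega
                               exact_mod_cast this
  have hapos : (0:ℝ) < a := by exact_mod_cast ha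
  have hypos : (0:ℝ) < y := by exact_mod_cast (okGm_pos hG).1
  have hr0' : (0:ℝ) ≤ r' := by exact_mod_cast hr0
  have hCh' : (0:ℝ) < Ch := by exact_mod_cast hCh
  refine HH_end hc hk (lgU_sound hlk) hx hL ?_
  have h1 := SA_le hk1 (s := a * t1) (y := y) (r := r') (by positivity) hr0' hr hypos hy
  have h2 := okGm_sound hG
  have h3 : 11 / 100 * ((n : ℝ) + k + 1 / 2) / Ch ≤
      11 / 100 * (k * (1 + r2) + 1 / 2) / Ch := by
    apply div_le_div_of_nonneg_right _ hCh'.le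
    have : 0 ≤ k * x := by positivity
    rw [hn]; linarith
  have hkx : 0 ≤ k * x := by positivity
  unfold cst
  push_cast at h2 ⊢
  have h4 : k / 2 * Gm y (1 / (1 + 2 * r')) ≤ k / 2 * g := mul_le_mul_of_nonneg_left h2 (by positivity)
  have e5 : 11 / 100 * (k * (1 + (r2:ℝ)) + 1 / 2) / Ch =
      k * (11 / 100 * (1 + r2) / Ch) + 11 / 200 / Ch := by ring
  rw [e5] at h3
  rw [hn] at h3 ⊢
  nlinarith

/-! ### Lower bounds for the argument of the hyperbolic cosine -/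

def okCh (N Ch : ℚ) : Bool :=
  decide (0 ≤ N) && decide (N ≤ 8) && decide (1 ≤ N) && decide (2 * Ch ≤ eL 8 N + 1 / eU 8 N)

theorem okCh_sound {N Ch : ℚ} (h : okCh N Ch = true) {u : ℝ} (hu : (N:ℝ) ≤ u) : (Ch:ℝ) ≤ cosh u := by
  unfold okCh at h
  simp only [Bool.and_eq_true, decide_eq_true_eq] at h
  obtain ⟨⟨⟨h0, h1⟩, h1'⟩, h2⟩ := h
  have hN : (0:ℝ) ≤ N := by exact_mod_cast h0
  have h3 : cosh N ≤ cosh u := by
    rw [cosh_le_cosh, abs_of_nonneg hN, abs_of_nonneg (hN.trans hu)]; exact hu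
  refine le_trans ?_ h3
  have h4 := eL_le (m := 8) (by norm_num) h0
  have h5 := le_eU (m := 8) (by norm_num) h0 (by exact_mod_cast h1)
  have h6 : (1:ℝ) / ((eU 8 N : ℚ) : ℝ) ≤ exp (-N) := by
    rw [exp_neg, ← one_div]
    exact one_div_le_one_div_of_le (exp_pos _) h5
  have h7 : 2 * (Ch:ℝ) ≤ ((eL 8 N : ℚ) : ℝ) + 1 / ((eU 8 N : ℚ) : ℝ) := by
    have := (Rat.cast_le (K := ℝ)).2 h2
    push_cast at this; exact this
  rw [cosh_eq]
  linarith

theorem okCh_one {N Ch : ℚ} (h : okCh N Ch = true) : 1 ≤ N := by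
  unfold okCh at h
  simp only [Bool.and_eq_true, decide_eq_true_eq] at h
  exact h.1.2

/-- The function of region C, both parities of `n`. -/
theorem NC_le_cst {n k a : ℕ} (hnk : Even (n * k)) (ha : 0 < a) (hk : 26 ≤ k) {t1 t : ℝ}
    (h0 : 0 < t1) (h1 : t1 ≤ t) {N Ch : ℚ} (hC : okCh N Ch = true) (hCh : 0 < Ch)
    (hN : (N:ℝ) ≤ ((n:ℝ) + k) * (a * t1)) (ψ : ℝ) :
    (Even n ∧ NC (a * t) ψ n k / 2 ≤ SA (a * t) n k + cst n k Ch 0) ∨
    (Odd n ∧ Even k ∧ NC (a * t) ψ n k / 2 ≤ SA (a * t) (n - 1) k + cst n k Ch (1 / 2 * log 2)) := by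
  have hapos : (0:ℝ) < a := by exact_mod_cast ha
  have hn : (0:ℝ) ≤ n := Nat.cast_nonneg n
  have hkpos : (0:ℝ) < k := by have : 0 < k := by omega
                               exact_mod_cast this
  have hs : 0 < (a:ℝ) * t := mul_pos hapos (h0.trans_le h1)
  have hNt : (N:ℝ) ≤ ((n:ℝ) + k) * (a * t) := hN.trans (by
    refine mul_le_mul_of_nonneg_left (mul_le_mul_of_nonneg_left h1 hapos.le) (by positivity))
  have hN1 : (1:ℝ) ≤ ((n:ℝ) + k) * (a * t) := by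
    have : (1:ℝ) ≤ N := by exact_mod_cast okCh_one hC
    linarith
  have hCr : (0:ℝ) < Ch := by exact_mod_cast hCh
  have hcosh := okCh_sound hC hNt
  have h3 : 11 / 100 * ((n : ℝ) + k + 1 / 2) / cosh (((n:ℝ) + k) * (a * t)) ≤
      11 / 100 * ((n : ℝ) + k + 1 / 2) / Ch := by
    apply div_le_div_of_nonneg_left (by positivity) hCr hcosh
  rcases Nat.even_or_odd n with he | ho
  · left
    refine ⟨he, ?_⟩
    have := NC_le_SA_even he hk (ψ := ψ) hs hN1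
    unfold cst
    linarith
  · right
    have hke : Even k := by
      rcases Nat.even_mul.1 hnk with h | h
      · exact absurd h (Nat.not_even_iff_odd.2 ho)
      · exact h
    refine ⟨ho, hke, ?_⟩
    have := NC_le_SA_odd ho hke hk (ψ := ψ) hs hN1
    unfold cst
    linarith

theorem half_log_two : 1 / 2 * log 2 ≤ ((34658 / 100000 : ℚ) : ℝ) := by
  have := log_two_lt_d9
  push_cast
  linarith

end Pool.Agent.SignedQ.Far1
end
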