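import Pool.Agent.Lib.MP_cf17a0_co.Mg.G024

section

/-! # FAR-1: the cells, all modes -/

namespace Pool.Agent.SignedQ.Far1

open Real Finset Pool.Agent.SignedQ.An Pool.Agent.SignedQ.Far
open MPcf17a0.S1F (NC y A J)

/-- Everything about `k, t, θ`. -/
def Good (n k a : ℕ) (t θ : ℝ) : Prop :=
  Par n k a ∧ DOM k t ∧ 6 / k ≤ θ ∧ θ ≤ π - 5 / k ∧ 1 / k ≤ |θ - π / 3|

theorem t_le {k : ℕ} (hk : 0 < k) {t c : ℝ} (h : k * t ≤ c) : t ≤ c / k := by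
  have hkpos : (0:ℝ) < k := by exact_mod_cast hk
  rw [le_div_iff₀ hkpos]; linarith

theorem le_t {k : ℕ} (hk : 0 < k) {t c : ℝ} (h : c ≤ k * t) : c / k ≤ t := by
  have hkpos : (0:ℝ) < k := by exact_mod_cast hk
  rw [div_le_iff₀ hkpos]; linarith

theorem T0_le {n k a : ℕ} (ha : 0 < a) {t c0 : ℝ}
    (h : c0 ≤ a * t * (n + (k + 1) / 2)) : c0 / (a * ((n:ℝ) + (k + 1) / 2)) ≤ t := by
  have hapos : (0:ℝ) < a := by exact_mod_cast ha
  have hn : (0:ℝ) ≤ n := Nat.cast_nonneg n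
  have hk : (0:ℝ) ≤ k := Nat.cast_nonneg k
  rw [div_le_iff₀ (by positivity)]
  linarith

/-! ### Mode Far.ST -/

theorem cellST_T {v1 : ℝ} {F : Bool → List (ℚ × ℚ × ℚ × ℚ)} (hU : UV v1 F) (hv1 : v1 ≤ 1)
    {q : Bool} {k0 lk r κ c0 c2 z1 g1 z2 g2 L1 L2 : ℚ} {d1 d2 : ℕ × ℚ × ℚ}
    (h : (okSTT true q F k0 lk r κ c0 z1 g1 d1 L1 && okSTT false q F k0 lk r κ c0 z1 g1 d1 L1 &&
      okSTc true q F k0 lk r κ c2 z2 g2 d2 L2 && okSTc false q F k0 lk r κ c2 z2 g2 d2 L2) = true)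
    {n k a : ℕ} {t θ : ℝ} (hg : Good n k a t θ) (hv : k * t ≤ v1) (hk : (k0:ℝ) ≤ k)
    (hr : (r:ℝ) * k ≤ n) (hκ : (κ:ℝ) * k ≤ a * (n + k / 2))
    (hT : (c0:ℝ) ≤ a * t * (n + (k + 1) / 2)) (hc2 : k * t ≤ c2) :
    sigma n k a t * rho n k a t θ ≤ 0.016 := by
  obtain ⟨hP, hD, h6, h5, h3⟩ := hg
  simp only [Bool.and_eq_true] at h
  obtain ⟨⟨⟨e1, e2⟩, e3⟩, e4⟩ := h
  have hk26 : 26 ≤ k := hD.1
  have ha : 0 < a := hP.2.1.pos
  have hapos : (0:ℝ) < a := by exact_mod_cast ha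
  have hn0 : (0:ℝ) ≤ n := Nat.cast_nonneg n
  have hkpos : (0:ℝ) < k := by have : 0 < k := by omega
                               exact_mod_cast this
  have hc0 : (0:ℝ) < c0 := by
    have e := e1
    unfold okSTT at e
    simp only [Bool.and_eq_true, decide_eq_true_eq] at e
    exact_mod_cast e.1.1.1.1.1.1.2
  have ht : 0 < t := hD.2.1
  have hconv := ST_convex n k hapos
  have hS : NC (a * t) (a * (π + θ)) n k / 2 ≤ Far.ST (a * t) n k := NC_le_ST (by positivity)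
  rcases hb : decide (Even k) with _ | _
  · exact cell hU hP hD hv hv1 h6 h5 h3 false q hb hconv hS (by positivity) (T0_le ha hT)
      (t_le (by omega) hc2) (STT e2 hP.1 ha (by omega) hk hr hκ) (STc e4 hP.1 ha (by omega) hk hr hκ)
  · exact cell hU hP hD hv hv1 h6 h5 h3 true q hb hconv hS (by positivity) (T0_le ha hT)
      (t_le (by omega) hc2) (STT e1 hP.1 ha (by omega) hk hr hκ) (STc e3 hP.1 ha (by omega) hk hr hκ)

theorem cellST_c {v1 : ℝ} {F : Bool → List (ℚ × ℚ × ℚ × ℚ)} (hU : UV v1 F) (hv1 : v1 ≤ 1)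
    {q : Bool} {k0 lk r κ c1 c2 z1 g1 z2 g2 L1 L2 : ℚ} {d1 d2 : ℕ × ℚ × ℚ}
    (h : (okSTc true q F k0 lk r κ c1 z1 g1 d1 L1 && okSTc false q F k0 lk r κ c1 z1 g1 d1 L1 &&
      okSTc true q F k0 lk r κ c2 z2 g2 d2 L2 && okSTc false q F k0 lk r κ c2 z2 g2 d2 L2) = true)
    {n k a : ℕ} {t θ : ℝ} (hg : Good n k a t θ) (hv : k * t ≤ v1) (hk : (k0:ℝ) ≤ k)
    (hr : (r:ℝ) * k ≤ n) (hκ : (κ:ℝ) * k ≤ a * (n + k / 2))
    (hT : (c1:ℝ) ≤ k * t) (hc2 : k * t ≤ c2) :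
    sigma n k a t * rho n k a t θ ≤ 0.016 := by
  obtain ⟨hP, hD, h6, h5, h3⟩ := hg
  simp only [Bool.and_eq_true] at h
  obtain ⟨⟨⟨e1, e2⟩, e3⟩, e4⟩ := h
  have hk26 : 26 ≤ k := hD.1
  have ha : 0 < a := hP.2.1.pos
  have hapos : (0:ℝ) < a := by exact_mod_cast ha
  have hkpos : (0:ℝ) < k := by have : 0 < k := by omega
                               exact_mod_cast this
  have hc1 : (0:ℝ) < c1 := by
    have e := e1
    unfold okSTc at e
    simp only [Bool.and_eq_true, decide_eq_true_eq] at e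
    exact_mod_cast okLc_pos e.1.1.1.1.2
  have ht : 0 < t := hD.2.1
  have hconv := ST_convex n k hapos
  have hS : NC (a * t) (a * (π + θ)) n k / 2 ≤ Far.ST (a * t) n k := NC_le_ST (by positivity)
  rcases hb : decide (Even k) with _ | _
  · exact cell hU hP hD hv hv1 h6 h5 h3 false q hb hconv hS (by positivity) (le_t (by omega) hT)
      (t_le (by omega) hc2) (STc e2 hP.1 ha (by omega) hk hr hκ) (STc e4 hP.1 ha (by omega) hk hr hκ)
  · exact cell hU hP hD hv hv1 h6 h5 h3 true q hb hconv hS (by positivity) (le_t (by omega) hT)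
      (t_le (by omega) hc2) (STc e1 hP.1 ha (by omega) hk hr hκ) (STc e3 hP.1 ha (by omega) hk hr hκ)

/-! ### Mode N5 -/

def okN5 (b q : Bool) (F : Bool → List (ℚ × ℚ × ℚ × ℚ)) (k0 lk c am N E : ℚ) (L : ℚ) : Bool :=
  decide (0 < k0) && decide (0 < am) && decide (0 ≤ N) && decide (0 ≤ E) && decide (1 ≤ E * eL 8 N) &&
  okLc L c && lgU 8 lk k0 && okc b q F k0 lk L ((61686 / 100000 + E) / (am * c)) (1 / 4)

theorem N5e {b q : Bool} {F : Bool → List (ℚ × ℚ × ℚ × ℚ)} {k0 lk c am N E L : ℚ}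
    (h : okN5 b q F k0 lk c am N E L = true) {k a : ℕ} (hk1 : 0 < k) (hk : (k0:ℝ) ≤ k)
    (ha : (am:ℝ) ≤ a) {C : ℝ} (hC0 : 0 ≤ C) (hC : C ≤ 61686 / 100000 + E) :
    ∀ w ∈ F b, HH (fun t => C / a / t + 1 / 4) k b q w (c / k) ≤ -(41352 / 10000) := by
  unfold okN5 at h
  simp only [Bool.and_eq_true, decide_eq_true_eq] at h
  obtain ⟨⟨⟨⟨⟨⟨⟨hk0, ham⟩, hN⟩, hE⟩, hE2⟩, hL⟩, hlk⟩, hc⟩ := h
  have hkpos : (0:ℝ) < k := by exact_mod_cast hk1
  have hcpos : (0:ℝ) < c := by exact_mod_cast okLc_pos hL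
  have ham' : (0:ℝ) < am := by exact_mod_cast ham
  refine HH_end hc hk (lgU_sound hlk) le_rfl (x := 0) ?_ ?_
  · rw [log_c hk1 hcpos, sub_zero]
    exact okLc_sound hL
  · have hapos : (0:ℝ) < a := ham'.trans_le ha
    have e1 : C / a / (c / k) = k * (C / (a * c)) := by field_simp
    have e2 : C / (a * c) ≤ (61686 / 100000 + E) / (am * c) :=
      div_le_div₀ (by positivity) hC (by positivity) (mul_le_mul_of_nonneg_right ha hcpos.le)
    have e3 := mul_le_mul_of_nonneg_left e2 hkpos.le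
    push_cast at e3 ⊢
    rw [e1]
    linarith

theorem N5_conv {C : ℝ} (hC : 0 ≤ C) : ConvexOn ℝ Set.univ
    (fun τ => (fun t => C / t + 1 / 4) (exp τ)) := inv_convex hC (1 / 4)

theorem cellN5 {v1 : ℝ} {F : Bool → List (ℚ × ℚ × ℚ × ℚ)} (hU : UV v1 F) (hv1 : v1 ≤ 1)
    {q : Bool} {k0 lk c1 c2 am N E L1 L2 : ℚ}
    (h : (okN5 true q F k0 lk c1 am N E L1 && okN5 false q F k0 lk c1 am N E L1 &&
      okN5 true q F k0 lk c2 am N E L2 && okN5 false q F k0 lk c2 am N E L2) = true)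
    {n k a : ℕ} {t θ : ℝ} (hg : Good n k a t θ) (hv : k * t ≤ v1) (hk : (k0:ℝ) ≤ k)
    (ha : (am:ℝ) ≤ a) (hN : (N:ℝ) * k ≤ a * (n + k) * c1)
    (hT : (c1:ℝ) ≤ k * t) (hc2 : k * t ≤ c2) :
    sigma n k a t * rho n k a t θ ≤ 0.016 := by
  obtain ⟨hP, hD, h6, h5, h3⟩ := hg
  simp only [Bool.and_eq_true] at h
  obtain ⟨⟨⟨e1, e2⟩, e3⟩, e4⟩ := h
  have hk26 : 26 ≤ k := hD.1
  have hkpos : (0:ℝ) < k := by have : 0 < k := by omega
                               exact_mod_cast this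
  have hn : (0:ℝ) ≤ n := Nat.cast_nonneg n
  have ha0 : 0 < a := hP.2.1.pos
  have hapos : (0:ℝ) < a := by exact_mod_cast ha0
  have e := e1
  unfold okN5 at e
  simp only [Bool.and_eq_true, decide_eq_true_eq] at e
  obtain ⟨⟨⟨⟨⟨⟨⟨-, -⟩, hN0⟩, hE0⟩, hE2⟩, hL⟩, -⟩, -⟩ := e
  have hc1 : (0:ℝ) < c1 := by exact_mod_cast okLc_pos hL
  have hE0' : (0:ℝ) ≤ E := by exact_mod_cast hE0
  have hN0' : (0:ℝ) ≤ N := by exact_mod_cast hN0
  have ht : 0 < t := hD.2.1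
  have hE : exp (-(N:ℝ)) ≤ E := by
    have h1 := eL_le (m := 8) (by norm_num) hN0
    have h2 : (1:ℝ) ≤ E * ((eL 8 N : ℚ) : ℝ) := by exact_mod_cast hE2
    rw [exp_neg, inv_le_iff_one_le_mul₀ (exp_pos _)]
    exact h2.trans (mul_le_mul_of_nonneg_left h1 hE0')
  have hs : 0 < (a:ℝ) * t := by positivity
  have hNt : (N:ℝ) ≤ ((n + k : ℕ) : ℝ) * (a * t) := by
    have h1 : (N:ℝ) * k ≤ a * (n + k) * (k * t) :=
      hN.trans (mul_le_mul_of_nonneg_left hT (by positivity))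
    have h2 : (N:ℝ) * k ≤ (((n + k : ℕ) : ℝ) * (a * t)) * k := by push_cast; linarith
    exact le_of_mul_le_mul_right h2 hkpos
  have hS : NC (a * t) (a * (π + θ)) n k / 2 ≤ (61686 / 100000 + E) / a / t + 1 / 4 := by
    have h1 := MPcf17a0.S1F.N5 (a * t) (a * (π + θ)) (2 * exp (-((n + k : ℕ) * (a * t))) / (a * t)) hs
      n k hP.1 (by positivity) (by
        have h := MPcf17a0.S1F.G_lower (a * t) (a * (π + θ)) hs 1 le_rfl (n + k)
        have e : (2:ℝ) ^ 1 / (((1:ℕ):ℝ) * (a * t)) * exp (-(((1:ℕ):ℝ) * ((n + k : ℕ) * (a * t)))) =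
            2 * exp (-((n + k : ℕ) * (a * t))) / (a * t) := by
          push_cast
          rw [one_mul, one_mul, pow_one]
          ring
        rwa [e] at h)
    have h2 : exp (-((n + k : ℕ) * (a * t))) ≤ E := by
      refine le_trans ?_ hE
      rw [exp_le_exp]; linarith
    have h3 := J0_le
    have h4 : J 0 / (a * t) + 2 * exp (-((n + k : ℕ) * (a * t))) / (a * t) ≤
        2 * (61686 / 100000 + E) / (a * t) := by
      rw [← add_div]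
      apply div_le_div_of_nonneg_right _ hs.le
      linarith
    have e5 : 2 * (61686 / 100000 + (E:ℝ)) / (a * t) = 2 * ((61686 / 100000 + E) / a / t) := by
      field_simp
    rw [e5] at h4
    linarith
  have hC0 : (0:ℝ) ≤ 61686 / 100000 + (E:ℝ) := by positivity
  have hconv := N5_conv (C := (61686 / 100000 + (E:ℝ)) / a) (by positivity)
  rcases hb : decide (Even k) with _ | _
  · exact cell hU hP hD hv hv1 h6 h5 h3 false q hb hconv hS (by positivity) (le_t (by omega) hT)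
      (t_le (by omega) hc2) (N5e e2 (by omega) hk ha hC0 le_rfl) (N5e e4 (by omega) hk ha hC0 le_rfl)
  · exact cell hU hP hD hv hv1 h6 h5 h3 true q hb hconv hS (by positivity) (le_t (by omega) hT)
      (t_le (by omega) hc2) (N5e e1 (by omega) hk ha hC0 le_rfl) (N5e e3 (by omega) hk ha hC0 le_rfl)

end Pool.Agent.SignedQ.Far1
end

section

/-! # FAR-1: the cells, mode SA (region C) -/

namespace Pool.Agent.SignedQ.Far1

open Real Finset Pool.Agent.SignedQ.An Pool.Agent.SignedQ.Far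
open MPcf17a0.S1F (NC y A J)

/-- Data of one end: parameters of `Gm` for even `k` and for odd `k`. -/
structure SD where
  re : ℚ
  ye : ℚ
  ge : ℚ
  de : ℕ × ℚ × ℚ
  ro : ℚ
  yo : ℚ
  go : ℚ
  do' : ℕ × ℚ × ℚ
  L : ℚ
  ko : ℚ
  lko : ℚ

def okSD (q : Bool) (F : Bool → List (ℚ × ℚ × ℚ × ℚ)) (k0 lk r2 Ch : ℚ) (D : SD) : Bool :=
  okSA true q F k0 lk D.re r2 D.ye D.ge D.de D.L Ch (34658 / 100000) &&
  okSA false q F D.ko D.lko D.ro r2 D.yo D.go D.do' D.L Ch 0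

/-- What has to be known at one end `t1`. -/
def EndOK (n k a : ℕ) (r2 : ℚ) (D : SD) (t1 : ℝ) : Prop :=
  (D.re:ℝ) * k ≤ n ∧ (Odd n → (D.re:ℝ) * k ≤ (n - 1 : ℕ)) ∧ (D.ro:ℝ) * k ≤ n ∧
  (D.ye:ℝ) ≤ a * t1 * (2 * n + k + 1) / 2 ∧
  (Odd n → (D.ye:ℝ) ≤ a * t1 * (2 * (n - 1 : ℕ) + k + 1) / 2) ∧
  (D.yo:ℝ) ≤ a * t1 * (2 * n + k + 1) / 2 ∧
  (D.L:ℝ) - (r2 - n / k) ≤ log (1 / (k * t1))

theorem SD_end {q : Bool} {F : Bool → List (ℚ × ℚ × ℚ × ℚ)} {k0 lk r2 Ch : ℚ} {D : SD}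
    (h : okSD q F k0 lk r2 Ch D = true) {n k a : ℕ} (ha : 0 < a) (hk1 : 1 ≤ k) (hk : (k0:ℝ) ≤ k)
    (hn : (n:ℝ) ≤ r2 * k) {t1 : ℝ} (ht1 : 0 < t1) (hE : EndOK n k a r2 D t1) :
    (∀ w ∈ F true, HH (fun t => SA (a * t) n k + cst n k Ch 0) k true q w t1 ≤
      -(41352 / 10000)) ∧
    ((D.ko:ℝ) ≤ k → ∀ w ∈ F false, HH (fun t => SA (a * t) n k + cst n k Ch 0) k false q w t1 ≤
      -(41352 / 10000)) ∧
    (Odd n → ∀ w ∈ F true, HH (fun t => SA (a * t) (n - 1) k + cst n k Ch (1 / 2 * log 2)) k true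
      q w t1 ≤ -(41352 / 10000)) := by
  unfold okSD at h
  simp only [Bool.and_eq_true] at h
  obtain ⟨e1, e2⟩ := h
  obtain ⟨h1, h2, h3, h4, h5, h6, h7⟩ := hE
  have hkpos : (0:ℝ) < k := by have : 0 < k := by omega
                               exact_mod_cast this
  have hx : 0 ≤ (r2:ℝ) - n / k := by
    rw [sub_nonneg, div_le_iff₀ hkpos]; exact hn
  have hne : (n:ℝ) = r2 * k - k * (r2 - n / k) := by field_simp; ring
  refine ⟨?_, ?_, ?_⟩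
  · exact SAe e1 ha hk1 hk h1 ht1 hx hne (by push_cast; norm_num) h4 h7
  · intro hko
    exact SAe e2 ha hk1 hko h3 ht1 hx hne (by push_cast; norm_num) h6 h7
  · intro ho
    exact SAe e1 ha hk1 hk (h2 ho) ht1 hx hne half_log_two (h5 ho) h7

theorem cellSA {v1 : ℝ} {F : Bool → List (ℚ × ℚ × ℚ × ℚ)} (hU : UV v1 F) (hv1 : v1 ≤ 1)
    {q : Bool} {k0 lk r2 N Ch : ℚ} {D1 D2 : SD}
    (h : (okCh N Ch && decide (0 < Ch) && okSD q F k0 lk r2 Ch D1 && okSD q F k0 lk r2 Ch D2) = true)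
    {n k a : ℕ} {t θ : ℝ} (hg : Good n k a t θ) (hv : k * t ≤ v1) (hk : (k0:ℝ) ≤ k)
    (hko : Odd k → (D1.ko:ℝ) ≤ k ∧ (D2.ko:ℝ) ≤ k)
    (hn : (n:ℝ) ≤ r2 * k) {t1 t2 : ℝ} (h0 : 0 < t1) (h1 : t1 ≤ t) (h2 : t ≤ t2)
    (hN : (N:ℝ) ≤ ((n:ℝ) + k) * (a * t1)) (hE1 : EndOK n k a r2 D1 t1)
    (hE2 : EndOK n k a r2 D2 t2) :
    sigma n k a t * rho n k a t θ ≤ 0.016 := by
  obtain ⟨hP, hD, h6, h5, h3⟩ := hg
  simp only [Bool.and_eq_true, decide_eq_true_eq] at h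
  obtain ⟨⟨⟨e1, e2⟩, e3⟩, e4⟩ := h
  have hk26 : 26 ≤ k := hD.1
  have ha : 0 < a := hP.2.1.pos
  have hapos : (0:ℝ) < a := by exact_mod_cast ha
  have ht : 0 < t := hD.2.1
  have ht2 : 0 < t2 := ht.trans_le h2
  obtain ⟨p1, p2, p3⟩ := SD_end e3 ha (by omega) hk hn h0 hE1
  obtain ⟨q1, q2, q3⟩ := SD_end e4 ha (by omega) hk hn ht2 hE2
  rcases NC_le_cst hP.1 ha hk26 h0 h1 e1 e2 hN (a * (π + θ)) with ⟨he, hS⟩ | ⟨ho, hke, hS⟩
  · have hconv := SA_convex n k hapos (cst n k Ch 0)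
    rcases hb : decide (Even k) with _ | _
    · have hko' := hko (Nat.not_even_iff_odd.1 (of_decide_eq_false hb))
      exact cell hU hP hD hv hv1 h6 h5 h3 false q hb hconv hS h0 h1 h2 (p2 hko'.1) (q2 hko'.2)
    · exact cell hU hP hD hv hv1 h6 h5 h3 true q hb hconv hS h0 h1 h2 p1 q1
  · have hconv := SA_convex (n - 1) k hapos (cst n k Ch (1 / 2 * log 2))
    exact cell hU hP hD hv hv1 h6 h5 h3 true q (decide_eq_true hke) hconv hS h0 h1 h2 (p3 ho) (q3 ho)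

/-- `x ↦ (x-1)/(x+1)`. -/
theorem frac_mono {X0 X c y : ℝ} (hc : 0 ≤ c) (hX0 : 1 ≤ X0) (hX : X0 ≤ X)
    (h : y * (X0 + 1) ≤ c * (X0 - 1)) : y ≤ c * ((X - 1) / (X + 1)) := by
  have h1 : y ≤ c * ((X0 - 1) / (X0 + 1)) := by
    rw [← mul_div_assoc, le_div_iff₀ (by linarith)]; exact h
  refine h1.trans (mul_le_mul_of_nonneg_left ?_ hc)
  rw [div_le_div_iff₀ (by linarith) (by linarith)]
  nlinarith

theorem frac_mono' {X0 X c y : ℝ} (hc : 0 ≤ c) (hX0 : 1 ≤ X0) (hX : X0 ≤ X)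
    (h : y * X0 ≤ c * (X0 - 1)) : y ≤ c * ((X - 1) / X) := by
  have h1 : y ≤ c * ((X0 - 1) / X0) := by
    rw [← mul_div_assoc, le_div_iff₀ (by linarith)]; exact h
  refine h1.trans (mul_le_mul_of_nonneg_left ?_ hc)
  rw [div_le_div_iff₀ (by linarith) (by linarith)]
  nlinarith

/-- Lower end of the range of `n`: `r1 k ≤ n`; `X0 ≤ 2n+k` for odd `n`. -/
def okR (k0 r1 X0 : ℚ) (D : SD) : Bool :=
  decide (1 ≤ k0) && decide (1 ≤ X0) && decide (0 ≤ D.re) && decide (0 ≤ r1) &&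
  decide (D.re = 0 ∨ D.re ≤ r1 - 1 / k0) && decide (D.ro ≤ r1) &&
  (decide (X0 ≤ (1 + 2 * r1) * k0) || decide (X0 ≤ k0 + 2))

theorem okR_sound {k0 r1 X0 : ℚ} {D : SD} (h : okR k0 r1 X0 D = true) {n k : ℕ} (hk1 : 0 < k)
    (hk : (k0:ℝ) ≤ k) (hr : (r1:ℝ) * k ≤ n) :
    (D.re:ℝ) * k ≤ n ∧ (Odd n → (D.re:ℝ) * k ≤ (n - 1 : ℕ)) ∧ (D.ro:ℝ) * k ≤ n ∧ (1:ℝ) ≤ X0 ∧
    (Odd n → (X0:ℝ) ≤ 2 * n + k) := by
  unfold okR at h
  simp only [Bool.and_eq_true, decide_eq_true_eq, Bool.or_eq_true] at h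
  obtain ⟨⟨⟨⟨⟨⟨hk0, hX⟩, hre⟩, hr1⟩, hre1⟩, hro⟩, hX0⟩ := h
  have hkpos : (0:ℝ) < k := by exact_mod_cast hk1
  have hk0' : (1:ℝ) ≤ k0 := by exact_mod_cast hk0
  have hX' : (1:ℝ) ≤ X0 := by exact_mod_cast hX
  have hre' : (0:ℝ) ≤ D.re := by exact_mod_cast hre
  have hr1' : (0:ℝ) ≤ r1 := by exact_mod_cast hr1
  have hro' : (D.ro:ℝ) ≤ r1 := by exact_mod_cast hro
  have hn0 : (0:ℝ) ≤ n := Nat.cast_nonneg n
  have key : Odd n → (D.re:ℝ) * k ≤ (n - 1 : ℕ) := by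
    intro ho
    have h1n : 1 ≤ n := ho.pos
    have e : (((n - 1 : ℕ)) : ℝ) = n - 1 := by rw [Nat.cast_sub h1n]; norm_num
    rw [e]
    rcases hre1 with h0 | h0
    · rw [h0]
      have : (1:ℝ) ≤ n := by exact_mod_cast h1n
      push_cast
      linarith
    · have h0' : (D.re:ℝ) ≤ r1 - 1 / k0 := by
        have := (Rat.cast_le (K := ℝ)).2 h0
        push_cast at this; exact this
      have h2 : (D.re:ℝ) * k ≤ (r1 - 1 / k0) * k := mul_le_mul_of_nonneg_right h0' hkpos.le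
      have h3 : 1 ≤ 1 / (k0:ℝ) * k := by
        rw [one_div, ← div_eq_inv_mul, le_div_iff₀ (by linarith)]; linarith
      nlinarith
  refine ⟨?_, key, ?_, hX', ?_⟩
  · rcases hre1 with h0 | h0
    · rw [h0]; push_cast; linarith
    · have h0' : (D.re:ℝ) ≤ r1 := by
        have h1 : D.re ≤ r1 := by
          have : 0 ≤ 1 / k0 := by positivity
          linarith
        exact_mod_cast h1
      exact (mul_le_mul_of_nonneg_right h0' hkpos.le).trans hr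
  · exact (mul_le_mul_of_nonneg_right hro' hkpos.le).trans hr
  · intro ho
    rcases hX0 with h0 | h0
    · have h0' : (X0:ℝ) ≤ (1 + 2 * r1) * k0 := by
        have := (Rat.cast_le (K := ℝ)).2 h0
        push_cast at this; exact this
      nlinarith
    · have h0' : (X0:ℝ) ≤ k0 + 2 := by
        have := (Rat.cast_le (K := ℝ)).2 h0
        push_cast at this; exact this
      have : (1:ℝ) ≤ n := by exact_mod_cast ho.pos
      linarith

/-- End `t1 = c/k`. -/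
def okEc (k0 r1 r2 X0 κ c : ℚ) (D : SD) : Bool :=
  okR k0 r1 X0 D && okLc D.L c && decide (0 ≤ κ) && decide (D.ye * X0 ≤ κ * c * (X0 - 1)) &&
  decide (0 ≤ D.ye) && decide (D.ye ≤ κ * c) && decide (D.yo ≤ κ * c)

theorem okEc_sound {k0 r1 r2 X0 κ c : ℚ} {D : SD} (h : okEc k0 r1 r2 X0 κ c D = true)
    {n k a : ℕ} (hk1 : 0 < k) (hk : (k0:ℝ) ≤ k) (hr : (r1:ℝ) * k ≤ n) (hr2 : (n:ℝ) ≤ r2 * k)
    (hκ : (κ:ℝ) * k ≤ a * (n + k / 2)) : EndOK n k a r2 D (c / k) := by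
  unfold okEc at h
  simp only [Bool.and_eq_true, decide_eq_true_eq] at h
  obtain ⟨⟨⟨⟨⟨⟨hR, hL⟩, hκ0⟩, h1⟩, hye⟩, h2⟩, h3⟩ := h
  obtain ⟨g1, g2, g3, g4, g5⟩ := okR_sound hR hk1 hk hr
  have hkpos : (0:ℝ) < k := by exact_mod_cast hk1
  have hc : (0:ℝ) < c := by exact_mod_cast okLc_pos hL
  have hκ0' : (0:ℝ) ≤ κ := by exact_mod_cast hκ0
  have hn0 : (0:ℝ) ≤ n := Nat.cast_nonneg n
  have ha0 : (0:ℝ) ≤ a := Nat.cast_nonneg a
  have hK : (κ:ℝ) ≤ (a * (n + k / 2)) / k := by rw [le_div_iff₀ hkpos]; exact hκ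
  have h2' : (D.ye:ℝ) ≤ κ * c := by exact_mod_cast h2
  have h3' : (D.yo:ℝ) ≤ κ * c := by exact_mod_cast h3
  have hbig : (κ:ℝ) * c ≤ a * (c / k) * (2 * n + k + 1) / 2 := by
    have e : (a:ℝ) * (c / k) * (2 * n + k + 1) / 2 = (a * (n + k / 2)) / k * c + a * (c / k) / 2 := by
      ring
    rw [e]
    have : 0 ≤ (a:ℝ) * (c / k) / 2 := by positivity
    nlinarith
  refine ⟨g1, g2, g3, h2'.trans hbig, ?_, h3'.trans hbig, ?_⟩
  · intro ho
    have h1n : 1 ≤ n := ho.pos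
    have e : (((n - 1 : ℕ)) : ℝ) = n - 1 := by rw [Nat.cast_sub h1n]; norm_num
    rw [e]
    have h1' : (D.ye:ℝ) * X0 ≤ κ * c * (X0 - 1) := by
      have := (Rat.cast_le (K := ℝ)).2 h1
      push_cast at this; exact this
    have h4 := frac_mono' (by positivity) g4 (g5 ho) h1'
    refine h4.trans ?_
    have hX : (0:ℝ) < 2 * n + k := by linarith
    have e2 : (a:ℝ) * (c / k) * (2 * (n - 1) + k + 1) / 2 =
        (a * (n + k / 2)) / k * c * ((2 * n + k - 1) / (2 * n + k)) := by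
      field_simp; ring
    rw [e2]
    have h5 : 0 ≤ (2 * (n:ℝ) + k - 1) / (2 * n + k) := by
      apply div_nonneg _ hX.le
      have : (1:ℝ) ≤ n := by exact_mod_cast h1n
      linarith
    exact mul_le_mul_of_nonneg_right (mul_le_mul_of_nonneg_right hK hc.le) h5
  · rw [log_c hk1 hc]
    have := okLc_sound hL
    have hx : 0 ≤ (r2:ℝ) - n / k := by
      rw [sub_nonneg, div_le_iff₀ hkpos]; exact hr2
    linarith

/-- End `t1 = c0/(a (n + (k+1)/2))`; `m = false`: `L ≤ log (κ/c0)`; `m = true`: `κ = th` and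
`L ≤ log (th (r2 + 1/2)/((1 + r2) c0))`. -/
def okET (m : Bool) (k0 r1 r2 X0 κ c0 N : ℚ) (D : SD) : Bool :=
  okR k0 r1 X0 D && decide (0 < c0) && decide (0 < κ) && decide (0 ≤ r2) &&
  (if m then lgL 8 D.L (κ * ((r2 + 1 / 2) / (1 + r2)) / c0) else lgL 8 D.L (κ / c0)) &&
  decide (D.ye * (X0 + 1) ≤ c0 * (X0 - 1)) && decide (D.ye ≤ c0) && decide (D.yo ≤ c0) &&
  decide (0 ≤ N) && decide (N * (r2 + 1 / 2 + 1 / (2 * k0)) ≤ c0 * (1 + r2))

theorem kap_joint {ρ r : ℝ} (h0 : 0 ≤ ρ) (h : ρ ≤ r) :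
    (r + 1 / 2) / (1 + r) ≤ (ρ + 1 / 2) / (1 + ρ) * (1 + (r - ρ)) := by
  rw [div_mul_eq_mul_div, div_le_div_iff₀ (by linarith) (by linarith)]
  nlinarith [mul_nonneg h0 (sub_nonneg.2 h), mul_nonneg (h0.trans h) (sub_nonneg.2 h),
    mul_nonneg (mul_nonneg h0 (h0.trans h)) (sub_nonneg.2 h)]

theorem okET_sound {m : Bool} {k0 r1 r2 X0 κ c0 N : ℚ} {D : SD}
    (h : okET m k0 r1 r2 X0 κ c0 N D = true) {n k a : ℕ} (ha : 0 < a) (hk1 : 0 < k)
    (hk : (k0:ℝ) ≤ k) (hr : (r1:ℝ) * k ≤ n) (hr2 : (n:ℝ) ≤ r2 * k)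
    (hκ : if m then (κ:ℝ) * k ≤ a * (n + k) else (κ:ℝ) * k ≤ a * (n + k / 2)) :
    0 < (c0:ℝ) / (a * ((n:ℝ) + (k + 1) / 2)) ∧
    EndOK n k a r2 D (c0 / (a * ((n:ℝ) + (k + 1) / 2))) ∧
    (N:ℝ) ≤ ((n:ℝ) + k) * (a * (c0 / (a * ((n:ℝ) + (k + 1) / 2)))) := by
  unfold okET at h
  simp only [Bool.and_eq_true, decide_eq_true_eq] at h
  obtain ⟨⟨⟨⟨⟨⟨⟨⟨⟨hR, hc0⟩, hκ0⟩, hr20⟩, hL⟩, h1⟩, h2⟩, h3⟩, hN0⟩, hN⟩ := h
  obtain ⟨g1, g2, g3, g4, g5⟩ := okR_sound hR hk1 hk hr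
  have hk0 : (1:ℝ) ≤ k0 := by
    unfold okR at hR
    simp only [Bool.and_eq_true, decide_eq_true_eq] at hR
    exact_mod_cast hR.1.1.1.1.1.1
  have hkpos : (0:ℝ) < k := by exact_mod_cast hk1
  have hapos : (0:ℝ) < a := by exact_mod_cast ha
  have hc : (0:ℝ) < c0 := by exact_mod_cast hc0
  have hκ0' : (0:ℝ) < κ := by exact_mod_cast hκ0
  have hr20' : (0:ℝ) ≤ r2 := by exact_mod_cast hr20
  have hN0' : (0:ℝ) ≤ N := by exact_mod_cast hN0
  have hn0 : (0:ℝ) ≤ n := Nat.cast_nonneg n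
  have h2' : (D.ye:ℝ) ≤ c0 := by exact_mod_cast h2
  have h3' : (D.yo:ℝ) ≤ c0 := by exact_mod_cast h3
  have hnb : (0:ℝ) < (n:ℝ) + (k + 1) / 2 := by positivity
  have e0 : (a:ℝ) * (c0 / (a * ((n:ℝ) + (k + 1) / 2))) = c0 / ((n:ℝ) + (k + 1) / 2) := by
    field_simp
  have hx : 0 ≤ (r2:ℝ) - n / k := by
    rw [sub_nonneg, div_le_iff₀ hkpos]; exact hr2
  have e1 : (c0:ℝ) / ((n:ℝ) + (k + 1) / 2) * (2 * n + k + 1) / 2 = c0 := by
    field_simp; ring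
  refine ⟨by positivity, ⟨g1, g2, g3, ?_, ?_, ?_, ?_⟩, ?_⟩
  · rw [e0, e1]; exact h2'
  · intro ho
    have h1n : 1 ≤ n := ho.pos
    have e : (((n - 1 : ℕ)) : ℝ) = n - 1 := by rw [Nat.cast_sub h1n]; norm_num
    rw [e, e0]
    have h1' : (D.ye:ℝ) * (X0 + 1) ≤ c0 * (X0 - 1) := by
      have := (Rat.cast_le (K := ℝ)).2 h1
      push_cast at this; exact this
    refine (frac_mono hc.le g4 (g5 ho) h1').trans (le_of_eq ?_)
    have : (2 * (n:ℝ) + k + 1) ≠ 0 := by positivity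
    field_simp
    ring
  · rw [e0, e1]; exact h3'
  · cases m
    · simp only [Bool.false_eq_true, if_false] at hκ hL
      have h4 := lgL_sound hL
      push_cast at h4
      have h5 := log_T0 (n := n) ha hk1 hc hκ0' hκ
      linarith
    · simp only [if_true] at hκ hL
      have h4 := lgL_sound hL
      push_cast at h4
      obtain ⟨ρ, hρ⟩ : ∃ ρ : ℝ, ρ = n / k := ⟨_, rfl⟩
      have hρ0 : 0 ≤ ρ := by rw [hρ]; positivity
      have hρr : ρ ≤ r2 := by rw [hρ, div_le_iff₀ hkpos]; exact hr2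
      have hρn : ρ * k = n := by rw [hρ]; field_simp
      have h5 := kap_th hk1 hκ0'.le hρ0 hκ hρn.le
      have hpos : 0 < (κ:ℝ) * ((ρ + 1 / 2) / (1 + ρ)) := by positivity
      have h6 := log_T0 (n := n) ha hk1 hc hpos h5
      have h7 := kap_joint hρ0 hρr
      have h8 : log ((κ:ℝ) * ((r2 + 1 / 2) / (1 + r2)) / c0) ≤
          log (κ * ((ρ + 1 / 2) / (1 + ρ)) / c0) + (r2 - ρ) := by
        have hxx : 0 < 1 + ((r2:ℝ) - ρ) := by linarith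
        have h9 : (κ:ℝ) * ((r2 + 1 / 2) / (1 + r2)) / c0 ≤
            κ * ((ρ + 1 / 2) / (1 + ρ)) / c0 * (1 + (r2 - ρ)) := by
          rw [div_mul_eq_mul_div]
          apply div_le_div_of_nonneg_right _ hc.le
          rw [mul_assoc]
          exact mul_le_mul_of_nonneg_left h7 hκ0'.le
        have h10 := log_le_log (by positivity) h9
        rw [log_mul (by positivity) hxx.ne'] at h10
        have h11 : log (1 + ((r2:ℝ) - ρ)) ≤ r2 - ρ := by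
          have := log_le_sub_one_of_pos hxx
          linarith
        linarith
      rw [← hρ]
      linarith
  · rw [e0]
    have hN' : (N:ℝ) * (r2 + 1 / 2 + 1 / (2 * k0)) ≤ c0 * (1 + r2) := by
      have := (Rat.cast_le (K := ℝ)).2 hN
      push_cast at this; exact this
    rw [mul_div_assoc', le_div_iff₀ hnb]
    -- N (n + (k+1)/2) ≤ (n+k) c0
    have hk0p : (0:ℝ) < k0 := by linarith
    have h4 : (N:ℝ) * ((r2 + 1 / 2) * k + 1 / 2) ≤ c0 * ((1 + r2) * k) := by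
      have h5 : (N:ℝ) * ((r2 + 1 / 2) * k + 1 / 2) ≤ (N * (r2 + 1 / 2 + 1 / (2 * k0))) * k := by
        have h6 : (1:ℝ) / 2 ≤ 1 / (2 * k0) * k := by
          rw [div_mul_eq_mul_div, one_mul, div_le_div_iff₀ (by norm_num) (by positivity)]
          linarith
        have : (r2 + 1 / 2) * (k:ℝ) + 1 / 2 ≤ (r2 + 1 / 2 + 1 / (2 * k0)) * k := by linarith
        calc (N:ℝ) * ((r2 + 1 / 2) * k + 1 / 2) ≤ N * ((r2 + 1 / 2 + 1 / (2 * k0)) * k) :=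
              mul_le_mul_of_nonneg_left this hN0'
          _ = _ := by ring
      have h7 := mul_le_mul_of_nonneg_right hN' hkpos.le
      linarith
    have hk1' : (1:ℝ) ≤ k := by exact_mod_cast hk1
    rcases le_total (N:ℝ) c0 with hNc | hNc
    · calc (N:ℝ) * ((n:ℝ) + (k + 1) / 2) ≤ c0 * ((n:ℝ) + (k + 1) / 2) :=
            mul_le_mul_of_nonneg_right hNc hnb.le
        _ ≤ c0 * (n + k) := mul_le_mul_of_nonneg_left (by linarith) hc.le
        _ = (n + k) * c0 := by ring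
    · have hδ : 0 ≤ r2 * (k:ℝ) - n := by linarith
      have := mul_le_mul_of_nonneg_right hNc hδ
      nlinarith

end Pool.Agent.SignedQ.Far1
end
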