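import Pool.Agent.Lib.MP_cf17a0_co.Mg.G025

section

/-! # FAR-1: the cells (generated data) -/

namespace Pool.Agent.SignedQ.Far1

open Real Pool.Agent.SignedQ.An Pool.Agent.SignedQ.Far

theorem R1A_1 {n k a : ℕ} {t θ : ℝ} (hg : Good n k a t θ) (hk : (26 : ℝ) ≤ k) (hr : (1 / 2 : ℝ) * k ≤ n)
    (hκ : (62 / 3 : ℝ) * k ≤ a * (n + k / 2)) (hT : (4 / 5 : ℝ) ≤ a * t * (n + (k + 1) / 2))
    (hc : k * t ≤ 1 / 10) :
    sigma n k a t * rho n k a t θ ≤ 0.016 :=
  cellST_T UV_tenth (by norm_num) (q := false) (k0 := 26) (lk := 3258097 / 1000000) (r := 1 / 2) (κ := 62 / 3)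
    (c0 := 4 / 5) (c2 := 1 / 10) (z1 := 7849 / 20000) (g1 := 4143 / 4000) (z2 := 103333 / 100000) (g2 := 15291 / 50000)
    (L1 := 650333 / 200000) (L2 := 460517 / 200000) (d1 := (2, 1628493 / 1000000, 3080941 / 10000000))
    (d2 := (1, 35582011 / 100000000, 900993 / 20000000)) (by decide +kernel) hg (by linarith) (by push_cast; linarith)
    (by push_cast; linarith) (by push_cast; linarith) (by push_cast; linarith) (by push_cast; linarith)

theorem R1B_1 {n k a : ℕ} {t θ : ℝ} (hg : Good n k a t θ) (hk : (26 : ℝ) ≤ k) (hr : (3 / 20 : ℝ) * k ≤ n)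
    (hκ : (403 / 23 : ℝ) * k ≤ a * (n + k / 2)) (hT : (1 : ℝ) ≤ a * t * (n + (k + 1) / 2))
    (hc : k * t ≤ 1 / 10) :
    sigma n k a t * rho n k a t θ ≤ 0.016 :=
  cellST_T UV_tenth (by norm_num) (q := false) (k0 := 26) (lk := 3258097 / 1000000) (r := 3 / 20) (κ := 403 / 23)
    (c0 := 1) (c2 := 1 / 10) (z1 := 48563 / 100000) (g1 := 46603 / 50000) (z2 := 10951 / 12500) (g2 := 12303 / 25000)
    (L1 := 1431721 / 500000) (L2 := 460517 / 200000) (d1 := (2, 437729 / 200000, 17935591 / 100000000))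
    (d2 := (2, 799317 / 500000, 4505031 / 100000000)) (by decide +kernel) hg (by linarith) (by push_cast; linarith)
    (by push_cast; linarith) (by push_cast; linarith) (by push_cast; linarith) (by push_cast; linarith)

def R1C0_1_D1 : SD := ⟨0, 60517 / 100000, 94583 / 100000, (0, 0, 8886117 / 100000000), 0, 13 / 20, 2787 / 3125,
    (0, 0, 7427357 / 100000000), 1609071 / 500000, 27, 3295837 / 1000000⟩

def R1C0_1_D2 : SD := ⟨0, 18683 / 12500, 41187 / 100000, (0, 0, 253247 / 100000000), 0, 154999 / 100000, 9933 / 25000,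
    (0, 0, 202951 / 100000000), 460517 / 200000, 27, 3295837 / 1000000⟩

theorem R1C0_1 {n k a : ℕ} {t θ : ℝ} (hg : Good n k a t θ) (hk : (26 : ℝ) ≤ k) (hr : (0 : ℝ) * k ≤ n)
    (hr2 : (n : ℝ) ≤ 1 / 20 * k) (hth : (31 : ℝ) * k ≤ a * (n + k))
    (hT : (13 / 20 : ℝ) ≤ a * t * (n + (k + 1) / 2)) (hc : k * t ≤ 1 / 10) :
    sigma n k a t * rho n k a t θ ≤ 0.016 := by
  have ha : 0 < a := hg.1.2.1.pos
  have hk1 : 0 < k := by have := hg.2.1.1; omega
  have hkn : 26 ≤ k := by exact_mod_cast hk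
  have hko : Odd k → ((R1C0_1_D1).ko:ℝ) ≤ k ∧ ((R1C0_1_D2).ko:ℝ) ≤ k := by
    rintro ⟨m, hm⟩
    have h : (27:ℝ) ≤ k := by exact_mod_cast (by omega : 27 ≤ k)
    simp only [R1C0_1_D1, R1C0_1_D2]
    push_cast
    exact ⟨h, h⟩
  have hκ : (31 / 2 : ℝ) * k ≤ a * (n + k / 2) := by
    have h := kap_th (n := n) (k := k) (a := a) (th := 31) (r := 0) hk1 (by norm_num) (by norm_num) hth hr
    refine le_of_eq_of_le ?_ h
    norm_num
  have h1 := okET_sound (m := true) (k0 := 26) (r1 := 0) (r2 := 1 / 20) (X0 := 28) (κ := 31)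
    (c0 := 13 / 20) (N := 59949 / 50000) (D := R1C0_1_D1) (by decide +kernel) (n := n) ha hk1
    (by push_cast; linarith) (by push_cast; linarith) (by push_cast; linarith)
    (by simp only [if_true]; push_cast; linarith)
  have h2 := okEc_sound (k0 := 26) (r1 := 0) (r2 := 1 / 20) (X0 := 28) (κ := 31 / 2)
    (c := 1 / 10) (D := R1C0_1_D2) (by decide +kernel) (n := n) (a := a) hk1
    (by push_cast; linarith) (by push_cast; linarith) (by push_cast; linarith)
    (by push_cast; linarith)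
  obtain ⟨h10, h11, h12⟩ := h1
  refine cellSA UV_tenth (by norm_num) (q := false) (k0 := 26) (lk := 3258097 / 1000000) (r2 := 1 / 20) (N := 59949 / 50000) (Ch := 180911 / 100000)
    (D1 := R1C0_1_D1) (D2 := R1C0_1_D2) (by decide +kernel) hg (by linarith) (by push_cast; linarith) hko
    (by push_cast; linarith) h10 (T0_le ha (by push_cast; linarith)) (t_le hk1 ?_) h12 h11 h2
  push_cast; linarith

def R1C1_1_D1 : SD := ⟨3 / 260, 1894 / 3125, 90333 / 100000, (2, 13414 / 3125, 9099251 / 100000000), 1 / 20, 13 / 20, 78169 / 100000,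
    (2, 1414339 / 500000, 835911 / 10000000), 1629317 / 500000, 27, 3295837 / 1000000⟩

def R1C1_1_D2 : SD := ⟨3 / 260, 156703 / 100000, 8799 / 25000, (2, 1671277 / 500000, 40693 / 20000000), 1 / 20, 8119 / 5000, 27153 / 100000,
    (2, 956563 / 500000, 4059 / 2000000), 460517 / 200000, 27, 3295837 / 1000000⟩

theorem R1C1_1 {n k a : ℕ} {t θ : ℝ} (hg : Good n k a t θ) (hk : (26 : ℝ) ≤ k) (hr : (1 / 20 : ℝ) * k ≤ n)
    (hr2 : (n : ℝ) ≤ 1 / 10 * k) (hth : (31 : ℝ) * k ≤ a * (n + k))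
    (hT : (13 / 20 : ℝ) ≤ a * t * (n + (k + 1) / 2)) (hc : k * t ≤ 1 / 10) :
    sigma n k a t * rho n k a t θ ≤ 0.016 := by
  have ha : 0 < a := hg.1.2.1.pos
  have hk1 : 0 < k := by have := hg.2.1.1; omega
  have hkn : 26 ≤ k := by exact_mod_cast hk
  have hko : Odd k → ((R1C1_1_D1).ko:ℝ) ≤ k ∧ ((R1C1_1_D2).ko:ℝ) ≤ k := by
    rintro ⟨m, hm⟩
    have h : (27:ℝ) ≤ k := by exact_mod_cast (by omega : 27 ≤ k)
    simp only [R1C1_1_D1, R1C1_1_D2]
    push_cast
    exact ⟨h, h⟩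
  have hκ : (341 / 21 : ℝ) * k ≤ a * (n + k / 2) := by
    have h := kap_th (n := n) (k := k) (a := a) (th := 31) (r := 1 / 20) hk1 (by norm_num) (by norm_num) hth hr
    refine le_of_eq_of_le ?_ h
    norm_num
  have h1 := okET_sound (m := true) (k0 := 26) (r1 := 1 / 20) (r2 := 1 / 10) (X0 := 143 / 5) (κ := 31)
    (c0 := 13 / 20) (N := 23093 / 20000) (D := R1C1_1_D1) (by decide +kernel) (n := n) ha hk1
    (by push_cast; linarith) (by push_cast; linarith) (by push_cast; linarith)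
    (by simp only [if_true]; push_cast; linarith)
  have h2 := okEc_sound (k0 := 26) (r1 := 1 / 20) (r2 := 1 / 10) (X0 := 143 / 5) (κ := 341 / 21)
    (c := 1 / 10) (D := R1C1_1_D2) (by decide +kernel) (n := n) (a := a) hk1
    (by push_cast; linarith) (by push_cast; linarith) (by push_cast; linarith)
    (by push_cast; linarith)
  obtain ⟨h10, h11, h12⟩ := h1
  refine cellSA UV_tenth (by norm_num) (q := false) (k0 := 26) (lk := 3258097 / 1000000) (r2 := 1 / 10) (N := 23093 / 20000) (Ch := 43601 / 25000)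
    (D1 := R1C1_1_D1) (D2 := R1C1_1_D2) (by decide +kernel) hg (by linarith) (by push_cast; linarith) hko
    (by push_cast; linarith) h10 (T0_le ha (by push_cast; linarith)) (t_le hk1 ?_) h12 h11 h2
  push_cast; linarith

def R1C2_1_D1 : SD := ⟨4 / 65, 30481 / 50000, 16327 / 20000, (2, 2705937 / 1000000, 997723 / 10000000), 1 / 10, 13 / 20, 73133 / 100000,
    (2, 1111271 / 500000, 4612129 / 50000000), 131769 / 40000, 27, 3295837 / 1000000⟩

def R1C2_1_D2 : SD := ⟨4 / 65, 163671 / 100000, 25529 / 100000, (2, 1718329 / 1000000, 20537 / 10000000), 1 / 10, 16909 / 10000, 21041 / 100000,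
    (2, 633249 / 500000, 202949 / 100000000), 460517 / 200000, 27, 3295837 / 1000000⟩

theorem R1C2_1 {n k a : ℕ} {t θ : ℝ} (hg : Good n k a t θ) (hk : (26 : ℝ) ≤ k) (hr : (1 / 10 : ℝ) * k ≤ n)
    (hr2 : (n : ℝ) ≤ 3 / 20 * k) (hth : (31 : ℝ) * k ≤ a * (n + k))
    (hT : (13 / 20 : ℝ) ≤ a * t * (n + (k + 1) / 2)) (hc : k * t ≤ 1 / 10) :
    sigma n k a t * rho n k a t θ ≤ 0.016 := by
  have ha : 0 < a := hg.1.2.1.pos
  have hk1 : 0 < k := by have := hg.2.1.1; omega
  have hkn : 26 ≤ k := by exact_mod_cast hk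
  have hko : Odd k → ((R1C2_1_D1).ko:ℝ) ≤ k ∧ ((R1C2_1_D2).ko:ℝ) ≤ k := by
    rintro ⟨m, hm⟩
    have h : (27:ℝ) ≤ k := by exact_mod_cast (by omega : 27 ≤ k)
    simp only [R1C2_1_D1, R1C2_1_D2]
    push_cast
    exact ⟨h, h⟩
  have hκ : (186 / 11 : ℝ) * k ≤ a * (n + k / 2) := by
    have h := kap_th (n := n) (k := k) (a := a) (th := 31) (r := 1 / 10) hk1 (by norm_num) (by norm_num) hth hr
    refine le_of_eq_of_le ?_ h
    norm_num
  have h1 := okET_sound (m := true) (k0 := 26) (r1 := 1 / 10) (r2 := 3 / 20) (X0 := 156 / 5) (κ := 31)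
    (c0 := 13 / 20) (N := 22339 / 20000) (D := R1C2_1_D1) (by decide +kernel) (n := n) ha hk1
    (by push_cast; linarith) (by push_cast; linarith) (by push_cast; linarith)
    (by simp only [if_true]; push_cast; linarith)
  have h2 := okEc_sound (k0 := 26) (r1 := 1 / 10) (r2 := 3 / 20) (X0 := 156 / 5) (κ := 186 / 11)
    (c := 1 / 10) (D := R1C2_1_D2) (by decide +kernel) (n := n) (a := a) hk1
    (by push_cast; linarith) (by push_cast; linarith) (by push_cast; linarith)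
    (by push_cast; linarith)
  obtain ⟨h10, h11, h12⟩ := h1
  refine cellSA UV_tenth (by norm_num) (q := false) (k0 := 26) (lk := 3258097 / 1000000) (r2 := 3 / 20) (N := 22339 / 20000) (Ch := 169139 / 100000)
    (D1 := R1C2_1_D1) (D2 := R1C2_1_D2) (by decide +kernel) hg (by linarith) (by push_cast; linarith) hko
    (by push_cast; linarith) h10 (T0_le ha (by push_cast; linarith)) (t_le hk1 ?_) h12 h11 h2
  push_cast; linarith

theorem R1A_2 {n k a : ℕ} {t θ : ℝ} (hg : Good n k a t θ) (hk : (26 : ℝ) ≤ k) (hr : (1 / 2 : ℝ) * k ≤ n)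
    (hκ : (62 / 3 : ℝ) * k ≤ a * (n + k / 2)) (hT : (1 / 10 : ℝ) ≤ k * t)
    (hc : k * t ≤ 2103 / 10000) :
    sigma n k a t * rho n k a t θ ≤ 0.016 :=
  cellST_c UV_third (by norm_num) (q := false) (k0 := 26) (lk := 3258097 / 1000000) (r := 1 / 2) (κ := 62 / 3)
    (c1 := 1 / 10) (c2 := 2103 / 10000) (z1 := 103333 / 100000) (g1 := 15291 / 50000) (z2 := 217309 / 100000) (g2 := 2589 / 50000)
    (L1 := 460517 / 200000) (L2 := 77961 / 50000) (d1 := (1, 35582011 / 100000000, 900993 / 20000000))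
    (d2 := (1, 1422817 / 12500000, 73737 / 50000000)) (by decide +kernel) hg (by linarith) (by push_cast; linarith)
    (by push_cast; linarith) (by push_cast; linarith) (by push_cast; linarith) (by push_cast; linarith)

theorem R1B_2 {n k a : ℕ} {t θ : ℝ} (hg : Good n k a t θ) (hk : (26 : ℝ) ≤ k) (hr : (3 / 20 : ℝ) * k ≤ n)
    (hκ : (403 / 23 : ℝ) * k ≤ a * (n + k / 2)) (hT : (1 / 10 : ℝ) ≤ k * t)
    (hc : k * t ≤ 2103 / 10000) :
    sigma n k a t * rho n k a t θ ≤ 0.016 :=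
  cellST_c UV_third (by norm_num) (q := false) (k0 := 26) (lk := 3258097 / 1000000) (r := 3 / 20) (κ := 403 / 23)
    (c1 := 1 / 10) (c2 := 2103 / 10000) (z1 := 10951 / 12500) (g1 := 12303 / 25000) (z2 := 184241 / 100000) (g2 := 15351 / 100000)
    (L1 := 460517 / 200000) (L2 := 77961 / 50000) (d1 := (2, 799317 / 500000, 4505031 / 100000000))
    (d2 := (1, 42726833 / 100000000, 14747 / 10000000)) (by decide +kernel) hg (by linarith) (by push_cast; linarith)
    (by push_cast; linarith) (by push_cast; linarith) (by push_cast; linarith) (by push_cast; linarith)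

theorem R1C_2 {n k a : ℕ} {t θ : ℝ} (hg : Good n k a t θ) (hk : (26 : ℝ) ≤ k) (ha : (27 : ℝ) ≤ a)
    (hN : (30999 / 10000 : ℝ) * k ≤ a * (n + k) * (1 / 10)) (hT : (1 / 10 : ℝ) ≤ k * t)
    (hc : k * t ≤ 2103 / 10000) :
    sigma n k a t * rho n k a t θ ≤ 0.016 :=
  cellN5 UV_third (by norm_num) (q := false) (k0 := 26) (lk := 3258097 / 1000000) (c1 := 1 / 10) (c2 := 2103 / 10000)
    (am := 27) (N := 30999 / 10000) (E := 22527 / 500000) (L1 := 460517 / 200000) (L2 := 77961 / 50000) (by decide +kernel) hg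
    (by linarith) (by push_cast; linarith) (by push_cast; linarith) (by push_cast; linarith)
    (by push_cast; linarith) (by push_cast; linarith)

theorem R2A_1 {n k a : ℕ} {t θ : ℝ} (hg : Good n k a t θ) (hk : (30 : ℝ) ≤ k) (hr : (1 / 2 : ℝ) * k ≤ n)
    (hκ : (40 / 3 : ℝ) * k ≤ a * (n + k / 2)) (hT : (4 / 5 : ℝ) ≤ a * t * (n + (k + 1) / 2))
    (hc : k * t ≤ 1 / 10) :
    sigma n k a t * rho n k a t θ ≤ 0.016 :=
  cellST_T UV_tenth (by norm_num) (q := false) (k0 := 30) (lk := 1700599 / 500000) (r := 1 / 2) (κ := 40 / 3)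
    (c0 := 4 / 5) (c2 := 1 / 10) (z1 := 2459 / 6250) (g1 := 2067 / 2000) (z2 := 33333 / 50000) (g2 := 11957 / 20000)
    (L1 := 281341 / 100000) (L2 := 460517 / 200000) (d1 := (2, 1625973 / 1000000, 15359021 / 50000000))
    (d2 := (2, 549311 / 500000, 6766899 / 50000000)) (by decide +kernel) hg (by linarith) (by push_cast; linarith)
    (by push_cast; linarith) (by push_cast; linarith) (by push_cast; linarith) (by push_cast; linarith)

theorem R2B_1 {n k a : ℕ} {t θ : ℝ} (hg : Good n k a t θ) (hk : (30 : ℝ) ≤ k) (hr : (3 / 20 : ℝ) * k ≤ n)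
    (hκ : (260 / 23 : ℝ) * k ≤ a * (n + k / 2)) (hT : (1 : ℝ) ≤ a * t * (n + (k + 1) / 2))
    (hc : k * t ≤ 1 / 10) :
    sigma n k a t * rho n k a t θ ≤ 0.016 :=
  cellST_T UV_tenth (by norm_num) (q := false) (k0 := 30) (lk := 1700599 / 500000) (r := 3 / 20) (κ := 260 / 23)
    (c0 := 1) (c2 := 1 / 10) (z1 := 48749 / 100000) (g1 := 23221 / 25000) (z2 := 56521 / 100000) (g2 := 8073 / 10000)
    (L1 := 2425187 / 1000000) (L2 := 460517 / 200000) (d1 := (2, 1092411 / 500000, 3563587 / 20000000))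
    (d2 := (2, 407379 / 200000, 6766941 / 50000000)) (by decide +kernel) hg (by linarith) (by push_cast; linarith)
    (by push_cast; linarith) (by push_cast; linarith) (by push_cast; linarith) (by push_cast; linarith)

end Pool.Agent.SignedQ.Far1
end

section

/-! # FAR-1: the cells (generated data) -/

namespace Pool.Agent.SignedQ.Far1

open Real Pool.Agent.SignedQ.An Pool.Agent.SignedQ.Far

def R2C0_1_D1 : SD := ⟨0, 3053 / 5000, 93899 / 100000, (0, 0, 8695191 / 100000000), 0, 13 / 20, 2787 / 3125,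
    (0, 0, 7427357 / 100000000), 173743 / 62500, 31, 858497 / 250000⟩

def R2C0_1_D2 : SD := ⟨0, 48437 / 50000, 12521 / 20000, (0, 0, 518879 / 25000000), 0, 99999 / 100000, 60771 / 100000,
    (0, 0, 1831637 / 100000000), 460517 / 200000, 31, 858497 / 250000⟩

theorem R2C0_1 {n k a : ℕ} {t θ : ℝ} (hg : Good n k a t θ) (hk : (30 : ℝ) ≤ k) (hr : (0 : ℝ) * k ≤ n)
    (hr2 : (n : ℝ) ≤ 1 / 20 * k) (hth : (20 : ℝ) * k ≤ a * (n + k))
    (hT : (13 / 20 : ℝ) ≤ a * t * (n + (k + 1) / 2)) (hc : k * t ≤ 1 / 10) :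
    sigma n k a t * rho n k a t θ ≤ 0.016 := by
  have ha : 0 < a := hg.1.2.1.pos
  have hk1 : 0 < k := by have := hg.2.1.1; omega
  have hkn : 30 ≤ k := by exact_mod_cast hk
  have hko : Odd k → ((R2C0_1_D1).ko:ℝ) ≤ k ∧ ((R2C0_1_D2).ko:ℝ) ≤ k := by
    rintro ⟨m, hm⟩
    have h : (31:ℝ) ≤ k := by exact_mod_cast (by omega : 31 ≤ k)
    simp only [R2C0_1_D1, R2C0_1_D2]
    push_cast
    exact ⟨h, h⟩
  have hκ : (10 : ℝ) * k ≤ a * (n + k / 2) := by
    have h := kap_th (n := n) (k := k) (a := a) (th := 20) (r := 0) hk1 (by norm_num) (by norm_num) hth hr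
    refine le_of_eq_of_le ?_ h
    norm_num
  have h1 := okET_sound (m := true) (k0 := 30) (r1 := 0) (r2 := 1 / 20) (X0 := 32) (κ := 20)
    (c0 := 13 / 20) (N := 120441 / 100000) (D := R2C0_1_D1) (by decide +kernel) (n := n) ha hk1
    (by push_cast; linarith) (by push_cast; linarith) (by push_cast; linarith)
    (by simp only [if_true]; push_cast; linarith)
  have h2 := okEc_sound (k0 := 30) (r1 := 0) (r2 := 1 / 20) (X0 := 32) (κ := 10)
    (c := 1 / 10) (D := R2C0_1_D2) (by decide +kernel) (n := n) (a := a) hk1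
    (by push_cast; linarith) (by push_cast; linarith) (by push_cast; linarith)
    (by push_cast; linarith)
  obtain ⟨h10, h11, h12⟩ := h1
  refine cellSA UV_tenth (by norm_num) (q := false) (k0 := 30) (lk := 1700599 / 500000) (r2 := 1 / 20) (N := 120441 / 100000) (Ch := 45433 / 25000)
    (D1 := R2C0_1_D1) (D2 := R2C0_1_D2) (by decide +kernel) hg (by linarith) (by push_cast; linarith) hko
    (by push_cast; linarith) h10 (T0_le ha (by push_cast; linarith)) (t_le hk1 ?_) h12 h11 h2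
  push_cast; linarith

def R2C1_1_D1 : SD := ⟨1 / 60, 7647 / 12500, 707 / 800, (2, 1962701 / 500000, 4501683 / 50000000), 1 / 20, 13 / 20, 78169 / 100000,
    (2, 1414339 / 500000, 835911 / 10000000), 2820379 / 1000000, 31, 858497 / 250000⟩

def R2C1_1_D2 : SD := ⟨1 / 60, 101587 / 100000, 54449 / 100000, (2, 3418241 / 1000000, 91767 / 5000000), 1 / 20, 104761 / 100000, 11763 / 25000,
    (2, 2351383 / 1000000, 1831627 / 100000000), 460517 / 200000, 31, 858497 / 250000⟩

theorem R2C1_1 {n k a : ℕ} {t θ : ℝ} (hg : Good n k a t θ) (hk : (30 : ℝ) ≤ k) (hr : (1 / 20 : ℝ) * k ≤ n)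
    (hr2 : (n : ℝ) ≤ 1 / 10 * k) (hth : (20 : ℝ) * k ≤ a * (n + k))
    (hT : (13 / 20 : ℝ) ≤ a * t * (n + (k + 1) / 2)) (hc : k * t ≤ 1 / 10) :
    sigma n k a t * rho n k a t θ ≤ 0.016 := by
  have ha : 0 < a := hg.1.2.1.pos
  have hk1 : 0 < k := by have := hg.2.1.1; omega
  have hkn : 30 ≤ k := by exact_mod_cast hk
  have hko : Odd k → ((R2C1_1_D1).ko:ℝ) ≤ k ∧ ((R2C1_1_D2).ko:ℝ) ≤ k := by
    rintro ⟨m, hm⟩
    have h : (31:ℝ) ≤ k := by exact_mod_cast (by omega : 31 ≤ k)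
    simp only [R2C1_1_D1, R2C1_1_D2]
    push_cast
    exact ⟨h, h⟩
  have hκ : (220 / 21 : ℝ) * k ≤ a * (n + k / 2) := by
    have h := kap_th (n := n) (k := k) (a := a) (th := 20) (r := 1 / 20) hk1 (by norm_num) (by norm_num) hth hr
    refine le_of_eq_of_le ?_ h
    norm_num
  have h1 := okET_sound (m := true) (k0 := 30) (r1 := 1 / 20) (r2 := 1 / 10) (X0 := 33) (κ := 20)
    (c0 := 13 / 20) (N := 23189 / 20000) (D := R2C1_1_D1) (by decide +kernel) (n := n) ha hk1
    (by push_cast; linarith) (by push_cast; linarith) (by push_cast; linarith)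
    (by simp only [if_true]; push_cast; linarith)
  have h2 := okEc_sound (k0 := 30) (r1 := 1 / 20) (r2 := 1 / 10) (X0 := 33) (κ := 220 / 21)
    (c := 1 / 10) (D := R2C1_1_D2) (by decide +kernel) (n := n) (a := a) hk1
    (by push_cast; linarith) (by push_cast; linarith) (by push_cast; linarith)
    (by push_cast; linarith)
  obtain ⟨h10, h11, h12⟩ := h1
  refine cellSA UV_tenth (by norm_num) (q := false) (k0 := 30) (lk := 1700599 / 500000) (r2 := 1 / 10) (N := 23189 / 20000) (Ch := 175091 / 100000)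
    (D1 := R2C1_1_D1) (D2 := R2C1_1_D2) (by decide +kernel) hg (by linarith) (by push_cast; linarith) hko
    (by push_cast; linarith) h10 (T0_le ha (by push_cast; linarith)) (t_le hk1 ?_) h12 h11 h2
  push_cast; linarith

def R2C2_1_D1 : SD := ⟨1 / 15, 30743 / 50000, 80411 / 100000, (2, 1313213 / 500000, 9878919 / 100000000), 1 / 10, 13 / 20, 73133 / 100000,
    (2, 1111271 / 500000, 4612129 / 50000000), 285597 / 100000, 31, 858497 / 250000⟩

def R2C2_1_D2 : SD := ⟨1 / 15, 5303 / 5000, 44389 / 100000, (2, 2081231 / 1000000, 1844711 / 100000000), 1 / 10, 10909 / 10000, 199 / 500,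
    (2, 426189 / 250000, 228953 / 12500000), 460517 / 200000, 31, 858497 / 250000⟩

theorem R2C2_1 {n k a : ℕ} {t θ : ℝ} (hg : Good n k a t θ) (hk : (30 : ℝ) ≤ k) (hr : (1 / 10 : ℝ) * k ≤ n)
    (hr2 : (n : ℝ) ≤ 3 / 20 * k) (hth : (20 : ℝ) * k ≤ a * (n + k))
    (hT : (13 / 20 : ℝ) ≤ a * t * (n + (k + 1) / 2)) (hc : k * t ≤ 1 / 10) :
    sigma n k a t * rho n k a t θ ≤ 0.016 := by
  have ha : 0 < a := hg.1.2.1.pos
  have hk1 : 0 < k := by have := hg.2.1.1; omega
  have hkn : 30 ≤ k := by exact_mod_cast hk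
  have hko : Odd k → ((R2C2_1_D1).ko:ℝ) ≤ k ∧ ((R2C2_1_D2).ko:ℝ) ≤ k := by
    rintro ⟨m, hm⟩
    have h : (31:ℝ) ≤ k := by exact_mod_cast (by omega : 31 ≤ k)
    simp only [R2C2_1_D1, R2C2_1_D2]
    push_cast
    exact ⟨h, h⟩
  have hκ : (120 / 11 : ℝ) * k ≤ a * (n + k / 2) := by
    have h := kap_th (n := n) (k := k) (a := a) (th := 20) (r := 1 / 10) hk1 (by norm_num) (by norm_num) hth hr
    refine le_of_eq_of_le ?_ h
    norm_num
  have h1 := okET_sound (m := true) (k0 := 30) (r1 := 1 / 10) (r2 := 3 / 20) (X0 := 36) (κ := 20)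
    (c0 := 13 / 20) (N := 28031 / 25000) (D := R2C2_1_D1) (by decide +kernel) (n := n) ha hk1
    (by push_cast; linarith) (by push_cast; linarith) (by push_cast; linarith)
    (by simp only [if_true]; push_cast; linarith)
  have h2 := okEc_sound (k0 := 30) (r1 := 1 / 10) (r2 := 3 / 20) (X0 := 36) (κ := 120 / 11)
    (c := 1 / 10) (D := R2C2_1_D2) (by decide +kernel) (n := n) (a := a) hk1
    (by push_cast; linarith) (by push_cast; linarith) (by push_cast; linarith)
    (by push_cast; linarith)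
  obtain ⟨h10, h11, h12⟩ := h1
  refine cellSA UV_tenth (by norm_num) (q := false) (k0 := 30) (lk := 1700599 / 500000) (r2 := 3 / 20) (N := 28031 / 25000) (Ch := 84863 / 50000)
    (D1 := R2C2_1_D1) (D2 := R2C2_1_D2) (by decide +kernel) hg (by linarith) (by push_cast; linarith) hko
    (by push_cast; linarith) h10 (T0_le ha (by push_cast; linarith)) (t_le hk1 ?_) h12 h11 h2
  push_cast; linarith

theorem R2A_2 {n k a : ℕ} {t θ : ℝ} (hg : Good n k a t θ) (hk : (30 : ℝ) ≤ k) (hr : (1 / 2 : ℝ) * k ≤ n)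
    (hκ : (40 / 3 : ℝ) * k ≤ a * (n + k / 2)) (hT : (1 / 10 : ℝ) ≤ k * t)
    (hc : k * t ≤ 1 / 3) :
    sigma n k a t * rho n k a t θ ≤ 0.016 :=
  cellST_c UV_third (by norm_num) (q := false) (k0 := 30) (lk := 1700599 / 500000) (r := 1 / 2) (κ := 40 / 3)
    (c1 := 1 / 10) (c2 := 1 / 3) (z1 := 33333 / 50000) (g1 := 11957 / 20000) (z2 := 111111 / 50000) (g2 := 2413 / 50000)
    (L1 := 460517 / 200000) (L2 := 274653 / 250000) (d1 := (2, 549311 / 500000, 6766899 / 50000000))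
    (d2 := (1, 10836827 / 100000000, 3977 / 3125000)) (by decide +kernel) hg (by linarith) (by push_cast; linarith)
    (by push_cast; linarith) (by push_cast; linarith) (by push_cast; linarith) (by push_cast; linarith)

theorem R2B_2 {n k a : ℕ} {t θ : ℝ} (hg : Good n k a t θ) (hk : (30 : ℝ) ≤ k) (hr : (3 / 20 : ℝ) * k ≤ n)
    (hκ : (260 / 23 : ℝ) * k ≤ a * (n + k / 2)) (hT : (1 / 10 : ℝ) ≤ k * t)
    (hc : k * t ≤ 1 / 3) :
    sigma n k a t * rho n k a t θ ≤ 0.016 :=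
  cellST_c UV_third (by norm_num) (q := false) (k0 := 30) (lk := 1700599 / 500000) (r := 3 / 20) (κ := 260 / 23)
    (c1 := 1 / 10) (c2 := 1 / 3) (z1 := 56521 / 100000) (g1 := 8073 / 10000) (z2 := 37681 / 20000) (g2 := 14719 / 100000)
    (L1 := 460517 / 200000) (L2 := 274653 / 250000) (d1 := (2, 407379 / 200000, 6766941 / 50000000))
    (d2 := (1, 41913529 / 100000000, 63633 / 50000000)) (by decide +kernel) hg (by linarith) (by push_cast; linarith)
    (by push_cast; linarith) (by push_cast; linarith) (by push_cast; linarith) (by push_cast; linarith)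

theorem R2C_2 {n k a : ℕ} {t θ : ℝ} (hg : Good n k a t θ) (hk : (30 : ℝ) ≤ k) (ha : (19 : ℝ) ≤ a)
    (hN : (19999 / 10000 : ℝ) * k ≤ a * (n + k) * (1 / 10)) (hT : (1 / 10 : ℝ) ≤ k * t)
    (hc : k * t ≤ 1 / 3) :
    sigma n k a t * rho n k a t θ ≤ 0.016 :=
  cellN5 UV_third (by norm_num) (q := false) (k0 := 30) (lk := 1700599 / 500000) (c1 := 1 / 10) (c2 := 1 / 3)
    (am := 19) (N := 19999 / 10000) (E := 135349 / 1000000) (L1 := 460517 / 200000) (L2 := 274653 / 250000) (by decide +kernel) hg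
    (by linarith) (by push_cast; linarith) (by push_cast; linarith) (by push_cast; linarith)
    (by push_cast; linarith) (by push_cast; linarith)

theorem R2xA_3 {n k a : ℕ} {t θ : ℝ} (hg : Good n k a t θ) (hk : (36 : ℝ) ≤ k) (hr : (1 / 2 : ℝ) * k ≤ n)
    (hκ : (40 / 3 : ℝ) * k ≤ a * (n + k / 2)) (hT : (1 / 3 : ℝ) ≤ k * t)
    (hc : k * t ≤ 72 / 125) :
    sigma n k a t * rho n k a t θ ≤ 0.016 :=
  cellST_c UV_one (by norm_num) (q := false) (k0 := 36) (lk := 3583519 / 1000000) (r := 1 / 2) (κ := 40 / 3)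
    (c1 := 1 / 3) (c2 := 72 / 125) (z1 := 111111 / 50000) (g1 := 2413 / 50000) (z2 := 383999 / 100000) (g2 := 7 / 1250)
    (L1 := 274653 / 250000) (L2 := 551647 / 1000000) (d1 := (1, 10836827 / 100000000, 3977 / 3125000))
    (d2 := (1, 1074691 / 50000000, 31 / 3125000)) (by decide +kernel) hg (by linarith) (by push_cast; linarith)
    (by push_cast; linarith) (by push_cast; linarith) (by push_cast; linarith) (by push_cast; linarith)

theorem R2xB_3 {n k a : ℕ} {t θ : ℝ} (hg : Good n k a t θ) (hk : (36 : ℝ) ≤ k) (hr : (3 / 20 : ℝ) * k ≤ n)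
    (hκ : (260 / 23 : ℝ) * k ≤ a * (n + k / 2)) (hT : (1 / 3 : ℝ) ≤ k * t)
    (hc : k * t ≤ 72 / 125) :
    sigma n k a t * rho n k a t θ ≤ 0.016 :=
  cellST_c UV_one (by norm_num) (q := false) (k0 := 36) (lk := 3583519 / 1000000) (r := 3 / 20) (κ := 260 / 23)
    (c1 := 1 / 3) (c2 := 72 / 125) (z1 := 37681 / 20000) (g1 := 14719 / 100000) (z2 := 65113 / 20000) (g2 := 1117 / 25000)
    (L1 := 274653 / 250000) (L2 := 551647 / 1000000) (d1 := (1, 41913529 / 100000000, 63633 / 50000000))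
    (d2 := (1, 22254907 / 100000000, 31 / 3125000)) (by decide +kernel) hg (by linarith) (by push_cast; linarith)
    (by push_cast; linarith) (by push_cast; linarith) (by push_cast; linarith) (by push_cast; linarith)

theorem R2xC_3 {n k a : ℕ} {t θ : ℝ} (hg : Good n k a t θ) (hk : (36 : ℝ) ≤ k) (ha : (19 : ℝ) ≤ a)
    (hN : (33333 / 5000 : ℝ) * k ≤ a * (n + k) * (1 / 3)) (hT : (1 / 3 : ℝ) ≤ k * t)
    (hc : k * t ≤ 72 / 125) :
    sigma n k a t * rho n k a t θ ≤ 0.016 :=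
  cellN5 UV_one (by norm_num) (q := false) (k0 := 36) (lk := 3583519 / 1000000) (c1 := 1 / 3) (c2 := 72 / 125)
    (am := 19) (N := 33333 / 5000) (E := 1273 / 1000000) (L1 := 274653 / 250000) (L2 := 551647 / 1000000) (by decide +kernel) hg
    (by linarith) (by push_cast; linarith) (by push_cast; linarith) (by push_cast; linarith)
    (by push_cast; linarith) (by push_cast; linarith)

theorem R2yA_3 {n k a : ℕ} {t θ : ℝ} (hg : Good n k a t θ) (hk : (49 : ℝ) ≤ k) (hr : (1 / 2 : ℝ) * k ≤ n)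
    (hκ : (40 / 3 : ℝ) * k ≤ a * (n + k / 2)) (hT : (1 / 3 : ℝ) ≤ k * t)
    (hc : k * t ≤ 8703 / 10000) :
    sigma n k a t * rho n k a t θ ≤ 0.016 :=
  cellST_c UV_one (by norm_num) (q := false) (k0 := 49) (lk := 3891821 / 1000000) (r := 1 / 2) (κ := 40 / 3)
    (c1 := 1 / 3) (c2 := 8703 / 10000) (z1 := 111111 / 50000) (g1 := 2413 / 50000) (z2 := 580199 / 100000) (g2 := 53 / 100000)
    (L1 := 274653 / 250000) (L2 := 138917 / 1000000) (d1 := (1, 10836827 / 100000000, 3977 / 3125000))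
    (d2 := (1, 151077 / 50000000, 1 / 50000000)) (by decide +kernel) hg (by linarith) (by push_cast; linarith)
    (by push_cast; linarith) (by push_cast; linarith) (by push_cast; linarith) (by push_cast; linarith)

end Pool.Agent.SignedQ.Far1
end

section

/-! # FAR-1: the cells (generated data) -/

namespace Pool.Agent.SignedQ.Far1

open Real Pool.Agent.SignedQ.An Pool.Agent.SignedQ.Far

theorem R2yB_3 {n k a : ℕ} {t θ : ℝ} (hg : Good n k a t θ) (hk : (49 : ℝ) ≤ k) (hr : (3 / 20 : ℝ) * k ≤ n)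
    (hκ : (260 / 23 : ℝ) * k ≤ a * (n + k / 2)) (hT : (1 / 3 : ℝ) ≤ k * t)
    (hc : k * t ≤ 8703 / 10000) :
    sigma n k a t * rho n k a t θ ≤ 0.016 :=
  cellST_c UV_one (by norm_num) (q := false) (k0 := 49) (lk := 3891821 / 1000000) (r := 3 / 20) (κ := 260 / 23)
    (c1 := 1 / 3) (c2 := 8703 / 10000) (z1 := 37681 / 20000) (g1 := 14719 / 100000) (z2 := 122977 / 25000) (g2 := 1367 / 100000)
    (L1 := 274653 / 250000) (L2 := 138917 / 1000000) (d1 := (1, 41913529 / 100000000, 63633 / 50000000))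
    (d2 := (1, 10327659 / 100000000, 1 / 50000000)) (by decide +kernel) hg (by linarith) (by push_cast; linarith)
    (by push_cast; linarith) (by push_cast; linarith) (by push_cast; linarith) (by push_cast; linarith)

theorem R2yC_3 {n k a : ℕ} {t θ : ℝ} (hg : Good n k a t θ) (hk : (49 : ℝ) ≤ k) (ha : (19 : ℝ) ≤ a)
    (hN : (33333 / 5000 : ℝ) * k ≤ a * (n + k) * (1 / 3)) (hT : (1 / 3 : ℝ) ≤ k * t)
    (hc : k * t ≤ 8703 / 10000) :
    sigma n k a t * rho n k a t θ ≤ 0.016 :=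
  cellN5 UV_one (by norm_num) (q := false) (k0 := 49) (lk := 3891821 / 1000000) (c1 := 1 / 3) (c2 := 8703 / 10000)
    (am := 19) (N := 33333 / 5000) (E := 1273 / 1000000) (L1 := 274653 / 250000) (L2 := 138917 / 1000000) (by decide +kernel) hg
    (by linarith) (by push_cast; linarith) (by push_cast; linarith) (by push_cast; linarith)
    (by push_cast; linarith) (by push_cast; linarith)

theorem R3A_1 {n k a : ℕ} {t θ : ℝ} (hg : Good n k a t θ) (hk : (60 : ℝ) ≤ k) (hr : (1 / 2 : ℝ) * k ≤ n)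
    (hκ : (16 / 3 : ℝ) * k ≤ a * (n + k / 2)) (hT : (4 / 5 : ℝ) ≤ a * t * (n + (k + 1) / 2))
    (hc : k * t ≤ 1 / 3) :
    sigma n k a t * rho n k a t θ ≤ 0.016 :=
  cellST_T UV_third (by norm_num) (q := false) (k0 := 60) (lk := 818869 / 200000) (r := 1 / 2) (κ := 16 / 3)
    (c0 := 4 / 5) (c2 := 1 / 3) (z1 := 39669 / 100000) (g1 := 20523 / 20000) (z2 := 11111 / 12500) (g2 := 39357 / 100000)
    (L1 := 1897119 / 1000000) (L2 := 274653 / 250000) (d1 := (2, 1617747 / 1000000, 7604999 / 25000000))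
    (d2 := (1, 8222319 / 20000000, 694853 / 10000000)) (by decide +kernel) hg (by linarith) (by push_cast; linarith)
    (by push_cast; linarith) (by push_cast; linarith) (by push_cast; linarith) (by push_cast; linarith)

theorem R3B_1 {n k a : ℕ} {t θ : ℝ} (hg : Good n k a t θ) (hk : (60 : ℝ) ≤ k) (hr : (1 / 7 : ℝ) * k ≤ n)
    (hκ : (9 / 2 : ℝ) * k ≤ a * (n + k / 2)) (hT : (1 : ℝ) ≤ a * t * (n + (k + 1) / 2))
    (hc : k * t ≤ 1 / 3) :
    sigma n k a t * rho n k a t θ ≤ 0.016 :=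
  cellST_T UV_third (by norm_num) (q := false) (k0 := 60) (lk := 818869 / 200000) (r := 1 / 7) (κ := 9 / 2)
    (c0 := 1) (c2 := 1 / 3) (z1 := 617 / 1250) (g1 := 2882 / 3125) (z2 := 74999 / 100000) (g2 := 59907 / 100000)
    (L1 := 1504077 / 1000000) (L2 := 274653 / 250000) (d1 := (2, 2210107 / 1000000, 17290339 / 100000000))
    (d2 := (2, 447943 / 250000, 434287 / 6250000)) (by decide +kernel) hg (by linarith) (by push_cast; linarith)
    (by push_cast; linarith) (by push_cast; linarith) (by push_cast; linarith) (by push_cast; linarith)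

def R3C0_1_D1 : SD := ⟨0, 7867 / 12500, 229 / 250, (0, 0, 1008323 / 12500000), 0, 13 / 20, 2787 / 3125,
    (0, 0, 7427357 / 100000000), 1863597 / 1000000, 61, 2055437 / 500000⟩

def R3C0_1_D2 : SD := ⟨0, 65591 / 50000, 46823 / 100000, (0, 0, 526181 / 100000000), 0, 133333 / 100000, 11521 / 25000,
    (0, 0, 482801 / 100000000), 274653 / 250000, 61, 2055437 / 500000⟩

theorem R3C0_1 {n k a : ℕ} {t θ : ℝ} (hg : Good n k a t θ) (hk : (60 : ℝ) ≤ k) (hr : (0 : ℝ) * k ≤ n)
    (hr2 : (n : ℝ) ≤ 1 / 20 * k) (hth : (8 : ℝ) * k ≤ a * (n + k))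
    (hT : (13 / 20 : ℝ) ≤ a * t * (n + (k + 1) / 2)) (hc : k * t ≤ 1 / 3) :
    sigma n k a t * rho n k a t θ ≤ 0.016 := by
  have ha : 0 < a := hg.1.2.1.pos
  have hk1 : 0 < k := by have := hg.2.1.1; omega
  have hkn : 60 ≤ k := by exact_mod_cast hk
  have hko : Odd k → ((R3C0_1_D1).ko:ℝ) ≤ k ∧ ((R3C0_1_D2).ko:ℝ) ≤ k := by
    rintro ⟨m, hm⟩
    have h : (61:ℝ) ≤ k := by exact_mod_cast (by omega : 61 ≤ k)
    simp only [R3C0_1_D1, R3C0_1_D2]
    push_cast
    exact ⟨h, h⟩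
  have hκ : (4 : ℝ) * k ≤ a * (n + k / 2) := by
    have h := kap_th (n := n) (k := k) (a := a) (th := 8) (r := 0) hk1 (by norm_num) (by norm_num) hth hr
    refine le_of_eq_of_le ?_ h
    norm_num
  have h1 := okET_sound (m := true) (k0 := 60) (r1 := 0) (r2 := 1 / 20) (X0 := 62) (κ := 8)
    (c0 := 13 / 20) (N := 61119 / 50000) (D := R3C0_1_D1) (by decide +kernel) (n := n) ha hk1
    (by push_cast; linarith) (by push_cast; linarith) (by push_cast; linarith)
    (by simp only [if_true]; push_cast; linarith)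
  have h2 := okEc_sound (k0 := 60) (r1 := 0) (r2 := 1 / 20) (X0 := 62) (κ := 4)
    (c := 1 / 3) (D := R3C0_1_D2) (by decide +kernel) (n := n) (a := a) hk1
    (by push_cast; linarith) (by push_cast; linarith) (by push_cast; linarith)
    (by push_cast; linarith)
  obtain ⟨h10, h11, h12⟩ := h1
  refine cellSA UV_third (by norm_num) (q := false) (k0 := 60) (lk := 818869 / 200000) (r2 := 1 / 20) (N := 61119 / 50000) (Ch := 184489 / 100000)
    (D1 := R3C0_1_D1) (D2 := R3C0_1_D2) (by decide +kernel) hg (by linarith) (by push_cast; linarith) hko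
    (by push_cast; linarith) h10 (T0_le ha (by push_cast; linarith)) (t_le hk1 ?_) h12 h11 h2
  push_cast; linarith

def R3C1_1_D1 : SD := ⟨1 / 30, 63059 / 100000, 518 / 625, (2, 404211 / 125000, 8685317 / 100000000), 1 / 20, 13 / 20, 78169 / 100000,
    (2, 1414339 / 500000, 835911 / 10000000), 238011 / 125000, 61, 2055437 / 500000⟩

def R3C1_1_D2 : SD := ⟨1 / 30, 68783 / 50000, 36131 / 100000, (2, 490731 / 200000, 121019 / 25000000), 1 / 20, 69841 / 50000, 33069 / 100000,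
    (2, 2063697 / 1000000, 120701 / 25000000), 274653 / 250000, 61, 2055437 / 500000⟩

theorem R3C1_1 {n k a : ℕ} {t θ : ℝ} (hg : Good n k a t θ) (hk : (60 : ℝ) ≤ k) (hr : (1 / 20 : ℝ) * k ≤ n)
    (hr2 : (n : ℝ) ≤ 1 / 10 * k) (hth : (8 : ℝ) * k ≤ a * (n + k))
    (hT : (13 / 20 : ℝ) ≤ a * t * (n + (k + 1) / 2)) (hc : k * t ≤ 1 / 3) :
    sigma n k a t * rho n k a t θ ≤ 0.016 := by
  have ha : 0 < a := hg.1.2.1.pos
  have hk1 : 0 < k := by have := hg.2.1.1; omega
  have hkn : 60 ≤ k := by exact_mod_cast hk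
  have hko : Odd k → ((R3C1_1_D1).ko:ℝ) ≤ k ∧ ((R3C1_1_D2).ko:ℝ) ≤ k := by
    rintro ⟨m, hm⟩
    have h : (61:ℝ) ≤ k := by exact_mod_cast (by omega : 61 ≤ k)
    simp only [R3C1_1_D1, R3C1_1_D2]
    push_cast
    exact ⟨h, h⟩
  have hκ : (88 / 21 : ℝ) * k ≤ a * (n + k / 2) := by
    have h := kap_th (n := n) (k := k) (a := a) (th := 8) (r := 1 / 20) hk1 (by norm_num) (by norm_num) hth hr
    refine le_of_eq_of_le ?_ h
    norm_num
  have h1 := okET_sound (m := true) (k0 := 60) (r1 := 1 / 20) (r2 := 1 / 10) (X0 := 66) (κ := 8)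
    (c0 := 13 / 20) (N := 58767 / 50000) (D := R3C1_1_D1) (by decide +kernel) (n := n) ha hk1
    (by push_cast; linarith) (by push_cast; linarith) (by push_cast; linarith)
    (by simp only [if_true]; push_cast; linarith)
  have h2 := okEc_sound (k0 := 60) (r1 := 1 / 20) (r2 := 1 / 10) (X0 := 66) (κ := 88 / 21)
    (c := 1 / 3) (D := R3C1_1_D2) (by decide +kernel) (n := n) (a := a) hk1
    (by push_cast; linarith) (by push_cast; linarith) (by push_cast; linarith)
    (by push_cast; linarith)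
  obtain ⟨h10, h11, h12⟩ := h1
  refine cellSA UV_third (by norm_num) (q := false) (k0 := 60) (lk := 818869 / 200000) (r2 := 1 / 10) (N := 58767 / 50000) (Ch := 177397 / 100000)
    (D1 := R3C1_1_D1) (D2 := R3C1_1_D2) (by decide +kernel) hg (by linarith) (by push_cast; linarith) hko
    (by push_cast; linarith) h10 (T0_le ha (by push_cast; linarith)) (t_le hk1 ?_) h12 h11 h2
  push_cast; linarith

def R3C2_1_D1 : SD := ⟨1 / 12, 63219 / 100000, 76641 / 100000, (2, 96179 / 40000, 382189 / 4000000), 1 / 10, 13 / 20, 73133 / 100000,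
    (2, 1111271 / 500000, 4612129 / 50000000), 1939679 / 1000000, 61, 2055437 / 500000⟩

def R3C2_1_D2 : SD := ⟨1 / 12, 71717 / 50000, 14217 / 50000, (2, 317041 / 200000, 97119 / 20000000), 1 / 10, 72727 / 50000, 26521 / 100000,
    (2, 1417069 / 1000000, 120701 / 25000000), 274653 / 250000, 61, 2055437 / 500000⟩

theorem R3C2_1 {n k a : ℕ} {t θ : ℝ} (hg : Good n k a t θ) (hk : (60 : ℝ) ≤ k) (hr : (1 / 10 : ℝ) * k ≤ n)
    (hr2 : (n : ℝ) ≤ 3 / 20 * k) (hth : (8 : ℝ) * k ≤ a * (n + k))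
    (hT : (13 / 20 : ℝ) ≤ a * t * (n + (k + 1) / 2)) (hc : k * t ≤ 1 / 3) :
    sigma n k a t * rho n k a t θ ≤ 0.016 := by
  have ha : 0 < a := hg.1.2.1.pos
  have hk1 : 0 < k := by have := hg.2.1.1; omega
  have hkn : 60 ≤ k := by exact_mod_cast hk
  have hko : Odd k → ((R3C2_1_D1).ko:ℝ) ≤ k ∧ ((R3C2_1_D2).ko:ℝ) ≤ k := by
    rintro ⟨m, hm⟩
    have h : (61:ℝ) ≤ k := by exact_mod_cast (by omega : 61 ≤ k)
    simp only [R3C2_1_D1, R3C2_1_D2]
    push_cast
    exact ⟨h, h⟩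
  have hκ : (48 / 11 : ℝ) * k ≤ a * (n + k / 2) := by
    have h := kap_th (n := n) (k := k) (a := a) (th := 8) (r := 1 / 10) hk1 (by norm_num) (by norm_num) hth hr
    refine le_of_eq_of_le ?_ h
    norm_num
  have h1 := okET_sound (m := true) (k0 := 60) (r1 := 1 / 10) (r2 := 3 / 20) (X0 := 72) (κ := 8)
    (c0 := 13 / 20) (N := 14193 / 12500) (D := R3C2_1_D1) (by decide +kernel) (n := n) ha hk1
    (by push_cast; linarith) (by push_cast; linarith) (by push_cast; linarith)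
    (by simp only [if_true]; push_cast; linarith)
  have h2 := okEc_sound (k0 := 60) (r1 := 1 / 10) (r2 := 3 / 20) (X0 := 72) (κ := 48 / 11)
    (c := 1 / 3) (D := R3C2_1_D2) (by decide +kernel) (n := n) (a := a) hk1
    (by push_cast; linarith) (by push_cast; linarith) (by push_cast; linarith)
    (by push_cast; linarith)
  obtain ⟨h10, h11, h12⟩ := h1
  refine cellSA UV_third (by norm_num) (q := false) (k0 := 60) (lk := 818869 / 200000) (r2 := 3 / 20) (N := 14193 / 12500) (Ch := 171691 / 100000)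
    (D1 := R3C2_1_D1) (D2 := R3C2_1_D2) (by decide +kernel) hg (by linarith) (by push_cast; linarith) hko
    (by push_cast; linarith) h10 (T0_le ha (by push_cast; linarith)) (t_le hk1 ?_) h12 h11 h2
  push_cast; linarith

theorem R3A_2 {n k a : ℕ} {t θ : ℝ} (hg : Good n k a t θ) (hk : (60 : ℝ) ≤ k) (hr : (1 / 2 : ℝ) * k ≤ n)
    (hκ : (16 / 3 : ℝ) * k ≤ a * (n + k / 2)) (hT : (1 / 3 : ℝ) ≤ k * t)
    (hc : k * t ≤ 1) :
    sigma n k a t * rho n k a t θ ≤ 0.016 :=
  cellST_c UV_one (by norm_num) (q := false) (k0 := 60) (lk := 818869 / 200000) (r := 1 / 2) (κ := 16 / 3)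
    (c1 := 1 / 3) (c2 := 1) (z1 := 11111 / 12500) (g1 := 39357 / 100000) (z2 := 133333 / 50000) (g2 := 519 / 20000)
    (L1 := 274653 / 250000) (L2 := 0) (d1 := (1, 8222319 / 20000000, 694853 / 10000000))
    (d2 := (1, 868549 / 12500000, 16773 / 50000000)) (by decide +kernel) hg (by linarith) (by push_cast; linarith)
    (by push_cast; linarith) (by push_cast; linarith) (by push_cast; linarith) (by push_cast; linarith)

theorem R3B_2 {n k a : ℕ} {t θ : ℝ} (hg : Good n k a t θ) (hk : (60 : ℝ) ≤ k) (hr : (1 / 7 : ℝ) * k ≤ n)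
    (hκ : (9 / 2 : ℝ) * k ≤ a * (n + k / 2)) (hT : (1 / 3 : ℝ) ≤ k * t)
    (hc : k * t ≤ 3 / 5) :
    sigma n k a t * rho n k a t θ ≤ 0.016 :=
  cellST_c UV_one (by norm_num) (q := false) (k0 := 60) (lk := 818869 / 200000) (r := 1 / 7) (κ := 9 / 2)
    (c1 := 1 / 3) (c2 := 3 / 5) (z1 := 74999 / 100000) (g1 := 59907 / 100000) (z2 := 134999 / 100000) (g2 := 3359 / 12500)
    (L1 := 274653 / 250000) (L2 := 20433 / 40000) (d1 := (2, 447943 / 250000, 434287 / 6250000))
    (d2 := (2, 60199 / 50000, 823003 / 100000000)) (by decide +kernel) hg (by linarith) (by push_cast; linarith)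
    (by push_cast; linarith) (by push_cast; linarith) (by push_cast; linarith) (by push_cast; linarith)

theorem R3B_3 {n k a : ℕ} {t θ : ℝ} (hg : Good n k a t θ) (hk : (60 : ℝ) ≤ k) (hr : (1 / 7 : ℝ) * k ≤ n)
    (hκ : (9 / 2 : ℝ) * k ≤ a * (n + k / 2)) (hT : (3 / 5 : ℝ) ≤ k * t)
    (hc : k * t ≤ 1) :
    sigma n k a t * rho n k a t θ ≤ 0.016 :=
  cellST_c UV_one (by norm_num) (q := true) (k0 := 60) (lk := 818869 / 200000) (r := 1 / 7) (κ := 9 / 2)
    (c1 := 3 / 5) (c2 := 1) (z1 := 134999 / 100000) (g1 := 3359 / 12500) (z2 := 224999 / 100000) (g2 := 2667 / 25000)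
    (L1 := 20433 / 40000) (L2 := 0) (d1 := (2, 60199 / 50000, 823003 / 100000000))
    (d2 := (1, 9197027 / 25000000, 33547 / 100000000)) (by decide +kernel) hg (by linarith) (by push_cast; linarith)
    (by push_cast; linarith) (by push_cast; linarith) (by push_cast; linarith) (by push_cast; linarith)

end Pool.Agent.SignedQ.Far1
end

section

/-! # FAR-1: the cells (generated data) -/

namespace Pool.Agent.SignedQ.Far1

open Real Pool.Agent.SignedQ.An Pool.Agent.SignedQ.Far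

theorem R3C_2 {n k a : ℕ} {t θ : ℝ} (hg : Good n k a t θ) (hk : (60 : ℝ) ≤ k) (ha : (9 : ℝ) ≤ a)
    (hN : (29999 / 10000 : ℝ) * k ≤ a * (n + k) * (1 / 3)) (hT : (1 / 3 : ℝ) ≤ k * t)
    (hc : k * t ≤ 3 / 5) :
    sigma n k a t * rho n k a t θ ≤ 0.016 :=
  cellN5 UV_one (by norm_num) (q := false) (k0 := 60) (lk := 818869 / 200000) (c1 := 1 / 3) (c2 := 3 / 5)
    (am := 9) (N := 29999 / 10000) (E := 49793 / 1000000) (L1 := 274653 / 250000) (L2 := 20433 / 40000) (by decide +kernel) hg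
    (by linarith) (by push_cast; linarith) (by push_cast; linarith) (by push_cast; linarith)
    (by push_cast; linarith) (by push_cast; linarith)

theorem R3C_3 {n k a : ℕ} {t θ : ℝ} (hg : Good n k a t θ) (hk : (60 : ℝ) ≤ k) (ha : (9 : ℝ) ≤ a)
    (hN : (53999 / 10000 : ℝ) * k ≤ a * (n + k) * (3 / 5)) (hT : (3 / 5 : ℝ) ≤ k * t)
    (hc : k * t ≤ 1) :
    sigma n k a t * rho n k a t θ ≤ 0.016 :=
  cellN5 UV_one (by norm_num) (q := true) (k0 := 60) (lk := 818869 / 200000) (c1 := 3 / 5) (c2 := 1)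
    (am := 9) (N := 53999 / 10000) (E := 2259 / 500000) (L1 := 20433 / 40000) (L2 := 0) (by decide +kernel) hg
    (by linarith) (by push_cast; linarith) (by push_cast; linarith) (by push_cast; linarith)
    (by push_cast; linarith) (by push_cast; linarith)

theorem R4A_1 {n k a : ℕ} {t θ : ℝ} (hg : Good n k a t θ) (hk : (100 : ℝ) ≤ k) (hr : (1 / 2 : ℝ) * k ≤ n)
    (hκ : (7 / 2 : ℝ) * k ≤ a * (n + k / 2)) (hT : (4 / 5 : ℝ) ≤ a * t * (n + (k + 1) / 2))
    (hc : k * t ≤ 1 / 3) :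
    sigma n k a t * rho n k a t θ ≤ 0.016 :=
  cellST_T UV_third (by norm_num) (q := false) (k0 := 100) (lk := 4605171 / 1000000) (r := 1 / 2) (κ := 7 / 2)
    (c0 := 4 / 5) (c2 := 1 / 3) (z1 := 199 / 500) (g1 := 102321 / 100000) (z2 := 58333 / 100000) (g2 := 17499 / 25000)
    (L1 := 737953 / 500000) (L2 := 274653 / 250000) (d1 := (2, 32289 / 20000, 757517 / 2500000))
    (d2 := (2, 1232149 / 1000000, 543049 / 3125000)) (by decide +kernel) hg (by linarith) (by push_cast; linarith)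
    (by push_cast; linarith) (by push_cast; linarith) (by push_cast; linarith) (by push_cast; linarith)

theorem R4A_2 {n k a : ℕ} {t θ : ℝ} (hg : Good n k a t θ) (hk : (100 : ℝ) ≤ k) (hr : (1 / 2 : ℝ) * k ≤ n)
    (hκ : (7 / 2 : ℝ) * k ≤ a * (n + k / 2)) (hT : (1 / 3 : ℝ) ≤ k * t)
    (hc : k * t ≤ 1) :
    sigma n k a t * rho n k a t θ ≤ 0.016 :=
  cellST_c UV_one (by norm_num) (q := false) (k0 := 100) (lk := 4605171 / 1000000) (r := 1 / 2) (κ := 7 / 2)
    (c1 := 1 / 3) (c2 := 1) (z1 := 58333 / 100000) (g1 := 17499 / 25000) (z2 := 174999 / 100000) (g2 := 302 / 3125)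
    (L1 := 274653 / 250000) (L2 := 0) (d1 := (2, 1232149 / 1000000, 543049 / 3125000))
    (d2 := (1, 17377569 / 100000000, 524767 / 100000000)) (by decide +kernel) hg (by linarith) (by push_cast; linarith)
    (by push_cast; linarith) (by push_cast; linarith) (by push_cast; linarith) (by push_cast; linarith)

theorem R5A_1 {n k a : ℕ} {t θ : ℝ} (hg : Good n k a t θ) (hk : (200 : ℝ) ≤ k) (hr : (1 / 2 : ℝ) * k ≤ n)
    (hκ : (3 : ℝ) * k ≤ a * (n + k / 2)) (hT : (4 / 5 : ℝ) ≤ a * t * (n + (k + 1) / 2))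
    (hc : k * t ≤ 1 / 3) :
    sigma n k a t * rho n k a t θ ≤ 0.016 :=
  cellST_T UV_third (by norm_num) (q := false) (k0 := 200) (lk := 2649159 / 500000) (r := 1 / 2) (κ := 3)
    (c0 := 4 / 5) (c2 := 1 / 3) (z1 := 399 / 1000) (g1 := 102097 / 100000) (z2 := 49999 / 100000) (g2 := 10319 / 12500)
    (L1 := 264351 / 200000) (L2 := 274653 / 250000) (d1 := (2, 1611941 / 1000000, 6041983 / 20000000))
    (d2 := (2, 693157 / 500000, 4462737 / 20000000)) (by decide +kernel) hg (by linarith) (by push_cast; linarith)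
    (by push_cast; linarith) (by push_cast; linarith) (by push_cast; linarith) (by push_cast; linarith)

theorem R5A_2 {n k a : ℕ} {t θ : ℝ} (hg : Good n k a t θ) (hk : (200 : ℝ) ≤ k) (hr : (1 / 2 : ℝ) * k ≤ n)
    (hκ : (3 : ℝ) * k ≤ a * (n + k / 2)) (hT : (1 / 3 : ℝ) ≤ k * t)
    (hc : k * t ≤ 1) :
    sigma n k a t * rho n k a t θ ≤ 0.016 :=
  cellST_c UV_one (by norm_num) (q := false) (k0 := 200) (lk := 2649159 / 500000) (r := 1 / 2) (κ := 3)
    (c1 := 1 / 3) (c2 := 1) (z1 := 49999 / 100000) (g1 := 10319 / 12500) (z2 := 149999 / 100000) (g2 := 14219 / 100000)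
    (L1 := 274653 / 250000) (L2 := 0) (d1 := (2, 693157 / 500000, 4462737 / 20000000))
    (d2 := (1, 557831 / 2500000, 277733 / 25000000)) (by decide +kernel) hg (by linarith) (by push_cast; linarith)
    (by push_cast; linarith) (by push_cast; linarith) (by push_cast; linarith) (by push_cast; linarith)

theorem R4aB_1 {n k a : ℕ} {t θ : ℝ} (hg : Good n k a t θ) (hk : (100 : ℝ) ≤ k) (hr : (3 / 20 : ℝ) * k ≤ n)
    (hκ : (13 / 4 : ℝ) * k ≤ a * (n + k / 2)) (hT : (1 : ℝ) ≤ a * t * (n + (k + 1) / 2))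
    (hc : k * t ≤ 1 / 3) :
    sigma n k a t * rho n k a t θ ≤ 0.016 :=
  cellST_T UV_third (by norm_num) (q := false) (k0 := 100) (lk := 4605171 / 1000000) (r := 3 / 20) (κ := 13 / 4)
    (c0 := 1) (c2 := 1 / 3) (z1 := 24809 / 50000) (g1 := 457 / 500) (z2 := 27083 / 50000) (g2 := 84161 / 100000)
    (L1 := 589327 / 500000) (L2 := 274653 / 250000) (d1 := (2, 2167153 / 1000000, 3455677 / 20000000))
    (d2 := (2, 2079453 / 1000000, 14709993 / 100000000)) (by decide +kernel) hg (by linarith) (by push_cast; linarith)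
    (by push_cast; linarith) (by push_cast; linarith) (by push_cast; linarith) (by push_cast; linarith)

def R4aC0_1_D1 : SD := ⟨0, 63737 / 100000, 90649 / 100000, (0, 0, 7812227 / 100000000), 0, 13 / 20, 2787 / 3125,
    (0, 0, 7427357 / 100000000), 336709 / 200000, 101, 4615121 / 1000000⟩

def R4aC0_1_D2 : SD := ⟨0, 57761 / 50000, 13243 / 25000, (0, 0, 246103 / 25000000), 0, 58333 / 50000, 52471 / 100000,
    (0, 0, 940381 / 100000000), 274653 / 250000, 101, 4615121 / 1000000⟩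

theorem R4aC0_1 {n k a : ℕ} {t θ : ℝ} (hg : Good n k a t θ) (hk : (100 : ℝ) ≤ k) (hr : (0 : ℝ) * k ≤ n)
    (hr2 : (n : ℝ) ≤ 1 / 20 * k) (hκ : (7 / 2 : ℝ) * k ≤ a * (n + k / 2))
    (hth : (7 : ℝ) * k ≤ a * (n + k))
    (hT : (13 / 20 : ℝ) ≤ a * t * (n + (k + 1) / 2)) (hc : k * t ≤ 1 / 3) :
    sigma n k a t * rho n k a t θ ≤ 0.016 := by
  have ha : 0 < a := hg.1.2.1.pos
  have hk1 : 0 < k := by have := hg.2.1.1; omega
  have hkn : 100 ≤ k := by exact_mod_cast hk
  have hko : Odd k → ((R4aC0_1_D1).ko:ℝ) ≤ k ∧ ((R4aC0_1_D2).ko:ℝ) ≤ k := by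
    rintro ⟨m, hm⟩
    have h : (101:ℝ) ≤ k := by exact_mod_cast (by omega : 101 ≤ k)
    simp only [R4aC0_1_D1, R4aC0_1_D2]
    push_cast
    exact ⟨h, h⟩
  have h1 := okET_sound (m := false) (k0 := 100) (r1 := 0) (r2 := 1 / 20) (X0 := 102) (κ := 7 / 2)
    (c0 := 13 / 20) (N := 30743 / 25000) (D := R4aC0_1_D1) (by decide +kernel) (n := n) ha hk1
    (by push_cast; linarith) (by push_cast; linarith) (by push_cast; linarith)
    (by simp only [Bool.false_eq_true, if_false]; push_cast; linarith)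
  have h2 := okEc_sound (k0 := 100) (r1 := 0) (r2 := 1 / 20) (X0 := 102) (κ := 7 / 2)
    (c := 1 / 3) (D := R4aC0_1_D2) (by decide +kernel) (n := n) (a := a) hk1
    (by push_cast; linarith) (by push_cast; linarith) (by push_cast; linarith)
    (by push_cast; linarith)
  obtain ⟨h10, h11, h12⟩ := h1
  refine cellSA UV_third (by norm_num) (q := false) (k0 := 100) (lk := 4605171 / 1000000) (r2 := 1 / 20) (N := 30743 / 25000) (Ch := 5801 / 3125)
    (D1 := R4aC0_1_D1) (D2 := R4aC0_1_D2) (by decide +kernel) hg (by linarith) (by push_cast; linarith) hko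
    (by push_cast; linarith) h10 (T0_le ha (by push_cast; linarith)) (t_le hk1 ?_) h12 h11 h2
  push_cast; linarith

theorem R4aC0_2 {n k a : ℕ} {t θ : ℝ} (hg : Good n k a t θ) (hk : (100 : ℝ) ≤ k) (ha : (7 : ℝ) ≤ a)
    (hN : (23333 / 10000 : ℝ) * k ≤ a * (n + k) * (1 / 3)) (hT : (1 / 3 : ℝ) ≤ k * t)
    (hc : k * t ≤ 3 / 5) :
    sigma n k a t * rho n k a t θ ≤ 0.016 :=
  cellN5 UV_one (by norm_num) (q := false) (k0 := 100) (lk := 4605171 / 1000000) (c1 := 1 / 3) (c2 := 3 / 5)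
    (am := 7) (N := 23333 / 10000) (E := 6061 / 62500) (L1 := 274653 / 250000) (L2 := 20433 / 40000) (by decide +kernel) hg
    (by linarith) (by push_cast; linarith) (by push_cast; linarith) (by push_cast; linarith)
    (by push_cast; linarith) (by push_cast; linarith)

theorem R4aC0_3 {n k a : ℕ} {t θ : ℝ} (hg : Good n k a t θ) (hk : (100 : ℝ) ≤ k) (ha : (7 : ℝ) ≤ a)
    (hN : (41999 / 10000 : ℝ) * k ≤ a * (n + k) * (3 / 5)) (hT : (3 / 5 : ℝ) ≤ k * t)
    (hc : k * t ≤ 1) :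
    sigma n k a t * rho n k a t θ ≤ 0.016 :=
  cellN5 UV_one (by norm_num) (q := true) (k0 := 100) (lk := 4605171 / 1000000) (c1 := 3 / 5) (c2 := 1)
    (am := 7) (N := 41999 / 10000) (E := 7499 / 500000) (L1 := 20433 / 40000) (L2 := 0) (by decide +kernel) hg
    (by linarith) (by push_cast; linarith) (by push_cast; linarith) (by push_cast; linarith)
    (by push_cast; linarith) (by push_cast; linarith)

end Pool.Agent.SignedQ.Far1
end
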