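import Pool.Agent.Lib.MP_cf17a0_co.Mg.G025

section

/-! # FAR-1: the cells (generated data) -/

namespace Pool.Agent.SignedQ.Far1

open Real Pool.Agent.SignedQ.An Pool.Agent.SignedQ.Far

def R4aC1_1_D1 : SD := ⟨1 / 25, 15957 / 25000, 20231 / 25000, (2, 3051667 / 1000000, 4277903 / 50000000), 1 / 20, 13 / 20, 78169 / 100000,
    (2, 1414339 / 500000, 835911 / 10000000), 1442383 / 1000000, 101, 4615121 / 1000000⟩

def R4aC1_1_D2 : SD := ⟨1 / 25, 90833 / 100000, 56751 / 100000, (2, 2698837 / 1000000, 3023507 / 100000000), 1 / 20, 45833 / 50000, 54787 / 100000,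
    (2, 2484913 / 1000000, 603963 / 20000000), 274653 / 250000, 101, 4615121 / 1000000⟩

theorem R4aC1_1 {n k a : ℕ} {t θ : ℝ} (hg : Good n k a t θ) (hk : (100 : ℝ) ≤ k) (hr : (1 / 20 : ℝ) * k ≤ n)
    (hr2 : (n : ℝ) ≤ 1 / 10 * k) (hκ : (11 / 4 : ℝ) * k ≤ a * (n + k / 2))
    (hth : (21 / 4 : ℝ) * k ≤ a * (n + k))
    (hT : (13 / 20 : ℝ) ≤ a * t * (n + (k + 1) / 2)) (hc : k * t ≤ 1 / 3) :
    sigma n k a t * rho n k a t θ ≤ 0.016 := by
  have ha : 0 < a := hg.1.2.1.pos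
  have hk1 : 0 < k := by have := hg.2.1.1; omega
  have hkn : 100 ≤ k := by exact_mod_cast hk
  have hko : Odd k → ((R4aC1_1_D1).ko:ℝ) ≤ k ∧ ((R4aC1_1_D2).ko:ℝ) ≤ k := by
    rintro ⟨m, hm⟩
    have h : (101:ℝ) ≤ k := by exact_mod_cast (by omega : 101 ≤ k)
    simp only [R4aC1_1_D1, R4aC1_1_D2]
    push_cast
    exact ⟨h, h⟩
  have h1 := okET_sound (m := false) (k0 := 100) (r1 := 1 / 20) (r2 := 1 / 10) (X0 := 110) (κ := 11 / 4)
    (c0 := 13 / 20) (N := 118181 / 100000) (D := R4aC1_1_D1) (by decide +kernel) (n := n) ha hk1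
    (by push_cast; linarith) (by push_cast; linarith) (by push_cast; linarith)
    (by simp only [Bool.false_eq_true, if_false]; push_cast; linarith)
  have h2 := okEc_sound (k0 := 100) (r1 := 1 / 20) (r2 := 1 / 10) (X0 := 110) (κ := 11 / 4)
    (c := 1 / 3) (D := R4aC1_1_D2) (by decide +kernel) (n := n) (a := a) hk1
    (by push_cast; linarith) (by push_cast; linarith) (by push_cast; linarith)
    (by push_cast; linarith)
  obtain ⟨h10, h11, h12⟩ := h1
  refine cellSA UV_third (by norm_num) (q := false) (k0 := 100) (lk := 4605171 / 1000000) (r2 := 1 / 10) (N := 118181 / 100000) (Ch := 178349 / 100000)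
    (D1 := R4aC1_1_D1) (D2 := R4aC1_1_D2) (by decide +kernel) hg (by linarith) (by push_cast; linarith) hko
    (by push_cast; linarith) h10 (T0_le ha (by push_cast; linarith)) (t_le hk1 ?_) h12 h11 h2
  push_cast; linarith

def R4aC1_2_D1 : SD := ⟨1 / 25, 90833 / 100000, 56751 / 100000, (2, 2698837 / 1000000, 3023507 / 100000000), 1 / 20, 45833 / 50000, 54787 / 100000,
    (2, 2484913 / 1000000, 603963 / 20000000), 274653 / 250000, 101, 4615121 / 1000000⟩

def R4aC1_2_D2 : SD := ⟨1 / 25, 163499 / 100000, 14121 / 50000, (2, 527763 / 250000, 92023 / 50000000), 1 / 20, 164999 / 100000, 13289 / 50000,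
    (2, 948563 / 500000, 183637 / 100000000), 20433 / 40000, 101, 4615121 / 1000000⟩

theorem R4aC1_2 {n k a : ℕ} {t θ : ℝ} (hg : Good n k a t θ) (hk : (100 : ℝ) ≤ k) (hr : (1 / 20 : ℝ) * k ≤ n)
    (hr2 : (n : ℝ) ≤ 1 / 10 * k) (hκ : (11 / 4 : ℝ) * k ≤ a * (n + k / 2))
    (hth : (21 / 4 : ℝ) * k ≤ a * (n + k))
    (hT : (1 / 3 : ℝ) ≤ k * t) (hc : k * t ≤ 3 / 5) :
    sigma n k a t * rho n k a t θ ≤ 0.016 := by
  have ha : 0 < a := hg.1.2.1.pos
  have hk1 : 0 < k := by have := hg.2.1.1; omega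
  have hkn : 100 ≤ k := by exact_mod_cast hk
  have hko : Odd k → ((R4aC1_2_D1).ko:ℝ) ≤ k ∧ ((R4aC1_2_D2).ko:ℝ) ≤ k := by
    rintro ⟨m, hm⟩
    have h : (101:ℝ) ≤ k := by exact_mod_cast (by omega : 101 ≤ k)
    simp only [R4aC1_2_D1, R4aC1_2_D2]
    push_cast
    exact ⟨h, h⟩
  have h1 := okEc_sound (k0 := 100) (r1 := 1 / 20) (r2 := 1 / 10) (X0 := 110) (κ := 11 / 4)
    (c := 1 / 3) (D := R4aC1_2_D1) (by decide +kernel) (n := n) (a := a) hk1
    (by push_cast; linarith) (by push_cast; linarith) (by push_cast; linarith)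
    (by push_cast; linarith)
  have h2 := okEc_sound (k0 := 100) (r1 := 1 / 20) (r2 := 1 / 10) (X0 := 110) (κ := 11 / 4)
    (c := 3 / 5) (D := R4aC1_2_D2) (by decide +kernel) (n := n) (a := a) hk1
    (by push_cast; linarith) (by push_cast; linarith) (by push_cast; linarith)
    (by push_cast; linarith)
  have hkp : (0:ℝ) < k := by exact_mod_cast hk1
  refine cellSA UV_one (by norm_num) (q := false) (k0 := 100) (lk := 4605171 / 1000000) (r2 := 1 / 10) (N := 174999 / 100000) (Ch := 9263 / 3125)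
    (D1 := R4aC1_2_D1) (D2 := R4aC1_2_D2) (by decide +kernel) hg (by linarith) (by push_cast; linarith) hko
    (by push_cast; linarith) (t1 := ((1 / 3 : ℚ) : ℝ) / k) (by positivity) (le_t hk1 (by push_cast; linarith))
    (t_le hk1 ?_) ?_ h1 h2
  · push_cast; linarith
  · have e : ((n:ℝ) + k) * (a * (((1 / 3 : ℚ) : ℝ) / k)) = (a * (n + k)) * ((1 / 3 : ℚ) : ℝ) / k := by ring
    rw [e, le_div_iff₀ hkp]
    push_cast; linarith

def R4aC2_1_D1 : SD := ⟨9 / 100, 2557 / 4000, 75211 / 100000, (2, 581943 / 250000, 2355849 / 25000000), 1 / 10, 13 / 20, 73133 / 100000,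
    (2, 1111271 / 500000, 4612129 / 50000000), 305879 / 200000, 101, 4615121 / 1000000⟩

def R4aC2_1_D2 : SD := ⟨9 / 100, 49583 / 50000, 45879 / 100000, (2, 1888687 / 1000000, 2562723 / 100000000), 1 / 10, 99999 / 100000, 11143 / 25000,
    (2, 1791769 / 1000000, 2556247 / 100000000), 274653 / 250000, 101, 4615121 / 1000000⟩

theorem R4aC2_1 {n k a : ℕ} {t θ : ℝ} (hg : Good n k a t θ) (hk : (100 : ℝ) ≤ k) (hr : (1 / 10 : ℝ) * k ≤ n)
    (hr2 : (n : ℝ) ≤ 3 / 20 * k) (hκ : (3 : ℝ) * k ≤ a * (n + k / 2))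
    (hth : (11 / 2 : ℝ) * k ≤ a * (n + k))
    (hT : (13 / 20 : ℝ) ≤ a * t * (n + (k + 1) / 2)) (hc : k * t ≤ 1 / 3) :
    sigma n k a t * rho n k a t θ ≤ 0.016 := by
  have ha : 0 < a := hg.1.2.1.pos
  have hk1 : 0 < k := by have := hg.2.1.1; omega
  have hkn : 100 ≤ k := by exact_mod_cast hk
  have hko : Odd k → ((R4aC2_1_D1).ko:ℝ) ≤ k ∧ ((R4aC2_1_D2).ko:ℝ) ≤ k := by
    rintro ⟨m, hm⟩
    have h : (101:ℝ) ≤ k := by exact_mod_cast (by omega : 101 ≤ k)
    simp only [R4aC2_1_D1, R4aC2_1_D2]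
    push_cast
    exact ⟨h, h⟩
  have h1 := okET_sound (m := false) (k0 := 100) (r1 := 1 / 10) (r2 := 3 / 20) (X0 := 120) (κ := 3)
    (c0 := 13 / 20) (N := 57061 / 50000) (D := R4aC2_1_D1) (by decide +kernel) (n := n) ha hk1
    (by push_cast; linarith) (by push_cast; linarith) (by push_cast; linarith)
    (by simp only [Bool.false_eq_true, if_false]; push_cast; linarith)
  have h2 := okEc_sound (k0 := 100) (r1 := 1 / 10) (r2 := 3 / 20) (X0 := 120) (κ := 3)
    (c := 1 / 3) (D := R4aC2_1_D2) (by decide +kernel) (n := n) (a := a) hk1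
    (by push_cast; linarith) (by push_cast; linarith) (by push_cast; linarith)
    (by push_cast; linarith)
  obtain ⟨h10, h11, h12⟩ := h1
  refine cellSA UV_third (by norm_num) (q := false) (k0 := 100) (lk := 4605171 / 1000000) (r2 := 3 / 20) (N := 57061 / 50000) (Ch := 69 / 40)
    (D1 := R4aC2_1_D1) (D2 := R4aC2_1_D2) (by decide +kernel) hg (by linarith) (by push_cast; linarith) hko
    (by push_cast; linarith) h10 (T0_le ha (by push_cast; linarith)) (t_le hk1 ?_) h12 h11 h2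
  push_cast; linarith

def R4aC2_2_D1 : SD := ⟨9 / 100, 49583 / 50000, 45879 / 100000, (2, 1888687 / 1000000, 2562723 / 100000000), 1 / 10, 99999 / 100000, 11143 / 25000,
    (2, 1791769 / 1000000, 2556247 / 100000000), 274653 / 250000, 101, 4615121 / 1000000⟩

def R4aC2_2_D2 : SD := ⟨9 / 100, 178499 / 100000, 10013 / 50000, (2, 13009 / 10000, 27333 / 20000000), 1 / 10, 179999 / 100000, 19039 / 100000,
    (2, 601989 / 500000, 136041 / 100000000), 20433 / 40000, 101, 4615121 / 1000000⟩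

theorem R4aC2_2 {n k a : ℕ} {t θ : ℝ} (hg : Good n k a t θ) (hk : (100 : ℝ) ≤ k) (hr : (1 / 10 : ℝ) * k ≤ n)
    (hr2 : (n : ℝ) ≤ 3 / 20 * k) (hκ : (3 : ℝ) * k ≤ a * (n + k / 2))
    (hth : (11 / 2 : ℝ) * k ≤ a * (n + k))
    (hT : (1 / 3 : ℝ) ≤ k * t) (hc : k * t ≤ 3 / 5) :
    sigma n k a t * rho n k a t θ ≤ 0.016 := by
  have ha : 0 < a := hg.1.2.1.pos
  have hk1 : 0 < k := by have := hg.2.1.1; omega
  have hkn : 100 ≤ k := by exact_mod_cast hk
  have hko : Odd k → ((R4aC2_2_D1).ko:ℝ) ≤ k ∧ ((R4aC2_2_D2).ko:ℝ) ≤ k := by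
    rintro ⟨m, hm⟩
    have h : (101:ℝ) ≤ k := by exact_mod_cast (by omega : 101 ≤ k)
    simp only [R4aC2_2_D1, R4aC2_2_D2]
    push_cast
    exact ⟨h, h⟩
  have h1 := okEc_sound (k0 := 100) (r1 := 1 / 10) (r2 := 3 / 20) (X0 := 120) (κ := 3)
    (c := 1 / 3) (D := R4aC2_2_D1) (by decide +kernel) (n := n) (a := a) hk1
    (by push_cast; linarith) (by push_cast; linarith) (by push_cast; linarith)
    (by push_cast; linarith)
  have h2 := okEc_sound (k0 := 100) (r1 := 1 / 10) (r2 := 3 / 20) (X0 := 120) (κ := 3)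
    (c := 3 / 5) (D := R4aC2_2_D2) (by decide +kernel) (n := n) (a := a) hk1
    (by push_cast; linarith) (by push_cast; linarith) (by push_cast; linarith)
    (by push_cast; linarith)
  have hkp : (0:ℝ) < k := by exact_mod_cast hk1
  refine cellSA UV_one (by norm_num) (q := false) (k0 := 100) (lk := 4605171 / 1000000) (r2 := 3 / 20) (N := 183333 / 100000) (Ch := 40091 / 12500)
    (D1 := R4aC2_2_D1) (D2 := R4aC2_2_D2) (by decide +kernel) hg (by linarith) (by push_cast; linarith) hko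
    (by push_cast; linarith) (t1 := ((1 / 3 : ℚ) : ℝ) / k) (by positivity) (le_t hk1 (by push_cast; linarith))
    (t_le hk1 ?_) ?_ h1 h2
  · push_cast; linarith
  · have e : ((n:ℝ) + k) * (a * (((1 / 3 : ℚ) : ℝ) / k)) = (a * (n + k)) * ((1 / 3 : ℚ) : ℝ) / k := by ring
    rw [e, le_div_iff₀ hkp]
    push_cast; linarith

theorem R4bB_1 {n k a : ℕ} {t θ : ℝ} (hg : Good n k a t θ) (hk : (140 : ℝ) ≤ k) (hr : (3 / 20 : ℝ) * k ≤ n)
    (hκ : (13 / 4 : ℝ) * k ≤ a * (n + k / 2)) (hT : (1 : ℝ) ≤ a * t * (n + (k + 1) / 2))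
    (hc : k * t ≤ 1 / 3) :
    sigma n k a t * rho n k a t θ ≤ 0.016 :=
  cellST_T UV_third (by norm_num) (q := false) (k0 := 140) (lk := 4941643 / 1000000) (r := 3 / 20) (κ := 13 / 4)
    (c0 := 1) (c2 := 1 / 3) (z1 := 24863 / 50000) (g1 := 91217 / 100000) (z2 := 27083 / 50000) (g2 := 84161 / 100000)
    (L1 := 589327 / 500000) (L2 := 274653 / 250000) (d1 := (2, 2164979 / 1000000, 17212481 / 100000000))
    (d2 := (2, 2079453 / 1000000, 14709993 / 100000000)) (by decide +kernel) hg (by linarith) (by push_cast; linarith)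
    (by push_cast; linarith) (by push_cast; linarith) (by push_cast; linarith) (by push_cast; linarith)

def R4bC0_1_D1 : SD := ⟨0, 6409 / 10000, 18047 / 20000, (0, 0, 3851347 / 50000000), 0, 13 / 20, 2787 / 3125,
    (0, 0, 7427357 / 100000000), 1347073 / 1000000, 141, 123719 / 25000⟩

def R4bC0_1_D2 : SD := ⟨0, 41373 / 50000, 72341 / 100000, (0, 0, 3652201 / 100000000), 0, 83333 / 100000, 71883 / 100000,
    (0, 0, 1783723 / 50000000), 274653 / 250000, 141, 123719 / 25000⟩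

theorem R4bC0_1 {n k a : ℕ} {t θ : ℝ} (hg : Good n k a t θ) (hk : (140 : ℝ) ≤ k) (hr : (0 : ℝ) * k ≤ n)
    (hr2 : (n : ℝ) ≤ 1 / 20 * k) (hκ : (5 / 2 : ℝ) * k ≤ a * (n + k / 2))
    (hth : (5 : ℝ) * k ≤ a * (n + k))
    (hT : (13 / 20 : ℝ) ≤ a * t * (n + (k + 1) / 2)) (hc : k * t ≤ 1 / 3) :
    sigma n k a t * rho n k a t θ ≤ 0.016 := by
  have ha : 0 < a := hg.1.2.1.pos
  have hk1 : 0 < k := by have := hg.2.1.1; omega
  have hkn : 140 ≤ k := by exact_mod_cast hk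
  have hko : Odd k → ((R4bC0_1_D1).ko:ℝ) ≤ k ∧ ((R4bC0_1_D2).ko:ℝ) ≤ k := by
    rintro ⟨m, hm⟩
    have h : (141:ℝ) ≤ k := by exact_mod_cast (by omega : 141 ≤ k)
    simp only [R4bC0_1_D1, R4bC0_1_D2]
    push_cast
    exact ⟨h, h⟩
  have h1 := okET_sound (m := false) (k0 := 140) (r1 := 0) (r2 := 1 / 20) (X0 := 142) (κ := 5 / 2)
    (c0 := 13 / 20) (N := 12329 / 10000) (D := R4bC0_1_D1) (by decide +kernel) (n := n) ha hk1
    (by push_cast; linarith) (by push_cast; linarith) (by push_cast; linarith)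
    (by simp only [Bool.false_eq_true, if_false]; push_cast; linarith)
  have h2 := okEc_sound (k0 := 140) (r1 := 0) (r2 := 1 / 20) (X0 := 142) (κ := 5 / 2)
    (c := 1 / 3) (D := R4bC0_1_D2) (by decide +kernel) (n := n) (a := a) hk1
    (by push_cast; linarith) (by push_cast; linarith) (by push_cast; linarith)
    (by push_cast; linarith)
  obtain ⟨h10, h11, h12⟩ := h1
  refine cellSA UV_third (by norm_num) (q := false) (k0 := 140) (lk := 4941643 / 1000000) (r2 := 1 / 20) (N := 12329 / 10000) (Ch := 18613 / 10000)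
    (D1 := R4bC0_1_D1) (D2 := R4bC0_1_D2) (by decide +kernel) hg (by linarith) (by push_cast; linarith) hko
    (by push_cast; linarith) h10 (T0_le ha (by push_cast; linarith)) (t_le hk1 ?_) h12 h11 h2
  push_cast; linarith

def R4bC0_2_D1 : SD := ⟨0, 41373 / 50000, 72341 / 100000, (0, 0, 3652201 / 100000000), 0, 83333 / 100000, 71883 / 100000,
    (0, 0, 1783723 / 50000000), 274653 / 250000, 141, 123719 / 25000⟩

def R4bC0_2_D2 : SD := ⟨0, 148943 / 100000, 41329 / 100000, (0, 0, 12929 / 5000000), 0, 149999 / 100000, 20521 / 50000,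
    (0, 0, 49577 / 20000000), 20433 / 40000, 141, 123719 / 25000⟩

theorem R4bC0_2 {n k a : ℕ} {t θ : ℝ} (hg : Good n k a t θ) (hk : (140 : ℝ) ≤ k) (hr : (0 : ℝ) * k ≤ n)
    (hr2 : (n : ℝ) ≤ 1 / 20 * k) (hκ : (5 / 2 : ℝ) * k ≤ a * (n + k / 2))
    (hth : (5 : ℝ) * k ≤ a * (n + k))
    (hT : (1 / 3 : ℝ) ≤ k * t) (hc : k * t ≤ 3 / 5) :
    sigma n k a t * rho n k a t θ ≤ 0.016 := by
  have ha : 0 < a := hg.1.2.1.pos
  have hk1 : 0 < k := by have := hg.2.1.1; omega
  have hkn : 140 ≤ k := by exact_mod_cast hk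
  have hko : Odd k → ((R4bC0_2_D1).ko:ℝ) ≤ k ∧ ((R4bC0_2_D2).ko:ℝ) ≤ k := by
    rintro ⟨m, hm⟩
    have h : (141:ℝ) ≤ k := by exact_mod_cast (by omega : 141 ≤ k)
    simp only [R4bC0_2_D1, R4bC0_2_D2]
    push_cast
    exact ⟨h, h⟩
  have h1 := okEc_sound (k0 := 140) (r1 := 0) (r2 := 1 / 20) (X0 := 142) (κ := 5 / 2)
    (c := 1 / 3) (D := R4bC0_2_D1) (by decide +kernel) (n := n) (a := a) hk1
    (by push_cast; linarith) (by push_cast; linarith) (by push_cast; linarith)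
    (by push_cast; linarith)
  have h2 := okEc_sound (k0 := 140) (r1 := 0) (r2 := 1 / 20) (X0 := 142) (κ := 5 / 2)
    (c := 3 / 5) (D := R4bC0_2_D2) (by decide +kernel) (n := n) (a := a) hk1
    (by push_cast; linarith) (by push_cast; linarith) (by push_cast; linarith)
    (by push_cast; linarith)
  have hkp : (0:ℝ) < k := by exact_mod_cast hk1
  refine cellSA UV_one (by norm_num) (q := false) (k0 := 140) (lk := 4941643 / 1000000) (r2 := 1 / 20) (N := 83333 / 50000) (Ch := 137083 / 50000)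
    (D1 := R4bC0_2_D1) (D2 := R4bC0_2_D2) (by decide +kernel) hg (by linarith) (by push_cast; linarith) hko
    (by push_cast; linarith) (t1 := ((1 / 3 : ℚ) : ℝ) / k) (by positivity) (le_t hk1 (by push_cast; linarith))
    (t_le hk1 ?_) ?_ h1 h2
  · push_cast; linarith
  · have e : ((n:ℝ) + k) * (a * (((1 / 3 : ℚ) : ℝ) / k)) = (a * (n + k)) * ((1 / 3 : ℚ) : ℝ) / k := by ring
    rw [e, le_div_iff₀ hkp]
    push_cast; linarith

def R4bC1_1_D1 : SD := ⟨3 / 70, 64161 / 100000, 80117 / 100000, (2, 745687 / 250000, 1062469 / 12500000), 1 / 20, 13 / 20, 78169 / 100000,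
    (2, 1414339 / 500000, 835911 / 10000000), 1442383 / 1000000, 141, 123719 / 25000⟩

def R4bC1_1_D2 : SD := ⟨3 / 70, 91071 / 100000, 5617 / 10000, (2, 329063 / 125000, 3022627 / 100000000), 1 / 20, 45833 / 50000, 54787 / 100000,
    (2, 2484913 / 1000000, 603963 / 20000000), 274653 / 250000, 141, 123719 / 25000⟩

theorem R4bC1_1 {n k a : ℕ} {t θ : ℝ} (hg : Good n k a t θ) (hk : (140 : ℝ) ≤ k) (hr : (1 / 20 : ℝ) * k ≤ n)
    (hr2 : (n : ℝ) ≤ 1 / 10 * k) (hκ : (11 / 4 : ℝ) * k ≤ a * (n + k / 2))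
    (hth : (21 / 4 : ℝ) * k ≤ a * (n + k))
    (hT : (13 / 20 : ℝ) ≤ a * t * (n + (k + 1) / 2)) (hc : k * t ≤ 1 / 3) :
    sigma n k a t * rho n k a t θ ≤ 0.016 := by
  have ha : 0 < a := hg.1.2.1.pos
  have hk1 : 0 < k := by have := hg.2.1.1; omega
  have hkn : 140 ≤ k := by exact_mod_cast hk
  have hko : Odd k → ((R4bC1_1_D1).ko:ℝ) ≤ k ∧ ((R4bC1_1_D2).ko:ℝ) ≤ k := by
    rintro ⟨m, hm⟩
    have h : (141:ℝ) ≤ k := by exact_mod_cast (by omega : 141 ≤ k)
    simp only [R4bC1_1_D1, R4bC1_1_D2]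
    push_cast
    exact ⟨h, h⟩
  have h1 := okET_sound (m := false) (k0 := 140) (r1 := 1 / 20) (r2 := 1 / 10) (X0 := 154) (κ := 11 / 4)
    (c0 := 13 / 20) (N := 118461 / 100000) (D := R4bC1_1_D1) (by decide +kernel) (n := n) ha hk1
    (by push_cast; linarith) (by push_cast; linarith) (by push_cast; linarith)
    (by simp only [Bool.false_eq_true, if_false]; push_cast; linarith)
  have h2 := okEc_sound (k0 := 140) (r1 := 1 / 20) (r2 := 1 / 10) (X0 := 154) (κ := 11 / 4)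
    (c := 1 / 3) (D := R4bC1_1_D2) (by decide +kernel) (n := n) (a := a) hk1
    (by push_cast; linarith) (by push_cast; linarith) (by push_cast; linarith)
    (by push_cast; linarith)
  obtain ⟨h10, h11, h12⟩ := h1
  refine cellSA UV_third (by norm_num) (q := false) (k0 := 140) (lk := 4941643 / 1000000) (r2 := 1 / 10) (N := 118461 / 100000) (Ch := 178763 / 100000)
    (D1 := R4bC1_1_D1) (D2 := R4bC1_1_D2) (by decide +kernel) hg (by linarith) (by push_cast; linarith) hko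
    (by push_cast; linarith) h10 (T0_le ha (by push_cast; linarith)) (t_le hk1 ?_) h12 h11 h2
  push_cast; linarith

def R4bC1_2_D1 : SD := ⟨3 / 70, 91071 / 100000, 5617 / 10000, (2, 329063 / 125000, 3022627 / 100000000), 1 / 20, 45833 / 50000, 54787 / 100000,
    (2, 2484913 / 1000000, 603963 / 20000000), 274653 / 250000, 141, 123719 / 25000⟩

def R4bC1_2_D2 : SD := ⟨3 / 70, 20491 / 12500, 13873 / 50000, (2, 511179 / 250000, 36789 / 20000000), 1 / 20, 164999 / 100000, 13289 / 50000,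
    (2, 948563 / 500000, 183637 / 100000000), 20433 / 40000, 141, 123719 / 25000⟩

theorem R4bC1_2 {n k a : ℕ} {t θ : ℝ} (hg : Good n k a t θ) (hk : (140 : ℝ) ≤ k) (hr : (1 / 20 : ℝ) * k ≤ n)
    (hr2 : (n : ℝ) ≤ 1 / 10 * k) (hκ : (11 / 4 : ℝ) * k ≤ a * (n + k / 2))
    (hth : (21 / 4 : ℝ) * k ≤ a * (n + k))
    (hT : (1 / 3 : ℝ) ≤ k * t) (hc : k * t ≤ 3 / 5) :
    sigma n k a t * rho n k a t θ ≤ 0.016 := by
  have ha : 0 < a := hg.1.2.1.pos
  have hk1 : 0 < k := by have := hg.2.1.1; omega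
  have hkn : 140 ≤ k := by exact_mod_cast hk
  have hko : Odd k → ((R4bC1_2_D1).ko:ℝ) ≤ k ∧ ((R4bC1_2_D2).ko:ℝ) ≤ k := by
    rintro ⟨m, hm⟩
    have h : (141:ℝ) ≤ k := by exact_mod_cast (by omega : 141 ≤ k)
    simp only [R4bC1_2_D1, R4bC1_2_D2]
    push_cast
    exact ⟨h, h⟩
  have h1 := okEc_sound (k0 := 140) (r1 := 1 / 20) (r2 := 1 / 10) (X0 := 154) (κ := 11 / 4)
    (c := 1 / 3) (D := R4bC1_2_D1) (by decide +kernel) (n := n) (a := a) hk1
    (by push_cast; linarith) (by push_cast; linarith) (by push_cast; linarith)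
    (by push_cast; linarith)
  have h2 := okEc_sound (k0 := 140) (r1 := 1 / 20) (r2 := 1 / 10) (X0 := 154) (κ := 11 / 4)
    (c := 3 / 5) (D := R4bC1_2_D2) (by decide +kernel) (n := n) (a := a) hk1
    (by push_cast; linarith) (by push_cast; linarith) (by push_cast; linarith)
    (by push_cast; linarith)
  have hkp : (0:ℝ) < k := by exact_mod_cast hk1
  refine cellSA UV_one (by norm_num) (q := false) (k0 := 140) (lk := 4941643 / 1000000) (r2 := 1 / 10) (N := 174999 / 100000) (Ch := 9263 / 3125)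
    (D1 := R4bC1_2_D1) (D2 := R4bC1_2_D2) (by decide +kernel) hg (by linarith) (by push_cast; linarith) hko
    (by push_cast; linarith) (t1 := ((1 / 3 : ℚ) : ℝ) / k) (by positivity) (le_t hk1 (by push_cast; linarith))
    (t_le hk1 ?_) ?_ h1 h2
  · push_cast; linarith
  · have e : ((n:ℝ) + k) * (a * (((1 / 3 : ℚ) : ℝ) / k)) = (a * (n + k)) * ((1 / 3 : ℚ) : ℝ) / k := by ring
    rw [e, le_div_iff₀ hkp]
    push_cast; linarith

def R4bC2_1_D1 : SD := ⟨13 / 140, 6423 / 10000, 74609 / 100000, (2, 2296591 / 1000000, 936681 / 10000000), 1 / 10, 13 / 20, 73133 / 100000,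
    (2, 1111271 / 500000, 4612129 / 50000000), 305879 / 200000, 141, 123719 / 25000⟩

def R4bC2_1_D2 : SD := ⟨13 / 140, 24851 / 25000, 45497 / 100000, (2, 1859869 / 1000000, 512199 / 20000000), 1 / 10, 99999 / 100000, 11143 / 25000,
    (2, 1791769 / 1000000, 2556247 / 100000000), 274653 / 250000, 141, 123719 / 25000⟩

theorem R4bC2_1 {n k a : ℕ} {t θ : ℝ} (hg : Good n k a t θ) (hk : (140 : ℝ) ≤ k) (hr : (1 / 10 : ℝ) * k ≤ n)
    (hr2 : (n : ℝ) ≤ 3 / 20 * k) (hκ : (3 : ℝ) * k ≤ a * (n + k / 2))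
    (hth : (11 / 2 : ℝ) * k ≤ a * (n + k))
    (hT : (13 / 20 : ℝ) ≤ a * t * (n + (k + 1) / 2)) (hc : k * t ≤ 1 / 3) :
    sigma n k a t * rho n k a t θ ≤ 0.016 := by
  have ha : 0 < a := hg.1.2.1.pos
  have hk1 : 0 < k := by have := hg.2.1.1; omega
  have hkn : 140 ≤ k := by exact_mod_cast hk
  have hko : Odd k → ((R4bC2_1_D1).ko:ℝ) ≤ k ∧ ((R4bC2_1_D2).ko:ℝ) ≤ k := by
    rintro ⟨m, hm⟩
    have h : (141:ℝ) ≤ k := by exact_mod_cast (by omega : 141 ≤ k)
    simp only [R4bC2_1_D1, R4bC2_1_D2]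
    push_cast
    exact ⟨h, h⟩
  have h1 := okET_sound (m := false) (k0 := 140) (r1 := 1 / 10) (r2 := 3 / 20) (X0 := 168) (κ := 3)
    (c0 := 13 / 20) (N := 114371 / 100000) (D := R4bC2_1_D1) (by decide +kernel) (n := n) ha hk1
    (by push_cast; linarith) (by push_cast; linarith) (by push_cast; linarith)
    (by simp only [Bool.false_eq_true, if_false]; push_cast; linarith)
  have h2 := okEc_sound (k0 := 140) (r1 := 1 / 10) (r2 := 3 / 20) (X0 := 168) (κ := 3)
    (c := 1 / 3) (D := R4bC2_1_D2) (by decide +kernel) (n := n) (a := a) hk1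
    (by push_cast; linarith) (by push_cast; linarith) (by push_cast; linarith)
    (by push_cast; linarith)
  obtain ⟨h10, h11, h12⟩ := h1
  refine cellSA UV_third (by norm_num) (q := false) (k0 := 140) (lk := 4941643 / 1000000) (r2 := 3 / 20) (N := 114371 / 100000) (Ch := 172851 / 100000)
    (D1 := R4bC2_1_D1) (D2 := R4bC2_1_D2) (by decide +kernel) hg (by linarith) (by push_cast; linarith) hko
    (by push_cast; linarith) h10 (T0_le ha (by push_cast; linarith)) (t_le hk1 ?_) h12 h11 h2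
  push_cast; linarith

end Pool.Agent.SignedQ.Far1
end

section

/-! # FAR-1: the cells (generated data) -/

namespace Pool.Agent.SignedQ.Far1

open Real Pool.Agent.SignedQ.An Pool.Agent.SignedQ.Far

def R4bC2_2_D1 : SD := ⟨13 / 140, 24851 / 25000, 45497 / 100000, (2, 1859869 / 1000000, 512199 / 20000000), 1 / 10, 99999 / 100000, 11143 / 25000,
    (2, 1791769 / 1000000, 2556247 / 100000000), 274653 / 250000, 141, 123719 / 25000⟩

def R4bC2_2_D2 : SD := ⟨13 / 140, 11183 / 6250, 3947 / 20000, (2, 1272077 / 1000000, 136497 / 100000000), 1 / 10, 179999 / 100000, 19039 / 100000,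
    (2, 601989 / 500000, 136041 / 100000000), 20433 / 40000, 141, 123719 / 25000⟩

theorem R4bC2_2 {n k a : ℕ} {t θ : ℝ} (hg : Good n k a t θ) (hk : (140 : ℝ) ≤ k) (hr : (1 / 10 : ℝ) * k ≤ n)
    (hr2 : (n : ℝ) ≤ 3 / 20 * k) (hκ : (3 : ℝ) * k ≤ a * (n + k / 2))
    (hth : (11 / 2 : ℝ) * k ≤ a * (n + k))
    (hT : (1 / 3 : ℝ) ≤ k * t) (hc : k * t ≤ 3 / 5) :
    sigma n k a t * rho n k a t θ ≤ 0.016 := by
  have ha : 0 < a := hg.1.2.1.pos
  have hk1 : 0 < k := by have := hg.2.1.1; omega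
  have hkn : 140 ≤ k := by exact_mod_cast hk
  have hko : Odd k → ((R4bC2_2_D1).ko:ℝ) ≤ k ∧ ((R4bC2_2_D2).ko:ℝ) ≤ k := by
    rintro ⟨m, hm⟩
    have h : (141:ℝ) ≤ k := by exact_mod_cast (by omega : 141 ≤ k)
    simp only [R4bC2_2_D1, R4bC2_2_D2]
    push_cast
    exact ⟨h, h⟩
  have h1 := okEc_sound (k0 := 140) (r1 := 1 / 10) (r2 := 3 / 20) (X0 := 168) (κ := 3)
    (c := 1 / 3) (D := R4bC2_2_D1) (by decide +kernel) (n := n) (a := a) hk1
    (by push_cast; linarith) (by push_cast; linarith) (by push_cast; linarith)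
    (by push_cast; linarith)
  have h2 := okEc_sound (k0 := 140) (r1 := 1 / 10) (r2 := 3 / 20) (X0 := 168) (κ := 3)
    (c := 3 / 5) (D := R4bC2_2_D2) (by decide +kernel) (n := n) (a := a) hk1
    (by push_cast; linarith) (by push_cast; linarith) (by push_cast; linarith)
    (by push_cast; linarith)
  have hkp : (0:ℝ) < k := by exact_mod_cast hk1
  refine cellSA UV_one (by norm_num) (q := false) (k0 := 140) (lk := 4941643 / 1000000) (r2 := 3 / 20) (N := 183333 / 100000) (Ch := 40091 / 12500)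
    (D1 := R4bC2_2_D1) (D2 := R4bC2_2_D2) (by decide +kernel) hg (by linarith) (by push_cast; linarith) hko
    (by push_cast; linarith) (t1 := ((1 / 3 : ℚ) : ℝ) / k) (by positivity) (le_t hk1 (by push_cast; linarith))
    (t_le hk1 ?_) ?_ h1 h2
  · push_cast; linarith
  · have e : ((n:ℝ) + k) * (a * (((1 / 3 : ℚ) : ℝ) / k)) = (a * (n + k)) * ((1 / 3 : ℚ) : ℝ) / k := by ring
    rw [e, le_div_iff₀ hkp]
    push_cast; linarith

theorem R4aB_2b {n k a : ℕ} {t θ : ℝ} (hg : Good n k a t θ) (hk : (100 : ℝ) ≤ k) (hr : (1 / 5 : ℝ) * k ≤ n)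
    (hκ : (7 / 2 : ℝ) * k ≤ a * (n + k / 2)) (hT : (1 / 3 : ℝ) ≤ k * t)
    (hc : k * t ≤ 1) :
    sigma n k a t * rho n k a t θ ≤ 0.016 :=
  cellST_c UV_one (by norm_num) (q := false) (k0 := 100) (lk := 4605171 / 1000000) (r := 1 / 5) (κ := 7 / 2)
    (c1 := 1 / 3) (c2 := 1) (z1 := 58333 / 100000) (g1 := 75937 / 100000) (z2 := 174999 / 100000) (g2 := 297 / 2000)
    (L1 := 274653 / 250000) (L2 := 0) (d1 := (2, 358353 / 200000, 6766841 / 50000000))
    (d2 := (1, 7357631 / 20000000, 247883 / 100000000)) (by decide +kernel) hg (by linarith) (by push_cast; linarith)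
    (by push_cast; linarith) (by push_cast; linarith) (by push_cast; linarith) (by push_cast; linarith)

theorem R4bB_2 {n k a : ℕ} {t θ : ℝ} (hg : Good n k a t θ) (hk : (140 : ℝ) ≤ k) (hr : (3 / 20 : ℝ) * k ≤ n)
    (hκ : (13 / 4 : ℝ) * k ≤ a * (n + k / 2)) (hT : (1 / 3 : ℝ) ≤ k * t)
    (hc : k * t ≤ 1) :
    sigma n k a t * rho n k a t θ ≤ 0.016 :=
  cellST_c UV_one (by norm_num) (q := false) (k0 := 140) (lk := 4941643 / 1000000) (r := 3 / 20) (κ := 13 / 4)
    (c1 := 1 / 3) (c2 := 1) (z1 := 27083 / 50000) (g1 := 84161 / 100000) (z2 := 162499 / 100000) (g2 := 241 / 1250)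
    (L1 := 274653 / 250000) (L2 := 0) (d1 := (2, 2079453 / 1000000, 14709993 / 100000000))
    (d2 := (1, 23618437 / 50000000, 318289 / 100000000)) (by decide +kernel) hg (by linarith) (by push_cast; linarith)
    (by push_cast; linarith) (by push_cast; linarith) (by push_cast; linarith) (by push_cast; linarith)

def R4aB_2a_D1 : SD := ⟨7 / 50, 107499 / 100000, 9473 / 25000, (2, 723757 / 500000, 2171717 / 100000000), 3 / 20, 108333 / 100000, 36931 / 100000,
    (2, 1386297 / 1000000, 1081881 / 50000000), 274653 / 250000, 101, 4615121 / 1000000⟩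

def R4aB_2a_D2 : SD := ⟨7 / 50, 193499 / 100000, 452 / 3125, (1, 21444429 / 50000000, 20289 / 20000000), 3 / 20, 194999 / 100000, 2757 / 20000,
    (1, 20328577 / 50000000, 50391 / 50000000), 20433 / 40000, 101, 4615121 / 1000000⟩

theorem R4aB_2a {n k a : ℕ} {t θ : ℝ} (hg : Good n k a t θ) (hk : (100 : ℝ) ≤ k) (hr : (3 / 20 : ℝ) * k ≤ n)
    (hr2 : (n : ℝ) ≤ 1 / 5 * k) (hκ : (13 / 4 : ℝ) * k ≤ a * (n + k / 2))
    (hth : (23 / 4 : ℝ) * k ≤ a * (n + k))
    (hT : (1 / 3 : ℝ) ≤ k * t) (hc : k * t ≤ 3 / 5) :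
    sigma n k a t * rho n k a t θ ≤ 0.016 := by
  have ha : 0 < a := hg.1.2.1.pos
  have hk1 : 0 < k := by have := hg.2.1.1; omega
  have hkn : 100 ≤ k := by exact_mod_cast hk
  have hko : Odd k → ((R4aB_2a_D1).ko:ℝ) ≤ k ∧ ((R4aB_2a_D2).ko:ℝ) ≤ k := by
    rintro ⟨m, hm⟩
    have h : (101:ℝ) ≤ k := by exact_mod_cast (by omega : 101 ≤ k)
    simp only [R4aB_2a_D1, R4aB_2a_D2]
    push_cast
    exact ⟨h, h⟩
  have h1 := okEc_sound (k0 := 100) (r1 := 3 / 20) (r2 := 1 / 5) (X0 := 130) (κ := 13 / 4)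
    (c := 1 / 3) (D := R4aB_2a_D1) (by decide +kernel) (n := n) (a := a) hk1
    (by push_cast; linarith) (by push_cast; linarith) (by push_cast; linarith)
    (by push_cast; linarith)
  have h2 := okEc_sound (k0 := 100) (r1 := 3 / 20) (r2 := 1 / 5) (X0 := 130) (κ := 13 / 4)
    (c := 3 / 5) (D := R4aB_2a_D2) (by decide +kernel) (n := n) (a := a) hk1
    (by push_cast; linarith) (by push_cast; linarith) (by push_cast; linarith)
    (by push_cast; linarith)
  have hkp : (0:ℝ) < k := by exact_mod_cast hk1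
  refine cellSA UV_one (by norm_num) (q := false) (k0 := 100) (lk := 4605171 / 1000000) (r2 := 1 / 5) (N := 95833 / 50000) (Ch := 69453 / 20000)
    (D1 := R4aB_2a_D1) (D2 := R4aB_2a_D2) (by decide +kernel) hg (by linarith) (by push_cast; linarith) hko
    (by push_cast; linarith) (t1 := ((1 / 3 : ℚ) : ℝ) / k) (by positivity) (le_t hk1 (by push_cast; linarith))
    (t_le hk1 ?_) ?_ h1 h2
  · push_cast; linarith
  · have e : ((n:ℝ) + k) * (a * (((1 / 3 : ℚ) : ℝ) / k)) = (a * (n + k)) * ((1 / 3 : ℚ) : ℝ) / k := by ring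
    rw [e, le_div_iff₀ hkp]
    push_cast; linarith

theorem R4aB_3a {n k a : ℕ} {t θ : ℝ} (hg : Good n k a t θ) (hk : (100 : ℝ) ≤ k) (hr : (3 / 20 : ℝ) * k ≤ n)
    (hκ : (13 / 4 : ℝ) * k ≤ a * (n + k / 2)) (hT : (3 / 5 : ℝ) ≤ k * t)
    (hc : k * t ≤ 1) :
    sigma n k a t * rho n k a t θ ≤ 0.016 :=
  cellST_c UV_one (by norm_num) (q := false) (k0 := 100) (lk := 4605171 / 1000000) (r := 3 / 20) (κ := 13 / 4)
    (c1 := 3 / 5) (c2 := 1) (z1 := 97499 / 100000) (g1 := 42757 / 100000) (z2 := 162499 / 100000) (g2 := 241 / 1250)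
    (L1 := 20433 / 40000) (L2 := 0) (d1 := (2, 298333 / 200000, 126987 / 4000000))
    (d2 := (1, 23618437 / 50000000, 318289 / 100000000)) (by decide +kernel) hg (by linarith) (by push_cast; linarith)
    (by push_cast; linarith) (by push_cast; linarith) (by push_cast; linarith) (by push_cast; linarith)

theorem R4aC_3 {n k a : ℕ} {t θ : ℝ} (hg : Good n k a t θ) (hk : (100 : ℝ) ≤ k) (ha : (5 : ℝ) ≤ a)
    (hN : (31499 / 10000 : ℝ) * k ≤ a * (n + k) * (3 / 5)) (hT : (3 / 5 : ℝ) ≤ k * t)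
    (hc : k * t ≤ 1) :
    sigma n k a t * rho n k a t θ ≤ 0.016 :=
  cellN5 UV_one (by norm_num) (q := true) (k0 := 100) (lk := 4605171 / 1000000) (c1 := 3 / 5) (c2 := 1)
    (am := 5) (N := 31499 / 10000) (E := 42857 / 1000000) (L1 := 20433 / 40000) (L2 := 0) (by decide +kernel) hg
    (by linarith) (by push_cast; linarith) (by push_cast; linarith) (by push_cast; linarith)
    (by push_cast; linarith) (by push_cast; linarith)

theorem R4bC_3 {n k a : ℕ} {t θ : ℝ} (hg : Good n k a t θ) (hk : (140 : ℝ) ≤ k) (ha : (5 : ℝ) ≤ a)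
    (hN : (29999 / 10000 : ℝ) * k ≤ a * (n + k) * (3 / 5)) (hT : (3 / 5 : ℝ) ≤ k * t)
    (hc : k * t ≤ 1) :
    sigma n k a t * rho n k a t θ ≤ 0.016 :=
  cellN5 UV_one (by norm_num) (q := false) (k0 := 140) (lk := 4941643 / 1000000) (c1 := 3 / 5) (c2 := 1)
    (am := 5) (N := 29999 / 10000) (E := 49793 / 1000000) (L1 := 20433 / 40000) (L2 := 0) (by decide +kernel) hg
    (by linarith) (by push_cast; linarith) (by push_cast; linarith) (by push_cast; linarith)
    (by push_cast; linarith) (by push_cast; linarith)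

theorem R5a3 {n k a : ℕ} {t θ : ℝ} (hg : Good n k a t θ) (hk : (200 : ℝ) ≤ k) (hr : (1 / 4 : ℝ) * k ≤ n)
    (hκ : (9 / 4 : ℝ) * k ≤ a * (n + k / 2)) (hT : (3 / 4 : ℝ) ≤ k * t)
    (hc : k * t ≤ 1) :
    sigma n k a t * rho n k a t θ ≤ 0.016 :=
  cellST_c UV_one (by norm_num) (q := false) (k0 := 200) (lk := 2649159 / 500000) (r := 1 / 4) (κ := 9 / 4)
    (c1 := 3 / 4) (c2 := 1) (z1 := 42187 / 50000) (g1 := 47611 / 100000) (z2 := 112499 / 100000) (g2 := 30777 / 100000)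
    (L1 := 143841 / 500000) (L2 := 0) (d1 := (2, 1268523 / 1000000, 3002833 / 50000000))
    (d2 := (1, 47236971 / 100000000, 587963 / 25000000)) (by decide +kernel) hg (by linarith) (by push_cast; linarith)
    (by push_cast; linarith) (by push_cast; linarith) (by push_cast; linarith) (by push_cast; linarith)

end Pool.Agent.SignedQ.Far1
end
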