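import Pool.Agent.Lib.MP_cf17a0_co.S1.FarC5
import Pool.Agent.Lib.MP_cf17a0_co.S1.C.E8b
import Pool.Agent.Lib.MP_cf17a0_co.S1.InData

section

/-! # FAR, part (C): zones B and J, and the conclusion -/

namespace Pool.Agent.SignedQ.FarC

open Real Finset Pool.Agent.SignedQ.Herm Pool.Agent.SignedQ.An

/-! ### Zone B: `1/10 ≤ θ ≤ 9/10` -/

theorem finB {k ν K A kA : ℝ} (hνK : 2 * ν ≤ K) (hK : K ≤ 1) (hex : K ≤ 3 / 4 ∨ 4 * ν ≤ K)
    (hA : A = 0.261 - 0.198 * ν - 0.099 * K)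
    (hkA : 0.0075 ≤ A → 200 * A + (k - 200) * 0.0075 ≤ kA) {S : ℝ}
    (h1 : K ≤ 0.7 → S ≤ 7.9482 + 0.0075 * (k - 200) + 0.811)
    (h2 : 0.7 ≤ K → S ≤ 7.9482 + 0.0075 * (k - 200) + 0.3568 ∧
      S ≤ 7.9482 + 0.0075 * (k - 200) + 10 / 7 * (1 - K)) :
    S + (-kA + 0.099 * K + 9.276) ≤ -4.1352 := by
  have hA1 : 0.0075 ≤ A := by
    rw [hA]; norm_num; linarith
  have h := hkA hA1
  rw [hA] at h
  norm_num at h h1 h2 ⊢
  rcases hex with hc | hc
  · rcases le_total K (7 / 10) with h7 | h7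
    · have := h1 h7; linarith
    · have := (h2 h7).1; linarith
  · rcases le_total K (7 / 10) with h7 | h7
    · have := h1 h7; linarith
    · have := (h2 h7).2; linarith

theorem zoneB {n k : ℕ} (hpar : Even (n * k)) (hnk : 2 * n < k) (hk : 200 ≤ k) {t θ : ℝ}
    (ht : 0 < t) (hkt : k * t ≤ 1) (hex : 4 * n < k ∨ k * t ≤ 3 / 4) (h6 : 1 / 10 ≤ θ)
    (h10 : θ ≤ 9 / 10) : sigma n k 3 t * rho n k 3 t θ ≤ 0.016 := by
  have hk' : (200 : ℝ) ≤ k := by exact_mod_cast hk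
  have hn' : (2 : ℝ) * n < k := by exact_mod_cast hnk
  have hkp : (0 : ℝ) < k := by linarith
  have hθ : 0 < θ := by linarith
  have hpi := pi_gt_three
  have htk : t ≤ 1 / 200 := by
    have : 200 * t ≤ 1 := le_trans (mul_le_mul_of_nonneg_right hk' ht.le) hkt
    linarith
  have hline := sum_line (g := fun r => m2 r - r ^ 5 / 5 + r ^ 7 / 7) (α := 0.261) (β := 0.198)
    (fun r h0 h1 => by unfold m2; exact N2 h0 h1) (n := n) (k := k) ht
  have hr0 := rr_pos n t 0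
  have hr1 := (rr_lt (n := n) ht 0).le
  have o1 := (abs_le.1 (osc_le (C := cE 5 0) (fun x y a b c => cE_mono (by norm_num) a b c)
    (fun x a b => cE_nonneg (by norm_num) a b) ht n k 1 θ (s := 0.9004) (b := 0.8415)
    (by norm_num) (by
      rw [s1]
      refine le_trans ?_ (le_abs_self _)
      have h1 := cos_lower (x := θ / 2) (y := 0.45) (by linarith) (by norm_num; linarith)
        (by norm_num; linarith)
      exact c45.trans h1) (cE50 hr0.le hr1))).2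
  have o2 := (abs_le.1 (osc_le (C := cE 5 1) (fun x y a b c => cE_mono (by norm_num) a b c)
    (fun x a b => cE_nonneg (by norm_num) a b) ht n k 2 θ (s := 0.0998) (b := 1 / 2)
    (by norm_num) (by
      rw [s2, abs_neg]
      refine le_trans ?_ (le_abs_self _)
      have h1 : sin 0.1 ≤ sin θ := sin_le_sin_of_le_of_le_pi_div_two
        (by norm_num; linarith) (by linarith) (by norm_num; linarith)
      exact s10.trans h1) ((cE51 hr0.le hr1).trans (by nlinarith)))).2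
  have o3 := (abs_le.1 (osc_le (C := fun r => 2 / 3 * (r ^ 3 / (1 + r ^ 6))) R_mono R_nonneg
    ht n k 3 θ (s := 0.219) (b := 1 / 3)
    (by norm_num) (by
      rw [s3, abs_neg]
      refine le_trans ?_ (le_abs_self _)
      have h1 := cos_lower (x := 3 * θ / 2) (y := 1.35) (by linarith) (by norm_num; linarith)
        (by norm_num; linarith)
      exact c135.trans h1) (R_le _ hr0.le hr1))).1
  have o4 := (abs_le.1 (osc_le (C := cE 5 3) (fun x y a b c => cE_mono (by norm_num) a b c)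
    (fun x a b => cE_nonneg (by norm_num) a b) ht n k 4 θ (s := 0.1986) (b := 1 / 4)
    (by norm_num) (by
      rw [s4]
      refine le_trans ?_ (le_abs_self _)
      rcases le_total (2 * θ) (π / 2) with h | h
      · have h1 : sin 0.2 ≤ sin (2 * θ) := sin_le_sin_of_le_of_le_pi_div_two
          (by norm_num; linarith) h (by norm_num; linarith)
        exact s20.trans h1
      · have h1 : sin 0.2 ≤ sin (π - 2 * θ) := sin_le_sin_of_le_of_le_pi_div_two
          (by norm_num; linarith) (by linarith) (by norm_num; linarith)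
        rw [sin_pi_sub] at h1
        exact s20.trans h1) ((cE53 hr0.le hr1).trans (by
          have : rr n t 0 ^ 4 ≤ 1 := pow_le_one₀ hr0.le hr1
          linarith)))).2
  have o5 : ∑ v ∈ range k, cE 5 4 (rr n t v) * cos (5 * ph n θ v) ≤
      ∑ v ∈ range k, (rr n t v ^ 5 / 5 - rr n t v ^ 7 / 7) := by
    refine sum_le_sum fun v _ => ?_
    have hp := rr_pos n t v
    have hp1 := (rr_lt (n := n) ht v).le
    have h1 := cE54 hp.le hp1
    have h2 : 0 ≤ cE 5 4 (rr n t v) := cE_nonneg (by norm_num) hp.le hp1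
    have h3 := cos_le_one (5 * ph n θ v)
    nlinarith
  have esum : ∑ v ∈ range k, (fun r => m2 r - r ^ 5 / 5 + r ^ 7 / 7) (rr n t v) =
      ∑ v ∈ range k, m2 (rr n t v) - ∑ v ∈ range k, (rr n t v ^ 5 / 5 - rr n t v ^ 7 / 7) := by
    rw [← sum_sub_distrib]
    exact sum_congr rfl fun v _ => by ring
  rw [esum] at hline
  obtain ⟨ν, hν⟩ : ∃ ν : ℝ, ν = n * t := ⟨_, rfl⟩
  obtain ⟨K, hK⟩ : ∃ K : ℝ, K = k * t := ⟨_, rfl⟩
  have hK0 : 0 < K := by rw [hK]; positivity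
  have hνK : 2 * ν ≤ K := by rw [hν, hK]; nlinarith
  have hK1 : K ≤ 1 := by rw [hK]; exact hkt
  have hsum : t * (k * n + k * (k + 1) / 2) = k * ν + k * K / 2 + K / 2 := by rw [hν, hK]; ring
  rw [hsum] at hline
  have hsg := sgbound hk hnk ht hkt
  rw [← hK] at hsg
  have hex' : K ≤ 3 / 4 ∨ 4 * ν ≤ K := by
    rcases hex with h | h
    · right
      have hn4 : (4 : ℝ) * n < k := by exact_mod_cast h
      rw [hν, hK]; nlinarith
    · left; rw [hK]; exact h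
  have hX : log ((cosh t + cos θ) / (cosh t + 1)) ≤ 0 := by
    refine log_nonpos (X_pos ht θ).le ?_
    have h1 : 0 < cosh t + 1 := by have := cosh_pos t; linarith
    rw [div_le_one h1]
    linarith [cos_le_one θ]
  have hXc : (((k + 1) / 2 - (n + 1) / 2 : ℕ) : ℝ) / 2 * log ((cosh t + cos θ) / (cosh t + 1)) ≤ 0 :=
    mul_nonpos_of_nonneg_of_nonpos (by positivity) hX
  have hJ := J2_sum (n := n) (k := k) ht θ
  have hl3 := n3
  obtain ⟨A, hA⟩ : ∃ A : ℝ, A = 0.261 - 0.198 * ν - 0.099 * K := ⟨_, rfl⟩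
  have hkA' : k * A = k * 0.261 - 0.198 * (k * ν + k * K / 2) := by rw [hA]; ring
  have c1 : (0.8415 : ℝ) / 0.9004 ≤ 0.9346 := by norm_num
  have c2 : (1 : ℝ) / 2 / 0.0998 ≤ 5.0101 := by norm_num
  have c3 : (1 : ℝ) / 3 / 0.219 ≤ 1.5221 := by norm_num
  have c4 : (1 : ℝ) / 4 / 0.1986 ≤ 1.2589 := by norm_num
  have hB : (((k + 1) / 2 - (n + 1) / 2 : ℕ) : ℝ) / 2 * log ((cosh t + cos θ) / (cosh t + 1)) +
      1 / 2 * log (PP n k t θ / PP n k t 0) ≤ -(k * A) + 0.099 * K + 9.276 := by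
    have o1' := o1.trans c1
    have o2' := o2.trans c2
    have o3' := (neg_le_neg c3).trans o3
    have o4' := o4.trans c4
    clear o1 o2 o3 o4 c1 c2 c3 c4 hsg hX
    linarith
  exact sig_rho_le hpar (by omega) (by omega) ht (by linarith) hB le_rfl
    (finB hνK hK1 hex' hA (kA_le hk') hsg.1 hsg.2)

/-! ### Zone J: `9/10 ≤ θ ≤ π - 5/k` -/

/-- collecting the terms -/
theorem collectJ {k ν K kA x L M l3 S1 S2 c : ℝ} {X : ℝ} (hXc : x ≤ X)
    (hJ : L ≤ -M + 1 / 2 * l3 + S1 + S2)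
    (hline : k * 0.087 - 0.0485 * (k * ν + k * K / 2 + K / 2) ≤ M) (hl3 : l3 ≤ 1.0987)
    (o1 : S1 ≤ 0.71 / c) (o2 : S2 ≤ 0.2426 / c)
    (hkA : kA = k * 0.087 - 0.0485 * (k * ν + k * K / 2)) :
    x + L ≤ X - kA + 0.02425 * K + 0.54935 + 0.9526 / c := by
  have : (0.9526 : ℝ) / c = 0.71 / c + 0.2426 / c := by rw [← add_div]; norm_num
  rw [this]
  linarith

theorem finJa {k ν K A kA c L ic : ℝ} (hk : 200 ≤ k) (hνK : 2 * ν ≤ K) (hK : K ≤ 1)
    (hex : K ≤ 3 / 4 ∨ 4 * ν ≤ K) (hc2 : c ≤ 0.901)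
    (hic : ic ≤ 11.1099 - 11.0987 * c) (hL : 1.2772 - 1.1891 * c ≤ L)
    (hA : A = 0.087 - 0.0485 * ν - 0.02425 * K)
    (hkA : 0.0075 ≤ A → 200 * A + (k - 200) * 0.0075 ≤ kA) {S : ℝ}
    (h1 : K ≤ 0.7 → S ≤ 7.9482 + 0.0075 * (k - 200) + 0.811)
    (h2 : 0.7 ≤ K → S ≤ 7.9482 + 0.0075 * (k - 200) + 0.3568 ∧
      S ≤ 7.9482 + 0.0075 * (k - 200) + 10 / 7 * (1 - K)) :
    S + (-((k - 1) / 8 * L) - kA + 0.02425 * K + 0.54935 + 0.9526 * ic) ≤ -4.1352 := by
  have hA1 : 0.0075 ≤ A := by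
    rw [hA]; norm_num; linarith
  have h := hkA hA1
  rw [hA] at h
  norm_num at h h1 h2 hc2 hic hL ⊢
  have hL0 : 0 ≤ L := by linarith
  have h3 : 199 / 8 * L ≤ (k - 1) / 8 * L := mul_le_mul_of_nonneg_right (by linarith) hL0
  rcases hex with hc | hc
  · rcases le_total K (7 / 10) with h7 | h7
    · have := h1 h7; linarith
    · have := (h2 h7).1; linarith
  · rcases le_total K (7 / 10) with h7 | h7
    · have := h1 h7; linarith
    · have := (h2 h7).2; linarith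

theorem finJb {k ν K A kA ic : ℝ} (hk : 200 ≤ k) (hνK : 2 * ν ≤ K) (hK : K ≤ 1)
    (hex : K ≤ 3 / 4 ∨ 4 * ν ≤ K) (hic : ic ≤ 0.4001 * k)
    (hA : A = 0.087 - 0.0485 * ν - 0.02425 * K)
    (hkA : 0.0075 ≤ A → 200 * A + (k - 200) * 0.0075 ≤ kA) {S : ℝ}
    (h1 : K ≤ 0.7 → S ≤ 7.9482 + 0.0075 * (k - 200) + 0.811)
    (h2 : 0.7 ≤ K → S ≤ 7.9482 + 0.0075 * (k - 200) + 0.3568 ∧
      S ≤ 7.9482 + 0.0075 * (k - 200) + 10 / 7 * (1 - K)) :
    S + (-((k - 1) / 8 * 4.5) - kA + 0.02425 * K + 0.54935 + 0.9526 * ic) ≤ -4.1352 := by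
  have hA1 : 0.0075 ≤ A := by
    rw [hA]; norm_num; linarith
  have h := hkA hA1
  rw [hA] at h
  norm_num at h h1 h2 hic ⊢
  rcases hex with hc | hc
  · rcases le_total K (7 / 10) with h7 | h7
    · have := h1 h7; linarith
    · have := (h2 h7).1; linarith
  · rcases le_total K (7 / 10) with h7 | h7
    · have := h1 h7; linarith
    · have := (h2 h7).2; linarith

theorem cosh_small {t : ℝ} (h : |t| ≤ 1 / 200) : cosh t ≤ 1.0001 := by
  have h1 := cosh_le_exp_half_sq t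
  have h2 : t ^ 2 ≤ (1 / 200) ^ 2 := by rw [← sq_abs]; exact pow_le_pow_left₀ (abs_nonneg _) h 2
  have h3 : exp (t ^ 2 / 2) ≤ 1 + 2 * (t ^ 2 / 2) := by
    have h4 : |t ^ 2 / 2| ≤ 1 := by
      rw [abs_of_nonneg (by positivity)]
      norm_num at h2
      linarith
    have h5 := abs_exp_sub_one_le h4
    rw [abs_of_nonneg (by positivity : 0 ≤ t ^ 2 / 2)] at h5
    have := (abs_le.1 h5).2
    linarith
  norm_num at h2 ⊢
  linarith

/-- the exponent of `X` -/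
theorem cc_ge {n k : ℕ} (hnk : 2 * n < k) :
    ((k : ℝ) - 1) / 8 ≤ (((k + 1) / 2 - (n + 1) / 2 : ℕ) : ℝ) / 2 := by
  have h1 : k ≤ 4 * ((k + 1) / 2 - (n + 1) / 2) + 1 := by omega
  have h2 : (k : ℝ) ≤ 4 * (((k + 1) / 2 - (n + 1) / 2 : ℕ) : ℝ) + 1 := by exact_mod_cast h1
  linarith

theorem zoneJ {n k : ℕ} (hpar : Even (n * k)) (hnk : 2 * n < k) (hk : 200 ≤ k) {t θ : ℝ}
    (ht : 0 < t) (hkt : k * t ≤ 1) (hex : 4 * n < k ∨ k * t ≤ 3 / 4) (h9 : 9 / 10 ≤ θ)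
    (hπ : θ ≤ π - 5 / k) : sigma n k 3 t * rho n k 3 t θ ≤ 0.016 := by
  have hk' : (200 : ℝ) ≤ k := by exact_mod_cast hk
  have hn' : (2 : ℝ) * n < k := by exact_mod_cast hnk
  have hkp : (0 : ℝ) < k := by linarith
  have hθ : 0 < θ := by linarith
  have hpi := pi_gt_three
  have h5k : 0 < (5 : ℝ) / k := by positivity
  have htk : t ≤ 1 / 200 := by
    have : 200 * t ≤ 1 := le_trans (mul_le_mul_of_nonneg_right hk' ht.le) hkt
    linarith
  have hline := sum_line (g := m1) (α := 0.087) (β := 0.0485)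
    (fun r h0 h1 => by unfold m1; exact N3 h0 h1) (n := n) (k := k) ht
  have hr0 := rr_pos n t 0
  have hr1 := (rr_lt (n := n) ht 0).le
  obtain ⟨c, hc⟩ : ∃ c : ℝ, c = cos (θ / 2) := ⟨_, rfl⟩
  have hcpos : 0 < c := by
    rw [hc]; exact cos_pos_of_mem_Ioo ⟨by linarith, by linarith⟩
  have hs : 0.4349 ≤ sin (θ / 2) := s45.trans (sin_le_sin_of_le_of_le_pi_div_two
    (by norm_num; linarith) (by linarith) (by norm_num; linarith))
  have hsin : 0.8698 * c ≤ sin θ := by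
    have e : sin θ = 2 * sin (θ / 2) * cos (θ / 2) := by rw [← sin_two_mul]; congr 1; ring
    rw [e, ← hc]
    norm_num at hs ⊢
    nlinarith
  have o1 := (abs_le.1 (osc_le (C := cE 2 0) (fun x y a b c => cE_mono (by norm_num) a b c)
    (fun x a b => cE_nonneg (by norm_num) a b) ht n k 1 θ (s := c) (b := 0.71)
    hcpos (by rw [s1, ← hc]; exact le_abs_self _) (cE20 hr0.le hr1))).2
  have o2 := (abs_le.1 (osc_le (C := cE 2 1) (fun x y a b c => cE_mono (by norm_num) a b c)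
    (fun x a b => cE_nonneg (by norm_num) a b) ht n k 2 θ (s := 0.8698 * c) (b := 0.211)
    (by positivity) (by rw [s2, abs_neg]; exact hsin.trans (le_abs_self _))
    (cE21 hr0.le hr1))).2
  have o2' : ∑ v ∈ range k, cE 2 1 (rr n t v) * cos (2 * ph n θ v) ≤ 0.2426 / c := by
    refine o2.trans ?_
    rw [div_le_div_iff₀ (by positivity) hcpos]
    norm_num
    nlinarith
  obtain ⟨ν, hν⟩ : ∃ ν : ℝ, ν = n * t := ⟨_, rfl⟩
  obtain ⟨K, hK⟩ : ∃ K : ℝ, K = k * t := ⟨_, rfl⟩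
  have hK0 : 0 < K := by rw [hK]; positivity
  have hνK : 2 * ν ≤ K := by rw [hν, hK]; nlinarith
  have hK1 : K ≤ 1 := by rw [hK]; exact hkt
  have hsum : t * (k * n + k * (k + 1) / 2) = k * ν + k * K / 2 + K / 2 := by rw [hν, hK]; ring
  rw [hsum] at hline
  have hsg := sgbound hk hnk ht hkt
  rw [← hK] at hsg
  have hex' : K ≤ 3 / 4 ∨ 4 * ν ≤ K := by
    rcases hex with h | h
    · right
      have hn4 : (4 : ℝ) * n < k := by exact_mod_cast h
      rw [hν, hK]; nlinarith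
    · left; rw [hK]; exact h
  have hJ := J1_sum (n := n) (k := k) ht θ
  have hl3 := n3
  obtain ⟨A, hA⟩ : ∃ A : ℝ, A = 0.087 - 0.0485 * ν - 0.02425 * K := ⟨_, rfl⟩
  have hkA' : k * A = k * 0.087 - 0.0485 * (k * ν + k * K / 2) := by rw [hA]; ring
  -- `X`
  have hcosh := cosh_small (t := t) (by rw [abs_of_pos ht]; exact htk)
  have hcosh1 : 1 ≤ cosh t := one_le_cosh t
  have hcθ : cos θ = 2 * c ^ 2 - 1 := by
    rw [hc, ← cos_two_mul]; congr 1; ring
  have hcc := cc_ge hnk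
  have hXp := X_pos ht θ
  rcases le_total c 0.1 with h01 | h01
  · -- near `π`
    have hX : log ((cosh t + cos θ) / (cosh t + 1)) ≤ -4.5 := by
      have h1 : (cosh t + cos θ) / (cosh t + 1) ≤ 0.0101 := by
        rw [div_le_iff₀ (by linarith), hcθ]
        have : c ^ 2 ≤ 0.1 ^ 2 := pow_le_pow_left₀ hcpos.le h01 2
        norm_num at this hcosh ⊢
        linarith
      have h2 := log_le_log hXp (h1.trans exp45)
      rw [log_exp] at h2
      norm_num at h2 ⊢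
      exact h2
    have hXc : (((k + 1) / 2 - (n + 1) / 2 : ℕ) : ℝ) / 2 *
        log ((cosh t + cos θ) / (cosh t + 1)) ≤ -((k - 1) / 8 * 4.5) := by
      have h1 : (((k + 1) / 2 - (n + 1) / 2 : ℕ) : ℝ) / 2 *
        log ((cosh t + cos θ) / (cosh t + 1)) ≤ (((k + 1) / 2 - (n + 1) / 2 : ℕ) : ℝ) / 2 * (-4.5) :=
        mul_le_mul_of_nonneg_left hX (by positivity)
      norm_num at h1 ⊢
      linarith
    have hic : 1 / c ≤ 0.4001 * k := by
      have h1 : cos (θ / 2) = sin ((π - θ) / 2) := by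
        rw [← cos_pi_div_two_sub]; congr 1; ring
      have hx : 0 < (2.5 : ℝ) / k := by positivity
      have h2 := sinc3 hx (by rw [div_le_iff₀ hkp]; norm_num; linarith)
      have h3 : sin (2.5 / k) ≤ sin ((π - θ) / 2) := sin_le_sin_of_le_of_le_pi_div_two
        (by linarith) (by linarith) (by
          have : (2.5 : ℝ) / k = 5 / k / 2 := by ring
          rw [this]; linarith)
      have h4 : 0.99985 * (2.5 / k) ≤ c := by rw [hc, h1]; exact h2.trans h3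
      rw [div_le_iff₀ hcpos]
      have h5 : 0.4001 * k * (0.99985 * (2.5 / k)) ≤ 0.4001 * k * c :=
        mul_le_mul_of_nonneg_left h4 (by positivity)
      have h6 : 0.4001 * (k : ℝ) * (0.99985 * (2.5 / k)) = 0.4001 * 0.99985 * 2.5 := by field_simp
      rw [h6] at h5
      norm_num at h5 ⊢
      linarith
    have hB := collectJ hXc hJ hline hl3 o1 o2' hkA'
    rw [show (0.9526 : ℝ) / c = 0.9526 * (1 / c) by ring] at hB
    exact sig_rho_le hpar (by omega) (by omega) ht (by linarith) hB le_rfl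
      (finJb hk' hνK hK1 hex' hic hA (kA_le hk') hsg.1 hsg.2)
  · -- the middle
    have hc9 : c ≤ 0.901 := by
      rw [hc]
      exact (cos_lower (x := 0.45) (y := θ / 2) (by norm_num) (by norm_num; linarith)
        (by linarith)).trans cosU45
    have hquad : 0 ≤ (c - 0.1) * (0.901 - c) := mul_nonneg (by linarith) (by linarith)
    have hic : 1 / c ≤ 11.1099 - 11.0987 * c := by
      rw [div_le_iff₀ hcpos]
      norm_num at hquad ⊢
      nlinarith
    obtain ⟨x, hx⟩ : ∃ x : ℝ, x = (1 - cos θ) / (cosh t + 1) := ⟨_, rfl⟩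
    have hXx : (cosh t + cos θ) / (cosh t + 1) = 1 - x := by
      rw [hx, eq_sub_iff_add_eq, ← add_div, div_eq_one_iff_eq (by linarith)]
      ring
    have hxg : 1.08999 - 1.0009 * c ≤ x := by
      rw [hx, le_div_iff₀ (by linarith), hcθ]
      have h1 : 1.0901 - 1.001 * c ≤ 1 - c ^ 2 := by norm_num at hquad ⊢; linarith
      have h2 : 0 ≤ 1.08999 - 1.0009 * c := by norm_num at hc9 ⊢; linarith
      have h3 : (1.08999 - 1.0009 * c) * (cosh t + 1) ≤ (1.08999 - 1.0009 * c) * 2.0001 :=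
        mul_le_mul_of_nonneg_left (by norm_num at hcosh ⊢; linarith) h2
      refine h3.trans ?_
      norm_num at h1 hc9 h01 ⊢
      linarith
    have hx0 : 0 ≤ x := by norm_num at hxg hc9; linarith
    have hx1 : x < 1 := by rw [hXx] at hXp; linarith
    have hlog := log_one_sub_le hx0 hx1
    obtain ⟨L, hL⟩ : ∃ L : ℝ, L = x + x ^ 2 / 2 := ⟨_, rfl⟩
    have hL1 : 1.2772 - 1.1891 * c ≤ L := by
      have h1 : 0.188 * x - 0.017672 ≤ x ^ 2 / 2 := by
        have := sq_nonneg (x - 0.188)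
        norm_num at this ⊢
        nlinarith
      rw [hL]
      norm_num at h1 hxg ⊢
      linarith
    have hL0 : 0 ≤ L := by rw [hL]; positivity
    have hXc : (((k + 1) / 2 - (n + 1) / 2 : ℕ) : ℝ) / 2 *
        log ((cosh t + cos θ) / (cosh t + 1)) ≤ -((k - 1) / 8 * L) := by
      rw [hXx]
      have h1 : (((k + 1) / 2 - (n + 1) / 2 : ℕ) : ℝ) / 2 * log (1 - x) ≤
          (((k + 1) / 2 - (n + 1) / 2 : ℕ) : ℝ) / 2 * (-L) :=
        mul_le_mul_of_nonneg_left (by rw [hL]; linarith) (by positivity)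
      have h2 : (k - 1) / 8 * L ≤ (((k + 1) / 2 - (n + 1) / 2 : ℕ) : ℝ) / 2 * L :=
        mul_le_mul_of_nonneg_right hcc hL0
      linarith
    have hB := collectJ hXc hJ hline hl3 o1 o2' hkA'
    rw [show (0.9526 : ℝ) / c = 0.9526 * (1 / c) by ring] at hB
    exact sig_rho_le hpar (by omega) (by omega) ht (by linarith) hB le_rfl
      (finJa hk' hνK hK1 hex' hc9 hic hL1 hA (kA_le hk') hsg.1 hsg.2)

/-- **FAR, part (C).** `a = 3`, `2 n < k`, `k ≥ 200`, `k t ≤ 1`, all `θ ∈ [6/k, π - 5/k]`. -/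
theorem farC {n k : ℕ} (hpar : Even (n * k)) (hnk : 2 * n < k) (hk : 200 ≤ k) {t θ : ℝ}
    (ht : 0 < t) (hkt : k * t ≤ 1) (hex : 4 * n < k ∨ k * t ≤ 3 / 4) (h6 : 6 / k ≤ θ)
    (hπ : θ ≤ π - 5 / k) : sigma n k 3 t * rho n k 3 t θ ≤ 0.016 := by
  rcases le_total θ (1 / 10) with h | h
  · exact zoneA hpar hnk hk ht hkt hex h6 h
  · rcases le_total θ (9 / 10) with h' | h'
    · exact zoneB hpar hnk hk ht hkt hex h h'
    · exact zoneJ hpar hnk hk ht hkt hex h' hπ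

end Pool.Agent.SignedQ.FarC
end

section

/-! # Core region, `26 ≤ k < 32` -/

namespace Pool.Agent.SignedQ.Core

open Real Finset Pool.Agent.SignedQ.An

/-- `(k + 1) t ≤ 31/125` and `1 + 1/k ≤ 27/26` for `26 ≤ k < 32`. -/
private theorem E8c_xm {k : ℕ} {t : ℝ} (hd : DOM k t) (hk : k < 32) :
    ((k : ℝ) + 1) * t ≤ 31 / 125 ∧ 1 + 1 / (k : ℝ) ≤ 27 / 26 := by
  obtain ⟨h26, ht, _, h4, _⟩ := hd
  have h1 : (k : ℝ) ≤ 31 := by exact_mod_cast (show k ≤ 31 by omega)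
  have h2 : (26 : ℝ) ≤ k := by exact_mod_cast h26
  constructor
  · nlinarith
  · have h3 : 1 / (k : ℝ) ≤ 1 / 26 := one_div_le_one_div_of_le (by norm_num) h2
    linarith

private theorem E8c_case {n k a : ℕ} {t : ℝ} (hp : Par n k a) (hd : DOM k t) (hk : k < 32)
    {α r R2 κ : ℝ} {P1 k0 c k1 : ℕ} (hk1 : k ≤ k1) (hk1' : k1 ≤ 31) (hk0 : 4 ≤ k0)
    (hk0' : k0 ≤ k)
    (hc : c * k ≤ a * (n + k)) (hα : 0 < α) (hα' : α * k0 ≤ c * (k0 - 2)) (h13 : 13 ≤ P1)
    (hP1 : k / 2 = P1) (hr : r = (2 * P1 + 1) / (2 * P1 - 1))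
    (hR2 : ((2 * (P1 : ℝ) + 1) / (2 * P1 - 1)) ^ 2 ≤ R2)
    (hκ : 1 + 3 / (P1 : ℝ) + 11 / (4 * (P1 : ℝ) ^ 2) ≤ κ)
    (hm : 15 / 2 ≤ α ^ 2 * ((k1 : ℝ) ^ 2 / 4000) ^ 2)
    (K : ∀ A B : ℝ, (A = (22 / 5) / P1 ∧ B = κ / 9) ∨
      (A = (22 / 5) * R2 / (((1117 / 200) - (22 / 5)) * P1) ∧
        B = (22 / 5) * (73 / 200) / (((1117 / 200) - (22 / 5)) * P1) + κ / 9) ∨
      (A = 0 ∧ B = (199 / 20) ^ 2 / P1 + κ / 9) →
      0 ≤ A ∧ 0 ≤ B ∧ 25 / 3 * A + 25 * B / α ^ 2 ≤ 25 / 9 * r ∧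
      (A + 15 / 2 * B / α ^ 2) * (5 + 15 / 2 * r) ≤ 5 / 9 * r * (15 / 2) ∧
      (A + B * ((k1 : ℝ) ^ 2 / 4000) ^ 2) * (5 + r * (α ^ 2 * ((k1 : ℝ) ^ 2 / 4000) ^ 2)) ≤
        5 / 9 * r * (α ^ 2 * ((k1 : ℝ) ^ 2 / 4000) ^ 2)) :
    RegI n k a t (22 / 5) (1117 / 200) (199 / 20) (979 / 1000) (27 / 26) 13 := by
  have hkt : k * t ≤ (k1 : ℝ) ^ 2 / 4000 := kt_le hd hk1
  have hkt0 : 0 ≤ k * t := mul_nonneg (Nat.cast_nonneg _) hd.2.1.le
  have h31 : (k1 : ℝ) ≤ 31 := by exact_mod_cast hk1'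
  have h0 : (0 : ℝ) ≤ k1 := Nat.cast_nonneg _
  have D := regD_mk (r := r) (R2 := R2) (κ := κ) (P1 := P1) hp hd.1 hd.2.1
    (hkt.trans (by nlinarith)) (pow_le_pow_left₀ hkt0 hkt 2) hk0 hk0' hc hα hα' h13 hP1.ge
    (Or.inr ⟨hP1, hr⟩) hR2 hκ
  exact regI_key3 D (by norm_num) h13 (by norm_num) (by norm_num) (by norm_num) hm K
    (by norm_num) (E8c_xm hd hk).1 (by norm_num) (E8c_xm hd hk).2

/-- Three cases; `regD_mk` and `regI_key3` with (checked numerically, exact rationals)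
* `k = 26, 27`: `k0 = 26`, `c = 31`, `α = 286/10`, `τm = (729/4000)²`, `r = 27/25`,
  `R2 = (27/25)²`, `κ = 1 + 3/13 + 11/676`, `P1 = 13`;
* `k = 28, 29`: `k0 = 28`, `c = 31`, `α = 287/10`, `τm = (841/4000)²`, `r = 29/27`,
  `R2 = (29/27)²`, `κ = 1 + 3/14 + 11/784`, `P1 = 14`;
* `k = 30, 31`: `k0 = 30`, `c = 20`, `α = 186/10`, `τm = (961/4000)²`, `r = 31/29`,
  `R2 = (31/29)²`, `κ = 1 + 3/15 + 11/900`, `P1 = 15`.
`xm = 31/125` (`(k+1) t ≤ 32 * 31/4000`). `Par.lt30`, `Par.lt60`. -/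
theorem regime_a1 {n k a : ℕ} {t : ℝ} (hp : Par n k a) (hd : DOM k t) (hk : k < 32) :
    RegI n k a t (22 / 5) (1117 / 200) (199 / 20) (979 / 1000) (27 / 26) 13 := by
  have h26 := hd.1
  by_cases c1 : k < 28
  · exact E8c_case hp hd hk (k1 := 27) (P1 := 13) (k0 := 26) (c := 31) (α := 286 / 10)
      (r := 27 / 25) (R2 := (27 / 25) ^ 2) (κ := 1 + 3 / 13 + 11 / 676) (by omega) (by norm_num)
      (by norm_num) h26 (hp.lt30 (by omega)) (by norm_num) (by norm_num) (by norm_num) (by omega)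
      (by norm_num) (by norm_num) (by norm_num) (by norm_num) (fun A B h => by
        rcases h with ⟨rfl, rfl⟩ | ⟨rfl, rfl⟩ | ⟨rfl, rfl⟩ <;> norm_num)
  by_cases c2 : k < 30
  · exact E8c_case hp hd hk (k1 := 29) (P1 := 14) (k0 := 28) (c := 31) (α := 287 / 10)
      (r := 29 / 27) (R2 := (29 / 27) ^ 2) (κ := 1 + 3 / 14 + 11 / 784) (by omega) (by norm_num)
      (by norm_num) (by omega) (hp.lt30 (by omega)) (by norm_num) (by norm_num) (by norm_num)
      (by omega) (by norm_num) (by norm_num) (by norm_num) (by norm_num) (fun A B h => by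
        rcases h with ⟨rfl, rfl⟩ | ⟨rfl, rfl⟩ | ⟨rfl, rfl⟩ <;> norm_num)
  · exact E8c_case hp hd hk (k1 := 31) (P1 := 15) (k0 := 30) (c := 20) (α := 186 / 10)
      (r := 31 / 29) (R2 := (31 / 29) ^ 2) (κ := 1 + 3 / 15 + 11 / 900) (by omega) (by norm_num)
      (by norm_num) (by omega) (hp.lt60 (by omega)) (by norm_num) (by norm_num) (by norm_num)
      (by omega) (by norm_num) (by norm_num) (by norm_num) (by norm_num) (fun A B h => by
        rcases h with ⟨rfl, rfl⟩ | ⟨rfl, rfl⟩ | ⟨rfl, rfl⟩ <;> norm_num)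

end Pool.Agent.SignedQ.Core
end

section

/-! # INTER (k t ≤ 1): kernel run, range f (helper68) -/

namespace Pool.Agent.SignedQ.An.In

theorem all_f : g_f0.ok = true ∧ g_f1.ok = true ∧ g_f2.ok = true ∧ g_f3.ok = true ∧
    g_f4.ok = true :=
  ⟨by decide +kernel, by decide +kernel, by decide +kernel, by decide +kernel, by decide +kernel⟩

theorem ok_f0 : g_f0.ok = true := all_f.1

theorem ok_f1 : g_f1.ok = true := all_f.2.1

theorem ok_f2 : g_f2.ok = true := all_f.2.2.1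

theorem ok_f3 : g_f3.ok = true := all_f.2.2.2.1

theorem ok_f4 : g_f4.ok = true := all_f.2.2.2.2

end Pool.Agent.SignedQ.An.In
end
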