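import Pool.Agent.Lib.MP_cf17a0_co.Mg.G026
import Pool.Agent.Lib.MP_cf17a0_co.Mg.G027
import Pool.Agent.Lib.MP_cf17a0_co.Mg.G006
import Pool.Agent.Lib.MP_cf17a0_co.Mg.G015
import Pool.Agent.Lib.MP_cf17a0_co.Mg.G030

section

/-! # FAR-1: assembly -/

namespace Pool.Agent.SignedQ.Far1

open Real Pool.Agent.SignedQ.An Pool.Agent.SignedQ.Far

/-- `k t ≤ k²/4000`. -/
theorem kt_sq {k : ℕ} {t : ℝ} (hD : DOM k t) : k * t ≤ (k:ℝ) ^ 2 / 4000 := by
  have h := hD.2.2.2.1
  have hk : (0:ℝ) ≤ k := Nat.cast_nonneg k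
  nlinarith

theorem kt_cap {k K : ℕ} (h : k ≤ K) {t c : ℝ} (hD : DOM k t) (hc : (K:ℝ) ^ 2 / 4000 ≤ c) :
    k * t ≤ c := by
  have h1 := kt_sq hD
  have h2 : (k:ℝ) ≤ K := by exact_mod_cast h
  have h3 : (k:ℝ) ^ 2 ≤ (K:ℝ) ^ 2 := pow_le_pow_left₀ (Nat.cast_nonneg k) h2 2
  linarith

theorem hth_cast {n k a th : ℕ} (h : th * k ≤ a * (n + k)) : (th:ℝ) * k ≤ a * (n + k) := by
  have : ((th * k : ℕ) : ℝ) ≤ ((a * (n + k) : ℕ) : ℝ) := by exact_mod_cast h
  push_cast at this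
  exact this

theorem hT_nb {n k a : ℕ} (ha : 0 < a) {t c0 : ℝ} (h : c0 / (a * nb n k) ≤ t) :
    c0 ≤ a * t * (n + (k + 1) / 2) := by
  have hapos : (0:ℝ) < a := by exact_mod_cast ha
  have hn : (0:ℝ) < (n:ℝ) + ((k:ℝ) + 1) / 2 := by positivity
  unfold nb at h
  rw [div_le_iff₀ (by positivity)] at h
  linarith

/-! ### Region A: `k ≤ 2 n` -/

theorem far1_A {n k a : ℕ} {t θ : ℝ} (hg : Good n k a t θ) (hkt : k * t ≤ 1) (hn : k ≤ 2 * n)
    (hT : (4 / 5 : ℝ) ≤ a * t * (n + (k + 1) / 2)) : sigma n k a t * rho n k a t θ ≤ 0.016 := by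
  have hP := hg.1
  have hD := hg.2.1
  have hk26 : 26 ≤ k := hD.1
  have hk1 : 0 < k := by omega
  have hkpos : (0:ℝ) < k := by exact_mod_cast hk1
  have hr : (1 / 2 : ℝ) * k ≤ n := by
    have : (k:ℝ) ≤ 2 * n := by exact_mod_cast hn
    linarith
  have hn0 : (0:ℝ) ≤ n := Nat.cast_nonneg n
  have hkr : (26:ℝ) ≤ k := by exact_mod_cast hk26
  by_cases k30 : k < 30
  · have hκ := kap_th (a := a) hk1 (th := ((31:ℕ):ℝ)) (by norm_num) (by norm_num) (hth_cast (hP.lt30 k30)) hr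
    norm_num at hκ
    rcases le_total (k * t) (1 / 10) with h | h
    · exact R1A_1 hg hkr hr hκ hT h
    · exact R1A_2 hg hkr hr hκ h (kt_cap (K := 29) (by omega) hD (by norm_num))
  by_cases k60 : k < 60
  · have hκ := kap_th (a := a) hk1 (th := ((20:ℕ):ℝ)) (by norm_num) (by norm_num) (hth_cast (hP.lt60 k60)) hr
    norm_num at hκ
    have hk30 : (30:ℝ) ≤ k := by exact_mod_cast (by omega : 30 ≤ k)
    rcases le_total (k * t) (1 / 10) with h | h
    · exact R2A_1 hg hk30 hr hκ hT h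
    rcases le_total (k * t) (1 / 3) with h' | h'
    · exact R2A_2 hg hk30 hr hκ h h'
    by_cases k36 : k < 36
    · have h3 : k * t ≤ 1225 / 4000 := kt_cap (K := 35) (by omega) hD (by norm_num)
      linarith
    by_cases k49 : k < 49
    · exact R2xA_3 hg (by exact_mod_cast (by omega : 36 ≤ k)) hr hκ h'
        (kt_cap (K := 48) (by omega) hD (by norm_num))
    · exact R2yA_3 hg (by exact_mod_cast (by omega : 49 ≤ k)) hr hκ h'
        (kt_cap (K := 59) (by omega) hD (by norm_num))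
  by_cases k100 : k < 100
  · have hκ := kap_th (a := a) hk1 (th := ((8:ℕ):ℝ)) (by norm_num) (by norm_num) (hth_cast (hP.lt100 k100)) hr
    norm_num at hκ
    have hk60 : (60:ℝ) ≤ k := by exact_mod_cast (by omega : 60 ≤ k)
    rcases le_total (k * t) (1 / 3) with h | h
    · exact R3A_1 hg hk60 hr hκ hT h
    · exact R3A_2 hg hk60 hr hκ h hkt
  have ha3 : 3 ≤ a := hP.2.2.1
  by_cases k200 : k < 200
  · have hκ : (7 / 2 : ℝ) * k ≤ a * (n + k / 2) := by
      rcases ha3.eq_or_lt with h | h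
      · have h5 := hP.lt200 k200 h.symm
        have h5' : (5:ℝ) * k ≤ 3 * (n + k) := by exact_mod_cast h5
        rw [← h]; push_cast; linarith
      · have ha5 : 5 ≤ a := by
          have := hP.2.1
          rcases this with ⟨m, hm⟩; omega
        have ha5' : (5:ℝ) ≤ a := by exact_mod_cast ha5
        have : (5:ℝ) * (n + k / 2) ≤ a * (n + k / 2) := mul_le_mul_of_nonneg_right ha5' (by positivity)
        linarith
    have hk100 : (100:ℝ) ≤ k := by exact_mod_cast (by omega : 100 ≤ k)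
    rcases le_total (k * t) (1 / 3) with h | h
    · exact R4A_1 hg hk100 hr hκ hT h
    · exact R4A_2 hg hk100 hr hκ h hkt
  · have ha3' : (3:ℝ) ≤ a := by exact_mod_cast ha3
    have hκ : (3 : ℝ) * k ≤ a * (n + k / 2) := by
      have : (3:ℝ) * (n + k / 2) ≤ a * (n + k / 2) := mul_le_mul_of_nonneg_right ha3' (by positivity)
      linarith
    have hk200 : (200:ℝ) ≤ k := by exact_mod_cast (by omega : 200 ≤ k)
    rcases le_total (k * t) (1 / 3) with h | h
    · exact R5A_1 hg hk200 hr hκ hT h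
    · exact R5A_2 hg hk200 hr hκ h hkt

/-! ### Region B: `3 k ≤ 20 n`, `2 n < k`, `5 ≤ a` -/

theorem far1_B {n k a : ℕ} {t θ : ℝ} (hg : Good n k a t θ) (hkt : k * t ≤ 1) (ha5 : 5 ≤ a)
    (hn : 3 * k ≤ 20 * n) (hT : (1 : ℝ) ≤ a * t * (n + (k + 1) / 2)) :
    sigma n k a t * rho n k a t θ ≤ 0.016 := by
  have hP := hg.1
  have hD := hg.2.1
  have hk26 : 26 ≤ k := hD.1
  have hk1 : 0 < k := by omega
  have hkpos : (0:ℝ) < k := by exact_mod_cast hk1
  have hr : (3 / 20 : ℝ) * k ≤ n := by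
    have : (3:ℝ) * k ≤ 20 * n := by exact_mod_cast hn
    linarith
  have hr7 : (1 / 7 : ℝ) * k ≤ n := by linarith
  have hn0 : (0:ℝ) ≤ n := Nat.cast_nonneg n
  have hkr : (26:ℝ) ≤ k := by exact_mod_cast hk26
  by_cases k30 : k < 30
  · have hκ := kap_th (a := a) hk1 (th := ((31:ℕ):ℝ)) (by norm_num) (by norm_num) (hth_cast (hP.lt30 k30)) hr
    norm_num at hκ
    rcases le_total (k * t) (1 / 10) with h | h
    · exact R1B_1 hg hkr hr hκ hT h
    · exact R1B_2 hg hkr hr hκ h (kt_cap (K := 29) (by omega) hD (by norm_num))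
  by_cases k60 : k < 60
  · have hκ := kap_th (a := a) hk1 (th := ((20:ℕ):ℝ)) (by norm_num) (by norm_num) (hth_cast (hP.lt60 k60)) hr
    norm_num at hκ
    have hk30 : (30:ℝ) ≤ k := by exact_mod_cast (by omega : 30 ≤ k)
    rcases le_total (k * t) (1 / 10) with h | h
    · exact R2B_1 hg hk30 hr hκ hT h
    rcases le_total (k * t) (1 / 3) with h' | h'
    · exact R2B_2 hg hk30 hr hκ h h'
    by_cases k36 : k < 36
    · have h3 : k * t ≤ 1225 / 4000 := kt_cap (K := 35) (by omega) hD (by norm_num)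
      linarith
    by_cases k49 : k < 49
    · exact R2xB_3 hg (by exact_mod_cast (by omega : 36 ≤ k)) hr hκ h'
        (kt_cap (K := 48) (by omega) hD (by norm_num))
    · exact R2yB_3 hg (by exact_mod_cast (by omega : 49 ≤ k)) hr hκ h'
        (kt_cap (K := 59) (by omega) hD (by norm_num))
  by_cases k100 : k < 100
  · have hκ := kap_th (a := a) hk1 (th := ((8:ℕ):ℝ)) (by norm_num) (by norm_num) (hth_cast (hP.lt100 k100)) hr7
    norm_num at hκ
    have hk60 : (60:ℝ) ≤ k := by exact_mod_cast (by omega : 60 ≤ k)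
    rcases le_total (k * t) (1 / 3) with h | h
    · exact R3B_1 hg hk60 hr7 hκ hT h
    rcases le_total (k * t) (3 / 5) with h' | h'
    · exact R3B_2 hg hk60 hr7 hκ h h'
    · exact R3B_3 hg hk60 hr7 hκ h' hkt
  have ha5' : (5:ℝ) ≤ a := by exact_mod_cast ha5
  have hκ5 : (5:ℝ) * (n + k / 2) ≤ a * (n + k / 2) := mul_le_mul_of_nonneg_right ha5' (by positivity)
  have hth5 : (5:ℝ) * (n + k) ≤ a * (n + k) := mul_le_mul_of_nonneg_right ha5' (by positivity)
  have hκ : (13 / 4 : ℝ) * k ≤ a * (n + k / 2) := by linarith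
  by_cases k140 : k < 140
  · have hk100 : (100:ℝ) ≤ k := by exact_mod_cast (by omega : 100 ≤ k)
    rcases le_total (k * t) (1 / 3) with h | h
    · exact R4aB_1 hg hk100 hr hκ hT h
    rcases le_total ((1 / 5 : ℝ) * k) n with hn5 | hn5
    · exact R4aB_2b hg hk100 hn5 (by linarith) h hkt
    rcases le_total (k * t) (3 / 5) with h' | h'
    · exact R4aB_2a hg hk100 hr (by linarith) hκ (by linarith) h h'
    · exact R4aB_3a hg hk100 hr hκ h' hkt
  · have hk140 : (140:ℝ) ≤ k := by exact_mod_cast (by omega : 140 ≤ k)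
    rcases le_total (k * t) (1 / 3) with h | h
    · exact R4bB_1 hg hk140 hr hκ hT h
    · exact R4bB_2 hg hk140 hr hκ h hkt

/-! ### Region C: `20 n ≤ 3 k`, `5 ≤ a` -/

theorem far1_C {n k a : ℕ} {t θ : ℝ} (hg : Good n k a t θ) (hkt : k * t ≤ 1) (ha5 : 5 ≤ a)
    (hn : 20 * n ≤ 3 * k) (hT : (13 / 20 : ℝ) ≤ a * t * (n + (k + 1) / 2)) :
    sigma n k a t * rho n k a t θ ≤ 0.016 := by
  have hP := hg.1
  have hD := hg.2.1
  have hk26 : 26 ≤ k := hD.1
  have hk1 : 0 < k := by omega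
  have hodd : Odd a := hP.2.1
  have hkpos : (0:ℝ) < k := by exact_mod_cast hk1
  have hnr : (n:ℝ) ≤ 3 / 20 * k := by
    have : (20:ℝ) * n ≤ 3 * k := by exact_mod_cast hn
    linarith
  have hn0 : (0:ℝ) ≤ n := Nat.cast_nonneg n
  have h00 : (0 : ℝ) * k ≤ n := by rw [zero_mul]; exact hn0
  have hkr : (26:ℝ) ≤ k := by exact_mod_cast hk26
  by_cases k30 : k < 30
  · have h31 := hP.lt30 k30
    have hth : (31:ℝ) * k ≤ a * (n + k) := by exact_mod_cast hth_cast h31
    rcases le_total (k * t) (1 / 10) with h | h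
    · rcases le_total (n:ℝ) (1 / 20 * k) with h1 | h1
      · exact R1C0_1 hg hkr h00 h1 hth hT h
      rcases le_total (n:ℝ) (1 / 10 * k) with h2 | h2
      · exact R1C1_1 hg hkr h1 h2 hth hT h
      · exact R1C2_1 hg hkr h2 hnr hth hT h
    · have ha27 : 27 ≤ a := by
        by_contra hc
        have : a ≤ 26 := by omega
        nlinarith
      have ha' : (27:ℝ) ≤ a := by exact_mod_cast ha27
      exact R1C_2 hg hkr ha' (by linarith) h (kt_cap (K := 29) (by omega) hD (by norm_num))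
  by_cases k60 : k < 60
  · have h20 := hP.lt60 k60
    have hth : (20:ℝ) * k ≤ a * (n + k) := by exact_mod_cast hth_cast h20
    have hk30 : (30:ℝ) ≤ k := by exact_mod_cast (by omega : 30 ≤ k)
    have ha19 : 19 ≤ a := by
      have h18 : 18 ≤ a := by
        by_contra hc
        have : a ≤ 17 := by omega
        nlinarith
      rcases hodd with ⟨m, hm⟩; omega
    have ha' : (19:ℝ) ≤ a := by exact_mod_cast ha19
    rcases le_total (k * t) (1 / 10) with h | h
    · rcases le_total (n:ℝ) (1 / 20 * k) with h1 | h1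
      · exact R2C0_1 hg hk30 h00 h1 hth hT h
      rcases le_total (n:ℝ) (1 / 10 * k) with h2 | h2
      · exact R2C1_1 hg hk30 h1 h2 hth hT h
      · exact R2C2_1 hg hk30 h2 hnr hth hT h
    rcases le_total (k * t) (1 / 3) with h' | h'
    · exact R2C_2 hg hk30 ha' (by linarith) h h'
    by_cases k36 : k < 36
    · have h3 : k * t ≤ 1225 / 4000 := kt_cap (K := 35) (by omega) hD (by norm_num)
      linarith
    by_cases k49 : k < 49
    · exact R2xC_3 hg (by exact_mod_cast (by omega : 36 ≤ k)) ha' (by linarith) h'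
        (kt_cap (K := 48) (by omega) hD (by norm_num))
    · exact R2yC_3 hg (by exact_mod_cast (by omega : 49 ≤ k)) ha' (by linarith) h'
        (kt_cap (K := 59) (by omega) hD (by norm_num))
  by_cases k100 : k < 100
  · have h8 := hP.lt100 k100
    have hth : (8:ℝ) * k ≤ a * (n + k) := by exact_mod_cast hth_cast h8
    have hk60 : (60:ℝ) ≤ k := by exact_mod_cast (by omega : 60 ≤ k)
    rcases le_total (k * t) (1 / 3) with h | h
    · rcases le_total (n:ℝ) (1 / 20 * k) with h1 | h1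
      · exact R3C0_1 hg hk60 h00 h1 hth hT h
      rcases le_total (n:ℝ) (1 / 10 * k) with h2 | h2
      · exact R3C1_1 hg hk60 h1 h2 hth hT h
      · exact R3C2_1 hg hk60 h2 hnr hth hT h
    by_cases h7 : 7 * n < k
    · have ha9 : 9 ≤ a := by
        have h8' : 8 ≤ a := by
          by_contra hc
          have : a ≤ 7 := by omega
          nlinarith
        rcases hodd with ⟨m, hm⟩; omega
      have ha' : (9:ℝ) ≤ a := by exact_mod_cast ha9
      have h9 : (9:ℝ) * (n + k) ≤ a * (n + k) := mul_le_mul_of_nonneg_right ha' (by positivity)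
      rcases le_total (k * t) (3 / 5) with h' | h'
      · exact R3C_2 hg hk60 ha' (by linarith) h h'
      · exact R3C_3 hg hk60 ha' (by linarith) h' hkt
    · have hr7 : (1 / 7 : ℝ) * k ≤ n := by
        have : (k:ℝ) ≤ 7 * n := by exact_mod_cast (by omega : k ≤ 7 * n)
        linarith
      have hκ := kap_th (a := a) hk1 (th := ((8:ℕ):ℝ)) (by norm_num) (by norm_num) (hth_cast h8) hr7
      norm_num at hκ
      rcases le_total (k * t) (3 / 5) with h' | h'
      · exact R3B_2 hg hk60 hr7 hκ h h'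
      · exact R3B_3 hg hk60 hr7 hκ h' hkt
  have ha5' : (5:ℝ) ≤ a := by exact_mod_cast ha5
  have hκ5 : (5:ℝ) * (n + k / 2) ≤ a * (n + k / 2) := mul_le_mul_of_nonneg_right ha5' (by positivity)
  have hth5 : (5:ℝ) * (n + k) ≤ a * (n + k) := mul_le_mul_of_nonneg_right ha5' (by positivity)
  by_cases k140 : k < 140
  · have hk100 : (100:ℝ) ≤ k := by exact_mod_cast (by omega : 100 ≤ k)
    by_cases h20 : 20 * n < k
    · have ha7 : 7 ≤ a := by
        have : a ≠ 5 := fun h => by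
          have := hP.lt140 k140 h
          omega
        rcases hodd with ⟨m, hm⟩; omega
      have ha7' : (7:ℝ) ≤ a := by exact_mod_cast ha7
      have hκ7 : (7:ℝ) * (n + k / 2) ≤ a * (n + k / 2) :=
        mul_le_mul_of_nonneg_right ha7' (by positivity)
      have hth7 : (7:ℝ) * (n + k) ≤ a * (n + k) := mul_le_mul_of_nonneg_right ha7' (by positivity)
      have h1 : (n:ℝ) ≤ 1 / 20 * k := by
        have : (20:ℝ) * n ≤ k := by exact_mod_cast h20.le
        linarith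
      rcases le_total (k * t) (1 / 3) with h | h
      · exact R4aC0_1 hg hk100 h00 h1 (by linarith) (by linarith) hT h
      rcases le_total (k * t) (3 / 5) with h' | h'
      · exact R4aC0_2 hg hk100 ha7' (by linarith) h h'
      · exact R4aC0_3 hg hk100 ha7' (by linarith) h' hkt
    · have h1 : (1 / 20 : ℝ) * k ≤ n := by
        have : (k:ℝ) ≤ 20 * n := by exact_mod_cast (by omega : k ≤ 20 * n)
        linarith
      rcases le_total (3 / 5) (k * t) with h' | h'
      · exact R4aC_3 hg hk100 ha5' (by linarith) h' hkt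
      rcases le_total (n:ℝ) (1 / 10 * k) with h2 | h2
      · rcases le_total (k * t) (1 / 3) with h | h
        · exact R4aC1_1 hg hk100 h1 h2 (by linarith) (by linarith) hT h
        · exact R4aC1_2 hg hk100 h1 h2 (by linarith) (by linarith) h h'
      · rcases le_total (k * t) (1 / 3) with h | h
        · exact R4aC2_1 hg hk100 h2 hnr (by linarith) (by linarith) hT h
        · exact R4aC2_2 hg hk100 h2 hnr (by linarith) (by linarith) h h'
  · have hk140 : (140:ℝ) ≤ k := by exact_mod_cast (by omega : 140 ≤ k)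
    rcases le_total (3 / 5) (k * t) with h' | h'
    · exact R4bC_3 hg hk140 ha5' (by linarith) h' hkt
    rcases le_total (n:ℝ) (1 / 20 * k) with h1 | h1
    · rcases le_total (k * t) (1 / 3) with h | h
      · exact R4bC0_1 hg hk140 h00 h1 (by linarith) (by linarith) hT h
      · exact R4bC0_2 hg hk140 h00 h1 (by linarith) (by linarith) h h'
    rcases le_total (n:ℝ) (1 / 10 * k) with h2 | h2
    · rcases le_total (k * t) (1 / 3) with h | h
      · exact R4bC1_1 hg hk140 h1 h2 (by linarith) (by linarith) hT h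
      · exact R4bC1_2 hg hk140 h1 h2 (by linarith) (by linarith) h h'
    · rcases le_total (k * t) (1 / 3) with h | h
      · exact R4bC2_1 hg hk140 h2 hnr (by linarith) (by linarith) hT h
      · exact R4bC2_2 hg hk140 h2 hnr (by linarith) (by linarith) h h'

/-- **FAR-1.** -/
theorem far1 {n k a : ℕ} {t θ : ℝ} (hP : Par n k a) (hD : DOM k t) (hkt : k * t ≤ 1)
    (hT0 : (k ≤ 2 * n ∧ 4 / 5 / (a * nb n k) ≤ t) ∨
      (5 ≤ a ∧ 3 * k ≤ 20 * n ∧ 2 * n < k ∧ 1 / (a * nb n k) ≤ t) ∨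
      (5 ≤ a ∧ 20 * n ≤ 3 * k ∧ 13 / 20 / (a * nb n k) ≤ t) ∨
      (a = 3 ∧ 2 * n < k ∧ k ≤ 4 * n ∧ 3 / 4 ≤ k * t))
    (h6 : 6 / k ≤ θ) (hpi : θ ≤ π - 5 / k) (hex : 1 / k ≤ |θ - π / 3|) :
    sigma n k a t * rho n k a t θ ≤ 0.016 := by
  have ha : 0 < a := hP.2.1.pos
  have hg : Good n k a t θ := ⟨hP, hD, h6, hpi, hex⟩
  rcases hT0 with ⟨h1, h2⟩ | ⟨h1, h2, -, h3⟩ | ⟨h1, h2, h3⟩ | ⟨h1, h2, h3, h4⟩
  · exact far1_A hg hkt h1 (hT_nb ha h2)
  · exact far1_B hg hkt h1 h2 (hT_nb ha h3)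
  · exact far1_C hg hkt h1 h2 (hT_nb ha h3)
  · have hk26 : 26 ≤ k := hD.1
    have hk200 : 200 ≤ k := by
      by_contra hc
      have := hP.lt200 (by omega) h1
      omega
    have hr : (1 / 4 : ℝ) * k ≤ n := by
      have : (k:ℝ) ≤ 4 * n := by exact_mod_cast h3
      linarith
    have hk' : (200:ℝ) ≤ k := by exact_mod_cast hk200
    refine R5a3 hg hk' hr ?_ h4 hkt
    rw [h1]; push_cast; linarith

end Pool.Agent.SignedQ.Far1

namespace Pool.Agent.SignedQ.Far

open Real Pool.Agent.SignedQ.An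

/-- **FAR-1** (the same statement in the namespace `Far`). -/
theorem far1 {n k a : ℕ} {t θ : ℝ} (hP : Par n k a) (hD : DOM k t) (hkt : k * t ≤ 1)
    (hT0 : (k ≤ 2 * n ∧ 4 / 5 / (a * nb n k) ≤ t) ∨
      (5 ≤ a ∧ 3 * k ≤ 20 * n ∧ 2 * n < k ∧ 1 / (a * nb n k) ≤ t) ∨
      (5 ≤ a ∧ 20 * n ≤ 3 * k ∧ 13 / 20 / (a * nb n k) ≤ t) ∨
      (a = 3 ∧ 2 * n < k ∧ k ≤ 4 * n ∧ 3 / 4 ≤ k * t))
    (h6 : 6 / k ≤ θ) (hpi : θ ≤ π - 5 / k) (hex : 1 / k ≤ |θ - π / 3|) :
    sigma n k a t * rho n k a t θ ≤ 0.016 :=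
  Far1.far1 hP hD hkt hT0 h6 hpi hex

end Pool.Agent.SignedQ.Far
end

section

/-! # FAR arcs for `k t ≤ 1`: assembly -/

namespace Pool.Agent.SignedQ.Far

open Real Finset Pool.Agent.SignedQ.An

/-- The part `T₀ ≤ t` (FAR-1). -/
def FAR1 : Prop := ∀ (n k a : ℕ) (t θ : ℝ), Par n k a → DOM k t → k * t ≤ 1 →
  ((k ≤ 2 * n ∧ 4 / 5 / (a * nb n k) ≤ t) ∨
    (5 ≤ a ∧ 3 * k ≤ 20 * n ∧ 2 * n < k ∧ 1 / (a * nb n k) ≤ t) ∨
    (5 ≤ a ∧ 20 * n ≤ 3 * k ∧ 13 / 20 / (a * nb n k) ≤ t) ∨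
    (a = 3 ∧ 2 * n < k ∧ k ≤ 4 * n ∧ 3 / 4 ≤ k * t)) →
  6 / (k : ℝ) ≤ θ → θ ≤ π - 5 / k → 1 / (k : ℝ) ≤ |θ - π / 3| →
  sigma n k a t * rho n k a t θ ≤ 0.016

theorem far_lo_of (h1 : FAR1) : FAR Qlo := by
  intro n k a t θ hP hD hQ h2 h3 hex
  unfold Qlo at hQ
  unfold th2 at h2
  unfold th3 at h3
  have h6 : 6 / (k : ℝ) ≤ θ := (le_max_left _ _).trans h2
  have hk : 26 ≤ k := hD.1
  have ht : 0 < t := hD.2.1
  rcases Nat.lt_or_ge (2 * n) k with hn | hn
  · rcases Nat.lt_or_ge a 5 with h5 | h5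
    · have ha' : a = 3 := by
        rcases hP.2.1 with ⟨m, hm⟩
        have := hP.2.2.1
        omega
      subst ha'
      have hk200 : 200 ≤ k := by
        by_contra hc
        have := hP.lt200 (by omega) rfl
        omega
      rcases Nat.lt_or_ge (4 * n) k with h4 | h4
      · exact FarC.farC hP.1 hn hk200 ht hQ (Or.inl h4) h6 h3
      · rcases le_total (k * t) (3 / 4) with hkt | hkt
        · exact FarC.farC hP.1 hn hk200 ht hQ (Or.inr hkt) h6 h3
        · exact h1 n k 3 t θ hP hD hQ (Or.inr (Or.inr (Or.inr ⟨rfl, hn, h4, hkt⟩))) h6 h3 hex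
    · rcases le_total (20 * n) (3 * k) with hc | hc
      · rcases le_total t (13 / 20 / (a * nb n k)) with hT | hT
        · exact far2_C hP hk h5 hc ht hT h6 h3 hex
        · exact h1 n k a t θ hP hD hQ (Or.inr (Or.inr (Or.inl ⟨h5, hc, hT⟩))) h6 h3 hex
      · rcases le_total t (1 / (a * nb n k)) with hT | hT
        · exact far2_B hP hk h5 hc hn ht hT h6 h3 hex
        · exact h1 n k a t θ hP hD hQ (Or.inr (Or.inl ⟨h5, hc, hn, hT⟩)) h6 h3 hex
  · rcases le_total t (4 / 5 / (a * nb n k)) with hT | hT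
    · exact far2_A hP hk hn ht hT h6 h3 hex
    · exact h1 n k a t θ hP hD hQ (Or.inl ⟨hn, hT⟩) h6 h3 hex

/-- **The FAR arcs, `k t ≤ 1`.** -/
theorem far_lo : FAR Qlo := far_lo_of
  fun _ _ _ _ _ hP hD hkt hT0 h6 hpi hex => far1 hP hD hkt hT0 h6 hpi hex

end Pool.Agent.SignedQ.Far
end
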