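import Mathlib

section

/-! # Core region, part 1: elementary inequalities for `x²/sinh²x` and `x²/sin²x` -/

namespace Pool.Agent.SignedQ.Core

open Real

/-- `s(x) = x²/sinh²x`. -/
noncomputable def sf (x : ℝ) : ℝ := x ^ 2 / sinh x ^ 2

/-- integration of a sign -/
theorem nonneg_of_deriv {f f' : ℝ → ℝ} (h0 : 0 ≤ f 0) (hd : ∀ x, 0 ≤ x → HasDerivAt f (f' x) x)
    (h1 : ∀ x, 0 ≤ x → 0 ≤ f' x) : ∀ x, 0 ≤ x → 0 ≤ f x := by
  intro x hx
  have hm : MonotoneOn f (Set.Ici 0) := by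
    refine monotoneOn_of_deriv_nonneg (convex_Ici 0) ?_ ?_ ?_
    · intro y hy
      exact (hd y hy).continuousAt.continuousWithinAt
    · intro y hy
      rw [interior_Ici] at hy
      exact (hd y (le_of_lt hy)).differentiableAt.differentiableWithinAt
    · intro y hy
      rw [interior_Ici] at hy
      rw [(hd y (le_of_lt hy)).deriv]
      exact h1 y (le_of_lt hy)
  exact h0.trans (hm Set.self_mem_Ici (show (0 : ℝ) ≤ x from hx) hx)

/-- monotonicity on `(0, b)` from the sign of the derivative -/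
theorem mono_of_deriv {f f' : ℝ → ℝ} {S : Set ℝ} (hS : Convex ℝ S) (hd : ∀ x ∈ S, HasDerivAt f (f' x) x)
    (h1 : ∀ x ∈ S, 0 ≤ f' x) : MonotoneOn f S := by
  refine monotoneOn_of_deriv_nonneg hS ?_ ?_ ?_
  · intro y hy
    exact (hd y hy).continuousAt.continuousWithinAt
  · intro y hy
    exact (hd y (interior_subset hy)).differentiableAt.differentiableWithinAt
  · intro y hy
    rw [(hd y (interior_subset hy)).deriv]
    exact h1 y (interior_subset hy)

theorem sinh_le_mul_cosh {x : ℝ} (hx : 0 ≤ x) : sinh x ≤ x * cosh x := by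
  have := nonneg_of_deriv (f := fun x => x * cosh x - sinh x) (f' := fun x => x * sinh x)
    (by simp) (fun y _ => by
      have := ((hasDerivAt_id y).mul (hasDerivAt_cosh y)).sub (hasDerivAt_sinh y)
      refine this.congr_deriv ?_
      simp) (fun y hy => mul_nonneg hy (sinh_nonneg_iff.2 hy)) x hx
  linarith

/-- `sinh²x ≥ x² + x⁴/3`. -/
theorem sinh_sq_ge {x : ℝ} (hx : 0 ≤ x) : x ^ 2 + x ^ 4 / 3 ≤ sinh x ^ 2 := by
  -- sinh x ≥ x + x³/6
  have h1 := nonneg_of_deriv (f := fun x => cosh x - 1 - x ^ 2 / 2) (f' := fun x => sinh x - x)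
    (by simp) (fun y _ => by
      have := ((hasDerivAt_cosh y).sub_const 1).sub ((hasDerivAt_pow 2 y).div_const 2)
      refine this.congr_deriv ?_
      simp) (fun y hy => sub_nonneg.2 (self_le_sinh_iff.2 hy))
  have h2 := nonneg_of_deriv (f := fun x => sinh x - x - x ^ 3 / 6)
    (f' := fun x => cosh x - 1 - x ^ 2 / 2) (by simp) (fun y _ => by
      have := ((hasDerivAt_sinh y).sub (hasDerivAt_id y)).sub ((hasDerivAt_pow 3 y).div_const 6)
      refine this.congr_deriv ?_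
      simp
      ring) h1 x hx
  have h3 : x + x ^ 3 / 6 ≤ sinh x := by linarith
  have h4 : (x + x ^ 3 / 6) ^ 2 ≤ sinh x ^ 2 := by
    apply pow_le_pow_left₀ (by positivity) h3
  nlinarith [pow_nonneg hx 6]

theorem sf_le {x : ℝ} (hx : 0 < x) : sf x ≤ 3 / (3 + x ^ 2) := by
  unfold sf
  have h1 := sinh_sq_ge hx.le
  have h2 : 0 < sinh x ^ 2 := pow_pos (sinh_pos_iff.2 hx) 2
  rw [div_le_div_iff₀ h2 (by positivity)]
  nlinarith

theorem sf_pos {x : ℝ} (hx : 0 < x) : 0 < sf x := by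
  unfold sf
  have := sinh_pos_iff.2 hx
  positivity

theorem sf_le_one {x : ℝ} (hx : 0 < x) : sf x ≤ 1 := by
  refine (sf_le hx).trans ?_
  rw [div_le_one (by positivity)]
  nlinarith [sq_nonneg x]

/-- `sinh³x ≥ x³ cosh x`. -/
theorem lazarevic {x : ℝ} (hx : 0 ≤ x) : x ^ 3 * cosh x ≤ sinh x ^ 3 := by
  have h := nonneg_of_deriv (f := fun x => sinh x ^ 3 / cosh x - x ^ 3)
    (f' := fun x => 3 * sinh x ^ 2 - sinh x ^ 4 / cosh x ^ 2 - 3 * x ^ 2)
    (by simp) (fun y _ => by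
      have := (((hasDerivAt_sinh y).pow 3).div (hasDerivAt_cosh y) (cosh_pos y).ne').sub
        (hasDerivAt_pow 3 y)
      refine this.congr_deriv ?_
      have hc := (cosh_pos y).ne'
      simp
      field_simp) (fun y hy => by
      have h1 := sinh_sq_ge hy
      have hc : 0 < cosh y ^ 2 := pow_pos (cosh_pos y) 2
      have h2 : cosh y ^ 2 = 1 + sinh y ^ 2 := by rw [cosh_sq]; ring
      have h3 : sinh y ^ 4 / cosh y ^ 2 ≤ 3 * sinh y ^ 2 - 3 * y ^ 2 := by
        rw [div_le_iff₀ hc, h2]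
        have h4 : 0 ≤ y ^ 2 := sq_nonneg y
        have h5 : 0 ≤ sinh y ^ 2 - y ^ 2 - y ^ 4 / 3 := by linarith
        nlinarith [mul_nonneg h4 h5, mul_nonneg h5 h5, pow_nonneg hy 4, pow_nonneg hy 6,
          pow_nonneg hy 8, sq_nonneg (sinh y ^ 2 - y ^ 2)]
      linarith) x hx
  have hc := cosh_pos x
  have h1 : x ^ 3 ≤ sinh x ^ 3 / cosh x := by linarith
  rwa [le_div_iff₀ hc] at h1

theorem hasDerivAt_sf {x : ℝ} (hx : 0 < x) :
    HasDerivAt sf (2 * x / sinh x ^ 2 - 2 * x ^ 2 * cosh x / sinh x ^ 3) x := by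
  have hs : sinh x ≠ 0 := (sinh_pos_iff.2 hx).ne'
  have := (hasDerivAt_pow 2 x).div ((hasDerivAt_sinh x).pow 2) (pow_ne_zero 2 hs)
  refine this.congr_deriv ?_
  simp
  field_simp

theorem sf_anti {x y : ℝ} (hx : 0 < x) (hxy : x ≤ y) : sf y ≤ sf x := by
  have h := mono_of_deriv (f := fun x => - sf x)
    (f' := fun x => -(2 * x / sinh x ^ 2 - 2 * x ^ 2 * cosh x / sinh x ^ 3)) (convex_Ioi (0 : ℝ))
    (fun z hz => (hasDerivAt_sf hz).neg) (fun z hz => by
      have hs : 0 < sinh z := sinh_pos_iff.2 hz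
      have h1 := sinh_le_mul_cosh (le_of_lt hz)
      have hz' : 0 < z := hz
      rw [neg_sub, sub_nonneg, div_le_div_iff₀ (by positivity) (by positivity)]
      nlinarith [mul_pos hz' (pow_pos hs 2), mul_nonneg (mul_nonneg hz'.le (pow_pos hs 2).le)
        (sub_nonneg.2 h1)])
  have := h (Set.mem_Ioi.2 hx) (Set.mem_Ioi.2 (hx.trans_le hxy)) hxy
  simpa using this

theorem sinh_cube {x : ℝ} (hx : 0 ≤ x) : x * cosh x - sinh x ≤ sinh x ^ 3 / 3 := by
  have h := nonneg_of_deriv (f := fun x => sinh x ^ 3 / 3 - (x * cosh x - sinh x))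
    (f' := fun x => sinh x * (sinh x * cosh x - x)) (by simp) (fun y _ => by
      have := (((hasDerivAt_sinh y).pow 3).div_const 3).sub
        (((hasDerivAt_id y).mul (hasDerivAt_cosh y)).sub (hasDerivAt_sinh y))
      refine this.congr_deriv ?_
      simp
      ring) (fun y hy => by
      have h1 := self_le_sinh_iff.2 hy
      have h2 := one_le_cosh y
      have h3 := sinh_nonneg_iff.2 hy
      refine mul_nonneg h3 ?_
      nlinarith [mul_nonneg h3 (sub_nonneg.2 h2)]) x hx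
  linarith

/-- `s(x) + x²/3` is increasing. -/
theorem sf_add_mono {x y : ℝ} (hx : 0 < x) (hxy : x ≤ y) : sf x + x ^ 2 / 3 ≤ sf y + y ^ 2 / 3 := by
  have h := mono_of_deriv (f := fun x => sf x + x ^ 2 / 3)
    (f' := fun x => (2 * x / sinh x ^ 2 - 2 * x ^ 2 * cosh x / sinh x ^ 3) + 2 * x / 3)
    (convex_Ioi (0 : ℝ))
    (fun z hz => by
      have := (hasDerivAt_sf hz).add ((hasDerivAt_pow 2 z).div_const 3)
      refine this.congr_deriv ?_
      simp) (fun z hz => by
      have hs : 0 < sinh z := sinh_pos_iff.2 hz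
      have h1 := sinh_cube (le_of_lt hz)
      have hz' : 0 < z := hz
      have e : (2 * z / sinh z ^ 2 - 2 * z ^ 2 * cosh z / sinh z ^ 3) + 2 * z / 3 =
          2 * z / sinh z ^ 3 * (sinh z ^ 3 / 3 - (z * cosh z - sinh z)) := by
        field_simp
        ring
      rw [e]
      exact mul_nonneg (by positivity) (by linarith))
  exact h (Set.mem_Ioi.2 hx) (Set.mem_Ioi.2 (hx.trans_le hxy)) hxy

/-- `(1 - s(x))/x²` is decreasing. -/
theorem q_div_anti {x y : ℝ} (hx : 0 < x) (hxy : x ≤ y) :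
    (1 - sf y) / y ^ 2 ≤ (1 - sf x) / x ^ 2 := by
  have e : ∀ z : ℝ, 0 < z → (1 - sf z) / z ^ 2 = 1 / z ^ 2 - 1 / sinh z ^ 2 := by
    intro z hz
    have hs : sinh z ≠ 0 := (sinh_pos_iff.2 hz).ne'
    unfold sf
    field_simp
  have h := mono_of_deriv (f := fun x => -(1 / x ^ 2 - 1 / sinh x ^ 2))
    (f' := fun x => 2 / x ^ 3 - 2 * cosh x / sinh x ^ 3)
    (convex_Ioi (0 : ℝ))
    (fun z hz => by
      have hz' : z ≠ 0 := ne_of_gt hz
      have hs : sinh z ≠ 0 := (sinh_pos_iff.2 hz).ne'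
      have := (((hasDerivAt_pow 2 z).fun_inv (pow_ne_zero 2 hz')).sub
        (((hasDerivAt_sinh z).fun_pow 2).fun_inv (pow_ne_zero 2 hs))).neg
      simp only [one_div]
      refine this.congr_deriv ?_
      simp
      field_simp
      ring) (fun z hz => by
      have hs : 0 < sinh z := sinh_pos_iff.2 hz
      have h1 := lazarevic (le_of_lt hz)
      have hz' : 0 < z := hz
      rw [sub_nonneg, div_le_div_iff₀ (by positivity) (by positivity)]
      nlinarith)
  have h2 := h (Set.mem_Ioi.2 hx) (Set.mem_Ioi.2 (hx.trans_le hxy)) hxy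
  rw [e x hx, e y (hx.trans_le hxy)]
  simp only at h2
  linarith

/-- `1 - s(x) ≤ x²/(3 + (3/5) x²)`. -/
theorem sf_ge {x : ℝ} (hx : 0 < x) : 1 - x ^ 2 / (3 + 3 / 5 * x ^ 2) ≤ sf x := by
  -- ψ(y) = 60 y² + 3 y⁴ - (120 - 4 y²)(cosh y - 1) ≥ 0 at y = 2x
  have s5 : ∀ y, 0 ≤ y → 0 ≤ -40 * sinh y + 40 * y * cosh y + 4 * y ^ 2 * sinh y := by
    intro y hy
    have h1 := sinh_le_mul_cosh hy
    have h2 := sinh_nonneg_iff.2 hy
    nlinarith [mul_nonneg (sq_nonneg y) h2]
  have s4 := nonneg_of_deriv (f := fun y => 72 - 72 * cosh y + 32 * y * sinh y + 4 * y ^ 2 * cosh y)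
    (f' := fun y => -40 * sinh y + 40 * y * cosh y + 4 * y ^ 2 * sinh y) (by simp) (fun y _ => by
      have := (((hasDerivAt_const y (72 : ℝ)).sub ((hasDerivAt_cosh y).const_mul 72)).add
        (((hasDerivAt_id y).const_mul 32).mul (hasDerivAt_sinh y))).add
        (((hasDerivAt_pow 2 y).const_mul 4).mul (hasDerivAt_cosh y))
      refine this.congr_deriv ?_
      simp
      ring) s5
  have s3 := nonneg_of_deriv
    (f := fun y => 72 * y - 96 * sinh y + 24 * y * cosh y + 4 * y ^ 2 * sinh y)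
    (f' := fun y => 72 - 72 * cosh y + 32 * y * sinh y + 4 * y ^ 2 * cosh y) (by simp)
    (fun y _ => by
      have := ((((hasDerivAt_id y).const_mul 72).sub ((hasDerivAt_sinh y).const_mul 96)).add
        (((hasDerivAt_id y).const_mul 24).mul (hasDerivAt_cosh y))).add
        (((hasDerivAt_pow 2 y).const_mul 4).mul (hasDerivAt_sinh y))
      refine this.congr_deriv ?_
      simp
      ring) s4
  have s2 := nonneg_of_deriv
    (f := fun y => 112 + 36 * y ^ 2 - 112 * cosh y + 16 * y * sinh y + 4 * y ^ 2 * cosh y)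
    (f' := fun y => 72 * y - 96 * sinh y + 24 * y * cosh y + 4 * y ^ 2 * sinh y) (by simp)
    (fun y _ => by
      have := ((((hasDerivAt_const y (112 : ℝ)).add ((hasDerivAt_pow 2 y).const_mul 36)).sub
        ((hasDerivAt_cosh y).const_mul 112)).add
        (((hasDerivAt_id y).const_mul 16).mul (hasDerivAt_sinh y))).add
        (((hasDerivAt_pow 2 y).const_mul 4).mul (hasDerivAt_cosh y))
      refine this.congr_deriv ?_
      simp
      ring) s3
  have s1 := nonneg_of_deriv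
    (f := fun y => 120 * y + 12 * y ^ 3 + 8 * y * (cosh y - 1) - (120 - 4 * y ^ 2) * sinh y)
    (f' := fun y => 112 + 36 * y ^ 2 - 112 * cosh y + 16 * y * sinh y + 4 * y ^ 2 * cosh y)
    (by simp)
    (fun y _ => by
      have := ((((hasDerivAt_id y).const_mul 120).add ((hasDerivAt_pow 3 y).const_mul 12)).add
        (((hasDerivAt_id y).const_mul 8).mul ((hasDerivAt_cosh y).sub_const 1))).sub
        (((hasDerivAt_const y (120 : ℝ)).sub ((hasDerivAt_pow 2 y).const_mul 4)).mul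
          (hasDerivAt_sinh y))
      refine this.congr_deriv ?_
      simp
      ring) s2
  have s0 := nonneg_of_deriv
    (f := fun y => 60 * y ^ 2 + 3 * y ^ 4 - (120 - 4 * y ^ 2) * (cosh y - 1))
    (f' := fun y => 120 * y + 12 * y ^ 3 + 8 * y * (cosh y - 1) - (120 - 4 * y ^ 2) * sinh y)
    (by simp)
    (fun y _ => by
      have := ((((hasDerivAt_pow 2 y).const_mul 60).add ((hasDerivAt_pow 4 y).const_mul 3))).sub
        (((hasDerivAt_const y (120 : ℝ)).sub ((hasDerivAt_pow 2 y).const_mul 4)).mul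
          ((hasDerivAt_cosh y).sub_const 1))
      refine this.congr_deriv ?_
      simp
      ring) s1 (2 * x) (by linarith)
  have hs : 0 < sinh x := sinh_pos_iff.2 hx
  have e : cosh (2 * x) - 1 = 2 * sinh x ^ 2 := by
    rw [cosh_two_mul, cosh_sq]; ring
  simp only [e] at s0
  unfold sf
  rw [sub_le_iff_le_add, div_add_div _ _ (by positivity) (by positivity), le_div_iff₀ (by positivity)]
  nlinarith

theorem sf_ge' {x : ℝ} (hx : 0 < x) : 1 - x ^ 2 / 3 ≤ sf x := by
  refine le_trans ?_ (sf_ge hx)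
  have : x ^ 2 / (3 + 3 / 5 * x ^ 2) ≤ x ^ 2 / 3 :=
    div_le_div_of_nonneg_left (sq_nonneg x) (by norm_num) (by nlinarith [sq_nonneg x])
  linarith

end Pool.Agent.SignedQ.Core
end

section

/-! # Core region, part 1b: the pair inequality and its companions -/

namespace Pool.Agent.SignedQ.Core

open Real

/-- `F_j = sin²(jy)/sinh²(jh)` -/
noncomputable def FF (h y j : ℝ) : ℝ := sin (j * y) ^ 2 / sinh (j * h) ^ 2

theorem FF_nonneg (h y j : ℝ) : 0 ≤ FF h y j := by unfold FF; positivity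

/-- `sin x - x cos x ≥ sin³x/3` on `[0, π]`. -/
theorem sin_cube {x : ℝ} (hx : 0 ≤ x) (hx' : x ≤ π) : sin x ^ 3 / 3 ≤ sin x - x * cos x := by
  have h := mono_of_deriv (f := fun x => sin x - x * cos x - sin x ^ 3 / 3)
    (f' := fun x => sin x * (x - sin x * cos x)) (convex_Icc (0 : ℝ) π) (fun y _ => by
      have := ((hasDerivAt_sin y).sub ((hasDerivAt_id y).mul (hasDerivAt_cos y))).sub
        (((hasDerivAt_sin y).pow 3).div_const 3)
      refine this.congr_deriv ?_
      simp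
      ring) (fun y hy => by
      have h1 : 0 ≤ sin y := sin_nonneg_of_mem_Icc hy
      have h2 : sin y ≤ y := sin_le hy.1
      have h3 := cos_le_one y
      refine mul_nonneg h1 ?_
      nlinarith [mul_nonneg h1 (sub_nonneg.2 h3)])
  have := h (Set.left_mem_Icc.2 pi_pos.le) (Set.mem_Icc.2 ⟨hx, hx'⟩) hx
  simp at this
  linarith

theorem sin_two_sq : 9 / 16 ≤ sin 2 ^ 2 := by
  have h1 : 3 / 4 ≤ sin 1 := by
    have := sin_gt_sub_cube (x := 1) (by norm_num)
    linarith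
  have h2 : 1 / 2 ≤ cos 1 := by
    have := one_sub_sq_div_two_le_cos (x := 1)
    linarith
  have h3 : sin 2 = 2 * sin 1 * cos 1 := by
    rw [show (2 : ℝ) = 2 * 1 by ring, sin_two_mul]
    ring
  have h4 : 3 / 4 ≤ sin 2 := by
    rw [h3]
    nlinarith
  nlinarith

/-- `x²/sin²x - x²/3` is increasing on `(0, 2]`, and larger beyond. -/
theorem kap_mono {Y x : ℝ} (hY : 0 < Y) (hY' : Y ≤ 2) (hx : Y ≤ x) (hs : sin x ≠ 0) :
    Y ^ 2 / sin Y ^ 2 - Y ^ 2 / 3 ≤ x ^ 2 / sin x ^ 2 - x ^ 2 / 3 := by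
  have hmono : MonotoneOn (fun x => x ^ 2 / sin x ^ 2 - x ^ 2 / 3) (Set.Ioo 0 π) := by
    refine mono_of_deriv
      (f' := fun x => 2 * x / sin x ^ 3 * (sin x - x * cos x - sin x ^ 3 / 3))
      (convex_Ioo 0 π) (fun y hy => ?_) (fun y hy => ?_)
    · have hsy : 0 < sin y := sin_pos_of_pos_of_lt_pi hy.1 hy.2
      have := ((hasDerivAt_pow 2 y).div ((hasDerivAt_sin y).pow 2) (pow_ne_zero 2 hsy.ne')).sub
        ((hasDerivAt_pow 2 y).div_const 3)
      refine this.congr_deriv ?_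
      have := hsy.ne'
      simp
      field_simp
    · have hsy : 0 < sin y := sin_pos_of_pos_of_lt_pi hy.1 hy.2
      have h1 := sin_cube hy.1.le hy.2.le
      have := hy.1
      exact mul_nonneg (by positivity) (by linarith)
  have hpi := pi_gt_three
  rcases lt_or_ge x π with h | h
  · exact hmono ⟨hY, by linarith⟩ ⟨hY.trans_le hx, h⟩ hx
  · have h1 := hmono ⟨hY, by linarith⟩ ⟨by norm_num, by linarith⟩ hY'
    refine h1.trans ?_
    simp only
    have h2 : 0 < sin x ^ 2 := by positivity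
    have h3 : sin x ^ 2 ≤ 1 := sin_sq_le_one x
    have h4 : x ^ 2 ≤ x ^ 2 / sin x ^ 2 := by
      rw [le_div_iff₀ h2]
      nlinarith [sq_nonneg x]
    have h5 : 9 ≤ x ^ 2 := by nlinarith
    have h6 := sin_two_sq
    have h7 : (2 : ℝ) ^ 2 / sin 2 ^ 2 ≤ 64 / 9 := by
      rw [div_le_iff₀ (by linarith)]
      linarith
    linarith

/-- `S (1 + s (e²-1)/3) ≤ e² s` in the form used. -/
theorem sin_pair {c d y : ℝ} (hc : 0 < c) (hcd : c ≤ d) (hy : 0 ≤ y) (hcy : c * y ≤ 2) :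
    sin (d * y) ^ 2 * (c ^ 2 + sin (c * y) ^ 2 * ((d ^ 2 - c ^ 2) / 3)) ≤ d ^ 2 * sin (c * y) ^ 2 := by
  rcases eq_or_lt_of_le hy with rfl | hy
  · simp
  by_cases hs : sin (d * y) = 0
  · rw [hs]
    have : 0 ≤ d ^ 2 * sin (c * y) ^ 2 := by positivity
    simpa using this
  have hY : 0 < c * y := by positivity
  have h1 := kap_mono hY hcy (mul_le_mul_of_nonneg_right hcd hy.le) hs
  have hs1 : 0 < sin (c * y) := sin_pos_of_pos_of_lt_pi hY (by linarith [pi_gt_three])
  have hs2 : 0 < sin (d * y) ^ 2 := by positivity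
  have hs3 : 0 < sin (c * y) ^ 2 := by positivity
  have hy2 : 0 < y ^ 2 := by positivity
  have h2 : c ^ 2 / sin (c * y) ^ 2 + (d ^ 2 - c ^ 2) / 3 ≤ d ^ 2 / sin (d * y) ^ 2 := by
    have e1 : (c * y) ^ 2 / sin (c * y) ^ 2 - (c * y) ^ 2 / 3 =
        y ^ 2 * (c ^ 2 / sin (c * y) ^ 2 - c ^ 2 / 3) := by ring
    have e2 : (d * y) ^ 2 / sin (d * y) ^ 2 - (d * y) ^ 2 / 3 =
        y ^ 2 * (d ^ 2 / sin (d * y) ^ 2 - d ^ 2 / 3) := by ring
    rw [e1, e2] at h1
    have := le_of_mul_le_mul_left h1 hy2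
    linarith
  rw [le_div_iff₀ hs2] at h2
  have e3 : (c ^ 2 / sin (c * y) ^ 2 + (d ^ 2 - c ^ 2) / 3) * sin (d * y) ^ 2 * sin (c * y) ^ 2 =
      sin (d * y) ^ 2 * (c ^ 2 + sin (c * y) ^ 2 * ((d ^ 2 - c ^ 2) / 3)) := by
    field_simp
  rw [← e3]
  exact mul_le_mul_of_nonneg_right h2 hs3.le

theorem w_eq {h j : ℝ} (hh : 0 < h) (hj : 0 < j) : j ^ 2 / sinh (j * h) ^ 2 = sf (j * h) / h ^ 2 := by
  have : sinh (j * h) ≠ 0 := (sinh_pos_iff.2 (by positivity)).ne'
  unfold sf
  field_simp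

/-- **The pair inequality** `(1 + F_d)(1 + (w_c - w_d) sin²(cy)/c²) ≤ 1 + F_c`. -/
theorem pair_M {c d h y : ℝ} (hc : 0 < c) (hcd : c ≤ d) (hh : 0 < h) (hy : 0 ≤ y)
    (hcy : c * y ≤ 2) :
    (1 + FF h y d) * (1 + (sf (c * h) - sf (d * h)) / h ^ 2 * (sin (c * y) ^ 2 / c ^ 2)) ≤
      1 + FF h y c := by
  have hd : 0 < d := hc.trans_le hcd
  have h1 := sin_pair hc hcd hy hcy
  have hsc : 0 < sinh (c * h) := sinh_pos_iff.2 (by positivity)
  have hsd : 0 < sinh (d * h) := sinh_pos_iff.2 (by positivity)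
  have h2 : (sf (c * h) - sf (d * h)) / h ^ 2 ≤ (d ^ 2 - c ^ 2) / 3 := by
    have := sf_add_mono (x := c * h) (y := d * h) (by positivity)
      (mul_le_mul_of_nonneg_right hcd hh.le)
    rw [div_le_iff₀ (by positivity)]
    nlinarith
  have e1 : sf (c * h) / h ^ 2 = c ^ 2 / sinh (c * h) ^ 2 := (w_eq hh hc).symm
  have e2 : sf (d * h) / h ^ 2 = d ^ 2 / sinh (d * h) ^ 2 := (w_eq hh hd).symm
  set S := sin (d * y) ^ 2 with hS
  set s := sin (c * y) ^ 2 with hs
  have hS0 : 0 ≤ S := by positivity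
  have hs0 : 0 ≤ s := by positivity
  set A := (sinh (c * h) ^ 2)⁻¹ with hA
  set B := (sinh (d * h) ^ 2)⁻¹ with hB
  have hB0 : 0 < B := by positivity
  have hW : (sf (c * h) - sf (d * h)) / h ^ 2 = c ^ 2 * A - d ^ 2 * B := by
    rw [sub_div, e1, e2, hA, hB]
    ring
  have hW' : c ^ 2 * A - d ^ 2 * B ≤ (d ^ 2 - c ^ 2) / 3 := hW ▸ h2
  rw [hW]
  unfold FF
  rw [← hS, ← hs, show S / sinh (d * h) ^ 2 = S * B from div_eq_mul_inv _ _,
    show s / sinh (c * h) ^ 2 = s * A from div_eq_mul_inv _ _]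
  have h3 : S * (c ^ 2 + s * (c ^ 2 * A - d ^ 2 * B)) ≤ d ^ 2 * s := by
    refine le_trans ?_ h1
    refine mul_le_mul_of_nonneg_left ?_ hS0
    have := mul_le_mul_of_nonneg_left hW' hs0
    linarith
  have hc2 : 0 < c ^ 2 := by positivity
  -- difference times c²
  have key : 0 ≤ B * (d ^ 2 * s - S * (c ^ 2 + s * (c ^ 2 * A - d ^ 2 * B))) :=
    mul_nonneg hB0.le (by linarith)
  have e3 : (1 + s * A) - (1 + S * B) * (1 + (c ^ 2 * A - d ^ 2 * B) * (s / c ^ 2)) =
      B * (d ^ 2 * s - S * (c ^ 2 + s * (c ^ 2 * A - d ^ 2 * B))) / c ^ 2 := by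
    field_simp
    ring
  have : 0 ≤ (1 + s * A) - (1 + S * B) * (1 + (c ^ 2 * A - d ^ 2 * B) * (s / c ^ 2)) := by
    rw [e3]
    positivity
  linarith

/-- `F_j` is decreasing in `j` while `jy ≤ π`. -/
theorem FF_anti {i j h y : ℝ} (hi : 0 < i) (hij : i ≤ j) (hh : 0 < h) (hy : 0 ≤ y)
    (hjy : j * y ≤ π) : FF h y j ≤ FF h y i := by
  have hj : 0 < j := hi.trans_le hij
  unfold FF
  -- sin(jy)/j ≤ sin(iy)/i and sinh(jh)/j ≥ sinh(ih)/i
  have h1 : i * sin (j * y) ≤ j * sin (i * y) := by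
    have hm := mono_of_deriv (f := fun b => b * sin (i * y) - i * sin (b * y))
      (f' := fun b => sin (i * y) - i * (cos (b * y) * y)) (convex_Icc i j) (fun b _ => by
        have := ((hasDerivAt_id b).mul_const (sin (i * y))).sub
          ((((hasDerivAt_id b).mul_const y).sin).const_mul i)
        refine this.congr_deriv ?_
        simp) (fun b hb => by
        have hi0 : 0 ≤ i * y := by positivity
        have hb0 : i * y ≤ b * y := mul_le_mul_of_nonneg_right hb.1 hy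
        have hbp : b * y ≤ π := (mul_le_mul_of_nonneg_right hb.2 hy).trans hjy
        have h2 : cos (b * y) ≤ cos (i * y) := cos_le_cos_of_nonneg_of_le_pi hi0 hbp hb0
        have h3 : i * y * cos (i * y) ≤ sin (i * y) := by
          have := sin_cube hi0 (hb0.trans hbp)
          have h4 : 0 ≤ sin (i * y) := sin_nonneg_of_mem_Icc ⟨hi0, hb0.trans hbp⟩
          have : 0 ≤ sin (i * y) ^ 3 / 3 := by positivity
          linarith
        nlinarith [mul_le_mul_of_nonneg_left h2 hi0])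
    have := hm (Set.left_mem_Icc.2 hij) (Set.right_mem_Icc.2 hij) hij
    simp only at this
    linarith
  have h2 : j * sinh (i * h) ≤ i * sinh (j * h) := by
    have hm := mono_of_deriv (f := fun b => i * sinh (b * h) - b * sinh (i * h))
      (f' := fun b => i * (cosh (b * h) * h) - sinh (i * h)) (convex_Icc i j) (fun b _ => by
        have := ((((hasDerivAt_id b).mul_const h).sinh).const_mul i).sub
          ((hasDerivAt_id b).mul_const (sinh (i * h)))
        refine this.congr_deriv ?_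
        simp) (fun b hb => by
        have hi0 : 0 ≤ i * h := by positivity
        have hb0 : i * h ≤ b * h := mul_le_mul_of_nonneg_right hb.1 hh.le
        have h2 : cosh (i * h) ≤ cosh (b * h) := by
          rw [cosh_le_cosh, abs_of_nonneg hi0, abs_of_nonneg (hi0.trans hb0)]
          exact hb0
        have h3 := sinh_le_mul_cosh hi0
        nlinarith [mul_le_mul_of_nonneg_left h2 hi0])
    have := hm (Set.left_mem_Icc.2 hij) (Set.right_mem_Icc.2 hij) hij
    simp only at this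
    linarith
  have hs1 : 0 < sinh (i * h) := sinh_pos_iff.2 (by positivity)
  have hs2 : 0 < sinh (j * h) := sinh_pos_iff.2 (by positivity)
  have h0 : 0 ≤ sin (j * y) := sin_nonneg_of_mem_Icc ⟨by positivity, hjy⟩
  have h00 : 0 ≤ sin (i * y) := sin_nonneg_of_mem_Icc
    ⟨by positivity, (mul_le_mul_of_nonneg_right hij hy).trans hjy⟩
  rw [div_le_div_iff₀ (by positivity) (by positivity), ← mul_pow, ← mul_pow]
  refine pow_le_pow_left₀ (by positivity) ?_ 2
  -- sin(jy) sinh(ih) ≤ sin(iy) sinh(jh)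
  have h3 : i * j * (sin (j * y) * sinh (i * h)) ≤ i * j * (sin (i * y) * sinh (j * h)) := by
    calc i * j * (sin (j * y) * sinh (i * h)) = (i * sin (j * y)) * (j * sinh (i * h)) := by ring
      _ ≤ (j * sin (i * y)) * (i * sinh (j * h)) := by
          apply mul_le_mul h1 h2 (by positivity) (by positivity)
      _ = _ := by ring
  exact le_of_mul_le_mul_left h3 (by positivity)

/-- The double angle formula for the factors. -/
theorem FF_double {h y j : ℝ} (hh : 0 < h) (hj : 0 < j) :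
    (1 + FF h y j) * (1 - sin (j * y) ^ 2 / cosh (j * h) ^ 2) = 1 + FF h y (2 * j) := by
  have hs : 0 < sinh (j * h) := sinh_pos_iff.2 (by positivity)
  have hc : 0 < cosh (j * h) := cosh_pos _
  have e1 : sin (2 * j * y) = 2 * sin (j * y) * cos (j * y) := by
    rw [show 2 * j * y = 2 * (j * y) by ring, sin_two_mul]
  have e2 : sinh (2 * j * h) = 2 * sinh (j * h) * cosh (j * h) := by
    rw [show 2 * j * h = 2 * (j * h) by ring, sinh_two_mul]
  have e3 : cos (j * y) ^ 2 = 1 - sin (j * y) ^ 2 := cos_sq' _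
  have e4 : cosh (j * h) ^ 2 = 1 + sinh (j * h) ^ 2 := by rw [cosh_sq]; ring
  unfold FF
  rw [e1, e2, mul_pow, mul_pow, mul_pow, mul_pow, e3]
  rw [e4]
  have : (1 + sinh (j * h) ^ 2) ≠ 0 := by positivity
  field_simp
  ring

/-- `cos x ≥ cos u - (sin u / (2u)) (x² - u²)`: tangent line to `cos √v`. -/
theorem cos_tangent {u x : ℝ} (hu : 0 < u) (hu' : u ≤ π) :
    cos u - sin u / (2 * u) * (x ^ 2 - u ^ 2) ≤ cos x := by
  wlog hx : 0 ≤ x generalizing x with H
  · have := H (x := -x) (by linarith)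
    simpa using this
  have hsu : 0 ≤ sin u := sin_nonneg_of_mem_Icc ⟨hu.le, hu'⟩
  -- on [0, π]
  have hpi : ∀ z, 0 ≤ z → z ≤ π → cos u - sin u / (2 * u) * (z ^ 2 - u ^ 2) ≤ cos z := by
    intro z hz hz'
    have hd : ∀ b, HasDerivAt (fun b => cos b + sin u / (2 * u) * (b ^ 2 - u ^ 2))
        (-sin b + sin u / u * b) b := by
      intro b
      have := (hasDerivAt_cos b).add (((hasDerivAt_pow 2 b).sub_const (u ^ 2)).const_mul
        (sin u / (2 * u)))
      refine this.congr_deriv ?_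
      simp
      field_simp
    have hr : ∀ p q, 0 ≤ p → p ≤ q → q ≤ π → p * sin q ≤ q * sin p := by
      intro p q hp hpq hq
      rcases eq_or_lt_of_le hp with rfl | hp
      · simp
      have hm := mono_of_deriv (f := fun b => b * sin p - p * sin b)
        (f' := fun b => sin p - p * cos b) (convex_Icc p q) (fun b _ => by
          have := ((hasDerivAt_id b).mul_const (sin p)).sub ((hasDerivAt_sin b).const_mul p)
          refine this.congr_deriv ?_
          simp) (fun b hb => by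
          have h2 : cos b ≤ cos p := cos_le_cos_of_nonneg_of_le_pi hp.le (hb.2.trans hq) hb.1
          have h3 : p * cos p ≤ sin p := by
            have := sin_cube hp.le (hpq.trans hq)
            have h4 : 0 ≤ sin p := sin_nonneg_of_mem_Icc ⟨hp.le, hpq.trans hq⟩
            have : 0 ≤ sin p ^ 3 / 3 := by positivity
            linarith
          nlinarith [mul_le_mul_of_nonneg_left h2 hp.le])
      have := hm (Set.left_mem_Icc.2 hpq) (Set.right_mem_Icc.2 hpq) hpq
      simp only at this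
      linarith
    rcases le_total z u with h | h
    · -- decreasing on [z, u]
      have hm := mono_of_deriv (f := fun b => -(cos b + sin u / (2 * u) * (b ^ 2 - u ^ 2)))
        (f' := fun b => -(-sin b + sin u / u * b)) (convex_Icc z u) (fun b _ => (hd b).neg)
        (fun b hb => by
          have := hr b u (hz.trans hb.1) hb.2 hu'
          have h5 : sin u / u * b ≤ sin b := by
            rw [div_mul_eq_mul_div, div_le_iff₀ hu]; linarith
          linarith)
      have := hm (Set.left_mem_Icc.2 h) (Set.right_mem_Icc.2 h) h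
      simp only at this
      have e : cos u + sin u / (2 * u) * (u ^ 2 - u ^ 2) = cos u := by ring
      rw [e] at this
      linarith
    · have hm := mono_of_deriv (f := fun b => (cos b + sin u / (2 * u) * (b ^ 2 - u ^ 2)))
        (f' := fun b => (-sin b + sin u / u * b)) (convex_Icc u z) (fun b _ => (hd b))
        (fun b hb => by
          have := hr u b hu.le hb.1 (hb.2.trans hz')
          have h5 : sin b ≤ sin u / u * b := by
            rw [div_mul_eq_mul_div, le_div_iff₀ hu]; linarith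
          linarith)
      have := hm (Set.left_mem_Icc.2 h) (Set.right_mem_Icc.2 h) h
      simp only at this
      have e : cos u + sin u / (2 * u) * (u ^ 2 - u ^ 2) = cos u := by ring
      rw [e] at this
      linarith
  rcases le_total x π with h | h
  · exact hpi x hx h
  · have h1 := hpi π pi_pos.le le_rfl
    rw [cos_pi] at h1
    have h2 : sin u / (2 * u) * (π ^ 2 - u ^ 2) ≤ sin u / (2 * u) * (x ^ 2 - u ^ 2) := by
      apply mul_le_mul_of_nonneg_left _ (by positivity)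
      have := pow_le_pow_left₀ pi_pos.le h 2
      linarith
    have h3 := neg_one_le_cos x
    linarith

end Pool.Agent.SignedQ.Core
end

section

/-! # Core region: integration over bins -/

namespace Pool.Agent.SignedQ.Core

open Real MeasureTheory intervalIntegral

/-- `σ ∫_{u/σ}^{b} f`, `0` if `u/σ ≥ b`. -/
noncomputable def Fb (f : ℝ → ℝ) (σ b u : ℝ) : ℝ := σ * ∫ θ in (u / σ)..(max b (u / σ)), f θ

theorem Fb_nonneg {f : ℝ → ℝ} (hf0 : ∀ x, 0 ≤ f x) {σ b u : ℝ} (hσ : 0 < σ) : 0 ≤ Fb f σ b u := by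
  unfold Fb
  exact mul_nonneg hσ.le (intervalIntegral.integral_nonneg (le_max_right _ _) fun θ _ => hf0 θ)

theorem le_Fb {f : ℝ → ℝ} (hf0 : ∀ x, 0 ≤ f x) {σ b u : ℝ} (hσ : 0 < σ) :
    σ * ∫ θ in (u / σ)..b, f θ ≤ Fb f σ b u := by
  rcases le_total (u / σ) b with h | h
  · unfold Fb
    rw [max_eq_left h]
  · refine le_trans ?_ (Fb_nonneg hf0 hσ)
    rw [intervalIntegral.integral_symm]
    have h1 : 0 ≤ ∫ θ in b..(u / σ), f θ := intervalIntegral.integral_nonneg h fun θ _ => hf0 θ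
    nlinarith

theorem Fb_step {f : ℝ → ℝ} (hf : Continuous f) (hf0 : ∀ x, 0 ≤ f x) {σ b u₀ u₁ g : ℝ}
    (hσ : 0 < σ) (h01 : u₀ ≤ u₁) (hg : 0 ≤ g)
    (h : ∀ θ, u₀ ≤ σ * θ → σ * θ ≤ u₁ → θ ≤ b → f θ ≤ g) :
    Fb f σ b u₀ ≤ (u₁ - u₀) * g + Fb f σ b u₁ := by
  have ha : u₀ / σ ≤ u₁ / σ := div_le_div_of_nonneg_right h01 hσ.le
  have hu0 : σ * (u₀ / σ) = u₀ := mul_div_cancel₀ _ hσ.ne'
  have hu1 : σ * (u₁ / σ) = u₁ := mul_div_cancel₀ _ hσ.ne'
  have hgn : 0 ≤ (u₁ - u₀) * g := mul_nonneg (sub_nonneg.2 h01) hg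
  have hF1 := Fb_nonneg (b := b) (u := u₁) hf0 hσ
  have hint : ∀ c d : ℝ, IntervalIntegrable f volume c d := fun c d => hf.intervalIntegrable c d
  -- the integral over a part of the bin
  have hbin : ∀ c : ℝ, u₀ / σ ≤ c → c ≤ u₁ / σ → c ≤ b → σ * ∫ θ in (u₀ / σ)..c, f θ ≤
      (u₁ - u₀) * g := by
    intro c h0 h1 h2
    have h3 : ∫ θ in (u₀ / σ)..c, f θ ≤ ∫ _θ in (u₀ / σ)..c, g := by
      apply intervalIntegral.integral_mono_on h0 (hint _ _) intervalIntegrable_const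
      intro θ hθ
      apply h θ
      · calc u₀ = σ * (u₀ / σ) := hu0.symm
          _ ≤ σ * θ := mul_le_mul_of_nonneg_left hθ.1 hσ.le
      · calc σ * θ ≤ σ * (u₁ / σ) := mul_le_mul_of_nonneg_left (hθ.2.trans h1) hσ.le
          _ = u₁ := hu1
      · exact hθ.2.trans h2
    rw [intervalIntegral.integral_const, smul_eq_mul] at h3
    calc σ * ∫ θ in (u₀ / σ)..c, f θ ≤ σ * ((c - u₀ / σ) * g) :=
          mul_le_mul_of_nonneg_left h3 hσ.le
      _ ≤ σ * ((u₁ / σ - u₀ / σ) * g) := by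
          apply mul_le_mul_of_nonneg_left _ hσ.le
          apply mul_le_mul_of_nonneg_right _ hg
          linarith
      _ = (u₁ - u₀) * g := by
          rw [← mul_assoc, mul_sub, hu0, hu1]
  rcases le_total b (u₀ / σ) with hb | hb
  · have h0 : Fb f σ b u₀ = 0 := by
      unfold Fb
      rw [max_eq_right hb, intervalIntegral.integral_same, mul_zero]
    rw [h0]
    exact add_nonneg hgn hF1
  · rcases le_total b (u₁ / σ) with hb1 | hb1
    · have h0 : Fb f σ b u₀ = σ * ∫ θ in (u₀ / σ)..b, f θ := by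
        unfold Fb
        rw [max_eq_left hb]
      rw [h0]
      exact (hbin b hb hb1 le_rfl).trans (le_add_of_nonneg_right hF1)
    · have h0 : Fb f σ b u₀ = σ * (∫ θ in (u₀ / σ)..(u₁ / σ), f θ) +
          σ * ∫ θ in (u₁ / σ)..b, f θ := by
        unfold Fb
        rw [max_eq_left hb, ← mul_add, intervalIntegral.integral_add_adjacent_intervals
          (hint _ _) (hint _ _)]
      have h1 : Fb f σ b u₁ = σ * ∫ θ in (u₁ / σ)..b, f θ := by
        unfold Fb
        rw [max_eq_left hb1]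
      rw [h0, h1]
      exact add_le_add (hbin _ ha le_rfl hb1) le_rfl

/-- `∫_U^∞ du/u⁴ = 1/(3U³)`. -/
theorem Fb_tail {f : ℝ → ℝ} (hf : Continuous f) {σ b U D : ℝ} (hσ : 0 < σ)
    (hU : 0 < U) (hD : 0 ≤ D) (h : ∀ θ, U ≤ σ * θ → θ ≤ b → f θ ≤ D / (σ * θ) ^ 4) :
    Fb f σ b U ≤ D / (3 * U ^ 3) := by
  have hUσ : 0 < U / σ := div_pos hU hσ
  have hu0 : σ * (U / σ) = U := mul_div_cancel₀ _ hσ.ne'
  rcases le_total b (U / σ) with hb | hb
  · have h0 : Fb f σ b U = 0 := by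
      unfold Fb
      rw [max_eq_right hb, intervalIntegral.integral_same, mul_zero]
    rw [h0]
    positivity
  · have hbpos : 0 < b := hUσ.trans_le hb
    have h0 : Fb f σ b U = σ * ∫ θ in (U / σ)..b, f θ := by
      unfold Fb
      rw [max_eq_left hb]
    have hder : ∀ θ ∈ Set.uIcc (U / σ) b,
        HasDerivAt (fun θ : ℝ => -(D / (3 * σ ^ 4)) * (θ ^ 3)⁻¹) (D / (σ * θ) ^ 4) θ := by
      intro θ hθ
      rw [Set.uIcc_of_le hb] at hθ
      have hθ0 : 0 < θ := hUσ.trans_le hθ.1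
      have h1 : HasDerivAt (fun θ : ℝ => θ ^ 3) (3 * θ ^ 2) θ := by
        simpa using hasDerivAt_pow 3 θ
      have h2 := (h1.inv (pow_ne_zero 3 hθ0.ne')).const_mul (-(D / (3 * σ ^ 4)))
      have e : -(D / (3 * σ ^ 4)) * (-(3 * θ ^ 2) / (θ ^ 3) ^ 2) = D / (σ * θ) ^ 4 := by
        field_simp
      rw [← e]
      exact h2
    have hcont : ContinuousOn (fun θ : ℝ => D / (σ * θ) ^ 4) (Set.uIcc (U / σ) b) := by
      apply ContinuousOn.div continuousOn_const (by fun_prop)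
      intro θ hθ
      rw [Set.uIcc_of_le hb] at hθ
      have hθ0 : 0 < θ := hUσ.trans_le hθ.1
      positivity
    have hint : IntervalIntegrable (fun θ : ℝ => D / (σ * θ) ^ 4) volume (U / σ) b :=
      hcont.intervalIntegrable
    have h3 : ∫ θ in (U / σ)..b, f θ ≤ ∫ θ in (U / σ)..b, D / (σ * θ) ^ 4 := by
      apply intervalIntegral.integral_mono_on hb (hf.intervalIntegrable _ _) hint
      intro θ hθ
      apply h θ _ hθ.2
      calc U = σ * (U / σ) := hu0.symm
        _ ≤ σ * θ := mul_le_mul_of_nonneg_left hθ.1 hσ.le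
    rw [intervalIntegral.integral_eq_sub_of_hasDerivAt hder hint] at h3
    rw [h0]
    have h4 : 0 ≤ D / (3 * σ ^ 4) * (b ^ 3)⁻¹ := by positivity
    calc σ * ∫ θ in (U / σ)..b, f θ ≤ σ * (-(D / (3 * σ ^ 4)) * (b ^ 3)⁻¹ -
          -(D / (3 * σ ^ 4)) * ((U / σ) ^ 3)⁻¹) := mul_le_mul_of_nonneg_left h3 hσ.le
      _ ≤ σ * (D / (3 * σ ^ 4) * ((U / σ) ^ 3)⁻¹) := by
          apply mul_le_mul_of_nonneg_left _ hσ.le
          linarith
      _ = D / (3 * U ^ 3) := by
          field_simp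

end Pool.Agent.SignedQ.Core
end

section

/-!
# The modular tool, part A: transformation of the norm of the eta function
-/

set_option autoImplicit false

namespace Pool.Agent.Lib.MP_cf17a0_co.S1

open UpperHalfPlane hiding I
open Complex ModularForm MatrixGroups SlashInvariantForm
open scoped Real

/-- the infinite product `(x; x)_∞` -/
noncomputable def Pinf (x : ℂ) : ℂ := ∏' n : ℕ, (1 - x ^ (n + 1))

/-- invariance of the norm of the discriminant -/
theorem eta_norm_inv24 (g : SL(2, ℤ)) (τ : ℍ) :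
    ‖eta (g • τ : ℍ)‖ ^ 24 * (g • τ).im ^ 6 = ‖eta τ‖ ^ 24 * τ.im ^ 6 := by
  have h := congrFun (slash_action_generators_SL2Z discriminant_S_invariant
    discriminant_T_invariant g) τ
  rw [SL_slash_apply] at h
  have h1 := congrArg norm h
  rw [norm_mul, norm_zpow] at h1
  unfold discriminant at h1
  rw [norm_pow, norm_pow] at h1
  have h2 := ModularGroup.im_smul_eq_div_normSq g τ
  have hd : denom g τ ≠ 0 := denom_ne_zero g τ
  have hn : ‖denom g τ‖ ≠ 0 := norm_ne_zero_iff.2 hd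
  rw [h2, Complex.normSq_eq_norm_sq, ← h1]
  rw [zpow_neg]
  rw [show (12 : ℤ) = ((12 : ℕ) : ℤ) by norm_num, zpow_natCast]
  field_simp

theorem eta_norm_inv (g : SL(2, ℤ)) (τ : ℍ) :
    ‖eta (g • τ : ℍ)‖ * (g • τ).im ^ (1 / 4 : ℝ) = ‖eta τ‖ * τ.im ^ (1 / 4 : ℝ) := by
  have h := eta_norm_inv24 g τ
  have key : ∀ y : ℝ, 0 < y → (y ^ (1 / 4 : ℝ)) ^ 24 = y ^ 6 := by
    intro y hy
    rw [← Real.rpow_natCast, ← Real.rpow_mul hy.le, ← Real.rpow_natCast]
    norm_num
  have h1 : (‖eta (g • τ : ℍ)‖ * (g • τ).im ^ (1 / 4 : ℝ)) ^ 24 =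
      (‖eta τ‖ * τ.im ^ (1 / 4 : ℝ)) ^ 24 := by
    rw [mul_pow, mul_pow, key _ (g • τ).im_pos, key _ τ.im_pos, h]
  exact (pow_left_inj₀ (by positivity [(g • τ).im_pos]) (by positivity [τ.im_pos])
    (by norm_num)).1 h1

/-- the norm of the eta function, in terms of the product -/
theorem norm_eta (τ : ℍ) : ‖eta τ‖ = Real.exp (-(π * τ.im / 12)) *
    ‖Pinf (Function.Periodic.qParam 1 τ)‖ := by
  unfold ModularForm.eta Pinf
  rw [norm_mul, Function.Periodic.norm_qParam]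
  congr 2
  rw [coe_im]
  ring

private theorem EA_im (a b : ℝ) : ((a : ℂ) + (b : ℂ) * I).im = b := by simp

private theorem EA_re (a b : ℝ) : ((a : ℂ) + (b : ℂ) * I).re = a := by simp

/-- the point of the upper half plane with `exp (2 π i τ) = exp (- t + i φ)` -/
noncomputable def tau (t φ : ℝ) (ht : 0 < t) : ℍ :=
  ⟨((φ / (2 * π) : ℝ) : ℂ) + ((t / (2 * π) : ℝ) : ℂ) * I, by
    rw [EA_im]
    positivity⟩

theorem tau_im (t φ : ℝ) (ht : 0 < t) : (tau t φ ht).im = t / (2 * π) := by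
  exact EA_im _ _

theorem tau_re (t φ : ℝ) (ht : 0 < t) : (tau t φ ht).re = φ / (2 * π) := by
  exact EA_re _ _

theorem qParam_tau (t φ : ℝ) (ht : 0 < t) : Function.Periodic.qParam 1 (tau t φ ht) =
    Complex.exp (-t + φ * I) := by
  unfold Function.Periodic.qParam
  congr 1
  show 2 * π * I * (((φ / (2 * π) : ℝ) : ℂ) + ((t / (2 * π) : ℝ) : ℂ) * I) / ((1 : ℝ) : ℂ) = _
  have hπ : (π : ℂ) ≠ 0 := by exact_mod_cast Real.pi_ne_zero
  push_cast
  field_simp
  ring_nf
  rw [I_sq]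
  ring

end Pool.Agent.Lib.MP_cf17a0_co.S1
end

section

/-!
# The modular tool, part B: the bound for `1 / (x; x)_∞`
-/

set_option autoImplicit false

namespace Pool.Agent.Lib.MP_cf17a0_co.S1

open UpperHalfPlane hiding I
open Complex ModularForm MatrixGroups Filter
open scoped Real Topology

theorem tendsto_Pinf {q : ℂ} (hq : ‖q‖ < 1) :
    Tendsto (fun N : ℕ => ∏ n ∈ Finset.range N, (1 - q ^ (n + 1))) atTop (𝓝 (Pinf q)) :=
  (multipliable_one_sub_pow hq).hasProd.tendsto_prod_nat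

theorem norm_Pinf_ge (q : ℂ) (ρ : ℝ) (hρ0 : 0 ≤ ρ) (hρ : ρ < 1) (h : ‖q‖ ≤ ρ) :
    1 - ρ / (1 - ρ) ≤ ‖Pinf q‖ := by
  have hT := (tendsto_Pinf (lt_of_le_of_lt h hρ)).norm
  refine ge_of_tendsto' hT fun N => ?_
  have h1 : ∀ N : ℕ, 1 - ∑ n ∈ Finset.range N, ρ ^ (n + 1) ≤
      ‖∏ n ∈ Finset.range N, (1 - q ^ (n + 1))‖ := by
    intro N
    induction N with
    | zero => simp
    | succ N ih =>
      rw [Finset.prod_range_succ, Finset.sum_range_succ, norm_mul]
      have h2 : 1 - ρ ^ (N + 1) ≤ ‖1 - q ^ (N + 1)‖ := by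
        have h3 := norm_sub_norm_le (1 : ℂ) (q ^ (N + 1))
        rw [norm_one, norm_pow] at h3
        have h4 := pow_le_pow_left₀ (norm_nonneg q) h (N + 1)
        linarith
      have h5 : 0 ≤ 1 - ρ ^ (N + 1) := by
        have := pow_le_one₀ (n := N + 1) hρ0 hρ.le
        linarith
      have h6 : 0 ≤ ∑ n ∈ Finset.range N, ρ ^ (n + 1) :=
        Finset.sum_nonneg fun n _ => pow_nonneg hρ0 _
      have h7 : 0 ≤ ρ ^ (N + 1) := pow_nonneg hρ0 _
      calc 1 - (∑ n ∈ Finset.range N, ρ ^ (n + 1) + ρ ^ (N + 1))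
          ≤ (1 - ∑ n ∈ Finset.range N, ρ ^ (n + 1)) * (1 - ρ ^ (N + 1)) := by nlinarith
        _ ≤ ‖∏ n ∈ Finset.range N, (1 - q ^ (n + 1))‖ * (1 - ρ ^ (N + 1)) :=
            mul_le_mul_of_nonneg_right ih h5
        _ ≤ _ := mul_le_mul_of_nonneg_left h2 (norm_nonneg _)
  refine le_trans ?_ (h1 N)
  have h8 : ∑ n ∈ Finset.range N, ρ ^ (n + 1) ≤ ρ / (1 - ρ) := by
    have h9 : ∑ n ∈ Finset.range N, ρ ^ (n + 1) = ρ * ∑ n ∈ Finset.range N, ρ ^ n := by
      rw [Finset.mul_sum]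
      exact Finset.sum_congr rfl fun n _ => by ring
    rw [h9, div_eq_mul_inv]
    refine mul_le_mul_of_nonneg_left ?_ hρ0
    rw [← tsum_geometric_of_lt_one hρ0 hρ]
    exact (summable_geometric_of_lt_one hρ0 hρ).sum_le_tsum _ fun n _ => pow_nonneg hρ0 _
  linarith

theorem exp_544 : (230 : ℝ) ≤ Real.exp 5.44 := by
  have h1 : Real.exp 5.44 = Real.exp 1 ^ 5 * Real.exp 0.44 := by
    rw [← Real.exp_nat_mul, ← Real.exp_add]
    norm_num
  have h2 : (2.7182818283 : ℝ) < Real.exp 1 := Real.exp_one_gt_d9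
  have h3 : (1.551 : ℝ) ≤ Real.exp 0.44 := by
    have h4 := Real.sum_le_exp_of_nonneg (show (0 : ℝ) ≤ 0.44 by norm_num) 5
    refine le_trans ?_ h4
    norm_num [Finset.sum_range_succ, Nat.factorial]
  rw [h1]
  have h5 : (148.41 : ℝ) ≤ Real.exp 1 ^ 5 := by
    calc (148.41 : ℝ) ≤ 2.7182818283 ^ 5 := by norm_num
      _ ≤ _ := pow_le_pow_left₀ (by norm_num) h2.le 5
  calc (230 : ℝ) ≤ 148.41 * 1.551 := by norm_num
    _ ≤ _ := mul_le_mul h5 h3 (by norm_num) (by positivity)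

/-- the imaginary part of the transformed point -/
noncomputable def Yf (t φ : ℝ) (l : ℕ) (d : ℤ) : ℝ :=
  2 * π * t / ((l * t) ^ 2 + (l * φ - 2 * π * d) ^ 2)

theorem im_smul_tau (t φ : ℝ) (ht : 0 < t) (g : SL(2, ℤ)) : ∃ d : ℤ,
    (g • tau t φ ht).im = Yf t φ (g 1 0).natAbs d ∧ IsCoprime ((g 1 0).natAbs : ℤ) d := by
  have h1 := ModularGroup.im_smul_eq_div_normSq g (tau t φ ht)
  rw [ModularGroup.denom_apply] at h1
  have h2 : Complex.normSq ((g 1 0 : ℂ) * (tau t φ ht : ℂ) + (g 1 1 : ℂ)) =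
      ((g 1 0 : ℝ) * (φ / (2 * π)) + (g 1 1 : ℝ)) ^ 2 + ((g 1 0 : ℝ) * (t / (2 * π))) ^ 2 := by
    rw [Complex.normSq_apply]
    have hre : ((g 1 0 : ℂ) * (tau t φ ht : ℂ) + (g 1 1 : ℂ)).re =
        (g 1 0 : ℝ) * (φ / (2 * π)) + (g 1 1 : ℝ) := by
      rw [Complex.add_re, Complex.mul_re, Complex.intCast_re, Complex.intCast_im,
        Complex.intCast_re, coe_re, tau_re]
      ring
    have him : ((g 1 0 : ℂ) * (tau t φ ht : ℂ) + (g 1 1 : ℂ)).im =
        (g 1 0 : ℝ) * (t / (2 * π)) := by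
      rw [Complex.add_im, Complex.mul_im, Complex.intCast_re, Complex.intCast_im,
        Complex.intCast_im, coe_im, tau_im]
      ring
    rw [hre, him]
    ring
  have hcop : IsCoprime (g 1 0) (g 1 1) := ModularGroup.bottom_row_coprime g
  rw [h2, tau_im] at h1
  have hπ := Real.pi_pos
  rcases le_total 0 (g 1 0) with hc | hc
  · refine ⟨-(g 1 1), ?_, ?_⟩
    · rw [h1]
      unfold Yf
      have h3 : (((g 1 0).natAbs : ℕ) : ℝ) = ((g 1 0 : ℤ) : ℝ) := by
        rw [Nat.cast_natAbs, abs_of_nonneg hc]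
      rw [h3]
      push_cast
      have h4 : ((g 1 0 : ℝ) * t) ^ 2 + ((g 1 0 : ℝ) * φ - 2 * π * -(g 1 1 : ℝ)) ^ 2 =
          (2 * π) ^ 2 * (((g 1 0 : ℝ) * (φ / (2 * π)) + (g 1 1 : ℝ)) ^ 2 +
            ((g 1 0 : ℝ) * (t / (2 * π))) ^ 2) := by
        field_simp
        ring
      rw [h4]
      have h5 : 2 * π * t / (2 * π) ^ 2 = t / (2 * π) := by
        field_simp
      rw [← h5, div_div]
    · rw [Int.natAbs_of_nonneg hc]
      exact hcop.neg_right
  · refine ⟨g 1 1, ?_, ?_⟩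
    · rw [h1]
      unfold Yf
      have h3 : (((g 1 0).natAbs : ℕ) : ℝ) = -((g 1 0 : ℤ) : ℝ) := by
        rw [Nat.cast_natAbs, abs_of_nonpos hc]
        push_cast
        ring
      rw [h3]
      have h4 : (-(g 1 0 : ℝ) * t) ^ 2 + (-(g 1 0 : ℝ) * φ - 2 * π * (g 1 1 : ℝ)) ^ 2 =
          (2 * π) ^ 2 * (((g 1 0 : ℝ) * (φ / (2 * π)) + (g 1 1 : ℝ)) ^ 2 +
            ((g 1 0 : ℝ) * (t / (2 * π))) ^ 2) := by
        field_simp
        ring
      rw [h4]
      have h5 : 2 * π * t / (2 * π) ^ 2 = t / (2 * π) := by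
        field_simp
      rw [← h5, div_div]
    · rw [Int.ofNat_natAbs_of_nonpos hc]
      exact hcop.neg_left

end Pool.Agent.Lib.MP_cf17a0_co.S1
end
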