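import Pool.Agent.Lib.MP_cf17a0_co.S1.C.C0

section

/-! # Core region: lower bounds for `∑ S_i`

`h = t/2`, `P = k/2 ≥ 2`, `X = d_P h = dd n a P * (t/2) = a(ν+2P-1) t`, `q(x) = 1 - s(x)`. -/

namespace Pool.Agent.SignedQ.Core

open Real Finset Pool.Agent.SignedQ.An

/-- `X = d_P h`. -/
noncomputable def XX (n k a : ℕ) (t : ℝ) : ℝ := dd n a (k / 2) * (t / 2)

private theorem dd_gen {n a i : ℕ} (h : ¬ (n % 2 = 1 ∧ i = 1)) :
    dd n a i = 2 * (a * (nu n + 2 * i - 1)) := by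
  unfold dd
  rw [if_neg h]

private theorem dd_spec {n a i : ℕ} (h : n % 2 = 1 ∧ i = 1) :
    dd n a i = a * (nu n + 2) := by
  unfold dd
  rw [if_pos h]

private theorem half_ne {n k : ℕ} (hk : 4 ≤ k) : ¬ (n % 2 = 1 ∧ k / 2 = 1) := by
  intro h
  omega

theorem XX_eq {n k a : ℕ} (hk : 4 ≤ k) (t : ℝ) :
    XX n k a t = a * (nu n + 2 * (k / 2 : ℕ) - 1) * t := by
  unfold XX
  rw [dd_gen (half_ne hk)]
  ring

theorem cc_le_dd {n a i : ℕ} (ha : 3 ≤ a) (hi : 1 ≤ i) : cc i ≤ dd n a i := by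
  have ha' : (3 : ℝ) ≤ a := by exact_mod_cast ha
  have hi' : (1 : ℝ) ≤ i := by exact_mod_cast hi
  have hn : (0 : ℝ) ≤ (nu n : ℝ) := Nat.cast_nonneg _
  unfold cc
  by_cases h : n % 2 = 1 ∧ i = 1
  · rw [dd_spec h, h.2]
    push_cast
    nlinarith
  · rw [dd_gen h]
    have h1 : (2 * (i : ℝ) - 1) * 3 ≤ a * (nu n + 2 * i - 1) := by
      nlinarith [mul_nonneg (sub_nonneg.2 ha') (show (0 : ℝ) ≤ 2 * i - 1 by linarith),
        mul_nonneg (show (0 : ℝ) ≤ a by linarith) hn]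
    linarith

/-- `d_i ≥ ((2i-1)/(2P-1)) d_P` (for odd `n`, `i = 1`: `ν + 2 ≥ 2 (ν+2P-1)/(2P-1)`). -/
theorem dd_ge {n k a i : ℕ} (hk : 4 ≤ k) (hi : 1 ≤ i) (hi' : i ≤ k / 2) :
    (2 * i - 1) / (2 * (k / 2 : ℕ) - 1) * dd n a (k / 2) ≤ dd n a i := by
  have hP2 : (2 : ℝ) ≤ ((k / 2 : ℕ) : ℝ) := by
    have : 2 ≤ k / 2 := by omega
    exact_mod_cast this
  have ha' : (0 : ℝ) ≤ a := Nat.cast_nonneg _
  have hi1 : (1 : ℝ) ≤ i := by exact_mod_cast hi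
  have hiP : (i : ℝ) ≤ ((k / 2 : ℕ) : ℝ) := by exact_mod_cast hi'
  have hn : (0 : ℝ) ≤ (nu n : ℝ) := Nat.cast_nonneg _
  rw [dd_gen (half_ne hk), div_mul_eq_mul_div, div_le_iff₀ (by linarith)]
  set P : ℝ := ((k / 2 : ℕ) : ℝ) with hP
  by_cases h : n % 2 = 1 ∧ i = 1
  · rw [dd_spec h, h.2]
    push_cast
    have h1 : (2 * 1 - 1) * (2 * (nu n + 2 * P - 1)) ≤ (nu n + 2) * (2 * P - 1) := by nlinarith
    nlinarith [mul_le_mul_of_nonneg_left h1 ha']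
  · rw [dd_gen h]
    have h1 : (2 * (i : ℝ) - 1) * (nu n + 2 * P - 1) ≤ (nu n + 2 * i - 1) * (2 * P - 1) := by
      nlinarith [mul_nonneg hn (sub_nonneg.2 hiP)]
    nlinarith [mul_le_mul_of_nonneg_left h1 ha']

theorem dd_le {n k a i : ℕ} (hk : 4 ≤ k) (hi : 1 ≤ i) (hi' : i ≤ k / 2) :
    dd n a i ≤ dd n a (k / 2) := by
  have hP2 : (2 : ℝ) ≤ ((k / 2 : ℕ) : ℝ) := by
    have : 2 ≤ k / 2 := by omega
    exact_mod_cast this
  have ha' : (0 : ℝ) ≤ a := Nat.cast_nonneg _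
  have hi1 : (1 : ℝ) ≤ i := by exact_mod_cast hi
  have hiP : (i : ℝ) ≤ ((k / 2 : ℕ) : ℝ) := by exact_mod_cast hi'
  have hn : (0 : ℝ) ≤ (nu n : ℝ) := Nat.cast_nonneg _
  rw [dd_gen (half_ne hk)]
  set P : ℝ := ((k / 2 : ℕ) : ℝ) with hP
  by_cases h : n % 2 = 1 ∧ i = 1
  · rw [dd_spec h]
    have h1 : ((nu n : ℝ) + 2) ≤ 2 * (nu n + 2 * P - 1) := by nlinarith
    nlinarith [mul_le_mul_of_nonneg_left h1 ha']
  · rw [dd_gen h]
    have h1 : ((nu n : ℝ) + 2 * i - 1) ≤ nu n + 2 * P - 1 := by linarith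
    nlinarith [mul_le_mul_of_nonneg_left h1 ha']

/-- `d_i ≤ 2 b_i` where `b_i = bb n a i = a(ν+2i)`. -/
theorem dd_le_two_bb {n a i : ℕ} (hi : 1 ≤ i) : dd n a i ≤ 2 * bb n a i := by
  have ha' : (0 : ℝ) ≤ a := Nat.cast_nonneg _
  have hi1 : (1 : ℝ) ≤ i := by exact_mod_cast hi
  have hn : (0 : ℝ) ≤ (nu n : ℝ) := Nat.cast_nonneg _
  unfold bb
  by_cases h : n % 2 = 1 ∧ i = 1
  · rw [dd_spec h, h.2]
    push_cast
    nlinarith [mul_nonneg ha' (show (0 : ℝ) ≤ nu n + 2 by linarith)]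
  · rw [dd_gen h]
    nlinarith

private theorem cc_pos (i : ℕ) : 0 < cc i := by
  unfold cc
  positivity

theorem Sd_nonneg {n a i : ℕ} (ha : 3 ≤ a) (hi : 1 ≤ i) {t : ℝ} (ht : 0 < t) :
    0 ≤ Sd n a t i := by
  unfold Sd
  have h1 := cc_pos i
  have h2 := cc_le_dd (n := n) (a := a) ha hi
  have h3 : 0 < cc i * (t / 2) := by positivity
  have h4 := sf_anti h3 (mul_le_mul_of_nonneg_right h2 (by positivity))
  linarith

theorem Sd_le_one {n a i : ℕ} (ha : 3 ≤ a) (hi : 1 ≤ i) {t : ℝ} (ht : 0 < t) :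
    Sd n a t i ≤ 1 := by
  unfold Sd
  have h1 := cc_pos i
  have h2 := cc_le_dd (n := n) (a := a) ha hi
  have h3 : 0 < cc i * (t / 2) := by positivity
  have h4 := sf_le_one h3
  have h5 := sf_pos (h3.trans_le (mul_le_mul_of_nonneg_right h2 (by positivity)))
  linarith

theorem Sd_le_q {n k a i : ℕ} (ha : 3 ≤ a) (hk : 4 ≤ k) (hi : 1 ≤ i) (hi' : i ≤ k / 2) {t : ℝ}
    (ht : 0 < t) : Sd n a t i ≤ 1 - sf (XX n k a t) := by
  unfold Sd XX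
  have h1 := cc_pos i
  have h2 := cc_le_dd (n := n) (a := a) ha hi
  have h3 : 0 < cc i * (t / 2) := by positivity
  have h4 := sf_le_one h3
  have h5 : 0 < dd n a i * (t / 2) :=
    h3.trans_le (mul_le_mul_of_nonneg_right h2 (by positivity))
  have h6 := sf_anti h5 (mul_le_mul_of_nonneg_right (dd_le (n := n) (a := a) hk hi hi')
    (by positivity))
  linarith

end Pool.Agent.SignedQ.Core
end

section

/-! # Core region: lower bounds for `∑ S_i`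

`h = t/2`, `P = k/2 ≥ 2`, `X = d_P h = dd n a P * (t/2) = a(ν+2P-1) t`, `q(x) = 1 - s(x)`. -/

namespace Pool.Agent.SignedQ.Core

open Real Finset Pool.Agent.SignedQ.An

/-- `∑_{i=1}^P (2i-1)² = P(4P²-1)/3`. -/
theorem sum_odd_sq (P : ℕ) : ∑ i ∈ Icc 1 P, (2 * (i : ℝ) - 1) ^ 2 = P * (4 * (P : ℝ) ^ 2 - 1) / 3 := by
  induction P with
  | zero => simp
  | succ P ih =>
    rw [Finset.sum_Icc_succ_top (by omega), ih]
    push_cast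
    ring

/-- `∑_{i=1}^P (2i-1)⁴ = P(4P²-1)(12P²-7)/15`. -/
theorem sum_odd_four (P : ℕ) : ∑ i ∈ Icc 1 P, (2 * (i : ℝ) - 1) ^ 4 =
    P * (4 * (P : ℝ) ^ 2 - 1) * (12 * (P : ℝ) ^ 2 - 7) / 15 := by
  induction P with
  | zero => simp
  | succ P ih =>
    rw [Finset.sum_Icc_succ_top (by omega), ih]
    push_cast
    ring

/-- `∑_{i=1}^P (4i+2)² = 16P³/3 + 16P² + 44P/3`. -/
theorem sum_cc_sq (P : ℕ) : ∑ i ∈ Icc 1 P, cc i ^ 2 =
    16 * (P : ℝ) ^ 3 / 3 + 16 * P ^ 2 + 44 * P / 3 := by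
  induction P with
  | zero => simp
  | succ P ih =>
    rw [Finset.sum_Icc_succ_top (by omega), ih]
    unfold cc
    push_cast
    ring

/-- `q(λx) ≥ λ²x²/(3 + λ²x²)` (`sf_le`) and Sedrakyan/Cauchy
(`∑ a_i²/b_i ≥ (∑ a_i)²/∑ b_i` with `a_i = λ_i² X`, `b_i = λ_i²(3 + λ_i²X²)`,
`λ_i = (2i-1)/(2P-1)`): `∑ q(λ_i X) ≥ X² A₂²/(3A₂ + X²A₄)` with
`A₂ = ∑λ_i² = Pρ/3`, `A₄ = ∑λ_i⁴ ≤ Pρ²/5`, `ρ = (2P+1)/(2P-1)`
(`(4P²-7/3) ≤ (2P-1)(2P+1)`), which is `≥ (5P/9) Y/(5+Y)`, `Y = ρX²`. -/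
theorem sum_q_ge {P : ℕ} (hP : 1 ≤ P) {X : ℝ} (hX : 0 < X) :
    5 * P / 9 * (((2 * P + 1) / (2 * P - 1) * X ^ 2) / (5 + (2 * P + 1) / (2 * P - 1) * X ^ 2)) ≤
      ∑ i ∈ Icc 1 P, (1 - sf ((2 * i - 1) / (2 * P - 1) * X)) := by
  have hP1 : (1 : ℝ) ≤ P := by exact_mod_cast hP
  have hD : (0 : ℝ) < 2 * P - 1 := by linarith
  have hD' : (2 * (P : ℝ) - 1) ≠ 0 := hD.ne'
  have hfac : (4 * (P : ℝ) ^ 2 - 1) = (2 * P - 1) * (2 * P + 1) := by ring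
  have hlam : ∀ i ∈ Icc 1 P, (0 : ℝ) < (2 * i - 1) / (2 * P - 1) := by
    intro i hi
    have h1 : (1 : ℝ) ≤ i := by exact_mod_cast (Finset.mem_Icc.1 hi).1
    exact div_pos (by linarith) hD
  have h1 : ∑ i ∈ Icc 1 P, ((((2 * (i : ℝ) - 1) / (2 * P - 1)) ^ 2 * X) ^ 2 /
      (((2 * (i : ℝ) - 1) / (2 * P - 1)) ^ 2 * (3 + ((2 * (i : ℝ) - 1) / (2 * P - 1)) ^ 2 * X ^ 2))) ≤
      ∑ i ∈ Icc 1 P, (1 - sf ((2 * i - 1) / (2 * P - 1) * X)) := by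
    refine Finset.sum_le_sum fun i hi => ?_
    have hl := hlam i hi
    set l : ℝ := (2 * (i : ℝ) - 1) / (2 * P - 1) with hldef
    have h2 := sf_le (show 0 < l * X by positivity)
    have h3 : (l ^ 2 * X) ^ 2 / (l ^ 2 * (3 + l ^ 2 * X ^ 2)) = 1 - 3 / (3 + (l * X) ^ 2) := by
      have h4 : (3 + l ^ 2 * X ^ 2 : ℝ) ≠ 0 := by positivity
      have h5 : (3 + (l * X) ^ 2 : ℝ) ≠ 0 := by positivity
      field_simp
      ring
    rw [h3]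
    linarith
  refine le_trans ?_ h1
  have h2 := Finset.sq_sum_div_le_sum_sq_div (Icc 1 P)
    (fun i : ℕ => ((2 * (i : ℝ) - 1) / (2 * P - 1)) ^ 2 * X)
    (g := fun i : ℕ => ((2 * (i : ℝ) - 1) / (2 * P - 1)) ^ 2 *
      (3 + ((2 * (i : ℝ) - 1) / (2 * P - 1)) ^ 2 * X ^ 2))
    (fun i hi => by
      have hl := hlam i hi
      positivity)
  refine le_trans ?_ h2
  have hA2 : ∑ i ∈ Icc 1 P, ((2 * (i : ℝ) - 1) / (2 * P - 1)) ^ 2 * X =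
      P * ((2 * P + 1) / (2 * P - 1)) / 3 * X := by
    rw [← Finset.sum_mul]
    congr 1
    simp only [div_pow]
    rw [← Finset.sum_div, sum_odd_sq, hfac]
    field_simp
  have hA4 : ∑ i ∈ Icc 1 P, ((2 * (i : ℝ) - 1) / (2 * P - 1)) ^ 2 *
      (3 + ((2 * (i : ℝ) - 1) / (2 * P - 1)) ^ 2 * X ^ 2) =
      P * ((2 * P + 1) / (2 * P - 1)) +
        P * (4 * (P : ℝ) ^ 2 - 1) * (12 * (P : ℝ) ^ 2 - 7) / 15 / (2 * P - 1) ^ 4 * X ^ 2 := by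
    have h3 : ∀ i : ℕ, ((2 * (i : ℝ) - 1) / (2 * P - 1)) ^ 2 *
      (3 + ((2 * (i : ℝ) - 1) / (2 * P - 1)) ^ 2 * X ^ 2) =
        3 * ((2 * (i : ℝ) - 1) ^ 2 / (2 * P - 1) ^ 2) +
          (2 * (i : ℝ) - 1) ^ 4 / (2 * P - 1) ^ 4 * X ^ 2 := by
      intro i
      field_simp
    rw [Finset.sum_congr rfl fun i _ => h3 i, Finset.sum_add_distrib, ← Finset.mul_sum,
      ← Finset.sum_mul, ← Finset.sum_div, ← Finset.sum_div, sum_odd_sq, sum_odd_four]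
    congr 1
    rw [hfac]
    field_simp
  rw [hA2, hA4]
  set r : ℝ := (2 * P + 1) / (2 * P - 1) with hr
  have hr0 : 0 < r := div_pos (by linarith) hD
  have hA4' : P * (4 * (P : ℝ) ^ 2 - 1) * (12 * (P : ℝ) ^ 2 - 7) / 15 / (2 * P - 1) ^ 4 ≤
      P * r ^ 2 / 5 := by
    have e : (P : ℝ) * r ^ 2 / 5 = P * (4 * (P : ℝ) ^ 2 - 1) * (12 * (P : ℝ) ^ 2 - 3) / 15 /
        (2 * P - 1) ^ 4 := by
      rw [hr, show (12 * (P : ℝ) ^ 2 - 3) = 3 * (4 * (P : ℝ) ^ 2 - 1) by ring, hfac]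
      field_simp
      ring
    rw [e]
    have h4 : 0 ≤ P * (4 * (P : ℝ) ^ 2 - 1) := by
      apply mul_nonneg (by linarith)
      nlinarith
    have h5 : P * (4 * (P : ℝ) ^ 2 - 1) * (12 * (P : ℝ) ^ 2 - 7) ≤
        P * (4 * (P : ℝ) ^ 2 - 1) * (12 * (P : ℝ) ^ 2 - 3) :=
      mul_le_mul_of_nonneg_left (by linarith) h4
    gcongr
  have hP0 : (0 : ℝ) < P := by linarith
  have hA40 : 0 ≤ P * (4 * (P : ℝ) ^ 2 - 1) * (12 * (P : ℝ) ^ 2 - 7) / 15 / (2 * P - 1) ^ 4 := by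
    have h4 : 0 ≤ 4 * (P : ℝ) ^ 2 - 1 := by nlinarith
    have h5 : 0 ≤ 12 * (P : ℝ) ^ 2 - 7 := by nlinarith
    positivity
  have h6 : 5 * P / 9 * (r * X ^ 2 / (5 + r * X ^ 2)) =
      (P * r / 3 * X) ^ 2 / (P * r + P * r ^ 2 / 5 * X ^ 2) := by
    field_simp
    ring
  rw [h6]
  apply div_le_div_of_nonneg_left (by positivity)
  · have h7 : 0 < P * r := by positivity
    have h8 := mul_nonneg hA40 (sq_nonneg X)
    linarith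
  · have h8 := mul_le_mul_of_nonneg_right hA4' (sq_nonneg X)
    linarith

end Pool.Agent.SignedQ.Core
end

section

/-! # Core region: lower bounds for `∑ S_i`

`h = t/2`, `P = k/2 ≥ 2`, `X = d_P h = dd n a P * (t/2) = a(ν+2P-1) t`, `q(x) = 1 - s(x)`. -/

namespace Pool.Agent.SignedQ.Core

open Real Finset Pool.Agent.SignedQ.An

private theorem E4c_XX_pos {n k a : ℕ} (ha : 1 ≤ a) (hk : 4 ≤ k) {t : ℝ} (ht : 0 < t) :
    0 < XX n k a t := by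
  rw [XX_eq hk]
  have hP2 : 2 ≤ k / 2 := by omega
  have hP : (2 : ℝ) ≤ ((k / 2 : ℕ) : ℝ) := by exact_mod_cast hP2
  have ha' : (1 : ℝ) ≤ a := by exact_mod_cast ha
  have hn : (0 : ℝ) ≤ (nu n : ℝ) := Nat.cast_nonneg _
  have : 0 < (nu n : ℝ) + 2 * (k / 2 : ℕ) - 1 := by linarith
  positivity

private theorem E4c_nk {n k : ℕ} (hnk : Even (n * k)) : n + k ≤ nu n + 2 * (k / 2) + 1 := by
  unfold nu
  rcases Nat.even_mul.1 hnk with h | h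
  · obtain ⟨m, hm⟩ := h
    omega
  · obtain ⟨m, hm⟩ := h
    omega

/-- `S_i = q(d_i h) - q(c_i h)`, `q(d_i h) ≥ q(λ_i X)` (`dd_ge`, `sf_anti`), `q(c_i h) ≤ (c_i h)²/3`,
`∑ c_i² = 16P³/3 + 16P² + 44P/3`, `4Ph ≤ kt` (`h = t/2`, `2P ≤ k`). -/
theorem SS_ge {n k a : ℕ} (ha : 3 ≤ a) (hk : 4 ≤ k) {t : ℝ} (ht : 0 < t) :
    5 * (k / 2 : ℕ) / 9 * (((2 * (k / 2 : ℕ) + 1) / (2 * (k / 2 : ℕ) - 1) * XX n k a t ^ 2) /
      (5 + (2 * (k / 2 : ℕ) + 1) / (2 * (k / 2 : ℕ) - 1) * XX n k a t ^ 2)) -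
      (k / 2 : ℕ) / 9 * (1 + 3 / (k / 2 : ℕ) + 11 / (4 * (k / 2 : ℕ) ^ 2)) * (k * t) ^ 2 ≤
      SS n k a t := by
  have hP2 : 2 ≤ k / 2 := by omega
  have hP : (2 : ℝ) ≤ ((k / 2 : ℕ) : ℝ) := by exact_mod_cast hP2
  have hX : 0 < XX n k a t := E4c_XX_pos (by omega) hk ht
  have hkP : 2 * ((k / 2 : ℕ) : ℝ) ≤ k := by exact_mod_cast Nat.mul_div_le k 2
  have h1 := sum_q_ge (P := k / 2) (by omega) hX
  have h2 : ∑ i ∈ Icc 1 (k / 2), (1 - sf ((2 * i - 1) / (2 * (k / 2 : ℕ) - 1) * XX n k a t)) ≤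
      ∑ i ∈ Icc 1 (k / 2), (1 - sf (dd n a i * (t / 2))) := by
    refine Finset.sum_le_sum fun i hi => ?_
    rw [mem_Icc] at hi
    have hi1 : (1 : ℝ) ≤ i := by exact_mod_cast hi.1
    have hpos : 0 < (2 * (i : ℝ) - 1) / (2 * (k / 2 : ℕ) - 1) * XX n k a t :=
      mul_pos (div_pos (by linarith) (by linarith)) hX
    have hle : (2 * (i : ℝ) - 1) / (2 * (k / 2 : ℕ) - 1) * XX n k a t ≤ dd n a i * (t / 2) := by
      unfold XX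
      rw [← mul_assoc]
      exact mul_le_mul_of_nonneg_right (dd_ge hk hi.1 hi.2) (half_pos ht).le
    have := sf_anti hpos hle
    linarith
  have h3 : ∑ i ∈ Icc 1 (k / 2), (1 - sf (cc i * (t / 2))) ≤
      ∑ i ∈ Icc 1 (k / 2), (cc i ^ 2 * (t ^ 2 / 12)) := by
    refine Finset.sum_le_sum fun i hi => ?_
    have hc : 0 < cc i := by
      unfold cc
      positivity
    have := sf_ge' (x := cc i * (t / 2)) (mul_pos hc (half_pos ht))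
    have e : (cc i * (t / 2)) ^ 2 / 3 = cc i ^ 2 * (t ^ 2 / 12) := by ring
    linarith
  rw [← Finset.sum_mul, sum_cc_sq] at h3
  have h4 : SS n k a t = ∑ i ∈ Icc 1 (k / 2), (1 - sf (dd n a i * (t / 2))) -
      ∑ i ∈ Icc 1 (k / 2), (1 - sf (cc i * (t / 2))) := by
    unfold SS Sd
    rw [← Finset.sum_sub_distrib]
    refine Finset.sum_congr rfl fun i _ => ?_
    ring
  have h5 : (16 * ((k / 2 : ℕ) : ℝ) ^ 3 / 3 + 16 * ((k / 2 : ℕ) : ℝ) ^ 2 +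
      44 * ((k / 2 : ℕ) : ℝ) / 3) * (t ^ 2 / 12) ≤
      (k / 2 : ℕ) / 9 * (1 + 3 / (k / 2 : ℕ) + 11 / (4 * (k / 2 : ℕ) ^ 2)) * (k * t) ^ 2 := by
    generalize ((k / 2 : ℕ) : ℝ) = p at *
    have hp : 0 < p := by linarith
    have e : (16 * p ^ 3 / 3 + 16 * p ^ 2 + 44 * p / 3) * (t ^ 2 / 12) =
        p / 9 * (1 + 3 / p + 11 / (4 * p ^ 2)) * (2 * p * t) ^ 2 := by
      field_simp
      ring
    rw [e]
    refine mul_le_mul_of_nonneg_left ?_ (by positivity)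
    refine pow_le_pow_left₀ (by positivity) ?_ 2
    exact mul_le_mul_of_nonneg_right hkP ht.le
  rw [h4]
  linarith

/-- `ν + 2P - 1 ≥ n + k - 2` for `Even (n k)`. -/
theorem XX_ge {n k a : ℕ} (hnk : Even (n * k)) (hk : 4 ≤ k) {t : ℝ} (ht : 0 < t) :
    a * (n + k - 2) * t ≤ XX n k a t := by
  rw [XX_eq hk]
  have h := E4c_nk hnk
  have hh : (n : ℝ) + k ≤ nu n + 2 * (k / 2 : ℕ) + 1 := by exact_mod_cast h
  have ha : (0 : ℝ) ≤ a := Nat.cast_nonneg a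
  refine mul_le_mul_of_nonneg_right ?_ ht.le
  exact mul_le_mul_of_nonneg_left (by linarith) ha

/-- `n + k ≤ ((2P+1)/(2P-1)) (ν + 2P - 1)`. -/
theorem le_XX {n k a : ℕ} (hnk : Even (n * k)) (hk : 4 ≤ k) {t : ℝ} (ht : 0 < t) :
    a * (n + k) * t ≤ (2 * (k / 2 : ℕ) + 1) / (2 * (k / 2 : ℕ) - 1) * XX n k a t := by
  rw [XX_eq hk]
  have h := E4c_nk hnk
  have hh : (n : ℝ) + k ≤ nu n + 2 * (k / 2 : ℕ) + 1 := by exact_mod_cast h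
  have ha : (0 : ℝ) ≤ a := Nat.cast_nonneg a
  have hn : (0 : ℝ) ≤ (nu n : ℝ) := Nat.cast_nonneg _
  have hP2 : 2 ≤ k / 2 := by omega
  have hP : (2 : ℝ) ≤ ((k / 2 : ℕ) : ℝ) := by exact_mod_cast hP2
  generalize ((k / 2 : ℕ) : ℝ) = p at *
  have hp : 0 < 2 * p - 1 := by linarith
  have key : (n : ℝ) + k ≤ (2 * p + 1) / (2 * p - 1) * (nu n + 2 * p - 1) := by
    rw [div_mul_eq_mul_div, le_div_iff₀ hp]
    have h1 : ((n : ℝ) + k) * (2 * p - 1) ≤ (nu n + 2 * p + 1) * (2 * p - 1) :=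
      mul_le_mul_of_nonneg_right hh hp.le
    nlinarith
  calc (a : ℝ) * (n + k) * t ≤ a * ((2 * p + 1) / (2 * p - 1) * (nu n + 2 * p - 1)) * t :=
        mul_le_mul_of_nonneg_right (mul_le_mul_of_nonneg_left key ha) ht.le
    _ = (2 * p + 1) / (2 * p - 1) * (a * (nu n + 2 * p - 1) * t) := by ring

/-- `q(ρX) ≤ ρ² q(X)` (`q_div_anti`). -/
theorem q_num_le {n k a : ℕ} (hnk : Even (n * k)) (ha : 3 ≤ a) (hk : 4 ≤ k) {t : ℝ} (ht : 0 < t) :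
    1 - sf (a * (n + k) * t) ≤
      ((2 * (k / 2 : ℕ) + 1) / (2 * (k / 2 : ℕ) - 1)) ^ 2 * (1 - sf (XX n k a t)) := by
  have hX : 0 < XX n k a t := E4c_XX_pos (by omega) hk ht
  have h1 := le_XX (a := a) hnk hk ht
  have hP2 : 2 ≤ k / 2 := by omega
  have hP : (2 : ℝ) ≤ ((k / 2 : ℕ) : ℝ) := by exact_mod_cast hP2
  have ha' : (3 : ℝ) ≤ a := by exact_mod_cast ha
  have hk' : (4 : ℝ) ≤ k := by exact_mod_cast hk
  have hn : (0 : ℝ) ≤ (n : ℝ) := Nat.cast_nonneg _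
  have hY : 0 < (a : ℝ) * (n + k) * t := by positivity
  have hρ : 1 ≤ (2 * ((k / 2 : ℕ) : ℝ) + 1) / (2 * (k / 2 : ℕ) - 1) := by
    rw [le_div_iff₀ (by linarith)]
    linarith
  set ρ := (2 * ((k / 2 : ℕ) : ℝ) + 1) / (2 * (k / 2 : ℕ) - 1) with hρd
  have h2 := sf_anti hY h1
  have h3 : XX n k a t ≤ ρ * XX n k a t := le_mul_of_one_le_left hX.le hρ
  have h4 := q_div_anti hX h3
  have hX2 : 0 < XX n k a t ^ 2 := by positivity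
  rw [div_le_div_iff₀ (by positivity) hX2] at h4
  have h5 : (1 - sf (ρ * XX n k a t)) * XX n k a t ^ 2 ≤
      (ρ ^ 2 * (1 - sf (XX n k a t))) * XX n k a t ^ 2 := by
    calc (1 - sf (ρ * XX n k a t)) * XX n k a t ^ 2 ≤
        (1 - sf (XX n k a t)) * (ρ * XX n k a t) ^ 2 := h4
      _ = _ := by ring
  have h6 := le_of_mul_le_mul_right h5 hX2
  linarith

/-- From `3/5` fraction bound `sf_ge`: `q(X) ≤ X²/(3 + 3X²/5)`, and `q ≤ 1`. -/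
theorem q_XX_le {X : ℝ} (hX : 0 < X) : 1 - sf X ≤ X ^ 2 / (3 + 3 / 5 * X ^ 2) ∧ 1 - sf X ≤ 1 := by
  have h1 := sf_ge hX
  have h2 := sf_pos hX
  exact ⟨by linarith, by linarith⟩

end Pool.Agent.SignedQ.Core
end

section

/-! # Core region: lower bounds for `∑ S_i` -/

namespace Pool.Agent.SignedQ.Core

open Real Finset Pool.Agent.SignedQ.An


end Pool.Agent.SignedQ.Core
end
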