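import Pool.Agent.Lib.MP_cf17a0_co.S1.C.C0

section

/-! # Core region: bounds for the factors `NN` and `LL`

`h = t/2`, `y = θ/2`, `b = a(ν+2i-1)`, `b' = a(ν+2i) = bb n a i`, `d = 2b = dd n a i`. -/

namespace Pool.Agent.SignedQ.Core

open Real Finset Pool.Agent.SignedQ.An

/-- `W_{2b}/W_b ≤ 1` (`FF_double`: `W_{2j} = W_j (1 - sin²/cosh²)`). -/
theorem WW_double_le {t θ j : ℝ} (ht : 0 < t) (hj : 0 < j) : WW t θ (2 * j) ≤ WW t θ j := by
  unfold WW
  rw [← FF_double (h := t / 2) (y := θ / 2) (half_pos ht) hj]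
  have h1 : 0 ≤ FF (t / 2) (θ / 2) j := FF_nonneg _ _ _
  have h2 : 0 ≤ sin (j * (θ / 2)) ^ 2 / cosh (j * (t / 2)) ^ 2 := by positivity
  nlinarith

/-- While `b' y ≤ π` we have `W_{b'} ≤ W_b` (`FF_anti`), so `NN_i = W_{2b} W_{b'}/W_b ≤ W_{2b}`. -/
theorem NN_le_dd {n a : ℕ} (ha : 1 ≤ a) {t θ : ℝ} (ht : 0 < t) (hθ : 0 ≤ θ) {i : ℕ} (hi : 1 ≤ i)
    (hpi : bb n a i * (θ / 2) ≤ π) : NN n a t θ i ≤ WW t θ (dd n a i) := by
  unfold NN
  have ha' : (1 : ℝ) ≤ a := by exact_mod_cast ha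
  have hi' : (1 : ℝ) ≤ i := by exact_mod_cast hi
  have hn : (0 : ℝ) ≤ (nu n : ℝ) := Nat.cast_nonneg _
  by_cases h : n % 2 = 1 ∧ i = 1
  · rw [if_pos h]
    have e : dd n a i = bb n a i := by
      unfold dd bb
      rw [if_pos h, h.2]
      push_cast
      ring
    rw [e]
  · rw [if_neg h]
    have hb : 0 < (a : ℝ) * (nu n + 2 * i - 1) := by
      have : 0 < (nu n : ℝ) + 2 * i - 1 := by linarith
      positivity
    have hle : (a : ℝ) * (nu n + 2 * i - 1) ≤ bb n a i := by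
      unfold bb
      exact mul_le_mul_of_nonneg_left (by linarith) (by linarith)
    have h1 : WW t θ (bb n a i) ≤ WW t θ (a * (nu n + 2 * i - 1)) := by
      unfold WW
      have := FF_anti (h := t / 2) (y := θ / 2) hb hle (half_pos ht) (by linarith) hpi
      linarith
    rw [div_le_iff₀ (WW_pos _ _ _)]
    exact mul_le_mul_of_nonneg_left h1 (WW_pos _ _ _).le

/-- Always `NN_i ≤ W_{b'} ≤ 1 + 1/sinh²(b'h)` (`WW_double_le`, `sin² ≤ 1`). -/
theorem NN_le_sinh {n a : ℕ} (ha : 1 ≤ a) {t θ : ℝ} (ht : 0 < t) {i : ℕ} (hi : 1 ≤ i) :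
    NN n a t θ i ≤ 1 + 1 / sinh (bb n a i * (t / 2)) ^ 2 := by
  have ha' : (1 : ℝ) ≤ a := by exact_mod_cast ha
  have hi' : (1 : ℝ) ≤ i := by exact_mod_cast hi
  have hn : (0 : ℝ) ≤ (nu n : ℝ) := Nat.cast_nonneg _
  have h1 : WW t θ (bb n a i) ≤ 1 + 1 / sinh (bb n a i * (t / 2)) ^ 2 := by
    unfold WW FF
    have h2 : sin (bb n a i * (θ / 2)) ^ 2 ≤ 1 := sin_sq_le_one _
    have h3 : 0 ≤ sinh (bb n a i * (t / 2)) ^ 2 := sq_nonneg _
    have := div_le_div_of_nonneg_right h2 h3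
    linarith
  refine le_trans ?_ h1
  unfold NN
  by_cases h : n % 2 = 1 ∧ i = 1
  · rw [if_pos h]
  · rw [if_neg h]
    have hb : 0 < (a : ℝ) * (nu n + 2 * i - 1) := by
      have : 0 < (nu n : ℝ) + 2 * i - 1 := by linarith
      positivity
    have e : dd n a i = 2 * (a * (nu n + 2 * i - 1)) := by
      unfold dd
      rw [if_neg h]
    have h2 := WW_double_le (θ := θ) ht hb
    rw [← e] at h2
    rw [div_le_iff₀ (WW_pos _ _ _), mul_comm]
    exact mul_le_mul_of_nonneg_left h2 (WW_pos _ _ _).le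

theorem NN_pos {n a : ℕ} (t θ : ℝ) (i : ℕ) : 0 < NN n a t θ i := by
  unfold NN
  split_ifs
  · exact WW_pos _ _ _
  · exact div_pos (mul_pos (WW_pos _ _ _) (WW_pos _ _ _)) (WW_pos _ _ _)

/-- `LL ≤ 1` while `(k+1)θ ≤ π`: every quotient is `≤ 1` by `FF_anti` (largest index
`2k+2`, `(2k+2) y = (k+1) θ`). -/
theorem LL_le_one {k : ℕ} (hk : 2 ≤ k) {t θ : ℝ} (ht : 0 < t) (hθ : 0 ≤ θ)
    (hpi : (k + 1) * θ ≤ π) : LL k t θ ≤ 1 := by
  have hq : ∀ i j : ℝ, 0 < i → i ≤ j → j ≤ 2 * k + 2 → WW t θ j / WW t θ i ≤ 1 := by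
    intro i j hi hij hj
    rw [div_le_one (WW_pos _ _ _)]
    unfold WW
    have h1 : j * (θ / 2) ≤ π := by
      have : j * (θ / 2) ≤ (2 * k + 2) * (θ / 2) := mul_le_mul_of_nonneg_right hj (by linarith)
      linarith
    have := FF_anti (h := t / 2) (y := θ / 2) hi hij (half_pos ht) (by linarith) h1
    linarith
  have hk2 : ((2 * (k / 2) : ℕ) : ℝ) ≤ k := by exact_mod_cast Nat.mul_div_le k 2
  have hprod : ∀ m : ℕ, m ≤ k / 2 →
      ∏ i ∈ Icc 1 m, WW t θ (2 * i + 1) / WW t θ (2 * i) ≤ 1 := by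
    intro m hm
    refine Finset.prod_le_one (fun i _ => (div_pos (WW_pos _ _ _) (WW_pos _ _ _)).le) fun i hi => ?_
    rw [mem_Icc] at hi
    have hi1 : (1 : ℝ) ≤ i := by exact_mod_cast hi.1
    have hi2 : ((2 * i : ℕ) : ℝ) ≤ ((2 * (k / 2) : ℕ) : ℝ) := by
      exact_mod_cast Nat.mul_le_mul_left 2 (hi.2.trans hm)
    push_cast at hi2 hk2
    exact hq _ _ (by linarith) (by linarith) (by linarith)
  unfold LL
  split_ifs with h
  · have h1 := hprod (k / 2 - 1) (Nat.sub_le _ _)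
    have h2 : WW t θ (4 * (k / 2 : ℕ) + 2) / WW t θ (2 * (k / 2 : ℕ)) ≤ 1 := by
      have hP : (1 : ℝ) ≤ ((k / 2 : ℕ) : ℝ) := by
        have : 1 ≤ k / 2 := by omega
        exact_mod_cast this
      push_cast at hk2
      exact hq _ _ (by linarith) (by linarith) (by linarith)
    have h3 : 0 ≤ WW t θ (4 * (k / 2 : ℕ) + 2) / WW t θ (2 * (k / 2 : ℕ)) :=
      (div_pos (WW_pos _ _ _) (WW_pos _ _ _)).le
    exact mul_le_one₀ h1 h3 h2
  · exact hprod _ le_rfl

theorem LL_pos {k : ℕ} (t θ : ℝ) : 0 < LL k t θ := by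
  have hprod : ∀ m : ℕ, 0 < ∏ i ∈ Icc 1 m, WW t θ (2 * i + 1) / WW t θ (2 * i) :=
    fun m => Finset.prod_pos fun i _ => div_pos (WW_pos _ _ _) (WW_pos _ _ _)
  unfold LL
  split_ifs
  · exact mul_pos (hprod _) (div_pos (WW_pos _ _ _) (WW_pos _ _ _))
  · exact hprod _

end Pool.Agent.SignedQ.Core
end

section

/-! # Core region: bounds for the factors `NN` and `LL`

`h = t/2`, `y = θ/2`, `b = a(ν+2i-1)`, `b' = a(ν+2i) = bb n a i`, `d = 2b = dd n a i`. -/

namespace Pool.Agent.SignedQ.Core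

open Real Finset Pool.Agent.SignedQ.An

/-- `W_{j+1} ≤ W_j (1 + y/sinh²(jh))`: `sin²((j+1)y) - sin²(jy) = sin y sin((2j+1)y) ≤ y`, and
`sinh` is increasing. -/
theorem WW_succ_le {t θ j : ℝ} (ht : 0 < t) (hθ : 0 ≤ θ) (hj : 0 < j) :
    WW t θ (j + 1) ≤ WW t θ j * (1 + θ / 2 / sinh (j * (t / 2)) ^ 2) := by
  have hj0 : 0 < j * (t / 2) := by positivity
  have hs : 0 < sinh (j * (t / 2)) := sinh_pos_iff.2 hj0
  have hsle : sinh (j * (t / 2)) ≤ sinh ((j + 1) * (t / 2)) := by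
    apply sinh_le_sinh.2
    nlinarith
  have hsin : sin ((j + 1) * (θ / 2)) ^ 2 ≤ sin (j * (θ / 2)) ^ 2 + θ / 2 := by
    have h1 : sin ((j + 1) * (θ / 2)) ^ 2 - sin (j * (θ / 2)) ^ 2 =
        sin (θ / 2) * sin ((2 * j + 1) * (θ / 2)) := by
      rw [show (j + 1) * (θ / 2) = j * (θ / 2) + θ / 2 by ring,
        show (2 * j + 1) * (θ / 2) = j * (θ / 2) + (j * (θ / 2) + θ / 2) by ring,
        sin_add, sin_add, cos_add, sin_add]
      have e1 := sin_sq_add_cos_sq (j * (θ / 2))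
      have e2 := sin_sq_add_cos_sq (θ / 2)
      generalize sin (j * (θ / 2)) = A at *
      generalize cos (j * (θ / 2)) = B at *
      generalize sin (θ / 2) = C at *
      generalize cos (θ / 2) = D at *
      have e3 : D ^ 2 = 1 - C ^ 2 := by linarith
      have e4 : B ^ 2 = 1 - A ^ 2 := by linarith
      calc (A * D + B * C) ^ 2 - A ^ 2 = A ^ 2 * D ^ 2 + 2 * A * B * C * D + B ^ 2 * C ^ 2 - A ^ 2 := by
            ring
        _ = 2 * A * B * C * D + C ^ 2 * (B ^ 2 - A ^ 2) := by rw [e3]; ring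
        _ = _ := by ring
    have h2 : sin (θ / 2) * sin ((2 * j + 1) * (θ / 2)) ≤ θ / 2 := by
      have h3 : |sin (θ / 2)| ≤ |θ / 2| := abs_sin_le_abs
      have h4 := abs_sin_le_one ((2 * j + 1) * (θ / 2))
      rw [abs_of_nonneg (by positivity : 0 ≤ θ / 2)] at h3
      calc sin (θ / 2) * sin ((2 * j + 1) * (θ / 2)) ≤
          |sin (θ / 2) * sin ((2 * j + 1) * (θ / 2))| := le_abs_self _
        _ = |sin (θ / 2)| * |sin ((2 * j + 1) * (θ / 2))| := abs_mul _ _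
        _ ≤ θ / 2 * 1 := mul_le_mul h3 h4 (abs_nonneg _) (by positivity)
        _ = θ / 2 := mul_one _
    linarith
  have h5 : FF (t / 2) (θ / 2) (j + 1) ≤
      FF (t / 2) (θ / 2) j + θ / 2 / sinh (j * (t / 2)) ^ 2 := by
    unfold FF
    rw [← add_div]
    have hpos : 0 ≤ sin (j * (θ / 2)) ^ 2 + θ / 2 := by positivity
    exact div_le_div₀ hpos hsin (by positivity) (pow_le_pow_left₀ hs.le hsle 2)
  have h6 : 0 ≤ FF (t / 2) (θ / 2) j * (θ / 2 / sinh (j * (t / 2)) ^ 2) :=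
    mul_nonneg (FF_nonneg _ _ _) (by positivity)
  unfold WW
  nlinarith

theorem C2b_coth {x d : ℝ} (hx : 0 < x) (hd : 0 < d) :
    d / sinh (x + d) ^ 2 ≤ cosh x / sinh x - cosh (x + d) / sinh (x + d) := by
  have h1 : 0 < sinh x := sinh_pos_iff.2 hx
  have h2 : 0 < sinh (x + d) := sinh_pos_iff.2 (by linarith)
  have h3 : sinh x ≤ sinh (x + d) := sinh_le_sinh.2 (by linarith)
  have h4 : d ≤ sinh d := self_le_sinh_iff.2 hd.le
  have h5 : cosh x / sinh x - cosh (x + d) / sinh (x + d) = sinh d / (sinh x * sinh (x + d)) := by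
    rw [div_sub_div _ _ h1.ne' h2.ne']
    congr 1
    have h6 : sinh d = sinh (x + d - x) := by rw [add_sub_cancel_left]
    rw [h6, sinh_sub]
    ring
  rw [h5]
  apply div_le_div₀ (by linarith) h4 (by positivity)
  rw [sq]
  exact mul_le_mul_of_nonneg_right h3 h2.le

theorem C2b_coth_anti {x y : ℝ} (hx : 0 < x) (hxy : x ≤ y) :
    cosh y / sinh y ≤ cosh x / sinh x := by
  rcases eq_or_lt_of_le hxy with h | h
  · rw [h]
  · have h1 := C2b_coth hx (sub_pos.2 h)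
    rw [add_sub_cancel] at h1
    have h2 : 0 ≤ (y - x) / sinh y ^ 2 := by
      have : 0 ≤ y - x := by linarith
      positivity
    linarith

theorem C2b_coth_ge {x : ℝ} (hx : 0 < x) : 1 ≤ cosh x / sinh x := by
  have h1 : 0 < sinh x := sinh_pos_iff.2 hx
  rw [one_le_div h1]
  exact (sinh_lt_cosh x).le

theorem C2b_prod {t z b : ℝ} (ht : 0 < t) (hz : 0 < z) (hb : 0 < b)
    (hb' : b ≤ π / z - t / 2) (N : ℕ) :
    ∏ i ∈ Icc 1 N, WW t (z * t) (2 * (i : ℝ) + 1) / WW t (z * t) (2 * (i : ℝ)) ≤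
      exp (if b < 2 * (N : ℝ) * (t / 2) then z * (t / 2) / sinh b ^ 2 +
        z / 2 * (cosh b / sinh b - cosh (2 * (N : ℝ) * (t / 2)) / sinh (2 * (N : ℝ) * (t / 2)))
        else 0) := by
  have hzt : 0 < z * t := by positivity
  have hsb : 0 < sinh b := sinh_pos_iff.2 hb
  -- a factor
  have hf1 : ∀ i : ℕ, 1 ≤ i → 2 * (i : ℝ) * (t / 2) ≤ b →
      WW t (z * t) (2 * (i : ℝ) + 1) / WW t (z * t) (2 * (i : ℝ)) ≤ 1 := by
    intro i hi hib
    have hi' : (1 : ℝ) ≤ i := by exact_mod_cast hi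
    rw [div_le_one (WW_pos _ _ _)]
    unfold WW
    have h1 : (2 * (i : ℝ) + 1) * (z * t / 2) ≤ π := by
      have h2 : (2 * (i : ℝ) + 1) * (t / 2) ≤ π / z := by linarith
      rw [le_div_iff₀ hz] at h2
      calc (2 * (i : ℝ) + 1) * (z * t / 2) = (2 * (i : ℝ) + 1) * (t / 2) * z := by ring
        _ ≤ π := h2
    have := FF_anti (i := 2 * (i : ℝ)) (j := 2 * (i : ℝ) + 1) (h := t / 2) (y := z * t / 2)
      (by positivity) (by linarith) (by positivity) (by positivity) h1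
    linarith
  have hf2 : ∀ i : ℕ, 1 ≤ i →
      WW t (z * t) (2 * (i : ℝ) + 1) / WW t (z * t) (2 * (i : ℝ)) ≤
        exp (z * (t / 2) / sinh (2 * (i : ℝ) * (t / 2)) ^ 2) := by
    intro i hi
    have hi' : (1 : ℝ) ≤ i := by exact_mod_cast hi
    rw [div_le_iff₀ (WW_pos _ _ _)]
    refine (WW_succ_le (j := 2 * (i : ℝ)) ht hzt.le (by positivity)).trans ?_
    rw [mul_comm]
    refine mul_le_mul_of_nonneg_right ?_ (WW_pos _ _ _).le
    have h1 := add_one_le_exp (z * (t / 2) / sinh (2 * (i : ℝ) * (t / 2)) ^ 2)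
    rw [show z * t / 2 = z * (t / 2) by ring]
    linarith
  induction N with
  | zero =>
    have : ¬ b < 2 * ((0 : ℕ) : ℝ) * (t / 2) := by
      push_cast
      rw [mul_zero, zero_mul]
      linarith
    rw [if_neg this]
    simp
  | succ N ih =>
    have hp := prod_Icc_succ_top (by omega : 1 ≤ N + 1)
      (fun i : ℕ => WW t (z * t) (2 * (i : ℝ) + 1) / WW t (z * t) (2 * (i : ℝ)))
    rw [hp]
    have hpos : 0 ≤ WW t (z * t) (2 * ((N + 1 : ℕ) : ℝ) + 1) / WW t (z * t) (2 * ((N + 1 : ℕ) : ℝ)) :=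
      (div_pos (WW_pos _ _ _) (WW_pos _ _ _)).le
    have hx : 2 * ((N + 1 : ℕ) : ℝ) * (t / 2) = 2 * (N : ℝ) * (t / 2) + t := by
      push_cast
      ring
    by_cases h1 : b < 2 * ((N + 1 : ℕ) : ℝ) * (t / 2)
    · rw [if_pos h1]
      by_cases h2 : b < 2 * (N : ℝ) * (t / 2)
      · rw [if_pos h2] at ih
        refine (mul_le_mul ih (hf2 (N + 1) (by omega)) hpos (exp_pos _).le).trans ?_
        rw [← exp_add]
        apply exp_le_exp.2
        have h3 := C2b_coth (x := 2 * (N : ℝ) * (t / 2)) (d := t) (by linarith) ht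
        rw [← hx] at h3
        have h4 : z * (t / 2) / sinh (2 * ((N + 1 : ℕ) : ℝ) * (t / 2)) ^ 2 =
            z / 2 * (t / sinh (2 * ((N + 1 : ℕ) : ℝ) * (t / 2)) ^ 2) := by ring
        have h5 := mul_le_mul_of_nonneg_left h3 (by positivity : 0 ≤ z / 2)
        rw [h4]
        linarith
      · rw [if_neg h2, exp_zero] at ih
        have h6 := hf2 (N + 1) (by omega)
        refine (mul_le_mul ih h6 hpos zero_le_one).trans ?_
        rw [one_mul]
        apply exp_le_exp.2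
        have h7 : z * (t / 2) / sinh (2 * ((N + 1 : ℕ) : ℝ) * (t / 2)) ^ 2 ≤
            z * (t / 2) / sinh b ^ 2 := by
          apply div_le_div_of_nonneg_left (by positivity) (by positivity)
          exact pow_le_pow_left₀ hsb.le (sinh_le_sinh.2 h1.le) 2
        have h8 := C2b_coth_anti hb h1.le
        have h9 : 0 ≤ z / 2 * (cosh b / sinh b - cosh (2 * ((N + 1 : ℕ) : ℝ) * (t / 2)) /
            sinh (2 * ((N + 1 : ℕ) : ℝ) * (t / 2))) :=
          mul_nonneg (by positivity) (by linarith)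
        linarith
    · rw [if_neg h1]
      have h2 : ¬ b < 2 * (N : ℝ) * (t / 2) := by
        intro h
        exact h1 (by rw [hx]; linarith)
      rw [if_neg h2] at ih
      have h6 := hf1 (N + 1) (by omega) (not_lt.1 h1)
      calc _ ≤ exp 0 * 1 := mul_le_mul ih h6 hpos (exp_pos _).le
        _ = exp 0 := mul_one _

theorem C2b_prod' {t z b : ℝ} (ht : 0 < t) (hz : 0 < z) (hb : 0 < b)
    (hb' : b ≤ π / z - t / 2) (N : ℕ) :
    ∏ i ∈ Icc 1 N, WW t (z * t) (2 * (i : ℝ) + 1) / WW t (z * t) (2 * (i : ℝ)) ≤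
      exp (z * (t / 2) / sinh b ^ 2 + z / 2 * (cosh b / sinh b - 1)) := by
  refine (C2b_prod ht hz hb hb' N).trans (exp_le_exp.2 ?_)
  split_ifs with h
  · have h1 := C2b_coth_ge (x := 2 * (N : ℝ) * (t / 2)) (hb.trans h)
    have h2 := mul_le_mul_of_nonneg_left h1 (by positivity : 0 ≤ z / 2)
    linarith
  · have h1 := C2b_coth_ge hb
    have h2 : 0 ≤ cosh b / sinh b - 1 := by linarith
    positivity

/-- The loss in `LL` for `θ = z t`, `b ≤ π/z - h`: every quotient `W_{2i+1}/W_{2i}` is `≤ 1`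
if `(2i+1)y ≤ π` and `≤ 1 + zh/sinh²(2ih)` with `2ih ≥ π/z - h ≥ b` otherwise; the sum of these
`zh/sinh²(2ih)` is `≤ zh/sinh² b + (z/2)(coth b - 1)` (the summands at step `2h`, comparison
with `∫ dx/sinh² x`: `1/sinh²(x) * 2h ≤ coth (x - 2h) - coth x`); for even `k` the last factor
`W_{4P+2}/W_{2P}` is `≤ 1` if `(4P+2) y ≤ π`, else `≤ W_{4P+2} ≤ 1 + 1/sinh² b`.
Finally `1 + x ≤ exp x`. -/
theorem LL_le_exp {k : ℕ} (hk : 2 ≤ k) {t z b : ℝ} (ht : 0 < t) (hz : 0 < z) (hb : 0 < b)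
    (hb' : b ≤ π / z - t / 2) :
    LL k t (z * t) ≤ exp ((1 + z * (t / 2)) / sinh b ^ 2 + z / 2 * (cosh b / sinh b - 1)) := by
  have hzt : 0 < z * t := by positivity
  have hsb : 0 < sinh b := sinh_pos_iff.2 hb
  have he : (1 + z * (t / 2)) / sinh b ^ 2 + z / 2 * (cosh b / sinh b - 1) =
      (z * (t / 2) / sinh b ^ 2 + z / 2 * (cosh b / sinh b - 1)) + 1 / sinh b ^ 2 := by ring
  rw [he]
  unfold LL
  split_ifs with hk'
  · rw [exp_add]
    refine mul_le_mul (C2b_prod' ht hz hb hb' _) ?_ (div_pos (WW_pos _ _ _) (WW_pos _ _ _)).le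
      (exp_pos _).le
    have hP : (1 : ℝ) ≤ ((k / 2 : ℕ) : ℝ) := by exact_mod_cast (by omega : 1 ≤ k / 2)
    generalize ((k / 2 : ℕ) : ℝ) = P at hP
    by_cases h1 : (4 * P + 2) * (z * t / 2) ≤ π
    · have h2 : WW t (z * t) (4 * P + 2) / WW t (z * t) (2 * P) ≤ 1 := by
        rw [div_le_one (WW_pos _ _ _)]
        unfold WW
        have := FF_anti (i := 2 * P) (j := 4 * P + 2) (h := t / 2) (y := z * t / 2)
          (by positivity) (by linarith) (by positivity) (by positivity) h1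
        linarith
      refine h2.trans ?_
      have := add_one_le_exp (1 / sinh b ^ 2)
      have h3 : 0 ≤ 1 / sinh b ^ 2 := by positivity
      linarith
    · push Not at h1
      have h2 : π / z < (4 * P + 2) * (t / 2) := by
        rw [div_lt_iff₀ hz]
        calc π < (4 * P + 2) * (z * t / 2) := h1
          _ = _ := by ring
      have h3 : b ≤ (4 * P + 2) * (t / 2) := by linarith
      have h4 : WW t (z * t) (4 * P + 2) ≤ 1 + 1 / sinh b ^ 2 := by
        unfold WW FF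
        have h5 : sinh b ≤ sinh ((4 * P + 2) * (t / 2)) := sinh_le_sinh.2 h3
        have h6 : sin ((4 * P + 2) * (z * t / 2)) ^ 2 ≤ 1 := sin_sq_le_one _
        have := div_le_div₀ zero_le_one h6 (by positivity : 0 < sinh b ^ 2)
          (pow_le_pow_left₀ hsb.le h5 2)
        linarith
      have h7 : WW t (z * t) (4 * P + 2) / WW t (z * t) (2 * P) ≤ WW t (z * t) (4 * P + 2) :=
        div_le_self (WW_pos _ _ _).le (WW_one_le _ _ _)
      have := add_one_le_exp (1 / sinh b ^ 2)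
      linarith
  · refine (C2b_prod' ht hz hb hb' _).trans (exp_le_exp.2 ?_)
    have h3 : 0 ≤ 1 / sinh b ^ 2 := by positivity
    linarith

end Pool.Agent.SignedQ.Core
end

section

/-! # Core region: bounds for the factors `NN` and `LL` -/

namespace Pool.Agent.SignedQ.Core

open Real Finset Pool.Agent.SignedQ.An


end Pool.Agent.SignedQ.Core
end

section

/-! # Core region: elementary inequalities -/

namespace Pool.Agent.SignedQ.Core

open Real Finset Pool.Agent.SignedQ.An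

private theorem cos_le_poly8_aux {x : ℝ} (hx : 0 ≤ x) :
    cos x ≤ 1 - x ^ 2 / 2 + x ^ 4 / 24 - x ^ 6 / 720 + x ^ 8 / 40320 := by
  have g1 := nonneg_of_deriv (f := fun x => cos x - 1 + x ^ 2 / 2) (f' := fun x => x - sin x)
    (by simp) (fun y _ => by
      have := ((hasDerivAt_cos y).sub_const 1).add ((hasDerivAt_pow 2 y).div_const 2)
      refine this.congr_deriv ?_
      simp
      ring) (fun y hy => sub_nonneg.2 (sin_le hy))
  have g2 := nonneg_of_deriv (f := fun x => sin x - x + x ^ 3 / 6)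
    (f' := fun x => cos x - 1 + x ^ 2 / 2) (by simp) (fun y _ => by
      have := ((hasDerivAt_sin y).sub (hasDerivAt_id y)).add ((hasDerivAt_pow 3 y).div_const 6)
      refine this.congr_deriv ?_
      simp
      ring) g1
  have g3 := nonneg_of_deriv (f := fun x => 1 - x ^ 2 / 2 + x ^ 4 / 24 - cos x)
    (f' := fun x => sin x - x + x ^ 3 / 6) (by simp) (fun y _ => by
      have := (((hasDerivAt_const y (1 : ℝ)).sub ((hasDerivAt_pow 2 y).div_const 2)).add
        ((hasDerivAt_pow 4 y).div_const 24)).sub (hasDerivAt_cos y)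
      refine this.congr_deriv ?_
      simp
      ring) g2
  have g4 := nonneg_of_deriv (f := fun x => x - x ^ 3 / 6 + x ^ 5 / 120 - sin x)
    (f' := fun x => 1 - x ^ 2 / 2 + x ^ 4 / 24 - cos x) (by simp) (fun y _ => by
      have := (((hasDerivAt_id y).sub ((hasDerivAt_pow 3 y).div_const 6)).add
        ((hasDerivAt_pow 5 y).div_const 120)).sub (hasDerivAt_sin y)
      refine this.congr_deriv ?_
      simp
      ring) g3
  have g5 := nonneg_of_deriv (f := fun x => cos x - 1 + x ^ 2 / 2 - x ^ 4 / 24 + x ^ 6 / 720)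
    (f' := fun x => x - x ^ 3 / 6 + x ^ 5 / 120 - sin x) (by simp) (fun y _ => by
      have := ((((hasDerivAt_cos y).sub_const 1).add ((hasDerivAt_pow 2 y).div_const 2)).sub
        ((hasDerivAt_pow 4 y).div_const 24)).add ((hasDerivAt_pow 6 y).div_const 720)
      refine this.congr_deriv ?_
      simp
      ring) g4
  have g6 := nonneg_of_deriv (f := fun x => sin x - x + x ^ 3 / 6 - x ^ 5 / 120 + x ^ 7 / 5040)
    (f' := fun x => cos x - 1 + x ^ 2 / 2 - x ^ 4 / 24 + x ^ 6 / 720) (by simp) (fun y _ => by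
      have := ((((hasDerivAt_sin y).sub (hasDerivAt_id y)).add
        ((hasDerivAt_pow 3 y).div_const 6)).sub ((hasDerivAt_pow 5 y).div_const 120)).add
          ((hasDerivAt_pow 7 y).div_const 5040)
      refine this.congr_deriv ?_
      simp
      ring) g5
  have g7 := nonneg_of_deriv
    (f := fun x => 1 - x ^ 2 / 2 + x ^ 4 / 24 - x ^ 6 / 720 + x ^ 8 / 40320 - cos x)
    (f' := fun x => sin x - x + x ^ 3 / 6 - x ^ 5 / 120 + x ^ 7 / 5040) (by simp) (fun y _ => by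
      have := (((((hasDerivAt_const y (1 : ℝ)).sub ((hasDerivAt_pow 2 y).div_const 2)).add
        ((hasDerivAt_pow 4 y).div_const 24)).sub ((hasDerivAt_pow 6 y).div_const 720)).add
          ((hasDerivAt_pow 8 y).div_const 40320)).sub (hasDerivAt_cos y)
      refine this.congr_deriv ?_
      simp
      ring) g6 x hx
  linarith

private theorem cos_le_poly8 (x : ℝ) :
    cos x ≤ 1 - x ^ 2 / 2 + x ^ 4 / 24 - x ^ 6 / 720 + x ^ 8 / 40320 := by
  rcases le_total 0 x with h | h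
  · exact cos_le_poly8_aux h
  · have := cos_le_poly8_aux (x := -x) (by linarith)
    rw [cos_neg] at this
    refine this.trans (le_of_eq ?_)
    ring

private theorem cosh_ge_poly8 {x : ℝ} (hx : 0 ≤ x) :
    1 + x ^ 2 / 2 + x ^ 4 / 24 + x ^ 6 / 720 + x ^ 8 / 40320 ≤ cosh x := by
  have g1 := nonneg_of_deriv (f := fun x => cosh x - 1 - x ^ 2 / 2) (f' := fun x => sinh x - x)
    (by simp) (fun y _ => by
      have := ((hasDerivAt_cosh y).sub_const 1).sub ((hasDerivAt_pow 2 y).div_const 2)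
      refine this.congr_deriv ?_
      simp) (fun y hy => sub_nonneg.2 (self_le_sinh_iff.2 hy))
  have g2 := nonneg_of_deriv (f := fun x => sinh x - x - x ^ 3 / 6)
    (f' := fun x => cosh x - 1 - x ^ 2 / 2) (by simp) (fun y _ => by
      have := ((hasDerivAt_sinh y).sub (hasDerivAt_id y)).sub ((hasDerivAt_pow 3 y).div_const 6)
      refine this.congr_deriv ?_
      simp
      ring) g1
  have g3 := nonneg_of_deriv (f := fun x => cosh x - 1 - x ^ 2 / 2 - x ^ 4 / 24)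
    (f' := fun x => sinh x - x - x ^ 3 / 6) (by simp) (fun y _ => by
      have := (((hasDerivAt_cosh y).sub_const 1).sub ((hasDerivAt_pow 2 y).div_const 2)).sub
        ((hasDerivAt_pow 4 y).div_const 24)
      refine this.congr_deriv ?_
      simp
      ring) g2
  have g4 := nonneg_of_deriv (f := fun x => sinh x - x - x ^ 3 / 6 - x ^ 5 / 120)
    (f' := fun x => cosh x - 1 - x ^ 2 / 2 - x ^ 4 / 24) (by simp) (fun y _ => by
      have := (((hasDerivAt_sinh y).sub (hasDerivAt_id y)).sub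
        ((hasDerivAt_pow 3 y).div_const 6)).sub ((hasDerivAt_pow 5 y).div_const 120)
      refine this.congr_deriv ?_
      simp
      ring) g3
  have g5 := nonneg_of_deriv
    (f := fun x => cosh x - 1 - x ^ 2 / 2 - x ^ 4 / 24 - x ^ 6 / 720)
    (f' := fun x => sinh x - x - x ^ 3 / 6 - x ^ 5 / 120) (by simp) (fun y _ => by
      have := ((((hasDerivAt_cosh y).sub_const 1).sub ((hasDerivAt_pow 2 y).div_const 2)).sub
        ((hasDerivAt_pow 4 y).div_const 24)).sub ((hasDerivAt_pow 6 y).div_const 720)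
      refine this.congr_deriv ?_
      simp
      ring) g4
  have g6 := nonneg_of_deriv
    (f := fun x => sinh x - x - x ^ 3 / 6 - x ^ 5 / 120 - x ^ 7 / 5040)
    (f' := fun x => cosh x - 1 - x ^ 2 / 2 - x ^ 4 / 24 - x ^ 6 / 720) (by simp) (fun y _ => by
      have := ((((hasDerivAt_sinh y).sub (hasDerivAt_id y)).sub
        ((hasDerivAt_pow 3 y).div_const 6)).sub ((hasDerivAt_pow 5 y).div_const 120)).sub
          ((hasDerivAt_pow 7 y).div_const 5040)
      refine this.congr_deriv ?_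
      simp
      ring) g5
  have g7 := nonneg_of_deriv
    (f := fun x => cosh x - 1 - x ^ 2 / 2 - x ^ 4 / 24 - x ^ 6 / 720 - x ^ 8 / 40320)
    (f' := fun x => sinh x - x - x ^ 3 / 6 - x ^ 5 / 120 - x ^ 7 / 5040) (by simp)
    (fun y _ => by
      have := (((((hasDerivAt_cosh y).sub_const 1).sub ((hasDerivAt_pow 2 y).div_const 2)).sub
        ((hasDerivAt_pow 4 y).div_const 24)).sub ((hasDerivAt_pow 6 y).div_const 720)).sub
          ((hasDerivAt_pow 8 y).div_const 40320)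
      refine this.congr_deriv ?_
      simp
      ring) g6 x hx
  linarith

/-- `sin²v = (1 - cos 2v)/2` and the Taylor bound
`cos w ≤ 1 - w²/2 + w⁴/24 - w⁶/720 + w⁸/40320` (all real `w`; differentiate repeatedly), `w = 2v`. -/
theorem sin_sq_ge_poly (v : ℝ) :
    v ^ 2 * (1 - v ^ 2 / 3 + 2 * v ^ 4 / 45 - v ^ 6 / 315) ≤ sin v ^ 2 := by
  have h := cos_le_poly8 (2 * v)
  have h2 : sin v ^ 2 = (1 - cos (2 * v)) / 2 := by
    rw [cos_two_mul]
    have := sin_sq_add_cos_sq v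
    linarith
  rw [h2]
  have h3 : v ^ 2 * (1 - v ^ 2 / 3 + 2 * v ^ 4 / 45 - v ^ 6 / 315) =
      (1 - (1 - (2 * v) ^ 2 / 2 + (2 * v) ^ 4 / 24 - (2 * v) ^ 6 / 720 + (2 * v) ^ 8 / 40320)) / 2 := by
    ring
  rw [h3]
  linarith

/-- For `0 ≤ v ≤ 11/10`: `sin²v ≥ v² (1 - v²/3 + v⁴/25)`. -/
theorem sin_sq_ge_W {v : ℝ} (hv : 0 ≤ v) (hv' : v ≤ 11 / 10) :
    v ^ 2 * (1 - v ^ 2 / 3 + v ^ 4 / 25) ≤ sin v ^ 2 := by
  refine le_trans ?_ (sin_sq_ge_poly v)
  apply mul_le_mul_of_nonneg_left _ (sq_nonneg v)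
  have h1 : v ^ 2 ≤ 121 / 100 := by nlinarith
  have h2 : 0 ≤ v ^ 4 * (121 / 100 - v ^ 2) := mul_nonneg (by positivity) (by linarith)
  have h3 : 0 ≤ v ^ 4 := by positivity
  nlinarith

/-- `W(v) = 1 - v²/3 + v⁴/25` is decreasing on `[0, 11/10]`, so every `0 ≤ v ≤ v₁ ≤ 11/10`
satisfies `W(v₁) v² ≤ sin²v`. -/
theorem sin_sq_ge_W' {v v₁ : ℝ} (hv : 0 ≤ v) (hv1 : v ≤ v₁) (hv' : v₁ ≤ 11 / 10) :
    v ^ 2 * (1 - v₁ ^ 2 / 3 + v₁ ^ 4 / 25) ≤ sin v ^ 2 := by
  refine le_trans ?_ (sin_sq_ge_W hv (hv1.trans hv'))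
  apply mul_le_mul_of_nonneg_left _ (sq_nonneg v)
  have h1 : v₁ ^ 2 ≤ 121 / 100 := by nlinarith
  have h2 : v ^ 2 ≤ v₁ ^ 2 := by nlinarith
  have h3 : 0 ≤ (v₁ ^ 2 - v ^ 2) * (25 / 3 - (v₁ ^ 2 + v ^ 2)) :=
    mul_nonneg (by linarith) (by linarith)
  nlinarith

/-- `sinh²x ≥ x² + x⁴/3 + 2x⁶/45 + x⁸/315` for `x ≥ 0` (`sinh²x = (cosh 2x - 1)/2`). -/
theorem sinh_sq_ge8 {x : ℝ} (hx : 0 ≤ x) :
    x ^ 2 + x ^ 4 / 3 + 2 * x ^ 6 / 45 + x ^ 8 / 315 ≤ sinh x ^ 2 := by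
  have h := cosh_ge_poly8 (x := 2 * x) (by linarith)
  have h2 : sinh x ^ 2 = (cosh (2 * x) - 1) / 2 := by
    rw [cosh_two_mul]
    have := cosh_sq x
    linarith
  rw [h2]
  have h3 : x ^ 2 + x ^ 4 / 3 + 2 * x ^ 6 / 45 + x ^ 8 / 315 =
      ((1 + (2 * x) ^ 2 / 2 + (2 * x) ^ 4 / 24 + (2 * x) ^ 6 / 720 + (2 * x) ^ 8 / 40320) - 1) / 2 := by
    ring
  rw [h3]
  linarith

theorem sf_le8 {x : ℝ} (hx : 0 < x) :
    sf x ≤ 1 / (1 + x ^ 2 / 3 + 2 * x ^ 4 / 45 + x ^ 6 / 315) := by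
  unfold sf
  have h1 := sinh_sq_ge8 hx.le
  have h2 : 0 < sinh x ^ 2 := pow_pos (sinh_pos_iff.2 hx) 2
  rw [div_le_div_iff₀ h2 (by positivity)]
  refine le_trans (le_of_eq ?_) (h1.trans (le_of_eq (one_mul _).symm))
  ring

end Pool.Agent.SignedQ.Core
end

section

/-! # Core region: elementary inequalities -/

namespace Pool.Agent.SignedQ.Core

open Real Finset Pool.Agent.SignedQ.An

private theorem exp_neg_le_quad {y : ℝ} (hy : 0 ≤ y) : exp (-y) ≤ 1 - y + y ^ 2 / 2 := by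
  have h := nonneg_of_deriv (f := fun x => 1 - x + x ^ 2 / 2 - exp (-x))
    (f' := fun x => -1 + x + exp (-x)) (by simp) (fun z _ => by
      have := (((hasDerivAt_const z (1 : ℝ)).sub (hasDerivAt_id z)).add
        ((hasDerivAt_pow 2 z).div_const 2)).sub ((hasDerivAt_id z).neg.exp)
      refine this.congr_deriv ?_
      simp) (fun z _ => by
      have := add_one_le_exp (-z)
      linarith) y hy
  linarith

/-- Weights: `A = (sin(xz)/x)² = z² sin²v/v²`, `v = xz`, `Y = z⁴x²/(3(1+z²))`: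
`1 + A ≥ (1+z²) e^{-Y}` because `e^{-Y} ≤ 1 - Y + Y²/2` and `sin_sq_ge_poly`; hence
`log (1+A) ≥ log(1+z²) - Y`, and `1 + A S ≥ (1+A)^S` for `0 ≤ S ≤ 1`. -/
theorem weight {x z S : ℝ} (hx : 0 < x) (hz : 0 < z) (hS : 0 ≤ S) (hS1 : S ≤ 1)
    (hcond : z ^ 2 ≤ 4 / 5 * (1 + z ^ 2) * (1 - (x * z) ^ 2 / 14)) :
    exp (S * (log (1 + z ^ 2) - z ^ 4 / (3 * (1 + z ^ 2)) * x ^ 2)) ≤
      1 + (sin (x * z) / x) ^ 2 * S := by
  set A := (sin (x * z) / x) ^ 2 with hA
  set Y := z ^ 4 / (3 * (1 + z ^ 2)) * x ^ 2 with hY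
  have hA0 : 0 ≤ A := sq_nonneg _
  have hY0 : 0 ≤ Y := by positivity
  have hz1 : 0 < 1 + z ^ 2 := by positivity
  have h1 : z ^ 2 * (1 - (x * z) ^ 2 / 3 + 2 * (x * z) ^ 4 / 45 - (x * z) ^ 6 / 315) ≤ A := by
    rw [hA, div_pow, le_div_iff₀ (by positivity)]
    refine le_trans (le_of_eq ?_) (sin_sq_ge_poly (x * z))
    ring
  have h2 : (1 + z ^ 2) * exp (-Y) ≤ 1 + A := by
    have h3 := mul_le_mul_of_nonneg_left (exp_neg_le_quad hY0) hz1.le
    refine h3.trans ?_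
    refine le_trans ?_ (add_le_add_right h1 1)
    have e1 : (1 + z ^ 2) * (1 - Y + Y ^ 2 / 2) =
        1 + z ^ 2 - z ^ 4 * x ^ 2 / 3 + z ^ 6 * x ^ 4 * (z ^ 2 / (18 * (1 + z ^ 2))) := by
      rw [hY]
      field_simp
      ring
    have e2 : z ^ 2 / (18 * (1 + z ^ 2)) ≤ 2 / 45 * (1 - (x * z) ^ 2 / 14) := by
      rw [div_le_iff₀ (by positivity)]
      linarith
    have e3 := mul_le_mul_of_nonneg_left e2 (show 0 ≤ z ^ 6 * x ^ 4 by positivity)
    rw [e1]
    refine le_trans (add_le_add_right e3 _) (le_of_eq ?_)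
    ring
  have h4 : exp (log (1 + z ^ 2) - Y) ≤ 1 + A := by
    rw [sub_eq_add_neg, exp_add, exp_log hz1]
    exact h2
  rw [mul_comm S, exp_mul]
  refine (rpow_le_rpow (exp_pos _).le h4 hS).trans ?_
  refine (rpow_one_add_le_one_add_mul_self (s := A) (by linarith) hS hS1).trans (le_of_eq ?_)
  ring

end Pool.Agent.SignedQ.Core
end
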