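import Pool.Agent.Lib.MP_cf17a0_co.S1.C.C0
import Pool.Agent.Lib.MP_cf17a0_co.Mg.G035

section

/-! # Core region: elementary inequalities -/

namespace Pool.Agent.SignedQ.Core

open Real Finset Pool.Agent.SignedQ.An

/-- `s(2x) = x²/(sinh²x cosh²x)`, so `(1 - s(2x)) (1 + 1/sinh²x) = 1 + (1 - s(x))/sinh²x
≤ 1 + s(x)/3`  (`1 - s(x) ≤ x²/3`, `sf_ge'`). -/
theorem coth_q {x : ℝ} (hx : 0 < x) :
    (1 - sf (2 * x)) * (1 + 1 / sinh x ^ 2) ≤ 1 + sf x / 3 := by
  have hs : 0 < sinh x ^ 2 := pow_pos (sinh_pos_iff.2 hx) 2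
  have h1 := sf_ge' hx
  unfold sf at h1 ⊢
  have e1 : sinh (2 * x) ^ 2 = 4 * (sinh x ^ 2 * (1 + sinh x ^ 2)) := by
    rw [sinh_two_mul, mul_pow, mul_pow, cosh_sq]
    ring
  rw [e1]
  set s := sinh x ^ 2 with hsdef
  have h2 : (1 - (2 * x) ^ 2 / (4 * (s * (1 + s)))) * (1 + 1 / s) = 1 + (1 - x ^ 2 / s) / s := by
    have : (1 + s) ≠ 0 := by positivity
    field_simp
    ring
  rw [h2]
  have h3 : (1 - x ^ 2 / s) / s ≤ x ^ 2 / s / 3 := by
    rw [div_right_comm]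
    exact div_le_div_of_nonneg_right (by linarith) hs.le
  linarith

/-- **Pair inequality, usual case** (`pair_M` with `z = y/h`, `w ≤ sin²(cy)/(cy)²`). -/
theorem pairA {c d h y w : ℝ} (hc : 0 < c) (hcd : c ≤ d) (hh : 0 < h) (hy : 0 < y)
    (hcy : c * y ≤ 2) (hw : w * (c * y) ^ 2 ≤ sin (c * y) ^ 2) :
    (1 + FF h y d) * (1 + w * (y / h) ^ 2 * (sf (c * h) - sf (d * h))) ≤ 1 + FF h y c := by
  refine le_trans ?_ (pair_M hc hcd hh hy.le hcy)
  have hS : 0 ≤ sf (c * h) - sf (d * h) :=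
    sub_nonneg.2 (sf_anti (by positivity) (mul_le_mul_of_nonneg_right hcd hh.le))
  refine mul_le_mul_of_nonneg_left ?_ (by linarith [FF_nonneg h y d])
  have h1 : w * y ^ 2 ≤ sin (c * y) ^ 2 / c ^ 2 := by
    rw [le_div_iff₀ (by positivity)]
    linarith
  have h2 : w * (y / h) ^ 2 * (sf (c * h) - sf (d * h)) =
      (sf (c * h) - sf (d * h)) / h ^ 2 * (w * y ^ 2) := by
    field_simp
  rw [h2]
  have h3 := mul_le_mul_of_nonneg_left h1 (div_nonneg hS (sq_nonneg h))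
  linarith

/-- **Pair inequality, beyond `π`.** `x = βh ≥ π/z`, `z = y/h`; `1/sinh²x = s(x)/x² ≤
s(x) z²/π² ≤ s̄ z²/π²`; `S = s(ch) - s(dh) ≤ s(ch) (1 - s(dh))`, `(1 - s(dh)) (1 + 1/sinh²x) ≤
(1 - s(2x)) (1 + 1/sinh²x) ≤ 1 + s̄/3` (`coth_q`, `d ≤ 2β`); `FF h y c ≥ z² w s(ch)`. Altogether
`(1 + 1/sinh²x)(1 + c' z² S) ≤ 1 + z² s̄/π² + c' z² s(ch)(1 + s̄/3) ≤ 1 + z² w s(ch)`, the last
step by `hc'` and `s_c ≤ s(ch)`. (`1/π² ≤ 0.1014`.) -/
theorem pairB {c d β h y w c' sb sc : ℝ} (hc : 0 < c) (hcd : c ≤ d) (hdβ : d ≤ 2 * β)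
    (hh : 0 < h) (hy : 0 < y) (hw : w * (c * y) ^ 2 ≤ sin (c * y) ^ 2) (hβ : π < β * y)
    (hsb : sf (π / (y / h)) ≤ sb) (hsc0 : 0 < sc) (hsc : sc ≤ sf (c * h)) (hc0 : 0 ≤ c')
    (hc' : c' * (1 + sb / 3) + 0.1014 * sb / sc ≤ w) :
    (1 + 1 / sinh (β * h) ^ 2) * (1 + c' * (y / h) ^ 2 * (sf (c * h) - sf (d * h))) ≤
      1 + FF h y c := by
  have hd : 0 < d := hc.trans_le hcd
  have hβ0 : 0 < β := by linarith
  have hpi := pi_pos
  set z := y / h with hz
  have hz0 : 0 < z := div_pos hy hh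
  set x := β * h with hx
  have hx0 : 0 < x := mul_pos hβ0 hh
  have hxz : x * z = β * y := by
    rw [hx, hz]
    field_simp
  have hπx : π / z ≤ x := by
    rw [div_le_iff₀ hz0, hxz]
    exact hβ.le
  have hsx : sf x ≤ sb := (sf_anti (div_pos hpi hz0) hπx).trans hsb
  have hsx0 : 0 < sf x := sf_pos hx0
  have hsb0 : 0 < sb := hsx0.trans_le hsx
  have hsh : 0 < sinh x ^ 2 := pow_pos (sinh_pos_iff.2 hx0) 2
  -- 1/sinh² x ≤ 0.1014 z² sb
  have h1 : 1 / sinh x ^ 2 ≤ 0.1014 * (z ^ 2 * sb) := by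
    have e1 : 1 / sinh x ^ 2 = sf x / x ^ 2 := by
      unfold sf
      field_simp
    have h2 : 1 ≤ 0.1014 * (x * z) ^ 2 := by
      rw [hxz]
      have h3 := pi_gt_d4
      have h4 : (3.1415 : ℝ) ≤ β * y := by linarith
      have h5 : (3.1415 : ℝ) ^ 2 ≤ (β * y) ^ 2 := pow_le_pow_left₀ (by norm_num) h4 2
      norm_num at h5 ⊢
      linarith
    rw [e1, div_le_iff₀ (by positivity)]
    calc sf x ≤ sb * 1 := by linarith
      _ ≤ sb * (0.1014 * (x * z) ^ 2) := mul_le_mul_of_nonneg_left h2 hsb0.le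
      _ = _ := by ring
  -- (1 + 1/sinh²) S ≤ s(ch) (1 + sb/3)
  have hsc1 : 0 < sf (c * h) := sf_pos (mul_pos hc hh)
  have hsd0 : 0 < sf (d * h) := sf_pos (mul_pos hd hh)
  have hc1 : sf (c * h) ≤ 1 := sf_le_one (mul_pos hc hh)
  have h3 : (1 + 1 / sinh x ^ 2) * (sf (c * h) - sf (d * h)) ≤ sf (c * h) * (1 + sb / 3) := by
    have e1 : sf (c * h) - sf (d * h) ≤ sf (c * h) * (1 - sf (2 * x)) := by
      have e2 : sf (2 * x) ≤ sf (d * h) := by
        refine sf_anti (mul_pos hd hh) ?_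
        rw [hx]
        have := mul_le_mul_of_nonneg_right hdβ hh.le
        linarith
      have e3 : sf (c * h) * sf (2 * x) ≤ 1 * sf (d * h) :=
        mul_le_mul hc1 e2 (sf_pos (by positivity)).le zero_le_one
      linarith
    have e4 := coth_q hx0
    calc (1 + 1 / sinh x ^ 2) * (sf (c * h) - sf (d * h)) ≤
        (1 + 1 / sinh x ^ 2) * (sf (c * h) * (1 - sf (2 * x))) :=
          mul_le_mul_of_nonneg_left e1 (by positivity)
      _ = sf (c * h) * ((1 - sf (2 * x)) * (1 + 1 / sinh x ^ 2)) := by ring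
      _ ≤ sf (c * h) * (1 + sf x / 3) := mul_le_mul_of_nonneg_left e4 hsc1.le
      _ ≤ sf (c * h) * (1 + sb / 3) := mul_le_mul_of_nonneg_left (by linarith) hsc1.le
  -- FF h y c ≥ w z² s(ch)
  have h4 : w * (z ^ 2 * sf (c * h)) ≤ FF h y c := by
    have hsc2 : 0 < sinh (c * h) ^ 2 := pow_pos (sinh_pos_iff.2 (mul_pos hc hh)) 2
    unfold FF
    rw [le_div_iff₀ hsc2]
    have : w * (z ^ 2 * sf (c * h)) * sinh (c * h) ^ 2 = w * (c * y) ^ 2 := by
      unfold sf
      rw [hz]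
      field_simp
    rw [this]
    exact hw
  have h5 : 0.1014 * sb ≤ 0.1014 * sb / sc * sf (c * h) := by
    have : 0.1014 * sb = 0.1014 * sb / sc * sc := by field_simp
    calc 0.1014 * sb = 0.1014 * sb / sc * sc := this
      _ ≤ _ := mul_le_mul_of_nonneg_left hsc (by positivity)
  have h6 : c' * (1 + sb / 3) * sf (c * h) + 0.1014 * sb ≤ w * sf (c * h) := by
    have := mul_le_mul_of_nonneg_right hc' hsc1.le
    linarith
  have hz2 : 0 < z ^ 2 := by positivity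
  have h7 := mul_le_mul_of_nonneg_left h6 hz2.le
  have h8 := mul_le_mul_of_nonneg_left h3 (mul_nonneg hc0 hz2.le)
  calc (1 + 1 / sinh x ^ 2) * (1 + c' * z ^ 2 * (sf (c * h) - sf (d * h))) =
      1 + 1 / sinh x ^ 2 + c' * z ^ 2 * ((1 + 1 / sinh x ^ 2) * (sf (c * h) - sf (d * h))) := by ring
    _ ≤ 1 + 0.1014 * (z ^ 2 * sb) + c' * z ^ 2 * (sf (c * h) * (1 + sb / 3)) := by linarith
    _ ≤ 1 + w * (z ^ 2 * sf (c * h)) := by linarith
    _ ≤ 1 + FF h y c := by linarith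

end Pool.Agent.SignedQ.Core
end

section

/-! # Core region: elementary inequalities -/

namespace Pool.Agent.SignedQ.Core

open Real Finset Pool.Agent.SignedQ.An

/-- **Bernoulli.** `1 + y S_i ≥ (1 + yq)^{S_i/q}`, product `(1 + yq)^{S/q}` with
`S/q = p M`, `p = S/(qM) ≥ 1`, and `(1+yq)^p ≥ 1 + p y q = 1 + yS/M`. -/
theorem bernoulli_prod {ι : Type*} (s : Finset ι) (S : ι → ℝ) {q y M : ℝ} (hq : 0 < q)
    (hy : 0 ≤ y) (hM : 0 < M) (h0 : ∀ i ∈ s, 0 ≤ S i) (h1 : ∀ i ∈ s, S i ≤ q)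
    (hS : M * q ≤ ∑ i ∈ s, S i) :
    (1 + y * (∑ i ∈ s, S i) / M) ^ M ≤ ∏ i ∈ s, (1 + y * S i) := by
  have hb : 0 < 1 + y * q := by positivity
  -- each factor
  have hf : ∀ i ∈ s, (1 + y * q) ^ (S i / q) ≤ 1 + y * S i := by
    intro i hi
    have h2 : S i / q ≤ 1 := (div_le_one hq).2 (h1 i hi)
    have h3 : 0 ≤ S i / q := div_nonneg (h0 i hi) hq.le
    have h4 := rpow_one_add_le_one_add_mul_self (s := y * q) (by linarith [mul_nonneg hy hq.le])
      h3 h2
    refine h4.trans (le_of_eq ?_)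
    field_simp
  have hprod : (1 + y * q) ^ ((∑ i ∈ s, S i) / q) ≤ ∏ i ∈ s, (1 + y * S i) := by
    rw [Finset.sum_div, Real.rpow_sum_of_pos hb]
    exact Finset.prod_le_prod (fun i _ => (rpow_pos_of_pos hb _).le) hf
  refine le_trans ?_ hprod
  set T := ∑ i ∈ s, S i with hT
  have hp : 1 ≤ T / (q * M) := by
    rw [le_div_iff₀ (by positivity)]
    linarith
  have h5 := one_add_mul_self_le_rpow_one_add (s := y * q) (by linarith [mul_nonneg hy hq.le]) hp
  have e1 : 1 + T / (q * M) * (y * q) = 1 + y * T / M := by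
    field_simp
  rw [e1] at h5
  have hT0 : 0 ≤ T := (by positivity : 0 ≤ M * q).trans hS
  have h6 : (1 + y * T / M) ^ M ≤ ((1 + y * q) ^ (T / (q * M))) ^ M :=
    rpow_le_rpow (by positivity) h5 hM.le
  refine h6.trans (le_of_eq ?_)
  rw [← rpow_mul hb.le]
  congr 1
  field_simp

end Pool.Agent.SignedQ.Core
end

section

/-! # Core region: elementary inequalities -/

namespace Pool.Agent.SignedQ.Core

open Real Finset Pool.Agent.SignedQ.An


end Pool.Agent.SignedQ.Core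
end

section

/-! # Core region, inside: mean and variance of `f` at `e^(-t)` -/

namespace Pool.Agent.SignedQ.Core

open Polynomial Finset Pool.Agent.SignedQ.An

/-- Same proof as `reT_eq_sum`. -/
theorem reR_eq_sum (f : ℚ[X]) (t μ θ : ℝ) :
    reR f t μ θ = ∑ j ∈ Finset.range (f.natDegree + 1),
      (f.coeff j : ℝ) * Real.exp (-(t * j)) * Real.cos (((j : ℝ) - μ) * θ) := by
  unfold reR
  rw [cev_eq_sum, Finset.sum_mul, Complex.re_sum]
  refine Finset.sum_congr rfl fun j _ => ?_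
  rw [pt_pow]
  have h1 : (f.coeff j : ℂ) * ((Real.exp (-(t * j)) : ℂ) * Complex.exp ((j * θ : ℝ) * Complex.I)) *
      Complex.exp (-((μ * θ : ℝ) : ℂ) * Complex.I) =
      (((f.coeff j : ℝ) * Real.exp (-(t * j)) : ℝ) : ℂ) *
        Complex.exp (((((j : ℝ) - μ) * θ : ℝ) : ℂ) * Complex.I) := by
    have h2 : Complex.exp (((((j : ℝ) - μ) * θ : ℝ) : ℂ) * Complex.I) =
        Complex.exp ((j * θ : ℝ) * Complex.I) * Complex.exp (-((μ * θ : ℝ) : ℂ) * Complex.I) := by
      rw [← Complex.exp_add]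
      congr 1
      push_cast
      ring
    rw [h2]
    push_cast
    ring
  rw [h1, Complex.re_ofReal_mul, Complex.exp_ofReal_mul_I_re]

/-- With any range containing the support. -/
theorem reR_eq_sum' (f : ℚ[X]) (t μ θ : ℝ) {N : ℕ} (hN : f.natDegree < N) :
    reR f t μ θ = ∑ j ∈ Finset.range N,
      (f.coeff j : ℝ) * Real.exp (-(t * j)) * Real.cos (((j : ℝ) - μ) * θ) := by
  rw [reR_eq_sum]
  refine Finset.sum_subset (Finset.range_subset_range.2 (by omega)) ?_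
  intro j _ hj
  rw [Finset.mem_range] at hj
  rw [Polynomial.coeff_eq_zero_of_natDegree_lt (by omega)]
  simp

theorem rev_eq_sum' (f : ℚ[X]) (t : ℝ) {N : ℕ} (hN : f.natDegree < N) :
    rev f (Real.exp (-t)) = ∑ j ∈ Finset.range N, (f.coeff j : ℝ) * Real.exp (-(t * j)) := by
  rw [rev_eq_sum]
  have h1 : ∀ j : ℕ, Real.exp (-t) ^ j = Real.exp (-(t * j)) := by
    intro j
    rw [← Real.exp_nat_mul]
    congr 1
    ring
  simp only [h1]
  refine Finset.sum_subset (Finset.range_subset_range.2 (by omega)) ?_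
  intro j _ hj
  rw [Finset.mem_range] at hj
  rw [Polynomial.coeff_eq_zero_of_natDegree_lt (by omega)]
  simp

theorem hasDerivAt_dl {v : ℕ} (hv : 1 ≤ v) {t : ℝ} (ht : 0 < t) :
    HasDerivAt (dl v) (var1 v t) t := by
  have hv' : (1 : ℝ) ≤ v := by exact_mod_cast hv
  have hs : 0 < Real.sinh (v * t / 2) := Real.sinh_pos_iff.2 (by positivity)
  have hc : 0 < Real.cosh (v * t / 2) := Real.cosh_pos _
  have hl : HasDerivAt (fun t : ℝ => (v : ℝ) * t / 2) (v / 2) t := by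
    have := ((hasDerivAt_id t).const_mul (v : ℝ)).div_const 2
    simpa using this
  have h1 : HasDerivAt (fun t => Real.sinh ((v : ℝ) * t / 2)) (Real.cosh (v * t / 2) * (v / 2)) t :=
    hl.sinh
  have h2 : HasDerivAt (fun t => Real.cosh ((v : ℝ) * t / 2)) (Real.sinh (v * t / 2) * (v / 2)) t :=
    hl.cosh
  have hcs := Real.cosh_sq (v * t / 2)
  rcases Nat.even_or_odd v with h | h
  · have h3 : dl v = fun t => (v : ℝ) / 2 * (Real.cosh (v * t / 2) / Real.sinh (v * t / 2)) := by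
      funext x
      unfold dl
      rw [if_pos h]
    have h4 := (h2.div h1 hs.ne').const_mul ((v : ℝ) / 2)
    rw [h3]
    refine h4.congr_deriv ?_
    unfold var1
    rw [if_pos h]
    generalize Real.sinh (v * t / 2) = S at *
    generalize Real.cosh (v * t / 2) = C at *
    field_simp
    rw [hcs]
    ring
  · have h' := Nat.not_even_iff_odd.2 h
    have h3 : dl v = fun t => (v : ℝ) / 2 * (Real.sinh (v * t / 2) / Real.cosh (v * t / 2)) := by
      funext x
      unfold dl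
      rw [if_neg h']
    have h4 := (h1.div h2 hc.ne').const_mul ((v : ℝ) / 2)
    rw [h3]
    refine h4.congr_deriv ?_
    unfold var1
    rw [if_neg h']
    generalize Real.sinh (v * t / 2) = S at *
    generalize Real.cosh (v * t / 2) = C at *
    field_simp
    rw [hcs]
    ring

theorem hasDerivAt_slope {n k a : ℕ} (ha : 1 ≤ a) {t : ℝ} (ht : 0 < t) :
    HasDerivAt (slope n k a) (sig2 n k a t) t := by
  have h1 : slope n k a = fun t => (((k + 1) / 2 : ℕ) : ℝ) * dl 1 t +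
      ∑ v ∈ Finset.range k, (dl (a * (n + v + 1)) t - dl (v + 1) t) := by
    funext x
    rfl
  rw [h1]
  unfold sig2
  refine ((hasDerivAt_dl le_rfl ht).const_mul _).add ?_
  apply HasDerivAt.fun_sum
  intro v _
  exact (hasDerivAt_dl (Nat.mul_pos (by omega) (by omega)) ht).sub (hasDerivAt_dl (by omega) ht)

end Pool.Agent.SignedQ.Core
end

section

/-! # Core region, inside: mean and variance of `f` at `e^(-t)` -/

namespace Pool.Agent.SignedQ.Core

open Polynomial Finset Pool.Agent.SignedQ.An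

private theorem I2b_sum (N : ℕ) (g : ℕ → ℝ) (t : ℝ) :
    HasDerivAt (fun t => ∑ j ∈ Finset.range N, g j * Real.exp (-(t * j)))
      (-∑ j ∈ Finset.range N, (j : ℝ) * (g j * Real.exp (-(t * j)))) t := by
  rw [← Finset.sum_neg_distrib]
  refine HasDerivAt.fun_sum fun j _ => ?_
  have h1 : HasDerivAt (fun t : ℝ => -(t * (j : ℝ))) (-(1 * (j : ℝ))) t :=
    ((hasDerivAt_id t).mul_const _).neg
  have h2 := (h1.exp).const_mul (g j)
  refine h2.congr_deriv ?_
  ring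

private theorem I2b_R {n k a : ℕ} (ha : 1 ≤ a) {f : ℚ[X]} (hf : f * poch (-X : ℚ[X]) k = num n k a)
    {t : ℝ} (ht : 0 < t) :
    HasDerivAt (fun t => rev f (Real.exp (-t))) (-(mu n k a f t * rev f (Real.exp (-t)))) t := by
  have hpos : ∀ s : ℝ, 0 < s → 0 < rev f (Real.exp (-s)) := fun s hs =>
    rev_pos ha hf (Real.exp_pos _).le (by rw [Real.exp_lt_one_iff]; linarith)
  have hlog : ∀ s : ℝ, 0 < s → rev f (Real.exp (-s)) =
      Real.exp (1 / 2 * Real.log (4 ^ ((k + 1) / 2)) - s * f.natDegree / 2 +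
        1 / 2 * Real.log (GG n k a s 0)) := by
    intro s hs
    have h1 := norm_sq_cev ha hf hs 0
    rw [norm_cev_zero ha hf hs] at h1
    have h2 := congrArg Real.log h1
    have hG := GG_pos (n := n) (k := k) ha hs 0
    rw [Real.log_pow, Real.log_mul (by positivity) hG.ne', Real.log_mul (by positivity)
      (Real.exp_pos _).ne', Real.log_exp] at h2
    rw [← Real.exp_log (hpos s hs)]
    congr 1
    push_cast at h2
    linarith
  have hd : HasDerivAt (fun s : ℝ => Real.exp (1 / 2 * Real.log (4 ^ ((k + 1) / 2)) -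
      s * f.natDegree / 2 + 1 / 2 * Real.log (GG n k a s 0)))
      (Real.exp (1 / 2 * Real.log (4 ^ ((k + 1) / 2)) -
      t * f.natDegree / 2 + 1 / 2 * Real.log (GG n k a t 0)) *
        (0 - 1 * f.natDegree / 2 + slope n k a t)) t := by
    refine HasDerivAt.exp ?_
    refine HasDerivAt.add ?_ (hasDerivAt_log_GG ha ht)
    exact (hasDerivAt_const t _).sub (((hasDerivAt_id t).mul_const _).div_const _)
  have hd2 : HasDerivAt (fun s => rev f (Real.exp (-s))) _ t :=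
    hd.congr_of_eventuallyEq (by
      filter_upwards [lt_mem_nhds ht] with s hs
      exact hlog s hs)
  refine hd2.congr_deriv ?_
  rw [← hlog t ht]
  unfold mu
  ring

/-- `R(t) = rev f (e^(-t))` satisfies `R² = 4^K e^(-tD) GG(t,0)` (`norm_sq_cev`, `norm_cev_zero`),
so `(log R)' = -D/2 + slope = -μ` by `hasDerivAt_log_GG`; and `R' = - ∑ j f_j e^(-tj)`. -/
theorem mean_eq {n k a : ℕ} (ha : 1 ≤ a) {f : ℚ[X]} (hf : f * poch (-X : ℚ[X]) k = num n k a)
    {t : ℝ} (ht : 0 < t) {N : ℕ} (hN : f.natDegree < N) :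
    ∑ j ∈ Finset.range N, (j : ℝ) * ((f.coeff j : ℝ) * Real.exp (-(t * j))) =
      mu n k a f t * rev f (Real.exp (-t)) := by
  have h1 := I2b_R ha hf ht
  have h2 := I2b_sum N (fun j => (f.coeff j : ℝ)) t
  have h3 : (fun t => rev f (Real.exp (-t))) =
      fun t => ∑ j ∈ Finset.range N, (f.coeff j : ℝ) * Real.exp (-(t * j)) := by
    funext s
    exact rev_eq_sum' f s hN
  rw [h3] at h1
  have h4 := h1.unique h2
  linarith

/-- Differentiate `∑ j f_j e^(-tj) = μ(t) R(t)` once more (`mean_eq` holds for all `t > 0`):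
`∑ j² f_j e^(-tj) = -(μ' R + μ R') = sig2 R + μ² R`, with `μ' = -slope' = -sig2`. -/
theorem second_eq {n k a : ℕ} (ha : 1 ≤ a) {f : ℚ[X]} (hf : f * poch (-X : ℚ[X]) k = num n k a)
    {t : ℝ} (ht : 0 < t) {N : ℕ} (hN : f.natDegree < N) :
    ∑ j ∈ Finset.range N, (j : ℝ) ^ 2 * ((f.coeff j : ℝ) * Real.exp (-(t * j))) =
      (sig2 n k a t + mu n k a f t ^ 2) * rev f (Real.exp (-t)) := by
  have h1 := I2b_sum N (fun j => (j : ℝ) * (f.coeff j : ℝ)) t
  have hmu : HasDerivAt (mu n k a f) (0 - sig2 n k a t) t :=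
    (hasDerivAt_const t _).sub (hasDerivAt_slope ha ht)
  have h2 := hmu.mul (I2b_R ha hf ht)
  have h3 : HasDerivAt (fun s => ∑ j ∈ Finset.range N,
      (j : ℝ) * (f.coeff j : ℝ) * Real.exp (-(s * j))) _ t :=
    h2.congr_of_eventuallyEq (by
      filter_upwards [lt_mem_nhds ht] with s hs
      have h4 := mean_eq ha hf hs hN
      simp only [mul_assoc] at h4 ⊢
      exact h4)
  have h5 := h3.unique h1
  have h6 : ∑ j ∈ Finset.range N, (j : ℝ) ^ 2 * ((f.coeff j : ℝ) * Real.exp (-(t * j))) =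
      ∑ j ∈ Finset.range N, (j : ℝ) * ((j : ℝ) * (f.coeff j : ℝ) * Real.exp (-(t * j))) := by
    refine Finset.sum_congr rfl fun j _ => ?_
    ring
  rw [h6]
  linarith

/-- Centred at any `c`: `∑ (j-c)² w_j = (sig2 + (μ-c)²) R`. -/
theorem second_centred {n k a : ℕ} (ha : 1 ≤ a) {f : ℚ[X]}
    (hf : f * poch (-X : ℚ[X]) k = num n k a)
    {t : ℝ} (ht : 0 < t) {N : ℕ} (hN : f.natDegree < N) (c : ℝ) :
    ∑ j ∈ Finset.range N, ((j : ℝ) - c) ^ 2 * ((f.coeff j : ℝ) * Real.exp (-(t * j))) =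
      (sig2 n k a t + (mu n k a f t - c) ^ 2) * rev f (Real.exp (-t)) := by
  have h1 := mean_eq ha hf ht hN
  have h2 := second_eq ha hf ht hN
  have h3 := rev_eq_sum' f t hN
  have h4 : ∑ j ∈ Finset.range N, ((j : ℝ) - c) ^ 2 * ((f.coeff j : ℝ) * Real.exp (-(t * j))) =
      ∑ j ∈ Finset.range N, (j : ℝ) ^ 2 * ((f.coeff j : ℝ) * Real.exp (-(t * j))) -
        2 * c * ∑ j ∈ Finset.range N, (j : ℝ) * ((f.coeff j : ℝ) * Real.exp (-(t * j))) +
        c ^ 2 * ∑ j ∈ Finset.range N, (f.coeff j : ℝ) * Real.exp (-(t * j)) := by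
    rw [Finset.mul_sum, Finset.mul_sum, ← Finset.sum_sub_distrib, ← Finset.sum_add_distrib]
    refine Finset.sum_congr rfl fun j _ => ?_
    ring
  rw [h4, h2, h1, ← h3]
  ring

end Pool.Agent.SignedQ.Core
end
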