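import Pool.Agent.Lib.MP_cf17a0_co.S1.C.E8b
import Pool.Agent.Lib.MP_cf17a0_co.Mg.G035
import Pool.Agent.Lib.MP_cf17a0_co.Mg.G036
import Pool.Agent.Lib.MP_cf17a0_co.S1.C.E5a
import Pool.Agent.Lib.MP_cf17a0_co.S1.C.C1
import Pool.Agent.Lib.MP_cf17a0_co.S1.AsmA
import Pool.Agent.Lib.MP_cf17a0_co.Mg.G032

section

/-! # Core region, `60 ≤ k`, `k t ≤ 2/3` -/

namespace Pool.Agent.SignedQ.Core

open Real Finset Pool.Agent.SignedQ.An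

/-- `(k + 1) t ≤ 17/25` and `1 + 1/k ≤ kk` for `60 ≤ k`, `k t ≤ 2/3`. -/
private theorem E8e_xm {k : ℕ} {t : ℝ} (_ht : 0 < t) (hk : 60 ≤ k) (hkt : k * t ≤ 2 / 3) :
    ((k : ℝ) + 1) * t ≤ 17 / 25 := by
  have h2 : (60 : ℝ) ≤ k := by exact_mod_cast hk
  nlinarith

private theorem E8e_kk {k k0 : ℕ} (h0 : 0 < k0) (hk : k0 ≤ k) {kk : ℝ}
    (h : 1 + 1 / (k0 : ℝ) ≤ kk) : 1 + 1 / (k : ℝ) ≤ kk := by
  have h1 : (0 : ℝ) < k0 := by exact_mod_cast h0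
  have h2 : (k0 : ℝ) ≤ k := by exact_mod_cast hk
  have h3 : 1 / (k : ℝ) ≤ 1 / k0 := one_div_le_one_div_of_le h1 h2
  linarith

private theorem E8e_D {n k a : ℕ} {t α R2 κ : ℝ} {P1 k0 c : ℕ} (hp : Par n k a) (hd : DOM k t)
    (hkt : k * t ≤ 2 / 3) (hk0 : 4 ≤ k0) (hk0' : k0 ≤ k)
    (hc : c * k ≤ a * (n + k)) (hα : 0 < α) (hα' : α * k0 ≤ c * (k0 - 2)) (h13 : 13 ≤ P1)
    (hP1 : P1 ≤ k / 2)
    (hR2 : ((2 * (P1 : ℝ) + 1) / (2 * P1 - 1)) ^ 2 ≤ R2)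
    (hκ : 1 + 3 / (P1 : ℝ) + 11 / (4 * (P1 : ℝ) ^ 2) ≤ κ) :
    RegD n k a t α (4 / 9) 1 R2 κ P1 := by
  have hkt0 : 0 ≤ k * t := mul_nonneg (Nat.cast_nonneg _) hd.2.1.le
  have hτ : (k * t) ^ 2 ≤ 4 / 9 := by nlinarith
  exact regD_mk hp hd.1 hd.2.1 hkt hτ hk0 hk0' hc hα hα' h13 hP1 (Or.inl rfl) hR2 hκ

/-- Three cases; `regD_mk` (`r = 1`) and (checked numerically, exact rationals;
`R2 = ((2P1+1)/(2P1-1))²`, `κ = 1 + 3/P1 + 11/(4 P1²)`, `τm = 4/9`, `xm = 17/25`)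
* `60 ≤ k < 100`: `k0 = 60`, `c = 8` (`Par.lt100`), `P1 = 30`, `α = 77/10`, `regI_key3`;
* `100 ≤ k < 200`: `k0 = 100`, `c = 5` (`Par.lt200` for `a = 3`, trivial for `a ≥ 5`), `P1 = 50`,
  `α = 49/10`, `regI_key1`;
* `200 ≤ k`: `k0 = 200`, `c = 3`, `P1 = 100`, `α = 297/100`, `regI_key1`. -/
theorem regime_b2 {n k a : ℕ} {t : ℝ} (hp : Par n k a) (hd : DOM k t) (hk : 60 ≤ k)
    (hkt : k * t ≤ 2 / 3) :
    RegI n k a t 5 (61 / 10) (527 / 100) (107 / 125) (33 / 32) 16 := by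
  have ha3 : 3 ≤ a := hp.2.2.1
  have hxm := E8e_xm hd.2.1 hk hkt
  have hkk : 1 + 1 / (k : ℝ) ≤ 33 / 32 := E8e_kk (k0 := 60) (by norm_num) hk (by norm_num)
  by_cases c1 : k < 100
  · have D := E8e_D (k0 := 60) (c := 8) (P1 := 30) (α := 77 / 10) (R2 := (61 / 59) ^ 2)
      (κ := 1 + 3 / 30 + 11 / 3600) hp hd hkt (by norm_num) hk (hp.lt100 c1) (by norm_num)
      (by norm_num) (by norm_num) (by omega) (by norm_num) (by norm_num)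
    exact regI_key3 D (by norm_num) (by norm_num) (by norm_num) (by norm_num) (by norm_num)
      (by norm_num) (fun A B h => by
        rcases h with ⟨rfl, rfl⟩ | ⟨rfl, rfl⟩ | ⟨rfl, rfl⟩ <;> norm_num)
      (by norm_num) hxm (by norm_num) hkk
  by_cases c2 : k < 200
  · have hc : 5 * k ≤ a * (n + k) := by
      by_cases h3 : a = 3
      · rw [h3]
        exact hp.lt200 c2 h3
      · have h5 : 5 ≤ a := by
          obtain ⟨b, hb⟩ := hp.2.1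
          omega
        calc 5 * k ≤ a * k := Nat.mul_le_mul_right k h5
          _ ≤ a * (n + k) := Nat.mul_le_mul_left a (Nat.le_add_left k n)
    have D := E8e_D (k0 := 100) (c := 5) (P1 := 50) (α := 49 / 10) (R2 := (101 / 99) ^ 2)
      (κ := 1 + 3 / 50 + 11 / 10000) hp hd hkt (by norm_num) (by omega) hc (by norm_num)
      (by norm_num) (by norm_num) (by omega) (by norm_num) (by norm_num)
    exact regI_key1 D (by norm_num) (by norm_num) (by norm_num) (by norm_num) (by norm_num)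
      (by norm_num) (fun A B h => by
        rcases h with ⟨rfl, rfl⟩ | ⟨rfl, rfl⟩ | ⟨rfl, rfl⟩ <;> norm_num)
      (by norm_num) hxm (by norm_num) hkk
  · have hc : 3 * k ≤ a * (n + k) :=
      (Nat.mul_le_mul_right k ha3).trans (Nat.mul_le_mul_left a (Nat.le_add_left k n))
    have D := E8e_D (k0 := 200) (c := 3) (P1 := 100) (α := 297 / 100) (R2 := (201 / 199) ^ 2)
      (κ := 1 + 3 / 100 + 11 / 40000) hp hd hkt (by norm_num) (by omega) hc (by norm_num)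
      (by norm_num) (by norm_num) (by omega) (by norm_num) (by norm_num)
    exact regI_key1 D (by norm_num) (by norm_num) (by norm_num) (by norm_num) (by norm_num)
      (by norm_num) (fun A B h => by
        rcases h with ⟨rfl, rfl⟩ | ⟨rfl, rfl⟩ | ⟨rfl, rfl⟩ <;> norm_num)
      (by norm_num) hxm (by norm_num) hkk

/-- `k0 = 500`, `c = 3`, `P1 = 250`, `α = 298/100`, `τm = 4/9`, `regI_key1`, `xm = 17/25`. -/
theorem regime_c {n k a : ℕ} {t : ℝ} (hp : Par n k a) (hd : DOM k t) (hk : 500 ≤ k)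
    (hkt : k * t ≤ 2 / 3) :
    RegI n k a t 5 (511 / 100) 10 (107 / 125) (501 / 500) 250 := by
  have ha3 : 3 ≤ a := hp.2.2.1
  have hxm := E8e_xm hd.2.1 (by omega) hkt
  have hkk : 1 + 1 / (k : ℝ) ≤ 501 / 500 := E8e_kk (k0 := 500) (by norm_num) hk (by norm_num)
  have hc : 3 * k ≤ a * (n + k) :=
    (Nat.mul_le_mul_right k ha3).trans (Nat.mul_le_mul_left a (Nat.le_add_left k n))
  have D := E8e_D (k0 := 500) (c := 3) (P1 := 250) (α := 298 / 100) (R2 := (501 / 499) ^ 2)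
    (κ := 1 + 3 / 250 + 11 / 250000) hp hd hkt (by norm_num) hk hc (by norm_num)
    (by norm_num) (by norm_num) (by omega) (by norm_num) (by norm_num)
  exact regI_key1 D (by norm_num) (by norm_num) (by norm_num) (by norm_num) (by norm_num)
    (by norm_num) (fun A B h => by
      rcases h with ⟨rfl, rfl⟩ | ⟨rfl, rfl⟩ | ⟨rfl, rfl⟩ <;> norm_num)
    (by norm_num) hxm (by norm_num) hkk

end Pool.Agent.SignedQ.Core
end

section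

/-! # Core region, `k t ≤ 2/3`: the pointwise bound -/

namespace Pool.Agent.SignedQ.Core

open Real Finset Pool.Agent.SignedQ.An

/-- Each pair. `c_i y ≤ (k+1)θ ≤ v1 ≤ 11/10` gives `w = W(v1)` in `pairA`/`pairB`
(`sin_sq_ge_W'`); `NN_le_dd`/`NN_le_sinh`; `c_i h ≤ (k+1)t`. -/
theorem pair_I {n k a : ℕ} {t M ρ s sc kk : ℝ} {P0 : ℕ} (R : RegI n k a t M ρ s sc kk P0)
    {θ v1 c sb : ℝ} (hθ : 0 < θ) (hv : (k + 1) * θ ≤ v1) (hv1 : v1 ≤ 11 / 10) (hc : 0 ≤ c)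
    (hsb0 : 0 ≤ sb)
    (hc' : c * (1 + sb / 3) + 0.1014 * sb / sc ≤ 1 - v1 ^ 2 / 3 + v1 ^ 4 / 25)
    (hsb : ∀ i ∈ Icc 1 (k / 2), π < bb n a i * (θ / 2) → sf (π / (θ / t)) ≤ sb)
    {i : ℕ} (hi : i ∈ Icc 1 (k / 2)) :
    NN n a t θ i / WW t θ (cc i) ≤ (1 + c * (θ / t) ^ 2 * Sd n a t i)⁻¹ := by
  obtain ⟨hi1, hi2⟩ := mem_Icc.1 hi
  have ht := R.ht
  have ha1 : 1 ≤ a := by have := R.ha3; omega
  have hS := Sd_nonneg (n := n) R.ha3 hi1 ht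
  have hden : 0 < 1 + c * (θ / t) ^ 2 * Sd n a t i := by positivity
  have hyh : θ / 2 / (t / 2) = θ / t := by
    field_simp
  have hi2' : (2 : ℝ) * i ≤ k := by
    have : 2 * i ≤ k := by omega
    exact_mod_cast this
  have hi1' : (1 : ℝ) ≤ i := by exact_mod_cast hi1
  have hc0 : 0 < cc i := by
    unfold cc
    linarith
  have hcy : cc i * (θ / 2) ≤ v1 := by
    refine le_trans ?_ hv
    unfold cc
    nlinarith
  have hcy0 : 0 ≤ cc i * (θ / 2) := by positivity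
  have hcd : cc i ≤ dd n a i := cc_le_dd R.ha3 hi1
  have hw := sin_sq_ge_W' hcy0 hcy hv1
  have hw0 : (1 - v1 ^ 2 / 3 + v1 ^ 4 / 25) * (cc i * (θ / 2)) ^ 2 ≤ sin (cc i * (θ / 2)) ^ 2 := by
    rw [mul_comm]
    exact hw
  rw [div_le_iff₀ (WW_pos _ _ _), inv_mul_eq_div, le_div_iff₀ hden]
  rcases le_or_gt (bb n a i * (θ / 2)) π with hb | hb
  · have h1 := NN_le_dd (n := n) ha1 ht hθ.le hi1 hb
    have hcw : c ≤ 1 - v1 ^ 2 / 3 + v1 ^ 4 / 25 := by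
      have e1 : 0 ≤ c * (sb / 3) := by positivity
      have e2 : 0 ≤ 0.1014 * sb / sc := by
        have := R.hsc0
        positivity
      linarith
    have h2 := pairA (c := cc i) (d := dd n a i) (h := t / 2) (y := θ / 2) (w := c) hc0 hcd
      (by positivity) (by positivity) (by linarith)
      ((mul_le_mul_of_nonneg_right hcw (sq_nonneg _)).trans hw0)
    rw [hyh] at h2
    exact (mul_le_mul_of_nonneg_right h1 hden.le).trans h2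
  · have h1 := NN_le_sinh (n := n) (θ := θ) ha1 ht hi1
    have hsc : sc ≤ sf (cc i * (t / 2)) := by
      refine R.hsc.trans (sf_anti (by positivity) ?_)
      unfold cc
      nlinarith
    have h2 := pairB (c := cc i) (d := dd n a i) (β := bb n a i) (h := t / 2) (y := θ / 2)
      (w := 1 - v1 ^ 2 / 3 + v1 ^ 4 / 25) (c' := c) (sb := sb) (sc := sc) hc0 hcd
      (dd_le_two_bb hi1) (by positivity) (by positivity) hw0 hb (by rw [hyh]; exact hsb i hi hb)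
      R.hsc0 hsc hc hc'
    rw [hyh] at h2
    exact (mul_le_mul_of_nonneg_right h1 hden.le).trans h2

end Pool.Agent.SignedQ.Core
end

section

/-! # Core region, `k t ≤ 2/3`: the pointwise bound -/

namespace Pool.Agent.SignedQ.Core

open Real Finset Pool.Agent.SignedQ.An

/-- **The pointwise bound.** `GG/GG₀ ≤ LL ∏ N_i/W_{c_i} ≤ ∏ (1 + c z² S_i)⁻¹ ≤
(1 + c z² SS/M)^(-M)` (`LL_le_one`, `pair_I`, `bernoulli_prod` with `q = 1 - s(X)`), and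
`(σθ)²/ρ ≤ z² SS/M` by `R.hρ`. -/
theorem point_I {n k a : ℕ} {t M ρ s sc kk : ℝ} {P0 : ℕ} (R : RegI n k a t M ρ s sc kk P0)
    {θ U v1 vb c sb x : ℝ} (hθ : 0 < θ) (hkθ : k * θ ≤ 1) (hU : sigma n k a t * θ ≤ U)
    (hv : kk ≤ v1 ∨ kk * U / s ≤ v1) (hvb : 1 ≤ vb ∨ U / s ≤ vb) (hv1 : v1 ≤ 11 / 10)
    (hc : 0 ≤ c) (hsb0 : 0 ≤ sb)
    (hc' : c * (1 + sb / 3) + 0.1014 * sb / sc ≤ 1 - v1 ^ 2 / 3 + v1 ^ 4 / 25)
    (hx : 1 ≤ sb ∨ (0 < x ∧ sf x ≤ sb ∧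
      9 * U ^ 2 / P0 + (1 + 3 / P0 + 11 / (4 * P0 ^ 2)) * vb ^ 2 <
        5 * π ^ 2 * (4 - 1 / (P0 : ℝ) ^ 2) / (5 + (4 - 1 / (P0 : ℝ) ^ 2) * x ^ 2))) :
    GG n k a t θ / GG n k a t 0 * (1 + c * (sigma n k a t * θ) ^ 2 / ρ) ^ M ≤ 1 := by
  have ht := R.ht
  have hk26 := R.hk
  have hk2 : 2 ≤ k := by omega
  have hk4 : 4 ≤ k := by omega
  have hkR : (0 : ℝ) < k := by exact_mod_cast (by omega : 0 < k)
  have hs0 := R.hs0
  have hkU : k * θ ≤ U / s := by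
    rw [le_div_iff₀ hs0]
    calc k * θ * s = s * k * θ := by ring
      _ ≤ sigma n k a t * θ := mul_le_mul_of_nonneg_right (s_le_sigma R) hθ.le
      _ ≤ U := hU
  have hkθ0 : 0 < k * θ := by positivity
  have hk1 : ((k : ℝ) + 1) * θ ≤ kk * (k * θ) := by
    have h1 : ((k : ℝ) + 1) * θ = (1 + 1 / (k : ℝ)) * (k * θ) := by
      field_simp
    rw [h1]
    exact mul_le_mul_of_nonneg_right R.hkk hkθ0.le
  have hkk0 : 0 < kk := lt_of_lt_of_le (by positivity) R.hkk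
  have hv' : ((k : ℝ) + 1) * θ ≤ v1 := by
    rcases hv with h | h
    · calc ((k : ℝ) + 1) * θ ≤ kk * (k * θ) := hk1
        _ ≤ kk * 1 := mul_le_mul_of_nonneg_left hkθ hkk0.le
        _ ≤ v1 := by linarith
    · calc ((k : ℝ) + 1) * θ ≤ kk * (k * θ) := hk1
        _ ≤ kk * (U / s) := mul_le_mul_of_nonneg_left hkU hkk0.le
        _ = kk * U / s := by ring
        _ ≤ v1 := h
  have hvb' : k * θ ≤ vb := by
    rcases hvb with h | h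
    · exact hkθ.trans h
    · exact hkU.trans h
  have hsb : ∀ i ∈ Icc 1 (k / 2), π < bb n a i * (θ / 2) → sf (π / (θ / t)) ≤ sb := by
    intro i hi hb
    rcases hx with h | ⟨hx0, hx1, hx2⟩
    · exact (sf_le_one (div_pos Real.pi_pos (div_pos hθ ht))).trans h
    · exact (sf_anti hx0 (beyond_pi R hθ hvb' hU hx0 hx2 hi hb)).trans hx1
  have hLL : LL k t θ ≤ 1 := by
    refine LL_le_one hk2 ht hθ.le ?_
    have := Real.pi_gt_three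
    linarith
  have hpair : ∀ i ∈ Icc 1 (k / 2),
      NN n a t θ i / WW t θ (cc i) ≤ (1 + c * (θ / t) ^ 2 * Sd n a t i)⁻¹ :=
    fun i hi => pair_I R hθ hv' hv1 hc hsb0 hc' hsb hi
  have hS0 : ∀ i ∈ Icc 1 (k / 2), 0 ≤ Sd n a t i := fun i hi =>
    Sd_nonneg (n := n) R.ha3 (mem_Icc.1 hi).1 ht
  have hX : 0 < XX n k a t := by
    rw [XX_eq hk4]
    have ha0 : (0 : ℝ) < a := by
      have := R.ha3
      exact_mod_cast (by omega : 0 < a)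
    have hP : (2 : ℝ) ≤ ((k / 2 : ℕ) : ℝ) := by exact_mod_cast (by omega : 2 ≤ k / 2)
    have hn : (0 : ℝ) ≤ nu n := Nat.cast_nonneg _
    have : 0 < (nu n : ℝ) + 2 * ((k / 2 : ℕ) : ℝ) - 1 := by linarith
    positivity
  have hq : 0 < 1 - sf (XX n k a t) := by
    have h1 := sf_le hX
    have h2 : 3 / (3 + XX n k a t ^ 2) < 1 := by
      rw [div_lt_one (by positivity)]
      have : 0 < XX n k a t ^ 2 := by positivity
      linarith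
    linarith
  have hy : 0 ≤ c * (θ / t) ^ 2 := by positivity
  have hbern := bernoulli_prod (Icc 1 (k / 2)) (Sd n a t) (y := c * (θ / t) ^ 2) hq hy R.hM hS0
    (fun i hi => Sd_le_q R.ha3 hk4 (mem_Icc.1 hi).1 (mem_Icc.1 hi).2 ht) R.hMq
  have hfac : ∀ i ∈ Icc 1 (k / 2), 0 < 1 + c * (θ / t) ^ 2 * Sd n a t i := fun i hi => by
    have := mul_nonneg hy (hS0 i hi)
    linarith
  have hprod : 0 < ∏ i ∈ Icc 1 (k / 2), (1 + c * (θ / t) ^ 2 * Sd n a t i) := prod_pos hfac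
  have hG : GG n k a t θ / GG n k a t 0 ≤
      (∏ i ∈ Icc 1 (k / 2), (1 + c * (θ / t) ^ 2 * Sd n a t i))⁻¹ := by
    refine (GG_ratio_le R.hnk R.ha hk2 ht θ).trans ?_
    have h0 : 0 ≤ ∏ i ∈ Icc 1 (k / 2), (NN n a t θ i / WW t θ (cc i)) :=
      prod_nonneg fun i _ => (div_pos (NN_pos _ _ _) (WW_pos _ _ _)).le
    refine (mul_le_of_le_one_left h0 hLL).trans ?_
    rw [← prod_inv_distrib]
    exact prod_le_prod (fun i _ => (div_pos (NN_pos _ _ _) (WW_pos _ _ _)).le) hpair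
  have hσ : sigma n k a t ^ 2 = sig2 n k a t := Real.sq_sqrt (sig2_pos' R).le
  have hρ0 := R.hρ0
  have hM := R.hM
  have hcmp : c * (sigma n k a t * θ) ^ 2 / ρ ≤
      c * (θ / t) ^ 2 * (∑ i ∈ Icc 1 (k / 2), Sd n a t i) / M := by
    have h1 : (sigma n k a t * θ) ^ 2 = (θ / t) ^ 2 * (t ^ 2 * sig2 n k a t) := by
      rw [← hσ]
      field_simp
    have h2 : t ^ 2 * sig2 n k a t / ρ ≤ SS n k a t / M := by
      rw [div_le_div_iff₀ hρ0 hM]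
      have := R.hρ
      linarith
    calc c * (sigma n k a t * θ) ^ 2 / ρ =
        c * (θ / t) ^ 2 * (t ^ 2 * sig2 n k a t / ρ) := by rw [h1]; ring
      _ ≤ c * (θ / t) ^ 2 * (SS n k a t / M) := mul_le_mul_of_nonneg_left h2 hy
      _ = _ := by unfold SS; ring
  have hfin : (1 + c * (sigma n k a t * θ) ^ 2 / ρ) ^ M ≤
      ∏ i ∈ Icc 1 (k / 2), (1 + c * (θ / t) ^ 2 * Sd n a t i) := by
    refine (Real.rpow_le_rpow (by positivity) ?_ hM.le).trans hbern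
    linarith
  calc GG n k a t θ / GG n k a t 0 * (1 + c * (sigma n k a t * θ) ^ 2 / ρ) ^ M
      ≤ (∏ i ∈ Icc 1 (k / 2), (1 + c * (θ / t) ^ 2 * Sd n a t i))⁻¹ *
        (1 + c * (sigma n k a t * θ) ^ 2 / ρ) ^ M :=
        mul_le_mul_of_nonneg_right hG (Real.rpow_nonneg (by positivity) _)
    _ ≤ (∏ i ∈ Icc 1 (k / 2), (1 + c * (θ / t) ^ 2 * Sd n a t i))⁻¹ *
        ∏ i ∈ Icc 1 (k / 2), (1 + c * (θ / t) ^ 2 * Sd n a t i) :=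
        mul_le_mul_of_nonneg_left hfin (inv_nonneg.2 hprod.le)
    _ = 1 := inv_mul_cancel₀ hprod.ne'

end Pool.Agent.SignedQ.Core
end

section

/-! # Core region, `k t ≤ 2/3`: bins -/

namespace Pool.Agent.SignedQ.Core

open Real Finset Pool.Agent.SignedQ.An

theorem rho_sq' (n k a : ℕ) (t θ : ℝ) :
    rho n k a t θ ^ 2 = GG n k a t θ / GG n k a t 0 := by
  unfold rho
  exact Real.sq_sqrt (div_nonneg (GG_nonneg _ _ _ _ _) (GG_nonneg _ _ _ _ _))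

/-- `9.8696 < π²`. -/
theorem pi_sq_gt' : (9.8696 : ℝ) ≤ π ^ 2 := by
  have h := Real.pi_gt_d6
  have h0 : (3.141592 : ℝ) ^ 2 ≤ π ^ 2 := pow_le_pow_left₀ (by norm_num) h.le 2
  refine le_trans ?_ h0
  norm_num

theorem hx_conv {P0 : ℕ} (hP0 : 2 ≤ P0) {u₁ vb sb x : ℝ}
    (hx : 1 ≤ sb ∨ (0 < x ∧ 1 ≤ sb * (1 + x ^ 2 / 3 + 2 * x ^ 4 / 45 + x ^ 6 / 315) ∧
      9 * u₁ ^ 2 / P0 + (1 + 3 / P0 + 11 / (4 * P0 ^ 2)) * vb ^ 2 <
        5 * 9.8696 * (4 - 1 / (P0 : ℝ) ^ 2) / (5 + (4 - 1 / (P0 : ℝ) ^ 2) * x ^ 2))) :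
    1 ≤ sb ∨ (0 < x ∧ sf x ≤ sb ∧
      9 * u₁ ^ 2 / P0 + (1 + 3 / P0 + 11 / (4 * P0 ^ 2)) * vb ^ 2 <
        5 * π ^ 2 * (4 - 1 / (P0 : ℝ) ^ 2) / (5 + (4 - 1 / (P0 : ℝ) ^ 2) * x ^ 2)) := by
  rcases hx with h | ⟨h1, h2, h3⟩
  · exact Or.inl h
  · refine Or.inr ⟨h1, ?_, ?_⟩
    · refine (sf_le8 h1).trans ?_
      rw [div_le_iff₀ (by positivity)]
      exact h2
    · refine lt_of_lt_of_le h3 ?_
      have hP : (2 : ℝ) ≤ (P0 : ℝ) := by exact_mod_cast hP0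
      have hPP : (1 : ℝ) ≤ (P0 : ℝ) ^ 2 := by nlinarith
      have he : 1 / (P0 : ℝ) ^ 2 ≤ 1 := by
        rw [div_le_one (by linarith)]
        exact hPP
      have he' : 0 ≤ 4 - 1 / (P0 : ℝ) ^ 2 := by linarith
      refine div_le_div_of_nonneg_right ?_ (by positivity)
      refine mul_le_mul_of_nonneg_right ?_ he'
      have := pi_sq_gt'
      linarith

/-- One bin. `rho² = GG/GG₀` (`rho` is `√(GG/GG₀)`); `point_I` (with `U = u₁`) and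
`(1 + c u₀²/ρ)^M ≤ (1 + c (σθ)²/ρ)^M` give `rho² (1 + c u₀²/ρ)^M ≤ 1`, so `rho ≤ g` by `hg`; then
`Fb_step` (`rho_continuous`, `rho_nonneg` of `S1/AsmA.lean`; `σ > 0` by `sig2_pos'`). The condition
`hx` implies the one of `point_I` by `sf_le8` and `9.8696 < π²` (`Real.pi_gt_d6`). `θ ≤ 1/k` gives
`k θ ≤ 1`, and `θ > 0` because `u₀ > 0`. -/
theorem bin_I {n k a : ℕ} {t M ρ s sc kk : ℝ} {P0 : ℕ} (R : RegI n k a t M ρ s sc kk P0)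
    {u₀ u₁ v1 vb c sb x g : ℝ} (hu0 : 0 < u₀) (h01 : u₀ ≤ u₁)
    (hv : kk ≤ v1 ∨ kk * u₁ / s ≤ v1) (hvb : 1 ≤ vb ∨ u₁ / s ≤ vb) (hv1 : v1 ≤ 11 / 10)
    (hc : 0 ≤ c) (hsb0 : 0 ≤ sb)
    (hc' : c * (1 + sb / 3) + 0.1014 * sb / sc ≤ 1 - v1 ^ 2 / 3 + v1 ^ 4 / 25)
    (hx : 1 ≤ sb ∨ (0 < x ∧ 1 ≤ sb * (1 + x ^ 2 / 3 + 2 * x ^ 4 / 45 + x ^ 6 / 315) ∧
      9 * u₁ ^ 2 / P0 + (1 + 3 / P0 + 11 / (4 * P0 ^ 2)) * vb ^ 2 <
        5 * 9.8696 * (4 - 1 / (P0 : ℝ) ^ 2) / (5 + (4 - 1 / (P0 : ℝ) ^ 2) * x ^ 2)))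
    (hg0 : 0 ≤ g) (hg : 1 ≤ g ^ 2 * (1 + c * u₀ ^ 2 / ρ) ^ M) :
    Fb (rho n k a t) (sigma n k a t) (1 / k) u₀ ≤
      (u₁ - u₀) * g + Fb (rho n k a t) (sigma n k a t) (1 / k) u₁ := by
  have hσ : 0 < sigma n k a t := Real.sqrt_pos.2 (sig2_pos' R)
  have ha1 : 1 ≤ a := by have := R.ha3; omega
  have hkR : (0 : ℝ) < k := by
    have := R.hk
    exact_mod_cast (by omega : 0 < k)
  have hρ0 := R.hρ0
  have hM := R.hM
  refine Fb_step (rho_continuous ha1 R.ht) (rho_nonneg n k a t) hσ h01 hg0 ?_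
  intro θ h0 h1 hb
  have hθ : 0 < θ := by
    by_contra hneg
    have h2 : sigma n k a t * θ ≤ 0 :=
      mul_nonpos_of_nonneg_of_nonpos hσ.le (not_lt.1 hneg)
    linarith
  have hkθ : k * θ ≤ 1 := by
    have h2 := mul_le_mul_of_nonneg_left hb hkR.le
    rwa [mul_one_div_cancel hkR.ne'] at h2
  have hp := point_I R hθ hkθ h1 hv hvb hv1 hc hsb0 hc' (hx_conv R.hP0 hx)
  rw [← rho_sq'] at hp
  have hY : (1 + c * u₀ ^ 2 / ρ) ^ M ≤ (1 + c * (sigma n k a t * θ) ^ 2 / ρ) ^ M := by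
    refine Real.rpow_le_rpow (by positivity) ?_ hM.le
    have h2 : u₀ ^ 2 ≤ (sigma n k a t * θ) ^ 2 := pow_le_pow_left₀ hu0.le h0 2
    have h3 : c * u₀ ^ 2 / ρ ≤ c * (sigma n k a t * θ) ^ 2 / ρ :=
      div_le_div_of_nonneg_right (mul_le_mul_of_nonneg_left h2 hc) hρ0.le
    linarith
  have hY0 : 0 < (1 + c * u₀ ^ 2 / ρ) ^ M := Real.rpow_pos_of_pos (by positivity) _
  have h2 : rho n k a t θ ^ 2 * (1 + c * u₀ ^ 2 / ρ) ^ M ≤ g ^ 2 * (1 + c * u₀ ^ 2 / ρ) ^ M :=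
    ((mul_le_mul_of_nonneg_left hY (sq_nonneg _)).trans hp).trans hg
  have h3 : rho n k a t θ ^ 2 ≤ g ^ 2 := le_of_mul_le_mul_right h2 hY0
  exact (pow_le_pow_iff_left₀ (rho_nonneg _ _ _ _ _) hg0 two_ne_zero).1 h3

/-- `M = 5`. -/
theorem bin_5 {n k a : ℕ} {t ρ s sc kk : ℝ} {P0 : ℕ} (R : RegI n k a t 5 ρ s sc kk P0)
    {u₀ u₁ v1 vb c sb x g : ℝ} (hu0 : 0 < u₀) (h01 : u₀ ≤ u₁)
    (hv : kk ≤ v1 ∨ kk * u₁ / s ≤ v1) (hvb : 1 ≤ vb ∨ u₁ / s ≤ vb) (hv1 : v1 ≤ 11 / 10)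
    (hc : 0 ≤ c) (hsb0 : 0 ≤ sb)
    (hc' : c * (1 + sb / 3) + 0.1014 * sb / sc ≤ 1 - v1 ^ 2 / 3 + v1 ^ 4 / 25)
    (hx : 1 ≤ sb ∨ (0 < x ∧ 1 ≤ sb * (1 + x ^ 2 / 3 + 2 * x ^ 4 / 45 + x ^ 6 / 315) ∧
      9 * u₁ ^ 2 / P0 + (1 + 3 / P0 + 11 / (4 * P0 ^ 2)) * vb ^ 2 <
        5 * 9.8696 * (4 - 1 / (P0 : ℝ) ^ 2) / (5 + (4 - 1 / (P0 : ℝ) ^ 2) * x ^ 2)))
    (hg0 : 0 ≤ g) (hg : 1 ≤ g ^ 2 * (1 + c * u₀ ^ 2 / ρ) ^ 5) :
    Fb (rho n k a t) (sigma n k a t) (1 / k) u₀ ≤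
      (u₁ - u₀) * g + Fb (rho n k a t) (sigma n k a t) (1 / k) u₁ := by
  refine bin_I R hu0 h01 hv hvb hv1 hc hsb0 hc' hx hg0 ?_
  rw [Real.rpow_ofNat]
  exact hg

/-- `M = 22/5`: `(g² y^(22/5))⁵ = g^10 y^22 ≥ 1`. -/
theorem bin_225 {n k a : ℕ} {t ρ s sc kk : ℝ} {P0 : ℕ} (R : RegI n k a t (22 / 5) ρ s sc kk P0)
    {u₀ u₁ v1 vb c sb x g : ℝ} (hu0 : 0 < u₀) (h01 : u₀ ≤ u₁)
    (hv : kk ≤ v1 ∨ kk * u₁ / s ≤ v1) (hvb : 1 ≤ vb ∨ u₁ / s ≤ vb) (hv1 : v1 ≤ 11 / 10)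
    (hc : 0 ≤ c) (hsb0 : 0 ≤ sb)
    (hc' : c * (1 + sb / 3) + 0.1014 * sb / sc ≤ 1 - v1 ^ 2 / 3 + v1 ^ 4 / 25)
    (hx : 1 ≤ sb ∨ (0 < x ∧ 1 ≤ sb * (1 + x ^ 2 / 3 + 2 * x ^ 4 / 45 + x ^ 6 / 315) ∧
      9 * u₁ ^ 2 / P0 + (1 + 3 / P0 + 11 / (4 * P0 ^ 2)) * vb ^ 2 <
        5 * 9.8696 * (4 - 1 / (P0 : ℝ) ^ 2) / (5 + (4 - 1 / (P0 : ℝ) ^ 2) * x ^ 2)))
    (hg0 : 0 ≤ g) (hg : 1 ≤ g ^ 10 * (1 + c * u₀ ^ 2 / ρ) ^ 22) :
    Fb (rho n k a t) (sigma n k a t) (1 / k) u₀ ≤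
      (u₁ - u₀) * g + Fb (rho n k a t) (sigma n k a t) (1 / k) u₁ := by
  refine bin_I R hu0 h01 hv hvb hv1 hc hsb0 hc' hx hg0 ?_
  have hρ0 := R.hρ0
  have hy : 0 < 1 + c * u₀ ^ 2 / ρ := by positivity
  have h1 : ((1 + c * u₀ ^ 2 / ρ) ^ (22 / 5 : ℝ)) ^ 5 = (1 + c * u₀ ^ 2 / ρ) ^ 22 := by
    rw [← Real.rpow_natCast, ← Real.rpow_mul hy.le, ← Real.rpow_natCast]
    norm_num
  have h2 : 1 ≤ (g ^ 2 * (1 + c * u₀ ^ 2 / ρ) ^ (22 / 5 : ℝ)) ^ 5 := by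
    rw [mul_pow, h1, ← pow_mul]
    exact hg
  exact (one_le_pow_iff_of_nonneg (by positivity) (by norm_num)).1 h2

/-- The tail from `U`: `point_I` with `sb = 1`, `v1 = kk`, `vb = 1` for every `θ`
(`U := σθ`), so with `y = c (σθ)²/ρ`: `rho² ≤ (1+y)^(-M) ≤ (1+y)^(-4) ≤ y^(-4)`,
`rho ≤ (ρ/c)²/(σθ)⁴`, and `Fb_tail`. -/
theorem tail_I {n k a : ℕ} {t M ρ s sc kk : ℝ} {P0 : ℕ} (R : RegI n k a t M ρ s sc kk P0)
    (hM : 4 ≤ M) {c U : ℝ} (hU : 0 < U) (hc : 0 < c) (hkk : kk ≤ 11 / 10)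
    (hc' : c * (1 + 1 / 3) + 0.1014 / sc ≤ 1 - kk ^ 2 / 3 + kk ^ 4 / 25) :
    Fb (rho n k a t) (sigma n k a t) (1 / k) U ≤ (ρ / c) ^ 2 / (3 * U ^ 3) := by
  have hσ : 0 < sigma n k a t := Real.sqrt_pos.2 (sig2_pos' R)
  have ha1 : 1 ≤ a := by have := R.ha3; omega
  have hkR : (0 : ℝ) < k := by
    have := R.hk
    exact_mod_cast (by omega : 0 < k)
  have hρ0 := R.hρ0
  refine Fb_tail (rho_continuous ha1 R.ht) hσ hU (sq_nonneg _) ?_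
  intro θ h0 hb
  have hσθ : 0 < sigma n k a t * θ := hU.trans_le h0
  have hθ : 0 < θ := by
    by_contra hneg
    have h2 : sigma n k a t * θ ≤ 0 :=
      mul_nonpos_of_nonneg_of_nonpos hσ.le (not_lt.1 hneg)
    linarith
  have hkθ : k * θ ≤ 1 := by
    have h2 := mul_le_mul_of_nonneg_left hb hkR.le
    rwa [mul_one_div_cancel hkR.ne'] at h2
  have hp := point_I (v1 := kk) (vb := 1) (sb := 1) (x := 1) R hθ hkθ (le_refl _) (Or.inl le_rfl)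
    (Or.inl le_rfl) hkk hc.le zero_le_one (by rw [mul_one]; exact hc') (Or.inl le_rfl)
  rw [← rho_sq'] at hp
  have hy : 0 < c * (sigma n k a t * θ) ^ 2 / ρ := by positivity
  have hY : (c * (sigma n k a t * θ) ^ 2 / ρ) ^ 4 ≤
      (1 + c * (sigma n k a t * θ) ^ 2 / ρ) ^ M := by
    calc (c * (sigma n k a t * θ) ^ 2 / ρ) ^ 4 ≤ (1 + c * (sigma n k a t * θ) ^ 2 / ρ) ^ 4 :=
          pow_le_pow_left₀ hy.le (by linarith) 4
      _ = (1 + c * (sigma n k a t * θ) ^ 2 / ρ) ^ (4 : ℝ) := (Real.rpow_ofNat _ _).symm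
      _ ≤ _ := Real.rpow_le_rpow_of_exponent_le (by linarith) hM
  have h2 : rho n k a t θ ^ 2 * (c * (sigma n k a t * θ) ^ 2 / ρ) ^ 4 ≤ 1 :=
    (mul_le_mul_of_nonneg_left hY (sq_nonneg _)).trans hp
  have h3 : (rho n k a t θ * (c * (sigma n k a t * θ) ^ 2 / ρ) ^ 2) ^ 2 ≤ 1 ^ 2 := by
    refine le_trans (le_of_eq ?_) (h2.trans (le_of_eq (one_pow 2).symm))
    ring
  have h4 : rho n k a t θ * (c * (sigma n k a t * θ) ^ 2 / ρ) ^ 2 ≤ 1 :=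
    (pow_le_pow_iff_left₀ (mul_nonneg (rho_nonneg _ _ _ _ _) (sq_nonneg _)) zero_le_one
      two_ne_zero).1 h3
  rw [← le_div_iff₀ (by positivity)] at h4
  refine h4.trans (le_of_eq ?_)
  field_simp

/-- `point_I` with `c = 0`, `sb = 1`. -/
theorem rho_le_one_I {n k a : ℕ} {t M ρ s sc kk : ℝ} {P0 : ℕ} (R : RegI n k a t M ρ s sc kk P0)
    (hkk : kk ≤ 11 / 10) (hc' : 0.1014 / sc ≤ 1 - kk ^ 2 / 3 + kk ^ 4 / 25) {θ : ℝ} (hθ : 0 < θ)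
    (hkθ : k * θ ≤ 1) : rho n k a t θ ≤ 1 := by
  have hp := point_I (v1 := kk) (vb := 1) (sb := 1) (x := 1) (c := 0) R hθ hkθ (le_refl _)
    (Or.inl le_rfl) (Or.inl le_rfl) hkk le_rfl zero_le_one
    (by rw [mul_one, zero_mul, zero_add]; exact hc') (Or.inl le_rfl)
  rw [← rho_sq', zero_mul, zero_div, add_zero, Real.one_rpow, mul_one] at hp
  exact (pow_le_pow_iff_left₀ (rho_nonneg _ _ _ _ _) zero_le_one two_ne_zero).1
    (hp.trans (le_of_eq (one_pow 2).symm))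

end Pool.Agent.SignedQ.Core
end
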