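import Pool.Agent.Lib.MP_cf17a0_co.Mg.G034

section

/-! # Core region, `k t ≤ 2/3`: 26 ≤ k < 32 (generated) -/

namespace Pool.Agent.SignedQ.Core

open Real Finset Pool.Agent.SignedQ.An

theorem T_a1_0 {n k a : ℕ} {t : ℝ}
    (R : RegI n k a t (22 / 5) (1117 / 200) (199 / 20) (979 / 1000) (27 / 26) 13) :
    Fb (rho n k a t) (sigma n k a t) (1 / k) (3 / 2) ≤
      (4607 / 20000) + Fb (rho n k a t) (sigma n k a t) (1 / k) (21 / 10) := by
  have h0 := bin_225 R (u₀ := (3 / 2)) (u₁ := (31 / 20)) (v1 := (81 / 500)) (vb := (39 / 250)) (c := (987 / 1000)) (sb := (89 / 10000))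
    (x := (132 / 25)) (g := (1197 / 2500)) (by norm_num) (by norm_num) (Or.inr (by norm_num)) (Or.inr (by norm_num))
    (by norm_num) (by norm_num) (by norm_num) (by norm_num) (Or.inr ⟨by norm_num, by norm_num, by norm_num⟩) (by norm_num)
    (by norm_num)
  have h1 := bin_225 R (u₀ := (31 / 20)) (u₁ := (8 / 5)) (v1 := (167 / 1000)) (vb := (161 / 1000)) (c := (493 / 500)) (sb := (21 / 2000))
    (x := (51 / 10)) (g := (2297 / 5000)) (by norm_num) (by norm_num) (Or.inr (by norm_num)) (Or.inr (by norm_num))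
    (by norm_num) (by norm_num) (by norm_num) (by norm_num) (Or.inr ⟨by norm_num, by norm_num, by norm_num⟩) (by norm_num)
    (by norm_num)
  have h2 := bin_225 R (u₀ := (8 / 5)) (u₁ := (33 / 20)) (v1 := (173 / 1000)) (vb := (83 / 500)) (c := (123 / 125)) (sb := (123 / 10000))
    (x := (247 / 50)) (g := (4409 / 10000)) (by norm_num) (by norm_num) (Or.inr (by norm_num)) (Or.inr (by norm_num))
    (by norm_num) (by norm_num) (by norm_num) (by norm_num) (Or.inr ⟨by norm_num, by norm_num, by norm_num⟩) (by norm_num)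
    (by norm_num)
  have h3 := bin_225 R (u₀ := (33 / 20)) (u₁ := (17 / 10)) (v1 := (89 / 500)) (vb := (171 / 1000)) (c := (983 / 1000)) (sb := (143 / 10000))
    (x := (479 / 100)) (g := (4227 / 10000)) (by norm_num) (by norm_num) (Or.inr (by norm_num)) (Or.inr (by norm_num))
    (by norm_num) (by norm_num) (by norm_num) (by norm_num) (Or.inr ⟨by norm_num, by norm_num, by norm_num⟩) (by norm_num)
    (by norm_num)
  have h4 := bin_225 R (u₀ := (17 / 10)) (u₁ := (7 / 4)) (v1 := (183 / 1000)) (vb := (22 / 125)) (c := (981 / 1000)) (sb := (83 / 5000))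
    (x := (116 / 25)) (g := (4053 / 10000)) (by norm_num) (by norm_num) (Or.inr (by norm_num)) (Or.inr (by norm_num))
    (by norm_num) (by norm_num) (by norm_num) (by norm_num) (Or.inr ⟨by norm_num, by norm_num, by norm_num⟩) (by norm_num)
    (by norm_num)
  have h5 := bin_225 R (u₀ := (7 / 4)) (u₁ := (9 / 5)) (v1 := (47 / 250)) (vb := (181 / 1000)) (c := (49 / 50)) (sb := (19 / 1000))
    (x := (451 / 100)) (g := (3883 / 10000)) (by norm_num) (by norm_num) (Or.inr (by norm_num)) (Or.inr (by norm_num))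
    (by norm_num) (by norm_num) (by norm_num) (by norm_num) (Or.inr ⟨by norm_num, by norm_num, by norm_num⟩) (by norm_num)
    (by norm_num)
  have h6 := bin_225 R (u₀ := (9 / 5)) (u₁ := (37 / 20)) (v1 := (97 / 500)) (vb := (93 / 500)) (c := (489 / 500)) (sb := (217 / 10000))
    (x := (219 / 50)) (g := (3721 / 10000)) (by norm_num) (by norm_num) (Or.inr (by norm_num)) (Or.inr (by norm_num))
    (by norm_num) (by norm_num) (by norm_num) (by norm_num) (Or.inr ⟨by norm_num, by norm_num, by norm_num⟩) (by norm_num)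
    (by norm_num)
  have h7 := bin_225 R (u₀ := (37 / 20)) (u₁ := (19 / 10)) (v1 := (199 / 1000)) (vb := (191 / 1000)) (c := (122 / 125)) (sb := (249 / 10000))
    (x := (17 / 4)) (g := (1783 / 5000)) (by norm_num) (by norm_num) (Or.inr (by norm_num)) (Or.inr (by norm_num))
    (by norm_num) (by norm_num) (by norm_num) (by norm_num) (Or.inr ⟨by norm_num, by norm_num, by norm_num⟩) (by norm_num)
    (by norm_num)
  have h8 := bin_225 R (u₀ := (19 / 10)) (u₁ := (39 / 20)) (v1 := (51 / 250)) (vb := (49 / 250)) (c := (487 / 500)) (sb := (7 / 250))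
    (x := (207 / 50)) (g := (427 / 1250)) (by norm_num) (by norm_num) (Or.inr (by norm_num)) (Or.inr (by norm_num))
    (by norm_num) (by norm_num) (by norm_num) (by norm_num) (Or.inr ⟨by norm_num, by norm_num, by norm_num⟩) (by norm_num)
    (by norm_num)
  have h9 := bin_225 R (u₀ := (39 / 20)) (u₁ := 2) (v1 := (209 / 1000)) (vb := (101 / 500)) (c := (243 / 250)) (sb := (79 / 2500))
    (x := (403 / 100)) (g := (409 / 1250)) (by norm_num) (by norm_num) (Or.inr (by norm_num)) (Or.inr (by norm_num))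
    (by norm_num) (by norm_num) (by norm_num) (by norm_num) (Or.inr ⟨by norm_num, by norm_num, by norm_num⟩) (by norm_num)
    (by norm_num)
  have h10 := bin_225 R (u₀ := 2) (u₁ := (41 / 20)) (v1 := (107 / 500)) (vb := (207 / 1000)) (c := (969 / 1000)) (sb := (89 / 2500))
    (x := (98 / 25)) (g := (3137 / 10000)) (by norm_num) (by norm_num) (Or.inr (by norm_num)) (Or.inr (by norm_num))
    (by norm_num) (by norm_num) (by norm_num) (by norm_num) (Or.inr ⟨by norm_num, by norm_num, by norm_num⟩) (by norm_num)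
    (by norm_num)
  have h11 := bin_225 R (u₀ := (41 / 20)) (u₁ := (21 / 10)) (v1 := (11 / 50)) (vb := (53 / 250)) (c := (967 / 1000)) (sb := (397 / 10000))
    (x := (191 / 50)) (g := (751 / 2500)) (by norm_num) (by norm_num) (Or.inr (by norm_num)) (Or.inr (by norm_num))
    (by norm_num) (by norm_num) (by norm_num) (by norm_num) (Or.inr ⟨by norm_num, by norm_num, by norm_num⟩) (by norm_num)
    (by norm_num)
  norm_num at h0 h1 h2 h3 h4 h5 h6 h7 h8 h9 h10 h11 ⊢
  linarith

theorem T_a1_1 {n k a : ℕ} {t : ℝ}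
    (R : RegI n k a t (22 / 5) (1117 / 200) (199 / 20) (979 / 1000) (27 / 26) 13) :
    Fb (rho n k a t) (sigma n k a t) (1 / k) (21 / 10) ≤
      (3477 / 20000) + Fb (rho n k a t) (sigma n k a t) (1 / k) (29 / 10) := by
  have h0 := bin_225 R (u₀ := (21 / 10)) (u₁ := (43 / 20)) (v1 := (9 / 40)) (vb := (217 / 1000)) (c := (241 / 250)) (sb := (111 / 2500))
    (x := (93 / 25)) (g := (2879 / 10000)) (by norm_num) (by norm_num) (Or.inr (by norm_num)) (Or.inr (by norm_num))
    (by norm_num) (by norm_num) (by norm_num) (by norm_num) (Or.inr ⟨by norm_num, by norm_num, by norm_num⟩) (by norm_num)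
    (by norm_num)
  have h1 := bin_225 R (u₀ := (43 / 20)) (u₁ := (11 / 5)) (v1 := (23 / 100)) (vb := (111 / 500)) (c := (961 / 1000)) (sb := (491 / 10000))
    (x := (363 / 100)) (g := (69 / 250)) (by norm_num) (by norm_num) (Or.inr (by norm_num)) (Or.inr (by norm_num))
    (by norm_num) (by norm_num) (by norm_num) (by norm_num) (Or.inr ⟨by norm_num, by norm_num, by norm_num⟩) (by norm_num)
    (by norm_num)
  have h2 := bin_225 R (u₀ := (11 / 5)) (u₁ := (9 / 4)) (v1 := (47 / 200)) (vb := (227 / 1000)) (c := (479 / 500)) (sb := (34 / 625))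
    (x := (177 / 50)) (g := (1323 / 5000)) (by norm_num) (by norm_num) (Or.inr (by norm_num)) (Or.inr (by norm_num))
    (by norm_num) (by norm_num) (by norm_num) (by norm_num) (Or.inr ⟨by norm_num, by norm_num, by norm_num⟩) (by norm_num)
    (by norm_num)
  have h3 := bin_225 R (u₀ := (9 / 4)) (u₁ := (23 / 10)) (v1 := (241 / 1000)) (vb := (29 / 125)) (c := (191 / 200)) (sb := (119 / 2000))
    (x := (173 / 50)) (g := (2537 / 10000)) (by norm_num) (by norm_num) (Or.inr (by norm_num)) (Or.inr (by norm_num))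
    (by norm_num) (by norm_num) (by norm_num) (by norm_num) (Or.inr ⟨by norm_num, by norm_num, by norm_num⟩) (by norm_num)
    (by norm_num)
  have h4 := bin_225 R (u₀ := (23 / 10)) (u₁ := (47 / 20)) (v1 := (123 / 500)) (vb := (237 / 1000)) (c := (119 / 125)) (sb := (33 / 500))
    (x := (337 / 100)) (g := (152 / 625)) (by norm_num) (by norm_num) (Or.inr (by norm_num)) (Or.inr (by norm_num))
    (by norm_num) (by norm_num) (by norm_num) (by norm_num) (Or.inr ⟨by norm_num, by norm_num, by norm_num⟩) (by norm_num)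
    (by norm_num)
  have h5 := bin_225 R (u₀ := (47 / 20)) (u₁ := (12 / 5)) (v1 := (251 / 1000)) (vb := (121 / 500)) (c := (949 / 1000)) (sb := (143 / 2000))
    (x := (33 / 10)) (g := (583 / 2500)) (by norm_num) (by norm_num) (Or.inr (by norm_num)) (Or.inr (by norm_num))
    (by norm_num) (by norm_num) (by norm_num) (by norm_num) (Or.inr ⟨by norm_num, by norm_num, by norm_num⟩) (by norm_num)
    (by norm_num)
  have h6 := bin_225 R (u₀ := (12 / 5)) (u₁ := (49 / 20)) (v1 := (32 / 125)) (vb := (247 / 1000)) (c := (189 / 200)) (sb := (783 / 10000))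
    (x := (161 / 50)) (g := (2239 / 10000)) (by norm_num) (by norm_num) (Or.inr (by norm_num)) (Or.inr (by norm_num))
    (by norm_num) (by norm_num) (by norm_num) (by norm_num) (Or.inr ⟨by norm_num, by norm_num, by norm_num⟩) (by norm_num)
    (by norm_num)
  have h7 := bin_225 R (u₀ := (49 / 20)) (u₁ := (5 / 2)) (v1 := (261 / 1000)) (vb := (63 / 250)) (c := (471 / 500)) (sb := (849 / 10000))
    (x := (63 / 20)) (g := (2147 / 10000)) (by norm_num) (by norm_num) (Or.inr (by norm_num)) (Or.inr (by norm_num))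
    (by norm_num) (by norm_num) (by norm_num) (by norm_num) (Or.inr ⟨by norm_num, by norm_num, by norm_num⟩) (by norm_num)
    (by norm_num)
  have h8 := bin_225 R (u₀ := (5 / 2)) (u₁ := (13 / 5)) (v1 := (34 / 125)) (vb := (131 / 500)) (c := (467 / 500)) (sb := (499 / 5000))
    (x := (301 / 100)) (g := (259 / 1250)) (by norm_num) (by norm_num) (Or.inr (by norm_num)) (Or.inr (by norm_num))
    (by norm_num) (by norm_num) (by norm_num) (by norm_num) (Or.inr ⟨by norm_num, by norm_num, by norm_num⟩) (by norm_num)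
    (by norm_num)
  have h9 := bin_225 R (u₀ := (13 / 5)) (u₁ := (27 / 10)) (v1 := (141 / 500)) (vb := (34 / 125)) (c := (37 / 40)) (sb := (1159 / 10000))
    (x := (72 / 25)) (g := (479 / 2500)) (by norm_num) (by norm_num) (Or.inr (by norm_num)) (Or.inr (by norm_num))
    (by norm_num) (by norm_num) (by norm_num) (by norm_num) (Or.inr ⟨by norm_num, by norm_num, by norm_num⟩) (by norm_num)
    (by norm_num)
  have h10 := bin_225 R (u₀ := (27 / 10)) (u₁ := (14 / 5)) (v1 := (293 / 1000)) (vb := (141 / 500)) (c := (917 / 1000)) (sb := (263 / 2000))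
    (x := (277 / 100)) (g := (1771 / 10000)) (by norm_num) (by norm_num) (Or.inr (by norm_num)) (Or.inr (by norm_num))
    (by norm_num) (by norm_num) (by norm_num) (by norm_num) (Or.inr ⟨by norm_num, by norm_num, by norm_num⟩) (by norm_num)
    (by norm_num)
  have h11 := bin_225 R (u₀ := (14 / 5)) (u₁ := (29 / 10)) (v1 := (303 / 1000)) (vb := (73 / 250)) (c := (227 / 250)) (sb := (377 / 2500))
    (x := (53 / 20)) (g := (41 / 250)) (by norm_num) (by norm_num) (Or.inr (by norm_num)) (Or.inr (by norm_num))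
    (by norm_num) (by norm_num) (by norm_num) (by norm_num) (Or.inr ⟨by norm_num, by norm_num, by norm_num⟩) (by norm_num)
    (by norm_num)
  norm_num at h0 h1 h2 h3 h4 h5 h6 h7 h8 h9 h10 h11 ⊢
  linarith

theorem T_a1_2 {n k a : ℕ} {t : ℝ}
    (R : RegI n k a t (22 / 5) (1117 / 200) (199 / 20) (979 / 1000) (27 / 26) 13) :
    Fb (rho n k a t) (sigma n k a t) (1 / k) (29 / 10) ≤
      (3421 / 25000) + Fb (rho n k a t) (sigma n k a t) (1 / k) (21 / 5) := by
  have h0 := bin_225 R (u₀ := (29 / 10)) (u₁ := 3) (v1 := (157 / 500)) (vb := (151 / 500)) (c := (899 / 1000)) (sb := (169 / 1000))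
    (x := (51 / 20)) (g := (761 / 5000)) (by norm_num) (by norm_num) (Or.inr (by norm_num)) (Or.inr (by norm_num))
    (by norm_num) (by norm_num) (by norm_num) (by norm_num) (Or.inr ⟨by norm_num, by norm_num, by norm_num⟩) (by norm_num)
    (by norm_num)
  have h1 := bin_225 R (u₀ := 3) (u₁ := (31 / 10)) (v1 := (81 / 250)) (vb := (39 / 125)) (c := (889 / 1000)) (sb := (1891 / 10000))
    (x := (49 / 20)) (g := (283 / 2000)) (by norm_num) (by norm_num) (Or.inr (by norm_num)) (Or.inr (by norm_num))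
    (by norm_num) (by norm_num) (by norm_num) (by norm_num) (Or.inr ⟨by norm_num, by norm_num, by norm_num⟩) (by norm_num)
    (by norm_num)
  have h2 := bin_225 R (u₀ := (31 / 10)) (u₁ := (16 / 5)) (v1 := (167 / 500)) (vb := (161 / 500)) (c := (22 / 25)) (sb := (2091 / 10000))
    (x := (59 / 25)) (g := (329 / 2500)) (by norm_num) (by norm_num) (Or.inr (by norm_num)) (Or.inr (by norm_num))
    (by norm_num) (by norm_num) (by norm_num) (by norm_num) (Or.inr ⟨by norm_num, by norm_num, by norm_num⟩) (by norm_num)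
    (by norm_num)
  have h3 := bin_225 R (u₀ := (16 / 5)) (u₁ := (33 / 10)) (v1 := (69 / 200)) (vb := (83 / 250)) (c := (87 / 100)) (sb := (2309 / 10000))
    (x := (227 / 100)) (g := (307 / 2500)) (by norm_num) (by norm_num) (Or.inr (by norm_num)) (Or.inr (by norm_num))
    (by norm_num) (by norm_num) (by norm_num) (by norm_num) (Or.inr ⟨by norm_num, by norm_num, by norm_num⟩) (by norm_num)
    (by norm_num)
  have h4 := bin_225 R (u₀ := (33 / 10)) (u₁ := (17 / 5)) (v1 := (71 / 200)) (vb := (171 / 500)) (c := (43 / 50)) (sb := (2519 / 10000))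
    (x := (219 / 100)) (g := (1147 / 10000)) (by norm_num) (by norm_num) (Or.inr (by norm_num)) (Or.inr (by norm_num))
    (by norm_num) (by norm_num) (by norm_num) (by norm_num) (Or.inr ⟨by norm_num, by norm_num, by norm_num⟩) (by norm_num)
    (by norm_num)
  have h5 := bin_225 R (u₀ := (17 / 5)) (u₁ := (7 / 2)) (v1 := (183 / 500)) (vb := (44 / 125)) (c := (849 / 1000)) (sb := (343 / 1250))
    (x := (211 / 100)) (g := (537 / 5000)) (by norm_num) (by norm_num) (Or.inr (by norm_num)) (Or.inr (by norm_num))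
    (by norm_num) (by norm_num) (by norm_num) (by norm_num) (Or.inr ⟨by norm_num, by norm_num, by norm_num⟩) (by norm_num)
    (by norm_num)
  have h6 := bin_225 R (u₀ := (7 / 2)) (u₁ := (18 / 5)) (v1 := (47 / 125)) (vb := (181 / 500)) (c := (839 / 1000)) (sb := (597 / 2000))
    (x := (203 / 100)) (g := (1007 / 10000)) (by norm_num) (by norm_num) (Or.inr (by norm_num)) (Or.inr (by norm_num))
    (by norm_num) (by norm_num) (by norm_num) (by norm_num) (Or.inr ⟨by norm_num, by norm_num, by norm_num⟩) (by norm_num)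
    (by norm_num)
  have h7 := bin_225 R (u₀ := (18 / 5)) (u₁ := (37 / 10)) (v1 := (387 / 1000)) (vb := (93 / 250)) (c := (829 / 1000)) (sb := (3209 / 10000))
    (x := (49 / 25)) (g := (59 / 625)) (by norm_num) (by norm_num) (Or.inr (by norm_num)) (Or.inr (by norm_num))
    (by norm_num) (by norm_num) (by norm_num) (by norm_num) (Or.inr ⟨by norm_num, by norm_num, by norm_num⟩) (by norm_num)
    (by norm_num)
  have h8 := bin_225 R (u₀ := (37 / 10)) (u₁ := (19 / 5)) (v1 := (397 / 1000)) (vb := (191 / 500)) (c := (409 / 500)) (sb := (1723 / 5000))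
    (x := (189 / 100)) (g := (889 / 10000)) (by norm_num) (by norm_num) (Or.inr (by norm_num)) (Or.inr (by norm_num))
    (by norm_num) (by norm_num) (by norm_num) (by norm_num) (Or.inr ⟨by norm_num, by norm_num, by norm_num⟩) (by norm_num)
    (by norm_num)
  have h9 := bin_225 R (u₀ := (19 / 5)) (u₁ := (39 / 10)) (v1 := (51 / 125)) (vb := (49 / 125)) (c := (809 / 1000)) (sb := (1829 / 5000))
    (x := (183 / 100)) (g := (167 / 2000)) (by norm_num) (by norm_num) (Or.inr (by norm_num)) (Or.inr (by norm_num))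
    (by norm_num) (by norm_num) (by norm_num) (by norm_num) (Or.inr ⟨by norm_num, by norm_num, by norm_num⟩) (by norm_num)
    (by norm_num)
  have h10 := bin_225 R (u₀ := (39 / 10)) (u₁ := 4) (v1 := (209 / 500)) (vb := (403 / 1000)) (c := (399 / 500)) (sb := (3917 / 10000))
    (x := (44 / 25)) (g := (789 / 10000)) (by norm_num) (by norm_num) (Or.inr (by norm_num)) (Or.inr (by norm_num))
    (by norm_num) (by norm_num) (by norm_num) (by norm_num) (Or.inr ⟨by norm_num, by norm_num, by norm_num⟩) (by norm_num)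
    (by norm_num)
  have h11 := bin_225 R (u₀ := 4) (u₁ := (21 / 5)) (v1 := (439 / 1000)) (vb := (423 / 1000)) (c := (389 / 500)) (sb := (4387 / 10000))
    (x := (41 / 25)) (g := (759 / 10000)) (by norm_num) (by norm_num) (Or.inr (by norm_num)) (Or.inr (by norm_num))
    (by norm_num) (by norm_num) (by norm_num) (by norm_num) (Or.inr ⟨by norm_num, by norm_num, by norm_num⟩) (by norm_num)
    (by norm_num)
  norm_num at h0 h1 h2 h3 h4 h5 h6 h7 h8 h9 h10 h11 ⊢
  linarith

theorem T_a1_3 {n k a : ℕ} {t : ℝ}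
    (R : RegI n k a t (22 / 5) (1117 / 200) (199 / 20) (979 / 1000) (27 / 26) 13) :
    Fb (rho n k a t) (sigma n k a t) (1 / k) (21 / 5) ≤
      (12539 / 100000) + Fb (rho n k a t) (sigma n k a t) (1 / k) (15 / 2) := by
  have h0 := bin_225 R (u₀ := (21 / 5)) (u₁ := (22 / 5)) (v1 := (23 / 50)) (vb := (443 / 1000)) (c := (379 / 500)) (sb := (1211 / 2500))
    (x := (153 / 100)) (g := (17 / 250)) (by norm_num) (by norm_num) (Or.inr (by norm_num)) (Or.inr (by norm_num))
    (by norm_num) (by norm_num) (by norm_num) (by norm_num) (Or.inr ⟨by norm_num, by norm_num, by norm_num⟩) (by norm_num)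
    (by norm_num)
  have h1 := bin_225 R (u₀ := (22 / 5)) (u₁ := (23 / 5)) (v1 := (481 / 1000)) (vb := (463 / 1000)) (c := (37 / 50)) (sb := (5279 / 10000))
    (x := (143 / 100)) (g := (611 / 10000)) (by norm_num) (by norm_num) (Or.inr (by norm_num)) (Or.inr (by norm_num))
    (by norm_num) (by norm_num) (by norm_num) (by norm_num) (Or.inr ⟨by norm_num, by norm_num, by norm_num⟩) (by norm_num)
    (by norm_num)
  have h2 := bin_225 R (u₀ := (23 / 5)) (u₁ := (24 / 5)) (v1 := (501 / 1000)) (vb := (483 / 1000)) (c := (721 / 1000)) (sb := (5727 / 10000))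
    (x := (133 / 100)) (g := (69 / 1250)) (by norm_num) (by norm_num) (Or.inr (by norm_num)) (Or.inr (by norm_num))
    (by norm_num) (by norm_num) (by norm_num) (by norm_num) (Or.inr ⟨by norm_num, by norm_num, by norm_num⟩) (by norm_num)
    (by norm_num)
  have h3 := bin_225 R (u₀ := (24 / 5)) (u₁ := 5) (v1 := (261 / 500)) (vb := (503 / 1000)) (c := (88 / 125)) (sb := (6139 / 10000))
    (x := (31 / 25)) (g := (1 / 20)) (by norm_num) (by norm_num) (Or.inr (by norm_num)) (Or.inr (by norm_num))
    (by norm_num) (by norm_num) (by norm_num) (by norm_num) (Or.inr ⟨by norm_num, by norm_num, by norm_num⟩) (by norm_num)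
    (by norm_num)
  have h4 := bin_225 R (u₀ := 5) (u₁ := (26 / 5)) (v1 := (543 / 1000)) (vb := (523 / 1000)) (c := (687 / 1000)) (sb := (3277 / 5000))
    (x := (23 / 20)) (g := (91 / 2000)) (by norm_num) (by norm_num) (Or.inr (by norm_num)) (Or.inr (by norm_num))
    (by norm_num) (by norm_num) (by norm_num) (by norm_num) (Or.inr ⟨by norm_num, by norm_num, by norm_num⟩) (by norm_num)
    (by norm_num)
  have h5 := bin_225 R (u₀ := (26 / 5)) (u₁ := (27 / 5)) (v1 := (141 / 250)) (vb := (543 / 1000)) (c := (671 / 1000)) (sb := (6923 / 10000))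
    (x := (107 / 100)) (g := (83 / 2000)) (by norm_num) (by norm_num) (Or.inr (by norm_num)) (Or.inr (by norm_num))
    (by norm_num) (by norm_num) (by norm_num) (by norm_num) (Or.inr ⟨by norm_num, by norm_num, by norm_num⟩) (by norm_num)
    (by norm_num)
  have h6 := bin_225 R (u₀ := (27 / 5)) (u₁ := (28 / 5)) (v1 := (117 / 200)) (vb := (563 / 1000)) (c := (131 / 200)) (sb := (7287 / 10000))
    (x := (99 / 100)) (g := (381 / 10000)) (by norm_num) (by norm_num) (Or.inr (by norm_num)) (Or.inr (by norm_num))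
    (by norm_num) (by norm_num) (by norm_num) (by norm_num) (Or.inr ⟨by norm_num, by norm_num, by norm_num⟩) (by norm_num)
    (by norm_num)
  have h7 := bin_225 R (u₀ := (28 / 5)) (u₁ := (29 / 5)) (v1 := (303 / 500)) (vb := (583 / 1000)) (c := (16 / 25)) (sb := (1911 / 2500))
    (x := (91 / 100)) (g := (7 / 200)) (by norm_num) (by norm_num) (Or.inr (by norm_num)) (Or.inr (by norm_num))
    (by norm_num) (by norm_num) (by norm_num) (by norm_num) (Or.inr ⟨by norm_num, by norm_num, by norm_num⟩) (by norm_num)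
    (by norm_num)
  have h8 := bin_225 R (u₀ := (29 / 5)) (u₁ := 6) (v1 := (627 / 1000)) (vb := (151 / 250)) (c := (5 / 8)) (sb := (7989 / 10000))
    (x := (83 / 100)) (g := (323 / 10000)) (by norm_num) (by norm_num) (Or.inr (by norm_num)) (Or.inr (by norm_num))
    (by norm_num) (by norm_num) (by norm_num) (by norm_num) (Or.inr ⟨by norm_num, by norm_num, by norm_num⟩) (by norm_num)
    (by norm_num)
  have h9 := bin_225 R (u₀ := 6) (u₁ := (13 / 2)) (v1 := (679 / 1000)) (vb := (327 / 500)) (c := (591 / 1000)) (sb := (1097 / 1250))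
    (x := (63 / 100)) (g := (79 / 2500)) (by norm_num) (by norm_num) (Or.inr (by norm_num)) (Or.inr (by norm_num))
    (by norm_num) (by norm_num) (by norm_num) (by norm_num) (Or.inr ⟨by norm_num, by norm_num, by norm_num⟩) (by norm_num)
    (by norm_num)
  have h10 := bin_225 R (u₀ := (13 / 2)) (u₁ := 7) (v1 := (731 / 1000)) (vb := (88 / 125)) (c := (559 / 1000)) (sb := (9433 / 10000))
    (x := (21 / 50)) (g := (263 / 10000)) (by norm_num) (by norm_num) (Or.inr (by norm_num)) (Or.inr (by norm_num))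
    (by norm_num) (by norm_num) (by norm_num) (by norm_num) (Or.inr ⟨by norm_num, by norm_num, by norm_num⟩) (by norm_num)
    (by norm_num)
  have h11 := bin_225 R (u₀ := 7) (u₁ := (15 / 2)) (v1 := (783 / 1000)) (vb := (377 / 500)) (c := (53 / 100)) (sb := 1)
    (x := 0) (g := (111 / 5000)) (by norm_num) (by norm_num) (Or.inr (by norm_num)) (Or.inr (by norm_num))
    (by norm_num) (by norm_num) (by norm_num) (by norm_num) (Or.inl (by norm_num)) (by norm_num)
    (by norm_num)
  norm_num at h0 h1 h2 h3 h4 h5 h6 h7 h8 h9 h10 h11 ⊢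
  linarith

theorem T_a1_4 {n k a : ℕ} {t : ℝ}
    (R : RegI n k a t (22 / 5) (1117 / 200) (199 / 20) (979 / 1000) (27 / 26) 13) :
    Fb (rho n k a t) (sigma n k a t) (1 / k) (15 / 2) ≤
      (729 / 10000) + Fb (rho n k a t) (sigma n k a t) (1 / k) 30 := by
  have h0 := bin_225 R (u₀ := (15 / 2)) (u₁ := 8) (v1 := (167 / 200)) (vb := (161 / 200)) (c := (64 / 125)) (sb := 1)
    (x := 0) (g := (23 / 1250)) (by norm_num) (by norm_num) (Or.inr (by norm_num)) (Or.inr (by norm_num))
    (by norm_num) (by norm_num) (by norm_num) (by norm_num) (Or.inl (by norm_num)) (by norm_num)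
    (by norm_num)
  have h1 := bin_225 R (u₀ := 8) (u₁ := 9) (v1 := (47 / 50)) (vb := (181 / 200)) (c := (237 / 500)) (sb := 1)
    (x := 0) (g := (167 / 10000)) (by norm_num) (by norm_num) (Or.inr (by norm_num)) (Or.inr (by norm_num))
    (by norm_num) (by norm_num) (by norm_num) (by norm_num) (Or.inl (by norm_num)) (by norm_num)
    (by norm_num)
  have h2 := bin_225 R (u₀ := 9) (u₁ := 10) (v1 := (27 / 26)) (vb := 1) (c := (437 / 1000)) (sb := 1)
    (x := 0) (g := (1 / 80)) (by norm_num) (by norm_num) (Or.inl (by norm_num)) (Or.inl (by norm_num))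
    (by norm_num) (by norm_num) (by norm_num) (by norm_num) (Or.inl (by norm_num)) (by norm_num)
    (by norm_num)
  have h3 := bin_225 R (u₀ := 10) (u₁ := 11) (v1 := (27 / 26)) (vb := 1) (c := (437 / 1000)) (sb := 1)
    (x := 0) (g := (21 / 2500)) (by norm_num) (by norm_num) (Or.inl (by norm_num)) (Or.inl (by norm_num))
    (by norm_num) (by norm_num) (by norm_num) (by norm_num) (Or.inl (by norm_num)) (by norm_num)
    (by norm_num)
  have h4 := bin_225 R (u₀ := 11) (u₁ := 12) (v1 := (27 / 26)) (vb := 1) (c := (437 / 1000)) (sb := 1)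
    (x := 0) (g := (29 / 5000)) (by norm_num) (by norm_num) (Or.inl (by norm_num)) (Or.inl (by norm_num))
    (by norm_num) (by norm_num) (by norm_num) (by norm_num) (Or.inl (by norm_num)) (by norm_num)
    (by norm_num)
  have h5 := bin_225 R (u₀ := 12) (u₁ := 14) (v1 := (27 / 26)) (vb := 1) (c := (437 / 1000)) (sb := 1)
    (x := 0) (g := (41 / 10000)) (by norm_num) (by norm_num) (Or.inl (by norm_num)) (Or.inl (by norm_num))
    (by norm_num) (by norm_num) (by norm_num) (by norm_num) (Or.inl (by norm_num)) (by norm_num)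
    (by norm_num)
  have h6 := bin_225 R (u₀ := 14) (u₁ := 16) (v1 := (27 / 26)) (vb := 1) (c := (437 / 1000)) (sb := 1)
    (x := 0) (g := (11 / 5000)) (by norm_num) (by norm_num) (Or.inl (by norm_num)) (Or.inl (by norm_num))
    (by norm_num) (by norm_num) (by norm_num) (by norm_num) (Or.inl (by norm_num)) (by norm_num)
    (by norm_num)
  have h7 := bin_225 R (u₀ := 16) (u₁ := 18) (v1 := (27 / 26)) (vb := 1) (c := (437 / 1000)) (sb := 1)
    (x := 0) (g := (13 / 10000)) (by norm_num) (by norm_num) (Or.inl (by norm_num)) (Or.inl (by norm_num))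
    (by norm_num) (by norm_num) (by norm_num) (by norm_num) (Or.inl (by norm_num)) (by norm_num)
    (by norm_num)
  have h8 := bin_225 R (u₀ := 18) (u₁ := 20) (v1 := (27 / 26)) (vb := 1) (c := (437 / 1000)) (sb := 1)
    (x := 0) (g := (1 / 1250)) (by norm_num) (by norm_num) (Or.inl (by norm_num)) (Or.inl (by norm_num))
    (by norm_num) (by norm_num) (by norm_num) (by norm_num) (Or.inl (by norm_num)) (by norm_num)
    (by norm_num)
  have h9 := bin_225 R (u₀ := 20) (u₁ := 25) (v1 := (27 / 26)) (vb := 1) (c := (437 / 1000)) (sb := 1)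
    (x := 0) (g := (1 / 2000)) (by norm_num) (by norm_num) (Or.inl (by norm_num)) (Or.inl (by norm_num))
    (by norm_num) (by norm_num) (by norm_num) (by norm_num) (Or.inl (by norm_num)) (by norm_num)
    (by norm_num)
  have h10 := bin_225 R (u₀ := 25) (u₁ := 30) (v1 := (27 / 26)) (vb := 1) (c := (437 / 1000)) (sb := 1)
    (x := 0) (g := (1 / 5000)) (by norm_num) (by norm_num) (Or.inl (by norm_num)) (Or.inl (by norm_num))
    (by norm_num) (by norm_num) (by norm_num) (by norm_num) (Or.inl (by norm_num)) (by norm_num)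
    (by norm_num)
  norm_num at h0 h1 h2 h3 h4 h5 h6 h7 h8 h9 h10 ⊢
  linarith

theorem T_a1 {n k a : ℕ} {t : ℝ}
    (R : RegI n k a t (22 / 5) (1117 / 200) (199 / 20) (979 / 1000) (27 / 26) 13) :
    Fb (rho n k a t) (sigma n k a t) (1 / k) (3 / 2) ≤ (371 / 500) := by
  have h0 := T_a1_0 R
  have h1 := T_a1_1 R
  have h2 := T_a1_2 R
  have h3 := T_a1_3 R
  have h4 := T_a1_4 R
  have ht := tail_I R (by norm_num) (c := (437 / 1000)) (U := 30) (by norm_num) (by norm_num) (by norm_num)
    (by norm_num)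
  norm_num at h0 h1 h2 h3 h4 ht ⊢
  linarith

end Pool.Agent.SignedQ.Core
end

section

/-! # Core region, `k t ≤ 2/3`: 32 ≤ k (generated) -/

namespace Pool.Agent.SignedQ.Core

open Real Finset Pool.Agent.SignedQ.An

theorem T_b_0 {n k a : ℕ} {t : ℝ}
    (R : RegI n k a t 5 (61 / 10) (527 / 100) (107 / 125) (33 / 32) 16) :
    Fb (rho n k a t) (sigma n k a t) (1 / k) (3 / 2) ≤
      (36539 / 100000) + Fb (rho n k a t) (sigma n k a t) (1 / k) (27 / 10) := by
  have h0 := bin_5 R (u₀ := (3 / 2)) (u₁ := (8 / 5)) (v1 := (157 / 500)) (vb := (38 / 125)) (c := (241 / 250)) (sb := (71 / 10000))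
    (x := (138 / 25)) (g := (187 / 400)) (by norm_num) (by norm_num) (Or.inr (by norm_num)) (Or.inr (by norm_num))
    (by norm_num) (by norm_num) (by norm_num) (by norm_num) (Or.inr ⟨by norm_num, by norm_num, by norm_num⟩) (by norm_num)
    (by norm_num)
  have h1 := bin_5 R (u₀ := (8 / 5)) (u₁ := (17 / 10)) (v1 := (333 / 1000)) (vb := (323 / 1000)) (c := (959 / 1000)) (sb := (6 / 625))
    (x := (519 / 100)) (g := (2147 / 5000)) (by norm_num) (by norm_num) (Or.inr (by norm_num)) (Or.inr (by norm_num))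
    (by norm_num) (by norm_num) (by norm_num) (by norm_num) (Or.inr ⟨by norm_num, by norm_num, by norm_num⟩) (by norm_num)
    (by norm_num)
  have h2 := bin_5 R (u₀ := (17 / 10)) (u₁ := (9 / 5)) (v1 := (353 / 1000)) (vb := (171 / 500)) (c := (953 / 1000)) (sb := (13 / 1000))
    (x := (122 / 25)) (g := (197 / 500)) (by norm_num) (by norm_num) (Or.inr (by norm_num)) (Or.inr (by norm_num))
    (by norm_num) (by norm_num) (by norm_num) (by norm_num) (Or.inr ⟨by norm_num, by norm_num, by norm_num⟩) (by norm_num)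
    (by norm_num)
  have h3 := bin_5 R (u₀ := (9 / 5)) (u₁ := (19 / 10)) (v1 := (93 / 250)) (vb := (361 / 1000)) (c := (947 / 1000)) (sb := (171 / 10000))
    (x := (461 / 100)) (g := (3611 / 10000)) (by norm_num) (by norm_num) (Or.inr (by norm_num)) (Or.inr (by norm_num))
    (by norm_num) (by norm_num) (by norm_num) (by norm_num) (Or.inr ⟨by norm_num, by norm_num, by norm_num⟩) (by norm_num)
    (by norm_num)
  have h4 := bin_5 R (u₀ := (19 / 10)) (u₁ := 2) (v1 := (49 / 125)) (vb := (19 / 50)) (c := (47 / 50)) (sb := (219 / 10000))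
    (x := (437 / 100)) (g := (331 / 1000)) (by norm_num) (by norm_num) (Or.inr (by norm_num)) (Or.inr (by norm_num))
    (by norm_num) (by norm_num) (by norm_num) (by norm_num) (Or.inr ⟨by norm_num, by norm_num, by norm_num⟩) (by norm_num)
    (by norm_num)
  have h5 := bin_5 R (u₀ := 2) (u₁ := (21 / 10)) (v1 := (411 / 1000)) (vb := (399 / 1000)) (c := (233 / 250)) (sb := (7 / 250))
    (x := (207 / 50)) (g := (759 / 2500)) (by norm_num) (by norm_num) (Or.inr (by norm_num)) (Or.inr (by norm_num))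
    (by norm_num) (by norm_num) (by norm_num) (by norm_num) (Or.inr ⟨by norm_num, by norm_num, by norm_num⟩) (by norm_num)
    (by norm_num)
  have h6 := bin_5 R (u₀ := (21 / 10)) (u₁ := (11 / 5)) (v1 := (431 / 1000)) (vb := (209 / 500)) (c := (231 / 250)) (sb := (87 / 2500))
    (x := (197 / 50)) (g := (2783 / 10000)) (by norm_num) (by norm_num) (Or.inr (by norm_num)) (Or.inr (by norm_num))
    (by norm_num) (by norm_num) (by norm_num) (by norm_num) (Or.inr ⟨by norm_num, by norm_num, by norm_num⟩) (by norm_num)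
    (by norm_num)
  have h7 := bin_5 R (u₀ := (11 / 5)) (u₁ := (23 / 10)) (v1 := (451 / 1000)) (vb := (437 / 1000)) (c := (183 / 200)) (sb := (17 / 400))
    (x := (94 / 25)) (g := (639 / 2500)) (by norm_num) (by norm_num) (Or.inr (by norm_num)) (Or.inr (by norm_num))
    (by norm_num) (by norm_num) (by norm_num) (by norm_num) (Or.inr ⟨by norm_num, by norm_num, by norm_num⟩) (by norm_num)
    (by norm_num)
  have h8 := bin_5 R (u₀ := (23 / 10)) (u₁ := (12 / 5)) (v1 := (47 / 100)) (vb := (57 / 125)) (c := (453 / 500)) (sb := (257 / 5000))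
    (x := (359 / 100)) (g := (2347 / 10000)) (by norm_num) (by norm_num) (Or.inr (by norm_num)) (Or.inr (by norm_num))
    (by norm_num) (by norm_num) (by norm_num) (by norm_num) (Or.inr ⟨by norm_num, by norm_num, by norm_num⟩) (by norm_num)
    (by norm_num)
  have h9 := bin_5 R (u₀ := (12 / 5)) (u₁ := (5 / 2)) (v1 := (49 / 100)) (vb := (19 / 40)) (c := (112 / 125)) (sb := (77 / 1250))
    (x := (343 / 100)) (g := (27 / 125)) (by norm_num) (by norm_num) (Or.inr (by norm_num)) (Or.inr (by norm_num))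
    (by norm_num) (by norm_num) (by norm_num) (by norm_num) (Or.inr ⟨by norm_num, by norm_num, by norm_num⟩) (by norm_num)
    (by norm_num)
  have h10 := bin_5 R (u₀ := (5 / 2)) (u₁ := (13 / 5)) (v1 := (509 / 1000)) (vb := (247 / 500)) (c := (443 / 500)) (sb := (731 / 10000))
    (x := (82 / 25)) (g := (199 / 1000)) (by norm_num) (by norm_num) (Or.inr (by norm_num)) (Or.inr (by norm_num))
    (by norm_num) (by norm_num) (by norm_num) (by norm_num) (Or.inr ⟨by norm_num, by norm_num, by norm_num⟩) (by norm_num)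
    (by norm_num)
  have h11 := bin_5 R (u₀ := (13 / 5)) (u₁ := (27 / 10)) (v1 := (529 / 1000)) (vb := (513 / 1000)) (c := (7 / 8)) (sb := (849 / 10000))
    (x := (63 / 20)) (g := (1837 / 10000)) (by norm_num) (by norm_num) (Or.inr (by norm_num)) (Or.inr (by norm_num))
    (by norm_num) (by norm_num) (by norm_num) (by norm_num) (Or.inr ⟨by norm_num, by norm_num, by norm_num⟩) (by norm_num)
    (by norm_num)
  norm_num at h0 h1 h2 h3 h4 h5 h6 h7 h8 h9 h10 h11 ⊢
  linarith

theorem T_b_1 {n k a : ℕ} {t : ℝ}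
    (R : RegI n k a t 5 (61 / 10) (527 / 100) (107 / 125) (33 / 32) 16) :
    Fb (rho n k a t) (sigma n k a t) (1 / k) (27 / 10) ≤
      (21539 / 100000) + Fb (rho n k a t) (sigma n k a t) (1 / k) (24 / 5) := by
  have h0 := bin_5 R (u₀ := (27 / 10)) (u₁ := (14 / 5)) (v1 := (137 / 250)) (vb := (133 / 250)) (c := (863 / 1000)) (sb := (493 / 5000))
    (x := (151 / 50)) (g := (1701 / 10000)) (by norm_num) (by norm_num) (Or.inr (by norm_num)) (Or.inr (by norm_num))
    (by norm_num) (by norm_num) (by norm_num) (by norm_num) (Or.inr ⟨by norm_num, by norm_num, by norm_num⟩) (by norm_num)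
    (by norm_num)
  have h1 := bin_5 R (u₀ := (14 / 5)) (u₁ := (29 / 10)) (v1 := (71 / 125)) (vb := (551 / 1000)) (c := (851 / 1000)) (sb := (283 / 2500))
    (x := (29 / 10)) (g := (1577 / 10000)) (by norm_num) (by norm_num) (Or.inr (by norm_num)) (Or.inr (by norm_num))
    (by norm_num) (by norm_num) (by norm_num) (by norm_num) (Or.inr ⟨by norm_num, by norm_num, by norm_num⟩) (by norm_num)
    (by norm_num)
  have h2 := bin_5 R (u₀ := (29 / 10)) (u₁ := 3) (v1 := (147 / 250)) (vb := (57 / 100)) (c := (419 / 500)) (sb := (257 / 2000))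
    (x := (279 / 100)) (g := (1467 / 10000)) (by norm_num) (by norm_num) (Or.inr (by norm_num)) (Or.inr (by norm_num))
    (by norm_num) (by norm_num) (by norm_num) (by norm_num) (Or.inr ⟨by norm_num, by norm_num, by norm_num⟩) (by norm_num)
    (by norm_num)
  have h3 := bin_5 R (u₀ := 3) (u₁ := (16 / 5)) (v1 := (627 / 1000)) (vb := (76 / 125)) (c := (811 / 1000)) (sb := (1633 / 10000))
    (x := (129 / 50)) (g := (1399 / 10000)) (by norm_num) (by norm_num) (Or.inr (by norm_num)) (Or.inr (by norm_num))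
    (by norm_num) (by norm_num) (by norm_num) (by norm_num) (Or.inr ⟨by norm_num, by norm_num, by norm_num⟩) (by norm_num)
    (by norm_num)
  have h4 := bin_5 R (u₀ := (16 / 5)) (u₁ := (17 / 5)) (v1 := (333 / 500)) (vb := (323 / 500)) (c := (98 / 125)) (sb := (1 / 5))
    (x := (12 / 5)) (g := (49 / 400)) (by norm_num) (by norm_num) (Or.inr (by norm_num)) (Or.inr (by norm_num))
    (by norm_num) (by norm_num) (by norm_num) (by norm_num) (Or.inr ⟨by norm_num, by norm_num, by norm_num⟩) (by norm_num)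
    (by norm_num)
  have h5 := bin_5 R (u₀ := (17 / 5)) (u₁ := (18 / 5)) (v1 := (141 / 200)) (vb := (171 / 250)) (c := (151 / 200)) (sb := (1193 / 5000))
    (x := (56 / 25)) (g := (543 / 5000)) (by norm_num) (by norm_num) (Or.inr (by norm_num)) (Or.inr (by norm_num))
    (by norm_num) (by norm_num) (by norm_num) (by norm_num) (Or.inr ⟨by norm_num, by norm_num, by norm_num⟩) (by norm_num)
    (by norm_num)
  have h6 := bin_5 R (u₀ := (18 / 5)) (u₁ := (19 / 5)) (v1 := (93 / 125)) (vb := (361 / 500)) (c := (363 / 500)) (sb := (2803 / 10000))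
    (x := (209 / 100)) (g := (971 / 10000)) (by norm_num) (by norm_num) (Or.inr (by norm_num)) (Or.inr (by norm_num))
    (by norm_num) (by norm_num) (by norm_num) (by norm_num) (Or.inr ⟨by norm_num, by norm_num, by norm_num⟩) (by norm_num)
    (by norm_num)
  have h7 := bin_5 R (u₀ := (19 / 5)) (u₁ := 4) (v1 := (783 / 1000)) (vb := (19 / 25)) (c := (87 / 125)) (sb := (1621 / 5000))
    (x := (39 / 20)) (g := (877 / 10000)) (by norm_num) (by norm_num) (Or.inr (by norm_num)) (Or.inr (by norm_num))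
    (by norm_num) (by norm_num) (by norm_num) (by norm_num) (Or.inr ⟨by norm_num, by norm_num, by norm_num⟩) (by norm_num)
    (by norm_num)
  have h8 := bin_5 R (u₀ := 4) (u₁ := (21 / 5)) (v1 := (411 / 500)) (vb := (797 / 1000)) (c := (167 / 250)) (sb := (1829 / 5000))
    (x := (183 / 100)) (g := (199 / 2500)) (by norm_num) (by norm_num) (Or.inr (by norm_num)) (Or.inr (by norm_num))
    (by norm_num) (by norm_num) (by norm_num) (by norm_num) (Or.inr ⟨by norm_num, by norm_num, by norm_num⟩) (by norm_num)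
    (by norm_num)
  have h9 := bin_5 R (u₀ := (21 / 5)) (u₁ := (22 / 5)) (v1 := (431 / 500)) (vb := (167 / 200)) (c := (319 / 500)) (sb := (4109 / 10000))
    (x := (171 / 100)) (g := (733 / 10000)) (by norm_num) (by norm_num) (Or.inr (by norm_num)) (Or.inr (by norm_num))
    (by norm_num) (by norm_num) (by norm_num) (by norm_num) (Or.inr ⟨by norm_num, by norm_num, by norm_num⟩) (by norm_num)
    (by norm_num)
  have h10 := bin_5 R (u₀ := (22 / 5)) (u₁ := (23 / 5)) (v1 := (901 / 1000)) (vb := (873 / 1000)) (c := (61 / 100)) (sb := (4509 / 10000))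
    (x := (161 / 100)) (g := (339 / 5000)) (by norm_num) (by norm_num) (Or.inr (by norm_num)) (Or.inr (by norm_num))
    (by norm_num) (by norm_num) (by norm_num) (by norm_num) (Or.inr ⟨by norm_num, by norm_num, by norm_num⟩) (by norm_num)
    (by norm_num)
  have h11 := bin_5 R (u₀ := (23 / 5)) (u₁ := (24 / 5)) (v1 := (47 / 50)) (vb := (911 / 1000)) (c := (291 / 500)) (sb := (493 / 1000))
    (x := (151 / 100)) (g := (79 / 1250)) (by norm_num) (by norm_num) (Or.inr (by norm_num)) (Or.inr (by norm_num))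
    (by norm_num) (by norm_num) (by norm_num) (by norm_num) (Or.inr ⟨by norm_num, by norm_num, by norm_num⟩) (by norm_num)
    (by norm_num)
  norm_num at h0 h1 h2 h3 h4 h5 h6 h7 h8 h9 h10 h11 ⊢
  linarith

theorem T_b_2 {n k a : ℕ} {t : ℝ}
    (R : RegI n k a t 5 (61 / 10) (527 / 100) (107 / 125) (33 / 32) 16) :
    Fb (rho n k a t) (sigma n k a t) (1 / k) (24 / 5) ≤
      (3083 / 20000) + Fb (rho n k a t) (sigma n k a t) (1 / k) 14 := by
  have h0 := bin_5 R (u₀ := (24 / 5)) (u₁ := 5) (v1 := (979 / 1000)) (vb := (949 / 1000)) (c := (277 / 500)) (sb := (5367 / 10000))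
    (x := (141 / 100)) (g := (119 / 2000)) (by norm_num) (by norm_num) (Or.inr (by norm_num)) (Or.inr (by norm_num))
    (by norm_num) (by norm_num) (by norm_num) (by norm_num) (Or.inr ⟨by norm_num, by norm_num, by norm_num⟩) (by norm_num)
    (by norm_num)
  have h1 := bin_5 R (u₀ := 5) (u₁ := (11 / 2)) (v1 := (33 / 32)) (vb := 1) (c := (127 / 250)) (sb := (6323 / 10000))
    (x := (6 / 5)) (g := (3 / 50)) (by norm_num) (by norm_num) (Or.inl (by norm_num)) (Or.inl (by norm_num))
    (by norm_num) (by norm_num) (by norm_num) (by norm_num) (Or.inr ⟨by norm_num, by norm_num, by norm_num⟩) (by norm_num)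
    (by norm_num)
  have h2 := bin_5 R (u₀ := (11 / 2)) (u₁ := 6) (v1 := (33 / 32)) (vb := 1) (c := (489 / 1000)) (sb := (7151 / 10000))
    (x := (51 / 50)) (g := (461 / 10000)) (by norm_num) (by norm_num) (Or.inl (by norm_num)) (Or.inl (by norm_num))
    (by norm_num) (by norm_num) (by norm_num) (by norm_num) (Or.inr ⟨by norm_num, by norm_num, by norm_num⟩) (by norm_num)
    (by norm_num)
  have h3 := bin_5 R (u₀ := 6) (u₁ := (13 / 2)) (v1 := (33 / 32)) (vb := 1) (c := (59 / 125)) (sb := (494 / 625))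
    (x := (17 / 20)) (g := (359 / 10000)) (by norm_num) (by norm_num) (Or.inl (by norm_num)) (Or.inl (by norm_num))
    (by norm_num) (by norm_num) (by norm_num) (by norm_num) (Or.inr ⟨by norm_num, by norm_num, by norm_num⟩) (by norm_num)
    (by norm_num)
  have h4 := bin_5 R (u₀ := (13 / 2)) (u₁ := 7) (v1 := (33 / 32)) (vb := 1) (c := (457 / 1000)) (sb := (537 / 625))
    (x := (17 / 25)) (g := (283 / 10000)) (by norm_num) (by norm_num) (Or.inl (by norm_num)) (Or.inl (by norm_num))
    (by norm_num) (by norm_num) (by norm_num) (by norm_num) (Or.inr ⟨by norm_num, by norm_num, by norm_num⟩) (by norm_num)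
    (by norm_num)
  have h5 := bin_5 R (u₀ := 7) (u₁ := (15 / 2)) (v1 := (33 / 32)) (vb := 1) (c := (89 / 200)) (sb := (9207 / 10000))
    (x := (1 / 2)) (g := (14 / 625)) (by norm_num) (by norm_num) (Or.inl (by norm_num)) (Or.inl (by norm_num))
    (by norm_num) (by norm_num) (by norm_num) (by norm_num) (Or.inr ⟨by norm_num, by norm_num, by norm_num⟩) (by norm_num)
    (by norm_num)
  have h6 := bin_5 R (u₀ := (15 / 2)) (u₁ := 8) (v1 := (33 / 32)) (vb := 1) (c := (433 / 1000)) (sb := (9761 / 10000))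
    (x := (27 / 100)) (g := (9 / 500)) (by norm_num) (by norm_num) (Or.inl (by norm_num)) (Or.inl (by norm_num))
    (by norm_num) (by norm_num) (by norm_num) (by norm_num) (Or.inr ⟨by norm_num, by norm_num, by norm_num⟩) (by norm_num)
    (by norm_num)
  have h7 := bin_5 R (u₀ := 8) (u₁ := 9) (v1 := (33 / 32)) (vb := 1) (c := (429 / 1000)) (sb := 1)
    (x := 0) (g := (141 / 10000)) (by norm_num) (by norm_num) (Or.inl (by norm_num)) (Or.inl (by norm_num))
    (by norm_num) (by norm_num) (by norm_num) (by norm_num) (Or.inl (by norm_num)) (by norm_num)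
    (by norm_num)
  have h8 := bin_5 R (u₀ := 9) (u₁ := 10) (v1 := (33 / 32)) (vb := 1) (c := (429 / 1000)) (sb := 1)
    (x := 0) (g := (87 / 10000)) (by norm_num) (by norm_num) (Or.inl (by norm_num)) (Or.inl (by norm_num))
    (by norm_num) (by norm_num) (by norm_num) (by norm_num) (Or.inl (by norm_num)) (by norm_num)
    (by norm_num)
  have h9 := bin_5 R (u₀ := 10) (u₁ := 11) (v1 := (33 / 32)) (vb := 1) (c := (429 / 1000)) (sb := 1)
    (x := 0) (g := (11 / 2000)) (by norm_num) (by norm_num) (Or.inl (by norm_num)) (Or.inl (by norm_num))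
    (by norm_num) (by norm_num) (by norm_num) (by norm_num) (Or.inl (by norm_num)) (by norm_num)
    (by norm_num)
  have h10 := bin_5 R (u₀ := 11) (u₁ := 12) (v1 := (33 / 32)) (vb := 1) (c := (429 / 1000)) (sb := 1)
    (x := 0) (g := (9 / 2500)) (by norm_num) (by norm_num) (Or.inl (by norm_num)) (Or.inl (by norm_num))
    (by norm_num) (by norm_num) (by norm_num) (by norm_num) (Or.inl (by norm_num)) (by norm_num)
    (by norm_num)
  have h11 := bin_5 R (u₀ := 12) (u₁ := 14) (v1 := (33 / 32)) (vb := 1) (c := (429 / 1000)) (sb := 1)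
    (x := 0) (g := (1 / 400)) (by norm_num) (by norm_num) (Or.inl (by norm_num)) (Or.inl (by norm_num))
    (by norm_num) (by norm_num) (by norm_num) (by norm_num) (Or.inl (by norm_num)) (by norm_num)
    (by norm_num)
  norm_num at h0 h1 h2 h3 h4 h5 h6 h7 h8 h9 h10 h11 ⊢
  linarith

theorem T_b_3 {n k a : ℕ} {t : ℝ}
    (R : RegI n k a t 5 (61 / 10) (527 / 100) (107 / 125) (33 / 32) 16) :
    Fb (rho n k a t) (sigma n k a t) (1 / k) 14 ≤
      (33 / 5000) + Fb (rho n k a t) (sigma n k a t) (1 / k) 30 := by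
  have h0 := bin_5 R (u₀ := 14) (u₁ := 16) (v1 := (33 / 32)) (vb := 1) (c := (429 / 1000)) (sb := 1)
    (x := 0) (g := (3 / 2500)) (by norm_num) (by norm_num) (Or.inl (by norm_num)) (Or.inl (by norm_num))
    (by norm_num) (by norm_num) (by norm_num) (by norm_num) (Or.inl (by norm_num)) (by norm_num)
    (by norm_num)
  have h1 := bin_5 R (u₀ := 16) (u₁ := 18) (v1 := (33 / 32)) (vb := 1) (c := (429 / 1000)) (sb := 1)
    (x := 0) (g := (7 / 10000)) (by norm_num) (by norm_num) (Or.inl (by norm_num)) (Or.inl (by norm_num))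
    (by norm_num) (by norm_num) (by norm_num) (by norm_num) (Or.inl (by norm_num)) (by norm_num)
    (by norm_num)
  have h2 := bin_5 R (u₀ := 18) (u₁ := 20) (v1 := (33 / 32)) (vb := 1) (c := (429 / 1000)) (sb := 1)
    (x := 0) (g := (1 / 2500)) (by norm_num) (by norm_num) (Or.inl (by norm_num)) (Or.inl (by norm_num))
    (by norm_num) (by norm_num) (by norm_num) (by norm_num) (Or.inl (by norm_num)) (by norm_num)
    (by norm_num)
  have h3 := bin_5 R (u₀ := 20) (u₁ := 25) (v1 := (33 / 32)) (vb := 1) (c := (429 / 1000)) (sb := 1)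
    (x := 0) (g := (3 / 10000)) (by norm_num) (by norm_num) (Or.inl (by norm_num)) (Or.inl (by norm_num))
    (by norm_num) (by norm_num) (by norm_num) (by norm_num) (Or.inl (by norm_num)) (by norm_num)
    (by norm_num)
  have h4 := bin_5 R (u₀ := 25) (u₁ := 30) (v1 := (33 / 32)) (vb := 1) (c := (429 / 1000)) (sb := 1)
    (x := 0) (g := (1 / 10000)) (by norm_num) (by norm_num) (Or.inl (by norm_num)) (Or.inl (by norm_num))
    (by norm_num) (by norm_num) (by norm_num) (by norm_num) (Or.inl (by norm_num)) (by norm_num)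
    (by norm_num)
  norm_num at h0 h1 h2 h3 h4 ⊢
  linarith

theorem T_b {n k a : ℕ} {t : ℝ}
    (R : RegI n k a t 5 (61 / 10) (527 / 100) (107 / 125) (33 / 32) 16) :
    Fb (rho n k a t) (sigma n k a t) (1 / k) (3 / 2) ≤ (149 / 200) := by
  have h0 := T_b_0 R
  have h1 := T_b_1 R
  have h2 := T_b_2 R
  have h3 := T_b_3 R
  have ht := tail_I R (by norm_num) (c := (429 / 1000)) (U := 30) (by norm_num) (by norm_num) (by norm_num)
    (by norm_num)
  norm_num at h0 h1 h2 h3 ht ⊢
  linarith

end Pool.Agent.SignedQ.Core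
end
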