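import Pool.Agent.Lib.MP_cf17a0_co.Mg.G036
import Pool.Agent.Lib.MP_cf17a0_co.Mg.G035
import Pool.Agent.Lib.MP_cf17a0_co.Mg.G033

section

/-! # Core region, inside: mean and variance of `f` at `e^(-t)` -/

namespace Pool.Agent.SignedQ.Core

open Polynomial Finset Pool.Agent.SignedQ.An


end Pool.Agent.SignedQ.Core
end

section

/-! # Core region, inside: the lower bound

Let `V = f (1 + q^L) ≥ 0`, `ρ = e^(-tL)`, `R = f(r)`, `μ` the mean, `σ² = sig2`, `u = σθ`.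
1. `(1 + ρ² + 2ρ cos(Lθ)) reR f t μ θ = reR V t μ θ + ρ reR V t (μ+L) θ`
   (`f(z) = V(z)/(1+z^L)`, `z^L = ρ e^(iLθ)`; multiply by the conjugate).
2. By `cos_tangent` termwise (`V ≥ 0`), for `0 < u ≤ π` and every real `c`:
   `reR V t c θ ≥ (cos u + u sin u / 2) V(r) - (sin u/(2u)) θ² M(V,c)`,
   `M(V,c) = ∑ V_j r^j (j-c)²`.
3. `V(r) = (1+ρ) R`, `M(V,c) = M(f,c) + ρ M(f,c-L)`, `M(f,c) = (σ² + (μ-c)²) R`, hence
   `M(V,μ) + ρ M(V,μ+L) = ((1+ρ)²σ² + 2ρL²) R`.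
4. So `(1+ρ²+2ρ cos(Lθ)) reR f ≥ (1+ρ)² R (cos u - P u sin u)`, `P = ρL²/((1+ρ)²σ²)`, and
   `ρ/(1+ρ)² = 1/(4cosh²(Lt/2))`, i.e. `P = (Lt/2)²/(cosh²(Lt/2) t²σ²)`; if the bracket is
   `≥ 0`, divide by `1+ρ²+2ρcos ≤ (1+ρ)²` (and `> 0`). -/

namespace Pool.Agent.SignedQ.Core

open Polynomial Finset Pool.Agent.SignedQ.An

theorem reR_split (f : ℚ[X]) (L : ℕ) (t μ θ : ℝ) :
    (1 + Real.exp (-(t * L)) ^ 2 + 2 * Real.exp (-(t * L)) * Real.cos (L * θ)) * reR f t μ θ =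
      reR (f * (1 + X ^ L)) t μ θ + Real.exp (-(t * L)) * reR (f * (1 + X ^ L)) t (μ + L) θ := by
  unfold reR
  rw [cev_mul]
  have hc : cev (1 + X ^ L : ℚ[X]) (pt t θ) =
      1 + (Real.exp (-(t * L)) : ℂ) * Complex.exp (((L : ℝ) * θ : ℝ) * Complex.I) := by
    rw [← pt_pow]
    unfold cev
    simp [Polynomial.eval₂_add, Polynomial.eval₂_pow]
  rw [hc]
  set ρ : ℝ := Real.exp (-(t * L)) with hρ
  set A : ℂ := cev f (pt t θ) with hA
  set E : ℂ := Complex.exp (-((μ * θ : ℝ) : ℂ) * Complex.I) with hE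
  set w : ℂ := Complex.exp (((L : ℝ) * θ : ℝ) * Complex.I) with hw
  set w' : ℂ := Complex.exp (-(((L : ℝ) * θ : ℝ) : ℂ) * Complex.I) with hw'
  have h1 : Complex.exp (-(((μ + L) * θ : ℝ) : ℂ) * Complex.I) = E * w' := by
    rw [hE, hw', ← Complex.exp_add]
    congr 1
    push_cast
    ring
  have h2 : w * w' = 1 := by
    rw [hw, hw', ← Complex.exp_add]
    have : (((L : ℝ) * θ : ℝ) : ℂ) * Complex.I + -(((L : ℝ) * θ : ℝ) : ℂ) * Complex.I = 0 := by ring
    rw [this, Complex.exp_zero]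
  have h3 : w + w' = 2 * (Real.cos (L * θ) : ℂ) := by
    rw [Complex.ofReal_cos, Complex.two_cos]
  rw [h1, ← Complex.re_ofReal_mul, ← Complex.re_ofReal_mul, ← Complex.add_re]
  congr 1
  have h4 : (1 + (ρ : ℂ) * w) * (1 + ρ * w') =
      ((1 + ρ ^ 2 + 2 * ρ * Real.cos (L * θ) : ℝ) : ℂ) := by
    have : (1 + (ρ : ℂ) * w) * (1 + ρ * w') = 1 + ρ ^ 2 * (w * w') + ρ * (w + w') := by ring
    rw [this, h2, h3]
    push_cast
    ring
  rw [← h4]
  ring

private theorem reR_eq_sum_lt {V : ℚ[X]} {N : ℕ} (hN : V.natDegree < N) (t c θ : ℝ) :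
    reR V t c θ = ∑ j ∈ Finset.range N,
      ((V.coeff j : ℝ) * Real.exp (-(t * j))) * Real.cos (((j : ℝ) - c) * θ) := by
  have h0 : cev V (pt t θ) = ∑ j ∈ Finset.range N, (V.coeff j : ℂ) * pt t θ ^ j := by
    unfold cev
    rw [Polynomial.eval₂_eq_sum_range' _ hN]
    rfl
  unfold reR
  rw [h0, Finset.sum_mul, Complex.re_sum]
  refine Finset.sum_congr rfl fun j _ => ?_
  rw [pt_pow]
  have h1 : (V.coeff j : ℂ) * ((Real.exp (-(t * j)) : ℂ) * Complex.exp ((j * θ : ℝ) * Complex.I)) *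
      Complex.exp (-((c * θ : ℝ) : ℂ) * Complex.I) =
      (((V.coeff j : ℝ) * Real.exp (-(t * j)) : ℝ) : ℂ) *
        Complex.exp (((((j : ℝ) - c) * θ : ℝ) : ℂ) * Complex.I) := by
    have : Complex.exp (((((j : ℝ) - c) * θ : ℝ) : ℂ) * Complex.I) =
        Complex.exp ((j * θ : ℝ) * Complex.I) * Complex.exp (-((c * θ : ℝ) : ℂ) * Complex.I) := by
      rw [← Complex.exp_add]
      congr 1
      push_cast
      ring
    rw [this]
    push_cast
    ring
  rw [h1, Complex.re_ofReal_mul, Complex.exp_ofReal_mul_I_re]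

theorem reR_tangent {V : ℚ[X]} (hV : ∀ i, 0 ≤ V.coeff i) {t c θ u : ℝ} (hu : 0 < u)
    (hu' : u ≤ Real.pi) {N : ℕ} (hN : V.natDegree < N) :
    (Real.cos u + u * Real.sin u / 2) * rev V (Real.exp (-t)) -
      Real.sin u / (2 * u) * θ ^ 2 *
        ∑ j ∈ Finset.range N, ((j : ℝ) - c) ^ 2 * ((V.coeff j : ℝ) * Real.exp (-(t * j))) ≤
      reR V t c θ := by
  rw [reR_eq_sum_lt hN]
  have hr : rev V (Real.exp (-t)) =
      ∑ j ∈ Finset.range N, (V.coeff j : ℝ) * Real.exp (-(t * j)) := by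
    unfold rev
    rw [Polynomial.eval₂_eq_sum_range' _ hN]
    refine Finset.sum_congr rfl fun j _ => ?_
    rw [← Real.exp_nat_mul]
    simp only [eq_ratCast]
    congr 2
    ring
  rw [hr, Finset.mul_sum, Finset.mul_sum, ← Finset.sum_sub_distrib]
  refine Finset.sum_le_sum fun j _ => ?_
  have h1 := cos_tangent (u := u) (x := ((j : ℝ) - c) * θ) hu hu'
  have h2 : 0 ≤ (V.coeff j : ℝ) * Real.exp (-(t * j)) :=
    mul_nonneg (by exact_mod_cast hV j) (Real.exp_pos _).le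
  have h3 := mul_le_mul_of_nonneg_left h1 h2
  refine le_trans (le_of_eq ?_) h3
  have : u ≠ 0 := hu.ne'
  field_simp
  ring

end Pool.Agent.SignedQ.Core
end

section

/-! # Core region, inside: the lower bound

Let `V = f (1 + q^L) ≥ 0`, `ρ = e^(-tL)`, `R = f(r)`, `μ` the mean, `σ² = sig2`, `u = σθ`.
1. `(1 + ρ² + 2ρ cos(Lθ)) reR f t μ θ = reR V t μ θ + ρ reR V t (μ+L) θ`
   (`f(z) = V(z)/(1+z^L)`, `z^L = ρ e^(iLθ)`; multiply by the conjugate).
2. By `cos_tangent` termwise (`V ≥ 0`), for `0 < u ≤ π` and every real `c`: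
   `reR V t c θ ≥ (cos u + u sin u / 2) V(r) - (sin u/(2u)) θ² M(V,c)`,
   `M(V,c) = ∑ V_j r^j (j-c)²`.
3. `V(r) = (1+ρ) R`, `M(V,c) = M(f,c) + ρ M(f,c-L)`, `M(f,c) = (σ² + (μ-c)²) R`, hence
   `M(V,μ) + ρ M(V,μ+L) = ((1+ρ)²σ² + 2ρL²) R`.
4. So `(1+ρ²+2ρ cos(Lθ)) reR f ≥ (1+ρ)² R (cos u - P u sin u)`, `P = ρL²/((1+ρ)²σ²)`, and
   `ρ/(1+ρ)² = 1/(4cosh²(Lt/2))`, i.e. `P = (Lt/2)²/(cosh²(Lt/2) t²σ²)`; if the bracket is
   `≥ 0`, divide by `1+ρ²+2ρcos ≤ (1+ρ)²` (and `> 0`). -/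

namespace Pool.Agent.SignedQ.Core

open Polynomial Finset Pool.Agent.SignedQ.An

/-- Second moments of `V`. -/
theorem second_V {n k a : ℕ} (ha : 1 ≤ a) {f : ℚ[X]} (hf : f * poch (-X : ℚ[X]) k = num n k a)
    {t : ℝ} (ht : 0 < t) (L : ℕ) {N : ℕ} (hN : (f * (1 + X ^ L)).natDegree < N) (c : ℝ) :
    ∑ j ∈ Finset.range N, ((j : ℝ) - c) ^ 2 *
        (((f * (1 + X ^ L)).coeff j : ℝ) * Real.exp (-(t * j))) =
      ((sig2 n k a t + (mu n k a f t - c) ^ 2) +
        Real.exp (-(t * L)) * (sig2 n k a t + (mu n k a f t + L - c) ^ 2)) *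
          rev f (Real.exp (-t)) := by
  have hdeg : f.natDegree + L < N ∨ (f = 0 ∧ 0 < N) := by
    by_cases h0 : f = 0
    · right
      exact ⟨h0, by omega⟩
    · left
      have e : (1 + X ^ L : ℚ[X]) = X ^ L + C 1 := by rw [C_1, add_comm]
      have h1 : (X ^ L + C (1 : ℚ)).natDegree = L := natDegree_X_pow_add_C
      have h2 : (1 + X ^ L : ℚ[X]) ≠ 0 := by
        rw [e]
        intro h
        have h3 := congrArg (Polynomial.eval 1) h
        simp at h3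
      rw [natDegree_mul h0 h2, e, h1] at hN
      exact hN
  rcases hdeg with hdeg | ⟨h0, _⟩
  swap
  · subst h0
    simp [rev]
  obtain ⟨M, rfl⟩ : ∃ M, N = L + M := ⟨N - L, by omega⟩
  have hM : f.natDegree < M := by omega
  have hc : ∀ j : ℕ, (((f * (1 + X ^ L)).coeff j : ℚ) : ℝ) =
      (f.coeff j : ℝ) + if L ≤ j then (f.coeff (j - L) : ℝ) else 0 := by
    intro j
    rw [mul_add, mul_one, coeff_add, coeff_mul_X_pow']
    push_cast
    split_ifs <;> simp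
  have hsplit : ∀ j : ℕ, ((j : ℝ) - c) ^ 2 *
      ((((f * (1 + X ^ L)).coeff j : ℚ) : ℝ) * Real.exp (-(t * j))) =
      ((j : ℝ) - c) ^ 2 * ((f.coeff j : ℝ) * Real.exp (-(t * j))) +
      ((j : ℝ) - c) ^ 2 * ((if L ≤ j then (f.coeff (j - L) : ℝ) else 0) *
        Real.exp (-(t * j))) := by
    intro j
    rw [hc]
    ring
  rw [Finset.sum_congr rfl fun j _ => hsplit j, Finset.sum_add_distrib,
    second_centred ha hf ht (N := L + M) (by omega) c]
  have h2 : ∑ j ∈ Finset.range (L + M), ((j : ℝ) - c) ^ 2 *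
      ((if L ≤ j then (f.coeff (j - L) : ℝ) else 0) * Real.exp (-(t * j))) =
      Real.exp (-(t * L)) * ∑ j ∈ Finset.range M, ((j : ℝ) - (c - L)) ^ 2 *
        ((f.coeff j : ℝ) * Real.exp (-(t * j))) := by
    rw [Finset.sum_range_add, Finset.mul_sum]
    have h3 : ∑ j ∈ Finset.range L, ((j : ℝ) - c) ^ 2 *
        ((if L ≤ j then (f.coeff (j - L) : ℝ) else 0) * Real.exp (-(t * j))) = 0 := by
      apply Finset.sum_eq_zero
      intro j hj
      rw [if_neg (by have := Finset.mem_range.1 hj; omega)]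
      ring
    rw [h3, zero_add]
    apply Finset.sum_congr rfl
    intro j _
    rw [if_pos (Nat.le_add_right L j), Nat.add_sub_cancel_left]
    have h4 : Real.exp (-(t * ((L + j : ℕ) : ℝ))) =
        Real.exp (-(t * L)) * Real.exp (-(t * j)) := by
      rw [← Real.exp_add]
      congr 1
      push_cast
      ring
    rw [h4]
    push_cast
    ring
  rw [h2, second_centred ha hf ht hM (c - L)]
  ring

/-- `P = (Lt/2)² / (cosh²(Lt/2) t² sig2)`. -/
noncomputable def PP (n k a L : ℕ) (t : ℝ) : ℝ :=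
  (L * t / 2) ^ 2 / (Real.cosh (L * t / 2) ^ 2 * (t ^ 2 * sig2 n k a t))

theorem inside_pt {n k a L : ℕ} (ha : 1 ≤ a) (hL : 1 ≤ L) {f : ℚ[X]}
    (hf : f * poch (-X : ℚ[X]) k = num n k a) (hV : ∀ i, 0 ≤ (f * (1 + X ^ L)).coeff i)
    {t θ : ℝ} (ht : 0 < t) (hs : 0 < sig2 n k a t) (hθ : 0 < θ)
    (hu : sigma n k a t * θ ≤ Real.pi)
    (hpos : 0 ≤ Real.cos (sigma n k a t * θ) -
      PP n k a L t * (sigma n k a t * θ) * Real.sin (sigma n k a t * θ)) :
    (Real.cos (sigma n k a t * θ) -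
      PP n k a L t * (sigma n k a t * θ) * Real.sin (sigma n k a t * θ)) *
        rev f (Real.exp (-t)) ≤ reR f t (mu n k a f t) θ := by
  set σ := sigma n k a t with hσd
  set V := f * (1 + X ^ L) with hVd
  set ρ := Real.exp (-(t * L)) with hρd
  set R := rev f (Real.exp (-t)) with hRd
  set m := mu n k a f t with hmd
  set u := σ * θ with hud
  set P := PP n k a L t with hPd
  have hσpos : 0 < σ := Real.sqrt_pos.2 hs
  have hσ2 : σ ^ 2 = sig2 n k a t := Real.sq_sqrt hs.le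
  have hupos : 0 < u := mul_pos hσpos hθ
  have hρpos : 0 < ρ := Real.exp_pos _
  have hρlt : ρ < 1 := by
    rw [hρd, Real.exp_lt_one_iff]
    have : (0 : ℝ) < L := by exact_mod_cast hL
    have := mul_pos ht this
    linarith
  have hN : V.natDegree < V.natDegree + 1 := Nat.lt_succ_self _
  -- the values
  have hVr : rev V (Real.exp (-t)) = (1 + ρ) * R := by
    rw [hVd, rev_mul, mul_comm]
    congr 1
    rw [hρd]
    unfold rev
    rw [Polynomial.eval₂_add, Polynomial.eval₂_one, Polynomial.eval₂_pow, Polynomial.eval₂_X,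
      ← Real.exp_nat_mul]
    congr 2
    ring
  have hM1 := second_V ha hf ht L hN m
  have hM2 := second_V ha hf ht L hN (m + L)
  have hT1 := reR_tangent hV (t := t) (c := m) (θ := θ) hupos hu hN
  have hT2 := reR_tangent hV (t := t) (c := m + L) (θ := θ) hupos hu hN
  have hS := reR_split f L t m θ
  rw [hM1] at hT1
  rw [hM2] at hT2
  rw [← hVd] at hS
  rw [hVr] at hT1 hT2
  rw [← hRd, ← hρd, ← hmd] at hT1 hT2
  rw [← hρd] at hS
  have hRpos : 0 ≤ R := by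
    have h1 : 0 ≤ rev V (Real.exp (-t)) := by
      rw [rev_eq_sum]
      exact Finset.sum_nonneg fun j _ => mul_nonneg (by exact_mod_cast hV j)
        (pow_nonneg (Real.exp_pos _).le _)
    rw [hVr] at h1
    exact nonneg_of_mul_nonneg_right h1 (by linarith)
  have hPval : P * ((1 + ρ) ^ 2 * σ ^ 2) = ρ * L ^ 2 := by
    have hc2 : Real.cosh (L * t / 2) ^ 2 * (4 * ρ) = (1 + ρ) ^ 2 := by
      have h1 : Real.exp (-(L * t / 2)) ^ 2 = ρ := by
        rw [← Real.exp_nat_mul, hρd]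
        congr 1
        push_cast
        ring
      have h2 : Real.exp (L * t / 2) * Real.exp (-(L * t / 2)) = 1 := by
        rw [← Real.exp_add]
        simp
      rw [Real.cosh_eq, ← h1]
      calc ((Real.exp (L * t / 2) + Real.exp (-(L * t / 2))) / 2) ^ 2 *
            (4 * Real.exp (-(L * t / 2)) ^ 2) =
            (Real.exp (L * t / 2) * Real.exp (-(L * t / 2)) +
              Real.exp (-(L * t / 2)) ^ 2) ^ 2 := by ring
        _ = (1 + Real.exp (-(L * t / 2)) ^ 2) ^ 2 := by rw [h2]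
    have hcpos : 0 < Real.cosh (L * t / 2) := Real.cosh_pos _
    rw [hPd, PP, ← hc2, ← hσ2]
    field_simp
    ring
  -- assembly
  have hkey : (1 + ρ) ^ 2 * R * (Real.cos u - P * u * Real.sin u) ≤
      (1 + ρ ^ 2 + 2 * ρ * Real.cos (L * θ)) * reR f t m θ := by
    rw [hS]
    have h1 := mul_le_mul_of_nonneg_left hT2 hρpos.le
    refine le_trans (le_of_eq ?_) (add_le_add hT1 h1)
    have hθu : θ ^ 2 * σ ^ 2 = u ^ 2 := by rw [hud]; ring
    have h2 : Real.sin u / (2 * u) * θ ^ 2 * σ ^ 2 = u * Real.sin u / 2 := by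
      rw [mul_assoc, hθu]
      field_simp
    have h3 : Real.sin u / (2 * u) * θ ^ 2 * (2 * ρ * L ^ 2) =
        P * (1 + ρ) ^ 2 * (u * Real.sin u) := by
      have : Real.sin u / (2 * u) * θ ^ 2 * (2 * ρ * L ^ 2) =
          2 * (Real.sin u / (2 * u) * θ ^ 2 * σ ^ 2) * (P * (1 + ρ) ^ 2) := by
        rw [show 2 * ρ * (L : ℝ) ^ 2 = 2 * (ρ * L ^ 2) by ring, ← hPval]
        ring
      rw [this, h2]
      ring
    rw [← hσ2]
    linear_combination (R * (1 + ρ) ^ 2) * h2 + R * h3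
  have hd1 : 1 + ρ ^ 2 + 2 * ρ * Real.cos (L * θ) ≤ (1 + ρ) ^ 2 := by
    have := Real.cos_le_one (L * θ)
    nlinarith
  have hd0 : 0 < 1 + ρ ^ 2 + 2 * ρ * Real.cos (L * θ) := by
    have := Real.neg_one_le_cos (L * θ)
    nlinarith [mul_pos (sub_pos.2 hρlt) (sub_pos.2 hρlt)]
  have hb : 0 ≤ (Real.cos u - P * u * Real.sin u) * R := mul_nonneg hpos hRpos
  have h5 : (1 + ρ ^ 2 + 2 * ρ * Real.cos (L * θ)) * ((Real.cos u - P * u * Real.sin u) * R) ≤
      (1 + ρ ^ 2 + 2 * ρ * Real.cos (L * θ)) * reR f t m θ := by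
    refine (mul_le_mul_of_nonneg_right hd1 hb).trans ?_
    refine le_trans (le_of_eq ?_) hkey
    ring
  exact le_of_mul_le_mul_left h5 hd0

/-- `x/cosh x ≤ x`, and `(x/cosh x)² ≤ 9/20` (`cosh x ≥ 1 + x²/2 + x⁴/24`). -/
theorem x_div_cosh {x : ℝ} (hx : 0 ≤ x) :
    x ^ 2 / Real.cosh x ^ 2 ≤ x ^ 2 ∧ x ^ 2 / Real.cosh x ^ 2 ≤ 9 / 20 := by
  have hc : 0 < Real.cosh x := Real.cosh_pos x
  constructor
  · apply div_le_self (sq_nonneg x)
    have := Real.one_le_cosh x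
    nlinarith
  · have h1 : 1 + x ^ 2 / 2 + x ^ 4 / 24 ≤ Real.cosh x := by
      have h := sum_le_hasSum (Finset.range 3) (fun n _ => by positivity) (Real.hasSum_cosh x)
      have e : ∑ n ∈ Finset.range 3, x ^ (2 * n) / ((2 * n).factorial : ℝ) =
          1 + x ^ 2 / 2 + x ^ 4 / 24 := by
        simp [Finset.sum_range_succ, Nat.factorial]
      rw [← e]
      exact h
    have h2 : 29 / 32 + 5 / 8 * x ^ 2 ≤ Real.cosh x := by
      nlinarith [sq_nonneg (x ^ 2 - 3 / 2)]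
    have h3 : (29 / 32 + 5 / 8 * x ^ 2) ^ 2 ≤ Real.cosh x ^ 2 := by
      apply pow_le_pow_left₀ (by positivity) h2
    rw [div_le_iff₀ (by positivity)]
    nlinarith [sq_nonneg (29 / 32 - 5 / 8 * x ^ 2), sq_nonneg x]

theorem PP_le {n k a L : ℕ} (hL : L ≤ k) {t V : ℝ} (ht : 0 < t) (hV : 0 < V)
    (hs : V ≤ t ^ 2 * sig2 n k a t) :
    PP n k a L t ≤ 9 / 20 / V ∧ PP n k a L t ≤ (k * t) ^ 2 / (4 * V) := by
  have hx : 0 ≤ (L : ℝ) * t / 2 := by positivity
  obtain ⟨h1, h2⟩ := x_div_cosh hx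
  have hc : 0 < Real.cosh (L * t / 2) := Real.cosh_pos _
  have hs0 : 0 < t ^ 2 * sig2 n k a t := hV.trans_le hs
  have e : PP n k a L t = ((L * t / 2) ^ 2 / Real.cosh (L * t / 2) ^ 2) /
      (t ^ 2 * sig2 n k a t) := by
    unfold PP
    rw [div_div]
  have h0 : 0 ≤ (L * t / 2) ^ 2 / Real.cosh (L * t / 2) ^ 2 := by positivity
  have h3 : PP n k a L t ≤ ((L * t / 2) ^ 2 / Real.cosh (L * t / 2) ^ 2) / V := by
    rw [e]
    exact div_le_div_of_nonneg_left h0 hV hs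
  refine ⟨h3.trans (div_le_div_of_nonneg_right h2 hV.le), h3.trans ?_⟩
  have h4 : ((L * t / 2) ^ 2 / Real.cosh (L * t / 2) ^ 2) / V ≤ (L * t / 2) ^ 2 / V :=
    div_le_div_of_nonneg_right h1 hV.le
  refine h4.trans ?_
  have hLk : (L : ℝ) ≤ k := by exact_mod_cast hL
  have h5 : (L * t / 2) ^ 2 ≤ (k * t / 2) ^ 2 := by
    apply pow_le_pow_left₀ hx
    have := mul_le_mul_of_nonneg_right hLk ht.le
    linarith
  calc (L * t / 2) ^ 2 / V ≤ (k * t / 2) ^ 2 / V := div_le_div_of_nonneg_right h5 hV.le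
    _ = (k * t) ^ 2 / (4 * V) := by
        field_simp
        ring

end Pool.Agent.SignedQ.Core
end

section

/-! # Core region, `k t ≥ 2/3`: one pair

`θ = z t`, `x_i = cc i * (t/2)`, `c_i y = x_i z` where `y = θ/2 = z t/2`. -/

namespace Pool.Agent.SignedQ.Core

open Real Finset Pool.Agent.SignedQ.An

/-- The reciprocal factor `(1 + (sin(xz)/x)² S)⁻¹` if `x z ≤ 2`, else `1`. -/
noncomputable def qf (n a : ℕ) (t z : ℝ) (i : ℕ) : ℝ :=
  if cc i * (t / 2) * z ≤ 2 then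
    (1 + (sin (cc i * (t / 2) * z) / (cc i * (t / 2))) ^ 2 * Sd n a t i)⁻¹ else 1

/-- The loss of a pair beyond `π`. -/
noncomputable def pl (n a : ℕ) (t z : ℝ) (i : ℕ) : ℝ :=
  if π < bb n a i * (z * t / 2) then 1 / sinh (bb n a i * (t / 2)) ^ 2 else 0

theorem qf_nonneg {n a i : ℕ} (ha : 3 ≤ a) (hi : 1 ≤ i) {t z : ℝ} (ht : 0 < t) :
    0 ≤ qf n a t z i ∧ qf n a t z i ≤ 1 := by
  have hS := Sd_nonneg (n := n) ha hi ht
  unfold qf
  split_ifs with h
  · have h1 : 0 ≤ (sin (cc i * (t / 2) * z) / (cc i * (t / 2))) ^ 2 * Sd n a t i := by positivity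
    exact ⟨by positivity, inv_le_one_of_one_le₀ (by linarith)⟩
  · exact ⟨zero_le_one, le_rfl⟩

private theorem NN_le_WW_bb {n a : ℕ} (ha : 1 ≤ a) {t θ : ℝ} (ht : 0 < t) {i : ℕ} (hi : 1 ≤ i) :
    NN n a t θ i ≤ WW t θ (bb n a i) := by
  have ha' : (1 : ℝ) ≤ a := by exact_mod_cast ha
  have hi' : (1 : ℝ) ≤ i := by exact_mod_cast hi
  have hn : (0 : ℝ) ≤ (nu n : ℝ) := Nat.cast_nonneg _
  unfold NN
  by_cases h : n % 2 = 1 ∧ i = 1
  · rw [if_pos h]
  · rw [if_neg h]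
    have hb : 0 < (a : ℝ) * (nu n + 2 * i - 1) := by
      have : 0 < (nu n : ℝ) + 2 * i - 1 := by linarith
      positivity
    have e : dd n a i = 2 * (a * (nu n + 2 * i - 1)) := by
      unfold dd
      rw [if_neg h]
    have h2 := WW_double_le (θ := θ) ht hb
    rw [← e] at h2
    rw [div_le_iff₀ (WW_pos _ _ _), mul_comm]
    exact mul_le_mul_of_nonneg_left h2 (WW_pos _ _ _).le

/-- Cases. (1) `b_i y ≤ π`, `x_i z ≤ 2`: `NN_i ≤ W_{d_i}` (`NN_le_dd`), `cc_le_dd` and `pair_M`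
(`h = t/2`, `y = z t/2`, `(sf (c h) - sf (d h))/h² · sin²(cy)/c² = (sin(xz)/x)² S_i`, `x = ch`).
(2) `b_i y ≤ π`, `x_i z > 2`: `NN_i ≤ W_{b_i}` (`NN_i = W_{2b'} W_{b_i}/W_{b'}`, `WW_double_le`, or
`NN_i = W_{b_i}`) and `W_{b_i} ≤ W_{c_i}` (`FF_anti`, `c_i ≤ b_i`: `4i+2 ≤ 3·2i`).
(3) `b_i y > π`: `NN_i ≤ 1 + 1/sinh²(b_i h) ≤ exp(...)` (`NN_le_sinh`), and for `x_i z ≤ 2`
`W_{c_i} = 1 + sin²(c_i y)/sinh²(c_i h) = 1 + (sin(xz)/x)² sf(x) ≥ 1 + (sin(xz)/x)² S_i`; else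
`W_{c_i} ≥ 1`. -/
theorem pair_II {n a i : ℕ} (ha : 3 ≤ a) (hi : 1 ≤ i) {t z : ℝ} (ht : 0 < t) (hz : 0 < z) :
    NN n a t (z * t) i / WW t (z * t) (cc i) ≤ exp (pl n a t z i) * qf n a t z i := by
  have ha' : (3 : ℝ) ≤ a := by exact_mod_cast ha
  have hi' : (1 : ℝ) ≤ i := by exact_mod_cast hi
  have hn : (0 : ℝ) ≤ (nu n : ℝ) := Nat.cast_nonneg _
  have hzt : 0 < z * t := by positivity
  have hc : 0 < cc i := by
    unfold cc
    positivity
  have hcd : cc i ≤ dd n a i := cc_le_dd ha hi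
  have hd : 0 < dd n a i := hc.trans_le hcd
  have hcb : cc i ≤ bb n a i := by
    unfold cc bb
    have h1 : 3 * ((nu n : ℝ) + 2 * i) ≤ a * ((nu n : ℝ) + 2 * i) :=
      mul_le_mul_of_nonneg_right ha' (by positivity)
    linarith
  have hS := Sd_nonneg (n := n) ha hi ht
  have hx : 0 < cc i * (t / 2) := by positivity
  have harg : cc i * (z * t / 2) = cc i * (t / 2) * z := by ring
  by_cases hpi : bb n a i * (z * t / 2) ≤ π
  · have hpl : pl n a t z i = 0 := by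
      unfold pl
      rw [if_neg (not_lt.2 hpi)]
    rw [hpl, exp_zero, one_mul, div_le_iff₀ (WW_pos _ _ _)]
    by_cases h2 : cc i * (t / 2) * z ≤ 2
    · have hNN := NN_le_dd (n := n) (a := a) (by omega) ht hzt.le hi hpi
      have hpm := pair_M (c := cc i) (d := dd n a i) (h := t / 2) (y := z * t / 2) hc hcd
        (half_pos ht) (by positivity) (by rw [harg]; exact h2)
      have e : (sf (cc i * (t / 2)) - sf (dd n a i * (t / 2))) / (t / 2) ^ 2 *
          (sin (cc i * (z * t / 2)) ^ 2 / cc i ^ 2) =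
          (sin (cc i * (t / 2) * z) / (cc i * (t / 2))) ^ 2 * Sd n a t i := by
        rw [harg]
        unfold Sd
        field_simp
      rw [e] at hpm
      unfold qf
      rw [if_pos h2]
      have h1 : 0 < 1 + (sin (cc i * (t / 2) * z) / (cc i * (t / 2))) ^ 2 * Sd n a t i := by
        positivity
      rw [inv_mul_eq_div, le_div_iff₀ h1]
      refine le_trans (mul_le_mul_of_nonneg_right hNN h1.le) ?_
      exact hpm
    · unfold qf
      rw [if_neg h2, one_mul]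
      refine (NN_le_WW_bb (n := n) (a := a) (by omega) ht hi).trans ?_
      unfold WW
      have := FF_anti (h := t / 2) (y := z * t / 2) hc hcb (half_pos ht) (by positivity) hpi
      linarith
  · have hpl : pl n a t z i = 1 / sinh (bb n a i * (t / 2)) ^ 2 := by
      unfold pl
      rw [if_pos (not_le.1 hpi)]
    rw [hpl]
    have h1 := NN_le_sinh (n := n) (a := a) (θ := z * t) (by omega) ht hi
    have h2 : 1 + 1 / sinh (bb n a i * (t / 2)) ^ 2 ≤
        exp (1 / sinh (bb n a i * (t / 2)) ^ 2) := by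
      have := add_one_le_exp (1 / sinh (bb n a i * (t / 2)) ^ 2)
      linarith
    have h3 : (WW t (z * t) (cc i))⁻¹ ≤ qf n a t z i := by
      unfold qf
      split_ifs with h
      · refine inv_anti₀ (by positivity) ?_
        have e : WW t (z * t) (cc i) =
            1 + (sin (cc i * (t / 2) * z) / (cc i * (t / 2))) ^ 2 * sf (cc i * (t / 2)) := by
          unfold WW FF sf
          rw [harg]
          have hs : sinh (cc i * (t / 2)) ≠ 0 := (sinh_pos_iff.2 hx).ne'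
          field_simp
        rw [e]
        have h4 : Sd n a t i ≤ sf (cc i * (t / 2)) := by
          unfold Sd
          have := sf_pos (x := dd n a i * (t / 2)) (by positivity)
          linarith
        have := mul_le_mul_of_nonneg_left h4
          (sq_nonneg (sin (cc i * (t / 2) * z) / (cc i * (t / 2))))
        linarith
      · exact inv_le_one_of_one_le₀ (WW_one_le _ _ _)
    rw [div_eq_mul_inv]
    exact mul_le_mul (h1.trans h2) h3 (inv_nonneg.2 (WW_pos _ _ _).le) (exp_pos _).le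

end Pool.Agent.SignedQ.Core
end
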