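import Pool.Agent.Lib.MP_cf17a0_co.S1.AsmA
import Pool.Agent.Lib.MP_cf17a0_co.S1.C.M1d
import Pool.Agent.Lib.MP_cf17a0_co.Mg.G032
import Pool.Agent.Lib.MP_cf17a0_co.Mg.G033
import Pool.Agent.Lib.MP_cf17a0_co.S1.C.C3

section

/-! # Core region, `k t ≥ 2/3`: the interface between the blocks -/

namespace Pool.Agent.SignedQ.Core

open Real Finset Pool.Agent.SignedQ.An

/-- Data for zone 1 (`0 < θ ≤ t/2`), `V = t² σ²`. -/
structure BData (n k a : ℕ) (t Vm E C : ℝ) : Prop where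
  hnk : Even (n * k)
  ha : Odd a
  ha3 : 3 ≤ a
  hk : 26 ≤ k
  ht : 0 < t
  ht' : t ≤ 31 / 2000
  hVm : Vm ≤ t ^ 2 * sig2 n k a t
  hV : t ^ 2 * sig2 n k a t ≤ SS n k a t + E
  hJ : JJ n k a t ≤ C * SS n k a t
  hL : 5 + 1 / (3 * t) ≤ 48 / 5 * SS n k a t

/-- Data for zone 2 (`t/2 ≤ θ ≤ 3t/2`) at the cut `x_i ≤ X`: `v, w, err` the lower bound of the
weighted partial sums, `τ, σX` the upper bound of `∑_{x_i > X} S_i`. -/
structure SData (n k a : ℕ) (t X v w err τ σX : ℝ) : Prop where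
  hQ : ∀ lam mu : ℝ, 0 ≤ mu → mu * X ^ 2 ≤ lam →
    (lam * v - mu * w) / (2 * t) - err * lam ≤ QS n k a t lam mu X
  hV : t ^ 2 * sig2 n k a t ≤ QS n k a t 1 0 X + τ / (2 * t) + σX + 101 / 50

/-- The standing hypotheses for `k t ≥ 1`. -/
structure Hi (n k a : ℕ) (t : ℝ) : Prop where
  hp : Par n k a
  hd : DOM k t
  h1 : 1 ≤ k * t

/-! ## The statements of the blocks

Block Z1 (zone 1 integrated, `Fb (rho n k a t) (sigma n k a t) (t/2) (3/2) ≤ T`). -/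

def T1P (Vm E C T : ℝ) : Prop := ∀ (n k a : ℕ) (t : ℝ), BData n k a t Vm E C →
  Fb (rho n k a t) (sigma n k a t) (t / 2) (3 / 2) ≤ T

/-- Block Z1. -/
def BlockZ1 : Prop :=
  T1P 12 (129 / 100) (129 / 125) (298 / 1000) ∧ T1P 16 (101 / 50) 4 (4425 / 10000) ∧
  T1P 31 (101 / 50) 4 (346 / 1000) ∧
  (∀ (n k a : ℕ) (t Vm E C θ : ℝ), BData n k a t Vm E C → 12 ≤ Vm → E ≤ 101 / 50 → C ≤ 4 →
    0 < θ → θ ≤ t / 2 → rho n k a t θ ≤ 1) ∧
  (∀ (n k a : ℕ) (t θ : ℝ), BData n k a t 31 (101 / 50) 4 → θ ≤ t / 2 →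
    1 ≤ sigma n k a t * θ → rho n k a t θ ≤ 65 / 100)

/-- Block SUM: the partial sums for `k t ≥ 1`. `X ≤ (k+1) t`. -/
def BlockSUM : Prop := ∀ (n k a : ℕ) (t : ℝ), Hi n k a t →
  SData n k a t 1 (372 / 1000) (188 / 1000) (2001 / 1000) (7443 / 10000) (7242 / 10000) ∧
  (k < 200 → SData n k a t 1 (5715 / 10000) (251 / 1000) (2101 / 1000) (7443 / 10000)
    (7242 / 10000)) ∧
  (5 / 4 ≤ (k + 1) * t →
    SData n k a t (5 / 4) (524 / 1000) (3815 / 10000) (2001 / 1000) (5776 / 10000) (609 / 1000)) ∧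
  (3 / 2 ≤ (k + 1) * t →
    SData n k a t (3 / 2) (657 / 1000) (633 / 1000) (2001 / 1000) (4395 / 10000)
      (4964 / 10000)) ∧
  (2 ≤ (k + 1) * t →
    SData n k a t 2 (853 / 1000) (12235 / 10000) (2001 / 1000) (2417 / 10000) (3042 / 10000)) ∧
  (3 ≤ (k + 1) * t → (10323 / 10000) / (2 * t) - 2001 / 1000 ≤ SS n k a t) ∧
  JJ n k a t ≤ 4 * SS n k a t ∧
  t ^ 2 * sig2 n k a t ≤ SS n k a t + 101 / 50

/-- Zone 2 integrated. -/
def T2P (n k a : ℕ) (t T : ℝ) : Prop :=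
  sigma n k a t * ∫ θ in (t / 2)..(3 / 2 * t), rho n k a t θ ≤ T

/-- Block Z2 (zone 2 for `k t ≥ 1`, from the data). -/
def BlockZ2 : Prop :=
  (∀ (n k a : ℕ) (t : ℝ), Hi n k a t →
    SData n k a t 1 (5715 / 10000) (251 / 1000) (2101 / 1000) (7443 / 10000) (7242 / 10000) →
    T2P n k a t (27 / 100)) ∧
  (∀ (n k a : ℕ) (t : ℝ), Hi n k a t → 100 * t ≤ 1 →
    SData n k a t 1 (372 / 1000) (188 / 1000) (2001 / 1000) (7443 / 10000) (7242 / 10000) →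
    T2P n k a t (27 / 100)) ∧
  (∀ (n k a : ℕ) (t : ℝ), Hi n k a t → 250 * t ≤ 1 →
    SData n k a t 1 (372 / 1000) (188 / 1000) (2001 / 1000) (7443 / 10000) (7242 / 10000) →
    T2P n k a t (2 / 100)) ∧
  (∀ (n k a : ℕ) (t : ℝ), Hi n k a t →
    SData n k a t 1 (372 / 1000) (188 / 1000) (2001 / 1000) (7443 / 10000) (7242 / 10000) →
    SData n k a t (5 / 4) (524 / 1000) (3815 / 10000) (2001 / 1000) (5776 / 10000) (609 / 1000) →
    SData n k a t (3 / 2) (657 / 1000) (633 / 1000) (2001 / 1000) (4395 / 10000)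
      (4964 / 10000) →
    SData n k a t 2 (853 / 1000) (12235 / 10000) (2001 / 1000) (2417 / 10000) (3042 / 10000) →
    T2P n k a t (178 / 1000))

/-- Block R2: region II, `2/3 ≤ k t ≤ 1` (so `k ≥ 52`). -/
def BlockR2 : Prop := ∀ (n k a : ℕ) (t : ℝ), Par n k a → DOM k t → 2 / 3 ≤ k * t → k * t ≤ 1 →
  52 ≤ k ∧ BData n k a t 12 (129 / 100) (129 / 125) ∧ T2P n k a t (404 / 1000) ∧
  (200 ≤ k → T2P n k a t (179 / 1000))

end Pool.Agent.SignedQ.Core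
end

section

/-! # Core region, zone 2: integration over bins (helper37)

`bin_int`: for `z₀ ≤ z₁` and `rho ≤ g` on `[z₀ t, z₁ t]`: `σ ∫ ≤ √V (z₁ - z₀) g`, `V = t² σ²`. -/

namespace Pool.Agent.SignedQ.Core

open Real Finset MeasureTheory intervalIntegral Pool.Agent.SignedQ.An

theorem sigma_mul_t (n k a : ℕ) {t : ℝ} (ht : 0 < t) :
    sigma n k a t * t = sqrt (t ^ 2 * sig2 n k a t) := by
  unfold sigma
  rw [Real.sqrt_mul (sq_nonneg t), Real.sqrt_sq ht.le, mul_comm]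

/-- The bound of the integral over one bin. -/
theorem bin_int {n k a : ℕ} (ha : 1 ≤ a) {t z₀ z₁ g : ℝ} (ht : 0 < t) (h01 : z₀ ≤ z₁)
    (hg : ∀ z, z₀ ≤ z → z ≤ z₁ → rho n k a t (z * t) ≤ g) :
    sigma n k a t * ∫ θ in (z₀ * t)..(z₁ * t), rho n k a t θ ≤
      sqrt (t ^ 2 * sig2 n k a t) * ((z₁ - z₀) * g) := by
  have h01' : z₀ * t ≤ z₁ * t := mul_le_mul_of_nonneg_right h01 ht.le
  have hc := rho_continuous (n := n) (k := k) ha ht
  have h1 : ∫ θ in (z₀ * t)..(z₁ * t), rho n k a t θ ≤ ∫ _θ in (z₀ * t)..(z₁ * t), g := by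
    refine integral_mono_on h01' (hc.intervalIntegrable _ _)
      (continuous_const.intervalIntegrable _ _) fun θ hθ => ?_
    have h2 := hg (θ / t) ((le_div_iff₀ ht).2 hθ.1) ((div_le_iff₀ ht).2 hθ.2)
    rwa [div_mul_cancel₀ _ ht.ne'] at h2
  rw [intervalIntegral.integral_const, smul_eq_mul] at h1
  have hs : 0 ≤ sigma n k a t := Real.sqrt_nonneg _
  refine (mul_le_mul_of_nonneg_left h1 hs).trans (le_of_eq ?_)
  rw [← sigma_mul_t n k a ht]
  ring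

/-- Adding bins. -/
theorem bin_add {n k a : ℕ} (ha : 1 ≤ a) {t : ℝ} (ht : 0 < t) (z₀ z₁ z₂ : ℝ) :
    sigma n k a t * ∫ θ in (z₀ * t)..(z₂ * t), rho n k a t θ =
      sigma n k a t * (∫ θ in (z₀ * t)..(z₁ * t), rho n k a t θ) +
        sigma n k a t * ∫ θ in (z₁ * t)..(z₂ * t), rho n k a t θ := by
  have hc := rho_continuous (n := n) (k := k) ha ht
  rw [← mul_add, integral_add_adjacent_intervals (hc.intervalIntegrable _ _)
    (hc.intervalIntegrable _ _)]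

/-- The same bound with `V ≤ W` and `W g² ≤ h²`. -/
theorem bin_int' {n k a : ℕ} (ha : 1 ≤ a) {t z₀ z₁ g W h : ℝ} (ht : 0 < t) (h01 : z₀ ≤ z₁)
    (hW : t ^ 2 * sig2 n k a t ≤ W) (hg0 : 0 ≤ g) (hh : 0 ≤ h) (hWg : W * g ^ 2 ≤ h ^ 2)
    (hg : ∀ z, z₀ ≤ z → z ≤ z₁ → rho n k a t (z * t) ≤ g) :
    sigma n k a t * ∫ θ in (z₀ * t)..(z₁ * t), rho n k a t θ ≤ (z₁ - z₀) * h := by
  refine (bin_int ha ht h01 hg).trans ?_
  have h1 : sqrt (t ^ 2 * sig2 n k a t) * g ≤ h := by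
    have h2 : sqrt (t ^ 2 * sig2 n k a t) ≤ sqrt W := Real.sqrt_le_sqrt hW
    refine (mul_le_mul_of_nonneg_right h2 hg0).trans ?_
    rw [← Real.sqrt_sq hg0, ← Real.sqrt_mul' _ (sq_nonneg g)]
    exact (Real.sqrt_le_sqrt hWg).trans (by rw [Real.sqrt_sq hh])
  calc sqrt (t ^ 2 * sig2 n k a t) * ((z₁ - z₀) * g)
      = (z₁ - z₀) * (sqrt (t ^ 2 * sig2 n k a t) * g) := by ring
    _ ≤ (z₁ - z₀) * h := mul_le_mul_of_nonneg_left h1 (by linarith)

theorem rho_le_exp {n k a : ℕ} {t θ A : ℝ} (h : GG n k a t θ / GG n k a t 0 ≤ exp A) :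
    rho n k a t θ ≤ exp (A / 2) := by
  unfold rho
  refine (Real.sqrt_le_sqrt h).trans (le_of_eq ?_)
  rw [show exp A = exp (A / 2) ^ 2 by rw [← exp_nat_mul]; congr 1; push_cast; ring,
    Real.sqrt_sq (exp_pos _).le]

/-- `(S + e) exp (-S r)` is decreasing for `r (S₀ + e) ≥ 1`. -/
theorem dec_exp {S S₀ e r : ℝ} (hS : S₀ ≤ S) (he : 0 < S₀ + e) (hr : 1 ≤ r * (S₀ + e)) :
    (S + e) * exp (-(S * r)) ≤ (S₀ + e) * exp (-(S₀ * r)) := by
  have h1 : (S + e) / (S₀ + e) ≤ exp ((S - S₀) * r) := by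
    have h2 := add_one_le_exp ((S - S₀) * r)
    refine le_trans ?_ h2
    rw [div_le_iff₀ he]
    nlinarith [mul_nonneg (sub_nonneg.2 hS) (sub_nonneg.2 hr)]
  rw [div_le_iff₀ he] at h1
  calc (S + e) * exp (-(S * r)) ≤ exp ((S - S₀) * r) * (S₀ + e) * exp (-(S * r)) :=
        mul_le_mul_of_nonneg_right h1 (exp_pos _).le
    _ = (S₀ + e) * (exp ((S - S₀) * r) * exp (-(S * r))) := by ring
    _ = _ := by
        rw [← exp_add]
        congr 2
        ring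

/-- If all `x_i ≤ X` the weighted sum is complete. -/
theorem QS_full {n k a : ℕ} {t X : ℝ} (hX : ∀ i ∈ Icc 1 (k / 2), cc i * (t / 2) ≤ X)
    (lam mu : ℝ) : QS n k a t lam mu X = lam * SS n k a t - mu * JJ n k a t := by
  unfold QS SS JJ
  rw [mul_sum, mul_sum, ← sum_sub_distrib]
  refine sum_congr rfl fun i hi => ?_
  rw [if_pos (hX i hi)]
  ring

/-- One bin of region II. -/
theorem bin_R2 {n k a : ℕ} (hnk : Even (n * k)) (ha : Odd a) (ha3 : 3 ≤ a) (hk : 2 ≤ k)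
    {t S₀ f : ℝ} (ht : 0 < t) (ht' : t ≤ 31 / 2000)
    (hX : ∀ i ∈ Icc 1 (k / 2), cc i * (t / 2) ≤ 2031 / 2000)
    (hJ : JJ n k a t ≤ 129 / 125 * SS n k a t)
    (hS : S₀ ≤ SS n k a t) (hS0 : 0 ≤ S₀)
    (hV : t ^ 2 * sig2 n k a t ≤ SS n k a t + 129 / 100)
    (hf : 5 + 1 / (3 * t) ≤ f * SS n k a t)
    {z₀ z₁ lam E r h : ℝ} (hz0 : 0 < z₀) (h01 : z₀ ≤ z₁) (hz1 : z₁ ≤ 3 / 2)
    (hc : z₀ ^ 2 ≤ 4 / 5 * (1 + z₀ ^ 2) * (1 - (2031 / 2000 * z₀) ^ 2 / 14))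
    (hlam : lam ≤ log (1 + z₀ ^ 2)) (hE1 : 1 < E) (hE : E ≤ exp (6 / z₁ - 93 / 2000))
    (hr : r ≤ lam - 129 / 125 * (z₀ ^ 4 / (3 * (1 + z₀ ^ 2))) - f * (2 / (E - 1)))
    (hr1 : 1 ≤ r * (S₀ + 129 / 100)) (hh : 0 ≤ h)
    (hnum : (S₀ + 129 / 100) * exp (-(S₀ * r)) ≤ h ^ 2) :
    sigma n k a t * ∫ θ in (z₀ * t)..(z₁ * t), rho n k a t θ ≤ (z₁ - z₀) * h := by
  set S := SS n k a t with hSdef
  have hS0' : 0 ≤ S := hS0.trans hS
  have hmu : 0 ≤ z₀ ^ 4 / (3 * (1 + z₀ ^ 2)) := by positivity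
  have hpt : ∀ z, z₀ ≤ z → z ≤ z₁ → rho n k a t (z * t) ≤ exp (-(S * r) / 2) := by
    intro z hz hz'
    refine rho_le_exp ?_
    have hpi := Real.pi_gt_d2
    have h1 := zone2 hnk ha ha3 hk ht ht' hz0 hz hz' hz1 (X := 2031 / 2000) (by norm_num)
      (by linarith) (by norm_num at hpi; nlinarith) hc hlam
    refine h1.trans (exp_le_exp.2 ?_)
    have h2 := LB_le ht ht' hE1 hE
    have h3 : 0 ≤ 2 / (E - 1) := div_nonneg (by norm_num) (by linarith)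
    have h4 := mul_le_mul_of_nonneg_left hf h3
    rw [QS_full hX]
    have h5 := mul_le_mul_of_nonneg_left hJ hmu
    have h6 := mul_le_mul_of_nonneg_right hr hS0'
    nlinarith
  refine bin_int' (by omega) ht h01 hV (exp_pos _).le hh ?_ hpt
  have e : exp (-(S * r) / 2) ^ 2 = exp (-(S * r)) := by
    rw [← exp_nat_mul]
    congr 1
    push_cast
    ring
  rw [e]
  exact (dec_exp hS (by linarith) hr1).trans hnum

end Pool.Agent.SignedQ.Core
end

section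

/-! # Core region II (`2/3 ≤ k t ≤ 1`): lower bounds of `SS`, and `JJ`, `V` (helper37) -/

namespace Pool.Agent.SignedQ.Core

open Real Finset Pool.Agent.SignedQ.An

/-- `a (n+k) ≥ c k` gives `a (n+k-2) ≥ α k`, if `α k₀ ≤ c (k₀ - 2)`, `k ≥ k₀`. -/
theorem alpha_le {n k a k₀ c : ℕ} {α : ℝ} (hk0 : 2 ≤ k₀) (hk : k₀ ≤ k)
    (hc : c * k ≤ a * (n + k)) (hα : α * k₀ ≤ c * (k₀ - 2)) :
    α * k ≤ a * (n + k - 2) := by
  have hk0' : (2 : ℝ) ≤ k₀ := by exact_mod_cast hk0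
  have hk' : (k₀ : ℝ) ≤ k := by exact_mod_cast hk
  have hc' : (c : ℝ) * k ≤ a * (n + k) := by exact_mod_cast hc
  have hn : (0 : ℝ) ≤ n := Nat.cast_nonneg n
  have ha : (0 : ℝ) ≤ a := Nat.cast_nonneg a
  have hcn : (0 : ℝ) ≤ c := Nat.cast_nonneg c
  have hkp : (0 : ℝ) < k := by linarith
  -- `a (n+k-2) k ≥ a (n+k)(k-2) ≥ c k (k-2)`
  have h1 : (c : ℝ) * (k - 2) ≤ a * (n + k - 2) := by
    have h2 : (c : ℝ) * k * (k - 2) ≤ a * (n + k) * (k - 2) :=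
      mul_le_mul_of_nonneg_right hc' (by linarith)
    have h3 : (a : ℝ) * (n + k) * (k - 2) ≤ a * (n + k - 2) * k := by
      have : (a : ℝ) * (n + k - 2) * k - a * (n + k) * (k - 2) = 2 * (a * n) := by ring
      have h4 := mul_nonneg ha hn
      linarith
    have h5 : (c : ℝ) * (k - 2) * k ≤ a * (n + k - 2) * k := by
      calc (c : ℝ) * (k - 2) * k = c * k * (k - 2) := by ring
        _ ≤ _ := h2.trans h3
    exact le_of_mul_le_mul_right h5 hkp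
  refine le_trans ?_ h1
  -- `α k ≤ c (k - 2)`
  have h6 : 0 ≤ (c - α) * k₀ := by nlinarith
  have h7 : 0 ≤ (c : ℝ) - α := by
    by_contra hneg
    have := mul_neg_of_neg_of_pos (not_le.1 hneg) (show (0 : ℝ) < k₀ by linarith)
    linarith
  nlinarith [mul_nonneg h7 (sub_nonneg.2 hk')]

/-- `SS ≥ m P`, if the polynomial inequality `hm` holds at `τ = (k t)²`. -/
theorem SS_ge_m {n k a P₀ : ℕ} {t α κ m : ℝ} (hnk : Even (n * k)) (ha : 3 ≤ a) (hk : 4 ≤ k)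
    (ht : 0 < t) (hα : 0 < α) (hαX : α * k ≤ a * (n + k - 2)) (hP0 : 1 ≤ P₀) (hP : P₀ ≤ k / 2)
    (hκ : 1 + 3 / (P₀ : ℝ) + 11 / (4 * (P₀ : ℝ) ^ 2) ≤ κ)
    (hm : 9 * m * (5 + α ^ 2 * (k * t) ^ 2) ≤
      5 * (α ^ 2 * (k * t) ^ 2) - κ * (k * t) ^ 2 * (5 + α ^ 2 * (k * t) ^ 2)) :
    m * (k / 2 : ℕ) ≤ SS n k a t := by
  have h := SS_ge (n := n) (k := k) (a := a) ha hk ht
  have hX := XX_ge hnk hk (a := a) ht
  have hk' : (4 : ℝ) ≤ k := by exact_mod_cast hk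
  have hP' : (P₀ : ℝ) ≤ ((k / 2 : ℕ) : ℝ) := by exact_mod_cast hP
  have hP0' : (1 : ℝ) ≤ P₀ := by exact_mod_cast hP0
  set P : ℝ := ((k / 2 : ℕ) : ℝ) with hPdef
  have hP1 : 1 ≤ P := hP0'.trans hP'
  set τ := ((k : ℝ) * t) ^ 2 with hτ
  have hτ0 : 0 < τ := by rw [hτ]; positivity
  have hXX : α * (k * t) ≤ XX n k a t := by
    refine le_trans ?_ hX
    calc α * (k * t) = (α * k) * t := by ring
      _ ≤ _ := mul_le_mul_of_nonneg_right hαX ht.le
  have hx : α ^ 2 * τ ≤ (2 * P + 1) / (2 * P - 1) * XX n k a t ^ 2 := by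
    have h1 : α ^ 2 * τ ≤ XX n k a t ^ 2 := by
      rw [hτ, ← mul_pow]
      exact pow_le_pow_left₀ (by positivity) hXX 2
    have h2 : 1 ≤ (2 * P + 1) / (2 * P - 1) := by
      rw [le_div_iff₀ (by linarith)]
      linarith
    have h3 : 0 ≤ XX n k a t ^ 2 := sq_nonneg _
    nlinarith
  set Y := (2 * P + 1) / (2 * P - 1) * XX n k a t ^ 2 with hY
  have hx0 : 0 < α ^ 2 * τ := by positivity
  have hYx : (α ^ 2 * τ) / (5 + α ^ 2 * τ) ≤ Y / (5 + Y) := by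
    rw [div_le_div_iff₀ (by linarith) (by linarith)]
    nlinarith
  have hκP : 1 + 3 / P + 11 / (4 * P ^ 2) ≤ κ := by
    have h1 : 3 / P ≤ 3 / (P₀ : ℝ) := div_le_div_of_nonneg_left (by norm_num) (by linarith) hP'
    have h2 : 11 / (4 * P ^ 2) ≤ 11 / (4 * (P₀ : ℝ) ^ 2) :=
      div_le_div_of_nonneg_left (by norm_num) (by positivity)
        (mul_le_mul_of_nonneg_left (pow_le_pow_left₀ (by linarith) hP' 2) (by norm_num))
    linarith
  -- `m ≤ (5/9) x/(5+x) - κ τ/9`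
  have hm' : m ≤ 5 / 9 * ((α ^ 2 * τ) / (5 + α ^ 2 * τ)) - κ * τ / 9 := by
    have h5 : 0 < 5 + α ^ 2 * τ := by linarith
    have e : 5 / 9 * ((α ^ 2 * τ) / (5 + α ^ 2 * τ)) - κ * τ / 9 =
        (5 * (α ^ 2 * τ) - κ * τ * (5 + α ^ 2 * τ)) / (9 * (5 + α ^ 2 * τ)) := by
      field_simp
    rw [e, le_div_iff₀ (by positivity)]
    linarith
  calc m * P ≤ (5 / 9 * ((α ^ 2 * τ) / (5 + α ^ 2 * τ)) - κ * τ / 9) * P :=
        mul_le_mul_of_nonneg_right hm' (by linarith)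
    _ ≤ (5 / 9 * (Y / (5 + Y)) - (1 + 3 / P + 11 / (4 * P ^ 2)) * τ / 9) * P := by
        refine mul_le_mul_of_nonneg_right ?_ (by linarith)
        have h6 := mul_le_mul_of_nonneg_right hκP hτ0.le
        linarith
    _ = 5 * P / 9 * (Y / (5 + Y)) - P / 9 * (1 + 3 / P + 11 / (4 * P ^ 2)) * τ := by ring
    _ ≤ _ := h

/-- `4000 t ≤ k`. -/
theorem kt_sq_le {k k₁ : ℕ} {t : ℝ} (ht : 0 < t) (hd : 4000 * t ≤ k) (hk : k ≤ k₁) :
    (k * t) ^ 2 ≤ ((k₁ : ℝ) ^ 2 / 4000) ^ 2 := by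
  have hk' : (k : ℝ) ≤ k₁ := by exact_mod_cast hk
  have hk0 : (0 : ℝ) ≤ k := Nat.cast_nonneg k
  refine pow_le_pow_left₀ (by positivity) ?_ 2
  rw [le_div_iff₀ (by norm_num)]
  calc (k : ℝ) * t * 4000 = k * (4000 * t) := by ring
    _ ≤ k * k := mul_le_mul_of_nonneg_left hd hk0
    _ ≤ (k₁ : ℝ) ^ 2 := by nlinarith

theorem k_ge_52 {k : ℕ} {t : ℝ} (hd : DOM k t) (h1 : 2 / 3 ≤ k * t) : 52 ≤ k := by
  by_contra hc
  have hk : k ≤ 51 := by omega
  have h2 := kt_sq_le hd.2.1 hd.2.2.2.1 hk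
  have h3 : (2 / 3 : ℝ) ^ 2 ≤ (k * t) ^ 2 := pow_le_pow_left₀ (by norm_num) h1 2
  norm_num at h2 h3
  linarith

/-- The lower bounds of `SS`. -/
theorem R2_SS {n k a : ℕ} {t : ℝ} (hp : Par n k a) (hd : DOM k t) (h1 : 2 / 3 ≤ k * t)
    (h2 : k * t ≤ 1) :
    (12 ≤ SS n k a t ∧ (k < 200 → ((k / 2 : ℕ) : ℝ) + 11 / 2 ≤ 7 / 2 * SS n k a t)) ∧
      (200 ≤ k → 193 / 10 ≤ SS n k a t ∧
        ((k / 2 : ℕ) : ℝ) + 11 / 2 ≤ 11 / 2 * SS n k a t) := by
  have hk52 := k_ge_52 hd h1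
  have ht := hd.2.1
  have h4 := hd.2.2.2.1
  have ha3 : 3 ≤ a := hp.2.2.1
  have hnk := hp.1
  have hτ1 : 4 / 9 ≤ (k * t) ^ 2 := by nlinarith
  have hτ2 : (k * t) ^ 2 ≤ 1 := by nlinarith
  set τ := ((k : ℝ) * t) ^ 2 with hτ
  rcases lt_or_ge k 54 with c1 | c1
  · -- `k = 52, 53`
    have hP : 26 ≤ k / 2 := by omega
    have hP' : (26 : ℝ) ≤ ((k / 2 : ℕ) : ℝ) := by exact_mod_cast hP
    have h5 : τ ≤ ((53 : ℕ) ^ 2 / 4000) ^ 2 := kt_sq_le ht h4 (by omega)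
    have h6 : (19 : ℝ) * k ≤ a * (n + k - 2) :=
      alpha_le (k₀ := 52) (c := 20) (by norm_num) hk52 (hp.lt60 (by omega)) (by norm_num)
    have h7 := SS_ge_m (m := 0.47) (κ := 1.12) hnk ha3 (by omega) ht (by norm_num) h6
      (P₀ := 26) (by norm_num) hP (by norm_num) (by
        rw [← hτ]
        norm_num at h5 ⊢
        nlinarith [mul_nonneg (sub_nonneg.2 hτ1) (sub_nonneg.2 h5)])
    norm_num at h7
    refine ⟨⟨by linarith, fun _ => by linarith⟩, fun h => by omega⟩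
  rcases lt_or_ge k 60 with c2 | c2
  · have hP : 27 ≤ k / 2 := by omega
    have hP' : (27 : ℝ) ≤ ((k / 2 : ℕ) : ℝ) := by exact_mod_cast hP
    have h5 : τ ≤ ((59 : ℕ) ^ 2 / 4000) ^ 2 := kt_sq_le ht h4 (by omega)
    have h6 : (19 : ℝ) * k ≤ a * (n + k - 2) :=
      alpha_le (k₀ := 52) (c := 20) (by norm_num) hk52 (hp.lt60 (by omega)) (by norm_num)
    have h7 := SS_ge_m (m := 0.45) (κ := 1.1149) hnk ha3 (by omega) ht (by norm_num) h6
      (P₀ := 27) (by norm_num) hP (by norm_num) (by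
        rw [← hτ]
        norm_num at h5 ⊢
        nlinarith [mul_nonneg (sub_nonneg.2 hτ1) (sub_nonneg.2 h5)])
    norm_num at h7
    refine ⟨⟨by linarith, fun _ => by linarith⟩, fun h => by omega⟩
  rcases lt_or_ge k 62 with c3 | c3
  · have hP : 30 ≤ k / 2 := by omega
    have hP' : (30 : ℝ) ≤ ((k / 2 : ℕ) : ℝ) := by exact_mod_cast hP
    have h5 : τ ≤ ((61 : ℕ) ^ 2 / 4000) ^ 2 := kt_sq_le ht h4 (by omega)
    have h6 : (7.73 : ℝ) * k ≤ a * (n + k - 2) :=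
      alpha_le (k₀ := 60) (c := 8) (by norm_num) c2 (hp.lt100 (by omega)) (by norm_num)
    have h7 := SS_ge_m (m := 0.4) (κ := 1.1031) hnk ha3 (by omega) ht (by norm_num) h6
      (P₀ := 30) (by norm_num) hP (by norm_num) (by
        rw [← hτ]
        norm_num at h5 ⊢
        nlinarith [mul_nonneg (sub_nonneg.2 hτ1) (sub_nonneg.2 h5)])
    norm_num at h7
    refine ⟨⟨by linarith, fun _ => by linarith⟩, fun h => by omega⟩
  rcases lt_or_ge k 64 with c4 | c4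
  · have hP : 31 ≤ k / 2 := by omega
    have hP' : (31 : ℝ) ≤ ((k / 2 : ℕ) : ℝ) := by exact_mod_cast hP
    have h5 : τ ≤ ((63 : ℕ) ^ 2 / 4000) ^ 2 := kt_sq_le ht h4 (by omega)
    have h6 : (7.73 : ℝ) * k ≤ a * (n + k - 2) :=
      alpha_le (k₀ := 60) (c := 8) (by norm_num) c2 (hp.lt100 (by omega)) (by norm_num)
    have h7 := SS_ge_m (m := 0.39) (κ := 1.0997) hnk ha3 (by omega) ht (by norm_num) h6
      (P₀ := 31) (by norm_num) hP (by norm_num) (by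
        rw [← hτ]
        norm_num at h5 ⊢
        nlinarith [mul_nonneg (sub_nonneg.2 hτ1) (sub_nonneg.2 h5)])
    norm_num at h7
    refine ⟨⟨by linarith, fun _ => by linarith⟩, fun h => by omega⟩
  rcases lt_or_ge k 100 with c5 | c5
  · have hP : 32 ≤ k / 2 := by omega
    have hP' : (32 : ℝ) ≤ ((k / 2 : ℕ) : ℝ) := by exact_mod_cast hP
    have h6 : (7.73 : ℝ) * k ≤ a * (n + k - 2) :=
      alpha_le (k₀ := 60) (c := 8) (by norm_num) c2 (hp.lt100 (by omega)) (by norm_num)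
    have h7 := SS_ge_m (m := 0.385) (κ := 1.0965) hnk ha3 (by omega) ht (by norm_num) h6
      (P₀ := 32) (by norm_num) hP (by norm_num) (by
        rw [← hτ]
        norm_num
        nlinarith [mul_nonneg (sub_nonneg.2 hτ1) (sub_nonneg.2 hτ2)])
    norm_num at h7
    refine ⟨⟨by linarith, fun _ => by linarith⟩, fun h => by omega⟩
  rcases lt_or_ge k 200 with c6 | c6
  · have hP : 50 ≤ k / 2 := by omega
    have hP' : (50 : ℝ) ≤ ((k / 2 : ℕ) : ℝ) := by exact_mod_cast hP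
    have hc : 5 * k ≤ a * (n + k) := by
      rcases Nat.lt_or_ge a 4 with h3 | h3
      · obtain rfl : a = 3 := by omega
        exact hp.lt200 c6 rfl
      · have h5 : 5 ≤ a := by
          rcases Nat.lt_or_ge a 5 with h6 | h6
          · obtain rfl : a = 4 := by omega
            exact absurd hp.2.1 (by decide)
          · exact h6
        exact Nat.mul_le_mul h5 (by omega)
    have h6 : (4.9 : ℝ) * k ≤ a * (n + k - 2) :=
      alpha_le (k₀ := 100) (c := 5) (by norm_num) c5 hc (by norm_num)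
    have h7 := SS_ge_m (m := 0.32) (κ := 1.0612) hnk ha3 (by omega) ht (by norm_num) h6
      (P₀ := 50) (by norm_num) hP (by norm_num) (by
        rw [← hτ]
        norm_num
        nlinarith [mul_nonneg (sub_nonneg.2 hτ1) (sub_nonneg.2 hτ2)])
    norm_num at h7
    refine ⟨⟨by linarith, fun _ => by linarith⟩, fun h => by omega⟩
  · have hP : 100 ≤ k / 2 := by omega
    have hP' : (100 : ℝ) ≤ ((k / 2 : ℕ) : ℝ) := by exact_mod_cast hP
    have hc : 3 * k ≤ a * (n + k) := Nat.mul_le_mul ha3 (by omega)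
    have h6 : (2.97 : ℝ) * k ≤ a * (n + k - 2) :=
      alpha_le (k₀ := 200) (c := 3) (by norm_num) c6 hc (by norm_num)
    have h7 := SS_ge_m (m := 0.193) (κ := 1.0303) hnk ha3 (by omega) ht (by norm_num) h6
      (P₀ := 100) (by norm_num) hP (by norm_num) (by
        rw [← hτ]
        norm_num
        nlinarith [mul_nonneg (sub_nonneg.2 hτ1) (sub_nonneg.2 hτ2)])
    norm_num at h7
    refine ⟨⟨by linarith, fun h => by omega⟩, fun _ => ⟨by linarith, by linarith⟩⟩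

/-- `x_i = (2i+1) t ≤ (k+1) t ≤ 1.0155`. -/
theorem xi_le {k : ℕ} {t : ℝ} (ht : 0 < t) (ht' : t ≤ 31 / 2000) (h2 : k * t ≤ 1) :
    ∀ i ∈ Icc 1 (k / 2), cc i * (t / 2) ≤ 2031 / 2000 := by
  intro i hi
  have h3 : i ≤ k / 2 := (Finset.mem_Icc.1 hi).2
  have h4 : 2 * i ≤ k := by omega
  have h5 : 2 * (i : ℝ) ≤ k := by exact_mod_cast h4
  unfold cc
  nlinarith [mul_le_mul_of_nonneg_right h5 ht.le]

/-- `JJ ≤ 1.032 SS`. -/
theorem JJ_le {n k a : ℕ} (ha3 : 3 ≤ a) {t : ℝ} (ht : 0 < t) (ht' : t ≤ 31 / 2000)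
    (h2 : k * t ≤ 1) : JJ n k a t ≤ 129 / 125 * SS n k a t := by
  unfold JJ SS
  rw [mul_sum]
  refine sum_le_sum fun i hi => ?_
  have h3 := xi_le ht ht' h2 i hi
  have h0 : 0 ≤ cc i * (t / 2) := by unfold cc; positivity
  have h4 : (cc i * (t / 2)) ^ 2 ≤ 129 / 125 := by
    calc (cc i * (t / 2)) ^ 2 ≤ (2031 / 2000) ^ 2 := pow_le_pow_left₀ h0 h3 2
      _ ≤ 129 / 125 := by norm_num
  exact mul_le_mul_of_nonneg_right h4 (Sd_nonneg ha3 (Finset.mem_Icc.1 hi).1 ht)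

/-- `V ≤ SS + 1.29`. -/
theorem V_le {n k a : ℕ} (hnk : Even (n * k)) (ha : Odd a) (hk : 2 ≤ k) {t : ℝ} (ht : 0 < t)
    (ht' : t ≤ 31 / 2000) (h2 : k * t ≤ 1) :
    t ^ 2 * sig2 n k a t ≤ SS n k a t + 129 / 100 := by
  have h := sig2_le_SS hnk ha hk ht
  have hk0 : (0 : ℝ) ≤ k := Nat.cast_nonneg k
  have hx : (k + 1) * t ≤ 2031 / 2000 := by linarith
  have hx0 : 0 < (k + 1) * t := by positivity
  have h3 := sf_ge hx0
  have h4 : ((k + 1) * t) ^ 2 / (3 + 3 / 5 * ((k + 1) * t) ^ 2) ≤ 0.2851 := by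
    have h5 : ((k + 1) * t) ^ 2 ≤ (2031 / 2000) ^ 2 := pow_le_pow_left₀ hx0.le hx 2
    rw [div_le_iff₀ (by positivity)]
    norm_num at h5 ⊢
    linarith
  have h5 : (k + 1) / 2 * (t / 2) ^ 2 ≤ 0.002 := by
    have : (k + 1) / 2 * (t / 2) ^ 2 = ((k + 1) * t) * t / 8 := by ring
    rw [this]
    have h6 : ((k + 1) * t) * t ≤ 2031 / 2000 * (31 / 2000) :=
      mul_le_mul hx ht' ht.le (by norm_num)
    norm_num at h6 ⊢
    linarith
  have hn0 : (0 : ℝ) ≤ n := Nat.cast_nonneg n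
  have ha0 : (0 : ℝ) < a := by exact_mod_cast ha.pos
  have hkk : (2 : ℝ) ≤ k := by exact_mod_cast hk
  have h6 : 0 ≤ sf (a * (n + k) * t) := (sf_pos (mul_pos (mul_pos ha0 (by linarith)) ht)).le
  norm_num at h4 h5 ⊢
  linarith

/-- `1/(3t) ≤ k/2`. -/
theorem inv_3t {k : ℕ} {t : ℝ} (ht : 0 < t) (h1 : 2 / 3 ≤ k * t) :
    5 + 1 / (3 * t) ≤ ((k / 2 : ℕ) : ℝ) + 11 / 2 := by
  have h2 : 1 / (3 * t) ≤ k / 2 := by
    rw [div_le_iff₀ (by positivity)]
    linarith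
  have h3 : k ≤ 2 * (k / 2) + 1 := by omega
  have h4 : (k : ℝ) ≤ 2 * ((k / 2 : ℕ) : ℝ) + 1 := by exact_mod_cast h3
  linarith

end Pool.Agent.SignedQ.Core
end

section

/-! # Core region II: numbers and assembly (helper37) -/

namespace Pool.Agent.SignedQ.Core

open Real Finset Pool.Agent.SignedQ.An

theorem log_ge2 {c x : ℝ} (hx : 0 < x) (h0 : 0 ≤ c) (h1 : c ≤ 1) (n : ℕ) (hn : 0 < n)
    (h : ∑ m ∈ Finset.range n, c ^ m / m.factorial + c ^ n * (n + 1) / (n.factorial * n) ≤ x) :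
    c ≤ log x :=
  (le_log_iff_exp_le hx).2 ((exp_bound' h0 h1 hn).trans h)

theorem exp_ge2 {E y : ℝ} (hy : 0 ≤ y) (n : ℕ)
    (h : E ≤ ∑ m ∈ Finset.range n, y ^ m / m.factorial) : E ≤ exp y :=
  h.trans (sum_le_exp_of_nonneg hy n)

theorem num_ok {S r h : ℝ} (hy : 0 ≤ S * r) (hh : 0 < h) (n : ℕ)
    (H : (S + 129 / 100) / h ^ 2 ≤ ∑ m ∈ Finset.range n, (S * r) ^ m / m.factorial) :
    (S + 129 / 100) * exp (-(S * r)) ≤ h ^ 2 := by
  have h1 := exp_ge2 hy n H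
  rw [div_le_iff₀ (by positivity)] at h1
  rw [exp_neg, mul_inv_le_iff₀ (exp_pos _)]
  linarith

theorem lg0 : 22314/100000 ≤ log (1 + (1/2 : ℝ) ^ 2) := by
  refine log_ge2 (by norm_num) (by norm_num) (by norm_num) 10 (by norm_num) ?_
  norm_num [Finset.sum_range_succ, Nat.factorial]

theorem eg0 : 21000 ≤ exp (6 / (3/5 : ℝ) - 93 / 2000) := by
  refine exp_ge2 (by norm_num) 28 ?_
  norm_num [Finset.sum_range_succ, Nat.factorial]

theorem lg1 : 30748/100000 ≤ log (1 + (3/5 : ℝ) ^ 2) := by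
  refine log_ge2 (by norm_num) (by norm_num) (by norm_num) 10 (by norm_num) ?_
  norm_num [Finset.sum_range_succ, Nat.factorial]

theorem eg1 : 5030 ≤ exp (6 / (7/10 : ℝ) - 93 / 2000) := by
  refine exp_ge2 (by norm_num) 26 ?_
  norm_num [Finset.sum_range_succ, Nat.factorial]

theorem lg2 : 39877/100000 ≤ log (1 + (7/10 : ℝ) ^ 2) := by
  refine log_ge2 (by norm_num) (by norm_num) (by norm_num) 10 (by norm_num) ?_
  norm_num [Finset.sum_range_succ, Nat.factorial]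

theorem eg2 : 1725 ≤ exp (6 / (4/5 : ℝ) - 93 / 2000) := by
  refine exp_ge2 (by norm_num) 24 ?_
  norm_num [Finset.sum_range_succ, Nat.factorial]

theorem lg3 : 49469/100000 ≤ log (1 + (4/5 : ℝ) ^ 2) := by
  refine log_ge2 (by norm_num) (by norm_num) (by norm_num) 10 (by norm_num) ?_
  norm_num [Finset.sum_range_succ, Nat.factorial]

theorem eg3 : 750 ≤ exp (6 / (9/10 : ℝ) - 93 / 2000) := by
  refine exp_ge2 (by norm_num) 22 ?_
  norm_num [Finset.sum_range_succ, Nat.factorial]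

theorem lg4 : 59332/100000 ≤ log (1 + (9/10 : ℝ) ^ 2) := by
  refine log_ge2 (by norm_num) (by norm_num) (by norm_num) 10 (by norm_num) ?_
  norm_num [Finset.sum_range_succ, Nat.factorial]

theorem eg4 : 385 ≤ exp (6 / (1 : ℝ) - 93 / 2000) := by
  refine exp_ge2 (by norm_num) 21 ?_
  norm_num [Finset.sum_range_succ, Nat.factorial]

theorem lg5 : 69314/100000 ≤ log (1 + (1 : ℝ) ^ 2) := by
  have := Real.log_two_gt_d9
  norm_num at this ⊢
  linarith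

theorem eg5 : 1159/10 ≤ exp (6 / (5/4 : ℝ) - 93 / 2000) := by
  refine exp_ge2 (by norm_num) 19 ?_
  norm_num [Finset.sum_range_succ, Nat.factorial]

theorem lg6 : 94098/100000 ≤ log (1 + (5/4 : ℝ) ^ 2) := by
  refine log_ge2 (by norm_num) (by norm_num) (by norm_num) 14 (by norm_num) ?_
  norm_num [Finset.sum_range_succ, Nat.factorial]

theorem eg6 : 521/10 ≤ exp (6 / (3/2 : ℝ) - 93 / 2000) := by
  refine exp_ge2 (by norm_num) 17 ?_
  norm_num [Finset.sum_range_succ, Nat.factorial]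

theorem nk12_0 : (12 + 129 / 100) * exp (-(12 * (2056/10000 : ℝ))) ≤ (10618/10000) ^ 2 := by
  refine num_ok (by norm_num) (by norm_num) 14 ?_
  norm_num [Finset.sum_range_succ, Nat.factorial]

theorem nk12_1 : (12 + 129 / 100) * exp (-(12 * (2733/10000 : ℝ))) ≤ (7074/10000) ^ 2 := by
  refine num_ok (by norm_num) (by norm_num) 16 ?_
  norm_num [Finset.sum_range_succ, Nat.factorial]

theorem nk12_2 : (12 + 129 / 100) * exp (-(12 * (3392/10000 : ℝ))) ≤ (4764/10000) ^ 2 := by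
  refine num_ok (by norm_num) (by norm_num) 18 ?_
  norm_num [Finset.sum_range_succ, Nat.factorial]

theorem nk12_3 : (12 + 129 / 100) * exp (-(12 * (3994/10000 : ℝ))) ≤ (332/1000) ^ 2 := by
  refine num_ok (by norm_num) (by norm_num) 19 ?_
  norm_num [Finset.sum_range_succ, Nat.factorial]

theorem nk12_4 : (12 + 129 / 100) * exp (-(12 * (4503/10000 : ℝ))) ≤ (2446/10000) ^ 2 := by
  refine num_ok (by norm_num) (by norm_num) 20 ?_
  norm_num [Finset.sum_range_succ, Nat.factorial]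

theorem nk12_5 : (12 + 129 / 100) * exp (-(12 * (4602/10000 : ℝ))) ≤ (2305/10000) ^ 2 := by
  refine num_ok (by norm_num) (by norm_num) 20 ?_
  norm_num [Finset.sum_range_succ, Nat.factorial]

theorem nk12_6 : (12 + 129 / 100) * exp (-(12 * (4762/10000 : ℝ))) ≤ (2094/10000) ^ 2 := by
  refine num_ok (by norm_num) (by norm_num) 21 ?_
  norm_num [Finset.sum_range_succ, Nat.factorial]

theorem nk19_0 : (193/10 + 129 / 100) * exp (-(193/10 * (2054/10000 : ℝ))) ≤ (6252/10000) ^ 2 := by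
  refine num_ok (by norm_num) (by norm_num) 17 ?_
  norm_num [Finset.sum_range_succ, Nat.factorial]

theorem nk19_1 : (193/10 + 129 / 100) * exp (-(193/10 * (2725/10000 : ℝ))) ≤ (3272/10000) ^ 2 := by
  refine num_ok (by norm_num) (by norm_num) 20 ?_
  norm_num [Finset.sum_range_succ, Nat.factorial]

theorem nk19_2 : (193/10 + 129 / 100) * exp (-(193/10 * (3369/10000 : ℝ))) ≤ (1758/10000) ^ 2 := by
  refine num_ok (by norm_num) (by norm_num) 22 ?_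
  norm_num [Finset.sum_range_succ, Nat.factorial]

theorem nk19_3 : (193/10 + 129 / 100) * exp (-(193/10 * (394/1000 : ℝ))) ≤ (1013/10000) ^ 2 := by
  refine num_ok (by norm_num) (by norm_num) 24 ?_
  norm_num [Finset.sum_range_succ, Nat.factorial]

theorem nk19_4 : (193/10 + 129 / 100) * exp (-(193/10 * (4399/10000 : ℝ))) ≤ (651/10000) ^ 2 := by
  refine num_ok (by norm_num) (by norm_num) 26 ?_
  norm_num [Finset.sum_range_succ, Nat.factorial]

theorem nk19_5 : (193/10 + 129 / 100) * exp (-(193/10 * (4254/10000 : ℝ))) ≤ (749/10000) ^ 2 := by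
  refine num_ok (by norm_num) (by norm_num) 25 ?_
  norm_num [Finset.sum_range_succ, Nat.factorial]

theorem nk19_6 : (193/10 + 129 / 100) * exp (-(193/10 * (3979/10000 : ℝ))) ≤ (976/10000) ^ 2 := by
  refine num_ok (by norm_num) (by norm_num) 24 ?_
  norm_num [Finset.sum_range_succ, Nat.factorial]

theorem T2_12 {n k a : ℕ} (hnk : Even (n * k)) (ha : Odd a) (ha3 : 3 ≤ a) (hk : 2 ≤ k)
    {t : ℝ} (ht : 0 < t) (ht' : t ≤ 31 / 2000)
    (hX : ∀ i ∈ Icc 1 (k / 2), cc i * (t / 2) ≤ 2031 / 2000)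
    (hJ : JJ n k a t ≤ 129 / 125 * SS n k a t)
    (hS : 12 ≤ SS n k a t)
    (hV : t ^ 2 * sig2 n k a t ≤ SS n k a t + 129 / 100)
    (hf : 5 + 1 / (3 * t) ≤ 7/2 * SS n k a t) : T2P n k a t (404/1000) := by
  unfold T2P
  have ha1 : 1 ≤ a := by omega
  have b0 := bin_R2 hnk ha ha3 hk ht ht' hX hJ hS (by norm_num) hV hf (z₀ := 1/2) (z₁ := 3/5)
    (by norm_num) (by norm_num) (by norm_num) (by norm_num) lg0 (by norm_num) eg0
    (r := 2056/10000) (by norm_num) (by norm_num) (by norm_num) nk12_0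
  have b1 := bin_R2 hnk ha ha3 hk ht ht' hX hJ hS (by norm_num) hV hf (z₀ := 3/5) (z₁ := 7/10)
    (by norm_num) (by norm_num) (by norm_num) (by norm_num) lg1 (by norm_num) eg1
    (r := 2733/10000) (by norm_num) (by norm_num) (by norm_num) nk12_1
  have b2 := bin_R2 hnk ha ha3 hk ht ht' hX hJ hS (by norm_num) hV hf (z₀ := 7/10) (z₁ := 4/5)
    (by norm_num) (by norm_num) (by norm_num) (by norm_num) lg2 (by norm_num) eg2
    (r := 3392/10000) (by norm_num) (by norm_num) (by norm_num) nk12_2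
  have b3 := bin_R2 hnk ha ha3 hk ht ht' hX hJ hS (by norm_num) hV hf (z₀ := 4/5) (z₁ := 9/10)
    (by norm_num) (by norm_num) (by norm_num) (by norm_num) lg3 (by norm_num) eg3
    (r := 3994/10000) (by norm_num) (by norm_num) (by norm_num) nk12_3
  have b4 := bin_R2 hnk ha ha3 hk ht ht' hX hJ hS (by norm_num) hV hf (z₀ := 9/10) (z₁ := 1)
    (by norm_num) (by norm_num) (by norm_num) (by norm_num) lg4 (by norm_num) eg4
    (r := 4503/10000) (by norm_num) (by norm_num) (by norm_num) nk12_4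
  have b5 := bin_R2 hnk ha ha3 hk ht ht' hX hJ hS (by norm_num) hV hf (z₀ := 1) (z₁ := 5/4)
    (by norm_num) (by norm_num) (by norm_num) (by norm_num) lg5 (by norm_num) eg5
    (r := 4602/10000) (by norm_num) (by norm_num) (by norm_num) nk12_5
  have b6 := bin_R2 hnk ha ha3 hk ht ht' hX hJ hS (by norm_num) hV hf (z₀ := 5/4) (z₁ := 3/2)
    (by norm_num) (by norm_num) (by norm_num) (by norm_num) lg6 (by norm_num) eg6
    (r := 4762/10000) (by norm_num) (by norm_num) (by norm_num) nk12_6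
  have c0 := bin_add (n := n) (k := k) ha1 ht (1/2) (3/5) (7/10)
  have c1 := bin_add (n := n) (k := k) ha1 ht (1/2) (7/10) (4/5)
  have c2 := bin_add (n := n) (k := k) ha1 ht (1/2) (4/5) (9/10)
  have c3 := bin_add (n := n) (k := k) ha1 ht (1/2) (9/10) (1)
  have c4 := bin_add (n := n) (k := k) ha1 ht (1/2) (1) (5/4)
  have c5 := bin_add (n := n) (k := k) ha1 ht (1/2) (5/4) (3/2)
  rw [show t / 2 = 1 / 2 * t by ring]
  norm_num at b0 b1 b2 b3 b4 b5 b6 c0 c1 c2 c3 c4 c5 ⊢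
  linarith

theorem T2_19 {n k a : ℕ} (hnk : Even (n * k)) (ha : Odd a) (ha3 : 3 ≤ a) (hk : 2 ≤ k)
    {t : ℝ} (ht : 0 < t) (ht' : t ≤ 31 / 2000)
    (hX : ∀ i ∈ Icc 1 (k / 2), cc i * (t / 2) ≤ 2031 / 2000)
    (hJ : JJ n k a t ≤ 129 / 125 * SS n k a t)
    (hS : 193/10 ≤ SS n k a t)
    (hV : t ^ 2 * sig2 n k a t ≤ SS n k a t + 129 / 100)
    (hf : 5 + 1 / (3 * t) ≤ 11/2 * SS n k a t) : T2P n k a t (179/1000) := by
  unfold T2P
  have ha1 : 1 ≤ a := by omega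
  have b0 := bin_R2 hnk ha ha3 hk ht ht' hX hJ hS (by norm_num) hV hf (z₀ := 1/2) (z₁ := 3/5)
    (by norm_num) (by norm_num) (by norm_num) (by norm_num) lg0 (by norm_num) eg0
    (r := 2054/10000) (by norm_num) (by norm_num) (by norm_num) nk19_0
  have b1 := bin_R2 hnk ha ha3 hk ht ht' hX hJ hS (by norm_num) hV hf (z₀ := 3/5) (z₁ := 7/10)
    (by norm_num) (by norm_num) (by norm_num) (by norm_num) lg1 (by norm_num) eg1
    (r := 2725/10000) (by norm_num) (by norm_num) (by norm_num) nk19_1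
  have b2 := bin_R2 hnk ha ha3 hk ht ht' hX hJ hS (by norm_num) hV hf (z₀ := 7/10) (z₁ := 4/5)
    (by norm_num) (by norm_num) (by norm_num) (by norm_num) lg2 (by norm_num) eg2
    (r := 3369/10000) (by norm_num) (by norm_num) (by norm_num) nk19_2
  have b3 := bin_R2 hnk ha ha3 hk ht ht' hX hJ hS (by norm_num) hV hf (z₀ := 4/5) (z₁ := 9/10)
    (by norm_num) (by norm_num) (by norm_num) (by norm_num) lg3 (by norm_num) eg3
    (r := 394/1000) (by norm_num) (by norm_num) (by norm_num) nk19_3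
  have b4 := bin_R2 hnk ha ha3 hk ht ht' hX hJ hS (by norm_num) hV hf (z₀ := 9/10) (z₁ := 1)
    (by norm_num) (by norm_num) (by norm_num) (by norm_num) lg4 (by norm_num) eg4
    (r := 4399/10000) (by norm_num) (by norm_num) (by norm_num) nk19_4
  have b5 := bin_R2 hnk ha ha3 hk ht ht' hX hJ hS (by norm_num) hV hf (z₀ := 1) (z₁ := 5/4)
    (by norm_num) (by norm_num) (by norm_num) (by norm_num) lg5 (by norm_num) eg5
    (r := 4254/10000) (by norm_num) (by norm_num) (by norm_num) nk19_5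
  have b6 := bin_R2 hnk ha ha3 hk ht ht' hX hJ hS (by norm_num) hV hf (z₀ := 5/4) (z₁ := 3/2)
    (by norm_num) (by norm_num) (by norm_num) (by norm_num) lg6 (by norm_num) eg6
    (r := 3979/10000) (by norm_num) (by norm_num) (by norm_num) nk19_6
  have c0 := bin_add (n := n) (k := k) ha1 ht (1/2) (3/5) (7/10)
  have c1 := bin_add (n := n) (k := k) ha1 ht (1/2) (7/10) (4/5)
  have c2 := bin_add (n := n) (k := k) ha1 ht (1/2) (4/5) (9/10)
  have c3 := bin_add (n := n) (k := k) ha1 ht (1/2) (9/10) (1)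
  have c4 := bin_add (n := n) (k := k) ha1 ht (1/2) (1) (5/4)
  have c5 := bin_add (n := n) (k := k) ha1 ht (1/2) (5/4) (3/2)
  rw [show t / 2 = 1 / 2 * t by ring]
  norm_num at b0 b1 b2 b3 b4 b5 b6 c0 c1 c2 c3 c4 c5 ⊢
  linarith

/-- **Block R2.** -/
theorem blockR2 : BlockR2 := by
  intro n k a t hp hd h1 h2
  have hk52 := k_ge_52 hd h1
  have ht := hd.2.1
  have ht' := hd.2.2.1
  obtain ⟨⟨s1, s2⟩, s3⟩ := R2_SS hp hd h1 h2
  have hX := xi_le ht ht' h2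
  have hJ := JJ_le (n := n) hp.2.2.1 ht ht' h2
  have hV := V_le (n := n) (a := a) hp.1 hp.2.1 (by omega) ht ht' h2
  have h3 := inv_3t ht h1
  have hP0 : (0 : ℝ) ≤ ((k / 2 : ℕ) : ℝ) := Nat.cast_nonneg _
  refine ⟨hk52, ?_, ?_, ?_⟩
  · refine ⟨hp.1, hp.2.1, hp.2.2.1, by omega, ht, ht', ?_, hV, hJ, ?_⟩
    · exact s1.trans (SS_le_sig2 hp.1 hp.2.1 (by omega) ht)
    · rcases lt_or_ge k 200 with c | c
      · linarith [s2 c]
      · linarith [(s3 c).2]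
  · rcases lt_or_ge k 200 with c | c
    · exact T2_12 hp.1 hp.2.1 hp.2.2.1 (by omega) ht ht' hX hJ s1 hV (by linarith [s2 c])
    · have h4 := T2_19 hp.1 hp.2.1 hp.2.2.1 (by omega) ht ht' hX hJ (s3 c).1 hV
        (by linarith [(s3 c).2])
      unfold T2P at h4 ⊢
      linarith
  · intro c
    exact T2_19 hp.1 hp.2.1 hp.2.2.1 (by omega) ht ht' hX hJ (s3 c).1 hV (by linarith [(s3 c).2])

end Pool.Agent.SignedQ.Core
end

section

/-! # Core region, `k t ≥ 1`, block Z2: the general lemma for one bin (helper78) -/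

namespace Pool.Agent.SignedQ.Core

open Real Finset Pool.Agent.SignedQ.An

/-- One bin `z₀ ≤ θ/t ≤ z₁` of zone 2. Parameters: `m` the exact value of `mu`,
`L` an upper bound `2/(E-1)` of the loss factor, `V₀` the variance bound at `H₀ ≤ 1/(2t)`, `N` the
exponent in tenths. -/
structure Bin (X v w err τ σX z₀ z₁ lam E H₀ g : ℝ) (N : ℕ) : Prop where
  z0 : 0 < z₀
  z01 : z₀ ≤ z₁
  z1 : z₁ ≤ 3 / 2
  X0 : 0 < X
  X2 : X * z₁ ≤ 2
  Xπ : X * (z₀ + z₁) ≤ 314 / 100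
  hc : z₀ ^ 2 ≤ 4 / 5 * (1 + z₀ ^ 2) * (1 - (X * z₀) ^ 2 / 14)
  hlam : lam ≤ log (1 + z₀ ^ 2)
  hE1 : 1 < E
  hE : E ≤ exp (6 / z₁ - 93 / 2000)
  hmu : z₀ ^ 4 / (3 * (1 + z₀ ^ 2)) * X ^ 2 ≤ lam
  hvτ : 0 ≤ v + τ
  hwX : 1 ≤ (lam - z₀ ^ 4 / (3 * (1 + z₀ ^ 2)) * X ^ 2) * ((v + τ) * H₀ - err + σX + 101 / 50)
  hr : v + τ ≤ (lam * v - z₀ ^ 4 / (3 * (1 + z₀ ^ 2)) * w - 4 / (3 * (E - 1))) *
    ((v + τ) * H₀ - err + σX + 101 / 50)
  hN : (N : ℝ) / 10 ≤ (lam * v - z₀ ^ 4 / (3 * (1 + z₀ ^ 2)) * w - 4 / (3 * (E - 1))) * H₀ -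
    err * lam - 10 / (E - 1)
  hg0 : 0 ≤ g
  hg : (v + τ) * H₀ - err + σX + 101 / 50 ≤ g ^ 2 * (11051 / 10000) ^ N

/-- Linearity in the weights. -/
theorem QS_lin (n k a : ℕ) (t lam mu X : ℝ) :
    QS n k a t lam mu X = QS n k a t (mu * X ^ 2) mu X +
      (lam - mu * X ^ 2) * QS n k a t 1 0 X := by
  unfold QS
  rw [mul_sum, ← sum_add_distrib]
  apply sum_congr rfl
  intro i _
  split_ifs <;> ring

theorem Z2a_exp_tenth : (11051 / 10000 : ℝ) ≤ exp (1 / 10) := by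
  have h := Real.sum_le_exp_of_nonneg (x := 1 / 10) (by norm_num) 4
  refine le_trans ?_ h
  rw [Finset.sum_range_succ, Finset.sum_range_succ, Finset.sum_range_succ, Finset.sum_range_succ,
    Finset.sum_range_zero]
  norm_num [Nat.factorial]

/-- `V exp (-Q) ≤ V₀ exp (-R)` from `Q ≥ R` and `Q ≥ R + b (V - V₀)`, `b V₀ ≥ 1`. -/
theorem Z2a_var {V V₀ Q R b : ℝ} (hV0 : 0 < V₀) (h1 : R ≤ Q) (h2 : R + b * (V - V₀) ≤ Q)
    (hb : 1 ≤ b * V₀) : V * exp (-Q) ≤ V₀ * exp (-R) := by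
  rcases le_or_gt V V₀ with h | h
  · have e1 : exp (-Q) ≤ exp (-R) := exp_le_exp.2 (by linarith)
    calc V * exp (-Q) ≤ V₀ * exp (-Q) := mul_le_mul_of_nonneg_right h (exp_pos _).le
      _ ≤ V₀ * exp (-R) := mul_le_mul_of_nonneg_left e1 hV0.le
  · have e1 : V ≤ V₀ * exp (b * (V - V₀)) := by
      have e2 := add_one_le_exp (b * (V - V₀))
      have e3 := mul_le_mul_of_nonneg_left e2 hV0.le
      refine le_trans ?_ e3
      have e4 := mul_le_mul_of_nonneg_right hb (show 0 ≤ V - V₀ by linarith)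
      nlinarith
    have e5 : exp (-Q) ≤ exp (-(R + b * (V - V₀))) := exp_le_exp.2 (by linarith)
    calc V * exp (-Q) ≤ V₀ * exp (b * (V - V₀)) * exp (-(R + b * (V - V₀))) :=
          mul_le_mul e1 e5 (exp_pos _).le (by positivity)
      _ = V₀ * exp (-R) := by
          rw [mul_assoc, ← exp_add]
          congr 2
          ring

/-- Monotonicity in `H`. -/
theorem Z2a_mono {p c r H H₀ : ℝ} (hH : H₀ ≤ H) (hV : 0 < p * H₀ + c)
    (hr : p ≤ r * (p * H₀ + c)) :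
    (p * H + c) * exp (-(r * H)) ≤ (p * H₀ + c) * exp (-(r * H₀)) := by
  have e1 : p * H + c ≤ (p * H₀ + c) * exp (r * (H - H₀)) := by
    have e2 := add_one_le_exp (r * (H - H₀))
    have e3 := mul_le_mul_of_nonneg_left e2 hV.le
    refine le_trans ?_ e3
    have e4 := mul_le_mul_of_nonneg_right hr (sub_nonneg.2 hH)
    nlinarith
  calc (p * H + c) * exp (-(r * H)) ≤ (p * H₀ + c) * exp (r * (H - H₀)) * exp (-(r * H)) :=
        mul_le_mul_of_nonneg_right e1 (exp_pos _).le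
    _ = (p * H₀ + c) * exp (-(r * H₀)) := by
        rw [mul_assoc, ← exp_add]
        congr 2
        ring

/-- The number of a bin: `V exp (LB - QS) ≤ g²`. -/
theorem Z2a_num {n k a : ℕ} {t : ℝ} (ht : 0 < t) (ht' : t ≤ 31 / 2000) {X v w err τ σX : ℝ}
    (hS : SData n k a t X v w err τ σX) {z₀ z₁ lam E H₀ g : ℝ} {N : ℕ}
    (hB : Bin X v w err τ σX z₀ z₁ lam E H₀ g N) (hH : H₀ * (2 * t) ≤ 1) :
    t ^ 2 * sig2 n k a t *
      exp (LB t z₁ - QS n k a t lam (z₀ ^ 4 / (3 * (1 + z₀ ^ 2))) X) ≤ g ^ 2 := by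
  obtain ⟨mu, hmu⟩ : ∃ mu, mu = z₀ ^ 4 / (3 * (1 + z₀ ^ 2)) := ⟨_, rfl⟩
  obtain ⟨b1, b2, b3, b4, b5, b6, b7, b8, b9, b10, b11, b12, b13, b14, b15, b16, b17⟩ := hB
  rw [← hmu] at b11 b13 b14 b15 ⊢
  have hmu0 : 0 ≤ mu := by rw [hmu]; positivity
  obtain ⟨H, hHd⟩ : ∃ H, H = 1 / (2 * t) := ⟨_, rfl⟩
  have hHH : H₀ ≤ H := by
    rw [hHd, le_div_iff₀ (by positivity)]
    exact hH
  obtain ⟨V, hVd⟩ : ∃ V, V = t ^ 2 * sig2 n k a t := ⟨_, rfl⟩
  have hQ1 := hS.hQ lam mu hmu0 b11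
  have hQ2 := hS.hQ (mu * X ^ 2) mu hmu0 le_rfl
  have hQ3 := hS.hV
  have hlin := QS_lin n k a t lam mu X
  rw [← hVd] at hQ3 ⊢
  have f1 : ∀ c : ℝ, c / (2 * t) = c * H := by
    intro c; rw [hHd]; ring
  rw [f1] at hQ1 hQ2 hQ3
  obtain ⟨Q, hQd⟩ : ∃ Q, Q = QS n k a t lam mu X := ⟨_, rfl⟩
  obtain ⟨Q', hQ'⟩ : ∃ Q, Q = QS n k a t (mu * X ^ 2) mu X := ⟨_, rfl⟩
  obtain ⟨q, hq⟩ : ∃ Q, Q = QS n k a t 1 0 X := ⟨_, rfl⟩
  rw [← hQd] at hQ1
  rw [← hQd, ← hQ', ← hq] at hlin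
  rw [← hQ'] at hQ2
  rw [← hq] at hQ3
  rw [← hQd]
  obtain ⟨b, hb⟩ : ∃ b, b = lam - mu * X ^ 2 := ⟨_, rfl⟩
  rw [← hb] at b13 hlin
  have hb0 : 0 ≤ b := by rw [hb]; linarith
  obtain ⟨c, hc⟩ : ∃ c, c = -err + σX + 101 / 50 := ⟨_, rfl⟩
  have g1 : (v + τ) * H₀ - err + σX + 101 / 50 = (v + τ) * H₀ + c := by rw [hc]; ring
  rw [g1] at b13 b14 b17
  have hV0 : 0 < (v + τ) * H₀ + c := by
    by_contra hcon
    push Not at hcon
    have := mul_nonpos_of_nonneg_of_nonpos hb0 hcon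
    linarith
  have hV0H : (v + τ) * H₀ + c ≤ (v + τ) * H + c := by
    have := mul_le_mul_of_nonneg_left hHH b12
    linarith
  have hbV : 1 ≤ b * ((v + τ) * H + c) := b13.trans (mul_le_mul_of_nonneg_left hV0H hb0)
  -- the exponent
  have hLB := LB_le ht ht' b9 b10
  have hE0 : 0 < E - 1 := by linarith
  have f2 : 2 / (E - 1) * (5 + 1 / (3 * t)) = 10 / (E - 1) + 4 / (3 * (E - 1)) * H := by
    rw [hHd]
    field_simp
    ring
  rw [f2] at hLB
  obtain ⟨R, hR⟩ : ∃ R, R = (lam * v - mu * w) * H - err * lam := ⟨_, rfl⟩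
  have k1 : R ≤ Q := by rw [hR]; exact hQ1
  have k2 : R + b * (V - ((v + τ) * H + c)) ≤ Q := by
    have e1 := mul_le_mul_of_nonneg_left hQ3 hb0
    rw [hlin, hR]
    have e2 : b * v * H = (lam - mu * X ^ 2) * v * H := by rw [hb]
    have e3 : b * err = (lam - mu * X ^ 2) * err := by rw [hb]
    rw [hc]
    linarith
  have k3 := Z2a_var (hV0.trans_le hV0H) k1 k2 hbV
  obtain ⟨r, hr⟩ : ∃ r, r = lam * v - mu * w - 4 / (3 * (E - 1)) := ⟨_, rfl⟩
  rw [← hr] at b14 b15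
  have k4 := Z2a_mono hHH hV0 b14
  have k5 : ((v + τ) * H + c) * exp (LB t z₁ - R) ≤
      ((v + τ) * H₀ + c) * exp (-(r * H₀ - err * lam - 10 / (E - 1))) := by
    have e1 : exp (LB t z₁ - R) ≤ exp (-(r * H)) * exp (err * lam + 10 / (E - 1)) := by
      rw [← exp_add]
      apply exp_le_exp.2
      rw [hR, hr]
      linarith
    calc ((v + τ) * H + c) * exp (LB t z₁ - R)
        ≤ ((v + τ) * H + c) * (exp (-(r * H)) * exp (err * lam + 10 / (E - 1))) :=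
          mul_le_mul_of_nonneg_left e1 (hV0.trans_le hV0H).le
      _ = ((v + τ) * H + c) * exp (-(r * H)) * exp (err * lam + 10 / (E - 1)) := by ring
      _ ≤ ((v + τ) * H₀ + c) * exp (-(r * H₀)) * exp (err * lam + 10 / (E - 1)) :=
          mul_le_mul_of_nonneg_right k4 (exp_pos _).le
      _ = _ := by
          rw [mul_assoc, ← exp_add]
          congr 2
          ring
  have k6 : exp (-(r * H₀ - err * lam - 10 / (E - 1))) ≤ exp (-((N : ℝ) * (1 / 10))) :=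
    exp_le_exp.2 (by linarith)
  have k7 : (11051 / 10000 : ℝ) ^ N ≤ exp ((N : ℝ) * (1 / 10)) := by
    rw [exp_nat_mul]
    exact pow_le_pow_left₀ (by norm_num) Z2a_exp_tenth N
  have k8 : exp ((N : ℝ) * (1 / 10)) * exp (-((N : ℝ) * (1 / 10))) = 1 := by
    rw [← exp_add]; simp
  calc V * exp (LB t z₁ - Q) = V * exp (-Q) * exp (LB t z₁) := by
        rw [mul_assoc, ← exp_add]; congr 2; ring
    _ ≤ ((v + τ) * H + c) * exp (-R) * exp (LB t z₁) :=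
        mul_le_mul_of_nonneg_right k3 (exp_pos _).le
    _ = ((v + τ) * H + c) * exp (LB t z₁ - R) := by
        rw [mul_assoc, ← exp_add]; congr 2; ring
    _ ≤ ((v + τ) * H₀ + c) * exp (-(r * H₀ - err * lam - 10 / (E - 1))) := k5
    _ ≤ ((v + τ) * H₀ + c) * exp (-((N : ℝ) * (1 / 10))) := mul_le_mul_of_nonneg_left k6 hV0.le
    _ ≤ g ^ 2 * (11051 / 10000) ^ N * exp (-((N : ℝ) * (1 / 10))) :=
        mul_le_mul_of_nonneg_right b17 (exp_pos _).le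
    _ ≤ g ^ 2 * exp ((N : ℝ) * (1 / 10)) * exp (-((N : ℝ) * (1 / 10))) := by
        apply mul_le_mul_of_nonneg_right _ (exp_pos _).le
        exact mul_le_mul_of_nonneg_left k7 (sq_nonneg g)
    _ = g ^ 2 := by rw [mul_assoc, k8, mul_one]

/-- **Zone 2, one bin.** -/
theorem bin_II {n k a : ℕ} {t : ℝ} (h : Hi n k a t) {X v w err τ σX : ℝ}
    (hS : SData n k a t X v w err τ σX) {z₀ z₁ lam E H₀ g : ℝ} {N : ℕ}
    (hB : Bin X v w err τ σX z₀ z₁ lam E H₀ g N) (hH : H₀ * (2 * t) ≤ 1) :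
    sigma n k a t * ∫ θ in (z₀ * t)..(z₁ * t), rho n k a t θ ≤ (z₁ - z₀) * g := by
  obtain ⟨hnk, hao, ha3, -⟩ := h.hp
  obtain ⟨hk, ht, ht', -, -⟩ := h.hd
  have hnum := Z2a_num ht ht' hS hB hH
  obtain ⟨b1, b2, b3, b4, b5, b6, b7, b8, b9, b10, b11, b12, b13, b14, b15, b16, b17⟩ := hB
  obtain ⟨B, hBd⟩ : ∃ B, B = LB t z₁ - QS n k a t lam (z₀ ^ 4 / (3 * (1 + z₀ ^ 2))) X := ⟨_, rfl⟩
  rw [← hBd] at hnum
  have hπ := Real.pi_gt_d2
  have hpt : ∀ θ ∈ Set.Icc (z₀ * t) (z₁ * t), rho n k a t θ ≤ Real.sqrt (exp B) := by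
    intro θ hθ
    unfold rho
    apply Real.sqrt_le_sqrt
    have e1 : θ / t * t = θ := by field_simp
    have h1 := zone2 (z := θ / t) (lam := lam) (X := X) hnk hao ha3 (by omega) ht ht' b1
      (by rw [le_div_iff₀ ht]; exact hθ.1) (by rw [div_le_iff₀ ht]; exact hθ.2) b3 b4 b5
      (by linarith) b7 b8
    rw [e1, ← hBd] at h1
    exact h1
  have hc := rho_continuous (n := n) (k := k) (a := a) (by omega) ht
  have hle : z₀ * t ≤ z₁ * t := mul_le_mul_of_nonneg_right b2 ht.le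
  have hint : ∫ θ in (z₀ * t)..(z₁ * t), rho n k a t θ ≤
      ∫ _θ in (z₀ * t)..(z₁ * t), Real.sqrt (exp B) := by
    apply intervalIntegral.integral_mono_on hle (hc.intervalIntegrable _ _)
      intervalIntegrable_const
    exact hpt
  rw [intervalIntegral.integral_const, smul_eq_mul] at hint
  have hσ0 : 0 ≤ sigma n k a t := Real.sqrt_nonneg _
  have key : sigma n k a t * t * Real.sqrt (exp B) ≤ g := by
    have e1 : sigma n k a t * t = Real.sqrt (t ^ 2 * sig2 n k a t) := by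
      unfold sigma
      rw [Real.sqrt_mul (by positivity), Real.sqrt_sq ht.le]
      ring
    rw [e1]
    rcases le_or_gt 0 (t ^ 2 * sig2 n k a t) with hV | hV
    · rw [← Real.sqrt_mul hV]
      rw [← Real.sqrt_sq b16]
      exact Real.sqrt_le_sqrt hnum
    · rw [Real.sqrt_eq_zero_of_nonpos hV.le, zero_mul]
      exact b16
  calc sigma n k a t * ∫ θ in (z₀ * t)..(z₁ * t), rho n k a t θ
      ≤ sigma n k a t * ((z₁ * t - z₀ * t) * Real.sqrt (exp B)) :=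
        mul_le_mul_of_nonneg_left hint hσ0
    _ = (z₁ - z₀) * (sigma n k a t * t * Real.sqrt (exp B)) := by ring
    _ ≤ (z₁ - z₀) * g := mul_le_mul_of_nonneg_left key (by linarith)

/-- Addition of adjacent bins. -/
theorem bins_add {n k a : ℕ} {t : ℝ} (h : Hi n k a t) {z₀ z₁ z₂ A B : ℝ}
    (h1 : sigma n k a t * ∫ θ in (z₀ * t)..(z₁ * t), rho n k a t θ ≤ A)
    (h2 : sigma n k a t * ∫ θ in (z₁ * t)..(z₂ * t), rho n k a t θ ≤ B) :
    sigma n k a t * ∫ θ in (z₀ * t)..(z₂ * t), rho n k a t θ ≤ A + B := by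
  obtain ⟨-, -, ha3, -⟩ := h.hp
  obtain ⟨-, ht, -, -, -⟩ := h.hd
  have hc := rho_continuous (n := n) (k := k) (a := a) (by omega) ht
  rw [← intervalIntegral.integral_add_adjacent_intervals (hc.intervalIntegrable (z₀ * t) (z₁ * t))
    (hc.intervalIntegrable (z₁ * t) (z₂ * t)), mul_add]
  exact add_le_add h1 h2

/-- The end: `T2P` in this notation. -/
theorem T2P_of_bins {n k a : ℕ} {t T : ℝ}
    (h1 : sigma n k a t * ∫ θ in (1 / 2 * t)..(3 / 2 * t), rho n k a t θ ≤ T) :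
    T2P n k a t T := by
  unfold T2P
  have : t / 2 = 1 / 2 * t := by ring
  rw [this]
  exact h1

end Pool.Agent.SignedQ.Core
end
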