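import Pool.Agent.Lib.MP_cf17a0_co.Mg.G041
import Pool.Agent.Lib.MP_cf17a0_co.S1.C.I3
import Pool.Agent.Lib.MP_cf17a0_co.Mg.G030
import Pool.Agent.Lib.MP_cf17a0_co.Mg.G023
import Pool.Agent.Lib.MP_cf17a0_co.Mg.G034
import Pool.Agent.Lib.MP_cf17a0_co.Mg.G037
import Pool.Agent.Lib.MP_cf17a0_co.S1.C.E9d
import Pool.Agent.Lib.MP_cf17a0_co.Mg.G033
import Pool.Agent.Lib.MP_cf17a0_co.S1.C.C3

section

/-! # Core region: final assembly -/

namespace Pool.Agent.SignedQ.Core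

open Real Finset Pool.Agent.SignedQ.An MeasureTheory

/-- Inside minus near tail. -/
theorem core_gen {n k a : ℕ} (hnk : Even (n * k)) (hk26 : 26 ≤ k) (ha : Odd a)
    (hP : PosAll k a) {f : Polynomial ℚ}
    (hf : f * poch (-Polynomial.X : Polynomial ℚ) k = num n k a) {t p T b κ : ℝ}
    (ht : 0 < t) (hs : 0 < sig2 n k a t) (hp' : p ≤ 1 / 25) (hPP : ∀ L ≤ k, PP n k a L t ≤ p)
    (hb : 3 / 2 / sigma n k a t ≤ b)
    (hT : sigma n k a t * ∫ θ in (3 / 2 / sigma n k a t)..b, rho n k a t θ ≤ T)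
    (hκ : κ ≤ 0.9974 - 0.8925 * p - T) :
    κ * rev f (Real.exp (-t)) / sigma n k a t ≤
      ∫ θ in (0 : ℝ)..b, reR f t (mu n k a f t) θ := by
  have ha1 : 1 ≤ a := ha.pos
  have hR : 0 < rev f (Real.exp (-t)) :=
    rev_pos ha1 hf (Real.exp_pos _).le (by rw [Real.exp_lt_one_iff]; linarith)
  have hσ : 0 < sigma n k a t := Real.sqrt_pos.2 hs
  have h1 := inside_int hnk hk26 ha hP hf ht hs hp' hPP
  have hcont := reR_continuous f t (mu n k a f t)
  have hcρ := rho_continuous (n := n) (k := k) ha1 ht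
  have h2 : ∫ θ in (0 : ℝ)..b, reR f t (mu n k a f t) θ =
      (∫ θ in (0 : ℝ)..(3 / 2 / sigma n k a t), reR f t (mu n k a f t) θ) +
      ∫ θ in (3 / 2 / sigma n k a t)..b, reR f t (mu n k a f t) θ :=
    (intervalIntegral.integral_add_adjacent_intervals (hcont.intervalIntegrable _ _)
      (hcont.intervalIntegrable _ _)).symm
  have h3 : -(rev f (Real.exp (-t)) * ∫ θ in (3 / 2 / sigma n k a t)..b, rho n k a t θ) ≤
      ∫ θ in (3 / 2 / sigma n k a t)..b, reR f t (mu n k a f t) θ := by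
    rw [← intervalIntegral.integral_const_mul, ← intervalIntegral.integral_neg]
    refine intervalIntegral.integral_mono_on hb ?_ (hcont.intervalIntegrable _ _) ?_
    · exact ((hcρ.const_mul _).neg).intervalIntegrable _ _
    · intro θ _
      exact (abs_le.1 (abs_reR_le' ha1 hf ht _ θ)).1
  have h4 : rev f (Real.exp (-t)) * ∫ θ in (3 / 2 / sigma n k a t)..b, rho n k a t θ ≤
      rev f (Real.exp (-t)) * T / sigma n k a t := by
    rw [le_div_iff₀ hσ]
    calc rev f (Real.exp (-t)) * (∫ θ in (3 / 2 / sigma n k a t)..b, rho n k a t θ) *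
        sigma n k a t = rev f (Real.exp (-t)) *
        (sigma n k a t * ∫ θ in (3 / 2 / sigma n k a t)..b, rho n k a t θ) := by ring
      _ ≤ _ := mul_le_mul_of_nonneg_left hT hR.le
  have h5 : κ * rev f (Real.exp (-t)) / sigma n k a t ≤
      (0.9974 - 0.8925 * p) * rev f (Real.exp (-t)) / sigma n k a t -
        rev f (Real.exp (-t)) * T / sigma n k a t := by
    rw [← sub_div]
    refine div_le_div_of_nonneg_right ?_ hσ.le
    have := mul_le_mul_of_nonneg_right hκ hR.le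
    linarith
  rw [h2]
  linarith

theorem th1_lo {k : ℕ} {t : ℝ} (hk : 26 ≤ k) (h : k * t ≤ 2 / 3) : th1 k t = 1 / k := by
  unfold th1
  have hk' : (0 : ℝ) < k := by exact_mod_cast (by omega : 0 < k)
  refine max_eq_left ?_
  rw [le_div_iff₀ hk']
  linarith

theorem th1_hi {k : ℕ} {t : ℝ} (hk : 26 ≤ k) (h : 2 / 3 ≤ k * t) : th1 k t = 3 / 2 * t := by
  unfold th1
  have hk' : (0 : ℝ) < k := by exact_mod_cast (by omega : 0 < k)
  refine max_eq_right ?_
  rw [div_le_iff₀ hk']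
  linarith

/-! ### `k t ≤ 2/3` -/

theorem lo_PP {n k a : ℕ} {t M ρ s sc kk : ℝ} {P0 : ℕ} (R : RegI n k a t M ρ s sc kk P0) :
    ∀ L ≤ k, PP n k a L t ≤ 1 / (4 * s ^ 2) := by
  intro L hL
  have hk : (0 : ℝ) < k := by
    have := R.hk
    exact_mod_cast (by omega : 0 < k)
  have ht := R.ht
  have hs := R.hs0
  have hV : 0 < s ^ 2 * (k * t) ^ 2 := by positivity
  have h1 := SS_le_sig2 R.hnk R.ha (by have := R.hk; omega) ht
  have h2 := (PP_le hL ht hV (R.hs.trans h1)).2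
  refine h2.trans (le_of_eq ?_)
  field_simp

theorem lo_cut {n k a : ℕ} {t M ρ s sc kk : ℝ} {P0 : ℕ} (R : RegI n k a t M ρ s sc kk P0)
    (hs : 3 / 2 ≤ s) : 3 / 2 / sigma n k a t ≤ 1 / k := by
  have hk : (0 : ℝ) < k := by
    have := R.hk
    exact_mod_cast (by omega : 0 < k)
  have h1 := s_le_sigma R
  have h2 : 3 / 2 * (k : ℝ) ≤ sigma n k a t :=
    (mul_le_mul_of_nonneg_right hs hk.le).trans h1
  have hσ : 0 < sigma n k a t := lt_of_lt_of_le (by positivity) h2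
  rw [div_le_div_iff₀ hσ hk]
  linarith

theorem core_lo {n k a : ℕ} {t M ρ s sc kk : ℝ} {P0 : ℕ} (R : RegI n k a t M ρ s sc kk P0)
    (hs : 5 / 2 ≤ s) {T κ : ℝ} (hT : Fb (rho n k a t) (sigma n k a t) (1 / k) (3 / 2) ≤ T)
    (hκ : κ ≤ 0.9974 - 0.8925 * (1 / (4 * s ^ 2)) - T) (hP : PosAll k a) {f : Polynomial ℚ}
    (hf : f * poch (-Polynomial.X : Polynomial ℚ) k = num n k a) :
    κ * rev f (Real.exp (-t)) / sigma n k a t ≤
      ∫ θ in (0 : ℝ)..(th1 k t), reR f t (mu n k a f t) θ := by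
  rw [th1_lo R.hk R.hkt]
  have hsig := sig2_pos' R
  have hσ : 0 < sigma n k a t := Real.sqrt_pos.2 hsig
  refine core_gen R.hnk R.hk R.ha hP hf R.ht hsig ?_ (lo_PP R) (lo_cut R (by linarith))
    ((le_Fb (fun x => rho_nonneg n k a t x) hσ).trans hT) hκ
  rw [div_le_div_iff₀ (by have := R.hs0; positivity) (by norm_num)]
  have : (5 / 2 : ℝ) ^ 2 ≤ s ^ 2 := pow_le_pow_left₀ (by norm_num) hs 2
  linarith

/-- The mass up to `u / σ`. -/
theorem mass_le {n k a : ℕ} (ha : 1 ≤ a) {t u g : ℝ} {u0 : ℝ} (ht : 0 < t)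
    (hs : 0 < sig2 n k a t) (hu : u0 ≤ u)
    (h : ∀ θ, u0 < sigma n k a t * θ → sigma n k a t * θ < u → rho n k a t θ ≤ g) :
    sigma n k a t * ∫ θ in (u0 / sigma n k a t)..(u / sigma n k a t), rho n k a t θ ≤
      (u - u0) * g := by
  have hσ : 0 < sigma n k a t := Real.sqrt_pos.2 hs
  have hcρ := rho_continuous (n := n) (k := k) ha ht
  have h1 : ∫ θ in (u0 / sigma n k a t)..(u / sigma n k a t), rho n k a t θ ≤
      ∫ _θ in (u0 / sigma n k a t)..(u / sigma n k a t), g := by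
    refine intervalIntegral.integral_mono_on_of_le_Ioo
      (div_le_div_of_nonneg_right hu hσ.le) (hcρ.intervalIntegrable _ _)
      (by exact intervalIntegrable_const) ?_
    intro θ hθ
    refine h θ ?_ ?_
    · have := mul_lt_mul_of_pos_left hθ.1 hσ
      rwa [mul_div_cancel₀ _ hσ.ne'] at this
    · have := mul_lt_mul_of_pos_left hθ.2 hσ
      rwa [mul_div_cancel₀ _ hσ.ne'] at this
  rw [intervalIntegral.integral_const, smul_eq_mul] at h1
  calc _ ≤ sigma n k a t * ((u / sigma n k a t - u0 / sigma n k a t) * g) :=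
        mul_le_mul_of_nonneg_left h1 hσ.le
    _ = (u - u0) * g := by
        field_simp

theorem core'_lo {n k a : ℕ} {t M ρ s sc kk : ℝ} {P0 : ℕ} (R : RegI n k a t M ρ s sc kk P0)
    (hs : 3 / 2 ≤ s) (hkk : kk ≤ 11 / 10) (hc' : 0.1014 / sc ≤ 1 - kk ^ 2 / 3 + kk ^ 4 / 25)
    {T : ℝ} (hT : Fb (rho n k a t) (sigma n k a t) (1 / k) (3 / 2) ≤ T)
    (hκ : 3 / 2 + T ≤ 2) :
    sigma n k a t * ∫ θ in (0 : ℝ)..(th1 k t), rho n k a t θ ≤ 2 := by
  rw [th1_lo R.hk R.hkt]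
  have hsig := sig2_pos' R
  have hσ : 0 < sigma n k a t := Real.sqrt_pos.2 hsig
  have hk : (0 : ℝ) < k := by
    have := R.hk
    exact_mod_cast (by omega : 0 < k)
  have hcut := lo_cut R hs
  have hcρ := rho_continuous (n := n) (k := k) R.ha.pos R.ht
  have h1 := mass_le (n := n) (k := k) (a := a) (t := t) (u0 := 0) (u := 3 / 2) (g := 1) R.ha.pos
    R.ht hsig (by norm_num) (fun θ h0 h1 => by
      have hθ : 0 < θ := (mul_pos_iff_of_pos_left hσ).1 h0
      refine rho_le_one_I R hkk hc' hθ ?_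
      have h2 : θ ≤ 3 / 2 / sigma n k a t := by
        rw [le_div_iff₀ hσ]; linarith
      have h3 := h2.trans hcut
      rw [le_div_iff₀ hk] at h3
      linarith)
  rw [zero_div] at h1
  have h2 := (le_Fb (b := 1 / (k : ℝ)) (u := 3 / 2) (fun x => rho_nonneg n k a t x) hσ).trans hT
  have h3 : ∫ θ in (0 : ℝ)..(1 / k), rho n k a t θ =
      (∫ θ in (0 : ℝ)..(3 / 2 / sigma n k a t), rho n k a t θ) +
      ∫ θ in (3 / 2 / sigma n k a t)..(1 / k), rho n k a t θ :=
    (intervalIntegral.integral_add_adjacent_intervals (hcρ.intervalIntegrable _ _)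
      (hcρ.intervalIntegrable _ _)).symm
  rw [h3, mul_add]
  linarith

/-! ### `k t ≥ 2/3` -/

theorem sig_pos_of {n k a : ℕ} {t Vm E C : ℝ} (D : BData n k a t Vm E C) (hVm : 12 ≤ Vm) :
    0 < sig2 n k a t ∧ 3 ≤ sigma n k a t * t := by
  have ht := D.ht
  have h1 : 12 ≤ t ^ 2 * sig2 n k a t := hVm.trans D.hVm
  have h2 : 0 < sig2 n k a t :=
    (mul_pos_iff_of_pos_left (by positivity : 0 < t ^ 2)).1 (by linarith)
  refine ⟨h2, ?_⟩
  have h3 : sigma n k a t ^ 2 = sig2 n k a t := Real.sq_sqrt h2.le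
  have h4 : 3 ^ 2 ≤ (sigma n k a t * t) ^ 2 := by
    rw [mul_pow, h3]
    linarith
  have h5 : 0 ≤ sigma n k a t * t := mul_nonneg (Real.sqrt_nonneg _) ht.le
  exact (pow_le_pow_iff_left₀ (by norm_num) h5 (by norm_num)).1 h4

theorem hi_cut {n k a : ℕ} {t Vm E C : ℝ} (D : BData n k a t Vm E C) (hVm : 12 ≤ Vm) :
    3 / 2 / sigma n k a t ≤ t / 2 := by
  obtain ⟨h1, h2⟩ := sig_pos_of D hVm
  have hσ : 0 < sigma n k a t := Real.sqrt_pos.2 h1
  rw [div_le_iff₀ hσ]
  linarith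

theorem hi_tail {n k a : ℕ} {t Vm E C T1 T2 : ℝ} (D : BData n k a t Vm E C) (hVm : 12 ≤ Vm)
    (h1 : Fb (rho n k a t) (sigma n k a t) (t / 2) (3 / 2) ≤ T1) (h2 : T2P n k a t T2) :
    sigma n k a t * ∫ θ in (3 / 2 / sigma n k a t)..(3 / 2 * t), rho n k a t θ ≤ T1 + T2 := by
  obtain ⟨hs, _⟩ := sig_pos_of D hVm
  have hσ : 0 < sigma n k a t := Real.sqrt_pos.2 hs
  have hcρ := rho_continuous (n := n) (k := k) D.ha.pos D.ht
  have h3 := (le_Fb (b := t / 2) (u := 3 / 2) (fun x => rho_nonneg n k a t x) hσ).trans h1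
  have h4 : ∫ θ in (3 / 2 / sigma n k a t)..(3 / 2 * t), rho n k a t θ =
      (∫ θ in (3 / 2 / sigma n k a t)..(t / 2), rho n k a t θ) +
      ∫ θ in (t / 2)..(3 / 2 * t), rho n k a t θ :=
    (intervalIntegral.integral_add_adjacent_intervals (hcρ.intervalIntegrable _ _)
      (hcρ.intervalIntegrable _ _)).symm
  unfold T2P at h2
  rw [h4, mul_add]
  linarith

theorem core_hi {n k a : ℕ} {t Vm E C T1 T2 κ : ℝ} (D : BData n k a t Vm E C) (hVm : 12 ≤ Vm)
    (hkt : 2 / 3 ≤ k * t)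
    (h1 : Fb (rho n k a t) (sigma n k a t) (t / 2) (3 / 2) ≤ T1) (h2 : T2P n k a t T2)
    (hκ : κ ≤ 0.9974 - 0.8925 * (9 / 20 / Vm) - (T1 + T2)) (hP : PosAll k a) {f : Polynomial ℚ}
    (hf : f * poch (-Polynomial.X : Polynomial ℚ) k = num n k a) :
    κ * rev f (Real.exp (-t)) / sigma n k a t ≤
      ∫ θ in (0 : ℝ)..(th1 k t), reR f t (mu n k a f t) θ := by
  rw [th1_hi D.hk hkt]
  obtain ⟨hs, _⟩ := sig_pos_of D hVm
  have hcut := hi_cut D hVm
  have ht := D.ht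
  refine core_gen D.hnk D.hk D.ha hP hf ht hs ?_
    (fun L hL => (PP_le hL ht (by linarith) D.hVm).1) (by linarith) (hi_tail D hVm h1 h2) hκ
  rw [div_le_div_iff₀ (by linarith) (by norm_num)]
  linarith

theorem core'_hi {n k a : ℕ} {t Vm E C T1 T2 W u1 g : ℝ} (D : BData n k a t Vm E C)
    (hVm : 12 ≤ Vm) (hkt : 2 / 3 ≤ k * t)
    (h1 : Fb (rho n k a t) (sigma n k a t) (t / 2) (3 / 2) ≤ T1) (h2 : T2P n k a t T2)
    (hu1 : u1 ≤ 3 / 2) (hu0 : 0 ≤ u1)
    (hr1 : ∀ θ, 0 < θ → θ ≤ t / 2 → rho n k a t θ ≤ 1)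
    (hr2 : ∀ θ, θ ≤ t / 2 → u1 ≤ sigma n k a t * θ → rho n k a t θ ≤ g)
    (hW : u1 * 1 + (3 / 2 - u1) * g + (T1 + T2) ≤ W) :
    sigma n k a t * ∫ θ in (0 : ℝ)..(th1 k t), rho n k a t θ ≤ W := by
  rw [th1_hi D.hk hkt]
  obtain ⟨hs, _⟩ := sig_pos_of D hVm
  have hσ : 0 < sigma n k a t := Real.sqrt_pos.2 hs
  have hcut := hi_cut D hVm
  have hcρ := rho_continuous (n := n) (k := k) D.ha.pos D.ht
  have hle : ∀ θ, sigma n k a t * θ < 3 / 2 → θ ≤ t / 2 := by
    intro θ h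
    have h3 : θ ≤ 3 / 2 / sigma n k a t := by
      rw [le_div_iff₀ hσ]; linarith
    exact h3.trans hcut
  have m1 := mass_le (n := n) (k := k) (a := a) (t := t) (u0 := 0) (u := u1) (g := 1) D.ha.pos
    D.ht hs hu0 (fun θ h0 h1 =>
      hr1 θ ((mul_pos_iff_of_pos_left hσ).1 h0) (hle θ (h1.trans_le hu1)))
  have m2 := mass_le (n := n) (k := k) (a := a) (t := t) (u0 := u1) (u := 3 / 2) (g := g) D.ha.pos
    D.ht hs hu1 (fun θ h0 h1 => hr2 θ (hle θ h1) h0.le)
  rw [zero_div] at m1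
  have m3 := hi_tail D hVm h1 h2
  have h4 : ∫ θ in (0 : ℝ)..(3 / 2 * t), rho n k a t θ =
      (∫ θ in (0 : ℝ)..(u1 / sigma n k a t), rho n k a t θ) +
      (∫ θ in (u1 / sigma n k a t)..(3 / 2 / sigma n k a t), rho n k a t θ) +
      ∫ θ in (3 / 2 / sigma n k a t)..(3 / 2 * t), rho n k a t θ := by
    rw [intervalIntegral.integral_add_adjacent_intervals (hcρ.intervalIntegrable _ _)
      (hcρ.intervalIntegrable _ _), intervalIntegral.integral_add_adjacent_intervals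
      (hcρ.intervalIntegrable _ _) (hcρ.intervalIntegrable _ _)]
  rw [h4, mul_add, mul_add]
  linarith

/-! ### The data for `k t ≥ 1` -/

theorem QS_le_SS_fin {n k a : ℕ} (ha3 : 3 ≤ a) {t X : ℝ} (ht : 0 < t) :
    QS n k a t 1 0 X ≤ SS n k a t := by
  unfold QS SS
  refine sum_le_sum fun i hi => ?_
  have h := Sd_nonneg (n := n) ha3 (mem_Icc.1 hi).1 ht
  split
  · simp
  · exact h

theorem SS_of_SData {n k a : ℕ} (ha3 : 3 ≤ a) {t X v w err τ σX : ℝ} (ht : 0 < t)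
    (S : SData n k a t X v w err τ σX) : v / (2 * t) - err ≤ SS n k a t := by
  have h := S.hQ 1 0 le_rfl (by simp)
  refine le_trans (le_of_eq ?_) (h.trans (QS_le_SS_fin ha3 ht))
  ring

theorem bdata_of {n k a : ℕ} {t : ℝ} (hi : Hi n k a t) (hS : BlockSUM) {A B H0 Vm : ℝ}
    (hH : H0 ≤ 1 / (2 * t)) (hSS : A / (2 * t) - B ≤ SS n k a t) (h1 : Vm ≤ A * H0 - B)
    (hA : 2 / 3 ≤ 48 / 5 * A) (h2 : 5 + 2 / 3 * H0 ≤ 48 / 5 * (A * H0 - B)) :
    BData n k a t Vm (101 / 50) 4 := by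
  obtain ⟨-, -, -, -, -, -, hJ, hV⟩ := hS n k a t hi
  obtain ⟨hp, hd, _⟩ := hi
  have ht := hd.2.1
  have hA0 : 0 ≤ A := by linarith
  have e1 : A / (2 * t) = A * (1 / (2 * t)) := by ring
  have e2 : 1 / (3 * t) = 2 / 3 * (1 / (2 * t)) := by
    field_simp
  rw [e1] at hSS
  have h3 := mul_le_mul_of_nonneg_left hH hA0
  refine ⟨hp.1, hp.2.1, hp.2.2.1, hd.1, ht, hd.2.2.1, ?_, hV, hJ, ?_⟩
  · have h4 := SS_le_sig2 hp.1 hp.2.1 (by have := hd.1; omega) ht
    linarith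
  · rw [e2]
    have h5 := mul_le_mul_of_nonneg_left hH (show (0 : ℝ) ≤ 48 / 5 * A - 2 / 3 by linarith)
    nlinarith

theorem H_ge {t c : ℝ} (ht : 0 < t) (_hc : 0 < c) (h : c * t ≤ 1) : c / 2 ≤ 1 / (2 * t) := by
  rw [div_le_div_iff₀ (by norm_num) (by positivity)]
  linarith

/-- The data of all cases `k t ≥ 1`: `(Vm, T1, T2)`. -/
theorem hi_data (hS : BlockSUM) (hZ2 : BlockZ2) {n k a : ℕ} {t : ℝ}
    (hi : Hi n k a t) :
    (k < 500 → BData n k a t 16 (101 / 50) 4 ∧ T2P n k a t (27 / 100)) ∧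
    (500 ≤ k → BData n k a t 31 (101 / 50) 4 ∧
      (k * t ≤ 2 → T2P n k a t (2 / 100)) ∧ (2 ≤ k * t → T2P n k a t (178 / 1000))) := by
  have hp := hi.hp
  have hd := hi.hd
  have hkt := hi.h1
  have ht := hd.2.1
  have ht' := hd.2.2.1
  have ha3 := hp.2.2.1
  have hk26 := hd.1
  obtain ⟨s1, s1', s54, s32, s2, s3, -, -⟩ := hS n k a t hi
  have hH : 1000 / 31 ≤ 1 / (2 * t) := by
    have := H_ge ht (c := 2000 / 31) (by norm_num) (by linarith)
    linarith
  -- the case `k t ≥ 2`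
  have big : 2 ≤ k * t → T2P n k a t (178 / 1000) ∧ 853 / 1000 / (2 * t) - 2001 / 1000 ≤
      SS n k a t := by
    intro h2
    have h3 : 2 ≤ (k + 1) * t := by linarith
    exact ⟨hZ2.2.2.2 n k a t hi s1 (s54 (by linarith)) (s32 (by linarith)) (s2 h3),
      SS_of_SData ha3 ht (s2 h3)⟩
  constructor
  · intro hk5
    rcases Nat.lt_or_ge k 200 with hk2 | hk2
    · have S := s1' hk2
      exact ⟨bdata_of hi hS hH (SS_of_SData ha3 ht S) (by norm_num) (by norm_num) (by norm_num),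
        hZ2.1 n k a t hi S⟩
    · rcases le_total (k * t) 2 with h2 | h2
      · have hk' : (200 : ℝ) ≤ k := by exact_mod_cast hk2
        have h3 : 100 * t ≤ 1 := by nlinarith
        have hH' : 50 ≤ 1 / (2 * t) := by
          have := H_ge ht (c := 100) (by norm_num) h3
          linarith
        exact ⟨bdata_of hi hS hH' (SS_of_SData ha3 ht s1) (by norm_num) (by norm_num)
          (by norm_num), hZ2.2.1 n k a t hi h3 s1⟩
      · obtain ⟨b1, b2⟩ := big h2
        refine ⟨bdata_of hi hS hH b2 (by norm_num) (by norm_num) (by norm_num), ?_⟩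
        unfold T2P at b1 ⊢
        linarith
  · intro hk5
    have hk' : (500 : ℝ) ≤ k := by exact_mod_cast hk5
    refine ⟨?_, ?_, fun h2 => (big h2).1⟩
    · rcases le_total (k * t) 2 with h2 | h2
      · have h3 : 250 * t ≤ 1 := by nlinarith
        have hH' : 125 ≤ 1 / (2 * t) := by
          have := H_ge ht (c := 250) (by norm_num) h3
          linarith
        exact bdata_of hi hS hH' (SS_of_SData ha3 ht s1) (by norm_num) (by norm_num) (by norm_num)
      · rcases le_total (k * t) 3 with h3 | h3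
        · have h4 : 500 / 3 * t ≤ 1 := by nlinarith
          have hH' : 250 / 3 ≤ 1 / (2 * t) := by
            have := H_ge ht (c := 500 / 3) (by norm_num) h4
            linarith
          exact bdata_of hi hS hH' (big h2).2 (by norm_num) (by norm_num) (by norm_num)
        · have h4 : 3 ≤ (k + 1) * t := by linarith
          exact bdata_of hi hS hH (s3 h4) (by norm_num) (by norm_num) (by norm_num)
    · intro h2
      have h3 : 250 * t ≤ 1 := by nlinarith
      exact hZ2.2.2.1 n k a t hi h3 s1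

theorem core_of (hZ1 : BlockZ1) (hS : BlockSUM) (hZ2 : BlockZ2) (hR : BlockR2) : CORE := by
  intro n k a t f hp hd hf hP
  have ht := hd.2.1
  have hk26 := hd.1
  rcases le_total (k * t) (2 / 3) with h23 | h23
  · -- `k t ≤ 2/3`
    rcases Nat.lt_or_ge k 500 with hk5 | hk5
    · rw [if_neg (by omega)]
      rcases Nat.lt_or_ge k 32 with hk3 | hk3
      · have R := regime_a1 hp hd hk3
        exact core_lo R (by norm_num) (T_a1 R) (by norm_num) hP hf
      · have R : RegI n k a t 5 (61 / 10) (527 / 100) (107 / 125) (33 / 32) 16 := by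
          rcases Nat.lt_or_ge k 60 with hk6 | hk6
          · exact regime_b1 hp hd hk3 hk6 h23
          · exact regime_b2 hp hd hk6 h23
        exact core_lo R (by norm_num) (T_b R) (by norm_num) hP hf
    · rw [if_pos hk5]
      have R := regime_c hp hd hk5 h23
      exact core_lo R (by norm_num) (T_c R) (by norm_num) hP hf
  · rcases le_total (k * t) 1 with h1 | h1
    · -- `2/3 ≤ k t ≤ 1`
      obtain ⟨-, D, t2, t2'⟩ := hR n k a t hp hd h23 h1
      have t1 := hZ1.1 n k a t D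
      rcases Nat.lt_or_ge k 500 with hk5 | hk5
      · rw [if_neg (by omega)]
        exact core_hi D le_rfl h23 t1 t2 (by norm_num) hP hf
      · rw [if_pos hk5]
        exact core_hi D le_rfl h23 t1 (t2' (by omega)) (by norm_num) hP hf
    · -- `k t ≥ 1`
      obtain ⟨d1, d2⟩ := hi_data hS hZ2 (⟨hp, hd, h1⟩ : Hi n k a t)
      rcases Nat.lt_or_ge k 500 with hk5 | hk5
      · rw [if_neg (by omega)]
        obtain ⟨D, t2⟩ := d1 hk5
        exact core_hi D (by norm_num) h23 (hZ1.2.1 n k a t D) t2 (by norm_num) hP hf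
      · rw [if_pos hk5]
        obtain ⟨D, ta, tb⟩ := d2 hk5
        have t1 := hZ1.2.2.1 n k a t D
        rcases le_total (k * t) 2 with h2 | h2
        · exact core_hi D (by norm_num) h23 t1 (ta h2) (by norm_num) hP hf
        · exact core_hi D (by norm_num) h23 t1 (tb h2) (by norm_num) hP hf

theorem core'_of (hZ1 : BlockZ1) (hS : BlockSUM) (hZ2 : BlockZ2) (hR : BlockR2) : CORE' := by
  intro n k a t hp hd hk5
  have ht := hd.2.1
  have hk26 := hd.1
  rcases le_total (k * t) (2 / 3) with h23 | h23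
  · have R := regime_c hp hd hk5 h23
    exact core'_lo R (by norm_num) (by norm_num) (by norm_num) (T_c R) (by norm_num)
  · rcases le_total (k * t) 1 with h1 | h1
    · obtain ⟨-, D, t2, t2'⟩ := hR n k a t hp hd h23 h1
      have t1 := hZ1.1 n k a t D
      have r1 := fun θ h0 h => hZ1.2.2.2.1 n k a t 12 (129 / 100) (129 / 125) θ D (by norm_num)
        (by norm_num) (by norm_num) h0 h
      refine core'_hi D le_rfl h23 t1 (t2' (by omega)) (u1 := 3 / 2) (g := 1) le_rfl (by norm_num)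
        r1 (fun θ h h' => ?_) (by norm_num)
      refine r1 θ ?_ h
      have hσ : 0 < sigma n k a t := Real.sqrt_pos.2 (sig_pos_of D le_rfl).1
      exact (mul_pos_iff_of_pos_left hσ).1 (by linarith)
    · obtain ⟨-, d2⟩ := hi_data hS hZ2 (⟨hp, hd, h1⟩ : Hi n k a t)
      obtain ⟨D, ta, tb⟩ := d2 hk5
      have t1 := hZ1.2.2.1 n k a t D
      have r1 := fun θ h0 h => hZ1.2.2.2.1 n k a t 31 (101 / 50) 4 θ D (by norm_num)
        le_rfl le_rfl h0 h
      have r2 := fun θ h h' => hZ1.2.2.2.2 n k a t θ D h h'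
      rcases le_total (k * t) 2 with h2 | h2
      · exact core'_hi D (by norm_num) h23 t1 (ta h2) (u1 := 1) (g := 65 / 100) (by norm_num)
          (by norm_num) r1 r2 (by norm_num)
      · exact core'_hi D (by norm_num) h23 t1 (tb h2) (u1 := 1) (g := 65 / 100) (by norm_num)
          (by norm_num) r1 r2 (by norm_num)

end Pool.Agent.SignedQ.Core
end

section

/-! # Core region, block SUM, part (4): the bound `hV` (helper37) -/

namespace Pool.Agent.SignedQ.Core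

open Real Finset Pool.Agent.SignedQ.An

/-! ### The function `s` on `[1, ∞)` -/

theorem sf_eq_q {x : ℝ} (hx : 0 < x) :
    sf x = 4 * x ^ 2 * exp (-(2 * x)) / (1 - exp (-(2 * x))) ^ 2 := by
  have h1 : exp (-x) = exp x * exp (-(2 * x)) := by rw [← exp_add]; congr 1; ring
  have h2 : exp x ^ 2 * exp (-(2 * x)) = 1 := by
    rw [← exp_nat_mul, ← exp_add]
    push_cast
    rw [show 2 * x + -(2 * x) = 0 by ring, exp_zero]
  have h3 : exp (-(2 * x)) < 1 := by
    rw [exp_lt_one_iff]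
    linarith
  unfold sf
  rw [sinh_eq, h1]
  set q := exp (-(2 * x)) with hq
  have h4 : 1 - q ≠ 0 := by linarith
  have h5 := (exp_pos x).ne'
  have e : ((exp x - exp x * q) / 2) ^ 2 = exp x ^ 2 * (1 - q) ^ 2 / 4 := by ring
  rw [e, div_eq_div_iff (by positivity) (by positivity)]
  have : 4 * x ^ 2 * q * (exp x ^ 2 * (1 - q) ^ 2 / 4) = x ^ 2 * (1 - q) ^ 2 * (exp x ^ 2 * q) := by
    ring
  rw [this, h2]
  ring

/-- `s(x) ≤ 4 X² Q/(1-Q)²` at `x = X`. -/
theorem sf_le_of_q {x Q : ℝ} (hx : 0 < x) (hQ : exp (-(2 * x)) ≤ Q) (hQ1 : Q < 1) :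
    sf x ≤ 4 * x ^ 2 * Q / (1 - Q) ^ 2 := by
  rw [sf_eq_q hx]
  have h0 := exp_pos (-(2 * x))
  have hQ0 : 0 < Q := h0.trans_le hQ
  refine div_le_div₀ (by positivity) ?_ (by have : 0 < 1 - Q := by linarith
                                            positivity) ?_
  · exact mul_le_mul_of_nonneg_left hQ (by positivity)
  · exact pow_le_pow_left₀ (by linarith) (by linarith) 2

/-- The upper bound of `s` on `[1, ∞)`. -/
noncomputable def sU (x : ℝ) : ℝ := 4 * x ^ 2 * (exp (-(2 * x)) + 2 * exp (-(2 * x)) ^ 2 +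
  3 * exp (-(2 * x)) ^ 3 + 5 * exp (-(2 * x)) ^ 4)

theorem exp_neg_two_le : exp (-(2 : ℝ)) ≤ 0.13534 := by
  rw [exp_neg, inv_le_comm₀ (exp_pos _) (by norm_num)]
  refine le_trans ?_ (sum_le_exp_of_nonneg (by norm_num) 14)
  norm_num [Finset.sum_range_succ, Nat.factorial]

theorem sf_le_sU {x : ℝ} (hx : 1 ≤ x) : sf x ≤ sU x := by
  have hq1 : exp (-(2 * x)) ≤ 0.13534 :=
    (exp_le_exp.2 (by linarith)).trans exp_neg_two_le
  have hq0 := exp_pos (-(2 * x))
  rw [sf_eq_q (by linarith)]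
  unfold sU
  set q := exp (-(2 * x)) with hq
  have h1 : 0 < 1 - q := by norm_num at hq1; linarith
  rw [mul_div_assoc]
  refine mul_le_mul_of_nonneg_left ?_ (by positivity)
  rw [div_le_iff₀ (by positivity)]
  have h2 : (q + 2 * q ^ 2 + 3 * q ^ 3 + 5 * q ^ 4) * (1 - q) ^ 2 - q =
      q ^ 4 * (1 - 7 * q + 5 * q ^ 2) := by ring
  have h3 : 0 ≤ q ^ 4 * (1 - 7 * q + 5 * q ^ 2) := by
    refine mul_nonneg (by positivity) ?_
    norm_num at hq1
    nlinarith [sq_nonneg q]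
  linarith

/-! ### The primitive -/

noncomputable def Em (m x : ℝ) : ℝ := exp (-(2 * m * x)) * (2 * x ^ 2 + 2 * x / m + 1 / m ^ 2)

theorem Em_deriv {m : ℝ} (hm : m ≠ 0) (x : ℝ) :
    HasDerivAt (Em m) (-(4 * m * x ^ 2 * exp (-(2 * m * x)))) x := by
  have h1 : HasDerivAt (fun x : ℝ => exp (-(2 * m * x))) (exp (-(2 * m * x)) * (-(2 * m))) x := by
    have := ((hasDerivAt_id x).const_mul (2 * m)).neg.exp
    refine this.congr_deriv ?_
    simp
  have h2 : HasDerivAt (fun x : ℝ => 2 * x ^ 2 + 2 * x / m + 1 / m ^ 2) (4 * x + 2 / m) x := by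
    have := ((((hasDerivAt_pow 2 x).const_mul 2).add
      (((hasDerivAt_id x).const_mul 2).div_const m)).add_const (1 / m ^ 2))
    refine this.congr_deriv ?_
    push_cast
    ring
  refine (h1.mul h2).congr_deriv ?_
  field_simp
  ring

theorem Em_nonneg {m x : ℝ} (hm : 0 < m) (hx : 0 ≤ x) : 0 ≤ Em m x := by
  unfold Em
  positivity

/-- `∫_x^∞ sU`. -/
noncomputable def TT (x : ℝ) : ℝ := Em 1 x + Em 2 x + Em 3 x + 5 / 4 * Em 4 x

theorem exp_pow_q (m : ℕ) (x : ℝ) : exp (-(2 * (m : ℝ) * x)) = exp (-(2 * x)) ^ m := by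
  rw [← exp_nat_mul]
  congr 1
  ring

theorem TT_deriv (x : ℝ) : HasDerivAt TT (-(sU x)) x := by
  have h := (((Em_deriv (m := 1) (by norm_num) x).add (Em_deriv (m := 2) (by norm_num) x)).add
    (Em_deriv (m := 3) (by norm_num) x)).add
    ((Em_deriv (m := 4) (by norm_num) x).const_mul (5 / 4))
  refine h.congr_deriv ?_
  have e1 := exp_pow_q 1 x
  have e2 := exp_pow_q 2 x
  have e3 := exp_pow_q 3 x
  have e4 := exp_pow_q 4 x
  push_cast at e1 e2 e3 e4
  rw [e1, e2, e3, e4]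
  unfold sU
  ring

theorem TT_nonneg {x : ℝ} (hx : 0 ≤ x) : 0 ≤ TT x := by
  unfold TT
  have h1 := Em_nonneg (m := 1) (by norm_num) hx
  have h2 := Em_nonneg (m := 2) (by norm_num) hx
  have h3 := Em_nonneg (m := 3) (by norm_num) hx
  have h4 := Em_nonneg (m := 4) (by norm_num) hx
  linarith

theorem TT_step {x y : ℝ} (hx : 1 ≤ x) (hxy : x ≤ y) : (y - x) * sf y ≤ TT x - TT y := by
  have hm := mono_of_deriv (f := fun z => -TT z - z * sf y) (f' := fun z => sU z - sf y)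
    (convex_Icc x y) (fun z _ => by
      have := (TT_deriv z).neg.sub ((hasDerivAt_id z).mul_const (sf y))
      refine this.congr_deriv ?_
      ring) (fun z hz => by
      have h1 := sf_le_sU (hx.trans hz.1)
      have h2 := sf_anti (x := z) (y := y) (by linarith [hz.1]) hz.2
      linarith)
  have := hm (Set.left_mem_Icc.2 hxy) (Set.right_mem_Icc.2 hxy) hxy
  simp only at this
  linarith

theorem TT_anti {x y : ℝ} (hx : 1 ≤ x) (hxy : x ≤ y) : TT y ≤ TT x := by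
  have h1 := TT_step hx hxy
  have h2 := mul_nonneg (sub_nonneg.2 hxy) (sf_pos (x := y) (by linarith)).le
  linarith

/-! ### The sum beyond `X` -/

theorem tail_sum {X t : ℝ} (hX : 1 ≤ X) (ht : 0 < t) (P : ℕ) :
    ∑ i ∈ Icc 1 P, (if cc i * (t / 2) ≤ X then 0 else sf (cc i * (t / 2))) ≤
      (if cc P * (t / 2) ≤ X then 0 else sf X + (TT X - TT (cc P * (t / 2))) / (2 * t)) := by
  have hs : cc 0 = 2 := by unfold cc; norm_num
  have hX0 : 0 ≤ sf X := (sf_pos (by linarith)).le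
  induction P with
  | zero =>
    simp only [Finset.Icc_eq_empty (by norm_num : ¬ (1 : ℕ) ≤ 0), Finset.sum_empty]
    split_ifs with h
    · exact le_rfl
    · have h1 := TT_anti hX (not_le.1 h).le
      have h2 : 0 ≤ (TT X - TT (cc 0 * (t / 2))) / (2 * t) :=
        div_nonneg (by linarith) (by linarith)
      linarith
  | succ P ih =>
    have hcc : cc (P + 1) * (t / 2) = cc P * (t / 2) + 2 * t := by
      unfold cc
      push_cast
      ring
    rw [sum_Icc_succ_top (by omega : 1 ≤ P + 1)]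
    by_cases h : cc (P + 1) * (t / 2) ≤ X
    · rw [if_pos h, if_pos h]
      rw [if_pos (by linarith)] at ih
      linarith
    · rw [if_neg h, if_neg h]
      by_cases h' : cc P * (t / 2) ≤ X
      · rw [if_pos h'] at ih
        have h1 := sf_anti (x := X) (y := cc (P + 1) * (t / 2)) (by linarith) (not_le.1 h).le
        have h2 := TT_anti hX (not_le.1 h).le
        have h3 : 0 ≤ (TT X - TT (cc (P + 1) * (t / 2))) / (2 * t) :=
          div_nonneg (by linarith) (by linarith)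
        linarith
      · rw [if_neg h'] at ih
        have h1 := TT_step (x := cc P * (t / 2)) (y := cc (P + 1) * (t / 2))
          (hX.trans (not_le.1 h').le) (by linarith)
        have h2 : sf (cc (P + 1) * (t / 2)) ≤
            (TT (cc P * (t / 2)) - TT (cc (P + 1) * (t / 2))) / (2 * t) := by
          rw [le_div_iff₀ (by linarith)]
          calc sf (cc (P + 1) * (t / 2)) * (2 * t)
              = (cc (P + 1) * (t / 2) - cc P * (t / 2)) * sf (cc (P + 1) * (t / 2)) := by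
                rw [hcc]; ring
            _ ≤ _ := h1
        have e : (TT X - TT (cc (P + 1) * (t / 2))) / (2 * t) =
            (TT X - TT (cc P * (t / 2))) / (2 * t) +
              (TT (cc P * (t / 2)) - TT (cc (P + 1) * (t / 2))) / (2 * t) := by ring
        rw [e]
        linarith

theorem tail_sum' {X t : ℝ} (hX : 1 ≤ X) (ht : 0 < t) (P : ℕ) :
    ∑ i ∈ Icc 1 P, (if cc i * (t / 2) ≤ X then 0 else sf (cc i * (t / 2))) ≤
      sf X + TT X / (2 * t) := by
  refine (tail_sum hX ht P).trans ?_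
  have hX0 : 0 ≤ sf X := (sf_pos (by linarith)).le
  have hT := TT_nonneg (x := X) (by linarith)
  split_ifs with h
  · positivity
  · have h1 := TT_nonneg (x := cc P * (t / 2)) (by linarith [not_le.1 h])
    have h2 : (TT X - TT (cc P * (t / 2))) / (2 * t) ≤ TT X / (2 * t) :=
      div_le_div_of_nonneg_right (by linarith) (by linarith)
    linarith

theorem SS_le_QS {n k a : ℕ} (ha : 3 ≤ a) {t X : ℝ} (hX : 1 ≤ X) (ht : 0 < t) :
    SS n k a t ≤ QS n k a t 1 0 X + (sf X + TT X / (2 * t)) := by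
  have h1 : SS n k a t = QS n k a t 1 0 X +
      ∑ i ∈ Icc 1 (k / 2), (if cc i * (t / 2) ≤ X then 0 else Sd n a t i) := by
    unfold SS QS
    rw [← sum_add_distrib]
    refine sum_congr rfl fun i _ => ?_
    split_ifs <;> ring
  rw [h1]
  have h2 : ∑ i ∈ Icc 1 (k / 2), (if cc i * (t / 2) ≤ X then 0 else Sd n a t i) ≤
      ∑ i ∈ Icc 1 (k / 2), (if cc i * (t / 2) ≤ X then 0 else sf (cc i * (t / 2))) := by
    refine sum_le_sum fun i hi => ?_
    split_ifs with h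
    · exact le_rfl
    · unfold Sd
      have h3 : 0 < cc i := by unfold cc; positivity
      have h4 := cc_le_dd (n := n) ha (Finset.mem_Icc.1 hi).1
      have h5 : 0 < sf (dd n a i * (t / 2)) := sf_pos (mul_pos (by linarith) (by linarith))
      linarith
  have h3 := tail_sum' hX ht (k / 2)
  linarith

/-! ### `(k+1) t² ≤ 4/25` on the domain -/

theorem kt2_le {k : ℕ} {t : ℝ} (hd : DOM k t) : (k + 1) * t ^ 2 ≤ 4 / 25 := by
  obtain ⟨hk, ht, ht', -, hlog⟩ := hd
  have hk0 : (26 : ℝ) ≤ k := by exact_mod_cast hk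
  rcases le_or_gt (k : ℝ) 660 with h | h
  · have h1 : t ^ 2 ≤ (31 / 2000) ^ 2 := pow_le_pow_left₀ ht.le ht' 2
    calc ((k : ℝ) + 1) * t ^ 2 ≤ 661 * (31 / 2000) ^ 2 :=
          mul_le_mul (by linarith) h1 (sq_nonneg _) (by norm_num)
      _ ≤ 4 / 25 := by norm_num
  · -- `log k ≤ 4 y / e`, `y = k^{1/4}`
    set l := Real.log k with hl
    have hl0 : 0 < l := Real.log_pos (by linarith)
    have h1 : l ≤ 4 * exp (l / 4 - 1) := by
      have := add_one_le_exp (l / 4 - 1)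
      linarith
    have h2 : exp (l / 4 - 1) ^ 4 = k * exp (-4) := by
      rw [← exp_nat_mul, show ((4 : ℕ) : ℝ) * (l / 4 - 1) = l + -4 by push_cast; ring, exp_add,
        hl, Real.exp_log (by linarith)]
    -- `l⁴ ≤ 256 k e⁻⁴`
    have h3 : l ^ 4 ≤ 256 * (k * exp (-4)) := by
      calc l ^ 4 ≤ (4 * exp (l / 4 - 1)) ^ 4 := pow_le_pow_left₀ hl0.le h1 4
        _ = 256 * (k * exp (-4)) := by rw [mul_pow, h2]; norm_num
    have h4 : exp (-4 : ℝ) ≤ 0.018317 := by
      rw [exp_neg, inv_le_comm₀ (exp_pos _) (by norm_num)]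
      refine le_trans ?_ (sum_le_exp_of_nonneg (by norm_num) 20)
      norm_num [Finset.sum_range_succ, Nat.factorial]
    have h5 : l ^ 4 ≤ 4.69 * k := by
      have := mul_le_mul_of_nonneg_left h4 (show (0 : ℝ) ≤ k by linarith)
      norm_num at this ⊢
      linarith
    -- `(k t)² ≤ 1.8225 l²`
    have h6 : (k * t) ^ 2 ≤ (27 / 20 * l) ^ 2 := pow_le_pow_left₀ (by positivity) hlog 2
    have h7 : (k * t) ^ 4 ≤ (27 / 20) ^ 4 * (4.69 * k) := by
      calc (k * t) ^ 4 = ((k * t) ^ 2) ^ 2 := by ring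
        _ ≤ ((27 / 20 * l) ^ 2) ^ 2 := pow_le_pow_left₀ (by positivity) h6 2
        _ = (27 / 20) ^ 4 * l ^ 4 := by ring
        _ ≤ _ := mul_le_mul_of_nonneg_left h5 (by norm_num)
    -- `k t² = (kt)²/k ≤ 0.16 - ...`
    have h8 : ((k : ℝ) * t ^ 2) ^ 2 ≤ (0.1593 : ℝ) ^ 2 := by
      have e : ((k : ℝ) * t ^ 2) ^ 2 * k ^ 2 = (k * t) ^ 4 := by ring
      have h9 : (27 / 20 : ℝ) ^ 4 * (4.69 * k) ≤ (0.1593) ^ 2 * k ^ 2 := by
        norm_num
        nlinarith
      have h10 : ((k : ℝ) * t ^ 2) ^ 2 * k ^ 2 ≤ (0.1593) ^ 2 * k ^ 2 := by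
        rw [e]
        exact h7.trans h9
      exact le_of_mul_le_mul_right h10 (by positivity)
    have h11 : (k : ℝ) * t ^ 2 ≤ 0.1593 := le_of_sq_le_sq h8 (by norm_num)
    have h12 : t ^ 2 ≤ (31 / 2000) ^ 2 := pow_le_pow_left₀ ht.le ht' 2
    norm_num at h11 h12 ⊢
    linarith

/-- `V ≤ SS + 2.02`. -/
theorem V_le_SS {n k a : ℕ} {t : ℝ} (hp : Par n k a) (hd : DOM k t) :
    t ^ 2 * sig2 n k a t ≤ SS n k a t + 101 / 50 := by
  have hk := hd.1
  have ht := hd.2.1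
  have h := sig2_le_SS hp.1 hp.2.1 (by omega) ht
  have hk0 : (26 : ℝ) ≤ k := by exact_mod_cast hk
  have hn0 : (0 : ℝ) ≤ n := Nat.cast_nonneg n
  have ha0 : (0 : ℝ) < a := by exact_mod_cast hp.2.1.pos
  have h1 : 0 ≤ sf ((k + 1) * t) := (sf_pos (mul_pos (by linarith) ht)).le
  have h2 : 0 ≤ sf (a * (n + k) * t) := (sf_pos (mul_pos (mul_pos ha0 (by linarith)) ht)).le
  have h3 := kt2_le hd
  have e : (k + 1) / 2 * (t / 2) ^ 2 = (k + 1) * t ^ 2 / 8 := by ring
  rw [e] at h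
  linarith

theorem hV_gen {n k a : ℕ} {t X τ σX : ℝ} (hp : Par n k a) (hd : DOM k t) (hX : 1 ≤ X)
    (hτ : TT X ≤ τ) (hσ : sf X ≤ σX) :
    t ^ 2 * sig2 n k a t ≤ QS n k a t 1 0 X + τ / (2 * t) + σX + 101 / 50 := by
  have ht := hd.2.1
  have h1 := V_le_SS hp hd
  have h2 := SS_le_QS (n := n) (k := k) hp.2.2.1 hX ht
  have h3 : TT X / (2 * t) ≤ τ / (2 * t) := div_le_div_of_nonneg_right hτ (by linarith)
  linarith

/-! ### Numbers -/

theorem TT_num {X Q τ : ℝ} (hX : 0 ≤ X) (hQ : exp (-(2 * X)) ≤ Q)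
    (h : Q * (2 * X ^ 2 + 2 * X + 1) + Q ^ 2 * (2 * X ^ 2 + X + 1 / 4) +
      Q ^ 3 * (2 * X ^ 2 + 2 * X / 3 + 1 / 9) + 5 / 4 * (Q ^ 4 * (2 * X ^ 2 + X / 2 + 1 / 16)) ≤ τ) :
    TT X ≤ τ := by
  refine le_trans ?_ h
  unfold TT Em
  have e1 := exp_pow_q 1 X
  have e2 := exp_pow_q 2 X
  have e3 := exp_pow_q 3 X
  have e4 := exp_pow_q 4 X
  push_cast at e1 e2 e3 e4
  rw [e1, e2, e3, e4]
  have q0 := (exp_pos (-(2 * X))).le
  have p2 := pow_le_pow_left₀ q0 hQ 2
  have p3 := pow_le_pow_left₀ q0 hQ 3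
  have p4 := pow_le_pow_left₀ q0 hQ 4
  have f1 := mul_le_mul_of_nonneg_right hQ (show 0 ≤ 2 * X ^ 2 + 2 * X + 1 by positivity)
  have f2 := mul_le_mul_of_nonneg_right p2 (show 0 ≤ 2 * X ^ 2 + X + 1 / 4 by positivity)
  have f3 := mul_le_mul_of_nonneg_right p3 (show 0 ≤ 2 * X ^ 2 + 2 * X / 3 + 1 / 9 by positivity)
  have f4 := mul_le_mul_of_nonneg_right p4 (show 0 ≤ 2 * X ^ 2 + X / 2 + 1 / 16 by positivity)
  have g : exp (-(2 * X)) ^ 1 * (2 * X ^ 2 + 2 * X / 1 + 1 / 1 ^ 2) +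
      exp (-(2 * X)) ^ 2 * (2 * X ^ 2 + 2 * X / 2 + 1 / 2 ^ 2) +
      exp (-(2 * X)) ^ 3 * (2 * X ^ 2 + 2 * X / 3 + 1 / 3 ^ 2) +
      5 / 4 * (exp (-(2 * X)) ^ 4 * (2 * X ^ 2 + 2 * X / 4 + 1 / 4 ^ 2)) =
      exp (-(2 * X)) * (2 * X ^ 2 + 2 * X + 1) + exp (-(2 * X)) ^ 2 * (2 * X ^ 2 + X + 1 / 4) +
      exp (-(2 * X)) ^ 3 * (2 * X ^ 2 + 2 * X / 3 + 1 / 9) +
      5 / 4 * (exp (-(2 * X)) ^ 4 * (2 * X ^ 2 + X / 2 + 1 / 16)) := by ring
  rw [g]
  linarith

theorem q_one : exp (-(2 * (1 : ℝ))) ≤ 0.13534 := by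
  rw [mul_one]
  exact exp_neg_two_le

theorem q_54 : exp (-(2 * (5 / 4 : ℝ))) ≤ 0.08209 := by
  rw [exp_neg, inv_le_comm₀ (exp_pos _) (by norm_num)]
  refine le_trans ?_ (sum_le_exp_of_nonneg (by norm_num) 16)
  norm_num [Finset.sum_range_succ, Nat.factorial]

theorem q_32 : exp (-(2 * (3 / 2 : ℝ))) ≤ 0.04979 := by
  rw [exp_neg, inv_le_comm₀ (exp_pos _) (by norm_num)]
  refine le_trans ?_ (sum_le_exp_of_nonneg (by norm_num) 17)
  norm_num [Finset.sum_range_succ, Nat.factorial]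

theorem q_two : exp (-(2 * (2 : ℝ))) ≤ 0.018317 := by
  rw [exp_neg, inv_le_comm₀ (exp_pos _) (by norm_num)]
  refine le_trans ?_ (sum_le_exp_of_nonneg (by norm_num) 20)
  norm_num [Finset.sum_range_succ, Nat.factorial]

theorem hV_one {n k a : ℕ} {t : ℝ} (hp : Par n k a) (hd : DOM k t) :
    t ^ 2 * sig2 n k a t ≤ QS n k a t 1 0 1 + 7443 / 10000 / (2 * t) + 7242 / 10000 + 101 / 50 :=
  hV_gen hp hd le_rfl (TT_num (by norm_num) q_one (by norm_num))
    ((sf_le_of_q (by norm_num) q_one (by norm_num)).trans (by norm_num))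

theorem hV_54 {n k a : ℕ} {t : ℝ} (hp : Par n k a) (hd : DOM k t) :
    t ^ 2 * sig2 n k a t ≤
      QS n k a t 1 0 (5 / 4) + 5776 / 10000 / (2 * t) + 609 / 1000 + 101 / 50 :=
  hV_gen hp hd (by norm_num) (TT_num (by norm_num) q_54 (by norm_num))
    ((sf_le_of_q (by norm_num) q_54 (by norm_num)).trans (by norm_num))

theorem hV_32 {n k a : ℕ} {t : ℝ} (hp : Par n k a) (hd : DOM k t) :
    t ^ 2 * sig2 n k a t ≤
      QS n k a t 1 0 (3 / 2) + 4395 / 10000 / (2 * t) + 4964 / 10000 + 101 / 50 :=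
  hV_gen hp hd (by norm_num) (TT_num (by norm_num) q_32 (by norm_num))
    ((sf_le_of_q (by norm_num) q_32 (by norm_num)).trans (by norm_num))

theorem hV_two {n k a : ℕ} {t : ℝ} (hp : Par n k a) (hd : DOM k t) :
    t ^ 2 * sig2 n k a t ≤
      QS n k a t 1 0 2 + 2417 / 10000 / (2 * t) + 3042 / 10000 + 101 / 50 :=
  hV_gen hp hd (by norm_num) (TT_num (by norm_num) q_two (by norm_num))
    ((sf_le_of_q (by norm_num) q_two (by norm_num)).trans (by norm_num))

end Pool.Agent.SignedQ.Core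
end

section

/-! # Core region, block SUM, part (5): `JJ ≤ 4 SS` (helper37) -/

namespace Pool.Agent.SignedQ.Core

open Real Finset Pool.Agent.SignedQ.An

/-- Primitive of `(1.04 z² - 4) 4.2 z² e^{-2z}`. -/
noncomputable def WJ (y : ℝ) : ℝ :=
  exp (-(2 * y)) * (2.184 * y ^ 4 + 4.368 * y ^ 3 - 1.848 * y ^ 2 - 1.848 * y - 0.924)

theorem WJ_deriv (y : ℝ) :
    HasDerivAt WJ (-((1.04 * y ^ 2 - 4) * (4.2 * y ^ 2 * exp (-(2 * y))))) y := by
  have h1 : HasDerivAt (fun x : ℝ => exp (-(2 * x))) (exp (-(2 * y)) * (-2)) y := by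
    have := ((hasDerivAt_id y).const_mul (2 : ℝ)).neg.exp
    refine this.congr_deriv ?_
    simp
  have h2 : HasDerivAt (fun y : ℝ =>
      2.184 * y ^ 4 + 4.368 * y ^ 3 - 1.848 * y ^ 2 - 1.848 * y - 0.924)
      (8.736 * y ^ 3 + 13.104 * y ^ 2 - 3.696 * y - 1.848) y := by
    have := (((((hasDerivAt_pow 4 y).const_mul (2.184 : ℝ)).add
      ((hasDerivAt_pow 3 y).const_mul (4.368 : ℝ))).sub
      ((hasDerivAt_pow 2 y).const_mul (1.848 : ℝ))).sub
      ((hasDerivAt_id y).const_mul (1.848 : ℝ))).sub_const (0.924 : ℝ)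
    refine this.congr_deriv ?_
    push_cast
    ring
  refine (h1.mul h2).congr_deriv ?_
  ring

theorem WJ_nonneg {y : ℝ} (hy : 19 / 10 ≤ y) : 0 ≤ WJ y := by
  unfold WJ
  refine mul_nonneg (exp_pos _).le ?_
  have h1 : 0 ≤ y := by linarith
  nlinarith [mul_nonneg h1 (sub_nonneg.2 hy), mul_nonneg (mul_nonneg h1 h1) (sub_nonneg.2 hy),
    mul_nonneg (mul_nonneg (mul_nonneg h1 h1) h1) (sub_nonneg.2 hy)]

theorem q_1969 : exp (-(2 * (1969 / 1000 : ℝ))) ≤ 0.0196 := by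
  rw [exp_neg, inv_le_comm₀ (exp_pos _) (by norm_num)]
  refine le_trans ?_ (sum_le_exp_of_nonneg (by norm_num) 14)
  norm_num [Finset.sum_range_succ, Nat.factorial]

theorem WJ_num : WJ (1969 / 1000) ≤ 1.07 := by
  unfold WJ
  have h := mul_le_mul_of_nonneg_right q_1969 (show (0 : ℝ) ≤ 2.184 * (1969 / 1000) ^ 4 +
    4.368 * (1969 / 1000) ^ 3 - 1.848 * (1969 / 1000) ^ 2 - 1.848 * (1969 / 1000) - 0.924 by
      norm_num)
  refine h.trans ?_
  norm_num

theorem sf_le_42 {y : ℝ} (hy : 1969 / 1000 ≤ y) : sf y ≤ 4.2 * y ^ 2 * exp (-(2 * y)) := by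
  have hq1 : exp (-(2 * y)) ≤ 0.0196 := (exp_le_exp.2 (by linarith)).trans q_1969
  have hq0 := exp_pos (-(2 * y))
  rw [sf_eq_q (by linarith)]
  set q := exp (-(2 * y)) with hq
  norm_num at hq1
  have h1 : 0 < 1 - q := by linarith
  rw [div_le_iff₀ (by positivity)]
  have h2 : 4 ≤ 4.2 * (1 - q) ^ 2 := by
    norm_num
    nlinarith
  have h3 : 0 ≤ y ^ 2 * q := by positivity
  have h4 := mul_le_mul_of_nonneg_left h2 h3
  norm_num at h4 ⊢
  linarith

/-- One step. -/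
theorem WJ_step {x y : ℝ} (hx : 1969 / 1000 ≤ x) (hxy : x ≤ y) (hd : y ≤ x + 31 / 1000)
    (hy : 2 ≤ y) : (y - x) * ((y ^ 2 - 4) * sf y) ≤ WJ x - WJ y := by
  have hc : 0 ≤ y ^ 2 - 4 := by nlinarith
  have hm := mono_of_deriv (f := fun z => -WJ z - z * ((y ^ 2 - 4) * sf y))
    (f' := fun z => (1.04 * z ^ 2 - 4) * (4.2 * z ^ 2 * exp (-(2 * z))) - (y ^ 2 - 4) * sf y)
    (convex_Icc x y) (fun z _ => by
      have := (WJ_deriv z).neg.sub ((hasDerivAt_id z).mul_const ((y ^ 2 - 4) * sf y))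
      refine this.congr_deriv ?_
      ring) (fun z hz => by
      have hz0 : 1969 / 1000 ≤ z := hx.trans hz.1
      have h1 := sf_le_42 hz0
      have h2 := sf_anti (x := z) (y := y) (by linarith) hz.2
      have h3 : y ^ 2 - 4 ≤ 1.04 * z ^ 2 - 4 := by
        have h4 : y ≤ z + 31 / 1000 := by linarith [hz.1]
        norm_num
        nlinarith
      have h5 : (y ^ 2 - 4) * sf y ≤ (1.04 * z ^ 2 - 4) * (4.2 * z ^ 2 * exp (-(2 * z))) :=
        mul_le_mul h3 (h2.trans h1) (sf_pos (by linarith)).le (hc.trans h3)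
      linarith)
  have := hm (Set.left_mem_Icc.2 hxy) (Set.right_mem_Icc.2 hxy) hxy
  simp only at this
  linarith

theorem WJ_anti {x y : ℝ} (hx : 1969 / 1000 ≤ x) (hxy : x ≤ y) : WJ y ≤ WJ x := by
  have hm := mono_of_deriv (f := fun z => -WJ z)
    (f' := fun z => (1.04 * z ^ 2 - 4) * (4.2 * z ^ 2 * exp (-(2 * z))))
    (convex_Icc x y) (fun z _ => by
      refine (WJ_deriv z).neg.congr_deriv ?_
      ring) (fun z hz => by
      have hz0 : 1969 / 1000 ≤ z := hx.trans hz.1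
      refine mul_nonneg ?_ (by positivity)
      norm_num
      nlinarith)
  have := hm (Set.left_mem_Icc.2 hxy) (Set.right_mem_Icc.2 hxy) hxy
  simp only at this
  linarith

theorem tail_J {t : ℝ} (ht : 0 < t) (ht' : t ≤ 31 / 2000) (P : ℕ) :
    ∑ i ∈ Icc 1 P, (if cc i * (t / 2) ≤ 2 then 0 else
        ((cc i * (t / 2)) ^ 2 - 4) * sf (cc i * (t / 2))) ≤
      (if cc P * (t / 2) ≤ 2 then 0 else (WJ (1969 / 1000) - WJ (cc P * (t / 2))) / (2 * t)) := by
  induction P with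
  | zero =>
    have h : cc 0 * (t / 2) ≤ 2 := by
      unfold cc
      push_cast
      linarith
    rw [if_pos h]
    simp
  | succ P ih =>
    have hcc : cc (P + 1) * (t / 2) = cc P * (t / 2) + 2 * t := by
      unfold cc
      push_cast
      ring
    rw [sum_Icc_succ_top (by omega : 1 ≤ P + 1)]
    by_cases h : cc (P + 1) * (t / 2) ≤ 2
    · rw [if_pos h, if_pos h]
      rw [if_pos (by linarith)] at ih
      linarith
    · rw [if_neg h, if_neg h]
      have hx0 : 1969 / 1000 ≤ cc P * (t / 2) := by linarith [not_le.1 h]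
      have h1 := WJ_step (x := cc P * (t / 2)) (y := cc (P + 1) * (t / 2)) hx0 (by linarith)
        (by linarith) (not_le.1 h).le
      have h2 : ((cc (P + 1) * (t / 2)) ^ 2 - 4) * sf (cc (P + 1) * (t / 2)) ≤
          (WJ (cc P * (t / 2)) - WJ (cc (P + 1) * (t / 2))) / (2 * t) := by
        rw [le_div_iff₀ (by linarith)]
        calc ((cc (P + 1) * (t / 2)) ^ 2 - 4) * sf (cc (P + 1) * (t / 2)) * (2 * t)
            = (cc (P + 1) * (t / 2) - cc P * (t / 2)) *
              (((cc (P + 1) * (t / 2)) ^ 2 - 4) * sf (cc (P + 1) * (t / 2))) := by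
              rw [hcc]; ring
          _ ≤ _ := h1
      have e : (WJ (1969 / 1000) - WJ (cc (P + 1) * (t / 2))) / (2 * t) =
          (WJ (1969 / 1000) - WJ (cc P * (t / 2))) / (2 * t) +
            (WJ (cc P * (t / 2)) - WJ (cc (P + 1) * (t / 2))) / (2 * t) := by ring
      have h3 : 0 ≤ (WJ (1969 / 1000) - WJ (cc P * (t / 2))) / (2 * t) :=
        div_nonneg (sub_nonneg.2 (WJ_anti le_rfl hx0)) (by linarith)
      rw [e]
      by_cases h' : cc P * (t / 2) ≤ 2
      · rw [if_pos h'] at ih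
        linarith
      · rw [if_neg h'] at ih
        linarith

theorem tail_J' {t : ℝ} (ht : 0 < t) (ht' : t ≤ 31 / 2000) (P : ℕ) :
    ∑ i ∈ Icc 1 P, (if cc i * (t / 2) ≤ 2 then 0 else
        ((cc i * (t / 2)) ^ 2 - 4) * sf (cc i * (t / 2))) ≤ 1.07 / (2 * t) := by
  refine (tail_J ht ht' P).trans ?_
  split_ifs with h
  · positivity
  · refine div_le_div_of_nonneg_right ?_ (by linarith)
    have h1 := WJ_nonneg (y := cc P * (t / 2)) (by linarith [not_le.1 h])
    linarith [WJ_num]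

/-- **Part (5).** -/
theorem JJ_le_four {n k a : ℕ} {t : ℝ} (hp : Par n k a) (hd : DOM k t)
    (hQ : 2 ≤ (k + 1) * t → (4 * (853 / 1000) - 1 * (12235 / 10000)) / (2 * t) -
      2001 / 1000 * 4 ≤ QS n k a t 4 1 2) : JJ n k a t ≤ 4 * SS n k a t := by
  have ht := hd.2.1
  have ht' := hd.2.2.1
  have ha := hp.2.2.1
  have hS : ∀ i ∈ Icc 1 (k / 2), 0 ≤ Sd n a t i := fun i hi =>
    Sd_nonneg ha (Finset.mem_Icc.1 hi).1 ht
  rcases le_or_gt ((k + 1) * t) 2 with h | h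
  · unfold JJ SS
    rw [mul_sum]
    refine sum_le_sum fun i hi => mul_le_mul_of_nonneg_right ?_ (hS i hi)
    have h3 : i ≤ k / 2 := (Finset.mem_Icc.1 hi).2
    have h4 : 2 * i ≤ k := by omega
    have h5 : 2 * (i : ℝ) ≤ k := by exact_mod_cast h4
    have h6 : cc i * (t / 2) ≤ 2 := by
      unfold cc
      nlinarith [mul_le_mul_of_nonneg_right h5 ht.le]
    have h7 : 0 ≤ cc i * (t / 2) := by unfold cc; positivity
    nlinarith
  · have h1 := hQ h.le
    have e : 4 * SS n k a t - JJ n k a t = QS n k a t 4 1 2 -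
        ∑ i ∈ Icc 1 (k / 2), (if cc i * (t / 2) ≤ 2 then 0 else
          ((cc i * (t / 2)) ^ 2 - 4) * Sd n a t i) := by
      unfold SS JJ QS
      rw [mul_sum, ← sum_sub_distrib, ← sum_sub_distrib]
      refine sum_congr rfl fun i _ => ?_
      split_ifs <;> ring
    have h2 : ∑ i ∈ Icc 1 (k / 2), (if cc i * (t / 2) ≤ 2 then 0 else
          ((cc i * (t / 2)) ^ 2 - 4) * Sd n a t i) ≤
        ∑ i ∈ Icc 1 (k / 2), (if cc i * (t / 2) ≤ 2 then 0 else
          ((cc i * (t / 2)) ^ 2 - 4) * sf (cc i * (t / 2))) := by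
      refine sum_le_sum fun i hi => ?_
      split_ifs with h3
      · exact le_rfl
      · refine mul_le_mul_of_nonneg_left ?_ (by nlinarith [not_le.1 h3])
        unfold Sd
        have h4 := cc_le_dd (n := n) ha (Finset.mem_Icc.1 hi).1
        have h6 : 0 < cc i := by unfold cc; positivity
        have h5 : 0 < sf (dd n a i * (t / 2)) := sf_pos (mul_pos (by linarith) (by linarith))
        linarith
    have h3 := tail_J' ht ht' (k / 2)
    have h4 : 1000 / 31 ≤ 1 / (2 * t) := by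
      rw [le_div_iff₀ (by linarith)]
      linarith
    have e1 : (4 * (853 / 1000) - 1 * (12235 / 10000)) / (2 * t) =
        (4 * (853 / 1000) - 1 * (12235 / 10000)) * (1 / (2 * t)) := by ring
    have e2 : 1.07 / (2 * t) = 1.07 * (1 / (2 * t)) := by ring
    rw [e1] at h1
    rw [e2] at h3
    norm_num at h1 h3 h4
    linarith

/-- `QS (1, 0, X) ≤ SS`. -/
theorem QS_le_SS {n k a : ℕ} (ha : 3 ≤ a) {t : ℝ} (ht : 0 < t) (X : ℝ) :
    QS n k a t 1 0 X ≤ SS n k a t := by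
  unfold QS SS
  refine sum_le_sum fun i hi => ?_
  have h := Sd_nonneg (n := n) ha (Finset.mem_Icc.1 hi).1 ht
  split_ifs
  · linarith
  · exact h

end Pool.Agent.SignedQ.Core
end
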