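import Pool.Agent.Lib.MP_cf17a0_co.Mg.G041

section

/-! # Core region, `k t ≥ 2/3`, zone 1: the pointwise bound (helper68) -/

namespace Pool.Agent.SignedQ.Core

open Real Finset Pool.Agent.SignedQ.An

/-- `φ`. -/
noncomputable def ph (C x : ℝ) : ℝ := 2 / (2 + x) - C * x / (3 * (1 + x)) - 1 / 2000

theorem ph_nonneg {C x : ℝ} (hC : C ≤ 4) (hx : 0 ≤ x) (hx1 : x ≤ 1 / 4) : 31 / 50 ≤ ph C x := by
  unfold ph
  have h1 : (8 : ℝ) / 9 ≤ 2 / (2 + x) := by
    rw [div_le_div_iff₀ (by norm_num) (by linarith)]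
    linarith
  have h2 : C * x / (3 * (1 + x)) ≤ 4 / 15 := by
    rw [div_le_div_iff₀ (by positivity) (by norm_num)]
    nlinarith [mul_le_mul_of_nonneg_right hC hx]
  linarith

theorem ph_anti {C x y : ℝ} (hC : 0 ≤ C) (hx : 0 ≤ x) (hxy : x ≤ y) : ph C y ≤ ph C x := by
  have hy : 0 ≤ y := hx.trans hxy
  unfold ph
  have h1 : 2 / (2 + y) ≤ 2 / (2 + x) := div_le_div_of_nonneg_left (by norm_num) (by linarith)
    (by linarith)
  have h2 : C * x / (3 * (1 + x)) ≤ C * y / (3 * (1 + y)) := by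
    rw [div_le_div_iff₀ (by positivity) (by positivity)]
    nlinarith [mul_nonneg hC (sub_nonneg.2 hxy)]
  linarith

theorem xph_mono {C x y : ℝ} (hC : 0 ≤ C) (hC4 : C ≤ 4) (hx : 0 ≤ x) (hxy : x ≤ y)
    (hy : y ≤ 1 / 4) : x * ph C x ≤ y * ph C y := by
  have hy0 : 0 ≤ y := hx.trans hxy
  have e : y * ph C y - x * ph C x = (y - x) * (4 / ((2 + x) * (2 + y)) -
      C * (x + y + x * y) / (3 * ((1 + x) * (1 + y))) - 1 / 2000) := by
    unfold ph
    field_simp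
    ring
  have h1 : (16 / 25 : ℝ) ≤ 4 / ((2 + x) * (2 + y)) := by
    rw [div_le_div_iff₀ (by norm_num) (by positivity)]
    nlinarith
  have h2 : C * (x + y + x * y) / (3 * ((1 + x) * (1 + y))) ≤ 12 / 25 := by
    rw [div_le_div_iff₀ (by positivity) (by norm_num)]
    have h3 : 0 ≤ x + y + x * y := by positivity
    have h4 : C * (x + y + x * y) ≤ 4 * (x + y + x * y) := mul_le_mul_of_nonneg_right hC4 h3
    nlinarith [mul_nonneg hx hy0]
  have h5 : 0 ≤ (y - x) * (4 / ((2 + x) * (2 + y)) -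
      C * (x + y + x * y) / (3 * ((1 + x) * (1 + y))) - 1 / 2000) :=
    mul_nonneg (by linarith) (by linarith)
  linarith

theorem rho_sq' (n k a : ℕ) (t θ : ℝ) :
    rho n k a t θ ^ 2 = GG n k a t θ / GG n k a t 0 := by
  unfold rho
  exact Real.sq_sqrt (div_nonneg (GG_nonneg _ _ _ _ _) (GG_nonneg _ _ _ _ _))

/-- The pointwise bound in terms of `z`. -/
theorem rho_sq_z {n k a : ℕ} {t Vm E C : ℝ} (D : BData n k a t Vm E C) (hC : C ≤ 4)
    (hS : 0 ≤ SS n k a t) {z : ℝ} (hz : 0 < z) (hz' : z ≤ 1 / 2) :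
    rho n k a t (z * t) ^ 2 ≤ exp (-(SS n k a t * (z ^ 2 * ph C (z ^ 2)))) := by
  rw [rho_sq']
  refine (zone1 D.hnk D.ha D.ha3 (by have := D.hk; omega) D.ht D.ht' hz hz').trans
    (exp_le_exp.2 ?_)
  have h1 := LB_small D.ht D.ht' hz hz' D.hL
  have h2 : 2 * z ^ 2 / (2 + z ^ 2) ≤ log (1 + z ^ 2) := by
    have := Real.le_log_one_add_of_nonneg (sq_nonneg z)
    rwa [add_comm (z ^ 2) 2] at this
  have h3 := mul_le_mul_of_nonneg_right h2 hS
  have h4 : z ^ 4 / (3 * (1 + z ^ 2)) * JJ n k a t ≤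
      z ^ 4 / (3 * (1 + z ^ 2)) * (C * SS n k a t) :=
    mul_le_mul_of_nonneg_left D.hJ (by positivity)
  have e : SS n k a t * (z ^ 2 * ph C (z ^ 2)) = 2 * z ^ 2 / (2 + z ^ 2) * SS n k a t -
      z ^ 4 / (3 * (1 + z ^ 2)) * (C * SS n k a t) - 1 / 2000 * z ^ 2 * SS n k a t := by
    unfold ph
    field_simp
  rw [e]
  linarith

/-- The exponent. -/
noncomputable def ee (C E V u : ℝ) : ℝ := 1 / 2 * u ^ 2 * (1 - E / V) * ph C (u ^ 2 / V)

/-- **Pointwise bound.** -/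
theorem rho_le_ee {n k a : ℕ} {t Vm E C : ℝ} (D : BData n k a t Vm E C) (hC0 : 0 ≤ C)
    (hC : C ≤ 4) (hE : 0 ≤ E) {θ u V : ℝ} (hu : 0 < u) (huθ : u ≤ sigma n k a t * θ)
    (hθ : θ ≤ t / 2) (hEV : E < V) (hVm : V ≤ max Vm (4 * u ^ 2)) (hV4 : 4 * u ^ 2 ≤ V) (hVm0 : 0 < Vm) :
    rho n k a t θ ≤ exp (-ee C E V u) := by
  have ht := D.ht
  set W : ℝ := t ^ 2 * sig2 n k a t with hW
  have hWm : Vm ≤ W := D.hVm
  have hW0 : 0 < W := hVm0.trans_le hWm
  have hs0 : 0 < sig2 n k a t := by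
    by_contra h
    have : t ^ 2 * sig2 n k a t ≤ 0 := mul_nonpos_of_nonneg_of_nonpos (sq_nonneg t) (not_lt.1 h)
    linarith
  have hσ2 : sigma n k a t ^ 2 = sig2 n k a t := Real.sq_sqrt hs0.le
  have hσ : 0 < sigma n k a t := Real.sqrt_pos.2 hs0
  have hθ0 : 0 < θ := by
    by_contra h
    have : sigma n k a t * θ ≤ 0 := mul_nonpos_of_nonneg_of_nonpos hσ.le (not_lt.1 h)
    linarith
  set z : ℝ := θ / t with hz
  have hz0 : 0 < z := div_pos hθ0 ht
  have hz1 : z ≤ 1 / 2 := by rw [hz, div_le_iff₀ ht]; linarith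
  have hzt : z * t = θ := by rw [hz]; field_simp
  have hu2 : (sigma n k a t * θ) ^ 2 = W * z ^ 2 := by
    rw [mul_pow, hσ2, hW, ← hzt]; ring
  have hz2 : z ^ 2 ≤ 1 / 4 := by nlinarith
  have huz : u ^ 2 ≤ W * z ^ 2 := by
    rw [← hu2]; exact pow_le_pow_left₀ hu.le huθ 2
  have hW4 : 4 * u ^ 2 ≤ W := by nlinarith
  have hVW : V ≤ W := hVm.trans (max_le hWm hW4)
  have hV0 : 0 < V := hE.trans_lt hEV
  have hSS : W - E ≤ SS n k a t := by have := D.hV; linarith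
  have hS0 : 0 ≤ SS n k a t := by linarith
  have h1 := rho_sq_z D hC hS0 hz0 hz1
  rw [hzt] at h1
  have hx0 : 0 ≤ u ^ 2 / W := by positivity
  have hxz : u ^ 2 / W ≤ z ^ 2 := by rw [div_le_iff₀ hW0]; linarith
  have h2 := xph_mono hC0 hC hx0 hxz hz2
  have hph0 : 0 ≤ ph C (u ^ 2 / W) := by
    have := ph_nonneg hC hx0 (hxz.trans hz2); linarith
  have hxV : u ^ 2 / V ≤ 1 / 4 := by rw [div_le_iff₀ hV0]; linarith
  have h3 : ph C (u ^ 2 / V) ≤ ph C (u ^ 2 / W) := ph_anti hC0 hx0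
    (div_le_div_of_nonneg_left (sq_nonneg u) hV0 hVW)
  have h4 : 1 - E / V ≤ 1 - E / W := by
    have := div_le_div_of_nonneg_left hE hV0 hVW
    linarith
  have h5 : 0 ≤ 1 - E / V := by
    rw [sub_nonneg, div_le_one hV0]; exact hEV.le
  have hphV : 0 ≤ ph C (u ^ 2 / V) := by
    have := ph_nonneg hC (by positivity : 0 ≤ u ^ 2 / V) hxV; linarith
  have h6 : 2 * ee C E V u ≤ SS n k a t * (z ^ 2 * ph C (z ^ 2)) := by
    calc 2 * ee C E V u = u ^ 2 * ((1 - E / V) * ph C (u ^ 2 / V)) := by unfold ee; ring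
      _ ≤ u ^ 2 * ((1 - E / W) * ph C (u ^ 2 / W)) :=
          mul_le_mul_of_nonneg_left (mul_le_mul h4 h3 hphV (h5.trans h4)) (sq_nonneg u)
      _ = (W - E) * (u ^ 2 / W * ph C (u ^ 2 / W)) := by field_simp
      _ ≤ (W - E) * (z ^ 2 * ph C (z ^ 2)) :=
          mul_le_mul_of_nonneg_left h2 (by linarith)
      _ ≤ _ := mul_le_mul_of_nonneg_right hSS
          (mul_nonneg (sq_nonneg z) (by
            have := ph_nonneg hC (sq_nonneg z) hz2; linarith))
  have h7 : rho n k a t θ ^ 2 ≤ exp (-ee C E V u) ^ 2 := by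
    rw [← Real.exp_nat_mul]
    refine h1.trans (exp_le_exp.2 ?_)
    push_cast
    linarith
  exact (pow_le_pow_iff_left₀ (Real.sqrt_nonneg _) (exp_pos _).le two_ne_zero).1 h7

/-- `rho ≤ 1`. -/
theorem rho_le_one_Z {n k a : ℕ} {t Vm E C θ : ℝ} (D : BData n k a t Vm E C) (hVm : 12 ≤ Vm)
    (hE : E ≤ 101 / 50) (hC : C ≤ 4) (hθ0 : 0 < θ) (hθ : θ ≤ t / 2) : rho n k a t θ ≤ 1 := by
  have ht := D.ht
  have h1 := D.hVm
  have h2 := D.hV
  have hS0 : 0 ≤ SS n k a t := by linarith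
  have hz0 : 0 < θ / t := div_pos hθ0 ht
  have hz1 : θ / t ≤ 1 / 2 := by rw [div_le_iff₀ ht]; linarith
  have hzt : θ / t * t = θ := by field_simp
  have h3 := rho_sq_z D hC hS0 hz0 hz1
  rw [hzt] at h3
  have h4 : (θ / t) ^ 2 ≤ 1 / 4 := by nlinarith
  have h5 := ph_nonneg hC (sq_nonneg (θ / t)) h4
  have h6 : rho n k a t θ ^ 2 ≤ 1 := by
    refine h3.trans ?_
    rw [← Real.exp_zero]
    refine exp_le_exp.2 (neg_nonpos.2 (mul_nonneg hS0 (mul_nonneg (sq_nonneg _) (by linarith))))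
  have h7 : 0 ≤ rho n k a t θ := Real.sqrt_nonneg _
  nlinarith

end Pool.Agent.SignedQ.Core
end

section

/-! # Core region, `k t ≥ 2/3`, zone 1: the bins, computed over the rationals (helper68) -/

namespace Pool.Agent.SignedQ.Core

open Real Finset Pool.Agent.SignedQ.An

/-- `ph` over the rationals. -/
def phq (C x : ℚ) : ℚ := 2 / (2 + x) - C * x / (3 * (1 + x)) - 1 / 2000

/-- `ee` over the rationals, `V = max Vm (4 u²)`. -/
def eeq (C E Vm u : ℚ) : ℚ :=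
  1 / 2 * u ^ 2 * (1 - E / max Vm (4 * u ^ 2)) * phq C (u ^ 2 / max Vm (4 * u ^ 2))

/-- Lower bound of `exp e`. -/
def exq (e : ℚ) : ℚ := (1 + e / 16 + (e / 16) ^ 2 / 2 + (e / 16) ^ 3 / 6 + (e / 16) ^ 4 / 24) ^ 16

/-- `∑ (u_{j+1} - u_j) g_j`. -/
def binSum (C E Vm : ℚ) (u : ℚ) : List ℚ → ℚ
  | [] => 0
  | v :: l => (v - u) * (1 / exq (eeq C E Vm u)) + binSum C E Vm v l

/-- Equidistant points. -/
def pts (u d : ℚ) : ℕ → List ℚ
  | 0 => []
  | n + 1 => (u + d) :: pts (u + d) d n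

/-- Increasing list. -/
def incr (u : ℚ) : List ℚ → Bool
  | [] => true
  | v :: l => decide (u ≤ v) && incr v l

/-- Last element. -/
def lastq (u : ℚ) : List ℚ → ℚ
  | [] => u
  | v :: l => lastq v l

theorem eeq_cast (C E Vm u : ℚ) : ((eeq C E Vm u : ℚ) : ℝ) =
    ee C E ((max Vm (4 * u ^ 2) : ℚ) : ℝ) u := by
  unfold eeq ee phq ph
  push_cast
  ring

theorem exq_le {e : ℚ} (he : 0 ≤ e) : (exq e : ℝ) ≤ exp e := by
  unfold exq
  have h0 : (0 : ℝ) ≤ (e : ℝ) / 16 := by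
    have : (0 : ℝ) ≤ e := by exact_mod_cast he
    positivity
  have h1 := Real.sum_le_exp_of_nonneg h0 5
  simp only [sum_range_succ, range_zero, sum_empty, Nat.factorial] at h1
  push_cast at h1 ⊢
  have h2 : 1 + (e : ℝ) / 16 + (e / 16) ^ 2 / 2 + (e / 16) ^ 3 / 6 + (e / 16) ^ 4 / 24 ≤
      exp (e / 16) := by
    refine le_trans (le_of_eq ?_) h1
    ring
  calc (1 + (e : ℝ) / 16 + (e / 16) ^ 2 / 2 + (e / 16) ^ 3 / 6 + (e / 16) ^ 4 / 24) ^ 16 ≤
        exp (e / 16) ^ 16 := pow_le_pow_left₀ (by positivity) h2 16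
    _ = exp e := by
        rw [← Real.exp_nat_mul]
        congr 1
        push_cast
        ring

theorem one_le_exq {e : ℚ} (he : 0 ≤ e) : 1 ≤ exq e := by
  unfold exq
  refine one_le_pow₀ ?_
  have : 0 ≤ e / 16 + (e / 16) ^ 2 / 2 + (e / 16) ^ 3 / 6 + (e / 16) ^ 4 / 24 := by positivity
  linarith

theorem bins {n k a : ℕ} {t : ℝ} {Vm E C : ℚ} (D : BData n k a t Vm E C) (hC0 : 0 ≤ C)
    (hC : C ≤ 4) (hE : 0 ≤ E) (hEV : E < Vm) (l : List ℚ) : ∀ u : ℚ, 0 < u → incr u l = true →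
    Fb (rho n k a t) (sigma n k a t) (t / 2) u ≤
      (binSum C E Vm u l : ℝ) + Fb (rho n k a t) (sigma n k a t) (t / 2) (lastq u l) := by
  have hVm0 : (0 : ℝ) < Vm := by
    have : 0 < Vm := hE.trans_lt hEV
    exact_mod_cast this
  have hs0 : 0 < sig2 n k a t := by
    by_contra h
    have h1 : t ^ 2 * sig2 n k a t ≤ 0 := mul_nonpos_of_nonneg_of_nonpos (sq_nonneg t) (not_lt.1 h)
    have := D.hVm
    linarith
  have hσ : 0 < sigma n k a t := Real.sqrt_pos.2 hs0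
  have hC0' : (0 : ℝ) ≤ C := by exact_mod_cast hC0
  have hC' : (C : ℝ) ≤ 4 := by exact_mod_cast hC
  have hE' : (0 : ℝ) ≤ E := by exact_mod_cast hE
  induction l with
  | nil => intro u _ _; simp [binSum, lastq]
  | cons v l ih =>
    intro u hu h
    simp only [incr, Bool.and_eq_true, decide_eq_true_eq] at h
    have huv : (u : ℝ) ≤ v := by exact_mod_cast h.1
    have hu' : (0 : ℝ) < u := by exact_mod_cast hu
    have hmax : ((max Vm (4 * u ^ 2) : ℚ) : ℝ) = max (Vm : ℝ) (4 * (u : ℝ) ^ 2) := by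
      push_cast; rfl
    have hEmax : (E : ℝ) < ((max Vm (4 * u ^ 2) : ℚ) : ℝ) := by
      have : E < max Vm (4 * u ^ 2) := hEV.trans_le (le_max_left _ _)
      exact_mod_cast this
    have hVq : (0 : ℚ) < max Vm (4 * u ^ 2) := (hE.trans_lt hEV).trans_le (le_max_left _ _)
    have he0 : 0 ≤ eeq C E Vm u := by
      have h1 : 0 ≤ ((eeq C E Vm u : ℚ) : ℝ) := by
        rw [eeq_cast]
        have hV0 : (0 : ℝ) < ((max Vm (4 * u ^ 2) : ℚ) : ℝ) := by exact_mod_cast hVq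
        have hx : (u : ℝ) ^ 2 / ((max Vm (4 * u ^ 2) : ℚ) : ℝ) ≤ 1 / 4 := by
          rw [div_le_iff₀ hV0, hmax]
          have := le_max_right (Vm : ℝ) (4 * (u : ℝ) ^ 2)
          linarith
        have h2 := ph_nonneg hC' (by positivity) hx
        have h3 : 0 ≤ 1 - (E : ℝ) / ((max Vm (4 * u ^ 2) : ℚ) : ℝ) := by
          rw [sub_nonneg, div_le_one hV0]; exact hEmax.le
        unfold ee
        exact mul_nonneg (mul_nonneg (by positivity) h3) (by linarith)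
      exact_mod_cast h1
    have hg : ∀ θ, (u : ℝ) ≤ sigma n k a t * θ → sigma n k a t * θ ≤ v → θ ≤ t / 2 →
        rho n k a t θ ≤ ((1 / exq (eeq C E Vm u) : ℚ) : ℝ) := by
      intro θ h1 _ h3
      have h4 := rho_le_ee D hC0' hC' hE' (θ := θ) (u := (u : ℝ))
        (V := ((max Vm (4 * u ^ 2) : ℚ) : ℝ)) hu' h1 h3 hEmax (le_of_eq hmax)
        (by rw [hmax]; exact le_max_right _ _) hVm0
      rw [← eeq_cast] at h4
      refine h4.trans ?_
      push_cast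
      rw [Real.exp_neg, one_div]
      have h5 : (1 : ℝ) ≤ exq (eeq C E Vm u) := by exact_mod_cast one_le_exq he0
      exact inv_anti₀ (by linarith) (exq_le he0)
    have hstep := Fb_step (f := rho n k a t) (σ := sigma n k a t) (b := t / 2) (u₀ := u) (u₁ := v)
      (g := ((1 / exq (eeq C E Vm u) : ℚ) : ℝ))
      (rho_continuous (by have := D.ha3; omega) D.ht) (rho_nonneg n k a t) hσ huv
      (by
        have h5 : 1 ≤ exq (eeq C E Vm u) := one_le_exq he0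
        have : (0 : ℚ) ≤ 1 / exq (eeq C E Vm u) := by positivity
        exact_mod_cast this) hg
    have h2 := ih v (hu.trans_le h.1) h.2
    have e1 : ((binSum C E Vm u (v :: l) : ℚ) : ℝ) =
        (v - u) * ((1 / exq (eeq C E Vm u) : ℚ) : ℝ) + (binSum C E Vm v l : ℝ) := by
      simp only [binSum]; push_cast; ring
    rw [e1]
    simp only [lastq]
    linarith

/-- Beyond `u = 6`. -/
theorem tail6 {n k a : ℕ} {t Vm E C : ℝ} (D : BData n k a t Vm E C) (hC0 : 0 ≤ C)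
    (hC : C ≤ 4) (hE : 0 ≤ E) (hE2 : E ≤ 101 / 50) (hVm : 0 < Vm) :
    Fb (rho n k a t) (sigma n k a t) (t / 2) 6 ≤ 1 / 1000 := by
  have hs0 : 0 < sig2 n k a t := by
    by_contra h
    have h1 : t ^ 2 * sig2 n k a t ≤ 0 := mul_nonpos_of_nonneg_of_nonpos (sq_nonneg t) (not_lt.1 h)
    have := D.hVm
    linarith
  have hσ : 0 < sigma n k a t := Real.sqrt_pos.2 hs0
  have h := Fb_tail (f := rho n k a t) (σ := sigma n k a t) (b := t / 2) (U := 6) (D := 3 / 5)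
    (rho_continuous (by have := D.ha3; omega) D.ht) hσ (by norm_num) (by norm_num) (by
      intro θ h1 h2
      set u := sigma n k a t * θ with hu
      have hu0 : 0 < u := by linarith
      have hu6 : 36 ≤ u ^ 2 := by nlinarith
      have h3 := rho_le_ee D hC0 hC hE (θ := θ) (u := u) (V := max Vm (4 * u ^ 2)) hu0 le_rfl h2
        (lt_of_lt_of_le (by nlinarith) (le_max_right _ _)) le_rfl (le_max_right _ _) hVm
      refine h3.trans ?_
      have hV0 : 0 < max Vm (4 * u ^ 2) := hVm.trans_le (le_max_left _ _)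
      have hV4 : 4 * u ^ 2 ≤ max Vm (4 * u ^ 2) := le_max_right _ _
      have h4 : 31 / 100 * u ^ 2 * (49 / 50) ≤ ee C E (max Vm (4 * u ^ 2)) u := by
        have h5 := ph_nonneg hC (x := u ^ 2 / max Vm (4 * u ^ 2)) (by positivity)
          (by rw [div_le_iff₀ hV0]; linarith)
        have h6 : 49 / 50 ≤ 1 - E / max Vm (4 * u ^ 2) := by
          have h7 : E / max Vm (4 * u ^ 2) ≤ 1 / 50 := by
            rw [div_le_iff₀ hV0]; nlinarith
          linarith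
        unfold ee
        have h8 : 1 / 2 * u ^ 2 * (49 / 50) ≤ 1 / 2 * u ^ 2 * (1 - E / max Vm (4 * u ^ 2)) :=
          mul_le_mul_of_nonneg_left h6 (by positivity)
        calc 31 / 100 * u ^ 2 * (49 / 50) = 1 / 2 * u ^ 2 * (49 / 50) * (31 / 50) := by ring
          _ ≤ _ := mul_le_mul h8 h5 (by norm_num) (by
            refine mul_nonneg (by positivity) (by linarith))
      set y : ℝ := 1519 / 5000 * u ^ 2 with hy
      have hy0 : 0 ≤ y := by positivity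
      have h5 : y ^ 6 / 720 ≤ exp y := by
        have := Real.pow_div_factorial_le_exp y hy0 6
        simpa [Nat.factorial] using this
      have h6 : exp (-ee C E (max Vm (4 * u ^ 2)) u) ≤ exp (-y) :=
        exp_le_exp.2 (by rw [hy]; linarith)
      refine h6.trans ?_
      rw [Real.exp_neg, inv_eq_one_div, div_le_div_iff₀ (exp_pos _) (by positivity)]
      have h7 : (u ^ 2) ^ 4 * (1519 / 5000) ^ 6 ≥ 1200 := by
        have h8 : (36 : ℝ) ^ 4 ≤ (u ^ 2) ^ 4 := pow_le_pow_left₀ (by norm_num) hu6 4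
        nlinarith
      have h9 : y ^ 6 / 720 = u ^ 4 * ((u ^ 2) ^ 4 * (1519 / 5000) ^ 6) / 720 := by rw [hy]; ring
      have h10 : 0 ≤ u ^ 4 := by positivity
      nlinarith)
  refine h.trans ?_
  norm_num

end Pool.Agent.SignedQ.Core
end

section

/-! # Core region, `k t ≥ 2/3`: block Z1 (helper68) -/

namespace Pool.Agent.SignedQ.Core

open Real Finset Pool.Agent.SignedQ.An

def gr1 : List ℚ := pts (3 / 2) (1 / 10) 15 ++ (pts 3 (1 / 5) 5 ++ pts 4 (1 / 2) 4)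

def gr2 : List ℚ := pts (3 / 2) (1 / 20) 20 ++ (pts (5 / 2) (1 / 10) 10 ++
  (pts (7 / 2) (1 / 4) 4 ++ pts (9 / 2) (1 / 2) 3))

def gr3 : List ℚ := pts (3 / 2) (1 / 16) 24 ++ (pts 3 (1 / 8) 8 ++ pts 4 (1 / 4) 8)

theorem gr1_ok : incr (3 / 2) gr1 = true ∧ lastq (3 / 2) gr1 = 6 ∧
    binSum (129 / 125) (129 / 100) 12 (3 / 2) gr1 + 1 / 1000 ≤ 298 / 1000 := by decide +kernel

theorem gr2_ok : incr (3 / 2) gr2 = true ∧ lastq (3 / 2) gr2 = 6 ∧
    binSum 4 (101 / 50) 16 (3 / 2) gr2 + 1 / 1000 ≤ 4425 / 10000 := by decide +kernel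

theorem gr3_ok : incr (3 / 2) gr3 = true ∧ lastq (3 / 2) gr3 = 6 ∧
    binSum 4 (101 / 50) 31 (3 / 2) gr3 + 1 / 1000 ≤ 346 / 1000 := by decide +kernel

theorem T1P_of {C E Vm T : ℚ} {l : List ℚ} (hC0 : 0 ≤ C) (hC : C ≤ 4) (hE : 0 ≤ E)
    (hEV : E < Vm) (hE2 : E ≤ 101 / 50) (h1 : incr (3 / 2) l = true) (h2 : lastq (3 / 2) l = 6)
    (h3 : binSum C E Vm (3 / 2) l + 1 / 1000 ≤ T) {n k a : ℕ} {t : ℝ}
    (D : BData n k a t Vm E C) :
    Fb (rho n k a t) (sigma n k a t) (t / 2) (3 / 2) ≤ T := by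
  have hC0' : (0 : ℝ) ≤ C := by exact_mod_cast hC0
  have hC' : (C : ℝ) ≤ 4 := by exact_mod_cast hC
  have hE' : (0 : ℝ) ≤ E := by exact_mod_cast hE
  have hE2' : (E : ℝ) ≤ 101 / 50 := by
    have : (E : ℝ) ≤ ((101 / 50 : ℚ) : ℝ) := by exact_mod_cast hE2
    refine this.trans (le_of_eq ?_); norm_num
  have hVm : (0 : ℝ) < Vm := by exact_mod_cast hE.trans_lt hEV
  have h4 := bins D hC0 hC hE hEV l (3 / 2) (by norm_num) h1
  rw [h2] at h4
  have h5 := tail6 D hC0' hC' hE' hE2' hVm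
  have h6 : ((binSum C E Vm (3 / 2) l + 1 / 1000 : ℚ) : ℝ) ≤ T := by exact_mod_cast h3
  push_cast at h4 h6
  linarith

/-- **Block Z1.** -/
theorem blockZ1 : BlockZ1 := by
  refine ⟨?_, ?_, ?_, ?_, ?_⟩
  · intro n k a t D
    have := T1P_of (C := 129 / 125) (E := 129 / 100) (Vm := 12) (T := 298 / 1000) (by norm_num)
      (by norm_num) (by norm_num) (by norm_num) (by norm_num) gr1_ok.1 gr1_ok.2.1 gr1_ok.2.2
      (n := n) (k := k) (a := a) (t := t) (by push_cast; exact D)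
    push_cast at this
    exact this
  · intro n k a t D
    have := T1P_of (C := 4) (E := 101 / 50) (Vm := 16) (T := 4425 / 10000) (by norm_num)
      (by norm_num) (by norm_num) (by norm_num) (by norm_num) gr2_ok.1 gr2_ok.2.1 gr2_ok.2.2
      (n := n) (k := k) (a := a) (t := t) (by push_cast; exact D)
    push_cast at this
    exact this
  · intro n k a t D
    have := T1P_of (C := 4) (E := 101 / 50) (Vm := 31) (T := 346 / 1000) (by norm_num)
      (by norm_num) (by norm_num) (by norm_num) (by norm_num) gr3_ok.1 gr3_ok.2.1 gr3_ok.2.2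
      (n := n) (k := k) (a := a) (t := t) (by push_cast; exact D)
    push_cast at this
    exact this
  · intro n k a t Vm E C θ D h1 h2 h3 h4 h5
    exact rho_le_one_Z D h1 h2 h3 h4 h5
  · intro n k a t θ D h1 h2
    have h3 := rho_le_ee D (by norm_num) le_rfl (by norm_num) (θ := θ) (u := 1) (V := 31)
      one_pos h2 h1 (by norm_num) (le_max_left _ _) (by norm_num) (by norm_num)
    refine h3.trans ?_
    have he : ee 4 (101 / 50) 31 1 = ((eeq 4 (101 / 50) 31 1 : ℚ) : ℝ) := by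
      rw [eeq_cast]
      push_cast
      norm_num
    have h4 : (0 : ℚ) ≤ eeq 4 (101 / 50) 31 1 := by decide +kernel
    have h5 := exq_le h4
    have h6 : (100 / 65 : ℚ) ≤ exq (eeq 4 (101 / 50) 31 1) := by decide +kernel
    have h7 : ((100 / 65 : ℚ) : ℝ) ≤ exp ((eeq 4 (101 / 50) 31 1 : ℚ) : ℝ) :=
      le_trans (by exact_mod_cast h6) h5
    rw [he, Real.exp_neg]
    have h8 : (0 : ℝ) < ((100 / 65 : ℚ) : ℝ) := by norm_num
    calc (exp ((eeq 4 (101 / 50) 31 1 : ℚ) : ℝ))⁻¹ ≤ (((100 / 65 : ℚ) : ℝ))⁻¹ :=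
          inv_anti₀ h8 h7
      _ = 65 / 100 := by norm_num

end Pool.Agent.SignedQ.Core
end
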