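import Pool.Agent.Lib.MP_cf17a0_co.Mg.G042
import Pool.Agent.Lib.MP_cf17a0_co.Mg.G041
import Pool.Agent.Lib.MP_cf17a0_co.Mg.G044
import Pool.Agent.Lib.MP_cf17a0_co.S1.C.Z2

section

/-! # Core region, block SUM, part (3): the integrals (helper37)

`IS X = ∫_0^X s`, `IJ X = ∫_0^X x² s`. -/

namespace Pool.Agent.SignedQ.Core

open Real MeasureTheory intervalIntegral Pool.Agent.SignedQ.An

noncomputable def IS (X : ℝ) : ℝ := ∫ x in (0 : ℝ)..X, sf x

noncomputable def IJ (X : ℝ) : ℝ := ∫ x in (0 : ℝ)..X, x ^ 2 * sf x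

/-! ### `s` is integrable -/

theorem sf_neg (x : ℝ) : sf (-x) = sf x := by
  unfold sf
  rw [sinh_neg, neg_sq, neg_sq]

theorem sf_zero : sf 0 = 0 := by
  unfold sf
  simp

theorem sf_nonneg' (x : ℝ) : 0 ≤ sf x := by
  unfold sf
  positivity

theorem sf_le_one' (x : ℝ) : sf x ≤ 1 := by
  rcases lt_trichotomy x 0 with h | h | h
  · rw [← sf_neg]
    exact sf_le_one (by linarith)
  · rw [h, sf_zero]
    norm_num
  · exact sf_le_one h

theorem sf_measurable : Measurable sf := by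
  unfold sf
  exact (measurable_id.pow_const 2).div (Real.continuous_sinh.measurable.pow_const 2)

theorem sf_intervalIntegrable (a b : ℝ) : IntervalIntegrable sf volume a b := by
  refine ⟨?_, ?_⟩ <;>
  · refine Measure.integrableOn_of_bounded (M := 1) (by simp) sf_measurable.aestronglyMeasurable
      (Filter.Eventually.of_forall fun x => ?_)
    rw [Real.norm_eq_abs, abs_of_nonneg (sf_nonneg' x)]
    exact sf_le_one' x

theorem sq_sf_intervalIntegrable (a b : ℝ) :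
    IntervalIntegrable (fun x => x ^ 2 * sf x) volume a b :=
  (sf_intervalIntegrable a b).continuousOn_mul ((continuous_pow 2).continuousOn)

/-! ### Comparison with primitives -/

theorem int_ge {f g G : ℝ → ℝ} {a b : ℝ} (hab : a ≤ b) (hG : ∀ x, HasDerivAt G (g x) x)
    (hg : Continuous g) (hf : IntervalIntegrable f volume a b) (h : ∀ x ∈ Set.Ioo a b, g x ≤ f x) :
    G b - G a ≤ ∫ x in a..b, f x := by
  rw [← integral_eq_sub_of_hasDerivAt (fun x _ => hG x) (hg.intervalIntegrable a b)]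
  exact integral_mono_on_of_le_Ioo hab (hg.intervalIntegrable a b) hf h

theorem int_le {f g G : ℝ → ℝ} {a b : ℝ} (hab : a ≤ b) (hG : ∀ x, HasDerivAt G (g x) x)
    (hg : Continuous g) (hf : IntervalIntegrable f volume a b) (h : ∀ x ∈ Set.Ioo a b, f x ≤ g x) :
    ∫ x in a..b, f x ≤ G b - G a := by
  rw [← integral_eq_sub_of_hasDerivAt (fun x _ => hG x) (hg.intervalIntegrable a b)]
  exact integral_mono_on_of_le_Ioo hab hf (hg.intervalIntegrable a b) h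

/-! ### Polynomial bounds on `(0, 1]` -/

theorem cosh6 {x : ℝ} (hx : 0 ≤ x) :
    1 + x ^ 2 / 2 + x ^ 4 / 24 + x ^ 6 / 720 ≤ cosh x := by
  have h1 := nonneg_of_deriv (f := fun x => cosh x - 1 - x ^ 2 / 2) (f' := fun x => sinh x - x)
    (by simp) (fun y _ => by
      have := ((hasDerivAt_cosh y).sub_const 1).sub ((hasDerivAt_pow 2 y).div_const 2)
      refine this.congr_deriv ?_
      simp) (fun y hy => sub_nonneg.2 (self_le_sinh_iff.2 hy))
  have h2 := nonneg_of_deriv (f := fun x => sinh x - x - x ^ 3 / 6)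
    (f' := fun x => cosh x - 1 - x ^ 2 / 2) (by simp) (fun y _ => by
      have := ((hasDerivAt_sinh y).sub (hasDerivAt_id y)).sub ((hasDerivAt_pow 3 y).div_const 6)
      refine this.congr_deriv ?_
      simp
      ring) h1
  have h3 := nonneg_of_deriv (f := fun x => cosh x - 1 - x ^ 2 / 2 - x ^ 4 / 24)
    (f' := fun x => sinh x - x - x ^ 3 / 6) (by simp) (fun y _ => by
      have := (((hasDerivAt_cosh y).sub_const 1).sub ((hasDerivAt_pow 2 y).div_const 2)).sub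
        ((hasDerivAt_pow 4 y).div_const 24)
      refine this.congr_deriv ?_
      simp
      ring) h2
  have h4 := nonneg_of_deriv (f := fun x => sinh x - x - x ^ 3 / 6 - x ^ 5 / 120)
    (f' := fun x => cosh x - 1 - x ^ 2 / 2 - x ^ 4 / 24) (by simp) (fun y _ => by
      have := (((hasDerivAt_sinh y).sub (hasDerivAt_id y)).sub ((hasDerivAt_pow 3 y).div_const 6)).sub
        ((hasDerivAt_pow 5 y).div_const 120)
      refine this.congr_deriv ?_
      simp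
      ring) h3
  have h5 := nonneg_of_deriv (f := fun x => cosh x - 1 - x ^ 2 / 2 - x ^ 4 / 24 - x ^ 6 / 720)
    (f' := fun x => sinh x - x - x ^ 3 / 6 - x ^ 5 / 120) (by simp) (fun y _ => by
      have := ((((hasDerivAt_cosh y).sub_const 1).sub ((hasDerivAt_pow 2 y).div_const 2)).sub
        ((hasDerivAt_pow 4 y).div_const 24)).sub ((hasDerivAt_pow 6 y).div_const 720)
      refine this.congr_deriv ?_
      simp
      ring) h4 x hx
  linarith

theorem sinh_sq_ge3 {x : ℝ} (hx : 0 ≤ x) : x ^ 2 + x ^ 4 / 3 + 2 * x ^ 6 / 45 ≤ sinh x ^ 2 := by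
  have h := cosh6 (x := 2 * x) (by linarith)
  rw [cosh_two_mul, cosh_sq] at h
  nlinarith

theorem cosh_le_Mc {x : ℝ} (h0 : 0 ≤ x) (h1 : x ≤ 1) : cosh x ≤ 1.5431 := by
  have h : cosh x ≤ cosh 1 := cosh_le_cosh.2 (by rw [abs_of_nonneg h0, abs_one]; exact h1)
  have h2 : cosh (1 : ℝ) ≤ 1.5431 := by
    rw [cosh_eq]
    have e1 := exp_one_lt_d9
    have e2 : exp (-1 : ℝ) ≤ 0.3679 := by
      rw [exp_neg]
      have e3 := exp_one_gt_d9
      rw [inv_le_comm₀ (exp_pos _) (by norm_num)]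
      norm_num at e3 ⊢
      linarith
    linarith
  linarith

theorem nonneg01 {f f' : ℝ → ℝ} (hd : ∀ z, HasDerivAt f (f' z) z) (h0 : 0 ≤ f 0)
    (hn : ∀ z, 0 ≤ z → z ≤ 1 → 0 ≤ f' z) {x : ℝ} (hx : 0 ≤ x) (hb : x ≤ 1) : 0 ≤ f x := by
  have := mono_of_deriv (f := f) (f' := f') (convex_Icc 0 1) (fun z _ => hd z)
    (fun z hz => hn z hz.1 hz.2) (Set.left_mem_Icc.2 zero_le_one) ⟨hx, hb⟩ hx
  linarith

theorem sinh9c {x : ℝ} (h0 : 0 ≤ x) (h1 : x ≤ 1) :
    sinh x ≤ x + x ^ 3 / 6 + x ^ 5 / 120 + x ^ 7 / 5040 + 1.5431 * (x ^ 9 / 362880) := by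
  have c1 : ∀ x : ℝ, 0 ≤ x → x ≤ 1 → sinh x ≤ 1.5431 * x := by
    intro x h0 h1
    have := nonneg01 (f := fun x => (1.5431 * x) - sinh x) (f' := fun x => 1.5431 - cosh x)
      (fun z => by
        refine (((hasDerivAt_id z).const_mul (1.5431 : ℝ)).sub (hasDerivAt_sinh z)).congr_deriv ?_
        ring) (by simp)
      (fun z hz hz1 => by
        have := cosh_le_Mc hz hz1
        norm_num at this ⊢
        linarith) h0 h1
    linarith
  have c2 : ∀ x : ℝ, 0 ≤ x → x ≤ 1 → cosh x ≤ 1 + 1.5431 * (x ^ 2 / 2) := by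
    intro x h0 h1
    have := nonneg01 (f := fun x => (1 + 1.5431 * (x ^ 2 / 2)) - cosh x) (f' := fun x => (1.5431 * x) - sinh x)
      (fun z => by
        refine (((hasDerivAt_const z (1 : ℝ)).add (((hasDerivAt_pow 2 z).div_const 2).const_mul (1.5431 : ℝ))).sub (hasDerivAt_cosh z)).congr_deriv ?_
        push_cast
        ring) (by simp)
      (fun z hz hz1 => by
        have := c1 z hz hz1
        norm_num at this ⊢
        linarith) h0 h1
    linarith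
  have c3 : ∀ x : ℝ, 0 ≤ x → x ≤ 1 → sinh x ≤ x + 1.5431 * (x ^ 3 / 6) := by
    intro x h0 h1
    have := nonneg01 (f := fun x => (x + 1.5431 * (x ^ 3 / 6)) - sinh x) (f' := fun x => (1 + 1.5431 * (x ^ 2 / 2)) - cosh x)
      (fun z => by
        refine (((hasDerivAt_id z).add (((hasDerivAt_pow 3 z).div_const 6).const_mul (1.5431 : ℝ))).sub (hasDerivAt_sinh z)).congr_deriv ?_
        push_cast
        ring) (by simp)
      (fun z hz hz1 => by
        have := c2 z hz hz1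
        norm_num at this ⊢
        linarith) h0 h1
    linarith
  have c4 : ∀ x : ℝ, 0 ≤ x → x ≤ 1 → cosh x ≤ 1 + x ^ 2 / 2 + 1.5431 * (x ^ 4 / 24) := by
    intro x h0 h1
    have := nonneg01 (f := fun x => (1 + x ^ 2 / 2 + 1.5431 * (x ^ 4 / 24)) - cosh x) (f' := fun x => (x + 1.5431 * (x ^ 3 / 6)) - sinh x)
      (fun z => by
        refine ((((hasDerivAt_const z (1 : ℝ)).add ((hasDerivAt_pow 2 z).div_const 2)).add (((hasDerivAt_pow 4 z).div_const 24).const_mul (1.5431 : ℝ))).sub (hasDerivAt_cosh z)).congr_deriv ?_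
        push_cast
        ring) (by simp)
      (fun z hz hz1 => by
        have := c3 z hz hz1
        norm_num at this ⊢
        linarith) h0 h1
    linarith
  have c5 : ∀ x : ℝ, 0 ≤ x → x ≤ 1 → sinh x ≤ x + x ^ 3 / 6 + 1.5431 * (x ^ 5 / 120) := by
    intro x h0 h1
    have := nonneg01 (f := fun x => (x + x ^ 3 / 6 + 1.5431 * (x ^ 5 / 120)) - sinh x) (f' := fun x => (1 + x ^ 2 / 2 + 1.5431 * (x ^ 4 / 24)) - cosh x)
      (fun z => by
        refine ((((hasDerivAt_id z).add ((hasDerivAt_pow 3 z).div_const 6)).add (((hasDerivAt_pow 5 z).div_const 120).const_mul (1.5431 : ℝ))).sub (hasDerivAt_sinh z)).congr_deriv ?_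
        push_cast
        ring) (by simp)
      (fun z hz hz1 => by
        have := c4 z hz hz1
        norm_num at this ⊢
        linarith) h0 h1
    linarith
  have c6 : ∀ x : ℝ, 0 ≤ x → x ≤ 1 → cosh x ≤ 1 + x ^ 2 / 2 + x ^ 4 / 24 + 1.5431 * (x ^ 6 / 720) := by
    intro x h0 h1
    have := nonneg01 (f := fun x => (1 + x ^ 2 / 2 + x ^ 4 / 24 + 1.5431 * (x ^ 6 / 720)) - cosh x) (f' := fun x => (x + x ^ 3 / 6 + 1.5431 * (x ^ 5 / 120)) - sinh x)
      (fun z => by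
        refine (((((hasDerivAt_const z (1 : ℝ)).add ((hasDerivAt_pow 2 z).div_const 2)).add ((hasDerivAt_pow 4 z).div_const 24)).add (((hasDerivAt_pow 6 z).div_const 720).const_mul (1.5431 : ℝ))).sub (hasDerivAt_cosh z)).congr_deriv ?_
        push_cast
        ring) (by simp)
      (fun z hz hz1 => by
        have := c5 z hz hz1
        norm_num at this ⊢
        linarith) h0 h1
    linarith
  have c7 : ∀ x : ℝ, 0 ≤ x → x ≤ 1 → sinh x ≤ x + x ^ 3 / 6 + x ^ 5 / 120 + 1.5431 * (x ^ 7 / 5040) := by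
    intro x h0 h1
    have := nonneg01 (f := fun x => (x + x ^ 3 / 6 + x ^ 5 / 120 + 1.5431 * (x ^ 7 / 5040)) - sinh x) (f' := fun x => (1 + x ^ 2 / 2 + x ^ 4 / 24 + 1.5431 * (x ^ 6 / 720)) - cosh x)
      (fun z => by
        refine (((((hasDerivAt_id z).add ((hasDerivAt_pow 3 z).div_const 6)).add ((hasDerivAt_pow 5 z).div_const 120)).add (((hasDerivAt_pow 7 z).div_const 5040).const_mul (1.5431 : ℝ))).sub (hasDerivAt_sinh z)).congr_deriv ?_
        push_cast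
        ring) (by simp)
      (fun z hz hz1 => by
        have := c6 z hz hz1
        norm_num at this ⊢
        linarith) h0 h1
    linarith
  have c8 : ∀ x : ℝ, 0 ≤ x → x ≤ 1 → cosh x ≤ 1 + x ^ 2 / 2 + x ^ 4 / 24 + x ^ 6 / 720 + 1.5431 * (x ^ 8 / 40320) := by
    intro x h0 h1
    have := nonneg01 (f := fun x => (1 + x ^ 2 / 2 + x ^ 4 / 24 + x ^ 6 / 720 + 1.5431 * (x ^ 8 / 40320)) - cosh x) (f' := fun x => (x + x ^ 3 / 6 + x ^ 5 / 120 + 1.5431 * (x ^ 7 / 5040)) - sinh x)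
      (fun z => by
        refine ((((((hasDerivAt_const z (1 : ℝ)).add ((hasDerivAt_pow 2 z).div_const 2)).add ((hasDerivAt_pow 4 z).div_const 24)).add ((hasDerivAt_pow 6 z).div_const 720)).add (((hasDerivAt_pow 8 z).div_const 40320).const_mul (1.5431 : ℝ))).sub (hasDerivAt_cosh z)).congr_deriv ?_
        push_cast
        ring) (by simp)
      (fun z hz hz1 => by
        have := c7 z hz hz1
        norm_num at this ⊢
        linarith) h0 h1
    linarith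
  have c9 : ∀ x : ℝ, 0 ≤ x → x ≤ 1 → sinh x ≤ x + x ^ 3 / 6 + x ^ 5 / 120 + x ^ 7 / 5040 + 1.5431 * (x ^ 9 / 362880) := by
    intro x h0 h1
    have := nonneg01 (f := fun x => (x + x ^ 3 / 6 + x ^ 5 / 120 + x ^ 7 / 5040 + 1.5431 * (x ^ 9 / 362880)) - sinh x) (f' := fun x => (1 + x ^ 2 / 2 + x ^ 4 / 24 + x ^ 6 / 720 + 1.5431 * (x ^ 8 / 40320)) - cosh x)
      (fun z => by
        refine ((((((hasDerivAt_id z).add ((hasDerivAt_pow 3 z).div_const 6)).add ((hasDerivAt_pow 5 z).div_const 120)).add ((hasDerivAt_pow 7 z).div_const 5040)).add (((hasDerivAt_pow 9 z).div_const 362880).const_mul (1.5431 : ℝ))).sub (hasDerivAt_sinh z)).congr_deriv ?_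
        push_cast
        ring) (by simp)
      (fun z hz hz1 => by
        have := c8 z hz hz1
        norm_num at this ⊢
        linarith) h0 h1
    linarith
  exact c9 x h0 h1

theorem sinh_sq_le3 {x : ℝ} (h0 : 0 ≤ x) (h1 : x ≤ 1) :
    sinh x ^ 2 ≤ x ^ 2 * (1 + x ^ 2 / 3 + 2 * x ^ 4 / 45 + x ^ 6 / 300) := by
  have h := sinh9c h0 h1
  have hs : 0 ≤ sinh x := sinh_nonneg_iff.2 h0
  have e : x + x ^ 3 / 6 + x ^ 5 / 120 + x ^ 7 / 5040 + 1.5431 * (x ^ 9 / 362880) =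
      x * (1 + x ^ 2 / 6 + (x ^ 2) ^ 2 / 120 + (x ^ 2) ^ 3 / 5040 +
        1.5431 * ((x ^ 2) ^ 4 / 362880)) := by ring
  rw [e] at h
  have h2 := pow_le_pow_left₀ hs h 2
  refine h2.trans ?_
  rw [mul_pow, show x ^ 4 = (x ^ 2) ^ 2 by ring, show x ^ 6 = (x ^ 2) ^ 3 by ring]
  obtain ⟨u, hu⟩ : ∃ u, u = x ^ 2 := ⟨_, rfl⟩
  rw [← hu]
  have u0 : 0 ≤ u := by rw [hu]; positivity
  have u1 : u ≤ 1 := by rw [hu]; nlinarith
  refine mul_le_mul_of_nonneg_left ?_ u0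
  have p3 : 0 ≤ u ^ 3 := by positivity
  have q4 : u ^ 4 ≤ u ^ 3 := pow_le_pow_of_le_one u0 u1 (by norm_num)
  have q5 : u ^ 5 ≤ u ^ 3 := pow_le_pow_of_le_one u0 u1 (by norm_num)
  have q6 : u ^ 6 ≤ u ^ 3 := pow_le_pow_of_le_one u0 u1 (by norm_num)
  have q7 : u ^ 7 ≤ u ^ 3 := pow_le_pow_of_le_one u0 u1 (by norm_num)
  have q8 : u ^ 8 ≤ u ^ 3 := pow_le_pow_of_le_one u0 u1 (by norm_num)
  norm_num
  nlinarith

theorem sf_le_poly {x : ℝ} (h0 : 0 < x) : sf x ≤ 1 - x ^ 2 / 3 + x ^ 4 / 15 := by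
  have hs : 0 < sinh x := sinh_pos_iff.2 h0
  unfold sf
  rw [div_le_iff₀ (by positivity)]
  have h1 := sinh_sq_ge3 h0.le
  have h2 : 0 ≤ 1 - x ^ 2 / 3 + x ^ 4 / 15 := by nlinarith [sq_nonneg (x ^ 2 - 5 / 2)]
  have h3 := mul_le_mul_of_nonneg_left h1 h2
  refine le_trans ?_ h3
  have e : (1 - x ^ 2 / 3 + x ^ 4 / 15) * (x ^ 2 + x ^ 4 / 3 + 2 * x ^ 6 / 45) - x ^ 2 =
      x ^ 8 / 135 + 2 * x ^ 10 / 675 := by ring
  have : 0 ≤ x ^ 8 / 135 + 2 * x ^ 10 / 675 := by positivity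
  linarith

theorem poly_le_sf {x : ℝ} (h0 : 0 < x) (h1 : x ≤ 1) :
    1 - x ^ 2 / 3 + x ^ 4 / 15 - x ^ 6 / 75 ≤ sf x := by
  have hs : 0 < sinh x := sinh_pos_iff.2 h0
  unfold sf
  rw [le_div_iff₀ (by positivity)]
  have h2 := sinh_sq_le3 h0.le h1
  have u0 : 0 < x ^ 2 := by positivity
  have u1 : x ^ 2 ≤ 1 := by nlinarith
  have h3 : 0 ≤ 1 - x ^ 2 / 3 + x ^ 4 / 15 - x ^ 6 / 75 := by
    have : x ^ 6 = x ^ 2 * x ^ 4 := by ring
    have h4 : x ^ 6 ≤ x ^ 4 := by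
      rw [this]
      have : 0 ≤ x ^ 4 := by positivity
      nlinarith
    have h5 : 0 ≤ x ^ 4 := by positivity
    linarith
  have h4 := mul_le_mul_of_nonneg_left h2 h3
  refine h4.trans ?_
  have e : x ^ 2 - (1 - x ^ 2 / 3 + x ^ 4 / 15 - x ^ 6 / 75) *
      (x ^ 2 * (1 + x ^ 2 / 3 + 2 * x ^ 4 / 45 + x ^ 6 / 300)) =
      x ^ 8 * (7 / 2700 + 7 / 2700 * x ^ 2 + 1 / 2700 * x ^ 4 + 1 / 22500 * x ^ 6) := by ring
  have : 0 ≤ x ^ 8 * (7 / 2700 + 7 / 2700 * x ^ 2 + 1 / 2700 * x ^ 4 + 1 / 22500 * x ^ 6) := by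
    positivity
  linarith

/-! ### Exponential bounds on `[1, ∞)` -/

noncomputable def sL (x : ℝ) : ℝ := 4 * x ^ 2 * (exp (-(2 * x)) + 2 * exp (-(2 * x)) ^ 2 +
  3 * exp (-(2 * x)) ^ 3)

theorem sL_le {x : ℝ} (hx : 1 ≤ x) : sL x ≤ sf x := by
  have hq1 : exp (-(2 * x)) ≤ 0.13534 :=
    (exp_le_exp.2 (by linarith)).trans exp_neg_two_le
  have hq0 := exp_pos (-(2 * x))
  rw [sf_eq_q (by linarith)]
  unfold sL
  set q := exp (-(2 * x)) with hq
  norm_num at hq1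
  have h1 : 0 < 1 - q := by linarith
  rw [mul_div_assoc]
  refine mul_le_mul_of_nonneg_left ?_ (by positivity)
  rw [le_div_iff₀ (by positivity)]
  have h2 : q - (q + 2 * q ^ 2 + 3 * q ^ 3) * (1 - q) ^ 2 = q ^ 4 * (4 - 3 * q) := by ring
  have h3 : 0 ≤ q ^ 4 * (4 - 3 * q) := mul_nonneg (by positivity) (by linarith)
  linarith

noncomputable def Fm (m x : ℝ) : ℝ := exp (-(2 * m * x)) *
  (2 * x ^ 4 + 4 * x ^ 3 / m + 6 * x ^ 2 / m ^ 2 + 6 * x / m ^ 3 + 3 / m ^ 4)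

theorem Fm_deriv {m : ℝ} (hm : m ≠ 0) (x : ℝ) :
    HasDerivAt (Fm m) (-(4 * m * x ^ 4 * exp (-(2 * m * x)))) x := by
  have h1 : HasDerivAt (fun x : ℝ => exp (-(2 * m * x))) (exp (-(2 * m * x)) * (-(2 * m))) x := by
    have := ((hasDerivAt_id x).const_mul (2 * m)).neg.exp
    refine this.congr_deriv ?_
    simp
  have h2 : HasDerivAt (fun x : ℝ =>
      2 * x ^ 4 + 4 * x ^ 3 / m + 6 * x ^ 2 / m ^ 2 + 6 * x / m ^ 3 + 3 / m ^ 4)
      (8 * x ^ 3 + 12 * x ^ 2 / m + 12 * x / m ^ 2 + 6 / m ^ 3) x := by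
    have := ((((((hasDerivAt_pow 4 x).const_mul 2).add
      (((hasDerivAt_pow 3 x).const_mul 4).div_const m)).add
      (((hasDerivAt_pow 2 x).const_mul 6).div_const (m ^ 2))).add
      (((hasDerivAt_id x).const_mul 6).div_const (m ^ 3))).add_const (3 / m ^ 4))
    refine this.congr_deriv ?_
    push_cast
    ring
  refine (h1.mul h2).congr_deriv ?_
  field_simp
  ring

/-- Primitives: `LS' = -sL`, `LJ' = -x² sL`, `TJ' = -x² sU`. -/
noncomputable def LS (x : ℝ) : ℝ := Em 1 x + Em 2 x + Em 3 x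

noncomputable def LJ (x : ℝ) : ℝ := Fm 1 x + Fm 2 x + Fm 3 x

noncomputable def TJ (x : ℝ) : ℝ := Fm 1 x + Fm 2 x + Fm 3 x + 5 / 4 * Fm 4 x

theorem LS_deriv (x : ℝ) : HasDerivAt LS (-(sL x)) x := by
  have h := ((Em_deriv (m := 1) (by norm_num) x).add (Em_deriv (m := 2) (by norm_num) x)).add
    (Em_deriv (m := 3) (by norm_num) x)
  refine h.congr_deriv ?_
  have e1 := exp_pow_q 1 x
  have e2 := exp_pow_q 2 x
  have e3 := exp_pow_q 3 x
  push_cast at e1 e2 e3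
  rw [e1, e2, e3]
  unfold sL
  ring

theorem LJ_deriv (x : ℝ) : HasDerivAt LJ (-(x ^ 2 * sL x)) x := by
  have h := ((Fm_deriv (m := 1) (by norm_num) x).add (Fm_deriv (m := 2) (by norm_num) x)).add
    (Fm_deriv (m := 3) (by norm_num) x)
  refine h.congr_deriv ?_
  have e1 := exp_pow_q 1 x
  have e2 := exp_pow_q 2 x
  have e3 := exp_pow_q 3 x
  push_cast at e1 e2 e3
  rw [e1, e2, e3]
  unfold sL
  ring

theorem TJ_deriv (x : ℝ) : HasDerivAt TJ (-(x ^ 2 * sU x)) x := by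
  have h := (((Fm_deriv (m := 1) (by norm_num) x).add (Fm_deriv (m := 2) (by norm_num) x)).add
    (Fm_deriv (m := 3) (by norm_num) x)).add
    ((Fm_deriv (m := 4) (by norm_num) x).const_mul (5 / 4))
  refine h.congr_deriv ?_
  have e1 := exp_pow_q 1 x
  have e2 := exp_pow_q 2 x
  have e3 := exp_pow_q 3 x
  have e4 := exp_pow_q 4 x
  push_cast at e1 e2 e3 e4
  rw [e1, e2, e3, e4]
  unfold sU
  ring

theorem sL_continuous : Continuous sL := by
  unfold sL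
  fun_prop

theorem sU_continuous : Continuous sU := by
  unfold sU
  fun_prop

/-! ### Two-sided bounds of the integrals -/

theorem IS_one_ge : 0.900317 ≤ IS 1 := by
  have h := int_ge (f := sf) (G := fun x => x - x ^ 3 / 9 + x ^ 5 / 75 - x ^ 7 / 525)
    (g := fun x => 1 - x ^ 2 / 3 + x ^ 4 / 15 - x ^ 6 / 75) (a := 0) (b := 1) zero_le_one
    (fun x => by
      have := (((hasDerivAt_id x).sub ((hasDerivAt_pow 3 x).div_const 9)).add
        ((hasDerivAt_pow 5 x).div_const 75)).sub ((hasDerivAt_pow 7 x).div_const 525)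
      refine this.congr_deriv ?_
      push_cast
      ring) (by fun_prop) (sf_intervalIntegrable 0 1) (fun x hx => poly_le_sf hx.1 hx.2.le)
  refine le_trans ?_ h
  norm_num

theorem IS_one_le : IS 1 ≤ 0.902223 := by
  have h := int_le (f := sf) (G := fun x => x - x ^ 3 / 9 + x ^ 5 / 75)
    (g := fun x => 1 - x ^ 2 / 3 + x ^ 4 / 15) (a := 0) (b := 1) zero_le_one
    (fun x => by
      have := (((hasDerivAt_id x).sub ((hasDerivAt_pow 3 x).div_const 9)).add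
        ((hasDerivAt_pow 5 x).div_const 75))
      refine this.congr_deriv ?_
      push_cast
      ring) (by fun_prop) (sf_intervalIntegrable 0 1) (fun x hx => sf_le_poly hx.1)
  refine h.trans ?_
  norm_num

theorem IJ_one_ge : 0.274708 ≤ IJ 1 := by
  have h := int_ge (f := fun x => x ^ 2 * sf x)
    (G := fun x => x ^ 3 / 3 - x ^ 5 / 15 + x ^ 7 / 105 - x ^ 9 / 675)
    (g := fun x => x ^ 2 * (1 - x ^ 2 / 3 + x ^ 4 / 15 - x ^ 6 / 75)) (a := 0) (b := 1)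
    zero_le_one
    (fun x => by
      have := ((((hasDerivAt_pow 3 x).div_const 3).sub ((hasDerivAt_pow 5 x).div_const 15)).add
        ((hasDerivAt_pow 7 x).div_const 105)).sub ((hasDerivAt_pow 9 x).div_const 675)
      refine this.congr_deriv ?_
      push_cast
      ring) (by fun_prop) (sq_sf_intervalIntegrable 0 1)
    (fun x hx => mul_le_mul_of_nonneg_left (poly_le_sf hx.1 hx.2.le) (sq_nonneg x))
  refine le_trans ?_ h
  norm_num

theorem IJ_one_le : IJ 1 ≤ 0.276191 := by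
  have h := int_le (f := fun x => x ^ 2 * sf x)
    (G := fun x => x ^ 3 / 3 - x ^ 5 / 15 + x ^ 7 / 105)
    (g := fun x => x ^ 2 * (1 - x ^ 2 / 3 + x ^ 4 / 15)) (a := 0) (b := 1)
    zero_le_one
    (fun x => by
      have := (((hasDerivAt_pow 3 x).div_const 3).sub ((hasDerivAt_pow 5 x).div_const 15)).add
        ((hasDerivAt_pow 7 x).div_const 105)
      refine this.congr_deriv ?_
      push_cast
      ring) (by fun_prop) (sq_sf_intervalIntegrable 0 1)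
    (fun x hx => mul_le_mul_of_nonneg_left (sf_le_poly hx.1) (sq_nonneg x))
  refine h.trans ?_
  norm_num

theorem IS_split {X : ℝ} (_hX : 1 ≤ X) : IS X = IS 1 + ∫ x in (1 : ℝ)..X, sf x := by
  unfold IS
  rw [integral_add_adjacent_intervals (sf_intervalIntegrable _ _) (sf_intervalIntegrable _ _)]

theorem IJ_split {X : ℝ} (_hX : 1 ≤ X) : IJ X = IJ 1 + ∫ x in (1 : ℝ)..X, x ^ 2 * sf x := by
  unfold IJ
  rw [integral_add_adjacent_intervals (sq_sf_intervalIntegrable _ _)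
    (sq_sf_intervalIntegrable _ _)]

theorem IS_ge {X : ℝ} (hX : 1 ≤ X) : 0.900317 + LS 1 - LS X ≤ IS X := by
  have h := int_ge (f := sf) (G := fun x => -LS x) (g := sL) hX
    (fun x => by
      refine (LS_deriv x).neg.congr_deriv ?_
      ring) sL_continuous (sf_intervalIntegrable 1 X) (fun x hx => sL_le hx.1.le)
  have := IS_one_ge
  rw [IS_split hX]
  linarith

theorem IS_le {X : ℝ} (hX : 1 ≤ X) : IS X ≤ 0.902223 + TT 1 - TT X := by
  have h := int_le (f := sf) (G := fun x => -TT x) (g := sU) hX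
    (fun x => by
      refine (TT_deriv x).neg.congr_deriv ?_
      ring) sU_continuous (sf_intervalIntegrable 1 X) (fun x hx => sf_le_sU hx.1.le)
  have := IS_one_le
  rw [IS_split hX]
  linarith

theorem IJ_ge {X : ℝ} (hX : 1 ≤ X) : 0.274708 + LJ 1 - LJ X ≤ IJ X := by
  have h := int_ge (f := fun x => x ^ 2 * sf x) (G := fun x => -LJ x)
    (g := fun x => x ^ 2 * sL x) hX
    (fun x => by
      refine (LJ_deriv x).neg.congr_deriv ?_
      ring) ((continuous_pow 2).mul sL_continuous) (sq_sf_intervalIntegrable 1 X)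
      (fun x hx => mul_le_mul_of_nonneg_left (sL_le hx.1.le) (sq_nonneg x))
  have := IJ_one_ge
  rw [IJ_split hX]
  linarith

theorem IJ_le {X : ℝ} (hX : 1 ≤ X) : IJ X ≤ 0.276191 + TJ 1 - TJ X := by
  have h := int_le (f := fun x => x ^ 2 * sf x) (G := fun x => -TJ x)
    (g := fun x => x ^ 2 * sU x) hX
    (fun x => by
      refine (TJ_deriv x).neg.congr_deriv ?_
      ring) ((continuous_pow 2).mul sU_continuous) (sq_sf_intervalIntegrable 1 X)
      (fun x hx => mul_le_mul_of_nonneg_left (sf_le_sU hx.1.le) (sq_nonneg x))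
  have := IJ_one_le
  rw [IJ_split hX]
  linarith

/-! ### Numerical values of the primitives -/

theorem Em_le {m : ℕ} {X Q : ℝ} (hX : 0 ≤ X) (hQ : exp (-(2 * X)) ≤ Q) :
    Em m X ≤ Q ^ m * (2 * X ^ 2 + 2 * X / m + 1 / (m : ℝ) ^ 2) := by
  unfold Em
  rw [exp_pow_q]
  exact mul_le_mul_of_nonneg_right (pow_le_pow_left₀ (exp_pos _).le hQ m) (by positivity)

theorem Em_ge {m : ℕ} {X L : ℝ} (hX : 0 ≤ X) (hL0 : 0 ≤ L) (hL : L ≤ exp (-(2 * X))) :
    L ^ m * (2 * X ^ 2 + 2 * X / m + 1 / (m : ℝ) ^ 2) ≤ Em m X := by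
  unfold Em
  rw [exp_pow_q]
  exact mul_le_mul_of_nonneg_right (pow_le_pow_left₀ hL0 hL m) (by positivity)

theorem Fm_le {m : ℕ} {X Q : ℝ} (hX : 0 ≤ X) (hQ : exp (-(2 * X)) ≤ Q) :
    Fm m X ≤ Q ^ m * (2 * X ^ 4 + 4 * X ^ 3 / m + 6 * X ^ 2 / (m : ℝ) ^ 2 + 6 * X / (m : ℝ) ^ 3 +
      3 / (m : ℝ) ^ 4) := by
  unfold Fm
  rw [exp_pow_q]
  exact mul_le_mul_of_nonneg_right (pow_le_pow_left₀ (exp_pos _).le hQ m) (by positivity)

theorem Fm_ge {m : ℕ} {X L : ℝ} (hX : 0 ≤ X) (hL0 : 0 ≤ L) (hL : L ≤ exp (-(2 * X))) :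
    L ^ m * (2 * X ^ 4 + 4 * X ^ 3 / m + 6 * X ^ 2 / (m : ℝ) ^ 2 + 6 * X / (m : ℝ) ^ 3 +
      3 / (m : ℝ) ^ 4) ≤ Fm m X := by
  unfold Fm
  rw [exp_pow_q]
  exact mul_le_mul_of_nonneg_right (pow_le_pow_left₀ hL0 hL m) (by positivity)

theorem LS_num_le {X Q c : ℝ} (hX : 0 ≤ X) (hQ : exp (-(2 * X)) ≤ Q)
    (h : Q ^ 1 * (2 * X ^ 2 + 2 * X / 1 + 1 / 1 ^ 2) + Q ^ 2 * (2 * X ^ 2 + 2 * X / 2 + 1 / 2 ^ 2) +
      Q ^ 3 * (2 * X ^ 2 + 2 * X / 3 + 1 / 3 ^ 2) ≤ c) : LS X ≤ c := by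
  have h1 := Em_le (m := 1) hX hQ
  have h2 := Em_le (m := 2) hX hQ
  have h3 := Em_le (m := 3) hX hQ
  push_cast at h1 h2 h3
  unfold LS
  linarith

theorem LS_num_ge {X L c : ℝ} (hX : 0 ≤ X) (hL0 : 0 ≤ L) (hL : L ≤ exp (-(2 * X)))
    (h : c ≤ L ^ 1 * (2 * X ^ 2 + 2 * X / 1 + 1 / 1 ^ 2) +
      L ^ 2 * (2 * X ^ 2 + 2 * X / 2 + 1 / 2 ^ 2) +
      L ^ 3 * (2 * X ^ 2 + 2 * X / 3 + 1 / 3 ^ 2)) : c ≤ LS X := by
  have h1 := Em_ge (m := 1) hX hL0 hL
  have h2 := Em_ge (m := 2) hX hL0 hL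
  have h3 := Em_ge (m := 3) hX hL0 hL
  push_cast at h1 h2 h3
  unfold LS
  linarith

theorem TT_num_ge {X L c : ℝ} (hX : 0 ≤ X) (hL0 : 0 ≤ L) (hL : L ≤ exp (-(2 * X)))
    (h : c ≤ L ^ 1 * (2 * X ^ 2 + 2 * X / 1 + 1 / 1 ^ 2) +
      L ^ 2 * (2 * X ^ 2 + 2 * X / 2 + 1 / 2 ^ 2) +
      L ^ 3 * (2 * X ^ 2 + 2 * X / 3 + 1 / 3 ^ 2)) : c ≤ TT X := by
  have h1 := LS_num_ge hX hL0 hL h
  have h4 := Em_nonneg (m := 4) (by norm_num) hX
  unfold LS at h1
  unfold TT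
  linarith

theorem LJ_num_le {X Q c : ℝ} (hX : 0 ≤ X) (hQ : exp (-(2 * X)) ≤ Q)
    (h : Q ^ 1 * (2 * X ^ 4 + 4 * X ^ 3 / 1 + 6 * X ^ 2 / 1 ^ 2 + 6 * X / 1 ^ 3 + 3 / 1 ^ 4) +
      Q ^ 2 * (2 * X ^ 4 + 4 * X ^ 3 / 2 + 6 * X ^ 2 / 2 ^ 2 + 6 * X / 2 ^ 3 + 3 / 2 ^ 4) +
      Q ^ 3 * (2 * X ^ 4 + 4 * X ^ 3 / 3 + 6 * X ^ 2 / 3 ^ 2 + 6 * X / 3 ^ 3 + 3 / 3 ^ 4) ≤ c) :
    LJ X ≤ c := by
  have h1 := Fm_le (m := 1) hX hQ
  have h2 := Fm_le (m := 2) hX hQ
  have h3 := Fm_le (m := 3) hX hQ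
  push_cast at h1 h2 h3
  unfold LJ
  linarith

theorem LJ_num_ge {X L c : ℝ} (hX : 0 ≤ X) (hL0 : 0 ≤ L) (hL : L ≤ exp (-(2 * X)))
    (h : c ≤ L ^ 1 * (2 * X ^ 4 + 4 * X ^ 3 / 1 + 6 * X ^ 2 / 1 ^ 2 + 6 * X / 1 ^ 3 + 3 / 1 ^ 4) +
      L ^ 2 * (2 * X ^ 4 + 4 * X ^ 3 / 2 + 6 * X ^ 2 / 2 ^ 2 + 6 * X / 2 ^ 3 + 3 / 2 ^ 4) +
      L ^ 3 * (2 * X ^ 4 + 4 * X ^ 3 / 3 + 6 * X ^ 2 / 3 ^ 2 + 6 * X / 3 ^ 3 + 3 / 3 ^ 4)) :
    c ≤ LJ X := by
  have h1 := Fm_ge (m := 1) hX hL0 hL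
  have h2 := Fm_ge (m := 2) hX hL0 hL
  have h3 := Fm_ge (m := 3) hX hL0 hL
  push_cast at h1 h2 h3
  unfold LJ
  linarith

theorem TJ_num_le {X Q c : ℝ} (hX : 0 ≤ X) (hQ : exp (-(2 * X)) ≤ Q)
    (h : Q ^ 1 * (2 * X ^ 4 + 4 * X ^ 3 / 1 + 6 * X ^ 2 / 1 ^ 2 + 6 * X / 1 ^ 3 + 3 / 1 ^ 4) +
      Q ^ 2 * (2 * X ^ 4 + 4 * X ^ 3 / 2 + 6 * X ^ 2 / 2 ^ 2 + 6 * X / 2 ^ 3 + 3 / 2 ^ 4) +
      Q ^ 3 * (2 * X ^ 4 + 4 * X ^ 3 / 3 + 6 * X ^ 2 / 3 ^ 2 + 6 * X / 3 ^ 3 + 3 / 3 ^ 4) +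
      5 / 4 * (Q ^ 4 * (2 * X ^ 4 + 4 * X ^ 3 / 4 + 6 * X ^ 2 / 4 ^ 2 + 6 * X / 4 ^ 3 +
        3 / 4 ^ 4)) ≤ c) : TJ X ≤ c := by
  have h1 := Fm_le (m := 1) hX hQ
  have h2 := Fm_le (m := 2) hX hQ
  have h3 := Fm_le (m := 3) hX hQ
  have h4 := Fm_le (m := 4) hX hQ
  push_cast at h1 h2 h3 h4
  unfold TJ
  linarith

theorem TJ_num_ge {X L c : ℝ} (hX : 0 ≤ X) (hL0 : 0 ≤ L) (hL : L ≤ exp (-(2 * X)))
    (h : c ≤ L ^ 1 * (2 * X ^ 4 + 4 * X ^ 3 / 1 + 6 * X ^ 2 / 1 ^ 2 + 6 * X / 1 ^ 3 + 3 / 1 ^ 4) +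
      L ^ 2 * (2 * X ^ 4 + 4 * X ^ 3 / 2 + 6 * X ^ 2 / 2 ^ 2 + 6 * X / 2 ^ 3 + 3 / 2 ^ 4) +
      L ^ 3 * (2 * X ^ 4 + 4 * X ^ 3 / 3 + 6 * X ^ 2 / 3 ^ 2 + 6 * X / 3 ^ 3 + 3 / 3 ^ 4)) :
    c ≤ TJ X := by
  have h1 := LJ_num_ge hX hL0 hL h
  have h4 : 0 ≤ Fm 4 X := by
    unfold Fm
    positivity
  unfold LJ at h1
  unfold TJ
  linarith

theorem TJ_num_ge4 {X L c : ℝ} (hX : 0 ≤ X) (hL0 : 0 ≤ L) (hL : L ≤ exp (-(2 * X)))
    (h : c ≤ L ^ 1 * (2 * X ^ 4 + 4 * X ^ 3 / 1 + 6 * X ^ 2 / 1 ^ 2 + 6 * X / 1 ^ 3 + 3 / 1 ^ 4) +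
      L ^ 2 * (2 * X ^ 4 + 4 * X ^ 3 / 2 + 6 * X ^ 2 / 2 ^ 2 + 6 * X / 2 ^ 3 + 3 / 2 ^ 4) +
      L ^ 3 * (2 * X ^ 4 + 4 * X ^ 3 / 3 + 6 * X ^ 2 / 3 ^ 2 + 6 * X / 3 ^ 3 + 3 / 3 ^ 4) +
      5 / 4 * (L ^ 4 * (2 * X ^ 4 + 4 * X ^ 3 / 4 + 6 * X ^ 2 / 4 ^ 2 + 6 * X / 4 ^ 3 +
        3 / 4 ^ 4))) : c ≤ TJ X := by
  have h1 := Fm_ge (m := 1) hX hL0 hL
  have h2 := Fm_ge (m := 2) hX hL0 hL
  have h3 := Fm_ge (m := 3) hX hL0 hL
  have h4 := Fm_ge (m := 4) hX hL0 hL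
  push_cast at h1 h2 h3 h4
  unfold TJ
  linarith

theorem exp_neg_ge {y L : ℝ} (n : ℕ) (hy : y ≤ n) (hL : L * 2.7182818286 ^ n ≤ 1) :
    L ≤ exp (-y) := by
  rcases le_or_gt L 0 with h | h
  · exact h.trans (exp_pos _).le
  have h1 : exp y ≤ 2.7182818286 ^ n := by
    calc exp y ≤ exp (n : ℝ) := exp_le_exp.2 hy
      _ = exp 1 ^ n := by rw [← exp_nat_mul, mul_one]
      _ ≤ _ := pow_le_pow_left₀ (exp_pos _).le exp_one_lt_d9.le n
  have h2 : L * exp y ≤ 1 := (mul_le_mul_of_nonneg_left h1 h.le).trans hL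
  rw [exp_neg, ← one_div, le_div_iff₀ (exp_pos _)]
  exact h2

theorem qu_1 : exp (-(2 * (1 : ℝ))) ≤ 13533529 / 100000000 := by
  rw [exp_neg, inv_le_comm₀ (exp_pos _) (by norm_num)]
  refine le_trans ?_ (sum_le_exp_of_nonneg (by norm_num) 17)
  norm_num [Finset.sum_range_succ, Nat.factorial]

theorem qu_5_4 : exp (-(2 * (5/4 : ℝ))) ≤ 8208500 / 100000000 := by
  rw [exp_neg, inv_le_comm₀ (exp_pos _) (by norm_num)]
  refine le_trans ?_ (sum_le_exp_of_nonneg (by norm_num) 18)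
  norm_num [Finset.sum_range_succ, Nat.factorial]

theorem qu_3_2 : exp (-(2 * (3/2 : ℝ))) ≤ 4978707 / 100000000 := by
  rw [exp_neg, inv_le_comm₀ (exp_pos _) (by norm_num)]
  refine le_trans ?_ (sum_le_exp_of_nonneg (by norm_num) 19)
  norm_num [Finset.sum_range_succ, Nat.factorial]

theorem qu_2 : exp (-(2 * (2 : ℝ))) ≤ 1831564 / 100000000 := by
  rw [exp_neg, inv_le_comm₀ (exp_pos _) (by norm_num)]
  refine le_trans ?_ (sum_le_exp_of_nonneg (by norm_num) 22)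
  norm_num [Finset.sum_range_succ, Nat.factorial]

theorem qu_3 : exp (-(2 * (3 : ℝ))) ≤ 2478753 / 1000000000 := by
  rw [exp_neg, inv_le_comm₀ (exp_pos _) (by norm_num)]
  refine le_trans ?_ (sum_le_exp_of_nonneg (by norm_num) 26)
  norm_num [Finset.sum_range_succ, Nat.factorial]

theorem ql_1 : 13533528 / 100000000 ≤ exp (-(2 * (1 : ℝ))) :=
  exp_neg_ge 2 (by norm_num) (by norm_num)

theorem ql_3 : 24787 / 10000000 ≤ exp (-(2 * (3 : ℝ))) :=
  exp_neg_ge 6 (by norm_num) (by norm_num)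

theorem ql_15_4 : 55308 / 100000000 ≤ exp (-(2 * (15/4 : ℝ))) := by
  have h : (55308 / 100000000 : ℝ) ^ 2 ≤ exp (-(15 : ℝ)) := exp_neg_ge 15 (by norm_num) (by norm_num)
  have e : exp (-(15 : ℝ)) = exp (-(2 * (15/4 : ℝ))) ^ 2 := by
    rw [← exp_nat_mul]
    congr 1
    push_cast
    norm_num
  rw [e] at h
  exact le_of_sq_le_sq h (exp_pos _).le

theorem ql_9_2 : 12340 / 100000000 ≤ exp (-(2 * (9/2 : ℝ))) :=
  exp_neg_ge 9 (by norm_num) (by norm_num)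

theorem ql_6 : 6144 / 1000000000 ≤ exp (-(2 * (6 : ℝ))) :=
  exp_neg_ge 12 (by norm_num) (by norm_num)

theorem ql_5 : 45399 / 1000000000 ≤ exp (-(2 * (5 : ℝ))) :=
  exp_neg_ge 10 (by norm_num) (by norm_num)

theorem LS1_ge : 743087 / 1000000 ≤ LS 1 := LS_num_ge (by norm_num) (by norm_num) ql_1 (by norm_num)

theorem TT1_le : TT 1 ≤ 744163 / 1000000 := TT_num (by norm_num) qu_1 (by norm_num)

theorem LJ1_ge : 2970505 / 1000000 ≤ LJ 1 := LJ_num_ge (by norm_num) (by norm_num) ql_1 (by norm_num)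

theorem TJ1_le : TJ 1 ≤ 2971966 / 1000000 := TJ_num_le (by norm_num) qu_1 (by norm_num)

theorem vv_1 : 372 / 1000 ≤ IS 1 - IS 3 / 3 := by
  have h1 := IS_one_ge
  have h4 := IS_le (X := 3) (by norm_num)
  have h5 := TT1_le
  have h6 : 62098 / 1000000 ≤ TT (3) := TT_num_ge (by norm_num) (by norm_num) ql_3 (by norm_num)
  norm_num at h1  h4 h5 h6 ⊢
  linarith

theorem vv_54 : 524 / 1000 ≤ IS (5/4) - IS (15/4) / 3 := by
  have h1 := IS_ge (X := 5/4) (by norm_num)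
  have h2 := LS1_ge
  have h3 : LS (5/4) ≤ 577227 / 1000000 := LS_num_le (by norm_num) qu_5_4 (by norm_num)
  have h4 := IS_le (X := 15/4) (by norm_num)
  have h5 := TT1_le
  have h6 : 20266 / 1000000 ≤ TT (15/4) := TT_num_ge (by norm_num) (by norm_num) ql_15_4 (by norm_num)
  norm_num at h1 h2 h3 h4 h5 h6 ⊢
  linarith

theorem vv_32 : 657 / 1000 ≤ IS (3/2) - IS (9/2) / 3 := by
  have h1 := IS_ge (X := 3/2) (by norm_num)
  have h2 := LS1_ge
  have h3 : LS (3/2) ≤ 439375 / 1000000 := LS_num_le (by norm_num) qu_3_2 (by norm_num)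
  have h4 := IS_le (X := 9/2) (by norm_num)
  have h5 := TT1_le
  have h6 : 6232 / 1000000 ≤ TT (9/2) := TT_num_ge (by norm_num) (by norm_num) ql_9_2 (by norm_num)
  norm_num at h1 h2 h3 h4 h5 h6 ⊢
  linarith

theorem vv_2 : 853 / 1000 ≤ IS 2 - IS 6 / 3 := by
  have h1 := IS_ge (X := 2) (by norm_num)
  have h2 := LS1_ge
  have h3 : LS (2) ≤ 241600 / 1000000 := LS_num_le (by norm_num) qu_2 (by norm_num)
  have h4 := IS_le (X := 6) (by norm_num)
  have h5 := TT1_le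
  have h6 : 522 / 1000000 ≤ TT (6) := TT_num_ge (by norm_num) (by norm_num) ql_6 (by norm_num)
  norm_num at h1 h2 h3 h4 h5 h6 ⊢
  linarith

theorem vv_3 : 10323 / 10000 ≤ IS 3 - IS 9 / 3 := by
  have h1 := IS_ge (X := 3) (by norm_num)
  have h2 := LS1_ge
  have h3 : LS (3) ≤ 62100 / 1000000 := LS_num_le (by norm_num) qu_3 (by norm_num)
  have h4 := IS_le (X := 9) (by norm_num)
  have h5 := TT1_le
  have h6 := TT_nonneg (x := 9) (by norm_num)
  norm_num at h1 h2 h3 h4 h5 h6 ⊢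
  linarith

theorem vv_5 : 5715 / 10000 ≤ IS 1 - IS 5 / 5 := by
  have h1 := IS_one_ge
  have h4 := IS_le (X := 5) (by norm_num)
  have h5 := TT1_le
  have h6 : 2769 / 1000000 ≤ TT (5) := TT_num_ge (by norm_num) (by norm_num) ql_5 (by norm_num)
  norm_num at h1  h4 h5 h6 ⊢
  linarith

theorem ql_5_4 : 8208499 / 100000000 ≤ exp (-(2 * (5/4 : ℝ))) := by
  have h : (8208499 / 100000000 : ℝ) ^ 2 ≤ exp (-(5 : ℝ)) := exp_neg_ge 5 (by norm_num) (by norm_num)
  have e : exp (-(5 : ℝ)) = exp (-(2 * (5/4 : ℝ))) ^ 2 := by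
    rw [← exp_nat_mul]
    congr 1
    push_cast
    norm_num
  rw [e] at h
  exact le_of_sq_le_sq h (exp_pos _).le

theorem ql_3_2 : 4978706 / 100000000 ≤ exp (-(2 * (3/2 : ℝ))) :=
  exp_neg_ge 3 (by norm_num) (by norm_num)

theorem ql_2 : 1831563 / 100000000 ≤ exp (-(2 * (2 : ℝ))) :=
  exp_neg_ge 4 (by norm_num) (by norm_num)

theorem ww_1 : IJ 1 - IJ 3 / 27 ≤ 188 / 1000 := by
  have h1 := IJ_one_le
  have h4 := IJ_ge (X := 3) (by norm_num)
  have h5 := LJ1_ge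
  have h6 : LJ (3) ≤ 856598 / 1000000 := LJ_num_le (by norm_num) qu_3 (by norm_num)
  norm_num at h1  h4 h5 h6 ⊢
  linarith

theorem qu_15_4 : exp (-(2 * (15/4 : ℝ))) ≤ 55309 / 100000000 := by
  rw [exp_neg, inv_le_comm₀ (exp_pos _) (by norm_num)]
  refine le_trans ?_ (sum_le_exp_of_nonneg (by norm_num) 29)
  norm_num [Finset.sum_range_succ, Nat.factorial]

theorem ww_54 : IJ (5/4) - IJ (15/4) / 27 ≤ 3815 / 10000 := by
  have h1 := IJ_le (X := 5/4) (by norm_num)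
  have h2 := TJ1_le
  have h3 : 2761445 / 1000000 ≤ TJ (5/4) := TJ_num_ge4 (by norm_num) (by norm_num) ql_5_4 (by norm_num)
  have h4 := IJ_ge (X := 15/4) (by norm_num)
  have h5 := LJ1_ge
  have h6 : LJ (15/4) ≤ 396351 / 1000000 := LJ_num_le (by norm_num) qu_15_4 (by norm_num)
  norm_num at h1 h2 h3 h4 h5 h6 ⊢
  linarith

theorem qu_9_2 : exp (-(2 * (9/2 : ℝ))) ≤ 12341 / 100000000 := by
  rw [exp_neg, inv_le_comm₀ (exp_pos _) (by norm_num)]
  refine le_trans ?_ (sum_le_exp_of_nonneg (by norm_num) 32)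
  norm_num [Finset.sum_range_succ, Nat.factorial]

theorem ww_32 : IJ (3/2) - IJ (9/2) / 27 ≤ 633 / 1000 := by
  have h1 := IJ_le (X := 3/2) (by norm_num)
  have h2 := TJ1_le
  have h3 : 2501384 / 1000000 ≤ TJ (3/2) := TJ_num_ge4 (by norm_num) (by norm_num) ql_3_2 (by norm_num)
  have h4 := IJ_ge (X := 9/2) (by norm_num)
  have h5 := LJ1_ge
  have h6 : LJ (9/2) ≤ 164907 / 1000000 := LJ_num_le (by norm_num) qu_9_2 (by norm_num)
  norm_num at h1 h2 h3 h4 h5 h6 ⊢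
  linarith

theorem qu_6 : exp (-(2 * (6 : ℝ))) ≤ 6145 / 1000000000 := by
  rw [exp_neg, inv_le_comm₀ (exp_pos _) (by norm_num)]
  refine le_trans ?_ (sum_le_exp_of_nonneg (by norm_num) 37)
  norm_num [Finset.sum_range_succ, Nat.factorial]

theorem ww_2 : IJ 2 - IJ 6 / 27 ≤ 12235 / 10000 := by
  have h1 := IJ_le (X := 2) (by norm_num)
  have h2 := TJ1_le
  have h3 : 1905478 / 1000000 ≤ TJ (2) := TJ_num_ge4 (by norm_num) (by norm_num) ql_2 (by norm_num)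
  have h4 := IJ_ge (X := 6) (by norm_num)
  have h5 := LJ1_ge
  have h6 : LJ (6) ≤ 22805 / 1000000 := LJ_num_le (by norm_num) qu_6 (by norm_num)
  norm_num at h1 h2 h3 h4 h5 h6 ⊢
  linarith

theorem qu_5 : exp (-(2 * (5 : ℝ))) ≤ 45400 / 1000000000 := by
  rw [exp_neg, inv_le_comm₀ (exp_pos _) (by norm_num)]
  refine le_trans ?_ (sum_le_exp_of_nonneg (by norm_num) 33)
  norm_num [Finset.sum_range_succ, Nat.factorial]

theorem ww_5 : IJ 1 - IJ 5 / 125 ≤ 251 / 1000 := by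
  have h1 := IJ_one_le
  have h4 := IJ_ge (X := 5) (by norm_num)
  have h5 := LJ1_ge
  have h6 : LJ (5) ≤ 87762 / 1000000 := LJ_num_le (by norm_num) qu_5 (by norm_num)
  norm_num at h1  h4 h5 h6 ⊢
  linarith

theorem vv5 : 5715 / 10000 ≤ IS 1 - IS 5 / 5 := vv_5

theorem ww5 : IJ 1 - IJ 5 / 125 ≤ 251 / 1000 := ww_5

end Pool.Agent.SignedQ.Core
end

section

/-! # Core region, block SUM: assembly from the two Riemann sums (helper37) -/

namespace Pool.Agent.SignedQ.Core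

open Real Finset Pool.Agent.SignedQ.An

/-- The Riemann sum bound (1) + (2), as a statement. -/
def RS (m err : ℝ) (n k a : ℕ) (t : ℝ) : Prop := ∀ X lam mu : ℝ, 1 ≤ X → X ≤ (k + 1) * t →
  0 ≤ mu → mu * X ^ 2 ≤ lam →
  (lam * (IS X - IS (m * X) / m) - mu * (IJ X - IJ (m * X) / m ^ 3)) / (2 * t) - err * lam ≤
    QS n k a t lam mu X

theorem RS.hQ {m err : ℝ} {n k a : ℕ} {t : ℝ} (h : RS m err n k a t) (ht : 0 < t) {X v w : ℝ}
    (hX : 1 ≤ X) (hX' : X ≤ (k + 1) * t) (hv : v ≤ IS X - IS (m * X) / m)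
    (hw : IJ X - IJ (m * X) / m ^ 3 ≤ w) (lam mu : ℝ) (hmu : 0 ≤ mu) (hl : mu * X ^ 2 ≤ lam) :
    (lam * v - mu * w) / (2 * t) - err * lam ≤ QS n k a t lam mu X := by
  refine le_trans (sub_le_sub_right (div_le_div_of_nonneg_right ?_ (by linarith)) _)
    (h X lam mu hX hX' hmu hl)
  have hl0 : 0 ≤ lam := le_trans (by positivity) hl
  exact sub_le_sub (mul_le_mul_of_nonneg_left hv hl0) (mul_le_mul_of_nonneg_left hw hmu)

theorem blockSUM_of (h3 : ∀ (n k a : ℕ) (t : ℝ), Hi n k a t → RS 3 (2001 / 1000) n k a t)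
    (h5 : ∀ (n k a : ℕ) (t : ℝ), Hi n k a t → k < 200 → RS 5 (2101 / 1000) n k a t) :
    BlockSUM := by
  intro n k a t H
  have ht := H.hd.2.1
  have hp := H.hp
  have hd := H.hd
  have h1 : 1 ≤ ((k : ℝ) + 1) * t := by
    have := H.h1
    linarith
  have R3 := h3 n k a t H
  have q2 : 2 ≤ ((k : ℝ) + 1) * t → ∀ lam mu : ℝ, 0 ≤ mu → mu * 2 ^ 2 ≤ lam →
      (lam * (853 / 1000) - mu * (12235 / 10000)) / (2 * t) - 2001 / 1000 * lam ≤
        QS n k a t lam mu 2 := fun h2 =>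
    R3.hQ ht (by norm_num) h2 (by have := vv_2; norm_num at this ⊢; exact this)
      (by have := ww_2; norm_num at this ⊢; exact this)
  refine ⟨⟨R3.hQ ht le_rfl h1 ?_ ?_, hV_one hp hd⟩, fun hk => ⟨(h5 n k a t H hk).hQ ht le_rfl h1
    ?_ ?_, hV_one hp hd⟩, fun h54 => ⟨R3.hQ ht (by norm_num) h54 ?_ ?_, hV_54 hp hd⟩,
    fun h32 => ⟨R3.hQ ht (by norm_num) h32 ?_ ?_, hV_32 hp hd⟩,
    fun h2 => ⟨q2 h2, hV_two hp hd⟩, fun h3' => ?_, ?_, V_le_SS hp hd⟩
  · have := vv_1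
    norm_num at this ⊢
    exact this
  · have := ww_1
    norm_num at this ⊢
    exact this
  · have := vv_5
    norm_num at this ⊢
    exact this
  · have := ww_5
    norm_num at this ⊢
    exact this
  · have := vv_54
    norm_num at this ⊢
    exact this
  · have := ww_54
    norm_num at this ⊢
    exact this
  · have := vv_32
    norm_num at this ⊢
    exact this
  · have := ww_32
    norm_num at this ⊢
    exact this
  · refine le_trans ?_ (QS_le_SS hp.2.2.1 ht 3)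
    have := R3.hQ (v := 10323 / 10000) (w := IJ 3 - IJ (3 * 3) / 3 ^ 3) ht (by norm_num) h3'
      (by have := vv_3; norm_num at this ⊢; exact this) le_rfl 1 0 le_rfl (by norm_num)
    refine le_trans (le_of_eq ?_) this
    ring
  · refine JJ_le_four hp hd fun h2 => ?_
    have := q2 h2 4 1 zero_le_one (by norm_num)
    exact this

end Pool.Agent.SignedQ.Core
end

section

/-! # Core region, block SUM: the two Riemann sums (helper37) -/

namespace Pool.Agent.SignedQ.Core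

open Real Finset MeasureTheory intervalIntegral Pool.Agent.SignedQ.An

noncomputable def PH (lam mu x : ℝ) : ℝ := lam * IS x - mu * IJ x

theorem PH_zero (lam mu : ℝ) : PH lam mu 0 = 0 := by
  unfold PH IS IJ
  simp

theorem wt_integrable (lam mu x y : ℝ) :
    IntervalIntegrable (fun z => (lam - mu * z ^ 2) * sf z) volume x y :=
  (sf_intervalIntegrable x y).continuousOn_mul
    ((continuous_const.sub (continuous_const.mul (continuous_pow 2))).continuousOn)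

theorem PH_diff (lam mu x y : ℝ) :
    PH lam mu y - PH lam mu x = ∫ z in x..y, (lam - mu * z ^ 2) * sf z := by
  have h1 : IS y - IS x = ∫ z in x..y, sf z :=
    integral_interval_sub_left (sf_intervalIntegrable _ _) (sf_intervalIntegrable _ _)
  have h2 : IJ y - IJ x = ∫ z in x..y, z ^ 2 * sf z :=
    integral_interval_sub_left (sq_sf_intervalIntegrable _ _) (sq_sf_intervalIntegrable _ _)
  have h3 : ∀ z, (lam - mu * z ^ 2) * sf z = lam * sf z - mu * (z ^ 2 * sf z) := fun z => by ring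
  simp_rw [h3]
  rw [integral_sub ((sf_intervalIntegrable x y).const_mul lam)
    ((sq_sf_intervalIntegrable x y).const_mul mu), intervalIntegral.integral_const_mul,
    intervalIntegral.integral_const_mul, ← h1, ← h2]
  unfold PH
  ring

theorem wt_anti {lam mu X x y : ℝ} (hmu : 0 ≤ mu) (hl : mu * X ^ 2 ≤ lam) (hx : 0 < x)
    (hxy : x ≤ y) (hy : y ≤ X) : (lam - mu * y ^ 2) * sf y ≤ (lam - mu * x ^ 2) * sf x := by
  have hy2 : mu * y ^ 2 ≤ mu * X ^ 2 :=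
    mul_le_mul_of_nonneg_left (pow_le_pow_left₀ (hx.le.trans hxy) hy 2) hmu
  have hx2 : mu * x ^ 2 ≤ mu * y ^ 2 :=
    mul_le_mul_of_nonneg_left (pow_le_pow_left₀ hx.le hxy 2) hmu
  exact mul_le_mul (by linarith) (sf_anti hx hxy) (sf_nonneg' y) (by linarith)

theorem PH_le {lam mu X x y : ℝ} (hmu : 0 ≤ mu) (hl : mu * X ^ 2 ≤ lam) (hx : 0 < x)
    (hxy : x ≤ y) (hy : y ≤ X) :
    PH lam mu y - PH lam mu x ≤ (y - x) * ((lam - mu * x ^ 2) * sf x) := by
  rw [PH_diff]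
  have h := integral_mono_on_of_le_Ioo (g := fun _ => (lam - mu * x ^ 2) * sf x) hxy
    (wt_integrable lam mu x y) intervalIntegrable_const (fun z hz =>
      wt_anti hmu hl hx hz.1.le (hz.2.le.trans hy))
  rw [intervalIntegral.integral_const, smul_eq_mul] at h
  exact h

theorem PH_ge {lam mu X x y : ℝ} (hmu : 0 ≤ mu) (hl : mu * X ^ 2 ≤ lam) (hx : 0 ≤ x)
    (hxy : x ≤ y) (hy : y ≤ X) :
    (y - x) * ((lam - mu * y ^ 2) * sf y) ≤ PH lam mu y - PH lam mu x := by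
  rw [PH_diff]
  have h := integral_mono_on_of_le_Ioo (f := fun _ => (lam - mu * y ^ 2) * sf y) hxy
    intervalIntegrable_const (wt_integrable lam mu x y) (fun z hz =>
      wt_anti hmu hl (hx.trans_lt hz.1) hz.2.le hy)
  rw [intervalIntegral.integral_const, smul_eq_mul] at h
  exact h

theorem PH_mono {lam mu X x y : ℝ} (hmu : 0 ≤ mu) (hl : mu * X ^ 2 ≤ lam) (hx : 0 ≤ x)
    (hxy : x ≤ y) (hy : y ≤ X) : PH lam mu x ≤ PH lam mu y := by
  have h := PH_ge hmu hl hx hxy hy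
  have h1 : mu * y ^ 2 ≤ mu * X ^ 2 :=
    mul_le_mul_of_nonneg_left (pow_le_pow_left₀ (hx.trans hxy) hy 2) hmu
  have h2 : 0 ≤ (y - x) * ((lam - mu * y ^ 2) * sf y) :=
    mul_nonneg (by linarith) (mul_nonneg (by linarith) (sf_nonneg' y))
  linarith

theorem PH_le_lin {lam mu x : ℝ} (hmu : 0 ≤ mu) (hl : 0 ≤ lam) (hx : 0 ≤ x) :
    PH lam mu x ≤ x * lam := by
  have h0 := PH_diff lam mu 0 x
  rw [PH_zero, sub_zero] at h0
  rw [h0]
  have h := integral_mono_on_of_le_Ioo (g := fun _ => lam) hx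
    (wt_integrable lam mu 0 x) intervalIntegrable_const (fun z hz => by
      have h1 := sf_nonneg' z
      have h2 := sf_le_one' z
      have h3 : 0 ≤ mu * z ^ 2 := by positivity
      nlinarith [mul_nonneg h3 h1, mul_nonneg hl (sub_nonneg.2 h2)])
  rw [intervalIntegral.integral_const, smul_eq_mul, sub_zero] at h
  exact h

theorem cc_half (i : ℕ) (t : ℝ) : cc i * (t / 2) = (2 * i + 1) * t := by
  unfold cc
  ring

theorem sum_low {lam mu X t : ℝ} (ht : 0 < t) (hmu : 0 ≤ mu) (hl : mu * X ^ 2 ≤ lam)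
    (h3 : 3 * t ≤ X) (P : ℕ) :
    PH lam mu (min X ((2 * P + 3) * t)) - PH lam mu (3 * t) ≤
      2 * t * ∑ i ∈ Icc 1 P, (if cc i * (t / 2) ≤ X then
        (lam - mu * (cc i * (t / 2)) ^ 2) * sf (cc i * (t / 2)) else 0) := by
  induction P with
  | zero =>
    simp only [Nat.cast_zero, mul_zero, zero_add]
    rw [min_eq_right h3]
    simp
  | succ P ih =>
    rw [sum_Icc_succ_top (by omega), mul_add]
    rw [cc_half (P + 1) t]
    have hP : (0 : ℝ) ≤ P := Nat.cast_nonneg P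
    have e : (2 * ((P + 1 : ℕ) : ℝ) + 1) * t = (2 * P + 3) * t := by
      push_cast
      ring
    have e2 : (2 * ((P + 1 : ℕ) : ℝ) + 3) * t = (2 * P + 3) * t + 2 * t := by
      push_cast
      ring
    rw [e, e2]
    have hpos : 0 < (2 * (P : ℝ) + 3) * t := by positivity
    obtain ⟨y, hy⟩ : ∃ y, y = (2 * (P : ℝ) + 3) * t := ⟨_, rfl⟩
    rw [← hy] at ih hpos ⊢
    split_ifs with h
    · rw [min_eq_right h] at ih
      have h1 : y ≤ min X (y + 2 * t) := le_min h (by linarith)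
      have h2 := PH_le hmu hl hpos h1 (min_le_left _ _)
      have h4 : mu * y ^ 2 ≤ mu * X ^ 2 :=
        mul_le_mul_of_nonneg_left (pow_le_pow_left₀ hpos.le h 2) hmu
      have h5 : (min X (y + 2 * t) - y) * ((lam - mu * y ^ 2) * sf y) ≤
          2 * t * ((lam - mu * y ^ 2) * sf y) := by
        refine mul_le_mul_of_nonneg_right ?_ (mul_nonneg (by linarith) (sf_nonneg' y))
        have := min_le_right X (y + 2 * t)
        linarith
      linarith
    · rw [not_le] at h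
      rw [min_eq_left h.le] at ih
      rw [min_eq_left (by linarith)]
      linarith

theorem sum_up {lam mu X t m c : ℝ} (ht : 0 < t) (hmu : 0 ≤ mu) (hl : mu * X ^ 2 ≤ lam)
    (h3 : 3 * t ≤ X) (hm : 0 < m) (hc : 0 < c) (hc' : c ≤ 2) (P : ℕ) :
    2 * t * ∑ i ∈ Icc 1 (P + 1), (if cc i * (t / 2) ≤ X then
        (lam - mu * ((2 * i - 2 + c) * t) ^ 2) * sf (m * ((2 * i - 2 + c) * t)) else 0) ≤
      2 * t * ((lam - mu * (c * t) ^ 2) * sf (m * (c * t))) +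
        (PH (lam / m) (mu / m ^ 3) (m * min X ((2 * P + c) * t)) -
          PH (lam / m) (mu / m ^ 3) (m * (c * t))) := by
  have hX : 0 < X := by linarith
  have hmu' : 0 ≤ mu / m ^ 3 := by positivity
  have hl' : mu / m ^ 3 * (m * X) ^ 2 ≤ lam / m := by
    have : mu / m ^ 3 * (m * X) ^ 2 = mu * X ^ 2 / m := by
      field_simp
    rw [this]
    exact div_le_div_of_nonneg_right hl hm.le
  induction P with
  | zero =>
    simp only [Nat.cast_zero, mul_zero, zero_add]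
    have hcX : c * t ≤ X := by nlinarith
    rw [min_eq_right hcX, sub_self, add_zero]
    rw [Icc_self, sum_singleton]
    refine mul_le_mul_of_nonneg_left ?_ (by linarith)
    have e : (2 * ((1 : ℕ) : ℝ) - 2 + c) * t = c * t := by
      push_cast
      ring
    rw [e]
    split_ifs
    · exact le_rfl
    · refine mul_nonneg ?_ (sf_nonneg' _)
      have h4 : mu * (c * t) ^ 2 ≤ mu * X ^ 2 :=
        mul_le_mul_of_nonneg_left (pow_le_pow_left₀ (by positivity) hcX 2) hmu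
      linarith
  | succ P ih =>
    rw [sum_Icc_succ_top (by omega), mul_add]
    rw [cc_half (P + 1 + 1) t]
    have hP : (0 : ℝ) ≤ P := Nat.cast_nonneg P
    have e : (2 * ((P + 1 + 1 : ℕ) : ℝ) - 2 + c) * t = (2 * P + c) * t + 2 * t := by
      push_cast
      ring
    have e2 : (2 * ((P + 1 : ℕ) : ℝ) + c) * t = (2 * P + c) * t + 2 * t := by
      push_cast
      ring
    have e3 : (2 * ((P + 1 + 1 : ℕ) : ℝ) + 1) * t = (2 * P + c) * t + 2 * t + (3 - c) * t := by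
      push_cast
      ring
    rw [e, e2, e3]
    have hpos : 0 < (2 * (P : ℝ) + c) * t := by positivity
    obtain ⟨y, hy⟩ : ∃ y, y = (2 * (P : ℝ) + c) * t := ⟨_, rfl⟩
    rw [← hy] at ih hpos ⊢
    have hct : 0 < (3 - c) * t := mul_pos (by linarith) ht
    have hmX : m * min X (y + 2 * t) ≤ m * X :=
      mul_le_mul_of_nonneg_left (min_le_left _ _) hm.le
    split_ifs with h
    · have h1 : y + 2 * t ≤ X := by linarith
      rw [min_eq_right (by linarith)] at ih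
      rw [min_eq_right h1]
      have h2 := PH_ge (x := m * y) (y := m * (y + 2 * t)) hmu' hl' (by positivity)
        (mul_le_mul_of_nonneg_left (by linarith) hm.le)
        (mul_le_mul_of_nonneg_left h1 hm.le)
      have h4 : (m * (y + 2 * t) - m * y) * ((lam / m - mu / m ^ 3 * (m * (y + 2 * t)) ^ 2) *
          sf (m * (y + 2 * t))) =
          2 * t * ((lam - mu * (y + 2 * t) ^ 2) * sf (m * (y + 2 * t))) := by
        field_simp
        ring
      linarith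
    · have h2 := PH_mono (x := m * min X y) (y := m * min X (y + 2 * t)) hmu' hl'
        (mul_nonneg hm.le (le_min hX.le hpos.le))
        (mul_le_mul_of_nonneg_left (min_le_min le_rfl (by linarith)) hm.le) hmX
      linarith

theorem RS_gen {n k a : ℕ} {t m c : ℝ} (hk : 2 ≤ k) (ht : 0 < t)
    (ht' : t ≤ 31 / 2000) (hm : 0 < m) (hc : 0 < c) (hc' : c ≤ 2)
    (hdd : ∀ i ∈ Icc 1 (k / 2), m * ((2 * i - 2 + c) * t) ≤ dd n a i * (t / 2)) :
    RS m ((5 - c) / 2) n k a t := by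
  intro X lam mu hX hX' hmu hl
  have hX0 : 0 < X := by linarith
  have h3 : 3 * t ≤ X := by linarith
  have hl0 : 0 ≤ lam := le_trans (by positivity) hl
  have hcX : c * t ≤ X := by nlinarith
  have hmu' : 0 ≤ mu / m ^ 3 := by positivity
  have hl' : mu / m ^ 3 * (m * X) ^ 2 ≤ lam / m := by
    have : mu / m ^ 3 * (m * X) ^ 2 = mu * X ^ 2 / m := by
      field_simp
    rw [this]
    exact div_le_div_of_nonneg_right hl hm.le
  -- the termwise bound
  have h1 : ∑ i ∈ Icc 1 (k / 2), (if cc i * (t / 2) ≤ X then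
        (lam - mu * (cc i * (t / 2)) ^ 2) * sf (cc i * (t / 2)) else 0) -
      ∑ i ∈ Icc 1 (k / 2), (if cc i * (t / 2) ≤ X then
        (lam - mu * ((2 * i - 2 + c) * t) ^ 2) * sf (m * ((2 * i - 2 + c) * t)) else 0) ≤
      QS n k a t lam mu X := by
    unfold QS
    rw [← sum_sub_distrib]
    refine sum_le_sum fun i hi => ?_
    have hi1 : (1 : ℝ) ≤ i := by exact_mod_cast (Finset.mem_Icc.1 hi).1
    have hd := hdd i hi
    split_ifs with h
    · unfold Sd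
      have e := cc_half i t
      have hy0 : 0 < (2 * (i : ℝ) - 2 + c) * t := mul_pos (by linarith) ht
      have hyx : (2 * (i : ℝ) - 2 + c) * t ≤ cc i * (t / 2) := by
        rw [e]
        exact mul_le_mul_of_nonneg_right (by linarith) ht.le
      have hx0 : 0 ≤ cc i * (t / 2) := hy0.le.trans hyx
      have h4 : mu * (cc i * (t / 2)) ^ 2 ≤ mu * X ^ 2 :=
        mul_le_mul_of_nonneg_left (pow_le_pow_left₀ hx0 h 2) hmu
      have h5 : mu * ((2 * (i : ℝ) - 2 + c) * t) ^ 2 ≤ mu * (cc i * (t / 2)) ^ 2 :=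
        mul_le_mul_of_nonneg_left (pow_le_pow_left₀ hy0.le hyx 2) hmu
      have h6 : sf (dd n a i * (t / 2)) ≤ sf (m * ((2 * i - 2 + c) * t)) :=
        sf_anti (mul_pos hm hy0) hd
      have h7 : (lam - mu * (cc i * (t / 2)) ^ 2) * sf (dd n a i * (t / 2)) ≤
          (lam - mu * ((2 * i - 2 + c) * t) ^ 2) * sf (m * ((2 * i - 2 + c) * t)) :=
        mul_le_mul (by linarith) h6 (sf_nonneg' _) (by linarith)
      linarith
    · linarith
  have h2 := sum_low ht hmu hl h3 (k / 2)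
  have hk2 : (k : ℝ) ≤ 2 * ((k / 2 : ℕ) : ℝ) + 1 := by
    have : k ≤ 2 * (k / 2) + 1 := by omega
    exact_mod_cast this
  rw [min_eq_left (by nlinarith)] at h2
  obtain ⟨P, hP⟩ : ∃ P, k / 2 = P + 1 := ⟨k / 2 - 1, by omega⟩
  have h4 := sum_up ht hmu hl h3 hm hc hc' P
  rw [← hP] at h4
  have h5 := PH_mono (x := m * min X ((2 * P + c) * t)) (y := m * X) hmu' hl'
    (mul_nonneg hm.le (le_min hX0.le (by positivity)))
    (mul_le_mul_of_nonneg_left (min_le_left _ _) hm.le) le_rfl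
  have h6 := PH_ge (x := 0) (y := m * (c * t)) hmu' hl' le_rfl (by positivity)
    (mul_le_mul_of_nonneg_left hcX hm.le)
  rw [PH_zero, sub_zero, sub_zero] at h6
  have e6 : m * (c * t) * ((lam / m - mu / m ^ 3 * (m * (c * t)) ^ 2) * sf (m * (c * t))) =
      c * t * ((lam - mu * (c * t) ^ 2) * sf (m * (c * t))) := by
    field_simp
  rw [e6] at h6
  have h7 := PH_le_lin (lam := lam) (mu := mu) (x := 3 * t) hmu hl0 (by positivity)
  have h8 : (lam - mu * (c * t) ^ 2) * sf (m * (c * t)) ≤ lam := by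
    have g1 := sf_nonneg' (m * (c * t))
    have g2 := sf_le_one' (m * (c * t))
    have g3 : 0 ≤ mu * (c * t) ^ 2 := by positivity
    nlinarith [mul_nonneg g3 g1, mul_nonneg hl0 (sub_nonneg.2 g2)]
  obtain ⟨G, hG⟩ : ∃ G, G = (lam - mu * (c * t) ^ 2) * sf (m * (c * t)) := ⟨_, rfl⟩
  rw [← hG] at h4 h6 h8
  have h9 : (2 - c) * t * G ≤ (2 - c) * t * lam :=
    mul_le_mul_of_nonneg_left h8 (mul_nonneg (by linarith) ht.le)
  have e7 : PH (lam / m) (mu / m ^ 3) (m * X) = lam * (IS (m * X) / m) -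
      mu * (IJ (m * X) / m ^ 3) := by
    unfold PH
    ring
  rw [e7] at h5
  have e8 : PH lam mu X = lam * IS X - mu * IJ X := rfl
  rw [e8] at h2
  have h10 := mul_le_mul_of_nonneg_left h1 (show (0 : ℝ) ≤ 2 * t by linarith)
  rw [mul_sub] at h10
  rw [sub_le_iff_le_add, div_le_iff₀ (by linarith)]
  nlinarith

theorem dd_ge3 {n a i : ℕ} {t : ℝ} (ht : 0 < t) (ha : 3 ≤ a) (hi : 1 ≤ i) :
    3 * ((2 * i - 2 + 1) * t) ≤ dd n a i * (t / 2) := by
  have ha' : (3 : ℝ) ≤ a := by exact_mod_cast ha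
  have hi' : (1 : ℝ) ≤ i := by exact_mod_cast hi
  have hn : (0 : ℝ) ≤ (nu n : ℝ) := Nat.cast_nonneg _
  unfold dd
  split_ifs with h
  · rw [h.2]
    push_cast
    have : 3 * (2 : ℝ) ≤ a * (nu n + 2) := mul_le_mul ha' (by linarith) (by norm_num) (by linarith)
    nlinarith
  · have : 3 * (2 * (i : ℝ) - 1) ≤ a * (nu n + 2 * i - 1) :=
      mul_le_mul ha' (by linarith) (by linarith) (by linarith)
    nlinarith

theorem RS3 (n k a : ℕ) (t : ℝ) (H : Hi n k a t) : RS 3 (2001 / 1000) n k a t := by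
  have hk := H.hd.1
  have ht := H.hd.2.1
  have h := RS_gen (n := n) (k := k) (a := a) (m := 3) (c := 1) (by omega) ht H.hd.2.2.1 (by norm_num)
    (by norm_num) (by norm_num) (fun i hi => dd_ge3 ht H.hp.2.2.1 (Finset.mem_Icc.1 hi).1)
  intro X lam mu hX hX' hmu hl
  have h1 := h X lam mu hX hX' hmu hl
  have hl0 : 0 ≤ lam := le_trans (by positivity) hl
  norm_num at h1 ⊢
  linarith

theorem dd_ge5 {n k a i : ℕ} {t : ℝ} (ht : 0 < t) (hk : 26 ≤ k) (ha : 3 ≤ a) (hao : Odd a)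
    (h35 : a = 3 → 5 * k ≤ 3 * (n + k)) (hi : 1 ≤ i) (hi2 : i ≤ k / 2) :
    5 * ((2 * i - 2 + 4 / 5) * t) ≤ dd n a i * (t / 2) := by
  have hi' : (1 : ℝ) ≤ i := by exact_mod_cast hi
  have hn : (0 : ℝ) ≤ (nu n : ℝ) := Nat.cast_nonneg _
  rcases Nat.lt_or_ge 3 a with h | h
  · have ha5 : 5 ≤ a := by
      obtain ⟨b, hb⟩ := hao
      omega
    have ha' : (5 : ℝ) ≤ a := by exact_mod_cast ha5
    unfold dd
    split_ifs with h
    · rw [h.2]
      push_cast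
      have : 5 * (2 : ℝ) ≤ a * (nu n + 2) :=
        mul_le_mul ha' (by linarith) (by norm_num) (by linarith)
      nlinarith
    · have : 5 * (2 * (i : ℝ) - 1) ≤ a * (nu n + 2 * i - 1) :=
        mul_le_mul ha' (by linarith) (by linarith) (by linarith)
      nlinarith
  · have ha3 : a = 3 := by omega
    have h1 := h35 ha3
    have hnu : n ≤ nu n + 1 := by
      unfold nu
      omega
    have h2 : 4 * i ≤ 3 * nu n + 3 := by omega
    have h2' : 4 * (i : ℝ) ≤ 3 * nu n + 3 := by exact_mod_cast h2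
    have h3 : 14 ≤ nu n := by omega
    have h3' : (14 : ℝ) ≤ nu n := by exact_mod_cast h3
    subst ha3
    unfold dd
    split_ifs with h
    · rw [h.2]
      push_cast
      nlinarith
    · push_cast
      nlinarith

theorem RS5 (n k a : ℕ) (t : ℝ) (H : Hi n k a t) (hk200 : k < 200) :
    RS 5 (2101 / 1000) n k a t := by
  have hk := H.hd.1
  have ht := H.hd.2.1
  have h := RS_gen (n := n) (k := k) (a := a) (m := 5) (c := 4 / 5) (by omega) ht H.hd.2.2.1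
    (by norm_num) (by norm_num) (by norm_num) (fun i hi => dd_ge5 ht hk H.hp.2.2.1 H.hp.2.1
      (fun ha => H.hp.lt200 hk200 ha) (Finset.mem_Icc.1 hi).1 (Finset.mem_Icc.1 hi).2)
  intro X lam mu hX hX' hmu hl
  have h1 := h X lam mu hX hX' hmu hl
  have hl0 : 0 ≤ lam := le_trans (by positivity) hl
  norm_num at h1 ⊢
  linarith

theorem blockSUM : BlockSUM := blockSUM_of RS3 RS5

end Pool.Agent.SignedQ.Core
end

section

/-! # The core region: `CORE` and `CORE'` -/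

namespace Pool.Agent.SignedQ.Core

open Pool.Agent.SignedQ.An

theorem core : CORE := core_of blockZ1 blockSUM blockZ2 blockR2

theorem core_prime : CORE' := core'_of blockZ1 blockSUM blockZ2 blockR2

end Pool.Agent.SignedQ.Core
end
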