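import Pool.Agent.Lib.MP_cf17a0_co.S1.Edge.Ed60
import Pool.Agent.Lib.MP_cf17a0_co.S1.Edge.Ed61
import Pool.Agent.Lib.MP_cf17a0_co.S1.Edge.Ed62
import Pool.Agent.Lib.MP_cf17a0_co.S1.Edge.Ed63
import Pool.Agent.Lib.MP_cf17a0_co.S1.Edge.Ed64
import Pool.Agent.Lib.MP_cf17a0_co.S1.Edge.Ed65
import Pool.Agent.Lib.MP_cf17a0_co.S1.Edge.Ed66
import Pool.Agent.Lib.MP_cf17a0_co.S1.Edge.Ed67
import Pool.Agent.Lib.MP_cf17a0_co.S1.Edge.EdBase
import Pool.Agent.Lib.MP_cf17a0_co.KCEdge
import Pool.Agent.Lib.MP_cf17a0_co.KS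
import Pool.Agent.Lib.MP_cf17a0_co.S1.Dom
import Pool.Agent.Lib.MP_cf17a0_co.S1.EF
import Pool.Agent.Lib.MP_cf17a0_co.S1.F2d

section

/-! # The low coefficients: `m < 2048`, all `k ≥ 26` -/

set_option autoImplicit false

namespace Pool.Agent.SignedQ.KC

open PowerSeries Finset

theorem ble_true {a b : ℕ} (h : a ≤ b) : Nat.ble a b = true := Nat.ble_eq_true_of_le h

theorem ble_false {a b : ℕ} (h : b < a) : Nat.ble a b = false := by
  cases h5 : Nat.ble a b with
  | false => rfl
  | true =>
    have := Nat.le_of_ble_eq_true h5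
    omega

theorem oka_spec {i : ℕ} (h : oka i = true) {n : ℕ} (hn : (2 * i + 3) * (n + 1) < 600) :
    okp (2 * i + 3) n = true := by
  refine many_spec _ h n (Nat.zero_le _) ?_
  rw [zero_add]
  have h1 : (n + 1) * (2 * i + 3) ≤ 599 := by
    rw [mul_comm]; omega
  have h2 : n + 1 ≤ 600 / (2 * i + 3) := by
    rw [Nat.le_div_iff_mul_le (by omega)]
    omega
  exact h2

theorem okp_T {a n : ℕ} (h : okp a n = true) (hb : a * (n + 1) < 262) :
    runT n a 28 216 2048 60 20000 380 = true := by
  unfold okp at h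
  rw [show Nat.ble 600 (Nat.mul a (Nat.succ n)) = false from ble_false (by
      show a * (n + 1) < 600
      omega),
    show Nat.ble 416 (Nat.mul a (Nat.succ n)) = false from ble_false (by
      show a * (n + 1) < 416
      omega),
    show Nat.ble 316 (Nat.mul a (Nat.succ n)) = false from ble_false (by
      show a * (n + 1) < 316
      omega),
    show Nat.ble 262 (Nat.mul a (Nat.succ n)) = false from ble_false hb] at h
  exact h

theorem okp_90 {a n : ℕ} (h : okp a n = true) (hb : a * (n + 1) < 316)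
    (hb2 : 262 ≤ a * (n + 1)) : runS n a 28 216 2048 60 90 = true := by
  unfold okp at h
  rw [show Nat.ble 600 (Nat.mul a (Nat.succ n)) = false from ble_false (by
      show a * (n + 1) < 600
      omega),
    show Nat.ble 416 (Nat.mul a (Nat.succ n)) = false from ble_false (by
      show a * (n + 1) < 416
      omega),
    show Nat.ble 316 (Nat.mul a (Nat.succ n)) = false from ble_false hb,
    show Nat.ble 262 (Nat.mul a (Nat.succ n)) = true from ble_true hb2] at h
  exact h

theorem okp_60 {a n : ℕ} (h : okp a n = true) (hb : a * (n + 1) < 416)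
    (hb2 : 316 ≤ a * (n + 1)) : runS n a 28 216 2048 60 60 = true := by
  unfold okp at h
  rw [show Nat.ble 600 (Nat.mul a (Nat.succ n)) = false from ble_false (by
      show a * (n + 1) < 600
      omega),
    show Nat.ble 416 (Nat.mul a (Nat.succ n)) = false from ble_false hb,
    show Nat.ble 316 (Nat.mul a (Nat.succ n)) = true from ble_true hb2] at h
  exact h

theorem okp_40 {a n : ℕ} (h : okp a n = true) (hb : a * (n + 1) < 600)
    (hb2 : 416 ≤ a * (n + 1)) : runS n a 28 216 2048 60 40 = true := by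
  unfold okp at h
  rw [show Nat.ble 600 (Nat.mul a (Nat.succ n)) = false from ble_false hb,
    show Nat.ble 416 (Nat.mul a (Nat.succ n)) = true from ble_true hb2] at h
  exact h

theorem thr_91 {k : ℕ} (h : 91 ≤ k) : thr k = 262 := by
  unfold thr
  rw [ble_true h]

theorem thr_61 {k : ℕ} (h : 61 ≤ k) : thr k ≤ 316 := by
  unfold thr
  rw [ble_true h]
  cases Nat.ble 91 k <;> cases Nat.ble 41 k <;> cases Nat.ble 26 k <;> decide

theorem thr_41 {k : ℕ} (h : 41 ≤ k) : thr k ≤ 416 := by
  unfold thr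
  rw [ble_true h]
  cases Nat.ble 91 k <;> cases Nat.ble 61 k <;> cases Nat.ble 26 k <;> decide

theorem thr_26 {k : ℕ} (h : 26 ≤ k) : thr k ≤ 600 := by
  unfold thr
  rw [ble_true h]
  cases Nat.ble 91 k <;> cases Nat.ble 61 k <;> cases Nat.ble 41 k <;> decide

theorem cov_0 {n : ℕ} (hn : 3 * (n + 1) < 600) : okp 3 n = true := by
  have hN : n < 199 := by omega
  rcases lt_or_ge n 6 with h | h
  · exact many_spec _ t_0_0 n (by omega) (by omega)
  rcases lt_or_ge n 12 with h | h
  · exact many_spec _ t_0_6 n (by omega) (by omega)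
  rcases lt_or_ge n 18 with h | h
  · exact many_spec _ t_0_12 n (by omega) (by omega)
  rcases lt_or_ge n 24 with h | h
  · exact many_spec _ t_0_18 n (by omega) (by omega)
  rcases lt_or_ge n 30 with h | h
  · exact many_spec _ t_0_24 n (by omega) (by omega)
  rcases lt_or_ge n 36 with h | h
  · exact many_spec _ t_0_30 n (by omega) (by omega)
  rcases lt_or_ge n 42 with h | h
  · exact many_spec _ t_0_36 n (by omega) (by omega)
  rcases lt_or_ge n 48 with h | h
  · exact many_spec _ t_0_42 n (by omega) (by omega)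
  rcases lt_or_ge n 54 with h | h
  · exact many_spec _ t_0_48 n (by omega) (by omega)
  rcases lt_or_ge n 60 with h | h
  · exact many_spec _ t_0_54 n (by omega) (by omega)
  rcases lt_or_ge n 66 with h | h
  · exact many_spec _ t_0_60 n (by omega) (by omega)
  rcases lt_or_ge n 72 with h | h
  · exact many_spec _ t_0_66 n (by omega) (by omega)
  rcases lt_or_ge n 78 with h | h
  · exact many_spec _ t_0_72 n (by omega) (by omega)
  rcases lt_or_ge n 84 with h | h
  · exact many_spec _ t_0_78 n (by omega) (by omega)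
  rcases lt_or_ge n 98 with h | h
  · exact many_spec _ t_0_84 n (by omega) (by omega)
  rcases lt_or_ge n 130 with h | h
  · exact many_spec _ t_0_98 n (by omega) (by omega)
  rcases lt_or_ge n 180 with h | h
  · exact many_spec _ t_0_130 n (by omega) (by omega)
  exact many_spec _ t_0_180 n (by omega) (by omega)

theorem cov_1 {n : ℕ} (hn : 5 * (n + 1) < 600) : okp 5 n = true := by
  have hN : n < 119 := by omega
  rcases lt_or_ge n 6 with h | h
  · exact many_spec _ t_1_0 n (by omega) (by omega)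
  rcases lt_or_ge n 12 with h | h
  · exact many_spec _ t_1_6 n (by omega) (by omega)
  rcases lt_or_ge n 18 with h | h
  · exact many_spec _ t_1_12 n (by omega) (by omega)
  rcases lt_or_ge n 24 with h | h
  · exact many_spec _ t_1_18 n (by omega) (by omega)
  rcases lt_or_ge n 30 with h | h
  · exact many_spec _ t_1_24 n (by omega) (by omega)
  rcases lt_or_ge n 36 with h | h
  · exact many_spec _ t_1_30 n (by omega) (by omega)
  rcases lt_or_ge n 42 with h | h
  · exact many_spec _ t_1_36 n (by omega) (by omega)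
  rcases lt_or_ge n 48 with h | h
  · exact many_spec _ t_1_42 n (by omega) (by omega)
  rcases lt_or_ge n 59 with h | h
  · exact many_spec _ t_1_48 n (by omega) (by omega)
  rcases lt_or_ge n 97 with h | h
  · exact many_spec _ t_1_59 n (by omega) (by omega)
  exact many_spec _ t_1_97 n (by omega) (by omega)

theorem cov_2 {n : ℕ} (hn : 7 * (n + 1) < 600) : okp 7 n = true := by
  have hN : n < 85 := by omega
  rcases lt_or_ge n 6 with h | h
  · exact many_spec _ t_2_0 n (by omega) (by omega)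
  rcases lt_or_ge n 12 with h | h
  · exact many_spec _ t_2_6 n (by omega) (by omega)
  rcases lt_or_ge n 18 with h | h
  · exact many_spec _ t_2_12 n (by omega) (by omega)
  rcases lt_or_ge n 24 with h | h
  · exact many_spec _ t_2_18 n (by omega) (by omega)
  rcases lt_or_ge n 30 with h | h
  · exact many_spec _ t_2_24 n (by omega) (by omega)
  rcases lt_or_ge n 36 with h | h
  · exact many_spec _ t_2_30 n (by omega) (by omega)
  rcases lt_or_ge n 64 with h | h
  · exact many_spec _ t_2_36 n (by omega) (by omega)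
  exact many_spec _ t_2_64 n (by omega) (by omega)

theorem cov_3 {n : ℕ} (hn : 9 * (n + 1) < 600) : okp 9 n = true := by
  have hN : n < 66 := by omega
  rcases lt_or_ge n 6 with h | h
  · exact many_spec _ t_3_0 n (by omega) (by omega)
  rcases lt_or_ge n 12 with h | h
  · exact many_spec _ t_3_6 n (by omega) (by omega)
  rcases lt_or_ge n 18 with h | h
  · exact many_spec _ t_3_12 n (by omega) (by omega)
  rcases lt_or_ge n 24 with h | h
  · exact many_spec _ t_3_18 n (by omega) (by omega)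
  rcases lt_or_ge n 32 with h | h
  · exact many_spec _ t_3_24 n (by omega) (by omega)
  exact many_spec _ t_3_32 n (by omega) (by omega)

theorem cov_4 {n : ℕ} (hn : 11 * (n + 1) < 600) : okp 11 n = true := by
  have hN : n < 54 := by omega
  rcases lt_or_ge n 6 with h | h
  · exact many_spec _ t_4_0 n (by omega) (by omega)
  rcases lt_or_ge n 12 with h | h
  · exact many_spec _ t_4_6 n (by omega) (by omega)
  rcases lt_or_ge n 18 with h | h
  · exact many_spec _ t_4_12 n (by omega) (by omega)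
  rcases lt_or_ge n 26 with h | h
  · exact many_spec _ t_4_18 n (by omega) (by omega)
  exact many_spec _ t_4_26 n (by omega) (by omega)

theorem cov_5 {n : ℕ} (hn : 13 * (n + 1) < 600) : okp 13 n = true := by
  have hN : n < 46 := by omega
  rcases lt_or_ge n 6 with h | h
  · exact many_spec _ t_5_0 n (by omega) (by omega)
  rcases lt_or_ge n 12 with h | h
  · exact many_spec _ t_5_6 n (by omega) (by omega)
  rcases lt_or_ge n 18 with h | h
  · exact many_spec _ t_5_12 n (by omega) (by omega)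
  exact many_spec _ t_5_18 n (by omega) (by omega)

theorem cov_6 {n : ℕ} (hn : 15 * (n + 1) < 600) : okp 15 n = true := by
  have hN : n < 39 := by omega
  rcases lt_or_ge n 6 with h | h
  · exact many_spec _ t_6_0 n (by omega) (by omega)
  rcases lt_or_ge n 12 with h | h
  · exact many_spec _ t_6_6 n (by omega) (by omega)
  rcases lt_or_ge n 20 with h | h
  · exact many_spec _ t_6_12 n (by omega) (by omega)
  exact many_spec _ t_6_20 n (by omega) (by omega)

theorem cov_7 {n : ℕ} (hn : 17 * (n + 1) < 600) : okp 17 n = true := by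
  have hN : n < 35 := by omega
  rcases lt_or_ge n 6 with h | h
  · exact many_spec _ t_7_0 n (by omega) (by omega)
  rcases lt_or_ge n 12 with h | h
  · exact many_spec _ t_7_6 n (by omega) (by omega)
  exact many_spec _ t_7_12 n (by omega) (by omega)

theorem cov_8 {n : ℕ} (hn : 19 * (n + 1) < 600) : okp 19 n = true := by
  have hN : n < 31 := by omega
  rcases lt_or_ge n 6 with h | h
  · exact many_spec _ t_8_0 n (by omega) (by omega)
  rcases lt_or_ge n 12 with h | h
  · exact many_spec _ t_8_6 n (by omega) (by omega)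
  exact many_spec _ t_8_12 n (by omega) (by omega)

theorem cov_large {i : ℕ} (h9 : 9 ≤ i) (hi : i < 299) : oka i = true := by
  rcases lt_or_ge i 10 with h | h
  · exact many_spec _ u_9 i (by omega) (by omega)
  rcases lt_or_ge i 11 with h | h
  · exact many_spec _ u_10 i (by omega) (by omega)
  rcases lt_or_ge i 12 with h | h
  · exact many_spec _ u_11 i (by omega) (by omega)
  rcases lt_or_ge i 13 with h | h
  · exact many_spec _ u_12 i (by omega) (by omega)
  rcases lt_or_ge i 14 with h | h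
  · exact many_spec _ u_13 i (by omega) (by omega)
  rcases lt_or_ge i 15 with h | h
  · exact many_spec _ u_14 i (by omega) (by omega)
  rcases lt_or_ge i 16 with h | h
  · exact many_spec _ u_15 i (by omega) (by omega)
  rcases lt_or_ge i 17 with h | h
  · exact many_spec _ u_16 i (by omega) (by omega)
  rcases lt_or_ge i 18 with h | h
  · exact many_spec _ u_17 i (by omega) (by omega)
  rcases lt_or_ge i 19 with h | h
  · exact many_spec _ u_18 i (by omega) (by omega)
  rcases lt_or_ge i 20 with h | h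
  · exact many_spec _ u_19 i (by omega) (by omega)
  rcases lt_or_ge i 21 with h | h
  · exact many_spec _ u_20 i (by omega) (by omega)
  rcases lt_or_ge i 22 with h | h
  · exact many_spec _ u_21 i (by omega) (by omega)
  rcases lt_or_ge i 23 with h | h
  · exact many_spec _ u_22 i (by omega) (by omega)
  rcases lt_or_ge i 24 with h | h
  · exact many_spec _ u_23 i (by omega) (by omega)
  rcases lt_or_ge i 25 with h | h
  · exact many_spec _ u_24 i (by omega) (by omega)
  rcases lt_or_ge i 26 with h | h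
  · exact many_spec _ u_25 i (by omega) (by omega)
  rcases lt_or_ge i 27 with h | h
  · exact many_spec _ u_26 i (by omega) (by omega)
  rcases lt_or_ge i 28 with h | h
  · exact many_spec _ u_27 i (by omega) (by omega)
  rcases lt_or_ge i 29 with h | h
  · exact many_spec _ u_28 i (by omega) (by omega)
  rcases lt_or_ge i 30 with h | h
  · exact many_spec _ u_29 i (by omega) (by omega)
  rcases lt_or_ge i 31 with h | h
  · exact many_spec _ u_30 i (by omega) (by omega)
  rcases lt_or_ge i 32 with h | h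
  · exact many_spec _ u_31 i (by omega) (by omega)
  rcases lt_or_ge i 33 with h | h
  · exact many_spec _ u_32 i (by omega) (by omega)
  rcases lt_or_ge i 34 with h | h
  · exact many_spec _ u_33 i (by omega) (by omega)
  rcases lt_or_ge i 35 with h | h
  · exact many_spec _ u_34 i (by omega) (by omega)
  rcases lt_or_ge i 36 with h | h
  · exact many_spec _ u_35 i (by omega) (by omega)
  rcases lt_or_ge i 37 with h | h
  · exact many_spec _ u_36 i (by omega) (by omega)
  rcases lt_or_ge i 38 with h | h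
  · exact many_spec _ u_37 i (by omega) (by omega)
  rcases lt_or_ge i 39 with h | h
  · exact many_spec _ u_38 i (by omega) (by omega)
  rcases lt_or_ge i 40 with h | h
  · exact many_spec _ u_39 i (by omega) (by omega)
  rcases lt_or_ge i 41 with h | h
  · exact many_spec _ u_40 i (by omega) (by omega)
  rcases lt_or_ge i 42 with h | h
  · exact many_spec _ u_41 i (by omega) (by omega)
  rcases lt_or_ge i 43 with h | h
  · exact many_spec _ u_42 i (by omega) (by omega)
  rcases lt_or_ge i 45 with h | h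
  · exact many_spec _ u_43 i (by omega) (by omega)
  rcases lt_or_ge i 47 with h | h
  · exact many_spec _ u_45 i (by omega) (by omega)
  rcases lt_or_ge i 49 with h | h
  · exact many_spec _ u_47 i (by omega) (by omega)
  rcases lt_or_ge i 51 with h | h
  · exact many_spec _ u_49 i (by omega) (by omega)
  rcases lt_or_ge i 53 with h | h
  · exact many_spec _ u_51 i (by omega) (by omega)
  rcases lt_or_ge i 55 with h | h
  · exact many_spec _ u_53 i (by omega) (by omega)
  rcases lt_or_ge i 57 with h | h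
  · exact many_spec _ u_55 i (by omega) (by omega)
  rcases lt_or_ge i 59 with h | h
  · exact many_spec _ u_57 i (by omega) (by omega)
  rcases lt_or_ge i 61 with h | h
  · exact many_spec _ u_59 i (by omega) (by omega)
  rcases lt_or_ge i 63 with h | h
  · exact many_spec _ u_61 i (by omega) (by omega)
  rcases lt_or_ge i 66 with h | h
  · exact many_spec _ u_63 i (by omega) (by omega)
  rcases lt_or_ge i 70 with h | h
  · exact many_spec _ u_66 i (by omega) (by omega)
  rcases lt_or_ge i 74 with h | h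
  · exact many_spec _ u_70 i (by omega) (by omega)
  rcases lt_or_ge i 78 with h | h
  · exact many_spec _ u_74 i (by omega) (by omega)
  rcases lt_or_ge i 82 with h | h
  · exact many_spec _ u_78 i (by omega) (by omega)
  rcases lt_or_ge i 86 with h | h
  · exact many_spec _ u_82 i (by omega) (by omega)
  rcases lt_or_ge i 90 with h | h
  · exact many_spec _ u_86 i (by omega) (by omega)
  rcases lt_or_ge i 94 with h | h
  · exact many_spec _ u_90 i (by omega) (by omega)
  rcases lt_or_ge i 98 with h | h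
  · exact many_spec _ u_94 i (by omega) (by omega)
  rcases lt_or_ge i 103 with h | h
  · exact many_spec _ u_98 i (by omega) (by omega)
  rcases lt_or_ge i 108 with h | h
  · exact many_spec _ u_103 i (by omega) (by omega)
  rcases lt_or_ge i 113 with h | h
  · exact many_spec _ u_108 i (by omega) (by omega)
  rcases lt_or_ge i 118 with h | h
  · exact many_spec _ u_113 i (by omega) (by omega)
  rcases lt_or_ge i 123 with h | h
  · exact many_spec _ u_118 i (by omega) (by omega)
  rcases lt_or_ge i 128 with h | h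
  · exact many_spec _ u_123 i (by omega) (by omega)
  rcases lt_or_ge i 140 with h | h
  · exact many_spec _ u_128 i (by omega) (by omega)
  rcases lt_or_ge i 160 with h | h
  · exact many_spec _ u_140 i (by omega) (by omega)
  rcases lt_or_ge i 196 with h | h
  · exact many_spec _ u_160 i (by omega) (by omega)
  rcases lt_or_ge i 244 with h | h
  · exact many_spec _ u_196 i (by omega) (by omega)
  rcases lt_or_ge i 298 with h | h
  · exact many_spec _ u_244 i (by omega) (by omega)
  exact many_spec _ u_298 i (by omega) (by omega)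

theorem cov {i n : ℕ} (hn : (2 * i + 3) * (n + 1) < 600) : okp (2 * i + 3) n = true := by
  have hi : i < 299 := by nlinarith
  rcases lt_or_ge i 9 with h | h
  · interval_cases i
    · exact cov_0 hn
    · exact cov_1 hn
    · exact cov_2 hn
    · exact cov_3 hn
    · exact cov_4 hn
    · exact cov_5 hn
    · exact cov_6 hn
    · exact cov_7 hn
    · exact cov_8 hn
  · exact oka_spec (cov_large h hi) hn

theorem prm : Prm 14 216 2048 20000 199 31 := by
  refine ⟨by norm_num, by norm_num, by norm_num, ⟨by norm_num, by norm_num, by norm_num⟩, ?_,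
    by norm_num⟩
  unfold Cnd
  norm_num

theorem thr_facts : ∀ k, 1 ≤ thr k ∧ thr k % 2 = 0 := by
  intro k
  unfold thr
  cases Nat.ble 91 k <;> cases Nat.ble 61 k <;> cases Nat.ble 41 k <;> cases Nat.ble 26 k <;>
    decide

/-- **All pairs, all `k ≥ 26`, the coefficients below 2048.** -/
theorem gs_nonneg {n a k : ℕ} (ha : a % 2 = 1) (ha3 : 3 ≤ a) (hk : 26 ≤ k) (he : Even (n * k)) :
    NN 2048 (gs n a (2 * 14) k) := by
  obtain ⟨-, hB1, hB2⟩ := runB_spec (s := 14) (J := 60) (k0 := 380) (b0 := 262) (thr := thr) prm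
    (by norm_num) (by norm_num) (by norm_num) (by norm_num) (by norm_num) (by norm_num) thr_facts
    edge_base
  have hbase : thr k ≤ a * (n + 1) → 262 ≤ a * (n + 1) → NN 2048 (gs n a (2 * 14) k) := by
    intro h1 h2
    rcases lt_or_ge k 380 with h3 | h3
    · exact hB1 n a k ha3 ha (by omega) h3 h1
    · exact hB2 n a k ha3 ha h3 h2
  rcases lt_or_ge (a * (n + 1)) 600 with h600 | h600
  · obtain ⟨i, rfl⟩ : ∃ i, a = 2 * i + 3 := ⟨(a - 3) / 2, by omega⟩
    have hok := cov (i := i) (n := n) h600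
    rcases lt_or_ge ((2 * i + 3) * (n + 1)) 262 with h262 | h262
    · exact runT_spec (s := 14) prm ha3 ha (by norm_num) (by norm_num) (by norm_num)
        (okp_T hok h262) k (by omega) he
    · rcases lt_or_ge ((2 * i + 3) * (n + 1)) 316 with h316 | h316
      · rcases lt_or_ge k 91 with hk2 | hk2
        · exact runS_spec (s := 14) prm ha3 (by norm_num) (okp_90 hok h316 h262) k (by omega)
            (by omega) he
        · exact hbase (by rw [thr_91 hk2]; exact h262) h262
      · rcases lt_or_ge ((2 * i + 3) * (n + 1)) 416 with h416 | h416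
        · rcases lt_or_ge k 61 with hk2 | hk2
          · exact runS_spec (s := 14) prm ha3 (by norm_num) (okp_60 hok h416 h316) k (by omega)
              (by omega) he
          · exact hbase ((thr_61 hk2).trans h316) h262
        · rcases lt_or_ge k 41 with hk2 | hk2
          · exact runS_spec (s := 14) prm ha3 (by norm_num) (okp_40 hok h600 h416) k (by omega)
              (by omega) he
          · exact hbase ((thr_41 hk2).trans h416) h262
  · exact hbase ((thr_26 hk).trans h600) (by omega)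

theorem fs_nonneg {n a k : ℕ} (ha : Odd a) (ha3 : 3 ≤ a) (hk : 26 ≤ k) (he : Even (n * k)) :
    ∀ i < 2048, 0 ≤ coeff i (fs n a k) := by
  obtain ⟨e, he'⟩ := fs_eq_gs n a (2 * 14) k
  rw [he']
  exact nonneg_mul_one_add_pow e _ (gs_nonneg (Nat.odd_iff.1 ha) ha3 hk he)

/-- **EDGE**: the coefficients below `2048` of the polynomial, all `k ≥ 26`. -/
theorem edge_poly {n a k : ℕ} (ha : Odd a) (ha3 : 3 ≤ a) (hk : 26 ≤ k) (he : Even (n * k))
    {f : Polynomial ℚ} (hf : f * poch (-Polynomial.X : Polynomial ℚ) k = num n k a) :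
    ∀ m < 2048, 0 ≤ f.coeff m := by
  intro m hm
  rw [coeff_poly hf]
  exact_mod_cast fs_nonneg ha ha3 hk he m hm

end Pool.Agent.SignedQ.KC
end

section

/-!
S1 part F, file F3a: the decomposition of `rho`.
-/

namespace MPcf17a0.S1F

open Finset Pool.Agent.SignedQ.An Pool.Agent.Lib.MP_cf17a0_co.S1

lemma fac_form (v : ℕ) (t θ : ℝ) :
    fac v t θ = (Real.cosh (v * t) - (-1) ^ v * Real.cos (v * θ)) / 2 := by
  have h1 : Real.cosh (v * t) = Real.cosh (v * t / 2) ^ 2 + Real.sinh (v * t / 2) ^ 2 := by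
    rw [← Real.cosh_two_mul]; ring_nf
  have h2 := Real.cosh_sq (v * t / 2)
  have h3 : Real.cos (v * θ) = 1 - 2 * Real.sin (v * θ / 2) ^ 2 := by
    have := Real.cos_two_mul (v * θ / 2)
    have h4 := Real.sin_sq_add_cos_sq (v * θ / 2)
    have e : 2 * (v * θ / 2) = v * θ := by ring
    rw [e] at this
    linarith
  rcases Nat.even_or_odd v with h | h
  · rw [fac_even h, h.neg_one_pow, h1, h3]; linarith
  · rw [fac_odd h, h.neg_one_pow, h1, h3]; linarith

lemma num_form (a m : ℕ) (ha : Odd a) (t θ : ℝ) :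
    fac (a * m) t θ = Real.cosh (m * (a * t)) / 2 * (1 - y (a * t) m * Real.cos (m * (a * θ + Real.pi))) := by
  rw [fac_form]
  have h1 : ((a * m : ℕ) : ℝ) * t = m * (a * t) := by push_cast; ring
  have h2 : (-1 : ℝ) ^ (a * m) = (-1) ^ m := by rw [pow_mul, ha.neg_one_pow]
  have h3 : Real.cos (m * (a * θ + Real.pi)) = (-1) ^ m * Real.cos (((a * m : ℕ) : ℝ) * θ) := by
    have : (m:ℝ) * (a * θ + Real.pi) = ((a * m : ℕ) : ℝ) * θ + m * Real.pi := by push_cast; ring
    rw [this, Real.cos_add_nat_mul_pi]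
  rw [h1, h2, h3]
  unfold y
  have hc := Real.cosh_pos (m * (a * t))
  field_simp

lemma num_log (a m : ℕ) (ha : Odd a) (hm : 1 ≤ m) {t : ℝ} (ht : 0 < t) (θ : ℝ) :
    Real.log (fac (a * m) t θ) - Real.log (fac (a * m) t 0)
      = Real.log (1 - y (a * t) m * Real.cos (m * (a * θ + Real.pi)))
        - Real.log (1 - (-1) ^ m * y (a * t) m) := by
  have ha1 : (0:ℝ) < a := by exact_mod_cast ha.pos
  have hs : 0 < (a:ℝ) * t := by positivity
  have e0 : Real.cos (m * ((a:ℝ) * 0 + Real.pi)) = (-1) ^ m := by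
    rw [mul_zero, zero_add, Real.cos_nat_mul_pi]
  have hv1 := yc_lt hs hm ((a:ℝ) * θ + Real.pi)
  have hv2 := yc_lt hs hm ((a:ℝ) * 0 + Real.pi)
  rw [num_form a m ha t θ, num_form a m ha t 0]
  have hc : 0 < Real.cosh (m * (a * t)) / 2 := by
    have := Real.cosh_pos (m * (a * t)); positivity
  rw [Real.log_mul hc.ne' (by linarith), Real.log_mul hc.ne' (by linarith)]
  rw [e0]
  rw [mul_comm ((-1:ℝ) ^ m) (y (a * t) m)]
  ring

lemma NC_range (s ψ : ℝ) (n k : ℕ) : NC s ψ n k = ∑ v ∈ range k,
    (Real.log (1 - y s (n + v + 1) * Real.cos ((n + v + 1 : ℕ) * ψ))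
      - Real.log (1 - (-1) ^ (n + v + 1) * y s (n + v + 1))) := by
  unfold NC
  induction k with
  | zero => simp
  | succ k ih =>
    rw [← add_assoc, sum_Ioc_succ_top (by omega), ih, sum_range_succ]

lemma log_Pfin {t : ℝ} (ht : 0 < t) (θ : ℝ) (k : ℕ) :
    2 * Real.log ‖Pfin (-(pt t θ)) k‖ = ∑ v ∈ range k, (Real.log 4 - t * ((v + 1 : ℕ) : ℝ))
      + ∑ v ∈ range k, Real.log (fac (v + 1) t θ) := by
  have hn : ‖-(pt t θ)‖ < 1 := by
    rw [norm_neg]
    unfold pt
    rw [Complex.norm_exp]
    simp [ht]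
  have h1 : 2 * Real.log ‖Pfin (-(pt t θ)) k‖ = Real.log (‖Pfin (-(pt t θ)) k‖ ^ 2) := by
    rw [Real.log_pow]; norm_num
  rw [h1]
  have h2 : ‖Pfin (-(pt t θ)) k‖ ^ 2 = ∏ v ∈ range k, (4 * Real.exp (-(t * ((v + 1 : ℕ) : ℝ))) * fac (v + 1) t θ) := by
    unfold Pfin
    rw [norm_prod, ← prod_pow]
    exact prod_congr rfl fun v _ => normSq_factor (v + 1) t θ
  rw [h2, Real.log_prod (fun v _ => by
    have := fac_pos (v := v + 1) (by omega) ht θ
    positivity), ← sum_add_distrib]
  refine sum_congr rfl fun v _ => ?_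
  have := fac_pos (v := v + 1) (by omega) ht θ
  rw [Real.log_mul (by positivity) this.ne', Real.log_mul (by norm_num) (Real.exp_pos _).ne',
    Real.log_exp]
  ring

/-- the loss of the factor `(1 + z)^((k+1)/2)` -/
noncomputable def qf (t θ : ℝ) : ℝ := Real.sin (θ / 2) ^ 2 / Real.cosh (t / 2) ^ 2

lemma fac_one_ratio (t θ : ℝ) : fac 1 t θ / fac 1 t 0 = 1 - qf t θ := by
  unfold qf
  rw [fac_odd odd_one, fac_zero_odd odd_one]
  have hc := Real.cosh_pos (t / 2)
  simp only [Nat.cast_one, one_mul]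
  field_simp

lemma qf_nonneg (t θ : ℝ) : 0 ≤ qf t θ := by unfold qf; positivity

lemma qf_lt {t : ℝ} (ht : 0 < t) (θ : ℝ) : qf t θ < 1 := by
  have h1 : 0 < fac 1 t θ / fac 1 t 0 := div_pos (fac_pos le_rfl ht θ) (fac_pos le_rfl ht 0)
  rw [fac_one_ratio] at h1
  linarith

theorem rho_le_den {n k a : ℕ} (ha : Odd a) {t : ℝ} (ht : 0 < t) (θ : ℝ) :
    rho n k a t θ ≤ Real.exp (k / 4 * Real.log (1 - qf t θ) + NC (a * t) (a * θ + Real.pi) n k / 2)
      * (‖Pfin (-(pt t 0)) k‖ * ‖Pfin (-(pt t θ)) k‖⁻¹) := by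
  have ha1 : 1 ≤ a := ha.pos
  have g0 : 0 < GG n k a t 0 := GG_pos ha1 ht 0
  have g1 : 0 < GG n k a t θ := GG_pos ha1 ht θ
  have hn : ∀ θ : ℝ, ‖-(pt t θ)‖ < 1 := fun θ => by
    rw [norm_neg]
    unfold pt
    rw [Complex.norm_exp]
    simp [ht]
  have p0 : 0 < ‖Pfin (-(pt t 0)) k‖ := norm_pos_iff.2 (Pfin_ne_zero (hn 0) k)
  have p1 : 0 < ‖Pfin (-(pt t θ)) k‖ := norm_pos_iff.2 (Pfin_ne_zero (hn θ) k)
  have hrpos : 0 < rho n k a t θ := by
    unfold rho
    exact Real.sqrt_pos.mpr (div_pos g1 g0)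
  have h1 : Real.log (rho n k a t θ) = ((k + 1) / 2 : ℕ) / 2 * Real.log (1 - qf t θ)
      + NC (a * t) (a * θ + Real.pi) n k / 2
      + (Real.log ‖Pfin (-(pt t 0)) k‖ - Real.log ‖Pfin (-(pt t θ)) k‖) := by
    unfold rho
    rw [Real.log_sqrt (div_nonneg g1.le g0.le), Real.log_div g1.ne' g0.ne', log_GG ha1 ht θ,
      log_GG ha1 ht 0]
    have q1 := log_Pfin ht 0 k
    have q2 := log_Pfin ht θ k
    have q3 : Real.log (1 - qf t θ) = Real.log (fac 1 t θ) - Real.log (fac 1 t 0) := by
      rw [← fac_one_ratio, Real.log_div (fac_pos le_rfl ht θ).ne' (fac_pos le_rfl ht 0).ne']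
    have q4 : NC (a * t) (a * θ + Real.pi) n k
        = ∑ v ∈ range k, Real.log (fac (a * (n + v + 1)) t θ)
          - ∑ v ∈ range k, Real.log (fac (a * (n + v + 1)) t 0) := by
      rw [NC_range, ← sum_sub_distrib]
      refine sum_congr rfl fun v _ => ?_
      rw [num_log a (n + v + 1) ha (by omega) ht θ]
    rw [sum_sub_distrib, sum_sub_distrib, q3, q4]
    linarith
  have h2 : ((k + 1) / 2 : ℕ) / 2 * Real.log (1 - qf t θ) ≤ (k:ℝ) / 4 * Real.log (1 - qf t θ) := by
    have hl : Real.log (1 - qf t θ) ≤ 0 :=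
      Real.log_nonpos (by linarith [qf_lt ht θ]) (by linarith [qf_nonneg t θ])
    have hk : (k:ℝ) / 2 ≤ (((k + 1) / 2 : ℕ) : ℝ) := by
      have : k ≤ 2 * ((k + 1) / 2) := by omega
      have h' : (k:ℝ) ≤ ((2 * ((k + 1) / 2) : ℕ) : ℝ) := by exact_mod_cast this
      push_cast at h'
      linarith
    apply mul_le_mul_of_nonpos_right _ hl
    linarith
  rw [← Real.exp_log hrpos, h1]
  have h3 : ‖Pfin (-(pt t 0)) k‖ * ‖Pfin (-(pt t θ)) k‖⁻¹
      = Real.exp (Real.log ‖Pfin (-(pt t 0)) k‖ - Real.log ‖Pfin (-(pt t θ)) k‖) := by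
    rw [Real.exp_sub, Real.exp_log p0, Real.exp_log p1, div_eq_mul_inv]
  rw [h3, ← Real.exp_add]
  apply Real.exp_le_exp.mpr
  linarith

end MPcf17a0.S1F
end

section

/-!
S1 part F, file F3b: the corrections for the finite products, and the bound of the denominators.
-/

namespace MPcf17a0.S1F

open Finset Pool.Agent.SignedQ.An Pool.Agent.Lib.MP_cf17a0_co.S1

lemma one_sub_exp_ge {x : ℝ} (hx : 0 < x) : x * Real.exp (-(x / 2)) ≤ 1 - Real.exp (-x) := by
  have h1 : x / 2 ≤ Real.sinh (x / 2) := Real.self_le_sinh_iff.2 (by linarith)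
  rw [Real.sinh_eq] at h1
  have e1 : Real.exp (-x) = Real.exp (-(x / 2)) * Real.exp (-(x / 2)) := by
    rw [← Real.exp_add]; ring_nf
  have e2 : Real.exp (-(x / 2)) * Real.exp (x / 2) = 1 := by rw [← Real.exp_add]; simp
  rw [e1]
  have h3 := Real.exp_pos (-(x / 2))
  nlinarith

/-- `e^(-t j m) / (j (1 - e^(-j t))) ≤ e^(-j (t m - t/2)) / (j^2 t)`. -/
lemma term_le {t : ℝ} (ht : 0 < t) (j m : ℕ) (hj : 1 ≤ j) :
    Real.exp (-t) ^ (j * m) / (j * (1 - Real.exp (-t) ^ j)) ≤
      Real.exp (-(j * (m * t - t / 2))) / ((j:ℝ) ^ 2 * t) := by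
  have hj0 : (0:ℝ) < j := by exact_mod_cast hj
  have e1 : Real.exp (-t) ^ j = Real.exp (-(j * t)) := by
    rw [← Real.exp_nat_mul]; ring_nf
  have e2 : Real.exp (-t) ^ (j * m) = Real.exp (-(j * (m * t))) := by
    rw [← Real.exp_nat_mul]; push_cast; ring_nf
  rw [e1, e2]
  have h1 := one_sub_exp_ge (x := j * t) (by positivity)
  have h2 : 0 < (j:ℝ) * t * Real.exp (-(j * t / 2)) := by positivity
  have h3 : 0 < 1 - Real.exp (-(j * t)) := by linarith
  rw [div_le_div_iff₀ (by positivity) (by positivity)]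
  have e3 : Real.exp (-(j * (m * t - t / 2))) = Real.exp (-(j * (m * t))) * Real.exp (j * t / 2) := by
    rw [← Real.exp_add]; ring_nf
  have e4 : Real.exp (j * t / 2) * Real.exp (-(j * t / 2)) = 1 := by rw [← Real.exp_add]; simp
  rw [e3]
  have h4 : (j:ℝ) * t ≤ Real.exp (j * t / 2) * (1 - Real.exp (-(j * t))) := by
    calc (j:ℝ) * t = Real.exp (j * t / 2) * (j * t * Real.exp (-(j * t / 2))) := by
          rw [mul_comm ((j:ℝ) * t), ← mul_assoc, e4, one_mul]
      _ ≤ _ := mul_le_mul_of_nonneg_left h1 (Real.exp_pos _).le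
  have h5 : 0 < Real.exp (-(j * (m * t))) := Real.exp_pos _
  calc Real.exp (-(j * (m * t))) * ((j:ℝ) ^ 2 * t) = Real.exp (-(j * (m * t))) * j * (j * t) := by ring
    _ ≤ Real.exp (-(j * (m * t))) * j * (Real.exp (j * t / 2) * (1 - Real.exp (-(j * t)))) :=
      mul_le_mul_of_nonneg_left h4 (by positivity)
    _ = _ := by ring

lemma exp_b {b q : ℝ} (hq : Real.exp (-b) ≤ q) (hq1 : q < 1) :
    Real.exp (-b) / (1 - Real.exp (-b)) ≤ q / (1 - q) := by
  rw [div_le_div_iff₀ (by linarith) (by linarith)]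
  nlinarith [Real.exp_pos (-b)]

lemma evExp_le {t : ℝ} (ht : 0 < t) (ht1 : t ≤ 31 / 2000) (k K : ℕ) (hK : k ≤ K + 1)
    (hc : 1 ≤ (k:ℝ) * t) : evExp (Real.exp (-t)) K ≤ 0.2642 * Real.exp (-(2 * (k * t))) / t := by
  set c := (k:ℝ) * t with hcdef
  set b := 2 * c - t with hb
  have hb0 : 0 < b := by rw [hb]; linarith
  have hKt : c ≤ ((K + 1 : ℕ) : ℝ) * t := by
    rw [hcdef]
    exact mul_le_mul_of_nonneg_right (by exact_mod_cast hK) ht.le
  set g : ℕ → ℝ := fun l => Real.exp (-t) ^ (2 * (l + 1) * (K + 1)) /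
    (2 * ((l : ℝ) + 1) * (1 - Real.exp (-t) ^ (2 * (l + 1)))) with hg
  have hr : Real.exp (-t) < 1 := by rw [Real.exp_lt_one_iff]; linarith
  have hr0 := Real.exp_pos (-t)
  have hgle : ∀ l, g l ≤ Real.exp (-((l + 1) * b)) / (4 * ((l:ℝ) + 1) ^ 2 * t) := by
    intro l
    have h1 := term_le ht (2 * (l + 1)) (K + 1) (by omega)
    simp only [hg]
    have e1 : ((2 * (l + 1) : ℕ) : ℝ) = 2 * ((l:ℝ) + 1) := by push_cast; ring
    rw [e1] at h1
    refine h1.trans ?_
    have e2 : (2 * ((l:ℝ) + 1)) ^ 2 * t = 4 * ((l:ℝ) + 1) ^ 2 * t := by ring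
    rw [e2]
    apply div_le_div_of_nonneg_right _ (by positivity)
    apply Real.exp_le_exp.mpr
    have hl : (0:ℝ) ≤ l := Nat.cast_nonneg l
    rw [hb]
    nlinarith
  have hg0 : ∀ l, 0 ≤ g l := by
    intro l
    simp only [hg]
    have : Real.exp (-t) ^ (2 * (l + 1)) < 1 := pow_lt_one₀ hr0.le hr (by omega)
    have h2 : 0 < 1 - Real.exp (-t) ^ (2 * (l + 1)) := by linarith
    positivity
  have hbge : 1.98 ≤ b := by rw [hb]; linarith
  have hE : Real.exp (-b) ≤ 0.1381 := by
    refine (Real.exp_le_exp.mpr (by linarith : -b ≤ -1.98)).trans ?_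
    exact exp_neg_le 1.98 0.1381 14 (by norm_num) (by norm_num [sum_range_succ, Nat.factorial])
  have hE0 := Real.exp_pos (-b)
  have hgs : ∀ l, g (l + 1) ≤ Real.exp (-b) ^ 2 / (16 * t) * Real.exp (-b) ^ l := by
    intro l
    refine (hgle (l + 1)).trans ?_
    have e1 : Real.exp (-((((l + 1 : ℕ) : ℝ) + 1) * b)) = Real.exp (-b) ^ 2 * Real.exp (-b) ^ l := by
      rw [← pow_add, ← Real.exp_nat_mul]; push_cast; ring_nf
    rw [e1, div_mul_eq_mul_div]
    apply div_le_div_of_nonneg_left (by positivity) (by positivity)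
    have hl : (0:ℝ) ≤ l := Nat.cast_nonneg l
    push_cast
    nlinarith [mul_nonneg hl ht.le, mul_nonneg (mul_nonneg hl hl) ht.le]
  have hgeo : Summable fun l : ℕ => Real.exp (-b) ^ 2 / (16 * t) * Real.exp (-b) ^ l :=
    (summable_geometric_of_lt_one hE0.le (by linarith)).mul_left _
  have hs1 : Summable fun l => g (l + 1) := Summable.of_nonneg_of_le (fun l => hg0 _) hgs hgeo
  have hs : Summable g := (summable_nat_add_iff 1).mp hs1
  have h0 : evExp (Real.exp (-t)) K = g 0 + ∑' l, g (l + 1) := by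
    unfold evExp
    rw [← hs.tsum_eq_zero_add]
  have h1 : ∑' l, g (l + 1) ≤ Real.exp (-b) ^ 2 / (16 * t) * (1 - Real.exp (-b))⁻¹ := by
    rw [← tsum_geometric_of_lt_one hE0.le (by linarith), ← tsum_mul_left]
    exact hs1.tsum_le_tsum hgs hgeo
  have h2 := hgle 0
  simp only [Nat.cast_zero, zero_add, one_mul, one_pow, mul_one] at h2
  have h3 : Real.exp (-b) * (1 - Real.exp (-b))⁻¹ ≤ 0.1603 := by
    have := exp_b hE (by norm_num)
    rw [div_eq_mul_inv] at this
    refine this.trans (by norm_num)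
  have h4 : Real.exp (-b) = Real.exp (-(2 * c)) * Real.exp t := by
    rw [← Real.exp_add, hb]; ring_nf
  have h5 : Real.exp t ≤ 1.01563 := by
    have h6 : Real.exp t ≤ Real.exp (31/2000) := Real.exp_le_exp.mpr ht1
    have h7 := exp_neg_le (31/2000) 1 1 (by norm_num) (by norm_num [sum_range_succ, Nat.factorial])
    have h8 : Real.exp (31/2000) ≤ 1.01563 := by
      have := Real.exp_bound' (x := 31/2000) (by norm_num) (by norm_num) (n := 3) (by norm_num)
      refine this.trans ?_
      norm_num [sum_range_succ, Nat.factorial]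
    linarith
  rw [h0]
  have h6 : Real.exp (-b) ^ 2 / (16 * t) * (1 - Real.exp (-b))⁻¹ =
      Real.exp (-b) / (16 * t) * (Real.exp (-b) * (1 - Real.exp (-b))⁻¹) := by ring
  rw [h6] at h1
  have h7 : Real.exp (-b) / (16 * t) * (Real.exp (-b) * (1 - Real.exp (-b))⁻¹)
      ≤ Real.exp (-b) / (16 * t) * 0.1603 := mul_le_mul_of_nonneg_left h3 (by positivity)
  have h8 : g 0 + ∑' l, g (l + 1) ≤ Real.exp (-b) / (4 * t) + Real.exp (-b) / (16 * t) * 0.1603 := by
    linarith
  refine h8.trans ?_
  have h9 : Real.exp (-b) / (4 * t) + Real.exp (-b) / (16 * t) * 0.1603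
      = (0.25 + 0.1603 / 16) * Real.exp (-b) / t := by field_simp; ring
  rw [h9, h4]
  apply div_le_div_of_nonneg_right _ ht.le
  have h10 : Real.exp (-(2 * c)) * Real.exp t ≤ Real.exp (-(2 * c)) * 1.01563 :=
    mul_le_mul_of_nonneg_left h5 (Real.exp_pos _).le
  have := Real.exp_pos (-(2 * c))
  nlinarith

lemma finExp_split {t : ℝ} (ht : 0 < t) {x : ℂ} (hx : ‖x‖ = Real.exp (-t)) (k : ℕ)
    (hc : 1 ≤ (k:ℝ) * t) : finExp x k ≤ Real.exp (-(k * t)) * Real.exp (-t) / ‖1 - x‖
      + Real.exp (-(2 * (k * t))) * Real.exp (-(2 * t)) / (2 * ‖1 - x ^ 2‖)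
      + 0.1475 * Real.exp (-(3 * (k * t))) / t := by
  set c := (k:ℝ) * t with hcdef
  have hr : Real.exp (-t) < 1 := by rw [Real.exp_lt_one_iff]; linarith
  have hr0 := Real.exp_pos (-t)
  have hx1 : ‖x‖ < 1 := by rw [hx]; exact hr
  set g : ℕ → ℝ := fun l => ‖x‖ ^ ((l + 1) * (k + 1)) / (((l : ℝ) + 1) * ‖1 - x ^ (l + 1)‖) with hg
  have hs : Summable g := summable_finExp hx1 k
  have hgle : ∀ l, g l ≤ Real.exp (-((l + 1) * c)) / (((l:ℝ) + 1) ^ 2 * t) := by
    intro l
    have h1 := term_le ht (l + 1) (k + 1) (by omega)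
    have h2 : 1 - Real.exp (-t) ^ (l + 1) ≤ ‖1 - x ^ (l + 1)‖ := by
      have := one_sub_norm_pow_le (x := x) (l + 1)
      rwa [hx] at this
    have h3 : Real.exp (-t) ^ (l + 1) < 1 := pow_lt_one₀ hr0.le hr (by omega)
    simp only [hg]
    rw [hx]
    push_cast at h1
    refine le_trans ?_ (h1.trans ?_)
    · apply div_le_div_of_nonneg_left (by positivity)
      · have : 0 < 1 - Real.exp (-t) ^ (l + 1) := by linarith
        positivity
      · exact mul_le_mul_of_nonneg_left h2 (by positivity)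
    · apply div_le_div_of_nonneg_right _ (by positivity)
      apply Real.exp_le_exp.mpr
      have hl : (0:ℝ) ≤ l := Nat.cast_nonneg l
      rw [hcdef]
      nlinarith [mul_nonneg hl ht.le]
  have hcE : Real.exp (-c) ≤ 0.36788 := by
    refine (Real.exp_le_exp.mpr (by linarith : -c ≤ -1)).trans ?_
    exact exp_neg_le 1 0.36788 12 (by norm_num) (by norm_num [sum_range_succ, Nat.factorial])
  have hE0 := Real.exp_pos (-c)
  have hgs : ∀ l, g (l + 3) ≤ Real.exp (-c) ^ 4 / (16 * t) * Real.exp (-c) ^ l := by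
    intro l
    refine (hgle (l + 3)).trans ?_
    have e1 : Real.exp (-((((l + 3 : ℕ) : ℝ) + 1) * c)) = Real.exp (-c) ^ 4 * Real.exp (-c) ^ l := by
      rw [← pow_add, ← Real.exp_nat_mul]; push_cast; ring_nf
    rw [e1, div_mul_eq_mul_div]
    apply div_le_div_of_nonneg_left (by positivity) (by positivity)
    have hl : (0:ℝ) ≤ l := Nat.cast_nonneg l
    push_cast
    nlinarith [mul_nonneg hl ht.le, mul_nonneg (mul_nonneg hl hl) ht.le]
  have hgeo : Summable fun l : ℕ => Real.exp (-c) ^ 4 / (16 * t) * Real.exp (-c) ^ l :=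
    (summable_geometric_of_lt_one hE0.le (by linarith)).mul_left _
  have hs3 : Summable fun l => g (l + 3) := (summable_nat_add_iff 3).mpr hs
  have h0 : finExp x k = g 0 + g 1 + g 2 + ∑' l, g (l + 3) := by
    unfold finExp
    have := hs.sum_add_tsum_nat_add 3
    rw [sum_range_succ, sum_range_succ, sum_range_succ, sum_range_zero, zero_add] at this
    rw [← this]
  have h1 : ∑' l, g (l + 3) ≤ Real.exp (-c) ^ 4 / (16 * t) * (1 - Real.exp (-c))⁻¹ := by
    rw [← tsum_geometric_of_lt_one hE0.le (by linarith), ← tsum_mul_left]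
    exact hs3.tsum_le_tsum hgs hgeo
  have h2 := hgle 2
  have h3 : Real.exp (-c) * (1 - Real.exp (-c))⁻¹ ≤ 0.58199 := by
    have := exp_b hcE (by norm_num)
    rw [div_eq_mul_inv] at this
    refine this.trans (by norm_num)
  have e3 : Real.exp (-(3 * c)) = Real.exp (-c) ^ 3 := by rw [← Real.exp_nat_mul]; push_cast; ring_nf
  have g0 : g 0 = Real.exp (-c) * Real.exp (-t) / ‖1 - x‖ := by
    simp only [hg]
    rw [hx]
    simp only [zero_add, one_mul, pow_one, Nat.cast_zero]
    congr 1
    rw [← Real.exp_add, ← Real.exp_nat_mul, hcdef]; push_cast; ring_nf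
  have g1 : g 1 = Real.exp (-(2 * c)) * Real.exp (-(2 * t)) / (2 * ‖1 - x ^ 2‖) := by
    simp only [hg]
    rw [hx]
    have : ((1:ℕ):ℝ) + 1 = 2 := by norm_num
    rw [this]
    norm_num
    congr 1
    rw [← Real.exp_add, ← Real.exp_nat_mul, hcdef]; push_cast; ring_nf
  have h2' : g 2 ≤ Real.exp (-c) ^ 3 / (9 * t) := by
    refine h2.trans (le_of_eq ?_)
    rw [← e3]
    norm_num
  rw [h0, g0, g1]
  have h6 : Real.exp (-c) ^ 4 / (16 * t) * (1 - Real.exp (-c))⁻¹ =
      Real.exp (-c) ^ 3 / (16 * t) * (Real.exp (-c) * (1 - Real.exp (-c))⁻¹) := by ring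
  rw [h6] at h1
  have h7 : Real.exp (-c) ^ 3 / (16 * t) * (Real.exp (-c) * (1 - Real.exp (-c))⁻¹)
      ≤ Real.exp (-c) ^ 3 / (16 * t) * 0.58199 := mul_le_mul_of_nonneg_left h3 (by positivity)
  have h9 : Real.exp (-c) ^ 3 / (9 * t) + Real.exp (-c) ^ 3 / (16 * t) * 0.58199
      ≤ 0.1475 * Real.exp (-c) ^ 3 / t := by
    rw [← sub_nonneg]
    have : 0.1475 * Real.exp (-c) ^ 3 / t - (Real.exp (-c) ^ 3 / (9 * t) + Real.exp (-c) ^ 3 / (16 * t) * 0.58199)
        = (0.1475 - 1/9 - 0.58199/16) * Real.exp (-c) ^ 3 / t := by field_simp; ring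
    rw [this]
    have : (0:ℝ) ≤ 0.1475 - 1/9 - 0.58199/16 := by norm_num
    positivity
  rw [e3]
  linarith

end MPcf17a0.S1F
end
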