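import Pool.Agent.Lib.MP_cf17a0_co.Mg.G032

section

/-!
# The modular tool, part C: the bound E1 for `1 / (x; x)_∞`, and the value E2 at `x = - r`
-/

set_option autoImplicit false

namespace Pool.Agent.Lib.MP_cf17a0_co.S1

open UpperHalfPlane hiding I
open Complex ModularForm MatrixGroups Filter
open scoped Real Topology

/-- the transformation, for the norm of the infinite product -/
theorem Pinf_transform (t φ : ℝ) (ht : 0 < t) (g : SL(2, ℤ)) :
    ‖Pinf (Complex.exp (-t + φ * I))‖ * (t / (2 * π)) ^ (1 / 4 : ℝ) *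
      Real.exp (-(t / 24)) = Real.exp (-(π * (g • tau t φ ht).im / 12)) *
      (g • tau t φ ht).im ^ (1 / 4 : ℝ) *
      ‖Pinf (Function.Periodic.qParam 1 (g • tau t φ ht : ℍ))‖ := by
  have h := eta_norm_inv g (tau t φ ht)
  rw [norm_eta, norm_eta, qParam_tau, tau_im] at h
  have h1 : π * (t / (2 * π)) / 12 = t / 24 := by
    have := Real.pi_ne_zero
    field_simp
    ring
  rw [h1] at h
  linear_combination -h

/-- **E1.** -/
theorem E1 (t φ : ℝ) (ht : 0 < t) (ht5 : t ≤ 5) : ∃ (l : ℕ) (d : ℤ), 1 ≤ l ∧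
    IsCoprime (l : ℤ) d ∧ Real.sqrt 3 / 2 ≤ Yf t φ l d ∧
    ‖Pinf (Complex.exp (-t + φ * I))‖⁻¹ ≤ 1.0044 * Real.exp (-(t / 24)) *
      (t / (2 * π)) ^ (1 / 4 : ℝ) * Yf t φ l d ^ (-(1 / 4) : ℝ) *
      Real.exp (π * Yf t φ l d / 12) := by
  obtain ⟨g, hg⟩ := ModularGroup.exists_smul_mem_fd (tau t φ ht)
  have h3 := ModularGroup.three_le_four_mul_im_sq_of_mem_fd hg
  obtain ⟨d, hd, hcop⟩ := im_smul_tau t φ ht g
  have hT := Pinf_transform t φ ht g
  have hq : ‖Function.Periodic.qParam 1 (g • tau t φ ht : ℍ)‖ =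
      Real.exp (-(2 * π * (g • tau t φ ht).im)) := by
    rw [Function.Periodic.norm_qParam, coe_im]
    congr 1
    ring
  rw [hd] at h3 hT hq
  set Y := Yf t φ (g 1 0).natAbs d with hY
  have hYpos : 0 < Y := by
    have := (g • tau t φ ht).im_pos
    rw [hd] at this
    exact this
  have hπ := Real.pi_pos
  have hs3 : Real.sqrt 3 ^ 2 = 3 := Real.sq_sqrt (by norm_num)
  have hs0 : 0 ≤ Real.sqrt 3 := Real.sqrt_nonneg 3
  have hYge : Real.sqrt 3 / 2 ≤ Y := by nlinarith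
  have hs1 : 1.732 ≤ Real.sqrt 3 := by
    rw [show (1.732 : ℝ) = Real.sqrt (1.732 ^ 2) by rw [Real.sqrt_sq (by norm_num)]]
    exact Real.sqrt_le_sqrt (by norm_num)
  refine ⟨(g 1 0).natAbs, d, ?_, hcop, hYge, ?_⟩
  · -- `l ≥ 1`
    by_contra hcon
    have h0 : (g 1 0).natAbs = 0 := by omega
    have hd1 : (d : ℤ) ^ 2 = 1 := by
      rw [h0, Nat.cast_zero] at hcop
      have h1 : IsUnit d := isCoprime_zero_left.1 hcop
      rcases Int.isUnit_iff.1 h1 with h1 | h1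
      · rw [h1]; norm_num
      · rw [h1]; norm_num
    have h4 : Y = t / (2 * π) := by
      rw [hY, h0]
      unfold Yf
      have h5 : ((d : ℝ)) ^ 2 = 1 := by exact_mod_cast hd1
      have h6 : (((0 : ℕ) : ℝ) * t) ^ 2 + (((0 : ℕ) : ℝ) * φ - 2 * π * d) ^ 2 =
          (2 * π) ^ 2 * (d : ℝ) ^ 2 := by
        push_cast
        ring
      rw [h6, h5]
      field_simp
    have h7 : Y < 0.8 := by
      rw [h4, div_lt_iff₀ (by positivity)]
      have := Real.pi_gt_d2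
      nlinarith
    nlinarith
  · -- the bound
    have hρ : ‖Function.Periodic.qParam 1 (g • tau t φ ht : ℍ)‖ ≤ 1 / 230 := by
      rw [hq, Real.exp_neg, ← one_div]
      refine one_div_le_one_div_of_le (by norm_num) (exp_544.trans ?_)
      apply Real.exp_le_exp.2
      have := Real.pi_gt_d2
      have h8 : (3.1415 : ℝ) < π := Real.pi_gt_d4
      nlinarith
    have hP := norm_Pinf_ge _ (1 / 230) (by norm_num) (by norm_num) hρ
    set Q := ‖Pinf (Function.Periodic.qParam 1 (g • tau t φ ht : ℍ))‖ with hQ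
    have hQ1 : 228 / 229 ≤ Q := by
      refine le_trans ?_ hP
      norm_num
    set A := ‖Pinf (Complex.exp (-t + φ * I))‖ with hA
    have ht4 : 0 < (t / (2 * π)) ^ (1 / 4 : ℝ) := by positivity
    have hY4 : 0 < Y ^ (1 / 4 : ℝ) := by positivity
    have hApos : 0 < A := by
      by_contra hcon
      have hA0 : A = 0 := le_antisymm (not_lt.1 hcon) (norm_nonneg _)
      rw [hA0, zero_mul, zero_mul] at hT
      have : 0 < Real.exp (-(π * Y / 12)) * Y ^ (1 / 4 : ℝ) * Q := by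
        have : 0 < Q := by linarith
        positivity
      linarith
    rw [Real.rpow_neg hYpos.le]
    have e1 : Real.exp (π * Y / 12) = (Real.exp (-(π * Y / 12)))⁻¹ := by
      rw [Real.exp_neg, inv_inv]
    rw [e1]
    have h9 : A⁻¹ = Real.exp (-(t / 24)) * (t / (2 * π)) ^ (1 / 4 : ℝ) *
        (Y ^ (1 / 4 : ℝ))⁻¹ * (Real.exp (-(π * Y / 12)))⁻¹ * Q⁻¹ := by
      have hQpos : 0 < Q := by linarith
      have hE := Real.exp_pos (-(π * Y / 12))
      field_simp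
      linarith
    rw [h9]
    have hQinv : Q⁻¹ ≤ 1.0044 := by
      have hQpos : 0 < Q := by linarith
      rw [inv_le_comm₀ hQpos (by norm_num)]
      refine le_trans ?_ hQ1
      norm_num
    have hpos : 0 < Real.exp (-(t / 24)) * (t / (2 * π)) ^ (1 / 4 : ℝ) *
        (Y ^ (1 / 4 : ℝ))⁻¹ * (Real.exp (-(π * Y / 12)))⁻¹ := by positivity
    calc _ ≤ Real.exp (-(t / 24)) * (t / (2 * π)) ^ (1 / 4 : ℝ) *
        (Y ^ (1 / 4 : ℝ))⁻¹ * (Real.exp (-(π * Y / 12)))⁻¹ * 1.0044 :=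
          mul_le_mul_of_nonneg_left hQinv hpos.le
      _ = _ := by ring

end Pool.Agent.Lib.MP_cf17a0_co.S1
end

section

/-!
# The modular tool, part D: the value E2 at `x = - r`
-/

set_option autoImplicit false

namespace Pool.Agent.Lib.MP_cf17a0_co.S1

open UpperHalfPlane hiding I
open Complex ModularForm MatrixGroups Filter
open scoped Real Topology

/-- the matrix `(1, -1; 2, -1)` -/
def gE : SL(2, ℤ) := ⟨!![1, -1; 2, -1], by simp [Matrix.det_fin_two]⟩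

theorem gE_smul (t : ℝ) (ht : 0 < t) :
    ((gE • tau t π ht : ℍ) : ℂ) = ((1 / 2 : ℝ) : ℂ) + ((π / (2 * t) : ℝ) : ℂ) * I := by
  have h1 : ((gE • tau t π ht : ℍ) : ℂ) = ((tau t π ht : ℂ) - 1) / (2 * (tau t π ht : ℂ) - 1) := by
    rw [UpperHalfPlane.specialLinearGroup_apply]
    simp [gE]
    ring
  have h2 : (tau t π ht : ℂ) = ((π / (2 * π) : ℝ) : ℂ) + ((t / (2 * π) : ℝ) : ℂ) * I := rfl
  have hπ : (π : ℂ) ≠ 0 := by exact_mod_cast Real.pi_ne_zero
  have ht0 : (t : ℂ) ≠ 0 := by exact_mod_cast ht.ne'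
  have h3 : (tau t π ht : ℂ) = 1 / 2 + t / (2 * π) * I := by
    rw [h2]
    push_cast
    field_simp
  rw [h1, h3]
  have h4 : (2 * (1 / 2 + (t : ℂ) / (2 * π) * I) - 1) = t / π * I := by
    field_simp
    ring
  rw [h4]
  push_cast
  have hI : (I : ℂ) ≠ 0 := I_ne_zero
  field_simp
  ring_nf
  rw [I_sq]
  ring

private theorem ED_im (a b : ℝ) : ((a : ℂ) + (b : ℂ) * I).im = b := by simp

theorem gE_im (t : ℝ) (ht : 0 < t) : (gE • tau t π ht : ℍ).im = π / (2 * t) := by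
  rw [← coe_im, gE_smul]
  exact ED_im _ _

theorem gE_qParam (t : ℝ) (ht : 0 < t) :
    Function.Periodic.qParam 1 (gE • tau t π ht : ℍ) = -(Real.exp (-(π ^ 2 / t)) : ℂ) := by
  rw [gE_smul]
  unfold Function.Periodic.qParam
  have h1 : 2 * π * I * (((1 / 2 : ℝ) : ℂ) + ((π / (2 * t) : ℝ) : ℂ) * I) / ((1 : ℝ) : ℂ) =
      π * I + ((-(π ^ 2 / t) : ℝ) : ℂ) := by
    have ht0 : (t : ℂ) ≠ 0 := by exact_mod_cast ht.ne'
    push_cast
    field_simp
    ring_nf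
    rw [I_sq]
    ring
  rw [h1, Complex.exp_add, exp_pi_mul_I, ofReal_exp]
  ring

/-- **E2.** -/
theorem E2 (t : ℝ) (ht : 0 < t) : ‖Pinf (-(Real.exp (-t) : ℂ))‖ = Real.exp (t / 24) *
    Real.sqrt (π / t) * Real.exp (-(π ^ 2 / (24 * t))) *
    ‖Pinf (-(Real.exp (-(π ^ 2 / t)) : ℂ))‖ := by
  have h := Pinf_transform t π ht gE
  rw [gE_im, gE_qParam] at h
  have h1 : Complex.exp (-t + π * I) = -(Real.exp (-t) : ℂ) := by
    rw [Complex.exp_add, exp_pi_mul_I, ofReal_exp]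
    push_cast
    ring
  rw [h1] at h
  have hπ := Real.pi_pos
  have h2 : (π / (2 * t)) ^ (1 / 4 : ℝ) = Real.sqrt (π / t) * (t / (2 * π)) ^ (1 / 4 : ℝ) := by
    have h3 : π / (2 * t) = (π / t) ^ (2 : ℝ) * (t / (2 * π)) := by
      rw [Real.rpow_two]
      field_simp
    rw [h3, Real.mul_rpow (by positivity) (by positivity), ← Real.rpow_mul (by positivity),
      Real.sqrt_eq_rpow]
    norm_num
  rw [h2] at h
  have h4 : Real.exp (-(t / 24)) = (Real.exp (t / 24))⁻¹ := Real.exp_neg _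
  have h5 : π * (π / (2 * t)) / 12 = π ^ 2 / (24 * t) := by
    field_simp
    ring
  rw [h4, h5] at h
  have h6 : 0 < (t / (2 * π)) ^ (1 / 4 : ℝ) := by positivity
  have h7 := Real.exp_pos (t / 24)
  have h8 : ‖Pinf (-(Real.exp (-t) : ℂ))‖ * (t / (2 * π)) ^ (1 / 4 : ℝ) =
      (Real.exp (t / 24) * Real.sqrt (π / t) * Real.exp (-(π ^ 2 / (24 * t))) *
    ‖Pinf (-(Real.exp (-(π ^ 2 / t)) : ℂ))‖) * (t / (2 * π)) ^ (1 / 4 : ℝ) := by
    field_simp at h ⊢
    linarith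
  exact mul_right_cancel₀ h6.ne' h8

/-- the alternating product is at most `1 + p` -/
theorem norm_Pinf_neg_le (p : ℝ) (hp0 : 0 ≤ p) (hp : p < 1) : ‖Pinf (-(p : ℂ))‖ ≤ 1 + p := by
  have hn : ‖(-(p : ℂ))‖ < 1 := by
    rw [norm_neg, Complex.norm_real, Real.norm_of_nonneg hp0]
    exact hp
  have hT := ((tendsto_Pinf hn).norm).comp (tendsto_atTop_mono (fun N : ℕ => show N ≤ 2 * N + 1 by
    omega) tendsto_id)
  refine le_of_tendsto' hT fun N => ?_
  show ‖∏ n ∈ Finset.range (2 * N + 1), (1 - (-(p : ℂ)) ^ (n + 1))‖ ≤ 1 + p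
  induction N with
  | zero =>
    rw [Nat.mul_zero, Finset.prod_range_one]
    have : (1 - (-(p : ℂ)) ^ (0 + 1)) = ((1 + p : ℝ) : ℂ) := by
      push_cast
      ring
    rw [this, Complex.norm_real, Real.norm_of_nonneg (by linarith)]
  | succ N ih =>
    rw [show 2 * (N + 1) + 1 = 2 * N + 1 + 1 + 1 by ring, Finset.prod_range_succ,
      Finset.prod_range_succ, norm_mul, norm_mul, mul_assoc]
    have h1 : (1 - (-(p : ℂ)) ^ (2 * N + 1 + 1)) = ((1 - p ^ (2 * N + 2) : ℝ) : ℂ) := by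
      rw [show 2 * N + 1 + 1 = 2 * (N + 1) by ring, pow_mul, neg_sq]
      push_cast
      rw [← pow_mul]
    have h2 : (1 - (-(p : ℂ)) ^ (2 * N + 1 + 1 + 1)) = ((1 + p ^ (2 * N + 3) : ℝ) : ℂ) := by
      rw [pow_succ, show 2 * N + 1 + 1 = 2 * (N + 1) by ring, pow_mul, neg_sq]
      push_cast
      rw [← pow_mul]
      ring
    have h3 : p ^ (2 * N + 2) ≤ 1 := pow_le_one₀ hp0 hp.le
    have h4 : 0 ≤ p ^ (2 * N + 2) := pow_nonneg hp0 _
    have h5 : 0 ≤ p ^ (2 * N + 3) := pow_nonneg hp0 _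
    have h6 : p ^ (2 * N + 3) ≤ p ^ (2 * N + 2) := by
      rw [pow_succ]
      exact mul_le_of_le_one_right h4 hp.le
    rw [h1, h2, Complex.norm_real, Complex.norm_real, Real.norm_of_nonneg (by linarith),
      Real.norm_of_nonneg (by linarith)]
    have h7 : (1 - p ^ (2 * N + 2)) * (1 + p ^ (2 * N + 3)) ≤ 1 := by nlinarith
    calc _ ≤ ‖∏ n ∈ Finset.range (2 * N + 1), (1 - (-(p : ℂ)) ^ (n + 1))‖ * 1 :=
          mul_le_mul_of_nonneg_left h7 (norm_nonneg _)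
      _ ≤ 1 + p := by rw [mul_one]; exact ih

/-- **E2**, the upper bound. -/
theorem E2_le (t : ℝ) (ht : 0 < t) : ‖Pinf (-(Real.exp (-t) : ℂ))‖ ≤ Real.exp (t / 24) *
    Real.sqrt (π / t) * Real.exp (-(π ^ 2 / (24 * t))) * (1 + Real.exp (-(π ^ 2 / t))) := by
  rw [E2 t ht]
  have hπ := Real.pi_pos
  refine mul_le_mul_of_nonneg_left (norm_Pinf_neg_le _ (Real.exp_pos _).le ?_) (by positivity)
  rw [Real.exp_lt_one_iff]
  have : 0 < π ^ 2 / t := by positivity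
  linarith

end Pool.Agent.Lib.MP_cf17a0_co.S1
end

section

/-!
# The modular tool, part E: the finite-`k` factor E3
-/

set_option autoImplicit false

namespace Pool.Agent.Lib.MP_cf17a0_co.S1

open Complex Filter
open scoped Real Topology

/-- the finite product `(x; x)_k` -/
noncomputable def Pfin (x : ℂ) (k : ℕ) : ℂ := ∏ j ∈ Finset.range k, (1 - x ^ (j + 1))

theorem Pfin_ne_zero {x : ℂ} (hx : ‖x‖ < 1) (k : ℕ) : Pfin x k ≠ 0 := by
  unfold Pfin
  refine Finset.prod_ne_zero_iff.2 fun j _ h => ?_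
  have h1 : x ^ (j + 1) = 1 := (sub_eq_zero.1 h).symm
  have h2 : ‖x‖ ^ (j + 1) = 1 := by rw [← norm_pow, h1, norm_one]
  have h3 : ‖x‖ ^ (j + 1) < 1 := pow_lt_one₀ (norm_nonneg _) hx (by omega)
  linarith

/-- the exponent: `∑_{l ≥ 1} r ^ (l (k + 1)) / (l ‖1 - x ^ l‖)` (index shifted by one) -/
noncomputable def finExp (x : ℂ) (k : ℕ) : ℝ :=
  ∑' l : ℕ, ‖x‖ ^ ((l + 1) * (k + 1)) / ((l + 1) * ‖1 - x ^ (l + 1)‖)

theorem one_sub_norm_pow_le {x : ℂ} (l : ℕ) : 1 - ‖x‖ ^ l ≤ ‖1 - x ^ l‖ := by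
  have h3 := norm_sub_norm_le (1 : ℂ) (x ^ l)
  rw [norm_one, norm_pow] at h3
  exact h3

theorem one_sub_norm_le {x : ℂ} (hx : ‖x‖ < 1) (l : ℕ) : 1 - ‖x‖ ≤ ‖1 - x ^ (l + 1)‖ := by
  refine le_trans ?_ (one_sub_norm_pow_le (l + 1))
  have : ‖x‖ ^ (l + 1) ≤ ‖x‖ := by
    rw [pow_succ]
    exact mul_le_of_le_one_left (norm_nonneg _) (pow_le_one₀ (norm_nonneg _) hx.le)
  linarith

theorem finExp_term_le {x : ℂ} (hx : ‖x‖ < 1) (k l : ℕ) :
    ‖x‖ ^ ((l + 1) * (k + 1)) / ((l + 1) * ‖1 - x ^ (l + 1)‖) ≤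
      (‖x‖ ^ (k + 1)) ^ (l + 1) / (1 - ‖x‖) := by
  have h1 := one_sub_norm_le hx l
  have h2 : 0 < 1 - ‖x‖ := by linarith
  rw [mul_comm (l + 1) (k + 1), pow_mul]
  refine div_le_div_of_nonneg_left (by positivity) h2 (h1.trans ?_)
  refine le_mul_of_one_le_left (norm_nonneg _) ?_
  have : (0 : ℝ) ≤ l := Nat.cast_nonneg l
  linarith

theorem finExp_nonneg_term {x : ℂ} (k l : ℕ) :
    0 ≤ ‖x‖ ^ ((l + 1) * (k + 1)) / (((l : ℝ) + 1) * ‖1 - x ^ (l + 1)‖) := by positivity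

theorem summable_geo {x : ℂ} (hx : ‖x‖ < 1) (k : ℕ) :
    Summable fun l : ℕ => (‖x‖ ^ (k + 1)) ^ (l + 1) / (1 - ‖x‖) := by
  have h1 : ‖x‖ ^ (k + 1) < 1 := pow_lt_one₀ (norm_nonneg _) hx (by omega)
  exact (((summable_nat_add_iff 1).2 (summable_geometric_of_lt_one (by positivity) h1))).div_const _

theorem summable_finExp {x : ℂ} (hx : ‖x‖ < 1) (k : ℕ) :
    Summable fun l : ℕ => ‖x‖ ^ ((l + 1) * (k + 1)) / (((l : ℝ) + 1) * ‖1 - x ^ (l + 1)‖) :=
  Summable.of_nonneg_of_le (fun l => finExp_nonneg_term k l) (fun l => finExp_term_le hx k l)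
    (summable_geo hx k)

/-- the logarithm of a factor -/
theorem neg_log_one_sub {z : ℂ} (hz : ‖z‖ < 1) :
    HasSum (fun l : ℕ => z ^ (l + 1) / ((l : ℂ) + 1)) (-Complex.log (1 - z)) := by
  have h := Complex.hasSum_taylorSeries_neg_log hz
  have h2 := (hasSum_nat_add_iff' 1).2 h
  simpa using h2

/-- the finite product between `k` and `K` -/
theorem norm_Pfin_div_le {x : ℂ} (hx : ‖x‖ < 1) (k m : ℕ) :
    ‖∏ j ∈ Finset.range m, (1 - x ^ (k + j + 1))‖ ≤
      Real.exp (finExp x k + (‖x‖ ^ (k + m + 1)) / ((1 - ‖x‖) * (1 - ‖x‖))) := by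
  -- the product is the exponential of the sum of the logarithms
  have hxp : ∀ n : ℕ, ‖x ^ (n + 1)‖ < 1 := fun n => by
    rw [norm_pow]
    exact pow_lt_one₀ (norm_nonneg _) hx (by omega)
  have hne : ∀ n : ℕ, (1 - x ^ (n + 1)) ≠ 0 := fun n h => by
    have h1 : x ^ (n + 1) = 1 := (sub_eq_zero.1 h).symm
    have := hxp n
    rw [h1, norm_one] at this
    exact lt_irrefl _ this
  have h1 : ∏ j ∈ Finset.range m, (1 - x ^ (k + j + 1)) =
      Complex.exp (∑ j ∈ Finset.range m, Complex.log (1 - x ^ (k + j + 1))) := by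
    rw [Complex.exp_sum]
    exact Finset.prod_congr rfl fun j _ => (Complex.exp_log (hne (k + j))).symm
  have h2 : HasSum (fun l : ℕ => ∑ j ∈ Finset.range m, (x ^ (k + j + 1)) ^ (l + 1) / ((l : ℂ) + 1))
      (∑ j ∈ Finset.range m, -Complex.log (1 - x ^ (k + j + 1))) :=
    hasSum_sum fun j _ => neg_log_one_sub (hxp (k + j))
  have h3 : ∀ l : ℕ, ∑ j ∈ Finset.range m, (x ^ (k + j + 1)) ^ (l + 1) / ((l : ℂ) + 1) =
      (x ^ ((l + 1) * (k + 1)) - x ^ ((l + 1) * (k + m + 1))) /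
        (((l : ℂ) + 1) * (1 - x ^ (l + 1))) := by
    intro l
    have h4 : ∑ j ∈ Finset.range m, (x ^ (k + j + 1)) ^ (l + 1) =
        x ^ ((l + 1) * (k + 1)) * ∑ j ∈ Finset.range m, (x ^ (l + 1)) ^ j := by
      rw [Finset.mul_sum]
      refine Finset.sum_congr rfl fun j _ => ?_
      rw [← pow_mul, ← pow_mul, ← pow_add]
      congr 1
      ring
    have h5 : (∑ j ∈ Finset.range m, (x ^ (l + 1)) ^ j) * (1 - x ^ (l + 1)) =
        1 - (x ^ (l + 1)) ^ m := geom_sum_mul_neg _ _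
    have h6 : x ^ ((l + 1) * (k + m + 1)) = x ^ ((l + 1) * (k + 1)) * (x ^ (l + 1)) ^ m := by
      rw [← pow_mul, ← pow_add]
      congr 1
      ring
    have h7 : ((l : ℂ) + 1) ≠ 0 := by exact_mod_cast Nat.succ_ne_zero l
    rw [← Finset.sum_div, h4, h6, div_eq_div_iff h7 (mul_ne_zero h7 (hne l))]
    linear_combination (x ^ ((l + 1) * (k + 1)) * ((l : ℂ) + 1)) * h5
  simp_rw [h3] at h2
  -- bound the norm of the sum
  have h8 : ‖∑ j ∈ Finset.range m, -Complex.log (1 - x ^ (k + j + 1))‖ ≤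
      finExp x k + (‖x‖ ^ (k + m + 1)) / ((1 - ‖x‖) * (1 - ‖x‖)) := by
    rw [← h2.tsum_eq]
    have hs1 := summable_finExp hx k
    have hs2 := summable_geo hx (k + m)
    have h9 : ∀ l : ℕ, ‖(x ^ ((l + 1) * (k + 1)) - x ^ ((l + 1) * (k + m + 1))) /
        (((l : ℂ) + 1) * (1 - x ^ (l + 1)))‖ ≤
        ‖x‖ ^ ((l + 1) * (k + 1)) / (((l : ℝ) + 1) * ‖1 - x ^ (l + 1)‖) +
        (‖x‖ ^ (k + m + 1)) ^ (l + 1) / (1 - ‖x‖) := by
      intro l
      have h10 : ‖((l : ℂ) + 1)‖ = (l : ℝ) + 1 := by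
        have : ((l : ℂ) + 1) = (((l : ℝ) + 1 : ℝ) : ℂ) := by push_cast; ring
        rw [this, Complex.norm_real, Real.norm_of_nonneg (by positivity)]
      rw [norm_div, norm_mul, h10]
      have h11 := finExp_term_le hx (k + m) l
      have h12 : ‖x ^ ((l + 1) * (k + 1)) - x ^ ((l + 1) * (k + m + 1))‖ ≤
          ‖x‖ ^ ((l + 1) * (k + 1)) + ‖x‖ ^ ((l + 1) * (k + m + 1)) := by
        refine (norm_sub_le _ _).trans ?_
        rw [norm_pow, norm_pow]
      refine (div_le_div_of_nonneg_right h12 (by positivity)).trans ?_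
      rw [add_div]
      exact add_le_add_right h11 _
    have hsum := hs1.add hs2
    have h13 := tsum_of_norm_bounded hsum.hasSum h9
    refine h13.trans ?_
    rw [hs1.tsum_add hs2]
    refine add_le_add_right ?_ _
    -- the geometric series
    have hr : ‖x‖ ^ (k + m + 1) ≤ ‖x‖ := by
      rw [pow_succ]
      exact mul_le_of_le_one_left (norm_nonneg _) (pow_le_one₀ (norm_nonneg _) hx.le)
    have hr0 : 0 ≤ ‖x‖ ^ (k + m + 1) := by positivity
    have hx1 : 0 < 1 - ‖x‖ := by linarith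
    have h14 : ∑' l : ℕ, (‖x‖ ^ (k + m + 1)) ^ (l + 1) / (1 - ‖x‖) =
        ‖x‖ ^ (k + m + 1) / (1 - ‖x‖ ^ (k + m + 1)) / (1 - ‖x‖) := by
      rw [tsum_div_const]
      congr 1
      have h15 : ∀ l : ℕ, (‖x‖ ^ (k + m + 1)) ^ (l + 1) =
          ‖x‖ ^ (k + m + 1) * (‖x‖ ^ (k + m + 1)) ^ l := fun l => by ring
      simp_rw [h15]
      rw [tsum_mul_left, tsum_geometric_of_lt_one hr0 (lt_of_le_of_lt hr hx)]
      rfl
    rw [h14, div_div]
    exact div_le_div_of_nonneg_left hr0 (by positivity)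
      (mul_le_mul_of_nonneg_right (by linarith) hx1.le)
  rw [h1, Complex.norm_exp]
  refine Real.exp_le_exp.2 ?_
  refine le_trans ?_ h8
  rw [Finset.sum_neg_distrib, norm_neg]
  exact Complex.re_le_norm _

/-- **E3.** -/
theorem E3 {x : ℂ} (hx : ‖x‖ < 1) (k : ℕ) : ‖Pinf x‖ ≤ ‖Pfin x k‖ * Real.exp (finExp x k) := by
  have hT := (tendsto_Pinf hx).norm
  have hT2 := hT.comp (tendsto_add_atTop_nat k)
  have h1 : ∀ m : ℕ, ‖∏ n ∈ Finset.range (m + k), (1 - x ^ (n + 1))‖ ≤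
      ‖Pfin x k‖ * Real.exp (finExp x k + (‖x‖ ^ (k + m + 1)) / ((1 - ‖x‖) * (1 - ‖x‖))) := by
    intro m
    rw [add_comm m k, Finset.prod_range_add, norm_mul]
    exact mul_le_mul_of_nonneg_left (norm_Pfin_div_le hx k m) (norm_nonneg _)
  have h2 : Tendsto (fun m : ℕ => ‖Pfin x k‖ * Real.exp (finExp x k +
      (‖x‖ ^ (k + m + 1)) / ((1 - ‖x‖) * (1 - ‖x‖)))) atTop
      (𝓝 (‖Pfin x k‖ * Real.exp (finExp x k + 0 / ((1 - ‖x‖) * (1 - ‖x‖))))) := by
    refine Tendsto.const_mul _ ((Real.continuous_exp.tendsto _).comp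
      (Tendsto.const_add _ (Tendsto.div_const ?_ _)))
    have h3 := (tendsto_pow_atTop_nhds_zero_of_lt_one (norm_nonneg x) hx).comp
      (tendsto_add_atTop_nat (k + 1))
    refine h3.congr fun m => ?_
    show ‖x‖ ^ (m + (k + 1)) = _
    congr 1
    ring
  rw [zero_div, add_zero] at h2
  exact le_of_tendsto_of_tendsto' hT2 h2 h1

/-- **E3**, the form that is used: `1 / |(x; x)_k| ≤ exp(...) / |(x; x)_∞|`. -/
theorem E3_inv {x : ℂ} (hx : ‖x‖ < 1) (k : ℕ) :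
    ‖Pfin x k‖⁻¹ ≤ ‖Pinf x‖⁻¹ * Real.exp (finExp x k) := by
  have h1 := E3 hx k
  have h2 : 0 < ‖Pfin x k‖ := norm_pos_iff.2 (Pfin_ne_zero hx k)
  have h3 : Pinf x ≠ 0 := by
    unfold Pinf
    have h4 := tprod_one_add_ne_zero_of_summable (f := fun n : ℕ => -x ^ (n + 1)) (fun i => ?_) ?_
    · simpa [sub_eq_add_neg] using h4
    · rw [← sub_eq_add_neg]
      intro h
      have h1 : x ^ (i + 1) = 1 := (sub_eq_zero.1 h).symm
      have h2 : ‖x‖ ^ (i + 1) = 1 := by rw [← norm_pow, h1, norm_one]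
      have h3 : ‖x‖ ^ (i + 1) < 1 := pow_lt_one₀ (norm_nonneg _) hx (by omega)
      linarith
    · simpa using (summable_nat_add_iff 1).mpr (summable_geometric_of_lt_one (norm_nonneg _) hx)
  have h5 : 0 < ‖Pinf x‖ := norm_pos_iff.2 h3
  rw [inv_le_iff_one_le_mul₀ h2, mul_assoc, mul_comm (Real.exp _), ← div_eq_inv_mul,
    one_le_div h5]
  exact h1

end Pool.Agent.Lib.MP_cf17a0_co.S1
end
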