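import Pool.Agent.Lib.MP_cf17a0_co.Mg.G065

section

/-!
# The blocks
-/

set_option autoImplicit false

namespace Pool.Agent.SignedQ.Sm

open Finset

/-! ### BEGIN K1 -/

/-- TASK K1. `Finset.ext`, `mem_filter`, `mem_Icc`, and `omega` (with `Nat.even_mul`,
`Nat.even_iff`): for `n` even `bi j = min (K - 1) ((j - 1) / 2)`, the blocks are `{2 i + 1, 2 i + 2}`
(and `{k - 2, k - 1, k}` for `k` odd); for `n` odd (`k` even) `bi j = min (K - 1) (j / 2)`, the blocks
are `{1}`, `{2 i, 2 i + 1}`, `{k - 2, k - 1, k}`. -/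
theorem Blk_cases {n k : ℕ} (hk : 4 ≤ k) (h : Even (n * k)) {i : ℕ} (hi : i < k / 2) :
    (n % 2 = 1 ∧ i = 0 ∧ Blk n k i = {je n i}) ∨
    (2 ≤ je n i ∧ Blk n k i = {je n i - 1, je n i}) ∨
    (2 ≤ je n i ∧ i + 1 = k / 2 ∧ je n i + 1 = k ∧ Blk n k i = {je n i - 1, je n i, je n i + 1}) := by
  rw [Nat.even_mul, Nat.even_iff, Nat.even_iff] at h
  have hje : je n i = 2 * i + 2 - n % 2 := rfl
  rcases Nat.mod_two_eq_zero_or_one n with hn | hn
  · by_cases h1 : i + 1 = k / 2 ∧ k % 2 = 1
    · right; right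
      refine ⟨by omega, h1.1, by omega, ?_⟩
      ext j
      simp only [Blk, mem_filter, mem_Icc, bi, mem_insert, mem_singleton, hje]
      omega
    · right; left
      refine ⟨by omega, ?_⟩
      ext j
      simp only [Blk, mem_filter, mem_Icc, bi, mem_insert, mem_singleton, hje]
      omega
  · have hk2 : k % 2 = 0 := by omega
    by_cases h0 : i = 0
    · left
      refine ⟨hn, h0, ?_⟩
      ext j
      simp only [Blk, mem_filter, mem_Icc, bi, mem_singleton, hje]
      omega
    · by_cases h1 : i + 1 = k / 2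
      · right; right
        refine ⟨by omega, h1, by omega, ?_⟩
        ext j
        simp only [Blk, mem_filter, mem_Icc, bi, mem_insert, mem_singleton, hje]
        omega
      · right; left
        refine ⟨by omega, ?_⟩
        ext j
        simp only [Blk, mem_filter, mem_Icc, bi, mem_insert, mem_singleton, hje]
        omega

/-- TASK K1. -/
theorem even_je (n i : ℕ) : Even (n + je n i) := by
  rw [Nat.even_iff]
  unfold je
  omega

/-- TASK K1. -/
theorem je_pos (n i : ℕ) : 1 ≤ je n i := by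
  unfold je
  omega

/-- TASK K1. -/
theorem je_le {n k : ℕ} (hk : 4 ≤ k) (h : Even (n * k)) {i : ℕ} (hi : i < k / 2) : je n i ≤ k := by
  unfold je
  omega

/-- TASK K1. `Finset.prod_fiberwise_of_maps_to` (every `bi n k j` is `< k / 2`). -/
theorem prod_blocks {M : Type} [CommMonoid M] {n k : ℕ} (hk : 4 ≤ k) (F : ℕ → M) :
    ∏ j ∈ Icc 1 k, F j = ∏ i ∈ range (k / 2), ∏ j ∈ Blk n k i, F j := by
  unfold Blk
  rw [Finset.prod_fiberwise_of_maps_to]
  intro j _
  rw [mem_range]
  unfold bi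
  omega

/-- TASK K1. `n` even: `n (k - 1 - 2 i) + (2 i + 2) ≥ 0`; `n` odd: `(n - 1) (k - 1 - 2 i) ≥ 0`. -/
theorem je_lower {n k : ℕ} (hk : 4 ≤ k) (h : Even (n * k)) {i : ℕ} (hi : i < k / 2) :
    2 * (i + 1) * (n + k) ≤ (k + 1) * (n + je n i) := by
  obtain ⟨t, ht⟩ : ∃ t, k = 2 * i + 2 + t := ⟨k - (2 * i + 2), by omega⟩
  rcases Nat.mod_two_eq_zero_or_one n with hn | hn
  · have hje : je n i = 2 * i + 2 := by
      unfold je
      omega
    have h1 : (k + 1) * (n + je n i) = 2 * (i + 1) * (n + k) + (n * (1 + t) + 2 * i + 2) := by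
      rw [hje, ht]
      ring
    omega
  · have hje : je n i = 2 * i + 1 := by
      unfold je
      omega
    obtain ⟨m, hm⟩ : ∃ m, n = m + 1 := ⟨n - 1, by omega⟩
    have h1 : (k + 1) * (n + je n i) = 2 * (i + 1) * (n + k) + m * (1 + t) := by
      rw [hje, ht, hm]
      ring
    omega

/-- TASK K1. The lengths. (`a (n + je) ≤ a (n + k)`, a triple has `je + 1 = k` and
`(je - 1) + je + (je + 1) = 3 je`.) -/
theorem Ln_le {n k : ℕ} (hk : 4 ≤ k) (h : Even (n * k)) (a : ℕ) {i : ℕ} (hi : i < k / 2) :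
    Ln n k a i ≤ (if i + 1 = k / 2 then 3 else 2) * (a * (n + k)) := by
  have hjk := je_le hk h hi
  have hle : ∀ j, j ≤ k → a * (n + j) ≤ a * (n + k) := fun j hj => Nat.mul_le_mul_left a (by omega)
  have h2 : 2 * (a * (n + k)) ≤ (if i + 1 = k / 2 then 3 else 2) * (a * (n + k)) := by
    apply Nat.mul_le_mul_right
    split_ifs <;> norm_num
  unfold Ln
  rcases Blk_cases hk h hi with ⟨_, _, h1⟩ | ⟨h0, h1⟩ | ⟨h0, h3, h4, h1⟩
  · rw [h1, sum_singleton]
    have := hle _ hjk
    omega
  · rw [h1, sum_pair (by omega)]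
    have h5 := hle _ hjk
    have h6 := hle (je n i - 1) (by omega)
    omega
  · rw [h1, sum_insert (by simp only [mem_insert, mem_singleton]; omega), sum_pair (by omega),
      if_pos h3]
    have h5 := hle _ hjk
    have h6 := hle (je n i - 1) (by omega)
    have h7 := hle (je n i + 1) (by omega)
    omega

theorem k1_je_mem {n k : ℕ} (hk : 4 ≤ k) (h : Even (n * k)) {i : ℕ} (hi : i < k / 2) :
    je n i ∈ Blk n k i := by
  rcases Blk_cases hk h hi with ⟨_, _, h1⟩ | ⟨h0, h1⟩ | ⟨h0, h3, h4, h1⟩ <;> rw [h1] <;> simp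

/-- TASK K1. -/
theorem Ln_pos {n k : ℕ} (hk : 4 ≤ k) (h : Even (n * k)) {a : ℕ} (ha : 1 ≤ a) {i : ℕ}
    (hi : i < k / 2) : 1 ≤ Ln n k a i := by
  have h1 : a * (n + je n i) ≤ Ln n k a i := by
    unfold Ln
    exact single_le_sum (f := fun j => a * (n + j)) (fun _ _ => Nat.zero_le _)
      (k1_je_mem hk h hi)
  have h2 := je_pos n i
  have h3 : 1 ≤ a * (n + je n i) := Nat.mul_pos ha (by omega)
  omega

/-- TASK K1. From `prod_blocks` (for sums; use `Multiplicative` or repeat the proof with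
`sum_fiberwise_of_maps_to`). -/
theorem sum_Ln {n k : ℕ} (hk : 4 ≤ k) (a : ℕ) :
    ∑ i ∈ range (k / 2), Ln n k a i = ∑ j ∈ Icc 1 k, a * (n + j) := by
  unfold Ln Blk
  rw [Finset.sum_fiberwise_of_maps_to]
  intro j _
  rw [mem_range]
  unfold bi
  omega

/-! ### END K1 -/

variable {n k a i : ℕ} {r : ℚ}

/-! ### BEGIN K2 -/

/-- The product over the block without `je`. -/
def k2_R (n k a i : ℕ) (r : ℚ) : ℚ := ∏ j ∈ (Blk n k i).erase (je n i), (1 + r ^ (a * (n + j)))

theorem k2_mem (hk : 4 ≤ k) (h : Even (n * k)) (hi : i < k / 2) : je n i ∈ Blk n k i := by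
  rcases Blk_cases hk h hi with ⟨_, _, h1⟩ | ⟨h0, h1⟩ | ⟨h0, h3, h4, h1⟩ <;> rw [h1] <;> simp

theorem k2_near (hk : 4 ≤ k) (h : Even (n * k)) (hi : i < k / 2) {j : ℕ} (hj : j ∈ Blk n k i) :
    1 ≤ j ∧ je n i ≤ j + 1 ∧ j ≤ je n i + 1 := by
  have h5 := je_pos n i
  rcases Blk_cases hk h hi with ⟨_, _, h1⟩ | ⟨h0, h1⟩ | ⟨h0, h3, h4, h1⟩ <;> rw [h1] at hj <;>
    simp only [mem_insert, mem_singleton] at hj <;> omega

theorem k2_odd (hk : 4 ≤ k) (h : Even (n * k)) (hi : i < k / 2) {j : ℕ} (hj : j ∈ Blk n k i)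
    (hne : j ≠ je n i) : ¬ Even (n + j) := by
  have h1 := k2_near hk h hi hj
  have h2 := even_je n i
  rw [Nat.even_iff] at h2 ⊢
  omega

theorem k2_split (hk : 4 ≤ k) (h : Even (n * k)) (hi : i < k / 2) (G : ℕ → ℚ)
    (hG : ∀ j, j ≠ je n i → G j = 1 + r ^ (a * (n + j))) :
    ∏ j ∈ Blk n k i, G j = G (je n i) * k2_R n k a i r := by
  rw [← mul_prod_erase _ _ (k2_mem hk h hi)]
  congr 1
  unfold k2_R
  exact prod_congr rfl fun j hj => hG j (ne_of_mem_erase hj)

theorem k2_wk (hk : 4 ≤ k) (h : Even (n * k)) (hi : i < k / 2) :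
    ∏ j ∈ Blk n k i, wk n a r j = bv r (a * (n + je n i)) * k2_R n k a i r := by
  rw [← mul_prod_erase _ _ (k2_mem hk h hi)]
  congr 1
  · unfold wk
    rw [if_pos (even_je n i)]
  · unfold k2_R
    refine prod_congr rfl fun j hj => ?_
    unfold wk
    rw [if_neg (k2_odd hk h hi (mem_of_mem_erase hj) (ne_of_mem_erase hj))]

theorem k2_R_pos (hr : 0 < r) : 0 < k2_R n k a i r := by
  unfold k2_R
  exact prod_pos fun j _ => by positivity

theorem k2_split2 (hr : 0 < r) {j0 : ℕ} (hj : j0 ∈ Blk n k i) (hne : j0 ≠ je n i) :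
    ∃ R' : ℚ, 0 < R' ∧ k2_R n k a i r = (1 + r ^ (a * (n + j0))) * R' ∧
      ∀ G : ℕ → ℚ, (∀ j, j ≠ j0 → G j = 1 + r ^ (a * (n + j))) →
        ∏ j ∈ (Blk n k i).erase (je n i), G j = G j0 * R' := by
  have hm : j0 ∈ (Blk n k i).erase (je n i) := mem_erase.2 ⟨hne, hj⟩
  refine ⟨∏ j ∈ ((Blk n k i).erase (je n i)).erase j0, (1 + r ^ (a * (n + j))),
    prod_pos fun j _ => by positivity, ?_, ?_⟩
  · unfold k2_R
    rw [← mul_prod_erase _ _ hm]
  · intro G hG
    rw [← mul_prod_erase _ _ hm]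
    congr 1
    exact prod_congr rfl fun j hj => hG j (ne_of_mem_erase hj)

theorem k2_len (ha : 1 ≤ a) {j : ℕ} (hj : 1 ≤ j) : 1 ≤ a * (n + j) :=
  Nat.mul_pos ha (by omega)

/-- TASK K2. Cases by `Blk_cases`; the factor of `je` by `crude_le`, the other factors are equal to
those of `wk` (they are odd, `even_je`). -/
theorem blk_crude (hk : 4 ≤ k) (h : Even (n * k)) (ha : 1 ≤ a) (hi : i < k / 2) (hr : 0 < r)
    (hr1 : r ≤ 1) :
    ∏ j ∈ Blk n k i, (1 + r ^ (a * (n + j))) ≤
      (1 - r + 2 / ((a * (n + je n i) : ℕ) : ℚ)) * ∏ j ∈ Blk n k i, wk n a r j := by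
  rw [k2_wk hk h hi, k2_split (r := r) (a := a) hk h hi (fun j => 1 + r ^ (a * (n + j)))
    (fun _ _ => rfl), ← mul_assoc]
  exact mul_le_mul_of_nonneg_right (crude_le hr.le hr1 (k2_len ha (je_pos n i)))
    (k2_R_pos hr).le

/-- TASK K2. As `blk_crude`, with `one_le_bv`. -/
theorem blk_sup (hk : 4 ≤ k) (h : Even (n * k)) (ha : 1 ≤ a) (hi : i < k / 2) (hr : 0 < r)
    (hr1 : r ≤ 1) :
    ∏ j ∈ Blk n k i, (if j = je n i then 1 else 1 + r ^ (a * (n + j))) ≤
      (1 - r + 1 / ((a * (n + je n i) : ℕ) : ℚ)) * ∏ j ∈ Blk n k i, wk n a r j := by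
  rw [k2_wk hk h hi, k2_split (r := r) (a := a) hk h hi
    (fun j => if j = je n i then 1 else 1 + r ^ (a * (n + j)))
    (fun j hj => if_neg hj), if_pos rfl, ← mul_assoc]
  exact mul_le_mul_of_nonneg_right (one_le_bv hr.le hr1 (k2_len ha (je_pos n i)))
    (k2_R_pos hr).le

/-- TASK K2. The box of `je` stays: equality. -/
theorem blk_self (hk : 4 ≤ k) (h : Even (n * k)) (hi : i < k / 2) :
    ∏ j ∈ Blk n k i, (if j = je n i then bv r (a * (n + j)) else 1 + r ^ (a * (n + j))) =
      ∏ j ∈ Blk n k i, wk n a r j := by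
  rw [k2_wk hk h hi, k2_split (r := r) (a := a) hk h hi
    (fun j => if j = je n i then bv r (a * (n + j)) else 1 + r ^ (a * (n + j)))
    (fun j hj => if_neg hj), if_pos rfl]

/-- TASK K2. If `j0 = je` the two sides are equal. Otherwise `j0 = je - 1` is odd, `o = a (n + j0)`,
`e = a (n + je)`, `bv o / bv d * (1 + r ^ e) ≤ 1 / bv d * (bv e * (1 + r ^ o))` by `odd_even_le`, and
a third factor `1 + r ^ (a (n + je + 1))` is the same on both sides. -/
theorem blk_J (hk : 4 ≤ k) (h : Even (n * k)) (ha : 1 ≤ a) (hi : i < k / 2) (hr : 0 < r)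
    (hr1 : r ≤ 1) {d : ℕ} (hd : 1 ≤ d) {j0 : ℕ} (hj : j0 ∈ Blk n k i) (hj0 : j0 ≤ je n i) :
    ∏ j ∈ Blk n k i, (if j = j0 then bv r (a * (n + j)) / bv r d else 1 + r ^ (a * (n + j))) ≤
      1 / bv r d * ∏ j ∈ Blk n k i, wk n a r j := by
  have hbd := bv_pos hr hd
  rw [k2_wk hk h hi]
  by_cases hje : j0 = je n i
  · subst hje
    rw [k2_split (r := r) (a := a) hk h hi
      (fun j => if j = je n i then bv r (a * (n + j)) / bv r d else 1 + r ^ (a * (n + j)))
      (fun j hj => if_neg hj), if_pos rfl]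
    apply le_of_eq
    ring
  · obtain ⟨R', hR', e1, e2⟩ := k2_split2 (a := a) (r := r) hr hj hje
    rw [← mul_prod_erase _ _ (k2_mem hk h hi), if_neg (fun h' => hje h'.symm),
      e2 (fun j => if j = j0 then bv r (a * (n + j)) / bv r d else 1 + r ^ (a * (n + j)))
        (fun j hj => if_neg hj), if_pos rfl, e1]
    have h1 := odd_even_le hr.le hr1 (o := a * (n + j0)) (e := a * (n + je n i))
      (Nat.mul_le_mul_left a (by omega))
    have h2 : (1 + r ^ (a * (n + je n i))) * (bv r (a * (n + j0)) / bv r d * R') =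
        1 / bv r d * R' * (bv r (a * (n + j0)) * (1 + r ^ (a * (n + je n i)))) := by ring
    have h3 : 1 / bv r d * (bv r (a * (n + je n i)) * ((1 + r ^ (a * (n + j0))) * R')) =
        1 / bv r d * R' * (bv r (a * (n + je n i)) * (1 + r ^ (a * (n + j0)))) := by ring
    rw [h2, h3]
    exact mul_le_mul_of_nonneg_left h1 (by positivity)

/-- TASK K2. If `j0 = je`: `one_le_bv`. Otherwise `j0` is odd, with `o = a (n + j0)`,
`e = a (n + je)`, `o ≤ 2 e` (`n + j0 ≤ n + je + 1 ≤ 2 (n + je)`):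
`1 + r ^ e ≤ (1 - r + 1 / o) * bv o * (1 + r ^ e) ≤ 2 (1 - r + 1 / o) * (bv e * (1 + r ^ o))`
(`one_le_bv`, `odd_even_le'`). -/
theorem blk_JS (hk : 4 ≤ k) (h : Even (n * k)) (ha : 1 ≤ a) (hi : i < k / 2) (hr : 0 < r)
    (hr1 : r ≤ 1) {j0 : ℕ} (hj : j0 ∈ Blk n k i) :
    ∏ j ∈ Blk n k i, (if j = j0 then 1 else 1 + r ^ (a * (n + j))) ≤
      2 * (1 - r + 1 / ((a * (n + j0) : ℕ) : ℚ)) * ∏ j ∈ Blk n k i, wk n a r j := by
  have hnear := k2_near hk h hi hj
  have ho := one_le_bv hr.le hr1 (k2_len (n := n) ha hnear.1)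
  have hc : 0 ≤ 1 - r + 1 / ((a * (n + j0) : ℕ) : ℚ) := by
    have h1 : (0 : ℚ) ≤ 1 / ((a * (n + j0) : ℕ) : ℚ) := by positivity
    linarith
  rw [k2_wk hk h hi]
  by_cases hje : j0 = je n i
  · subst hje
    rw [k2_split (r := r) (a := a) hk h hi
      (fun j => if j = je n i then 1 else 1 + r ^ (a * (n + j)))
      (fun j hj => if_neg hj), if_pos rfl, ← mul_assoc]
    refine mul_le_mul_of_nonneg_right ?_ (k2_R_pos hr).le
    rw [mul_assoc]
    linarith
  · obtain ⟨R', hR', e1, e2⟩ := k2_split2 (a := a) (r := r) hr hj hje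
    rw [← mul_prod_erase _ _ (k2_mem hk h hi), if_neg (fun h' => hje h'.symm),
      e2 (fun j => if j = j0 then 1 else 1 + r ^ (a * (n + j)))
        (fun j hj => if_neg hj), if_pos rfl, e1, one_mul]
    have h5 := je_pos n i
    have hle : a * (n + j0) ≤ 2 * (a * (n + je n i)) := by
      have h6 : n + j0 ≤ 2 * (n + je n i) := by omega
      calc a * (n + j0) ≤ a * (2 * (n + je n i)) := Nat.mul_le_mul_left a h6
        _ = 2 * (a * (n + je n i)) := by ring
    have h1 := odd_even_le' hr.le hr1 hle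
    have hp : (0 : ℚ) ≤ 1 + r ^ (a * (n + je n i)) := by positivity
    have h2 : 1 + r ^ (a * (n + je n i)) ≤
        (1 - r + 1 / ((a * (n + j0) : ℕ) : ℚ)) * (2 * (bv r (a * (n + je n i)) *
          (1 + r ^ (a * (n + j0))))) := by
      calc 1 + r ^ (a * (n + je n i)) = 1 * (1 + r ^ (a * (n + je n i))) := (one_mul _).symm
        _ ≤ ((1 - r + 1 / ((a * (n + j0) : ℕ) : ℚ)) * bv r (a * (n + j0))) *
            (1 + r ^ (a * (n + je n i))) := mul_le_mul_of_nonneg_right ho hp
        _ = (1 - r + 1 / ((a * (n + j0) : ℕ) : ℚ)) * (bv r (a * (n + j0)) *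
            (1 + r ^ (a * (n + je n i)))) := by ring
        _ ≤ _ := mul_le_mul_of_nonneg_left h1 hc
    calc (1 + r ^ (a * (n + je n i))) * R' ≤
          ((1 - r + 1 / ((a * (n + j0) : ℕ) : ℚ)) * (2 * (bv r (a * (n + je n i)) *
          (1 + r ^ (a * (n + j0)))))) * R' := mul_le_mul_of_nonneg_right h2 hR'.le
      _ = _ := by ring

/-- TASK K2. -/
theorem wk_pos (ha : 1 ≤ a) (hr : 0 < r) {j : ℕ} (hj : 1 ≤ j) : 0 < wk n a r j := by
  unfold wk
  split_ifs
  · exact bv_pos hr (k2_len ha hj)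
  · positivity

/-! ### END K2 -/

/-! ### BEGIN K3 -/

private theorem k3_even (n i : ℕ) : (n + je n i) % 2 = 0 := Nat.even_iff.1 (even_je n i)

private theorem k3_wk_je (n a i : ℕ) (r : ℚ) : wk n a r (je n i) = bv r (a * (n + je n i)) := by
  unfold wk
  rw [if_pos (even_je n i)]

private theorem k3_wk_odd (n a : ℕ) (r : ℚ) {j : ℕ} (hj : (n + j) % 2 = 1) :
    wk n a r j = 1 + r ^ (a * (n + j)) := by
  unfold wk
  rw [if_neg]
  rw [Nat.even_iff]
  omega

private theorem k3_wkP_je (n a i : ℕ) : wkP n a (je n i) = geo (a * (n + je n i)) := by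
  unfold wkP
  rw [if_pos (even_je n i)]

private theorem k3_wkP_odd (n a : ℕ) {j : ℕ} (hj : (n + j) % 2 = 1) :
    wkP n a j = 1 + Polynomial.X ^ (a * (n + j)) := by
  unfold wkP
  rw [if_neg]
  rw [Nat.even_iff]
  omega

private theorem k3_c_le (k i : ℕ) :
    1 + 1 / (4 * (i : ℚ) + 3) ≤ (if i + 1 = k / 2 then 4 / 3 else 1 + 1 / (4 * (i : ℚ) + 3)) := by
  split_ifs
  · have h1 : (0 : ℚ) ≤ i := by positivity
    have h2 : 1 / (4 * (i : ℚ) + 3) ≤ 1 / 3 :=
      one_div_le_one_div_of_le (by norm_num) (by linarith)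
    linarith
  · exact le_rfl

private theorem k3_one_le_c (k i : ℕ) :
    1 ≤ (if i + 1 = k / 2 then 4 / 3 else 1 + 1 / (4 * (i : ℚ) + 3)) := by
  refine le_trans ?_ (k3_c_le k i)
  have h1 : (0 : ℚ) ≤ 1 / (4 * (i : ℚ) + 3) := by positivity
  linarith

/-- TASK K3. Single: `Ln = a (n + je)`, equality up to a factor `≥ 1`. Pair: `pair_ratio` with
`N = n + je`, `2 N - 1 ≥ 4 i + 3` (`n` even: `N ≥ 2 i + 2`; `n` odd: `N = n + 2 i + 1 ≥ 2 i + 2`).
Triple: `triple_ratio` with `N = n + je ≥ 3`. For a pair with `i + 1 = k / 2` use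
`1 + 1 / (2 N - 1) ≤ 4 / 3`. -/
theorem blk_ratio (hk : 4 ≤ k) (h : Even (n * k)) (ha : 1 ≤ a) (hi : i < k / 2) (hr : 0 < r)
    (hr1 : r ≤ 1) :
    ∏ j ∈ Blk n k i, wk n a r j ≤
      (if i + 1 = k / 2 then 4 / 3 else 1 + 1 / (4 * (i : ℚ) + 3)) * bv r (Ln n k a i) := by
  have hev := k3_even n i
  have hwk := k3_wk_je n a i r
  have hcle := k3_c_le k i
  have hone := k3_one_le_c k i
  rcases Blk_cases hk h hi with ⟨-, -, hB⟩ | ⟨h2, hB⟩ | ⟨h2, hi1, hjk, hB⟩
  · unfold Ln
    rw [hB, prod_singleton, sum_singleton, hwk]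
    have := bv_nonneg hr.le (a * (n + je n i))
    nlinarith
  · have hN : 2 * i + 2 ≤ n + je n i := by
      unfold je
      omega
    unfold Ln
    rw [hB]
    generalize je n i = J at *
    have hne : J - 1 ≠ J := by omega
    rw [prod_pair hne, sum_pair hne, hwk, k3_wk_odd n a r (j := J - 1) (by omega)]
    have hp := pair_ratio hr.le (a := a) (N := n + J) (by omega)
    rw [show n + J - 1 = n + (J - 1) by omega] at hp
    rw [mul_comm]
    refine hp.trans ?_
    apply mul_le_mul_of_nonneg_right _ (bv_nonneg hr.le _)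
    refine le_trans ?_ hcle
    have h3 : (4 * (i : ℚ) + 3) ≤ 2 * ((n + J : ℕ) : ℚ) - 1 := by
      have : ((2 * i + 2 : ℕ) : ℚ) ≤ ((n + J : ℕ) : ℚ) := by exact_mod_cast hN
      push_cast at this ⊢
      linarith
    have h4 : (0 : ℚ) < 4 * (i : ℚ) + 3 := by positivity
    have h5 := one_div_le_one_div_of_le h4 h3
    linarith
  · unfold Ln
    rw [hB, if_pos hi1]
    generalize je n i = J at *
    have hne1 : J - 1 ∉ ({J, J + 1} : Finset ℕ) := by
      simp only [mem_insert, mem_singleton]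
      omega
    have hne2 : J ≠ J + 1 := by omega
    rw [prod_insert hne1, prod_pair hne2, sum_insert hne1, sum_pair hne2, hwk,
      k3_wk_odd n a r (j := J - 1) (by omega), k3_wk_odd n a r (j := J + 1) (by omega)]
    have hp := triple_ratio hr.le (a := a) (N := n + J) (by omega)
    rw [show n + J - 1 = n + (J - 1) by omega, show n + J + 1 = n + (J + 1) by omega] at hp
    rw [show a * (n + (J - 1)) + (a * (n + J) + a * (n + (J + 1))) =
      a * (n + (J - 1)) + a * (n + J) + a * (n + (J + 1)) from (add_assoc _ _ _).symm]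
    calc (1 + r ^ (a * (n + (J - 1)))) * (bv r (a * (n + J)) * (1 + r ^ (a * (n + (J + 1)))))
        = bv r (a * (n + J)) * (1 + r ^ (a * (n + (J - 1)))) * (1 + r ^ (a * (n + (J + 1)))) := by
          ring
      _ ≤ _ := hp

private theorem k3_mem_pos {j : ℕ} (hj : j ∈ Blk n k i) : 1 ≤ j := by
  unfold Blk at hj
  exact (mem_Icc.1 (mem_filter.1 hj).1).1

/-- TASK K3. `prod_blocks`, `blk_ratio` for every block, `prod_le_prod`; the last factor of the
product over `range (k / 2)` is split off (`prod_range_succ`, `k / 2 = (k / 2 - 1) + 1`). -/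
theorem kap_le (hk : 4 ≤ k) (h : Even (n * k)) (ha : 1 ≤ a) (hr : 0 < r) (hr1 : r ≤ 1) :
    kap n k a r ≤ C1 (k / 2) * ∏ i ∈ range (k / 2), bv r (Ln n k a i) := by
  unfold kap
  rw [prod_blocks hk]
  have h1 : ∏ i ∈ range (k / 2), ∏ j ∈ Blk n k i, wk n a r j ≤
      ∏ i ∈ range (k / 2), ((if i + 1 = k / 2 then 4 / 3 else 1 + 1 / (4 * (i : ℚ) + 3)) *
        bv r (Ln n k a i)) := by
    apply prod_le_prod
    · intro i _
      apply prod_nonneg
      intro j hj
      exact (wk_pos ha hr (k3_mem_pos hj)).le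
    · intro i hi
      exact blk_ratio hk h ha (mem_range.1 hi) hr hr1
  refine h1.trans (le_of_eq ?_)
  rw [prod_mul_distrib]
  congr 1
  obtain ⟨K, hK⟩ : ∃ K, k / 2 = K + 1 := ⟨k / 2 - 1, by omega⟩
  rw [hK, prod_range_succ, if_pos rfl, mul_comm]
  unfold C1
  rw [Nat.add_sub_cancel]
  congr 1
  apply prod_congr rfl
  intro i hi
  rw [mem_range] at hi
  rw [if_neg]
  omega

private theorem k3_geo_coeff (L u : ℕ) : (geo L).coeff u = if u < L then 1 else 0 := by
  unfold geo
  rw [Polynomial.finsetSum_coeff]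
  simp only [Polynomial.coeff_X_pow]
  rw [sum_ite_eq (range L) u (fun _ => (1 : ℚ))]
  simp only [mem_range]

/-- TASK K3. Multiplication by `1 + q ^ b` extends a box of length `L ≥ b` coefficientwise. Both
sides: the coefficient of `geo L * (1 + X ^ b)` at `u` is `[u < L] + [b ≤ u < L + b]`, that of
`geo (L + b)` is `[u < L + b]`. -/
theorem geo_extend {L b : ℕ} (h : b ≤ L) (u : ℕ) :
    (geo (L + b)).coeff u ≤ (geo L * (1 + Polynomial.X ^ b)).coeff u := by
  rw [mul_add, mul_one, Polynomial.coeff_add, Polynomial.coeff_mul_X_pow', k3_geo_coeff,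
    k3_geo_coeff, k3_geo_coeff]
  split_ifs <;> first | (exfalso; omega) | norm_num

private theorem k3_mul_mono {p p' q : Polynomial ℚ} (h1 : ∀ u, p.coeff u ≤ p'.coeff u)
    (h2 : ∀ u, 0 ≤ q.coeff u) (u : ℕ) : (p * q).coeff u ≤ (p' * q).coeff u := by
  rw [Polynomial.coeff_mul, Polynomial.coeff_mul]
  apply sum_le_sum
  intro x _
  exact mul_le_mul_of_nonneg_right (h1 _) (h2 _)

private theorem k3_mul_nonneg {p q : Polynomial ℚ} (h1 : ∀ u, 0 ≤ p.coeff u)
    (h2 : ∀ u, 0 ≤ q.coeff u) (u : ℕ) : 0 ≤ (p * q).coeff u := by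
  rw [Polynomial.coeff_mul]
  apply sum_nonneg
  intro x _
  exact mul_nonneg (h1 _) (h2 _)

private theorem k3_prod_nonneg {ι : Type} (s : Finset ι) (f : ι → Polynomial ℚ)
    (hf : ∀ i ∈ s, ∀ u, 0 ≤ (f i).coeff u) : ∀ u, 0 ≤ (∏ i ∈ s, f i).coeff u := by
  classical
  induction s using Finset.induction_on with
  | empty =>
    intro u
    rw [prod_empty, Polynomial.coeff_one]
    split_ifs <;> norm_num
  | insert x s hx ih =>
    rw [prod_insert hx]
    exact k3_mul_nonneg (hf x (mem_insert_self x s))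
      (ih (fun i hi => hf i (mem_insert_of_mem hi)))

private theorem k3_prod_mono {ι : Type} (s : Finset ι) (f g : ι → Polynomial ℚ)
    (hf : ∀ i ∈ s, ∀ u, 0 ≤ (f i).coeff u) (hfg : ∀ i ∈ s, ∀ u, (f i).coeff u ≤ (g i).coeff u) :
    ∀ u, (∏ i ∈ s, f i).coeff u ≤ (∏ i ∈ s, g i).coeff u := by
  classical
  induction s using Finset.induction_on with
  | empty =>
    intro u
    rw [prod_empty, prod_empty]
  | insert x s hx ih =>
    intro u
    rw [prod_insert hx, prod_insert hx]
    have h1 := ih (fun i hi => hf i (mem_insert_of_mem hi))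
      (fun i hi => hfg i (mem_insert_of_mem hi))
    have h2 := k3_prod_nonneg s f (fun i hi => hf i (mem_insert_of_mem hi))
    refine (k3_mul_mono (hfg x (mem_insert_self x s)) h2 u).trans ?_
    rw [mul_comm (g x), mul_comm (g x)]
    apply k3_mul_mono h1
    intro v
    exact (hf x (mem_insert_self x s) v).trans (hfg x (mem_insert_self x s) v)

private theorem k3_geo_nonneg (L u : ℕ) : 0 ≤ (geo L).coeff u := by
  rw [k3_geo_coeff]
  split_ifs <;> norm_num

private theorem k3_odd_nonneg (b u : ℕ) :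
    0 ≤ (1 + Polynomial.X ^ b : Polynomial ℚ).coeff u := by
  rw [Polynomial.coeff_add, Polynomial.coeff_one, Polynomial.coeff_X_pow]
  split_ifs <;> norm_num

private theorem k3_wkP_nonneg (n a j u : ℕ) : 0 ≤ (wkP n a j).coeff u := by
  unfold wkP
  split_ifs
  · exact k3_geo_nonneg _ _
  · exact k3_odd_nonneg _ _

/-- TASK K3. By `Blk_cases` and `geo_extend`: pair `e ≥ o`; triple `e + o ≥ o'` as
`2 (n + je) - 1 ≥ n + je + 1`. (Multiply the first inequality by `1 + X ^ o'`, which has nonnegative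
coefficients.) -/
theorem blk_coeff (hk : 4 ≤ k) (h : Even (n * k)) (ha : 1 ≤ a) (hi : i < k / 2) (u : ℕ) :
    (geo (Ln n k a i)).coeff u ≤ (∏ j ∈ Blk n k i, wkP n a j).coeff u := by
  have hev := k3_even n i
  have hwk := k3_wkP_je n a i
  rcases Blk_cases hk h hi with ⟨-, -, hB⟩ | ⟨h2, hB⟩ | ⟨h2, hi1, hjk, hB⟩
  · unfold Ln
    rw [hB, prod_singleton, sum_singleton, hwk]
  · unfold Ln
    rw [hB]
    generalize je n i = J at *
    have hne : J - 1 ≠ J := by omega
    rw [prod_pair hne, sum_pair hne, hwk, k3_wkP_odd n a (j := J - 1) (by omega)]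
    rw [show a * (n + (J - 1)) + a * (n + J) = a * (n + J) + a * (n + (J - 1)) from
      add_comm _ _, show (1 + Polynomial.X ^ (a * (n + (J - 1))) : Polynomial ℚ) *
        geo (a * (n + J)) = geo (a * (n + J)) * (1 + Polynomial.X ^ (a * (n + (J - 1)))) from
        mul_comm _ _]
    exact geo_extend (Nat.mul_le_mul_left a (by omega)) u
  · unfold Ln
    rw [hB]
    generalize je n i = J at *
    have hne1 : J - 1 ∉ ({J, J + 1} : Finset ℕ) := by
      simp only [mem_insert, mem_singleton]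
      omega
    have hne2 : J ≠ J + 1 := by omega
    rw [prod_insert hne1, prod_pair hne2, sum_insert hne1, sum_pair hne2, hwk,
      k3_wkP_odd n a (j := J - 1) (by omega), k3_wkP_odd n a (j := J + 1) (by omega)]
    rw [show a * (n + (J - 1)) + (a * (n + J) + a * (n + (J + 1))) =
      (a * (n + J) + a * (n + (J - 1))) + a * (n + (J + 1)) from by
        rw [← add_assoc, add_comm (a * (n + (J - 1))) (a * (n + J))]]
    have e1 : (1 + Polynomial.X ^ (a * (n + (J - 1))) : Polynomial ℚ) *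
        (geo (a * (n + J)) * (1 + Polynomial.X ^ (a * (n + (J + 1))))) =
        (geo (a * (n + J)) * (1 + Polynomial.X ^ (a * (n + (J - 1))))) *
          (1 + Polynomial.X ^ (a * (n + (J + 1)))) := by ring
    rw [e1]
    have e2 : a * (n + (J + 1)) ≤ a * (n + J) + a * (n + (J - 1)) := by
      rw [← mul_add]
      exact Nat.mul_le_mul_left a (by omega)
    have e3 : a * (n + (J - 1)) ≤ a * (n + J) := Nat.mul_le_mul_left a (by omega)
    exact (geo_extend e2 u).trans
      (k3_mul_mono (fun v => geo_extend e3 v) (k3_odd_nonneg _) u)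

/-- TASK K3. Products of polynomials with nonnegative coefficients, `blk_coeff`, `prod_blocks`. -/
theorem kap1_le_kapP (hk : 4 ≤ k) (h : Even (n * k)) (ha : 1 ≤ a) (u : ℕ) :
    (kap1 n k a).coeff u ≤ (kapP n k a).coeff u := by
  unfold kap1 kapP
  rw [prod_blocks hk]
  apply k3_prod_mono
  · intro i _ v
    exact k3_geo_nonneg _ _
  · intro i hi v
    exact blk_coeff hk h ha (mem_range.1 hi) v

/-- TASK K3. -/
theorem eval_kapP (r : ℚ) : (kapP n k a).eval r = kap n k a r := by
  unfold kapP kap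
  rw [Polynomial.eval_prod]
  apply prod_congr rfl
  intro j _
  unfold wkP wk
  split_ifs
  · unfold geo bv
    rw [Polynomial.eval_finsetSum]
    simp
  · simp

/-- TASK K3. -/
theorem kapP_nonneg (u : ℕ) : 0 ≤ (kapP n k a).coeff u := by
  unfold kapP
  exact k3_prod_nonneg _ _ (fun j _ v => k3_wkP_nonneg n a j v) u

/-! ### END K3 -/

end Pool.Agent.SignedQ.Sm
end

section

/-!
# The choice of `s` exponents divisible by `d`, at most one in every block
-/

set_option autoImplicit false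

namespace Pool.Agent.SignedQ.Sm

open Finset

/-! ### BEGIN L1 -/

private theorem l1_bi_je {n k i : ℕ} (hi : i < k / 2) : bi n k (je n i) = i := by
  unfold bi je
  rw [Nat.min_def]
  split_ifs <;> omega

private theorem l1_bi_lt {n k j j' : ℕ} (hk : 4 ≤ k) (h : n % 2 = 0 ∨ k % 2 = 0)
    (h1 : 1 ≤ j') (h3 : j' + 3 ≤ j) (hj : j ≤ k) : bi n k j' < bi n k j := by
  unfold bi
  rw [Nat.min_def, Nat.min_def]
  split_ifs <;> omega

private theorem l1_le_je {n k j : ℕ} (hk : 4 ≤ k) (h : n % 2 = 0 ∨ k % 2 = 0)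
    (h1 : 1 ≤ j) (hj : j + 3 ≤ k) : j ≤ je n (bi n k j) := by
  unfold bi je
  rw [Nat.min_def]
  split_ifs <;> omega

/-- TASK L1. **Selection.** For `3 ≤ d`, `1 ≤ s`, `s d ≤ k` there are `s` indices `f 0, ..., f (s - 1)`
in `[1, k]`, in different blocks (the block number is strictly decreasing), with `d ∣ a (n + f t)`,
such that `2 a (n + f 0) ≥ a (n + k)` and `f t ≤ je (bi (f t))` for `t ≥ 1`.

PROOF. Let `g = d / gcd d a`; `d ∣ a * x ↔ g ∣ x` (`Nat.Coprime.dvd_of_dvd_mul_left` ...). `g ≥ 1`.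
Case `g ≤ 2`: `f t = je n (k / 2 - 1 - t)`; `n + f t` is even, so divisible by `g`; its block is
`k / 2 - 1 - t` (`s ≤ k / 3 ≤ k / 2`). Case `g ≥ 3` (`g ≤ d`): `J = k - (n + k) % g`,
`f t = J - t g`; `n + J` is divisible by `g`, `J ≥ k - g + 1`, `J - (s - 1) g ≥ k - s g + 1 ≥ 1`,
`n + J ≥ g` (as `n + J > 0`), `n + k < n + J + g ≤ 2 (n + J)`. Consecutive values differ by
`g ≥ 3`, and `bi n k (j + 3) > bi n k j` if `j + 3 ≤ k` (cases `n` even/odd, `omega`); for
`t ≥ 1`, `f t ≤ k - 3`, so its block is not the last one or `f t ≤ je`. -/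
theorem exists_sel {n k a d s : ℕ} (hk : 4 ≤ k) (h : Even (n * k)) (ha : 1 ≤ a) (hd : 3 ≤ d)
    (hs : 1 ≤ s) (hsd : s * d ≤ k) :
    ∃ f : ℕ → ℕ, (∀ t < s, 1 ≤ f t ∧ f t ≤ k ∧ d ∣ a * (n + f t)) ∧
      (∀ t t', t < t' → t' < s → bi n k (f t') < bi n k (f t)) ∧
      a * (n + k) ≤ 2 * (a * (n + f 0)) ∧
      ∀ t, 1 ≤ t → t < s → f t ≤ je n (bi n k (f t)) := by
  have hpar : n % 2 = 0 ∨ k % 2 = 0 := by
    rw [Nat.even_mul, Nat.even_iff, Nat.even_iff] at h
    exact h
  have hs3 : 3 * s ≤ k := by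
    have : s * 3 ≤ s * d := Nat.mul_le_mul_left s hd
    omega
  obtain ⟨g, hg1, hgd, hdvd⟩ : ∃ g, 1 ≤ g ∧ g ≤ d ∧ ∀ x, g ∣ x → d ∣ a * x := by
    refine ⟨d / Nat.gcd d a, ?_, Nat.div_le_self _ _, ?_⟩
    · exact Nat.div_pos (Nat.le_of_dvd (by omega) (Nat.gcd_dvd_left d a))
        (Nat.gcd_pos_of_pos_left a (by omega))
    · intro x hx
      have h1 : Nat.gcd d a * (d / Nat.gcd d a) = d := Nat.mul_div_cancel' (Nat.gcd_dvd_left d a)
      have h2 := Nat.mul_dvd_mul (Nat.gcd_dvd_right d a) hx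
      rwa [h1] at h2
  rcases Nat.lt_or_ge g 3 with hg | hg
  · refine ⟨fun t => je n (k / 2 - 1 - t), ?_, ?_, ?_, ?_⟩
    · intro t ht
      refine ⟨je_pos _ _, je_le hk h (by omega), hdvd _ ?_⟩
      have hev := even_je n (k / 2 - 1 - t)
      have : g = 1 ∨ g = 2 := by omega
      rcases this with rfl | rfl
      · exact one_dvd _
      · exact hev.two_dvd
    · intro t t' htt ht'
      simp only
      rw [l1_bi_je (by omega), l1_bi_je (by omega)]
      omega
    · have h1 : n + k ≤ 2 * (n + je n (k / 2 - 1 - 0)) := by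
        unfold je
        omega
      calc a * (n + k) ≤ a * (2 * (n + je n (k / 2 - 1 - 0))) := Nat.mul_le_mul_left a h1
        _ = 2 * (a * (n + je n (k / 2 - 1 - 0))) := by ring
    · intro t _ ht
      simp only
      rw [l1_bi_je (by omega)]
  · have hdk : d ≤ k := by
      have : 1 * d ≤ s * d := Nat.mul_le_mul_right d hs
      omega
    have hmod := Nat.mod_lt (n + k) (show 0 < g by omega)
    have hdm := Nat.div_add_mod (n + k) g
    set q := (n + k) / g with hq
    set m := (n + k) % g with hm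
    have hq1 : 1 ≤ q := (Nat.one_le_div_iff (by omega)).2 (by omega)
    have hnJ : n + (k - m) = g * q := by omega
    have hgq : g ≤ g * q := Nat.le_mul_of_pos_right g hq1
    have hsg : s * g ≤ k := (Nat.mul_le_mul_left s hgd).trans hsd
    have htg : ∀ t < s, t * g + g ≤ s * g := by
      intro t ht
      have : (t + 1) * g ≤ s * g := Nat.mul_le_mul_right g ht
      rw [Nat.add_mul, one_mul] at this
      exact this
    refine ⟨fun t => k - m - t * g, ?_, ?_, ?_, ?_⟩
    · intro t ht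
      have h1 := htg t ht
      refine ⟨by simp only; omega, by simp only; omega, hdvd _ ?_⟩
      have h2 : n + (k - m - t * g) = g * q - g * t := by
        rw [← hnJ, mul_comm g t]
        omega
      simp only
      rw [h2, ← Nat.mul_sub]
      exact dvd_mul_right _ _
    · intro t t' htt ht'
      have h1 := htg t' ht'
      have h2 : t * g + g ≤ t' * g := by
        have : (t + 1) * g ≤ t' * g := Nat.mul_le_mul_right g htt
        rw [Nat.add_mul, one_mul] at this
        exact this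
      exact l1_bi_lt hk hpar (by simp only; omega) (by simp only; omega) (by simp only; omega)
    · have h1 : n + k ≤ 2 * (n + (k - m - 0 * g)) := by
        rw [zero_mul]
        omega
      calc a * (n + k) ≤ a * (2 * (n + (k - m - 0 * g))) := Nat.mul_le_mul_left a h1
        _ = 2 * (a * (n + (k - m - 0 * g))) := by ring
    · intro t ht1 ht
      have h1 := htg t ht
      have h2 : g ≤ t * g := Nat.le_mul_of_pos_left g ht1
      exact l1_le_je hk hpar (by simp only; omega) (by simp only; omega)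

/-! ### END L1 -/

/-! ### BEGIN L2 -/

/-- TASK L2. A product over a subset `X` of `range K` of an antitone nonnegative function is at most
the product over the first elements. Induction on `X.card`: the maximum `m` of `X` is `≥ card - 1`,
`ψ m ≤ ψ (card - 1)`, remove `m`. -/
theorem prod_le_prod_first (ψ : ℕ → ℚ) (hψ : ∀ i, 0 ≤ ψ i) (hanti : ∀ i j, i ≤ j → ψ j ≤ ψ i)
    (X : Finset ℕ) : ∏ i ∈ X, ψ i ≤ ∏ i ∈ range X.card, ψ i := by
  induction X using Finset.induction_on_max with
  | empty => simp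
  | insert m s hm ih =>
    have hms : m ∉ s := fun h => lt_irrefl m (hm m h)
    have hcard : s.card ≤ m := by
      have : s ⊆ range m := fun x hx => mem_range.2 (hm x hx)
      simpa using card_le_card this
    rw [prod_insert hms, card_insert_of_notMem hms, prod_range_succ, mul_comm]
    exact mul_le_mul ih (hanti _ _ hcard) (hψ m) (prod_nonneg fun i _ => hψ i)

private theorem l2_mem_Blk {n k j i : ℕ} (h1 : 1 ≤ j) (hj : j ≤ k) (hi : bi n k j = i) :
    j ∈ Blk n k i := by
  unfold Blk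
  exact mem_filter.2 ⟨mem_Icc.2 ⟨h1, hj⟩, hi⟩

private theorem l2_bi_of_mem {n k j i : ℕ} (h : j ∈ Blk n k i) : bi n k j = i := by
  unfold Blk at h
  exact (mem_filter.1 h).2

private theorem l2_one_le_of_mem {n k j i : ℕ} (h : j ∈ Blk n k i) : 1 ≤ j := by
  unfold Blk at h
  exact (mem_Icc.1 (mem_filter.1 h).1).1

private theorem l2_bi_lt {n k : ℕ} (hk : 4 ≤ k) (j : ℕ) : bi n k j < k / 2 := by
  unfold bi
  have := min_le_left (k / 2 - 1) ((j + n % 2 - 1) / 2)
  omega

/-- TASK L2. **Values of the majorant of a pole of order `s` at the primitive `d`-th roots of unity.**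
The weights are: `1` for `j = f 0`, `bv (b_j) / bv d` for `j = f t`, `1 ≤ t < s`, and `1 + r ^ b_j`
for all other `j`.

PROOF. `prod_blocks` on both sides. For a block `i` let `fac i = 2 (1 - r + 1 / b_{f 0})` if
`i = bi (f 0)`, `1 / bv r d` if `i = bi (f t)` for some `1 ≤ t < s`, and `1 - r + 2 / b_{je i}`
otherwise. In every block there is at most one `f t` (the block numbers are different), so by
`blk_JS`, `blk_J`, `blk_crude` the product over the block is `≤ fac i * ∏ wk`. Multiply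
(`prod_le_prod`). The product of the `fac i` is `2 (1 - r + 1 / b_{f 0}) * (1 / bv r d) ^ (s - 1)`
times the product over the `k / 2 - s` other blocks of `1 - r + 2 / b_{je i}`, which is
`≤ 1 - r + (k + 1) / ((i + 1) E)` by `je_lower` (`E = a (n + k)`), and `prod_le_prod_first`. Finally
`1 / b_{f 0} ≤ 2 / E`. -/
theorem val_J {n k a d s : ℕ} {r : ℚ} (hk : 4 ≤ k) (h : Even (n * k)) (ha : 1 ≤ a) (hd : 1 ≤ d)
    (hs : 1 ≤ s) (hr : 0 < r) (hr1 : r ≤ 1) (f : ℕ → ℕ)
    (hf : ∀ t < s, 1 ≤ f t ∧ f t ≤ k)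
    (hblk : ∀ t t', t < t' → t' < s → bi n k (f t') < bi n k (f t))
    (htop : a * (n + k) ≤ 2 * (a * (n + f 0)))
    (hje : ∀ t, 1 ≤ t → t < s → f t ≤ je n (bi n k (f t))) :
    ∏ j ∈ Icc 1 k, (if j = f 0 then 1 else
        if j ∈ (Ico 1 s).image f then bv r (a * (n + j)) / bv r d
        else 1 + r ^ (a * (n + j))) ≤
      2 * (1 - r + 2 / ((a * (n + k) : ℕ) : ℚ)) * (1 / bv r d) ^ (s - 1) *
        (∏ i ∈ range (k / 2 - s), (1 - r + ((k : ℚ) + 1) / (((i : ℚ) + 1) * (a * (n + k) : ℕ)))) *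
        kap n k a r := by
  classical
  have hinj : ∀ t < s, ∀ t' < s, bi n k (f t) = bi n k (f t') → t = t' := by
    intro t ht t' ht' he
    rcases lt_trichotomy t t' with hlt | heq | hgt
    · have := hblk t t' hlt ht'
      omega
    · exact heq
    · have := hblk t' t hgt ht
      omega
  have hbvd : 0 < bv r d := bv_pos hr hd
  have hE : 0 < a * (n + k) := Nat.mul_pos ha (by omega)
  have hE' : (0 : ℚ) < ((a * (n + k) : ℕ) : ℚ) := by exact_mod_cast hE
  have hf0 : 0 < a * (n + f 0) := Nat.mul_pos ha (by have := (hf 0 (by omega)).1; omega)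
  have hf0' : (0 : ℚ) < ((a * (n + f 0) : ℕ) : ℚ) := by exact_mod_cast hf0
  set I : Finset ℕ := (range s).image (fun t => bi n k (f t)) with hI
  set F0 : ℚ := 2 * (1 - r + 1 / ((a * (n + f 0) : ℕ) : ℚ)) with hF0
  set W : ℕ → ℚ := fun j => if j = f 0 then 1 else
        if j ∈ (Ico 1 s).image f then bv r (a * (n + j)) / bv r d
        else 1 + r ^ (a * (n + j)) with hW
  set ph : ℕ → ℚ := fun i => 1 - r + 2 / ((a * (n + je n i) : ℕ) : ℚ) with hph
  set fac : ℕ → ℚ := fun i => if i = bi n k (f 0) then F0 else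
        if i ∈ I then 1 / bv r d else ph i with hfac
  set ψ : ℕ → ℚ := fun i => 1 - r + ((k : ℚ) + 1) / (((i : ℚ) + 1) * (a * (n + k) : ℕ)) with hψ
  have hwkpos : ∀ i, 0 ≤ ∏ j ∈ Blk n k i, wk n a r j := fun i =>
    prod_nonneg fun j hj => (wk_pos ha hr (l2_one_le_of_mem hj)).le
  have hF0nn : 0 ≤ F0 := by
    have : 0 ≤ 1 / ((a * (n + f 0) : ℕ) : ℚ) := by positivity
    rw [hF0]
    linarith
  have hphnn : ∀ i, 0 ≤ ph i := by
    intro i
    have : 0 ≤ 2 / ((a * (n + je n i) : ℕ) : ℚ) := by positivity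
    simp only [hph]
    linarith
  have hWnn : ∀ j, 0 ≤ W j := by
    intro j
    simp only [hW]
    split_ifs
    · norm_num
    · exact div_nonneg (bv_nonneg hr.le _) hbvd.le
    · positivity
  -- one block
  have hblock : ∀ i ∈ range (k / 2), ∏ j ∈ Blk n k i, W j ≤
      fac i * ∏ j ∈ Blk n k i, wk n a r j := by
    intro i hi
    rw [mem_range] at hi
    by_cases h0 : i = bi n k (f 0)
    · have e1 : ∏ j ∈ Blk n k i, W j =
          ∏ j ∈ Blk n k i, (if j = f 0 then 1 else 1 + r ^ (a * (n + j))) := by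
        apply prod_congr rfl
        intro j hj
        simp only [hW]
        by_cases hj0 : j = f 0
        · rw [if_pos hj0, if_pos hj0]
        · rw [if_neg hj0, if_neg hj0, if_neg]
          intro hmem
          rw [mem_image] at hmem
          obtain ⟨t, ht, htj⟩ := hmem
          rw [mem_Ico] at ht
          have h1 : bi n k (f t) = bi n k (f 0) := by
            rw [htj, l2_bi_of_mem hj, h0]
          have := hinj t ht.2 0 (by omega) h1
          omega
      rw [e1]
      simp only [hfac]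
      rw [if_pos h0]
      exact blk_JS hk h ha hi hr hr1 (l2_mem_Blk (hf 0 (by omega)).1 (hf 0 (by omega)).2 h0.symm)
    · by_cases hiI : i ∈ I
      · obtain ⟨t, ht, hti⟩ : ∃ t, t < s ∧ bi n k (f t) = i := by
          rw [hI, mem_image] at hiI
          obtain ⟨t, ht, hti⟩ := hiI
          exact ⟨t, mem_range.1 ht, hti⟩
        have ht1 : 1 ≤ t := by
          rcases Nat.eq_zero_or_pos t with h00 | hpos
          · rw [h00] at hti
            exact absurd hti.symm h0
          · exact hpos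
        have e1 : ∏ j ∈ Blk n k i, W j =
            ∏ j ∈ Blk n k i, (if j = f t then bv r (a * (n + j)) / bv r d
              else 1 + r ^ (a * (n + j))) := by
          apply prod_congr rfl
          intro j hj
          simp only [hW]
          have hj0 : j ≠ f 0 := by
            intro hj0
            apply h0
            rw [← hj0, l2_bi_of_mem hj]
          rw [if_neg hj0]
          by_cases hjt : j = f t
          · rw [if_pos hjt, if_pos]
            rw [hjt]
            exact mem_image_of_mem f (mem_Ico.2 ⟨ht1, ht⟩)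
          · rw [if_neg hjt, if_neg]
            intro hmem
            rw [mem_image] at hmem
            obtain ⟨t', ht', htj'⟩ := hmem
            rw [mem_Ico] at ht'
            have h1 : bi n k (f t') = bi n k (f t) := by
              rw [htj', l2_bi_of_mem hj, hti]
            have := hinj t' ht'.2 t ht h1
            rw [this] at htj'
            exact hjt htj'.symm
        rw [e1]
        simp only [hfac]
        rw [if_neg h0, if_pos hiI]
        have h2 := hje t ht1 ht
        rw [hti] at h2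
        exact blk_J hk h ha hi hr hr1 hd (l2_mem_Blk (hf t ht).1 (hf t ht).2 hti) h2
      · have e1 : ∏ j ∈ Blk n k i, W j = ∏ j ∈ Blk n k i, (1 + r ^ (a * (n + j))) := by
          apply prod_congr rfl
          intro j hj
          simp only [hW]
          have hj0 : j ≠ f 0 := by
            intro hj0
            apply h0
            rw [← hj0, l2_bi_of_mem hj]
          rw [if_neg hj0, if_neg]
          intro hmem
          rw [mem_image] at hmem
          obtain ⟨t', ht', htj'⟩ := hmem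
          rw [mem_Ico] at ht'
          apply hiI
          rw [hI, mem_image]
          exact ⟨t', mem_range.2 ht'.2, by rw [htj', l2_bi_of_mem hj]⟩
        rw [e1]
        simp only [hfac]
        rw [if_neg h0, if_neg hiI]
        exact blk_crude hk h ha hi hr hr1
  -- the product of the factors
  have hIsub : I ⊆ range (k / 2) := by
    intro i hi
    rw [hI, mem_image] at hi
    obtain ⟨t, -, hti⟩ := hi
    rw [← hti]
    exact mem_range.2 (l2_bi_lt hk _)
  have hIcard : I.card = s := by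
    rw [hI, card_image_of_injOn, card_range]
    intro t ht t' ht' he
    exact hinj t (mem_range.1 ht) t' (mem_range.1 ht') he
  have hprodI : ∏ i ∈ I, fac i = F0 * (1 / bv r d) ^ (s - 1) := by
    rw [hI, prod_image (fun t ht t' ht' he =>
      hinj t (mem_range.1 ht) t' (mem_range.1 ht') he)]
    obtain ⟨s', rfl⟩ : ∃ s', s = s' + 1 := ⟨s - 1, by omega⟩
    rw [prod_range_succ']
    have e1 : ∏ t ∈ range s', fac (bi n k (f (t + 1))) = (1 / bv r d) ^ s' := by
      have e2 : ∀ t ∈ range s', fac (bi n k (f (t + 1))) = 1 / bv r d := by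
        intro t ht
        rw [mem_range] at ht
        simp only [hfac]
        rw [if_neg, if_pos]
        · rw [hI]
          exact mem_image_of_mem (fun t => bi n k (f t)) (mem_range.2 (by omega))
        · intro he
          have := hinj (t + 1) (by omega) 0 (by omega) he
          omega
      rw [prod_congr rfl e2, prod_const, card_range]
    have e4 : fac (bi n k (f 0)) = F0 := if_pos rfl
    rw [e1, e4, Nat.add_sub_cancel, mul_comm]
  have hprodX : ∏ i ∈ range (k / 2) \ I, fac i ≤ ∏ i ∈ range (k / 2 - s), ψ i := by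
    have e1 : ∏ i ∈ range (k / 2) \ I, fac i = ∏ i ∈ range (k / 2) \ I, ph i := by
      apply prod_congr rfl
      intro i hi
      rw [mem_sdiff] at hi
      simp only [hfac]
      rw [if_neg, if_neg hi.2]
      intro he
      apply hi.2
      rw [hI, mem_image]
      exact ⟨0, mem_range.2 (by omega), he.symm⟩
    rw [e1]
    have e2 : ∏ i ∈ range (k / 2) \ I, ph i ≤ ∏ i ∈ range (k / 2) \ I, ψ i := by
      apply prod_le_prod
      · intro i _
        exact hphnn i
      · intro i hi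
        rw [mem_sdiff, mem_range] at hi
        have h1 := je_lower hk h hi.1
        have h2 : 0 < a * (n + je n i) := Nat.mul_pos ha (by have := je_pos n i; omega)
        have h2' : (0 : ℚ) < ((a * (n + je n i) : ℕ) : ℚ) := by exact_mod_cast h2
        simp only [hph, hψ]
        have h3 : 2 / ((a * (n + je n i) : ℕ) : ℚ) ≤
            ((k : ℚ) + 1) / (((i : ℚ) + 1) * (a * (n + k) : ℕ)) := by
          rw [div_le_div_iff₀ h2' (by positivity)]
          have h4 : 2 * ((i + 1) * (a * (n + k))) ≤ (k + 1) * (a * (n + je n i)) := by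
            calc 2 * ((i + 1) * (a * (n + k))) = a * (2 * (i + 1) * (n + k)) := by ring
              _ ≤ a * ((k + 1) * (n + je n i)) := Nat.mul_le_mul_left a h1
              _ = (k + 1) * (a * (n + je n i)) := by ring
          exact_mod_cast h4
        linarith
    refine e2.trans ?_
    have e3 : (range (k / 2) \ I).card = k / 2 - s := by
      rw [card_sdiff_of_subset hIsub, card_range, hIcard]
    rw [← e3]
    apply prod_le_prod_first
    · intro i
      have : 0 ≤ ((k : ℚ) + 1) / (((i : ℚ) + 1) * (a * (n + k) : ℕ)) := by positivity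
      simp only [hψ]
      linarith
    · intro i j hij
      simp only [hψ]
      have : ((k : ℚ) + 1) / (((j : ℚ) + 1) * (a * (n + k) : ℕ)) ≤
          ((k : ℚ) + 1) / (((i : ℚ) + 1) * (a * (n + k) : ℕ)) := by
        apply div_le_div_of_nonneg_left (by positivity) (by positivity)
        apply mul_le_mul_of_nonneg_right _ hE'.le
        have : (i : ℚ) ≤ j := by exact_mod_cast hij
        linarith
      linarith
  have hfacnn : ∀ i, 0 ≤ fac i := by
    intro i
    simp only [hfac]
    split_ifs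
    · exact hF0nn
    · positivity
    · exact hphnn i
  have hF0le : F0 ≤ 2 * (1 - r + 2 / ((a * (n + k) : ℕ) : ℚ)) := by
    have : 1 / ((a * (n + f 0) : ℕ) : ℚ) ≤ 2 / ((a * (n + k) : ℕ) : ℚ) := by
      rw [div_le_div_iff₀ hf0' hE', one_mul]
      exact_mod_cast htop
    rw [hF0]
    linarith
  have hψnn : 0 ≤ ∏ i ∈ range (k / 2 - s), ψ i :=
    (prod_nonneg fun i _ => hfacnn i).trans hprodX
  have hkapnn : 0 ≤ kap n k a r := by
    unfold kap
    exact prod_nonneg fun j hj => (wk_pos ha hr (mem_Icc.1 hj).1).le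
  calc ∏ j ∈ Icc 1 k, W j = ∏ i ∈ range (k / 2), ∏ j ∈ Blk n k i, W j := prod_blocks hk W
    _ ≤ ∏ i ∈ range (k / 2), (fac i * ∏ j ∈ Blk n k i, wk n a r j) :=
        prod_le_prod (fun i _ => prod_nonneg fun j _ => hWnn j) hblock
    _ = (∏ i ∈ range (k / 2), fac i) * kap n k a r := by
        rw [prod_mul_distrib]
        unfold kap
        rw [prod_blocks hk]
    _ = ((∏ i ∈ range (k / 2) \ I, fac i) * (∏ i ∈ I, fac i)) * kap n k a r := by
        rw [prod_sdiff hIsub]
    _ ≤ ((∏ i ∈ range (k / 2 - s), ψ i) * (2 * (1 - r + 2 / ((a * (n + k) : ℕ) : ℚ)) *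
          (1 / bv r d) ^ (s - 1))) * kap n k a r := by
        apply mul_le_mul_of_nonneg_right _ hkapnn
        rw [hprodI]
        apply mul_le_mul hprodX _ _ hψnn
        · exact mul_le_mul_of_nonneg_right hF0le (by positivity)
        · exact mul_nonneg hF0nn (by positivity)
    _ = _ := by ring

/-! ### END L2 -/

end Pool.Agent.SignedQ.Sm
end
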