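import Pool.Agent.Lib.MP_cf17a0_co.Mg.G065
import Pool.Agent.Lib.MP_cf17a0_co.Mg.G066
import Pool.Agent.Lib.MP_cf17a0_co.KDR

section

/-!
# The terms of the decomposition, times the numerator
-/

set_option autoImplicit false

namespace Pool.Agent.SignedQ.Sm

open Finset PowerSeries

variable {n k a : ℕ} {r : ℚ}

/-- the series `(1 - u)⁻¹ ^ p` for `u = q` -/
noncomputable def Sq (p : ℕ) : PowerSeries ℚ := ((1 - X : PowerSeries ℚ)⁻¹) ^ p

/-- the series `(1 - x ^ d)⁻¹ ^ p`, `x = -q` -/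
noncomputable def Sx (d p : ℕ) : PowerSeries ℚ := ((1 - (-X : PowerSeries ℚ) ^ d)⁻¹) ^ p

/-! ### BEGIN E1 -/

private theorem e1_const (d : ℕ) (hd : 1 ≤ d) :
    constantCoeff (1 - (-X : PowerSeries ℚ) ^ d) ≠ 0 := by
  have h1 : constantCoeff (1 - (-X : PowerSeries ℚ) ^ d) = 1 := by
    rw [map_sub, map_pow, map_neg, constantCoeff_X, neg_zero, zero_pow (by omega), map_one,
      sub_zero]
  rw [h1]
  exact one_ne_zero

private theorem e1_const' : constantCoeff (1 - (X : PowerSeries ℚ)) ≠ 0 := by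
  have h1 : constantCoeff (1 - (X : PowerSeries ℚ)) = 1 := by
    rw [map_sub, constantCoeff_X, map_one, sub_zero]
  rw [h1]
  exact one_ne_zero

/-- TASK E1. -/
theorem Sq_mul (p : ℕ) : Sq p * (1 - X) ^ p = 1 := by
  unfold Sq
  rw [← mul_pow, PowerSeries.inv_mul_cancel _ e1_const', one_pow]

/-- TASK E1. -/
theorem Sx_mul (d p : ℕ) (hd : 1 ≤ d) : Sx d p * (1 - (-X : PowerSeries ℚ) ^ d) ^ p = 1 := by
  unfold Sx
  rw [← mul_pow, PowerSeries.inv_mul_cancel _ (e1_const d hd), one_pow]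

private theorem e1_je_mem (hk : 4 ≤ k) (h : Even (n * k)) {i : ℕ} (hi : i < k / 2) :
    je n i ∈ Blk n k i := by
  rcases Blk_cases hk h hi with ⟨-, -, hB⟩ | ⟨-, hB⟩ | ⟨-, -, -, hB⟩ <;> rw [hB] <;> simp

private theorem e1_odd (hk : 4 ≤ k) (h : Even (n * k)) {i : ℕ} (hi : i < k / 2) {j : ℕ}
    (hj : j ∈ (Blk n k i).erase (je n i)) : Odd (n + j) := by
  have hev := Nat.even_iff.1 (even_je n i)
  rw [mem_erase] at hj
  obtain ⟨hne, hj⟩ := hj
  rw [Nat.odd_iff]
  rcases Blk_cases hk h hi with ⟨-, -, hB⟩ | ⟨h2, hB⟩ | ⟨h2, -, -, hB⟩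
  · rw [hB, mem_singleton] at hj
    exact absurd hj hne
  · rw [hB, mem_insert, mem_singleton] at hj
    omega
  · rw [hB, mem_insert, mem_insert, mem_singleton] at hj
    omega

private theorem e1_split {M : Type} [CommMonoid M] (hk : 4 ≤ k) (h : Even (n * k)) (F : ℕ → M) :
    ∏ j ∈ Icc 1 k, F j =
      ∏ i ∈ range (k / 2), (F (je n i) * ∏ j ∈ (Blk n k i).erase (je n i), F j) := by
  rw [prod_blocks (n := n) hk F]
  apply prod_congr rfl
  intro i hi
  rw [mul_prod_erase _ _ (e1_je_mem hk h (mem_range.1 hi))]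

/-- TASK E1. `prod_blocks`, in every block the factor of `je` is separated: for `i < k / 2` the
exponent `b = a (n + je n i)` is even, `1 - x ^ b = 1 - q ^ b`; the other exponents are odd. -/
theorem Pr_split (hk : 4 ≤ k) (h : Even (n * k)) (ha : Odd a) :
    Pr n k a = ∏ i ∈ range (k / 2), ((1 - (X : PowerSeries ℚ) ^ (a * (n + je n i))) *
      ∏ j ∈ (Blk n k i).erase (je n i), (1 + (X : PowerSeries ℚ) ^ (a * (n + j)))) := by
  unfold Pr
  rw [e1_split hk h]
  apply prod_congr rfl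
  intro i hi
  rw [mem_range] at hi
  rw [((even_je n i).mul_left a).neg_pow]
  congr 1
  apply prod_congr rfl
  intro j hj
  rw [(ha.mul (e1_odd hk h hi hj)).neg_pow, sub_neg_eq_add]

private theorem e1_coe_prod {ι : Type} (s : Finset ι) (f : ι → Polynomial ℚ) :
    ((∏ i ∈ s, f i : Polynomial ℚ) : PowerSeries ℚ) = ∏ i ∈ s, (f i : PowerSeries ℚ) := by
  classical
  induction s using Finset.induction_on with
  | empty => simp
  | insert x s hx ih => rw [prod_insert hx, prod_insert hx, Polynomial.coe_mul, ih]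

private theorem e1_coe_geo (L : ℕ) :
    ((geo L : Polynomial ℚ) : PowerSeries ℚ) = ∑ i ∈ range L, X ^ i := by
  unfold geo
  induction L with
  | zero => simp
  | succ L ih => rw [sum_range_succ, sum_range_succ, Polynomial.coe_add, ih, Polynomial.coe_pow,
      Polynomial.coe_X]

private theorem e1_wkP_je (n a i : ℕ) : wkP n a (je n i) = geo (a * (n + je n i)) := by
  unfold wkP
  rw [if_pos (even_je n i)]

private theorem e1_wkP_odd (n a : ℕ) {j : ℕ} (hj : Odd (n + j)) :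
    wkP n a j = 1 + Polynomial.X ^ (a * (n + j)) := by
  unfold wkP
  rw [if_neg (Nat.not_even_iff_odd.2 hj)]

/-- TASK E1. The pole of order `k / 2` at `q = 1`: exactly `κ`. From `Pr_split`,
`1 - q ^ b = (1 - q) * ∑_{t < b} q ^ t`. -/
theorem Sq_Pr (hk : 4 ≤ k) (h : Even (n * k)) (ha : Odd a) :
    Sq (k / 2) * Pr n k a = ((kapP n k a : Polynomial ℚ) : PowerSeries ℚ) := by
  have h1 : Pr n k a = (1 - X) ^ (k / 2) * ((kapP n k a : Polynomial ℚ) : PowerSeries ℚ) := by
    have h2 : ((1 - X : PowerSeries ℚ)) ^ (k / 2) = ∏ _i ∈ range (k / 2), (1 - X) := by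
      rw [prod_const, card_range]
    rw [Pr_split hk h ha, h2]
    unfold kapP
    rw [e1_split hk h, e1_coe_prod, ← prod_mul_distrib]
    apply prod_congr rfl
    intro i hi
    rw [mem_range] at hi
    rw [Polynomial.coe_mul, e1_wkP_je, e1_coe_geo, ← mul_assoc, mul_neg_geom_sum, e1_coe_prod]
    congr 1
    apply prod_congr rfl
    intro j hj
    rw [e1_wkP_odd n a (e1_odd hk h hi hj), Polynomial.coe_add, Polynomial.coe_one,
      Polynomial.coe_pow, Polynomial.coe_X]
  rw [h1, ← mul_assoc, Sq_mul, one_mul]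

/-- TASK E1. The pole of order `k / 2` at `x = 1`: majorized by `κ`.
`1 - x ^ b = (1 - x) * ∑_{t < b} x ^ t` for `b` even. -/
theorem Maj_Sx_Pr (hk : 4 ≤ k) (h : Even (n * k)) (ha : Odd a) :
    Maj (Sx 1 (k / 2) * Pr n k a) (kapP n k a) := by
  have h1 : Pr n k a = (1 - (-X) ^ 1) ^ (k / 2) * ∏ i ∈ range (k / 2),
      ((∑ t ∈ range (a * (n + je n i)), ((-X : PowerSeries ℚ) ^ 1) ^ t) *
        ∏ j ∈ (Blk n k i).erase (je n i), (1 - (-X : PowerSeries ℚ) ^ (a * (n + j)))) := by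
    have h2 : ((1 - (-X) ^ 1 : PowerSeries ℚ)) ^ (k / 2) =
        ∏ _i ∈ range (k / 2), (1 - (-X) ^ 1) := by
      rw [prod_const, card_range]
    unfold Pr
    rw [e1_split hk h, h2, ← prod_mul_distrib]
    apply prod_congr rfl
    intro i _
    rw [← mul_assoc, mul_neg_geom_sum, pow_one]
  have h3 : Sx 1 (k / 2) * Pr n k a = ∏ i ∈ range (k / 2),
      ((∑ t ∈ range (a * (n + je n i)), ((-X : PowerSeries ℚ) ^ 1) ^ t) *
        ∏ j ∈ (Blk n k i).erase (je n i), (1 - (-X : PowerSeries ℚ) ^ (a * (n + j)))) := by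
    rw [h1, ← mul_assoc, Sx_mul 1 _ le_rfl, one_mul]
  rw [h3]
  unfold kapP
  rw [e1_split hk h]
  apply Maj.prod
  intro i hi
  rw [mem_range] at hi
  apply Maj.mul
  · rw [e1_wkP_je]
    have h4 := Maj.geo 1 (a * (n + je n i))
    unfold geo
    simpa only [pow_one] using h4
  · apply Maj.prod
    intro j hj
    rw [e1_wkP_odd n a (e1_odd hk h hi hj)]
    exact Maj.factor _

/-! ### END E1 -/

/-! ### BEGIN E2 -/

/-- the product of the factors of the D²-terms: the top `2 i` blocks are crude, in the block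
`k / 2 - 2 i - 1` the box is replaced by `1`. -/
def TD (n k a : ℕ) (r : ℚ) (i : ℕ) : ℚ :=
  (1 - r + 1 / ((a * (n + je n (k / 2 - 2 * i - 1)) : ℕ) : ℚ)) *
    ∏ p ∈ Ico (k / 2 - 2 * i) (k / 2), (1 - r + 2 / ((a * (n + je n p) : ℕ) : ℚ))

theorem e2_mem (hk : 4 ≤ k) (h : Even (n * k)) {i : ℕ} (hi : i < k / 2) : je n i ∈ Blk n k i := by
  rcases Blk_cases hk h hi with ⟨-, -, h1⟩ | ⟨-, h1⟩ | ⟨-, -, -, h1⟩ <;> rw [h1] <;> simp

theorem e2_kap (hk : 4 ≤ k) (r : ℚ) :
    kap n k a r = ∏ i ∈ range (k / 2), ∏ j ∈ Blk n k i, wk n a r j := by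
  unfold kap
  exact prod_blocks hk _

/-- the product over the blocks of factors times `wk` -/
theorem e2_prod (hk : 4 ≤ k) (c V : ℕ → ℚ) (hV : ∀ p < k / 2, 0 ≤ V p)
    (hc : ∀ p < k / 2, V p ≤ c p * ∏ j ∈ Blk n k p, wk n a r j) :
    ∏ p ∈ range (k / 2), V p ≤ (∏ p ∈ range (k / 2), c p) * kap n k a r := by
  rw [e2_kap hk, ← prod_mul_distrib]
  exact prod_le_prod (fun p hp => hV p (mem_range.mp hp)) (fun p hp => hc p (mem_range.mp hp))

/-- the majorant of the odd factors of a block -/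
noncomputable def e2_OB (n k a p : ℕ) : Polynomial ℚ :=
  ∏ j ∈ (Blk n k p).erase (je n p), (1 + Polynomial.X ^ (a * (n + j)))

theorem e2_maj_one_add (b : ℕ) : Maj (1 + (X : PowerSeries ℚ) ^ b) (1 + Polynomial.X ^ b) :=
  Maj.one.add (Maj.X.pow b)

theorem e2_maj_one_sub (b : ℕ) : Maj (1 - (X : PowerSeries ℚ) ^ b) (1 + Polynomial.X ^ b) := by
  rw [sub_eq_add_neg]
  exact Maj.one.add (Maj.X.pow b).neg

theorem e2_maj_OB (n k a p : ℕ) :
    Maj (∏ j ∈ (Blk n k p).erase (je n p), (1 + (X : PowerSeries ℚ) ^ (a * (n + j))))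
      (e2_OB n k a p) :=
  Maj.prod _ _ _ (fun j _ => e2_maj_one_add _)

theorem e2_eval_OB (r : ℚ) (n k a p : ℕ) :
    (e2_OB n k a p).eval r = ∏ j ∈ (Blk n k p).erase (je n p), (1 + r ^ (a * (n + j))) := by
  unfold e2_OB
  rw [Polynomial.eval_prod]
  exact prod_congr rfl (fun j _ => by simp)

theorem e2_eval_geo (r : ℚ) (L : ℕ) : (geo L).eval r = bv r L := by
  unfold geo bv
  rw [Polynomial.eval_finsetSum]
  exact sum_congr rfl (fun _ _ => by simp)

theorem e2_split (hk : 4 ≤ k) (h : Even (n * k)) {i : ℕ} (hi : i < k / 2) (x : ℚ) (r : ℚ)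
    (G : ℕ → ℚ) (hG : G (je n i) = x) :
    x * ∏ j ∈ (Blk n k i).erase (je n i), (1 + r ^ (a * (n + j))) =
      ∏ j ∈ Blk n k i, (if j = je n i then G j else 1 + r ^ (a * (n + j))) := by
  rw [← mul_prod_erase _ _ (e2_mem hk h hi), if_pos rfl, hG]
  congr 1
  exact prod_congr rfl (fun j hj => by rw [if_neg (mem_erase.mp hj).1])

/-- the common part of `bound_Sq` and `bound_Sx` -/
theorem e2_core (hk : 4 ≤ k) (h : Even (n * k)) (ha : Odd a) (hr : 0 < r) (hr1 : r ≤ 1) {i : ℕ}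
    (hi : 2 * i < k / 2) (u S : PowerSeries ℚ) (hu : ∀ e, Even e → u ^ e = X ^ e)
    (hm : Maj u Polynomial.X) (hA : ∀ L v, |coeff v (∑ i ∈ range L, u ^ i)| ≤ 1)
    (hS : S * (1 - u) ^ (k / 2 - 2 * i) = 1) (y : ℕ) :
    |coeff y (S * Pr n k a)| * r ^ y ≤ TD n k a r i * kap n k a r := by
  have ha1 : 1 ≤ a := ha.pos
  obtain ⟨K'', hK''⟩ : ∃ K'', k / 2 - 2 * i = K'' + 1 := ⟨k / 2 - 2 * i - 1, by omega⟩
  rw [hK''] at hS
  have hle : K'' + 1 ≤ k / 2 := by omega
  set O : ℕ → PowerSeries ℚ := fun p =>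
    ∏ j ∈ (Blk n k p).erase (je n p), (1 + (X : PowerSeries ℚ) ^ (a * (n + j))) with hO
  set Gp : ℕ → PowerSeries ℚ := fun p => ∑ t ∈ range (a * (n + je n p)), u ^ t with hGp
  have hev : ∀ p, Even (a * (n + je n p)) := fun p => (even_je n p).mul_left a
  have hfac : ∀ p, (1 - (X : PowerSeries ℚ) ^ (a * (n + je n p))) * O p =
      (1 - u) * (Gp p * O p) := by
    intro p
    rw [← mul_assoc, hGp]
    simp only
    rw [mul_neg_geom_sum, hu _ (hev p)]
  set f : PowerSeries ℚ := (∏ p ∈ range K'', (Gp p * O p)) * O K'' *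
    ∏ p ∈ Ico (K'' + 1) (k / 2), ((1 - (X : PowerSeries ℚ) ^ (a * (n + je n p))) * O p) with hf
  set B : Polynomial ℚ := (∏ p ∈ range K'', (geo (a * (n + je n p)) * e2_OB n k a p)) *
    e2_OB n k a K'' *
    ∏ p ∈ Ico (K'' + 1) (k / 2), ((1 + Polynomial.X ^ (a * (n + je n p))) * e2_OB n k a p) with hB
  have hSP : S * Pr n k a = Gp K'' * f := by
    rw [Pr_split hk h ha, ← prod_range_mul_prod_Ico _ hle]
    have e1 : ∏ p ∈ range (K'' + 1), ((1 - (X : PowerSeries ℚ) ^ (a * (n + je n p))) * O p) =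
        (1 - u) ^ (K'' + 1) * (Gp K'' * ((∏ p ∈ range K'', (Gp p * O p)) * O K'')) := by
      rw [prod_congr rfl (fun p _ => hfac p), prod_mul_distrib, prod_const, card_range,
        prod_range_succ (fun p => Gp p * O p)]
      ring
    rw [e1, hf]
    linear_combination (Gp K'' * ((∏ p ∈ range K'', (Gp p * O p)) * O K'') *
      ∏ p ∈ Ico (K'' + 1) (k / 2), ((1 - (X : PowerSeries ℚ) ^ (a * (n + je n p))) * O p)) * hS
  have hMG : ∀ p, Maj (Gp p) (geo (a * (n + je n p))) := by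
    intro p
    exact Maj.sum _ _ _ (fun t _ => hm.pow t)
  have hfB : Maj f B := by
    refine ((Maj.prod _ _ _ (fun p _ => (hMG p).mul (e2_maj_OB n k a p))).mul
      (e2_maj_OB n k a K'')).mul (Maj.prod _ _ _ (fun p _ => ?_))
    exact (e2_maj_one_sub _).mul (e2_maj_OB n k a p)
  rw [hSP]
  refine (sup_bound zero_le_one (fun v => hA _ v) hfB hr hr1 y).trans ?_
  rw [one_mul]
  -- the value of `B`
  have hOBn : ∀ p, 0 ≤ ∏ j ∈ (Blk n k p).erase (je n p), (1 + r ^ (a * (n + j))) := by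
    intro p
    exact prod_nonneg (fun j _ => by positivity)
  set V : ℕ → ℚ := fun p => (if p < K'' then bv r (a * (n + je n p)) else
    if p = K'' then 1 else 1 + r ^ (a * (n + je n p))) *
      ∏ j ∈ (Blk n k p).erase (je n p), (1 + r ^ (a * (n + j))) with hV
  set c : ℕ → ℚ := fun p => if p < K'' then 1 else
    if p = K'' then 1 - r + 1 / ((a * (n + je n p) : ℕ) : ℚ) else
      1 - r + 2 / ((a * (n + je n p) : ℕ) : ℚ) with hc
  have e2 : B.eval r = ∏ p ∈ range (k / 2), V p := by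
    rw [hB, Polynomial.eval_mul, Polynomial.eval_mul, Polynomial.eval_prod, Polynomial.eval_prod,
      ← prod_range_mul_prod_Ico V hle, prod_range_succ]
    congr 1
    · congr 1
      · refine prod_congr rfl (fun p hp => ?_)
        rw [Polynomial.eval_mul, e2_eval_geo, e2_eval_OB, hV]
        simp only
        rw [if_pos (mem_range.mp hp)]
      · rw [e2_eval_OB, hV]
        simp only
        rw [if_neg (lt_irrefl _)]
        simp
    · refine prod_congr rfl (fun p hp => ?_)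
      have hp' := (mem_Ico.mp hp).1
      rw [Polynomial.eval_mul, e2_eval_OB, hV]
      simp only
      rw [if_neg (by omega), if_neg (by omega)]
      simp
  have e3 : ∏ p ∈ range (k / 2), c p = TD n k a r i := by
    rw [← prod_range_mul_prod_Ico c hle, prod_range_succ]
    unfold TD
    rw [hK'']
    have e4 : ∏ p ∈ range K'', c p = 1 := by
      refine prod_eq_one (fun p hp => ?_)
      rw [hc]
      simp only
      rw [if_pos (mem_range.mp hp)]
    rw [e4, one_mul, Nat.add_sub_cancel]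
    congr 1
    · rw [hc]
      simp only
      rw [if_neg (lt_irrefl _)]
      simp
    · refine prod_congr rfl (fun p hp => ?_)
      have hp' := (mem_Ico.mp hp).1
      rw [hc]
      simp only
      rw [if_neg (by omega), if_neg (by omega)]
  rw [e2, ← e3]
  refine e2_prod hk c V ?_ ?_
  · intro p hp
    rw [hV]
    simp only
    refine mul_nonneg ?_ (hOBn p)
    split_ifs
    · exact bv_nonneg hr.le _
    · exact zero_le_one
    · positivity
  · intro p hp
    rw [hV, hc]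
    simp only
    by_cases h1 : p < K''
    · rw [if_pos h1, if_pos h1, one_mul, ← blk_self hk h hp]
      exact (e2_split hk h hp _ r (fun j => bv r (a * (n + j))) rfl).le
    · rw [if_neg h1, if_neg h1]
      by_cases h2 : p = K''
      · rw [if_pos h2, if_pos h2]
        refine le_trans (e2_split hk h hp _ r (fun _ => 1) rfl).le ?_
        exact blk_sup hk h ha1 hp hr hr1
      · rw [if_neg h2, if_neg h2]
        refine le_trans (le_of_eq ?_) (blk_crude hk h ha1 hp hr hr1)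
        exact mul_prod_erase _ (fun j => 1 + r ^ (a * (n + j))) (e2_mem hk h hp)

/-- TASK E2. Poles of order `k / 2 - 2 i` at `q = 1`. With `K = k / 2`, `K' = K - 2 i ≥ 1`: by
`Pr_split`, `Sq K' * Pr = A * f`, where `A` is the box (in `q`) of the block `K' - 1` and `f` is the
product of the boxes of the blocks `< K' - 1`, of `1 - q ^ b` for the blocks `≥ K'` and of all
`1 + q ^ o`. `sup_bound` with `s = 1` (`coeff_geo_le`) and the majorant
`B = ∏ (boxes) * ∏ (1 + X ^ b) * ∏ (1 + X ^ o)`, whose value at `r` is, block by block, `≤` the factor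
times `∏ wk` (`blk_self`, `blk_sup`, `blk_crude`). -/
theorem bound_Sq (hk : 4 ≤ k) (h : Even (n * k)) (ha : Odd a) (hr : 0 < r) (hr1 : r ≤ 1) {i : ℕ}
    (hi : 2 * i < k / 2) (y : ℕ) :
    |coeff y (Sq (k / 2 - 2 * i) * Pr n k a)| * r ^ y ≤ TD n k a r i * kap n k a r :=
  e2_core hk h ha hr hr1 hi X _ (fun _ _ => rfl) Maj.X coeff_geo_le (Sq_mul _) y

/-- TASK E2. The same at `x = 1` (`1 - x ^ b = (1 - x) * ∑_{t < b} x ^ t`, `coeff_geo_neg_le`). -/
theorem bound_Sx (hk : 4 ≤ k) (h : Even (n * k)) (ha : Odd a) (hr : 0 < r) (hr1 : r ≤ 1) {i : ℕ}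
    (hi : 2 * i < k / 2) (y : ℕ) :
    |coeff y (Sx 1 (k / 2 - 2 * i) * Pr n k a)| * r ^ y ≤ TD n k a r i * kap n k a r := by
  refine e2_core hk h ha hr hr1 hi (-X) _ (fun e he => he.neg_pow X) Maj.X.neg coeff_geo_neg_le ?_ y
  have := Sx_mul 1 (k / 2 - 2 * i) le_rfl
  rwa [pow_one] at this

/-- TASK E2. The polynomial part: majorant `(∑ |l_i| X ^ i) * ∏ (1 + X ^ b)`; `r ^ i ≤ 1`. The
product of `1 + r ^ b` over every block is bounded by `blk_crude`. -/
theorem bound_L (hk : 4 ≤ k) (h : Even (n * k)) (ha : Odd a) (hr : 0 < r) (hr1 : r ≤ 1) (m : ℕ)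
    (l : ℕ → ℚ) (y : ℕ) :
    |coeff y ((∑ i ∈ range m, PowerSeries.C (l i) * (X : PowerSeries ℚ) ^ i) * Pr n k a)| * r ^ y ≤
      (∑ i ∈ range m, |l i|) *
        (∏ p ∈ range (k / 2), (1 - r + 2 / ((a * (n + je n p) : ℕ) : ℚ))) * kap n k a r := by
  have ha1 : 1 ≤ a := ha.pos
  have h1 : Maj (∑ i ∈ range m, PowerSeries.C (l i) * (X : PowerSeries ℚ) ^ i)
      (∑ i ∈ range m, Polynomial.C |l i| * Polynomial.X ^ i) :=
    Maj.sum _ _ _ (fun i _ => (Maj.C (l i)).mul (Maj.X.pow i))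
  have h2 : Maj (Pr n k a) (∏ j ∈ Icc 1 k, (1 + Polynomial.X ^ (a * (n + j)))) :=
    Maj.prod _ _ _ (fun j _ => Maj.factor _)
  refine (chern (h1.mul h2) hr.le y).trans ?_
  rw [Polynomial.eval_mul, Polynomial.eval_finsetSum, Polynomial.eval_prod, mul_assoc]
  refine mul_le_mul ?_ ?_ ?_ (sum_nonneg (fun i _ => abs_nonneg _))
  · refine sum_le_sum (fun i _ => ?_)
    simp only [Polynomial.eval_mul, Polynomial.eval_C, Polynomial.eval_pow, Polynomial.eval_X]
    exact mul_le_of_le_one_right (abs_nonneg _) (pow_le_one₀ hr.le hr1)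
  · rw [prod_blocks hk]
    refine e2_prod hk _ _ (fun p _ => ?_) (fun p hp => ?_)
    · refine prod_nonneg (fun j _ => ?_)
      simp only [Polynomial.eval_add, Polynomial.eval_one, Polynomial.eval_pow, Polynomial.eval_X]
      positivity
    · simp only [Polynomial.eval_add, Polynomial.eval_one, Polynomial.eval_pow, Polynomial.eval_X]
      exact blk_crude hk h ha1 hp hr hr1
  · refine prod_nonneg (fun j _ => ?_)
    simp only [Polynomial.eval_add, Polynomial.eval_one, Polynomial.eval_pow, Polynomial.eval_X]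
    positivity

/-! ### END E2 -/

/-! ### BEGIN E3 -/

/-- TASK E3. Poles of order `s` at the `d`-th roots of unity, `3 ≤ d`, `1 ≤ s`, `s d ≤ k`. Take `f`
of `exists_sel`; the values `f t` (`t < s`) are different. `Pr` is the product of
`1 - x ^ b = (1 - x ^ d) * ∑_{i < b / d} (x ^ d) ^ i` over `b = b_{f t}`, `t < s`, and of `1 - x ^ b`
over the other `j`; so `(∑ N_i x ^ i) * Sx d s * Pr = (N * box_{f 0}) * (the rest)`; `sup_bound` with
`coeff_N_geo_le`, and the rest is majorized by the product of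
`∑_{i < b / d} (X ^ d) ^ i` (`t ≥ 1`) and `1 + X ^ b`. Its value at `r` is the left side of `val_J`
(`bv_mul_geom`: `bv r b = bv r d * ∑_{i < b / d} (r ^ d) ^ i`). -/
theorem bound_Sd (hk : 4 ≤ k) (h : Even (n * k)) (ha : Odd a) (hr : 0 < r) (hr1 : r ≤ 1)
    {d s : ℕ} (hd : 3 ≤ d) (hs : 1 ≤ s) (hsd : s * d ≤ k) (N : ℕ → ℚ) (c : ℚ) (hc : 0 ≤ c)
    (hN : ∀ i < d, |N i| ≤ c) (y : ℕ) :
    |coeff y ((∑ i ∈ range d, PowerSeries.C (N i) * (-X : PowerSeries ℚ) ^ i) * Sx d s *
        Pr n k a)| * r ^ y ≤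
      c * (2 * (1 - r + 2 / ((a * (n + k) : ℕ) : ℚ)) * (1 / bv r d) ^ (s - 1) *
        (∏ i ∈ range (k / 2 - s), (1 - r + ((k : ℚ) + 1) / (((i : ℚ) + 1) * (a * (n + k) : ℕ)))) *
        kap n k a r) := by
  classical
  have hd1 : 1 ≤ d := by omega
  obtain ⟨f, hf1, hf2, hf3, hf4⟩ := exists_sel hk h ha.pos hd hs hsd
  have hinj : ∀ t < s, ∀ t' < s, f t = f t' → t = t' := by
    intro t ht t' ht' e
    rcases lt_trichotomy t t' with h1 | h1 | h1
    · have := hf2 t t' h1 ht'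
      rw [e] at this
      exact absurd this (lt_irrefl _)
    · exact h1
    · have := hf2 t' t h1 ht
      rw [e] at this
      exact absurd this (lt_irrefl _)
  obtain ⟨I, hI⟩ : ∃ I : Finset ℕ, I = (Ico 1 s).image f := ⟨_, rfl⟩
  have hf0 : f 0 ∉ I := by
    rw [hI, Finset.mem_image]
    rintro ⟨t, ht, e⟩
    rw [Finset.mem_Ico] at ht
    have := hinj t ht.2 0 (by omega) e
    omega
  have hmem : ∀ j, j ∈ (range s).image f ↔ j = f 0 ∨ j ∈ I := by
    intro j
    rw [hI, Finset.mem_image, Finset.mem_image]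
    constructor
    · rintro ⟨t, ht, e⟩
      rw [Finset.mem_range] at ht
      rcases Nat.eq_zero_or_pos t with h1 | h1
      · subst h1
        exact Or.inl e.symm
      · exact Or.inr ⟨t, Finset.mem_Ico.2 ⟨h1, ht⟩, e⟩
    · rintro (e | ⟨t, ht, e⟩)
      · exact ⟨0, Finset.mem_range.2 (by omega), e.symm⟩
      · rw [Finset.mem_Ico] at ht
        exact ⟨t, Finset.mem_range.2 ht.2, e⟩
  have hdvd : ∀ j, j ∈ (range s).image f → d ∣ a * (n + j) := by
    intro j hj
    obtain ⟨t, ht, e⟩ := Finset.mem_image.1 hj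
    rw [← e]
    exact (hf1 t (Finset.mem_range.1 ht)).2.2
  have hsub : (range s).image f ⊆ Icc 1 k := by
    intro j hj
    obtain ⟨t, ht, e⟩ := Finset.mem_image.1 hj
    rw [← e, Finset.mem_Icc]
    exact ⟨(hf1 t (Finset.mem_range.1 ht)).1, (hf1 t (Finset.mem_range.1 ht)).2.1⟩
  have hcard : ((range s).image f).card = s := by
    rw [Finset.card_image_of_injOn, Finset.card_range]
    intro t ht t' ht' e
    rw [Finset.mem_coe, Finset.mem_range] at ht ht'
    exact hinj t ht t' ht' e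
  -- boxes
  obtain ⟨box, hbox⟩ : ∃ box : ℕ → PowerSeries ℚ,
      box = fun j => ∑ i ∈ range (a * (n + j) / d), ((-X : PowerSeries ℚ) ^ d) ^ i := ⟨_, rfl⟩
  have hfac : ∀ j, j ∈ (range s).image f →
      (1 - (-X : PowerSeries ℚ) ^ (a * (n + j))) = box j * (1 - (-X : PowerSeries ℚ) ^ d) := by
    intro j hj
    have h1 : (-X : PowerSeries ℚ) ^ (a * (n + j)) =
        ((-X : PowerSeries ℚ) ^ d) ^ (a * (n + j) / d) := by
      rw [← pow_mul, Nat.mul_div_cancel' (hdvd j hj)]
    have h2 := mul_neg_geom_sum ((-X : PowerSeries ℚ) ^ d) (a * (n + j) / d)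
    rw [h1, hbox, ← h2]
    exact mul_comm _ _
  obtain ⟨g, hg⟩ : ∃ g : ℕ → PowerSeries ℚ, g = fun j => if j = f 0 then 1 else
      if j ∈ I then box j else 1 - (-X : PowerSeries ℚ) ^ (a * (n + j)) := ⟨_, rfl⟩
  have hPr : Pr n k a = (∏ j ∈ Icc 1 k, g j) * (box (f 0) * (1 - (-X : PowerSeries ℚ) ^ d) ^ s) := by
    have h1 : ∀ j ∈ Icc 1 k, (1 - (-X : PowerSeries ℚ) ^ (a * (n + j))) =
        g j * ((if j = f 0 then box (f 0) else 1) *
          (if j ∈ (range s).image f then (1 - (-X : PowerSeries ℚ) ^ d) else 1)) := by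
      intro j _
      rw [hg]
      dsimp only
      by_cases e1 : j = f 0
      · have h2 : j ∈ (range s).image f := (hmem j).2 (Or.inl e1)
        rw [if_pos e1, if_pos e1, if_pos h2, one_mul, ← e1]
        exact hfac j h2
      · by_cases e2 : j ∈ I
        · have h2 : j ∈ (range s).image f := (hmem j).2 (Or.inr e2)
          rw [if_neg e1, if_neg e1, if_pos e2, if_pos h2, one_mul]
          exact hfac j h2
        · have h2 : j ∉ (range s).image f := fun h3 => ((hmem j).1 h3).elim e1 e2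
          rw [if_neg e1, if_neg e1, if_neg e2, if_neg h2, one_mul, mul_one]
    unfold Pr
    rw [Finset.prod_congr rfl h1, Finset.prod_mul_distrib, Finset.prod_mul_distrib,
      Finset.prod_ite_eq', if_pos (hsub ((hmem _).2 (Or.inl rfl))), Finset.prod_ite_mem,
      Finset.inter_eq_right.2 hsub, Finset.prod_const, hcard]
  obtain ⟨A, hA⟩ : ∃ A : PowerSeries ℚ, A = (∑ i ∈ range d, PowerSeries.C (N i) *
      (-X : PowerSeries ℚ) ^ i) * box (f 0) := ⟨_, rfl⟩
  have hexp : (∑ i ∈ range d, PowerSeries.C (N i) * (-X : PowerSeries ℚ) ^ i) * Sx d s *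
      Pr n k a = A * ∏ j ∈ Icc 1 k, g j := by
    rw [hPr, hA]
    calc (∑ i ∈ range d, PowerSeries.C (N i) * (-X : PowerSeries ℚ) ^ i) * Sx d s *
          ((∏ j ∈ Icc 1 k, g j) * (box (f 0) * (1 - (-X : PowerSeries ℚ) ^ d) ^ s))
        = (∑ i ∈ range d, PowerSeries.C (N i) * (-X : PowerSeries ℚ) ^ i) * box (f 0) *
          (∏ j ∈ Icc 1 k, g j) * (Sx d s * (1 - (-X : PowerSeries ℚ) ^ d) ^ s) := by ring
      _ = _ := by rw [Sx_mul d s hd1, mul_one]
  have hAc : ∀ u, |coeff u A| ≤ c := by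
    intro u
    rw [hA, hbox]
    exact coeff_N_geo_le d _ hd1 N c hc hN u
  obtain ⟨B, hB⟩ : ∃ B : ℕ → Polynomial ℚ, B = fun j => if j = f 0 then 1 else
      if j ∈ I then ∑ i ∈ range (a * (n + j) / d), (Polynomial.X ^ d) ^ i
      else 1 + Polynomial.X ^ (a * (n + j)) := ⟨_, rfl⟩
  have hMaj : Maj (∏ j ∈ Icc 1 k, g j) (∏ j ∈ Icc 1 k, B j) := by
    refine Maj.prod _ _ _ fun j _ => ?_
    rw [hg, hB]
    dsimp only
    by_cases e1 : j = f 0
    · rw [if_pos e1, if_pos e1]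
      exact Maj.one
    · by_cases e2 : j ∈ I
      · rw [if_neg e1, if_neg e1, if_pos e2, if_pos e2, hbox]
        exact Maj.geo _ _
      · rw [if_neg e1, if_neg e1, if_neg e2, if_neg e2]
        exact Maj.factor _
  have hbd : bv r d ≠ 0 := (bv_pos hr hd1).ne'
  have heval : (∏ j ∈ Icc 1 k, B j).eval r = ∏ j ∈ Icc 1 k, (if j = f 0 then 1 else
      if j ∈ (Ico 1 s).image f then bv r (a * (n + j)) / bv r d
      else 1 + r ^ (a * (n + j))) := by
    rw [Polynomial.eval_prod]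
    refine Finset.prod_congr rfl fun j _ => ?_
    rw [hB, ← hI]
    dsimp only
    by_cases e1 : j = f 0
    · rw [if_pos e1, if_pos e1, Polynomial.eval_one]
    · by_cases e2 : j ∈ I
      · rw [if_neg e1, if_neg e1, if_pos e2, if_pos e2]
        have h1 := bv_mul_geom r d (a * (n + j) / d)
        rw [Nat.mul_div_cancel' (hdvd j ((hmem j).2 (Or.inr e2)))] at h1
        rw [h1, mul_div_cancel_left₀ _ hbd, Polynomial.eval_finsetSum]
        refine Finset.sum_congr rfl fun i _ => ?_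
        rw [Polynomial.eval_pow, Polynomial.eval_pow, Polynomial.eval_X]
      · rw [if_neg e1, if_neg e1, if_neg e2, if_neg e2, Polynomial.eval_add, Polynomial.eval_one,
          Polynomial.eval_pow, Polynomial.eval_X]
  rw [hexp]
  refine (sup_bound hc hAc hMaj hr hr1 y).trans (mul_le_mul_of_nonneg_left ?_ hc)
  rw [heval]
  exact val_J hk h ha.pos hd1 hs hr hr1 f (fun t ht => ⟨(hf1 t ht).1, (hf1 t ht).2.1⟩) hf2 hf3 hf4

/-! ### END E3 -/

end Pool.Agent.SignedQ.Sm
end

section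

/-!
# Rows of truncated kernel checks: the coefficients below `M` for many pairs `(n, a)`
-/

set_option autoImplicit false

namespace Pool.Agent.SignedQ.KD

open PowerSeries

noncomputable section

/-- all `n ∈ [n0, n0+cnt)` with `n k` even, coefficients below `M` -/
def ftr (k B M a n0 cnt : ℕ) : Bool :=
  Nat.rec true (fun i ih => Bool.rec false ih
    (Bool.rec (fd1 k B M (Nat.add n0 i) a M) true
      (Nat.beq (Nat.mod (Nat.mul (Nat.add n0 i) k) 2) 1))) cnt

/-- all rows `(a, n0, cnt, _, _)` of a list -/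
def trs (k B M : ℕ) (l : List (ℕ × ℕ × ℕ × ℕ × ℕ)) : Bool :=
  List.rec true (fun r _ ih => Bool.rec false ih (ftr k B M r.1 r.2.1 r.2.2.1)) l

/-- with the conditions on `B`, `M` -/
def trok (k B M : ℕ) (l : List (ℕ × ℕ × ℕ × ℕ × ℕ)) : Bool :=
  Bool.rec false (Bool.rec false (trs k B M l) (Nat.ble M 1048576))
    (Nat.ble (k + (k + 1) / 2 + 2) B)

theorem ftr_mem {k B M a n0 : ℕ} : ∀ {cnt : ℕ}, ftr k B M a n0 cnt = true → ∀ n, n0 ≤ n →
    n < n0 + cnt → Even (n * k) → fd1 k B M n a M = true := by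
  intro cnt
  induction cnt with
  | zero => intro _ n h1 h2; omega
  | succ i ih =>
    intro h n h1 h2 he
    have h' : (Bool.rec false (ftr k B M a n0 i)
      (Bool.rec (fd1 k B M (Nat.add n0 i) a M) true
      (Nat.beq (Nat.mod (Nat.mul (Nat.add n0 i) k) 2) 1)) : Bool) = true := h
    cases hb : (Bool.rec (fd1 k B M (Nat.add n0 i) a M) true
      (Nat.beq (Nat.mod (Nat.mul (Nat.add n0 i) k) 2) 1) : Bool) with
    | false => rw [hb] at h'; exact absurd h' (by simp)
    | true =>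
      rw [hb] at h'
      rcases Nat.lt_or_ge n (n0 + i) with h3 | h3
      · exact ih h' n h1 h3 he
      · obtain rfl : n = n0 + i := by omega
        have hc : Nat.beq (Nat.mod (Nat.mul (Nat.add n0 i) k) 2) 1 = false := by
          show Nat.beq (((n0 + i) * k) % 2) 1 = false
          rw [Nat.even_iff.1 he]; rfl
        rw [hc] at hb
        exact hb

theorem trs_mem {k B M : ℕ} : ∀ {l : List (ℕ × ℕ × ℕ × ℕ × ℕ)}, trs k B M l = true →
    ∀ r ∈ l, ftr k B M r.1 r.2.1 r.2.2.1 = true := by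
  intro l
  induction l with
  | nil => intro _ r hr; simp at hr
  | cons q l ih =>
    intro h r hr
    have h' : (Bool.rec false (trs k B M l) (ftr k B M q.1 q.2.1 q.2.2.1) : Bool) = true := h
    cases hb : ftr k B M q.1 q.2.1 q.2.2.1 with
    | false => rw [hb] at h'; exact absurd h' (by simp)
    | true =>
      rw [hb] at h'
      rcases List.mem_cons.1 hr with rfl | hr
      · exact hb
      · exact ih h' r hr

theorem trok_mem {k B M : ℕ} {l : List (ℕ × ℕ × ℕ × ℕ × ℕ)} (h : trok k B M l = true) :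
    k + (k + 1) / 2 + 2 ≤ B ∧ M ≤ 2 ^ 20 ∧ trs k B M l = true := by
  have h' : (Bool.rec false (Bool.rec false (trs k B M l) (Nat.ble M 1048576))
    (Nat.ble (k + (k + 1) / 2 + 2) B) : Bool) = true := h
  cases hb : Nat.ble (k + (k + 1) / 2 + 2) B with
  | false => rw [hb] at h'; exact absurd h' (by simp)
  | true =>
    rw [hb] at h'
    have h'' : (Bool.rec false (trs k B M l) (Nat.ble M 1048576) : Bool) = true := h'
    cases hc : Nat.ble M 1048576 with
    | false => rw [hc] at h''; exact absurd h'' (by simp)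
    | true =>
      rw [hc] at h''
      exact ⟨Nat.le_of_ble_eq_true hb, Nat.le_of_ble_eq_true hc, h''⟩

theorem trok_append {k B M : ℕ} {l l' : List (ℕ × ℕ × ℕ × ℕ × ℕ)} (h : trok k B M l = true)
    (h' : trok k B M l' = true) : trok k B M (l ++ l') = true := by
  obtain ⟨h1, h2, h3⟩ := trok_mem h
  obtain ⟨-, -, h3'⟩ := trok_mem h'
  have key : ∀ l : List (ℕ × ℕ × ℕ × ℕ × ℕ), trs k B M l = true → trs k B M (l ++ l') = true := by
    intro l
    induction l with
    | nil => intro _; exact h3'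
    | cons q l ih =>
      intro h
      have h1 : (Bool.rec false (trs k B M l) (ftr k B M q.1 q.2.1 q.2.2.1) : Bool) = true := h
      show (Bool.rec false (trs k B M (l ++ l')) (ftr k B M q.1 q.2.1 q.2.2.1) : Bool) = true
      cases hb : ftr k B M q.1 q.2.1 q.2.2.1 with
      | false => rw [hb] at h1; exact absurd h1 (by simp)
      | true =>
        rw [hb] at h1
        exact ih h1
  show (Bool.rec false (Bool.rec false (trs k B M (l ++ l')) (Nat.ble M 1048576))
    (Nat.ble (k + (k + 1) / 2 + 2) B) : Bool) = true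
  rw [Nat.ble_eq_true_of_le h1]
  show (Bool.rec false (trs k B M (l ++ l')) (Nat.ble M 1048576) : Bool) = true
  rw [show Nat.ble M 1048576 = true from Nat.ble_eq_true_of_le h2]
  exact key l h3

/-- the rows cover all odd `a ≥ 3` and all `n` with `E ≤ a (n + k)`, `a (n + 1) < T` -/
def coversT (k E T A : ℕ) (l : List (ℕ × ℕ × ℕ × ℕ × ℕ)) : Bool :=
  Nat.ble T (2 * A + 3) && (List.range A).all fun i =>
    Nat.ble T ((2 * i + 3) * (reach (2 * i + 3) l ((E + 2 * i + 2) / (2 * i + 3) - k) + 1))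

/-- **Main tool**: the coefficients below `M`. -/
theorem low_of_rows {k E T A B M : ℕ} {l : List (ℕ × ℕ × ℕ × ℕ × ℕ)} (h : trok k B M l = true)
    (hc : coversT k E T A l = true) {n a : ℕ} (hnk : Even (n * k)) (ha : Odd a) (ha3 : 3 ≤ a)
    (hE : E ≤ a * (n + k)) (hT : a * (n + 1) < T) :
    ∀ i < M, 0 ≤ coeff i (KC.fs n a k) := by
  unfold coversT at hc
  rw [Bool.and_eq_true] at hc
  obtain ⟨hc1, hc2⟩ := hc
  have hc1' : T ≤ 2 * A + 3 := Nat.le_of_ble_eq_true hc1
  obtain ⟨b, rfl⟩ := ha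
  obtain ⟨i, rfl⟩ : ∃ i, b = i + 1 := ⟨b - 1, by omega⟩
  have hiA : i < A := by
    by_contra hcon
    have h2 : 2 * (i + 1) + 1 ≤ (2 * (i + 1) + 1) * (n + 1) := Nat.le_mul_of_pos_right _ (by omega)
    omega
  have h3 := (List.all_eq_true.1 hc2) i (List.mem_range.2 hiA)
  have h4 : T ≤ (2 * i + 3) * (reach (2 * i + 3) l ((E + 2 * i + 2) / (2 * i + 3) - k) + 1) :=
    Nat.le_of_ble_eq_true h3
  have h5 : n < reach (2 * i + 3) l ((E + 2 * i + 2) / (2 * i + 3) - k) := by
    by_contra hcon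
    have h6 : (2 * i + 3) * (reach (2 * i + 3) l ((E + 2 * i + 2) / (2 * i + 3) - k) + 1) ≤
        (2 * (i + 1) + 1) * (n + 1) := Nat.mul_le_mul (by omega) (by omega)
    omega
  have h6 : (E + 2 * i + 2) / (2 * i + 3) - k ≤ n := by
    have e : 2 * (i + 1) + 1 = 2 * i + 3 := by ring
    rw [e] at hE
    have h7 : (E + 2 * i + 2) / (2 * i + 3) ≤ n + k := by
      rw [Nat.div_le_iff_le_mul_add_pred (by omega)]
      have : (2 * i + 3) * (n + k) + (2 * i + 3 - 1) = (2 * i + 3) * (n + k) + (2 * i + 2) := by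
        omega
      rw [this]
      omega
    omega
  obtain ⟨r, hr, h7, h8, h9⟩ := reach_mem h6 h5
  obtain ⟨a', n0, cnt, x, y⟩ := r
  have h7' : a' = 2 * i + 3 := h7
  obtain ⟨hB, hM, htr⟩ := trok_mem h
  have h10 := ftr_mem (trs_mem htr _ hr) n h8 h9 hnk
  subst h7'
  have e : 2 * (i + 1) + 1 = 2 * i + 3 := by ring
  rw [e]
  exact fd1_correct hB hM le_rfl h10

end

end Pool.Agent.SignedQ.KD
end

section

/-!
# Truncated kernel checks in loops over `a`
-/

set_option autoImplicit false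

namespace Pool.Agent.SignedQ.KD

open PowerSeries

noncomputable section

/-- first `n` with `E ≤ a (n + k)` -/
def lo (k E a : ℕ) : ℕ := Nat.sub (Nat.div (Nat.add E (Nat.sub a 1)) a) k

/-- first `n` with `T ≤ a (n + 1)` -/
def up (T a : ℕ) : ℕ := Nat.sub (Nat.div (Nat.add T (Nat.sub a 1)) a) 1

/-- `a = 2 i + 3`, `i0 ≤ i < i0 + cnt` -/
def tra (k B M E T i0 cnt : ℕ) : Bool :=
  Nat.rec true (fun i ih => Bool.rec false ih
    (ftr k B M (Nat.add (Nat.mul 2 (Nat.add i0 i)) 3)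
      (lo k E (Nat.add (Nat.mul 2 (Nat.add i0 i)) 3))
      (Nat.sub (up T (Nat.add (Nat.mul 2 (Nat.add i0 i)) 3))
        (lo k E (Nat.add (Nat.mul 2 (Nat.add i0 i)) 3))))) cnt

theorem tra_mem {k B M E T i0 : ℕ} : ∀ {cnt : ℕ}, tra k B M E T i0 cnt = true → ∀ i, i0 ≤ i →
    i < i0 + cnt → ftr k B M (2 * i + 3) (lo k E (2 * i + 3))
      (up T (2 * i + 3) - lo k E (2 * i + 3)) = true := by
  intro cnt
  induction cnt with
  | zero => intro _ i h1 h2; omega
  | succ j ih =>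
    intro h i h1 h2
    have h' : (Bool.rec false (tra k B M E T i0 j)
      (ftr k B M (2 * (i0 + j) + 3) (lo k E (2 * (i0 + j) + 3))
        (up T (2 * (i0 + j) + 3) - lo k E (2 * (i0 + j) + 3))) : Bool) = true := h
    cases hb : ftr k B M (2 * (i0 + j) + 3) (lo k E (2 * (i0 + j) + 3))
        (up T (2 * (i0 + j) + 3) - lo k E (2 * (i0 + j) + 3)) with
    | false => rw [hb] at h'; exact absurd h' (by simp)
    | true =>
      rw [hb] at h'
      rcases Nat.lt_or_ge i (i0 + j) with h3 | h3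
      · exact ih h' i h1 h3
      · obtain rfl : i = i0 + j := by omega
        exact hb

/-- The coefficients below `M` for all `(n, a)` with `a = 2 i + 3`, `i0 ≤ i < i1`, `n k` even,
`E ≤ a (n + k)`, `a (n + 1) < T`. -/
def TR (k M E T i0 i1 : ℕ) : Prop := ∀ n i : ℕ, i0 ≤ i → i < i1 → Even (n * k) →
  E ≤ (2 * i + 3) * (n + k) → (2 * i + 3) * (n + 1) < T →
  ∀ m < M, 0 ≤ coeff m (KC.fs n (2 * i + 3) k)

theorem TR_of {k B M E T i0 cnt : ℕ} (h : tra k B M E T i0 cnt = true)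
    (hB : k + (k + 1) / 2 + 2 ≤ B) (hM : M ≤ 2 ^ 20) {i1 : ℕ} (hi : i1 = i0 + cnt) :
    TR k M E T i0 i1 := by
  subst hi
  intro n i h1 h2 he hE hT
  have h3 := tra_mem h i h1 h2
  have h4 : lo k E (2 * i + 3) ≤ n := by
    show (E + (2 * i + 3 - 1)) / (2 * i + 3) - k ≤ n
    have h7 : (E + (2 * i + 3 - 1)) / (2 * i + 3) ≤ n + k := by
      rw [Nat.div_le_iff_le_mul_add_pred (by omega)]
      omega
    omega
  have h5 : n < up T (2 * i + 3) := by
    show n < (T + (2 * i + 3 - 1)) / (2 * i + 3) - 1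
    have h7 : n + 2 ≤ (T + (2 * i + 3 - 1)) / (2 * i + 3) := by
      rw [Nat.le_div_iff_mul_le (by omega)]
      have : (n + 2) * (2 * i + 3) = (2 * i + 3) * (n + 1) + (2 * i + 3) := by ring
      omega
    omega
  exact fd1_correct hB hM le_rfl (ftr_mem h3 n h4 (by omega) he)

theorem TR.trans {k M E T i0 i1 i2 : ℕ} (h : TR k M E T i0 i1) (h' : TR k M E T i1 i2) :
    TR k M E T i0 i2 := by
  intro n i h1 h2 he hE hT
  rcases Nat.lt_or_ge i i1 with h3 | h3
  · exact h n i h1 h3 he hE hT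
  · exact h' n i h3 h2 he hE hT

theorem TR.all {k M E T A : ℕ} (h : TR k M E T 0 A) (hA : T ≤ 2 * A + 3) {n a : ℕ}
    (hnk : Even (n * k)) (ha : Odd a) (ha3 : 3 ≤ a) (hE : E ≤ a * (n + k))
    (hT : a * (n + 1) < T) : ∀ m < M, 0 ≤ coeff m (KC.fs n a k) := by
  obtain ⟨b, rfl⟩ := ha
  obtain ⟨i, rfl⟩ : ∃ i, b = i + 1 := ⟨b - 1, by omega⟩
  have e : 2 * (i + 1) + 1 = 2 * i + 3 := by ring
  rw [e] at hE hT ⊢
  refine h n i (Nat.zero_le _) ?_ hnk hE hT
  have h2 : 2 * i + 3 ≤ (2 * i + 3) * (n + 1) := Nat.le_mul_of_pos_right _ (by omega)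
  omega

/-- The coefficients below `M` for one `a` and `n0 ≤ n < n1`, `n k` even. -/
def TRn (k M a n0 n1 : ℕ) : Prop := ∀ n : ℕ, n0 ≤ n → n < n1 → Even (n * k) →
  ∀ m < M, 0 ≤ coeff m (KC.fs n a k)

theorem TRn_of {k B M a n0 cnt : ℕ} (h : ftr k B M a n0 cnt = true)
    (hB : k + (k + 1) / 2 + 2 ≤ B) (hM : M ≤ 2 ^ 20) {n1 : ℕ} (hi : n1 = n0 + cnt) :
    TRn k M a n0 n1 := by
  subst hi
  intro n h1 h2 he
  exact fd1_correct hB hM le_rfl (ftr_mem h n h1 h2 he)

theorem TRn.trans {k M a n0 n1 n2 : ℕ} (h : TRn k M a n0 n1) (h' : TRn k M a n1 n2) :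
    TRn k M a n0 n2 := by
  intro n h1 h2 he
  rcases Nat.lt_or_ge n n1 with h3 | h3
  · exact h n h1 h3 he
  · exact h' n h3 h2 he

/-- a full range of `n` for `a = 2 i + 3` -/
theorem TRn.toTR {k M E T i n0 n1 : ℕ} (h : TRn k M (2 * i + 3) n0 n1)
    (h0 : (2 * i + 3) * (n0 + k) < E + (2 * i + 3) ∨ n0 = 0) (h1 : T ≤ (2 * i + 3) * (n1 + 1))
    {i1 : ℕ} (hi1 : i1 = i + 1) : TR k M E T i i1 := by
  subst hi1
  intro n j h2 h3 he hE hT
  obtain rfl : j = i := by omega
  refine h n ?_ ?_ he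
  · rcases h0 with h0 | h0
    · by_contra hcon
      have h4 : (2 * j + 3) * (n + k + 1) ≤ (2 * j + 3) * (n0 + k) := Nat.mul_le_mul_left _ (by omega)
      have h5 : (2 * j + 3) * (n + k + 1) = (2 * j + 3) * (n + k) + (2 * j + 3) := by ring
      omega
    · omega
  · by_contra hcon
    have h4 : (2 * j + 3) * (n1 + 1) ≤ (2 * j + 3) * (n + 1) := Nat.mul_le_mul_left _ (by omega)
    omega

end

end Pool.Agent.SignedQ.KD
end

section

set_option autoImplicit false
set_option maxRecDepth 100000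

namespace Pool.Agent.SignedQ.KD.Tr10_0

def t0 : tra 10 36 1135 724 1135 0 1 = true := by decide +kernel

def t1 : tra 10 36 1135 724 1135 1 2 = true := by decide +kernel

def t2 : tra 10 36 1135 724 1135 3 3 = true := by decide +kernel

def t3 : tra 10 36 1135 724 1135 6 5 = true := by decide +kernel

def t4 : tra 10 36 1135 724 1135 11 8 = true := by decide +kernel

def t5 : tra 10 36 1135 724 1135 19 11 = true := by decide +kernel

def t6 : tra 10 36 1135 724 1135 30 16 = true := by decide +kernel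

def t7 : tra 10 36 1135 724 1135 46 36 = true := by decide +kernel

def t8 : tra 10 36 1135 724 1135 82 322 = true := by decide +kernel

def t9 : tra 10 36 1135 724 1135 404 162 = true := by decide +kernel

theorem tr : TR 10 1135 724 1135 0 566 :=
  ((((((((((TR_of t0 (by norm_num) (by norm_num) (i1 := 1) rfl).trans
    (TR_of t1 (by norm_num) (by norm_num) (i1 := 3) rfl)).trans
    (TR_of t2 (by norm_num) (by norm_num) (i1 := 6) rfl)).trans
    (TR_of t3 (by norm_num) (by norm_num) (i1 := 11) rfl)).trans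
    (TR_of t4 (by norm_num) (by norm_num) (i1 := 19) rfl)).trans
    (TR_of t5 (by norm_num) (by norm_num) (i1 := 30) rfl)).trans
    (TR_of t6 (by norm_num) (by norm_num) (i1 := 46) rfl)).trans
    (TR_of t7 (by norm_num) (by norm_num) (i1 := 82) rfl)).trans
    (TR_of t8 (by norm_num) (by norm_num) (i1 := 404) rfl)).trans
    (TR_of t9 (by norm_num) (by norm_num) (i1 := 566) rfl))

end Pool.Agent.SignedQ.KD.Tr10_0
end
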