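import Pool.Agent.Lib.MP_cf17a0_co.KN
import Pool.Agent.Lib.MP_cf17a0_co.KE
import Pool.Agent.Lib.MP_cf17a0_co.Mg.G067

section

/-!
# Correctness of the second engine, part 1: `F_k` by inversion
-/

set_option autoImplicit false

namespace Pool.Agent.SignedQ.KE

open PowerSeries Finset
open Pool.Agent.SignedQ.KC (gi gi_mul fs)
open Pool.Agent.SignedQ.KD (Nu Fs fs_eq Pos Dn Dn_succ)

theorem msk_eq (W : ℕ) : msk W = 2 ^ W - 1 := rfl

theorem mulP_eq (W sh c : ℕ) : mulP W sh c = KC.mulP (2 ^ W - 1) sh c :=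
  (KC.force_eq c _).symm

theorem mulM_eq (W sh c : ℕ) : mulM W sh c = KC.mulM (2 ^ W - 1) sh c := by
  have h : Nat.succ (2 ^ W - 1) = 2 ^ W := by
    have : 1 ≤ 2 ^ W := Nat.one_le_two_pow
    omega
  rw [show KC.mulM (2 ^ W - 1) sh c = Nat.land (Nat.add c (Nat.sub (Nat.succ (2 ^ W - 1))
    (Nat.land (Nat.shiftLeft c sh) (2 ^ W - 1)))) (2 ^ W - 1) from KC.force_eq c _, h]
  rfl

theorem divM_eq (W fuel : ℕ) : ∀ sh acc, divM W fuel sh acc = KC.divM W (2 ^ W - 1) fuel sh acc := by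
  induction fuel with
  | zero => intro sh acc; rfl
  | succ fuel ih =>
    intro sh acc
    show (Bool.rec acc (divM W fuel (Nat.mul 2 sh) (mulP W sh acc))
      (Nat.ble (Nat.succ sh) W) : ℕ) = Bool.rec acc (KC.divM W (2 ^ W - 1) fuel (Nat.mul 2 sh)
        (KC.mulP (2 ^ W - 1) sh acc)) (Nat.ble (Nat.succ sh) W)
    rw [ih, mulP_eq]

theorem divF_eq (B W j acc : ℕ) : divF B W j acc = KC.divF B W (2 ^ W - 1) j acc := by
  unfold divF KC.divF
  rw [divM_eq, divM_eq, mulM_eq]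

theorem mulF_eq (B W b acc : ℕ) : mulF B W b acc = KC.mulF B W (2 ^ W - 1) b acc := by
  unfold mulF KC.mulF
  rw [mulP_eq, mulM_eq]

/-- an integer representing a power series modulo `q^M` -/
def RepZ (Y : ℤ) (M : ℕ) (z : ℤ) (P : ℤ⟦X⟧) : Prop := Y ^ M ∣ z - KC.ev M Y P

theorem RepZ.mul_sub {Y : ℤ} {M : ℕ} {z : ℤ} {P : ℤ⟦X⟧} (h : RepZ Y M z P) (j : ℕ) :
    RepZ Y M (z * (1 - (-Y) ^ j)) (P * (1 - (-X) ^ j)) := by
  have h1 := KC.ev_mul_X_pow M Y P j
  unfold RepZ at *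
  rcases Nat.mod_two_eq_zero_or_one j with h2 | h2
  · have e : (-Y) ^ j = Y ^ j := Even.neg_pow (Nat.even_iff.2 h2) Y
    have e2 : KC.ev M Y (P * (1 - X ^ j)) = KC.ev M Y P - KC.ev M Y (P * X ^ j) := by
      rw [← KC.ev_sub]; congr 1; ring
    rw [KC.neg_pow_even' h2, e2, e]
    have h3 := (h.mul_left (1 - Y ^ j)).add h1
    refine (Eq.mp (congrArg _ ?_) h3)
    ring
  · have e : (-Y) ^ j = -Y ^ j := Odd.neg_pow (Nat.odd_iff.2 h2) Y
    have e2 : KC.ev M Y (P * (1 + X ^ j)) = KC.ev M Y P + KC.ev M Y (P * X ^ j) := by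
      rw [← KC.ev_add]; congr 1; ring
    rw [KC.neg_pow_odd' h2, sub_neg_eq_add, e2, e]
    have h3 := (h.mul_left (1 + Y ^ j)).sub h1
    refine (Eq.mp (congrArg _ ?_) h3)
    ring

theorem RepZ.mul_add {Y : ℤ} {M : ℕ} {z : ℤ} {P : ℤ⟦X⟧} (h : RepZ Y M z P) :
    RepZ Y M (z * (1 + Y)) (P * (1 + X)) := by
  have h1 := RepZ.mul_sub h 1
  simpa using h1

theorem RepZ.mul_add_pow {Y : ℤ} {M : ℕ} {z : ℤ} {P : ℤ⟦X⟧} (h : RepZ Y M z P) (c : ℕ) :
    RepZ Y M (z * (1 + Y) ^ c) (P * (1 + X) ^ c) := by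
  induction c with
  | zero => simpa using h
  | succ c ih =>
    have := ih.mul_add
    rw [pow_succ, pow_succ, ← mul_assoc, ← mul_assoc]
    exact this

/-- the value of the denominator -/
def Dz (Y : ℤ) (k : ℕ) : ℤ := ∏ v ∈ range k, (1 - (-Y) ^ (v + 1))

theorem Dz_succ (Y : ℤ) (k : ℕ) : Dz Y (k + 1) = Dz Y k * (1 - (-Y) ^ (k + 1)) := by
  unfold Dz; rw [prod_range_succ]

theorem RepZ.mul_Dz {Y : ℤ} {M : ℕ} {z : ℤ} {P : ℤ⟦X⟧} (h : RepZ Y M z P) (k : ℕ) :
    RepZ Y M (z * Dz Y k) (P * Dn k) := by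
  induction k with
  | zero => simpa [Dz, KD.Dn] using h
  | succ k ih =>
    have := ih.mul_sub (k + 1)
    rw [Dz_succ, Dn_succ, ← mul_assoc, ← mul_assoc]
    exact this

theorem repZ_self (Y : ℤ) (M : ℕ) (P : ℤ⟦X⟧) : RepZ Y M (KC.ev M Y P) P := by
  unfold RepZ
  rw [sub_self]
  exact dvd_zero _

theorem repZ_one (Y : ℤ) (M : ℕ) : RepZ Y M 1 1 := by
  unfold RepZ KC.ev
  cases M with
  | zero => simp
  | succ M =>
    rw [sum_range_succ']
    have : ∀ i ∈ range M, coeff (i + 1) (1 : ℤ⟦X⟧) * Y ^ (i + 1) = 0 := by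
      intro i _
      rw [coeff_one, if_neg (by omega), zero_mul]
    rw [sum_eq_zero this]
    simp

theorem Fs_Dn (k : ℕ) : Fs k * Dn k = (1 + X) ^ ((k + 1) / 2) := by
  induction k with
  | zero => simp [KD.Fs, KD.Dn]
  | succ k ih =>
    have hg : (1 - (-X : ℤ⟦X⟧) ^ (k + 1)) * gi (k + 1) = 1 := gi_mul (Nat.succ_pos k)
    rw [KD.Fs_succ, Dn_succ]
    rcases Nat.mod_two_eq_zero_or_one k with h2 | h2
    · rw [if_pos h2, show (k + 1 + 1) / 2 = (k + 1) / 2 + 1 by omega, pow_succ (1 + X), ← ih]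
      calc _ = Fs k * Dn k * (1 + X) * ((1 - (-X : ℤ⟦X⟧) ^ (k + 1)) * gi (k + 1)) := by ring
        _ = _ := by rw [hg, mul_one]
    · rw [if_neg (by omega), show (k + 1 + 1) / 2 = (k + 1) / 2 by omega, ← ih]
      calc _ = Fs k * Dn k * ((1 - (-X : ℤ⟦X⟧) ^ (k + 1)) * gi (k + 1)) := by ring
        _ = _ := by rw [hg, mul_one]

theorem PP_succ (B k : ℕ) : PP B (k + 1) = if k % 2 = 0 then PP B k * 2 ^ (B * (k + 1)) + PP B k
    else PP B k * 2 ^ (B * (k + 1)) - PP B k := by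
  show (Bool.rec (Nat.sub (Nat.shiftLeft (PP B k) (B * (k + 1))) (PP B k))
    (Nat.add (Nat.shiftLeft (PP B k) (B * (k + 1))) (PP B k)) (Nat.beq (k % 2) 0) : ℕ) = _
  have e : Nat.shiftLeft (PP B k) (B * (k + 1)) = PP B k * 2 ^ (B * (k + 1)) := by
    show (PP B k) <<< (B * (k + 1)) = _
    rw [Nat.shiftLeft_eq]
  rw [e]
  split
  · rename_i h
    rw [h]; rfl
  · rename_i h
    have h' : k % 2 = 1 := by omega
    rw [h']; rfl

theorem PP_eq (B k : ℕ) : ((PP B k : ℕ) : ℤ) = (-1) ^ (k / 2) * Dz (2 ^ B) k := by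
  induction k with
  | zero => simp [PP, Dz]
  | succ k ih =>
    rw [PP_succ, Dz_succ]
    have e : (2 : ℤ) ^ (B * (k + 1)) = (2 ^ B) ^ (k + 1) := by rw [pow_mul]
    split
    · rename_i h
      have h1 : (-(2 : ℤ) ^ B) ^ (k + 1) = -(2 ^ B) ^ (k + 1) :=
        Odd.neg_pow (Nat.odd_iff.2 (by omega)) _
      rw [h1, show (k + 1) / 2 = k / 2 by omega]
      push_cast
      rw [e, ih]
      ring
    · rename_i h
      have h1 : (-(2 : ℤ) ^ B) ^ (k + 1) = (2 ^ B) ^ (k + 1) :=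
        Even.neg_pow (Nat.even_iff.2 (by omega)) _
      have h2 : PP B k ≤ PP B k * 2 ^ (B * (k + 1)) := Nat.le_mul_of_pos_right _ (by positivity)
      rw [h1, show (k + 1) / 2 = k / 2 + 1 by omega]
      push_cast [Nat.cast_sub h2]
      rw [e, ih, pow_succ (-1 : ℤ)]
      ring

theorem cast_land_msk (S W : ℕ) : (2 : ℤ) ^ W ∣ ((Nat.land S (msk W) : ℕ) : ℤ) - (S : ℤ) := by
  have h1 : Nat.land S (msk W) = S % 2 ^ W := by
    show S &&& (2 ^ W - 1) = _
    rw [Nat.and_two_pow_sub_one_eq_mod]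
  rw [h1]
  push_cast
  exact Int.dvd_sub_self_of_emod_eq rfl

theorem DD_eq (B W k : ℕ) : (2 : ℤ) ^ W ∣ ((DD B W k : ℕ) : ℤ) - Dz (2 ^ B) k := by
  have hP := PP_eq B k
  have h1 := cast_land_msk (PP B k) W
  have hle : Nat.land (PP B k) (msk W) ≤ 2 ^ W := by
    have : Nat.land (PP B k) (msk W) = PP B k % 2 ^ W := by
      show PP B k &&& (2 ^ W - 1) = _
      rw [Nat.and_two_pow_sub_one_eq_mod]
    rw [this]
    exact (Nat.mod_lt _ (by positivity)).le
  show (2 : ℤ) ^ W ∣ ((Bool.rec (Nat.land (2 ^ W - Nat.land (PP B k) (msk W)) (msk W))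
    (Nat.land (PP B k) (msk W)) (Nat.beq (k / 2 % 2) 0) : ℕ) : ℤ) - _
  cases hb : Nat.beq (k / 2 % 2) 0 with
  | true =>
    have h2 : k / 2 % 2 = 0 := Nat.eq_of_beq_eq_true hb
    rw [(Nat.even_iff.2 h2).neg_one_pow, one_mul] at hP
    rw [← hP]
    exact h1
  | false =>
    have h2 : k / 2 % 2 = 1 := by
      have : ¬ k / 2 % 2 = 0 := Nat.ne_of_beq_eq_false hb
      omega
    rw [(Nat.odd_iff.2 h2).neg_one_pow] at hP
    have h3 := cast_land_msk (2 ^ W - Nat.land (PP B k) (msk W)) W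
    have h4 : Dz (2 ^ B) k = -((PP B k : ℕ) : ℤ) := by rw [hP]; ring
    rw [h4]
    rw [Nat.cast_sub hle] at h3
    push_cast at h3
    show (2 : ℤ) ^ W ∣ ((Nat.land (2 ^ W - Nat.land (PP B k) (msk W)) (msk W) : ℕ) : ℤ) - _
    have h5 := (h3.sub h1).add (dvd_refl ((2 : ℤ) ^ W))
    refine (Eq.mp (congrArg _ ?_) h5)
    ring

theorem Dz_coprime {B : ℕ} (hB : 1 ≤ B) (M k : ℕ) : IsCoprime (((2 : ℤ) ^ B) ^ M) (Dz (2 ^ B) k) := by
  refine IsCoprime.pow_left (IsCoprime.pow_left ?_)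
  unfold Dz
  refine IsCoprime.prod_right fun v _ => ?_
  have h : (2 : ℤ) ∣ (-(2 : ℤ) ^ B) ^ (v + 1) := by
    refine dvd_pow ?_ (by omega)
    rw [dvd_neg]
    exact dvd_pow_self 2 (by omega)
  obtain ⟨t, ht⟩ := h
  rw [ht]
  exact ⟨t, 1, by ring⟩

/-- **the inversion is right if the product check succeeds** -/
theorem rep_VV {B M k : ℕ} (hB : 1 ≤ B) (h : vchk B (B * M) k = true) :
    KC.Rep B M (VV B (B * M) k) (Fs k) := by
  have h0 : Nat.land (DD B (B * M) k * VV B (B * M) k) (msk (B * M)) =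
      Nat.land ((2 ^ B + 1) ^ ((k + 1) / 2)) (msk (B * M)) := Nat.eq_of_beq_eq_true h
  have h1 := cast_land_msk (DD B (B * M) k * VV B (B * M) k) (B * M)
  have h2 := cast_land_msk ((2 ^ B + 1) ^ ((k + 1) / 2)) (B * M)
  rw [h0] at h1
  have h3 := DD_eq B (B * M) k
  have h4 := (repZ_self (2 ^ B) M (Fs k)).mul_Dz k
  rw [Fs_Dn] at h4
  have h5 := (repZ_one (2 ^ B) M).mul_add_pow ((k + 1) / 2)
  rw [one_mul, one_mul] at h5
  unfold RepZ at h4 h5
  unfold KC.Rep
  rw [pow_mul] at h1 h2 h3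
  push_cast at h1 h2
  set Z : ℤ := (2 ^ B) ^ M with hZ
  refine (Dz_coprime hB M k).dvd_of_dvd_mul_left ?_
  rw [← hZ]
  have h6 := (((h1.sub h2).neg_right).add (h3.mul_left (-((VV B (B * M) k : ℕ) : ℤ)))).sub
    (h4.sub h5)
  have h7 := (h2.sub h1).sub ((h3.mul_left ((VV B (B * M) k : ℕ) : ℤ)).add (h4.sub h5))
  refine (Eq.mp (congrArg _ ?_) h7)
  ring

end Pool.Agent.SignedQ.KE
end

section

/-!
# Correctness of the second engine, part 2: digits, rows, blocks, sheets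
-/

set_option autoImplicit false

namespace Pool.Agent.SignedQ.KE

open PowerSeries Finset
open Pool.Agent.SignedQ.KC (gi gi_mul fs nm)
open Pool.Agent.SignedQ.KD (Nu Fs fs_eq Pos Dn Dn_succ dg)

theorem half1_eq (n k a : ℕ) : half1 n k a = KD.half1 n k a := rfl

theorem half1_mono {n n' k a : ℕ} (h : n ≤ n') : half1 n k a ≤ half1 n' k a := KB.half1_mono h

theorem rep_numer {B M n a S : ℕ} {P : ℤ⟦X⟧} (hB : 1 ≤ B) (h : KC.Rep B M S P) (k : ℕ) :
    KC.Rep B M (numer n a B (B * M) k S) (P * Nu n a k) := by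
  induction k with
  | zero =>
    show KC.Rep B M S (P * Nu n a 0)
    unfold KD.Nu
    rw [range_zero, prod_empty, mul_one]
    exact h
  | succ k ih =>
    show KC.Rep B M (mulF B (B * M) (a * (n + (k + 1))) (numer n a B (B * M) k S))
      (P * Nu n a (k + 1))
    rw [mulF_eq]
    have := ih.mulF hB (b := a * (n + (k + 1)))
    have e : P * Nu n a (k + 1) = P * Nu n a k * (1 - (-X) ^ (a * (n + (k + 1)))) := by
      unfold KD.Nu
      rw [prod_range_succ, mul_assoc]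
    rw [e]
    exact this

theorem rep_dir {k B Mx a N : ℕ} (hB : 1 ≤ B) (hv : vchk B (B * Mx) k = true)
    (hN : half1 N k a ≤ Mx) : KC.Rep B (half1 N k a) (dir k B Mx a N) (fs N a k) := by
  rw [fs_eq]
  exact rep_numer hB (KD.rep_trunc hN (rep_VV hB hv)) k

/-- the integer value of a leaf -/
def lz (Y : ℤ) (n a k j : ℕ) : ℤ :=
  if j < k then (if a * (n + (j + 1)) % 2 = 0 then -1 else 1) * (1 - (-Y) ^ (a * (n + (j + 1))))
  else 1

theorem leaf_eq (n a B k j : ℕ) : ((leaf n a B k j : ℕ) : ℤ) = lz (2 ^ B) n a k j := by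
  show ((Bool.rec 1 (Bool.rec (Nat.succ (2 ^ (B * (a * (n + (j + 1))))))
    (2 ^ (B * (a * (n + (j + 1)))) - 1) (Nat.beq (a * (n + (j + 1)) % 2) 0))
      (Nat.ble (j + 1) k) : ℕ) : ℤ) = _
  unfold lz
  cases hb : Nat.ble (j + 1) k with
  | false =>
    have : ¬ j < k := by
      intro h
      have h' : j + 1 ≤ k := h
      rw [Nat.ble_eq_true_of_le h'] at hb
      exact Bool.noConfusion hb
    rw [if_neg this]
    rfl
  | true =>
    have hjk : j < k := Nat.le_of_ble_eq_true hb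
    rw [if_pos hjk]
    cases hc : Nat.beq (a * (n + (j + 1)) % 2) 0 with
    | true =>
      have h2 : a * (n + (j + 1)) % 2 = 0 := Nat.eq_of_beq_eq_true hc
      rw [if_pos h2, Even.neg_pow (Nat.even_iff.2 h2)]
      show ((2 ^ (B * (a * (n + (j + 1)))) - 1 : ℕ) : ℤ) = _
      push_cast [Nat.cast_sub (Nat.one_le_two_pow (n := B * (a * (n + (j + 1)))))]
      rw [pow_mul]
      ring
    | false =>
      have h2 : ¬ a * (n + (j + 1)) % 2 = 0 := Nat.ne_of_beq_eq_false hc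
      rw [if_neg h2, Odd.neg_pow (Nat.odd_iff.2 (by omega))]
      show ((Nat.succ (2 ^ (B * (a * (n + (j + 1))))) : ℕ) : ℤ) = _
      push_cast
      rw [pow_mul]
      ring

theorem ptree_eq (W n a B k t : ℕ) : ∀ lo, (2 : ℤ) ^ W ∣ ((ptree W n a B k t lo : ℕ) : ℤ) -
    ∏ j ∈ range (2 ^ t), lz (2 ^ B) n a k (lo + j) := by
  induction t with
  | zero =>
    intro lo
    show (2 : ℤ) ^ W ∣ ((leaf n a B k lo : ℕ) : ℤ) - _
    rw [leaf_eq, pow_zero, prod_range_one, add_zero, sub_self]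
    exact dvd_zero _
  | succ t ih =>
    intro lo
    have h1 := ih lo
    have h2 := ih (lo + 2 ^ t)
    have h3 := cast_land_msk (ptree W n a B k t lo * ptree W n a B k t (lo + 2 ^ t)) W
    have h4 : ∏ j ∈ range (2 ^ (t + 1)), lz (2 ^ B) n a k (lo + j) =
        (∏ j ∈ range (2 ^ t), lz (2 ^ B) n a k (lo + j)) *
        ∏ j ∈ range (2 ^ t), lz (2 ^ B) n a k (lo + 2 ^ t + j) := by
      rw [pow_succ, mul_two, prod_range_add]
      congr 1
      exact prod_congr rfl fun j _ => by rw [add_assoc]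
    rw [h4]
    show (2 : ℤ) ^ W ∣ ((Nat.land (ptree W n a B k t lo * ptree W n a B k t (lo + 2 ^ t))
      (msk W) : ℕ) : ℤ) - _
    push_cast at h3
    set p := ((ptree W n a B k t lo : ℕ) : ℤ)
    set q := ((ptree W n a B k t (lo + 2 ^ t) : ℕ) : ℤ)
    have h5 := (h3.add (h1.mul_left q)).add
      (h2.mul_left (∏ j ∈ range (2 ^ t), lz (2 ^ B) n a k (lo + j)))
    refine (Eq.mp (congrArg _ ?_) h5)
    ring

theorem prod_lz (Y : ℤ) (n a k : ℕ) : ∀ K, k ≤ K → ∏ j ∈ range K, lz Y n a k j =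
    (-1) ^ nsg n a k * ∏ j ∈ range k, (1 - (-Y) ^ (a * (n + (j + 1)))) := by
  intro K hK
  have h1 : ∏ j ∈ range K, lz Y n a k j = ∏ j ∈ range k, lz Y n a k j := by
    obtain ⟨r, rfl⟩ : ∃ r, K = k + r := ⟨K - k, by omega⟩
    rw [prod_range_add]
    rw [prod_eq_one (s := range r), mul_one]
    intro j _
    unfold lz
    rw [if_neg (by omega)]
  rw [h1]
  have h2 : ∀ k' ≤ k, ∏ j ∈ range k', lz Y n a k j =
      (-1) ^ nsg n a k' * ∏ j ∈ range k', (1 - (-Y) ^ (a * (n + (j + 1)))) := by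
    intro k'
    induction k' with
    | zero => intro _; simp [nsg]
    | succ k' ih =>
      intro hk'
      rw [prod_range_succ, prod_range_succ, ih (by omega)]
      have e1 : nsg n a (k' + 1) = if a * (n + (k' + 1)) % 2 = 0 then nsg n a k' + 1
          else nsg n a k' := by
        show (Bool.rec (nsg n a k') (Nat.succ (nsg n a k'))
          (Nat.beq (a * (n + (k' + 1)) % 2) 0) : ℕ) = _
        split
        · rename_i h; rw [h]; rfl
        · rename_i h
          have h' : a * (n + (k' + 1)) % 2 = 1 := by omega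
          rw [h']; rfl
      unfold lz
      rw [if_pos (by omega), e1]
      split
      · rw [pow_succ]; ring
      · ring
  exact h2 k le_rfl

theorem repZ_mul_Nu {Y : ℤ} {M : ℕ} {z : ℤ} {P : ℤ⟦X⟧} (h : RepZ Y M z P) (n a k : ℕ) :
    RepZ Y M (z * ∏ j ∈ range k, (1 - (-Y) ^ (a * (n + (j + 1))))) (P * Nu n a k) := by
  induction k with
  | zero => simpa [KD.Nu] using h
  | succ k ih =>
    have := ih.mul_sub (a * (n + (k + 1)))
    have e : Nu n a (k + 1) = Nu n a k * (1 - (-X) ^ (a * (n + (k + 1)))) := by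
      unfold KD.Nu
      rw [prod_range_succ]
    rw [prod_range_succ, e, ← mul_assoc, ← mul_assoc]
    exact this

theorem rep_dirT {k B Mx a N : ℕ} (hB : 1 ≤ B) (hv : vchk B (B * Mx) k = true)
    (hN : half1 N k a ≤ Mx) : KC.Rep B (half1 N k a) (dirT k B Mx a N) (fs N a k) := by
  set M := half1 N k a with hM
  have h1 := KD.rep_trunc hN (rep_VV hB hv)
  have h2 : RepZ (2 ^ B) M ((Nat.land (VV B (B * Mx) k) (2 ^ (B * M) - 1) : ℕ) : ℤ) (Fs k) := h1
  have h3 := repZ_mul_Nu h2 N a k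
  rw [← fs_eq] at h3
  have h4 := ptree_eq (B * M) N a B k (Nat.log2 k + 1) 0
  have hk : k ≤ 2 ^ (Nat.log2 k + 1) := (Nat.lt_log2_self).le
  simp only [zero_add] at h4
  rw [prod_lz _ _ _ _ _ hk] at h4
  have h5 := cast_land_msk (Nat.land (VV B (B * Mx) k) (2 ^ (B * M) - 1) *
    ptree (B * M) N a B k (Nat.log2 k + 1) 0) (B * M)
  have h6 : dirS k B (B * M) Mx a N = Nat.land (Nat.land (VV B (B * Mx) k) (2 ^ (B * M) - 1) *
    ptree (B * M) N a B k (Nat.log2 k + 1) 0) (msk (B * M)) := rfl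
  rw [← h6] at h5
  unfold RepZ at h3
  unfold KC.Rep
  rw [pow_mul] at h4 h5
  push_cast at h5
  set V : ℤ := ((Nat.land (VV B (B * Mx) k) (2 ^ (B * M) - 1) : ℕ) : ℤ)
  set P : ℤ := ∏ j ∈ range k, (1 - (-(2 : ℤ) ^ B) ^ (a * (N + (j + 1))))
  set Tr : ℤ := ((ptree (B * M) N a B k (Nat.log2 k + 1) 0 : ℕ) : ℤ)
  have hle : dirS k B (B * M) Mx a N ≤ 2 ^ (B * M) := by
    rw [h6]
    have : ∀ x, Nat.land x (msk (B * M)) = x % 2 ^ (B * M) := by
      intro x
      show x &&& (2 ^ (B * M) - 1) = _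
      rw [Nat.and_two_pow_sub_one_eq_mod]
    rw [this]
    exact (Nat.mod_lt _ (by positivity)).le
  show ((2 : ℤ) ^ B) ^ M ∣ ((Bool.rec (Nat.land (2 ^ (B * M) - dirS k B (B * M) Mx a N)
    (msk (B * M))) (dirS k B (B * M) Mx a N) (Nat.beq (nsg N a k % 2) 0) : ℕ) : ℤ) - _
  cases hb : Nat.beq (nsg N a k % 2) 0 with
  | true =>
    have h7 : nsg N a k % 2 = 0 := Nat.eq_of_beq_eq_true hb
    rw [(Nat.even_iff.2 h7).neg_one_pow, one_mul] at h4
    show ((2 : ℤ) ^ B) ^ M ∣ ((dirS k B (B * M) Mx a N : ℕ) : ℤ) - _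
    have h8 := (h5.add (h4.mul_left V)).add h3
    refine (Eq.mp (congrArg _ ?_) h8)
    ring
  | false =>
    have h7 : nsg N a k % 2 = 1 := by
      have : ¬ nsg N a k % 2 = 0 := Nat.ne_of_beq_eq_false hb
      omega
    rw [(Nat.odd_iff.2 h7).neg_one_pow] at h4
    show ((2 : ℤ) ^ B) ^ M ∣ ((Nat.land (2 ^ (B * M) - dirS k B (B * M) Mx a N)
      (msk (B * M)) : ℕ) : ℤ) - _
    have h9 := cast_land_msk (2 ^ (B * M) - dirS k B (B * M) Mx a N) (B * M)
    rw [Nat.cast_sub hle] at h9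
    push_cast at h9
    rw [pow_mul] at h9
    have h8 := (((h9.sub h5).sub (h4.mul_left V)).add h3).add (dvd_refl (((2 : ℤ) ^ B) ^ M))
    refine (Eq.mp (congrArg _ ?_) h8)
    ring

theorem rep_dn {B M n a k S : ℕ} (hB : 1 ≤ B) (hM : M ≤ 2 ^ 20) (ha : 1 ≤ a)
    (h : KC.Rep B M S (fs (n + 1) a k)) : KC.Rep B M (dn k B (B * M) a n S) (fs n a k) := by
  show KC.Rep B M (divF B (B * M) (a * (n + (k + 1))) (mulF B (B * M) (a * (n + 1)) S)) _
  rw [divF_eq, mulF_eq]
  have h1 := (h.mulF hB (b := a * (n + 1))).divF hB hM (j := a * (n + (k + 1)))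
    (Nat.mul_pos ha (by omega))
  rw [KB.fs_dn ha] at h1
  exact h1

theorem rep_res {k B Mx a N : ℕ} (hB : 1 ≤ B) (hMx : Mx ≤ 2 ^ 20) (ha : 1 ≤ a)
    (hv : vchk B (B * Mx) k = true)
    (hN : half1 N k a ≤ Mx) (d : ℕ) (hd : d ≤ N) :
    KC.Rep B (half1 (N - d) k a) (res k B Mx a N d) (fs (N - d) a k) := by
  induction d with
  | zero => exact rep_dirT hB hv hN
  | succ d ih =>
    have ih := ih (by omega)
    have e : N - d = N - (d + 1) + 1 := by omega
    have hle : half1 (N - (d + 1)) k a ≤ half1 (N - d) k a := half1_mono (by omega)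
    have hle' : half1 (N - (d + 1)) k a ≤ 2 ^ 20 :=
      (half1_mono (Nat.sub_le _ _)).trans (hN.trans hMx)
    have h1 := KD.rep_trunc hle ih
    have h2 : KC.Rep B (half1 (N - (d + 1)) k a)
        (Nat.land (res k B Mx a N d) (2 ^ (B * half1 (N - (d + 1)) k a) - 1))
        (fs (N - (d + 1) + 1) a k) := by
      rw [← e]
      exact h1
    exact rep_dn hB hle' ha h2

/-- **self-verifying digits**, with a bound for the `ℓ¹` norm of the denominator -/
theorem selfv {B M k n a S e : ℕ} (hB : k + (k + 1) / 2 + 2 ≤ B) (he : e + 2 ≤ B)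
    (hD : nm M (Dn k) ≤ 2 ^ e) (hS : KC.Rep B M S (fs n a k))
    (hd : ∀ i < M, S / (2 ^ B) ^ i % 2 ^ B < 2 ^ (B - (e + 1))) :
    ∀ i < M, 0 ≤ coeff i (fs n a k) := by
  set f := fs n a k with hf
  set g := dg B M S with hg
  have hfD : f * Dn k = (1 + X) ^ ((k + 1) / 2) * Nu n a k := by
    have h1 := KC.fs_closed n a k
    have h2 : ∏ v ∈ range k, (1 - (-X : ℤ⟦X⟧) ^ (a * (n + v + 1))) = Nu n a k :=
      prod_congr rfl fun v _ => by rw [add_assoc]
    rw [h2] at h1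
    exact h1
  have he' : ((2 : ℤ) ^ B) ^ M ∣ KC.ev M (2 ^ B) (g - f) := by
    have h1 := hS.sub (KD.rep_dg B M S)
    rw [KC.ev_sub]
    refine (Eq.mp (congrArg _ ?_) h1)
    ring
  have hh : ((2 : ℤ) ^ B) ^ M ∣ KC.ev M (2 ^ B) ((g - f) * Dn k) := by
    have : ∀ k', ((2 : ℤ) ^ B) ^ M ∣ KC.ev M (2 ^ B) ((g - f) * Dn k') := by
      intro k'
      induction k' with
      | zero => unfold KD.Dn; rw [range_zero, prod_empty, mul_one]; exact he'
      | succ k' ih =>
        rw [Dn_succ, ← mul_assoc]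
        exact KD.zero_factor ih (k' + 1)
    exact this k
  have hpow : (2 : ℤ) ^ e * 2 ^ (B - (e + 1)) = 2 ^ (B - 1) := by
    rw [← pow_add]; congr 1; omega
  have hBpow : (2 : ℤ) ^ B = 2 ^ (B - 1) * 2 := by
    rw [← pow_succ]; congr 1; omega
  have hsmall : ∀ i < M, |coeff i ((g - f) * Dn k)| < ((2 ^ B : ℕ) : ℤ) := by
    intro i hi
    have h1 : (g - f) * Dn k = g * Dn k - (1 + X) ^ ((k + 1) / 2) * Nu n a k := by
      rw [sub_mul, hfD]
    rw [h1, map_sub]
    have h2 : |coeff i (g * Dn k)| ≤ 2 ^ (B - (e + 1)) * nm M (Dn k) := by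
      refine KD.coeff_mul_bound hi g (Dn k) _ (by positivity) fun j hj => ?_
      rw [hg]
      unfold KD.dg
      rw [coeff_mk, if_pos hj, abs_of_nonneg (by positivity)]
      have := (hd j hj).le
      exact_mod_cast this
    have h3 : (2 : ℤ) ^ (B - (e + 1)) * nm M (Dn k) ≤ 2 ^ (B - 1) := by
      rw [← hpow, mul_comm]
      exact mul_le_mul_of_nonneg_right hD (by positivity)
    have h4 : |coeff i ((1 + X : ℤ⟦X⟧) ^ ((k + 1) / 2) * Nu n a k)| ≤ 2 ^ ((k + 1) / 2 + k) := by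
      refine (KC.coeff_le_nm hi _).trans ((KD.nm_Nu M n a k _).trans ?_)
      rw [pow_add]
      exact mul_le_mul_of_nonneg_right (KD.nm_one_add_pow M _) (by positivity)
    have h5 : (2 : ℤ) ^ ((k + 1) / 2 + k) < 2 ^ (B - 1) :=
      pow_lt_pow_right₀ (by norm_num) (by omega)
    have h6 := abs_sub (coeff i (g * Dn k)) (coeff i ((1 + X : ℤ⟦X⟧) ^ ((k + 1) / 2) * Nu n a k))
    push_cast
    rw [hBpow]
    linarith
  have hz : ∀ i < M, coeff i ((g - f) * Dn k) = 0 := by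
    refine KD.zero_of_small (2 ^ B) Nat.one_le_two_pow M
      (fun i => coeff i ((g - f) * Dn k)) ?_ hsmall
    unfold KC.ev at hh
    push_cast
    exact hh
  obtain ⟨J, hJ⟩ := KD.Dn_inv k
  intro i hi
  have h1 : coeff i (g - f) = 0 := by
    have : g - f = (g - f) * Dn k * J := by rw [mul_assoc, hJ, mul_one]
    rw [this, coeff_mul]
    refine sum_eq_zero fun p hp => ?_
    have := mem_antidiagonal.1 hp
    rw [hz p.1 (by omega), zero_mul]
  rw [map_sub] at h1
  have h2 : coeff i f = coeff i g := by linarith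
  rw [h2, hg]
  unfold KD.dg
  rw [coeff_mk, if_pos hi]
  positivity

theorem digits_of_pat {B M S u : ℕ} (hB : 1 ≤ B) (hu : u ≤ B)
    (h : Nat.beq (Nat.land S (pat B M u)) 0 = true) :
    ∀ i < M, S / (2 ^ B) ^ i % 2 ^ B < 2 ^ u := by
  intro i hi
  have h1 := KD.digit_land (D := 2 ^ B - 2 ^ u) (M := M)
    (Nat.sub_lt (by positivity) (by positivity)) hB (Nat.eq_of_beq_eq_true h) i hi
  exact KD.lt_of_land hu (Nat.mod_lt _ (by positivity)) h1

/-- the bound for the coefficients of the denominator -/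
theorem dck_spec {k m M : ℕ} (hm : m ≤ k) (h : dck k m M = true) :
    ∀ i < M, |coeff i (Dn k)| ≤ 2 ^ m := by
  set B := k + 3 with hB
  set S := Nat.land (PP B k) (msk (B * M)) with hS
  set G := (2 ^ (B * M) - 1) / (2 ^ B - 1) with hG
  set E := S + G * 2 ^ m with hE
  have hd : ∀ i < M, E / (2 ^ B) ^ i % 2 ^ B < 2 ^ (m + 1) :=
    digits_of_pat (by omega) (by omega) h
  have h2 : 2 ≤ 2 ^ B := by
    calc 2 = 2 ^ 1 := rfl
      _ ≤ 2 ^ B := Nat.pow_le_pow_right (by norm_num) (by omega)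
  have hGs : (G : ℤ) = ∑ i ∈ range M, ((2 : ℤ) ^ B) ^ i := by
    have : G = ∑ i ∈ range M, (2 ^ B) ^ i := by
      rw [hG, pow_mul]
      exact (Nat.geomSum_eq h2 M).symm
    rw [this]
    push_cast
    rfl
  have h3 : ((2 : ℤ) ^ B) ^ M ∣ (S : ℤ) - ((PP B k : ℕ) : ℤ) := by
    rw [← pow_mul]
    exact cast_land_msk _ _
  have h4 := (repZ_one (2 ^ B) M).mul_Dz k
  rw [one_mul, one_mul] at h4
  unfold RepZ at h4
  have h5 := PP_eq B k
  have h6 := KD.rep_dg B M E
  unfold KC.Rep at h6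
  -- the series of differences
  have h7 : ((2 : ℤ) ^ B) ^ M ∣ ∑ i ∈ range M, (coeff i (dg B M E) - 2 ^ m -
      (-1) ^ (k / 2) * coeff i (Dn k)) * (2 ^ B) ^ i := by
    have e1 : ∑ i ∈ range M, (coeff i (dg B M E) - 2 ^ m -
        (-1) ^ (k / 2) * coeff i (Dn k)) * ((2 : ℤ) ^ B) ^ i =
        KC.ev M (2 ^ B) (dg B M E) - 2 ^ m * (G : ℤ) - (-1) ^ (k / 2) * KC.ev M (2 ^ B) (Dn k) := by
      rw [hGs]
      unfold KC.ev
      rw [mul_sum, mul_sum, ← sum_sub_distrib, ← sum_sub_distrib]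
      exact sum_congr rfl fun i _ => by ring
    rw [e1]
    have h8 := (h3.add (h4.mul_left ((-1) ^ (k / 2)))).sub h6
    refine (Eq.mp (congrArg _ ?_) h8)
    rw [h5, hE]
    push_cast
    ring
  have h9 : ∀ i < M, |coeff i (dg B M E) - 2 ^ m - (-1) ^ (k / 2) * coeff i (Dn k)| <
      ((2 ^ B : ℕ) : ℤ) := by
    intro i hi
    have a1 : coeff i (dg B M E) = ((E / (2 ^ B) ^ i % 2 ^ B : ℕ) : ℤ) := by
      unfold KD.dg
      rw [coeff_mk, if_pos hi]
    have a2 : ((E / (2 ^ B) ^ i % 2 ^ B : ℕ) : ℤ) < 2 ^ (m + 1) := by exact_mod_cast hd i hi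
    have a3 : (0 : ℤ) ≤ ((E / (2 ^ B) ^ i % 2 ^ B : ℕ) : ℤ) := by positivity
    have a4 : |coeff i (dg B M E) - 2 ^ m| ≤ 2 ^ m := by
      rw [a1, abs_le]
      have a2' : (2 : ℤ) ^ (m + 1) = 2 ^ m * 2 := pow_succ _ _
      constructor <;> linarith
    have a5 : |(-1) ^ (k / 2) * coeff i (Dn k)| ≤ 2 ^ k := by
      rw [abs_mul, abs_pow, abs_neg, abs_one, one_pow, one_mul]
      exact (KC.coeff_le_nm hi _).trans (KD.nm_Dn M k)
    have a6 := abs_sub (coeff i (dg B M E) - 2 ^ m) ((-1) ^ (k / 2) * coeff i (Dn k))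
    have a7 : (2 : ℤ) ^ m ≤ 2 ^ k := pow_le_pow_right₀ (by norm_num) hm
    have a8 : (2 : ℤ) ^ B = 2 ^ k * 8 := by rw [hB, pow_add]; norm_num
    have a9 : (0 : ℤ) < 2 ^ k := by positivity
    push_cast
    rw [a8]
    linarith
  intro i hi
  have h10 := KD.zero_of_small (2 ^ B) Nat.one_le_two_pow M _ (by push_cast; exact h7) h9 i hi
  have a1 : coeff i (dg B M E) = ((E / (2 ^ B) ^ i % 2 ^ B : ℕ) : ℤ) := by
    unfold KD.dg
    rw [coeff_mk, if_pos hi]
  have a2 : ((E / (2 ^ B) ^ i % 2 ^ B : ℕ) : ℤ) < 2 ^ (m + 1) := by exact_mod_cast hd i hi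
  have a3 : (0 : ℤ) ≤ ((E / (2 ^ B) ^ i % 2 ^ B : ℕ) : ℤ) := by positivity
  have a4 : |coeff i (dg B M E) - 2 ^ m| ≤ 2 ^ m := by
    rw [a1, abs_le]
    have a2' : (2 : ℤ) ^ (m + 1) = 2 ^ m * 2 := pow_succ _ _
    constructor <;> linarith
  have a5 : |(-1) ^ (k / 2) * coeff i (Dn k)| = |coeff i (Dn k)| := by
    rw [abs_mul, abs_pow, abs_neg, abs_one, one_pow, one_mul]
  rw [← a5]
  have a6 : (-1) ^ (k / 2) * coeff i (Dn k) = coeff i (dg B M E) - 2 ^ m := by linarith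
  rw [a6]
  exact a4

theorem echk_spec {k e m M : ℕ} (h : echk k e m M = true) {M' : ℕ} (hM : M' ≤ M) :
    nm M' (Dn k) ≤ 2 ^ e := by
  have h' : (Bool.rec (Bool.rec false (Bool.rec false (dck k m M) (Nat.ble m k))
    (Nat.ble (M * 2 ^ m) (2 ^ e))) true (Nat.ble k e) : Bool) = true := h
  cases h1 : Nat.ble k e with
  | true =>
    have := Nat.le_of_ble_eq_true h1
    exact (KD.nm_Dn M' k).trans (pow_le_pow_right₀ (by norm_num) this)
  | false =>
    rw [h1] at h'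
    cases h2 : Nat.ble (M * 2 ^ m) (2 ^ e) with
    | false => rw [h2] at h'; exact absurd h' (by simp)
    | true =>
      rw [h2] at h'
      cases h3 : Nat.ble m k with
      | false => rw [h3] at h'; exact absurd h' (by simp)
      | true =>
        rw [h3] at h'
        have h4 := dck_spec (Nat.le_of_ble_eq_true h3) h'
        have h5 : nm M' (Dn k) ≤ nm M (Dn k) := KC.nm_mono hM _
        have h6 : nm M (Dn k) ≤ M * 2 ^ m := by
          unfold KC.nm
          refine (sum_le_sum fun i hi => h4 i (mem_range.1 hi)).trans ?_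
          rw [sum_const, card_range, nsmul_eq_mul]
        have h7 : ((M * 2 ^ m : ℕ) : ℤ) ≤ ((2 ^ e : ℕ) : ℤ) := by
          exact_mod_cast Nat.le_of_ble_eq_true h2
        push_cast at h7
        exact (h5.trans h6).trans h7

theorem fdn_mem {k B Mx e a N : ℕ} (hB : k + (k + 1) / 2 + 2 ≤ B) (he : e + 2 ≤ B)
    (hMx : Mx ≤ 2 ^ 20) (ha : 1 ≤ a) (hv : vchk B (B * Mx) k = true)
    (hD : ∀ M' ≤ Mx, nm M' (Dn k) ≤ 2 ^ e)
    (hN : half1 N k a ≤ Mx) : ∀ {cnt : ℕ}, fdn k B Mx (B - (e + 1)) a N cnt = true →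
    ∀ d, d < cnt → d ≤ N → Even ((N - d) * k) →
    ∀ i < half1 (N - d) k a, 0 ≤ coeff i (fs (N - d) a k) := by
  intro cnt
  induction cnt with
  | zero => intro _ d h; omega
  | succ c ih =>
    intro h d hd hdN hev
    have h' : (Bool.rec false
      (Bool.rec (Nat.beq (Nat.land (res k B Mx a N c) (pat B Mx (B - (e + 1)))) 0) true
        (Nat.beq (Nat.mod (Nat.mul (Nat.sub N c) k) 2) 1))
        (fdn k B Mx (B - (e + 1)) a N c) : Bool) = true := h
    cases hb : fdn k B Mx (B - (e + 1)) a N c with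
    | false => rw [hb] at h'; exact absurd h' (by simp)
    | true =>
      rcases Nat.lt_or_ge d c with h3 | h3
      · exact ih hb d h3 hdN hev
      · obtain rfl : d = c := by omega
        rw [hb] at h'
        have hc : Nat.beq (Nat.mod (Nat.mul (Nat.sub N d) k) 2) 1 = false := by
          show Nat.beq (((N - d) * k) % 2) 1 = false
          rw [Nat.even_iff.1 hev]; rfl
        rw [hc] at h'
        have hle : half1 (N - d) k a ≤ Mx := (half1_mono (Nat.sub_le _ _)).trans hN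
        refine selfv hB he (hD _ hle) (rep_res (by omega) hMx ha hv hN d hdN) fun i hi => ?_
        exact digits_of_pat (by omega) (by omega) h' i (by omega)

theorem fdd_mem {k B Mx e a N : ℕ} (hB : k + (k + 1) / 2 + 2 ≤ B) (he : e + 2 ≤ B)
    (hv : vchk B (B * Mx) k = true)
    (hD : ∀ M' ≤ Mx, nm M' (Dn k) ≤ 2 ^ e)
    (hN : half1 N k a ≤ Mx) : ∀ {cnt : ℕ}, fdd k B Mx (B - (e + 1)) a N cnt = true →
    ∀ d, d < cnt → d ≤ N → Even ((N - d) * k) →
    ∀ i < half1 (N - d) k a, 0 ≤ coeff i (fs (N - d) a k) := by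
  intro cnt
  induction cnt with
  | zero => intro _ d h; omega
  | succ c ih =>
    intro h d hd hdN hev
    have h' : (Bool.rec false
      (Bool.rec (Nat.beq (Nat.land (dir k B Mx a (N - c)) (pat B Mx (B - (e + 1)))) 0) true
        (Nat.beq (Nat.mod (Nat.mul (Nat.sub N c) k) 2) 1))
        (fdd k B Mx (B - (e + 1)) a N c) : Bool) = true := h
    cases hb : fdd k B Mx (B - (e + 1)) a N c with
    | false => rw [hb] at h'; exact absurd h' (by simp)
    | true =>
      rcases Nat.lt_or_ge d c with h3 | h3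
      · exact ih hb d h3 hdN hev
      · obtain rfl : d = c := by omega
        rw [hb] at h'
        have hc : Nat.beq (Nat.mod (Nat.mul (Nat.sub N d) k) 2) 1 = false := by
          show Nat.beq (((N - d) * k) % 2) 1 = false
          rw [Nat.even_iff.1 hev]; rfl
        rw [hc] at h'
        have hle : half1 (N - d) k a ≤ Mx := (half1_mono (Nat.sub_le _ _)).trans hN
        refine selfv hB he (hD _ hle) (rep_dir (by omega) hv hle) fun i hi => ?_
        exact digits_of_pat (by omega) (by omega) h' i (by omega)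

theorem lt_of_lt_nlo {T a c n : ℕ} (ha : 1 ≤ a) (h : n < nlo T a c) : a * (n + c) < T := by
  have h' : n < (T + (a - 1)) / a - c := h
  have h1 : n + c + 1 ≤ (T + (a - 1)) / a := by omega
  have h2 := (Nat.le_div_iff_mul_le (by omega : 0 < a)).1 h1
  have h3 : (n + c + 1) * a = a * (n + c) + a := by ring
  omega

theorem le_of_nlo_le {T a c n : ℕ} (ha : 1 ≤ a) (h : nlo T a c ≤ n) : T ≤ a * (n + c) := by
  have h' : (T + (a - 1)) / a - c ≤ n := h
  have h1 : (T + (a - 1)) / a ≤ n + c := by omega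
  have h2 : (T + (a - 1)) / a < n + c + 1 := by omega
  have h3 := (Nat.div_lt_iff_lt_mul (by omega : 0 < a)).1 h2
  have h4 : (n + c + 1) * a = a * (n + c) + a := by ring
  omega

theorem rowchk_spec {k c B Mx e md T1 T2 a : ℕ} (hB : k + (k + 1) / 2 + 2 ≤ B) (he : e + 2 ≤ B)
    (hMx : Mx ≤ 2 ^ 20) (ha : 1 ≤ a) (hv : vchk B (B * Mx) k = true)
    (hD : ∀ M' ≤ Mx, nm M' (Dn k) ≤ 2 ^ e)
    (h : rowchk k c B Mx (B - (e + 1)) md T1 T2 a = true) {n : ℕ} (h1 : T1 ≤ a * (n + c))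
    (h2 : a * (n + c) < T2) (hev : Even (n * k)) :
    ∀ i < half1 n k a, 0 ≤ coeff i (fs n a k) := by
  have h3 : nlo T1 a c ≤ n := by
    by_contra hcon
    have := lt_of_lt_nlo ha (not_le.1 hcon)
    omega
  have h4 : n < nlo T2 a c := by
    by_contra hcon
    have := le_of_nlo_le ha (not_lt.1 hcon)
    omega
  have h' : (Bool.rec (Bool.rec false
      (Bool.rec (fdd k B Mx (B - (e + 1)) a (nlo T2 a c - 1) (nlo T2 a c - nlo T1 a c))
        (fdn k B Mx (B - (e + 1)) a (nlo T2 a c - 1) (nlo T2 a c - nlo T1 a c))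
        (Nat.beq md 1))
      (Nat.ble (half1 (nlo T2 a c - 1) k a) Mx))
    true (Nat.ble (nlo T2 a c) (nlo T1 a c)) : Bool) = true := h
  have h5 : Nat.ble (nlo T2 a c) (nlo T1 a c) = false := by
    cases hb : Nat.ble (nlo T2 a c) (nlo T1 a c) with
    | false => rfl
    | true =>
      have := Nat.le_of_ble_eq_true hb
      omega
  rw [h5] at h'
  cases h6 : Nat.ble (half1 (nlo T2 a c - 1) k a) Mx with
  | false => rw [h6] at h'; exact absurd h' (by simp)
  | true =>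
    rw [h6] at h'
    have h7 := Nat.le_of_ble_eq_true h6
    have en : nlo T2 a c - 1 - (nlo T2 a c - 1 - n) = n := by omega
    cases h8 : Nat.beq md 1 with
    | false =>
      rw [h8] at h'
      have h9 := fdd_mem hB he hv hD h7 h' (nlo T2 a c - 1 - n) (by omega) (by omega)
        (by rw [en]; exact hev)
      rw [en] at h9
      exact h9
    | true =>
      rw [h8] at h'
      have h9 := fdn_mem hB he hMx ha hv hD h7 h' (nlo T2 a c - 1 - n) (by omega) (by omega)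
        (by rw [en]; exact hev)
      rw [en] at h9
      exact h9

theorem blk_spec {k c B Mx u md T1 T2 i0 : ℕ} : ∀ {ci : ℕ},
    blk k c B Mx u md T1 T2 i0 ci = true → ∀ i, i0 ≤ i → i < i0 + ci →
      rowchk k c B Mx u md T1 T2 (2 * i + 3) = true := by
  intro ci
  induction ci with
  | zero => intro _ i h1 h2; omega
  | succ ci ih =>
    intro h i h1 h2
    have h' : (Bool.rec false (rowchk k c B Mx u md T1 T2 (2 * (i0 + ci) + 3))
      (blk k c B Mx u md T1 T2 i0 ci) : Bool) = true := h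
    cases hb : blk k c B Mx u md T1 T2 i0 ci with
    | false => rw [hb] at h'; exact absurd h' (by simp)
    | true =>
      rcases Nat.lt_or_ge i (i0 + ci) with h3 | h3
      · exact ih hb i h1 h3
      · obtain rfl : i = i0 + ci := by omega
        rw [hb] at h'
        exact h'

theorem blks_spec {k c B Mx u : ℕ} : ∀ {l : List (ℕ × ℕ × ℕ × ℕ × ℕ)},
    blks k c B Mx u l = true → ∀ r ∈ l, blk k c B Mx u r.1 r.2.1 r.2.2.1 r.2.2.2.1 r.2.2.2.2 = true := by
  intro l
  induction l with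
  | nil => intro _ r hr; simp at hr
  | cons q l ih =>
    intro h r hr
    have h' : (Bool.rec false (blks k c B Mx u l)
      (blk k c B Mx u q.1 q.2.1 q.2.2.1 q.2.2.2.1 q.2.2.2.2) : Bool) = true := h
    cases hb : blk k c B Mx u q.1 q.2.1 q.2.2.1 q.2.2.2.1 q.2.2.2.2 with
    | false => rw [hb] at h'; exact absurd h' (by simp)
    | true =>
      rw [hb] at h'
      rcases List.mem_cons.1 hr with rfl | hr
      · exact hb
      · exact ih h' r hr

/-- what a sheet proves about one block -/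
def BlkPos (k c : ℕ) (r : ℕ × ℕ × ℕ × ℕ × ℕ) : Prop :=
  ∀ i, r.2.2.2.1 ≤ i → i < r.2.2.2.1 + r.2.2.2.2 → ∀ n, r.2.1 ≤ (2 * i + 3) * (n + c) →
    (2 * i + 3) * (n + c) < r.2.2.1 → Even (n * k) →
    ∀ j < half1 n k (2 * i + 3), 0 ≤ coeff j (fs n (2 * i + 3) k)

theorem sheet_spec {k c B Mx e m : ℕ} {l : List (ℕ × ℕ × ℕ × ℕ × ℕ)}
    (h : sheet k c B Mx e m l = true) : ∀ r ∈ l, BlkPos k c r := by
  have h' : (Bool.rec false (Bool.rec false (Bool.rec false (Bool.rec false (Bool.rec false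
    (blks k c B Mx (B - (e + 1)) l) (vchk B (B * Mx) k)) (echk k e m Mx))
    (Nat.ble Mx 1048576)) (Nat.ble (e + 2) B)) (Nat.ble (k + (k + 1) / 2 + 2) B) : Bool) = true := h
  cases h1 : Nat.ble (k + (k + 1) / 2 + 2) B with
  | false => rw [h1] at h'; exact absurd h' (by simp)
  | true =>
  rw [h1] at h'
  cases h2 : Nat.ble (e + 2) B with
  | false => rw [h2] at h'; exact absurd h' (by simp)
  | true =>
  rw [h2] at h'
  cases h3 : Nat.ble Mx 1048576 with
  | false => rw [h3] at h'; exact absurd h' (by simp)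
  | true =>
  rw [h3] at h'
  cases h4 : echk k e m Mx with
  | false => rw [h4] at h'; exact absurd h' (by simp)
  | true =>
  rw [h4] at h'
  cases h5 : vchk B (B * Mx) k with
  | false => rw [h5] at h'; exact absurd h' (by simp)
  | true =>
  rw [h5] at h'
  intro r hr i hi1 hi2 n hn1 hn2 hev
  have h6 := blk_spec (blks_spec h' r hr) i hi1 hi2
  exact rowchk_spec (Nat.le_of_ble_eq_true h1) (Nat.le_of_ble_eq_true h2)
    (Nat.le_of_ble_eq_true h3) (by omega) h5 (fun M' hM' => echk_spec h4 hM') h6 hn1 hn2 hev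

theorem cov_spec {k c T : ℕ} (hT : 1 ≤ T) : ∀ {l : List (ℕ × ℕ × ℕ × ℕ × ℕ)} {t t' i : ℕ},
    (∀ r ∈ l, BlkPos k c r) → T ≤ cov c l t t' i →
    (i = 0 ∨ (∀ j < i, ∀ n, t ≤ (2 * j + 3) * (n + c) → (2 * j + 3) * (n + c) < t' →
      Even (n * k) → ∀ x < half1 n k (2 * j + 3), 0 ≤ coeff x (fs n (2 * j + 3) k))) →
    ∀ j n, t ≤ (2 * j + 3) * (n + c) → (2 * j + 3) * (n + c) < T → Even (n * k) →
      ∀ x < half1 n k (2 * j + 3), 0 ≤ coeff x (fs n (2 * j + 3) k) := by
  intro l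
  induction l with
  | nil =>
    intro t t' i _ h2 _ j n h3 h4
    have : T ≤ t := h2
    omega
  | cons r l ih =>
    intro t t' i h1 h2 h3 j n h4 h5 h6
    have hr := h1 r List.mem_cons_self
    have hl : ∀ r ∈ l, BlkPos k c r := fun r hr => h1 r (List.mem_cons_of_mem _ hr)
    unfold cov at h2
    split at h2
    · rename_i hc
      obtain ⟨c1, c2, c3⟩ := hc
      -- the level `[t, r.2.2.1)` is done for the first `i + r.2.2.2.2` values
      have key : ∀ j < i + r.2.2.2.2, ∀ n, t ≤ (2 * j + 3) * (n + c) →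
          (2 * j + 3) * (n + c) < r.2.2.1 → Even (n * k) →
          ∀ x < half1 n k (2 * j + 3), 0 ≤ coeff x (fs n (2 * j + 3) k) := by
        intro j hj n g1 g2 g3
        rcases Nat.lt_or_ge j i with g4 | g4
        · rcases h3 with h3 | h3
          · omega
          · rcases c3 with c3 | c3
            · exact h3 j g4 n g1 (by rw [← c3]; exact g2) g3
            · omega
        · exact hr j (by omega) (by omega) n (by omega) g2 g3
      split at h2
      · rename_i hc2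
        rcases Nat.lt_or_ge ((2 * j + 3) * (n + c)) r.2.2.1 with g1 | g1
        · refine key j ?_ n h4 g1 h6
          by_contra hcon
          have g2 : (2 * (i + r.2.2.2.2) + 3) * c ≤ (2 * j + 3) * (n + c) :=
            Nat.mul_le_mul (by omega) (by omega)
          omega
        · exact ih hl h2 (Or.inl rfl) j n g1 h5 h6
      · exact ih hl h2 (Or.inr key) j n h4 h5 h6
    · omega

/-- **Main tool**: sheets that are checked and cover a region. -/
theorem pos_of_sheets {k c T : ℕ} {l : List (ℕ × ℕ × ℕ × ℕ × ℕ)} (hl : ∀ r ∈ l, BlkPos k c r)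
    (hc : Nat.ble T (cov c l 0 0 0) = true) {n a : ℕ} (hnk : Even (n * k)) (ha : Odd a)
    (ha3 : 3 ≤ a) (hT : a * (n + c) < T) : Pos n k a := by
  intro f hf
  obtain ⟨b, rfl⟩ := ha
  obtain ⟨i, rfl⟩ : ∃ i, b = i + 1 := ⟨b - 1, by omega⟩
  have e : 2 * (i + 1) + 1 = 2 * i + 3 := by ring
  rw [e] at hf hT
  have hodd : Odd (2 * i + 3) := ⟨i + 1, by ring⟩
  have h1 := cov_spec (by omega) hl (Nat.le_of_ble_eq_true hc) (Or.inl rfl) i n (Nat.zero_le _)
    hT hnk
  refine half hnk hodd hf fun M hM => ?_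
  rw [KC.coeff_poly hf M]
  exact_mod_cast h1 M (KD.half1_bound (by omega) hf hM)

theorem blkPos_append {k c : ℕ} {l l' : List (ℕ × ℕ × ℕ × ℕ × ℕ)} (h : ∀ r ∈ l, BlkPos k c r)
    (h' : ∀ r ∈ l', BlkPos k c r) : ∀ r ∈ l ++ l', BlkPos k c r := by
  intro r hr
  rcases List.mem_append.1 hr with hr | hr
  · exact h r hr
  · exact h' r hr

end Pool.Agent.SignedQ.KE
end

section

set_option autoImplicit false
set_option maxRecDepth 100000

namespace Pool.Agent.SignedQ.KD.Tr11_0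

def t0 : tra 11 38 1306 828 1306 0 2 = true := by decide +kernel

def t1 : tra 11 38 1306 828 1306 2 5 = true := by decide +kernel

def t2 : tra 11 38 1306 828 1306 7 11 = true := by decide +kernel

def t3 : tra 11 38 1306 828 1306 18 20 = true := by decide +kernel

def t4 : tra 11 38 1306 828 1306 38 42 = true := by decide +kernel

def t5 : tra 11 38 1306 828 1306 80 531 = true := by decide +kernel

def t6 : tra 11 38 1306 828 1306 611 41 = true := by decide +kernel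

theorem tr : TR 11 1306 828 1306 0 652 :=
  (((((((TR_of t0 (by norm_num) (by norm_num) (i1 := 2) rfl).trans
    (TR_of t1 (by norm_num) (by norm_num) (i1 := 7) rfl)).trans
    (TR_of t2 (by norm_num) (by norm_num) (i1 := 18) rfl)).trans
    (TR_of t3 (by norm_num) (by norm_num) (i1 := 38) rfl)).trans
    (TR_of t4 (by norm_num) (by norm_num) (i1 := 80) rfl)).trans
    (TR_of t5 (by norm_num) (by norm_num) (i1 := 611) rfl)).trans
    (TR_of t6 (by norm_num) (by norm_num) (i1 := 652) rfl))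

end Pool.Agent.SignedQ.KD.Tr11_0
end
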