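import Pool.Agent.Lib.MP_cf17a0_co.Mg.G055
import Pool.Agent.Lib.MP_cf17a0_co.S1.FD.K150
import Pool.Agent.Lib.MP_cf17a0_co.S1.FD.K151
import Pool.Agent.Lib.MP_cf17a0_co.S1.FD.K152
import Pool.Agent.Lib.MP_cf17a0_co.S1.FD.K153
import Pool.Agent.Lib.MP_cf17a0_co.S1.FD.K154
import Pool.Agent.Lib.MP_cf17a0_co.S1.FD.K155
import Pool.Agent.Lib.MP_cf17a0_co.S1.FD.K156
import Pool.Agent.Lib.MP_cf17a0_co.S1.FD.K157
import Pool.Agent.Lib.MP_cf17a0_co.S1.FD.K158
import Pool.Agent.Lib.MP_cf17a0_co.S1.FD.K159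
import Pool.Agent.Lib.MP_cf17a0_co.S1.FD.K160
import Pool.Agent.Lib.MP_cf17a0_co.S1.FD.K161
import Pool.Agent.Lib.MP_cf17a0_co.S1.FD.K162
import Pool.Agent.Lib.MP_cf17a0_co.S1.FD.K163
import Pool.Agent.Lib.MP_cf17a0_co.S1.FD.K164
import Pool.Agent.Lib.MP_cf17a0_co.S1.FD.K165
import Pool.Agent.Lib.MP_cf17a0_co.S1.FD.K166
import Pool.Agent.Lib.MP_cf17a0_co.S1.FD.K167
import Pool.Agent.Lib.MP_cf17a0_co.S1.FD.K168
import Pool.Agent.Lib.MP_cf17a0_co.S1.FD.K169
import Pool.Agent.Lib.MP_cf17a0_co.S1.FD.K170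
import Pool.Agent.Lib.MP_cf17a0_co.S1.FD.K171
import Pool.Agent.Lib.MP_cf17a0_co.S1.FD.K172
import Pool.Agent.Lib.MP_cf17a0_co.S1.FD.K173
import Pool.Agent.Lib.MP_cf17a0_co.S1.FD.K174
import Pool.Agent.Lib.MP_cf17a0_co.S1.FD.K175
import Pool.Agent.Lib.MP_cf17a0_co.S1.FD.K176
import Pool.Agent.Lib.MP_cf17a0_co.S1.FD.K177
import Pool.Agent.Lib.MP_cf17a0_co.S1.FD.K178
import Pool.Agent.Lib.MP_cf17a0_co.S1.FD.K179
import Pool.Agent.Lib.MP_cf17a0_co.S1.FD.K180
import Pool.Agent.Lib.MP_cf17a0_co.S1.FD.K181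
import Pool.Agent.Lib.MP_cf17a0_co.S1.FD.K182
import Pool.Agent.Lib.MP_cf17a0_co.S1.FD.K183
import Pool.Agent.Lib.MP_cf17a0_co.S1.FD.K184
import Pool.Agent.Lib.MP_cf17a0_co.S1.FD.K185
import Pool.Agent.Lib.MP_cf17a0_co.S1.FD.K186
import Pool.Agent.Lib.MP_cf17a0_co.S1.FD.K187
import Pool.Agent.Lib.MP_cf17a0_co.S1.FD.K188
import Pool.Agent.Lib.MP_cf17a0_co.S1.FD.K189
import Pool.Agent.Lib.MP_cf17a0_co.S1.FD.K190
import Pool.Agent.Lib.MP_cf17a0_co.S1.FD.K191
import Pool.Agent.Lib.MP_cf17a0_co.S1.FD.K192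
import Pool.Agent.Lib.MP_cf17a0_co.S1.FD.K193
import Pool.Agent.Lib.MP_cf17a0_co.S1.FD.K194
import Pool.Agent.Lib.MP_cf17a0_co.S1.FD.K195
import Pool.Agent.Lib.MP_cf17a0_co.S1.FD.K196
import Pool.Agent.Lib.MP_cf17a0_co.S1.FD.K197
import Pool.Agent.Lib.MP_cf17a0_co.S1.FD.K198
import Pool.Agent.Lib.MP_cf17a0_co.S1.FD.K199
import Pool.Agent.Lib.MP_cf17a0_co.S1.FD.Five0
import Pool.Agent.Lib.MP_cf17a0_co.S1.FD.Five1
import Pool.Agent.Lib.MP_cf17a0_co.S1.FD.Five2
import Pool.Agent.Lib.MP_cf17a0_co.S1.FD.Five3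

section

/-!
# FD: positivity for the pairs checked by the kernel, `150 ≤ k < 200`
-/

set_option autoImplicit false

namespace Pool.Agent.SignedQ.KE

open Pool.Agent.SignedQ.KD (Pos)

theorem pos150 {n a : ℕ} (hnk : Even (n * 150)) (ha : Odd a) (ha3 : 3 ≤ a) (hT : a * (n + 150) < 750) :
    Pos n 150 a :=
  pos_of_sheets (blkPos_append (sheet_spec K150.h0) (blkPos_append (sheet_spec K150.h1) (blkPos_append (sheet_spec K150.h2) (blkPos_append (sheet_spec K150.h3) (blkPos_append (sheet_spec K150.h4) (blkPos_append (sheet_spec K150.h5) (sheet_spec K150.h6))))))) K150.cv hnk ha ha3 hT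

theorem pos151 {n a : ℕ} (hnk : Even (n * 151)) (ha : Odd a) (ha3 : 3 ≤ a) (hT : a * (n + 151) < 755) :
    Pos n 151 a :=
  pos_of_sheets (blkPos_append (sheet_spec K151.h0) (blkPos_append (sheet_spec K151.h1) (blkPos_append (sheet_spec K151.h2) (blkPos_append (sheet_spec K151.h3) (blkPos_append (sheet_spec K151.h4) (blkPos_append (sheet_spec K151.h5) (sheet_spec K151.h6))))))) K151.cv hnk ha ha3 hT

theorem pos152 {n a : ℕ} (hnk : Even (n * 152)) (ha : Odd a) (ha3 : 3 ≤ a) (hT : a * (n + 152) < 760) :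
    Pos n 152 a :=
  pos_of_sheets (blkPos_append (sheet_spec K152.h0) (blkPos_append (sheet_spec K152.h1) (blkPos_append (sheet_spec K152.h2) (blkPos_append (sheet_spec K152.h3) (blkPos_append (sheet_spec K152.h4) (blkPos_append (sheet_spec K152.h5) (sheet_spec K152.h6))))))) K152.cv hnk ha ha3 hT

theorem pos153 {n a : ℕ} (hnk : Even (n * 153)) (ha : Odd a) (ha3 : 3 ≤ a) (hT : a * (n + 153) < 765) :
    Pos n 153 a :=
  pos_of_sheets (blkPos_append (sheet_spec K153.h0) (blkPos_append (sheet_spec K153.h1) (blkPos_append (sheet_spec K153.h2) (blkPos_append (sheet_spec K153.h3) (blkPos_append (sheet_spec K153.h4) (blkPos_append (sheet_spec K153.h5) (sheet_spec K153.h6))))))) K153.cv hnk ha ha3 hT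

theorem pos154 {n a : ℕ} (hnk : Even (n * 154)) (ha : Odd a) (ha3 : 3 ≤ a) (hT : a * (n + 154) < 770) :
    Pos n 154 a :=
  pos_of_sheets (blkPos_append (sheet_spec K154.h0) (blkPos_append (sheet_spec K154.h1) (blkPos_append (sheet_spec K154.h2) (blkPos_append (sheet_spec K154.h3) (blkPos_append (sheet_spec K154.h4) (blkPos_append (sheet_spec K154.h5) (sheet_spec K154.h6))))))) K154.cv hnk ha ha3 hT

theorem pos155 {n a : ℕ} (hnk : Even (n * 155)) (ha : Odd a) (ha3 : 3 ≤ a) (hT : a * (n + 155) < 775) :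
    Pos n 155 a :=
  pos_of_sheets (blkPos_append (sheet_spec K155.h0) (blkPos_append (sheet_spec K155.h1) (blkPos_append (sheet_spec K155.h2) (blkPos_append (sheet_spec K155.h3) (blkPos_append (sheet_spec K155.h4) (blkPos_append (sheet_spec K155.h5) (blkPos_append (sheet_spec K155.h6) (sheet_spec K155.h7)))))))) K155.cv hnk ha ha3 hT

theorem pos156 {n a : ℕ} (hnk : Even (n * 156)) (ha : Odd a) (ha3 : 3 ≤ a) (hT : a * (n + 156) < 780) :
    Pos n 156 a :=
  pos_of_sheets (blkPos_append (sheet_spec K156.h0) (blkPos_append (sheet_spec K156.h1) (blkPos_append (sheet_spec K156.h2) (blkPos_append (sheet_spec K156.h3) (blkPos_append (sheet_spec K156.h4) (blkPos_append (sheet_spec K156.h5) (blkPos_append (sheet_spec K156.h6) (sheet_spec K156.h7)))))))) K156.cv hnk ha ha3 hT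

theorem pos157 {n a : ℕ} (hnk : Even (n * 157)) (ha : Odd a) (ha3 : 3 ≤ a) (hT : a * (n + 157) < 785) :
    Pos n 157 a :=
  pos_of_sheets (blkPos_append (sheet_spec K157.h0) (blkPos_append (sheet_spec K157.h1) (blkPos_append (sheet_spec K157.h2) (blkPos_append (sheet_spec K157.h3) (blkPos_append (sheet_spec K157.h4) (blkPos_append (sheet_spec K157.h5) (blkPos_append (sheet_spec K157.h6) (sheet_spec K157.h7)))))))) K157.cv hnk ha ha3 hT

theorem pos158 {n a : ℕ} (hnk : Even (n * 158)) (ha : Odd a) (ha3 : 3 ≤ a) (hT : a * (n + 158) < 790) :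
    Pos n 158 a :=
  pos_of_sheets (blkPos_append (sheet_spec K158.h0) (blkPos_append (sheet_spec K158.h1) (blkPos_append (sheet_spec K158.h2) (blkPos_append (sheet_spec K158.h3) (blkPos_append (sheet_spec K158.h4) (blkPos_append (sheet_spec K158.h5) (blkPos_append (sheet_spec K158.h6) (sheet_spec K158.h7)))))))) K158.cv hnk ha ha3 hT

theorem pos159 {n a : ℕ} (hnk : Even (n * 159)) (ha : Odd a) (ha3 : 3 ≤ a) (hT : a * (n + 159) < 795) :
    Pos n 159 a :=
  pos_of_sheets (blkPos_append (sheet_spec K159.h0) (blkPos_append (sheet_spec K159.h1) (blkPos_append (sheet_spec K159.h2) (blkPos_append (sheet_spec K159.h3) (blkPos_append (sheet_spec K159.h4) (blkPos_append (sheet_spec K159.h5) (blkPos_append (sheet_spec K159.h6) (sheet_spec K159.h7)))))))) K159.cv hnk ha ha3 hT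

theorem pos160 {n a : ℕ} (hnk : Even (n * 160)) (ha : Odd a) (ha3 : 3 ≤ a) (hT : a * (n + 160) < 800) :
    Pos n 160 a :=
  pos_of_sheets (blkPos_append (sheet_spec K160.h0) (blkPos_append (sheet_spec K160.h1) (blkPos_append (sheet_spec K160.h2) (blkPos_append (sheet_spec K160.h3) (blkPos_append (sheet_spec K160.h4) (blkPos_append (sheet_spec K160.h5) (blkPos_append (sheet_spec K160.h6) (sheet_spec K160.h7)))))))) K160.cv hnk ha ha3 hT

theorem pos161 {n a : ℕ} (hnk : Even (n * 161)) (ha : Odd a) (ha3 : 3 ≤ a) (hT : a * (n + 161) < 805) :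
    Pos n 161 a :=
  pos_of_sheets (blkPos_append (sheet_spec K161.h0) (blkPos_append (sheet_spec K161.h1) (blkPos_append (sheet_spec K161.h2) (blkPos_append (sheet_spec K161.h3) (blkPos_append (sheet_spec K161.h4) (blkPos_append (sheet_spec K161.h5) (blkPos_append (sheet_spec K161.h6) (blkPos_append (sheet_spec K161.h7) (sheet_spec K161.h8))))))))) K161.cv hnk ha ha3 hT

theorem pos162 {n a : ℕ} (hnk : Even (n * 162)) (ha : Odd a) (ha3 : 3 ≤ a) (hT : a * (n + 162) < 810) :
    Pos n 162 a :=
  pos_of_sheets (blkPos_append (sheet_spec K162.h0) (blkPos_append (sheet_spec K162.h1) (blkPos_append (sheet_spec K162.h2) (blkPos_append (sheet_spec K162.h3) (blkPos_append (sheet_spec K162.h4) (blkPos_append (sheet_spec K162.h5) (blkPos_append (sheet_spec K162.h6) (sheet_spec K162.h7)))))))) K162.cv hnk ha ha3 hT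

theorem pos163 {n a : ℕ} (hnk : Even (n * 163)) (ha : Odd a) (ha3 : 3 ≤ a) (hT : a * (n + 163) < 815) :
    Pos n 163 a :=
  pos_of_sheets (blkPos_append (sheet_spec K163.h0) (blkPos_append (sheet_spec K163.h1) (blkPos_append (sheet_spec K163.h2) (blkPos_append (sheet_spec K163.h3) (blkPos_append (sheet_spec K163.h4) (blkPos_append (sheet_spec K163.h5) (blkPos_append (sheet_spec K163.h6) (blkPos_append (sheet_spec K163.h7) (sheet_spec K163.h8))))))))) K163.cv hnk ha ha3 hT

theorem pos164 {n a : ℕ} (hnk : Even (n * 164)) (ha : Odd a) (ha3 : 3 ≤ a) (hT : a * (n + 164) < 820) :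
    Pos n 164 a :=
  pos_of_sheets (blkPos_append (sheet_spec K164.h0) (blkPos_append (sheet_spec K164.h1) (blkPos_append (sheet_spec K164.h2) (blkPos_append (sheet_spec K164.h3) (blkPos_append (sheet_spec K164.h4) (blkPos_append (sheet_spec K164.h5) (blkPos_append (sheet_spec K164.h6) (blkPos_append (sheet_spec K164.h7) (sheet_spec K164.h8))))))))) K164.cv hnk ha ha3 hT

theorem pos165 {n a : ℕ} (hnk : Even (n * 165)) (ha : Odd a) (ha3 : 3 ≤ a) (hT : a * (n + 165) < 825) :
    Pos n 165 a :=
  pos_of_sheets (blkPos_append (sheet_spec K165.h0) (blkPos_append (sheet_spec K165.h1) (blkPos_append (sheet_spec K165.h2) (blkPos_append (sheet_spec K165.h3) (blkPos_append (sheet_spec K165.h4) (blkPos_append (sheet_spec K165.h5) (blkPos_append (sheet_spec K165.h6) (blkPos_append (sheet_spec K165.h7) (sheet_spec K165.h8))))))))) K165.cv hnk ha ha3 hT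

theorem pos166 {n a : ℕ} (hnk : Even (n * 166)) (ha : Odd a) (ha3 : 3 ≤ a) (hT : a * (n + 166) < 830) :
    Pos n 166 a :=
  pos_of_sheets (blkPos_append (sheet_spec K166.h0) (blkPos_append (sheet_spec K166.h1) (blkPos_append (sheet_spec K166.h2) (blkPos_append (sheet_spec K166.h3) (blkPos_append (sheet_spec K166.h4) (blkPos_append (sheet_spec K166.h5) (blkPos_append (sheet_spec K166.h6) (blkPos_append (sheet_spec K166.h7) (sheet_spec K166.h8))))))))) K166.cv hnk ha ha3 hT

theorem pos167 {n a : ℕ} (hnk : Even (n * 167)) (ha : Odd a) (ha3 : 3 ≤ a) (hT : a * (n + 167) < 835) :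
    Pos n 167 a :=
  pos_of_sheets (blkPos_append (sheet_spec K167.h0) (blkPos_append (sheet_spec K167.h1) (blkPos_append (sheet_spec K167.h2) (blkPos_append (sheet_spec K167.h3) (blkPos_append (sheet_spec K167.h4) (blkPos_append (sheet_spec K167.h5) (blkPos_append (sheet_spec K167.h6) (blkPos_append (sheet_spec K167.h7) (blkPos_append (sheet_spec K167.h8) (sheet_spec K167.h9)))))))))) K167.cv hnk ha ha3 hT

theorem pos168 {n a : ℕ} (hnk : Even (n * 168)) (ha : Odd a) (ha3 : 3 ≤ a) (hT : a * (n + 168) < 840) :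
    Pos n 168 a :=
  pos_of_sheets (blkPos_append (sheet_spec K168.h0) (blkPos_append (sheet_spec K168.h1) (blkPos_append (sheet_spec K168.h2) (blkPos_append (sheet_spec K168.h3) (blkPos_append (sheet_spec K168.h4) (blkPos_append (sheet_spec K168.h5) (blkPos_append (sheet_spec K168.h6) (blkPos_append (sheet_spec K168.h7) (blkPos_append (sheet_spec K168.h8) (sheet_spec K168.h9)))))))))) K168.cv hnk ha ha3 hT

theorem pos169 {n a : ℕ} (hnk : Even (n * 169)) (ha : Odd a) (ha3 : 3 ≤ a) (hT : a * (n + 169) < 845) :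
    Pos n 169 a :=
  pos_of_sheets (blkPos_append (sheet_spec K169.h0) (blkPos_append (sheet_spec K169.h1) (blkPos_append (sheet_spec K169.h2) (blkPos_append (sheet_spec K169.h3) (blkPos_append (sheet_spec K169.h4) (blkPos_append (sheet_spec K169.h5) (blkPos_append (sheet_spec K169.h6) (blkPos_append (sheet_spec K169.h7) (blkPos_append (sheet_spec K169.h8) (sheet_spec K169.h9)))))))))) K169.cv hnk ha ha3 hT

theorem pos170 {n a : ℕ} (hnk : Even (n * 170)) (ha : Odd a) (ha3 : 3 ≤ a) (hT : a * (n + 170) < 850) :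
    Pos n 170 a :=
  pos_of_sheets (blkPos_append (sheet_spec K170.h0) (blkPos_append (sheet_spec K170.h1) (blkPos_append (sheet_spec K170.h2) (blkPos_append (sheet_spec K170.h3) (blkPos_append (sheet_spec K170.h4) (blkPos_append (sheet_spec K170.h5) (blkPos_append (sheet_spec K170.h6) (blkPos_append (sheet_spec K170.h7) (blkPos_append (sheet_spec K170.h8) (blkPos_append (sheet_spec K170.h9) (sheet_spec K170.h10))))))))))) K170.cv hnk ha ha3 hT

theorem pos171 {n a : ℕ} (hnk : Even (n * 171)) (ha : Odd a) (ha3 : 3 ≤ a) (hT : a * (n + 171) < 855) :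
    Pos n 171 a :=
  pos_of_sheets (blkPos_append (sheet_spec K171.h0) (blkPos_append (sheet_spec K171.h1) (blkPos_append (sheet_spec K171.h2) (blkPos_append (sheet_spec K171.h3) (blkPos_append (sheet_spec K171.h4) (blkPos_append (sheet_spec K171.h5) (blkPos_append (sheet_spec K171.h6) (blkPos_append (sheet_spec K171.h7) (blkPos_append (sheet_spec K171.h8) (blkPos_append (sheet_spec K171.h9) (sheet_spec K171.h10))))))))))) K171.cv hnk ha ha3 hT

theorem pos172 {n a : ℕ} (hnk : Even (n * 172)) (ha : Odd a) (ha3 : 3 ≤ a) (hT : a * (n + 172) < 860) :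
    Pos n 172 a :=
  pos_of_sheets (blkPos_append (sheet_spec K172.h0) (blkPos_append (sheet_spec K172.h1) (blkPos_append (sheet_spec K172.h2) (blkPos_append (sheet_spec K172.h3) (blkPos_append (sheet_spec K172.h4) (blkPos_append (sheet_spec K172.h5) (blkPos_append (sheet_spec K172.h6) (blkPos_append (sheet_spec K172.h7) (blkPos_append (sheet_spec K172.h8) (blkPos_append (sheet_spec K172.h9) (sheet_spec K172.h10))))))))))) K172.cv hnk ha ha3 hT

theorem pos173 {n a : ℕ} (hnk : Even (n * 173)) (ha : Odd a) (ha3 : 3 ≤ a) (hT : a * (n + 173) < 865) :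
    Pos n 173 a :=
  pos_of_sheets (blkPos_append (sheet_spec K173.h0) (blkPos_append (sheet_spec K173.h1) (blkPos_append (sheet_spec K173.h2) (blkPos_append (sheet_spec K173.h3) (blkPos_append (sheet_spec K173.h4) (blkPos_append (sheet_spec K173.h5) (blkPos_append (sheet_spec K173.h6) (blkPos_append (sheet_spec K173.h7) (blkPos_append (sheet_spec K173.h8) (blkPos_append (sheet_spec K173.h9) (sheet_spec K173.h10))))))))))) K173.cv hnk ha ha3 hT

theorem pos174 {n a : ℕ} (hnk : Even (n * 174)) (ha : Odd a) (ha3 : 3 ≤ a) (hT : a * (n + 174) < 870) :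
    Pos n 174 a :=
  pos_of_sheets (blkPos_append (sheet_spec K174.h0) (blkPos_append (sheet_spec K174.h1) (blkPos_append (sheet_spec K174.h2) (blkPos_append (sheet_spec K174.h3) (blkPos_append (sheet_spec K174.h4) (blkPos_append (sheet_spec K174.h5) (blkPos_append (sheet_spec K174.h6) (blkPos_append (sheet_spec K174.h7) (blkPos_append (sheet_spec K174.h8) (blkPos_append (sheet_spec K174.h9) (sheet_spec K174.h10))))))))))) K174.cv hnk ha ha3 hT

theorem pos175 {n a : ℕ} (hnk : Even (n * 175)) (ha : Odd a) (ha3 : 3 ≤ a) (hT : a * (n + 175) < 875) :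
    Pos n 175 a :=
  pos_of_sheets (blkPos_append (sheet_spec K175.h0) (blkPos_append (sheet_spec K175.h1) (blkPos_append (sheet_spec K175.h2) (blkPos_append (sheet_spec K175.h3) (blkPos_append (sheet_spec K175.h4) (blkPos_append (sheet_spec K175.h5) (blkPos_append (sheet_spec K175.h6) (blkPos_append (sheet_spec K175.h7) (blkPos_append (sheet_spec K175.h8) (blkPos_append (sheet_spec K175.h9) (blkPos_append (sheet_spec K175.h10) (sheet_spec K175.h11)))))))))))) K175.cv hnk ha ha3 hT

theorem pos176 {n a : ℕ} (hnk : Even (n * 176)) (ha : Odd a) (ha3 : 3 ≤ a) (hT : a * (n + 176) < 880) :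
    Pos n 176 a :=
  pos_of_sheets (blkPos_append (sheet_spec K176.h0) (blkPos_append (sheet_spec K176.h1) (blkPos_append (sheet_spec K176.h2) (blkPos_append (sheet_spec K176.h3) (blkPos_append (sheet_spec K176.h4) (blkPos_append (sheet_spec K176.h5) (blkPos_append (sheet_spec K176.h6) (blkPos_append (sheet_spec K176.h7) (blkPos_append (sheet_spec K176.h8) (blkPos_append (sheet_spec K176.h9) (blkPos_append (sheet_spec K176.h10) (sheet_spec K176.h11)))))))))))) K176.cv hnk ha ha3 hT

theorem pos177 {n a : ℕ} (hnk : Even (n * 177)) (ha : Odd a) (ha3 : 3 ≤ a) (hT : a * (n + 177) < 885) :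
    Pos n 177 a :=
  pos_of_sheets (blkPos_append (sheet_spec K177.h0) (blkPos_append (sheet_spec K177.h1) (blkPos_append (sheet_spec K177.h2) (blkPos_append (sheet_spec K177.h3) (blkPos_append (sheet_spec K177.h4) (blkPos_append (sheet_spec K177.h5) (blkPos_append (sheet_spec K177.h6) (blkPos_append (sheet_spec K177.h7) (blkPos_append (sheet_spec K177.h8) (blkPos_append (sheet_spec K177.h9) (blkPos_append (sheet_spec K177.h10) (sheet_spec K177.h11)))))))))))) K177.cv hnk ha ha3 hT

theorem pos178 {n a : ℕ} (hnk : Even (n * 178)) (ha : Odd a) (ha3 : 3 ≤ a) (hT : a * (n + 178) < 890) :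
    Pos n 178 a :=
  pos_of_sheets (blkPos_append (sheet_spec K178.h0) (blkPos_append (sheet_spec K178.h1) (blkPos_append (sheet_spec K178.h2) (blkPos_append (sheet_spec K178.h3) (blkPos_append (sheet_spec K178.h4) (blkPos_append (sheet_spec K178.h5) (blkPos_append (sheet_spec K178.h6) (blkPos_append (sheet_spec K178.h7) (blkPos_append (sheet_spec K178.h8) (blkPos_append (sheet_spec K178.h9) (blkPos_append (sheet_spec K178.h10) (blkPos_append (sheet_spec K178.h11) (sheet_spec K178.h12))))))))))))) K178.cv hnk ha ha3 hT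

theorem pos179 {n a : ℕ} (hnk : Even (n * 179)) (ha : Odd a) (ha3 : 3 ≤ a) (hT : a * (n + 179) < 895) :
    Pos n 179 a :=
  pos_of_sheets (blkPos_append (sheet_spec K179.h0) (blkPos_append (sheet_spec K179.h1) (blkPos_append (sheet_spec K179.h2) (blkPos_append (sheet_spec K179.h3) (blkPos_append (sheet_spec K179.h4) (blkPos_append (sheet_spec K179.h5) (blkPos_append (sheet_spec K179.h6) (blkPos_append (sheet_spec K179.h7) (blkPos_append (sheet_spec K179.h8) (blkPos_append (sheet_spec K179.h9) (blkPos_append (sheet_spec K179.h10) (blkPos_append (sheet_spec K179.h11) (sheet_spec K179.h12))))))))))))) K179.cv hnk ha ha3 hT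

theorem pos180 {n a : ℕ} (hnk : Even (n * 180)) (ha : Odd a) (ha3 : 3 ≤ a) (hT : a * (n + 180) < 900) :
    Pos n 180 a :=
  pos_of_sheets (blkPos_append (sheet_spec K180.h0) (blkPos_append (sheet_spec K180.h1) (blkPos_append (sheet_spec K180.h2) (blkPos_append (sheet_spec K180.h3) (blkPos_append (sheet_spec K180.h4) (blkPos_append (sheet_spec K180.h5) (blkPos_append (sheet_spec K180.h6) (blkPos_append (sheet_spec K180.h7) (blkPos_append (sheet_spec K180.h8) (blkPos_append (sheet_spec K180.h9) (blkPos_append (sheet_spec K180.h10) (blkPos_append (sheet_spec K180.h11) (sheet_spec K180.h12))))))))))))) K180.cv hnk ha ha3 hT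

theorem pos181 {n a : ℕ} (hnk : Even (n * 181)) (ha : Odd a) (ha3 : 3 ≤ a) (hT : a * (n + 181) < 905) :
    Pos n 181 a :=
  pos_of_sheets (blkPos_append (sheet_spec K181.h0) (blkPos_append (sheet_spec K181.h1) (blkPos_append (sheet_spec K181.h2) (blkPos_append (sheet_spec K181.h3) (blkPos_append (sheet_spec K181.h4) (blkPos_append (sheet_spec K181.h5) (blkPos_append (sheet_spec K181.h6) (blkPos_append (sheet_spec K181.h7) (blkPos_append (sheet_spec K181.h8) (blkPos_append (sheet_spec K181.h9) (blkPos_append (sheet_spec K181.h10) (blkPos_append (sheet_spec K181.h11) (sheet_spec K181.h12))))))))))))) K181.cv hnk ha ha3 hT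

theorem pos182 {n a : ℕ} (hnk : Even (n * 182)) (ha : Odd a) (ha3 : 3 ≤ a) (hT : a * (n + 182) < 910) :
    Pos n 182 a :=
  pos_of_sheets (blkPos_append (sheet_spec K182.h0) (blkPos_append (sheet_spec K182.h1) (blkPos_append (sheet_spec K182.h2) (blkPos_append (sheet_spec K182.h3) (blkPos_append (sheet_spec K182.h4) (blkPos_append (sheet_spec K182.h5) (blkPos_append (sheet_spec K182.h6) (blkPos_append (sheet_spec K182.h7) (blkPos_append (sheet_spec K182.h8) (blkPos_append (sheet_spec K182.h9) (blkPos_append (sheet_spec K182.h10) (blkPos_append (sheet_spec K182.h11) (blkPos_append (sheet_spec K182.h12) (sheet_spec K182.h13)))))))))))))) K182.cv hnk ha ha3 hT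

theorem pos183 {n a : ℕ} (hnk : Even (n * 183)) (ha : Odd a) (ha3 : 3 ≤ a) (hT : a * (n + 183) < 915) :
    Pos n 183 a :=
  pos_of_sheets (blkPos_append (sheet_spec K183.h0) (blkPos_append (sheet_spec K183.h1) (blkPos_append (sheet_spec K183.h2) (blkPos_append (sheet_spec K183.h3) (blkPos_append (sheet_spec K183.h4) (blkPos_append (sheet_spec K183.h5) (blkPos_append (sheet_spec K183.h6) (blkPos_append (sheet_spec K183.h7) (blkPos_append (sheet_spec K183.h8) (blkPos_append (sheet_spec K183.h9) (blkPos_append (sheet_spec K183.h10) (blkPos_append (sheet_spec K183.h11) (blkPos_append (sheet_spec K183.h12) (sheet_spec K183.h13)))))))))))))) K183.cv hnk ha ha3 hT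

theorem pos184 {n a : ℕ} (hnk : Even (n * 184)) (ha : Odd a) (ha3 : 3 ≤ a) (hT : a * (n + 184) < 920) :
    Pos n 184 a :=
  pos_of_sheets (blkPos_append (sheet_spec K184.h0) (blkPos_append (sheet_spec K184.h1) (blkPos_append (sheet_spec K184.h2) (blkPos_append (sheet_spec K184.h3) (blkPos_append (sheet_spec K184.h4) (blkPos_append (sheet_spec K184.h5) (blkPos_append (sheet_spec K184.h6) (blkPos_append (sheet_spec K184.h7) (blkPos_append (sheet_spec K184.h8) (blkPos_append (sheet_spec K184.h9) (blkPos_append (sheet_spec K184.h10) (blkPos_append (sheet_spec K184.h11) (blkPos_append (sheet_spec K184.h12) (sheet_spec K184.h13)))))))))))))) K184.cv hnk ha ha3 hT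

theorem pos185 {n a : ℕ} (hnk : Even (n * 185)) (ha : Odd a) (ha3 : 3 ≤ a) (hT : a * (n + 185) < 925) :
    Pos n 185 a :=
  pos_of_sheets (blkPos_append (sheet_spec K185.h0) (blkPos_append (sheet_spec K185.h1) (blkPos_append (sheet_spec K185.h2) (blkPos_append (sheet_spec K185.h3) (blkPos_append (sheet_spec K185.h4) (blkPos_append (sheet_spec K185.h5) (blkPos_append (sheet_spec K185.h6) (blkPos_append (sheet_spec K185.h7) (blkPos_append (sheet_spec K185.h8) (blkPos_append (sheet_spec K185.h9) (blkPos_append (sheet_spec K185.h10) (blkPos_append (sheet_spec K185.h11) (blkPos_append (sheet_spec K185.h12) (blkPos_append (sheet_spec K185.h13) (sheet_spec K185.h14))))))))))))))) K185.cv hnk ha ha3 hT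

theorem pos186 {n a : ℕ} (hnk : Even (n * 186)) (ha : Odd a) (ha3 : 3 ≤ a) (hT : a * (n + 186) < 930) :
    Pos n 186 a :=
  pos_of_sheets (blkPos_append (sheet_spec K186.h0) (blkPos_append (sheet_spec K186.h1) (blkPos_append (sheet_spec K186.h2) (blkPos_append (sheet_spec K186.h3) (blkPos_append (sheet_spec K186.h4) (blkPos_append (sheet_spec K186.h5) (blkPos_append (sheet_spec K186.h6) (blkPos_append (sheet_spec K186.h7) (blkPos_append (sheet_spec K186.h8) (blkPos_append (sheet_spec K186.h9) (blkPos_append (sheet_spec K186.h10) (blkPos_append (sheet_spec K186.h11) (blkPos_append (sheet_spec K186.h12) (blkPos_append (sheet_spec K186.h13) (sheet_spec K186.h14))))))))))))))) K186.cv hnk ha ha3 hT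

theorem pos187 {n a : ℕ} (hnk : Even (n * 187)) (ha : Odd a) (ha3 : 3 ≤ a) (hT : a * (n + 187) < 935) :
    Pos n 187 a :=
  pos_of_sheets (blkPos_append (sheet_spec K187.h0) (blkPos_append (sheet_spec K187.h1) (blkPos_append (sheet_spec K187.h2) (blkPos_append (sheet_spec K187.h3) (blkPos_append (sheet_spec K187.h4) (blkPos_append (sheet_spec K187.h5) (blkPos_append (sheet_spec K187.h6) (blkPos_append (sheet_spec K187.h7) (blkPos_append (sheet_spec K187.h8) (blkPos_append (sheet_spec K187.h9) (blkPos_append (sheet_spec K187.h10) (blkPos_append (sheet_spec K187.h11) (blkPos_append (sheet_spec K187.h12) (blkPos_append (sheet_spec K187.h13) (sheet_spec K187.h14))))))))))))))) K187.cv hnk ha ha3 hT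

theorem pos188 {n a : ℕ} (hnk : Even (n * 188)) (ha : Odd a) (ha3 : 3 ≤ a) (hT : a * (n + 188) < 940) :
    Pos n 188 a :=
  pos_of_sheets (blkPos_append (sheet_spec K188.h0) (blkPos_append (sheet_spec K188.h1) (blkPos_append (sheet_spec K188.h2) (blkPos_append (sheet_spec K188.h3) (blkPos_append (sheet_spec K188.h4) (blkPos_append (sheet_spec K188.h5) (blkPos_append (sheet_spec K188.h6) (blkPos_append (sheet_spec K188.h7) (blkPos_append (sheet_spec K188.h8) (blkPos_append (sheet_spec K188.h9) (blkPos_append (sheet_spec K188.h10) (blkPos_append (sheet_spec K188.h11) (blkPos_append (sheet_spec K188.h12) (blkPos_append (sheet_spec K188.h13) (blkPos_append (sheet_spec K188.h14) (sheet_spec K188.h15)))))))))))))))) K188.cv hnk ha ha3 hT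

theorem pos189 {n a : ℕ} (hnk : Even (n * 189)) (ha : Odd a) (ha3 : 3 ≤ a) (hT : a * (n + 189) < 945) :
    Pos n 189 a :=
  pos_of_sheets (blkPos_append (sheet_spec K189.h0) (blkPos_append (sheet_spec K189.h1) (blkPos_append (sheet_spec K189.h2) (blkPos_append (sheet_spec K189.h3) (blkPos_append (sheet_spec K189.h4) (blkPos_append (sheet_spec K189.h5) (blkPos_append (sheet_spec K189.h6) (blkPos_append (sheet_spec K189.h7) (blkPos_append (sheet_spec K189.h8) (blkPos_append (sheet_spec K189.h9) (blkPos_append (sheet_spec K189.h10) (blkPos_append (sheet_spec K189.h11) (blkPos_append (sheet_spec K189.h12) (blkPos_append (sheet_spec K189.h13) (blkPos_append (sheet_spec K189.h14) (sheet_spec K189.h15)))))))))))))))) K189.cv hnk ha ha3 hT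

theorem pos190 {n a : ℕ} (hnk : Even (n * 190)) (ha : Odd a) (ha3 : 3 ≤ a) (hT : a * (n + 190) < 950) :
    Pos n 190 a :=
  pos_of_sheets (blkPos_append (sheet_spec K190.h0) (blkPos_append (sheet_spec K190.h1) (blkPos_append (sheet_spec K190.h2) (blkPos_append (sheet_spec K190.h3) (blkPos_append (sheet_spec K190.h4) (blkPos_append (sheet_spec K190.h5) (blkPos_append (sheet_spec K190.h6) (blkPos_append (sheet_spec K190.h7) (blkPos_append (sheet_spec K190.h8) (blkPos_append (sheet_spec K190.h9) (blkPos_append (sheet_spec K190.h10) (blkPos_append (sheet_spec K190.h11) (blkPos_append (sheet_spec K190.h12) (blkPos_append (sheet_spec K190.h13) (blkPos_append (sheet_spec K190.h14) (sheet_spec K190.h15)))))))))))))))) K190.cv hnk ha ha3 hT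

theorem pos191 {n a : ℕ} (hnk : Even (n * 191)) (ha : Odd a) (ha3 : 3 ≤ a) (hT : a * (n + 191) < 955) :
    Pos n 191 a :=
  pos_of_sheets (blkPos_append (sheet_spec K191.h0) (blkPos_append (sheet_spec K191.h1) (blkPos_append (sheet_spec K191.h2) (blkPos_append (sheet_spec K191.h3) (blkPos_append (sheet_spec K191.h4) (blkPos_append (sheet_spec K191.h5) (blkPos_append (sheet_spec K191.h6) (blkPos_append (sheet_spec K191.h7) (blkPos_append (sheet_spec K191.h8) (blkPos_append (sheet_spec K191.h9) (blkPos_append (sheet_spec K191.h10) (blkPos_append (sheet_spec K191.h11) (blkPos_append (sheet_spec K191.h12) (blkPos_append (sheet_spec K191.h13) (blkPos_append (sheet_spec K191.h14) (blkPos_append (sheet_spec K191.h15) (sheet_spec K191.h16))))))))))))))))) K191.cv hnk ha ha3 hT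

theorem pos192 {n a : ℕ} (hnk : Even (n * 192)) (ha : Odd a) (ha3 : 3 ≤ a) (hT : a * (n + 192) < 960) :
    Pos n 192 a :=
  pos_of_sheets (blkPos_append (sheet_spec K192.h0) (blkPos_append (sheet_spec K192.h1) (blkPos_append (sheet_spec K192.h2) (blkPos_append (sheet_spec K192.h3) (blkPos_append (sheet_spec K192.h4) (blkPos_append (sheet_spec K192.h5) (blkPos_append (sheet_spec K192.h6) (blkPos_append (sheet_spec K192.h7) (blkPos_append (sheet_spec K192.h8) (blkPos_append (sheet_spec K192.h9) (blkPos_append (sheet_spec K192.h10) (blkPos_append (sheet_spec K192.h11) (blkPos_append (sheet_spec K192.h12) (blkPos_append (sheet_spec K192.h13) (blkPos_append (sheet_spec K192.h14) (blkPos_append (sheet_spec K192.h15) (sheet_spec K192.h16))))))))))))))))) K192.cv hnk ha ha3 hT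

theorem pos193 {n a : ℕ} (hnk : Even (n * 193)) (ha : Odd a) (ha3 : 3 ≤ a) (hT : a * (n + 193) < 965) :
    Pos n 193 a :=
  pos_of_sheets (blkPos_append (sheet_spec K193.h0) (blkPos_append (sheet_spec K193.h1) (blkPos_append (sheet_spec K193.h2) (blkPos_append (sheet_spec K193.h3) (blkPos_append (sheet_spec K193.h4) (blkPos_append (sheet_spec K193.h5) (blkPos_append (sheet_spec K193.h6) (blkPos_append (sheet_spec K193.h7) (blkPos_append (sheet_spec K193.h8) (blkPos_append (sheet_spec K193.h9) (blkPos_append (sheet_spec K193.h10) (blkPos_append (sheet_spec K193.h11) (blkPos_append (sheet_spec K193.h12) (blkPos_append (sheet_spec K193.h13) (blkPos_append (sheet_spec K193.h14) (blkPos_append (sheet_spec K193.h15) (sheet_spec K193.h16))))))))))))))))) K193.cv hnk ha ha3 hT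

theorem pos194 {n a : ℕ} (hnk : Even (n * 194)) (ha : Odd a) (ha3 : 3 ≤ a) (hT : a * (n + 194) < 970) :
    Pos n 194 a :=
  pos_of_sheets (blkPos_append (sheet_spec K194.h0) (blkPos_append (sheet_spec K194.h1) (blkPos_append (sheet_spec K194.h2) (blkPos_append (sheet_spec K194.h3) (blkPos_append (sheet_spec K194.h4) (blkPos_append (sheet_spec K194.h5) (blkPos_append (sheet_spec K194.h6) (blkPos_append (sheet_spec K194.h7) (blkPos_append (sheet_spec K194.h8) (blkPos_append (sheet_spec K194.h9) (blkPos_append (sheet_spec K194.h10) (blkPos_append (sheet_spec K194.h11) (blkPos_append (sheet_spec K194.h12) (blkPos_append (sheet_spec K194.h13) (blkPos_append (sheet_spec K194.h14) (blkPos_append (sheet_spec K194.h15) (blkPos_append (sheet_spec K194.h16) (sheet_spec K194.h17)))))))))))))))))) K194.cv hnk ha ha3 hT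

theorem pos195 {n a : ℕ} (hnk : Even (n * 195)) (ha : Odd a) (ha3 : 3 ≤ a) (hT : a * (n + 195) < 975) :
    Pos n 195 a :=
  pos_of_sheets (blkPos_append (sheet_spec K195.h0) (blkPos_append (sheet_spec K195.h1) (blkPos_append (sheet_spec K195.h2) (blkPos_append (sheet_spec K195.h3) (blkPos_append (sheet_spec K195.h4) (blkPos_append (sheet_spec K195.h5) (blkPos_append (sheet_spec K195.h6) (blkPos_append (sheet_spec K195.h7) (blkPos_append (sheet_spec K195.h8) (blkPos_append (sheet_spec K195.h9) (blkPos_append (sheet_spec K195.h10) (blkPos_append (sheet_spec K195.h11) (blkPos_append (sheet_spec K195.h12) (blkPos_append (sheet_spec K195.h13) (blkPos_append (sheet_spec K195.h14) (blkPos_append (sheet_spec K195.h15) (blkPos_append (sheet_spec K195.h16) (sheet_spec K195.h17)))))))))))))))))) K195.cv hnk ha ha3 hT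

theorem pos196 {n a : ℕ} (hnk : Even (n * 196)) (ha : Odd a) (ha3 : 3 ≤ a) (hT : a * (n + 196) < 980) :
    Pos n 196 a :=
  pos_of_sheets (blkPos_append (sheet_spec K196.h0) (blkPos_append (sheet_spec K196.h1) (blkPos_append (sheet_spec K196.h2) (blkPos_append (sheet_spec K196.h3) (blkPos_append (sheet_spec K196.h4) (blkPos_append (sheet_spec K196.h5) (blkPos_append (sheet_spec K196.h6) (blkPos_append (sheet_spec K196.h7) (blkPos_append (sheet_spec K196.h8) (blkPos_append (sheet_spec K196.h9) (blkPos_append (sheet_spec K196.h10) (blkPos_append (sheet_spec K196.h11) (blkPos_append (sheet_spec K196.h12) (blkPos_append (sheet_spec K196.h13) (blkPos_append (sheet_spec K196.h14) (blkPos_append (sheet_spec K196.h15) (blkPos_append (sheet_spec K196.h16) (sheet_spec K196.h17)))))))))))))))))) K196.cv hnk ha ha3 hT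

theorem pos197 {n a : ℕ} (hnk : Even (n * 197)) (ha : Odd a) (ha3 : 3 ≤ a) (hT : a * (n + 197) < 985) :
    Pos n 197 a :=
  pos_of_sheets (blkPos_append (sheet_spec K197.h0) (blkPos_append (sheet_spec K197.h1) (blkPos_append (sheet_spec K197.h2) (blkPos_append (sheet_spec K197.h3) (blkPos_append (sheet_spec K197.h4) (blkPos_append (sheet_spec K197.h5) (blkPos_append (sheet_spec K197.h6) (blkPos_append (sheet_spec K197.h7) (blkPos_append (sheet_spec K197.h8) (blkPos_append (sheet_spec K197.h9) (blkPos_append (sheet_spec K197.h10) (blkPos_append (sheet_spec K197.h11) (blkPos_append (sheet_spec K197.h12) (blkPos_append (sheet_spec K197.h13) (blkPos_append (sheet_spec K197.h14) (blkPos_append (sheet_spec K197.h15) (blkPos_append (sheet_spec K197.h16) (blkPos_append (sheet_spec K197.h17) (sheet_spec K197.h18))))))))))))))))))) K197.cv hnk ha ha3 hT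

theorem pos198 {n a : ℕ} (hnk : Even (n * 198)) (ha : Odd a) (ha3 : 3 ≤ a) (hT : a * (n + 198) < 990) :
    Pos n 198 a :=
  pos_of_sheets (blkPos_append (sheet_spec K198.h0) (blkPos_append (sheet_spec K198.h1) (blkPos_append (sheet_spec K198.h2) (blkPos_append (sheet_spec K198.h3) (blkPos_append (sheet_spec K198.h4) (blkPos_append (sheet_spec K198.h5) (blkPos_append (sheet_spec K198.h6) (blkPos_append (sheet_spec K198.h7) (blkPos_append (sheet_spec K198.h8) (blkPos_append (sheet_spec K198.h9) (blkPos_append (sheet_spec K198.h10) (blkPos_append (sheet_spec K198.h11) (blkPos_append (sheet_spec K198.h12) (blkPos_append (sheet_spec K198.h13) (blkPos_append (sheet_spec K198.h14) (blkPos_append (sheet_spec K198.h15) (blkPos_append (sheet_spec K198.h16) (blkPos_append (sheet_spec K198.h17) (sheet_spec K198.h18))))))))))))))))))) K198.cv hnk ha ha3 hT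

theorem pos199 {n a : ℕ} (hnk : Even (n * 199)) (ha : Odd a) (ha3 : 3 ≤ a) (hT : a * (n + 199) < 995) :
    Pos n 199 a :=
  pos_of_sheets (blkPos_append (sheet_spec K199.h0) (blkPos_append (sheet_spec K199.h1) (blkPos_append (sheet_spec K199.h2) (blkPos_append (sheet_spec K199.h3) (blkPos_append (sheet_spec K199.h4) (blkPos_append (sheet_spec K199.h5) (blkPos_append (sheet_spec K199.h6) (blkPos_append (sheet_spec K199.h7) (blkPos_append (sheet_spec K199.h8) (blkPos_append (sheet_spec K199.h9) (blkPos_append (sheet_spec K199.h10) (blkPos_append (sheet_spec K199.h11) (blkPos_append (sheet_spec K199.h12) (blkPos_append (sheet_spec K199.h13) (blkPos_append (sheet_spec K199.h14) (blkPos_append (sheet_spec K199.h15) (blkPos_append (sheet_spec K199.h16) (blkPos_append (sheet_spec K199.h17) (blkPos_append (sheet_spec K199.h18) (sheet_spec K199.h19)))))))))))))))))))) K199.cv hnk ha ha3 hT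

end Pool.Agent.SignedQ.KE
end

section

/-!
# Positivity from one block
-/

set_option autoImplicit false

namespace Pool.Agent.SignedQ.KE

open Pool.Agent.SignedQ.KD (Pos)

theorem pos_of_blk {k c : ℕ} {r : ℕ × ℕ × ℕ × ℕ × ℕ} (hr : BlkPos k c r) {n : ℕ} (i : ℕ)
    (hi : r.2.2.2.1 ≤ i) (hi' : i < r.2.2.2.1 + r.2.2.2.2) (h1 : r.2.1 ≤ (2 * i + 3) * (n + c))
    (h2 : (2 * i + 3) * (n + c) < r.2.2.1) (hnk : Even (n * k)) : Pos n k (2 * i + 3) := by
  intro f hf
  have hodd : Odd (2 * i + 3) := ⟨i + 1, by ring⟩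
  refine half hnk hodd hf fun M hM => ?_
  rw [KC.coeff_poly hf M]
  exact_mod_cast hr i hi hi' n h1 h2 hnk M (KD.half1_bound (by omega) hf hM)

/-- one sheet with one block, `a = 5`, the first `n`s -/
theorem pos_five {k B Mx e m T : ℕ} (h : sheet k k B Mx e m [(1, 5 * k, T, 1, 1)] = true)
    {n : ℕ} (hT : 5 * (n + k) < T) (hnk : Even (n * k)) : Pos n k 5 :=
  pos_of_blk (sheet_spec h _ List.mem_cons_self) 1 (le_refl 1) (by show 1 < 1 + 1; omega)
    (by show 5 * k ≤ (2 * 1 + 3) * (n + k); omega) (by show (2 * 1 + 3) * (n + k) < T; omega) hnk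

end Pool.Agent.SignedQ.KE
end

section

/-!
# `a = 5`, `100 ≤ k < 140`, `20 n < k`
-/

set_option autoImplicit false

namespace Pool.Agent.SignedQ.KE

open Pool.Agent.SignedQ.KD (Pos)

theorem five100 {n : ℕ} (hT : 20 * n < 100) (hnk : Even (n * 100)) : Pos n 100 5 :=
  pos_five Five.h100 (by omega) hnk

theorem five101 {n : ℕ} (hT : 20 * n < 101) (hnk : Even (n * 101)) : Pos n 101 5 :=
  pos_five Five.h101 (by omega) hnk

theorem five102 {n : ℕ} (hT : 20 * n < 102) (hnk : Even (n * 102)) : Pos n 102 5 :=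
  pos_five Five.h102 (by omega) hnk

theorem five103 {n : ℕ} (hT : 20 * n < 103) (hnk : Even (n * 103)) : Pos n 103 5 :=
  pos_five Five.h103 (by omega) hnk

theorem five104 {n : ℕ} (hT : 20 * n < 104) (hnk : Even (n * 104)) : Pos n 104 5 :=
  pos_five Five.h104 (by omega) hnk

theorem five105 {n : ℕ} (hT : 20 * n < 105) (hnk : Even (n * 105)) : Pos n 105 5 :=
  pos_five Five.h105 (by omega) hnk

theorem five106 {n : ℕ} (hT : 20 * n < 106) (hnk : Even (n * 106)) : Pos n 106 5 :=
  pos_five Five.h106 (by omega) hnk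

theorem five107 {n : ℕ} (hT : 20 * n < 107) (hnk : Even (n * 107)) : Pos n 107 5 :=
  pos_five Five.h107 (by omega) hnk

theorem five108 {n : ℕ} (hT : 20 * n < 108) (hnk : Even (n * 108)) : Pos n 108 5 :=
  pos_five Five.h108 (by omega) hnk

theorem five109 {n : ℕ} (hT : 20 * n < 109) (hnk : Even (n * 109)) : Pos n 109 5 :=
  pos_five Five.h109 (by omega) hnk

theorem five110 {n : ℕ} (hT : 20 * n < 110) (hnk : Even (n * 110)) : Pos n 110 5 :=
  pos_five Five.h110 (by omega) hnk

theorem five111 {n : ℕ} (hT : 20 * n < 111) (hnk : Even (n * 111)) : Pos n 111 5 :=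
  pos_five Five.h111 (by omega) hnk

theorem five112 {n : ℕ} (hT : 20 * n < 112) (hnk : Even (n * 112)) : Pos n 112 5 :=
  pos_five Five.h112 (by omega) hnk

theorem five113 {n : ℕ} (hT : 20 * n < 113) (hnk : Even (n * 113)) : Pos n 113 5 :=
  pos_five Five.h113 (by omega) hnk

theorem five114 {n : ℕ} (hT : 20 * n < 114) (hnk : Even (n * 114)) : Pos n 114 5 :=
  pos_five Five.h114 (by omega) hnk

theorem five115 {n : ℕ} (hT : 20 * n < 115) (hnk : Even (n * 115)) : Pos n 115 5 :=
  pos_five Five.h115 (by omega) hnk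

theorem five116 {n : ℕ} (hT : 20 * n < 116) (hnk : Even (n * 116)) : Pos n 116 5 :=
  pos_five Five.h116 (by omega) hnk

theorem five117 {n : ℕ} (hT : 20 * n < 117) (hnk : Even (n * 117)) : Pos n 117 5 :=
  pos_five Five.h117 (by omega) hnk

theorem five118 {n : ℕ} (hT : 20 * n < 118) (hnk : Even (n * 118)) : Pos n 118 5 :=
  pos_five Five.h118 (by omega) hnk

theorem five119 {n : ℕ} (hT : 20 * n < 119) (hnk : Even (n * 119)) : Pos n 119 5 :=
  pos_five Five.h119 (by omega) hnk

theorem five120 {n : ℕ} (hT : 20 * n < 120) (hnk : Even (n * 120)) : Pos n 120 5 :=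
  pos_five Five.h120 (by omega) hnk

theorem five121 {n : ℕ} (hT : 20 * n < 121) (hnk : Even (n * 121)) : Pos n 121 5 :=
  pos_five Five.h121 (by omega) hnk

theorem five122 {n : ℕ} (hT : 20 * n < 122) (hnk : Even (n * 122)) : Pos n 122 5 :=
  pos_five Five.h122 (by omega) hnk

theorem five123 {n : ℕ} (hT : 20 * n < 123) (hnk : Even (n * 123)) : Pos n 123 5 :=
  pos_five Five.h123 (by omega) hnk

theorem five124 {n : ℕ} (hT : 20 * n < 124) (hnk : Even (n * 124)) : Pos n 124 5 :=
  pos_five Five.h124 (by omega) hnk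

theorem five125 {n : ℕ} (hT : 20 * n < 125) (hnk : Even (n * 125)) : Pos n 125 5 :=
  pos_five Five.h125 (by omega) hnk

theorem five126 {n : ℕ} (hT : 20 * n < 126) (hnk : Even (n * 126)) : Pos n 126 5 :=
  pos_five Five.h126 (by omega) hnk

theorem five127 {n : ℕ} (hT : 20 * n < 127) (hnk : Even (n * 127)) : Pos n 127 5 :=
  pos_five Five.h127 (by omega) hnk

theorem five128 {n : ℕ} (hT : 20 * n < 128) (hnk : Even (n * 128)) : Pos n 128 5 :=
  pos_five Five.h128 (by omega) hnk

theorem five129 {n : ℕ} (hT : 20 * n < 129) (hnk : Even (n * 129)) : Pos n 129 5 :=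
  pos_five Five.h129 (by omega) hnk

theorem five130 {n : ℕ} (hT : 20 * n < 130) (hnk : Even (n * 130)) : Pos n 130 5 :=
  pos_five Five.h130 (by omega) hnk

theorem five131 {n : ℕ} (hT : 20 * n < 131) (hnk : Even (n * 131)) : Pos n 131 5 :=
  pos_five Five.h131 (by omega) hnk

theorem five132 {n : ℕ} (hT : 20 * n < 132) (hnk : Even (n * 132)) : Pos n 132 5 :=
  pos_five Five.h132 (by omega) hnk

theorem five133 {n : ℕ} (hT : 20 * n < 133) (hnk : Even (n * 133)) : Pos n 133 5 :=
  pos_five Five.h133 (by omega) hnk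

theorem five134 {n : ℕ} (hT : 20 * n < 134) (hnk : Even (n * 134)) : Pos n 134 5 :=
  pos_five Five.h134 (by omega) hnk

theorem five135 {n : ℕ} (hT : 20 * n < 135) (hnk : Even (n * 135)) : Pos n 135 5 :=
  pos_five Five.h135 (by omega) hnk

theorem five136 {n : ℕ} (hT : 20 * n < 136) (hnk : Even (n * 136)) : Pos n 136 5 :=
  pos_five Five.h136 (by omega) hnk

theorem five137 {n : ℕ} (hT : 20 * n < 137) (hnk : Even (n * 137)) : Pos n 137 5 :=
  pos_five Five.h137 (by omega) hnk

theorem five138 {n : ℕ} (hT : 20 * n < 138) (hnk : Even (n * 138)) : Pos n 138 5 :=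
  pos_five Five.h138 (by omega) hnk

theorem five139 {n : ℕ} (hT : 20 * n < 139) (hnk : Even (n * 139)) : Pos n 139 5 :=
  pos_five Five.h139 (by omega) hnk

end Pool.Agent.SignedQ.KE
end
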