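import Pool.Agent.Lib.MP_cf17a0_co.Mg.G055
import Pool.Agent.Lib.MP_cf17a0_co.S1.FD.K26
import Pool.Agent.Lib.MP_cf17a0_co.S1.FD.K27
import Pool.Agent.Lib.MP_cf17a0_co.S1.FD.K28
import Pool.Agent.Lib.MP_cf17a0_co.S1.FD.K29
import Pool.Agent.Lib.MP_cf17a0_co.S1.FD.K30
import Pool.Agent.Lib.MP_cf17a0_co.S1.FD.K31
import Pool.Agent.Lib.MP_cf17a0_co.S1.FD.K32
import Pool.Agent.Lib.MP_cf17a0_co.S1.FD.K33
import Pool.Agent.Lib.MP_cf17a0_co.S1.FD.K34
import Pool.Agent.Lib.MP_cf17a0_co.S1.FD.K35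
import Pool.Agent.Lib.MP_cf17a0_co.S1.FD.K36
import Pool.Agent.Lib.MP_cf17a0_co.S1.FD.K37
import Pool.Agent.Lib.MP_cf17a0_co.S1.FD.K38
import Pool.Agent.Lib.MP_cf17a0_co.S1.FD.K39
import Pool.Agent.Lib.MP_cf17a0_co.S1.FD.K40
import Pool.Agent.Lib.MP_cf17a0_co.S1.FD.K41
import Pool.Agent.Lib.MP_cf17a0_co.S1.FD.K42
import Pool.Agent.Lib.MP_cf17a0_co.S1.FD.K43
import Pool.Agent.Lib.MP_cf17a0_co.S1.FD.K44
import Pool.Agent.Lib.MP_cf17a0_co.S1.FD.K45
import Pool.Agent.Lib.MP_cf17a0_co.S1.FD.K46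
import Pool.Agent.Lib.MP_cf17a0_co.S1.FD.K47
import Pool.Agent.Lib.MP_cf17a0_co.S1.FD.K48
import Pool.Agent.Lib.MP_cf17a0_co.S1.FD.K49
import Pool.Agent.Lib.MP_cf17a0_co.S1.FD.K50
import Pool.Agent.Lib.MP_cf17a0_co.S1.FD.K51
import Pool.Agent.Lib.MP_cf17a0_co.S1.FD.K52
import Pool.Agent.Lib.MP_cf17a0_co.S1.FD.K53
import Pool.Agent.Lib.MP_cf17a0_co.S1.FD.K54
import Pool.Agent.Lib.MP_cf17a0_co.S1.FD.K55
import Pool.Agent.Lib.MP_cf17a0_co.S1.FD.K56
import Pool.Agent.Lib.MP_cf17a0_co.S1.FD.K57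
import Pool.Agent.Lib.MP_cf17a0_co.S1.FD.K58
import Pool.Agent.Lib.MP_cf17a0_co.S1.FD.K59
import Pool.Agent.Lib.MP_cf17a0_co.S1.FD.K60
import Pool.Agent.Lib.MP_cf17a0_co.S1.FD.K61
import Pool.Agent.Lib.MP_cf17a0_co.S1.FD.K62
import Pool.Agent.Lib.MP_cf17a0_co.S1.FD.K63
import Pool.Agent.Lib.MP_cf17a0_co.S1.FD.K64
import Pool.Agent.Lib.MP_cf17a0_co.S1.FD.K65
import Pool.Agent.Lib.MP_cf17a0_co.S1.FD.K66
import Pool.Agent.Lib.MP_cf17a0_co.S1.FD.K67
import Pool.Agent.Lib.MP_cf17a0_co.S1.FD.K68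
import Pool.Agent.Lib.MP_cf17a0_co.S1.FD.K69
import Pool.Agent.Lib.MP_cf17a0_co.S1.FD.K70
import Pool.Agent.Lib.MP_cf17a0_co.S1.FD.K71
import Pool.Agent.Lib.MP_cf17a0_co.S1.FD.K72
import Pool.Agent.Lib.MP_cf17a0_co.S1.FD.K73
import Pool.Agent.Lib.MP_cf17a0_co.S1.FD.K74
import Pool.Agent.Lib.MP_cf17a0_co.S1.FD.K75
import Pool.Agent.Lib.MP_cf17a0_co.S1.FD.K76
import Pool.Agent.Lib.MP_cf17a0_co.S1.FD.K77
import Pool.Agent.Lib.MP_cf17a0_co.S1.FD.K78
import Pool.Agent.Lib.MP_cf17a0_co.S1.FD.K79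
import Pool.Agent.Lib.MP_cf17a0_co.S1.FD.K80
import Pool.Agent.Lib.MP_cf17a0_co.S1.FD.K81
import Pool.Agent.Lib.MP_cf17a0_co.S1.FD.K82
import Pool.Agent.Lib.MP_cf17a0_co.S1.FD.K83
import Pool.Agent.Lib.MP_cf17a0_co.S1.FD.K84
import Pool.Agent.Lib.MP_cf17a0_co.S1.FD.K85
import Pool.Agent.Lib.MP_cf17a0_co.S1.FD.K86
import Pool.Agent.Lib.MP_cf17a0_co.S1.FD.K87
import Pool.Agent.Lib.MP_cf17a0_co.S1.FD.K88
import Pool.Agent.Lib.MP_cf17a0_co.S1.FD.K89
import Pool.Agent.Lib.MP_cf17a0_co.S1.FD.K90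
import Pool.Agent.Lib.MP_cf17a0_co.S1.FD.K91
import Pool.Agent.Lib.MP_cf17a0_co.S1.FD.K92
import Pool.Agent.Lib.MP_cf17a0_co.S1.FD.K93
import Pool.Agent.Lib.MP_cf17a0_co.S1.FD.K94
import Pool.Agent.Lib.MP_cf17a0_co.S1.FD.K95
import Pool.Agent.Lib.MP_cf17a0_co.S1.FD.K96
import Pool.Agent.Lib.MP_cf17a0_co.S1.FD.K97
import Pool.Agent.Lib.MP_cf17a0_co.S1.FD.K98
import Pool.Agent.Lib.MP_cf17a0_co.S1.FD.K99
import Pool.Agent.Lib.MP_cf17a0_co.S1.FD.K100
import Pool.Agent.Lib.MP_cf17a0_co.S1.FD.K101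
import Pool.Agent.Lib.MP_cf17a0_co.S1.FD.K102
import Pool.Agent.Lib.MP_cf17a0_co.S1.FD.K103
import Pool.Agent.Lib.MP_cf17a0_co.S1.FD.K104
import Pool.Agent.Lib.MP_cf17a0_co.S1.FD.K105
import Pool.Agent.Lib.MP_cf17a0_co.S1.FD.K106
import Pool.Agent.Lib.MP_cf17a0_co.S1.FD.K107
import Pool.Agent.Lib.MP_cf17a0_co.S1.FD.K108
import Pool.Agent.Lib.MP_cf17a0_co.S1.FD.K109
import Pool.Agent.Lib.MP_cf17a0_co.S1.FD.K110
import Pool.Agent.Lib.MP_cf17a0_co.S1.FD.K111
import Pool.Agent.Lib.MP_cf17a0_co.S1.FD.K112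
import Pool.Agent.Lib.MP_cf17a0_co.S1.FD.K113
import Pool.Agent.Lib.MP_cf17a0_co.S1.FD.K114
import Pool.Agent.Lib.MP_cf17a0_co.S1.FD.K115
import Pool.Agent.Lib.MP_cf17a0_co.S1.FD.K116
import Pool.Agent.Lib.MP_cf17a0_co.S1.FD.K117
import Pool.Agent.Lib.MP_cf17a0_co.S1.FD.K118
import Pool.Agent.Lib.MP_cf17a0_co.S1.FD.K119
import Pool.Agent.Lib.MP_cf17a0_co.S1.FD.K120
import Pool.Agent.Lib.MP_cf17a0_co.S1.FD.K121
import Pool.Agent.Lib.MP_cf17a0_co.S1.FD.K122
import Pool.Agent.Lib.MP_cf17a0_co.S1.FD.K123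
import Pool.Agent.Lib.MP_cf17a0_co.S1.FD.K124
import Pool.Agent.Lib.MP_cf17a0_co.S1.FD.K125
import Pool.Agent.Lib.MP_cf17a0_co.S1.FD.K126
import Pool.Agent.Lib.MP_cf17a0_co.S1.FD.K127
import Pool.Agent.Lib.MP_cf17a0_co.S1.FD.K128
import Pool.Agent.Lib.MP_cf17a0_co.S1.FD.K129
import Pool.Agent.Lib.MP_cf17a0_co.S1.FD.K130
import Pool.Agent.Lib.MP_cf17a0_co.S1.FD.K131
import Pool.Agent.Lib.MP_cf17a0_co.S1.FD.K132
import Pool.Agent.Lib.MP_cf17a0_co.S1.FD.K133
import Pool.Agent.Lib.MP_cf17a0_co.S1.FD.K134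
import Pool.Agent.Lib.MP_cf17a0_co.S1.FD.K135
import Pool.Agent.Lib.MP_cf17a0_co.S1.FD.K136
import Pool.Agent.Lib.MP_cf17a0_co.S1.FD.K137
import Pool.Agent.Lib.MP_cf17a0_co.S1.FD.K138
import Pool.Agent.Lib.MP_cf17a0_co.S1.FD.K139
import Pool.Agent.Lib.MP_cf17a0_co.S1.FD.K140
import Pool.Agent.Lib.MP_cf17a0_co.S1.FD.K141
import Pool.Agent.Lib.MP_cf17a0_co.S1.FD.K142
import Pool.Agent.Lib.MP_cf17a0_co.S1.FD.K143
import Pool.Agent.Lib.MP_cf17a0_co.S1.FD.K144
import Pool.Agent.Lib.MP_cf17a0_co.S1.FD.K145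
import Pool.Agent.Lib.MP_cf17a0_co.S1.FD.K146
import Pool.Agent.Lib.MP_cf17a0_co.S1.FD.K147
import Pool.Agent.Lib.MP_cf17a0_co.S1.FD.K148
import Pool.Agent.Lib.MP_cf17a0_co.S1.FD.K149
import Pool.Agent.Lib.MP_cf17a0_co.S1.Dom
import Pool.Agent.Lib.MP_cf17a0_co.Mg.G057

section

/-!
# FD: positivity for the pairs checked by the kernel, `26 ≤ k < 100`
-/

set_option autoImplicit false

namespace Pool.Agent.SignedQ.KE

open Pool.Agent.SignedQ.KD (Pos)

theorem pos26 {n a : ℕ} (hnk : Even (n * 26)) (ha : Odd a) (ha3 : 3 ≤ a) (hT : a * (n + 26) < 806) :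
    Pos n 26 a :=
  pos_of_sheets (blkPos_append (sheet_spec K26.h0) (blkPos_append (sheet_spec K26.h1) (sheet_spec K26.h2))) K26.cv hnk ha ha3 hT

theorem pos27 {n a : ℕ} (hnk : Even (n * 27)) (ha : Odd a) (ha3 : 3 ≤ a) (hT : a * (n + 27) < 837) :
    Pos n 27 a :=
  pos_of_sheets (blkPos_append (sheet_spec K27.h0) (blkPos_append (sheet_spec K27.h1) (blkPos_append (sheet_spec K27.h2) (sheet_spec K27.h3)))) K27.cv hnk ha ha3 hT

theorem pos28 {n a : ℕ} (hnk : Even (n * 28)) (ha : Odd a) (ha3 : 3 ≤ a) (hT : a * (n + 28) < 868) :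
    Pos n 28 a :=
  pos_of_sheets (blkPos_append (sheet_spec K28.h0) (blkPos_append (sheet_spec K28.h1) (sheet_spec K28.h2))) K28.cv hnk ha ha3 hT

theorem pos29 {n a : ℕ} (hnk : Even (n * 29)) (ha : Odd a) (ha3 : 3 ≤ a) (hT : a * (n + 29) < 899) :
    Pos n 29 a :=
  pos_of_sheets (blkPos_append (sheet_spec K29.h0) (blkPos_append (sheet_spec K29.h1) (blkPos_append (sheet_spec K29.h2) (sheet_spec K29.h3)))) K29.cv hnk ha ha3 hT

theorem pos30 {n a : ℕ} (hnk : Even (n * 30)) (ha : Odd a) (ha3 : 3 ≤ a) (hT : a * (n + 30) < 600) :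
    Pos n 30 a :=
  pos_of_sheets (blkPos_append (sheet_spec K30.h0) (blkPos_append (sheet_spec K30.h1) (sheet_spec K30.h2))) K30.cv hnk ha ha3 hT

theorem pos31 {n a : ℕ} (hnk : Even (n * 31)) (ha : Odd a) (ha3 : 3 ≤ a) (hT : a * (n + 31) < 620) :
    Pos n 31 a :=
  pos_of_sheets (blkPos_append (sheet_spec K31.h0) (sheet_spec K31.h1)) K31.cv hnk ha ha3 hT

theorem pos32 {n a : ℕ} (hnk : Even (n * 32)) (ha : Odd a) (ha3 : 3 ≤ a) (hT : a * (n + 32) < 640) :
    Pos n 32 a :=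
  pos_of_sheets (blkPos_append (sheet_spec K32.h0) (blkPos_append (sheet_spec K32.h1) (blkPos_append (sheet_spec K32.h2) (sheet_spec K32.h3)))) K32.cv hnk ha ha3 hT

theorem pos33 {n a : ℕ} (hnk : Even (n * 33)) (ha : Odd a) (ha3 : 3 ≤ a) (hT : a * (n + 33) < 660) :
    Pos n 33 a :=
  pos_of_sheets (blkPos_append (sheet_spec K33.h0) (blkPos_append (sheet_spec K33.h1) (blkPos_append (sheet_spec K33.h2) (sheet_spec K33.h3)))) K33.cv hnk ha ha3 hT

theorem pos34 {n a : ℕ} (hnk : Even (n * 34)) (ha : Odd a) (ha3 : 3 ≤ a) (hT : a * (n + 34) < 680) :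
    Pos n 34 a :=
  pos_of_sheets (blkPos_append (sheet_spec K34.h0) (blkPos_append (sheet_spec K34.h1) (sheet_spec K34.h2))) K34.cv hnk ha ha3 hT

theorem pos35 {n a : ℕ} (hnk : Even (n * 35)) (ha : Odd a) (ha3 : 3 ≤ a) (hT : a * (n + 35) < 700) :
    Pos n 35 a :=
  pos_of_sheets (blkPos_append (sheet_spec K35.h0) (blkPos_append (sheet_spec K35.h1) (blkPos_append (sheet_spec K35.h2) (sheet_spec K35.h3)))) K35.cv hnk ha ha3 hT

theorem pos36 {n a : ℕ} (hnk : Even (n * 36)) (ha : Odd a) (ha3 : 3 ≤ a) (hT : a * (n + 36) < 720) :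
    Pos n 36 a :=
  pos_of_sheets (blkPos_append (sheet_spec K36.h0) (blkPos_append (sheet_spec K36.h1) (sheet_spec K36.h2))) K36.cv hnk ha ha3 hT

theorem pos37 {n a : ℕ} (hnk : Even (n * 37)) (ha : Odd a) (ha3 : 3 ≤ a) (hT : a * (n + 37) < 740) :
    Pos n 37 a :=
  pos_of_sheets (blkPos_append (sheet_spec K37.h0) (blkPos_append (sheet_spec K37.h1) (blkPos_append (sheet_spec K37.h2) (sheet_spec K37.h3)))) K37.cv hnk ha ha3 hT

theorem pos38 {n a : ℕ} (hnk : Even (n * 38)) (ha : Odd a) (ha3 : 3 ≤ a) (hT : a * (n + 38) < 760) :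
    Pos n 38 a :=
  pos_of_sheets (blkPos_append (sheet_spec K38.h0) (blkPos_append (sheet_spec K38.h1) (blkPos_append (sheet_spec K38.h2) (sheet_spec K38.h3)))) K38.cv hnk ha ha3 hT

theorem pos39 {n a : ℕ} (hnk : Even (n * 39)) (ha : Odd a) (ha3 : 3 ≤ a) (hT : a * (n + 39) < 780) :
    Pos n 39 a :=
  pos_of_sheets (blkPos_append (sheet_spec K39.h0) (blkPos_append (sheet_spec K39.h1) (blkPos_append (sheet_spec K39.h2) (blkPos_append (sheet_spec K39.h3) (sheet_spec K39.h4))))) K39.cv hnk ha ha3 hT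

theorem pos40 {n a : ℕ} (hnk : Even (n * 40)) (ha : Odd a) (ha3 : 3 ≤ a) (hT : a * (n + 40) < 800) :
    Pos n 40 a :=
  pos_of_sheets (blkPos_append (sheet_spec K40.h0) (blkPos_append (sheet_spec K40.h1) (blkPos_append (sheet_spec K40.h2) (blkPos_append (sheet_spec K40.h3) (sheet_spec K40.h4))))) K40.cv hnk ha ha3 hT

theorem pos41 {n a : ℕ} (hnk : Even (n * 41)) (ha : Odd a) (ha3 : 3 ≤ a) (hT : a * (n + 41) < 820) :
    Pos n 41 a :=
  pos_of_sheets (blkPos_append (sheet_spec K41.h0) (blkPos_append (sheet_spec K41.h1) (blkPos_append (sheet_spec K41.h2) (sheet_spec K41.h3)))) K41.cv hnk ha ha3 hT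

theorem pos42 {n a : ℕ} (hnk : Even (n * 42)) (ha : Odd a) (ha3 : 3 ≤ a) (hT : a * (n + 42) < 840) :
    Pos n 42 a :=
  pos_of_sheets (blkPos_append (sheet_spec K42.h0) (blkPos_append (sheet_spec K42.h1) (blkPos_append (sheet_spec K42.h2) (blkPos_append (sheet_spec K42.h3) (blkPos_append (sheet_spec K42.h4) (sheet_spec K42.h5)))))) K42.cv hnk ha ha3 hT

theorem pos43 {n a : ℕ} (hnk : Even (n * 43)) (ha : Odd a) (ha3 : 3 ≤ a) (hT : a * (n + 43) < 860) :
    Pos n 43 a :=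
  pos_of_sheets (blkPos_append (sheet_spec K43.h0) (blkPos_append (sheet_spec K43.h1) (blkPos_append (sheet_spec K43.h2) (blkPos_append (sheet_spec K43.h3) (blkPos_append (sheet_spec K43.h4) (blkPos_append (sheet_spec K43.h5) (sheet_spec K43.h6))))))) K43.cv hnk ha ha3 hT

theorem pos44 {n a : ℕ} (hnk : Even (n * 44)) (ha : Odd a) (ha3 : 3 ≤ a) (hT : a * (n + 44) < 880) :
    Pos n 44 a :=
  pos_of_sheets (blkPos_append (sheet_spec K44.h0) (blkPos_append (sheet_spec K44.h1) (blkPos_append (sheet_spec K44.h2) (blkPos_append (sheet_spec K44.h3) (blkPos_append (sheet_spec K44.h4) (blkPos_append (sheet_spec K44.h5) (sheet_spec K44.h6))))))) K44.cv hnk ha ha3 hT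

theorem pos45 {n a : ℕ} (hnk : Even (n * 45)) (ha : Odd a) (ha3 : 3 ≤ a) (hT : a * (n + 45) < 900) :
    Pos n 45 a :=
  pos_of_sheets (blkPos_append (sheet_spec K45.h0) (blkPos_append (sheet_spec K45.h1) (blkPos_append (sheet_spec K45.h2) (blkPos_append (sheet_spec K45.h3) (blkPos_append (sheet_spec K45.h4) (blkPos_append (sheet_spec K45.h5) (sheet_spec K45.h6))))))) K45.cv hnk ha ha3 hT

theorem pos46 {n a : ℕ} (hnk : Even (n * 46)) (ha : Odd a) (ha3 : 3 ≤ a) (hT : a * (n + 46) < 920) :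
    Pos n 46 a :=
  pos_of_sheets (blkPos_append (sheet_spec K46.h0) (blkPos_append (sheet_spec K46.h1) (blkPos_append (sheet_spec K46.h2) (blkPos_append (sheet_spec K46.h3) (blkPos_append (sheet_spec K46.h4) (blkPos_append (sheet_spec K46.h5) (blkPos_append (sheet_spec K46.h6) (blkPos_append (sheet_spec K46.h7) (sheet_spec K46.h8))))))))) K46.cv hnk ha ha3 hT

theorem pos47 {n a : ℕ} (hnk : Even (n * 47)) (ha : Odd a) (ha3 : 3 ≤ a) (hT : a * (n + 47) < 940) :
    Pos n 47 a :=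
  pos_of_sheets (blkPos_append (sheet_spec K47.h0) (blkPos_append (sheet_spec K47.h1) (blkPos_append (sheet_spec K47.h2) (blkPos_append (sheet_spec K47.h3) (blkPos_append (sheet_spec K47.h4) (blkPos_append (sheet_spec K47.h5) (blkPos_append (sheet_spec K47.h6) (blkPos_append (sheet_spec K47.h7) (blkPos_append (sheet_spec K47.h8) (sheet_spec K47.h9)))))))))) K47.cv hnk ha ha3 hT

theorem pos48 {n a : ℕ} (hnk : Even (n * 48)) (ha : Odd a) (ha3 : 3 ≤ a) (hT : a * (n + 48) < 960) :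
    Pos n 48 a :=
  pos_of_sheets (blkPos_append (sheet_spec K48.h0) (blkPos_append (sheet_spec K48.h1) (blkPos_append (sheet_spec K48.h2) (blkPos_append (sheet_spec K48.h3) (blkPos_append (sheet_spec K48.h4) (blkPos_append (sheet_spec K48.h5) (blkPos_append (sheet_spec K48.h6) (blkPos_append (sheet_spec K48.h7) (blkPos_append (sheet_spec K48.h8) (blkPos_append (sheet_spec K48.h9) (sheet_spec K48.h10))))))))))) K48.cv hnk ha ha3 hT

theorem pos49 {n a : ℕ} (hnk : Even (n * 49)) (ha : Odd a) (ha3 : 3 ≤ a) (hT : a * (n + 49) < 980) :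
    Pos n 49 a :=
  pos_of_sheets (blkPos_append (sheet_spec K49.h0) (blkPos_append (sheet_spec K49.h1) (blkPos_append (sheet_spec K49.h2) (blkPos_append (sheet_spec K49.h3) (blkPos_append (sheet_spec K49.h4) (blkPos_append (sheet_spec K49.h5) (blkPos_append (sheet_spec K49.h6) (blkPos_append (sheet_spec K49.h7) (blkPos_append (sheet_spec K49.h8) (sheet_spec K49.h9)))))))))) K49.cv hnk ha ha3 hT

theorem pos50 {n a : ℕ} (hnk : Even (n * 50)) (ha : Odd a) (ha3 : 3 ≤ a) (hT : a * (n + 50) < 1000) :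
    Pos n 50 a :=
  pos_of_sheets (blkPos_append (sheet_spec K50.h0) (blkPos_append (sheet_spec K50.h1) (blkPos_append (sheet_spec K50.h2) (blkPos_append (sheet_spec K50.h3) (blkPos_append (sheet_spec K50.h4) (blkPos_append (sheet_spec K50.h5) (blkPos_append (sheet_spec K50.h6) (blkPos_append (sheet_spec K50.h7) (blkPos_append (sheet_spec K50.h8) (sheet_spec K50.h9)))))))))) K50.cv hnk ha ha3 hT

theorem pos51 {n a : ℕ} (hnk : Even (n * 51)) (ha : Odd a) (ha3 : 3 ≤ a) (hT : a * (n + 51) < 1020) :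
    Pos n 51 a :=
  pos_of_sheets (blkPos_append (sheet_spec K51.h0) (blkPos_append (sheet_spec K51.h1) (blkPos_append (sheet_spec K51.h2) (blkPos_append (sheet_spec K51.h3) (blkPos_append (sheet_spec K51.h4) (blkPos_append (sheet_spec K51.h5) (blkPos_append (sheet_spec K51.h6) (blkPos_append (sheet_spec K51.h7) (blkPos_append (sheet_spec K51.h8) (blkPos_append (sheet_spec K51.h9) (blkPos_append (sheet_spec K51.h10) (sheet_spec K51.h11)))))))))))) K51.cv hnk ha ha3 hT

theorem pos52 {n a : ℕ} (hnk : Even (n * 52)) (ha : Odd a) (ha3 : 3 ≤ a) (hT : a * (n + 52) < 1040) :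
    Pos n 52 a :=
  pos_of_sheets (blkPos_append (sheet_spec K52.h0) (blkPos_append (sheet_spec K52.h1) (blkPos_append (sheet_spec K52.h2) (blkPos_append (sheet_spec K52.h3) (blkPos_append (sheet_spec K52.h4) (blkPos_append (sheet_spec K52.h5) (blkPos_append (sheet_spec K52.h6) (blkPos_append (sheet_spec K52.h7) (blkPos_append (sheet_spec K52.h8) (blkPos_append (sheet_spec K52.h9) (blkPos_append (sheet_spec K52.h10) (blkPos_append (sheet_spec K52.h11) (blkPos_append (sheet_spec K52.h12) (sheet_spec K52.h13)))))))))))))) K52.cv hnk ha ha3 hT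

theorem pos53 {n a : ℕ} (hnk : Even (n * 53)) (ha : Odd a) (ha3 : 3 ≤ a) (hT : a * (n + 53) < 1060) :
    Pos n 53 a :=
  pos_of_sheets (blkPos_append (sheet_spec K53.h0) (blkPos_append (sheet_spec K53.h1) (blkPos_append (sheet_spec K53.h2) (blkPos_append (sheet_spec K53.h3) (blkPos_append (sheet_spec K53.h4) (blkPos_append (sheet_spec K53.h5) (blkPos_append (sheet_spec K53.h6) (blkPos_append (sheet_spec K53.h7) (blkPos_append (sheet_spec K53.h8) (blkPos_append (sheet_spec K53.h9) (blkPos_append (sheet_spec K53.h10) (blkPos_append (sheet_spec K53.h11) (blkPos_append (sheet_spec K53.h12) (sheet_spec K53.h13)))))))))))))) K53.cv hnk ha ha3 hT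

theorem pos54 {n a : ℕ} (hnk : Even (n * 54)) (ha : Odd a) (ha3 : 3 ≤ a) (hT : a * (n + 54) < 1080) :
    Pos n 54 a :=
  pos_of_sheets (blkPos_append (sheet_spec K54.h0) (blkPos_append (sheet_spec K54.h1) (blkPos_append (sheet_spec K54.h2) (blkPos_append (sheet_spec K54.h3) (blkPos_append (sheet_spec K54.h4) (blkPos_append (sheet_spec K54.h5) (blkPos_append (sheet_spec K54.h6) (blkPos_append (sheet_spec K54.h7) (blkPos_append (sheet_spec K54.h8) (blkPos_append (sheet_spec K54.h9) (blkPos_append (sheet_spec K54.h10) (blkPos_append (sheet_spec K54.h11) (blkPos_append (sheet_spec K54.h12) (blkPos_append (sheet_spec K54.h13) (sheet_spec K54.h14))))))))))))))) K54.cv hnk ha ha3 hT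

theorem pos55 {n a : ℕ} (hnk : Even (n * 55)) (ha : Odd a) (ha3 : 3 ≤ a) (hT : a * (n + 55) < 1100) :
    Pos n 55 a :=
  pos_of_sheets (blkPos_append (sheet_spec K55.h0) (blkPos_append (sheet_spec K55.h1) (blkPos_append (sheet_spec K55.h2) (blkPos_append (sheet_spec K55.h3) (blkPos_append (sheet_spec K55.h4) (blkPos_append (sheet_spec K55.h5) (blkPos_append (sheet_spec K55.h6) (blkPos_append (sheet_spec K55.h7) (blkPos_append (sheet_spec K55.h8) (blkPos_append (sheet_spec K55.h9) (blkPos_append (sheet_spec K55.h10) (blkPos_append (sheet_spec K55.h11) (blkPos_append (sheet_spec K55.h12) (blkPos_append (sheet_spec K55.h13) (blkPos_append (sheet_spec K55.h14) (sheet_spec K55.h15)))))))))))))))) K55.cv hnk ha ha3 hT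

theorem pos56 {n a : ℕ} (hnk : Even (n * 56)) (ha : Odd a) (ha3 : 3 ≤ a) (hT : a * (n + 56) < 1120) :
    Pos n 56 a :=
  pos_of_sheets (blkPos_append (sheet_spec K56.h0) (blkPos_append (sheet_spec K56.h1) (blkPos_append (sheet_spec K56.h2) (blkPos_append (sheet_spec K56.h3) (blkPos_append (sheet_spec K56.h4) (blkPos_append (sheet_spec K56.h5) (blkPos_append (sheet_spec K56.h6) (blkPos_append (sheet_spec K56.h7) (blkPos_append (sheet_spec K56.h8) (blkPos_append (sheet_spec K56.h9) (blkPos_append (sheet_spec K56.h10) (blkPos_append (sheet_spec K56.h11) (blkPos_append (sheet_spec K56.h12) (blkPos_append (sheet_spec K56.h13) (blkPos_append (sheet_spec K56.h14) (blkPos_append (sheet_spec K56.h15) (sheet_spec K56.h16))))))))))))))))) K56.cv hnk ha ha3 hT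

theorem pos57 {n a : ℕ} (hnk : Even (n * 57)) (ha : Odd a) (ha3 : 3 ≤ a) (hT : a * (n + 57) < 1140) :
    Pos n 57 a :=
  pos_of_sheets (blkPos_append (sheet_spec K57.h0) (blkPos_append (sheet_spec K57.h1) (blkPos_append (sheet_spec K57.h2) (blkPos_append (sheet_spec K57.h3) (blkPos_append (sheet_spec K57.h4) (blkPos_append (sheet_spec K57.h5) (blkPos_append (sheet_spec K57.h6) (blkPos_append (sheet_spec K57.h7) (blkPos_append (sheet_spec K57.h8) (blkPos_append (sheet_spec K57.h9) (blkPos_append (sheet_spec K57.h10) (blkPos_append (sheet_spec K57.h11) (blkPos_append (sheet_spec K57.h12) (blkPos_append (sheet_spec K57.h13) (blkPos_append (sheet_spec K57.h14) (sheet_spec K57.h15)))))))))))))))) K57.cv hnk ha ha3 hT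

theorem pos58 {n a : ℕ} (hnk : Even (n * 58)) (ha : Odd a) (ha3 : 3 ≤ a) (hT : a * (n + 58) < 1160) :
    Pos n 58 a :=
  pos_of_sheets (blkPos_append (sheet_spec K58.h0) (blkPos_append (sheet_spec K58.h1) (blkPos_append (sheet_spec K58.h2) (blkPos_append (sheet_spec K58.h3) (blkPos_append (sheet_spec K58.h4) (blkPos_append (sheet_spec K58.h5) (blkPos_append (sheet_spec K58.h6) (blkPos_append (sheet_spec K58.h7) (blkPos_append (sheet_spec K58.h8) (blkPos_append (sheet_spec K58.h9) (blkPos_append (sheet_spec K58.h10) (blkPos_append (sheet_spec K58.h11) (blkPos_append (sheet_spec K58.h12) (blkPos_append (sheet_spec K58.h13) (blkPos_append (sheet_spec K58.h14) (blkPos_append (sheet_spec K58.h15) (blkPos_append (sheet_spec K58.h16) (blkPos_append (sheet_spec K58.h17) (sheet_spec K58.h18))))))))))))))))))) K58.cv hnk ha ha3 hT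

theorem pos59 {n a : ℕ} (hnk : Even (n * 59)) (ha : Odd a) (ha3 : 3 ≤ a) (hT : a * (n + 59) < 1180) :
    Pos n 59 a :=
  pos_of_sheets (blkPos_append (sheet_spec K59.h0) (blkPos_append (sheet_spec K59.h1) (blkPos_append (sheet_spec K59.h2) (blkPos_append (sheet_spec K59.h3) (blkPos_append (sheet_spec K59.h4) (blkPos_append (sheet_spec K59.h5) (blkPos_append (sheet_spec K59.h6) (blkPos_append (sheet_spec K59.h7) (blkPos_append (sheet_spec K59.h8) (blkPos_append (sheet_spec K59.h9) (blkPos_append (sheet_spec K59.h10) (blkPos_append (sheet_spec K59.h11) (blkPos_append (sheet_spec K59.h12) (blkPos_append (sheet_spec K59.h13) (blkPos_append (sheet_spec K59.h14) (blkPos_append (sheet_spec K59.h15) (blkPos_append (sheet_spec K59.h16) (blkPos_append (sheet_spec K59.h17) (blkPos_append (sheet_spec K59.h18) (blkPos_append (sheet_spec K59.h19) (sheet_spec K59.h20))))))))))))))))))))) K59.cv hnk ha ha3 hT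

theorem pos60 {n a : ℕ} (hnk : Even (n * 60)) (ha : Odd a) (ha3 : 3 ≤ a) (hT : a * (n + 60) < 480) :
    Pos n 60 a :=
  pos_of_sheets (blkPos_append (sheet_spec K60.h0) (sheet_spec K60.h1)) K60.cv hnk ha ha3 hT

theorem pos61 {n a : ℕ} (hnk : Even (n * 61)) (ha : Odd a) (ha3 : 3 ≤ a) (hT : a * (n + 61) < 488) :
    Pos n 61 a :=
  pos_of_sheets (blkPos_append (sheet_spec K61.h0) (blkPos_append (sheet_spec K61.h1) (sheet_spec K61.h2))) K61.cv hnk ha ha3 hT

theorem pos62 {n a : ℕ} (hnk : Even (n * 62)) (ha : Odd a) (ha3 : 3 ≤ a) (hT : a * (n + 62) < 496) :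
    Pos n 62 a :=
  pos_of_sheets (blkPos_append (sheet_spec K62.h0) (sheet_spec K62.h1)) K62.cv hnk ha ha3 hT

theorem pos63 {n a : ℕ} (hnk : Even (n * 63)) (ha : Odd a) (ha3 : 3 ≤ a) (hT : a * (n + 63) < 504) :
    Pos n 63 a :=
  pos_of_sheets (blkPos_append (sheet_spec K63.h0) (sheet_spec K63.h1)) K63.cv hnk ha ha3 hT

theorem pos64 {n a : ℕ} (hnk : Even (n * 64)) (ha : Odd a) (ha3 : 3 ≤ a) (hT : a * (n + 64) < 512) :
    Pos n 64 a :=
  pos_of_sheets (blkPos_append (sheet_spec K64.h0) (blkPos_append (sheet_spec K64.h1) (sheet_spec K64.h2))) K64.cv hnk ha ha3 hT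

theorem pos65 {n a : ℕ} (hnk : Even (n * 65)) (ha : Odd a) (ha3 : 3 ≤ a) (hT : a * (n + 65) < 520) :
    Pos n 65 a :=
  pos_of_sheets (blkPos_append (sheet_spec K65.h0) (blkPos_append (sheet_spec K65.h1) (sheet_spec K65.h2))) K65.cv hnk ha ha3 hT

theorem pos66 {n a : ℕ} (hnk : Even (n * 66)) (ha : Odd a) (ha3 : 3 ≤ a) (hT : a * (n + 66) < 528) :
    Pos n 66 a :=
  pos_of_sheets (blkPos_append (sheet_spec K66.h0) (blkPos_append (sheet_spec K66.h1) (blkPos_append (sheet_spec K66.h2) (sheet_spec K66.h3)))) K66.cv hnk ha ha3 hT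

theorem pos67 {n a : ℕ} (hnk : Even (n * 67)) (ha : Odd a) (ha3 : 3 ≤ a) (hT : a * (n + 67) < 536) :
    Pos n 67 a :=
  pos_of_sheets (blkPos_append (sheet_spec K67.h0) (blkPos_append (sheet_spec K67.h1) (blkPos_append (sheet_spec K67.h2) (sheet_spec K67.h3)))) K67.cv hnk ha ha3 hT

theorem pos68 {n a : ℕ} (hnk : Even (n * 68)) (ha : Odd a) (ha3 : 3 ≤ a) (hT : a * (n + 68) < 544) :
    Pos n 68 a :=
  pos_of_sheets (blkPos_append (sheet_spec K68.h0) (blkPos_append (sheet_spec K68.h1) (blkPos_append (sheet_spec K68.h2) (sheet_spec K68.h3)))) K68.cv hnk ha ha3 hT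

theorem pos69 {n a : ℕ} (hnk : Even (n * 69)) (ha : Odd a) (ha3 : 3 ≤ a) (hT : a * (n + 69) < 552) :
    Pos n 69 a :=
  pos_of_sheets (blkPos_append (sheet_spec K69.h0) (blkPos_append (sheet_spec K69.h1) (sheet_spec K69.h2))) K69.cv hnk ha ha3 hT

theorem pos70 {n a : ℕ} (hnk : Even (n * 70)) (ha : Odd a) (ha3 : 3 ≤ a) (hT : a * (n + 70) < 560) :
    Pos n 70 a :=
  pos_of_sheets (blkPos_append (sheet_spec K70.h0) (blkPos_append (sheet_spec K70.h1) (blkPos_append (sheet_spec K70.h2) (sheet_spec K70.h3)))) K70.cv hnk ha ha3 hT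

theorem pos71 {n a : ℕ} (hnk : Even (n * 71)) (ha : Odd a) (ha3 : 3 ≤ a) (hT : a * (n + 71) < 568) :
    Pos n 71 a :=
  pos_of_sheets (blkPos_append (sheet_spec K71.h0) (blkPos_append (sheet_spec K71.h1) (blkPos_append (sheet_spec K71.h2) (sheet_spec K71.h3)))) K71.cv hnk ha ha3 hT

theorem pos72 {n a : ℕ} (hnk : Even (n * 72)) (ha : Odd a) (ha3 : 3 ≤ a) (hT : a * (n + 72) < 576) :
    Pos n 72 a :=
  pos_of_sheets (blkPos_append (sheet_spec K72.h0) (blkPos_append (sheet_spec K72.h1) (blkPos_append (sheet_spec K72.h2) (blkPos_append (sheet_spec K72.h3) (sheet_spec K72.h4))))) K72.cv hnk ha ha3 hT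

theorem pos73 {n a : ℕ} (hnk : Even (n * 73)) (ha : Odd a) (ha3 : 3 ≤ a) (hT : a * (n + 73) < 584) :
    Pos n 73 a :=
  pos_of_sheets (blkPos_append (sheet_spec K73.h0) (blkPos_append (sheet_spec K73.h1) (blkPos_append (sheet_spec K73.h2) (sheet_spec K73.h3)))) K73.cv hnk ha ha3 hT

theorem pos74 {n a : ℕ} (hnk : Even (n * 74)) (ha : Odd a) (ha3 : 3 ≤ a) (hT : a * (n + 74) < 592) :
    Pos n 74 a :=
  pos_of_sheets (blkPos_append (sheet_spec K74.h0) (blkPos_append (sheet_spec K74.h1) (blkPos_append (sheet_spec K74.h2) (sheet_spec K74.h3)))) K74.cv hnk ha ha3 hT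

theorem pos75 {n a : ℕ} (hnk : Even (n * 75)) (ha : Odd a) (ha3 : 3 ≤ a) (hT : a * (n + 75) < 600) :
    Pos n 75 a :=
  pos_of_sheets (blkPos_append (sheet_spec K75.h0) (blkPos_append (sheet_spec K75.h1) (blkPos_append (sheet_spec K75.h2) (blkPos_append (sheet_spec K75.h3) (sheet_spec K75.h4))))) K75.cv hnk ha ha3 hT

theorem pos76 {n a : ℕ} (hnk : Even (n * 76)) (ha : Odd a) (ha3 : 3 ≤ a) (hT : a * (n + 76) < 608) :
    Pos n 76 a :=
  pos_of_sheets (blkPos_append (sheet_spec K76.h0) (blkPos_append (sheet_spec K76.h1) (blkPos_append (sheet_spec K76.h2) (blkPos_append (sheet_spec K76.h3) (sheet_spec K76.h4))))) K76.cv hnk ha ha3 hT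

theorem pos77 {n a : ℕ} (hnk : Even (n * 77)) (ha : Odd a) (ha3 : 3 ≤ a) (hT : a * (n + 77) < 616) :
    Pos n 77 a :=
  pos_of_sheets (blkPos_append (sheet_spec K77.h0) (blkPos_append (sheet_spec K77.h1) (blkPos_append (sheet_spec K77.h2) (sheet_spec K77.h3)))) K77.cv hnk ha ha3 hT

theorem pos78 {n a : ℕ} (hnk : Even (n * 78)) (ha : Odd a) (ha3 : 3 ≤ a) (hT : a * (n + 78) < 624) :
    Pos n 78 a :=
  pos_of_sheets (blkPos_append (sheet_spec K78.h0) (blkPos_append (sheet_spec K78.h1) (blkPos_append (sheet_spec K78.h2) (sheet_spec K78.h3)))) K78.cv hnk ha ha3 hT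

theorem pos79 {n a : ℕ} (hnk : Even (n * 79)) (ha : Odd a) (ha3 : 3 ≤ a) (hT : a * (n + 79) < 632) :
    Pos n 79 a :=
  pos_of_sheets (blkPos_append (sheet_spec K79.h0) (blkPos_append (sheet_spec K79.h1) (blkPos_append (sheet_spec K79.h2) (sheet_spec K79.h3)))) K79.cv hnk ha ha3 hT

theorem pos80 {n a : ℕ} (hnk : Even (n * 80)) (ha : Odd a) (ha3 : 3 ≤ a) (hT : a * (n + 80) < 640) :
    Pos n 80 a :=
  pos_of_sheets (blkPos_append (sheet_spec K80.h0) (blkPos_append (sheet_spec K80.h1) (blkPos_append (sheet_spec K80.h2) (blkPos_append (sheet_spec K80.h3) (sheet_spec K80.h4))))) K80.cv hnk ha ha3 hT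

theorem pos81 {n a : ℕ} (hnk : Even (n * 81)) (ha : Odd a) (ha3 : 3 ≤ a) (hT : a * (n + 81) < 648) :
    Pos n 81 a :=
  pos_of_sheets (blkPos_append (sheet_spec K81.h0) (blkPos_append (sheet_spec K81.h1) (blkPos_append (sheet_spec K81.h2) (blkPos_append (sheet_spec K81.h3) (sheet_spec K81.h4))))) K81.cv hnk ha ha3 hT

theorem pos82 {n a : ℕ} (hnk : Even (n * 82)) (ha : Odd a) (ha3 : 3 ≤ a) (hT : a * (n + 82) < 656) :
    Pos n 82 a :=
  pos_of_sheets (blkPos_append (sheet_spec K82.h0) (blkPos_append (sheet_spec K82.h1) (blkPos_append (sheet_spec K82.h2) (blkPos_append (sheet_spec K82.h3) (sheet_spec K82.h4))))) K82.cv hnk ha ha3 hT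

theorem pos83 {n a : ℕ} (hnk : Even (n * 83)) (ha : Odd a) (ha3 : 3 ≤ a) (hT : a * (n + 83) < 664) :
    Pos n 83 a :=
  pos_of_sheets (blkPos_append (sheet_spec K83.h0) (blkPos_append (sheet_spec K83.h1) (blkPos_append (sheet_spec K83.h2) (blkPos_append (sheet_spec K83.h3) (blkPos_append (sheet_spec K83.h4) (sheet_spec K83.h5)))))) K83.cv hnk ha ha3 hT

theorem pos84 {n a : ℕ} (hnk : Even (n * 84)) (ha : Odd a) (ha3 : 3 ≤ a) (hT : a * (n + 84) < 672) :
    Pos n 84 a :=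
  pos_of_sheets (blkPos_append (sheet_spec K84.h0) (blkPos_append (sheet_spec K84.h1) (blkPos_append (sheet_spec K84.h2) (blkPos_append (sheet_spec K84.h3) (blkPos_append (sheet_spec K84.h4) (sheet_spec K84.h5)))))) K84.cv hnk ha ha3 hT

theorem pos85 {n a : ℕ} (hnk : Even (n * 85)) (ha : Odd a) (ha3 : 3 ≤ a) (hT : a * (n + 85) < 680) :
    Pos n 85 a :=
  pos_of_sheets (blkPos_append (sheet_spec K85.h0) (blkPos_append (sheet_spec K85.h1) (blkPos_append (sheet_spec K85.h2) (blkPos_append (sheet_spec K85.h3) (blkPos_append (sheet_spec K85.h4) (sheet_spec K85.h5)))))) K85.cv hnk ha ha3 hT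

theorem pos86 {n a : ℕ} (hnk : Even (n * 86)) (ha : Odd a) (ha3 : 3 ≤ a) (hT : a * (n + 86) < 688) :
    Pos n 86 a :=
  pos_of_sheets (blkPos_append (sheet_spec K86.h0) (blkPos_append (sheet_spec K86.h1) (blkPos_append (sheet_spec K86.h2) (blkPos_append (sheet_spec K86.h3) (blkPos_append (sheet_spec K86.h4) (sheet_spec K86.h5)))))) K86.cv hnk ha ha3 hT

theorem pos87 {n a : ℕ} (hnk : Even (n * 87)) (ha : Odd a) (ha3 : 3 ≤ a) (hT : a * (n + 87) < 696) :
    Pos n 87 a :=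
  pos_of_sheets (blkPos_append (sheet_spec K87.h0) (blkPos_append (sheet_spec K87.h1) (blkPos_append (sheet_spec K87.h2) (blkPos_append (sheet_spec K87.h3) (blkPos_append (sheet_spec K87.h4) (blkPos_append (sheet_spec K87.h5) (sheet_spec K87.h6))))))) K87.cv hnk ha ha3 hT

theorem pos88 {n a : ℕ} (hnk : Even (n * 88)) (ha : Odd a) (ha3 : 3 ≤ a) (hT : a * (n + 88) < 704) :
    Pos n 88 a :=
  pos_of_sheets (blkPos_append (sheet_spec K88.h0) (blkPos_append (sheet_spec K88.h1) (blkPos_append (sheet_spec K88.h2) (blkPos_append (sheet_spec K88.h3) (blkPos_append (sheet_spec K88.h4) (blkPos_append (sheet_spec K88.h5) (sheet_spec K88.h6))))))) K88.cv hnk ha ha3 hT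

theorem pos89 {n a : ℕ} (hnk : Even (n * 89)) (ha : Odd a) (ha3 : 3 ≤ a) (hT : a * (n + 89) < 712) :
    Pos n 89 a :=
  pos_of_sheets (blkPos_append (sheet_spec K89.h0) (blkPos_append (sheet_spec K89.h1) (blkPos_append (sheet_spec K89.h2) (blkPos_append (sheet_spec K89.h3) (blkPos_append (sheet_spec K89.h4) (blkPos_append (sheet_spec K89.h5) (blkPos_append (sheet_spec K89.h6) (sheet_spec K89.h7)))))))) K89.cv hnk ha ha3 hT

theorem pos90 {n a : ℕ} (hnk : Even (n * 90)) (ha : Odd a) (ha3 : 3 ≤ a) (hT : a * (n + 90) < 720) :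
    Pos n 90 a :=
  pos_of_sheets (blkPos_append (sheet_spec K90.h0) (blkPos_append (sheet_spec K90.h1) (blkPos_append (sheet_spec K90.h2) (blkPos_append (sheet_spec K90.h3) (blkPos_append (sheet_spec K90.h4) (blkPos_append (sheet_spec K90.h5) (blkPos_append (sheet_spec K90.h6) (blkPos_append (sheet_spec K90.h7) (sheet_spec K90.h8))))))))) K90.cv hnk ha ha3 hT

theorem pos91 {n a : ℕ} (hnk : Even (n * 91)) (ha : Odd a) (ha3 : 3 ≤ a) (hT : a * (n + 91) < 728) :
    Pos n 91 a :=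
  pos_of_sheets (blkPos_append (sheet_spec K91.h0) (blkPos_append (sheet_spec K91.h1) (blkPos_append (sheet_spec K91.h2) (blkPos_append (sheet_spec K91.h3) (blkPos_append (sheet_spec K91.h4) (blkPos_append (sheet_spec K91.h5) (blkPos_append (sheet_spec K91.h6) (blkPos_append (sheet_spec K91.h7) (sheet_spec K91.h8))))))))) K91.cv hnk ha ha3 hT

theorem pos92 {n a : ℕ} (hnk : Even (n * 92)) (ha : Odd a) (ha3 : 3 ≤ a) (hT : a * (n + 92) < 736) :
    Pos n 92 a :=
  pos_of_sheets (blkPos_append (sheet_spec K92.h0) (blkPos_append (sheet_spec K92.h1) (blkPos_append (sheet_spec K92.h2) (blkPos_append (sheet_spec K92.h3) (blkPos_append (sheet_spec K92.h4) (blkPos_append (sheet_spec K92.h5) (blkPos_append (sheet_spec K92.h6) (blkPos_append (sheet_spec K92.h7) (sheet_spec K92.h8))))))))) K92.cv hnk ha ha3 hT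

theorem pos93 {n a : ℕ} (hnk : Even (n * 93)) (ha : Odd a) (ha3 : 3 ≤ a) (hT : a * (n + 93) < 744) :
    Pos n 93 a :=
  pos_of_sheets (blkPos_append (sheet_spec K93.h0) (blkPos_append (sheet_spec K93.h1) (blkPos_append (sheet_spec K93.h2) (blkPos_append (sheet_spec K93.h3) (blkPos_append (sheet_spec K93.h4) (blkPos_append (sheet_spec K93.h5) (blkPos_append (sheet_spec K93.h6) (sheet_spec K93.h7)))))))) K93.cv hnk ha ha3 hT

theorem pos94 {n a : ℕ} (hnk : Even (n * 94)) (ha : Odd a) (ha3 : 3 ≤ a) (hT : a * (n + 94) < 752) :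
    Pos n 94 a :=
  pos_of_sheets (blkPos_append (sheet_spec K94.h0) (blkPos_append (sheet_spec K94.h1) (blkPos_append (sheet_spec K94.h2) (blkPos_append (sheet_spec K94.h3) (blkPos_append (sheet_spec K94.h4) (blkPos_append (sheet_spec K94.h5) (blkPos_append (sheet_spec K94.h6) (sheet_spec K94.h7)))))))) K94.cv hnk ha ha3 hT

theorem pos95 {n a : ℕ} (hnk : Even (n * 95)) (ha : Odd a) (ha3 : 3 ≤ a) (hT : a * (n + 95) < 760) :
    Pos n 95 a :=
  pos_of_sheets (blkPos_append (sheet_spec K95.h0) (blkPos_append (sheet_spec K95.h1) (blkPos_append (sheet_spec K95.h2) (blkPos_append (sheet_spec K95.h3) (blkPos_append (sheet_spec K95.h4) (blkPos_append (sheet_spec K95.h5) (blkPos_append (sheet_spec K95.h6) (blkPos_append (sheet_spec K95.h7) (blkPos_append (sheet_spec K95.h8) (sheet_spec K95.h9)))))))))) K95.cv hnk ha ha3 hT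

theorem pos96 {n a : ℕ} (hnk : Even (n * 96)) (ha : Odd a) (ha3 : 3 ≤ a) (hT : a * (n + 96) < 768) :
    Pos n 96 a :=
  pos_of_sheets (blkPos_append (sheet_spec K96.h0) (blkPos_append (sheet_spec K96.h1) (blkPos_append (sheet_spec K96.h2) (blkPos_append (sheet_spec K96.h3) (blkPos_append (sheet_spec K96.h4) (blkPos_append (sheet_spec K96.h5) (blkPos_append (sheet_spec K96.h6) (blkPos_append (sheet_spec K96.h7) (blkPos_append (sheet_spec K96.h8) (sheet_spec K96.h9)))))))))) K96.cv hnk ha ha3 hT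

theorem pos97 {n a : ℕ} (hnk : Even (n * 97)) (ha : Odd a) (ha3 : 3 ≤ a) (hT : a * (n + 97) < 776) :
    Pos n 97 a :=
  pos_of_sheets (blkPos_append (sheet_spec K97.h0) (blkPos_append (sheet_spec K97.h1) (blkPos_append (sheet_spec K97.h2) (blkPos_append (sheet_spec K97.h3) (blkPos_append (sheet_spec K97.h4) (blkPos_append (sheet_spec K97.h5) (blkPos_append (sheet_spec K97.h6) (blkPos_append (sheet_spec K97.h7) (blkPos_append (sheet_spec K97.h8) (sheet_spec K97.h9)))))))))) K97.cv hnk ha ha3 hT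

theorem pos98 {n a : ℕ} (hnk : Even (n * 98)) (ha : Odd a) (ha3 : 3 ≤ a) (hT : a * (n + 98) < 784) :
    Pos n 98 a :=
  pos_of_sheets (blkPos_append (sheet_spec K98.h0) (blkPos_append (sheet_spec K98.h1) (blkPos_append (sheet_spec K98.h2) (blkPos_append (sheet_spec K98.h3) (blkPos_append (sheet_spec K98.h4) (blkPos_append (sheet_spec K98.h5) (blkPos_append (sheet_spec K98.h6) (blkPos_append (sheet_spec K98.h7) (blkPos_append (sheet_spec K98.h8) (sheet_spec K98.h9)))))))))) K98.cv hnk ha ha3 hT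

theorem pos99 {n a : ℕ} (hnk : Even (n * 99)) (ha : Odd a) (ha3 : 3 ≤ a) (hT : a * (n + 99) < 792) :
    Pos n 99 a :=
  pos_of_sheets (blkPos_append (sheet_spec K99.h0) (blkPos_append (sheet_spec K99.h1) (blkPos_append (sheet_spec K99.h2) (blkPos_append (sheet_spec K99.h3) (blkPos_append (sheet_spec K99.h4) (blkPos_append (sheet_spec K99.h5) (blkPos_append (sheet_spec K99.h6) (blkPos_append (sheet_spec K99.h7) (sheet_spec K99.h8))))))))) K99.cv hnk ha ha3 hT

end Pool.Agent.SignedQ.KE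
end

section

/-!
# FD: positivity for the pairs checked by the kernel, `100 ≤ k < 150`
-/

set_option autoImplicit false

namespace Pool.Agent.SignedQ.KE

open Pool.Agent.SignedQ.KD (Pos)

theorem pos100 {n a : ℕ} (hnk : Even (n * 100)) (ha : Odd a) (ha3 : 3 ≤ a) (hT : a * (n + 100) < 500) :
    Pos n 100 a :=
  pos_of_sheets (blkPos_append (sheet_spec K100.h0) (sheet_spec K100.h1)) K100.cv hnk ha ha3 hT

theorem pos101 {n a : ℕ} (hnk : Even (n * 101)) (ha : Odd a) (ha3 : 3 ≤ a) (hT : a * (n + 101) < 505) :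
    Pos n 101 a :=
  pos_of_sheets (blkPos_append (sheet_spec K101.h0) (sheet_spec K101.h1)) K101.cv hnk ha ha3 hT

theorem pos102 {n a : ℕ} (hnk : Even (n * 102)) (ha : Odd a) (ha3 : 3 ≤ a) (hT : a * (n + 102) < 510) :
    Pos n 102 a :=
  pos_of_sheets (blkPos_append (sheet_spec K102.h0) (sheet_spec K102.h1)) K102.cv hnk ha ha3 hT

theorem pos103 {n a : ℕ} (hnk : Even (n * 103)) (ha : Odd a) (ha3 : 3 ≤ a) (hT : a * (n + 103) < 515) :
    Pos n 103 a :=
  pos_of_sheets (blkPos_append (sheet_spec K103.h0) (sheet_spec K103.h1)) K103.cv hnk ha ha3 hT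

theorem pos104 {n a : ℕ} (hnk : Even (n * 104)) (ha : Odd a) (ha3 : 3 ≤ a) (hT : a * (n + 104) < 520) :
    Pos n 104 a :=
  pos_of_sheets (blkPos_append (sheet_spec K104.h0) (sheet_spec K104.h1)) K104.cv hnk ha ha3 hT

theorem pos105 {n a : ℕ} (hnk : Even (n * 105)) (ha : Odd a) (ha3 : 3 ≤ a) (hT : a * (n + 105) < 525) :
    Pos n 105 a :=
  pos_of_sheets (blkPos_append (sheet_spec K105.h0) (sheet_spec K105.h1)) K105.cv hnk ha ha3 hT

theorem pos106 {n a : ℕ} (hnk : Even (n * 106)) (ha : Odd a) (ha3 : 3 ≤ a) (hT : a * (n + 106) < 530) :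
    Pos n 106 a :=
  pos_of_sheets (blkPos_append (sheet_spec K106.h0) (sheet_spec K106.h1)) K106.cv hnk ha ha3 hT

theorem pos107 {n a : ℕ} (hnk : Even (n * 107)) (ha : Odd a) (ha3 : 3 ≤ a) (hT : a * (n + 107) < 535) :
    Pos n 107 a :=
  pos_of_sheets (blkPos_append (sheet_spec K107.h0) (sheet_spec K107.h1)) K107.cv hnk ha ha3 hT

theorem pos108 {n a : ℕ} (hnk : Even (n * 108)) (ha : Odd a) (ha3 : 3 ≤ a) (hT : a * (n + 108) < 540) :
    Pos n 108 a :=
  pos_of_sheets (blkPos_append (sheet_spec K108.h0) (sheet_spec K108.h1)) K108.cv hnk ha ha3 hT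

theorem pos109 {n a : ℕ} (hnk : Even (n * 109)) (ha : Odd a) (ha3 : 3 ≤ a) (hT : a * (n + 109) < 545) :
    Pos n 109 a :=
  pos_of_sheets (blkPos_append (sheet_spec K109.h0) (sheet_spec K109.h1)) K109.cv hnk ha ha3 hT

theorem pos110 {n a : ℕ} (hnk : Even (n * 110)) (ha : Odd a) (ha3 : 3 ≤ a) (hT : a * (n + 110) < 550) :
    Pos n 110 a :=
  pos_of_sheets (blkPos_append (sheet_spec K110.h0) (sheet_spec K110.h1)) K110.cv hnk ha ha3 hT

theorem pos111 {n a : ℕ} (hnk : Even (n * 111)) (ha : Odd a) (ha3 : 3 ≤ a) (hT : a * (n + 111) < 555) :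
    Pos n 111 a :=
  pos_of_sheets (blkPos_append (sheet_spec K111.h0) (sheet_spec K111.h1)) K111.cv hnk ha ha3 hT

theorem pos112 {n a : ℕ} (hnk : Even (n * 112)) (ha : Odd a) (ha3 : 3 ≤ a) (hT : a * (n + 112) < 560) :
    Pos n 112 a :=
  pos_of_sheets (blkPos_append (sheet_spec K112.h0) (sheet_spec K112.h1)) K112.cv hnk ha ha3 hT

theorem pos113 {n a : ℕ} (hnk : Even (n * 113)) (ha : Odd a) (ha3 : 3 ≤ a) (hT : a * (n + 113) < 565) :
    Pos n 113 a :=
  pos_of_sheets (blkPos_append (sheet_spec K113.h0) (blkPos_append (sheet_spec K113.h1) (sheet_spec K113.h2))) K113.cv hnk ha ha3 hT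

theorem pos114 {n a : ℕ} (hnk : Even (n * 114)) (ha : Odd a) (ha3 : 3 ≤ a) (hT : a * (n + 114) < 570) :
    Pos n 114 a :=
  pos_of_sheets (blkPos_append (sheet_spec K114.h0) (blkPos_append (sheet_spec K114.h1) (sheet_spec K114.h2))) K114.cv hnk ha ha3 hT

theorem pos115 {n a : ℕ} (hnk : Even (n * 115)) (ha : Odd a) (ha3 : 3 ≤ a) (hT : a * (n + 115) < 575) :
    Pos n 115 a :=
  pos_of_sheets (blkPos_append (sheet_spec K115.h0) (blkPos_append (sheet_spec K115.h1) (sheet_spec K115.h2))) K115.cv hnk ha ha3 hT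

theorem pos116 {n a : ℕ} (hnk : Even (n * 116)) (ha : Odd a) (ha3 : 3 ≤ a) (hT : a * (n + 116) < 580) :
    Pos n 116 a :=
  pos_of_sheets (blkPos_append (sheet_spec K116.h0) (blkPos_append (sheet_spec K116.h1) (sheet_spec K116.h2))) K116.cv hnk ha ha3 hT

theorem pos117 {n a : ℕ} (hnk : Even (n * 117)) (ha : Odd a) (ha3 : 3 ≤ a) (hT : a * (n + 117) < 585) :
    Pos n 117 a :=
  pos_of_sheets (blkPos_append (sheet_spec K117.h0) (blkPos_append (sheet_spec K117.h1) (sheet_spec K117.h2))) K117.cv hnk ha ha3 hT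

theorem pos118 {n a : ℕ} (hnk : Even (n * 118)) (ha : Odd a) (ha3 : 3 ≤ a) (hT : a * (n + 118) < 590) :
    Pos n 118 a :=
  pos_of_sheets (blkPos_append (sheet_spec K118.h0) (blkPos_append (sheet_spec K118.h1) (sheet_spec K118.h2))) K118.cv hnk ha ha3 hT

theorem pos119 {n a : ℕ} (hnk : Even (n * 119)) (ha : Odd a) (ha3 : 3 ≤ a) (hT : a * (n + 119) < 595) :
    Pos n 119 a :=
  pos_of_sheets (blkPos_append (sheet_spec K119.h0) (blkPos_append (sheet_spec K119.h1) (sheet_spec K119.h2))) K119.cv hnk ha ha3 hT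

theorem pos120 {n a : ℕ} (hnk : Even (n * 120)) (ha : Odd a) (ha3 : 3 ≤ a) (hT : a * (n + 120) < 600) :
    Pos n 120 a :=
  pos_of_sheets (blkPos_append (sheet_spec K120.h0) (blkPos_append (sheet_spec K120.h1) (sheet_spec K120.h2))) K120.cv hnk ha ha3 hT

theorem pos121 {n a : ℕ} (hnk : Even (n * 121)) (ha : Odd a) (ha3 : 3 ≤ a) (hT : a * (n + 121) < 605) :
    Pos n 121 a :=
  pos_of_sheets (blkPos_append (sheet_spec K121.h0) (blkPos_append (sheet_spec K121.h1) (sheet_spec K121.h2))) K121.cv hnk ha ha3 hT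

theorem pos122 {n a : ℕ} (hnk : Even (n * 122)) (ha : Odd a) (ha3 : 3 ≤ a) (hT : a * (n + 122) < 610) :
    Pos n 122 a :=
  pos_of_sheets (blkPos_append (sheet_spec K122.h0) (blkPos_append (sheet_spec K122.h1) (sheet_spec K122.h2))) K122.cv hnk ha ha3 hT

theorem pos123 {n a : ℕ} (hnk : Even (n * 123)) (ha : Odd a) (ha3 : 3 ≤ a) (hT : a * (n + 123) < 615) :
    Pos n 123 a :=
  pos_of_sheets (blkPos_append (sheet_spec K123.h0) (blkPos_append (sheet_spec K123.h1) (sheet_spec K123.h2))) K123.cv hnk ha ha3 hT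

theorem pos124 {n a : ℕ} (hnk : Even (n * 124)) (ha : Odd a) (ha3 : 3 ≤ a) (hT : a * (n + 124) < 620) :
    Pos n 124 a :=
  pos_of_sheets (blkPos_append (sheet_spec K124.h0) (blkPos_append (sheet_spec K124.h1) (sheet_spec K124.h2))) K124.cv hnk ha ha3 hT

theorem pos125 {n a : ℕ} (hnk : Even (n * 125)) (ha : Odd a) (ha3 : 3 ≤ a) (hT : a * (n + 125) < 625) :
    Pos n 125 a :=
  pos_of_sheets (blkPos_append (sheet_spec K125.h0) (blkPos_append (sheet_spec K125.h1) (sheet_spec K125.h2))) K125.cv hnk ha ha3 hT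

theorem pos126 {n a : ℕ} (hnk : Even (n * 126)) (ha : Odd a) (ha3 : 3 ≤ a) (hT : a * (n + 126) < 630) :
    Pos n 126 a :=
  pos_of_sheets (blkPos_append (sheet_spec K126.h0) (blkPos_append (sheet_spec K126.h1) (sheet_spec K126.h2))) K126.cv hnk ha ha3 hT

theorem pos127 {n a : ℕ} (hnk : Even (n * 127)) (ha : Odd a) (ha3 : 3 ≤ a) (hT : a * (n + 127) < 635) :
    Pos n 127 a :=
  pos_of_sheets (blkPos_append (sheet_spec K127.h0) (blkPos_append (sheet_spec K127.h1) (blkPos_append (sheet_spec K127.h2) (sheet_spec K127.h3)))) K127.cv hnk ha ha3 hT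

theorem pos128 {n a : ℕ} (hnk : Even (n * 128)) (ha : Odd a) (ha3 : 3 ≤ a) (hT : a * (n + 128) < 640) :
    Pos n 128 a :=
  pos_of_sheets (blkPos_append (sheet_spec K128.h0) (blkPos_append (sheet_spec K128.h1) (blkPos_append (sheet_spec K128.h2) (sheet_spec K128.h3)))) K128.cv hnk ha ha3 hT

theorem pos129 {n a : ℕ} (hnk : Even (n * 129)) (ha : Odd a) (ha3 : 3 ≤ a) (hT : a * (n + 129) < 645) :
    Pos n 129 a :=
  pos_of_sheets (blkPos_append (sheet_spec K129.h0) (blkPos_append (sheet_spec K129.h1) (blkPos_append (sheet_spec K129.h2) (sheet_spec K129.h3)))) K129.cv hnk ha ha3 hT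

theorem pos130 {n a : ℕ} (hnk : Even (n * 130)) (ha : Odd a) (ha3 : 3 ≤ a) (hT : a * (n + 130) < 650) :
    Pos n 130 a :=
  pos_of_sheets (blkPos_append (sheet_spec K130.h0) (blkPos_append (sheet_spec K130.h1) (blkPos_append (sheet_spec K130.h2) (sheet_spec K130.h3)))) K130.cv hnk ha ha3 hT

theorem pos131 {n a : ℕ} (hnk : Even (n * 131)) (ha : Odd a) (ha3 : 3 ≤ a) (hT : a * (n + 131) < 655) :
    Pos n 131 a :=
  pos_of_sheets (blkPos_append (sheet_spec K131.h0) (blkPos_append (sheet_spec K131.h1) (blkPos_append (sheet_spec K131.h2) (sheet_spec K131.h3)))) K131.cv hnk ha ha3 hT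

theorem pos132 {n a : ℕ} (hnk : Even (n * 132)) (ha : Odd a) (ha3 : 3 ≤ a) (hT : a * (n + 132) < 660) :
    Pos n 132 a :=
  pos_of_sheets (blkPos_append (sheet_spec K132.h0) (blkPos_append (sheet_spec K132.h1) (blkPos_append (sheet_spec K132.h2) (sheet_spec K132.h3)))) K132.cv hnk ha ha3 hT

theorem pos133 {n a : ℕ} (hnk : Even (n * 133)) (ha : Odd a) (ha3 : 3 ≤ a) (hT : a * (n + 133) < 665) :
    Pos n 133 a :=
  pos_of_sheets (blkPos_append (sheet_spec K133.h0) (blkPos_append (sheet_spec K133.h1) (blkPos_append (sheet_spec K133.h2) (sheet_spec K133.h3)))) K133.cv hnk ha ha3 hT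

theorem pos134 {n a : ℕ} (hnk : Even (n * 134)) (ha : Odd a) (ha3 : 3 ≤ a) (hT : a * (n + 134) < 670) :
    Pos n 134 a :=
  pos_of_sheets (blkPos_append (sheet_spec K134.h0) (blkPos_append (sheet_spec K134.h1) (blkPos_append (sheet_spec K134.h2) (sheet_spec K134.h3)))) K134.cv hnk ha ha3 hT

theorem pos135 {n a : ℕ} (hnk : Even (n * 135)) (ha : Odd a) (ha3 : 3 ≤ a) (hT : a * (n + 135) < 675) :
    Pos n 135 a :=
  pos_of_sheets (blkPos_append (sheet_spec K135.h0) (blkPos_append (sheet_spec K135.h1) (blkPos_append (sheet_spec K135.h2) (sheet_spec K135.h3)))) K135.cv hnk ha ha3 hT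

theorem pos136 {n a : ℕ} (hnk : Even (n * 136)) (ha : Odd a) (ha3 : 3 ≤ a) (hT : a * (n + 136) < 680) :
    Pos n 136 a :=
  pos_of_sheets (blkPos_append (sheet_spec K136.h0) (blkPos_append (sheet_spec K136.h1) (blkPos_append (sheet_spec K136.h2) (blkPos_append (sheet_spec K136.h3) (sheet_spec K136.h4))))) K136.cv hnk ha ha3 hT

theorem pos137 {n a : ℕ} (hnk : Even (n * 137)) (ha : Odd a) (ha3 : 3 ≤ a) (hT : a * (n + 137) < 685) :
    Pos n 137 a :=
  pos_of_sheets (blkPos_append (sheet_spec K137.h0) (blkPos_append (sheet_spec K137.h1) (blkPos_append (sheet_spec K137.h2) (blkPos_append (sheet_spec K137.h3) (sheet_spec K137.h4))))) K137.cv hnk ha ha3 hT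

theorem pos138 {n a : ℕ} (hnk : Even (n * 138)) (ha : Odd a) (ha3 : 3 ≤ a) (hT : a * (n + 138) < 690) :
    Pos n 138 a :=
  pos_of_sheets (blkPos_append (sheet_spec K138.h0) (blkPos_append (sheet_spec K138.h1) (blkPos_append (sheet_spec K138.h2) (blkPos_append (sheet_spec K138.h3) (sheet_spec K138.h4))))) K138.cv hnk ha ha3 hT

theorem pos139 {n a : ℕ} (hnk : Even (n * 139)) (ha : Odd a) (ha3 : 3 ≤ a) (hT : a * (n + 139) < 695) :
    Pos n 139 a :=
  pos_of_sheets (blkPos_append (sheet_spec K139.h0) (blkPos_append (sheet_spec K139.h1) (blkPos_append (sheet_spec K139.h2) (blkPos_append (sheet_spec K139.h3) (sheet_spec K139.h4))))) K139.cv hnk ha ha3 hT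

theorem pos140 {n a : ℕ} (hnk : Even (n * 140)) (ha : Odd a) (ha3 : 3 ≤ a) (hT : a * (n + 140) < 700) :
    Pos n 140 a :=
  pos_of_sheets (blkPos_append (sheet_spec K140.h0) (blkPos_append (sheet_spec K140.h1) (blkPos_append (sheet_spec K140.h2) (blkPos_append (sheet_spec K140.h3) (sheet_spec K140.h4))))) K140.cv hnk ha ha3 hT

theorem pos141 {n a : ℕ} (hnk : Even (n * 141)) (ha : Odd a) (ha3 : 3 ≤ a) (hT : a * (n + 141) < 705) :
    Pos n 141 a :=
  pos_of_sheets (blkPos_append (sheet_spec K141.h0) (blkPos_append (sheet_spec K141.h1) (blkPos_append (sheet_spec K141.h2) (blkPos_append (sheet_spec K141.h3) (sheet_spec K141.h4))))) K141.cv hnk ha ha3 hT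

theorem pos142 {n a : ℕ} (hnk : Even (n * 142)) (ha : Odd a) (ha3 : 3 ≤ a) (hT : a * (n + 142) < 710) :
    Pos n 142 a :=
  pos_of_sheets (blkPos_append (sheet_spec K142.h0) (blkPos_append (sheet_spec K142.h1) (blkPos_append (sheet_spec K142.h2) (blkPos_append (sheet_spec K142.h3) (sheet_spec K142.h4))))) K142.cv hnk ha ha3 hT

theorem pos143 {n a : ℕ} (hnk : Even (n * 143)) (ha : Odd a) (ha3 : 3 ≤ a) (hT : a * (n + 143) < 715) :
    Pos n 143 a :=
  pos_of_sheets (blkPos_append (sheet_spec K143.h0) (blkPos_append (sheet_spec K143.h1) (blkPos_append (sheet_spec K143.h2) (blkPos_append (sheet_spec K143.h3) (sheet_spec K143.h4))))) K143.cv hnk ha ha3 hT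

theorem pos144 {n a : ℕ} (hnk : Even (n * 144)) (ha : Odd a) (ha3 : 3 ≤ a) (hT : a * (n + 144) < 720) :
    Pos n 144 a :=
  pos_of_sheets (blkPos_append (sheet_spec K144.h0) (blkPos_append (sheet_spec K144.h1) (blkPos_append (sheet_spec K144.h2) (blkPos_append (sheet_spec K144.h3) (sheet_spec K144.h4))))) K144.cv hnk ha ha3 hT

theorem pos145 {n a : ℕ} (hnk : Even (n * 145)) (ha : Odd a) (ha3 : 3 ≤ a) (hT : a * (n + 145) < 725) :
    Pos n 145 a :=
  pos_of_sheets (blkPos_append (sheet_spec K145.h0) (blkPos_append (sheet_spec K145.h1) (blkPos_append (sheet_spec K145.h2) (blkPos_append (sheet_spec K145.h3) (blkPos_append (sheet_spec K145.h4) (sheet_spec K145.h5)))))) K145.cv hnk ha ha3 hT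

theorem pos146 {n a : ℕ} (hnk : Even (n * 146)) (ha : Odd a) (ha3 : 3 ≤ a) (hT : a * (n + 146) < 730) :
    Pos n 146 a :=
  pos_of_sheets (blkPos_append (sheet_spec K146.h0) (blkPos_append (sheet_spec K146.h1) (blkPos_append (sheet_spec K146.h2) (blkPos_append (sheet_spec K146.h3) (blkPos_append (sheet_spec K146.h4) (sheet_spec K146.h5)))))) K146.cv hnk ha ha3 hT

theorem pos147 {n a : ℕ} (hnk : Even (n * 147)) (ha : Odd a) (ha3 : 3 ≤ a) (hT : a * (n + 147) < 735) :
    Pos n 147 a :=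
  pos_of_sheets (blkPos_append (sheet_spec K147.h0) (blkPos_append (sheet_spec K147.h1) (blkPos_append (sheet_spec K147.h2) (blkPos_append (sheet_spec K147.h3) (blkPos_append (sheet_spec K147.h4) (sheet_spec K147.h5)))))) K147.cv hnk ha ha3 hT

theorem pos148 {n a : ℕ} (hnk : Even (n * 148)) (ha : Odd a) (ha3 : 3 ≤ a) (hT : a * (n + 148) < 740) :
    Pos n 148 a :=
  pos_of_sheets (blkPos_append (sheet_spec K148.h0) (blkPos_append (sheet_spec K148.h1) (blkPos_append (sheet_spec K148.h2) (blkPos_append (sheet_spec K148.h3) (blkPos_append (sheet_spec K148.h4) (sheet_spec K148.h5)))))) K148.cv hnk ha ha3 hT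

theorem pos149 {n a : ℕ} (hnk : Even (n * 149)) (ha : Odd a) (ha3 : 3 ≤ a) (hT : a * (n + 149) < 745) :
    Pos n 149 a :=
  pos_of_sheets (blkPos_append (sheet_spec K149.h0) (blkPos_append (sheet_spec K149.h1) (blkPos_append (sheet_spec K149.h2) (blkPos_append (sheet_spec K149.h3) (blkPos_append (sheet_spec K149.h4) (blkPos_append (sheet_spec K149.h5) (sheet_spec K149.h6))))))) K149.cv hnk ha ha3 hT

end Pool.Agent.SignedQ.KE
end

section

/-!
# FD: the pairs with small `a (n + k) / k`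
-/

set_option autoImplicit false

namespace Pool.Agent.SignedQ.An

open Pool.Agent.SignedQ.KE

theorem fd_main {n k a : ℕ} (h26 : 26 ≤ k) (hnk : Even (n * k)) (ha : Odd a) (ha3 : 3 ≤ a)
    (h : (k < 30 ∧ a * (n + k) < 31 * k) ∨ (k < 60 ∧ a * (n + k) < 20 * k) ∨
      (k < 100 ∧ a * (n + k) < 8 * k) ∨ (k < 200 ∧ a * (n + k) < 5 * k)) : Pos n k a := by
  have hk : k < 200 := by omega
  generalize hA : a * (n + k) = A at h
  interval_cases k
  · exact pos26 hnk ha ha3 (by omega)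
  · exact pos27 hnk ha ha3 (by omega)
  · exact pos28 hnk ha ha3 (by omega)
  · exact pos29 hnk ha ha3 (by omega)
  · exact pos30 hnk ha ha3 (by omega)
  · exact pos31 hnk ha ha3 (by omega)
  · exact pos32 hnk ha ha3 (by omega)
  · exact pos33 hnk ha ha3 (by omega)
  · exact pos34 hnk ha ha3 (by omega)
  · exact pos35 hnk ha ha3 (by omega)
  · exact pos36 hnk ha ha3 (by omega)
  · exact pos37 hnk ha ha3 (by omega)
  · exact pos38 hnk ha ha3 (by omega)
  · exact pos39 hnk ha ha3 (by omega)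
  · exact pos40 hnk ha ha3 (by omega)
  · exact pos41 hnk ha ha3 (by omega)
  · exact pos42 hnk ha ha3 (by omega)
  · exact pos43 hnk ha ha3 (by omega)
  · exact pos44 hnk ha ha3 (by omega)
  · exact pos45 hnk ha ha3 (by omega)
  · exact pos46 hnk ha ha3 (by omega)
  · exact pos47 hnk ha ha3 (by omega)
  · exact pos48 hnk ha ha3 (by omega)
  · exact pos49 hnk ha ha3 (by omega)
  · exact pos50 hnk ha ha3 (by omega)
  · exact pos51 hnk ha ha3 (by omega)
  · exact pos52 hnk ha ha3 (by omega)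
  · exact pos53 hnk ha ha3 (by omega)
  · exact pos54 hnk ha ha3 (by omega)
  · exact pos55 hnk ha ha3 (by omega)
  · exact pos56 hnk ha ha3 (by omega)
  · exact pos57 hnk ha ha3 (by omega)
  · exact pos58 hnk ha ha3 (by omega)
  · exact pos59 hnk ha ha3 (by omega)
  · exact pos60 hnk ha ha3 (by omega)
  · exact pos61 hnk ha ha3 (by omega)
  · exact pos62 hnk ha ha3 (by omega)
  · exact pos63 hnk ha ha3 (by omega)
  · exact pos64 hnk ha ha3 (by omega)
  · exact pos65 hnk ha ha3 (by omega)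
  · exact pos66 hnk ha ha3 (by omega)
  · exact pos67 hnk ha ha3 (by omega)
  · exact pos68 hnk ha ha3 (by omega)
  · exact pos69 hnk ha ha3 (by omega)
  · exact pos70 hnk ha ha3 (by omega)
  · exact pos71 hnk ha ha3 (by omega)
  · exact pos72 hnk ha ha3 (by omega)
  · exact pos73 hnk ha ha3 (by omega)
  · exact pos74 hnk ha ha3 (by omega)
  · exact pos75 hnk ha ha3 (by omega)
  · exact pos76 hnk ha ha3 (by omega)
  · exact pos77 hnk ha ha3 (by omega)
  · exact pos78 hnk ha ha3 (by omega)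
  · exact pos79 hnk ha ha3 (by omega)
  · exact pos80 hnk ha ha3 (by omega)
  · exact pos81 hnk ha ha3 (by omega)
  · exact pos82 hnk ha ha3 (by omega)
  · exact pos83 hnk ha ha3 (by omega)
  · exact pos84 hnk ha ha3 (by omega)
  · exact pos85 hnk ha ha3 (by omega)
  · exact pos86 hnk ha ha3 (by omega)
  · exact pos87 hnk ha ha3 (by omega)
  · exact pos88 hnk ha ha3 (by omega)
  · exact pos89 hnk ha ha3 (by omega)
  · exact pos90 hnk ha ha3 (by omega)
  · exact pos91 hnk ha ha3 (by omega)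
  · exact pos92 hnk ha ha3 (by omega)
  · exact pos93 hnk ha ha3 (by omega)
  · exact pos94 hnk ha ha3 (by omega)
  · exact pos95 hnk ha ha3 (by omega)
  · exact pos96 hnk ha ha3 (by omega)
  · exact pos97 hnk ha ha3 (by omega)
  · exact pos98 hnk ha ha3 (by omega)
  · exact pos99 hnk ha ha3 (by omega)
  · exact pos100 hnk ha ha3 (by omega)
  · exact pos101 hnk ha ha3 (by omega)
  · exact pos102 hnk ha ha3 (by omega)
  · exact pos103 hnk ha ha3 (by omega)
  · exact pos104 hnk ha ha3 (by omega)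
  · exact pos105 hnk ha ha3 (by omega)
  · exact pos106 hnk ha ha3 (by omega)
  · exact pos107 hnk ha ha3 (by omega)
  · exact pos108 hnk ha ha3 (by omega)
  · exact pos109 hnk ha ha3 (by omega)
  · exact pos110 hnk ha ha3 (by omega)
  · exact pos111 hnk ha ha3 (by omega)
  · exact pos112 hnk ha ha3 (by omega)
  · exact pos113 hnk ha ha3 (by omega)
  · exact pos114 hnk ha ha3 (by omega)
  · exact pos115 hnk ha ha3 (by omega)
  · exact pos116 hnk ha ha3 (by omega)
  · exact pos117 hnk ha ha3 (by omega)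
  · exact pos118 hnk ha ha3 (by omega)
  · exact pos119 hnk ha ha3 (by omega)
  · exact pos120 hnk ha ha3 (by omega)
  · exact pos121 hnk ha ha3 (by omega)
  · exact pos122 hnk ha ha3 (by omega)
  · exact pos123 hnk ha ha3 (by omega)
  · exact pos124 hnk ha ha3 (by omega)
  · exact pos125 hnk ha ha3 (by omega)
  · exact pos126 hnk ha ha3 (by omega)
  · exact pos127 hnk ha ha3 (by omega)
  · exact pos128 hnk ha ha3 (by omega)
  · exact pos129 hnk ha ha3 (by omega)
  · exact pos130 hnk ha ha3 (by omega)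
  · exact pos131 hnk ha ha3 (by omega)
  · exact pos132 hnk ha ha3 (by omega)
  · exact pos133 hnk ha ha3 (by omega)
  · exact pos134 hnk ha ha3 (by omega)
  · exact pos135 hnk ha ha3 (by omega)
  · exact pos136 hnk ha ha3 (by omega)
  · exact pos137 hnk ha ha3 (by omega)
  · exact pos138 hnk ha ha3 (by omega)
  · exact pos139 hnk ha ha3 (by omega)
  · exact pos140 hnk ha ha3 (by omega)
  · exact pos141 hnk ha ha3 (by omega)
  · exact pos142 hnk ha ha3 (by omega)
  · exact pos143 hnk ha ha3 (by omega)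
  · exact pos144 hnk ha ha3 (by omega)
  · exact pos145 hnk ha ha3 (by omega)
  · exact pos146 hnk ha ha3 (by omega)
  · exact pos147 hnk ha ha3 (by omega)
  · exact pos148 hnk ha ha3 (by omega)
  · exact pos149 hnk ha ha3 (by omega)
  · exact pos150 hnk ha ha3 (by omega)
  · exact pos151 hnk ha ha3 (by omega)
  · exact pos152 hnk ha ha3 (by omega)
  · exact pos153 hnk ha ha3 (by omega)
  · exact pos154 hnk ha ha3 (by omega)
  · exact pos155 hnk ha ha3 (by omega)
  · exact pos156 hnk ha ha3 (by omega)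
  · exact pos157 hnk ha ha3 (by omega)
  · exact pos158 hnk ha ha3 (by omega)
  · exact pos159 hnk ha ha3 (by omega)
  · exact pos160 hnk ha ha3 (by omega)
  · exact pos161 hnk ha ha3 (by omega)
  · exact pos162 hnk ha ha3 (by omega)
  · exact pos163 hnk ha ha3 (by omega)
  · exact pos164 hnk ha ha3 (by omega)
  · exact pos165 hnk ha ha3 (by omega)
  · exact pos166 hnk ha ha3 (by omega)
  · exact pos167 hnk ha ha3 (by omega)
  · exact pos168 hnk ha ha3 (by omega)
  · exact pos169 hnk ha ha3 (by omega)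
  · exact pos170 hnk ha ha3 (by omega)
  · exact pos171 hnk ha ha3 (by omega)
  · exact pos172 hnk ha ha3 (by omega)
  · exact pos173 hnk ha ha3 (by omega)
  · exact pos174 hnk ha ha3 (by omega)
  · exact pos175 hnk ha ha3 (by omega)
  · exact pos176 hnk ha ha3 (by omega)
  · exact pos177 hnk ha ha3 (by omega)
  · exact pos178 hnk ha ha3 (by omega)
  · exact pos179 hnk ha ha3 (by omega)
  · exact pos180 hnk ha ha3 (by omega)
  · exact pos181 hnk ha ha3 (by omega)
  · exact pos182 hnk ha ha3 (by omega)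
  · exact pos183 hnk ha ha3 (by omega)
  · exact pos184 hnk ha ha3 (by omega)
  · exact pos185 hnk ha ha3 (by omega)
  · exact pos186 hnk ha ha3 (by omega)
  · exact pos187 hnk ha ha3 (by omega)
  · exact pos188 hnk ha ha3 (by omega)
  · exact pos189 hnk ha ha3 (by omega)
  · exact pos190 hnk ha ha3 (by omega)
  · exact pos191 hnk ha ha3 (by omega)
  · exact pos192 hnk ha ha3 (by omega)
  · exact pos193 hnk ha ha3 (by omega)
  · exact pos194 hnk ha ha3 (by omega)
  · exact pos195 hnk ha ha3 (by omega)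
  · exact pos196 hnk ha ha3 (by omega)
  · exact pos197 hnk ha ha3 (by omega)
  · exact pos198 hnk ha ha3 (by omega)
  · exact pos199 hnk ha ha3 (by omega)

theorem fd_five {n k : ℕ} (h100 : 100 ≤ k) (h140 : k < 140) (h : 20 * n < k)
    (hnk : Even (n * k)) : Pos n k 5 := by
  interval_cases k
  · exact five100 h hnk
  · exact five101 h hnk
  · exact five102 h hnk
  · exact five103 h hnk
  · exact five104 h hnk
  · exact five105 h hnk
  · exact five106 h hnk
  · exact five107 h hnk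
  · exact five108 h hnk
  · exact five109 h hnk
  · exact five110 h hnk
  · exact five111 h hnk
  · exact five112 h hnk
  · exact five113 h hnk
  · exact five114 h hnk
  · exact five115 h hnk
  · exact five116 h hnk
  · exact five117 h hnk
  · exact five118 h hnk
  · exact five119 h hnk
  · exact five120 h hnk
  · exact five121 h hnk
  · exact five122 h hnk
  · exact five123 h hnk
  · exact five124 h hnk
  · exact five125 h hnk
  · exact five126 h hnk
  · exact five127 h hnk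
  · exact five128 h hnk
  · exact five129 h hnk
  · exact five130 h hnk
  · exact five131 h hnk
  · exact five132 h hnk
  · exact five133 h hnk
  · exact five134 h hnk
  · exact five135 h hnk
  · exact five136 h hnk
  · exact five137 h hnk
  · exact five138 h hnk
  · exact five139 h hnk

theorem fd_proof : FD := by
  intro n k a h26 hnk ha ha3 hs
  rcases hs with h | h | h | ⟨h1, rfl, h2⟩ | ⟨h1, rfl, h2⟩
  · exact fd_main h26 hnk ha ha3 (Or.inl h)
  · exact fd_main h26 hnk ha ha3 (Or.inr (Or.inl h))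
  · exact fd_main h26 hnk ha ha3 (Or.inr (Or.inr (Or.inl h)))
  · exact fd_main h26 hnk ha ha3 (Or.inr (Or.inr (Or.inr ⟨h1, h2⟩)))
  · rcases Nat.lt_or_ge k 100 with h3 | h3
    · exact fd_main h26 hnk ha ha3 (Or.inr (Or.inr (Or.inl ⟨h3, by omega⟩)))
    · exact fd_five h3 h1 h2 hnk

end Pool.Agent.SignedQ.An
end
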