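import Pool.Agent.Lib.MP_cf17a0_co.S1.InDef
import Pool.Agent.Lib.MP_cf17a0_co.Mg.G017

section

/-! # INTER (k t ≤ 1): Lemma G, Lemma E0, the leftover factor (helper78) -/

namespace Pool.Agent.SignedQ.An.In

open Real Finset

lemma In2_rr_even {v : ℕ} (h : Even v) (hv : 1 ≤ v) {t : ℝ} (ht : 0 < t) (θ : ℝ) :
    rr v t θ = 1 + sin (v * θ / 2) ^ 2 / sinh (v * t / 2) ^ 2 := by
  unfold rr
  rw [fac_zero_even h, fac_eq_sinh, if_pos h]
  have hv' : (1 : ℝ) ≤ v := by exact_mod_cast hv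
  have hs : 0 < sinh ((v : ℝ) * t / 2) := sinh_pos_iff.2 (by positivity)
  field_simp

lemma In2_rr_odd {v : ℕ} (h : Odd v) (t θ : ℝ) :
    rr v t θ = 1 - sin (v * θ / 2) ^ 2 / cosh (v * t / 2) ^ 2 := by
  unfold rr
  rw [fac_zero_odd h, fac_odd h]
  have hc : 0 < cosh ((v : ℝ) * t / 2) := cosh_pos _
  field_simp

lemma In2_rr_pos {v : ℕ} (hv : 1 ≤ v) {t : ℝ} (ht : 0 < t) (θ : ℝ) : 0 < rr v t θ :=
  div_pos (fac_pos hv ht θ) (fac_pos hv ht 0)

lemma In2_rr_one_le (t θ : ℝ) : rr 1 t θ ≤ 1 := by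
  rw [In2_rr_odd odd_one]
  have : 0 ≤ sin (((1 : ℕ) : ℝ) * θ / 2) ^ 2 / cosh (((1 : ℕ) : ℝ) * t / 2) ^ 2 := by positivity
  linarith

/-- `sin² (r x) ≤ r² sin² x` for `r x ≤ π`. -/
lemma In2_sin {r x : ℝ} (hr : 1 ≤ r) (hx : 0 < x) (hrx : r * x ≤ π) :
    sin (r * x) ^ 2 ≤ r ^ 2 * sin x ^ 2 := by
  rcases hrx.lt_or_eq with h | h
  · have hx' : x ≤ r * x := by nlinarith
    have h1 := CF17.N3.trig_mono hx hx' h
    have hs : 0 < sin x := sin_pos_of_pos_of_lt_pi hx (by linarith)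
    have hs' : 0 < sin (r * x) := sin_pos_of_pos_of_lt_pi (by linarith) h
    have h2 : x ^ 2 / sin x ^ 2 ≤ (r * x) ^ 2 / sin (r * x) ^ 2 := by
      have : x ^ 2 ≤ (r * x) ^ 2 := pow_le_pow_left₀ hx.le hx' 2
      linarith
    rw [div_le_div_iff₀ (by positivity) (by positivity)] at h2
    have hx2 : 0 < x ^ 2 := by positivity
    refine le_of_mul_le_mul_left ?_ hx2
    calc x ^ 2 * sin (r * x) ^ 2 ≤ (r * x) ^ 2 * sin x ^ 2 := h2
      _ = _ := by ring
  · rw [h, sin_pi, zero_pow two_ne_zero]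
    positivity

lemma In2_sinh {r y : ℝ} (hr : 1 ≤ r) (hy : 0 < y) :
    r ^ 2 * sinh y ^ 2 ≤ sinh (r * y) ^ 2 := by
  have h := CF17.N3.var_nonneg hr hy
  have hs : 0 < sinh y := sinh_pos_iff.2 hy
  have hs' : 0 < sinh (r * y) := sinh_pos_iff.2 (by positivity)
  have h2 : r ^ 2 / sinh (r * y) ^ 2 ≤ 1 / sinh y ^ 2 := by linarith
  rw [div_le_div_iff₀ (by positivity) (by positivity)] at h2
  linarith

/-- `1 + sin²(2X)/sinh²(2Y) = (1 + sin²X/sinh²Y)(1 - sin²X/cosh²Y)`. -/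
lemma In2_double {X Y : ℝ} (hY : 0 < Y) : 1 + sin (2 * X) ^ 2 / sinh (2 * Y) ^ 2 =
    (1 + sin X ^ 2 / sinh Y ^ 2) * (1 - sin X ^ 2 / cosh Y ^ 2) := by
  have hs : 0 < sinh Y := sinh_pos_iff.2 hY
  have hc : 0 < cosh Y := cosh_pos Y
  rw [sin_two_mul, sinh_two_mul]
  have h1 := sin_sq_add_cos_sq X
  have h2 := cosh_sq Y
  have h3 : cos X ^ 2 = 1 - sin X ^ 2 := by linarith
  field_simp
  rw [h3, h2]
  ring

/-- `T2` (Lemma G).  Uses `trig_mono`/`hyp_mono` of N3/PairE and the identity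
`(1 + sin²X/sinh²Y)(1 - sin²X/cosh²Y) = 1 + sin²(2X)/sinh²(2Y)`, `X = (i+1/2)θ`, `Y = (i+1/2)t`:
`sin(iθ)/sinh(it) ≥ sin X/sinh Y` as `sin x / sinh (τ x)` decreases on `(0, π]`, and `rr 1 ≤ 1`. -/
theorem PP_le {i : ℕ} (hi : 1 ≤ i) {t θ : ℝ} (ht : 0 < t) (hθ : 0 < θ)
    (hi2 : (2 * i + 1) * θ ≤ 2 * π) :
    PP i t θ ≤ sinh ((2 * i + 1) * t) ^ 2 / (sinh ((2 * i + 1) * t) ^ 2 +
      sin ((2 * i + 1) * θ) ^ 2) := by
  have hi0 : (1 : ℝ) ≤ i := by exact_mod_cast hi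
  obtain ⟨r, hr⟩ : ∃ r : ℝ, r = (2 * i + 1) / (2 * i) := ⟨_, rfl⟩
  have hr1 : 1 ≤ r := by rw [hr, le_div_iff₀ (by positivity)]; linarith
  obtain ⟨X, hX⟩ : ∃ X : ℝ, X = (2 * i + 1) * θ / 2 := ⟨_, rfl⟩
  obtain ⟨Y, hY⟩ : ∃ Y : ℝ, Y = (2 * i + 1) * t / 2 := ⟨_, rfl⟩
  have hY0 : 0 < Y := by rw [hY]; positivity
  have hrX : r * (i * θ) = X := by rw [hr, hX]; field_simp
  have hrY : r * (i * t) = Y := by rw [hr, hY]; field_simp
  have h1 := In2_sin (x := i * θ) hr1 (by positivity) (by rw [hrX, hX]; linarith)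
  have h2 := In2_sinh (y := i * t) hr1 (by positivity)
  rw [hrX] at h1
  rw [hrY] at h2
  have hsY : 0 < sinh Y := sinh_pos_iff.2 hY0
  have hsi : 0 < sinh (i * t) := sinh_pos_iff.2 (by positivity)
  -- the even factor
  have e2 : rr (2 * i) t θ = 1 + sin (i * θ) ^ 2 / sinh (i * t) ^ 2 := by
    rw [In2_rr_even (even_two_mul i) (by omega) ht]
    have h3 : ((2 * i : ℕ) : ℝ) * θ / 2 = i * θ := by push_cast; ring
    have h4 : ((2 * i : ℕ) : ℝ) * t / 2 = i * t := by push_cast; ring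
    rw [h3, h4]
  have e3 : rr (2 * i + 1) t θ = 1 - sin X ^ 2 / cosh Y ^ 2 := by
    rw [In2_rr_odd (odd_two_mul_add_one i)]
    have h3 : ((2 * i + 1 : ℕ) : ℝ) * θ / 2 = X := by rw [hX]; push_cast; ring
    have h4 : ((2 * i + 1 : ℕ) : ℝ) * t / 2 = Y := by rw [hY]; push_cast; ring
    rw [h3, h4]
  have h5 : 1 + sin X ^ 2 / sinh Y ^ 2 ≤ rr (2 * i) t θ := by
    rw [e2]
    have h6 : sin X ^ 2 / sinh Y ^ 2 ≤ sin (i * θ) ^ 2 / sinh (i * t) ^ 2 := by
      rw [div_le_div_iff₀ (by positivity) (by positivity)]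
      have a1 := mul_le_mul h1 h2 (by positivity) (by positivity)
      have hr2 : 0 < r ^ 2 := by positivity
      refine le_of_mul_le_mul_left ?_ hr2
      calc r ^ 2 * (sin X ^ 2 * sinh (i * t) ^ 2) = sin X ^ 2 * (r ^ 2 * sinh (i * t) ^ 2) := by
            ring
        _ ≤ _ := a1
        _ = _ := by ring
    linarith
  have hpos3 : 0 < rr (2 * i + 1) t θ := In2_rr_pos (by omega) ht θ
  have hpos2 : 0 < rr (2 * i) t θ := In2_rr_pos (by omega) ht θ
  have h7 : 1 + sin ((2 * i + 1) * θ) ^ 2 / sinh ((2 * i + 1) * t) ^ 2 ≤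
      rr (2 * i) t θ * rr (2 * i + 1) t θ := by
    have h8 := In2_double (X := X) hY0
    have h9 : 2 * X = (2 * i + 1) * θ := by rw [hX]; ring
    have h10 : 2 * Y = (2 * i + 1) * t := by rw [hY]; ring
    rw [h9, h10, ← e3] at h8
    rw [h8]
    exact mul_le_mul_of_nonneg_right h5 hpos3.le
  have hS : 0 < sinh ((2 * i + 1) * t) := sinh_pos_iff.2 (by positivity)
  unfold PP
  rw [div_le_div_iff₀ (by positivity) (by positivity)]
  have h11 := In2_rr_one_le t θ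
  have h12 : sinh ((2 * i + 1) * t) ^ 2 * (1 + sin ((2 * i + 1) * θ) ^ 2 /
      sinh ((2 * i + 1) * t) ^ 2) = sinh ((2 * i + 1) * t) ^ 2 + sin ((2 * i + 1) * θ) ^ 2 := by
    field_simp
  have h13 := mul_le_mul_of_nonneg_left h7 (show 0 ≤ sinh ((2 * i + 1) * t) ^ 2 by positivity)
  rw [h12] at h13
  have h14 : 0 ≤ sinh ((2 * i + 1) * t) ^ 2 + sin ((2 * i + 1) * θ) ^ 2 := by positivity
  calc rr 1 t θ * (sinh ((2 * i + 1) * t) ^ 2 + sin ((2 * i + 1) * θ) ^ 2)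
      ≤ 1 * (sinh ((2 * i + 1) * t) ^ 2 + sin ((2 * i + 1) * θ) ^ 2) :=
        mul_le_mul_of_nonneg_right h11 h14
    _ ≤ _ := by linarith

/-- even factors: `rr b ≤ 1 + sin²x/sinh²u` for `b θ/2 = c x`, `b t/2 = c u`, `c ≥ 1`,
`x ≤ π/2`. -/
lemma In2_even_le {b : ℕ} (hb : Even b) (hb1 : 1 ≤ b) {t θ c x u : ℝ} (ht : 0 < t) (hc : 1 ≤ c)
    (hu : 0 < u) (hx : 0 ≤ x) (hx' : x ≤ π / 2) (e1 : b * θ / 2 = c * x) (e2 : b * t / 2 = c * u) :
    rr b t θ ≤ 1 + sin x ^ 2 / sinh u ^ 2 := by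
  rw [In2_rr_even hb hb1 ht, e1, e2]
  have h1 := CF17.N3.pairE hc hu hx hx'
  have h2 := CF17.N3.var_nonneg hc hu
  have h3 : 0 ≤ sin (c * x) ^ 2 / sinh (c * u) ^ 2 := by positivity
  have h4 : 0 ≤ sin x ^ 2 * (1 / sinh u ^ 2 - c ^ 2 / sinh (c * u) ^ 2) :=
    mul_nonneg (sq_nonneg _) h2
  nlinarith

/-- `T4` (Lemma E0), from `PP_le` and `pairE` with `c = b / (2 (2 i + 1)) ≥ 1`, `x = (2i+1)θ`. -/
theorem E0 {i b : ℕ} (hi : 1 ≤ i) (hb : Even b) (hbi : 4 * i + 2 ≤ b) {t θ : ℝ} (ht : 0 < t)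
    (hθ : 0 < θ) (hi2 : (2 * i + 1) * θ ≤ π / 2) : rr b t θ * PP i t θ ≤ 1 := by
  have h1 := PP_le hi ht hθ (by linarith [pi_pos])
  have hb' : (4 : ℝ) * i + 2 ≤ b := by exact_mod_cast hbi
  have hi0 : (1 : ℝ) ≤ i := by exact_mod_cast hi
  have h2 := In2_even_le (b := b) (t := t) (θ := θ) (c := b / (2 * (2 * i + 1)))
    (x := (2 * i + 1) * θ) (u := (2 * i + 1) * t) hb (by omega) ht
    (by rw [le_div_iff₀ (by positivity)]; linarith) (by positivity) (by positivity) hi2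
    (by field_simp) (by field_simp)
  have hS : 0 < sinh ((2 * i + 1) * t) := sinh_pos_iff.2 (by positivity)
  have hrb : 0 < rr b t θ := In2_rr_pos (by omega) ht θ
  have h3 := mul_le_mul h2 h1 (by
    unfold PP
    have := In2_rr_pos (v := 1) le_rfl ht θ
    have := In2_rr_pos (v := 2 * i) (by omega) ht θ
    have := In2_rr_pos (v := 2 * i + 1) (by omega) ht θ
    positivity) (by positivity)
  refine h3.trans (le_of_eq ?_)
  have h4 : 0 < sinh ((2 * i + 1) * t) ^ 2 + sin ((2 * i + 1) * θ) ^ 2 := by positivity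
  field_simp

/-- `T5'`: the case `t₁ = t` of the leftover: `rr (c k) ≤ rr k` for `kθ ≤ π` (`pairE`), `k` even. -/
theorem leftover {k b : ℕ} (hk : Even k) (hb : Even b) (hkb : k ≤ b) (hk1 : 1 ≤ k) {t θ : ℝ}
    (ht : 0 < t) (hθ : 0 ≤ θ) (hkθ : k * θ ≤ π) : rr b t θ / rr k t θ ≤ 1 := by
  have hk0 : (1 : ℝ) ≤ k := by exact_mod_cast hk1
  have hkb' : (k : ℝ) ≤ b := by exact_mod_cast hkb
  have h2 := In2_even_le (b := b) (t := t) (θ := θ) (c := b / k) (x := k * θ / 2)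
    (u := k * t / 2) hb (by omega) ht (by rw [le_div_iff₀ (by positivity)]; linarith)
    (by positivity) (by positivity) (by linarith) (by field_simp) (by field_simp)
  rw [div_le_one (In2_rr_pos hk1 ht θ), In2_rr_even hk hk1 ht]
  exact h2

end Pool.Agent.SignedQ.An.In
end

section

/-! # INTER (k t ≤ 1): definitions (helper68) -/

namespace Pool.Agent.SignedQ.An.In

open Real Finset

/-- `α~`. -/
noncomputable def alt (n k a : ℕ) : ℝ := (a * (2 * (n / 2) + k) : ℕ) / (k : ℝ)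

/-- The factor of index `i` (as in `structure_le`). -/
noncomputable def ff (n a i : ℕ) (t θ : ℝ) : ℝ := PP i t θ * (rr (a * (2 * (n / 2) + 2 * i)) t θ *
  if 2 ≤ i then rr (a * (2 * (n / 2) + 2 * i - 1)) t θ else 1)

/-- `#{i ≥ 1 : (2i+1) θ ≤ B}`. -/
noncomputable def cnt (θ B : ℝ) : ℕ := ⌊(B / θ - 1) / 2⌋₊

end Pool.Agent.SignedQ.An.In
end

section

/-! # INTER (k t ≤ 1): T6a, lower bounds of `α~` (helper68) -/

namespace Pool.Agent.SignedQ.An.In

open Real Finset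

/-- Lower bound of `α~` from `c k ≤ a (n + k)`. -/
theorem alt_lower {n k a c A : ℕ} (hk : 1 ≤ k) (h : c * k ≤ a * (n + k)) (ha : a ≤ A) {r : ℝ}
    (hr : r * k + A ≤ c * k) : r ≤ alt n k a := by
  have hk' : (0 : ℝ) < k := by exact_mod_cast hk
  unfold alt
  rw [le_div_iff₀ hk']
  have h1 : n ≤ 2 * (n / 2) + 1 := by omega
  have h2 : a * (n + k) ≤ a * (2 * (n / 2) + k) + a := by
    calc a * (n + k) ≤ a * (2 * (n / 2) + 1 + k) := Nat.mul_le_mul_left _ (by omega)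
      _ = _ := by ring
  have h3 : ((c * k : ℕ) : ℝ) ≤ ((a * (2 * (n / 2) + k) + A : ℕ) : ℝ) := by
    exact_mod_cast (h.trans (h2.trans (by omega)))
  rw [Nat.cast_add, Nat.cast_mul] at h3
  linarith

theorem alt_ge_a {n k a : ℕ} (hk : 1 ≤ k) : (a : ℝ) ≤ alt n k a := by
  have hk' : (0 : ℝ) < k := by exact_mod_cast hk
  unfold alt
  rw [le_div_iff₀ hk']
  have : a * k ≤ a * (2 * (n / 2) + k) := Nat.mul_le_mul_left _ (by omega)
  exact_mod_cast this

theorem alt_ge {n k a : ℕ} (par : Par n k a) (hk : 26 ≤ k) : (a : ℝ) ≤ alt n k a ∧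
    (k < 30 → 29.88 ≤ alt n k a) ∧ (30 ≤ k → k < 60 → 19.3 ≤ alt n k a) ∧
    (60 ≤ k → k < 100 → 7.88 ≤ alt n k a) ∧ (100 ≤ k → k < 200 → 4.97 ≤ alt n k a) := by
  have ha := par.2.1
  have hodd : a % 2 = 1 := Nat.odd_iff.1 ha
  have hk1 : 1 ≤ k := by omega
  have h0 : (a : ℝ) ≤ alt n k a := alt_ge_a hk1
  have hk26 : (26 : ℝ) ≤ k := by exact_mod_cast hk
  refine ⟨h0, ?_, ?_, ?_, ?_⟩
  · intro h
    rcases le_or_gt 31 a with h1 | h1
    · have : (31 : ℝ) ≤ a := by exact_mod_cast h1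
      linarith
    · exact alt_lower (c := 31) (A := 29) hk1 (par.lt30 h) (by omega) (by push_cast; linarith)
  · intro h h'
    have hk30 : (30 : ℝ) ≤ k := by exact_mod_cast h
    rcases le_or_gt 21 a with h1 | h1
    · have : (21 : ℝ) ≤ a := by exact_mod_cast h1
      linarith
    · exact alt_lower (c := 20) (A := 19) hk1 (par.lt60 h') (by omega) (by push_cast; linarith)
  · intro h h'
    have hk30 : (60 : ℝ) ≤ k := by exact_mod_cast h
    rcases le_or_gt 9 a with h1 | h1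
    · have : (9 : ℝ) ≤ a := by exact_mod_cast h1
      linarith
    · exact alt_lower (c := 8) (A := 7) hk1 (par.lt100 h') (by omega) (by push_cast; linarith)
  · intro h h'
    have hk30 : (100 : ℝ) ≤ k := by exact_mod_cast h
    have ha3 := par.2.2.1
    rcases le_or_gt 5 a with h1 | h1
    · have : (5 : ℝ) ≤ a := by exact_mod_cast h1
      linarith
    · have ha' : a = 3 := by omega
      refine alt_lower (c := 5) (A := 3) hk1 ?_ (by omega) (by push_cast; linarith)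
      have := par.lt200 h' ha'
      rw [ha']; exact this

end Pool.Agent.SignedQ.An.In
end

section

/-! # INTER (k t ≤ 1): T3, the numerator bounds (helper37) -/

namespace Pool.Agent.SignedQ.An.In

open Real Finset


theorem coth_half {v : ℝ} (hv : 0 < v) : (cosh v + 1) / sinh v = cosh (v / 2) / sinh (v / 2) := by
  have h1 : cosh v = 2 * cosh (v / 2) ^ 2 - 1 := by
    have := Real.cosh_two_mul (v / 2)
    rw [show 2 * (v / 2) = v by ring] at this
    rw [this, Real.sinh_sq]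
    ring
  have h2 : sinh v = 2 * sinh (v / 2) * cosh (v / 2) := by
    have := Real.sinh_two_mul (v / 2)
    rw [show 2 * (v / 2) = v by ring] at this
    exact this
  have hs : 0 < sinh (v / 2) := Real.sinh_pos_iff.2 (by linarith)
  have hc : 0 < cosh (v / 2) := Real.cosh_pos _
  rw [h1, h2]
  field_simp
  ring

/-- `T3` (Lemma N), trivial form. -/
theorem rr_even_le {b : ℕ} (hb : Even b) (hb1 : 1 ≤ b) {t : ℝ} (ht : 0 < t) (θ : ℝ) :
    rr b t θ ≤ ((cosh (b * t) + 1) / sinh (b * t)) ^ 2 := by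
  have hb' : (1 : ℝ) ≤ b := by exact_mod_cast hb1
  have hv : 0 < (b : ℝ) * t := by positivity
  have hs : 0 < sinh (b * t / 2) := Real.sinh_pos_iff.2 (by positivity)
  unfold rr
  rw [fac_even hb, fac_zero_even hb, coth_half hv, div_pow, Real.cosh_sq]
  refine div_le_div_of_nonneg_right ?_ (by positivity)
  have := Real.sin_sq_le_one (b * θ / 2)
  linarith

/-- `T3'` (Lemma N): `(1+S_b)(1-C_{b'}) ≤ ((cosh v + δ)/sinh v)²`, `v = b t`, `b' = b - a`.
Proof: `1+S_b = (cosh bt - cos bθ)/(cosh bt - 1)`, `1-C_{b'} = (cosh b't + cos b'θ)/(cosh b't + 1) ≤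
(cosh bt + cos b'θ)/(cosh bt + 1)`, AM-GM, `cos b'θ - cos bθ ≤ 2 |sin (aθ/2)| ≤ 2 δ`. -/
theorem rr_pair_le {b a : ℕ} (hb : Even b) (ha : Odd a) (hab : a < b) {t θ : ℝ} (ht : 0 < t)
    (hθ : 0 ≤ θ) : rr b t θ * rr (b - a) t θ ≤
      ((cosh (b * t) + min 1 (a * θ / 2)) / sinh (b * t)) ^ 2 := by
  have hb' : (1 : ℝ) ≤ b := by
    have : 1 ≤ b := by omega
    exact_mod_cast this
  have hodd : Odd (b - a) := by
    obtain ⟨u, hu⟩ := hb
    obtain ⟨w, hw⟩ := ha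
    exact ⟨u - w - 1, by omega⟩
  have hv : 0 < (b : ℝ) * t := by positivity
  set C := cosh (b * t) with hC
  set p := cos (b * θ) with hp
  have hcast : ((b - a : ℕ) : ℝ) = b - a := Nat.cast_sub hab.le
  set C' := cosh (((b - a : ℕ) : ℝ) * t) with hC'
  set q := cos (((b - a : ℕ) : ℝ) * θ) with hq
  have hC1 : 1 < C := by
    rw [hC, Real.one_lt_cosh]
    exact hv.ne'
  have hC'1 : 1 ≤ C' := Real.one_le_cosh _
  have hCC : C' ≤ C := by
    rw [hC, hC', Real.cosh_le_cosh, abs_of_nonneg (by positivity), abs_of_nonneg hv.le, hcast]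
    have : (0 : ℝ) ≤ a := Nat.cast_nonneg a
    nlinarith
  have hhalf : ∀ x : ℝ, cosh x = 2 * cosh (x / 2) ^ 2 - 1 := by
    intro x
    have := Real.cosh_two_mul (x / 2)
    rw [show 2 * (x / 2) = x by ring] at this
    rw [this, Real.sinh_sq]
    ring
  have hhalf' : ∀ x : ℝ, cos x = 1 - 2 * sin (x / 2) ^ 2 := by
    intro x
    have := Real.cos_two_mul' (x / 2)
    rw [show 2 * (x / 2) = x by ring] at this
    rw [this, Real.cos_sq']
    ring
  have e1 : rr b t θ = (C - p) / (C - 1) := by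
    unfold rr
    rw [fac_even hb, fac_zero_even hb, hC, hp, hhalf (b * t), hhalf' (b * θ), Real.sinh_sq,
      show (b : ℝ) * t / 2 = b * t / 2 by ring]
    have h0 : 0 < sinh (b * t / 2) := Real.sinh_pos_iff.2 (by positivity)
    have h1 : cosh (b * t / 2) ^ 2 - 1 ≠ 0 := by
      have := Real.cosh_sq (b * t / 2)
      have : cosh (b * t / 2) ^ 2 - 1 = sinh (b * t / 2) ^ 2 := by linarith
      rw [this]
      positivity
    have h2 : 2 * cosh (b * t / 2) ^ 2 - 1 - 1 ≠ 0 := by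
      intro h
      apply h1
      linarith
    rw [div_eq_div_iff h1 h2]
    ring
  have e2 : rr (b - a) t θ = (C' + q) / (C' + 1) := by
    unfold rr
    rw [fac_odd hodd, fac_zero_odd hodd, hC', hq, hhalf (((b - a : ℕ) : ℝ) * t),
      hhalf' (((b - a : ℕ) : ℝ) * θ)]
    have h1 : cosh (((b - a : ℕ) : ℝ) * t / 2) ^ 2 ≠ 0 := by
      have := Real.cosh_pos (((b - a : ℕ) : ℝ) * t / 2)
      positivity
    have h2 : 2 * cosh (((b - a : ℕ) : ℝ) * t / 2) ^ 2 - 1 + 1 ≠ 0 := by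
      intro h
      apply h1
      linarith
    rw [div_eq_div_iff h1 h2]
    ring
  have hq1 : q ≤ 1 := Real.cos_le_one _
  have hqm : -1 ≤ q := Real.neg_one_le_cos _
  have hp1 : p ≤ 1 := Real.cos_le_one _
  have h3 : (C' + q) / (C' + 1) ≤ (C + q) / (C + 1) := by
    rw [div_le_div_iff₀ (by linarith) (by linarith)]
    nlinarith
  have hS : sinh (b * t) ^ 2 = (C - 1) * (C + 1) := by
    rw [Real.sinh_sq, ← hC]
    ring
  have hδ : |(q - p) / 2| ≤ min 1 (a * θ / 2) := by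
    have h4 : q - p = 2 * (sin ((b - a / 2) * θ) * sin (a * θ / 2)) := by
      rw [hq, hp, hcast]
      have h5 := Real.cos_sub_cos (((b : ℝ) - a) * θ) (b * θ)
      rw [h5]
      have e3 : (((b : ℝ) - a) * θ + b * θ) / 2 = (b - a / 2) * θ := by ring
      have e4 : (((b : ℝ) - a) * θ - b * θ) / 2 = -(a * θ / 2) := by ring
      rw [e3, e4, Real.sin_neg]
      ring
    have h6 : |(q - p) / 2| = |sin ((b - a / 2) * θ)| * |sin (a * θ / 2)| := by
      rw [h4, show 2 * (sin (((b : ℝ) - a / 2) * θ) * sin (a * θ / 2)) / 2 =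
        sin (((b : ℝ) - a / 2) * θ) * sin (a * θ / 2) by ring, abs_mul]
    rw [h6]
    have h7 := Real.abs_sin_le_one ((b - a / 2) * θ)
    have h8 := Real.abs_sin_le_one (a * θ / 2)
    have h9 : |sin (a * θ / 2)| ≤ a * θ / 2 := by
      have h10 : |sin (a * θ / 2)| ≤ |a * θ / 2| := Real.abs_sin_le_abs
      have h11 : |(a : ℝ) * θ / 2| = a * θ / 2 := abs_of_nonneg (by positivity)
      rwa [h11] at h10
    have h12 : |sin ((b - a / 2) * θ)| * |sin (a * θ / 2)| ≤ 1 * |sin (a * θ / 2)| :=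
      mul_le_mul_of_nonneg_right h7 (abs_nonneg _)
    rw [one_mul] at h12
    exact le_min (h12.trans h8) (h12.trans h9)
  set δ : ℝ := min 1 (a * θ / 2) with hδd
  have h13 := abs_le.1 hδ
  rw [e1, e2]
  have h14 : (C - p) / (C - 1) * ((C' + q) / (C' + 1)) ≤ (C - p) / (C - 1) * ((C + q) / (C + 1)) :=
    mul_le_mul_of_nonneg_left h3 (div_nonneg (by linarith) (by linarith))
  refine h14.trans ?_
  rw [div_mul_div_comm, div_pow, hS]
  refine div_le_div_of_nonneg_right ?_ (by nlinarith)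
  have h15 : δ ≤ 1 := min_le_left _ _
  nlinarith [sq_nonneg (p + q), h13.1, h13.2, mul_nonneg (show 0 ≤ δ - (q - p) / 2 by linarith [h13.2])
    (show 0 ≤ 2 * C + δ + (q - p) / 2 by linarith [h13.1])]

theorem cosh_lower (v : ℝ) : 1 + v ^ 2 / 2 + v ^ 4 / 24 + v ^ 6 / 720 ≤ cosh v := by
  have h := Real.hasSum_cosh v
  have h1 := sum_le_hasSum (range 4) (fun n _ => by
    have : 0 ≤ v ^ (2 * n) := by
      rw [pow_mul]
      positivity
    positivity) h
  refine le_trans (le_of_eq ?_) h1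
  simp only [sum_range_succ, sum_range_zero, Nat.factorial]
  norm_num

/-- `T3''`: `(cosh v + δ)² / sinh² v ≤ 1 + κ / v²`, `κ = 1 + 2.4 δ + δ²` or `4`. -/
theorem N_le {v δ : ℝ} (hv : 0 < v) (hδ : 0 ≤ δ) (hδ1 : δ ≤ 1) :
    ((cosh v + δ) / sinh v) ^ 2 ≤ 1 + min 4 (1 + 12 / 5 * δ + δ ^ 2) / v ^ 2 := by
  have hs : 0 < sinh v := Real.sinh_pos_iff.2 hv
  have hc := Real.cosh_pos v
  have hvs : v ≤ sinh v := Real.self_le_sinh_iff.2 hv.le
  have hv2 : v ^ 2 ≤ sinh v ^ 2 := pow_le_pow_left₀ hv.le hvs 2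
  have hcs := Real.cosh_sq v
  rcases le_total (4 : ℝ) (1 + 12 / 5 * δ + δ ^ 2) with h | h
  · rw [min_eq_left h]
    have h1 : ((cosh v + δ) / sinh v) ^ 2 ≤ ((cosh v + 1) / sinh v) ^ 2 := by
      refine pow_le_pow_left₀ (by positivity) ?_ 2
      exact div_le_div_of_nonneg_right (by linarith) hs.le
    refine h1.trans ?_
    rw [coth_half hv, div_pow, Real.cosh_sq]
    have hs2 : 0 < sinh (v / 2) := Real.sinh_pos_iff.2 (by linarith)
    have h2 : v / 2 ≤ sinh (v / 2) := Real.self_le_sinh_iff.2 (by linarith)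
    have h3 : (v / 2) ^ 2 ≤ sinh (v / 2) ^ 2 := pow_le_pow_left₀ (by linarith) h2 2
    rw [add_div, div_self (by positivity), show (4 : ℝ) / v ^ 2 = 1 / (v / 2) ^ 2 by
      field_simp
      norm_num]
    have := one_div_le_one_div_of_le (show 0 < (v / 2) ^ 2 by positivity) h3
    linarith
  · rw [min_eq_right h]
    -- `v² cosh v ≤ 1.2 sinh² v`
    have hkey : v ^ 2 * cosh v ≤ 6 / 5 * sinh v ^ 2 := by
      have h1 := cosh_lower v
      set w := v ^ 2 with hw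
      have hw0 : 0 < w := by positivity
      have e4 : v ^ 4 = w ^ 2 := by rw [hw]; ring
      have e6 : v ^ 6 = w ^ 3 := by rw [hw]; ring
      rw [e4, e6] at h1
      set C0 := 1 + w / 2 + w ^ 2 / 24 + w ^ 3 / 720 with hC0
      have h2 : 0 ≤ 6 / 5 * (C0 ^ 2 - 1) - w * C0 := by
        have h3 : 6 / 5 * (C0 ^ 2 - 1) - w * C0 = w * (1 / 5 - 1 / 10 * w +
            (16 / 300 - 1 / 24) * w ^ 2 + (3 / 800 - 1 / 720) * w ^ 3 + 1 / 7200 * w ^ 4 +
            1 / 432000 * w ^ 5) := by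
          rw [hC0]
          ring
        rw [h3]
        refine mul_nonneg hw0.le ?_
        have h4 : 0 ≤ 1 / 5 - 1 / 10 * w + (16 / 300 - 1 / 24) * w ^ 2 +
            (3 / 800 - 1 / 720) * w ^ 3 := by
          nlinarith [sq_nonneg (w - 5 / 2), mul_nonneg hw0.le (sq_nonneg (w - 5 / 2))]
        positivity
      have h5 : w / (12 / 5) ≤ C0 := by
        rw [hC0]
        have : 0 ≤ w ^ 2 := by positivity
        have : 0 ≤ w ^ 3 := by positivity
        linarith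
      have h6 : sinh v ^ 2 = cosh v ^ 2 - 1 := by linarith
      rw [h6]
      nlinarith [mul_nonneg (show 0 ≤ cosh v - C0 by linarith)
        (show 0 ≤ 6 / 5 * (cosh v + C0) - w by linarith)]
    rw [div_pow, div_le_iff₀ (by positivity)]
    have h7 : (1 + (1 + 12 / 5 * δ + δ ^ 2) / v ^ 2) * sinh v ^ 2 = sinh v ^ 2 +
        (1 + 12 / 5 * δ + δ ^ 2) * (sinh v ^ 2 / v ^ 2) := by ring
    rw [h7]
    have h8 : cosh v * (5 / 6) ≤ sinh v ^ 2 / v ^ 2 := by
      rw [le_div_iff₀ (by positivity)]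
      linarith
    have h9 : 1 ≤ sinh v ^ 2 / v ^ 2 := by
      rw [le_div_iff₀ (by positivity)]
      linarith
    nlinarith [mul_le_mul_of_nonneg_left h8 hδ, mul_le_mul_of_nonneg_left h9
      (show 0 ≤ 1 + δ ^ 2 by positivity)]

/-- `T3'''`: `x ↦ (cosh v + δ)/sinh v` decreases. -/
theorem N_anti {v v' δ : ℝ} (hv : 0 < v) (hvv : v ≤ v') (hδ : 0 ≤ δ) (hδ1 : δ ≤ 1) :
    (cosh v' + δ) / sinh v' ≤ (cosh v + δ) / sinh v := by
  have hs : 0 < sinh v := Real.sinh_pos_iff.2 hv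
  have hs' : 0 < sinh v' := Real.sinh_pos_iff.2 (hv.trans_le hvv)
  rw [div_le_div_iff₀ hs' hs]
  have h1 := Real.sinh_nonneg_iff.2 (show 0 ≤ v' - v by linarith)
  rw [Real.sinh_sub] at h1
  have h2 : sinh v ≤ sinh v' := Real.sinh_le_sinh.2 hvv
  nlinarith [mul_le_mul_of_nonneg_left h2 hδ]

end Pool.Agent.SignedQ.An.In
end
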