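import Pool.Agent.Lib.MP_cf17a0_co.Mg.G001
import Pool.Agent.Lib.MP_cf17a0_co.Mg.G003
import Pool.Agent.Lib.MP_cf17a0_co.S1.Sig
import Pool.Agent.Lib.MP_cf17a0_co.Mg.G067

section

/-! # INTER: the shift lemma (the ratio at `t` from the ratio at `t₁ ≥ t`) -/

namespace Pool.Agent.SignedQ.An.In

open Finset

/-- `u coth u ≤ 1 + u² / 3`. -/
theorem coth_third {u : ℝ} (hu : 0 < u) : u * (Real.cosh u / Real.sinh u) ≤ 1 + u ^ 2 / 3 := by
  have hs := Real.sinh_pos_iff.2 hu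
  rw [mul_div_assoc', div_le_iff₀ hs]
  have h := nonneg_of_deriv (f := fun x => (1 + x ^ 2 / 3) * Real.sinh x - x * Real.cosh x)
    (f' := fun x => (((2 : ℕ) * x ^ 1 / 3) * Real.sinh x + (1 + x ^ 2 / 3) * Real.cosh x) -
      (1 * Real.cosh x + x * Real.sinh x))
    (fun x _ => ((((hasDerivAt_pow 2 x).div_const 3).const_add 1).mul
      (Real.hasDerivAt_sinh x)).sub ((hasDerivAt_id x).mul (Real.hasDerivAt_cosh x)))
    (by simp) (fun x hx => by
      have h1 := sinh_le_mul_cosh hx.le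
      push_cast
      nlinarith [mul_nonneg hx.le (sub_nonneg.2 h1)]) hu.le
  linarith

theorem dl_even_third {v : ℕ} (h : Even v) (hv : 1 ≤ v) {t : ℝ} (ht : 0 < t) :
    dl v t ≤ 1 / t + (v : ℝ) ^ 2 / 12 * t := by
  have hv' : (1 : ℝ) ≤ v := by exact_mod_cast hv
  have hu : 0 < (v : ℝ) * t / 2 := by positivity
  have h1 := coth_third hu
  unfold dl
  rw [if_pos h]
  have h2 : (v : ℝ) / 2 * (Real.cosh (v * t / 2) / Real.sinh (v * t / 2)) =
      ((v : ℝ) * t / 2 * (Real.cosh (v * t / 2) / Real.sinh (v * t / 2))) / t := by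
    field_simp
  rw [h2, div_le_iff₀ ht]
  refine h1.trans (le_of_eq ?_)
  field_simp
  ring

theorem slope_le' {n k a : ℕ} (h : Even (n * k)) (ha : Odd a) {t : ℝ} (ht : 0 < t) :
    slope n k a t ≤ (((a : ℝ) * (n + k)) ^ 2 * (k / 6 + 1 / 12) + (k + 1) / 8) * t := by
  have h1 := (dl_odd_bound (v := 1) odd_one ht).2
  have ha0 : (0 : ℝ) ≤ a := Nat.cast_nonneg _
  have hB : ∀ v ∈ range k, ((a * (n + v + 1) : ℕ) : ℝ) ^ 2 ≤ ((a : ℝ) * (n + k)) ^ 2 := by
    intro v hv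
    have hv' : ((v : ℕ) : ℝ) + 1 ≤ k := by exact_mod_cast Nat.succ_le_of_lt (mem_range.1 hv)
    have : ((a * (n + v + 1) : ℕ) : ℝ) ≤ (a : ℝ) * (n + k) := by
      push_cast
      exact mul_le_mul_of_nonneg_left (by linarith) ha0
    exact pow_le_pow_left₀ (Nat.cast_nonneg _) this 2
  set B2 : ℝ := ((a : ℝ) * (n + k)) ^ 2 with hB2
  have hB20 : 0 ≤ B2 := sq_nonneg _
  have h2 : ∀ v ∈ range k, dl (a * (n + v + 1)) t ≤
      (if Even (n + v + 1) then 1 / t + B2 / 12 * t - B2 / 4 * t else 0) + B2 / 4 * t := by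
    intro v hv
    rcases Nat.even_or_odd (n + v + 1) with hv' | hv'
    · rw [if_pos hv']
      have := dl_even_third (hv'.mul_left a) (Nat.mul_pos ha.pos (by omega)) ht
      have h3 := mul_le_mul_of_nonneg_right (hB v hv) ht.le
      linarith
    · rw [if_neg (Nat.not_even_iff_odd.2 hv'), zero_add]
      have := (dl_odd_bound (ha.mul hv') ht).2
      have h3 := mul_le_mul_of_nonneg_right (hB v hv) ht.le
      linarith
  have h3 : ∀ v : ℕ, (if Even (0 + v + 1) then 1 / t else 0) ≤ dl (v + 1) t := by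
    intro v
    rw [zero_add]
    rcases Nat.even_or_odd (v + 1) with hv | hv
    · rw [if_pos hv]
      exact (dl_even_bound hv (by omega) ht).1
    · rw [if_neg (Nat.not_even_iff_odd.2 hv)]
      exact (dl_odd_bound hv ht).1
  have h4 : ∀ (m : ℕ) (c : ℝ), Even (m * k) →
      ∑ v ∈ range k, (if Even (m + v + 1) then c else 0) = ((k / 2 : ℕ) : ℝ) * c := by
    intro m c hm
    rw [← sum_filter, sum_const, nsmul_eq_mul]
    have := card_ev hm
    unfold ev at this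
    rw [this]
  have h5 : ∑ v ∈ range k, (dl (a * (n + v + 1)) t - dl (v + 1) t) ≤
      ((k / 2 : ℕ) : ℝ) * (B2 / 12 * t - B2 / 4 * t) + k * (B2 / 4 * t) := by
    calc ∑ v ∈ range k, (dl (a * (n + v + 1)) t - dl (v + 1) t)
        ≤ ∑ v ∈ range k, (((if Even (n + v + 1) then 1 / t + B2 / 12 * t - B2 / 4 * t else 0) +
          B2 / 4 * t) - (if Even (0 + v + 1) then 1 / t else 0)) :=
          sum_le_sum fun v hv => sub_le_sub (h2 v hv) (h3 v)
      _ = ((k / 2 : ℕ) : ℝ) * (B2 / 12 * t - B2 / 4 * t) + k * (B2 / 4 * t) := by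
        rw [sum_sub_distrib, sum_add_distrib, h4 n _ h, h4 0 _ (by simp), sum_const, card_range,
          nsmul_eq_mul]
        ring
  have h7 : (((k + 1) / 2 : ℕ) : ℝ) * dl 1 t ≤ (k + 1) / 8 * t := by
    have hc : (((k + 1) / 2 : ℕ) : ℝ) ≤ (k + 1) / 2 := by
      have : (((k + 1) / 2 : ℕ) : ℝ) * 2 ≤ ((k + 1 : ℕ) : ℝ) := by
        exact_mod_cast Nat.div_mul_le_self (k + 1) 2
      push_cast at this
      linarith
    have h8 : dl 1 t ≤ t / 4 := by
      refine h1.trans (le_of_eq ?_)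
      push_cast
      ring
    have h9 := (dl_odd_bound (v := 1) odd_one ht).1
    calc (((k + 1) / 2 : ℕ) : ℝ) * dl 1 t ≤ (k + 1) / 2 * (t / 4) :=
        mul_le_mul hc h8 h9 (by positivity)
      _ = _ := by ring
  have h10 : ((k : ℝ) - 1) / 2 ≤ ((k / 2 : ℕ) : ℝ) := by
    have : k ≤ 2 * (k / 2) + 1 := by omega
    have : (k : ℝ) ≤ 2 * ((k / 2 : ℕ) : ℝ) + 1 := by exact_mod_cast this
    linarith
  unfold slope
  have hBt : 0 ≤ B2 * t := mul_nonneg hB20 ht.le
  nlinarith [mul_le_mul_of_nonneg_right h10 hBt]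

/-- `T5` (shift). -/
theorem shift {n k a : ℕ} (h : Even (n * k)) (hao : Odd a) (hk : 1 ≤ k) {t t₁ : ℝ} (ht : 0 < t)
    (htt : t ≤ t₁) (θ : ℝ) : GG n k a t θ / GG n k a t 0 ≤
      Real.exp (t₁ ^ 2 * ((a * (n + k)) ^ 2 * (k / 6 + 1 / 12) + (k + 1) / 8)) *
      (GG n k a t₁ θ / GG n k a t₁ 0) := by
  have _ := hk
  have ha1 : 1 ≤ a := hao.pos
  have ht1 : 0 < t₁ := ht.trans_le htt
  set C : ℝ := ((a : ℝ) * (n + k)) ^ 2 * (k / 6 + 1 / 12) + (k + 1) / 8 with hC
  have hC0 : 0 ≤ C := by positivity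
  -- the function `1/2 log GG - C t² / 2` decreases
  have hd : ∀ x, 0 < x → HasDerivAt (fun x => 1 / 2 * Real.log (GG n k a x 0) - C / 2 * x ^ 2)
      (slope n k a x - C * x) x := by
    intro x hx
    have h1 := (hasDerivAt_log_GG (n := n) (k := k) ha1 hx).sub
      ((hasDerivAt_pow 2 x).const_mul (C / 2))
    convert! h1 using 1
    push_cast
    ring
  have hanti : AntitoneOn (fun x => 1 / 2 * Real.log (GG n k a x 0) - C / 2 * x ^ 2)
      (Set.Icc t t₁) := by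
    refine antitoneOn_of_deriv_nonpos (convex_Icc t t₁) ?_ ?_ ?_
    · intro x hx
      exact (hd x (ht.trans_le hx.1)).continuousAt.continuousWithinAt
    · intro x hx
      rw [interior_Icc] at hx
      exact (hd x (ht.trans hx.1)).differentiableAt.differentiableWithinAt
    · intro x hx
      rw [interior_Icc] at hx
      have hx0 : 0 < x := ht.trans hx.1
      rw [(hd x hx0).deriv]
      have := slope_le' h hao hx0
      rw [← hC] at this
      linarith
  have h1 := hanti (Set.left_mem_Icc.2 htt) (Set.right_mem_Icc.2 htt) htt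
  simp only at h1
  have p0 := GG_pos (n := n) (k := k) ha1 ht 0
  have p1 := GG_pos (n := n) (k := k) ha1 ht1 0
  have q0 := GG_nonneg n k a t₁ θ
  have h2 : Real.log (GG n k a t₁ 0) ≤ t₁ ^ 2 * C + Real.log (GG n k a t 0) := by
    nlinarith [mul_nonneg hC0 (sq_nonneg t)]
  have h3 : GG n k a t₁ 0 ≤ Real.exp (t₁ ^ 2 * C) * GG n k a t 0 := by
    have h5 := Real.exp_le_exp.2 h2
    rwa [Real.exp_add, Real.exp_log p1, Real.exp_log p0] at h5
  have h4 := GG_mono (n := n) (k := k) ha1 ht htt θ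
  rw [div_le_iff₀ p0]
  calc GG n k a t θ ≤ GG n k a t₁ θ := h4
    _ = GG n k a t₁ θ / GG n k a t₁ 0 * GG n k a t₁ 0 := by field_simp
    _ ≤ GG n k a t₁ θ / GG n k a t₁ 0 * (Real.exp (t₁ ^ 2 * C) * GG n k a t 0) :=
        mul_le_mul_of_nonneg_left h3 (div_nonneg q0 p1.le)
    _ = _ := by ring

end Pool.Agent.SignedQ.An.In
end

section

/-! # Formulas for the saddle index `μ(t)` -/

namespace Pool.Agent.SignedQ.An

open Polynomial Finset

/-- `x / (e^x + 1)`. -/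
noncomputable def Vf (x : ℝ) : ℝ := x / (Real.exp x + 1)

/-- `x / (e^x - 1)`. -/
noncomputable def Wf (x : ℝ) : ℝ := x / (Real.exp x - 1)

theorem Vf_nonneg {x : ℝ} (hx : 0 ≤ x) : 0 ≤ Vf x := by
  have := Real.exp_pos x
  unfold Vf; positivity

theorem exp_sub_one_pos {x : ℝ} (hx : 0 < x) : 0 < Real.exp x - 1 := by
  have := Real.add_one_lt_exp hx.ne'
  linarith

theorem Wf_nonneg {x : ℝ} (hx : 0 < x) : 0 ≤ Wf x := by
  have := exp_sub_one_pos hx
  unfold Wf; positivity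

theorem Wf_sub_Vf {x : ℝ} (hx : 0 < x) : Wf x - Vf x = Wf (2 * x) := by
  have h1 := exp_sub_one_pos hx
  have h2 := Real.exp_pos x
  have h3 : Real.exp (2 * x) - 1 = (Real.exp x - 1) * (Real.exp x + 1) := by
    rw [two_mul, Real.exp_add]; ring
  unfold Wf Vf
  rw [h3]
  field_simp
  ring

/-- `vt/2 - t (d/dt) (1/2) log fac`. -/
noncomputable def eV (v : ℕ) (t : ℝ) : ℝ := if Even v then - Wf (v * t) else Vf (v * t)

theorem eV_eq {v : ℕ} (hv : 1 ≤ v) {t : ℝ} (ht : 0 < t) : v * t / 2 - t * dl v t = eV v t := by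
  have hv' : (1 : ℝ) ≤ v := by exact_mod_cast hv
  have hu : 0 < (v : ℝ) * t / 2 := by positivity
  have hs := Real.sinh_pos_iff.2 hu
  have hc := Real.cosh_pos (v * t / 2)
  have he : Real.exp (v * t) = Real.exp (v * t / 2) ^ 2 := by
    rw [← Real.exp_nat_mul]; congr 1; push_cast; ring
  have he2 : Real.exp (-(v * t / 2)) * Real.exp (v * t / 2) = 1 := by
    rw [← Real.exp_add]; simp
  have he3 := Real.exp_pos (v * t / 2)
  have hcs := Real.cosh_sub_sinh (v * t / 2)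
  have hcs2 := Real.cosh_add_sinh (v * t / 2)
  set E := Real.exp (v * t / 2) with hE
  set E' := Real.exp (-(v * t / 2)) with hE'
  have hE'' : E' = 1 / E := by field_simp; linarith
  have hE1 : 1 < E := Real.one_lt_exp_iff.2 hu
  have hE2 : 0 < E ^ 2 - 1 := by nlinarith
  unfold eV dl
  split
  · -- even
    have h1 : 1 - Real.cosh (v * t / 2) / Real.sinh (v * t / 2) = - (2 / (E ^ 2 - 1)) := by
      have h2 : Real.sinh (v * t / 2) = (E ^ 2 - 1) / (2 * E) := by
        have : Real.sinh (v * t / 2) = (E - E') / 2 := by linarith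
        rw [this, hE'']; field_simp
      have h3 : Real.cosh (v * t / 2) = (E ^ 2 + 1) / (2 * E) := by
        have : Real.cosh (v * t / 2) = (E + E') / 2 := by linarith
        rw [this, hE'']; field_simp
      rw [h2, h3]
      field_simp
      ring
    have h4 : v * t / 2 - t * (v / 2 * (Real.cosh (v * t / 2) / Real.sinh (v * t / 2))) =
        v * t / 2 * (1 - Real.cosh (v * t / 2) / Real.sinh (v * t / 2)) := by ring
    rw [h4, h1]
    unfold Wf
    rw [he]
    field_simp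
  · have h1 : 1 - Real.sinh (v * t / 2) / Real.cosh (v * t / 2) = 2 / (E ^ 2 + 1) := by
      have h2 : Real.sinh (v * t / 2) = (E ^ 2 - 1) / (2 * E) := by
        have : Real.sinh (v * t / 2) = (E - E') / 2 := by linarith
        rw [this, hE'']; field_simp
      have h3 : Real.cosh (v * t / 2) = (E ^ 2 + 1) / (2 * E) := by
        have : Real.cosh (v * t / 2) = (E + E') / 2 := by linarith
        rw [this, hE'']; field_simp
      rw [h2, h3]
      field_simp
      ring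
    have h4 : v * t / 2 - t * (v / 2 * (Real.sinh (v * t / 2) / Real.cosh (v * t / 2))) =
        v * t / 2 * (1 - Real.sinh (v * t / 2) / Real.cosh (v * t / 2)) := by ring
    rw [h4, h1]
    unfold Vf
    rw [he]
    field_simp

/-- `t μ(t)` as a sum. -/
theorem t_mu {n k a : ℕ} (ha : 1 ≤ a) {f : ℚ[X]} (hf : f * poch (-X : ℚ[X]) k = num n k a) {t : ℝ}
    (ht : 0 < t) : t * mu n k a f t = ((k + 1) / 2 : ℕ) * Vf t +
      ∑ v ∈ range k, eV (a * (n + v + 1)) t - ∑ v ∈ range k, eV (v + 1) t := by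
  have hdeg := natDegree_f ha hf
  have hdeg' : (f.natDegree : ℝ) = (((k + 1) / 2 : ℕ) : ℝ) +
      ∑ v ∈ range k, ((a * (n + v + 1) : ℕ) : ℝ) - ∑ v ∈ range k, ((v + 1 : ℕ) : ℝ) := by
    have : (f.natDegree : ℝ) + ((∑ v ∈ range k, (v + 1) : ℕ) : ℝ) =
      (((k + 1) / 2 : ℕ) : ℝ) + ((∑ v ∈ range k, a * (n + v + 1) : ℕ) : ℝ) := by
      exact_mod_cast hdeg
    rw [Nat.cast_sum, Nat.cast_sum] at this
    linarith
  have h1 : ∑ v ∈ range k, eV (a * (n + v + 1)) t = ∑ v ∈ range k,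
      (((a * (n + v + 1) : ℕ) : ℝ) * t / 2 - t * dl (a * (n + v + 1)) t) :=
    sum_congr rfl fun v _ => (eV_eq (Nat.mul_pos ha (by omega)) ht).symm
  have h2 : ∑ v ∈ range k, eV (v + 1) t = ∑ v ∈ range k,
      (((v + 1 : ℕ) : ℝ) * t / 2 - t * dl (v + 1) t) :=
    sum_congr rfl fun v _ => (eV_eq (by omega) ht).symm
  have h3 : Vf t = t / 2 - t * dl 1 t := by
    have := eV_eq (v := 1) le_rfl ht
    unfold eV at this
    rw [if_neg (by decide)] at this
    simpa using this.symm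
  have h4 : ∑ v ∈ range k, (((a * (n + v + 1) : ℕ) : ℝ) * t / 2 - t * dl (a * (n + v + 1)) t) =
      t / 2 * ∑ v ∈ range k, ((a * (n + v + 1) : ℕ) : ℝ) -
        t * ∑ v ∈ range k, dl (a * (n + v + 1)) t := by
    rw [mul_sum, mul_sum, ← sum_sub_distrib]
    exact sum_congr rfl fun v _ => by ring
  have h5 : ∑ v ∈ range k, (((v + 1 : ℕ) : ℝ) * t / 2 - t * dl (v + 1) t) =
      t / 2 * ∑ v ∈ range k, ((v + 1 : ℕ) : ℝ) - t * ∑ v ∈ range k, dl (v + 1) t := by
    rw [mul_sum, mul_sum, ← sum_sub_distrib]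
    exact sum_congr rfl fun v _ => by ring
  rw [h1, h2, h3, h4, h5]
  unfold mu slope
  rw [hdeg', sum_sub_distrib]
  ring

/-- The sum over the denominators. -/
theorem eV_den (k : ℕ) {t : ℝ} (ht : 0 < t) : ∑ v ∈ range k, eV (v + 1) t =
    ∑ v ∈ range k, (-1 : ℝ) ^ v * Vf ((v + 1 : ℕ) * t) -
      ∑ i ∈ range (k / 2), Wf (4 * ((i + 1 : ℕ) * t)) := by
  have h0 := sum_even (fun m => Wf (2 * (m * t))) (n := 0) (k := k) (by simp)
  have h1 : ∑ i ∈ range (k / 2), Wf (4 * ((i + 1 : ℕ) * t)) =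
      ∑ v ∈ range k, (if Even (0 + v + 1) then Wf (2 * ((0 + v + 1 : ℕ) * t)) else 0) := by
    rw [h0]
    refine sum_congr rfl fun i _ => ?_
    rw [if_pos (by simp)]
    congr 1
    push_cast
    ring
  rw [h1, ← sum_sub_distrib]
  refine sum_congr rfl fun v _ => ?_
  rw [zero_add]
  unfold eV
  rcases Nat.even_or_odd (v + 1) with hv | hv
  · rw [if_pos hv, if_pos hv, ← Wf_sub_Vf (by positivity)]
    have hv2 : Odd v := by rw [Nat.even_iff] at hv; rw [Nat.odd_iff]; omega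
    rw [hv2.neg_one_pow]
    ring
  · rw [if_neg (Nat.not_even_iff_odd.2 hv), if_neg (Nat.not_even_iff_odd.2 hv)]
    have hv2 : Even v := by rw [Nat.odd_iff] at hv; rw [Nat.even_iff]; omega
    rw [hv2.neg_one_pow]
    ring

/-- The sum over the numerators. -/
theorem eV_num {n k a : ℕ} (h : Even (n * k)) (ha : Odd a) {t : ℝ} (ht : 0 < t) :
    ∑ v ∈ range k, eV (a * (n + v + 1)) t =
      (-1) ^ n * ∑ v ∈ range k, (-1 : ℝ) ^ v * Vf ((a * (n + v + 1) : ℕ) * t) -
      ∑ i ∈ range (k / 2),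
        Wf (2 * (a * (n + 2 * i + 1 + (if Even n then 1 else 0) : ℕ) * t)) := by
  have h0 := sum_even (fun m => Wf (2 * (a * m * t))) (n := n) (k := k) h
  rw [← h0, mul_sum, ← sum_sub_distrib]
  refine sum_congr rfl fun v _ => ?_
  have ha1 : (1 : ℝ) ≤ a := by exact_mod_cast ha.pos
  unfold eV
  rcases Nat.even_or_odd (n + v + 1) with hv | hv
  · rw [if_pos hv, if_pos (hv.mul_left a)]
    have hv2 : Odd (n + v) := by rw [Nat.even_iff] at hv; rw [Nat.odd_iff]; omega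
    have h1 := Wf_sub_Vf (x := ((a * (n + v + 1) : ℕ) : ℝ) * t) (by push_cast; positivity)
    push_cast at h1 ⊢
    rw [← h1, ← mul_assoc, ← pow_add, hv2.neg_one_pow]
    ring
  · rw [if_neg (Nat.not_even_iff_odd.2 hv), if_neg (Nat.not_even_iff_odd.2 (ha.mul hv))]
    have hv2 : Even (n + v) := by rw [Nat.odd_iff] at hv; rw [Nat.even_iff]; omega
    rw [← mul_assoc, ← pow_add, hv2.neg_one_pow]
    ring

/-! ### The function `V` -/

theorem Vf_deriv (x : ℝ) : HasDerivAt Vf ((1 * (Real.exp x + 1) - x * Real.exp x) /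
    (Real.exp x + 1) ^ 2) x := by
  have := Real.exp_pos x
  exact (hasDerivAt_id x).div ((Real.hasDerivAt_exp x).add_const 1) (by positivity)

theorem Vf_unimodal : ∃ c : ℝ, MonotoneOn Vf (Set.Icc 0 c) ∧ AntitoneOn Vf (Set.Ici c) := by
  have hφ : ∀ x y : ℝ, 0 ≤ x → x ≤ y → Real.exp y + 1 - y * Real.exp y ≤
      Real.exp x + 1 - x * Real.exp x := by
    intro x y hx hxy
    have hm : AntitoneOn (fun u => Real.exp u + 1 - u * Real.exp u) (Set.Ici 0) := by
      have hd : ∀ x : ℝ, HasDerivAt (fun u => Real.exp u + 1 - u * Real.exp u)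
          (Real.exp x - (1 * Real.exp x + x * Real.exp x)) x := fun x =>
        ((Real.hasDerivAt_exp x).add_const 1).sub ((hasDerivAt_id x).mul (Real.hasDerivAt_exp x))
      refine antitoneOn_of_deriv_nonpos (convex_Ici 0) ?_ ?_ ?_
      · intro x _
        exact (hd x).continuousAt.continuousWithinAt
      · intro x _
        exact (hd x).differentiableAt.differentiableWithinAt
      · intro x hx
        rw [interior_Ici] at hx
        rw [(hd x).deriv]
        have hx' : 0 < x := hx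
        have := Real.exp_pos x
        nlinarith [mul_pos hx' this]
    exact hm hx (hx.trans hxy) hxy
  have hcont : ContinuousOn (fun u => Real.exp u + 1 - u * Real.exp u) (Set.Icc 0 2) := by
    fun_prop
  have h2 : Real.exp 2 + 1 - 2 * Real.exp 2 ≤ 0 := by
    have e2 : 1 ≤ Real.exp 2 := by rw [Real.one_le_exp_iff]; norm_num
    linarith
  obtain ⟨c, hc, hc0⟩ := intermediate_value_Icc' (by norm_num : (0 : ℝ) ≤ 2) hcont
    (show (0 : ℝ) ∈ Set.Icc (Real.exp 2 + 1 - 2 * Real.exp 2) (Real.exp 0 + 1 - 0 * Real.exp 0) from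
      ⟨h2, by simp⟩)
  refine ⟨c, ?_⟩
  refine unimodal_of_deriv (f' := fun x => (1 * (Real.exp x + 1) - x * Real.exp x) /
    (Real.exp x + 1) ^ 2) (fun x _ => Vf_deriv x) hc.1 ?_ ?_
  · intro x hx hxc
    have h1 := hφ x c hx.le hxc.le
    have h3 := Real.exp_pos x
    have h4 : 0 ≤ 1 * (Real.exp x + 1) - x * Real.exp x := by
      simp only at hc0
      linarith
    positivity
  · intro x hx
    have h0 : 0 ≤ x := hc.1.trans hx.le
    have h1 := hφ c x hc.1 hx.le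
    have h3 := Real.exp_pos x
    have h4 : 1 * (Real.exp x + 1) - x * Real.exp x ≤ 0 := by
      simp only at hc0
      linarith
    exact div_nonpos_of_nonpos_of_nonneg h4 (by positivity)

theorem Vf_le (x : ℝ) (hx : 0 ≤ x) : Vf x ≤ 28 / 100 := by
  have h1 : (25 / 7 : ℝ) ≤ Real.exp (128 / 100) := by
    have := Real.sum_le_exp_of_nonneg (x := 128 / 100) (by norm_num) 7
    refine le_trans ?_ this
    simp only [sum_range_succ, range_zero, sum_empty, Nat.factorial]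
    norm_num
  have h2 := Real.exp_pos x
  unfold Vf
  rw [div_le_iff₀ (by positivity)]
  have h3 : Real.exp x = Real.exp (128 / 100) * Real.exp (x - 128 / 100) := by
    rw [← Real.exp_add]; congr 1; ring
  have h4 := Real.add_one_le_exp (x - 128 / 100)
  rcases le_or_gt (28 / 100) x with h | h
  · have h5 : 25 / 7 * (x - 128 / 100 + 1) ≤ Real.exp (128 / 100) * Real.exp (x - 128 / 100) :=
      mul_le_mul h1 h4 (by linarith) (Real.exp_pos _).le
    rw [h3]
    linarith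
  · have : 1 ≤ Real.exp x := Real.one_le_exp hx
    linarith

theorem Vf_half {x : ℝ} (hx : 0 ≤ x) : Vf x ≤ x / 2 := by
  have : 1 ≤ Real.exp x := Real.one_le_exp hx
  unfold Vf
  exact div_le_div_of_nonneg_left hx (by norm_num) (by linarith)

theorem alt_den (k : ℕ) {t : ℝ} (ht : 0 < t) :
    |∑ v ∈ range k, (-1 : ℝ) ^ v * Vf ((v + 1 : ℕ) * t)| ≤ 28 / 100 := by
  obtain ⟨c, hc1, hc2⟩ := Vf_unimodal
  exact alt_unimodal hc1 hc2 (fun j => ((j + 1 : ℕ) : ℝ) * t)
    (fun i j hij => by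
      have : ((i : ℕ) : ℝ) ≤ j := by exact_mod_cast hij
      simp only
      push_cast
      nlinarith) (fun j => by positivity) k _ (by norm_num) (fun j _ => Vf_nonneg (by positivity))
    (fun j _ => Vf_le _ (by positivity))

theorem alt_num (n k a : ℕ) {t : ℝ} (ht : 0 < t) :
    |(-1 : ℝ) ^ n * ∑ v ∈ range k, (-1 : ℝ) ^ v * Vf ((a * (n + v + 1) : ℕ) * t)| ≤ 28 / 100 := by
  obtain ⟨c, hc1, hc2⟩ := Vf_unimodal
  rw [abs_mul, abs_pow, abs_neg, abs_one, one_pow, one_mul]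
  exact alt_unimodal hc1 hc2 (fun j => ((a * (n + j + 1) : ℕ) : ℝ) * t)
    (fun i j hij => by
      have h1 : ((a * (n + i + 1) : ℕ) : ℝ) ≤ ((a * (n + j + 1) : ℕ) : ℝ) := by
        exact_mod_cast Nat.mul_le_mul_left a (by omega)
      exact mul_le_mul_of_nonneg_right h1 ht.le)
    (fun j => by positivity) k _ (by norm_num) (fun j _ => Vf_nonneg (by positivity))
    (fun j _ => Vf_le _ (by positivity))

/-- Two-sided form of the sum. -/
theorem t_mu_bounds {n k a : ℕ} (h : Even (n * k)) (ha : Odd a) {f : ℚ[X]}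
    (hf : f * poch (-X : ℚ[X]) k = num n k a) {t : ℝ} (ht : 0 < t) :
    |t * mu n k a f t - (((k + 1) / 2 : ℕ) * Vf t + ∑ i ∈ range (k / 2), Wf (4 * ((i + 1 : ℕ) * t)) -
      ∑ i ∈ range (k / 2),
        Wf (2 * (a * (n + 2 * i + 1 + (if Even n then 1 else 0) : ℕ) * t)))| ≤ 56 / 100 := by
  have h1 := alt_den k ht
  have h2 := alt_num n k a ht
  rw [t_mu ha.pos hf ht, eV_den k ht, eV_num h ha ht]
  rw [abs_le] at *
  constructor <;> linarith

end Pool.Agent.SignedQ.An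
end

section

/-!
# Full-degree kernel checks in loops over `a`, for a range of `a (n + k)`
-/

set_option autoImplicit false

namespace Pool.Agent.SignedQ.KD

open PowerSeries

noncomputable section

/-- `a = 2 i + 3`, `i0 ≤ i < i0 + cnt`, all `n` with `E0 ≤ a (n + k) < E1` -/
def fda (k B Mx E0 E1 i0 cnt : ℕ) : Bool :=
  Nat.rec true (fun i ih => Bool.rec false ih
    (fdr k B Mx (Nat.add (Nat.mul 2 (Nat.add i0 i)) 3)
      (lo k E0 (Nat.add (Nat.mul 2 (Nat.add i0 i)) 3))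
      (Nat.sub (lo k E1 (Nat.add (Nat.mul 2 (Nat.add i0 i)) 3))
        (lo k E0 (Nat.add (Nat.mul 2 (Nat.add i0 i)) 3))))) cnt

theorem fda_mem {k B Mx E0 E1 i0 : ℕ} : ∀ {cnt : ℕ}, fda k B Mx E0 E1 i0 cnt = true → ∀ i, i0 ≤ i →
    i < i0 + cnt → fdr k B Mx (2 * i + 3) (lo k E0 (2 * i + 3))
      (lo k E1 (2 * i + 3) - lo k E0 (2 * i + 3)) = true := by
  intro cnt
  induction cnt with
  | zero => intro _ i h1 h2; omega
  | succ j ih =>
    intro h i h1 h2
    have h' : (Bool.rec false (fda k B Mx E0 E1 i0 j)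
      (fdr k B Mx (2 * (i0 + j) + 3) (lo k E0 (2 * (i0 + j) + 3))
        (lo k E1 (2 * (i0 + j) + 3) - lo k E0 (2 * (i0 + j) + 3))) : Bool) = true := h
    cases hb : fdr k B Mx (2 * (i0 + j) + 3) (lo k E0 (2 * (i0 + j) + 3))
        (lo k E1 (2 * (i0 + j) + 3) - lo k E0 (2 * (i0 + j) + 3)) with
    | false => rw [hb] at h'; exact absurd h' (by simp)
    | true =>
      rw [hb] at h'
      rcases Nat.lt_or_ge i (i0 + j) with h3 | h3
      · exact ih h' i h1 h3
      · obtain rfl : i = i0 + j := by omega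
        exact hb

/-- Positivity for all `(n, a)` with `a = 2 i + 3`, `i0 ≤ i < i1`, `n k` even,
`E0 ≤ a (n + k) < E1`. -/
def FP (k E0 E1 i0 i1 : ℕ) : Prop := ∀ n i : ℕ, i0 ≤ i → i < i1 → Even (n * k) →
  E0 ≤ (2 * i + 3) * (n + k) → (2 * i + 3) * (n + k) < E1 → Pos n k (2 * i + 3)

theorem lo_le {k E a n : ℕ} (ha : 1 ≤ a) (h : E ≤ a * (n + k)) : lo k E a ≤ n := by
  show (E + (a - 1)) / a - k ≤ n
  have h7 : (E + (a - 1)) / a ≤ n + k := by
    rw [Nat.div_le_iff_le_mul_add_pred (by omega)]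
    omega
  omega

theorem lt_lo {k E a n : ℕ} (ha : 1 ≤ a) (h : a * (n + k) < E) : n < lo k E a := by
  show n < (E + (a - 1)) / a - k
  have h7 : n + k + 1 ≤ (E + (a - 1)) / a := by
    rw [Nat.le_div_iff_mul_le (by omega)]
    have : (n + k + 1) * a = a * (n + k) + a := by ring
    omega
  omega

theorem pos_of_fdr {k B Mx a n0 cnt : ℕ} (h : fdr k B Mx a n0 cnt = true) (ha : Odd a)
    (hB : k + (k + 1) / 2 + 2 ≤ B) (hM : Mx ≤ 2 ^ 20) {n : ℕ} (h1 : n0 ≤ n) (h2 : n < n0 + cnt)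
    (he : Even (n * k)) : Pos n k a := by
  intro f hf
  obtain ⟨h9, h10⟩ := fdr_mem h n h1 h2 he
  have hp := ha.pos
  refine half he ha hf fun N hN => ?_
  rw [KC.coeff_poly hf N]
  exact_mod_cast fd1_correct hB hM h10 h9 N (half1_bound (by omega) hf hN)

theorem FP_of {k B Mx E0 E1 i0 cnt : ℕ} (h : fda k B Mx E0 E1 i0 cnt = true)
    (hB : k + (k + 1) / 2 + 2 ≤ B) (hM : Mx ≤ 2 ^ 20) {i1 : ℕ} (hi : i1 = i0 + cnt) :
    FP k E0 E1 i0 i1 := by
  subst hi
  intro n i h1 h2 he hE hT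
  have h3 := fda_mem h i h1 h2
  have h4 : lo k E0 (2 * i + 3) ≤ n := lo_le (by omega) hE
  have h5 : n < lo k E1 (2 * i + 3) := lt_lo (by omega) hT
  exact pos_of_fdr h3 ⟨i + 1, by ring⟩ hB hM h4 (by omega) he

theorem FP.trans {k E0 E1 i0 i1 i2 : ℕ} (h : FP k E0 E1 i0 i1) (h' : FP k E0 E1 i1 i2) :
    FP k E0 E1 i0 i2 := by
  intro n i h1 h2 he hE hT
  rcases Nat.lt_or_ge i i1 with h3 | h3
  · exact h n i h1 h3 he hE hT
  · exact h' n i h3 h2 he hE hT

/-- one `a`, a range of `n` -/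
def FPn (k a n0 n1 : ℕ) : Prop := ∀ n : ℕ, n0 ≤ n → n < n1 → Even (n * k) → Pos n k a

theorem FPn_of {k B Mx a n0 cnt : ℕ} (h : fdr k B Mx a n0 cnt = true) (ha : a % 2 = 1)
    (hB : k + (k + 1) / 2 + 2 ≤ B) (hM : Mx ≤ 2 ^ 20) {n1 : ℕ} (hi : n1 = n0 + cnt) :
    FPn k a n0 n1 := by
  subst hi
  intro n h1 h2 he
  exact pos_of_fdr h (Nat.odd_iff.2 ha) hB hM h1 h2 he

theorem FPn.trans {k a n0 n1 n2 : ℕ} (h : FPn k a n0 n1) (h' : FPn k a n1 n2) :
    FPn k a n0 n2 := by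
  intro n h1 h2 he
  rcases Nat.lt_or_ge n n1 with h3 | h3
  · exact h n h1 h3 he
  · exact h' n h3 h2 he

theorem FPn.toFP {k E0 E1 i n0 n1 : ℕ} (h : FPn k (2 * i + 3) n0 n1)
    (h0 : (2 * i + 3) * (n0 + k) < E0 + (2 * i + 3) ∨ n0 = 0)
    (h1 : E1 ≤ (2 * i + 3) * (n1 + k)) {i1 : ℕ} (hi1 : i1 = i + 1) : FP k E0 E1 i i1 := by
  subst hi1
  intro n j h2 h3 he hE hT
  obtain rfl : j = i := by omega
  refine h n ?_ ?_ he
  · rcases h0 with h0 | h0
    · by_contra hcon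
      have h4 : (2 * j + 3) * (n + k + 1) ≤ (2 * j + 3) * (n0 + k) := Nat.mul_le_mul_left _ (by omega)
      have h5 : (2 * j + 3) * (n + k + 1) = (2 * j + 3) * (n + k) + (2 * j + 3) := by ring
      omega
    · omega
  · by_contra hcon
    have h4 : (2 * j + 3) * (n1 + k) ≤ (2 * j + 3) * (n + k) := Nat.mul_le_mul_left _ (by omega)
    omega

/-- all odd `a ≥ 3`, `E0 ≤ a (n + k) < E1` -/
def FPE (k E0 E1 : ℕ) : Prop := ∀ n a : ℕ, Even (n * k) → Odd a → 3 ≤ a →
  E0 ≤ a * (n + k) → a * (n + k) < E1 → Pos n k a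

theorem FP.toE {k E0 E1 A : ℕ} (h : FP k E0 E1 0 A) (hA : E1 ≤ (2 * A + 3) * k) : FPE k E0 E1 := by
  intro n a he ha ha3 h0 h1
  obtain ⟨b, rfl⟩ := ha
  obtain ⟨i, rfl⟩ : ∃ i, b = i + 1 := ⟨b - 1, by omega⟩
  have e : 2 * (i + 1) + 1 = 2 * i + 3 := by ring
  rw [e] at h0 h1 ⊢
  refine h n i (Nat.zero_le _) ?_ he h0 h1
  by_contra hcon
  have h2 : (2 * A + 3) * k ≤ (2 * i + 3) * (n + k) := Nat.mul_le_mul (by omega) (by omega)
  omega

theorem FPE.trans {k E0 E1 E2 : ℕ} (h : FPE k E0 E1) (h' : FPE k E1 E2) : FPE k E0 E2 := by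
  intro n a he ha ha3 h0 h1
  rcases Nat.lt_or_ge (a * (n + k)) E1 with h3 | h3
  · exact h n a he ha ha3 h0 h3
  · exact h' n a he ha ha3 h3 h1

theorem FPE.start {k E0 E1 : ℕ} (h : FPE k E0 E1) (h0 : E0 ≤ 3 * k) {n a : ℕ}
    (hnk : Even (n * k)) (ha : Odd a) (ha3 : 3 ≤ a) (hT : a * (n + k) < E1) : Pos n k a := by
  refine h n a hnk ha ha3 ?_ hT
  exact h0.trans (Nat.mul_le_mul ha3 (by omega))

end

end Pool.Agent.SignedQ.KD
end
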