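import Pool.Agent.Lib.MP_cf17a0_co.S1.In9c
import Pool.Agent.Lib.MP_cf17a0_co.S1.InKa
import Pool.Agent.Lib.MP_cf17a0_co.S1.InKb
import Pool.Agent.Lib.MP_cf17a0_co.S1.InKc
import Pool.Agent.Lib.MP_cf17a0_co.S1.InKd
import Pool.Agent.Lib.MP_cf17a0_co.S1.InKe
import Pool.Agent.Lib.MP_cf17a0_co.Mg.G030

section

/-! # INTER (k t ≤ 1): T9d, the pointwise bound (helper68) -/

namespace Pool.Agent.SignedQ.An.In

open Real Finset


theorem hi_of_cm {k : ℕ} {t θ wA hi cm : ℝ} (hk : 0 < (k : ℝ)) (hcm : k * t ≤ cm)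
    (h : cm ≤ hi * wA) (hhi : 0 ≤ hi) (hA : wA ≤ k * θ) : t ≤ hi * θ := by
  have h1 : hi * wA ≤ hi * (k * θ) := mul_le_mul_of_nonneg_left hA hhi
  have h2 : k * t ≤ k * (hi * θ) := by linarith
  exact le_of_mul_le_mul_left h2 hk

theorem six {n k a : ℕ} (par : Par n k a) {t θ : ℝ} (dom : DOM k t) (hkt : k * t ≤ 1)
    (hθ : 0 < θ) (w1 : 1 ≤ k * θ) (w6 : k * θ ≤ 6) (h32 : 3 / 2 * t ≤ θ) {cm al : ℚ}
    {k0 k1 : ℕ} (hcm : k * t ≤ (cm : ℝ)) (h0 : k0 ≤ k) (h1 : k1 = 0 ∨ k < k1)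
    (hal : (al : ℝ) ≤ alt n k a) (hal0 : 0 < al) (Ga Gb Gc Gd Ge Gf : Grp)
    (hG : ∀ G ∈ [Ga, Gb, Gc, Gd, Ge, Gf], G.ok = true ∧ G.k0 = k0 ∧ G.k1 = k1 ∧ G.al = al)
    (ha : Ga.wA = 1 ∧ Ga.wB = 29 / 10 ∧ Ga.lo = 0 ∧ Ga.hi = 1 / 5)
    (hb : Gb.wA = 1 ∧ Gb.wB = 29 / 10 ∧ Gb.lo = 1 / 5 ∧ 0 ≤ Gb.hi ∧ (2 / 5 ≤ Gb.hi ∨ cm ≤ Gb.hi))
    (hc : Gc.wA = 1 ∧ Gc.wB = 7 / 4 ∧ Gc.lo = 2 / 5 ∧ 0 ≤ Gc.hi ∧ (2 / 3 ≤ Gc.hi ∨ cm ≤ Gc.hi))
    (hd : Gd.wA = 7 / 4 ∧ Gd.wB = 29 / 10 ∧ Gd.lo = 2 / 5 ∧ 0 ≤ Gd.hi ∧ cm ≤ Gd.hi * (7 / 4))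
    (he : Ge.wA = 29 / 10 ∧ Ge.wB = 4 ∧ Ge.g ≠ 0 ∧ 0 ≤ Ge.hi ∧ cm ≤ Ge.hi * (29 / 10))
    (hf : Gf.wA = 4 ∧ Gf.wB = 6 ∧ Gf.g ≠ 0 ∧ 0 ≤ Gf.hi ∧ cm ≤ Gf.hi * 4) :
    (sigma n k a t / k) ^ 2 * rho n k a t θ ^ 2 ≤
      (if k * θ ≤ 5 / 4 then 1 / 400 else 9 / 160000) := by
  have hk26 : (26 : ℝ) ≤ k := by exact_mod_cast dom.1
  have hk : (0 : ℝ) < k := by linarith
  have ht : 0 < t := dom.2.1
  have key : ∀ G ∈ [Ga, Gb, Gc, Gd, Ge, Gf], (G.wA : ℝ) ≤ k * θ → k * θ ≤ (G.wB : ℝ) →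
      (G.g = 0 → (G.lo : ℝ) * θ < t) → t ≤ G.hi * θ →
      (sigma n k a t / k) ^ 2 * rho n k a t θ ^ 2 ≤
        (if k * θ ≤ 5 / 4 then 1 / 400 else 9 / 160000) := by
    intro G hGm h2 h3 h4 h5
    obtain ⟨g1, g2, g3, g4⟩ := hG G hGm
    refine grp_sound G g1 par dom hkt (by rw [g2]; exact h0) (by rw [g3]; exact h1)
      (by rw [g4]; exact hal) (by rw [g4]; exact hal0) hθ h2 h3 h4 h5
  rcases le_or_gt (k * θ) (29 / 10) with h2 | h2
  · rcases le_or_gt t (1 / 5 * θ) with h3 | h3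
    · obtain ⟨a1, a2, a3, a4⟩ := ha
      refine key Ga (by simp) (by rw [a1]; push_cast; exact w1) (by rw [a2]; push_cast; exact h2)
        (fun _ => by rw [a3]; push_cast; linarith) (by rw [a4]; push_cast; linarith)
    · rcases le_or_gt t (2 / 5 * θ) with h4 | h4
      · obtain ⟨a1, a2, a3, a4, a5⟩ := hb
        have a4' : (0 : ℝ) ≤ Gb.hi := by exact_mod_cast a4
        refine key Gb (by simp) (by rw [a1]; push_cast; exact w1) (by rw [a2]; push_cast; exact h2)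
          (fun _ => by rw [a3]; push_cast; linarith) ?_
        rcases a5 with a5 | a5
        · have : ((2 / 5 : ℚ) : ℝ) ≤ Gb.hi := by exact_mod_cast a5
          push_cast at this
          nlinarith
        · have : (cm : ℝ) ≤ Gb.hi := by exact_mod_cast a5
          exact hi_of_cm hk hcm (wA := 1) (by linarith) a4' w1
      · rcases le_or_gt (k * θ) (7 / 4) with h5 | h5
        · obtain ⟨a1, a2, a3, a4, a5⟩ := hc
          have a4' : (0 : ℝ) ≤ Gc.hi := by exact_mod_cast a4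
          refine key Gc (by simp) (by rw [a1]; push_cast; exact w1) (by rw [a2]; push_cast; exact h5)
            (fun _ => by rw [a3]; push_cast; linarith) ?_
          rcases a5 with a5 | a5
          · have : ((2 / 3 : ℚ) : ℝ) ≤ Gc.hi := by exact_mod_cast a5
            push_cast at this
            nlinarith
          · have : (cm : ℝ) ≤ Gc.hi := by exact_mod_cast a5
            exact hi_of_cm hk hcm (wA := 1) (by linarith) a4' w1
        · obtain ⟨a1, a2, a3, a4, a5⟩ := hd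
          have a4' : (0 : ℝ) ≤ Gd.hi := by exact_mod_cast a4
          refine key Gd (by simp) (by rw [a1]; push_cast; exact h5.le)
            (by rw [a2]; push_cast; exact h2) (fun _ => by rw [a3]; push_cast; linarith) ?_
          have : (cm : ℝ) ≤ ((Gd.hi * (7 / 4) : ℚ) : ℝ) := by exact_mod_cast a5
          push_cast at this
          exact hi_of_cm hk hcm this a4' h5.le
  · rcases le_or_gt (k * θ) 4 with h3 | h3
    · obtain ⟨a1, a2, a3, a4, a5⟩ := he
      have a4' : (0 : ℝ) ≤ Ge.hi := by exact_mod_cast a4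
      refine key Ge (by simp) (by rw [a1]; push_cast; exact h2.le) (by rw [a2]; push_cast; exact h3)
        (fun h => absurd h a3) ?_
      have : (cm : ℝ) ≤ ((Ge.hi * (29 / 10) : ℚ) : ℝ) := by exact_mod_cast a5
      push_cast at this
      exact hi_of_cm hk hcm this a4' h2.le
    · obtain ⟨a1, a2, a3, a4, a5⟩ := hf
      have a4' : (0 : ℝ) ≤ Gf.hi := by exact_mod_cast a4
      refine key Gf (by simp) (by rw [a1]; push_cast; exact h3.le) (by rw [a2]; push_cast; exact w6)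
        (fun h => absurd h a3) ?_
      have : (cm : ℝ) ≤ ((Gf.hi * 4 : ℚ) : ℝ) := by exact_mod_cast a5
      push_cast at this
      exact hi_of_cm hk hcm this a4' h3.le

end Pool.Agent.SignedQ.An.In
end

section

/-! # INTER (k t ≤ 1): T9e, the five classes and the integral (helper68) -/

namespace Pool.Agent.SignedQ.An.In

open Real Finset

theorem pointwise {n k a : ℕ} (par : Par n k a) {t θ : ℝ} (dom : DOM k t) (hkt : k * t ≤ 1)
    (hθ : 0 < θ) (w1 : 1 ≤ k * θ) (w6 : k * θ ≤ 6) (h32 : 3 / 2 * t ≤ θ) :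
    (sigma n k a t / k) ^ 2 * rho n k a t θ ^ 2 ≤
      (if k * θ ≤ 5 / 4 then 1 / 400 else 9 / 160000) := by
  have hk26 := dom.1
  have hk26' : (26 : ℝ) ≤ k := by exact_mod_cast hk26
  have h4000 : 4000 * t ≤ k := dom.2.2.2.1
  obtain ⟨al0, al1, al2, al3, al4⟩ := alt_ge par hk26
  have ha3 : (3 : ℝ) ≤ a := by exact_mod_cast par.2.2.1
  have hc1 : ∀ K : ℝ, (k : ℝ) ≤ K → k * t ≤ K ^ 2 / 4000 := by
    intro K hK
    have h1 : (k : ℝ) ^ 2 ≤ K ^ 2 := pow_le_pow_left₀ (by linarith) hK 2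
    nlinarith
  rcases lt_or_ge k 30 with h1 | h1
  · refine six par dom hkt hθ w1 w6 h32 (cm := 2103 / 10000) (al := 747 / 25) (k0 := 26) (k1 := 30)
      ?_ hk26 (Or.inr h1) ?_ (by norm_num) g_a0 g_b0 g_c0 g_d0 g_e0 g_f0 ?_ ?_ ?_ ?_ ?_ ?_ ?_
    · have h2 : (k : ℝ) ≤ 29 := by
        have : k ≤ 29 := by omega
        exact_mod_cast this
      refine (hc1 29 h2).trans ?_
      norm_num
    · refine le_trans (le_of_eq ?_) (al1 h1)
      norm_num
    · intro G hG
      simp only [List.mem_cons, List.not_mem_nil, or_false] at hG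
      rcases hG with rfl | rfl | rfl | rfl | rfl | rfl
      · exact ⟨ok_a0, rfl, rfl, rfl⟩
      · exact ⟨ok_b0, rfl, rfl, rfl⟩
      · exact ⟨ok_c0, rfl, rfl, rfl⟩
      · exact ⟨ok_d0, rfl, rfl, rfl⟩
      · exact ⟨ok_e0, rfl, rfl, rfl⟩
      · exact ⟨ok_f0, rfl, rfl, rfl⟩
    · exact ⟨rfl, rfl, rfl, rfl⟩
    · exact ⟨rfl, rfl, rfl, by decide +kernel, by decide +kernel⟩
    · exact ⟨rfl, rfl, rfl, by decide +kernel, by decide +kernel⟩
    · exact ⟨rfl, rfl, rfl, by decide +kernel, by decide +kernel⟩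
    · exact ⟨rfl, rfl, by decide +kernel, by decide +kernel, by decide +kernel⟩
    · exact ⟨rfl, rfl, by decide +kernel, by decide +kernel, by decide +kernel⟩
  rcases lt_or_ge k 60 with h2 | h2
  · refine six par dom hkt hθ w1 w6 h32 (cm := 8703 / 10000) (al := 193 / 10) (k0 := 30) (k1 := 60)
      ?_ h1 (Or.inr h2) ?_ (by norm_num) g_a1 g_b1 g_c1 g_d1 g_e1 g_f1 ?_ ?_ ?_ ?_ ?_ ?_ ?_
    · have h3 : (k : ℝ) ≤ 59 := by
        have : k ≤ 59 := by omega
        exact_mod_cast this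
      refine (hc1 59 h3).trans ?_
      norm_num
    · refine le_trans (le_of_eq ?_) (al2 h1 h2)
      norm_num
    · intro G hG
      simp only [List.mem_cons, List.not_mem_nil, or_false] at hG
      rcases hG with rfl | rfl | rfl | rfl | rfl | rfl
      · exact ⟨ok_a1, rfl, rfl, rfl⟩
      · exact ⟨ok_b1, rfl, rfl, rfl⟩
      · exact ⟨ok_c1, rfl, rfl, rfl⟩
      · exact ⟨ok_d1, rfl, rfl, rfl⟩
      · exact ⟨ok_e1, rfl, rfl, rfl⟩
      · exact ⟨ok_f1, rfl, rfl, rfl⟩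
    · exact ⟨rfl, rfl, rfl, rfl⟩
    · exact ⟨rfl, rfl, rfl, by decide +kernel, by decide +kernel⟩
    · exact ⟨rfl, rfl, rfl, by decide +kernel, by decide +kernel⟩
    · exact ⟨rfl, rfl, rfl, by decide +kernel, by decide +kernel⟩
    · exact ⟨rfl, rfl, by decide +kernel, by decide +kernel, by decide +kernel⟩
    · exact ⟨rfl, rfl, by decide +kernel, by decide +kernel, by decide +kernel⟩
  rcases lt_or_ge k 100 with h3 | h3
  · refine six par dom hkt hθ w1 w6 h32 (cm := 1) (al := 197 / 25) (k0 := 60) (k1 := 100)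
      (by push_cast; exact hkt) h2 (Or.inr h3) ?_ (by norm_num) g_a2 g_b2 g_c2 g_d2 g_e2 g_f2
      ?_ ?_ ?_ ?_ ?_ ?_ ?_
    · refine le_trans (le_of_eq ?_) (al3 h2 h3)
      norm_num
    · intro G hG
      simp only [List.mem_cons, List.not_mem_nil, or_false] at hG
      rcases hG with rfl | rfl | rfl | rfl | rfl | rfl
      · exact ⟨ok_a2, rfl, rfl, rfl⟩
      · exact ⟨ok_b2, rfl, rfl, rfl⟩
      · exact ⟨ok_c2, rfl, rfl, rfl⟩
      · exact ⟨ok_d2, rfl, rfl, rfl⟩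
      · exact ⟨ok_e2, rfl, rfl, rfl⟩
      · exact ⟨ok_f2, rfl, rfl, rfl⟩
    · exact ⟨rfl, rfl, rfl, rfl⟩
    · exact ⟨rfl, rfl, rfl, by decide +kernel, by decide +kernel⟩
    · exact ⟨rfl, rfl, rfl, by decide +kernel, by decide +kernel⟩
    · exact ⟨rfl, rfl, rfl, by decide +kernel, by decide +kernel⟩
    · exact ⟨rfl, rfl, by decide +kernel, by decide +kernel, by decide +kernel⟩
    · exact ⟨rfl, rfl, by decide +kernel, by decide +kernel, by decide +kernel⟩
  rcases lt_or_ge k 200 with h4 | h4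
  · refine six par dom hkt hθ w1 w6 h32 (cm := 1) (al := 497 / 100) (k0 := 100) (k1 := 200)
      (by push_cast; exact hkt) h3 (Or.inr h4) ?_ (by norm_num) g_a3 g_b3 g_c3 g_d3 g_e3 g_f3
      ?_ ?_ ?_ ?_ ?_ ?_ ?_
    · refine le_trans (le_of_eq ?_) (al4 h3 h4)
      norm_num
    · intro G hG
      simp only [List.mem_cons, List.not_mem_nil, or_false] at hG
      rcases hG with rfl | rfl | rfl | rfl | rfl | rfl
      · exact ⟨ok_a3, rfl, rfl, rfl⟩
      · exact ⟨ok_b3, rfl, rfl, rfl⟩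
      · exact ⟨ok_c3, rfl, rfl, rfl⟩
      · exact ⟨ok_d3, rfl, rfl, rfl⟩
      · exact ⟨ok_e3, rfl, rfl, rfl⟩
      · exact ⟨ok_f3, rfl, rfl, rfl⟩
    · exact ⟨rfl, rfl, rfl, rfl⟩
    · exact ⟨rfl, rfl, rfl, by decide +kernel, by decide +kernel⟩
    · exact ⟨rfl, rfl, rfl, by decide +kernel, by decide +kernel⟩
    · exact ⟨rfl, rfl, rfl, by decide +kernel, by decide +kernel⟩
    · exact ⟨rfl, rfl, by decide +kernel, by decide +kernel, by decide +kernel⟩
    · exact ⟨rfl, rfl, by decide +kernel, by decide +kernel, by decide +kernel⟩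
  · refine six par dom hkt hθ w1 w6 h32 (cm := 1) (al := 3) (k0 := 200) (k1 := 0)
      (by push_cast; exact hkt) h4 (Or.inl rfl) (by push_cast; exact ha3.trans al0) (by norm_num)
      g_a4 g_b4 g_c4 g_d4 g_e4 g_f4 ?_ ?_ ?_ ?_ ?_ ?_ ?_
    · intro G hG
      simp only [List.mem_cons, List.not_mem_nil, or_false] at hG
      rcases hG with rfl | rfl | rfl | rfl | rfl | rfl
      · exact ⟨ok_a4, rfl, rfl, rfl⟩
      · exact ⟨ok_b4, rfl, rfl, rfl⟩
      · exact ⟨ok_c4, rfl, rfl, rfl⟩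
      · exact ⟨ok_d4, rfl, rfl, rfl⟩
      · exact ⟨ok_e4, rfl, rfl, rfl⟩
      · exact ⟨ok_f4, rfl, rfl, rfl⟩
    · exact ⟨rfl, rfl, rfl, rfl⟩
    · exact ⟨rfl, rfl, rfl, by decide +kernel, by decide +kernel⟩
    · exact ⟨rfl, rfl, rfl, by decide +kernel, by decide +kernel⟩
    · exact ⟨rfl, rfl, rfl, by decide +kernel, by decide +kernel⟩
    · exact ⟨rfl, rfl, by decide +kernel, by decide +kernel, by decide +kernel⟩
    · exact ⟨rfl, rfl, by decide +kernel, by decide +kernel, by decide +kernel⟩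

/-- `σ ρ ≤ k ε` from the squares. -/
theorem point_of_sq {k : ℝ} (hk : 0 < k) {s r e : ℝ} (hs : 0 ≤ s) (hr : 0 ≤ r) (he : 0 ≤ e)
    (h : (s / k) ^ 2 * r ^ 2 ≤ e ^ 2) : s * r ≤ k * e := by
  have h1 : (s / k * r) ^ 2 ≤ e ^ 2 := by rw [mul_pow]; exact h
  have h2 : s / k * r ≤ e := (pow_le_pow_iff_left₀ (by positivity) he two_ne_zero).1 h1
  have h3 : s * r = k * (s / k * r) := by field_simp
  rw [h3]
  exact mul_le_mul_of_nonneg_left h2 hk.le

/-- **INTER, `k t ≤ 1`.** -/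
theorem INTER_Qlo : INTER Qlo := by
  intro n k a t par dom hQ
  have hkt : k * t ≤ 1 := hQ
  have hk26 : (26 : ℝ) ≤ k := by exact_mod_cast dom.1
  have hk : (0 : ℝ) < k := by linarith
  have ht : 0 < t := dom.2.1
  have htk : t ≤ 1 / k := by rw [le_div_iff₀ hk]; linarith
  have hs : 0 ≤ sigma n k a t := Real.sqrt_nonneg _
  have hcont : Continuous fun θ => sigma n k a t * rho n k a t θ :=
    continuous_const.mul (PIarc.rho_continuous ht)
  have e2 : th2 k t = 6 / k := by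
    unfold th2
    refine max_eq_left ?_
    have : 6 * (1 / (k : ℝ)) = 6 / k := by ring
    linarith
  have h1k : 1 / (k : ℝ) ≤ th1 k t := le_max_left _ _
  have h32 : 3 / 2 * t ≤ th1 k t := le_max_right _ _
  have h12 : th1 k t ≤ 6 / k := by
    unfold th1
    refine max_le (by gcongr; norm_num) ?_
    have : 6 * (1 / (k : ℝ)) = 6 / k := by ring
    linarith
  rw [e2, ← intervalIntegral.integral_const_mul]
  -- the pointwise bounds
  have hpt : ∀ θ : ℝ, th1 k t < θ → θ ≤ 6 / k → (sigma n k a t * rho n k a t θ ≤ k * (1 / 20)) ∧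
      (5 / (4 * k) < θ → sigma n k a t * rho n k a t θ ≤ k * (3 / 400)) := by
    intro θ h1 h2
    have hθ : 0 < θ := by
      have : (0 : ℝ) < 1 / k := by positivity
      linarith
    have w1 : 1 ≤ k * θ := by
      have := mul_le_mul_of_nonneg_left (h1k.trans h1.le) hk.le
      rw [mul_one_div_cancel hk.ne'] at this
      exact this
    have w6 : k * θ ≤ 6 := by
      have := mul_le_mul_of_nonneg_left h2 hk.le
      rw [mul_div_cancel₀ _ hk.ne'] at this
      exact this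
    have hp := pointwise par dom hkt hθ w1 w6 (h32.trans h1.le)
    have hr : 0 ≤ rho n k a t θ := Real.sqrt_nonneg _
    constructor
    · refine point_of_sq hk hs hr (by norm_num) (hp.trans ?_)
      split_ifs <;> norm_num
    · intro h3
      refine point_of_sq hk hs hr (by norm_num) (hp.trans ?_)
      have h4 : ¬ (k * θ ≤ 5 / 4) := by
        rw [not_le]
        have h5 := mul_lt_mul_of_pos_left h3 hk
        have h6 : (k : ℝ) * (5 / (4 * k)) = 5 / 4 := by field_simp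
        linarith
      rw [if_neg h4]
      norm_num
  have hnn : ∀ θ : ℝ, 0 ≤ sigma n k a t * rho n k a t θ := fun θ =>
    mul_nonneg hs (Real.sqrt_nonneg _)
  set m : ℝ := max (th1 k t) (5 / (4 * k)) with hm
  have hm1 : th1 k t ≤ m := le_max_left _ _
  have hm2 : m ≤ 6 / k := by
    refine max_le h12 ?_
    rw [div_le_div_iff₀ (by positivity) hk]
    nlinarith
  have i1 : ∫ θ in (th1 k t)..m, sigma n k a t * rho n k a t θ ≤ 1 / 80 := by
    rcases le_or_gt (5 / (4 * (k : ℝ))) (th1 k t) with h | h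
    · have : m = th1 k t := max_eq_left h
      rw [this, intervalIntegral.integral_same]
      norm_num
    · have hme : m = 5 / (4 * k) := max_eq_right h.le
      have h3 := intervalIntegral.norm_integral_le_of_norm_le_const (a := th1 k t) (b := m)
        (f := fun θ => sigma n k a t * rho n k a t θ) (C := k * (1 / 20)) (by
          intro x hx
          rw [Set.uIoc_of_le hm1] at hx
          rw [Real.norm_of_nonneg (hnn x)]
          exact (hpt x hx.1 (hx.2.trans hm2)).1)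
      rw [abs_of_nonneg (sub_nonneg.2 hm1)] at h3
      refine (le_abs_self _).trans (h3.trans ?_)
      have h4 : m - th1 k t ≤ 5 / (4 * k) - 1 / k := by rw [hme]; linarith
      have h5 : (k : ℝ) * (1 / 20) * (5 / (4 * k) - 1 / k) = 1 / 80 := by field_simp; norm_num
      calc (k : ℝ) * (1 / 20) * (m - th1 k t) ≤ k * (1 / 20) * (5 / (4 * k) - 1 / k) :=
            mul_le_mul_of_nonneg_left h4 (by positivity)
        _ = 1 / 80 := h5
  have i2 : ∫ θ in m..(6 / k), sigma n k a t * rho n k a t θ ≤ 57 / 1600 := by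
    have h3 := intervalIntegral.norm_integral_le_of_norm_le_const (a := m) (b := 6 / k)
      (f := fun θ => sigma n k a t * rho n k a t θ) (C := k * (3 / 400)) (by
        intro x hx
        rw [Set.uIoc_of_le hm2] at hx
        rw [Real.norm_of_nonneg (hnn x)]
        exact (hpt x (lt_of_le_of_lt hm1 hx.1) hx.2).2 (lt_of_le_of_lt (le_max_right _ _) hx.1))
    rw [abs_of_nonneg (sub_nonneg.2 hm2)] at h3
    refine (le_abs_self _).trans (h3.trans ?_)
    have h4 : 6 / k - m ≤ 6 / k - 5 / (4 * (k : ℝ)) := by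
      have := le_max_right (th1 k t) (5 / (4 * (k : ℝ)))
      linarith
    have h5 : (k : ℝ) * (3 / 400) * (6 / k - 5 / (4 * k)) = 57 / 1600 := by field_simp; norm_num
    calc (k : ℝ) * (3 / 400) * (6 / k - m) ≤ k * (3 / 400) * (6 / k - 5 / (4 * k)) :=
          mul_le_mul_of_nonneg_left h4 (by positivity)
      _ = 57 / 1600 := h5
  have hadd := intervalIntegral.integral_add_adjacent_intervals
    (hcont.intervalIntegrable (μ := MeasureTheory.volume) (th1 k t) m)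
    (hcont.intervalIntegrable (μ := MeasureTheory.volume) m (6 / k))
  rw [← hadd]
  refine (add_le_add i1 i2).trans ?_
  norm_num

end Pool.Agent.SignedQ.An.In
end
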