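import Pool.Agent.Lib.MP_cf17a0_co.Mg.G059

section

/-! # Bounds for the saddle index `μ(t)` -/

namespace Pool.Agent.SignedQ.An

open Polynomial Finset

theorem arith_geom (z : ℝ) (K : ℕ) :
    (∑ i ∈ range K, ((i + 1 : ℕ) : ℝ) * z ^ (i + 1)) * (1 - z) ^ 2 =
      z - (K + 1) * z ^ (K + 1) + K * z ^ (K + 2) := by
  induction K with
  | zero => simp
  | succ K ih =>
    rw [sum_range_succ, add_mul, ih]
    push_cast
    ring

theorem Wf_hasSum {x : ℝ} (hx : 0 < x) :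
    HasSum (fun m : ℕ => x * Real.exp (-x) ^ (m + 1)) (Wf x) := by
  have h1 := hasSum_geometric_of_lt_one (Real.exp_pos (-x)).le
    (Real.exp_lt_one_iff.2 (show -x < 0 by linarith))
  have h2 := h1.mul_left (x * Real.exp (-x))
  convert! h2 using 1
  · funext m; ring
  · have h3 := exp_sub_one_pos hx
    have h4 : 1 - Real.exp (-x) = (Real.exp x - 1) * Real.exp (-x) := by
      rw [sub_mul, ← Real.exp_add]; simp
    have h5 := Real.exp_pos (-x)
    unfold Wf
    rw [h4]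
    field_simp

/-- The `m`-th layer of `∑ W(4 i t)`. -/
noncomputable def lay (K : ℕ) (t : ℝ) (m : ℕ) : ℝ :=
  ∑ i ∈ range K, (4 * ((i + 1 : ℕ) * t)) * Real.exp (-(4 * ((i + 1 : ℕ) * t))) ^ (m + 1)

theorem lay_hasSum (K : ℕ) {t : ℝ} (ht : 0 < t) :
    HasSum (lay K t) (∑ i ∈ range K, Wf (4 * ((i + 1 : ℕ) * t))) := by
  unfold lay
  exact hasSum_sum fun i _ => Wf_hasSum (by positivity)

theorem lay_eq (K : ℕ) {t : ℝ} (ht : 0 < t) (m : ℕ) :
    lay K t m = t / Real.sinh (2 * ((m + 1 : ℕ) * t)) ^ 2 *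
      (1 - (K + 1) * Real.exp (-(4 * ((m + 1 : ℕ) * t))) ^ K +
        K * Real.exp (-(4 * ((m + 1 : ℕ) * t))) ^ (K + 1)) := by
  set y : ℝ := 2 * ((m + 1 : ℕ) * t) with hy
  have hy0 : 0 < y := by positivity
  have hs := Real.sinh_pos_iff.2 hy0
  set z : ℝ := Real.exp (-(4 * ((m + 1 : ℕ) * t))) with hz
  have hz0 : 0 < z := Real.exp_pos _
  have h1 : lay K t m = 4 * t * ∑ i ∈ range K, ((i + 1 : ℕ) : ℝ) * z ^ (i + 1) := by
    unfold lay
    rw [mul_sum]
    refine sum_congr rfl fun i _ => ?_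
    rw [hz, ← Real.exp_nat_mul, ← Real.exp_nat_mul]
    have : ((m + 1 : ℕ) : ℝ) * -(4 * ((i + 1 : ℕ) * t)) = ((i + 1 : ℕ) : ℝ) * -(4 * ((m + 1 : ℕ) * t)) := by
      ring
    rw [this]
    ring
  have h2 : (1 - z) ^ 2 = 4 * z * Real.sinh y ^ 2 := by
    have h3 : z = Real.exp (-y) ^ 2 := by
      rw [← Real.exp_nat_mul, hz, hy]; congr 1; push_cast; ring
    have h4 : Real.exp (-y) * Real.exp y = 1 := by rw [← Real.exp_add]; simp
    rw [Real.sinh_eq, h3]
    have h5 : 4 * Real.exp (-y) ^ 2 * ((Real.exp y - Real.exp (-y)) / 2) ^ 2 =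
        (Real.exp (-y) * Real.exp y - Real.exp (-y) ^ 2) ^ 2 := by ring
    rw [h5, h4]
  have h3 := arith_geom z K
  rw [h2] at h3
  have h4 : (∑ i ∈ range K, ((i + 1 : ℕ) : ℝ) * z ^ (i + 1)) =
      (z - (K + 1) * z ^ (K + 1) + K * z ^ (K + 2)) / (4 * z * Real.sinh y ^ 2) := by
    rw [eq_div_iff (by positivity)]
    exact h3
  rw [h1, h4]
  field_simp
  ring

theorem lay_le (K : ℕ) {t : ℝ} (ht : 0 < t) (m : ℕ) :
    lay K t m ≤ 1 / (4 * t) * (1 / ((m + 1 : ℕ) : ℝ) ^ 2) := by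
  rw [lay_eq K ht m]
  have hy0 : 0 < 2 * (((m + 1 : ℕ) : ℝ) * t) := by positivity
  have hs := Real.sinh_pos_iff.2 hy0
  have hs1 := Real.self_le_sinh_iff.2 hy0.le
  set z : ℝ := Real.exp (-(4 * ((m + 1 : ℕ) * t))) with hz
  have hz0 : 0 < z := Real.exp_pos _
  have hz1 : z ≤ 1 := by
    rw [hz, Real.exp_le_one_iff]
    have : 0 ≤ 4 * (((m + 1 : ℕ) : ℝ) * t) := by positivity
    linarith
  have h1 : 1 - (K + 1) * z ^ K + K * z ^ (K + 1) ≤ 1 := by
    have h2 : z ^ (K + 1) ≤ z ^ K := pow_le_pow_of_le_one hz0.le hz1 (by omega)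
    have h3 : (0 : ℝ) ≤ z ^ K := by positivity
    have h4 := mul_le_mul_of_nonneg_left h2 (Nat.cast_nonneg (α := ℝ) K)
    linarith
  calc t / Real.sinh (2 * ((m + 1 : ℕ) * t)) ^ 2 * (1 - (K + 1) * z ^ K + K * z ^ (K + 1))
      ≤ t / Real.sinh (2 * ((m + 1 : ℕ) * t)) ^ 2 * 1 :=
        mul_le_mul_of_nonneg_left h1 (by positivity)
    _ ≤ t / (2 * ((m + 1 : ℕ) * t)) ^ 2 := by
        rw [mul_one]
        exact div_le_div_of_nonneg_left ht.le (by positivity) (pow_le_pow_left₀ hy0.le hs1 2)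
    _ = _ := by field_simp; ring

theorem lay_ge (K : ℕ) {t : ℝ} (ht : 0 < t) (m : ℕ) :
    (1 - (K + 1) * Real.exp (-(4 * (K * t)))) * (1 / (4 * t) * (1 / ((m + 1 : ℕ) : ℝ) ^ 2)) - t / 3 ≤
      lay K t m := by
  rw [lay_eq K ht m]
  have hy0 : 0 < 2 * (((m + 1 : ℕ) : ℝ) * t) := by positivity
  have hs := Real.sinh_pos_iff.2 hy0
  have hs1 := Real.self_le_sinh_iff.2 hy0.le
  have hp := pS_ge hy0
  have hp1 := pS_le_one hy0
  set z : ℝ := Real.exp (-(4 * ((m + 1 : ℕ) * t))) with hz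
  have hz0 : 0 < z := Real.exp_pos _
  have hzK : z ^ K ≤ Real.exp (-(4 * (K * t))) := by
    rw [hz, ← Real.exp_nat_mul, Real.exp_le_exp]
    have : (1 : ℝ) ≤ ((m + 1 : ℕ) : ℝ) := by exact_mod_cast Nat.succ_le_succ (Nat.zero_le m)
    have h2 : (K : ℝ) * t ≤ K * t * ((m + 1 : ℕ) : ℝ) := by
      have : 0 ≤ (K : ℝ) * t := by positivity
      nlinarith
    linarith
  set Q : ℝ := t / Real.sinh (2 * ((m + 1 : ℕ) * t)) ^ 2 with hQ
  set R : ℝ := 1 / (4 * t) * (1 / ((m + 1 : ℕ) : ℝ) ^ 2) with hR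
  have hR0 : 0 ≤ R := by positivity
  have hQR : Q = R * pS (2 * ((m + 1 : ℕ) * t)) := by
    rw [hQ, hR]
    unfold pS
    field_simp
    ring
  have hQ1 : Q ≤ R := by rw [hQR]; nlinarith
  have hQ2 : R - t / 3 ≤ Q := by
    rw [hQR]
    have h3 : R * (1 - (2 * (((m + 1 : ℕ) : ℝ) * t)) ^ 2 / 3) = R - t / 3 := by
      rw [hR]
      field_simp
      ring
    rw [← h3]
    exact mul_le_mul_of_nonneg_left hp hR0
  have hQ0 : 0 ≤ Q := by positivity
  have h5 : (0 : ℝ) ≤ K * z ^ (K + 1) := by positivity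
  have h6 : Q * ((K + 1) * z ^ K) ≤ R * ((K + 1) * Real.exp (-(4 * (K * t)))) :=
    mul_le_mul hQ1 (mul_le_mul_of_nonneg_left hzK (by positivity)) (by positivity) hR0
  have h7 : 0 ≤ Q * (K * z ^ (K + 1)) := mul_nonneg hQ0 h5
  have h8 : Q * (1 - (K + 1) * z ^ K + K * z ^ (K + 1)) =
      Q - Q * ((K + 1) * z ^ K) + Q * (K * z ^ (K + 1)) := by ring
  rw [h8]
  linarith

theorem zeta2 : HasSum (fun m : ℕ => 1 / ((m + 1 : ℕ) : ℝ) ^ 2) (Real.pi ^ 2 / 6) := by
  have h := (hasSum_nat_add_iff' 1).2 hasSum_zeta_two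
  simpa using h

/-- Upper bound of `∑ W(4 i t)`. -/
theorem sumW_le (K : ℕ) {t : ℝ} (ht : 0 < t) :
    ∑ i ∈ range K, Wf (4 * ((i + 1 : ℕ) * t)) ≤ Real.pi ^ 2 / (24 * t) := by
  have h1 := lay_hasSum K ht
  have h2 := zeta2.mul_left (1 / (4 * t))
  have h3 := hasSum_le (fun m => lay_le K ht m) h1 h2
  refine h3.trans (le_of_eq ?_)
  field_simp
  norm_num

theorem zeta2_tail (M : ℕ) (hM : 1 ≤ M) :
    Real.pi ^ 2 / 6 - 1 / M ≤ ∑ m ∈ range M, 1 / ((m + 1 : ℕ) : ℝ) ^ 2 := by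
  have h1 : ∀ N : ℕ, ∑ m ∈ range (M + N), 1 / ((m + 1 : ℕ) : ℝ) ^ 2 ≤
      ∑ m ∈ range M, 1 / ((m + 1 : ℕ) : ℝ) ^ 2 + 1 / M - 1 / ((M + N : ℕ) : ℝ) := by
    intro N
    induction N with
    | zero => simp
    | succ N ih =>
      rw [← add_assoc, sum_range_succ]
      have hpos : (0 : ℝ) < ((M + N : ℕ) : ℝ) := by
        have : 0 < M + N := by omega
        exact_mod_cast this
      have h2 : 1 / ((M + N + 1 : ℕ) : ℝ) ^ 2 ≤ 1 / ((M + N : ℕ) : ℝ) - 1 / ((M + N + 1 : ℕ) : ℝ) := by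
        push_cast at hpos ⊢
        set A : ℝ := (M : ℝ) + N
        have h3 : 1 / A - 1 / (A + 1) = 1 / (A * (A + 1)) := by
          field_simp
          ring
        rw [h3]
        refine div_le_div_of_nonneg_left (by norm_num) (by positivity) ?_
        nlinarith
      linarith
  have h2 : Filter.Tendsto (fun N => ∑ m ∈ range N, 1 / ((m + 1 : ℕ) : ℝ) ^ 2) Filter.atTop
      (nhds (Real.pi ^ 2 / 6)) := zeta2.tendsto_sum_nat
  have h3 : Real.pi ^ 2 / 6 ≤ ∑ m ∈ range M, 1 / ((m + 1 : ℕ) : ℝ) ^ 2 + 1 / M := by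
    refine le_of_tendsto h2 ?_
    filter_upwards [Filter.eventually_ge_atTop M] with N hN
    obtain ⟨N', rfl⟩ := Nat.exists_eq_add_of_le hN
    have h4 := h1 N'
    have h5 : (0 : ℝ) ≤ 1 / ((M + N' : ℕ) : ℝ) := by positivity
    linarith
  linarith

/-- Lower bound of `∑ W(4 i t)`. -/
theorem sumW_ge (K : ℕ) {t : ℝ} (ht : 0 < t) (hA : (K + 1) * Real.exp (-(4 * (K * t))) ≤ 1) :
    (1 - (K + 1) * Real.exp (-(4 * (K * t)))) * (Real.pi ^ 2 / (24 * t)) - 7 / 12 - t / 3 ≤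
      ∑ i ∈ range K, Wf (4 * ((i + 1 : ℕ) * t)) := by
  have h1 := lay_hasSum K ht
  set A : ℝ := (K + 1) * Real.exp (-(4 * (K * t))) with hAdef
  have hA0 : 0 ≤ A := by positivity
  set M : ℕ := ⌈1 / t⌉₊ with hM
  have hM1 : 1 / t ≤ M := Nat.le_ceil _
  have hM2 : (M : ℝ) < 1 / t + 1 := Nat.ceil_lt_add_one (by positivity)
  have hM0 : 1 ≤ M := Nat.one_le_iff_ne_zero.2 (by
    intro h0
    rw [h0] at hM1
    have : 0 < 1 / t := by positivity
    simp only [Nat.cast_zero] at hM1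
    linarith)
  have hM0' : (0 : ℝ) < M := by exact_mod_cast hM0
  have h2 : ∑ m ∈ range M, lay K t m ≤ ∑ i ∈ range K, Wf (4 * ((i + 1 : ℕ) * t)) := by
    refine sum_le_hasSum _ (fun m _ => ?_) h1
    unfold lay
    exact sum_nonneg fun i _ => by positivity
  have h3 : ∑ m ∈ range M, ((1 - A) * (1 / (4 * t) * (1 / ((m + 1 : ℕ) : ℝ) ^ 2)) - t / 3) ≤
      ∑ m ∈ range M, lay K t m := sum_le_sum fun m _ => lay_ge K ht m
  have h4 : ∑ m ∈ range M, ((1 - A) * (1 / (4 * t) * (1 / ((m + 1 : ℕ) : ℝ) ^ 2)) - t / 3) =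
      (1 - A) * (1 / (4 * t)) * ∑ m ∈ range M, (1 / ((m + 1 : ℕ) : ℝ) ^ 2) - M * (t / 3) := by
    rw [sum_sub_distrib, mul_sum, sum_const, card_range, nsmul_eq_mul]
    congr 1
    exact sum_congr rfl fun m _ => by ring
  have h5 := zeta2_tail M hM0
  have h6 : (1 - A) * (1 / (4 * t)) * (Real.pi ^ 2 / 6 - 1 / M) ≤
      (1 - A) * (1 / (4 * t)) * ∑ m ∈ range M, (1 / ((m + 1 : ℕ) : ℝ) ^ 2) :=
    mul_le_mul_of_nonneg_left h5 (mul_nonneg (by linarith) (by positivity))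
  have h7 : (1 - A) * (1 / (4 * t)) * (Real.pi ^ 2 / 6 - 1 / M) =
      (1 - A) * (Real.pi ^ 2 / (24 * t)) - (1 - A) * (1 / (4 * t * M)) := by
    field_simp
    ring
  have h8 : 1 / (4 * t * M) ≤ 1 / 4 := by
    refine div_le_div_of_nonneg_left (by norm_num) (by norm_num) ?_
    have : 1 ≤ M * t := by
      rw [div_le_iff₀ ht] at hM1
      exact hM1
    nlinarith
  have h8' : 0 ≤ 1 / (4 * t * M) := by positivity
  have h9 : (1 - A) * (1 / (4 * t * M)) ≤ 1 / 4 := by nlinarith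
  have h10 : (M : ℝ) * (t / 3) ≤ 1 / 3 + t / 3 := by
    have : (M : ℝ) * t ≤ 1 + t := by
      have := mul_le_mul_of_nonneg_right hM2.le ht.le
      rw [add_mul, one_mul, div_mul_cancel₀ _ ht.ne'] at this
      exact this
    linarith
  linarith

theorem Wf_anti {x y : ℝ} (hx : 0 < x) (hxy : x ≤ y) : Wf y ≤ Wf x := by
  have hy := hx.trans_le hxy
  have h1 := exp_sub_one_pos hx
  have h2 := exp_sub_one_pos hy
  have h3 := convexOn_exp.secant_mono (a := 0) (x := x) (y := y) (Set.mem_univ _) (Set.mem_univ _)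
    (Set.mem_univ _) hx.ne' hy.ne' hxy
  simp only [sub_zero, Real.exp_zero] at h3
  unfold Wf
  rw [div_le_div_iff₀ h2 h1]
  rw [div_le_div_iff₀ hx hy] at h3
  linarith

theorem Wf_quad {x : ℝ} (hx : 0 < x) : Wf x ≤ 1 - x / 2 + x ^ 2 / 4 := by
  have h1 := exp_sub_one_pos hx
  have h2 := Real.quadratic_le_exp_of_nonneg hx.le
  unfold Wf
  rw [div_le_iff₀ h1]
  have h3 : 0 < 1 - x / 2 + x ^ 2 / 4 := by nlinarith [sq_nonneg (x - 1)]
  have h4 : (1 - x / 2 + x ^ 2 / 4) * (x + x ^ 2 / 2) = x + x ^ 4 / 8 := by ring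
  have h5 : (1 - x / 2 + x ^ 2 / 4) * (x + x ^ 2 / 2) ≤ (1 - x / 2 + x ^ 2 / 4) * (Real.exp x - 1) :=
    mul_le_mul_of_nonneg_left (by linarith) h3.le
  have h6 : 0 ≤ x ^ 4 / 8 := by positivity
  linarith

theorem sumW_quad (K : ℕ) {t : ℝ} (ht : 0 < t) :
    ∑ i ∈ range K, Wf (4 * ((i + 1 : ℕ) * t)) ≤
      K - K * (K + 1) * t + 2 / 3 * t ^ 2 * (K * (K + 1) * (2 * K + 1)) := by
  have h1 : ∑ i ∈ range K, Wf (4 * ((i + 1 : ℕ) * t)) ≤
      ∑ i ∈ range K, (1 - 2 * (((i + 1 : ℕ) : ℝ) * t) + 4 * (((i + 1 : ℕ) : ℝ) * t) ^ 2) := by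
    refine sum_le_sum fun i _ => ?_
    refine (Wf_quad (by positivity)).trans (le_of_eq ?_)
    ring
  refine h1.trans (le_of_eq ?_)
  clear h1
  induction K with
  | zero => simp
  | succ K ih =>
    rw [sum_range_succ, ih]
    push_cast
    ring

/-- The part of the numerators. -/
theorem sumW_num {n k a : ℕ} (ha3 : 3 ≤ a) {t : ℝ} (ht : 0 < t) :
    0 ≤ ∑ i ∈ range (k / 2), Wf (2 * (a * (n + 2 * i + 1 + (if Even n then 1 else 0) : ℕ) * t)) ∧
    ∑ i ∈ range (k / 2), Wf (2 * (a * (n + 2 * i + 1 + (if Even n then 1 else 0) : ℕ) * t)) ≤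
      Real.pi ^ 2 / (72 * t) := by
  have ha' : (3 : ℝ) ≤ a := by exact_mod_cast ha3
  constructor
  · refine sum_nonneg fun i _ => Wf_nonneg ?_
    push_cast
    positivity
  · have h3 := sumW_le (k / 2) (t := 3 * t) (by positivity)
    have h4 : Real.pi ^ 2 / (24 * (3 * t)) = Real.pi ^ 2 / (72 * t) := by
      congr 1; ring
    rw [h4] at h3
    refine le_trans (sum_le_sum fun i _ => ?_) h3
    refine Wf_anti (by positivity) ?_
    have h2 : 2 * (i + 1) ≤ n + 2 * i + 1 + (if Even n then 1 else 0) := by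
      split
      · omega
      · rename_i hn
        have : n ≠ 0 := fun h0 => hn (by rw [h0]; simp)
        omega
    have h2' : 2 * ((i : ℝ) + 1) ≤ ((n + 2 * i + 1 + (if Even n then 1 else 0) : ℕ) : ℝ) := by
      exact_mod_cast h2
    set M : ℝ := ((n + 2 * i + 1 + (if Even n then 1 else 0) : ℕ) : ℝ)
    have h5 : 3 * (2 * ((i : ℝ) + 1)) ≤ a * M :=
      mul_le_mul ha' h2' (by positivity) (by linarith)
    push_cast
    nlinarith

theorem c_half (k : ℕ) : ((((k + 1) / 2 : ℕ) : ℝ)) ≤ (k + 1) / 2 := by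
  rw [le_div_iff₀ (by norm_num)]
  exact_mod_cast Nat.div_mul_le_self (k + 1) 2

/-- `μ(t) ≤ π²/(24 t²) + 0.56/t + (k+1)/4`. -/
theorem mu_le {n k a : ℕ} (h : Even (n * k)) (ha : Odd a) (ha3 : 3 ≤ a) {f : ℚ[X]}
    (hf : f * poch (-X : ℚ[X]) k = num n k a) {t : ℝ} (ht : 0 < t) :
    mu n k a f t ≤ Real.pi ^ 2 / (24 * t ^ 2) + 56 / 100 / t + (k + 1) / 4 := by
  have h1 := (abs_le.1 (t_mu_bounds h ha hf ht)).2
  have h2 := (sumW_num (n := n) (k := k) ha3 ht).1
  have h3 := sumW_le (k / 2) ht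
  have h4 : ((((k + 1) / 2 : ℕ) : ℝ)) * Vf t ≤ (k + 1) / 2 * (t / 2) :=
    mul_le_mul (c_half k) (Vf_half ht.le) (Vf_nonneg ht.le) (by positivity)
  have h5 : t * mu n k a f t ≤ t * (Real.pi ^ 2 / (24 * t ^ 2) + 56 / 100 / t + (k + 1) / 4) := by
    have h6 : t * (Real.pi ^ 2 / (24 * t ^ 2) + 56 / 100 / t + (k + 1) / 4) =
        Real.pi ^ 2 / (24 * t) + 56 / 100 + (k + 1) / 2 * (t / 2) := by
      field_simp
      ring
    rw [h6]
    linarith
  exact le_of_mul_le_mul_left h5 ht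

theorem mu_le_small {n k a : ℕ} (h : Even (n * k)) (ha : Odd a) (ha3 : 3 ≤ a) {f : ℚ[X]}
    (hf : f * poch (-X : ℚ[X]) k = num n k a) {t : ℝ} (ht : 0 < t) :
    mu n k a f t ≤ (((k / 2 : ℕ) : ℝ) + 56 / 100) / t -
      ((k / 2 : ℕ) : ℝ) * (((k / 2 : ℕ) : ℝ) + 1) +
      2 / 3 * t * (((k / 2 : ℕ) : ℝ) * (((k / 2 : ℕ) : ℝ) + 1) * (2 * ((k / 2 : ℕ) : ℝ) + 1)) +
      (k + 1) / 4 := by
  have h1 := (abs_le.1 (t_mu_bounds h ha hf ht)).2
  have h2 := (sumW_num (n := n) (k := k) ha3 ht).1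
  have h3 := sumW_quad (k / 2) ht
  have h4 : ((((k + 1) / 2 : ℕ) : ℝ)) * Vf t ≤ (k + 1) / 2 * (t / 2) :=
    mul_le_mul (c_half k) (Vf_half ht.le) (Vf_nonneg ht.le) (by positivity)
  set K : ℝ := ((k / 2 : ℕ) : ℝ)
  have h5 : t * mu n k a f t ≤ t * ((K + 56 / 100) / t - K * (K + 1) +
      2 / 3 * t * (K * (K + 1) * (2 * K + 1)) + (k + 1) / 4) := by
    have h6 : t * ((K + 56 / 100) / t - K * (K + 1) +
      2 / 3 * t * (K * (K + 1) * (2 * K + 1)) + (k + 1) / 4) =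
        K + 56 / 100 - K * (K + 1) * t + 2 / 3 * t ^ 2 * (K * (K + 1) * (2 * K + 1)) +
          (k + 1) / 2 * (t / 2) := by
      field_simp
      ring
    rw [h6]
    linarith
  exact le_of_mul_le_mul_left h5 ht

theorem mu_ge {n k a : ℕ} (h : Even (n * k)) (ha : Odd a) (ha3 : 3 ≤ a) {f : ℚ[X]}
    (hf : f * poch (-X : ℚ[X]) k = num n k a) {t : ℝ} (ht : 0 < t)
    (hA : (((k / 2 : ℕ) : ℝ) + 1) * Real.exp (-(4 * (((k / 2 : ℕ) : ℝ) * t))) ≤ 1) :
    (1 - (((k / 2 : ℕ) : ℝ) + 1) * Real.exp (-(4 * (((k / 2 : ℕ) : ℝ) * t)))) *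
      (Real.pi ^ 2 / (24 * t)) - Real.pi ^ 2 / (72 * t) - 115 / 100 - t / 3 ≤ t * mu n k a f t := by
  have h1 := (abs_le.1 (t_mu_bounds h ha hf ht)).1
  have h2 := (sumW_num (n := n) (k := k) ha3 ht).2
  have h3 := sumW_ge (k / 2) ht hA
  have h4 : 0 ≤ ((((k + 1) / 2 : ℕ) : ℝ)) * Vf t := mul_nonneg (Nat.cast_nonneg _) (Vf_nonneg ht.le)
  linarith

/-! ### The derivative of the slope -/

theorem hasDerivAt_dl {v : ℕ} (hv : 1 ≤ v) {t : ℝ} (ht : 0 < t) :
    HasDerivAt (dl v) (var1 v t) t := by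
  have hv' : (1 : ℝ) ≤ v := by exact_mod_cast hv
  have hs : 0 < Real.sinh (v * t / 2) := Real.sinh_pos_iff.2 (by positivity)
  have hc : 0 < Real.cosh (v * t / 2) := Real.cosh_pos _
  have hl : HasDerivAt (fun t : ℝ => (v : ℝ) * t / 2) (v / 2) t := by
    have := ((hasDerivAt_id t).const_mul (v : ℝ)).div_const 2
    simpa using this
  have h1 : HasDerivAt (fun t => Real.sinh ((v : ℝ) * t / 2)) (Real.cosh (v * t / 2) * (v / 2)) t :=
    hl.sinh
  have h2 : HasDerivAt (fun t => Real.cosh ((v : ℝ) * t / 2)) (Real.sinh (v * t / 2) * (v / 2)) t :=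
    hl.cosh
  have hcs := Real.cosh_sq (v * t / 2)
  rcases Nat.even_or_odd v with h | h
  · have h3 : dl v = fun t => (v : ℝ) / 2 * (Real.cosh (v * t / 2) / Real.sinh (v * t / 2)) := by
      funext x; unfold dl; rw [if_pos h]
    rw [h3]
    unfold var1
    rw [if_pos h]
    have h4 := (h2.div h1 hs.ne').const_mul ((v : ℝ) / 2)
    convert! h4 using 1
    field_simp
    rw [hcs]
    ring
  · have h3 : dl v = fun t => (v : ℝ) / 2 * (Real.sinh (v * t / 2) / Real.cosh (v * t / 2)) := by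
      funext x; unfold dl; rw [if_neg (Nat.not_even_iff_odd.2 h)]
    rw [h3]
    unfold var1
    rw [if_neg (Nat.not_even_iff_odd.2 h)]
    have h4 := (h1.div h2 hc.ne').const_mul ((v : ℝ) / 2)
    convert! h4 using 1
    field_simp
    rw [hcs]
    ring

theorem hasDerivAt_slope {n k a : ℕ} (ha : 1 ≤ a) {t : ℝ} (ht : 0 < t) :
    HasDerivAt (slope n k a) (sig2 n k a t) t := by
  unfold slope sig2
  refine ((hasDerivAt_dl le_rfl ht).const_mul _).add ?_
  refine HasDerivAt.fun_sum fun v _ => ?_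
  exact (hasDerivAt_dl (Nat.mul_pos ha (by omega)) ht).sub (hasDerivAt_dl (by omega) ht)

theorem mu_antitone {n k a : ℕ} (h : Even (n * k)) (ha : Odd a) (ha3 : 3 ≤ a) (hk : 26 ≤ k)
    (f : ℚ[X]) {s t : ℝ} (hs : 0 < s) (hst : s ≤ t) (ht1 : t ≤ 1 / 60) :
    mu n k a f t ≤ mu n k a f s := by
  have hm : MonotoneOn (slope n k a) (Set.Icc s (1 / 60)) := by
    refine monotoneOn_of_deriv_nonneg (convex_Icc _ _) ?_ ?_ ?_
    · intro x hx
      exact (hasDerivAt_slope ha.pos (hs.trans_le hx.1)).continuousAt.continuousWithinAt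
    · intro x hx
      rw [interior_Icc] at hx
      exact (hasDerivAt_slope ha.pos (hs.trans hx.1)).differentiableAt.differentiableWithinAt
    · intro x hx
      rw [interior_Icc] at hx
      rw [(hasDerivAt_slope ha.pos (hs.trans hx.1)).deriv]
      exact (sig2_pos h ha ha3 hk (hs.trans hx.1) hx.2.le).le
  have := hm ⟨le_rfl, hst.trans ht1⟩ ⟨hst, ht1⟩ hst
  unfold mu
  linarith

end Pool.Agent.SignedQ.An
end

section

/-! # Location of the saddle point -/

namespace Pool.Agent.SignedQ.An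

open Polynomial Finset

theorem log_512 : 6.3383 - 0.1 < Real.log 512 ∧ Real.log 512 < 6.23833 := by
  have h : Real.log 512 = 9 * Real.log 2 := by
    rw [show (512 : ℝ) = 2 ^ (9 : ℕ) by norm_num, Real.log_pow]; norm_num
  have h1 := Real.log_two_gt_d9
  have h2 := Real.log_two_lt_d9
  rw [h]
  constructor <;> linarith

theorem log559 : 6.326 < Real.log 559 ∧ Real.log 559 < 6.3262 := by
  have h1 := Real.log_two_gt_d9
  have h2 := Real.log_two_lt_d9
  have h : Real.log 559 = 9 * Real.log 2 + Real.log (559 / 512) := by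
    rw [Real.log_div (by norm_num) (by norm_num), show (512 : ℝ) = 2 ^ (9 : ℕ) by norm_num,
      Real.log_pow]
    push_cast
    ring
  have h3 : 0.08776 ≤ Real.log (559 / 512) := by
    have := Real.le_log_one_add_of_nonneg (x := 47 / 512) (by norm_num)
    rw [show (1 : ℝ) + 47 / 512 = 559 / 512 by norm_num] at this
    refine le_trans ?_ this
    norm_num
  have h4 : Real.log (559 / 512) ≤ 0.08784 := by
    rw [Real.log_le_iff_le_exp (by norm_num)]
    have := Real.sum_le_exp_of_nonneg (x := 0.08784) (by norm_num) 4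
    refine le_trans ?_ this
    simp only [sum_range_succ, range_zero, sum_empty, Nat.factorial]
    norm_num
  rw [h]
  constructor <;> linarith

theorem log560 : 6.3277 < Real.log 560 := by
  have h1 := Real.log_two_gt_d9
  have h : Real.log 560 = 9 * Real.log 2 + Real.log (560 / 512) := by
    rw [Real.log_div (by norm_num) (by norm_num), show (512 : ℝ) = 2 ^ (9 : ℕ) by norm_num,
      Real.log_pow]
    push_cast
    ring
  have h3 : 0.08955 ≤ Real.log (560 / 512) := by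
    have := Real.le_log_one_add_of_nonneg (x := 48 / 512) (by norm_num)
    rw [show (1 : ℝ) + 48 / 512 = 560 / 512 by norm_num] at this
    refine le_trans ?_ this
    norm_num
  rw [h]
  linarith

theorem pi_sq_lt : Real.pi ^ 2 < 9.8697 := by
  have h1 := Real.pi_lt_d4
  have h2 := Real.pi_pos
  nlinarith

theorem pi_sq_gt : 9.8696 < Real.pi ^ 2 := by
  have h1 := Real.pi_gt_d6
  nlinarith

theorem mu_le_of_ge {n k a : ℕ} (h : Even (n * k)) (ha : Odd a) (ha3 : 3 ≤ a) {f : ℚ[X]}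
    (hf : f * poch (-X : ℚ[X]) k = num n k a) {t s : ℝ} (hs : 0 < s) (hst : s ≤ t) :
    mu n k a f t ≤ 0.4112375 / s ^ 2 + 0.56 / s + (k + 1) / 4 := by
  have ht := hs.trans_le hst
  have h1 := mu_le h ha ha3 hf ht
  have h2 : Real.pi ^ 2 / (24 * t ^ 2) ≤ 0.4112375 / s ^ 2 := by
    have h3 : Real.pi ^ 2 / (24 * t ^ 2) ≤ Real.pi ^ 2 / (24 * s ^ 2) :=
      div_le_div_of_nonneg_left (by positivity) (by positivity) (by nlinarith)
    refine h3.trans ?_
    have h4 : Real.pi ^ 2 / (24 * s ^ 2) = (Real.pi ^ 2 / 24) / s ^ 2 := by field_simp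
    rw [h4]
    refine div_le_div_of_nonneg_right ?_ (by positivity)
    have := pi_sq_lt
    linarith
  have h3 : 56 / 100 / t ≤ 0.56 / s := by
    have : (56 / 100 : ℝ) = 0.56 := by norm_num
    rw [this]
    exact div_le_div_of_nonneg_left (by norm_num) hs hst
  linarith

theorem loc1 {n k a : ℕ} (h : Even (n * k)) (ha : Odd a) (ha3 : 3 ≤ a) (hk : 26 ≤ k) {f : ℚ[X]}
    (hf : f * poch (-X : ℚ[X]) k = num n k a) {t : ℝ} (ht : 0 < t) (hk2 : k ≤ 560)
    (hmu : 2048 ≤ mu n k a f t) : DOM k t := by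
  have hkr : (26 : ℝ) ≤ k := by exact_mod_cast hk
  have hkr2 : (k : ℝ) ≤ 560 := by exact_mod_cast hk2
  have hsmall : t < 0.01525 := by
    by_contra hcon
    push Not at hcon
    have h1 := mu_le_of_ge h ha ha3 hf (s := 0.01525) (by norm_num) hcon
    norm_num at h1
    linarith
  refine ⟨hk, ht, by norm_num at hsmall ⊢; linarith, ?_, ?_⟩
  · by_contra hcon
    push Not at hcon
    have h1 := mu_le_small h ha ha3 hf ht
    have hkk : k ≤ 61 := by
      norm_num at hsmall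
      have h3 : (k : ℝ) < ((62 : ℕ) : ℝ) := by push_cast; linarith
      have h2 : k < 62 := by exact_mod_cast h3
      omega
    have hK1 : (13 : ℝ) ≤ ((k / 2 : ℕ) : ℝ) := by
      have : 13 ≤ k / 2 := by omega
      exact_mod_cast this
    have hK2 : ((k / 2 : ℕ) : ℝ) ≤ 30 := by
      have : k / 2 ≤ 30 := by omega
      exact_mod_cast this
    have hK3 : 2 * ((k / 2 : ℕ) : ℝ) ≤ k := by
      have : 2 * (k / 2) ≤ k := by omega
      exact_mod_cast this
    have hkr3 : (k : ℝ) ≤ 61 := by exact_mod_cast hkk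
    set K : ℝ := ((k / 2 : ℕ) : ℝ)
    have h2 : (K + 56 / 100) / t ≤ 2086.2 := by
      rw [div_le_iff₀ ht]
      have h3 : K / 2000 < t := by linarith
      nlinarith
    have h4 : 182 ≤ K * (K + 1) := by nlinarith
    have h5 : 2 / 3 * t * (K * (K + 1) * (2 * K + 1)) ≤ 0.6304 * (K * (K + 1)) := by
      have h6 : 2 / 3 * t * (2 * K + 1) ≤ 0.6304 := by nlinarith
      have h7 := mul_le_mul_of_nonneg_right h6 (show 0 ≤ K * (K + 1) by linarith)
      linarith
    norm_num at h2 h5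
    linarith
  · by_contra hcon
    push Not at hcon
    have hexp : Real.exp 1 ≤ 26 := by
      have := Real.exp_one_lt_d9
      linarith
    have h1 := Real.log_div_self_antitoneOn (show (k : ℝ) ∈ Set.Ici (Real.exp 1) from
      hexp.trans hkr) (show (560 : ℝ) ∈ Set.Ici (Real.exp 1) from hexp.trans (by norm_num)) hkr2
    simp only at h1
    have h2 := log560
    have h3 : 0.0112994 ≤ Real.log k / k := by
      refine le_trans ?_ h1
      rw [le_div_iff₀ (by norm_num)]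
      linarith
    rw [le_div_iff₀ (by linarith)] at h3
    have h4 : 27 / 20 * (0.0112994 * (k : ℝ)) < k * t := lt_of_le_of_lt (by linarith) hcon
    have h5 : 27 / 20 * 0.0112994 < t := by
      have : (k : ℝ) * (27 / 20 * 0.0112994) < k * t := by linarith
      exact lt_of_mul_lt_mul_left this (by linarith)
    norm_num at h5 hsmall
    linarith

/-- Facts on `x / log x` for `x ≥ 559`. -/
theorem xlog {x : ℝ} (hx : 559 ≤ x) : 6.326 < Real.log x ∧ 13.967 * x ≤ (x / Real.log x) ^ 2 ∧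
    x / Real.log x ≤ x / 6.326 ∧ x / Real.log x ≤ (x + 2) / Real.log (x + 2) ∧
    (x + 2) / Real.log (x + 2) ≤ x / Real.log x + 0.2665 := by
  have h0 := log559
  have hL : Real.log 559 ≤ Real.log x := Real.log_le_log (by norm_num) hx
  have hL0 : 6.326 < Real.log x := by linarith
  have hLp : 0 < Real.log x := by norm_num at hL0; linarith
  have hexp1 : Real.exp 1 ≤ 559 := by
    have := Real.exp_one_lt_d9
    linarith
  have hexp2 : Real.exp 2 ≤ 559 := by
    have h1 := Real.exp_one_lt_d9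
    have h2 : Real.exp 2 = Real.exp 1 * Real.exp 1 := by rw [← Real.exp_add]; norm_num
    have h3 := Real.exp_pos 1
    nlinarith
  have hL2 : Real.log x ≤ Real.log (x + 2) := Real.log_le_log (by linarith) (by linarith)
  have hL2p : 0 < Real.log (x + 2) := by linarith
  refine ⟨hL0, ?_, ?_, ?_, ?_⟩
  · have h1 := Real.log_div_sqrt_antitoneOn (show (559 : ℝ) ∈ Set.Ici (Real.exp 2) from hexp2)
      (show x ∈ Set.Ici (Real.exp 2) from hexp2.trans hx) hx
    simp only at h1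
    have h2 : (Real.log x / √x) ^ 2 ≤ (Real.log 559 / √559) ^ 2 :=
      pow_le_pow_left₀ (by positivity) h1 2
    rw [div_pow, div_pow, Real.sq_sqrt (by linarith), Real.sq_sqrt (by norm_num),
      div_le_div_iff₀ (by linarith) (by norm_num)] at h2
    have h3 : (Real.log 559) ^ 2 ≤ 40.021 := by
      have h4 := h0.2
      have h5 : 0 < Real.log 559 := by norm_num at h0; linarith
      nlinarith
    have h4 : Real.log x ^ 2 * 559 ≤ 40.021 * x :=
      h2.trans (mul_le_mul_of_nonneg_right h3 (by linarith))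
    rw [div_pow, le_div_iff₀ (by positivity)]
    have h5 : 13.967 * x * (Real.log x ^ 2 * 559) ≤ 13.967 * x * (40.021 * x) :=
      mul_le_mul_of_nonneg_left h4 (by positivity)
    nlinarith [sq_nonneg x]
  · exact div_le_div_of_nonneg_left (by linarith) (by norm_num) hL0.le
  · have h1 := Real.log_div_self_antitoneOn (show x ∈ Set.Ici (Real.exp 1) from
      hexp1.trans hx) (show x + 2 ∈ Set.Ici (Real.exp 1) from hexp1.trans (by linarith))
      (by linarith)
    simp only at h1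
    rw [div_le_div_iff₀ (by linarith) (by linarith)] at h1
    rw [div_le_div_iff₀ hLp hL2p]
    linarith
  · -- `log (x + 2) ≥ log x + 2 / (x + 2)`
    have h1 : Real.log x + 2 / (x + 2) ≤ Real.log (x + 2) := by
      have h2 := Real.log_le_sub_one_of_pos (show 0 < x / (x + 2) by positivity)
      rw [Real.log_div (by linarith) (by linarith)] at h2
      have h3 : x / (x + 2) - 1 = - (2 / (x + 2)) := by
        field_simp
        ring
      linarith
    set L := Real.log x with hLdef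
    have h3 : (x + 2) / Real.log (x + 2) ≤ (x + 2) / (L + 2 / (x + 2)) :=
      div_le_div_of_nonneg_left (by linarith) (by positivity) h1
    refine h3.trans ?_
    rw [div_le_iff₀ (by positivity)]
    have h4 : (x / L + 0.2665) * (L + 2 / (x + 2)) = x + 0.2665 * L + 2 * x / (L * (x + 2)) +
        0.2665 * 2 / (x + 2) := by
      field_simp
      ring
    rw [h4]
    have h5 : 2 / L - 4 / (L * (x + 2)) = 2 * x / (L * (x + 2)) := by
      field_simp
      ring
    have h6 : 2 / L * (1 - 2 / 561) ≤ 2 * x / (L * (x + 2)) := by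
      rw [← h5]
      have h7 : 4 / (L * (x + 2)) = 2 / L * (2 / (x + 2)) := by field_simp; ring
      rw [h7]
      have h8 : 2 / (x + 2) ≤ 2 / 561 :=
        div_le_div_of_nonneg_left (by norm_num) (by norm_num) (by linarith)
      have h9 : 0 < 2 / L := by positivity
      nlinarith
    have h7 : 0 ≤ 0.2665 * 2 / (x + 2) := by positivity
    have h8 : 2 ≤ 0.2665 * L + 2 / L * (1 - 2 / 561) := by
      have h9 : 0.2665 * L + 2 / L * (1 - 2 / 561) = (0.2665 * L ^ 2 + 2 * (559 / 561)) / L := by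
        field_simp
        ring
      rw [h9, le_div_iff₀ hLp]
      nlinarith
    linarith

theorem loc4 {n k a : ℕ} (h : Even (n * k)) (ha : Odd a) (ha3 : 3 ≤ a) {f : ℚ[X]}
    (hf : f * poch (-X : ℚ[X]) k = num n k a) {t : ℝ} (ht : 0 < t) (hk : 560 < k)
    (hmu : ((k - 2 : ℕ) / (2 * Real.log (k - 2 : ℕ))) ^ 2 ≤ mu n k a f t) : DOM k t := by
  have hkr : (561 : ℝ) ≤ k := by exact_mod_cast hk
  have hcast : ((k - 2 : ℕ) : ℝ) = (k : ℝ) - 2 := by
    rw [Nat.cast_sub (by omega)]; norm_num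
  rw [hcast] at hmu
  set x : ℝ := (k : ℝ) - 2 with hx
  have hx559 : 559 ≤ x := by linarith
  have hk' : (k : ℝ) = x + 2 := by linarith
  obtain ⟨l1, l2, l3, l4, l5⟩ := xlog hx559
  have hLp : 0 < Real.log x := by norm_num at l1; linarith
  have hq : (x / (2 * Real.log x)) ^ 2 = (x / Real.log x) ^ 2 / 4 := by
    field_simp
    ring
  rw [hq] at hmu
  rw [← hk'] at l4 l5
  set q : ℝ := x / Real.log x with hqdef
  have hq0 : 0 < q := by positivity
  have hsmall : t ≤ 31 / 2000 := by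
    by_contra hcon
    push Not at hcon
    have h1 := mu_le_of_ge h ha ha3 hf (s := 31 / 2000) (by norm_num) hcon.le
    rw [hk'] at h1
    norm_num at h1
    norm_num at l2
    linarith
  refine ⟨by omega, ht, hsmall, by linarith, ?_⟩
  by_contra hcon
  push Not at hcon
  have hLk : 0 < Real.log k := Real.log_pos (by linarith)
  -- `s = 1.35 log k / k`
  have hs0 : 0 < 27 / 20 * Real.log k / k := by positivity
  have hst : 27 / 20 * Real.log k / k ≤ t := by
    rw [div_le_iff₀ (by linarith)]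
    linarith
  have h1 := mu_le_of_ge h ha ha3 hf hs0 hst
  set Z : ℝ := (k : ℝ) / Real.log k with hZ
  have h2 : 0.4112375 / (27 / 20 * Real.log k / k) ^ 2 = 0.4112375 / 1.8225 * Z ^ 2 := by
    rw [hZ]
    field_simp
    norm_num
  have h3 : 0.56 / (27 / 20 * Real.log k / k) = 0.56 / 1.35 * Z := by
    rw [hZ]
    field_simp
    norm_num
  rw [h2, h3, hk'] at h1
  have hZ0 : 0 < Z := by positivity
  have h4 : Z ^ 2 ≤ (q + 0.2665) ^ 2 := pow_le_pow_left₀ hZ0.le l5 2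
  have h5 : (0.4112375 / 1.8225 : ℝ) ≤ 0.225645 := by norm_num
  have h6 : (0.56 / 1.35 : ℝ) ≤ 0.414815 := by norm_num
  have h7 : 0.4112375 / 1.8225 * Z ^ 2 ≤ 0.225645 * (q + 0.2665) ^ 2 :=
    mul_le_mul h5 h4 (by positivity) (by norm_num)
  have h8 : 0.56 / 1.35 * Z ≤ 0.414815 * (q + 0.2665) :=
    mul_le_mul h6 l5 (by positivity) (by norm_num)
  have h9 : q ^ 2 / 4 ≤ 0.225645 * (q + 0.2665) ^ 2 + 0.414815 * (q + 0.2665) + (x + 2 + 1) / 4 := by
    linarith
  norm_num at l2 l3 h9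
  nlinarith

theorem loc2 {n k a : ℕ} (h : Even (n * k)) (ha : Odd a) (ha3 : 3 ≤ a) {f : ℚ[X]}
    (hf : f * poch (-X : ℚ[X]) k = num n k a) {t : ℝ} (ht : 0 < t) (hk : 560 < k)
    (hmu : (k / (2 * Real.log k)) ^ 2 ≤ mu n k a f t) : DOM k t := by
  refine loc4 h ha ha3 hf ht hk (le_trans ?_ hmu)
  have hkr : (561 : ℝ) ≤ k := by exact_mod_cast hk
  have hcast : ((k - 2 : ℕ) : ℝ) = (k : ℝ) - 2 := by
    rw [Nat.cast_sub (by omega)]; norm_num
  rw [hcast]
  obtain ⟨l1, l2, l3, l4, l5⟩ := xlog (x := (k : ℝ) - 2) (by linarith)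
  rw [sub_add_cancel] at l4
  have hLp : 0 < Real.log ((k : ℝ) - 2) := by norm_num at l1; linarith
  refine pow_le_pow_left₀ (by have : (0 : ℝ) ≤ (k : ℝ) - 2 := by linarith
                              positivity) ?_ 2
  have e1 : ((k : ℝ) - 2) / (2 * Real.log ((k : ℝ) - 2)) =
      ((k : ℝ) - 2) / Real.log ((k : ℝ) - 2) / 2 := by
    field_simp
  have e2 : (k : ℝ) / (2 * Real.log k) = (k : ℝ) / Real.log k / 2 := by
    have : Real.log k ≠ 0 := (Real.log_pos (by linarith)).ne'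
    field_simp
  rw [e1, e2]
  linarith

theorem loc3 {n k a : ℕ} (h : Even (n * k)) (ha : Odd a) (ha3 : 3 ≤ a) {f : ℚ[X]}
    (hf : f * poch (-X : ℚ[X]) k = num n k a) {t : ℝ} (ht : 0 < t) (hk : 560 < k)
    (hmu : mu n k a f t ≤ (k / (2 * Real.log k)) ^ 2) : Real.log k / k ≤ t := by
  by_contra hcon
  push Not at hcon
  have hkr : (561 : ℝ) ≤ k := by exact_mod_cast hk
  have hLk : 0 < Real.log k := Real.log_pos (by linarith)
  set s : ℝ := Real.log k / k with hs
  have hs0 : 0 < s := by positivity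
  have hk0 : (0 : ℝ) < k := by linarith
  have hs1 : s ≤ 0.01132 := by
    have hexp1 : Real.exp 1 ≤ 559 := by
      have := Real.exp_one_lt_d9
      linarith
    have h1 := Real.log_div_self_antitoneOn (show (559 : ℝ) ∈ Set.Ici (Real.exp 1) from hexp1)
      (show (k : ℝ) ∈ Set.Ici (Real.exp 1) from hexp1.trans (by linarith)) (by linarith)
    simp only at h1
    refine h1.trans ?_
    rw [div_le_iff₀ (by norm_num)]
    have := log559.2
    norm_num at this ⊢
    linarith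
  have h1 := mu_antitone h ha ha3 (by omega) f ht hcon.le (hs1.trans (by norm_num))
  have h2 : mu n k a f s ≤ 1 / (4 * s ^ 2) := by
    refine (h1.trans hmu).trans (le_of_eq ?_)
    rw [hs]
    field_simp
    ring
  -- the error term
  have hA : (((k / 2 : ℕ) : ℝ) + 1) * Real.exp (-(4 * (((k / 2 : ℕ) : ℝ) * s))) ≤ 0.0036 := by
    have h3 : (k : ℝ) - 1 ≤ 2 * ((k / 2 : ℕ) : ℝ) := by
      have : k ≤ 2 * (k / 2) + 1 := by omega
      have : (k : ℝ) ≤ 2 * ((k / 2 : ℕ) : ℝ) + 1 := by exact_mod_cast this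
      linarith
    have h3' : 2 * ((k / 2 : ℕ) : ℝ) ≤ k := by
      have : 2 * (k / 2) ≤ k := by omega
      exact_mod_cast this
    have hks : (k : ℝ) * s = Real.log k := by rw [hs]; field_simp
    have h4 : Real.exp (-(4 * (((k / 2 : ℕ) : ℝ) * s))) ≤ 2 / (k : ℝ) ^ 2 := by
      have h5 : -(4 * (((k / 2 : ℕ) : ℝ) * s)) ≤ -(2 * Real.log k) + 2 * s := by
        rw [← hks]
        nlinarith
      have h6 : Real.exp (-(2 * Real.log k) + 2 * s) = Real.exp (2 * s) / (k : ℝ) ^ 2 := by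
        rw [Real.exp_add, Real.exp_neg, mul_comm 2 (Real.log k), Real.exp_mul, Real.exp_log hk0]
        have : (k : ℝ) ^ (2 : ℝ) = (k : ℝ) ^ (2 : ℕ) := by norm_cast
        rw [this]
        field_simp
      refine (Real.exp_le_exp.2 h5).trans ?_
      rw [h6]
      refine div_le_div_of_nonneg_right ?_ (by positivity)
      have h7 : Real.exp (2 * s) ≤ Real.exp (Real.log 2) := by
        rw [Real.exp_le_exp]
        have := Real.log_two_gt_d9
        norm_num at hs1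
        linarith
      rwa [Real.exp_log (by norm_num)] at h7
    have h8 : (((k / 2 : ℕ) : ℝ) + 1) ≤ k := by linarith
    calc (((k / 2 : ℕ) : ℝ) + 1) * Real.exp (-(4 * (((k / 2 : ℕ) : ℝ) * s)))
        ≤ k * (2 / (k : ℝ) ^ 2) := mul_le_mul h8 h4 (Real.exp_pos _).le hk0.le
      _ = 2 / k := by field_simp
      _ ≤ 0.0036 := by
          rw [div_le_iff₀ hk0]
          norm_num
          linarith
  have h3 := mu_ge h ha ha3 hf hs0 (hA.trans (by norm_num))
  set A : ℝ := (((k / 2 : ℕ) : ℝ) + 1) * Real.exp (-(4 * (((k / 2 : ℕ) : ℝ) * s)))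
  have hpi := pi_sq_gt
  have h4 : (1 - A) * (Real.pi ^ 2 / (24 * s)) - Real.pi ^ 2 / (72 * s) =
      (Real.pi ^ 2 / 24 * (2 / 3 - A)) / s := by
    field_simp
    ring
  have h5 : 0.41123 * (2 / 3 - 0.0036) ≤ Real.pi ^ 2 / 24 * (2 / 3 - A) :=
    mul_le_mul (by norm_num at hpi ⊢; linarith) (by linarith) (by norm_num) (by positivity)
  have h6 : s * mu n k a f s ≤ 1 / 4 / s := by
    have := mul_le_mul_of_nonneg_left h2 hs0.le
    refine this.trans (le_of_eq ?_)
    field_simp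
  have h7 : (Real.pi ^ 2 / 24 * (2 / 3 - A)) / s ≤ 1 / 4 / s + 115 / 100 + s / 3 := by
    rw [← h4]; linarith
  have h8 : Real.pi ^ 2 / 24 * (2 / 3 - A) ≤ 1 / 4 + (115 / 100 + s / 3) * s := by
    rw [div_le_iff₀ hs0] at h7
    have h9 : (1 / 4 / s + 115 / 100 + s / 3) * s = 1 / 4 + (115 / 100 + s / 3) * s := by
      field_simp
      ring
    linarith
  norm_num at h5 hs1
  nlinarith

theorem loc : LOC := by
  intro n k a t f h ha ha3 hk ht hf
  exact ⟨loc1 h ha ha3 hk hf ht, fun hk2 => loc2 h ha ha3 hf ht hk2,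
    fun hk2 => loc3 h ha ha3 hf ht hk2, fun hk2 => loc4 h ha ha3 hf ht hk2⟩

end Pool.Agent.SignedQ.An
end
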