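import Pool.Agent.Lib.MP_cf17a0_co.Final

section

/-!
# Small `k`: definitions

`q = X`, `x = -X`, exponents `b_j = a (n + j)`, `1 ≤ j ≤ k`, `K = k / 2`. The indices `1, ..., k` are
divided into `K` blocks; each block contains exactly one `j` with `b_j` even, namely `je n i`.
-/

set_option autoImplicit false

namespace Pool.Agent.SignedQ.Sm

open Finset

/-- The value `1 + r + ... + r ^ (L - 1)` of a box of length `L`. -/
def bv (r : ℚ) (L : ℕ) : ℚ := ∑ i ∈ range L, r ^ i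

/-- The index of the even exponent of the block `i` (`i < k / 2`). -/
def je (n i : ℕ) : ℕ := 2 * i + 2 - n % 2

/-- The block of the index `j`. -/
def bi (n k j : ℕ) : ℕ := min (k / 2 - 1) ((j + n % 2 - 1) / 2)

/-- The block `i`. -/
def Blk (n k i : ℕ) : Finset ℕ := (Icc 1 k).filter fun j => bi n k j = i

/-- The factors of the value of `κ` at `r`. -/
def wk (n a : ℕ) (r : ℚ) (j : ℕ) : ℚ :=
  if Even (n + j) then bv r (a * (n + j)) else 1 + r ^ (a * (n + j))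

/-- The value of `κ` at `r`. -/
def kap (n k a : ℕ) (r : ℚ) : ℚ := ∏ j ∈ Icc 1 k, wk n a r j

/-- The length of the box `i` of `κ₁`. -/
def Ln (n k a i : ℕ) : ℕ := ∑ j ∈ Blk n k i, a * (n + j)

/-- The box polynomial. -/
noncomputable def geo (L : ℕ) : Polynomial ℚ := ∑ i ∈ range L, Polynomial.X ^ i

/-- The factors of `κ`. -/
noncomputable def wkP (n a j : ℕ) : Polynomial ℚ :=
  if Even (n + j) then geo (a * (n + j)) else 1 + Polynomial.X ^ (a * (n + j))

/-- `κ`: boxes for the even exponents, `1 + q ^ b` for the odd ones. -/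
noncomputable def kapP (n k a : ℕ) : Polynomial ℚ := ∏ j ∈ Icc 1 k, wkP n a j

/-- `κ₁`: the product of the merged boxes. -/
noncomputable def kap1 (n k a : ℕ) : Polynomial ℚ := ∏ i ∈ range (k / 2), geo (Ln n k a i)

/-- The constant `C₁`. -/
def C1 (K : ℕ) : ℚ := 4 / 3 * ∏ i ∈ range (K - 1), (1 + 1 / (4 * (i : ℚ) + 3))

/-- The product of the numerator. -/
noncomputable def Pr (n k a : ℕ) : PowerSeries ℚ :=
  ∏ j ∈ Icc 1 k, (1 - (-PowerSeries.X) ^ (a * (n + j)))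

/-- `B` majorizes `f`. -/
def Maj (f : PowerSeries ℚ) (B : Polynomial ℚ) : Prop :=
  ∀ i, |PowerSeries.coeff i f| ≤ B.coeff i

end Pool.Agent.SignedQ.Sm
end

section

/-!
# Majorants and Chernoff bounds
-/

set_option autoImplicit false

namespace Pool.Agent.SignedQ.Sm

open Finset PowerSeries

/-! ### BEGIN M1 -/

/-- TASK M1. The coefficients of a majorant are nonnegative. -/
theorem Maj.nonneg {f : PowerSeries ℚ} {B : Polynomial ℚ} (h : Maj f B) (i : ℕ) : 0 ≤ B.coeff i :=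
  (abs_nonneg _).trans (h i)

/-- TASK M1. -/
theorem Maj.mono {f : PowerSeries ℚ} {B B' : Polynomial ℚ} (h : Maj f B)
    (hB : ∀ i, B.coeff i ≤ B'.coeff i) : Maj f B' :=
  fun i => (h i).trans (hB i)

/-- TASK M1. -/
theorem Maj.one : Maj 1 1 := by
  intro i
  rw [PowerSeries.coeff_one, Polynomial.coeff_one]
  by_cases h : i = 0
  · subst h
    simp
  · simp [h, Ne.symm h]

/-- TASK M1. -/
theorem Maj.add {f g : PowerSeries ℚ} {B B' : Polynomial ℚ} (hf : Maj f B) (hg : Maj g B') :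
    Maj (f + g) (B + B') := by
  intro i
  rw [map_add, Polynomial.coeff_add]
  exact (abs_add_le _ _).trans (add_le_add (hf i) (hg i))

/-- TASK M1. -/
theorem Maj.neg {f : PowerSeries ℚ} {B : Polynomial ℚ} (hf : Maj f B) : Maj (-f) B := by
  intro i
  rw [map_neg, abs_neg]
  exact hf i

/-- TASK M1. `PowerSeries.coeff_mul`, `Polynomial.coeff_mul`, `abs_sum_le_sum_abs`. -/
theorem Maj.mul {f g : PowerSeries ℚ} {B B' : Polynomial ℚ} (hf : Maj f B) (hg : Maj g B') :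
    Maj (f * g) (B * B') := by
  intro i
  rw [PowerSeries.coeff_mul, Polynomial.coeff_mul]
  refine (Finset.abs_sum_le_sum_abs _ _).trans (Finset.sum_le_sum fun p _ => ?_)
  rw [abs_mul]
  exact mul_le_mul (hf p.1) (hg p.2) (abs_nonneg _) (hf.nonneg p.1)

/-- TASK M1. -/
theorem Maj.pow {f : PowerSeries ℚ} {B : Polynomial ℚ} (hf : Maj f B) (n : ℕ) :
    Maj (f ^ n) (B ^ n) := by
  induction n with
  | zero =>
    rw [pow_zero, pow_zero]
    exact Maj.one
  | succ n ih =>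
    rw [pow_succ, pow_succ]
    exact ih.mul hf

/-- TASK M1. Induction on `s`. -/
theorem Maj.prod {ι : Type} (s : Finset ι) (f : ι → PowerSeries ℚ) (B : ι → Polynomial ℚ)
    (h : ∀ i ∈ s, Maj (f i) (B i)) : Maj (∏ i ∈ s, f i) (∏ i ∈ s, B i) := by
  classical
  induction s using Finset.induction_on with
  | empty =>
    rw [Finset.prod_empty, Finset.prod_empty]
    exact Maj.one
  | insert a s ha ih =>
    rw [Finset.prod_insert ha, Finset.prod_insert ha]
    exact (h a (Finset.mem_insert_self a s)).mul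
      (ih fun i hi => h i (Finset.mem_insert_of_mem hi))

/-- TASK M1. -/
theorem Maj.sum {ι : Type} (s : Finset ι) (f : ι → PowerSeries ℚ) (B : ι → Polynomial ℚ)
    (h : ∀ i ∈ s, Maj (f i) (B i)) : Maj (∑ i ∈ s, f i) (∑ i ∈ s, B i) := by
  classical
  induction s using Finset.induction_on with
  | empty =>
    rw [Finset.sum_empty, Finset.sum_empty]
    intro i
    simp
  | insert a s ha ih =>
    rw [Finset.sum_insert ha, Finset.sum_insert ha]
    exact (h a (Finset.mem_insert_self a s)).add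
      (ih fun i hi => h i (Finset.mem_insert_of_mem hi))

/-- TASK M1. -/
theorem Maj.X : Maj PowerSeries.X Polynomial.X := by
  intro i
  rw [PowerSeries.coeff_X, Polynomial.coeff_X]
  by_cases h : i = 1
  · subst h
    simp
  · simp [h, Ne.symm h]

/-- TASK M1. -/
theorem Maj.C (c : ℚ) : Maj (PowerSeries.C c) (Polynomial.C |c|) := by
  intro i
  rw [PowerSeries.coeff_C, Polynomial.coeff_C]
  by_cases h : i = 0
  · simp [h]
  · simp [h]

/-- TASK M1. -/
theorem Maj.factor (b : ℕ) : Maj (1 - (-PowerSeries.X) ^ b) (1 + Polynomial.X ^ b) := by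
  rw [sub_eq_add_neg]
  exact Maj.one.add (Maj.X.neg.pow b).neg

/-- TASK M1. From `Maj.X`, `Maj.neg`, `Maj.pow`, `Maj.sum`. -/
theorem Maj.geo (d L : ℕ) : Maj (∑ i ∈ range L, ((-PowerSeries.X) ^ d) ^ i)
    (∑ i ∈ range L, (Polynomial.X ^ d) ^ i) :=
  Maj.sum _ _ _ fun i _ => (Maj.X.neg.pow d).pow i

/-- TASK M1. -/
theorem Maj.geo' (L : ℕ) : Maj (∑ i ∈ range L, PowerSeries.X ^ i) (Sm.geo L) := by
  unfold Sm.geo
  exact Maj.sum _ _ _ fun i _ => Maj.X.pow i

/-! ### END M1 -/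

/-! ### BEGIN M2 -/

/-- TASK M2. **Chernoff bound.** `eval r B = ∑ i ∈ range (natDegree + 1), coeff i * r ^ i`
(`Polynomial.eval_eq_sum_range`); all terms are nonnegative. -/
theorem chern {f : PowerSeries ℚ} {B : Polynomial ℚ} (h : Maj f B) {r : ℚ} (hr : 0 ≤ r) (i : ℕ) :
    |coeff i f| * r ^ i ≤ B.eval r := by
  have h0 : ∀ j, 0 ≤ B.coeff j * r ^ j := fun j => mul_nonneg (h.nonneg j) (pow_nonneg hr j)
  have h1 : |coeff i f| * r ^ i ≤ B.coeff i * r ^ i :=
    mul_le_mul_of_nonneg_right (h i) (pow_nonneg hr i)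
  refine h1.trans ?_
  rw [Polynomial.eval_eq_sum_range' (n := max (B.natDegree + 1) (i + 1)) (by omega)]
  exact Finset.single_le_sum (f := fun j => B.coeff j * r ^ j) (fun j _ => h0 j)
    (Finset.mem_range.2 (by omega))

/-- TASK M2. **One factor is bounded by its sup norm.** `coeff i (A * f)` is a sum over the
antidiagonal, `|coeff u A * coeff v f| * r ^ i ≤ s * B.coeff v * r ^ v` as `r ^ i ≤ r ^ v`; the sum
over the antidiagonal is a sum over `v ∈ range (i + 1)`, and it is `≤ s * eval r B`. -/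
theorem sup_bound {A f : PowerSeries ℚ} {B : Polynomial ℚ} {s : ℚ} (hs : 0 ≤ s)
    (hA : ∀ u, |coeff u A| ≤ s) (h : Maj f B) {r : ℚ} (hr : 0 < r) (hr1 : r ≤ 1) (i : ℕ) :
    |coeff i (A * f)| * r ^ i ≤ s * B.eval r := by
  have h0 : ∀ j, 0 ≤ B.coeff j * r ^ j := fun j => mul_nonneg (h.nonneg j) (pow_nonneg hr.le j)
  have h1 : |coeff i (A * f)| * r ^ i ≤
      ∑ q ∈ Finset.HasAntidiagonal.antidiagonal i, s * (B.coeff q.2 * r ^ q.2) := by
    rw [coeff_mul]
    calc |∑ q ∈ Finset.HasAntidiagonal.antidiagonal i, coeff q.1 A * coeff q.2 f| * r ^ i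
        ≤ (∑ q ∈ Finset.HasAntidiagonal.antidiagonal i, |coeff q.1 A * coeff q.2 f|) * r ^ i :=
          mul_le_mul_of_nonneg_right (Finset.abs_sum_le_sum_abs _ _) (pow_nonneg hr.le i)
      _ = ∑ q ∈ Finset.HasAntidiagonal.antidiagonal i, |coeff q.1 A * coeff q.2 f| * r ^ i := by
          rw [Finset.sum_mul]
      _ ≤ _ := by
          apply Finset.sum_le_sum
          intro q hq
          have hq' : q.1 + q.2 = i := Finset.HasAntidiagonal.mem_antidiagonal.1 hq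
          rw [abs_mul]
          have h2 : |coeff q.1 A| * |coeff q.2 f| ≤ s * B.coeff q.2 :=
            mul_le_mul (hA _) (h _) (abs_nonneg _) hs
          have h3 : r ^ i ≤ r ^ q.2 := pow_le_pow_of_le_one hr.le hr1 (by omega)
          calc |coeff q.1 A| * |coeff q.2 f| * r ^ i ≤ s * B.coeff q.2 * r ^ q.2 :=
                mul_le_mul h2 h3 (pow_nonneg hr.le i) (mul_nonneg hs (h.nonneg _))
            _ = _ := by ring
  refine h1.trans ?_
  rw [← Finset.mul_sum]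
  apply mul_le_mul_of_nonneg_left _ hs
  have h4 : ∑ q ∈ Finset.HasAntidiagonal.antidiagonal i, B.coeff q.2 * r ^ q.2 =
      ∑ v ∈ range (i + 1), B.coeff v * r ^ v := by
    rw [← Finset.Nat.sum_antidiagonal_swap]
    exact Finset.Nat.sum_antidiagonal_eq_sum_range_succ_mk (fun q => B.coeff q.1 * r ^ q.1) i
  rw [h4, Polynomial.eval_eq_sum_range' (n := max (B.natDegree + 1) (i + 1)) (by omega)]
  exact Finset.sum_le_sum_of_subset_of_nonneg (Finset.range_mono (by omega)) fun j _ _ => h0 j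

/-- TASK M2. The coefficients of a box in `q` or in `x ^ d` are `0` or `± 1`. -/
theorem coeff_geo_le (L u : ℕ) : |coeff u (∑ i ∈ range L, (X : PowerSeries ℚ) ^ i)| ≤ 1 := by
  rw [map_sum]
  simp only [coeff_X_pow]
  rw [Finset.sum_ite_eq]
  split_ifs <;> norm_num

/-- TASK M2. -/
theorem coeff_geo_neg_le (L u : ℕ) : |coeff u (∑ i ∈ range L, (-X : PowerSeries ℚ) ^ i)| ≤ 1 := by
  rw [map_sum]
  have h1 : ∀ i ∈ range L, coeff u ((-X : PowerSeries ℚ) ^ i) =
      if u = i then (-1) ^ i else 0 := by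
    intro i _
    have h2 : (-X : PowerSeries ℚ) ^ i = PowerSeries.C ((-1) ^ i) * X ^ i := by
      rw [neg_pow, map_pow, map_neg, map_one]
    rw [h2, coeff_C_mul, coeff_X_pow]
    split_ifs <;> simp
  rw [Finset.sum_congr rfl h1, Finset.sum_ite_eq]
  split_ifs
  · rw [abs_pow]; simp
  · simp

/-- TASK M2. A polynomial `N(x) = ∑ i < d, N_i x ^ i` of degree `< d` times a box in `x ^ d`: the
exponents `i + d t` are different, so every coefficient is `0` or `± N_i`. -/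
theorem coeff_N_geo_le (d L : ℕ) (hd : 1 ≤ d) (N : ℕ → ℚ) (s : ℚ) (hs : 0 ≤ s)
    (hN : ∀ i < d, |N i| ≤ s) (u : ℕ) :
    |coeff u ((∑ i ∈ range d, PowerSeries.C (N i) * (-X : PowerSeries ℚ) ^ i) *
      ∑ t ∈ range L, ((-X) ^ d) ^ t)| ≤ s := by
  have h1 : (∑ i ∈ range d, PowerSeries.C (N i) * (-X : PowerSeries ℚ) ^ i) *
      ∑ t ∈ range L, ((-X) ^ d) ^ t =
      ∑ i ∈ range d, ∑ t ∈ range L, PowerSeries.C (N i * (-1) ^ (i + d * t)) *
        (X : PowerSeries ℚ) ^ (i + d * t) := by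
    rw [Finset.sum_mul_sum]
    apply Finset.sum_congr rfl
    intro i _
    apply Finset.sum_congr rfl
    intro t _
    have h2 : (-X : PowerSeries ℚ) ^ (i + d * t) =
        PowerSeries.C ((-1) ^ (i + d * t)) * X ^ (i + d * t) := by
      rw [neg_pow, map_pow, map_neg, map_one]
    rw [map_mul, mul_assoc, mul_assoc, ← pow_mul, ← pow_add, h2]
  rw [h1, map_sum]
  simp only [map_sum, coeff_C_mul, coeff_X_pow]
  have h3 : |∑ i ∈ range d, ∑ t ∈ range L,
      N i * (-1) ^ (i + d * t) * (if u = i + d * t then (1 : ℚ) else 0)| ≤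
      ∑ i ∈ range d, ∑ t ∈ range L, (if u = i + d * t then s else 0) := by
    refine (Finset.abs_sum_le_sum_abs _ _).trans (Finset.sum_le_sum fun i hi => ?_)
    refine (Finset.abs_sum_le_sum_abs _ _).trans (Finset.sum_le_sum fun t _ => ?_)
    split_ifs with h
    · rw [mul_one, abs_mul, abs_pow]
      simpa using hN i (Finset.mem_range.1 hi)
    · simp
  refine h3.trans ?_
  rw [Finset.sum_eq_single (u % d)]
  · by_cases hu : ∃ t ∈ range L, u = u % d + d * t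
    · obtain ⟨t, ht, hut⟩ := hu
      rw [Finset.sum_eq_single t]
      · rw [if_pos hut]
      · intro t' _ hne
        rw [if_neg]
        intro h
        apply hne
        have : d * t' = d * t := by omega
        exact Nat.eq_of_mul_eq_mul_left (by omega) this
      · intro h
        exact absurd ht h
    · push Not at hu
      rw [Finset.sum_eq_zero]
      · exact hs
      · intro t ht
        rw [if_neg (hu t ht)]
  · intro i hi hne
    apply Finset.sum_eq_zero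
    intro t _
    rw [if_neg]
    intro h
    apply hne
    rw [h, Nat.add_mul_mod_self_left, Nat.mod_eq_of_lt (Finset.mem_range.1 hi)]
  · intro h
    exact absurd (Finset.mem_range.2 (Nat.mod_lt u (by omega))) h

/-! ### END M2 -/

end Pool.Agent.SignedQ.Sm
end

section

/-!
# Values of boxes
-/

set_option autoImplicit false

namespace Pool.Agent.SignedQ.Sm

open Finset

/-! ### BEGIN B1 -/

/-- TASK B1. -/
theorem bv_pos {r : ℚ} (hr : 0 < r) {L : ℕ} (hL : 1 ≤ L) : 0 < bv r L := by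
  unfold bv
  exact Finset.sum_pos (fun i _ => pow_pos hr i) ⟨0, Finset.mem_range.2 hL⟩

/-- TASK B1. -/
theorem bv_nonneg {r : ℚ} (hr : 0 ≤ r) (L : ℕ) : 0 ≤ bv r L := by
  unfold bv
  exact Finset.sum_nonneg fun i _ => pow_nonneg hr i

/-- TASK B1. -/
theorem bv_mono {r : ℚ} (hr : 0 ≤ r) {L L' : ℕ} (h : L ≤ L') : bv r L ≤ bv r L' := by
  unfold bv
  exact Finset.sum_le_sum_of_subset_of_nonneg (Finset.range_mono h) fun i _ _ => pow_nonneg hr i

/-- TASK B1. `geom_sum`. -/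
theorem bv_mul (r : ℚ) (L : ℕ) : bv r L * (1 - r) = 1 - r ^ L := by
  unfold bv
  exact geom_sum_mul_neg r L

/-- TASK B1. `Finset.sum_range_add`-like. -/
theorem bv_add (r : ℚ) (L M : ℕ) : bv r (L + M) = bv r L + r ^ L * bv r M := by
  unfold bv
  rw [Finset.sum_range_add, Finset.mul_sum]
  congr 1
  exact Finset.sum_congr rfl fun i _ => pow_add r L i

/-- TASK B1. Every term is at least `r ^ L`. -/
theorem mul_pow_le_bv {r : ℚ} (hr : 0 ≤ r) (hr1 : r ≤ 1) (L : ℕ) : (L : ℚ) * r ^ L ≤ bv r L := by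
  unfold bv
  have h := Finset.card_nsmul_le_sum (Finset.range L) (fun i => r ^ i) (r ^ L) fun i hi =>
    pow_le_pow_of_le_one hr hr1 (Finset.mem_range.1 hi).le
  rwa [Finset.card_range, nsmul_eq_mul] at h

/-- TASK B1. Every term is at least `r ^ (L - 1)`. -/
theorem mul_pow_pred_le_bv {r : ℚ} (hr : 0 ≤ r) (hr1 : r ≤ 1) (L : ℕ) :
    (L : ℚ) * r ^ (L - 1) ≤ bv r L := by
  unfold bv
  have h := Finset.card_nsmul_le_sum (Finset.range L) (fun i => r ^ i) (r ^ (L - 1)) fun i hi =>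
    pow_le_pow_of_le_one hr hr1 (by have := Finset.mem_range.1 hi; omega)
  rwa [Finset.card_range, nsmul_eq_mul] at h

/-- TASK B1. `(1 - r + 1 / L) * bv = 1 - r ^ L + bv / L` and `mul_pow_le_bv`. -/
theorem one_le_bv {r : ℚ} (hr : 0 ≤ r) (hr1 : r ≤ 1) {L : ℕ} (hL : 1 ≤ L) :
    1 ≤ (1 - r + 1 / (L : ℚ)) * bv r L := by
  have hL' : (0 : ℚ) < L := by exact_mod_cast hL
  have h1 := bv_mul r L
  have h2 : r ^ L ≤ 1 / (L : ℚ) * bv r L := by
    rw [one_div, inv_mul_eq_div, le_div_iff₀ hL', mul_comm]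
    exact mul_pow_le_bv hr hr1 L
  have h3 : (1 - r + 1 / (L : ℚ)) * bv r L = bv r L * (1 - r) + 1 / (L : ℚ) * bv r L := by ring
  rw [h3, h1]
  linarith

/-- TASK B1. `(1 - r + 2 / L) * bv = 1 - r ^ L + 2 bv / L ≥ 1 + r ^ L`. -/
theorem crude_le {r : ℚ} (hr : 0 ≤ r) (hr1 : r ≤ 1) {L : ℕ} (hL : 1 ≤ L) :
    1 + r ^ L ≤ (1 - r + 2 / (L : ℚ)) * bv r L := by
  have hL' : (0 : ℚ) < L := by exact_mod_cast hL
  have h1 := bv_mul r L
  have h2 : r ^ L ≤ 1 / (L : ℚ) * bv r L := by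
    rw [one_div, inv_mul_eq_div, le_div_iff₀ hL', mul_comm]
    exact mul_pow_le_bv hr hr1 L
  have h3 : (1 - r + 2 / (L : ℚ)) * bv r L = bv r L * (1 - r) + 2 * (1 / (L : ℚ) * bv r L) := by ring
  rw [h3, h1]
  linarith

/-- TASK B1. Induction on `c`, `bv_add`. -/
theorem bv_mul_geom (r : ℚ) (d c : ℕ) : bv r (d * c) = bv r d * ∑ i ∈ range c, (r ^ d) ^ i := by
  induction c with
  | zero => simp [bv]
  | succ c ih =>
    rw [Finset.sum_range_succ, Nat.mul_succ, bv_add, ih, pow_mul]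
    ring

/-! ### END B1 -/

/-! ### BEGIN B2 -/

/-- TASK B2. Induction on `N`: `∑_{i < 2 N + 1} p ^ i = 1 + p * ∑_{i < 2 N - 1} p ^ i + p ^ (2 N)`
and `1 + p ^ (2 N) ≥ 2 p ^ N`. -/
theorem mid_le {p : ℚ} (hp : 0 ≤ p) {N : ℕ} (hN : 1 ≤ N) :
    (2 * (N : ℚ) - 1) * p ^ (N - 1) ≤ ∑ i ∈ range (2 * N - 1), p ^ i := by
  induction N, hN using Nat.le_induction with
  | base => norm_num
  | succ N hN ih =>
    obtain ⟨M, rfl⟩ : ∃ M, N = M + 1 := ⟨N - 1, by omega⟩
    have e1 : 2 * (M + 1 + 1) - 1 = (2 * (M + 1) - 1) + 1 + 1 := by omega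
    rw [e1, Finset.sum_range_succ, Finset.sum_range_succ']
    have e2 : ∑ k ∈ range (2 * (M + 1) - 1), p ^ (k + 1) =
        p * ∑ i ∈ range (2 * (M + 1) - 1), p ^ i := by
      rw [Finset.mul_sum]
      exact Finset.sum_congr rfl fun i _ => by ring
    rw [e2]
    have h1 := mul_le_mul_of_nonneg_left ih hp
    have e3 : 2 * (M + 1) - 1 + 1 = 2 * (M + 1) := by omega
    rw [e3]
    have h2 : 2 * p ^ (M + 1) ≤ 1 + p ^ (2 * (M + 1)) := by
      have h3 := sq_nonneg (1 - p ^ (M + 1))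
      have h4 : p ^ (2 * (M + 1)) = p ^ (M + 1) * p ^ (M + 1) := by rw [← pow_add]; congr 1; ring
      rw [h4]
      nlinarith
    have e4 : M + 1 - 1 = M := by omega
    have e5 : M + 1 + 1 - 1 = M + 1 := by omega
    rw [e4] at h1
    rw [e5, pow_zero]
    push_cast at h1 ⊢
    have e6 : p * ((2 * ((M : ℚ) + 1) - 1) * p ^ M) = (2 * ((M : ℚ) + 1) - 1) * p ^ (M + 1) := by
      ring
    rw [e6] at h1
    linarith

/-- TASK B2. The ratio for a pair: `o = a (N - 1)`, `e = a N`. By `bv_add`: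
`bv e (1 + r ^ o) = bv (o + e) + r ^ o bv (e - o)` with `e - o = a`, and `o + e = a (2 N - 1)`,
`bv (a (2 N - 1)) = bv a * ∑_{i < 2N-1} (r ^ a) ^ i` (`bv_mul_geom`), `mid_le` with `p = r ^ a`. -/
theorem pair_ratio {r : ℚ} (hr : 0 ≤ r) {a N : ℕ} (hN : 1 ≤ N) :
    bv r (a * N) * (1 + r ^ (a * (N - 1))) ≤
      (1 + 1 / (2 * (N : ℚ) - 1)) * bv r (a * (N - 1) + a * N) := by
  obtain ⟨M, rfl⟩ : ∃ M, N = M + 1 := ⟨N - 1, by omega⟩
  have e1 : M + 1 - 1 = M := by omega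
  rw [e1]
  have h1 : bv r (a * M + a * (M + 1)) = bv r (a * (M + 1)) + r ^ (a * (M + 1)) * bv r (a * M) := by
    rw [add_comm, bv_add]
  have h2 : bv r (a * (M + 1)) = bv r (a * M) + r ^ (a * M) * bv r a := by
    rw [Nat.mul_succ, bv_add]
  have h3 : a * M + a * (M + 1) = a * (2 * (M + 1) - 1) := by
    rw [← mul_add]; congr 1; omega
  have h4 := mid_le (p := r ^ a) (pow_nonneg hr a) (N := M + 1) (by omega)
  rw [e1] at h4
  have h5 : bv r (a * M + a * (M + 1)) = bv r a * ∑ i ∈ range (2 * (M + 1) - 1), (r ^ a) ^ i := by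
    rw [h3, bv_mul_geom]
  have hba := bv_nonneg hr a
  have h6 := mul_le_mul_of_nonneg_left h4 hba
  rw [← h5, ← pow_mul] at h6
  have hM : (0 : ℚ) < 2 * ((M + 1 : ℕ) : ℚ) - 1 := by push_cast; have := Nat.cast_nonneg (α := ℚ) M; linarith
  have h7 : bv r a * r ^ (a * M) ≤
      1 / (2 * ((M + 1 : ℕ) : ℚ) - 1) * bv r (a * M + a * (M + 1)) := by
    rw [one_div, inv_mul_eq_div, le_div_iff₀ hM]
    calc _ = bv r a * ((2 * ((M + 1 : ℕ) : ℚ) - 1) * r ^ (a * M)) := by ring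
      _ ≤ _ := h6
  have h8 : bv r (a * (M + 1)) * (1 + r ^ (a * M)) =
      bv r (a * M + a * (M + 1)) + r ^ (a * M) * bv r a := by
    rw [h1, h2, Nat.mul_succ, pow_add]
    have h9 := bv_mul r (a * M)
    have h10 := bv_mul r a
    -- commutativity of boxes
    have h11 : bv r (a * M) + r ^ (a * M) * bv r a = bv r a + r ^ a * bv r (a * M) := by
      rw [← bv_add, ← bv_add, add_comm]
    linear_combination (r ^ (a * M)) * h11
  rw [h8]
  have e7 : (1 + 1 / (2 * ((M + 1 : ℕ) : ℚ) - 1)) * bv r (a * M + a * (M + 1)) =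
      bv r (a * M + a * (M + 1)) +
        1 / (2 * ((M + 1 : ℕ) : ℚ) - 1) * bv r (a * M + a * (M + 1)) := by ring
  rw [e7, mul_comm (r ^ (a * M))]
  linarith

/-- TASK B2. Bernoulli's inequality: `N p ^ (N - 1) ≤ (N - 1) p ^ N + 1` for `p ≥ 0`; for example by
induction, or from `one_add_mul_le_pow` for `1 / p`. -/
theorem ag_left {p : ℚ} (hp : 0 ≤ p) {N : ℕ} (hN : 1 ≤ N) :
    (N : ℚ) * p ^ (N - 1) ≤ ((N : ℚ) - 1) * p ^ N + 1 := by
  induction N, hN using Nat.le_induction with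
  | base => simp
  | succ N hN ih =>
    obtain ⟨M, rfl⟩ : ∃ M, N = M + 1 := ⟨N - 1, by omega⟩
    have e4 : M + 1 - 1 = M := by omega
    have e5 : M + 1 + 1 - 1 = M + 1 := by omega
    rw [e4] at ih
    rw [e5]
    push_cast at ih ⊢
    -- ih : (M + 1) p ^ M ≤ M p ^ (M + 1) + 1; goal (M + 2) p ^ (M + 1) ≤ (M + 1) p ^ (M + 2) + 1
    have h1 := mul_le_mul_of_nonneg_left ih hp
    have hM : (0 : ℚ) ≤ M := Nat.cast_nonneg M
    have h3 : 0 ≤ ((M : ℚ) + 1) * p ^ M * (1 - p) ^ 2 := by positivity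
    have h4 : 0 ≤ (p ^ (M + 1) - 1) * (p - 1) := by
      rcases le_total 1 p with h | h
      · exact mul_nonneg (sub_nonneg.2 (one_le_pow₀ h)) (sub_nonneg.2 h)
      · exact mul_nonneg_of_nonpos_of_nonpos (sub_nonpos.2 (pow_le_one₀ hp h)) (sub_nonpos.2 h)
    have e6 : p ^ (M + 1) = p * p ^ M := by ring
    have e7 : p ^ (M + 1 + 1) = p * (p * p ^ M) := by ring
    rw [e6] at ih h1 h4 ⊢
    rw [e7]
    nlinarith

/-- TASK B2. `N p ≤ (N - 1) + p ^ N` (`one_add_mul_le_pow` for `p - 1 ≥ -2`), times `p ^ N`. -/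
theorem ag_right {p : ℚ} (hp : 0 ≤ p) (N : ℕ) :
    (N : ℚ) * p ^ (N + 1) ≤ ((N : ℚ) - 1) * p ^ N + p ^ (2 * N) := by
  have h1 : (N : ℚ) * p ≤ ((N : ℚ) - 1) + p ^ N := by
    have h2 := one_add_mul_le_pow (a := p - 1) (by linarith) N
    have e : 1 + (p - 1) = p := by ring
    rw [e] at h2
    linarith
  have h2 := mul_le_mul_of_nonneg_right h1 (pow_nonneg hp N)
  have e1 : p ^ (2 * N) = p ^ N * p ^ N := by rw [← pow_add]; congr 1; ring
  rw [e1, pow_succ]
  linarith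

/-- TASK B2. The ratio for a triple `o = a (N - 1)`, `e = a N`, `o' = a (N + 1)`. With `p = r ^ a`,
`y = p ^ N`: `bv (3 e) = bv e * (1 + y + y ^ 2)` (`bv_mul_geom`), and
`(1 + p ^ (N - 1)) (1 + p ^ (N + 1)) = 1 + p ^ (N-1) + p ^ (N+1) + y ^ 2 ≤ 4/3 (1 + y + y ^ 2)`: by
`ag_left`, `ag_right` `N (p ^ (N-1) + p ^ (N+1)) ≤ 2 (N - 1) y + 1 + y ^ 2`, and
`3 (2 (N-1) y + 1 + y ^ 2) ≤ N (1 + 4 y + y ^ 2)` as `(N - 3) (1 - y) ^ 2 ≥ 0`. -/
theorem triple_ratio {r : ℚ} (hr : 0 ≤ r) {a N : ℕ} (hN : 3 ≤ N) :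
    bv r (a * N) * (1 + r ^ (a * (N - 1))) * (1 + r ^ (a * (N + 1))) ≤
      4 / 3 * bv r (a * (N - 1) + a * N + a * (N + 1)) := by
  obtain ⟨M, rfl⟩ : ∃ M, N = M + 3 := ⟨N - 3, by omega⟩
  have e0 : M + 3 - 1 = M + 2 := by omega
  rw [e0]
  set p := r ^ a with hp
  have hp0 : 0 ≤ p := pow_nonneg hr a
  have e1 : r ^ (a * (M + 2)) = p ^ (M + 2) := by rw [hp, ← pow_mul]
  have e2 : r ^ (a * (M + 3 + 1)) = p ^ (M + 4) := by rw [hp, ← pow_mul]
  have e3 : a * (M + 2) + a * (M + 3) + a * (M + 3 + 1) = (a * (M + 3)) * 3 := by ring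
  have e4 : bv r (a * (M + 2) + a * (M + 3) + a * (M + 3 + 1)) =
      bv r (a * (M + 3)) * (1 + p ^ (M + 3) + p ^ (M + 3) * p ^ (M + 3)) := by
    rw [e3, bv_mul_geom, Finset.sum_range_succ, Finset.sum_range_succ, Finset.sum_range_one,
      pow_mul, ← hp]
    ring
  rw [e1, e2, e4]
  have h1 := ag_left hp0 (N := M + 3) (by omega)
  have h2 := ag_right hp0 (M + 3)
  rw [e0] at h1
  have e5 : p ^ (2 * (M + 3)) = p ^ (M + 3) * p ^ (M + 3) := by rw [← pow_add]; congr 1; ring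
  rw [e5] at h2
  have e6 : p ^ (M + 2) * p ^ (M + 4) = p ^ (M + 3) * p ^ (M + 3) := by
    rw [← pow_add, ← pow_add]; congr 1; ring
  set y := p ^ (M + 3) with hy
  have hM : (0 : ℚ) ≤ M := Nat.cast_nonneg M
  push_cast at h1 h2
  have h3 : (1 + p ^ (M + 2)) * (1 + p ^ (M + 4)) ≤ 4 / 3 * (1 + y + y * y) := by
    have h4 : (1 + p ^ (M + 2)) * (1 + p ^ (M + 4)) = 1 + p ^ (M + 2) + p ^ (M + 4) + y * y := by
      rw [← e6]; ring
    rw [h4]
    have h5 : 0 ≤ (M : ℚ) * (1 - y) ^ 2 := by positivity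
    have e7 : M + 3 + 1 = M + 4 := by ring
    rw [e7] at h2
    have hM3 : (0 : ℚ) < (M : ℚ) + 3 := by positivity
    have h6 : ((M : ℚ) + 3) * (1 + p ^ (M + 2) + p ^ (M + 4) + y * y) ≤
        ((M : ℚ) + 3) * (4 / 3 * (1 + y + y * y)) := by nlinarith
    exact le_of_mul_le_mul_left h6 hM3
  have hb := bv_nonneg hr (a * (M + 3))
  calc bv r (a * (M + 3)) * (1 + p ^ (M + 2)) * (1 + p ^ (M + 4)) =
        bv r (a * (M + 3)) * ((1 + p ^ (M + 2)) * (1 + p ^ (M + 4))) := by ring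
    _ ≤ bv r (a * (M + 3)) * (4 / 3 * (1 + y + y * y)) := mul_le_mul_of_nonneg_left h3 hb
    _ = _ := by ring

/-- TASK B2. `bv e = bv o + r ^ o bv (e - o)` and `r ^ e ≤ r ^ o`. -/
theorem odd_even_le {r : ℚ} (hr : 0 ≤ r) (hr1 : r ≤ 1) {o e : ℕ} (h : o ≤ e) :
    bv r o * (1 + r ^ e) ≤ bv r e * (1 + r ^ o) := by
  obtain ⟨d, rfl⟩ : ∃ d, e = o + d := ⟨e - o, by omega⟩
  have h1 : bv r (o + d) = bv r o + r ^ o * bv r d := bv_add r o d
  have h2 : r ^ (o + d) ≤ r ^ o := pow_le_pow_of_le_one hr hr1 (by omega)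
  have hbo := bv_nonneg hr o
  have hbd := bv_nonneg hr d
  have hro := pow_nonneg hr o
  calc bv r o * (1 + r ^ (o + d)) ≤ bv r o * (1 + r ^ o) :=
        mul_le_mul_of_nonneg_left (by linarith) hbo
    _ ≤ bv r (o + d) * (1 + r ^ o) := by
        apply mul_le_mul_of_nonneg_right _ (by linarith)
        rw [h1]
        have := mul_nonneg hro hbd
        linarith

/-- TASK B2. `bv o ≤ bv (2 e) = bv e (1 + r ^ e)`, `(1 + r ^ e) ^ 2 ≤ 2 (1 + r ^ (2 e))`,
`r ^ (2 e) ≤ r ^ o`. -/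
theorem odd_even_le' {r : ℚ} (hr : 0 ≤ r) (hr1 : r ≤ 1) {o e : ℕ} (h : o ≤ 2 * e) :
    bv r o * (1 + r ^ e) ≤ 2 * (bv r e * (1 + r ^ o)) := by
  have h1 : bv r (2 * e) = bv r e * (1 + r ^ e) := by
    have : 2 * e = e + e := by ring
    rw [this, bv_add]
    ring
  have h2 : bv r o ≤ bv r e * (1 + r ^ e) := by
    rw [← h1]
    exact bv_mono hr h
  have h3 : r ^ (2 * e) ≤ r ^ o := pow_le_pow_of_le_one hr hr1 h
  have e1 : r ^ (2 * e) = r ^ e * r ^ e := by rw [← pow_add]; congr 1; ring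
  rw [e1] at h3
  have hre := pow_nonneg hr e
  have hbe := bv_nonneg hr e
  calc bv r o * (1 + r ^ e) ≤ bv r e * (1 + r ^ e) * (1 + r ^ e) :=
        mul_le_mul_of_nonneg_right h2 (by linarith)
    _ = bv r e * ((1 + r ^ e) * (1 + r ^ e)) := by ring
    _ ≤ bv r e * (2 * (1 + r ^ o)) := by
        apply mul_le_mul_of_nonneg_left _ hbe
        nlinarith [sq_nonneg (1 - r ^ e)]
    _ = _ := by ring

/-! ### END B2 -/

end Pool.Agent.SignedQ.Sm
end
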