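import Mathlib.Analysis.Complex.ExponentialBounds
import Pool.Agent.Lib.MP_cf17a0_co.Mg.G065
import Pool.Agent.Lib.MP_cf17a0_co.S1.TB

section

/-!
# Products of boxes: log-concavity, growth, tilting, Chebyshev's inequality
(helper33)
-/

set_option autoImplicit false

namespace Pool.Agent.SignedQ.Sm

open Finset

/-! ### BEGIN T1 -/

/-- Coefficients of a product of boxes, integer index. -/
def t1_g (L : ℕ → ℕ) : ℕ → ℤ → ℚ
  | 0, y => if y = 0 then 1 else 0
  | K + 1, y => ∑ i ∈ range (L K), t1_g L K (y - i)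

theorem t1_neg (L : ℕ → ℕ) (K : ℕ) : ∀ y : ℤ, y < 0 → t1_g L K y = 0 := by
  induction K with
  | zero => intro y hy; simp [t1_g, hy.ne]
  | succ K ih =>
    intro y hy
    simp only [t1_g]
    exact sum_eq_zero fun i _ => ih _ (by omega)

theorem t1_coeff (L : ℕ → ℕ) (K : ℕ) : ∀ y : ℕ,
    (∏ i ∈ range K, geo (L i)).coeff y = t1_g L K y := by
  induction K with
  | zero => intro y; simp [t1_g, Polynomial.coeff_one]
  | succ K ih =>
    intro y
    rw [prod_range_succ]
    simp only [t1_g]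
    rw [geo, mul_sum, Polynomial.finsetSum_coeff]
    refine sum_congr rfl fun i _ => ?_
    rw [Polynomial.coeff_mul_X_pow']
    split_ifs with h
    · rw [ih]; congr 1; omega
    · rw [t1_neg]; omega

theorem t1_nonneg (L : ℕ → ℕ) (K : ℕ) : ∀ y : ℤ, 0 ≤ t1_g L K y := by
  induction K with
  | zero => intro y; simp only [t1_g]; split_ifs <;> norm_num
  | succ K ih => intro y; simp only [t1_g]; exact sum_nonneg fun i _ => ih _

/-- Strong log-concavity follows from the adjacent one. -/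
theorem t1_strong (f : ℤ → ℚ) (h : ∀ p q : ℤ, p ≤ q → f p * f (q + 1) ≤ f (p + 1) * f q) :
    ∀ a b c d : ℤ, a ≤ b → a ≤ c → a + d = b + c → f a * f d ≤ f b * f c := by
  have key : ∀ t : ℕ, ∀ a d : ℤ, a + t ≤ d - t → f a * f d ≤ f (a + t) * f (d - t) := by
    intro t
    induction t with
    | zero => intro a d _; simp
    | succ t ih =>
      intro a d hd
      push_cast at hd ⊢
      refine (ih a d (by omega)).trans ?_
      have := h (a + t) (d - t - 1) (by omega)
      have e1 : d - (t : ℤ) - 1 + 1 = d - t := by ring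
      have e2 : a + (t : ℤ) + 1 = a + (t + 1) := by ring
      have e3 : d - (t : ℤ) - 1 = d - (t + 1) := by ring
      rw [e1, e2, e3] at this
      exact this
  intro a b c d hab hac he
  rcases le_total b c with hbc | hbc
  · have := key (b - a).toNat a d (by omega)
    have e1 : a + ((b - a).toNat : ℤ) = b := by omega
    have e2 : d - ((b - a).toNat : ℤ) = c := by omega
    rw [e1, e2] at this
    exact this
  · have := key (c - a).toNat a d (by omega)
    have e1 : a + ((c - a).toNat : ℤ) = c := by omega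
    have e2 : d - ((c - a).toNat : ℤ) = b := by omega
    rw [e1, e2] at this
    rw [mul_comm (f b)]
    exact this

theorem t1_diff (f : ℤ → ℚ) (L : ℕ) (y : ℤ) :
    ∑ i ∈ range L, f (y + 1 - i) = ∑ i ∈ range L, f (y - i) + f (y + 1) - f (y + 1 - L) := by
  induction L with
  | zero => simp
  | succ L ih =>
    rw [sum_range_succ, sum_range_succ, ih]
    push_cast
    have e : y + 1 - ((L : ℤ) + 1) = y - L := by ring
    rw [e]; ring

theorem t1_adj (L : ℕ → ℕ) (K : ℕ) : ∀ p q : ℤ, p ≤ q →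
    t1_g L K p * t1_g L K (q + 1) ≤ t1_g L K (p + 1) * t1_g L K q := by
  induction K with
  | zero =>
    intro p q hpq
    simp only [t1_g]
    by_cases hp : p = 0
    · have : q + 1 ≠ 0 := by omega
      simp [this]
      split_ifs <;> norm_num
    · simp [hp]
      split_ifs <;> norm_num
  | succ K ih =>
    have S := t1_strong _ ih
    intro p q hpq
    simp only [t1_g]
    rw [t1_diff (t1_g L K) (L K) p, t1_diff (t1_g L K) (L K) q]
    have A : t1_g L K (q + 1) * ∑ i ∈ range (L K), t1_g L K (p - i) ≤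
        t1_g L K (p + 1) * ∑ i ∈ range (L K), t1_g L K (q - i) := by
      rw [mul_sum, mul_sum]
      refine sum_le_sum fun i _ => ?_
      rw [mul_comm]
      exact S _ _ _ _ (by omega) (by omega) (by ring)
    have B : t1_g L K (p + 1 - L K) * ∑ i ∈ range (L K), t1_g L K (q - i) ≤
        t1_g L K (q + 1 - L K) * ∑ i ∈ range (L K), t1_g L K (p - i) := by
      rw [mul_sum, mul_sum]
      refine sum_le_sum fun i hi => ?_
      rw [mem_range] at hi
      exact S _ _ _ _ (by omega) (by omega) (by ring)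
    nlinarith [A, B]

theorem t1_growth (L : ℕ → ℕ) (K : ℕ) : ∀ y : ℤ,
    ((y : ℚ) + 1) * t1_g L K (y + 1) ≤ ((y : ℚ) + K) * t1_g L K y := by
  induction K with
  | zero =>
    intro y
    simp only [t1_g]
    by_cases hy : y + 1 = 0
    · have h1 : (y : ℚ) + 1 = 0 := by exact_mod_cast hy
      have h2 : y ≠ 0 := by omega
      simp [h1, h2]
    · by_cases h2 : y = 0
      · simp [h2]
      · simp [hy, h2]
  | succ K ih =>
    intro y
    simp only [t1_g]
    have tel : ∀ M : ℕ, ∑ i ∈ range M, ((i : ℚ) * t1_g L K (y + 1 - i) -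
        ((i : ℚ) + 1) * t1_g L K (y - i)) = -(M : ℚ) * t1_g L K (y + 1 - M) := by
      intro M
      induction M with
      | zero => simp
      | succ M ihM =>
        rw [sum_range_succ, ihM]
        push_cast
        have e : y + 1 - ((M : ℤ) + 1) = y - M := by ring
        rw [e]; ring
    have hle : ∑ i ∈ range (L K), (((y : ℚ) + 1) * t1_g L K (y + 1 - i) -
        ((y : ℚ) + (K + 1)) * t1_g L K (y - i)) ≤
        ∑ i ∈ range (L K), ((i : ℚ) * t1_g L K (y + 1 - i) -
        ((i : ℚ) + 1) * t1_g L K (y - i)) := by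
      refine sum_le_sum fun i _ => ?_
      have := ih (y - i)
      have e : y - (i : ℤ) + 1 = y + 1 - i := by ring
      rw [e] at this
      push_cast at this
      linarith
    rw [tel] at hle
    have h0 : 0 ≤ (L K : ℚ) * t1_g L K (y + 1 - L K) :=
      mul_nonneg (Nat.cast_nonneg _) (t1_nonneg _ _ _)
    rw [sum_sub_distrib, ← mul_sum, ← mul_sum] at hle
    push_cast
    linarith

theorem t1_symm (L : ℕ → ℕ) (K : ℕ) : ∀ y : ℤ,
    t1_g L K (∑ i ∈ range K, ((L i : ℤ) - 1) - y) = t1_g L K y := by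
  induction K with
  | zero =>
    intro y
    simp [t1_g]
  | succ K ih =>
    intro y
    simp only [t1_g]
    rw [← sum_range_reflect]
    refine sum_congr rfl fun i hi => ?_
    rw [mem_range] at hi
    rw [← ih (y - i), sum_range_succ]
    congr 1
    have : ((L K - 1 - i : ℕ) : ℤ) = (L K : ℤ) - 1 - i := by omega
    rw [this]; ring

theorem t1_pos (L : ℕ → ℕ) (K : ℕ) (hL : ∀ i < K, 1 ≤ L i) : ∀ y : ℤ, 0 ≤ y →
    y ≤ ∑ i ∈ range K, ((L i : ℤ) - 1) → 0 < t1_g L K y := by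
  induction K with
  | zero =>
    intro y h0 h1
    simp only [range_zero, sum_empty] at h1
    have : y = 0 := le_antisymm h1 h0
    simp [t1_g, this]
  | succ K ih =>
    intro y h0 h1
    simp only [t1_g]
    rw [sum_range_succ] at h1
    have hLK := hL K (Nat.lt_succ_self K)
    have hD : 0 ≤ ∑ i ∈ range K, ((L i : ℤ) - 1) := by
      refine sum_nonneg fun i hi => ?_
      have := hL i (by rw [mem_range] at hi; omega)
      omega
    set D := ∑ i ∈ range K, ((L i : ℤ) - 1) with hDdef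
    have hi0 : (y - D).toNat < L K := by omega
    refine sum_pos' (fun i _ => t1_nonneg _ _ _) ⟨(y - D).toNat, mem_range.2 hi0, ?_⟩
    refine ih (fun i hi => hL i (by omega)) _ (by omega) (by omega)

theorem t1_deg {K : ℕ} (L : ℕ → ℕ) :
    ∑ i ∈ range K, ((L i : ℤ) - 1) = ((∑ i ∈ range K, L i : ℕ) : ℤ) - K := by
  rw [sum_sub_distrib]; push_cast; simp

theorem t1_up {K : ℕ} (L : ℕ → ℕ) {m : ℕ} (hm2 : 2 * m + 1 + K ≤ ∑ i ∈ range K, L i) :
    t1_g L K m ≤ t1_g L K (m + 1) := by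
  have hD := t1_deg (K := K) L
  set D := ∑ i ∈ range K, ((L i : ℤ) - 1) with hDdef
  have h1 : (2 * m + 1 : ℤ) ≤ D := by rw [hD]; omega
  have h := t1_strong _ (t1_adj L K) m (m + 1) (D - (m + 1)) (D - m) (by omega) (by omega) (by ring)
  rw [hDdef, t1_symm, t1_symm] at h
  exact (mul_self_le_mul_self_iff (t1_nonneg _ _ _) (t1_nonneg _ _ _)).2 h

/-- TASK T1 (helper33). The coefficients increase up to the centre. -/
theorem box_mono {K : ℕ} (L : ℕ → ℕ) (hL : ∀ i < K, 1 ≤ L i) {m : ℕ}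
    (hm2 : 2 * m + 1 + K ≤ ∑ i ∈ range K, L i) :
    (∏ i ∈ range K, geo (L i)).coeff m ≤ (∏ i ∈ range K, geo (L i)).coeff (m + 1) := by
  have _ := hL
  rw [t1_coeff, t1_coeff]
  have := t1_up L hm2
  push_cast
  exact this

/-- `X * P'`. -/
noncomputable def t1_th (P : Polynomial ℚ) : Polynomial ℚ := Polynomial.X * Polynomial.derivative P

theorem t1_coeff_th (P : Polynomial ℚ) (y : ℕ) : (t1_th P).coeff y = y * P.coeff y := by
  rw [t1_th]
  cases y with
  | zero => simp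
  | succ y => rw [Polynomial.coeff_X_mul, Polynomial.coeff_derivative]; push_cast; ring

theorem t1_deg_th (P : Polynomial ℚ) : (t1_th P).natDegree ≤ P.natDegree := by
  rw [Polynomial.natDegree_le_iff_coeff_eq_zero]
  intro y hy
  rw [t1_coeff_th, Polynomial.coeff_eq_zero_of_natDegree_lt hy, mul_zero]

/-- The variance at `r` is at most `v`. -/
def t1_var (P : Polynomial ℚ) (r v : ℚ) : Prop :=
  P.eval r * (t1_th (t1_th P)).eval r - ((t1_th P).eval r) ^ 2 ≤ v * (P.eval r) ^ 2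

theorem t1_th_mul (P Q : Polynomial ℚ) : t1_th (P * Q) = t1_th P * Q + P * t1_th Q := by
  simp only [t1_th, Polynomial.derivative_mul]; ring

theorem t1_th_add (P Q : Polynomial ℚ) : t1_th (P + Q) = t1_th P + t1_th Q := by
  simp only [t1_th, Polynomial.derivative_add]; ring

theorem t1_var_mul {P Q : Polynomial ℚ} {r v w : ℚ} (hP : t1_var P r v) (hQ : t1_var Q r w) :
    t1_var (P * Q) r (v + w) := by
  simp only [t1_var, t1_th_mul, t1_th_add, Polynomial.eval_add, Polynomial.eval_mul] at hP hQ ⊢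
  have h1 := mul_le_mul_of_nonneg_left hP (sq_nonneg (Q.eval r))
  have h2 := mul_le_mul_of_nonneg_left hQ (sq_nonneg (P.eval r))
  nlinarith [h1, h2]

theorem t1_var_prod {K : ℕ} (L : ℕ → ℕ) {r : ℚ} (v : ℕ → ℚ)
    (h : ∀ i < K, t1_var (geo (L i)) r (v i)) :
    t1_var (∏ i ∈ range K, geo (L i)) r (∑ i ∈ range K, v i) := by
  induction K with
  | zero => simp [t1_var, t1_th]
  | succ K ih =>
    rw [prod_range_succ, sum_range_succ]
    exact t1_var_mul (ih fun i hi => h i (by omega)) (h K (Nat.lt_succ_self K))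

theorem t1_eval_geo (r : ℚ) (L : ℕ) : (geo L).eval r = bv r L := by
  simp [geo, bv, Polynomial.eval_finsetSum]

theorem t1_geo_succ (L : ℕ) : geo (L + 1) = geo L + Polynomial.X ^ L := by
  rw [geo, sum_range_succ]; rfl

theorem t1_th_pow (L : ℕ) : t1_th (Polynomial.X ^ L) = Polynomial.C (L : ℚ) * Polynomial.X ^ L := by
  apply Polynomial.ext
  intro y
  rw [t1_coeff_th, Polynomial.coeff_C_mul, Polynomial.coeff_X_pow]
  split_ifs with h
  · rw [h]
  · simp

theorem t1_th_C (c : ℚ) (P : Polynomial ℚ) : t1_th (Polynomial.C c * P) = Polynomial.C c * t1_th P := by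
  simp only [t1_th, Polynomial.derivative_C_mul]; ring

theorem t1_th1 (r : ℚ) (L : ℕ) : (t1_th (geo L)).eval r = ∑ i ∈ range L, (i : ℚ) * r ^ i := by
  induction L with
  | zero => simp [geo, t1_th]
  | succ L ih =>
    rw [t1_geo_succ, t1_th_add, Polynomial.eval_add, ih, sum_range_succ, t1_th_pow]
    simp

theorem t1_th2 (r : ℚ) (L : ℕ) :
    (t1_th (t1_th (geo L))).eval r = ∑ i ∈ range L, (i : ℚ) ^ 2 * r ^ i := by
  induction L with
  | zero => simp [geo, t1_th]
  | succ L ih =>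
    rw [t1_geo_succ, t1_th_add, t1_th_add, Polynomial.eval_add, ih, sum_range_succ, t1_th_pow,
      t1_th_C, t1_th_pow]
    simp [sq, mul_assoc]

theorem t1_var_geo {r : ℚ} (hr : 0 ≤ r) {L : ℕ} (hL : 1 ≤ L) :
    t1_var (geo L) r ((L : ℚ) ^ 2 / 4) := by
  rw [t1_var, t1_eval_geo, t1_th1, t1_th2, bv]
  set m0 := ∑ i ∈ range L, r ^ i with h0
  set m1 := ∑ i ∈ range L, (i : ℚ) * r ^ i with h1
  set m2 := ∑ i ∈ range L, (i : ℚ) ^ 2 * r ^ i with h2
  have m0n : 0 ≤ m0 := sum_nonneg fun i _ => pow_nonneg hr i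
  have hd : 0 ≤ ((L : ℚ) - 1) * m1 - m2 := by
    rw [h1, h2, mul_sum, ← sum_sub_distrib]
    refine sum_nonneg fun i hi => ?_
    rw [mem_range] at hi
    have hi' : (i : ℚ) + 1 ≤ L := by exact_mod_cast hi
    have e : ((L : ℚ) - 1) * (i * r ^ i) - (i : ℚ) ^ 2 * r ^ i = (i * (L - 1 - i)) * r ^ i := by ring
    rw [e]
    exact mul_nonneg (mul_nonneg (Nat.cast_nonneg _) (by linarith)) (pow_nonneg hr i)
  have hL' : (1 : ℚ) ≤ L := by exact_mod_cast hL
  have k1 : m0 * m2 ≤ m0 * (((L : ℚ) - 1) * m1) := mul_le_mul_of_nonneg_left (by linarith) m0n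
  have k2 : (((L : ℚ) - 1) * m0 - 2 * m1) ^ 2 ≥ 0 := sq_nonneg _
  have k3 : 0 ≤ (2 * (L : ℚ) - 1) * m0 ^ 2 := mul_nonneg (by linarith) (sq_nonneg _)
  nlinarith [k1, k2, k3]

theorem t1_var_geo' {r : ℚ} (hr : 0 ≤ r) (hr1 : r < 1) (L : ℕ) :
    t1_var (geo L) r (1 / (1 - r) ^ 2) := by
  rw [t1_var, t1_eval_geo, t1_th1, t1_th2, bv]
  have e0 : ∀ L : ℕ, (1 - r) * ∑ i ∈ range L, r ^ i = 1 - r ^ L := by
    intro L
    induction L with
    | zero => simp
    | succ L ih => rw [sum_range_succ, mul_add, ih]; ring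
  have e1 : ∀ L : ℕ, (1 - r) * ∑ i ∈ range L, (i : ℚ) * r ^ i =
      ∑ i ∈ range L, r ^ i - 1 - ((L : ℚ) - 1) * r ^ L := by
    intro L
    induction L with
    | zero => simp
    | succ L ih => rw [sum_range_succ, mul_add, ih, sum_range_succ]; push_cast; ring
  have e2 : ∀ L : ℕ, (1 - r) * ∑ i ∈ range L, (i : ℚ) ^ 2 * r ^ i =
      2 * ∑ i ∈ range L, (i : ℚ) * r ^ i - ∑ i ∈ range L, r ^ i + 1 - ((L : ℚ) - 1) ^ 2 * r ^ L := by
    intro L
    induction L with
    | zero => simp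
    | succ L ih =>
      rw [sum_range_succ, mul_add, ih, sum_range_succ, sum_range_succ]; push_cast; ring
  have e0' := e0 L
  have e1' := e1 L
  have e2' := e2 L
  set m0 := ∑ i ∈ range L, r ^ i with h0
  set m1 := ∑ i ∈ range L, (i : ℚ) * r ^ i with h1
  set m2 := ∑ i ∈ range L, (i : ℚ) ^ 2 * r ^ i with h2
  set R := r ^ L with hR
  have hs : 0 < 1 - r := by linarith
  have f1 : (1 - r) ^ 2 * m1 = 1 - R - (1 - r) * (1 + ((L : ℚ) - 1) * R) := by
    have : (1 - r) ^ 2 * m1 = (1 - r) * ((1 - r) * m1) := by ring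
    rw [this, e1']
    have : (1 - r) * (m0 - 1 - ((L : ℚ) - 1) * R) =
      (1 - r) * m0 - (1 - r) * (1 + ((L : ℚ) - 1) * R) := by ring
    rw [this, e0']
  have f2 : (1 - r) ^ 3 * m2 = 2 * (1 - R - (1 - r) * (1 + ((L : ℚ) - 1) * R)) - (1 - r) * (1 - R) +
      (1 - r) ^ 2 * (1 - ((L : ℚ) - 1) ^ 2 * R) := by
    have : (1 - r) ^ 3 * m2 = (1 - r) ^ 2 * ((1 - r) * m2) := by ring
    rw [this, e2']
    have : (1 - r) ^ 2 * (2 * m1 - m0 + 1 - ((L : ℚ) - 1) ^ 2 * R) =
      2 * ((1 - r) ^ 2 * m1) - (1 - r) * ((1 - r) * m0) +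
        (1 - r) ^ 2 * (1 - ((L : ℚ) - 1) ^ 2 * R) := by ring
    rw [this, e0', f1]
  have key : (1 - r) ^ 4 * (m0 * m2 - m1 ^ 2) = r * (1 - R) ^ 2 - (L : ℚ) ^ 2 * R * (1 - r) ^ 2 := by
    have : (1 - r) ^ 4 * (m0 * m2 - m1 ^ 2) =
      ((1 - r) * m0) * ((1 - r) ^ 3 * m2) - ((1 - r) ^ 2 * m1) ^ 2 := by ring
    rw [this, e0', f1, f2]; ring
  have hR0 : 0 ≤ R := pow_nonneg hr _
  have le1 : (1 - r) ^ 4 * (m0 * m2 - m1 ^ 2) ≤ (1 - r) ^ 2 * m0 ^ 2 := by
    rw [key]
    have : (1 - r) ^ 2 * m0 ^ 2 = (1 - R) ^ 2 := by rw [← e0']; ring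
    rw [this]
    have h3 : 0 ≤ (L : ℚ) ^ 2 * R * (1 - r) ^ 2 := by positivity
    nlinarith [sq_nonneg (1 - R)]
  have hs2 : 0 < (1 - r) ^ 2 := by positivity
  have : (1 - r) ^ 2 * ((1 - r) ^ 2 * (m0 * m2 - m1 ^ 2)) ≤ (1 - r) ^ 2 * m0 ^ 2 := by
    calc _ = (1 - r) ^ 4 * (m0 * m2 - m1 ^ 2) := by ring
      _ ≤ _ := le1
  have := le_of_mul_le_mul_left this hs2
  rw [div_mul_eq_mul_div, one_mul, le_div_iff₀ hs2]
  linarith

/-- At most `2 w + 1` integers in an open interval of length `2 w`. -/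
theorem t1_card (A : Finset ℕ) {μ w : ℚ} (hw : 0 < w) (h : ∀ y ∈ A, |(y : ℚ) - μ| < w) :
    (A.card : ℚ) ≤ 2 * w + 1 := by
  rcases A.eq_empty_or_nonempty with rfl | hA
  · simp; linarith
  · have hsub : A ⊆ Icc (A.min' hA) (A.max' hA) := fun y hy =>
      mem_Icc.2 ⟨A.min'_le y hy, A.le_max' y hy⟩
    have hc := card_le_card hsub
    rw [Nat.card_Icc] at hc
    have hle : A.min' hA ≤ A.max' hA := A.min'_le _ (A.max'_mem hA)
    have h1 := abs_lt.1 (h _ (A.min'_mem hA))
    have h2 := abs_lt.1 (h _ (A.max'_mem hA))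
    have hc' : (A.card : ℚ) ≤ (A.max' hA : ℚ) + 1 - (A.min' hA : ℚ) := by
      have : A.card + A.min' hA ≤ A.max' hA + 1 := by omega
      have : (A.card : ℚ) + (A.min' hA : ℚ) ≤ (A.max' hA : ℚ) + 1 := by exact_mod_cast this
      linarith
    linarith [h1.1, h2.2]

/-- Chebyshev's inequality. -/
theorem t1_cheb (P : Polynomial ℚ) {r v w G : ℚ} (hr : 0 ≤ r) (hP : ∀ y, 0 ≤ P.coeff y)
    (h0 : 0 < P.eval r) (hv : t1_var P r v) (hw : 0 < w) (hvw : 3 * v ≤ w ^ 2)
    (hG : ∀ y, P.coeff y * r ^ y ≤ G) : P.eval r ≤ (3 * w + 3 / 2) * G := by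
  set N := P.natDegree + 1 with hN
  have E0 : P.eval r = ∑ y ∈ range N, P.coeff y * r ^ y := Polynomial.eval_eq_sum_range r
  have E1 : (t1_th P).eval r = ∑ y ∈ range N, (y : ℚ) * (P.coeff y * r ^ y) := by
    rw [Polynomial.eval_eq_sum_range' (Nat.lt_succ_of_le (t1_deg_th P))]
    exact sum_congr rfl fun y _ => by rw [t1_coeff_th]; ring
  have E2 : (t1_th (t1_th P)).eval r = ∑ y ∈ range N, (y : ℚ) ^ 2 * (P.coeff y * r ^ y) := by
    rw [Polynomial.eval_eq_sum_range' (Nat.lt_succ_of_le ((t1_deg_th _).trans (t1_deg_th P)))]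
    exact sum_congr rfl fun y _ => by rw [t1_coeff_th, t1_coeff_th]; ring
  rw [t1_var] at hv
  set M0 := P.eval r with hM0
  set M1 := (t1_th P).eval r with hM1
  set M2 := (t1_th (t1_th P)).eval r with hM2
  set μ := M1 / M0 with hμ
  have hμ' : μ * M0 = M1 := by rw [hμ]; field_simp
  have hp : ∀ y, 0 ≤ P.coeff y * r ^ y := fun y => mul_nonneg (hP y) (pow_nonneg hr y)
  have hvar : ∑ y ∈ range N, ((y : ℚ) - μ) ^ 2 * (P.coeff y * r ^ y) ≤ v * M0 := by
    have e : ∑ y ∈ range N, ((y : ℚ) - μ) ^ 2 * (P.coeff y * r ^ y) = M2 - 2 * μ * M1 + μ ^ 2 * M0 := by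
      rw [E0, E1, E2, mul_sum, mul_sum, ← sum_sub_distrib, ← sum_add_distrib]
      exact sum_congr rfl fun y _ => by ring
    rw [e]
    have e2 : M0 * (M2 - 2 * μ * M1 + μ ^ 2 * M0) = M0 * M2 - M1 ^ 2 := by
      rw [← hμ']; ring
    have : M0 * (M2 - 2 * μ * M1 + μ ^ 2 * M0) ≤ M0 * (v * M0) := by rw [e2]; nlinarith [hv]
    exact le_of_mul_le_mul_left this h0
  set A := (range N).filter fun y : ℕ => |(y : ℚ) - μ| < w with hA
  have hsplit : M0 = ∑ y ∈ A, P.coeff y * r ^ y +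
      ∑ y ∈ (range N).filter (fun y : ℕ => ¬ |(y : ℚ) - μ| < w), P.coeff y * r ^ y := by
    rw [E0, hA, sum_filter_add_sum_filter_not]
  have hw2 : 0 < w ^ 2 := by positivity
  have hout : w ^ 2 * ∑ y ∈ (range N).filter (fun y : ℕ => ¬ |(y : ℚ) - μ| < w),
      P.coeff y * r ^ y ≤ v * M0 := by
    refine le_trans ?_ hvar
    rw [mul_sum]
    refine le_trans (sum_le_sum (g := fun y : ℕ => ((y : ℚ) - μ) ^ 2 * (P.coeff y * r ^ y)) ?_) ?_
    · intro y hy
      rw [mem_filter, not_lt] at hy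
      refine mul_le_mul_of_nonneg_right ?_ (hp y)
      rw [← sq_abs ((y : ℚ) - μ)]
      exact pow_le_pow_left₀ hw.le hy.2 2
    · exact sum_le_sum_of_subset_of_nonneg (filter_subset _ _) fun y _ _ =>
        mul_nonneg (sq_nonneg _) (hp y)
  have hG0 : 0 ≤ G := (hp 0).trans (hG 0)
  have hin : ∑ y ∈ A, P.coeff y * r ^ y ≤ (2 * w + 1) * G := by
    refine (sum_le_card_nsmul A _ G fun y _ => hG y).trans ?_
    rw [nsmul_eq_mul]
    refine mul_le_mul_of_nonneg_right (t1_card A hw (μ := μ) fun y hy => ?_) hG0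
    rw [hA, mem_filter] at hy
    exact hy.2
  set S := ∑ y ∈ (range N).filter (fun y : ℕ => ¬ |(y : ℚ) - μ| < w), P.coeff y * r ^ y with hS
  have hS3 : 3 * S ≤ M0 := by
    have : w ^ 2 * (3 * S) ≤ w ^ 2 * M0 := by
      calc w ^ 2 * (3 * S) = 3 * (w ^ 2 * S) := by ring
        _ ≤ 3 * (v * M0) := by linarith
        _ = (3 * v) * M0 := by ring
        _ ≤ w ^ 2 * M0 := mul_le_mul_of_nonneg_right hvw h0.le
    exact le_of_mul_le_mul_left this hw2
  linarith [hsplit, hin, hS3]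

/-- TASK T1 (helper33). **Lower bound for the coefficients of a product of boxes.** With
`D = ∑ L i - K` the degree, `1 ≤ m`, `2 m ≤ D`; `r = g (m - 1) / g m`, where `g` is the coefficient. -/
theorem box_lower {K : ℕ} (hK : 1 ≤ K) (L : ℕ → ℕ) (hL : ∀ i < K, 1 ≤ L i) {m : ℕ} (hm : 1 ≤ m)
    (hm2 : 2 * m + K ≤ ∑ i ∈ range K, L i) :
    ∃ r : ℚ, (m : ℚ) / (m + K - 1) ≤ r ∧ r ≤ 1 ∧ 0 < (∏ i ∈ range K, geo (L i)).coeff m ∧
      ∀ w : ℚ, 0 < w → (3 * ∑ i ∈ range K, (L i : ℚ) ^ 2 / 4 ≤ w ^ 2 ∨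
          3 * (K : ℚ) ≤ w ^ 2 * (1 - r) ^ 2) →
        ∏ i ∈ range K, bv r (L i) ≤
          (3 * w + 3 / 2) * ((∏ i ∈ range K, geo (L i)).coeff m * r ^ m) := by
  have hD := t1_deg (K := K) L
  set P := ∏ i ∈ range K, geo (L i) with hP
  have hgm : 0 < t1_g L K m := t1_pos L K hL m (by omega) (by omega)
  have hgm1 : 0 < t1_g L K ((m : ℤ) - 1) := t1_pos L K hL _ (by omega) (by omega)
  set r := t1_g L K ((m : ℤ) - 1) / t1_g L K m with hr
  have hr0 : 0 < r := div_pos hgm1 hgm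
  have hrm : r * t1_g L K m = t1_g L K ((m : ℤ) - 1) := by rw [hr]; field_simp
  have hr1 : r ≤ 1 := by
    rw [hr, div_le_one hgm]
    have := t1_up L (m := m - 1) (K := K) (by omega)
    have e : ((m - 1 : ℕ) : ℤ) = (m : ℤ) - 1 := by omega
    rw [e] at this
    have e' : (m : ℤ) - 1 + 1 = m := by ring
    rw [e'] at this
    exact this
  have hcf : ∀ y, P.coeff y = t1_g L K y := t1_coeff L K
  have S := t1_strong _ (t1_adj L K)
  have hup : ∀ j : ℕ, t1_g L K (m + j) * r ^ j ≤ t1_g L K m := by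
    intro j
    induction j with
    | zero => simp
    | succ j ih =>
      have h := S ((m : ℤ) - 1) m (m + j) (m + (j + 1)) (by omega) (by omega) (by ring)
      have h' : t1_g L K m * (r * t1_g L K (m + (j + 1))) ≤ t1_g L K m * t1_g L K (m + j) := by
        calc _ = (r * t1_g L K m) * t1_g L K (m + (j + 1)) := by ring
          _ ≤ _ := by rw [hrm]; exact h
      have h'' := le_of_mul_le_mul_left h' hgm
      push_cast
      calc t1_g L K (m + (j + 1)) * r ^ (j + 1) = (r * t1_g L K (m + (j + 1))) * r ^ j := by ring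
        _ ≤ t1_g L K (m + j) * r ^ j := mul_le_mul_of_nonneg_right h'' (pow_nonneg hr0.le _)
        _ ≤ _ := ih
  have hdn : ∀ j : ℕ, j ≤ m → t1_g L K ((m : ℤ) - j) ≤ t1_g L K m * r ^ j := by
    intro j
    induction j with
    | zero => intro _; simp
    | succ j ih =>
      intro hj
      have ih' := ih (by omega)
      have h := S ((m : ℤ) - (j + 1)) (m - j) (m - 1) m (by omega) (by omega) (by ring)
      have h' : t1_g L K m * t1_g L K ((m : ℤ) - (j + 1)) ≤
          t1_g L K m * (r * t1_g L K ((m : ℤ) - j)) := by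
        calc _ = t1_g L K ((m : ℤ) - (j + 1)) * t1_g L K m := by ring
          _ ≤ t1_g L K ((m : ℤ) - j) * t1_g L K ((m : ℤ) - 1) := h
          _ = _ := by rw [← hrm]; ring
      have h'' := le_of_mul_le_mul_left h' hgm
      push_cast
      calc t1_g L K ((m : ℤ) - (j + 1)) ≤ r * t1_g L K ((m : ℤ) - j) := h''
        _ ≤ r * (t1_g L K m * r ^ j) := mul_le_mul_of_nonneg_left ih' hr0.le
        _ = _ := by ring
  have hmax : ∀ y, P.coeff y * r ^ y ≤ P.coeff m * r ^ m := by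
    intro y
    rw [hcf, hcf]
    rcases le_total m y with h | h
    · obtain ⟨j, rfl⟩ := Nat.exists_eq_add_of_le h
      have := hup j
      push_cast
      rw [pow_add]
      calc t1_g L K (m + j) * (r ^ m * r ^ j) = (t1_g L K (m + j) * r ^ j) * r ^ m := by ring
        _ ≤ _ := mul_le_mul_of_nonneg_right this (pow_nonneg hr0.le _)
    · obtain ⟨j, hj⟩ := Nat.exists_eq_add_of_le h
      have h1 := hdn j (by omega)
      have e : (m : ℤ) - j = y := by omega
      rw [e] at h1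
      calc t1_g L K y * r ^ y ≤ (t1_g L K m * r ^ j) * r ^ y :=
            mul_le_mul_of_nonneg_right h1 (pow_nonneg hr0.le _)
        _ = t1_g L K m * r ^ m := by rw [hj, pow_add]; ring
  have heval : P.eval r = ∏ i ∈ range K, bv r (L i) := by
    rw [hP, Polynomial.eval_prod]
    exact prod_congr rfl fun i _ => t1_eval_geo r (L i)
  have hpos : 0 < P.eval r := by
    rw [heval]
    refine prod_pos fun i hi => ?_
    have h1 : 1 ≤ L i := hL i (mem_range.1 hi)
    exact sum_pos (fun j _ => pow_pos hr0 j) ⟨0, mem_range.2 (by omega)⟩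
  refine ⟨r, ?_, hr1, by rw [hcf]; exact hgm, ?_⟩
  · have hg := t1_growth L K ((m : ℤ) - 1)
    have e' : (m : ℤ) - 1 + 1 = m := by ring
    rw [e'] at hg
    push_cast at hg
    have hK' : (1 : ℚ) ≤ K := by exact_mod_cast hK
    have hm' : (1 : ℚ) ≤ m := by exact_mod_cast hm
    have hden : (0 : ℚ) < m + K - 1 := by linarith
    rw [div_le_iff₀ hden]
    rw [← hrm] at hg
    have : t1_g L K m * m ≤ t1_g L K m * (r * (m + K - 1)) := by
      calc t1_g L K m * m = ((m : ℚ) - 1 + 1) * t1_g L K m := by ring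
        _ ≤ ((m : ℚ) - 1 + K) * (r * t1_g L K m) := hg
        _ = _ := by ring
    exact le_of_mul_le_mul_left this hgm
  · intro w hw hor
    rw [← heval]
    have hnn : ∀ y, 0 ≤ P.coeff y := fun y => by rw [hcf]; exact t1_nonneg _ _ _
    rcases hor with h | h
    · exact t1_cheb P hr0.le hnn hpos
        (t1_var_prod L (fun i => (L i : ℚ) ^ 2 / 4) fun i hi => t1_var_geo hr0.le (hL i hi)) hw h hmax
    · have hK' : (1 : ℚ) ≤ K := by exact_mod_cast hK
      have hne : r ≠ 1 := by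
        intro h1
        rw [h1] at h
        norm_num at h
        linarith
      have hlt : r < 1 := lt_of_le_of_ne hr1 hne
      have hs2 : 0 < (1 - r) ^ 2 := by
        have : 0 < 1 - r := by linarith
        positivity
      refine t1_cheb P hr0.le hnn hpos
        (t1_var_prod L (fun _ => 1 / (1 - r) ^ 2) fun i _ => t1_var_geo' hr0.le hlt (L i)) hw ?_ hmax
      rw [sum_const, card_range, nsmul_eq_mul, mul_one_div, ← mul_div_assoc, div_le_iff₀ hs2]
      exact h

/-! ### END T1 -/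

end Pool.Agent.SignedQ.Sm
end

section

/-!
# The tail lemma, part C: the numbers, and the induction on `k`
-/

set_option autoImplicit false

namespace Pool.Agent.Lib.MP_cf17a0_co.S1

open PowerSeries Finset Pool.Agent.SignedQ

/-- `θ_k = exp (- log k / k)`, so `θ_k ^ k = 1 / k` -/
noncomputable def thk (k : ℕ) : ℝ := Real.exp (-(Real.log k / k))

theorem thk_pos (k : ℕ) : 0 < thk k := Real.exp_pos _

theorem thk_lt_one {k : ℕ} (hk : 2 ≤ k) : thk k < 1 := by
  unfold thk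
  rw [Real.exp_lt_one_iff]
  have h1 : (2 : ℝ) ≤ k := by exact_mod_cast hk
  have h2 : 0 < Real.log k := Real.log_pos (by linarith)
  have : 0 < Real.log k / k := by positivity
  linarith

theorem thk_pow {k : ℕ} (hk : 1 ≤ k) : thk k ^ k = (k : ℝ)⁻¹ := by
  have h1 : (1 : ℝ) ≤ k := by exact_mod_cast hk
  have h2 : (0 : ℝ) < k := by linarith
  unfold thk
  rw [← Real.exp_nat_mul, show (k : ℝ) * -(Real.log k / k) = -Real.log k by field_simp,
    Real.exp_neg, Real.exp_log h2]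

theorem log_ge_four {k : ℕ} (hk : 100 ≤ k) : (4 : ℝ) ≤ Real.log k := by
  have h1 : (100 : ℝ) ≤ k := by exact_mod_cast hk
  rw [Real.le_log_iff_exp_le (by linarith)]
  have h2 : Real.exp 1 < 2.7182818286 := Real.exp_one_lt_d9
  have h3 : Real.exp 4 = Real.exp 1 ^ 4 := by
    rw [← Real.exp_nat_mul]
    norm_num
  rw [h3]
  have h4 : Real.exp 1 ^ 4 ≤ 2.7182818286 ^ 4 := pow_le_pow_left₀ (Real.exp_pos 1).le h2.le 4
  have h5 : (2.7182818286 : ℝ) ^ 4 ≤ 100 := by norm_num
  linarith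

/-- the order inequality -/
theorem thk_order {k : ℕ} (hk : 100 ≤ k) :
    (1 + 5 / (k : ℝ)) * thk k ^ (k + 2) ≤ thk (k + 2) ^ (k + 2) := by
  have h1 : (100 : ℝ) ≤ k := by exact_mod_cast hk
  have h2 : (0 : ℝ) < k := by linarith
  have h3 := log_ge_four hk
  have h4 : 1 + 5 / (k : ℝ) ≤ Real.exp (5 / k) := by
    have := Real.add_one_le_exp (5 / (k : ℝ))
    linarith
  have h5 : Real.log ((k + 2 : ℕ) : ℝ) ≤ Real.log k + 2 / k := by
    have e1 : ((k + 2 : ℕ) : ℝ) = k * (1 + 2 / k) := by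
      push_cast
      field_simp
    rw [e1, Real.log_mul (by positivity) (by positivity)]
    have := Real.log_le_sub_one_of_pos (show (0 : ℝ) < 1 + 2 / k by positivity)
    linarith
  calc (1 + 5 / (k : ℝ)) * thk k ^ (k + 2)
      ≤ Real.exp (5 / k) * thk k ^ (k + 2) :=
        mul_le_mul_of_nonneg_right h4 (pow_nonneg (thk_pos k).le _)
    _ = Real.exp (5 / k - Real.log k - 2 * Real.log k / k) := by
        unfold thk
        rw [← Real.exp_nat_mul, ← Real.exp_add]
        congr 1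
        push_cast
        field_simp
        ring
    _ ≤ Real.exp (-Real.log ((k + 2 : ℕ) : ℝ)) := by
        rw [Real.exp_le_exp]
        have h6 : 5 / (k : ℝ) - 2 * Real.log k / k + 2 / k ≤ 0 := by
          have : 5 / (k : ℝ) - 2 * Real.log k / k + 2 / k = (7 - 2 * Real.log k) / k := by
            field_simp
            ring
          rw [this]
          exact div_nonpos_of_nonpos_of_nonneg (by linarith) h2.le
        linarith
    _ = thk (k + 2) ^ (k + 2) := by
        unfold thk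
        rw [← Real.exp_nat_mul]
        congr 1
        have : ((k + 2 : ℕ) : ℝ) ≠ 0 := by positivity
        field_simp

theorem thk_mono {k : ℕ} (hk : 100 ≤ k) : thk k ≤ thk (k + 2) := by
  have h1 := thk_order hk
  have h2 : (0 : ℝ) < k := by
    have : (100 : ℝ) ≤ k := by exact_mod_cast hk
    linarith
  have h3 : thk k ^ (k + 2) ≤ thk (k + 2) ^ (k + 2) := by
    refine le_trans ?_ h1
    have h4 : 0 ≤ thk k ^ (k + 2) := pow_nonneg (thk_pos k).le _
    have h5 : 0 < 5 / (k : ℝ) := by positivity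
    nlinarith
  exact (pow_le_pow_iff_left₀ (thk_pos k).le (thk_pos _).le (by omega)).1 h3

/-- the step, all numbers inserted: `A = 13/100`, `k ≥ 100` -/
theorem step_thk {n k a : ℕ} (hk100 : 100 ≤ k) (hk : Even k) (ha : Odd a) (ha3 : 3 ≤ a) {M : ℤ}
    (hP : Grw (sq (fser n k a)) (13 / 100) (thk k) M k) :
    Grw (sq (fser n (k + 2) a)) (13 / 100) (thk (k + 2)) M (k + 2) := by
  have h100 : (100 : ℝ) ≤ k := by exact_mod_cast hk100
  have hk0 : (0 : ℝ) < k := by linarith
  set x : ℝ := (k : ℝ)⁻¹ with hx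
  have hx0 : 0 < x := by positivity
  have hx1 : x ≤ 1 / 100 := by
    rw [hx, one_div]
    exact inv_anti₀ (by norm_num) h100
  have hθ0 := thk_pos k
  have hθ1 := thk_lt_one (k := k) (by omega)
  have hpow := thk_pow (k := k) (by omega)
  rw [← hx] at hpow
  have hp1 : thk k ^ (2 * (k + 1)) ≤ x ^ 2 := by
    rw [← hpow, ← pow_mul]
    exact pow_le_pow_of_le_one hθ0.le hθ1.le (by omega)
  have hp2 : thk k ^ (k + 2) ≤ x := by
    rw [← hpow]
    exact pow_le_pow_of_le_one hθ0.le hθ1.le (by omega)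
  have hp3 : thk k ^ (2 * k + 1) ≤ x ^ 2 := by
    rw [← hpow, ← pow_mul]
    exact pow_le_pow_of_le_one hθ0.le hθ1.le (by omega)
  have hp4 : thk k ^ (3 * (k + 1)) ≤ x ^ 3 := by
    rw [← hpow, ← pow_mul]
    exact pow_le_pow_of_le_one hθ0.le hθ1.le (by omega)
  have q1 : 0 ≤ thk k ^ (2 * (k + 1)) := by positivity
  have q2 : 0 ≤ thk k ^ (k + 2) := by positivity
  have q3 : 0 ≤ thk k ^ (2 * k + 1) := by positivity
  have q4 : 0 ≤ thk k ^ (3 * (k + 1)) := by positivity
  have hx2 : x ^ 2 ≤ 1 / 10000 := by nlinarith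
  have hx3 : x ^ 3 ≤ x / 10000 := by nlinarith
  refine step_f (e1 := 385 / 100 * x) (e2 := 52 / 100 * x) (e3 := 1 / 100 * x) (κ := 1 + 5 * x)
    hk ha ha3 (by norm_num) hθ0 hθ1 hP ?_ ?_ ?_ (by positivity) (by linarith) ?_ (thk_mono hk100) ?_
  · rw [hpow, div_le_iff₀ (by nlinarith)]
    have : x * (1 : ℝ) ≤ x * (385 / 100 * (2 * (13 / 100) * (1 - thk k ^ (2 * (k + 1))))) := by
      refine mul_le_mul_of_nonneg_left ?_ hx0.le
      nlinarith
    linarith
  · have a1 : thk k ^ (k + 2) / (1 - thk k ^ (k + 2)) ≤ 102 / 100 * x := by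
      rw [div_le_iff₀ (by linarith)]
      nlinarith
    have a2 : thk k ^ (2 * k + 1) / (1 - thk k ^ (2 * (k + 1))) ≤ 2 / 100 * x := by
      rw [div_le_iff₀ (by linarith)]
      nlinarith
    linarith
  · have b1 : (13 / 100 : ℝ)⁻¹ * thk k ^ (3 * (k + 1)) * (1 + 52 / 100 * x) *
        (1 + thk k ^ (3 * (k + 1))) ≤ 8 * (x / 10000) * (1 + 1) * (1 + 1) := by
      have c1 : (13 / 100 : ℝ)⁻¹ * thk k ^ (3 * (k + 1)) ≤ 8 * (x / 10000) := by
        have : (13 / 100 : ℝ)⁻¹ ≤ 8 := by norm_num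
        exact mul_le_mul this (hp4.trans hx3) q4 (by norm_num)
      have c2 : 0 ≤ (13 / 100 : ℝ)⁻¹ * thk k ^ (3 * (k + 1)) := by positivity
      refine mul_le_mul (mul_le_mul c1 (by linarith) (by positivity) (by positivity)) (by linarith)
        (by positivity) (by positivity)
    linarith
  · have d1 : (1 + 52 / 100 * x) * (1 + thk k ^ (3 * (k + 1))) ≤
        (1 + 52 / 100 * x) * (1 + x / 10000) :=
      mul_le_mul_of_nonneg_left (by linarith) (by positivity)
    nlinarith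
  · have := thk_order hk100
    rw [div_eq_mul_inv, ← hx] at this
    exact this

/-- **The tail lemma.** `H_k`: for `m ≤ M_k`: `f_{n,k,a}[m] ≥ 0` and
`f_{n,k,a}[m-s] ≤ (13/100)⁻¹ θ_k ^ s f_{n,k,a}[m]` for all `s ≥ k`. -/
theorem tail_induction {n a K1 K : ℕ} (hK1 : 100 ≤ K1) (hK1e : Even K1) (ha : Odd a) (ha3 : 3 ≤ a)
    (M : ℕ → ℤ) (base : Grw (sq (fser n K1 a)) (13 / 100) (thk K1) (M K1) K1)
    (circ : ∀ k, K1 ≤ k → k + 2 ≤ K → Even k → ∀ m : ℤ, M k < m → m ≤ M (k + 2) →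
      0 ≤ sq (fser n (k + 2) a) m ∧ ∀ s : ℕ, k + 2 ≤ s →
        sq (fser n (k + 2) a) (m - s) ≤
          (13 / 100 : ℝ)⁻¹ * thk (k + 2) ^ s * sq (fser n (k + 2) a) m) :
    ∀ k, K1 ≤ k → k ≤ K → Even k → Grw (sq (fser n k a)) (13 / 100) (thk k) (M k) k := by
  have key : ∀ j : ℕ, K1 + 2 * j ≤ K →
      Grw (sq (fser n (K1 + 2 * j) a)) (13 / 100) (thk (K1 + 2 * j)) (M (K1 + 2 * j))
        (K1 + 2 * j) := by
    intro j
    induction j with
    | zero => intro _; exact base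
    | succ j ih =>
      intro hj
      have h1 := ih (by omega)
      have he : Even (K1 + 2 * j) := hK1e.add (even_two_mul j)
      have h2 := step_thk (by omega) he ha ha3 h1
      have e : K1 + 2 * (j + 1) = K1 + 2 * j + 2 := by ring
      rw [e]
      intro m hm
      rcases le_or_gt m (M (K1 + 2 * j)) with h | h
      · exact h2 m h
      · exact circ (K1 + 2 * j) (by omega) (by omega) he m h hm
  intro k hk hkK hke
  obtain ⟨j, rfl⟩ : ∃ j, k = K1 + 2 * j := by
    obtain ⟨u, hu⟩ := hke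
    obtain ⟨v, hv⟩ := hK1e
    exact ⟨u - v, by omega⟩
  exact key j hkK

/-- the odd level above `k` -/
theorem odd_thk {n k a : ℕ} (hk100 : 100 ≤ k) (hk : Even k) (hn : Even n) (ha : Odd a) {M : ℤ}
    (hP : Grw (sq (fser n k a)) (13 / 100) (thk k) M k) :
    ∀ m ≤ M, 0 ≤ sq (fser n (k + 1) a) m := by
  have h100 : (100 : ℝ) ≤ k := by exact_mod_cast hk100
  have hk0 : (0 : ℝ) < k := by linarith
  set x : ℝ := (k : ℝ)⁻¹ with hx
  have hx0 : 0 < x := by positivity
  have hx1 : x ≤ 1 / 100 := by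
    rw [hx, one_div]
    exact inv_anti₀ (by norm_num) h100
  have hθ0 := thk_pos k
  have hθ1 := thk_lt_one (k := k) (by omega)
  have hpow := thk_pow (k := k) (by omega)
  rw [← hx] at hpow
  have hp1 : thk k ^ (2 * (k + 1)) ≤ x ^ 2 := by
    rw [← hpow, ← pow_mul]
    exact pow_le_pow_of_le_one hθ0.le hθ1.le (by omega)
  have hp2 : thk k ^ (k + 1) ≤ x := by
    rw [← hpow]
    exact pow_le_pow_of_le_one hθ0.le hθ1.le (by omega)
  refine odd_f hk hn ha (by norm_num) hθ0 hθ1 hP ?_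
  have c1 : (13 / 100 : ℝ)⁻¹ * thk k ^ (k + 1) ≤ 8 * x :=
    mul_le_mul (by norm_num) hp2 (by positivity) (by norm_num)
  nlinarith

end Pool.Agent.Lib.MP_cf17a0_co.S1
end
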