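import Pool.Agent.Lib.MP_cf17a0_co.Sm.Fin
import Pool.Agent.Lib.MP_cf17a0_co.Sm.Num
import Pool.Agent.Lib.MP_cf17a0_co.Mg.G067

section

/-!
# The certificate of the partial fraction decomposition

The identity, multiplied by `∏ (1 - x ^ j)`, is an identity of polynomials; it is checked by
evaluation at `q = 2 ^ B`, where `2 ^ B` is larger than all coefficients.
-/

set_option autoImplicit false

namespace Pool.Agent.SignedQ.Sm

open Finset

section defs

variable {R : Type} [CommRing R]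

/-- `1 + y + ... + y ^ (c - 1)` -/
def gp (y : R) (c : ℕ) : R := ∑ i ∈ range c, y ^ i

/-- `∏ (1 - x ^ j) / (1 - q) ^ (k / 2)` -/
def Qp (k : ℕ) (q : R) : R :=
  ∏ j ∈ range k, (if (j + 1) % 2 = 0 then gp q (j + 1) else 1 + q ^ (j + 1))

/-- `∏ (1 - x ^ j) / (1 - x) ^ (k / 2)` -/
def Qm (k : ℕ) (q : R) : R := (1 + q) ^ ((k + 1) / 2) * ∏ j ∈ range k, gp (-q) (j + 1)

/-- `∏ (1 - x ^ j) / (1 - x ^ d) ^ s` -/
def Qd (k d s : ℕ) (q : R) : R :=
  ∏ j ∈ range k, (if (j + 1) % d = 0 ∧ j + 1 ≤ s * d then gp ((-q) ^ d) ((j + 1) / d)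
    else 1 - (-q) ^ (j + 1))

/-- The difference of the two sides of `Ident`, times `∏ (1 - x ^ j)`. -/
def EE (k : ℕ) (D : Dat) (q : R) : R :=
  (D.den : R) * q ^ hh k * (1 + q) ^ ((k + 1) / 2) -
    (∑ i ∈ range ((k / 2 + 1) / 2),
      ((D.dpi i : R) * (1 + q) ^ (k / 2 % 2) * q ^ (k / 2 / 2 - i) * (1 - q) ^ (2 * i) * Qp k q +
       (D.dmi i : R) * (1 - q) ^ (k / 2 % 2) * (-q) ^ (k / 2 / 2 - i) * (1 + q) ^ (2 * i) *
        Qm k q)) -
    q ^ hh k * (∑ t ∈ range (k - 2), ∑ u ∈ range (k / (t + 3)),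
      (∑ i ∈ range (t + 3), (D.Ni t u i : R) * (-q) ^ i) * Qd k (t + 3) (u + 1) q) +
    (∑ i ∈ range (hh k), (D.Li i : R) * q ^ i) * ∏ j ∈ range k, (1 - (-q) ^ (j + 1))

end defs

/-! ### BEGIN H1 -/

theorem h1_map_gp {R S : Type} [CommRing R] [CommRing S] (φ : R →+* S) (y : R) (c : ℕ) :
    φ (gp y c) = gp (φ y) c := by
  unfold gp
  rw [map_sum]
  refine Finset.sum_congr rfl (fun i _ => ?_)
  rw [map_pow]

theorem h1_map_Qp {R S : Type} [CommRing R] [CommRing S] (φ : R →+* S) (k : ℕ) (q : R) :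
    φ (Qp k q) = Qp k (φ q) := by
  unfold Qp
  rw [map_prod]
  refine Finset.prod_congr rfl (fun j _ => ?_)
  split_ifs
  · exact h1_map_gp φ q _
  · rw [map_add, map_one, map_pow]

theorem h1_map_Qm {R S : Type} [CommRing R] [CommRing S] (φ : R →+* S) (k : ℕ) (q : R) :
    φ (Qm k q) = Qm k (φ q) := by
  unfold Qm
  rw [map_mul, map_prod, map_pow, map_add, map_one]
  congr 1
  refine Finset.prod_congr rfl (fun j _ => ?_)
  rw [h1_map_gp, map_neg]

theorem h1_map_Qd {R S : Type} [CommRing R] [CommRing S] (φ : R →+* S) (k d s : ℕ) (q : R) :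
    φ (Qd k d s q) = Qd k d s (φ q) := by
  unfold Qd
  rw [map_prod]
  refine Finset.prod_congr rfl (fun j _ => ?_)
  split_ifs
  · rw [h1_map_gp, map_pow, map_neg]
  · rw [map_sub, map_one, map_pow, map_neg]

/-- TASK H1. Ring homomorphisms. -/
theorem map_EE {R S : Type} [CommRing R] [CommRing S] (φ : R →+* S) (k : ℕ) (D : Dat) (q : R) :
    φ (EE k D q) = EE k D (φ q) := by
  unfold EE
  simp only [map_sub, map_add, map_mul, map_sum, map_prod, map_pow, map_natCast, map_intCast,
    map_one, map_neg, h1_map_Qp, h1_map_Qm, h1_map_Qd]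

theorem h1_gp_mul {R : Type} [CommRing R] (y : R) (c : ℕ) : (1 - y) * gp y c = 1 - y ^ c := by
  unfold gp
  have h := mul_neg_geom_sum y c
  exact h

/-- TASK H1. `(1 - q) ^ (k / 2) * Qp = ∏ (1 - x ^ j)`: induction on `k` (two cases: `k + 1` even:
`(1 - q) * gp q (k + 1) = 1 - q ^ (k + 1)`; `k + 1` odd: `1 - (-q) ^ (k + 1) = 1 + q ^ (k + 1)`). -/
theorem Qp_mul {R : Type} [CommRing R] (k : ℕ) (q : R) :
    (1 - q) ^ (k / 2) * Qp k q = ∏ j ∈ range k, (1 - (-q) ^ (j + 1)) := by
  induction k with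
  | zero => simp [Qp]
  | succ k ih =>
    rw [prod_range_succ, ← ih]
    unfold Qp
    rw [prod_range_succ]
    by_cases h : (k + 1) % 2 = 0
    · rw [if_pos h]
      have hk : (k + 1) / 2 = k / 2 + 1 := by omega
      have he : Even (k + 1) := Nat.even_iff.2 h
      rw [he.neg_pow, ← h1_gp_mul q (k + 1), hk, pow_succ]
      ring
    · rw [if_neg h]
      have hk : (k + 1) / 2 = k / 2 := by omega
      have ho : Odd (k + 1) := Nat.odd_iff.2 (by omega)
      rw [ho.neg_pow, hk]
      ring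

/-- TASK H1. `(1 + q) ^ k = (1 + q) ^ (k / 2) * (1 + q) ^ ((k + 1) / 2)` and
`(1 + q) * gp (-q) (j + 1) = 1 - (-q) ^ (j + 1)`. -/
theorem Qm_mul {R : Type} [CommRing R] (k : ℕ) (q : R) :
    (1 + q) ^ (k / 2) * Qm k q = ∏ j ∈ range k, (1 - (-q) ^ (j + 1)) := by
  unfold Qm
  have h1 : (1 + q) ^ (k / 2) * ((1 + q) ^ ((k + 1) / 2) * ∏ j ∈ range k, gp (-q) (j + 1)) =
      (1 + q) ^ k * ∏ j ∈ range k, gp (-q) (j + 1) := by
    rw [← mul_assoc, ← pow_add]
    congr 2
    omega
  rw [h1]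
  have h2 : (1 + q) ^ k = ∏ _j ∈ range k, (1 + q) := by
    rw [prod_const, card_range]
  rw [h2, ← prod_mul_distrib]
  refine Finset.prod_congr rfl (fun j _ => ?_)
  rw [← h1_gp_mul (-q) (j + 1)]
  ring

/-- TASK H1. The number of `j ∈ [1, k]` with `d ∣ j`, `j ≤ s d` is `s` (if `s d ≤ k`); for them
`(1 - x ^ d) * gp (x ^ d) (j / d) = 1 - x ^ j`. -/
theorem Qd_mul {R : Type} [CommRing R] (k d s : ℕ) (hd : 1 ≤ d) (hs : s * d ≤ k) (q : R) :
    (1 - (-q) ^ d) ^ s * Qd k d s q = ∏ j ∈ range k, (1 - (-q) ^ (j + 1)) := by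
  have hcard : ((range k).filter (fun j => (j + 1) % d = 0 ∧ j + 1 ≤ s * d)).card = s := by
    have h1 : (range k).filter (fun j => (j + 1) % d = 0 ∧ j + 1 ≤ s * d) =
        (range (s * d)).filter (fun e => d ∣ e + 1) := by
      ext j
      simp only [mem_filter, mem_range, Nat.dvd_iff_mod_eq_zero]
      constructor
      · rintro ⟨h1, h2, h3⟩
        exact ⟨by omega, h2⟩
      · rintro ⟨h1, h2⟩
        exact ⟨by omega, h2, by omega⟩
    rw [h1, Nat.card_multiples]
    exact Nat.mul_div_cancel s (by omega)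
  have h2 : (1 - (-q) ^ d) ^ s = ∏ j ∈ range k, (if (j + 1) % d = 0 ∧ j + 1 ≤ s * d then
      (1 - (-q) ^ d) else 1) := by
    rw [prod_ite, prod_const, hcard, prod_const_one, mul_one]
  unfold Qd
  rw [h2, ← prod_mul_distrib]
  refine Finset.prod_congr rfl (fun j _ => ?_)
  by_cases h : (j + 1) % d = 0 ∧ j + 1 ≤ s * d
  · rw [if_pos h, if_pos h, h1_gp_mul, ← pow_mul,
      Nat.mul_div_cancel' (Nat.dvd_of_mod_eq_zero h.1)]
  · rw [if_neg h, if_neg h, one_mul]

theorem h1_poch (k : ℕ) : poch (-PowerSeries.X : PowerSeries ℚ) k =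
    ∏ j ∈ range k, (1 - (-PowerSeries.X : PowerSeries ℚ) ^ (j + 1)) := rfl

theorem h1_Sq (k i : ℕ) (hi : 2 * i ≤ k / 2) :
    Sq (k / 2 - 2 * i) * poch (-PowerSeries.X : PowerSeries ℚ) k =
      (1 - PowerSeries.X) ^ (2 * i) * Qp k (PowerSeries.X : PowerSeries ℚ) := by
  rw [h1_poch, ← Qp_mul]
  have h1 : (1 - PowerSeries.X : PowerSeries ℚ) ^ (k / 2) =
      (1 - PowerSeries.X) ^ (k / 2 - 2 * i) * (1 - PowerSeries.X) ^ (2 * i) := by
    rw [← pow_add]
    congr 1
    omega
  rw [h1]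
  calc Sq (k / 2 - 2 * i) * ((1 - PowerSeries.X : PowerSeries ℚ) ^ (k / 2 - 2 * i) * (1 - PowerSeries.X) ^ (2 * i) *
        Qp k PowerSeries.X) = (Sq (k / 2 - 2 * i) * (1 - PowerSeries.X : PowerSeries ℚ) ^ (k / 2 - 2 * i)) *
        ((1 - PowerSeries.X) ^ (2 * i) * Qp k PowerSeries.X) := by ring
    _ = _ := by rw [Sq_mul, one_mul]

theorem h1_Sx1 (k i : ℕ) (hi : 2 * i ≤ k / 2) :
    Sx 1 (k / 2 - 2 * i) * poch (-PowerSeries.X : PowerSeries ℚ) k =
      (1 + PowerSeries.X) ^ (2 * i) * Qm k (PowerSeries.X : PowerSeries ℚ) := by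
  rw [h1_poch, ← Qm_mul]
  have h0 := Sx_mul 1 (k / 2 - 2 * i) (le_refl 1)
  have h00 : (1 - (-PowerSeries.X : PowerSeries ℚ) ^ 1) = 1 + PowerSeries.X := by ring
  rw [h00] at h0
  have h1 : (1 + PowerSeries.X : PowerSeries ℚ) ^ (k / 2) =
      (1 + PowerSeries.X) ^ (k / 2 - 2 * i) * (1 + PowerSeries.X) ^ (2 * i) := by
    rw [← pow_add]
    congr 1
    omega
  rw [h1]
  calc Sx 1 (k / 2 - 2 * i) * ((1 + PowerSeries.X : PowerSeries ℚ) ^ (k / 2 - 2 * i) * (1 + PowerSeries.X) ^ (2 * i) *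
        Qm k PowerSeries.X) = (Sx 1 (k / 2 - 2 * i) * (1 + PowerSeries.X : PowerSeries ℚ) ^ (k / 2 - 2 * i)) *
        ((1 + PowerSeries.X) ^ (2 * i) * Qm k PowerSeries.X) := by ring
    _ = _ := by rw [h0, one_mul]

theorem h1_Sxd (k d s : ℕ) (hd : 1 ≤ d) (hs : s * d ≤ k) :
    Sx d s * poch (-PowerSeries.X : PowerSeries ℚ) k = Qd k d s (PowerSeries.X : PowerSeries ℚ) := by
  rw [h1_poch, ← Qd_mul k d s hd hs, ← mul_assoc, Sx_mul d s hd, one_mul]

/-- TASK H1. If the polynomial identity holds then `Ident` holds.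

PROOF. Map `EE k D X = 0` to power series over `ℚ` (`map_EE`, the ring homomorphism
`ℤ[X] → ℚ[X] → ℚ⟦X⟧`): `EE k D (PowerSeries.X) = 0`. Multiply the claim by
`P = poch (-X) k = ∏ (1 - (-X) ^ (j + 1))`, which is not a zero divisor: `G k * P = (1 + X) ^ ((k+1)/2)`
(`G`, `I_mul_poch`), `Sq (K - 2 i) * P = (1 - X) ^ (2 i) * Qp` (`Qp_mul`, `Sq_mul`),
`Sx 1 (K - 2 i) * P = (1 + X) ^ (2 i) * Qm`, `Sx d s * P = Qd k d s`. -/
theorem ident_of_EE {k : ℕ} (hk : 4 ≤ k) (D : Dat) (h : EE k D (Polynomial.X : Polynomial ℤ) = 0) :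
    Ident k D := by
  have hE : EE k D (PowerSeries.X : PowerSeries ℚ) = 0 := by
    have h1 := map_EE ((Polynomial.coeToPowerSeries.ringHom (R := ℚ)).comp
      (Polynomial.mapRingHom (Int.castRingHom ℚ))) k D (Polynomial.X : Polynomial ℤ)
    rw [h, map_zero] at h1
    rw [h1]
    congr 1
    simp
  unfold Ident
  have key : ∀ A B : PowerSeries ℚ, A * poch (-PowerSeries.X : PowerSeries ℚ) k =
      B * poch (-PowerSeries.X : PowerSeries ℚ) k → A = B := by
    intro A B hAB
    calc A = A * (poch (-PowerSeries.X : PowerSeries ℚ) k * I k) := by rw [poch_mul_I, mul_one]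
      _ = A * poch (-PowerSeries.X : PowerSeries ℚ) k * I k := by ring
      _ = B * poch (-PowerSeries.X : PowerSeries ℚ) k * I k := by rw [hAB]
      _ = B * (poch (-PowerSeries.X : PowerSeries ℚ) k * I k) := by ring
      _ = B := by rw [poch_mul_I, mul_one]
  apply key
  have hC : ∀ z : ℤ, (PowerSeries.C (z : ℚ) : PowerSeries ℚ) = (z : PowerSeries ℚ) :=
    fun z => map_intCast PowerSeries.C z
  have hN : ∀ z : ℕ, (PowerSeries.C (z : ℚ) : PowerSeries ℚ) = (z : PowerSeries ℚ) :=
    fun z => map_natCast PowerSeries.C z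
  simp only [hC, hN]
  have hG : (D.den : PowerSeries ℚ) * PowerSeries.X ^ hh k * G k * poch (-PowerSeries.X : PowerSeries ℚ) k =
      (D.den : PowerSeries ℚ) * PowerSeries.X ^ hh k * (1 + PowerSeries.X) ^ ((k + 1) / 2) := by
    unfold G
    calc _ = (D.den : PowerSeries ℚ) * PowerSeries.X ^ hh k * (1 + PowerSeries.X) ^ ((k + 1) / 2) *
        (I k * poch (-PowerSeries.X : PowerSeries ℚ) k) := by ring
      _ = _ := by rw [I_mul_poch, mul_one]
  have h1 : (∑ i ∈ range ((k / 2 + 1) / 2),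
      ((D.dpi i : PowerSeries ℚ) * (1 + PowerSeries.X) ^ (k / 2 % 2) * PowerSeries.X ^ (k / 2 / 2 - i) *
        Sq (k / 2 - 2 * i) +
       (D.dmi i : PowerSeries ℚ) * (1 - PowerSeries.X) ^ (k / 2 % 2) * (-PowerSeries.X) ^ (k / 2 / 2 - i) *
        Sx 1 (k / 2 - 2 * i))) * poch (-PowerSeries.X : PowerSeries ℚ) k =
      ∑ i ∈ range ((k / 2 + 1) / 2),
      ((D.dpi i : PowerSeries ℚ) * (1 + PowerSeries.X) ^ (k / 2 % 2) * PowerSeries.X ^ (k / 2 / 2 - i) *
        (1 - PowerSeries.X) ^ (2 * i) * Qp k PowerSeries.X +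
       (D.dmi i : PowerSeries ℚ) * (1 - PowerSeries.X) ^ (k / 2 % 2) * (-PowerSeries.X) ^ (k / 2 / 2 - i) *
        (1 + PowerSeries.X) ^ (2 * i) * Qm k PowerSeries.X) := by
    rw [sum_mul]
    refine sum_congr rfl (fun i hi => ?_)
    rw [mem_range] at hi
    have hi2 : 2 * i ≤ k / 2 := by omega
    rw [add_mul, mul_assoc _ (Sq (k / 2 - 2 * i)), mul_assoc _ (Sx 1 (k / 2 - 2 * i)),
      h1_Sq k i hi2, h1_Sx1 k i hi2]
    ring
  have h2 : (PowerSeries.X : PowerSeries ℚ) ^ hh k * (∑ t ∈ range (k - 2), ∑ u ∈ range (k / (t + 3)),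
      (∑ i ∈ range (t + 3), (D.Ni t u i : PowerSeries ℚ) * (-PowerSeries.X : PowerSeries ℚ) ^ i) *
        Sx (t + 3) (u + 1)) * poch (-PowerSeries.X : PowerSeries ℚ) k =
      PowerSeries.X ^ hh k * (∑ t ∈ range (k - 2), ∑ u ∈ range (k / (t + 3)),
      (∑ i ∈ range (t + 3), (D.Ni t u i : PowerSeries ℚ) * (-PowerSeries.X) ^ i) * Qd k (t + 3) (u + 1) PowerSeries.X) := by
    rw [mul_assoc, sum_mul]
    congr 1
    refine sum_congr rfl (fun t _ => ?_)
    rw [sum_mul]
    refine sum_congr rfl (fun u hu => ?_)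
    rw [mem_range] at hu
    have hs : (u + 1) * (t + 3) ≤ k := by
      have h3 : u + 1 ≤ k / (t + 3) := hu
      exact (Nat.le_div_iff_mul_le (by omega)).1 h3
    rw [mul_assoc, h1_Sxd k (t + 3) (u + 1) (by omega) hs]
  rw [hG, sub_mul, add_mul, h1, h2]
  unfold EE at hE
  rw [← h1_poch] at hE
  linear_combination hE

/-! ### END H1 -/

/-- the `ℓ¹` norm -/
noncomputable def nz (P : Polynomial ℤ) : ℤ := ∑ i ∈ P.support, |P.coeff i|

/-- A bound of the `ℓ¹` norm of `EE k D X`. -/
def EA (k : ℕ) (D : Dat) : ℤ :=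
  (D.den : ℤ) * 2 ^ ((k + 1) / 2) +
    (∑ i ∈ range ((k / 2 + 1) / 2),
      (|D.dpi i| * 2 ^ (k / 2 % 2) * 2 ^ (2 * i) *
        (∏ j ∈ range k, (if (j + 1) % 2 = 0 then ((j : ℤ) + 1) else 2)) +
       |D.dmi i| * 2 ^ (k / 2 % 2) * 2 ^ (2 * i) *
        (2 ^ ((k + 1) / 2) * ∏ j ∈ range k, ((j : ℤ) + 1)))) +
    (∑ t ∈ range (k - 2), ∑ u ∈ range (k / (t + 3)),
      (∑ i ∈ range (t + 3), |D.Ni t u i|) *
        ∏ j ∈ range k, (if (j + 1) % (t + 3) = 0 ∧ j + 1 ≤ (u + 1) * (t + 3) then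
          (((j + 1) / (t + 3) : ℕ) : ℤ) else 2)) +
    (∑ i ∈ range (hh k), |D.Li i|) * 2 ^ k

/-! ### BEGIN H2 -/

/-- TASK H2. -/
theorem coeff_le_nz (P : Polynomial ℤ) (i : ℕ) : |P.coeff i| ≤ nz P := by
  unfold nz
  by_cases h : i ∈ P.support
  · exact single_le_sum (f := fun i => |P.coeff i|) (fun _ _ => abs_nonneg _) h
  · rw [Polynomial.notMem_support_iff] at h
    rw [h, abs_zero]
    exact sum_nonneg fun _ _ => abs_nonneg _

theorem h2_nonneg (P : Polynomial ℤ) : 0 ≤ nz P := sum_nonneg fun _ _ => abs_nonneg _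

theorem h2_nz_eq (P : Polynomial ℤ) {s : Finset ℕ} (hs : P.support ⊆ s) :
    nz P = ∑ i ∈ s, |P.coeff i| := by
  unfold nz
  apply sum_subset hs
  intro i _ hi
  rw [Polynomial.notMem_support_iff] at hi
  rw [hi, abs_zero]

/-- TASK H2. -/
theorem nz_add (P Q : Polynomial ℤ) : nz (P + Q) ≤ nz P + nz Q := by
  rw [h2_nz_eq P (s := P.support ∪ Q.support) subset_union_left,
    h2_nz_eq Q (s := P.support ∪ Q.support) subset_union_right,
    h2_nz_eq (P + Q) (s := P.support ∪ Q.support) Polynomial.support_add, ← sum_add_distrib]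
  apply sum_le_sum
  intro i _
  rw [Polynomial.coeff_add]
  exact abs_add_le _ _

/-- the polynomial of the absolute values -/
noncomputable def h2_abs (P : Polynomial ℤ) : Polynomial ℤ :=
  ∑ i ∈ P.support, Polynomial.monomial i |P.coeff i|

theorem h2_abs_coeff (P : Polynomial ℤ) (i : ℕ) : (h2_abs P).coeff i = |P.coeff i| := by
  unfold h2_abs
  rw [Polynomial.finsetSum_coeff]
  simp only [Polynomial.coeff_monomial]
  rw [sum_ite_eq']
  split_ifs with h
  · rfl
  · rw [Polynomial.notMem_support_iff] at h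
    rw [h, abs_zero]

theorem h2_abs_eval (P : Polynomial ℤ) : (h2_abs P).eval 1 = nz P := by
  unfold h2_abs nz
  rw [Polynomial.eval_finsetSum]
  apply sum_congr rfl
  intro i _
  rw [Polynomial.eval_monomial, one_pow, mul_one]

/-- TASK H2. -/
theorem nz_mul (P Q : Polynomial ℤ) : nz (P * Q) ≤ nz P * nz Q := by
  have h1 : ∀ i, |(P * Q).coeff i| ≤ (h2_abs P * h2_abs Q).coeff i := by
    intro i
    rw [Polynomial.coeff_mul, Polynomial.coeff_mul]
    refine (abs_sum_le_sum_abs _ _).trans (le_of_eq ?_)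
    apply sum_congr rfl
    intro x _
    rw [abs_mul, h2_abs_coeff, h2_abs_coeff]
  have h2 : ∑ i ∈ range ((h2_abs P * h2_abs Q).natDegree + 1), (h2_abs P * h2_abs Q).coeff i =
      nz P * nz Q := by
    rw [← h2_abs_eval P, ← h2_abs_eval Q, ← Polynomial.eval_mul, Polynomial.eval_eq_sum_range]
    apply sum_congr rfl
    intro i _
    rw [one_pow, mul_one]
  rw [← h2, h2_nz_eq (P * Q) (s := range ((h2_abs P * h2_abs Q).natDegree + 1))]
  · exact sum_le_sum fun i _ => h1 i
  · intro i hi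
    rw [Polynomial.mem_support_iff] at hi
    rw [mem_range, Nat.lt_succ_iff]
    apply Polynomial.le_natDegree_of_ne_zero
    intro h0
    have := h1 i
    rw [h0] at this
    exact hi (abs_eq_zero.1 (le_antisymm this (abs_nonneg _)))

theorem h2_neg (P : Polynomial ℤ) : nz (-P) = nz P := by
  unfold nz
  rw [Polynomial.support_neg]
  apply sum_congr rfl
  intro i _
  rw [Polynomial.coeff_neg, abs_neg]

theorem h2_C (c : ℤ) : nz (Polynomial.C c) ≤ |c| := by
  rw [h2_nz_eq (Polynomial.C c) (s := {0}) (Polynomial.support_C_subset c), sum_singleton,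
    Polynomial.coeff_C_zero]

theorem h2_int (c : ℤ) : nz ((c : ℤ) : Polynomial ℤ) ≤ |c| := by
  have : ((c : ℤ) : Polynomial ℤ) = Polynomial.C c := by simp
  rw [this]
  exact h2_C c

theorem h2_nat (c : ℕ) : nz ((c : ℕ) : Polynomial ℤ) ≤ (c : ℤ) := by
  have : ((c : ℕ) : Polynomial ℤ) = Polynomial.C (c : ℤ) := by simp
  rw [this]
  exact (h2_C _).trans (by simp)

theorem h2_one : nz (1 : Polynomial ℤ) ≤ 1 := by
  have := h2_C 1
  rwa [Polynomial.C_1, abs_one] at this

theorem h2_zero : nz (0 : Polynomial ℤ) ≤ 0 := by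
  have := h2_C 0
  rwa [Polynomial.C_0, abs_zero] at this

theorem h2_X : nz (Polynomial.X : Polynomial ℤ) ≤ 1 := by
  rw [h2_nz_eq (Polynomial.X : Polynomial ℤ) (s := {1})
    Polynomial.support_X.le,
    sum_singleton, Polynomial.coeff_X_one, abs_one]

theorem h2_negX : nz (-(Polynomial.X : Polynomial ℤ)) ≤ 1 := by
  rw [h2_neg]
  exact h2_X

theorem h2_badd {P Q : Polynomial ℤ} {a b : ℤ} (hP : nz P ≤ a) (hQ : nz Q ≤ b) :
    nz (P + Q) ≤ a + b := (nz_add P Q).trans (add_le_add hP hQ)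

theorem h2_bsub {P Q : Polynomial ℤ} {a b : ℤ} (hP : nz P ≤ a) (hQ : nz Q ≤ b) :
    nz (P - Q) ≤ a + b := by
  rw [sub_eq_add_neg]
  exact h2_badd hP (by rw [h2_neg]; exact hQ)

theorem h2_bmul {P Q : Polynomial ℤ} {a b : ℤ} (hP : nz P ≤ a) (hQ : nz Q ≤ b) :
    nz (P * Q) ≤ a * b :=
  (nz_mul P Q).trans (mul_le_mul hP hQ (h2_nonneg Q) ((h2_nonneg P).trans hP))

theorem h2_bpow {P : Polynomial ℤ} {a : ℤ} (hP : nz P ≤ a) (n : ℕ) : nz (P ^ n) ≤ a ^ n := by
  induction n with
  | zero =>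
    rw [pow_zero, pow_zero]
    exact h2_one
  | succ n ih =>
    rw [pow_succ, pow_succ]
    exact h2_bmul ih hP

theorem h2_bpow1 {P : Polynomial ℤ} (hP : nz P ≤ 1) (n : ℕ) : nz (P ^ n) ≤ 1 := by
  have := h2_bpow hP n
  rwa [one_pow] at this

theorem h2_bmul1 {P Q : Polynomial ℤ} {a : ℤ} (hP : nz P ≤ a) (hQ : nz Q ≤ 1) :
    nz (P * Q) ≤ a := by
  have := h2_bmul hP hQ
  rwa [mul_one] at this

theorem h2_one_bmul {P Q : Polynomial ℤ} {a : ℤ} (hP : nz P ≤ 1) (hQ : nz Q ≤ a) :
    nz (P * Q) ≤ a := by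
  have := h2_bmul hP hQ
  rwa [one_mul] at this

theorem h2_bsum {ι : Type} (s : Finset ι) (f : ι → Polynomial ℤ) (g : ι → ℤ)
    (h : ∀ i ∈ s, nz (f i) ≤ g i) : nz (∑ i ∈ s, f i) ≤ ∑ i ∈ s, g i := by
  classical
  induction s using Finset.induction_on with
  | empty =>
    rw [sum_empty, sum_empty]
    exact h2_zero
  | insert i s hi ih =>
    rw [sum_insert hi, sum_insert hi]
    exact h2_badd (h i (mem_insert_self i s)) (ih fun j hj => h j (mem_insert_of_mem hj))

theorem h2_bprod {ι : Type} (s : Finset ι) (f : ι → Polynomial ℤ) (g : ι → ℤ)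
    (h : ∀ i ∈ s, nz (f i) ≤ g i) : nz (∏ i ∈ s, f i) ≤ ∏ i ∈ s, g i := by
  classical
  induction s using Finset.induction_on with
  | empty =>
    rw [prod_empty, prod_empty]
    exact h2_one
  | insert i s hi ih =>
    rw [prod_insert hi, prod_insert hi]
    exact h2_bmul (h i (mem_insert_self i s)) (ih fun j hj => h j (mem_insert_of_mem hj))

theorem h2_bgp {y : Polynomial ℤ} (hy : nz y ≤ 1) (c : ℕ) : nz (gp y c) ≤ (c : ℤ) := by
  unfold gp
  refine (h2_bsum (range c) _ (fun _ => 1) fun i _ => h2_bpow1 hy i).trans ?_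
  simp

theorem h2_one_add {y : Polynomial ℤ} (hy : nz y ≤ 1) : nz (1 + y) ≤ 2 := by
  have := h2_badd h2_one hy
  norm_num at this
  exact this

theorem h2_one_sub {y : Polynomial ℤ} (hy : nz y ≤ 1) : nz (1 - y) ≤ 2 := by
  have := h2_bsub h2_one hy
  norm_num at this
  exact this

theorem h2_Qp (k : ℕ) : nz (Qp k (Polynomial.X : Polynomial ℤ)) ≤
    ∏ j ∈ range k, (if (j + 1) % 2 = 0 then ((j : ℤ) + 1) else 2) := by
  unfold Qp
  apply h2_bprod
  intro j _
  split_ifs with h
  · have := h2_bgp h2_X (j + 1)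
    push_cast at this
    exact this
  · exact h2_one_add (h2_bpow1 h2_X _)

theorem h2_Qm (k : ℕ) : nz (Qm k (Polynomial.X : Polynomial ℤ)) ≤
    2 ^ ((k + 1) / 2) * ∏ j ∈ range k, ((j : ℤ) + 1) := by
  unfold Qm
  apply h2_bmul (h2_bpow (h2_one_add h2_X) _)
  apply h2_bprod
  intro j _
  have := h2_bgp h2_negX (j + 1)
  push_cast at this
  exact this

theorem h2_Qd (k t u : ℕ) : nz (Qd k (t + 3) (u + 1) (Polynomial.X : Polynomial ℤ)) ≤
    ∏ j ∈ range k, (if (j + 1) % (t + 3) = 0 ∧ j + 1 ≤ (u + 1) * (t + 3) then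
          (((j + 1) / (t + 3) : ℕ) : ℤ) else 2) := by
  unfold Qd
  apply h2_bprod
  intro j _
  split_ifs with h
  · exact h2_bgp (h2_bpow1 h2_negX _) _
  · exact h2_one_sub (h2_bpow1 h2_negX _)

/-- TASK H2. From the properties of `nz` (also for negatives, powers, sums and products over finite
sets; `nz (C c) = |c|`, `nz X = 1`, `nz (gp X c) ≤ c`, ...). -/
theorem nz_EE (k : ℕ) (D : Dat) : nz (EE k D (Polynomial.X : Polynomial ℤ)) ≤ EA k D := by
  unfold EE EA
  apply h2_badd
  · apply h2_bsub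
    · apply h2_bsub
      · exact h2_bmul (h2_bmul1 (h2_nat _) (h2_bpow1 h2_X _)) (h2_bpow (h2_one_add h2_X) _)
      · apply h2_bsum
        intro i _
        apply h2_badd
        · exact h2_bmul (h2_bmul (h2_bmul1 (h2_bmul (h2_int _) (h2_bpow (h2_one_add h2_X) _))
            (h2_bpow1 h2_X _)) (h2_bpow (h2_one_sub h2_X) _)) (h2_Qp k)
        · exact h2_bmul (h2_bmul (h2_bmul1 (h2_bmul (h2_int _) (h2_bpow (h2_one_sub h2_X) _))
            (h2_bpow1 h2_negX _)) (h2_bpow (h2_one_add h2_X) _)) (h2_Qm k)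
    · apply h2_one_bmul (h2_bpow1 h2_X _)
      apply h2_bsum
      intro t _
      apply h2_bsum
      intro u _
      apply h2_bmul _ (h2_Qd k t u)
      apply h2_bsum
      intro i _
      exact h2_bmul1 (h2_int _) (h2_bpow1 h2_negX _)
  · apply h2_bmul
    · apply h2_bsum
      intro i _
      exact h2_bmul1 (h2_int _) (h2_bpow1 h2_X _)
    · refine (h2_bprod (range k) _ (fun _ => 2) fun j _ =>
        h2_one_sub (h2_bpow1 h2_negX _)).trans ?_
      rw [prod_const, card_range]

/-- TASK H2. A polynomial with small coefficients which vanishes at `Y` is `0`. Induction on the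
degree (or: divide by the largest power of `X`): `Y` divides the constant coefficient, so it is `0`. -/
theorem eq_zero_of_eval (P : Polynomial ℤ) (Y : ℤ) (hY : 0 < Y) (h : ∀ i, |P.coeff i| < Y)
    (h0 : P.eval Y = 0) : P = 0 := by
  have key : ∀ (n : ℕ) (P : Polynomial ℤ), P.natDegree ≤ n → (∀ i, |P.coeff i| < Y) →
      P.eval Y = 0 → P = 0 := by
    intro n
    induction n with
    | zero =>
      intro P hn _ h0
      have h1 := Polynomial.eq_C_of_natDegree_le_zero hn
      rw [h1, Polynomial.eval_C] at h0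
      rw [h1, h0, Polynomial.C_0]
    | succ n ih =>
      intro P hn hc h0
      have h1 := Polynomial.divX_mul_X_add P
      have h2 : P.divX.eval Y * Y + P.coeff 0 = 0 := by
        rw [← h1] at h0
        simpa using h0
      have h3 : P.coeff 0 = 0 := by
        apply Int.eq_zero_of_abs_lt_dvd (m := Y) _ (hc 0)
        exact ⟨-P.divX.eval Y, by linarith [mul_comm Y (P.divX.eval Y)]⟩
      rw [h3, add_zero] at h2
      have h4 : P.divX.eval Y = 0 := by
        rcases mul_eq_zero.1 h2 with h5 | h5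
        · exact h5
        · exact absurd h5 hY.ne'
      have h5 : P.divX = 0 := by
        apply ih P.divX _ _ h4
        · rw [Polynomial.natDegree_divX_eq_natDegree_tsub_one]
          omega
        · intro i
          rw [Polynomial.coeff_divX]
          exact hc (i + 1)
      rw [← h1, h5, h3]
      simp
  exact key P.natDegree P le_rfl h h0

/-- TASK H2. -/
theorem ident_of_eval {k : ℕ} (hk : 4 ≤ k) (D : Dat) (B : ℕ) (h : EE k D ((2 : ℤ) ^ B) = 0)
    (hA : EA k D < 2 ^ B) : Ident k D := by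
  apply ident_of_EE hk D
  apply eq_zero_of_eval _ ((2 : ℤ) ^ B) (by positivity)
  · intro i
    exact ((coeff_le_nz _ i).trans (nz_EE k D)).trans_lt hA
  · have h1 := map_EE (Polynomial.evalRingHom ((2 : ℤ) ^ B)) k D Polynomial.X
    rw [Polynomial.coe_evalRingHom, Polynomial.eval_X] at h1
    rw [h1, h]

/-! ### END H2 -/

/-! The versions for the kernel. -/

/-- `∑ i < n, f i` -/
def sumR (f : ℕ → ℤ) (n : ℕ) : ℤ := Nat.rec 0 (fun i s => s + f i) n

/-- `∏ i < n, f i` -/
def prodR (f : ℕ → ℤ) (n : ℕ) : ℤ := Nat.rec 1 (fun i s => s * f i) n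

/-- `1 + y + ... + y ^ (c - 1)` -/
def gpR (y : ℤ) (c : ℕ) : ℤ := Nat.rec 0 (fun _ s => 1 + y * s) c

/-- Horner's scheme for a list of coefficients. -/
def horR (y : ℤ) (l : List ℤ) : ℤ := l.foldr (fun c s => c + y * s) 0

/-- `EE` for the kernel; here `q` is a natural number. -/
def evE (k : ℕ) (D : Dat) (q : ℕ) : ℤ :=
  (D.den : ℤ) * ((q ^ hh k : ℕ) : ℤ) * ((1 + q : ℕ) : ℤ) ^ ((k + 1) / 2) -
    (sumR (fun i =>
      (D.dpi i * ((1 + q : ℕ) : ℤ) ^ (k / 2 % 2) * ((q ^ (k / 2 / 2 - i) : ℕ) : ℤ) *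
        (1 - (q : ℤ)) ^ (2 * i))) ((k / 2 + 1) / 2) *
      prodR (fun j => bif (j + 1) % 2 == 0 then gpR q (j + 1) else 1 + ((q ^ (j + 1) : ℕ) : ℤ)) k +
     sumR (fun i =>
      (D.dmi i * (1 - (q : ℤ)) ^ (k / 2 % 2) * (-(q : ℤ)) ^ (k / 2 / 2 - i) *
        ((1 + q : ℕ) : ℤ) ^ (2 * i))) ((k / 2 + 1) / 2) *
      (((1 + q : ℕ) : ℤ) ^ ((k + 1) / 2) * prodR (fun j => gpR (-(q : ℤ)) (j + 1)) k)) -
    ((q ^ hh k : ℕ) : ℤ) * (sumR (fun t => sumR (fun u =>
      horR (-(q : ℤ)) (((D.N.getD t []).getD u [])) *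
        prodR (fun j => bif (j + 1) % (t + 3) == 0 && Nat.ble (j + 1) ((u + 1) * (t + 3)) then
          gpR ((-(q : ℤ)) ^ (t + 3)) ((j + 1) / (t + 3)) else 1 - (-(q : ℤ)) ^ (j + 1)) k)
        (k / (t + 3))) (k - 2)) +
    horR (q : ℤ) D.L * prodR (fun j => 1 - (-(q : ℤ)) ^ (j + 1)) k

/-- the sum of the absolute values of a list -/
def absL (l : List ℤ) : ℤ := l.foldr (fun c s => (c.natAbs : ℤ) + s) 0

/-- `EA` for the kernel. -/
def evA (k : ℕ) (D : Dat) : ℤ :=
  (D.den : ℤ) * ((2 ^ ((k + 1) / 2) : ℕ) : ℤ) +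
    (sumR (fun i => ((D.dpi i).natAbs : ℤ) * ((2 ^ (k / 2 % 2 + 2 * i) : ℕ) : ℤ))
        ((k / 2 + 1) / 2) *
      prodR (fun j => bif (j + 1) % 2 == 0 then (((j + 1 : ℕ)) : ℤ) else 2) k +
     sumR (fun i => ((D.dmi i).natAbs : ℤ) * ((2 ^ (k / 2 % 2 + 2 * i) : ℕ) : ℤ))
        ((k / 2 + 1) / 2) *
      (((2 ^ ((k + 1) / 2) : ℕ) : ℤ) * prodR (fun j => ((j + 1 : ℕ) : ℤ)) k)) +
    (sumR (fun t => sumR (fun u =>
      absL (((D.N.getD t []).getD u [])) *
        prodR (fun j => bif (j + 1) % (t + 3) == 0 && Nat.ble (j + 1) ((u + 1) * (t + 3)) then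
          (((j + 1) / (t + 3) : ℕ) : ℤ) else 2) k)
        (k / (t + 3))) (k - 2)) +
    absL D.L * ((2 ^ k : ℕ) : ℤ)

/-- The lengths of the lists. -/
def lens (k : ℕ) (D : Dat) : Bool :=
  Nat.ble D.L.length (hh k) &&
    (List.range (k - 2)).all fun t => (List.range (k / (t + 3))).all fun u =>
      Nat.ble ((D.N.getD t []).getD u []).length (t + 3)

/-! ### BEGIN H3 -/

/-- TASK H3. -/
theorem sumR_eq (f : ℕ → ℤ) (n : ℕ) : sumR f n = ∑ i ∈ range n, f i := by
  induction n with
  | zero => rfl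
  | succ n ih => rw [sum_range_succ, ← ih]; rfl

/-- TASK H3. -/
theorem prodR_eq (f : ℕ → ℤ) (n : ℕ) : prodR f n = ∏ i ∈ range n, f i := by
  induction n with
  | zero => rfl
  | succ n ih => rw [prod_range_succ, ← ih]; rfl

/-- TASK H3. -/
theorem gpR_eq (y : ℤ) (c : ℕ) : gpR y c = gp y c := by
  induction c with
  | zero => rfl
  | succ c ih =>
    have h1 : gpR y (c + 1) = 1 + y * gpR y c := rfl
    rw [h1, ih]
    unfold gp
    rw [sum_range_succ', pow_zero, mul_sum]
    rw [add_comm]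
    congr 1
    refine sum_congr rfl (fun i _ => ?_)
    ring

/-- TASK H3. -/
theorem horR_eq (y : ℤ) (l : List ℤ) {n : ℕ} (h : l.length ≤ n) :
    horR y l = ∑ i ∈ range n, l.getD i 0 * y ^ i := by
  induction l generalizing n with
  | nil => simp [horR]
  | cons a l ih =>
    cases n with
    | zero => simp at h
    | succ n =>
      have h1 : horR y (a :: l) = a + y * horR y l := rfl
      have h2 : l.length ≤ n := by simpa using h
      rw [h1, ih h2, sum_range_succ']
      simp only [List.getD_cons_succ, List.getD_cons_zero, pow_zero, mul_one]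
      rw [add_comm, mul_sum]
      congr 1
      refine sum_congr rfl (fun i _ => ?_)
      ring

/-- TASK H3. -/
theorem absL_eq (l : List ℤ) {n : ℕ} (h : l.length ≤ n) :
    absL l = ∑ i ∈ range n, |l.getD i 0| := by
  induction l generalizing n with
  | nil => simp [absL]
  | cons a l ih =>
    cases n with
    | zero => simp at h
    | succ n =>
      have h1 : absL (a :: l) = (a.natAbs : ℤ) + absL l := rfl
      have h2 : l.length ≤ n := by simpa using h
      rw [h1, ih h2, sum_range_succ']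
      simp only [List.getD_cons_succ, List.getD_cons_zero, Int.natCast_natAbs]
      rw [add_comm]

theorem h3_lens {k : ℕ} {D : Dat} (h : lens k D = true) : D.L.length ≤ hh k ∧
    ∀ t < k - 2, ∀ u < k / (t + 3), ((D.N.getD t []).getD u []).length ≤ t + 3 := by
  unfold lens at h
  rw [Bool.and_eq_true, List.all_eq_true] at h
  refine ⟨Nat.le_of_ble_eq_true h.1, fun t ht u hu => ?_⟩
  have h1 := h.2 t (List.mem_range.2 ht)
  rw [List.all_eq_true] at h1
  exact Nat.le_of_ble_eq_true (h1 u (List.mem_range.2 hu))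

theorem h3_Qp (k q : ℕ) : prodR (fun j => bif (j + 1) % 2 == 0 then gpR q (j + 1) else
    1 + ((q ^ (j + 1) : ℕ) : ℤ)) k = Qp k (q : ℤ) := by
  rw [prodR_eq]
  unfold Qp
  refine prod_congr rfl (fun j _ => ?_)
  by_cases h : (j + 1) % 2 = 0
  · rw [if_pos h]
    have h1 : ((j + 1) % 2 == 0) = true := by rw [h]; rfl
    rw [h1, cond_true, gpR_eq]
  · rw [if_neg h]
    have h1 : ((j + 1) % 2 == 0) = false := by
      rw [beq_eq_false_iff_ne]
      exact h
    rw [h1, cond_false]
    push_cast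
    ring

theorem h3_Qm (k q : ℕ) : ((1 + q : ℕ) : ℤ) ^ ((k + 1) / 2) *
    prodR (fun j => gpR (-(q : ℤ)) (j + 1)) k = Qm k (q : ℤ) := by
  rw [prodR_eq]
  unfold Qm
  push_cast
  congr 1
  refine prod_congr rfl (fun j _ => ?_)
  exact gpR_eq _ _

theorem h3_cond (a b : ℕ) (c d : ℕ) : (a == b && Nat.ble c d) = decide (a = b ∧ c ≤ d) := by
  by_cases h1 : a = b <;> by_cases h2 : c ≤ d
  · rw [decide_eq_true ⟨h1, h2⟩, h1, Nat.ble_eq_true_of_le h2]
    simp
  · have h3 : Nat.ble c d = false := by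
      rw [← Bool.not_eq_true, Nat.ble_eq]
      exact h2
    rw [decide_eq_false (fun h => h2 h.2), h3, Bool.and_false]
  · have h3 : (a == b) = false := by
      rw [beq_eq_false_iff_ne]
      exact h1
    rw [decide_eq_false (fun h => h1 h.1), h3, Bool.false_and]
  · have h3 : (a == b) = false := by
      rw [beq_eq_false_iff_ne]
      exact h1
    rw [decide_eq_false (fun h => h1 h.1), h3, Bool.false_and]

theorem h3_bif {α : Type} (p : Prop) [Decidable p] (x y : α) :
    (bif decide p then x else y) = if p then x else y := by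
  by_cases h : p <;> simp [h]

theorem h3_Qd (k t u q : ℕ) : prodR (fun j => bif (j + 1) % (t + 3) == 0 &&
      Nat.ble (j + 1) ((u + 1) * (t + 3)) then
          gpR ((-(q : ℤ)) ^ (t + 3)) ((j + 1) / (t + 3)) else 1 - (-(q : ℤ)) ^ (j + 1)) k =
    Qd k (t + 3) (u + 1) (q : ℤ) := by
  rw [prodR_eq]
  unfold Qd
  refine prod_congr rfl (fun j _ => ?_)
  rw [h3_cond, h3_bif, gpR_eq]

/-- TASK H3. -/
theorem evE_eq {k : ℕ} {D : Dat} (h : lens k D = true) (q : ℕ) : evE k D q = EE k D (q : ℤ) := by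
  obtain ⟨hL, hN⟩ := h3_lens h
  unfold evE EE
  rw [h3_Qp, h3_Qm]
  simp only [h3_Qd, sumR_eq]
  rw [prodR_eq]
  rw [horR_eq (q : ℤ) D.L hL, sum_mul, sum_mul, ← sum_add_distrib]
  have hin : ∀ t ∈ range (k - 2), (∑ u ∈ range (k / (t + 3)),
      horR (-(q : ℤ)) (((D.N.getD t []).getD u [])) * Qd k (t + 3) (u + 1) (q : ℤ)) =
      ∑ u ∈ range (k / (t + 3)), (∑ i ∈ range (t + 3), (D.Ni t u i : ℤ) * (-(q : ℤ)) ^ i) *
        Qd k (t + 3) (u + 1) (q : ℤ) := by
    intro t ht
    refine sum_congr rfl (fun u hu => ?_)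
    rw [horR_eq (-(q : ℤ)) _ (hN t (mem_range.1 ht) u (mem_range.1 hu))]
    rfl
  rw [sum_congr rfl hin]
  push_cast
  rfl

/-- TASK H3. -/
theorem evA_eq {k : ℕ} {D : Dat} (h : lens k D = true) : evA k D = EA k D := by
  obtain ⟨hL, hN⟩ := h3_lens h
  unfold evA EA
  simp only [sumR_eq, prodR_eq]
  rw [absL_eq D.L hL]
  have hin : ∀ t ∈ range (k - 2), (∑ u ∈ range (k / (t + 3)),
      absL (((D.N.getD t []).getD u [])) *
        ∏ j ∈ range k, (bif (j + 1) % (t + 3) == 0 && Nat.ble (j + 1) ((u + 1) * (t + 3)) then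
          (((j + 1) / (t + 3) : ℕ) : ℤ) else 2)) =
      ∑ u ∈ range (k / (t + 3)), (∑ i ∈ range (t + 3), |D.Ni t u i|) *
        ∏ j ∈ range k, (if (j + 1) % (t + 3) = 0 ∧ j + 1 ≤ (u + 1) * (t + 3) then
          (((j + 1) / (t + 3) : ℕ) : ℤ) else 2) := by
    intro t ht
    refine sum_congr rfl (fun u hu => ?_)
    rw [absL_eq _ (hN t (mem_range.1 ht) u (mem_range.1 hu))]
    congr 1
    refine prod_congr rfl (fun j _ => ?_)
    rw [h3_cond, h3_bif]
  rw [sum_congr rfl hin]
  have h2 : ∏ j ∈ range k, (bif (j + 1) % 2 == 0 then (((j + 1 : ℕ)) : ℤ) else 2) =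
      ∏ j ∈ range k, (if (j + 1) % 2 = 0 then ((j : ℤ) + 1) else 2) := by
    refine prod_congr rfl (fun j _ => ?_)
    by_cases h : (j + 1) % 2 = 0
    · rw [if_pos h]
      have h1 : ((j + 1) % 2 == 0) = true := by rw [h]; rfl
      rw [h1, cond_true]
      push_cast
      ring
    · rw [if_neg h]
      have h1 : ((j + 1) % 2 == 0) = false := by
        rw [beq_eq_false_iff_ne]
        exact h
      rw [h1, cond_false]
  rw [h2, sum_mul, sum_mul, ← sum_add_distrib]
  have h3 : ∀ i ∈ range ((k / 2 + 1) / 2),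
      (((D.dpi i).natAbs : ℤ) * ((2 ^ (k / 2 % 2 + 2 * i) : ℕ) : ℤ) *
        (∏ j ∈ range k, (if (j + 1) % 2 = 0 then ((j : ℤ) + 1) else 2)) +
       ((D.dmi i).natAbs : ℤ) * ((2 ^ (k / 2 % 2 + 2 * i) : ℕ) : ℤ) *
        (((2 ^ ((k + 1) / 2) : ℕ) : ℤ) * ∏ j ∈ range k, ((j + 1 : ℕ) : ℤ))) =
      (|D.dpi i| * 2 ^ (k / 2 % 2) * 2 ^ (2 * i) *
        (∏ j ∈ range k, (if (j + 1) % 2 = 0 then ((j : ℤ) + 1) else 2)) +
       |D.dmi i| * 2 ^ (k / 2 % 2) * 2 ^ (2 * i) *
        (2 ^ ((k + 1) / 2) * ∏ j ∈ range k, ((j : ℤ) + 1))) := by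
    intro i _
    rw [Int.natCast_natAbs, Int.natCast_natAbs]
    push_cast
    rw [pow_add]
    ring
  rw [sum_congr rfl h3]
  push_cast
  rfl

/-- The check. -/
def certOK (k : ℕ) (D : Dat) (B : ℕ) : Bool :=
  lens k D && (decide (evE k D (2 ^ B) = 0) && decide (evA k D < ((2 ^ B : ℕ) : ℤ)))

/-- TASK H3. -/
theorem ident_of_cert {k : ℕ} (hk : 4 ≤ k) (D : Dat) (B : ℕ) (h : certOK k D B = true) :
    Ident k D := by
  unfold certOK at h
  rw [Bool.and_eq_true, Bool.and_eq_true, decide_eq_true_eq, decide_eq_true_eq] at h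
  obtain ⟨h1, h2, h3⟩ := h
  rw [evE_eq h1] at h2
  rw [evA_eq h1] at h3
  push_cast at h2 h3
  exact ident_of_eval hk D B h2 h3

/-! ### END H3 -/

end Pool.Agent.SignedQ.Sm
end

section

/-!
# Assembly for one `k`
-/

set_option autoImplicit false

namespace Pool.Agent.SignedQ.Sm

open Finset PowerSeries

theorem sum_succ_eq (k : ℕ) : ∑ v ∈ range k, (v + 1) = 2 * hh k + (k + 1) / 2 := by
  have h : ∀ k : ℕ, 2 * ∑ v ∈ range k, (v + 1) = k * (k + 1) := by
    intro k
    induction k with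
    | zero => simp
    | succ k ih => rw [sum_range_succ, mul_add, ih]; ring
  have h1 := h k
  have h2 : 2 * (2 * hh k + (k + 1) / 2) = k * (k + 1) := by
    unfold hh
    obtain ⟨m, rfl | rfl⟩ := Nat.even_or_odd' k
    · have e1 : 2 * m / 2 = m := by omega
      have e2 : (2 * m + 1) / 2 = m := by omega
      rw [e1, e2]
      ring
    · have e1 : (2 * m + 1) / 2 = m := by omega
      have e2 : (2 * m + 1 + 1) / 2 = m + 1 := by omega
      rw [e1, e2]
      ring
  omega

theorem Pr_eq (n k a : ℕ) : Pr n k a = ∏ v ∈ range k, (1 - (-X) ^ (a * (n + v + 1))) := by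
  unfold Pr
  have h := prod_Ico_add' (fun j => (1 - (-X : PowerSeries ℚ) ^ (a * (n + j)))) 0 k 1
  rw [range_eq_Ico]
  exact h.symm

theorem sum_Icc_eq (n k a : ℕ) :
    ∑ j ∈ Icc 1 k, a * (n + j) = ∑ v ∈ range k, a * (n + v + 1) := by
  have h := sum_Ico_add' (fun j => a * (n + j)) 0 k 1
  rw [range_eq_Ico]
  exact h.symm

/-- **One `k`.** -/
theorem pos_of_parts {k : ℕ} (hk : 4 ≤ k) {D : Dat} {B : ℕ} {z : ℚ} {M0 E0 : ℕ}
    (hden : 0 < D.den) (hc : certOK k D B = true) (hb : budOK k D z M0 E0 = true)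
    (hFD : ∀ n a : ℕ, Even (n * k) → Odd a → 3 ≤ a → a * (n + k) < E0 → KD.Pos n k a)
    (hTR : ∀ n a : ℕ, Even (n * k) → Odd a → 3 ≤ a → E0 ≤ a * (n + k) → a * (n + 1) < M0 →
      ∀ i < M0, 0 ≤ PowerSeries.coeff i (KC.fs n a k))
    {n a : ℕ} (hnk : Even (n * k)) (ha : Odd a) (ha3 : 3 ≤ a) : KD.Pos n k a := by
  rcases Nat.lt_or_ge (a * (n + k)) E0 with hE | hE
  · exact hFD n a hnk ha ha3 hE
  · intro f hf
    refine half hnk ha hf fun m hm => ?_
    rcases Nat.lt_or_ge m M0 with h1 | h1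
    · rw [KC.coeff_poly hf m]
      rcases Nat.lt_or_ge m (a * (n + 1)) with h2 | h2
      · exact_mod_cast KC.coeff_low (by omega) h2
      · exact_mod_cast hTR n a hnk ha ha3 hE (by omega) m h1
    · obtain ⟨hM0, hE0, hz, hz2, hαβ, hbud⟩ := bud_of_OK hk hb
      have hid := ident_of_cert hk D B hc
      have hd := natDegree_f (by omega) hf
      rw [sum_succ_eq, ← sum_Icc_eq] at hd
      have := final_pos hk hnk ha D hden hid hz hz2 hM0 hE0 hαβ hbud hE h1 (m := m) (by omega)
      rw [← Polynomial.coeff_coe, f_series hf, ← Pr_eq]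
      exact this

end Pool.Agent.SignedQ.Sm
end

section

/-!
# Data and certificates, `k = 4 .. 12`
-/

set_option autoImplicit false
set_option maxRecDepth 100000

namespace Pool.Agent.SignedQ.Sm

/-- The data for `k = 4`. -/
def D4 : Dat where
  den := 24
  dp := [3]
  dm := [1]
  N := [[[8, -8, 0]],
    [[0, -6, 0, 6]]]
  L := [0, 2, 8, 6]

theorem cert4 : certOK 4 D4 11 = true := by decide +kernel

theorem budget4 : budOK 4 D4 (313/100) 9241 9047 = true := by decide +kernel

/-- The data for `k = 5`. -/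
def D5 : Dat where
  den := 120
  dp := [15]
  dm := [1]
  N := [[[0, -40, 40]],
    [[0, -30, 0, 30]],
    [[24, -72, 72, -24, 0]]]
  L := [0, 14, 32, 42, 64, 70]

theorem cert5 : certOK 5 D5 15 = true := by decide +kernel

theorem budget5 : budOK 5 D5 (313/100) 18587 18188 = true := by decide +kernel

/-- The data for `k = 6`. -/
def D6 : Dat where
  den := 4320
  dp := [45, -285]
  dm := [-3, 11]
  N := [[[400, -1880, 1720],
     [0, -720, 720]],
    [[0, -540, 0, 540]],
    [[864, -1728, 864, 0, 0]],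
    [[-240, -120, 120, 240, 120, -120]]]
  L := [-274, -544, -380, -160, 124, 608, 964, 1760, 2140]

theorem cert6 : certOK 6 D6 23 = true := by decide +kernel

theorem budget6 : budOK 6 D6 (179/50) 3995 3543 = true := by decide +kernel

/-- The data for `k = 7`. -/
def D7 : Dat where
  den := 30240
  dp := [315, -3885]
  dm := [3, -17]
  N := [[[-560, -16520, 18760],
     [0, -5040, 5040]],
    [[-3780, 0, 3780, 0]],
    [[-6048, -6048, 12096, -12096, 12096]],
    [[-1680, -840, 840, 1680, 840, -840]],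
    [[4320, -17280, 25920, -17280, 4320, 0, 0]]]
  L := [-3902, -7424, -6532, -4928, -2716, 64, 3644, 7552, 12548, 17536, 23996, 30016]

theorem cert7 : certOK 7 D7 27 = true := by decide +kernel

theorem budget7 : budOK 7 D7 (179/50) 5283 3894 = true := by decide +kernel

/-- The data for `k = 8`. -/
def D8 : Dat where
  den := 241920
  dp := [630, -9345]
  dm := [6, -49]
  N := [[[-42560, -78400, 134400],
     [-13440, -13440, 26880]],
    [[-45360, -15120, 52920, 15120],
     [-15120, 0, 15120, 0]],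
    [[48384, -96768, 96768, -48384, 0]],
    [[-6720, -6720, 0, 6720, 6720, 0]],
    [[34560, -103680, 103680, -34560, 0, 0, 0]],
    [[0, -60480, 90720, -60480, 0, 60480, -90720, 60480]]]
  L := [0, -9296, -18152, -25392, -31216, -34000, -34104, -30128, -21728, -8784, 11000, 35024, 69168, 106288, 157864, 210000]

theorem cert8 : certOK 8 D8 31 = true := by decide +kernel

theorem budget8 : budOK 8 D8 (397/100) 858 700 = true := by decide +kernel

/-- The data for `k = 9`. -/
def D9 : Dat where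
  den := 725760
  dp := [1890, -46935]
  dm := [2, -23]
  N := [[[-395360, -215040, 771680],
     [-190400, -35840, 253120],
     [-40320, 0, 40320]],
    [[-181440, 0, 204120, 0],
     [-45360, 0, 45360, 0]],
    [[0, -145152, 290304, -290304, 145152]],
    [[-10080, 0, 10080, 10080, 0, -10080]],
    [[-311040, 0, 311040, -414720, 414720, -414720, 414720]],
    [[0, -181440, 272160, -181440, 0, 181440, -272160, 181440]],
    [[322560, -403200, 564480, -564480, 403200, -322560, 241920, 0, -241920]]]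
  L := [0, -46912, -92024, -133184, -168912, -196800, -215528, -222656, -216736, -195648, -157400, -100672, -22384, 77376, 203448, 353600, 535232, 743104, 988104, 1260992]

theorem cert9 : certOK 9 D9 35 = true := by decide +kernel

theorem budget9 : budOK 9 D9 (397/100) 6987 4719 = true := by decide +kernel

/-- The data for `k = 10`. -/
def D10 : Dat where
  den := 870912000
  dp := [113400, -3298050, 54558945]
  dm := [-120, 1890, -16097]
  N := [[[-387520000, -347200000, 861056000],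
     [-115584000, -110208000, 241920000],
     [-16128000, -16128000, 32256000]],
    [[-142884000, 0, 156492000, 0],
     [-27216000, 0, 27216000, 0]],
    [[-10450944, -384943104, 790788096, -776853504, 398877696],
     [0, -87091200, 174182400, -174182400, 87091200]],
    [[-4032000, 4032000, 8064000, 4032000, -4032000, -8064000]],
    [[0, -124416000, 373248000, -497664000, 373248000, -124416000, 0]],
    [[-163296000, 0, 163296000, -217728000, 163296000, 0, -163296000, 217728000]],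
    [[193536000, -290304000, 387072000, -290304000, 193536000, -193536000, 96768000, 96768000, -193536000]],
    [[-191600640, 60963840, 156764160, -156764160, -60963840, 191600640, -60963840, -156764160, 156764160, 60963840]]]
  L := [54542848, 105850144, 96014336, 80131744, 58612736, 32327584, 2318336, -30297056, -63806464, -96844256, -127074304, -152783456, -171172864, -179951456, -176164864, -156552416, -118488064, -57157856, 29044736, 147293344, 297245696, 489494944, 720551936, 1005773344, 1337025536]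

theorem cert10 : certOK 10 D10 50 = true := by decide +kernel

theorem budget10 : budOK 10 D10 (217/50) 1135 724 = true := by decide +kernel

/-- The data for `k = 11`. -/
def D11 : Dat where
  den := 9580032000
  dp := [1247400, -54989550, 1381332645]
  dm := [120, -2490, 27707]
  N := [[[-11541376000, 3553088000, 9732800000],
     [-3015936000, 1271424000, 1921920000],
     [-354816000, 177408000, 177408000]],
    [[-449064000, 2020788000, 449064000, -2170476000],
     [0, 299376000, 0, -299376000]],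
    [[-498161664, -4617575424, 10231474176, -10844596224, 5920459776],
     [0, -958003200, 1916006400, -1916006400, 958003200]],
    [[88704000, 44352000, -44352000, -88704000, -44352000, 44352000]],
    [[-5474304000, 2737152000, 2737152000, -5474304000, 4105728000, -2737152000, 4105728000]],
    [[0, -4191264000, 5987520000, -4191264000, 0, 4191264000, -5987520000, 4191264000]],
    [[-5322240000, 2128896000, 2128896000, -5322240000, 7451136000, -9580032000, 10644480000, -9580032000, 7451136000]],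
    [[-2107607040, 670602240, 1724405760, -1724405760, -670602240, 2107607040, -670602240, -1724405760, 1724405760, 670602240]],
    [[870912000, -5225472000, 13063680000, -17418240000, 13063680000, -5225472000, 870912000, 0, 0, 0, 0]]]
  L := [1381360352, 2707622816, 2544000064, 2275210016, 1907798464, 1450297376, 913996864, 312710816, -337603136, -1017810784, -1707279296, -2381615584, -3015388736, -3579138784, -4042367936, -4370902624, -4528732736, -4477516384, -4175078336, -3579676384, -2642079296, -1318165984, 449510464, 2706144416, 5518857664, 8932297376, 13025049664, 17839248416, 23467094464, 29945866016]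

theorem cert11 : certOK 11 D11 55 = true := by decide +kernel

theorem budget11 : budOK 11 D11 (217/50) 1306 828 = true := by decide +kernel

/-- The data for `k = 12`. -/
def D12 : Dat where
  den := 86220288000
  dp := [1871100, -93399075, 2599363305]
  dm := [180, -4785, 67793]
  N := [[[-101233440000, 21051184000, 104675648000],
     [-37144800000, 12784464000, 28884240000],
     [-7983360000, 3459456000, 4923072000],
     [-798336000, 399168000, 399168000]],
    [[-10777536000, 24118479000, 11451132000, -27935523000],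
     [-1347192000, 6960492000, 1347192000, -7409556000],
     [0, 898128000, 0, -898128000]],
    [[-62595929088, 13622805504, 53629019136, -94324995072, 96566722560],
     [-12070840320, 5173217280, 5173217280, -12070840320, 13795246080]],
    [[1995840000, 1796256000, -299376000, -2195424000, -1896048000, 399168000],
     [399168000, 199584000, -199584000, -399168000, -199584000, 199584000]],
    [[12317184000, -36951552000, 61585920000, -61585920000, 36951552000, -12317184000, 0]],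
    [[0, -18860688000, 26943840000, -18860688000, 0, 18860688000, -26943840000, 18860688000]],
    [[0, -15966720000, 35126784000, -47900160000, 51093504000, -51093504000, 47900160000, -35126784000, 15966720000]],
    [[-9484231680, 6035420160, 6035420160, -9484231680, 0, 9484231680, -6035420160, -6035420160, 9484231680, 0]],
    [[7838208000, -39191040000, 78382080000, -78382080000, 39191040000, -7838208000, 0, 0, 0, 0, 0]],
    [[0, -31135104000, 53887680000, -62270208000, 53887680000, -31135104000, 0, 31135104000, -53887680000, 62270208000, -53887680000, 31135104000]]]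
  L := [0, 2599295512, 5105458336, 7426180296, 9474913472, 11167881080, 12432243168, 13200724264, 13421087104, 13050709848, 12064727840, 10453380872, 8225971776, 5413692856, 2067030112, -1734116760, -5890600192, -10266659176, -14706255456, -19011524792, -22960224320, -26287413768, -28693866784, -29844266584, -29349733248, -26803394600, -21711683552, -13597610616, -1845006016, 14088640568, 34963463520, 61379151592, 94265222656, 134265821976, 182509983392, 239668527560]

theorem cert12 : certOK 12 D12 59 = true := by decide +kernel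

theorem budget12 : budOK 12 D12 (467/100) 1501 895 = true := by decide +kernel

end Pool.Agent.SignedQ.Sm
end
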