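import Pool.Agent.Lib.MP_cf17a0_co.Mg.G059

section

set_option autoImplicit false
set_option maxRecDepth 100000

namespace Pool.Agent.SignedQ.KD.Fd10_0

def t0 : fda 10 19 73 30 35 0 1 = true := by decide +kernel

theorem c0 : FPE 10 30 35 :=
  FP.toE (A := 1) (FP_of t0 (by norm_num) (by norm_num) (i1 := 1) rfl) (by norm_num)

def t1 : fda 10 21 103 35 41 0 1 = true := by decide +kernel

theorem c1 : FPE 10 35 41 :=
  FP.toE (A := 1) (FP_of t1 (by norm_num) (by norm_num) (i1 := 1) rfl) (by norm_num)

def t2 : fda 10 22 133 41 48 0 1 = true := by decide +kernel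

theorem c2 : FPE 10 41 48 :=
  FP.toE (A := 1) (FP_of t2 (by norm_num) (by norm_num) (i1 := 1) rfl) (by norm_num)

def t3 : fda 10 24 178 48 56 0 2 = true := by decide +kernel

theorem c3 : FPE 10 48 56 :=
  FP.toE (A := 2) (FP_of t3 (by norm_num) (by norm_num) (i1 := 2) rfl) (by norm_num)

def t4 : fda 10 25 223 56 65 0 2 = true := by decide +kernel

theorem c4 : FPE 10 56 65 :=
  FP.toE (A := 2) (FP_of t4 (by norm_num) (by norm_num) (i1 := 2) rfl) (by norm_num)

def t5 : fda 10 26 283 65 76 0 3 = true := by decide +kernel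

theorem c5 : FPE 10 65 76 :=
  FP.toE (A := 3) (FP_of t5 (by norm_num) (by norm_num) (i1 := 3) rfl) (by norm_num)

def t6 : fda 10 28 343 76 89 0 3 = true := by decide +kernel

theorem c6 : FPE 10 76 89 :=
  FP.toE (A := 3) (FP_of t6 (by norm_num) (by norm_num) (i1 := 3) rfl) (by norm_num)

def t7 : fda 10 29 418 89 104 0 4 = true := by decide +kernel

theorem c7 : FPE 10 89 104 :=
  FP.toE (A := 4) (FP_of t7 (by norm_num) (by norm_num) (i1 := 4) rfl) (by norm_num)

def t8 : fda 10 30 508 104 121 0 5 = true := by decide +kernel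

theorem c8 : FPE 10 104 121 :=
  FP.toE (A := 5) (FP_of t8 (by norm_num) (by norm_num) (i1 := 5) rfl) (by norm_num)

def t9 : fda 10 31 598 121 141 0 6 = true := by decide +kernel

theorem c9 : FPE 10 121 141 :=
  FP.toE (A := 6) (FP_of t9 (by norm_num) (by norm_num) (i1 := 6) rfl) (by norm_num)

def t10 : fda 10 32 718 141 164 0 7 = true := by decide +kernel

theorem c10 : FPE 10 141 164 :=
  FP.toE (A := 7) (FP_of t10 (by norm_num) (by norm_num) (i1 := 7) rfl) (by norm_num)

def t11 : fda 10 33 853 164 191 0 9 = true := by decide +kernel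

theorem c11 : FPE 10 164 191 :=
  FP.toE (A := 9) (FP_of t11 (by norm_num) (by norm_num) (i1 := 9) rfl) (by norm_num)

def t12 : fda 10 34 1003 191 222 0 10 = true := by decide +kernel

theorem c12 : FPE 10 191 222 :=
  FP.toE (A := 10) (FP_of t12 (by norm_num) (by norm_num) (i1 := 10) rfl) (by norm_num)

def t13 : fda 10 34 1183 222 258 0 12 = true := by decide +kernel

theorem c13 : FPE 10 222 258 :=
  FP.toE (A := 12) (FP_of t13 (by norm_num) (by norm_num) (i1 := 12) rfl) (by norm_num)

def t14 : fda 10 35 1393 258 300 0 14 = true := by decide +kernel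

theorem c14 : FPE 10 258 300 :=
  FP.toE (A := 14) (FP_of t14 (by norm_num) (by norm_num) (i1 := 14) rfl) (by norm_num)

def t15 : fda 10 36 1648 300 349 0 11 = true := by decide +kernel

def t16 : fda 10 36 1648 300 349 11 5 = true := by decide +kernel

theorem c15 : FPE 10 300 349 :=
  FP.toE (A := 16) ((FP_of t15 (by norm_num) (by norm_num) (i1 := 11) rfl).trans
    (FP_of t16 (by norm_num) (by norm_num) (i1 := 16) rfl)) (by norm_num)

def t17 : fda 10 37 1918 349 405 0 8 = true := by decide +kernel

def t18 : fda 10 37 1918 349 405 8 11 = true := by decide +kernel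

theorem c16 : FPE 10 349 405 :=
  FP.toE (A := 19) ((FP_of t17 (by norm_num) (by norm_num) (i1 := 8) rfl).trans
    (FP_of t18 (by norm_num) (by norm_num) (i1 := 19) rfl)) (by norm_num)

def t19 : fda 10 38 2248 405 470 0 5 = true := by decide +kernel

def t20 : fda 10 38 2248 405 470 5 17 = true := by decide +kernel

theorem c17 : FPE 10 405 470 :=
  FP.toE (A := 22) ((FP_of t19 (by norm_num) (by norm_num) (i1 := 5) rfl).trans
    (FP_of t20 (by norm_num) (by norm_num) (i1 := 22) rfl)) (by norm_num)

def t21 : fda 10 39 2623 470 546 0 4 = true := by decide +kernel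

def t22 : fda 10 39 2623 470 546 4 21 = true := by decide +kernel

def t23 : fda 10 39 2623 470 546 25 1 = true := by decide +kernel

theorem c18 : FPE 10 470 546 :=
  FP.toE (A := 26) (((FP_of t21 (by norm_num) (by norm_num) (i1 := 4) rfl).trans
    (FP_of t22 (by norm_num) (by norm_num) (i1 := 25) rfl)).trans
    (FP_of t23 (by norm_num) (by norm_num) (i1 := 26) rfl)) (by norm_num)

def t24 : fda 10 40 3073 546 634 0 3 = true := by decide +kernel

def t25 : fda 10 40 3073 546 634 3 11 = true := by decide +kernel

def t26 : fda 10 40 3073 546 634 14 17 = true := by decide +kernel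

theorem c19 : FPE 10 546 634 :=
  FP.toE (A := 31) (((FP_of t24 (by norm_num) (by norm_num) (i1 := 3) rfl).trans
    (FP_of t25 (by norm_num) (by norm_num) (i1 := 14) rfl)).trans
    (FP_of t26 (by norm_num) (by norm_num) (i1 := 31) rfl)) (by norm_num)

def t27 : fda 10 41 3523 634 724 0 2 = true := by decide +kernel

def t28 : fda 10 41 3523 634 724 2 8 = true := by decide +kernel

def t29 : fda 10 41 3523 634 724 10 25 = true := by decide +kernel

theorem c20 : FPE 10 634 724 :=
  FP.toE (A := 35) (((FP_of t27 (by norm_num) (by norm_num) (i1 := 2) rfl).trans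
    (FP_of t28 (by norm_num) (by norm_num) (i1 := 10) rfl)).trans
    (FP_of t29 (by norm_num) (by norm_num) (i1 := 35) rfl)) (by norm_num)

theorem fe : FPE 10 30 724 :=
  ((((((((((((((((((((c0.trans c1).trans c2).trans c3).trans c4).trans c5).trans c6).trans c7).trans c8).trans c9).trans c10).trans c11).trans c12).trans c13).trans c14).trans c15).trans c16).trans c17).trans c18).trans c19).trans c20)

end Pool.Agent.SignedQ.KD.Fd10_0
end

section

set_option autoImplicit false
set_option maxRecDepth 100000

namespace Pool.Agent.SignedQ.KD.Fd11_0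

def t0 : fda 11 20 70 33 39 0 1 = true := by decide +kernel

theorem c0 : FPE 11 33 39 :=
  FP.toE (A := 1) (FP_of t0 (by norm_num) (by norm_num) (i1 := 1) rfl) (by norm_num)

def t1 : fda 11 24 136 39 46 0 1 = true := by decide +kernel

theorem c1 : FPE 11 39 46 :=
  FP.toE (A := 1) (FP_of t1 (by norm_num) (by norm_num) (i1 := 1) rfl) (by norm_num)

def t2 : fda 11 25 169 46 54 0 1 = true := by decide +kernel

theorem c2 : FPE 11 46 54 :=
  FP.toE (A := 1) (FP_of t2 (by norm_num) (by norm_num) (i1 := 1) rfl) (by norm_num)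

def t3 : fda 11 26 202 54 63 0 2 = true := by decide +kernel

theorem c3 : FPE 11 54 63 :=
  FP.toE (A := 2) (FP_of t3 (by norm_num) (by norm_num) (i1 := 2) rfl) (by norm_num)

def t4 : fda 11 28 268 63 74 0 2 = true := by decide +kernel

theorem c4 : FPE 11 63 74 :=
  FP.toE (A := 2) (FP_of t4 (by norm_num) (by norm_num) (i1 := 2) rfl) (by norm_num)

def t5 : fda 11 29 334 74 86 0 3 = true := by decide +kernel

theorem c5 : FPE 11 74 86 :=
  FP.toE (A := 3) (FP_of t5 (by norm_num) (by norm_num) (i1 := 3) rfl) (by norm_num)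

def t6 : fda 11 30 433 86 100 0 4 = true := by decide +kernel

theorem c6 : FPE 11 86 100 :=
  FP.toE (A := 4) (FP_of t6 (by norm_num) (by norm_num) (i1 := 4) rfl) (by norm_num)

def t7 : fda 11 31 499 100 116 0 4 = true := by decide +kernel

theorem c7 : FPE 11 100 116 :=
  FP.toE (A := 4) (FP_of t7 (by norm_num) (by norm_num) (i1 := 4) rfl) (by norm_num)

def t8 : fda 11 32 598 116 135 0 5 = true := by decide +kernel

theorem c8 : FPE 11 116 135 :=
  FP.toE (A := 5) (FP_of t8 (by norm_num) (by norm_num) (i1 := 5) rfl) (by norm_num)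

def t9 : fda 11 33 730 135 157 0 6 = true := by decide +kernel

theorem c9 : FPE 11 135 157 :=
  FP.toE (A := 6) (FP_of t9 (by norm_num) (by norm_num) (i1 := 6) rfl) (by norm_num)

def t10 : fda 11 34 862 157 183 0 7 = true := by decide +kernel

theorem c10 : FPE 11 157 183 :=
  FP.toE (A := 7) (FP_of t10 (by norm_num) (by norm_num) (i1 := 7) rfl) (by norm_num)

def t11 : fda 11 35 1027 183 213 0 9 = true := by decide +kernel

theorem c11 : FPE 11 183 213 :=
  FP.toE (A := 9) (FP_of t11 (by norm_num) (by norm_num) (i1 := 9) rfl) (by norm_num)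

def t12 : fda 11 36 1225 213 248 0 10 = true := by decide +kernel

theorem c12 : FPE 11 213 248 :=
  FP.toE (A := 10) (FP_of t12 (by norm_num) (by norm_num) (i1 := 10) rfl) (by norm_num)

def t13 : fda 11 37 1456 248 288 0 12 = true := by decide +kernel

theorem c13 : FPE 11 248 288 :=
  FP.toE (A := 12) (FP_of t13 (by norm_num) (by norm_num) (i1 := 12) rfl) (by norm_num)

def t14 : fda 11 38 1720 288 335 0 14 = true := by decide +kernel

theorem c14 : FPE 11 288 335 :=
  FP.toE (A := 14) (FP_of t14 (by norm_num) (by norm_num) (i1 := 14) rfl) (by norm_num)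

def t15 : fda 11 39 2017 335 389 0 17 = true := by decide +kernel

theorem c15 : FPE 11 335 389 :=
  FP.toE (A := 17) (FP_of t15 (by norm_num) (by norm_num) (i1 := 17) rfl) (by norm_num)

def t16 : fda 11 40 2347 389 452 0 20 = true := by decide +kernel

theorem c16 : FPE 11 389 452 :=
  FP.toE (A := 20) (FP_of t16 (by norm_num) (by norm_num) (i1 := 20) rfl) (by norm_num)

def t17 : fda 11 41 2743 452 525 0 23 = true := by decide +kernel

theorem c17 : FPE 11 452 525 :=
  FP.toE (A := 23) (FP_of t17 (by norm_num) (by norm_num) (i1 := 23) rfl) (by norm_num)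

def t18 : fda 11 42 3238 525 610 0 13 = true := by decide +kernel

def t19 : fda 11 42 3238 525 610 13 14 = true := by decide +kernel

theorem c18 : FPE 11 525 610 :=
  FP.toE (A := 27) ((FP_of t18 (by norm_num) (by norm_num) (i1 := 13) rfl).trans
    (FP_of t19 (by norm_num) (by norm_num) (i1 := 27) rfl)) (by norm_num)

def t20 : fda 11 42 3766 610 708 0 11 = true := by decide +kernel

def t21 : fda 11 42 3766 610 708 11 20 = true := by decide +kernel

theorem c19 : FPE 11 610 708 :=
  FP.toE (A := 31) ((FP_of t20 (by norm_num) (by norm_num) (i1 := 11) rfl).trans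
    (FP_of t21 (by norm_num) (by norm_num) (i1 := 31) rfl)) (by norm_num)

def t22 : fda 11 43 4393 708 822 0 7 = true := by decide +kernel

def t23 : fda 11 43 4393 708 822 7 29 = true := by decide +kernel

theorem c20 : FPE 11 708 822 :=
  FP.toE (A := 36) ((FP_of t22 (by norm_num) (by norm_num) (i1 := 7) rfl).trans
    (FP_of t23 (by norm_num) (by norm_num) (i1 := 36) rfl)) (by norm_num)

def t24 : fda 11 43 4426 822 828 0 37 = true := by decide +kernel

theorem c21 : FPE 11 822 828 :=
  FP.toE (A := 37) (FP_of t24 (by norm_num) (by norm_num) (i1 := 37) rfl) (by norm_num)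

theorem fe : FPE 11 33 828 :=
  (((((((((((((((((((((c0.trans c1).trans c2).trans c3).trans c4).trans c5).trans c6).trans c7).trans c8).trans c9).trans c10).trans c11).trans c12).trans c13).trans c14).trans c15).trans c16).trans c17).trans c18).trans c19).trans c20).trans c21)

end Pool.Agent.SignedQ.KD.Fd11_0
end

section

set_option autoImplicit false
set_option maxRecDepth 100000

namespace Pool.Agent.SignedQ.KD.Fd12_0

def t0 : fda 12 23 100 36 42 0 1 = true := by decide +kernel

theorem c0 : FPE 12 36 42 :=
  FP.toE (A := 1) (FP_of t0 (by norm_num) (by norm_num) (i1 := 1) rfl) (by norm_num)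

def t1 : fda 12 27 154 42 49 0 1 = true := by decide +kernel

theorem c1 : FPE 12 42 49 :=
  FP.toE (A := 1) (FP_of t1 (by norm_num) (by norm_num) (i1 := 1) rfl) (by norm_num)

def t2 : fda 12 28 190 49 57 0 1 = true := by decide +kernel

theorem c2 : FPE 12 49 57 :=
  FP.toE (A := 1) (FP_of t2 (by norm_num) (by norm_num) (i1 := 1) rfl) (by norm_num)

def t3 : fda 12 30 262 57 67 0 2 = true := by decide +kernel

theorem c3 : FPE 12 57 67 :=
  FP.toE (A := 2) (FP_of t3 (by norm_num) (by norm_num) (i1 := 2) rfl) (by norm_num)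

def t4 : fda 12 31 316 67 78 0 2 = true := by decide +kernel

theorem c4 : FPE 12 67 78 :=
  FP.toE (A := 2) (FP_of t4 (by norm_num) (by norm_num) (i1 := 2) rfl) (by norm_num)

def t5 : fda 12 33 406 78 91 0 3 = true := by decide +kernel

theorem c5 : FPE 12 78 91 :=
  FP.toE (A := 3) (FP_of t5 (by norm_num) (by norm_num) (i1 := 3) rfl) (by norm_num)

def t6 : fda 12 34 496 91 106 0 3 = true := by decide +kernel

theorem c6 : FPE 12 91 106 :=
  FP.toE (A := 3) (FP_of t6 (by norm_num) (by norm_num) (i1 := 3) rfl) (by norm_num)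

def t7 : fda 12 36 586 106 123 0 4 = true := by decide +kernel

theorem c7 : FPE 12 106 123 :=
  FP.toE (A := 4) (FP_of t7 (by norm_num) (by norm_num) (i1 := 4) rfl) (by norm_num)

def t8 : fda 12 37 712 123 143 0 5 = true := by decide +kernel

theorem c8 : FPE 12 123 143 :=
  FP.toE (A := 5) (FP_of t8 (by norm_num) (by norm_num) (i1 := 5) rfl) (by norm_num)

def t9 : fda 12 38 856 143 166 0 6 = true := by decide +kernel

theorem c9 : FPE 12 143 166 :=
  FP.toE (A := 6) (FP_of t9 (by norm_num) (by norm_num) (i1 := 6) rfl) (by norm_num)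

def t10 : fda 12 39 1018 166 193 0 7 = true := by decide +kernel

theorem c10 : FPE 12 166 193 :=
  FP.toE (A := 7) (FP_of t10 (by norm_num) (by norm_num) (i1 := 7) rfl) (by norm_num)

def t11 : fda 12 41 1198 193 224 0 8 = true := by decide +kernel

theorem c11 : FPE 12 193 224 :=
  FP.toE (A := 8) (FP_of t11 (by norm_num) (by norm_num) (i1 := 8) rfl) (by norm_num)

def t12 : fda 12 42 1414 224 260 0 10 = true := by decide +kernel

theorem c12 : FPE 12 224 260 :=
  FP.toE (A := 10) (FP_of t12 (by norm_num) (by norm_num) (i1 := 10) rfl) (by norm_num)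

def t13 : fda 12 43 1666 260 302 0 12 = true := by decide +kernel

theorem c13 : FPE 12 260 302 :=
  FP.toE (A := 12) (FP_of t13 (by norm_num) (by norm_num) (i1 := 12) rfl) (by norm_num)

def t14 : fda 12 44 1954 302 351 0 12 = true := by decide +kernel

def t15 : fda 12 44 1954 302 351 12 2 = true := by decide +kernel

theorem c14 : FPE 12 302 351 :=
  FP.toE (A := 14) ((FP_of t14 (by norm_num) (by norm_num) (i1 := 12) rfl).trans
    (FP_of t15 (by norm_num) (by norm_num) (i1 := 14) rfl)) (by norm_num)

def t16 : fda 12 45 2296 351 408 0 7 = true := by decide +kernel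

def t17 : fda 12 45 2296 351 408 7 9 = true := by decide +kernel

theorem c15 : FPE 12 351 408 :=
  FP.toE (A := 16) ((FP_of t16 (by norm_num) (by norm_num) (i1 := 7) rfl).trans
    (FP_of t17 (by norm_num) (by norm_num) (i1 := 16) rfl)) (by norm_num)

def t18 : fda 12 46 2692 408 474 0 5 = true := by decide +kernel

def t19 : fda 12 46 2692 408 474 5 14 = true := by decide +kernel

theorem c16 : FPE 12 408 474 :=
  FP.toE (A := 19) ((FP_of t18 (by norm_num) (by norm_num) (i1 := 5) rfl).trans
    (FP_of t19 (by norm_num) (by norm_num) (i1 := 19) rfl)) (by norm_num)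

def t20 : fda 12 47 3160 474 550 0 3 = true := by decide +kernel

def t21 : fda 12 47 3160 474 550 3 16 = true := by decide +kernel

def t22 : fda 12 47 3160 474 550 19 3 = true := by decide +kernel

theorem c17 : FPE 12 474 550 :=
  FP.toE (A := 22) (((FP_of t20 (by norm_num) (by norm_num) (i1 := 3) rfl).trans
    (FP_of t21 (by norm_num) (by norm_num) (i1 := 19) rfl)).trans
    (FP_of t22 (by norm_num) (by norm_num) (i1 := 22) rfl)) (by norm_num)

def t23 : fda 12 49 3682 550 639 0 3 = true := by decide +kernel

def t24 : fda 12 49 3682 550 639 3 11 = true := by decide +kernel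

def t25 : fda 12 49 3682 550 639 14 12 = true := by decide +kernel

theorem c18 : FPE 12 550 639 :=
  FP.toE (A := 26) (((FP_of t23 (by norm_num) (by norm_num) (i1 := 3) rfl).trans
    (FP_of t24 (by norm_num) (by norm_num) (i1 := 14) rfl)).trans
    (FP_of t25 (by norm_num) (by norm_num) (i1 := 26) rfl)) (by norm_num)

def t26 : fda 12 50 4312 639 742 0 2 = true := by decide +kernel

def t27 : fda 12 50 4312 639 742 2 6 = true := by decide +kernel

def t28 : fda 12 50 4312 639 742 8 19 = true := by decide +kernel

def t29 : fda 12 50 4312 639 742 27 3 = true := by decide +kernel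

theorem c19 : FPE 12 639 742 :=
  FP.toE (A := 30) ((((FP_of t26 (by norm_num) (by norm_num) (i1 := 2) rfl).trans
    (FP_of t27 (by norm_num) (by norm_num) (i1 := 8) rfl)).trans
    (FP_of t28 (by norm_num) (by norm_num) (i1 := 27) rfl)).trans
    (FP_of t29 (by norm_num) (by norm_num) (i1 := 30) rfl)) (by norm_num)

def t30 : fda 12 51 5014 742 861 0 1 = true := by decide +kernel

def t31 : fda 12 51 5014 742 861 1 3 = true := by decide +kernel

def t32 : fda 12 51 5014 742 861 4 9 = true := by decide +kernel

def t33 : fda 12 51 5014 742 861 13 22 = true := by decide +kernel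

theorem c20 : FPE 12 742 861 :=
  FP.toE (A := 35) ((((FP_of t30 (by norm_num) (by norm_num) (i1 := 1) rfl).trans
    (FP_of t31 (by norm_num) (by norm_num) (i1 := 4) rfl)).trans
    (FP_of t32 (by norm_num) (by norm_num) (i1 := 13) rfl)).trans
    (FP_of t33 (by norm_num) (by norm_num) (i1 := 35) rfl)) (by norm_num)

def t34 : fda 12 51 5230 861 895 0 36 = true := by decide +kernel

theorem c21 : FPE 12 861 895 :=
  FP.toE (A := 36) (FP_of t34 (by norm_num) (by norm_num) (i1 := 36) rfl) (by norm_num)

theorem fe : FPE 12 36 895 :=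
  (((((((((((((((((((((c0.trans c1).trans c2).trans c3).trans c4).trans c5).trans c6).trans c7).trans c8).trans c9).trans c10).trans c11).trans c12).trans c13).trans c14).trans c15).trans c16).trans c17).trans c18).trans c19).trans c20).trans c21)

end Pool.Agent.SignedQ.KD.Fd12_0
end
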