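import Pool.Agent.Lib.MP_cf17a0_co.Mg.G059

section

set_option autoImplicit false
set_option maxRecDepth 100000

namespace Pool.Agent.SignedQ.KD.Fd13_0

def t0 : fda 13 27 134 39 46 0 1 = true := by decide +kernel

theorem c0 : FPE 13 39 46 :=
  FP.toE (A := 1) (FP_of t0 (by norm_num) (by norm_num) (i1 := 1) rfl) (by norm_num)

def t1 : fda 13 29 173 46 54 0 1 = true := by decide +kernel

theorem c1 : FPE 13 46 54 :=
  FP.toE (A := 1) (FP_of t1 (by norm_num) (by norm_num) (i1 := 1) rfl) (by norm_num)

def t2 : fda 13 30 212 54 63 0 1 = true := by decide +kernel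

theorem c2 : FPE 13 54 63 :=
  FP.toE (A := 1) (FP_of t2 (by norm_num) (by norm_num) (i1 := 1) rfl) (by norm_num)

def t3 : fda 13 32 290 63 74 0 2 = true := by decide +kernel

theorem c3 : FPE 13 63 74 :=
  FP.toE (A := 2) (FP_of t3 (by norm_num) (by norm_num) (i1 := 2) rfl) (by norm_num)

def t4 : fda 13 34 368 74 86 0 2 = true := by decide +kernel

theorem c4 : FPE 13 74 86 :=
  FP.toE (A := 2) (FP_of t4 (by norm_num) (by norm_num) (i1 := 2) rfl) (by norm_num)

def t5 : fda 13 36 485 86 100 0 3 = true := by decide +kernel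

theorem c5 : FPE 13 86 100 :=
  FP.toE (A := 3) (FP_of t5 (by norm_num) (by norm_num) (i1 := 3) rfl) (by norm_num)

def t6 : fda 13 37 563 100 116 0 3 = true := by decide +kernel

theorem c6 : FPE 13 100 116 :=
  FP.toE (A := 3) (FP_of t6 (by norm_num) (by norm_num) (i1 := 3) rfl) (by norm_num)

def t7 : fda 13 38 680 116 135 0 4 = true := by decide +kernel

theorem c7 : FPE 13 116 135 :=
  FP.toE (A := 4) (FP_of t7 (by norm_num) (by norm_num) (i1 := 4) rfl) (by norm_num)

def t8 : fda 13 39 836 135 157 0 5 = true := by decide +kernel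

theorem c8 : FPE 13 135 157 :=
  FP.toE (A := 5) (FP_of t8 (by norm_num) (by norm_num) (i1 := 5) rfl) (by norm_num)

def t9 : fda 13 41 992 157 183 0 6 = true := by decide +kernel

theorem c9 : FPE 13 157 183 :=
  FP.toE (A := 6) (FP_of t9 (by norm_num) (by norm_num) (i1 := 6) rfl) (by norm_num)

def t10 : fda 13 42 1187 183 213 0 7 = true := by decide +kernel

theorem c10 : FPE 13 183 213 :=
  FP.toE (A := 7) (FP_of t10 (by norm_num) (by norm_num) (i1 := 7) rfl) (by norm_num)

def t11 : fda 13 43 1421 213 248 0 9 = true := by decide +kernel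

theorem c11 : FPE 13 213 248 :=
  FP.toE (A := 9) (FP_of t11 (by norm_num) (by norm_num) (i1 := 9) rfl) (by norm_num)

def t12 : fda 13 44 1694 248 288 0 10 = true := by decide +kernel

theorem c12 : FPE 13 248 288 :=
  FP.toE (A := 10) (FP_of t12 (by norm_num) (by norm_num) (i1 := 10) rfl) (by norm_num)

def t13 : fda 13 46 2006 288 335 0 12 = true := by decide +kernel

theorem c13 : FPE 13 288 335 :=
  FP.toE (A := 12) (FP_of t13 (by norm_num) (by norm_num) (i1 := 12) rfl) (by norm_num)

def t14 : fda 13 47 2357 335 389 0 14 = true := by decide +kernel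

theorem c14 : FPE 13 335 389 :=
  FP.toE (A := 14) (FP_of t14 (by norm_num) (by norm_num) (i1 := 14) rfl) (by norm_num)

def t15 : fda 13 48 2747 389 452 0 16 = true := by decide +kernel

theorem c15 : FPE 13 389 452 :=
  FP.toE (A := 16) (FP_of t15 (by norm_num) (by norm_num) (i1 := 16) rfl) (by norm_num)

def t16 : fda 13 49 3215 452 525 0 19 = true := by decide +kernel

theorem c16 : FPE 13 452 525 :=
  FP.toE (A := 19) (FP_of t16 (by norm_num) (by norm_num) (i1 := 19) rfl) (by norm_num)

def t17 : fda 13 50 3800 525 610 0 13 = true := by decide +kernel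

def t18 : fda 13 50 3800 525 610 13 9 = true := by decide +kernel

theorem c17 : FPE 13 525 610 :=
  FP.toE (A := 22) ((FP_of t17 (by norm_num) (by norm_num) (i1 := 13) rfl).trans
    (FP_of t18 (by norm_num) (by norm_num) (i1 := 22) rfl)) (by norm_num)

def t19 : fda 13 51 4424 610 708 0 11 = true := by decide +kernel

def t20 : fda 13 51 4424 610 708 11 15 = true := by decide +kernel

theorem c18 : FPE 13 610 708 :=
  FP.toE (A := 26) ((FP_of t19 (by norm_num) (by norm_num) (i1 := 11) rfl).trans
    (FP_of t20 (by norm_num) (by norm_num) (i1 := 26) rfl)) (by norm_num)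

def t21 : fda 13 52 5165 708 822 0 7 = true := by decide +kernel

def t22 : fda 13 52 5165 708 822 7 24 = true := by decide +kernel

theorem c19 : FPE 13 708 822 :=
  FP.toE (A := 31) ((FP_of t21 (by norm_num) (by norm_num) (i1 := 7) rfl).trans
    (FP_of t22 (by norm_num) (by norm_num) (i1 := 31) rfl)) (by norm_num)

def t23 : fda 13 53 5828 822 923 0 11 = true := by decide +kernel

def t24 : fda 13 53 5828 822 923 11 23 = true := by decide +kernel

theorem c20 : FPE 13 822 923 :=
  FP.toE (A := 34) ((FP_of t23 (by norm_num) (by norm_num) (i1 := 11) rfl).trans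
    (FP_of t24 (by norm_num) (by norm_num) (i1 := 34) rfl)) (by norm_num)

theorem fe : FPE 13 39 923 :=
  ((((((((((((((((((((c0.trans c1).trans c2).trans c3).trans c4).trans c5).trans c6).trans c7).trans c8).trans c9).trans c10).trans c11).trans c12).trans c13).trans c14).trans c15).trans c16).trans c17).trans c18).trans c19).trans c20)

end Pool.Agent.SignedQ.KD.Fd13_0
end

section

set_option autoImplicit false
set_option maxRecDepth 100000

namespace Pool.Agent.SignedQ.KD.Fd14_0

def t0 : fda 14 30 151 42 49 0 1 = true := by decide +kernel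

theorem c0 : FPE 14 42 49 :=
  FP.toE (A := 1) (FP_of t0 (by norm_num) (by norm_num) (i1 := 1) rfl) (by norm_num)

def t1 : fda 14 32 193 49 57 0 1 = true := by decide +kernel

theorem c1 : FPE 14 49 57 :=
  FP.toE (A := 1) (FP_of t1 (by norm_num) (by norm_num) (i1 := 1) rfl) (by norm_num)

def t2 : fda 14 34 277 57 67 0 1 = true := by decide +kernel

theorem c2 : FPE 14 57 67 :=
  FP.toE (A := 1) (FP_of t2 (by norm_num) (by norm_num) (i1 := 1) rfl) (by norm_num)

def t3 : fda 14 36 340 67 78 0 2 = true := by decide +kernel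

theorem c3 : FPE 14 67 78 :=
  FP.toE (A := 2) (FP_of t3 (by norm_num) (by norm_num) (i1 := 2) rfl) (by norm_num)

def t4 : fda 14 38 445 78 91 0 2 = true := by decide +kernel

theorem c4 : FPE 14 78 91 :=
  FP.toE (A := 2) (FP_of t4 (by norm_num) (by norm_num) (i1 := 2) rfl) (by norm_num)

def t5 : fda 14 40 550 91 106 0 3 = true := by decide +kernel

theorem c5 : FPE 14 91 106 :=
  FP.toE (A := 3) (FP_of t5 (by norm_num) (by norm_num) (i1 := 3) rfl) (by norm_num)

def t6 : fda 14 41 655 106 123 0 3 = true := by decide +kernel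

theorem c6 : FPE 14 106 123 :=
  FP.toE (A := 3) (FP_of t6 (by norm_num) (by norm_num) (i1 := 3) rfl) (by norm_num)

def t7 : fda 14 43 802 123 143 0 4 = true := by decide +kernel

theorem c7 : FPE 14 123 143 :=
  FP.toE (A := 4) (FP_of t7 (by norm_num) (by norm_num) (i1 := 4) rfl) (by norm_num)

def t8 : fda 14 44 970 143 166 0 5 = true := by decide +kernel

theorem c8 : FPE 14 143 166 :=
  FP.toE (A := 5) (FP_of t8 (by norm_num) (by norm_num) (i1 := 5) rfl) (by norm_num)

def t9 : fda 14 46 1159 166 193 0 6 = true := by decide +kernel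

theorem c9 : FPE 14 166 193 :=
  FP.toE (A := 6) (FP_of t9 (by norm_num) (by norm_num) (i1 := 6) rfl) (by norm_num)

def t10 : fda 14 47 1369 193 224 0 7 = true := by decide +kernel

theorem c10 : FPE 14 193 224 :=
  FP.toE (A := 7) (FP_of t10 (by norm_num) (by norm_num) (i1 := 7) rfl) (by norm_num)

def t11 : fda 14 49 1621 224 260 0 8 = true := by decide +kernel

theorem c11 : FPE 14 224 260 :=
  FP.toE (A := 8) (FP_of t11 (by norm_num) (by norm_num) (i1 := 8) rfl) (by norm_num)

def t12 : fda 14 50 1915 260 302 0 10 = true := by decide +kernel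

theorem c12 : FPE 14 260 302 :=
  FP.toE (A := 10) (FP_of t12 (by norm_num) (by norm_num) (i1 := 10) rfl) (by norm_num)

def t13 : fda 14 51 2251 302 351 0 12 = true := by decide +kernel

theorem c13 : FPE 14 302 351 :=
  FP.toE (A := 12) (FP_of t13 (by norm_num) (by norm_num) (i1 := 12) rfl) (by norm_num)

def t14 : fda 14 53 2650 351 408 0 7 = true := by decide +kernel

def t15 : fda 14 53 2650 351 408 7 7 = true := by decide +kernel

theorem c14 : FPE 14 351 408 :=
  FP.toE (A := 14) ((FP_of t14 (by norm_num) (by norm_num) (i1 := 7) rfl).trans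
    (FP_of t15 (by norm_num) (by norm_num) (i1 := 14) rfl)) (by norm_num)

def t16 : fda 14 54 3112 408 474 0 5 = true := by decide +kernel

def t17 : fda 14 54 3112 408 474 5 11 = true := by decide +kernel

theorem c15 : FPE 14 408 474 :=
  FP.toE (A := 16) ((FP_of t16 (by norm_num) (by norm_num) (i1 := 5) rfl).trans
    (FP_of t17 (by norm_num) (by norm_num) (i1 := 16) rfl)) (by norm_num)

def t18 : fda 14 55 3595 474 542 0 4 = true := by decide +kernel

def t19 : fda 14 55 3595 474 542 4 14 = true := by decide +kernel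

theorem c16 : FPE 14 474 542 :=
  FP.toE (A := 18) ((FP_of t18 (by norm_num) (by norm_num) (i1 := 4) rfl).trans
    (FP_of t19 (by norm_num) (by norm_num) (i1 := 18) rfl)) (by norm_num)

theorem fe : FPE 14 42 542 :=
  ((((((((((((((((c0.trans c1).trans c2).trans c3).trans c4).trans c5).trans c6).trans c7).trans c8).trans c9).trans c10).trans c11).trans c12).trans c13).trans c14).trans c15).trans c16)

end Pool.Agent.SignedQ.KD.Fd14_0
end

section

set_option autoImplicit false
set_option maxRecDepth 100000

namespace Pool.Agent.SignedQ.KD.Fd15_0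

def t0 : fda 15 32 170 45 53 0 1 = true := by decide +kernel

theorem c0 : FPE 15 45 53 :=
  FP.toE (A := 1) (FP_of t0 (by norm_num) (by norm_num) (i1 := 1) rfl) (by norm_num)

def t1 : fda 15 33 215 53 62 0 1 = true := by decide +kernel

theorem c1 : FPE 15 53 62 :=
  FP.toE (A := 1) (FP_of t1 (by norm_num) (by norm_num) (i1 := 1) rfl) (by norm_num)

def t2 : fda 15 36 305 62 72 0 1 = true := by decide +kernel

theorem c2 : FPE 15 62 72 :=
  FP.toE (A := 1) (FP_of t2 (by norm_num) (by norm_num) (i1 := 1) rfl) (by norm_num)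

def t3 : fda 15 38 395 72 84 0 2 = true := by decide +kernel

theorem c3 : FPE 15 72 84 :=
  FP.toE (A := 2) (FP_of t3 (by norm_num) (by norm_num) (i1 := 2) rfl) (by norm_num)

def t4 : fda 15 40 485 84 98 0 2 = true := by decide +kernel

theorem c4 : FPE 15 84 98 :=
  FP.toE (A := 2) (FP_of t4 (by norm_num) (by norm_num) (i1 := 2) rfl) (by norm_num)

def t5 : fda 15 42 620 98 114 0 3 = true := by decide +kernel

theorem c5 : FPE 15 98 114 :=
  FP.toE (A := 3) (FP_of t5 (by norm_num) (by norm_num) (i1 := 3) rfl) (by norm_num)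

def t6 : fda 15 44 755 114 133 0 3 = true := by decide +kernel

theorem c6 : FPE 15 114 133 :=
  FP.toE (A := 3) (FP_of t6 (by norm_num) (by norm_num) (i1 := 3) rfl) (by norm_num)

def t7 : fda 15 45 935 133 155 0 4 = true := by decide +kernel

theorem c7 : FPE 15 133 155 :=
  FP.toE (A := 4) (FP_of t7 (by norm_num) (by norm_num) (i1 := 4) rfl) (by norm_num)

def t8 : fda 15 47 1115 155 180 0 5 = true := by decide +kernel

theorem c8 : FPE 15 155 180 :=
  FP.toE (A := 5) (FP_of t8 (by norm_num) (by norm_num) (i1 := 5) rfl) (by norm_num)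

def t9 : fda 15 48 1340 180 209 0 6 = true := by decide +kernel

theorem c9 : FPE 15 180 209 :=
  FP.toE (A := 6) (FP_of t9 (by norm_num) (by norm_num) (i1 := 6) rfl) (by norm_num)

def t10 : fda 15 50 1565 209 243 0 7 = true := by decide +kernel

theorem c10 : FPE 15 209 243 :=
  FP.toE (A := 7) (FP_of t10 (by norm_num) (by norm_num) (i1 := 7) rfl) (by norm_num)

def t11 : fda 15 51 1880 243 282 0 8 = true := by decide +kernel

theorem c11 : FPE 15 243 282 :=
  FP.toE (A := 8) (FP_of t11 (by norm_num) (by norm_num) (i1 := 8) rfl) (by norm_num)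

def t12 : fda 15 53 2240 282 328 0 10 = true := by decide +kernel

theorem c12 : FPE 15 282 328 :=
  FP.toE (A := 10) (FP_of t12 (by norm_num) (by norm_num) (i1 := 10) rfl) (by norm_num)

def t13 : fda 15 54 2600 328 381 0 12 = true := by decide +kernel

theorem c13 : FPE 15 328 381 :=
  FP.toE (A := 12) (FP_of t13 (by norm_num) (by norm_num) (i1 := 12) rfl) (by norm_num)

def t14 : fda 15 55 3095 381 442 0 14 = true := by decide +kernel

theorem c14 : FPE 15 381 442 :=
  FP.toE (A := 14) (FP_of t14 (by norm_num) (by norm_num) (i1 := 14) rfl) (by norm_num)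

def t15 : fda 15 57 3590 442 513 0 16 = true := by decide +kernel

theorem c15 : FPE 15 442 513 :=
  FP.toE (A := 16) (FP_of t15 (by norm_num) (by norm_num) (i1 := 16) rfl) (by norm_num)

def t16 : fda 15 58 4220 513 596 0 14 = true := by decide +kernel

def t17 : fda 15 58 4220 513 596 14 5 = true := by decide +kernel

theorem c16 : FPE 15 513 596 :=
  FP.toE (A := 19) ((FP_of t16 (by norm_num) (by norm_num) (i1 := 14) rfl).trans
    (FP_of t17 (by norm_num) (by norm_num) (i1 := 19) rfl)) (by norm_num)

def t18 : fda 15 59 4940 596 692 0 13 = true := by decide +kernel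

def t19 : fda 15 59 4940 596 692 13 9 = true := by decide +kernel

theorem c17 : FPE 15 596 692 :=
  FP.toE (A := 22) ((FP_of t18 (by norm_num) (by norm_num) (i1 := 13) rfl).trans
    (FP_of t19 (by norm_num) (by norm_num) (i1 := 22) rfl)) (by norm_num)

def t20 : fda 15 61 5795 692 803 0 7 = true := by decide +kernel

def t21 : fda 15 61 5795 692 803 7 19 = true := by decide +kernel

theorem c18 : FPE 15 692 803 :=
  FP.toE (A := 26) ((FP_of t20 (by norm_num) (by norm_num) (i1 := 7) rfl).trans
    (FP_of t21 (by norm_num) (by norm_num) (i1 := 26) rfl)) (by norm_num)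

def t22 : fda 15 62 6740 803 932 0 5 = true := by decide +kernel

def t23 : fda 15 62 6740 803 932 5 25 = true := by decide +kernel

theorem c19 : FPE 15 803 932 :=
  FP.toE (A := 30) ((FP_of t22 (by norm_num) (by norm_num) (i1 := 5) rfl).trans
    (FP_of t23 (by norm_num) (by norm_num) (i1 := 30) rfl)) (by norm_num)

def t24 : fda 15 63 7865 932 1082 0 4 = true := by decide +kernel

def t25 : fda 15 63 7865 932 1082 4 18 = true := by decide +kernel

def t26 : fda 15 63 7865 932 1082 22 13 = true := by decide +kernel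

theorem c20 : FPE 15 932 1082 :=
  FP.toE (A := 35) (((FP_of t24 (by norm_num) (by norm_num) (i1 := 4) rfl).trans
    (FP_of t25 (by norm_num) (by norm_num) (i1 := 22) rfl)).trans
    (FP_of t26 (by norm_num) (by norm_num) (i1 := 35) rfl)) (by norm_num)

def t27 : fda 15 64 8540 1082 1168 0 15 = true := by decide +kernel

def t28 : fda 15 64 8540 1082 1168 15 23 = true := by decide +kernel

theorem c21 : FPE 15 1082 1168 :=
  FP.toE (A := 38) ((FP_of t27 (by norm_num) (by norm_num) (i1 := 15) rfl).trans
    (FP_of t28 (by norm_num) (by norm_num) (i1 := 38) rfl)) (by norm_num)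

theorem fe : FPE 15 45 1168 :=
  (((((((((((((((((((((c0.trans c1).trans c2).trans c3).trans c4).trans c5).trans c6).trans c7).trans c8).trans c9).trans c10).trans c11).trans c12).trans c13).trans c14).trans c15).trans c16).trans c17).trans c18).trans c19).trans c20).trans c21)

end Pool.Agent.SignedQ.KD.Fd15_0
end
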