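import Pool.Agent.Lib.MP_cf17a0_co.Mg.G059

section

set_option autoImplicit false
set_option maxRecDepth 100000

namespace Pool.Agent.SignedQ.KD.Fd16_0

def t0 : fda 16 34 189 48 56 0 1 = true := by decide +kernel

theorem c0 : FPE 16 48 56 :=
  FP.toE (A := 1) (FP_of t0 (by norm_num) (by norm_num) (i1 := 1) rfl) (by norm_num)

def t1 : fda 16 36 261 56 65 0 1 = true := by decide +kernel

theorem c1 : FPE 16 56 65 :=
  FP.toE (A := 1) (FP_of t1 (by norm_num) (by norm_num) (i1 := 1) rfl) (by norm_num)

def t2 : fda 16 39 357 65 76 0 1 = true := by decide +kernel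

theorem c2 : FPE 16 65 76 :=
  FP.toE (A := 1) (FP_of t2 (by norm_num) (by norm_num) (i1 := 1) rfl) (by norm_num)

def t3 : fda 16 42 453 76 89 0 2 = true := by decide +kernel

theorem c3 : FPE 16 76 89 :=
  FP.toE (A := 2) (FP_of t3 (by norm_num) (by norm_num) (i1 := 2) rfl) (by norm_num)

def t4 : fda 16 44 573 89 104 0 2 = true := by decide +kernel

theorem c4 : FPE 16 89 104 :=
  FP.toE (A := 2) (FP_of t4 (by norm_num) (by norm_num) (i1 := 2) rfl) (by norm_num)

def t5 : fda 16 46 717 104 121 0 3 = true := by decide +kernel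

theorem c5 : FPE 16 104 121 :=
  FP.toE (A := 3) (FP_of t5 (by norm_num) (by norm_num) (i1 := 3) rfl) (by norm_num)

def t6 : fda 16 48 861 121 141 0 3 = true := by decide +kernel

theorem c6 : FPE 16 121 141 :=
  FP.toE (A := 3) (FP_of t6 (by norm_num) (by norm_num) (i1 := 3) rfl) (by norm_num)

def t7 : fda 16 50 1053 141 164 0 4 = true := by decide +kernel

theorem c7 : FPE 16 141 164 :=
  FP.toE (A := 4) (FP_of t7 (by norm_num) (by norm_num) (i1 := 4) rfl) (by norm_num)

def t8 : fda 16 52 1269 164 191 0 5 = true := by decide +kernel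

theorem c8 : FPE 16 164 191 :=
  FP.toE (A := 5) (FP_of t8 (by norm_num) (by norm_num) (i1 := 5) rfl) (by norm_num)

def t9 : fda 16 53 1509 191 222 0 6 = true := by decide +kernel

theorem c9 : FPE 16 191 222 :=
  FP.toE (A := 6) (FP_of t9 (by norm_num) (by norm_num) (i1 := 6) rfl) (by norm_num)

def t10 : fda 16 55 1797 222 258 0 7 = true := by decide +kernel

theorem c10 : FPE 16 222 258 :=
  FP.toE (A := 7) (FP_of t10 (by norm_num) (by norm_num) (i1 := 7) rfl) (by norm_num)

def t11 : fda 16 57 2133 258 300 0 8 = true := by decide +kernel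

theorem c11 : FPE 16 258 300 :=
  FP.toE (A := 8) (FP_of t11 (by norm_num) (by norm_num) (i1 := 8) rfl) (by norm_num)

def t12 : fda 16 59 2541 300 349 0 10 = true := by decide +kernel

theorem c12 : FPE 16 300 349 :=
  FP.toE (A := 10) (FP_of t12 (by norm_num) (by norm_num) (i1 := 10) rfl) (by norm_num)

def t13 : fda 16 60 2973 349 405 0 8 = true := by decide +kernel

def t14 : fda 16 60 2973 349 405 8 4 = true := by decide +kernel

theorem c13 : FPE 16 349 405 :=
  FP.toE (A := 12) ((FP_of t13 (by norm_num) (by norm_num) (i1 := 8) rfl).trans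
    (FP_of t14 (by norm_num) (by norm_num) (i1 := 12) rfl)) (by norm_num)

def t15 : fda 16 62 3501 405 470 0 5 = true := by decide +kernel

def t16 : fda 16 62 3501 405 470 5 9 = true := by decide +kernel

theorem c14 : FPE 16 405 470 :=
  FP.toE (A := 14) ((FP_of t15 (by norm_num) (by norm_num) (i1 := 5) rfl).trans
    (FP_of t16 (by norm_num) (by norm_num) (i1 := 14) rfl)) (by norm_num)

def t17 : fda 16 63 4101 470 546 0 4 = true := by decide +kernel

def t18 : fda 16 63 4101 470 546 4 12 = true := by decide +kernel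

theorem c15 : FPE 16 470 546 :=
  FP.toE (A := 16) ((FP_of t17 (by norm_num) (by norm_num) (i1 := 4) rfl).trans
    (FP_of t18 (by norm_num) (by norm_num) (i1 := 16) rfl)) (by norm_num)

def t19 : fda 16 65 4821 546 634 0 3 = true := by decide +kernel

def t20 : fda 16 65 4821 546 634 3 11 = true := by decide +kernel

def t21 : fda 16 65 4821 546 634 14 5 = true := by decide +kernel

theorem c16 : FPE 16 546 634 :=
  FP.toE (A := 19) (((FP_of t19 (by norm_num) (by norm_num) (i1 := 3) rfl).trans
    (FP_of t20 (by norm_num) (by norm_num) (i1 := 14) rfl)).trans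
    (FP_of t21 (by norm_num) (by norm_num) (i1 := 19) rfl)) (by norm_num)

def t22 : fda 16 65 5109 634 672 0 20 = true := by decide +kernel

theorem c17 : FPE 16 634 672 :=
  FP.toE (A := 20) (FP_of t22 (by norm_num) (by norm_num) (i1 := 20) rfl) (by norm_num)

theorem fe : FPE 16 48 672 :=
  (((((((((((((((((c0.trans c1).trans c2).trans c3).trans c4).trans c5).trans c6).trans c7).trans c8).trans c9).trans c10).trans c11).trans c12).trans c13).trans c14).trans c15).trans c16).trans c17)

end Pool.Agent.SignedQ.KD.Fd16_0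
end

section

set_option autoImplicit false
set_option maxRecDepth 100000

namespace Pool.Agent.SignedQ.KD.Fd17_0

def t0 : fda 17 36 209 51 60 0 1 = true := by decide +kernel

theorem c0 : FPE 17 51 60 :=
  FP.toE (A := 1) (FP_of t0 (by norm_num) (by norm_num) (i1 := 1) rfl) (by norm_num)

def t1 : fda 17 40 311 60 70 0 1 = true := by decide +kernel

theorem c1 : FPE 17 60 70 :=
  FP.toE (A := 1) (FP_of t1 (by norm_num) (by norm_num) (i1 := 1) rfl) (by norm_num)

def t2 : fda 17 43 413 70 82 0 1 = true := by decide +kernel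

theorem c2 : FPE 17 70 82 :=
  FP.toE (A := 1) (FP_of t2 (by norm_num) (by norm_num) (i1 := 1) rfl) (by norm_num)

def t3 : fda 17 45 515 82 96 0 2 = true := by decide +kernel

theorem c3 : FPE 17 82 96 :=
  FP.toE (A := 2) (FP_of t3 (by norm_num) (by norm_num) (i1 := 2) rfl) (by norm_num)

def t4 : fda 17 47 668 96 112 0 2 = true := by decide +kernel

theorem c4 : FPE 17 96 112 :=
  FP.toE (A := 2) (FP_of t4 (by norm_num) (by norm_num) (i1 := 2) rfl) (by norm_num)

def t5 : fda 17 49 821 112 130 0 3 = true := by decide +kernel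

theorem c5 : FPE 17 112 130 :=
  FP.toE (A := 3) (FP_of t5 (by norm_num) (by norm_num) (i1 := 3) rfl) (by norm_num)

def t6 : fda 17 51 974 130 151 0 3 = true := by decide +kernel

theorem c6 : FPE 17 130 151 :=
  FP.toE (A := 3) (FP_of t6 (by norm_num) (by norm_num) (i1 := 3) rfl) (by norm_num)

def t7 : fda 17 52 1178 151 176 0 4 = true := by decide +kernel

theorem c7 : FPE 17 151 176 :=
  FP.toE (A := 4) (FP_of t7 (by norm_num) (by norm_num) (i1 := 4) rfl) (by norm_num)

def t8 : fda 17 54 1433 176 205 0 5 = true := by decide +kernel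

theorem c8 : FPE 17 176 205 :=
  FP.toE (A := 5) (FP_of t8 (by norm_num) (by norm_num) (i1 := 5) rfl) (by norm_num)

def t9 : fda 17 56 1739 205 238 0 6 = true := by decide +kernel

theorem c9 : FPE 17 205 238 :=
  FP.toE (A := 6) (FP_of t9 (by norm_num) (by norm_num) (i1 := 6) rfl) (by norm_num)

def t10 : fda 17 58 2045 238 277 0 7 = true := by decide +kernel

theorem c10 : FPE 17 238 277 :=
  FP.toE (A := 7) (FP_of t10 (by norm_num) (by norm_num) (i1 := 7) rfl) (by norm_num)

def t11 : fda 17 60 2453 277 322 0 8 = true := by decide +kernel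

theorem c11 : FPE 17 277 322 :=
  FP.toE (A := 8) (FP_of t11 (by norm_num) (by norm_num) (i1 := 8) rfl) (by norm_num)

def t12 : fda 17 61 2861 322 374 0 10 = true := by decide +kernel

theorem c12 : FPE 17 322 374 :=
  FP.toE (A := 10) (FP_of t12 (by norm_num) (by norm_num) (i1 := 10) rfl) (by norm_num)

def t13 : fda 17 63 3371 374 434 0 12 = true := by decide +kernel

theorem c13 : FPE 17 374 434 :=
  FP.toE (A := 12) (FP_of t13 (by norm_num) (by norm_num) (i1 := 12) rfl) (by norm_num)

def t14 : fda 17 64 3983 434 504 0 14 = true := by decide +kernel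

theorem c14 : FPE 17 434 504 :=
  FP.toE (A := 14) (FP_of t14 (by norm_num) (by norm_num) (i1 := 14) rfl) (by norm_num)

def t15 : fda 17 66 4646 504 585 0 16 = true := by decide +kernel

theorem c15 : FPE 17 504 585 :=
  FP.toE (A := 16) (FP_of t15 (by norm_num) (by norm_num) (i1 := 16) rfl) (by norm_num)

def t16 : fda 17 67 5462 585 679 0 11 = true := by decide +kernel

def t17 : fda 17 67 5462 585 679 11 8 = true := by decide +kernel

theorem c16 : FPE 17 585 679 :=
  FP.toE (A := 19) ((FP_of t16 (by norm_num) (by norm_num) (i1 := 11) rfl).trans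
    (FP_of t17 (by norm_num) (by norm_num) (i1 := 19) rfl)) (by norm_num)

def t18 : fda 17 69 6125 679 759 0 21 = true := by decide +kernel

theorem c17 : FPE 17 679 759 :=
  FP.toE (A := 21) (FP_of t18 (by norm_num) (by norm_num) (i1 := 21) rfl) (by norm_num)

theorem fe : FPE 17 51 759 :=
  (((((((((((((((((c0.trans c1).trans c2).trans c3).trans c4).trans c5).trans c6).trans c7).trans c8).trans c9).trans c10).trans c11).trans c12).trans c13).trans c14).trans c15).trans c16).trans c17)

end Pool.Agent.SignedQ.KD.Fd17_0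
end

section

set_option autoImplicit false
set_option maxRecDepth 100000

namespace Pool.Agent.SignedQ.KD.Fd18_0

def t0 : fda 18 39 230 54 63 0 1 = true := by decide +kernel

theorem c0 : FPE 18 54 63 :=
  FP.toE (A := 1) (FP_of t0 (by norm_num) (by norm_num) (i1 := 1) rfl) (by norm_num)

def t1 : fda 18 43 338 63 74 0 1 = true := by decide +kernel

theorem c1 : FPE 18 63 74 :=
  FP.toE (A := 1) (FP_of t1 (by norm_num) (by norm_num) (i1 := 1) rfl) (by norm_num)

def t2 : fda 18 46 446 74 86 0 1 = true := by decide +kernel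

theorem c2 : FPE 18 74 86 :=
  FP.toE (A := 1) (FP_of t2 (by norm_num) (by norm_num) (i1 := 1) rfl) (by norm_num)

def t3 : fda 18 48 581 86 100 0 2 = true := by decide +kernel

theorem c3 : FPE 18 86 100 :=
  FP.toE (A := 2) (FP_of t3 (by norm_num) (by norm_num) (i1 := 2) rfl) (by norm_num)

def t4 : fda 18 51 716 100 116 0 2 = true := by decide +kernel

theorem c4 : FPE 18 100 116 :=
  FP.toE (A := 2) (FP_of t4 (by norm_num) (by norm_num) (i1 := 2) rfl) (by norm_num)

def t5 : fda 18 53 878 116 135 0 3 = true := by decide +kernel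

theorem c5 : FPE 18 116 135 :=
  FP.toE (A := 3) (FP_of t5 (by norm_num) (by norm_num) (i1 := 3) rfl) (by norm_num)

def t6 : fda 18 55 1094 135 157 0 3 = true := by decide +kernel

theorem c6 : FPE 18 135 157 :=
  FP.toE (A := 3) (FP_of t6 (by norm_num) (by norm_num) (i1 := 3) rfl) (by norm_num)

def t7 : fda 18 57 1310 157 183 0 4 = true := by decide +kernel

theorem c7 : FPE 18 157 183 :=
  FP.toE (A := 4) (FP_of t7 (by norm_num) (by norm_num) (i1 := 4) rfl) (by norm_num)

def t8 : fda 18 59 1580 183 213 0 5 = true := by decide +kernel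

theorem c8 : FPE 18 183 213 :=
  FP.toE (A := 5) (FP_of t8 (by norm_num) (by norm_num) (i1 := 5) rfl) (by norm_num)

def t9 : fda 18 61 1904 213 248 0 6 = true := by decide +kernel

theorem c9 : FPE 18 213 248 :=
  FP.toE (A := 6) (FP_of t9 (by norm_num) (by norm_num) (i1 := 6) rfl) (by norm_num)

def t10 : fda 18 63 2255 248 288 0 7 = true := by decide +kernel

theorem c10 : FPE 18 248 288 :=
  FP.toE (A := 7) (FP_of t10 (by norm_num) (by norm_num) (i1 := 7) rfl) (by norm_num)

def t11 : fda 18 65 2687 288 335 0 8 = true := by decide +kernel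

theorem c11 : FPE 18 288 335 :=
  FP.toE (A := 8) (FP_of t11 (by norm_num) (by norm_num) (i1 := 8) rfl) (by norm_num)

def t12 : fda 18 67 3173 335 389 0 8 = true := by decide +kernel

def t13 : fda 18 67 3173 335 389 8 2 = true := by decide +kernel

theorem c12 : FPE 18 335 389 :=
  FP.toE (A := 10) ((FP_of t12 (by norm_num) (by norm_num) (i1 := 8) rfl).trans
    (FP_of t13 (by norm_num) (by norm_num) (i1 := 10) rfl)) (by norm_num)

def t14 : fda 18 69 3740 389 452 0 5 = true := by decide +kernel

def t15 : fda 18 69 3740 389 452 5 7 = true := by decide +kernel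

theorem c13 : FPE 18 389 452 :=
  FP.toE (A := 12) ((FP_of t14 (by norm_num) (by norm_num) (i1 := 5) rfl).trans
    (FP_of t15 (by norm_num) (by norm_num) (i1 := 12) rfl)) (by norm_num)

def t16 : fda 18 71 4388 452 525 0 4 = true := by decide +kernel

def t17 : fda 18 71 4388 452 525 4 10 = true := by decide +kernel

theorem c14 : FPE 18 452 525 :=
  FP.toE (A := 14) ((FP_of t16 (by norm_num) (by norm_num) (i1 := 4) rfl).trans
    (FP_of t17 (by norm_num) (by norm_num) (i1 := 14) rfl)) (by norm_num)

def t18 : fda 18 72 5171 525 610 0 3 = true := by decide +kernel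

def t19 : fda 18 72 5171 525 610 3 12 = true := by decide +kernel

def t20 : fda 18 72 5171 525 610 15 1 = true := by decide +kernel

theorem c15 : FPE 18 525 610 :=
  FP.toE (A := 16) (((FP_of t18 (by norm_num) (by norm_num) (i1 := 3) rfl).trans
    (FP_of t19 (by norm_num) (by norm_num) (i1 := 15) rfl)).trans
    (FP_of t20 (by norm_num) (by norm_num) (i1 := 16) rfl)) (by norm_num)

def t21 : fda 18 74 6035 610 708 0 2 = true := by decide +kernel

def t22 : fda 18 74 6035 610 708 2 7 = true := by decide +kernel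

def t23 : fda 18 74 6035 610 708 9 10 = true := by decide +kernel

theorem c16 : FPE 18 610 708 :=
  FP.toE (A := 19) (((FP_of t21 (by norm_num) (by norm_num) (i1 := 2) rfl).trans
    (FP_of t22 (by norm_num) (by norm_num) (i1 := 9) rfl)).trans
    (FP_of t23 (by norm_num) (by norm_num) (i1 := 19) rfl)) (by norm_num)

def t24 : fda 18 76 6980 708 812 0 2 = true := by decide +kernel

def t25 : fda 18 76 6980 708 812 2 6 = true := by decide +kernel

def t26 : fda 18 76 6980 708 812 8 14 = true := by decide +kernel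

theorem c17 : FPE 18 708 812 :=
  FP.toE (A := 22) (((FP_of t24 (by norm_num) (by norm_num) (i1 := 2) rfl).trans
    (FP_of t25 (by norm_num) (by norm_num) (i1 := 8) rfl)).trans
    (FP_of t26 (by norm_num) (by norm_num) (i1 := 22) rfl)) (by norm_num)

theorem fe : FPE 18 54 812 :=
  (((((((((((((((((c0.trans c1).trans c2).trans c3).trans c4).trans c5).trans c6).trans c7).trans c8).trans c9).trans c10).trans c11).trans c12).trans c13).trans c14).trans c15).trans c16).trans c17)

end Pool.Agent.SignedQ.KD.Fd18_0
end
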