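import Pool.Agent.Lib.MP_cf17a0_co.Mg.G059

section

set_option autoImplicit false
set_option maxRecDepth 100000

namespace Pool.Agent.SignedQ.KD.Fd19_0

def t0 : fda 19 41 253 57 67 0 1 = true := by decide +kernel

theorem c0 : FPE 19 57 67 :=
  FP.toE (A := 1) (FP_of t0 (by norm_num) (by norm_num) (i1 := 1) rfl) (by norm_num)

def t1 : fda 19 45 367 67 78 0 1 = true := by decide +kernel

theorem c1 : FPE 19 67 78 :=
  FP.toE (A := 1) (FP_of t1 (by norm_num) (by norm_num) (i1 := 1) rfl) (by norm_num)

def t2 : fda 19 48 481 78 91 0 1 = true := by decide +kernel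

theorem c2 : FPE 19 78 91 :=
  FP.toE (A := 1) (FP_of t2 (by norm_num) (by norm_num) (i1 := 1) rfl) (by norm_num)

def t3 : fda 19 51 652 91 106 0 2 = true := by decide +kernel

theorem c3 : FPE 19 91 106 :=
  FP.toE (A := 2) (FP_of t3 (by norm_num) (by norm_num) (i1 := 2) rfl) (by norm_num)

def t4 : fda 19 53 766 106 123 0 2 = true := by decide +kernel

theorem c4 : FPE 19 106 123 :=
  FP.toE (A := 2) (FP_of t4 (by norm_num) (by norm_num) (i1 := 2) rfl) (by norm_num)

def t5 : fda 19 55 994 123 143 0 3 = true := by decide +kernel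

theorem c5 : FPE 19 123 143 :=
  FP.toE (A := 3) (FP_of t5 (by norm_num) (by norm_num) (i1 := 3) rfl) (by norm_num)

def t6 : fda 19 58 1222 143 166 0 3 = true := by decide +kernel

theorem c6 : FPE 19 143 166 :=
  FP.toE (A := 3) (FP_of t6 (by norm_num) (by norm_num) (i1 := 3) rfl) (by norm_num)

def t7 : fda 19 59 1450 166 193 0 4 = true := by decide +kernel

theorem c7 : FPE 19 166 193 :=
  FP.toE (A := 4) (FP_of t7 (by norm_num) (by norm_num) (i1 := 4) rfl) (by norm_num)

def t8 : fda 19 61 1735 193 224 0 5 = true := by decide +kernel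

theorem c8 : FPE 19 193 224 :=
  FP.toE (A := 5) (FP_of t8 (by norm_num) (by norm_num) (i1 := 5) rfl) (by norm_num)

def t9 : fda 19 63 2077 224 260 0 6 = true := by decide +kernel

theorem c9 : FPE 19 224 260 :=
  FP.toE (A := 6) (FP_of t9 (by norm_num) (by norm_num) (i1 := 6) rfl) (by norm_num)

def t10 : fda 19 65 2476 260 302 0 7 = true := by decide +kernel

theorem c10 : FPE 19 260 302 :=
  FP.toE (A := 7) (FP_of t10 (by norm_num) (by norm_num) (i1 := 7) rfl) (by norm_num)

def t11 : fda 19 67 2932 302 351 0 8 = true := by decide +kernel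

theorem c11 : FPE 19 302 351 :=
  FP.toE (A := 8) (FP_of t11 (by norm_num) (by norm_num) (i1 := 8) rfl) (by norm_num)

def t12 : fda 19 69 3502 351 408 0 10 = true := by decide +kernel

theorem c12 : FPE 19 351 408 :=
  FP.toE (A := 10) (FP_of t12 (by norm_num) (by norm_num) (i1 := 10) rfl) (by norm_num)

def t13 : fda 19 71 4129 408 474 0 11 = true := by decide +kernel

theorem c13 : FPE 19 408 474 :=
  FP.toE (A := 11) (FP_of t13 (by norm_num) (by norm_num) (i1 := 11) rfl) (by norm_num)

def t14 : fda 19 73 4870 474 550 0 13 = true := by decide +kernel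

theorem c14 : FPE 19 474 550 :=
  FP.toE (A := 13) (FP_of t14 (by norm_num) (by norm_num) (i1 := 13) rfl) (by norm_num)

def t15 : fda 19 75 5668 550 639 0 13 = true := by decide +kernel

def t16 : fda 19 75 5668 550 639 13 3 = true := by decide +kernel

theorem c15 : FPE 19 550 639 :=
  FP.toE (A := 16) ((FP_of t15 (by norm_num) (by norm_num) (i1 := 13) rfl).trans
    (FP_of t16 (by norm_num) (by norm_num) (i1 := 16) rfl)) (by norm_num)

def t17 : fda 19 77 6694 639 742 0 9 = true := by decide +kernel

def t18 : fda 19 77 6694 639 742 9 10 = true := by decide +kernel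

theorem c16 : FPE 19 639 742 :=
  FP.toE (A := 19) ((FP_of t17 (by norm_num) (by norm_num) (i1 := 9) rfl).trans
    (FP_of t18 (by norm_num) (by norm_num) (i1 := 19) rfl)) (by norm_num)

def t19 : fda 19 78 7777 742 861 0 7 = true := by decide +kernel

def t20 : fda 19 78 7777 742 861 7 15 = true := by decide +kernel

theorem c17 : FPE 19 742 861 :=
  FP.toE (A := 22) ((FP_of t19 (by norm_num) (by norm_num) (i1 := 7) rfl).trans
    (FP_of t20 (by norm_num) (by norm_num) (i1 := 22) rfl)) (by norm_num)

def t21 : fda 19 79 8176 861 898 0 23 = true := by decide +kernel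

theorem c18 : FPE 19 861 898 :=
  FP.toE (A := 23) (FP_of t21 (by norm_num) (by norm_num) (i1 := 23) rfl) (by norm_num)

theorem fe : FPE 19 57 898 :=
  ((((((((((((((((((c0.trans c1).trans c2).trans c3).trans c4).trans c5).trans c6).trans c7).trans c8).trans c9).trans c10).trans c11).trans c12).trans c13).trans c14).trans c15).trans c16).trans c17).trans c18)

end Pool.Agent.SignedQ.KD.Fd19_0
end

section

set_option autoImplicit false
set_option maxRecDepth 100000

namespace Pool.Agent.SignedQ.KD.Fd20_0

def t0 : fda 20 43 306 60 70 0 1 = true := by decide +kernel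

theorem c0 : FPE 20 60 70 :=
  FP.toE (A := 1) (FP_of t0 (by norm_num) (by norm_num) (i1 := 1) rfl) (by norm_num)

def t1 : fda 20 48 426 70 82 0 1 = true := by decide +kernel

theorem c1 : FPE 20 70 82 :=
  FP.toE (A := 1) (FP_of t1 (by norm_num) (by norm_num) (i1 := 1) rfl) (by norm_num)

def t2 : fda 20 51 546 82 96 0 1 = true := by decide +kernel

theorem c2 : FPE 20 82 96 :=
  FP.toE (A := 1) (FP_of t2 (by norm_num) (by norm_num) (i1 := 1) rfl) (by norm_num)

def t3 : fda 20 54 726 96 112 0 2 = true := by decide +kernel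

theorem c3 : FPE 20 96 112 :=
  FP.toE (A := 2) (FP_of t3 (by norm_num) (by norm_num) (i1 := 2) rfl) (by norm_num)

def t4 : fda 20 57 906 112 130 0 2 = true := by decide +kernel

theorem c4 : FPE 20 112 130 :=
  FP.toE (A := 2) (FP_of t4 (by norm_num) (by norm_num) (i1 := 2) rfl) (by norm_num)

def t5 : fda 20 60 1116 130 151 0 3 = true := by decide +kernel

theorem c5 : FPE 20 130 151 :=
  FP.toE (A := 3) (FP_of t5 (by norm_num) (by norm_num) (i1 := 3) rfl) (by norm_num)

def t6 : fda 20 62 1356 151 176 0 3 = true := by decide +kernel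

theorem c6 : FPE 20 151 176 :=
  FP.toE (A := 3) (FP_of t6 (by norm_num) (by norm_num) (i1 := 3) rfl) (by norm_num)

def t7 : fda 20 65 1656 176 205 0 4 = true := by decide +kernel

theorem c7 : FPE 20 176 205 :=
  FP.toE (A := 4) (FP_of t7 (by norm_num) (by norm_num) (i1 := 4) rfl) (by norm_num)

def t8 : fda 20 67 1986 205 238 0 5 = true := by decide +kernel

theorem c8 : FPE 20 205 238 :=
  FP.toE (A := 5) (FP_of t8 (by norm_num) (by norm_num) (i1 := 5) rfl) (by norm_num)

def t9 : fda 20 69 2376 238 277 0 6 = true := by decide +kernel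

theorem c9 : FPE 20 238 277 :=
  FP.toE (A := 6) (FP_of t9 (by norm_num) (by norm_num) (i1 := 6) rfl) (by norm_num)

def t10 : fda 20 71 2826 277 322 0 7 = true := by decide +kernel

theorem c10 : FPE 20 277 322 :=
  FP.toE (A := 7) (FP_of t10 (by norm_num) (by norm_num) (i1 := 7) rfl) (by norm_num)

def t11 : fda 20 73 3336 322 374 0 8 = true := by decide +kernel

theorem c11 : FPE 20 322 374 :=
  FP.toE (A := 8) (FP_of t11 (by norm_num) (by norm_num) (i1 := 8) rfl) (by norm_num)

def t12 : fda 20 75 3936 374 434 0 6 = true := by decide +kernel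

def t13 : fda 20 75 3936 374 434 6 4 = true := by decide +kernel

theorem c12 : FPE 20 374 434 :=
  FP.toE (A := 10) ((FP_of t12 (by norm_num) (by norm_num) (i1 := 6) rfl).trans
    (FP_of t13 (by norm_num) (by norm_num) (i1 := 10) rfl)) (by norm_num)

def t14 : fda 20 77 4626 434 504 0 5 = true := by decide +kernel

def t15 : fda 20 77 4626 434 504 5 7 = true := by decide +kernel

theorem c13 : FPE 20 434 504 :=
  FP.toE (A := 12) ((FP_of t14 (by norm_num) (by norm_num) (i1 := 5) rfl).trans
    (FP_of t15 (by norm_num) (by norm_num) (i1 := 12) rfl)) (by norm_num)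

def t16 : fda 20 80 5436 504 585 0 3 = true := by decide +kernel

def t17 : fda 20 80 5436 504 585 3 11 = true := by decide +kernel

theorem c14 : FPE 20 504 585 :=
  FP.toE (A := 14) ((FP_of t16 (by norm_num) (by norm_num) (i1 := 3) rfl).trans
    (FP_of t17 (by norm_num) (by norm_num) (i1 := 14) rfl)) (by norm_num)

def t18 : fda 20 82 6396 585 679 0 2 = true := by decide +kernel

def t19 : fda 20 82 6396 585 679 2 7 = true := by decide +kernel

def t20 : fda 20 82 6396 585 679 9 7 = true := by decide +kernel

theorem c15 : FPE 20 585 679 :=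
  FP.toE (A := 16) (((FP_of t18 (by norm_num) (by norm_num) (i1 := 2) rfl).trans
    (FP_of t19 (by norm_num) (by norm_num) (i1 := 9) rfl)).trans
    (FP_of t20 (by norm_num) (by norm_num) (i1 := 16) rfl)) (by norm_num)

def t21 : fda 20 84 7476 679 788 0 2 = true := by decide +kernel

def t22 : fda 20 84 7476 679 788 2 6 = true := by decide +kernel

def t23 : fda 20 84 7476 679 788 8 11 = true := by decide +kernel

theorem c16 : FPE 20 679 788 :=
  FP.toE (A := 19) (((FP_of t21 (by norm_num) (by norm_num) (i1 := 2) rfl).trans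
    (FP_of t22 (by norm_num) (by norm_num) (i1 := 8) rfl)).trans
    (FP_of t23 (by norm_num) (by norm_num) (i1 := 19) rfl)) (by norm_num)

def t24 : fda 20 84 7926 788 834 0 14 = true := by decide +kernel

def t25 : fda 20 84 7926 788 834 14 6 = true := by decide +kernel

theorem c17 : FPE 20 788 834 :=
  FP.toE (A := 20) ((FP_of t24 (by norm_num) (by norm_num) (i1 := 14) rfl).trans
    (FP_of t25 (by norm_num) (by norm_num) (i1 := 20) rfl)) (by norm_num)

theorem fe : FPE 20 60 834 :=
  (((((((((((((((((c0.trans c1).trans c2).trans c3).trans c4).trans c5).trans c6).trans c7).trans c8).trans c9).trans c10).trans c11).trans c12).trans c13).trans c14).trans c15).trans c16).trans c17)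

end Pool.Agent.SignedQ.KD.Fd20_0
end

section

set_option autoImplicit false
set_option maxRecDepth 100000

namespace Pool.Agent.SignedQ.KD.Fd21_0

def t0 : fda 21 45 300 63 74 0 1 = true := by decide +kernel

theorem c0 : FPE 21 63 74 :=
  FP.toE (A := 1) (FP_of t0 (by norm_num) (by norm_num) (i1 := 1) rfl) (by norm_num)

def t1 : fda 21 50 426 74 86 0 1 = true := by decide +kernel

theorem c1 : FPE 21 74 86 :=
  FP.toE (A := 1) (FP_of t1 (by norm_num) (by norm_num) (i1 := 1) rfl) (by norm_num)

def t2 : fda 21 54 615 86 100 0 1 = true := by decide +kernel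

theorem c2 : FPE 21 86 100 :=
  FP.toE (A := 1) (FP_of t2 (by norm_num) (by norm_num) (i1 := 1) rfl) (by norm_num)

def t3 : fda 21 56 741 100 116 0 2 = true := by decide +kernel

theorem c3 : FPE 21 100 116 :=
  FP.toE (A := 2) (FP_of t3 (by norm_num) (by norm_num) (i1 := 2) rfl) (by norm_num)

def t4 : fda 21 59 930 116 135 0 2 = true := by decide +kernel

theorem c4 : FPE 21 116 135 :=
  FP.toE (A := 2) (FP_of t4 (by norm_num) (by norm_num) (i1 := 2) rfl) (by norm_num)

def t5 : fda 21 62 1182 135 157 0 3 = true := by decide +kernel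

theorem c5 : FPE 21 135 157 :=
  FP.toE (A := 3) (FP_of t5 (by norm_num) (by norm_num) (i1 := 3) rfl) (by norm_num)

def t6 : fda 21 64 1434 157 183 0 3 = true := by decide +kernel

theorem c6 : FPE 21 157 183 :=
  FP.toE (A := 3) (FP_of t6 (by norm_num) (by norm_num) (i1 := 3) rfl) (by norm_num)

def t7 : fda 21 67 1749 183 213 0 4 = true := by decide +kernel

theorem c7 : FPE 21 183 213 :=
  FP.toE (A := 4) (FP_of t7 (by norm_num) (by norm_num) (i1 := 4) rfl) (by norm_num)

def t8 : fda 21 69 2127 213 248 0 5 = true := by decide +kernel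

theorem c8 : FPE 21 213 248 :=
  FP.toE (A := 5) (FP_of t8 (by norm_num) (by norm_num) (i1 := 5) rfl) (by norm_num)

def t9 : fda 21 71 2568 248 288 0 6 = true := by decide +kernel

theorem c9 : FPE 21 248 288 :=
  FP.toE (A := 6) (FP_of t9 (by norm_num) (by norm_num) (i1 := 6) rfl) (by norm_num)

def t10 : fda 21 74 3072 288 335 0 7 = true := by decide +kernel

theorem c10 : FPE 21 288 335 :=
  FP.toE (A := 7) (FP_of t10 (by norm_num) (by norm_num) (i1 := 7) rfl) (by norm_num)

def t11 : fda 21 76 3639 335 389 0 8 = true := by decide +kernel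

theorem c11 : FPE 21 335 389 :=
  FP.toE (A := 8) (FP_of t11 (by norm_num) (by norm_num) (i1 := 8) rfl) (by norm_num)

def t12 : fda 21 78 4269 389 452 0 10 = true := by decide +kernel

theorem c12 : FPE 21 389 452 :=
  FP.toE (A := 10) (FP_of t12 (by norm_num) (by norm_num) (i1 := 10) rfl) (by norm_num)

def t13 : fda 21 80 5025 452 525 0 11 = true := by decide +kernel

theorem c13 : FPE 21 452 525 :=
  FP.toE (A := 11) (FP_of t13 (by norm_num) (by norm_num) (i1 := 11) rfl) (by norm_num)

def t14 : fda 21 82 5970 525 610 0 14 = true := by decide +kernel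

theorem c14 : FPE 21 525 610 :=
  FP.toE (A := 14) (FP_of t14 (by norm_num) (by norm_num) (i1 := 14) rfl) (by norm_num)

def t15 : fda 21 84 6978 610 708 0 11 = true := by decide +kernel

def t16 : fda 21 84 6978 610 708 11 5 = true := by decide +kernel

theorem c15 : FPE 21 610 708 :=
  FP.toE (A := 16) ((FP_of t15 (by norm_num) (by norm_num) (i1 := 11) rfl).trans
    (FP_of t16 (by norm_num) (by norm_num) (i1 := 16) rfl)) (by norm_num)

def t17 : fda 21 86 8175 708 822 0 7 = true := by decide +kernel

def t18 : fda 21 86 8175 708 822 7 12 = true := by decide +kernel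

theorem c16 : FPE 21 708 822 :=
  FP.toE (A := 19) ((FP_of t17 (by norm_num) (by norm_num) (i1 := 7) rfl).trans
    (FP_of t18 (by norm_num) (by norm_num) (i1 := 19) rfl)) (by norm_num)

def t19 : fda 21 88 9561 822 954 0 5 = true := by decide +kernel

def t20 : fda 21 88 9561 822 954 5 17 = true := by decide +kernel

theorem c17 : FPE 21 822 954 :=
  FP.toE (A := 22) ((FP_of t19 (by norm_num) (by norm_num) (i1 := 5) rfl).trans
    (FP_of t20 (by norm_num) (by norm_num) (i1 := 22) rfl)) (by norm_num)

def t21 : fda 21 89 10317 954 1028 0 23 = true := by decide +kernel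

theorem c18 : FPE 21 954 1028 :=
  FP.toE (A := 23) (FP_of t21 (by norm_num) (by norm_num) (i1 := 23) rfl) (by norm_num)

theorem fe : FPE 21 63 1028 :=
  ((((((((((((((((((c0.trans c1).trans c2).trans c3).trans c4).trans c5).trans c6).trans c7).trans c8).trans c9).trans c10).trans c11).trans c12).trans c13).trans c14).trans c15).trans c16).trans c17).trans c18)

end Pool.Agent.SignedQ.KD.Fd21_0
end
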