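import Pool.Agent.Lib.MP_cf17a0_co.Mg.G059

section

set_option autoImplicit false
set_option maxRecDepth 100000

namespace Pool.Agent.SignedQ.KD.Fd22_0

def t0 : fda 22 48 358 66 77 0 1 = true := by decide +kernel

theorem c0 : FPE 22 66 77 :=
  FP.toE (A := 1) (FP_of t0 (by norm_num) (by norm_num) (i1 := 1) rfl) (by norm_num)

def t1 : fda 22 52 490 77 90 0 1 = true := by decide +kernel

theorem c1 : FPE 22 77 90 :=
  FP.toE (A := 1) (FP_of t1 (by norm_num) (by norm_num) (i1 := 1) rfl) (by norm_num)

def t2 : fda 22 57 655 90 105 0 1 = true := by decide +kernel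

theorem c2 : FPE 22 90 105 :=
  FP.toE (A := 1) (FP_of t2 (by norm_num) (by norm_num) (i1 := 1) rfl) (by norm_num)

def t3 : fda 22 61 853 105 122 0 2 = true := by decide +kernel

theorem c3 : FPE 22 105 122 :=
  FP.toE (A := 2) (FP_of t3 (by norm_num) (by norm_num) (i1 := 2) rfl) (by norm_num)

def t4 : fda 22 63 1084 122 142 0 2 = true := by decide +kernel

theorem c4 : FPE 22 122 142 :=
  FP.toE (A := 2) (FP_of t4 (by norm_num) (by norm_num) (i1 := 2) rfl) (by norm_num)

def t5 : fda 22 66 1315 142 165 0 3 = true := by decide +kernel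

theorem c5 : FPE 22 142 165 :=
  FP.toE (A := 3) (FP_of t5 (by norm_num) (by norm_num) (i1 := 3) rfl) (by norm_num)

def t6 : fda 22 69 1612 165 192 0 3 = true := by decide +kernel

theorem c6 : FPE 22 165 192 :=
  FP.toE (A := 3) (FP_of t6 (by norm_num) (by norm_num) (i1 := 3) rfl) (by norm_num)

def t7 : fda 22 72 1975 192 223 0 4 = true := by decide +kernel

theorem c7 : FPE 22 192 223 :=
  FP.toE (A := 4) (FP_of t7 (by norm_num) (by norm_num) (i1 := 4) rfl) (by norm_num)

def t8 : fda 22 74 2371 223 259 0 5 = true := by decide +kernel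

theorem c8 : FPE 22 223 259 :=
  FP.toE (A := 5) (FP_of t8 (by norm_num) (by norm_num) (i1 := 5) rfl) (by norm_num)

def t9 : fda 22 77 2833 259 301 0 6 = true := by decide +kernel

theorem c9 : FPE 22 259 301 :=
  FP.toE (A := 6) (FP_of t9 (by norm_num) (by norm_num) (i1 := 6) rfl) (by norm_num)

def t10 : fda 22 79 3361 301 350 0 7 = true := by decide +kernel

theorem c10 : FPE 22 301 350 :=
  FP.toE (A := 7) (FP_of t10 (by norm_num) (by norm_num) (i1 := 7) rfl) (by norm_num)

def t11 : fda 22 81 3988 350 407 0 6 = true := by decide +kernel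

def t12 : fda 22 81 3988 350 407 6 2 = true := by decide +kernel

theorem c11 : FPE 22 350 407 :=
  FP.toE (A := 8) ((FP_of t11 (by norm_num) (by norm_num) (i1 := 6) rfl).trans
    (FP_of t12 (by norm_num) (by norm_num) (i1 := 8) rfl)) (by norm_num)

def t13 : fda 22 84 4714 407 473 0 5 = true := by decide +kernel

def t14 : fda 22 84 4714 407 473 5 5 = true := by decide +kernel

theorem c12 : FPE 22 407 473 :=
  FP.toE (A := 10) ((FP_of t13 (by norm_num) (by norm_num) (i1 := 5) rfl).trans
    (FP_of t14 (by norm_num) (by norm_num) (i1 := 10) rfl)) (by norm_num)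

def t15 : fda 22 86 5539 473 549 0 4 = true := by decide +kernel

def t16 : fda 22 86 5539 473 549 4 7 = true := by decide +kernel

theorem c13 : FPE 22 473 549 :=
  FP.toE (A := 11) ((FP_of t15 (by norm_num) (by norm_num) (i1 := 4) rfl).trans
    (FP_of t16 (by norm_num) (by norm_num) (i1 := 11) rfl)) (by norm_num)

def t17 : fda 22 88 6529 549 637 0 3 = true := by decide +kernel

def t18 : fda 22 88 6529 549 637 3 10 = true := by decide +kernel

theorem c14 : FPE 22 549 637 :=
  FP.toE (A := 13) ((FP_of t17 (by norm_num) (by norm_num) (i1 := 3) rfl).trans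
    (FP_of t18 (by norm_num) (by norm_num) (i1 := 13) rfl)) (by norm_num)

def t19 : fda 22 91 7651 637 739 0 2 = true := by decide +kernel

def t20 : fda 22 91 7651 637 739 2 6 = true := by decide +kernel

def t21 : fda 22 91 7651 637 739 8 8 = true := by decide +kernel

theorem c15 : FPE 22 637 739 :=
  FP.toE (A := 16) (((FP_of t19 (by norm_num) (by norm_num) (i1 := 2) rfl).trans
    (FP_of t20 (by norm_num) (by norm_num) (i1 := 8) rfl)).trans
    (FP_of t21 (by norm_num) (by norm_num) (i1 := 16) rfl)) (by norm_num)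

def t22 : fda 22 93 8938 739 858 0 1 = true := by decide +kernel

def t23 : fda 22 93 8938 739 858 1 3 = true := by decide +kernel

def t24 : fda 22 93 8938 739 858 4 9 = true := by decide +kernel

def t25 : fda 22 93 8938 739 858 13 5 = true := by decide +kernel

theorem c16 : FPE 22 739 858 :=
  FP.toE (A := 18) ((((FP_of t22 (by norm_num) (by norm_num) (i1 := 1) rfl).trans
    (FP_of t23 (by norm_num) (by norm_num) (i1 := 4) rfl)).trans
    (FP_of t24 (by norm_num) (by norm_num) (i1 := 13) rfl)).trans
    (FP_of t25 (by norm_num) (by norm_num) (i1 := 18) rfl)) (by norm_num)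

def t26 : fda 22 95 10159 858 967 0 2 = true := by decide +kernel

def t27 : fda 22 95 10159 858 967 2 6 = true := by decide +kernel

def t28 : fda 22 95 10159 858 967 8 13 = true := by decide +kernel

theorem c17 : FPE 22 858 967 :=
  FP.toE (A := 21) (((FP_of t26 (by norm_num) (by norm_num) (i1 := 2) rfl).trans
    (FP_of t27 (by norm_num) (by norm_num) (i1 := 8) rfl)).trans
    (FP_of t28 (by norm_num) (by norm_num) (i1 := 21) rfl)) (by norm_num)

theorem fe : FPE 22 66 967 :=
  (((((((((((((((((c0.trans c1).trans c2).trans c3).trans c4).trans c5).trans c6).trans c7).trans c8).trans c9).trans c10).trans c11).trans c12).trans c13).trans c14).trans c15).trans c16).trans c17)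

end Pool.Agent.SignedQ.KD.Fd22_0
end

section

set_option autoImplicit false
set_option maxRecDepth 100000

namespace Pool.Agent.SignedQ.KD.Fd23_0

def t0 : fda 23 50 352 69 81 0 1 = true := by decide +kernel

theorem c0 : FPE 23 69 81 :=
  FP.toE (A := 1) (FP_of t0 (by norm_num) (by norm_num) (i1 := 1) rfl) (by norm_num)

def t1 : fda 23 56 559 81 94 0 1 = true := by decide +kernel

theorem c1 : FPE 23 81 94 :=
  FP.toE (A := 1) (FP_of t1 (by norm_num) (by norm_num) (i1 := 1) rfl) (by norm_num)

def t2 : fda 23 59 697 94 110 0 1 = true := by decide +kernel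

theorem c2 : FPE 23 94 110 :=
  FP.toE (A := 1) (FP_of t2 (by norm_num) (by norm_num) (i1 := 1) rfl) (by norm_num)

def t3 : fda 23 62 904 110 128 0 2 = true := by decide +kernel

theorem c3 : FPE 23 110 128 :=
  FP.toE (A := 2) (FP_of t3 (by norm_num) (by norm_num) (i1 := 2) rfl) (by norm_num)

def t4 : fda 23 66 1180 128 149 0 2 = true := by decide +kernel

theorem c4 : FPE 23 128 149 :=
  FP.toE (A := 2) (FP_of t4 (by norm_num) (by norm_num) (i1 := 2) rfl) (by norm_num)

def t5 : fda 23 69 1456 149 173 0 3 = true := by decide +kernel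

theorem c5 : FPE 23 149 173 :=
  FP.toE (A := 3) (FP_of t5 (by norm_num) (by norm_num) (i1 := 3) rfl) (by norm_num)

def t6 : fda 23 71 1732 173 201 0 3 = true := by decide +kernel

theorem c6 : FPE 23 173 201 :=
  FP.toE (A := 3) (FP_of t6 (by norm_num) (by norm_num) (i1 := 3) rfl) (by norm_num)

def t7 : fda 23 74 2146 201 234 0 4 = true := by decide +kernel

theorem c7 : FPE 23 201 234 :=
  FP.toE (A := 4) (FP_of t7 (by norm_num) (by norm_num) (i1 := 4) rfl) (by norm_num)

def t8 : fda 23 77 2560 234 272 0 5 = true := by decide +kernel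

theorem c8 : FPE 23 234 272 :=
  FP.toE (A := 5) (FP_of t8 (by norm_num) (by norm_num) (i1 := 5) rfl) (by norm_num)

def t9 : fda 23 79 3112 272 316 0 6 = true := by decide +kernel

theorem c9 : FPE 23 272 316 :=
  FP.toE (A := 6) (FP_of t9 (by norm_num) (by norm_num) (i1 := 6) rfl) (by norm_num)

def t10 : fda 23 82 3664 316 367 0 7 = true := by decide +kernel

theorem c10 : FPE 23 316 367 :=
  FP.toE (A := 7) (FP_of t10 (by norm_num) (by norm_num) (i1 := 7) rfl) (by norm_num)

def t11 : fda 23 84 4354 367 426 0 8 = true := by decide +kernel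

theorem c11 : FPE 23 367 426 :=
  FP.toE (A := 8) (FP_of t11 (by norm_num) (by norm_num) (i1 := 8) rfl) (by norm_num)

def t12 : fda 23 86 5113 426 495 0 10 = true := by decide +kernel

theorem c12 : FPE 23 426 495 :=
  FP.toE (A := 10) (FP_of t12 (by norm_num) (by norm_num) (i1 := 10) rfl) (by norm_num)

def t13 : fda 23 89 6079 495 575 0 11 = true := by decide +kernel

theorem c13 : FPE 23 495 575 :=
  FP.toE (A := 11) (FP_of t13 (by norm_num) (by norm_num) (i1 := 11) rfl) (by norm_num)

def t14 : fda 23 91 7114 575 668 0 11 = true := by decide +kernel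

def t15 : fda 23 91 7114 575 668 11 3 = true := by decide +kernel

theorem c14 : FPE 23 575 668 :=
  FP.toE (A := 14) ((FP_of t14 (by norm_num) (by norm_num) (i1 := 11) rfl).trans
    (FP_of t15 (by norm_num) (by norm_num) (i1 := 14) rfl)) (by norm_num)

def t16 : fda 23 93 8356 668 775 0 9 = true := by decide +kernel

def t17 : fda 23 93 8356 668 775 9 7 = true := by decide +kernel

theorem c15 : FPE 23 668 775 :=
  FP.toE (A := 16) ((FP_of t16 (by norm_num) (by norm_num) (i1 := 9) rfl).trans
    (FP_of t17 (by norm_num) (by norm_num) (i1 := 16) rfl)) (by norm_num)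

def t18 : fda 23 95 9805 775 899 0 5 = true := by decide +kernel

def t19 : fda 23 95 9805 775 899 5 14 = true := by decide +kernel

theorem c16 : FPE 23 775 899 :=
  FP.toE (A := 19) ((FP_of t18 (by norm_num) (by norm_num) (i1 := 5) rfl).trans
    (FP_of t19 (by norm_num) (by norm_num) (i1 := 19) rfl)) (by norm_num)

def t20 : fda 23 98 11461 899 1043 0 4 = true := by decide +kernel

def t21 : fda 23 98 11461 899 1043 4 18 = true := by decide +kernel

theorem c17 : FPE 23 899 1043 :=
  FP.toE (A := 22) ((FP_of t20 (by norm_num) (by norm_num) (i1 := 4) rfl).trans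
    (FP_of t21 (by norm_num) (by norm_num) (i1 := 22) rfl)) (by norm_num)

def t22 : fda 23 98 11875 1043 1078 0 22 = true := by decide +kernel

theorem c18 : FPE 23 1043 1078 :=
  FP.toE (A := 22) (FP_of t22 (by norm_num) (by norm_num) (i1 := 22) rfl) (by norm_num)

theorem fe : FPE 23 69 1078 :=
  ((((((((((((((((((c0.trans c1).trans c2).trans c3).trans c4).trans c5).trans c6).trans c7).trans c8).trans c9).trans c10).trans c11).trans c12).trans c13).trans c14).trans c15).trans c16).trans c17).trans c18)

end Pool.Agent.SignedQ.KD.Fd23_0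
end

section

set_option autoImplicit false
set_option maxRecDepth 100000

namespace Pool.Agent.SignedQ.KD.Fd24_0

def t0 : fda 24 52 415 72 84 0 1 = true := by decide +kernel

theorem c0 : FPE 24 72 84 :=
  FP.toE (A := 1) (FP_of t0 (by norm_num) (by norm_num) (i1 := 1) rfl) (by norm_num)

def t1 : fda 24 59 595 84 98 0 1 = true := by decide +kernel

theorem c1 : FPE 24 84 98 :=
  FP.toE (A := 1) (FP_of t1 (by norm_num) (by norm_num) (i1 := 1) rfl) (by norm_num)

def t2 : fda 24 62 775 98 114 0 1 = true := by decide +kernel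

theorem c2 : FPE 24 98 114 :=
  FP.toE (A := 1) (FP_of t2 (by norm_num) (by norm_num) (i1 := 1) rfl) (by norm_num)

def t3 : fda 24 67 1027 114 133 0 2 = true := by decide +kernel

theorem c3 : FPE 24 114 133 :=
  FP.toE (A := 2) (FP_of t3 (by norm_num) (by norm_num) (i1 := 2) rfl) (by norm_num)

def t4 : fda 24 70 1279 133 155 0 2 = true := by decide +kernel

theorem c4 : FPE 24 133 155 :=
  FP.toE (A := 2) (FP_of t4 (by norm_num) (by norm_num) (i1 := 2) rfl) (by norm_num)

def t5 : fda 24 73 1567 155 180 0 3 = true := by decide +kernel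

theorem c5 : FPE 24 155 180 :=
  FP.toE (A := 3) (FP_of t5 (by norm_num) (by norm_num) (i1 := 3) rfl) (by norm_num)

def t6 : fda 24 76 1927 180 209 0 3 = true := by decide +kernel

theorem c6 : FPE 24 180 209 :=
  FP.toE (A := 3) (FP_of t6 (by norm_num) (by norm_num) (i1 := 3) rfl) (by norm_num)

def t7 : fda 24 79 2323 209 243 0 4 = true := by decide +kernel

theorem c7 : FPE 24 209 243 :=
  FP.toE (A := 4) (FP_of t7 (by norm_num) (by norm_num) (i1 := 4) rfl) (by norm_num)

def t8 : fda 24 81 2791 243 282 0 5 = true := by decide +kernel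

theorem c8 : FPE 24 243 282 :=
  FP.toE (A := 5) (FP_of t8 (by norm_num) (by norm_num) (i1 := 5) rfl) (by norm_num)

def t9 : fda 24 84 3367 282 328 0 6 = true := by decide +kernel

theorem c9 : FPE 24 282 328 :=
  FP.toE (A := 6) (FP_of t9 (by norm_num) (by norm_num) (i1 := 6) rfl) (by norm_num)

def t10 : fda 24 87 3979 328 381 0 7 = true := by decide +kernel

theorem c10 : FPE 24 328 381 :=
  FP.toE (A := 7) (FP_of t10 (by norm_num) (by norm_num) (i1 := 7) rfl) (by norm_num)

def t11 : fda 24 90 4735 381 442 0 6 = true := by decide +kernel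

def t12 : fda 24 90 4735 381 442 6 2 = true := by decide +kernel

theorem c11 : FPE 24 381 442 :=
  FP.toE (A := 8) ((FP_of t11 (by norm_num) (by norm_num) (i1 := 6) rfl).trans
    (FP_of t12 (by norm_num) (by norm_num) (i1 := 8) rfl)) (by norm_num)

def t13 : fda 24 92 5563 442 513 0 5 = true := by decide +kernel

def t14 : fda 24 92 5563 442 513 5 5 = true := by decide +kernel

theorem c12 : FPE 24 442 513 :=
  FP.toE (A := 10) ((FP_of t13 (by norm_num) (by norm_num) (i1 := 5) rfl).trans
    (FP_of t14 (by norm_num) (by norm_num) (i1 := 10) rfl)) (by norm_num)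

def t15 : fda 24 95 6571 513 596 0 3 = true := by decide +kernel

def t16 : fda 24 95 6571 513 596 3 8 = true := by decide +kernel

theorem c13 : FPE 24 513 596 :=
  FP.toE (A := 11) ((FP_of t15 (by norm_num) (by norm_num) (i1 := 3) rfl).trans
    (FP_of t16 (by norm_num) (by norm_num) (i1 := 11) rfl)) (by norm_num)

def t17 : fda 24 97 7723 596 692 0 2 = true := by decide +kernel

def t18 : fda 24 97 7723 596 692 2 8 = true := by decide +kernel

def t19 : fda 24 97 7723 596 692 10 3 = true := by decide +kernel

theorem c14 : FPE 24 596 692 :=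
  FP.toE (A := 13) (((FP_of t17 (by norm_num) (by norm_num) (i1 := 2) rfl).trans
    (FP_of t18 (by norm_num) (by norm_num) (i1 := 10) rfl)).trans
    (FP_of t19 (by norm_num) (by norm_num) (i1 := 13) rfl)) (by norm_num)

def t20 : fda 24 100 9055 692 803 0 2 = true := by decide +kernel

def t21 : fda 24 100 9055 692 803 2 5 = true := by decide +kernel

def t22 : fda 24 100 9055 692 803 7 9 = true := by decide +kernel

theorem c15 : FPE 24 692 803 :=
  FP.toE (A := 16) (((FP_of t20 (by norm_num) (by norm_num) (i1 := 2) rfl).trans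
    (FP_of t21 (by norm_num) (by norm_num) (i1 := 7) rfl)).trans
    (FP_of t22 (by norm_num) (by norm_num) (i1 := 16) rfl)) (by norm_num)

def t23 : fda 24 102 10603 803 932 0 1 = true := by decide +kernel

def t24 : fda 24 102 10603 803 932 1 3 = true := by decide +kernel

def t25 : fda 24 102 10603 803 932 4 7 = true := by decide +kernel

def t26 : fda 24 102 10603 803 932 11 7 = true := by decide +kernel

theorem c16 : FPE 24 803 932 :=
  FP.toE (A := 18) ((((FP_of t23 (by norm_num) (by norm_num) (i1 := 1) rfl).trans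
    (FP_of t24 (by norm_num) (by norm_num) (i1 := 4) rfl)).trans
    (FP_of t25 (by norm_num) (by norm_num) (i1 := 11) rfl)).trans
    (FP_of t26 (by norm_num) (by norm_num) (i1 := 18) rfl)) (by norm_num)

def t27 : fda 24 105 12367 932 1078 0 1 = true := by decide +kernel

def t28 : fda 24 105 12367 932 1078 1 2 = true := by decide +kernel

def t29 : fda 24 105 12367 932 1078 3 4 = true := by decide +kernel

def t30 : fda 24 105 12367 932 1078 7 8 = true := by decide +kernel

def t31 : fda 24 105 12367 932 1078 15 6 = true := by decide +kernel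

theorem c17 : FPE 24 932 1078 :=
  FP.toE (A := 21) (((((FP_of t27 (by norm_num) (by norm_num) (i1 := 1) rfl).trans
    (FP_of t28 (by norm_num) (by norm_num) (i1 := 3) rfl)).trans
    (FP_of t29 (by norm_num) (by norm_num) (i1 := 7) rfl)).trans
    (FP_of t30 (by norm_num) (by norm_num) (i1 := 15) rfl)).trans
    (FP_of t31 (by norm_num) (by norm_num) (i1 := 21) rfl)) (by norm_num)

theorem fe : FPE 24 72 1078 :=
  (((((((((((((((((c0.trans c1).trans c2).trans c3).trans c4).trans c5).trans c6).trans c7).trans c8).trans c9).trans c10).trans c11).trans c12).trans c13).trans c14).trans c15).trans c16).trans c17)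

end Pool.Agent.SignedQ.KD.Fd24_0
end
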