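import Pool.Agent.Lib.MP_cf17a0_co.Mg.G059

section

set_option autoImplicit false
set_option maxRecDepth 100000

namespace Pool.Agent.SignedQ.KD.Fd25_0

def t0 : fda 25 57 482 75 88 0 1 = true := by decide +kernel

theorem c0 : FPE 25 75 88 :=
  FP.toE (A := 1) (FP_of t0 (by norm_num) (by norm_num) (i1 := 1) rfl) (by norm_num)

def t1 : fda 25 61 632 88 103 0 1 = true := by decide +kernel

theorem c1 : FPE 25 88 103 :=
  FP.toE (A := 1) (FP_of t1 (by norm_num) (by norm_num) (i1 := 1) rfl) (by norm_num)

def t2 : fda 25 65 857 103 120 0 1 = true := by decide +kernel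

theorem c2 : FPE 25 103 120 :=
  FP.toE (A := 1) (FP_of t2 (by norm_num) (by norm_num) (i1 := 1) rfl) (by norm_num)

def t3 : fda 25 69 1082 120 140 0 2 = true := by decide +kernel

theorem c3 : FPE 25 120 140 :=
  FP.toE (A := 2) (FP_of t3 (by norm_num) (by norm_num) (i1 := 2) rfl) (by norm_num)

def t4 : fda 25 72 1382 140 163 0 2 = true := by decide +kernel

theorem c4 : FPE 25 140 163 :=
  FP.toE (A := 2) (FP_of t4 (by norm_num) (by norm_num) (i1 := 2) rfl) (by norm_num)

def t5 : fda 25 76 1757 163 190 0 3 = true := by decide +kernel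

theorem c5 : FPE 25 163 190 :=
  FP.toE (A := 3) (FP_of t5 (by norm_num) (by norm_num) (i1 := 3) rfl) (by norm_num)

def t6 : fda 25 79 2132 190 221 0 3 = true := by decide +kernel

theorem c6 : FPE 25 190 221 :=
  FP.toE (A := 3) (FP_of t6 (by norm_num) (by norm_num) (i1 := 3) rfl) (by norm_num)

def t7 : fda 25 82 2582 221 257 0 4 = true := by decide +kernel

theorem c7 : FPE 25 221 257 :=
  FP.toE (A := 4) (FP_of t7 (by norm_num) (by norm_num) (i1 := 4) rfl) (by norm_num)

def t8 : fda 25 85 3107 257 299 0 5 = true := by decide +kernel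

theorem c8 : FPE 25 257 299 :=
  FP.toE (A := 5) (FP_of t8 (by norm_num) (by norm_num) (i1 := 5) rfl) (by norm_num)

def t9 : fda 25 87 3707 299 347 0 6 = true := by decide +kernel

theorem c9 : FPE 25 299 347 :=
  FP.toE (A := 6) (FP_of t9 (by norm_num) (by norm_num) (i1 := 6) rfl) (by norm_num)

def t10 : fda 25 90 4382 347 403 0 7 = true := by decide +kernel

theorem c10 : FPE 25 347 403 :=
  FP.toE (A := 7) (FP_of t10 (by norm_num) (by norm_num) (i1 := 7) rfl) (by norm_num)

def t11 : fda 25 92 5207 403 468 0 8 = true := by decide +kernel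

theorem c11 : FPE 25 403 468 :=
  FP.toE (A := 8) (FP_of t11 (by norm_num) (by norm_num) (i1 := 8) rfl) (by norm_num)

def t12 : fda 25 95 6107 468 543 0 10 = true := by decide +kernel

theorem c12 : FPE 25 468 543 :=
  FP.toE (A := 10) (FP_of t12 (by norm_num) (by norm_num) (i1 := 10) rfl) (by norm_num)

def t13 : fda 25 98 7232 543 630 0 12 = true := by decide +kernel

theorem c13 : FPE 25 543 630 :=
  FP.toE (A := 12) (FP_of t13 (by norm_num) (by norm_num) (i1 := 12) rfl) (by norm_num)

def t14 : fda 25 100 8507 630 731 0 11 = true := by decide +kernel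

def t15 : fda 25 100 8507 630 731 11 3 = true := by decide +kernel

theorem c14 : FPE 25 630 731 :=
  FP.toE (A := 14) ((FP_of t14 (by norm_num) (by norm_num) (i1 := 11) rfl).trans
    (FP_of t15 (by norm_num) (by norm_num) (i1 := 14) rfl)) (by norm_num)

def t16 : fda 25 102 9932 731 848 0 6 = true := by decide +kernel

def t17 : fda 25 102 9932 731 848 6 10 = true := by decide +kernel

theorem c15 : FPE 25 731 848 :=
  FP.toE (A := 16) ((FP_of t16 (by norm_num) (by norm_num) (i1 := 6) rfl).trans
    (FP_of t17 (by norm_num) (by norm_num) (i1 := 16) rfl)) (by norm_num)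

def t18 : fda 25 105 11657 848 984 0 3 = true := by decide +kernel

def t19 : fda 25 105 11657 848 984 3 15 = true := by decide +kernel

def t20 : fda 25 105 11657 848 984 18 1 = true := by decide +kernel

theorem c16 : FPE 25 848 984 :=
  FP.toE (A := 19) (((FP_of t18 (by norm_num) (by norm_num) (i1 := 3) rfl).trans
    (FP_of t19 (by norm_num) (by norm_num) (i1 := 18) rfl)).trans
    (FP_of t20 (by norm_num) (by norm_num) (i1 := 19) rfl)) (by norm_num)

def t21 : fda 25 107 13607 984 1142 0 2 = true := by decide +kernel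

def t22 : fda 25 107 13607 984 1142 2 6 = true := by decide +kernel

def t23 : fda 25 107 13607 984 1142 8 14 = true := by decide +kernel

theorem c17 : FPE 25 984 1142 :=
  FP.toE (A := 22) (((FP_of t21 (by norm_num) (by norm_num) (i1 := 2) rfl).trans
    (FP_of t22 (by norm_num) (by norm_num) (i1 := 8) rfl)).trans
    (FP_of t23 (by norm_num) (by norm_num) (i1 := 22) rfl)) (by norm_num)

def t24 : fda 25 108 14057 1142 1176 0 23 = true := by decide +kernel

theorem c18 : FPE 25 1142 1176 :=
  FP.toE (A := 23) (FP_of t24 (by norm_num) (by norm_num) (i1 := 23) rfl) (by norm_num)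

theorem fe : FPE 25 75 1176 :=
  ((((((((((((((((((c0.trans c1).trans c2).trans c3).trans c4).trans c5).trans c6).trans c7).trans c8).trans c9).trans c10).trans c11).trans c12).trans c13).trans c14).trans c15).trans c16).trans c17).trans c18)

end Pool.Agent.SignedQ.KD.Fd25_0
end

section

set_option autoImplicit false
set_option maxRecDepth 100000

namespace Pool.Agent.SignedQ.KD.Fd4_0

def t0 : fda 4 8 12 12 14 0 1 = true := by decide +kernel

theorem c0 : FPE 4 12 14 :=
  FP.toE (A := 1) (FP_of t0 (by norm_num) (by norm_num) (i1 := 1) rfl) (by norm_num)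

def t1 : fda 4 8 18 14 17 0 1 = true := by decide +kernel

theorem c1 : FPE 4 14 17 :=
  FP.toE (A := 1) (FP_of t1 (by norm_num) (by norm_num) (i1 := 1) rfl) (by norm_num)

def t2 : fda 4 8 24 17 20 0 1 = true := by decide +kernel

theorem c2 : FPE 4 17 20 :=
  FP.toE (A := 1) (FP_of t2 (by norm_num) (by norm_num) (i1 := 1) rfl) (by norm_num)

def t3 : fda 4 8 30 20 24 0 2 = true := by decide +kernel

theorem c3 : FPE 4 20 24 :=
  FP.toE (A := 2) (FP_of t3 (by norm_num) (by norm_num) (i1 := 2) rfl) (by norm_num)

def t4 : fda 4 8 42 24 28 0 2 = true := by decide +kernel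

theorem c4 : FPE 4 24 28 :=
  FP.toE (A := 2) (FP_of t4 (by norm_num) (by norm_num) (i1 := 2) rfl) (by norm_num)

def t5 : fda 4 9 48 28 33 0 3 = true := by decide +kernel

theorem c5 : FPE 4 28 33 :=
  FP.toE (A := 3) (FP_of t5 (by norm_num) (by norm_num) (i1 := 3) rfl) (by norm_num)

def t6 : fda 4 9 60 33 39 0 4 = true := by decide +kernel

theorem c6 : FPE 4 33 39 :=
  FP.toE (A := 4) (FP_of t6 (by norm_num) (by norm_num) (i1 := 4) rfl) (by norm_num)

def t7 : fda 4 9 78 39 46 0 5 = true := by decide +kernel

theorem c7 : FPE 4 39 46 :=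
  FP.toE (A := 5) (FP_of t7 (by norm_num) (by norm_num) (i1 := 5) rfl) (by norm_num)

def t8 : fda 4 9 90 46 54 0 6 = true := by decide +kernel

theorem c8 : FPE 4 46 54 :=
  FP.toE (A := 6) (FP_of t8 (by norm_num) (by norm_num) (i1 := 6) rfl) (by norm_num)

def t9 : fda 4 10 108 54 63 0 7 = true := by decide +kernel

theorem c9 : FPE 4 54 63 :=
  FP.toE (A := 7) (FP_of t9 (by norm_num) (by norm_num) (i1 := 7) rfl) (by norm_num)

def t10 : fda 4 10 132 63 74 0 8 = true := by decide +kernel

theorem c10 : FPE 4 63 74 :=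
  FP.toE (A := 8) (FP_of t10 (by norm_num) (by norm_num) (i1 := 8) rfl) (by norm_num)

def t11 : fda 4 10 156 74 86 0 10 = true := by decide +kernel

theorem c11 : FPE 4 74 86 :=
  FP.toE (A := 10) (FP_of t11 (by norm_num) (by norm_num) (i1 := 10) rfl) (by norm_num)

def t12 : fda 4 10 186 86 100 0 11 = true := by decide +kernel

theorem c12 : FPE 4 86 100 :=
  FP.toE (A := 11) (FP_of t12 (by norm_num) (by norm_num) (i1 := 11) rfl) (by norm_num)

def t13 : fda 4 11 216 100 116 0 13 = true := by decide +kernel

theorem c13 : FPE 4 100 116 :=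
  FP.toE (A := 13) (FP_of t13 (by norm_num) (by norm_num) (i1 := 13) rfl) (by norm_num)

def t14 : fda 4 11 252 116 135 0 16 = true := by decide +kernel

theorem c14 : FPE 4 116 135 :=
  FP.toE (A := 16) (FP_of t14 (by norm_num) (by norm_num) (i1 := 16) rfl) (by norm_num)

def t15 : fda 4 11 300 135 157 0 19 = true := by decide +kernel

theorem c15 : FPE 4 135 157 :=
  FP.toE (A := 19) (FP_of t15 (by norm_num) (by norm_num) (i1 := 19) rfl) (by norm_num)

def t16 : fda 4 11 348 157 183 0 22 = true := by decide +kernel

theorem c16 : FPE 4 157 183 :=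
  FP.toE (A := 22) (FP_of t16 (by norm_num) (by norm_num) (i1 := 22) rfl) (by norm_num)

def t17 : fda 4 12 408 183 213 0 26 = true := by decide +kernel

theorem c17 : FPE 4 183 213 :=
  FP.toE (A := 26) (FP_of t17 (by norm_num) (by norm_num) (i1 := 26) rfl) (by norm_num)

def t18 : fda 4 12 480 213 248 0 30 = true := by decide +kernel

theorem c18 : FPE 4 213 248 :=
  FP.toE (A := 30) (FP_of t18 (by norm_num) (by norm_num) (i1 := 30) rfl) (by norm_num)

def t19 : fda 4 12 558 248 288 0 35 = true := by decide +kernel

theorem c19 : FPE 4 248 288 :=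
  FP.toE (A := 35) (FP_of t19 (by norm_num) (by norm_num) (i1 := 35) rfl) (by norm_num)

def t20 : fda 4 12 654 288 335 0 41 = true := by decide +kernel

theorem c20 : FPE 4 288 335 :=
  FP.toE (A := 41) (FP_of t20 (by norm_num) (by norm_num) (i1 := 41) rfl) (by norm_num)

def t21 : fda 4 12 762 335 389 0 48 = true := by decide +kernel

theorem c21 : FPE 4 335 389 :=
  FP.toE (A := 48) (FP_of t21 (by norm_num) (by norm_num) (i1 := 48) rfl) (by norm_num)

def t22 : fda 4 13 888 389 452 0 55 = true := by decide +kernel

theorem c22 : FPE 4 389 452 :=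
  FP.toE (A := 55) (FP_of t22 (by norm_num) (by norm_num) (i1 := 55) rfl) (by norm_num)

def t23 : fda 4 13 1032 452 525 0 65 = true := by decide +kernel

theorem c23 : FPE 4 452 525 :=
  FP.toE (A := 65) (FP_of t23 (by norm_num) (by norm_num) (i1 := 65) rfl) (by norm_num)

def t24 : fda 4 13 1206 525 610 0 75 = true := by decide +kernel

theorem c24 : FPE 4 525 610 :=
  FP.toE (A := 75) (FP_of t24 (by norm_num) (by norm_num) (i1 := 75) rfl) (by norm_num)

def t25 : fda 4 13 1398 610 708 0 87 = true := by decide +kernel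

theorem c25 : FPE 4 610 708 :=
  FP.toE (A := 87) (FP_of t25 (by norm_num) (by norm_num) (i1 := 87) rfl) (by norm_num)

def t26 : fda 4 14 1626 708 822 0 102 = true := by decide +kernel

theorem c26 : FPE 4 708 822 :=
  FP.toE (A := 102) (FP_of t26 (by norm_num) (by norm_num) (i1 := 102) rfl) (by norm_num)

def t27 : fda 4 14 1890 822 954 0 1 = true := by decide +kernel

def t28 : fda 4 14 1890 822 954 1 3 = true := by decide +kernel

def t29 : fda 4 14 1890 822 954 4 7 = true := by decide +kernel

def t30 : fda 4 14 1890 822 954 11 18 = true := by decide +kernel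

def t31 : fda 4 14 1890 822 954 29 43 = true := by decide +kernel

def t32 : fda 4 14 1890 822 954 72 46 = true := by decide +kernel

theorem c27 : FPE 4 822 954 :=
  FP.toE (A := 118) ((((((FP_of t27 (by norm_num) (by norm_num) (i1 := 1) rfl).trans
    (FP_of t28 (by norm_num) (by norm_num) (i1 := 4) rfl)).trans
    (FP_of t29 (by norm_num) (by norm_num) (i1 := 11) rfl)).trans
    (FP_of t30 (by norm_num) (by norm_num) (i1 := 29) rfl)).trans
    (FP_of t31 (by norm_num) (by norm_num) (i1 := 72) rfl)).trans
    (FP_of t32 (by norm_num) (by norm_num) (i1 := 118) rfl)) (by norm_num)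

def t33 : fda 4 14 2196 954 1107 0 1 = true := by decide +kernel

def t34 : fda 4 14 2196 954 1107 1 2 = true := by decide +kernel

def t35 : fda 4 14 2196 954 1107 3 4 = true := by decide +kernel

def t36 : fda 4 14 2196 954 1107 7 9 = true := by decide +kernel

def t37 : fda 4 14 2196 954 1107 16 21 = true := by decide +kernel

def t38 : fda 4 14 2196 954 1107 37 46 = true := by decide +kernel

def t39 : fda 4 14 2196 954 1107 83 54 = true := by decide +kernel

theorem c28 : FPE 4 954 1107 :=
  FP.toE (A := 137) (((((((FP_of t33 (by norm_num) (by norm_num) (i1 := 1) rfl).trans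
    (FP_of t34 (by norm_num) (by norm_num) (i1 := 3) rfl)).trans
    (FP_of t35 (by norm_num) (by norm_num) (i1 := 7) rfl)).trans
    (FP_of t36 (by norm_num) (by norm_num) (i1 := 16) rfl)).trans
    (FP_of t37 (by norm_num) (by norm_num) (i1 := 37) rfl)).trans
    (FP_of t38 (by norm_num) (by norm_num) (i1 := 83) rfl)).trans
    (FP_of t39 (by norm_num) (by norm_num) (i1 := 137) rfl)) (by norm_num)

def t40 : fda 4 14 2556 1107 1285 0 1 = true := by decide +kernel

def t41 : fda 4 14 2556 1107 1285 1 2 = true := by decide +kernel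

def t42 : fda 4 14 2556 1107 1285 3 3 = true := by decide +kernel

def t43 : fda 4 14 2556 1107 1285 6 6 = true := by decide +kernel

def t44 : fda 4 14 2556 1107 1285 12 12 = true := by decide +kernel

def t45 : fda 4 14 2556 1107 1285 24 24 = true := by decide +kernel

def t46 : fda 4 14 2556 1107 1285 48 47 = true := by decide +kernel

def t47 : fda 4 14 2556 1107 1285 95 65 = true := by decide +kernel

theorem c29 : FPE 4 1107 1285 :=
  FP.toE (A := 160) ((((((((FP_of t40 (by norm_num) (by norm_num) (i1 := 1) rfl).trans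
    (FP_of t41 (by norm_num) (by norm_num) (i1 := 3) rfl)).trans
    (FP_of t42 (by norm_num) (by norm_num) (i1 := 6) rfl)).trans
    (FP_of t43 (by norm_num) (by norm_num) (i1 := 12) rfl)).trans
    (FP_of t44 (by norm_num) (by norm_num) (i1 := 24) rfl)).trans
    (FP_of t45 (by norm_num) (by norm_num) (i1 := 48) rfl)).trans
    (FP_of t46 (by norm_num) (by norm_num) (i1 := 95) rfl)).trans
    (FP_of t47 (by norm_num) (by norm_num) (i1 := 160) rfl)) (by norm_num)

def t48 : fdr 4 14 2964 3 425 60 = true := by decide +kernel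

def t49 : fdr 4 14 2964 3 485 8 = true := by decide +kernel

theorem u30_0 : FPn 4 (2 * 0 + 3) 425 493 :=
  ((FPn_of t48 (by norm_num) (by norm_num) (by norm_num) (n1 := 485) rfl).trans (FPn_of t49 (by norm_num) (by norm_num) (by norm_num) (n1 := 493) rfl))

def t50 : fda 4 14 2964 1285 1491 1 1 = true := by decide +kernel

def t51 : fda 4 14 2964 1285 1491 2 2 = true := by decide +kernel

def t52 : fda 4 14 2964 1285 1491 4 3 = true := by decide +kernel

def t53 : fda 4 14 2964 1285 1491 7 6 = true := by decide +kernel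

def t54 : fda 4 14 2964 1285 1491 13 10 = true := by decide +kernel

def t55 : fda 4 14 2964 1285 1491 23 19 = true := by decide +kernel

def t56 : fda 4 14 2964 1285 1491 42 32 = true := by decide +kernel

def t57 : fda 4 14 2964 1285 1491 74 61 = true := by decide +kernel

def t58 : fda 4 14 2964 1285 1491 135 50 = true := by decide +kernel

theorem c30 : FPE 4 1285 1491 :=
  FP.toE (A := 185) ((((((((((FPn.toFP u30_0 (by norm_num) (by norm_num) (i1 := 1) rfl).trans
    (FP_of t50 (by norm_num) (by norm_num) (i1 := 2) rfl)).trans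
    (FP_of t51 (by norm_num) (by norm_num) (i1 := 4) rfl)).trans
    (FP_of t52 (by norm_num) (by norm_num) (i1 := 7) rfl)).trans
    (FP_of t53 (by norm_num) (by norm_num) (i1 := 13) rfl)).trans
    (FP_of t54 (by norm_num) (by norm_num) (i1 := 23) rfl)).trans
    (FP_of t55 (by norm_num) (by norm_num) (i1 := 42) rfl)).trans
    (FP_of t56 (by norm_num) (by norm_num) (i1 := 74) rfl)).trans
    (FP_of t57 (by norm_num) (by norm_num) (i1 := 135) rfl)).trans
    (FP_of t58 (by norm_num) (by norm_num) (i1 := 185) rfl)) (by norm_num)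

def t59 : fdr 4 15 3444 3 493 60 = true := by decide +kernel

def t60 : fdr 4 15 3444 3 553 20 = true := by decide +kernel

theorem u31_0 : FPn 4 (2 * 0 + 3) 493 573 :=
  ((FPn_of t59 (by norm_num) (by norm_num) (by norm_num) (n1 := 553) rfl).trans (FPn_of t60 (by norm_num) (by norm_num) (by norm_num) (n1 := 573) rfl))

def t61 : fda 4 15 3444 1491 1730 1 1 = true := by decide +kernel

def t62 : fda 4 15 3444 1491 1730 2 1 = true := by decide +kernel

def t63 : fda 4 15 3444 1491 1730 3 2 = true := by decide +kernel

def t64 : fda 4 15 3444 1491 1730 5 3 = true := by decide +kernel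

def t65 : fda 4 15 3444 1491 1730 8 5 = true := by decide +kernel

def t66 : fda 4 15 3444 1491 1730 13 9 = true := by decide +kernel

def t67 : fda 4 15 3444 1491 1730 22 15 = true := by decide +kernel

def t68 : fda 4 15 3444 1491 1730 37 24 = true := by decide +kernel

def t69 : fda 4 15 3444 1491 1730 61 41 = true := by decide +kernel

def t70 : fda 4 15 3444 1491 1730 102 63 = true := by decide +kernel

def t71 : fda 4 15 3444 1491 1730 165 50 = true := by decide +kernel

theorem c31 : FPE 4 1491 1730 :=
  FP.toE (A := 215) ((((((((((((FPn.toFP u31_0 (by norm_num) (by norm_num) (i1 := 1) rfl).trans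
    (FP_of t61 (by norm_num) (by norm_num) (i1 := 2) rfl)).trans
    (FP_of t62 (by norm_num) (by norm_num) (i1 := 3) rfl)).trans
    (FP_of t63 (by norm_num) (by norm_num) (i1 := 5) rfl)).trans
    (FP_of t64 (by norm_num) (by norm_num) (i1 := 8) rfl)).trans
    (FP_of t65 (by norm_num) (by norm_num) (i1 := 13) rfl)).trans
    (FP_of t66 (by norm_num) (by norm_num) (i1 := 22) rfl)).trans
    (FP_of t67 (by norm_num) (by norm_num) (i1 := 37) rfl)).trans
    (FP_of t68 (by norm_num) (by norm_num) (i1 := 61) rfl)).trans
    (FP_of t69 (by norm_num) (by norm_num) (i1 := 102) rfl)).trans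
    (FP_of t70 (by norm_num) (by norm_num) (i1 := 165) rfl)).trans
    (FP_of t71 (by norm_num) (by norm_num) (i1 := 215) rfl)) (by norm_num)

theorem fe : FPE 4 12 1730 :=
  (((((((((((((((((((((((((((((((c0.trans c1).trans c2).trans c3).trans c4).trans c5).trans c6).trans c7).trans c8).trans c9).trans c10).trans c11).trans c12).trans c13).trans c14).trans c15).trans c16).trans c17).trans c18).trans c19).trans c20).trans c21).trans c22).trans c23).trans c24).trans c25).trans c26).trans c27).trans c28).trans c29).trans c30).trans c31)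

end Pool.Agent.SignedQ.KD.Fd4_0
end

section

set_option autoImplicit false
set_option maxRecDepth 100000

namespace Pool.Agent.SignedQ.KD.Fd4_1

def t0 : fdr 4 15 3996 3 573 60 = true := by decide +kernel

def t1 : fdr 4 15 3996 3 633 32 = true := by decide +kernel

theorem u32_0 : FPn 4 (2 * 0 + 3) 573 665 :=
  ((FPn_of t0 (by norm_num) (by norm_num) (by norm_num) (n1 := 633) rfl).trans (FPn_of t1 (by norm_num) (by norm_num) (by norm_num) (n1 := 665) rfl))

def t2 : fda 4 15 3996 1730 2007 1 1 = true := by decide +kernel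

def t3 : fda 4 15 3996 1730 2007 2 1 = true := by decide +kernel

def t4 : fda 4 15 3996 1730 2007 3 2 = true := by decide +kernel

def t5 : fda 4 15 3996 1730 2007 5 3 = true := by decide +kernel

def t6 : fda 4 15 3996 1730 2007 8 5 = true := by decide +kernel

def t7 : fda 4 15 3996 1730 2007 13 7 = true := by decide +kernel

def t8 : fda 4 15 3996 1730 2007 20 11 = true := by decide +kernel

def t9 : fda 4 15 3996 1730 2007 31 17 = true := by decide +kernel

def t10 : fda 4 15 3996 1730 2007 48 26 = true := by decide +kernel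

def t11 : fda 4 15 3996 1730 2007 74 41 = true := by decide +kernel

def t12 : fda 4 15 3996 1730 2007 115 66 = true := by decide +kernel

def t13 : fda 4 15 3996 1730 2007 181 69 = true := by decide +kernel

theorem c32 : FPE 4 1730 2007 :=
  FP.toE (A := 250) (((((((((((((FPn.toFP u32_0 (by norm_num) (by norm_num) (i1 := 1) rfl).trans
    (FP_of t2 (by norm_num) (by norm_num) (i1 := 2) rfl)).trans
    (FP_of t3 (by norm_num) (by norm_num) (i1 := 3) rfl)).trans
    (FP_of t4 (by norm_num) (by norm_num) (i1 := 5) rfl)).trans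
    (FP_of t5 (by norm_num) (by norm_num) (i1 := 8) rfl)).trans
    (FP_of t6 (by norm_num) (by norm_num) (i1 := 13) rfl)).trans
    (FP_of t7 (by norm_num) (by norm_num) (i1 := 20) rfl)).trans
    (FP_of t8 (by norm_num) (by norm_num) (i1 := 31) rfl)).trans
    (FP_of t9 (by norm_num) (by norm_num) (i1 := 48) rfl)).trans
    (FP_of t10 (by norm_num) (by norm_num) (i1 := 74) rfl)).trans
    (FP_of t11 (by norm_num) (by norm_num) (i1 := 115) rfl)).trans
    (FP_of t12 (by norm_num) (by norm_num) (i1 := 181) rfl)).trans
    (FP_of t13 (by norm_num) (by norm_num) (i1 := 250) rfl)) (by norm_num)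

def t14 : fdr 4 15 4644 3 665 60 = true := by decide +kernel

def t15 : fdr 4 15 4644 3 725 48 = true := by decide +kernel

theorem u33_0 : FPn 4 (2 * 0 + 3) 665 773 :=
  ((FPn_of t14 (by norm_num) (by norm_num) (by norm_num) (n1 := 725) rfl).trans (FPn_of t15 (by norm_num) (by norm_num) (by norm_num) (n1 := 773) rfl))

def t16 : fdr 4 15 4644 5 398 60 = true := by decide +kernel

def t17 : fdr 4 15 4644 5 458 4 = true := by decide +kernel

theorem u33_1 : FPn 4 (2 * 1 + 3) 398 462 :=
  ((FPn_of t16 (by norm_num) (by norm_num) (by norm_num) (n1 := 458) rfl).trans (FPn_of t17 (by norm_num) (by norm_num) (by norm_num) (n1 := 462) rfl))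

def t18 : fda 4 15 4644 2007 2329 2 1 = true := by decide +kernel

def t19 : fda 4 15 4644 2007 2329 3 1 = true := by decide +kernel

def t20 : fda 4 15 4644 2007 2329 4 2 = true := by decide +kernel

def t21 : fda 4 15 4644 2007 2329 6 3 = true := by decide +kernel

def t22 : fda 4 15 4644 2007 2329 9 4 = true := by decide +kernel

def t23 : fda 4 15 4644 2007 2329 13 6 = true := by decide +kernel

def t24 : fda 4 15 4644 2007 2329 19 9 = true := by decide +kernel

def t25 : fda 4 15 4644 2007 2329 28 13 = true := by decide +kernel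

def t26 : fda 4 15 4644 2007 2329 41 19 = true := by decide +kernel

def t27 : fda 4 15 4644 2007 2329 60 28 = true := by decide +kernel

def t28 : fda 4 15 4644 2007 2329 88 39 = true := by decide +kernel

def t29 : fda 4 15 4644 2007 2329 127 57 = true := by decide +kernel

def t30 : fda 4 15 4644 2007 2329 184 85 = true := by decide +kernel

def t31 : fda 4 15 4644 2007 2329 269 21 = true := by decide +kernel

theorem c33 : FPE 4 2007 2329 :=
  FP.toE (A := 290) ((((((((((((((((FPn.toFP u33_0 (by norm_num) (by norm_num) (i1 := 1) rfl).trans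
    (FPn.toFP u33_1 (by norm_num) (by norm_num) (i1 := 2) rfl)).trans
    (FP_of t18 (by norm_num) (by norm_num) (i1 := 3) rfl)).trans
    (FP_of t19 (by norm_num) (by norm_num) (i1 := 4) rfl)).trans
    (FP_of t20 (by norm_num) (by norm_num) (i1 := 6) rfl)).trans
    (FP_of t21 (by norm_num) (by norm_num) (i1 := 9) rfl)).trans
    (FP_of t22 (by norm_num) (by norm_num) (i1 := 13) rfl)).trans
    (FP_of t23 (by norm_num) (by norm_num) (i1 := 19) rfl)).trans
    (FP_of t24 (by norm_num) (by norm_num) (i1 := 28) rfl)).trans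
    (FP_of t25 (by norm_num) (by norm_num) (i1 := 41) rfl)).trans
    (FP_of t26 (by norm_num) (by norm_num) (i1 := 60) rfl)).trans
    (FP_of t27 (by norm_num) (by norm_num) (i1 := 88) rfl)).trans
    (FP_of t28 (by norm_num) (by norm_num) (i1 := 127) rfl)).trans
    (FP_of t29 (by norm_num) (by norm_num) (i1 := 184) rfl)).trans
    (FP_of t30 (by norm_num) (by norm_num) (i1 := 269) rfl)).trans
    (FP_of t31 (by norm_num) (by norm_num) (i1 := 290) rfl)) (by norm_num)

def t32 : fdr 4 15 5388 3 773 60 = true := by decide +kernel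

def t33 : fdr 4 15 5388 3 833 60 = true := by decide +kernel

def t34 : fdr 4 15 5388 3 893 4 = true := by decide +kernel

theorem u34_0 : FPn 4 (2 * 0 + 3) 773 897 :=
  (((FPn_of t32 (by norm_num) (by norm_num) (by norm_num) (n1 := 833) rfl).trans (FPn_of t33 (by norm_num) (by norm_num) (by norm_num) (n1 := 893) rfl)).trans (FPn_of t34 (by norm_num) (by norm_num) (by norm_num) (n1 := 897) rfl))

def t35 : fdr 4 15 5388 5 462 60 = true := by decide +kernel

def t36 : fdr 4 15 5388 5 522 15 = true := by decide +kernel

theorem u34_1 : FPn 4 (2 * 1 + 3) 462 537 :=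
  ((FPn_of t35 (by norm_num) (by norm_num) (by norm_num) (n1 := 522) rfl).trans (FPn_of t36 (by norm_num) (by norm_num) (by norm_num) (n1 := 537) rfl))

def t37 : fda 4 15 5388 2329 2702 2 1 = true := by decide +kernel

def t38 : fda 4 15 5388 2329 2702 3 1 = true := by decide +kernel

def t39 : fda 4 15 5388 2329 2702 4 1 = true := by decide +kernel

def t40 : fda 4 15 5388 2329 2702 5 2 = true := by decide +kernel

def t41 : fda 4 15 5388 2329 2702 7 3 = true := by decide +kernel

def t42 : fda 4 15 5388 2329 2702 10 4 = true := by decide +kernel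

def t43 : fda 4 15 5388 2329 2702 14 5 = true := by decide +kernel

def t44 : fda 4 15 5388 2329 2702 19 7 = true := by decide +kernel

def t45 : fda 4 15 5388 2329 2702 26 9 = true := by decide +kernel

def t46 : fda 4 15 5388 2329 2702 35 13 = true := by decide +kernel

def t47 : fda 4 15 5388 2329 2702 48 18 = true := by decide +kernel

def t48 : fda 4 15 5388 2329 2702 66 26 = true := by decide +kernel

def t49 : fda 4 15 5388 2329 2702 92 36 = true := by decide +kernel

def t50 : fda 4 15 5388 2329 2702 128 47 = true := by decide +kernel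

def t51 : fda 4 15 5388 2329 2702 175 69 = true := by decide +kernel

def t52 : fda 4 15 5388 2329 2702 244 81 = true := by decide +kernel

def t53 : fda 4 15 5388 2329 2702 325 12 = true := by decide +kernel

theorem c34 : FPE 4 2329 2702 :=
  FP.toE (A := 337) (((((((((((((((((((FPn.toFP u34_0 (by norm_num) (by norm_num) (i1 := 1) rfl).trans
    (FPn.toFP u34_1 (by norm_num) (by norm_num) (i1 := 2) rfl)).trans
    (FP_of t37 (by norm_num) (by norm_num) (i1 := 3) rfl)).trans
    (FP_of t38 (by norm_num) (by norm_num) (i1 := 4) rfl)).trans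
    (FP_of t39 (by norm_num) (by norm_num) (i1 := 5) rfl)).trans
    (FP_of t40 (by norm_num) (by norm_num) (i1 := 7) rfl)).trans
    (FP_of t41 (by norm_num) (by norm_num) (i1 := 10) rfl)).trans
    (FP_of t42 (by norm_num) (by norm_num) (i1 := 14) rfl)).trans
    (FP_of t43 (by norm_num) (by norm_num) (i1 := 19) rfl)).trans
    (FP_of t44 (by norm_num) (by norm_num) (i1 := 26) rfl)).trans
    (FP_of t45 (by norm_num) (by norm_num) (i1 := 35) rfl)).trans
    (FP_of t46 (by norm_num) (by norm_num) (i1 := 48) rfl)).trans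
    (FP_of t47 (by norm_num) (by norm_num) (i1 := 66) rfl)).trans
    (FP_of t48 (by norm_num) (by norm_num) (i1 := 92) rfl)).trans
    (FP_of t49 (by norm_num) (by norm_num) (i1 := 128) rfl)).trans
    (FP_of t50 (by norm_num) (by norm_num) (i1 := 175) rfl)).trans
    (FP_of t51 (by norm_num) (by norm_num) (i1 := 244) rfl)).trans
    (FP_of t52 (by norm_num) (by norm_num) (i1 := 325) rfl)).trans
    (FP_of t53 (by norm_num) (by norm_num) (i1 := 337) rfl)) (by norm_num)

def t54 : fdr 4 16 6252 3 897 60 = true := by decide +kernel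

def t55 : fdr 4 16 6252 3 957 60 = true := by decide +kernel

def t56 : fdr 4 16 6252 3 1017 24 = true := by decide +kernel

theorem u35_0 : FPn 4 (2 * 0 + 3) 897 1041 :=
  (((FPn_of t54 (by norm_num) (by norm_num) (by norm_num) (n1 := 957) rfl).trans (FPn_of t55 (by norm_num) (by norm_num) (by norm_num) (n1 := 1017) rfl)).trans (FPn_of t56 (by norm_num) (by norm_num) (by norm_num) (n1 := 1041) rfl))

def t57 : fdr 4 16 6252 5 537 60 = true := by decide +kernel

def t58 : fdr 4 16 6252 5 597 26 = true := by decide +kernel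

theorem u35_1 : FPn 4 (2 * 1 + 3) 537 623 :=
  ((FPn_of t57 (by norm_num) (by norm_num) (by norm_num) (n1 := 597) rfl).trans (FPn_of t58 (by norm_num) (by norm_num) (by norm_num) (n1 := 623) rfl))

def t59 : fdr 4 16 6252 7 382 60 = true := by decide +kernel

def t60 : fdr 4 16 6252 7 442 2 = true := by decide +kernel

theorem u35_2 : FPn 4 (2 * 2 + 3) 382 444 :=
  ((FPn_of t59 (by norm_num) (by norm_num) (by norm_num) (n1 := 442) rfl).trans (FPn_of t60 (by norm_num) (by norm_num) (by norm_num) (n1 := 444) rfl))

def t61 : fda 4 16 6252 2702 3135 3 1 = true := by decide +kernel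

def t62 : fda 4 16 6252 2702 3135 4 1 = true := by decide +kernel

def t63 : fda 4 16 6252 2702 3135 5 1 = true := by decide +kernel

def t64 : fda 4 16 6252 2702 3135 6 2 = true := by decide +kernel

def t65 : fda 4 16 6252 2702 3135 8 2 = true := by decide +kernel

def t66 : fda 4 16 6252 2702 3135 10 3 = true := by decide +kernel

def t67 : fda 4 16 6252 2702 3135 13 4 = true := by decide +kernel

def t68 : fda 4 16 6252 2702 3135 17 5 = true := by decide +kernel

def t69 : fda 4 16 6252 2702 3135 22 7 = true := by decide +kernel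

def t70 : fda 4 16 6252 2702 3135 29 10 = true := by decide +kernel

def t71 : fda 4 16 6252 2702 3135 39 13 = true := by decide +kernel

def t72 : fda 4 16 6252 2702 3135 52 17 = true := by decide +kernel

def t73 : fda 4 16 6252 2702 3135 69 22 = true := by decide +kernel

def t74 : fda 4 16 6252 2702 3135 91 30 = true := by decide +kernel

def t75 : fda 4 16 6252 2702 3135 121 38 = true := by decide +kernel

def t76 : fda 4 16 6252 2702 3135 159 52 = true := by decide +kernel

def t77 : fda 4 16 6252 2702 3135 211 70 = true := by decide +kernel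

def t78 : fda 4 16 6252 2702 3135 281 85 = true := by decide +kernel

def t79 : fda 4 16 6252 2702 3135 366 25 = true := by decide +kernel

theorem c35 : FPE 4 2702 3135 :=
  FP.toE (A := 391) ((((((((((((((((((((((FPn.toFP u35_0 (by norm_num) (by norm_num) (i1 := 1) rfl).trans
    (FPn.toFP u35_1 (by norm_num) (by norm_num) (i1 := 2) rfl)).trans
    (FPn.toFP u35_2 (by norm_num) (by norm_num) (i1 := 3) rfl)).trans
    (FP_of t61 (by norm_num) (by norm_num) (i1 := 4) rfl)).trans
    (FP_of t62 (by norm_num) (by norm_num) (i1 := 5) rfl)).trans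
    (FP_of t63 (by norm_num) (by norm_num) (i1 := 6) rfl)).trans
    (FP_of t64 (by norm_num) (by norm_num) (i1 := 8) rfl)).trans
    (FP_of t65 (by norm_num) (by norm_num) (i1 := 10) rfl)).trans
    (FP_of t66 (by norm_num) (by norm_num) (i1 := 13) rfl)).trans
    (FP_of t67 (by norm_num) (by norm_num) (i1 := 17) rfl)).trans
    (FP_of t68 (by norm_num) (by norm_num) (i1 := 22) rfl)).trans
    (FP_of t69 (by norm_num) (by norm_num) (i1 := 29) rfl)).trans
    (FP_of t70 (by norm_num) (by norm_num) (i1 := 39) rfl)).trans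
    (FP_of t71 (by norm_num) (by norm_num) (i1 := 52) rfl)).trans
    (FP_of t72 (by norm_num) (by norm_num) (i1 := 69) rfl)).trans
    (FP_of t73 (by norm_num) (by norm_num) (i1 := 91) rfl)).trans
    (FP_of t74 (by norm_num) (by norm_num) (i1 := 121) rfl)).trans
    (FP_of t75 (by norm_num) (by norm_num) (i1 := 159) rfl)).trans
    (FP_of t76 (by norm_num) (by norm_num) (i1 := 211) rfl)).trans
    (FP_of t77 (by norm_num) (by norm_num) (i1 := 281) rfl)).trans
    (FP_of t78 (by norm_num) (by norm_num) (i1 := 366) rfl)).trans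
    (FP_of t79 (by norm_num) (by norm_num) (i1 := 391) rfl)) (by norm_num)

theorem fe : FPE 4 1730 3135 :=
  (((c32.trans c33).trans c34).trans c35)

end Pool.Agent.SignedQ.KD.Fd4_1
end

section

set_option autoImplicit false
set_option maxRecDepth 100000

namespace Pool.Agent.SignedQ.KD.Fd4_2

def t0 : fdr 4 16 7260 3 1041 60 = true := by decide +kernel

def t1 : fdr 4 16 7260 3 1101 60 = true := by decide +kernel

def t2 : fdr 4 16 7260 3 1161 48 = true := by decide +kernel

theorem u36_0 : FPn 4 (2 * 0 + 3) 1041 1209 :=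
  (((FPn_of t0 (by norm_num) (by norm_num) (by norm_num) (n1 := 1101) rfl).trans (FPn_of t1 (by norm_num) (by norm_num) (by norm_num) (n1 := 1161) rfl)).trans (FPn_of t2 (by norm_num) (by norm_num) (by norm_num) (n1 := 1209) rfl))

def t3 : fdr 4 16 7260 5 623 60 = true := by decide +kernel

def t4 : fdr 4 16 7260 5 683 41 = true := by decide +kernel

theorem u36_1 : FPn 4 (2 * 1 + 3) 623 724 :=
  ((FPn_of t3 (by norm_num) (by norm_num) (by norm_num) (n1 := 683) rfl).trans (FPn_of t4 (by norm_num) (by norm_num) (by norm_num) (n1 := 724) rfl))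

def t5 : fdr 4 16 7260 7 444 60 = true := by decide +kernel

def t6 : fdr 4 16 7260 7 504 12 = true := by decide +kernel

theorem u36_2 : FPn 4 (2 * 2 + 3) 444 516 :=
  ((FPn_of t5 (by norm_num) (by norm_num) (by norm_num) (n1 := 504) rfl).trans (FPn_of t6 (by norm_num) (by norm_num) (by norm_num) (n1 := 516) rfl))

def t7 : fda 4 16 7260 3135 3637 3 1 = true := by decide +kernel

def t8 : fda 4 16 7260 3135 3637 4 1 = true := by decide +kernel

def t9 : fda 4 16 7260 3135 3637 5 1 = true := by decide +kernel

def t10 : fda 4 16 7260 3135 3637 6 1 = true := by decide +kernel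

def t11 : fda 4 16 7260 3135 3637 7 2 = true := by decide +kernel

def t12 : fda 4 16 7260 3135 3637 9 2 = true := by decide +kernel

def t13 : fda 4 16 7260 3135 3637 11 3 = true := by decide +kernel

def t14 : fda 4 16 7260 3135 3637 14 4 = true := by decide +kernel

def t15 : fda 4 16 7260 3135 3637 18 5 = true := by decide +kernel

def t16 : fda 4 16 7260 3135 3637 23 6 = true := by decide +kernel

def t17 : fda 4 16 7260 3135 3637 29 8 = true := by decide +kernel

def t18 : fda 4 16 7260 3135 3637 37 10 = true := by decide +kernel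

def t19 : fda 4 16 7260 3135 3637 47 12 = true := by decide +kernel

def t20 : fda 4 16 7260 3135 3637 59 15 = true := by decide +kernel

def t21 : fda 4 16 7260 3135 3637 74 19 = true := by decide +kernel

def t22 : fda 4 16 7260 3135 3637 93 25 = true := by decide +kernel

def t23 : fda 4 16 7260 3135 3637 118 31 = true := by decide +kernel

def t24 : fda 4 16 7260 3135 3637 149 42 = true := by decide +kernel

def t25 : fda 4 16 7260 3135 3637 191 51 = true := by decide +kernel

def t26 : fda 4 16 7260 3135 3637 242 71 = true := by decide +kernel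

def t27 : fda 4 16 7260 3135 3637 313 88 = true := by decide +kernel

def t28 : fda 4 16 7260 3135 3637 401 53 = true := by decide +kernel

theorem c36 : FPE 4 3135 3637 :=
  FP.toE (A := 454) (((((((((((((((((((((((((FPn.toFP u36_0 (by norm_num) (by norm_num) (i1 := 1) rfl).trans
    (FPn.toFP u36_1 (by norm_num) (by norm_num) (i1 := 2) rfl)).trans
    (FPn.toFP u36_2 (by norm_num) (by norm_num) (i1 := 3) rfl)).trans
    (FP_of t7 (by norm_num) (by norm_num) (i1 := 4) rfl)).trans
    (FP_of t8 (by norm_num) (by norm_num) (i1 := 5) rfl)).trans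
    (FP_of t9 (by norm_num) (by norm_num) (i1 := 6) rfl)).trans
    (FP_of t10 (by norm_num) (by norm_num) (i1 := 7) rfl)).trans
    (FP_of t11 (by norm_num) (by norm_num) (i1 := 9) rfl)).trans
    (FP_of t12 (by norm_num) (by norm_num) (i1 := 11) rfl)).trans
    (FP_of t13 (by norm_num) (by norm_num) (i1 := 14) rfl)).trans
    (FP_of t14 (by norm_num) (by norm_num) (i1 := 18) rfl)).trans
    (FP_of t15 (by norm_num) (by norm_num) (i1 := 23) rfl)).trans
    (FP_of t16 (by norm_num) (by norm_num) (i1 := 29) rfl)).trans
    (FP_of t17 (by norm_num) (by norm_num) (i1 := 37) rfl)).trans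
    (FP_of t18 (by norm_num) (by norm_num) (i1 := 47) rfl)).trans
    (FP_of t19 (by norm_num) (by norm_num) (i1 := 59) rfl)).trans
    (FP_of t20 (by norm_num) (by norm_num) (i1 := 74) rfl)).trans
    (FP_of t21 (by norm_num) (by norm_num) (i1 := 93) rfl)).trans
    (FP_of t22 (by norm_num) (by norm_num) (i1 := 118) rfl)).trans
    (FP_of t23 (by norm_num) (by norm_num) (i1 := 149) rfl)).trans
    (FP_of t24 (by norm_num) (by norm_num) (i1 := 191) rfl)).trans
    (FP_of t25 (by norm_num) (by norm_num) (i1 := 242) rfl)).trans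
    (FP_of t26 (by norm_num) (by norm_num) (i1 := 313) rfl)).trans
    (FP_of t27 (by norm_num) (by norm_num) (i1 := 401) rfl)).trans
    (FP_of t28 (by norm_num) (by norm_num) (i1 := 454) rfl)) (by norm_num)

def t29 : fdr 4 16 8424 3 1209 60 = true := by decide +kernel

def t30 : fdr 4 16 8424 3 1269 60 = true := by decide +kernel

def t31 : fdr 4 16 8424 3 1329 60 = true := by decide +kernel

def t32 : fdr 4 16 8424 3 1389 14 = true := by decide +kernel

theorem u37_0 : FPn 4 (2 * 0 + 3) 1209 1403 :=
  ((((FPn_of t29 (by norm_num) (by norm_num) (by norm_num) (n1 := 1269) rfl).trans (FPn_of t30 (by norm_num) (by norm_num) (by norm_num) (n1 := 1329) rfl)).trans (FPn_of t31 (by norm_num) (by norm_num) (by norm_num) (n1 := 1389) rfl)).trans (FPn_of t32 (by norm_num) (by norm_num) (by norm_num) (n1 := 1403) rfl))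

def t33 : fdr 4 16 8424 5 724 60 = true := by decide +kernel

def t34 : fdr 4 16 8424 5 784 56 = true := by decide +kernel

theorem u37_1 : FPn 4 (2 * 1 + 3) 724 840 :=
  ((FPn_of t33 (by norm_num) (by norm_num) (by norm_num) (n1 := 784) rfl).trans (FPn_of t34 (by norm_num) (by norm_num) (by norm_num) (n1 := 840) rfl))

def t35 : fdr 4 16 8424 7 516 60 = true := by decide +kernel

def t36 : fdr 4 16 8424 7 576 23 = true := by decide +kernel

theorem u37_2 : FPn 4 (2 * 2 + 3) 516 599 :=
  ((FPn_of t35 (by norm_num) (by norm_num) (by norm_num) (n1 := 576) rfl).trans (FPn_of t36 (by norm_num) (by norm_num) (by norm_num) (n1 := 599) rfl))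

def t37 : fdr 4 16 8424 9 401 60 = true := by decide +kernel

def t38 : fdr 4 16 8424 9 461 4 = true := by decide +kernel

theorem u37_3 : FPn 4 (2 * 3 + 3) 401 465 :=
  ((FPn_of t37 (by norm_num) (by norm_num) (by norm_num) (n1 := 461) rfl).trans (FPn_of t38 (by norm_num) (by norm_num) (by norm_num) (n1 := 465) rfl))

def t39 : fda 4 16 8424 3637 4219 4 1 = true := by decide +kernel

def t40 : fda 4 16 8424 3637 4219 5 1 = true := by decide +kernel

def t41 : fda 4 16 8424 3637 4219 6 1 = true := by decide +kernel

def t42 : fda 4 16 8424 3637 4219 7 1 = true := by decide +kernel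

def t43 : fda 4 16 8424 3637 4219 8 2 = true := by decide +kernel

def t44 : fda 4 16 8424 3637 4219 10 2 = true := by decide +kernel

def t45 : fda 4 16 8424 3637 4219 12 2 = true := by decide +kernel

def t46 : fda 4 16 8424 3637 4219 14 3 = true := by decide +kernel

def t47 : fda 4 16 8424 3637 4219 17 4 = true := by decide +kernel

def t48 : fda 4 16 8424 3637 4219 21 5 = true := by decide +kernel

def t49 : fda 4 16 8424 3637 4219 26 6 = true := by decide +kernel

def t50 : fda 4 16 8424 3637 4219 32 7 = true := by decide +kernel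

def t51 : fda 4 16 8424 3637 4219 39 8 = true := by decide +kernel

def t52 : fda 4 16 8424 3637 4219 47 11 = true := by decide +kernel

def t53 : fda 4 16 8424 3637 4219 58 13 = true := by decide +kernel

def t54 : fda 4 16 8424 3637 4219 71 17 = true := by decide +kernel

def t55 : fda 4 16 8424 3637 4219 88 20 = true := by decide +kernel

def t56 : fda 4 16 8424 3637 4219 108 25 = true := by decide +kernel

def t57 : fda 4 16 8424 3637 4219 133 31 = true := by decide +kernel

def t58 : fda 4 16 8424 3637 4219 164 38 = true := by decide +kernel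

def t59 : fda 4 16 8424 3637 4219 202 45 = true := by decide +kernel

def t60 : fda 4 16 8424 3637 4219 247 58 = true := by decide +kernel

def t61 : fda 4 16 8424 3637 4219 305 72 = true := by decide +kernel

def t62 : fda 4 16 8424 3637 4219 377 93 = true := by decide +kernel

def t63 : fda 4 16 8424 3637 4219 470 56 = true := by decide +kernel

theorem c37 : FPE 4 3637 4219 :=
  FP.toE (A := 526) (((((((((((((((((((((((((((((FPn.toFP u37_0 (by norm_num) (by norm_num) (i1 := 1) rfl).trans
    (FPn.toFP u37_1 (by norm_num) (by norm_num) (i1 := 2) rfl)).trans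
    (FPn.toFP u37_2 (by norm_num) (by norm_num) (i1 := 3) rfl)).trans
    (FPn.toFP u37_3 (by norm_num) (by norm_num) (i1 := 4) rfl)).trans
    (FP_of t39 (by norm_num) (by norm_num) (i1 := 5) rfl)).trans
    (FP_of t40 (by norm_num) (by norm_num) (i1 := 6) rfl)).trans
    (FP_of t41 (by norm_num) (by norm_num) (i1 := 7) rfl)).trans
    (FP_of t42 (by norm_num) (by norm_num) (i1 := 8) rfl)).trans
    (FP_of t43 (by norm_num) (by norm_num) (i1 := 10) rfl)).trans
    (FP_of t44 (by norm_num) (by norm_num) (i1 := 12) rfl)).trans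
    (FP_of t45 (by norm_num) (by norm_num) (i1 := 14) rfl)).trans
    (FP_of t46 (by norm_num) (by norm_num) (i1 := 17) rfl)).trans
    (FP_of t47 (by norm_num) (by norm_num) (i1 := 21) rfl)).trans
    (FP_of t48 (by norm_num) (by norm_num) (i1 := 26) rfl)).trans
    (FP_of t49 (by norm_num) (by norm_num) (i1 := 32) rfl)).trans
    (FP_of t50 (by norm_num) (by norm_num) (i1 := 39) rfl)).trans
    (FP_of t51 (by norm_num) (by norm_num) (i1 := 47) rfl)).trans
    (FP_of t52 (by norm_num) (by norm_num) (i1 := 58) rfl)).trans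
    (FP_of t53 (by norm_num) (by norm_num) (i1 := 71) rfl)).trans
    (FP_of t54 (by norm_num) (by norm_num) (i1 := 88) rfl)).trans
    (FP_of t55 (by norm_num) (by norm_num) (i1 := 108) rfl)).trans
    (FP_of t56 (by norm_num) (by norm_num) (i1 := 133) rfl)).trans
    (FP_of t57 (by norm_num) (by norm_num) (i1 := 164) rfl)).trans
    (FP_of t58 (by norm_num) (by norm_num) (i1 := 202) rfl)).trans
    (FP_of t59 (by norm_num) (by norm_num) (i1 := 247) rfl)).trans
    (FP_of t60 (by norm_num) (by norm_num) (i1 := 305) rfl)).trans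
    (FP_of t61 (by norm_num) (by norm_num) (i1 := 377) rfl)).trans
    (FP_of t62 (by norm_num) (by norm_num) (i1 := 470) rfl)).trans
    (FP_of t63 (by norm_num) (by norm_num) (i1 := 526) rfl)) (by norm_num)

theorem fe : FPE 4 3135 4219 :=
  (c36.trans c37)

end Pool.Agent.SignedQ.KD.Fd4_2
end
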