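import Pool.Agent.Lib.MP_cf17a0_co.Mg.G059

section

set_option autoImplicit false
set_option maxRecDepth 100000

namespace Pool.Agent.SignedQ.KD.Fd4_3

def t0 : fdr 4 16 9774 3 1403 60 = true := by decide +kernel

def t1 : fdr 4 16 9774 3 1463 60 = true := by decide +kernel

def t2 : fdr 4 16 9774 3 1523 60 = true := by decide +kernel

def t3 : fdr 4 16 9774 3 1583 45 = true := by decide +kernel

theorem u38_0 : FPn 4 (2 * 0 + 3) 1403 1628 :=
  ((((FPn_of t0 (by norm_num) (by norm_num) (by norm_num) (n1 := 1463) rfl).trans (FPn_of t1 (by norm_num) (by norm_num) (by norm_num) (n1 := 1523) rfl)).trans (FPn_of t2 (by norm_num) (by norm_num) (by norm_num) (n1 := 1583) rfl)).trans (FPn_of t3 (by norm_num) (by norm_num) (by norm_num) (n1 := 1628) rfl))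

def t4 : fdr 4 16 9774 5 840 60 = true := by decide +kernel

def t5 : fdr 4 16 9774 5 900 60 = true := by decide +kernel

def t6 : fdr 4 16 9774 5 960 15 = true := by decide +kernel

theorem u38_1 : FPn 4 (2 * 1 + 3) 840 975 :=
  (((FPn_of t4 (by norm_num) (by norm_num) (by norm_num) (n1 := 900) rfl).trans (FPn_of t5 (by norm_num) (by norm_num) (by norm_num) (n1 := 960) rfl)).trans (FPn_of t6 (by norm_num) (by norm_num) (by norm_num) (n1 := 975) rfl))

def t7 : fdr 4 16 9774 7 599 60 = true := by decide +kernel

def t8 : fdr 4 16 9774 7 659 37 = true := by decide +kernel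

theorem u38_2 : FPn 4 (2 * 2 + 3) 599 696 :=
  ((FPn_of t7 (by norm_num) (by norm_num) (by norm_num) (n1 := 659) rfl).trans (FPn_of t8 (by norm_num) (by norm_num) (by norm_num) (n1 := 696) rfl))

def t9 : fdr 4 16 9774 9 465 60 = true := by decide +kernel

def t10 : fdr 4 16 9774 9 525 15 = true := by decide +kernel

theorem u38_3 : FPn 4 (2 * 3 + 3) 465 540 :=
  ((FPn_of t9 (by norm_num) (by norm_num) (by norm_num) (n1 := 525) rfl).trans (FPn_of t10 (by norm_num) (by norm_num) (by norm_num) (n1 := 540) rfl))

def t11 : fdr 4 16 9774 11 380 60 = true := by decide +kernel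

def t12 : fdr 4 16 9774 11 440 1 = true := by decide +kernel

theorem u38_4 : FPn 4 (2 * 4 + 3) 380 441 :=
  ((FPn_of t11 (by norm_num) (by norm_num) (by norm_num) (n1 := 440) rfl).trans (FPn_of t12 (by norm_num) (by norm_num) (by norm_num) (n1 := 441) rfl))

def t13 : fda 4 16 9774 4219 4895 5 1 = true := by decide +kernel

def t14 : fda 4 16 9774 4219 4895 6 1 = true := by decide +kernel

def t15 : fda 4 16 9774 4219 4895 7 1 = true := by decide +kernel

def t16 : fda 4 16 9774 4219 4895 8 1 = true := by decide +kernel

def t17 : fda 4 16 9774 4219 4895 9 1 = true := by decide +kernel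

def t18 : fda 4 16 9774 4219 4895 10 2 = true := by decide +kernel

def t19 : fda 4 16 9774 4219 4895 12 2 = true := by decide +kernel

def t20 : fda 4 16 9774 4219 4895 14 2 = true := by decide +kernel

def t21 : fda 4 16 9774 4219 4895 16 3 = true := by decide +kernel

def t22 : fda 4 16 9774 4219 4895 19 3 = true := by decide +kernel

def t23 : fda 4 16 9774 4219 4895 22 4 = true := by decide +kernel

def t24 : fda 4 16 9774 4219 4895 26 5 = true := by decide +kernel

def t25 : fda 4 16 9774 4219 4895 31 6 = true := by decide +kernel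

def t26 : fda 4 16 9774 4219 4895 37 7 = true := by decide +kernel

def t27 : fda 4 16 9774 4219 4895 44 8 = true := by decide +kernel

def t28 : fda 4 16 9774 4219 4895 52 10 = true := by decide +kernel

def t29 : fda 4 16 9774 4219 4895 62 12 = true := by decide +kernel

def t30 : fda 4 16 9774 4219 4895 74 14 = true := by decide +kernel

def t31 : fda 4 16 9774 4219 4895 88 17 = true := by decide +kernel

def t32 : fda 4 16 9774 4219 4895 105 20 = true := by decide +kernel

def t33 : fda 4 16 9774 4219 4895 125 25 = true := by decide +kernel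

def t34 : fda 4 16 9774 4219 4895 150 29 = true := by decide +kernel

def t35 : fda 4 16 9774 4219 4895 179 35 = true := by decide +kernel

def t36 : fda 4 16 9774 4219 4895 214 42 = true := by decide +kernel

def t37 : fda 4 16 9774 4219 4895 256 48 = true := by decide +kernel

def t38 : fda 4 16 9774 4219 4895 304 61 = true := by decide +kernel

def t39 : fda 4 16 9774 4219 4895 365 74 = true := by decide +kernel

def t40 : fda 4 16 9774 4219 4895 439 98 = true := by decide +kernel

def t41 : fda 4 16 9774 4219 4895 537 60 = true := by decide +kernel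

def t42 : fda 4 16 9774 4219 4895 597 14 = true := by decide +kernel

theorem c38 : FPE 4 4219 4895 :=
  FP.toE (A := 611) (((((((((((((((((((((((((((((((((((FPn.toFP u38_0 (by norm_num) (by norm_num) (i1 := 1) rfl).trans
    (FPn.toFP u38_1 (by norm_num) (by norm_num) (i1 := 2) rfl)).trans
    (FPn.toFP u38_2 (by norm_num) (by norm_num) (i1 := 3) rfl)).trans
    (FPn.toFP u38_3 (by norm_num) (by norm_num) (i1 := 4) rfl)).trans
    (FPn.toFP u38_4 (by norm_num) (by norm_num) (i1 := 5) rfl)).trans
    (FP_of t13 (by norm_num) (by norm_num) (i1 := 6) rfl)).trans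
    (FP_of t14 (by norm_num) (by norm_num) (i1 := 7) rfl)).trans
    (FP_of t15 (by norm_num) (by norm_num) (i1 := 8) rfl)).trans
    (FP_of t16 (by norm_num) (by norm_num) (i1 := 9) rfl)).trans
    (FP_of t17 (by norm_num) (by norm_num) (i1 := 10) rfl)).trans
    (FP_of t18 (by norm_num) (by norm_num) (i1 := 12) rfl)).trans
    (FP_of t19 (by norm_num) (by norm_num) (i1 := 14) rfl)).trans
    (FP_of t20 (by norm_num) (by norm_num) (i1 := 16) rfl)).trans
    (FP_of t21 (by norm_num) (by norm_num) (i1 := 19) rfl)).trans
    (FP_of t22 (by norm_num) (by norm_num) (i1 := 22) rfl)).trans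
    (FP_of t23 (by norm_num) (by norm_num) (i1 := 26) rfl)).trans
    (FP_of t24 (by norm_num) (by norm_num) (i1 := 31) rfl)).trans
    (FP_of t25 (by norm_num) (by norm_num) (i1 := 37) rfl)).trans
    (FP_of t26 (by norm_num) (by norm_num) (i1 := 44) rfl)).trans
    (FP_of t27 (by norm_num) (by norm_num) (i1 := 52) rfl)).trans
    (FP_of t28 (by norm_num) (by norm_num) (i1 := 62) rfl)).trans
    (FP_of t29 (by norm_num) (by norm_num) (i1 := 74) rfl)).trans
    (FP_of t30 (by norm_num) (by norm_num) (i1 := 88) rfl)).trans
    (FP_of t31 (by norm_num) (by norm_num) (i1 := 105) rfl)).trans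
    (FP_of t32 (by norm_num) (by norm_num) (i1 := 125) rfl)).trans
    (FP_of t33 (by norm_num) (by norm_num) (i1 := 150) rfl)).trans
    (FP_of t34 (by norm_num) (by norm_num) (i1 := 179) rfl)).trans
    (FP_of t35 (by norm_num) (by norm_num) (i1 := 214) rfl)).trans
    (FP_of t36 (by norm_num) (by norm_num) (i1 := 256) rfl)).trans
    (FP_of t37 (by norm_num) (by norm_num) (i1 := 304) rfl)).trans
    (FP_of t38 (by norm_num) (by norm_num) (i1 := 365) rfl)).trans
    (FP_of t39 (by norm_num) (by norm_num) (i1 := 439) rfl)).trans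
    (FP_of t40 (by norm_num) (by norm_num) (i1 := 537) rfl)).trans
    (FP_of t41 (by norm_num) (by norm_num) (i1 := 597) rfl)).trans
    (FP_of t42 (by norm_num) (by norm_num) (i1 := 611) rfl)) (by norm_num)

def t43 : fdr 4 16 11340 3 1628 60 = true := by decide +kernel

def t44 : fdr 4 16 11340 3 1688 60 = true := by decide +kernel

def t45 : fdr 4 16 11340 3 1748 60 = true := by decide +kernel

def t46 : fdr 4 16 11340 3 1808 60 = true := by decide +kernel

def t47 : fdr 4 16 11340 3 1868 21 = true := by decide +kernel

theorem u39_0 : FPn 4 (2 * 0 + 3) 1628 1889 :=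
  (((((FPn_of t43 (by norm_num) (by norm_num) (by norm_num) (n1 := 1688) rfl).trans (FPn_of t44 (by norm_num) (by norm_num) (by norm_num) (n1 := 1748) rfl)).trans (FPn_of t45 (by norm_num) (by norm_num) (by norm_num) (n1 := 1808) rfl)).trans (FPn_of t46 (by norm_num) (by norm_num) (by norm_num) (n1 := 1868) rfl)).trans (FPn_of t47 (by norm_num) (by norm_num) (by norm_num) (n1 := 1889) rfl))

def t48 : fdr 4 16 11340 5 975 60 = true := by decide +kernel

def t49 : fdr 4 16 11340 5 1035 60 = true := by decide +kernel

def t50 : fdr 4 16 11340 5 1095 37 = true := by decide +kernel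

theorem u39_1 : FPn 4 (2 * 1 + 3) 975 1132 :=
  (((FPn_of t48 (by norm_num) (by norm_num) (by norm_num) (n1 := 1035) rfl).trans (FPn_of t49 (by norm_num) (by norm_num) (by norm_num) (n1 := 1095) rfl)).trans (FPn_of t50 (by norm_num) (by norm_num) (by norm_num) (n1 := 1132) rfl))

def t51 : fdr 4 16 11340 7 696 60 = true := by decide +kernel

def t52 : fdr 4 16 11340 7 756 52 = true := by decide +kernel

theorem u39_2 : FPn 4 (2 * 2 + 3) 696 808 :=
  ((FPn_of t51 (by norm_num) (by norm_num) (by norm_num) (n1 := 756) rfl).trans (FPn_of t52 (by norm_num) (by norm_num) (by norm_num) (n1 := 808) rfl))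

def t53 : fdr 4 16 11340 9 540 60 = true := by decide +kernel

def t54 : fdr 4 16 11340 9 600 27 = true := by decide +kernel

theorem u39_3 : FPn 4 (2 * 3 + 3) 540 627 :=
  ((FPn_of t53 (by norm_num) (by norm_num) (by norm_num) (n1 := 600) rfl).trans (FPn_of t54 (by norm_num) (by norm_num) (by norm_num) (n1 := 627) rfl))

def t55 : fdr 4 16 11340 11 441 60 = true := by decide +kernel

def t56 : fdr 4 16 11340 11 501 12 = true := by decide +kernel

theorem u39_4 : FPn 4 (2 * 4 + 3) 441 513 :=
  ((FPn_of t55 (by norm_num) (by norm_num) (by norm_num) (n1 := 501) rfl).trans (FPn_of t56 (by norm_num) (by norm_num) (by norm_num) (n1 := 513) rfl))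

def t57 : fda 4 16 11340 4895 5679 5 1 = true := by decide +kernel

def t58 : fda 4 16 11340 4895 5679 6 1 = true := by decide +kernel

def t59 : fda 4 16 11340 4895 5679 7 1 = true := by decide +kernel

def t60 : fda 4 16 11340 4895 5679 8 1 = true := by decide +kernel

def t61 : fda 4 16 11340 4895 5679 9 1 = true := by decide +kernel

def t62 : fda 4 16 11340 4895 5679 10 1 = true := by decide +kernel

def t63 : fda 4 16 11340 4895 5679 11 1 = true := by decide +kernel

def t64 : fda 4 16 11340 4895 5679 12 2 = true := by decide +kernel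

def t65 : fda 4 16 11340 4895 5679 14 2 = true := by decide +kernel

def t66 : fda 4 16 11340 4895 5679 16 2 = true := by decide +kernel

def t67 : fda 4 16 11340 4895 5679 18 3 = true := by decide +kernel

def t68 : fda 4 16 11340 4895 5679 21 3 = true := by decide +kernel

def t69 : fda 4 16 11340 4895 5679 24 4 = true := by decide +kernel

def t70 : fda 4 16 11340 4895 5679 28 4 = true := by decide +kernel

def t71 : fda 4 16 11340 4895 5679 32 5 = true := by decide +kernel

def t72 : fda 4 16 11340 4895 5679 37 6 = true := by decide +kernel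

def t73 : fda 4 16 11340 4895 5679 43 7 = true := by decide +kernel

def t74 : fda 4 16 11340 4895 5679 50 8 = true := by decide +kernel

def t75 : fda 4 16 11340 4895 5679 58 9 = true := by decide +kernel

def t76 : fda 4 16 11340 4895 5679 67 11 = true := by decide +kernel

def t77 : fda 4 16 11340 4895 5679 78 12 = true := by decide +kernel

def t78 : fda 4 16 11340 4895 5679 90 15 = true := by decide +kernel

def t79 : fda 4 16 11340 4895 5679 105 17 = true := by decide +kernel

def t80 : fda 4 16 11340 4895 5679 122 21 = true := by decide +kernel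

def t81 : fda 4 16 11340 4895 5679 143 23 = true := by decide +kernel

def t82 : fda 4 16 11340 4895 5679 166 28 = true := by decide +kernel

def t83 : fda 4 16 11340 4895 5679 194 32 = true := by decide +kernel

def t84 : fda 4 16 11340 4895 5679 226 37 = true := by decide +kernel

def t85 : fda 4 16 11340 4895 5679 263 45 = true := by decide +kernel

def t86 : fda 4 16 11340 4895 5679 308 49 = true := by decide +kernel

def t87 : fda 4 16 11340 4895 5679 357 62 = true := by decide +kernel

def t88 : fda 4 16 11340 4895 5679 419 76 = true := by decide +kernel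

def t89 : fda 4 16 11340 4895 5679 495 60 = true := by decide +kernel

def t90 : fda 4 16 11340 4895 5679 555 104 = true := by decide +kernel

def t91 : fda 4 16 11340 4895 5679 659 50 = true := by decide +kernel

theorem c39 : FPE 4 4895 5679 :=
  FP.toE (A := 709) ((((((((((((((((((((((((((((((((((((((((FPn.toFP u39_0 (by norm_num) (by norm_num) (i1 := 1) rfl).trans
    (FPn.toFP u39_1 (by norm_num) (by norm_num) (i1 := 2) rfl)).trans
    (FPn.toFP u39_2 (by norm_num) (by norm_num) (i1 := 3) rfl)).trans
    (FPn.toFP u39_3 (by norm_num) (by norm_num) (i1 := 4) rfl)).trans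
    (FPn.toFP u39_4 (by norm_num) (by norm_num) (i1 := 5) rfl)).trans
    (FP_of t57 (by norm_num) (by norm_num) (i1 := 6) rfl)).trans
    (FP_of t58 (by norm_num) (by norm_num) (i1 := 7) rfl)).trans
    (FP_of t59 (by norm_num) (by norm_num) (i1 := 8) rfl)).trans
    (FP_of t60 (by norm_num) (by norm_num) (i1 := 9) rfl)).trans
    (FP_of t61 (by norm_num) (by norm_num) (i1 := 10) rfl)).trans
    (FP_of t62 (by norm_num) (by norm_num) (i1 := 11) rfl)).trans
    (FP_of t63 (by norm_num) (by norm_num) (i1 := 12) rfl)).trans
    (FP_of t64 (by norm_num) (by norm_num) (i1 := 14) rfl)).trans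
    (FP_of t65 (by norm_num) (by norm_num) (i1 := 16) rfl)).trans
    (FP_of t66 (by norm_num) (by norm_num) (i1 := 18) rfl)).trans
    (FP_of t67 (by norm_num) (by norm_num) (i1 := 21) rfl)).trans
    (FP_of t68 (by norm_num) (by norm_num) (i1 := 24) rfl)).trans
    (FP_of t69 (by norm_num) (by norm_num) (i1 := 28) rfl)).trans
    (FP_of t70 (by norm_num) (by norm_num) (i1 := 32) rfl)).trans
    (FP_of t71 (by norm_num) (by norm_num) (i1 := 37) rfl)).trans
    (FP_of t72 (by norm_num) (by norm_num) (i1 := 43) rfl)).trans
    (FP_of t73 (by norm_num) (by norm_num) (i1 := 50) rfl)).trans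
    (FP_of t74 (by norm_num) (by norm_num) (i1 := 58) rfl)).trans
    (FP_of t75 (by norm_num) (by norm_num) (i1 := 67) rfl)).trans
    (FP_of t76 (by norm_num) (by norm_num) (i1 := 78) rfl)).trans
    (FP_of t77 (by norm_num) (by norm_num) (i1 := 90) rfl)).trans
    (FP_of t78 (by norm_num) (by norm_num) (i1 := 105) rfl)).trans
    (FP_of t79 (by norm_num) (by norm_num) (i1 := 122) rfl)).trans
    (FP_of t80 (by norm_num) (by norm_num) (i1 := 143) rfl)).trans
    (FP_of t81 (by norm_num) (by norm_num) (i1 := 166) rfl)).trans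
    (FP_of t82 (by norm_num) (by norm_num) (i1 := 194) rfl)).trans
    (FP_of t83 (by norm_num) (by norm_num) (i1 := 226) rfl)).trans
    (FP_of t84 (by norm_num) (by norm_num) (i1 := 263) rfl)).trans
    (FP_of t85 (by norm_num) (by norm_num) (i1 := 308) rfl)).trans
    (FP_of t86 (by norm_num) (by norm_num) (i1 := 357) rfl)).trans
    (FP_of t87 (by norm_num) (by norm_num) (i1 := 419) rfl)).trans
    (FP_of t88 (by norm_num) (by norm_num) (i1 := 495) rfl)).trans
    (FP_of t89 (by norm_num) (by norm_num) (i1 := 555) rfl)).trans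
    (FP_of t90 (by norm_num) (by norm_num) (i1 := 659) rfl)).trans
    (FP_of t91 (by norm_num) (by norm_num) (i1 := 709) rfl)) (by norm_num)

theorem fe : FPE 4 4219 5679 :=
  (c38.trans c39)

end Pool.Agent.SignedQ.KD.Fd4_3
end

section

set_option autoImplicit false
set_option maxRecDepth 100000

namespace Pool.Agent.SignedQ.KD.Fd4_4

def t0 : fdr 4 17 13158 3 1889 60 = true := by decide +kernel

def t1 : fdr 4 17 13158 3 1949 60 = true := by decide +kernel

def t2 : fdr 4 17 13158 3 2009 60 = true := by decide +kernel

def t3 : fdr 4 17 13158 3 2069 60 = true := by decide +kernel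

def t4 : fdr 4 17 13158 3 2129 60 = true := by decide +kernel

def t5 : fdr 4 17 13158 3 2189 3 = true := by decide +kernel

theorem u40_0 : FPn 4 (2 * 0 + 3) 1889 2192 :=
  ((((((FPn_of t0 (by norm_num) (by norm_num) (by norm_num) (n1 := 1949) rfl).trans (FPn_of t1 (by norm_num) (by norm_num) (by norm_num) (n1 := 2009) rfl)).trans (FPn_of t2 (by norm_num) (by norm_num) (by norm_num) (n1 := 2069) rfl)).trans (FPn_of t3 (by norm_num) (by norm_num) (by norm_num) (n1 := 2129) rfl)).trans (FPn_of t4 (by norm_num) (by norm_num) (by norm_num) (n1 := 2189) rfl)).trans (FPn_of t5 (by norm_num) (by norm_num) (by norm_num) (n1 := 2192) rfl))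

def t6 : fdr 4 17 13158 5 1132 60 = true := by decide +kernel

def t7 : fdr 4 17 13158 5 1192 60 = true := by decide +kernel

def t8 : fdr 4 17 13158 5 1252 60 = true := by decide +kernel

def t9 : fdr 4 17 13158 5 1312 2 = true := by decide +kernel

theorem u40_1 : FPn 4 (2 * 1 + 3) 1132 1314 :=
  ((((FPn_of t6 (by norm_num) (by norm_num) (by norm_num) (n1 := 1192) rfl).trans (FPn_of t7 (by norm_num) (by norm_num) (by norm_num) (n1 := 1252) rfl)).trans (FPn_of t8 (by norm_num) (by norm_num) (by norm_num) (n1 := 1312) rfl)).trans (FPn_of t9 (by norm_num) (by norm_num) (by norm_num) (n1 := 1314) rfl))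

def t10 : fdr 4 17 13158 7 808 60 = true := by decide +kernel

def t11 : fdr 4 17 13158 7 868 60 = true := by decide +kernel

def t12 : fdr 4 17 13158 7 928 10 = true := by decide +kernel

theorem u40_2 : FPn 4 (2 * 2 + 3) 808 938 :=
  (((FPn_of t10 (by norm_num) (by norm_num) (by norm_num) (n1 := 868) rfl).trans (FPn_of t11 (by norm_num) (by norm_num) (by norm_num) (n1 := 928) rfl)).trans (FPn_of t12 (by norm_num) (by norm_num) (by norm_num) (n1 := 938) rfl))

def t13 : fdr 4 17 13158 9 627 60 = true := by decide +kernel

def t14 : fdr 4 17 13158 9 687 41 = true := by decide +kernel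

theorem u40_3 : FPn 4 (2 * 3 + 3) 627 728 :=
  ((FPn_of t13 (by norm_num) (by norm_num) (by norm_num) (n1 := 687) rfl).trans (FPn_of t14 (by norm_num) (by norm_num) (by norm_num) (n1 := 728) rfl))

def t15 : fdr 4 17 13158 11 513 60 = true := by decide +kernel

def t16 : fdr 4 17 13158 11 573 22 = true := by decide +kernel

theorem u40_4 : FPn 4 (2 * 4 + 3) 513 595 :=
  ((FPn_of t15 (by norm_num) (by norm_num) (by norm_num) (n1 := 573) rfl).trans (FPn_of t16 (by norm_num) (by norm_num) (by norm_num) (n1 := 595) rfl))

def t17 : fdr 4 17 13158 13 433 60 = true := by decide +kernel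

def t18 : fdr 4 17 13158 13 493 10 = true := by decide +kernel

theorem u40_5 : FPn 4 (2 * 5 + 3) 433 503 :=
  ((FPn_of t17 (by norm_num) (by norm_num) (by norm_num) (n1 := 493) rfl).trans (FPn_of t18 (by norm_num) (by norm_num) (by norm_num) (n1 := 503) rfl))

def t19 : fdr 4 17 13158 15 375 60 = true := by decide +kernel

def t20 : fdr 4 17 13158 15 435 1 = true := by decide +kernel

theorem u40_6 : FPn 4 (2 * 6 + 3) 375 436 :=
  ((FPn_of t19 (by norm_num) (by norm_num) (by norm_num) (n1 := 435) rfl).trans (FPn_of t20 (by norm_num) (by norm_num) (by norm_num) (n1 := 436) rfl))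

def t21 : fda 4 17 13158 5679 6588 7 1 = true := by decide +kernel

def t22 : fda 4 17 13158 5679 6588 8 1 = true := by decide +kernel

def t23 : fda 4 17 13158 5679 6588 9 1 = true := by decide +kernel

def t24 : fda 4 17 13158 5679 6588 10 1 = true := by decide +kernel

def t25 : fda 4 17 13158 5679 6588 11 1 = true := by decide +kernel

def t26 : fda 4 17 13158 5679 6588 12 1 = true := by decide +kernel

def t27 : fda 4 17 13158 5679 6588 13 1 = true := by decide +kernel

def t28 : fda 4 17 13158 5679 6588 14 2 = true := by decide +kernel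

def t29 : fda 4 17 13158 5679 6588 16 2 = true := by decide +kernel

def t30 : fda 4 17 13158 5679 6588 18 2 = true := by decide +kernel

def t31 : fda 4 17 13158 5679 6588 20 2 = true := by decide +kernel

def t32 : fda 4 17 13158 5679 6588 22 3 = true := by decide +kernel

def t33 : fda 4 17 13158 5679 6588 25 3 = true := by decide +kernel

def t34 : fda 4 17 13158 5679 6588 28 4 = true := by decide +kernel

def t35 : fda 4 17 13158 5679 6588 32 4 = true := by decide +kernel

def t36 : fda 4 17 13158 5679 6588 36 5 = true := by decide +kernel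

def t37 : fda 4 17 13158 5679 6588 41 5 = true := by decide +kernel

def t38 : fda 4 17 13158 5679 6588 46 6 = true := by decide +kernel

def t39 : fda 4 17 13158 5679 6588 52 7 = true := by decide +kernel

def t40 : fda 4 17 13158 5679 6588 59 8 = true := by decide +kernel

def t41 : fda 4 17 13158 5679 6588 67 9 = true := by decide +kernel

def t42 : fda 4 17 13158 5679 6588 76 11 = true := by decide +kernel

def t43 : fda 4 17 13158 5679 6588 87 12 = true := by decide +kernel

def t44 : fda 4 17 13158 5679 6588 99 14 = true := by decide +kernel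

def t45 : fda 4 17 13158 5679 6588 113 15 = true := by decide +kernel

def t46 : fda 4 17 13158 5679 6588 128 18 = true := by decide +kernel

def t47 : fda 4 17 13158 5679 6588 146 20 = true := by decide +kernel

def t48 : fda 4 17 13158 5679 6588 166 23 = true := by decide +kernel

def t49 : fda 4 17 13158 5679 6588 189 26 = true := by decide +kernel

def t50 : fda 4 17 13158 5679 6588 215 30 = true := by decide +kernel

def t51 : fda 4 17 13158 5679 6588 245 37 = true := by decide +kernel

def t52 : fda 4 17 13158 5679 6588 282 38 = true := by decide +kernel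

def t53 : fda 4 17 13158 5679 6588 320 43 = true := by decide +kernel

def t54 : fda 4 17 13158 5679 6588 363 52 = true := by decide +kernel

def t55 : fda 4 17 13158 5679 6588 415 62 = true := by decide +kernel

def t56 : fda 4 17 13158 5679 6588 477 60 = true := by decide +kernel

def t57 : fda 4 17 13158 5679 6588 537 79 = true := by decide +kernel

def t58 : fda 4 17 13158 5679 6588 616 111 = true := by decide +kernel

def t59 : fda 4 17 13158 5679 6588 727 60 = true := by decide +kernel

def t60 : fda 4 17 13158 5679 6588 787 35 = true := by decide +kernel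

theorem c40 : FPE 4 5679 6588 :=
  FP.toE (A := 822) (((((((((((((((((((((((((((((((((((((((((((((((FPn.toFP u40_0 (by norm_num) (by norm_num) (i1 := 1) rfl).trans
    (FPn.toFP u40_1 (by norm_num) (by norm_num) (i1 := 2) rfl)).trans
    (FPn.toFP u40_2 (by norm_num) (by norm_num) (i1 := 3) rfl)).trans
    (FPn.toFP u40_3 (by norm_num) (by norm_num) (i1 := 4) rfl)).trans
    (FPn.toFP u40_4 (by norm_num) (by norm_num) (i1 := 5) rfl)).trans
    (FPn.toFP u40_5 (by norm_num) (by norm_num) (i1 := 6) rfl)).trans
    (FPn.toFP u40_6 (by norm_num) (by norm_num) (i1 := 7) rfl)).trans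
    (FP_of t21 (by norm_num) (by norm_num) (i1 := 8) rfl)).trans
    (FP_of t22 (by norm_num) (by norm_num) (i1 := 9) rfl)).trans
    (FP_of t23 (by norm_num) (by norm_num) (i1 := 10) rfl)).trans
    (FP_of t24 (by norm_num) (by norm_num) (i1 := 11) rfl)).trans
    (FP_of t25 (by norm_num) (by norm_num) (i1 := 12) rfl)).trans
    (FP_of t26 (by norm_num) (by norm_num) (i1 := 13) rfl)).trans
    (FP_of t27 (by norm_num) (by norm_num) (i1 := 14) rfl)).trans
    (FP_of t28 (by norm_num) (by norm_num) (i1 := 16) rfl)).trans
    (FP_of t29 (by norm_num) (by norm_num) (i1 := 18) rfl)).trans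
    (FP_of t30 (by norm_num) (by norm_num) (i1 := 20) rfl)).trans
    (FP_of t31 (by norm_num) (by norm_num) (i1 := 22) rfl)).trans
    (FP_of t32 (by norm_num) (by norm_num) (i1 := 25) rfl)).trans
    (FP_of t33 (by norm_num) (by norm_num) (i1 := 28) rfl)).trans
    (FP_of t34 (by norm_num) (by norm_num) (i1 := 32) rfl)).trans
    (FP_of t35 (by norm_num) (by norm_num) (i1 := 36) rfl)).trans
    (FP_of t36 (by norm_num) (by norm_num) (i1 := 41) rfl)).trans
    (FP_of t37 (by norm_num) (by norm_num) (i1 := 46) rfl)).trans
    (FP_of t38 (by norm_num) (by norm_num) (i1 := 52) rfl)).trans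
    (FP_of t39 (by norm_num) (by norm_num) (i1 := 59) rfl)).trans
    (FP_of t40 (by norm_num) (by norm_num) (i1 := 67) rfl)).trans
    (FP_of t41 (by norm_num) (by norm_num) (i1 := 76) rfl)).trans
    (FP_of t42 (by norm_num) (by norm_num) (i1 := 87) rfl)).trans
    (FP_of t43 (by norm_num) (by norm_num) (i1 := 99) rfl)).trans
    (FP_of t44 (by norm_num) (by norm_num) (i1 := 113) rfl)).trans
    (FP_of t45 (by norm_num) (by norm_num) (i1 := 128) rfl)).trans
    (FP_of t46 (by norm_num) (by norm_num) (i1 := 146) rfl)).trans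
    (FP_of t47 (by norm_num) (by norm_num) (i1 := 166) rfl)).trans
    (FP_of t48 (by norm_num) (by norm_num) (i1 := 189) rfl)).trans
    (FP_of t49 (by norm_num) (by norm_num) (i1 := 215) rfl)).trans
    (FP_of t50 (by norm_num) (by norm_num) (i1 := 245) rfl)).trans
    (FP_of t51 (by norm_num) (by norm_num) (i1 := 282) rfl)).trans
    (FP_of t52 (by norm_num) (by norm_num) (i1 := 320) rfl)).trans
    (FP_of t53 (by norm_num) (by norm_num) (i1 := 363) rfl)).trans
    (FP_of t54 (by norm_num) (by norm_num) (i1 := 415) rfl)).trans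
    (FP_of t55 (by norm_num) (by norm_num) (i1 := 477) rfl)).trans
    (FP_of t56 (by norm_num) (by norm_num) (i1 := 537) rfl)).trans
    (FP_of t57 (by norm_num) (by norm_num) (i1 := 616) rfl)).trans
    (FP_of t58 (by norm_num) (by norm_num) (i1 := 727) rfl)).trans
    (FP_of t59 (by norm_num) (by norm_num) (i1 := 787) rfl)).trans
    (FP_of t60 (by norm_num) (by norm_num) (i1 := 822) rfl)) (by norm_num)

theorem fe : FPE 4 5679 6588 :=
  c40

end Pool.Agent.SignedQ.KD.Fd4_4
end

section

set_option autoImplicit false
set_option maxRecDepth 100000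

namespace Pool.Agent.SignedQ.KD.Fd4_5

def t0 : fdr 4 17 15270 3 2192 60 = true := by decide +kernel

def t1 : fdr 4 17 15270 3 2252 60 = true := by decide +kernel

def t2 : fdr 4 17 15270 3 2312 60 = true := by decide +kernel

def t3 : fdr 4 17 15270 3 2372 60 = true := by decide +kernel

def t4 : fdr 4 17 15270 3 2432 60 = true := by decide +kernel

def t5 : fdr 4 17 15270 3 2492 52 = true := by decide +kernel

theorem u41_0 : FPn 4 (2 * 0 + 3) 2192 2544 :=
  ((((((FPn_of t0 (by norm_num) (by norm_num) (by norm_num) (n1 := 2252) rfl).trans (FPn_of t1 (by norm_num) (by norm_num) (by norm_num) (n1 := 2312) rfl)).trans (FPn_of t2 (by norm_num) (by norm_num) (by norm_num) (n1 := 2372) rfl)).trans (FPn_of t3 (by norm_num) (by norm_num) (by norm_num) (n1 := 2432) rfl)).trans (FPn_of t4 (by norm_num) (by norm_num) (by norm_num) (n1 := 2492) rfl)).trans (FPn_of t5 (by norm_num) (by norm_num) (by norm_num) (n1 := 2544) rfl))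

def t6 : fdr 4 17 15270 5 1314 60 = true := by decide +kernel

def t7 : fdr 4 17 15270 5 1374 60 = true := by decide +kernel

def t8 : fdr 4 17 15270 5 1434 60 = true := by decide +kernel

def t9 : fdr 4 17 15270 5 1494 31 = true := by decide +kernel

theorem u41_1 : FPn 4 (2 * 1 + 3) 1314 1525 :=
  ((((FPn_of t6 (by norm_num) (by norm_num) (by norm_num) (n1 := 1374) rfl).trans (FPn_of t7 (by norm_num) (by norm_num) (by norm_num) (n1 := 1434) rfl)).trans (FPn_of t8 (by norm_num) (by norm_num) (by norm_num) (n1 := 1494) rfl)).trans (FPn_of t9 (by norm_num) (by norm_num) (by norm_num) (n1 := 1525) rfl))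

def t10 : fdr 4 17 15270 7 938 60 = true := by decide +kernel

def t11 : fdr 4 17 15270 7 998 60 = true := by decide +kernel

def t12 : fdr 4 17 15270 7 1058 30 = true := by decide +kernel

theorem u41_2 : FPn 4 (2 * 2 + 3) 938 1088 :=
  (((FPn_of t10 (by norm_num) (by norm_num) (by norm_num) (n1 := 998) rfl).trans (FPn_of t11 (by norm_num) (by norm_num) (by norm_num) (n1 := 1058) rfl)).trans (FPn_of t12 (by norm_num) (by norm_num) (by norm_num) (n1 := 1088) rfl))

def t13 : fdr 4 17 15270 9 728 60 = true := by decide +kernel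

def t14 : fdr 4 17 15270 9 788 58 = true := by decide +kernel

theorem u41_3 : FPn 4 (2 * 3 + 3) 728 846 :=
  ((FPn_of t13 (by norm_num) (by norm_num) (by norm_num) (n1 := 788) rfl).trans (FPn_of t14 (by norm_num) (by norm_num) (by norm_num) (n1 := 846) rfl))

def t15 : fdr 4 17 15270 11 595 60 = true := by decide +kernel

def t16 : fdr 4 17 15270 11 655 36 = true := by decide +kernel

theorem u41_4 : FPn 4 (2 * 4 + 3) 595 691 :=
  ((FPn_of t15 (by norm_num) (by norm_num) (by norm_num) (n1 := 655) rfl).trans (FPn_of t16 (by norm_num) (by norm_num) (by norm_num) (n1 := 691) rfl))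

def t17 : fdr 4 17 15270 13 503 60 = true := by decide +kernel

def t18 : fdr 4 17 15270 13 563 21 = true := by decide +kernel

theorem u41_5 : FPn 4 (2 * 5 + 3) 503 584 :=
  ((FPn_of t17 (by norm_num) (by norm_num) (by norm_num) (n1 := 563) rfl).trans (FPn_of t18 (by norm_num) (by norm_num) (by norm_num) (n1 := 584) rfl))

def t19 : fdr 4 17 15270 15 436 60 = true := by decide +kernel

def t20 : fdr 4 17 15270 15 496 10 = true := by decide +kernel

theorem u41_6 : FPn 4 (2 * 6 + 3) 436 506 :=
  ((FPn_of t19 (by norm_num) (by norm_num) (by norm_num) (n1 := 496) rfl).trans (FPn_of t20 (by norm_num) (by norm_num) (by norm_num) (n1 := 506) rfl))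

def t21 : fdr 4 17 15270 17 384 60 = true := by decide +kernel

def t22 : fdr 4 17 15270 17 444 2 = true := by decide +kernel

theorem u41_7 : FPn 4 (2 * 7 + 3) 384 446 :=
  ((FPn_of t21 (by norm_num) (by norm_num) (by norm_num) (n1 := 444) rfl).trans (FPn_of t22 (by norm_num) (by norm_num) (by norm_num) (n1 := 446) rfl))

def t23 : fda 4 17 15270 6588 7643 8 1 = true := by decide +kernel

def t24 : fda 4 17 15270 6588 7643 9 1 = true := by decide +kernel

def t25 : fda 4 17 15270 6588 7643 10 1 = true := by decide +kernel

def t26 : fda 4 17 15270 6588 7643 11 1 = true := by decide +kernel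

def t27 : fda 4 17 15270 6588 7643 12 1 = true := by decide +kernel

def t28 : fda 4 17 15270 6588 7643 13 1 = true := by decide +kernel

def t29 : fda 4 17 15270 6588 7643 14 1 = true := by decide +kernel

def t30 : fda 4 17 15270 6588 7643 15 1 = true := by decide +kernel

def t31 : fda 4 17 15270 6588 7643 16 2 = true := by decide +kernel

def t32 : fda 4 17 15270 6588 7643 18 2 = true := by decide +kernel

def t33 : fda 4 17 15270 6588 7643 20 2 = true := by decide +kernel

def t34 : fda 4 17 15270 6588 7643 22 2 = true := by decide +kernel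

def t35 : fda 4 17 15270 6588 7643 24 3 = true := by decide +kernel

def t36 : fda 4 17 15270 6588 7643 27 3 = true := by decide +kernel

def t37 : fda 4 17 15270 6588 7643 30 3 = true := by decide +kernel

def t38 : fda 4 17 15270 6588 7643 33 4 = true := by decide +kernel

def t39 : fda 4 17 15270 6588 7643 37 4 = true := by decide +kernel

def t40 : fda 4 17 15270 6588 7643 41 5 = true := by decide +kernel

def t41 : fda 4 17 15270 6588 7643 46 5 = true := by decide +kernel

def t42 : fda 4 17 15270 6588 7643 51 6 = true := by decide +kernel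

def t43 : fda 4 17 15270 6588 7643 57 6 = true := by decide +kernel

def t44 : fda 4 17 15270 6588 7643 63 7 = true := by decide +kernel

def t45 : fda 4 17 15270 6588 7643 70 8 = true := by decide +kernel

def t46 : fda 4 17 15270 6588 7643 78 9 = true := by decide +kernel

def t47 : fda 4 17 15270 6588 7643 87 10 = true := by decide +kernel

def t48 : fda 4 17 15270 6588 7643 97 12 = true := by decide +kernel

def t49 : fda 4 17 15270 6588 7643 109 13 = true := by decide +kernel

def t50 : fda 4 17 15270 6588 7643 122 15 = true := by decide +kernel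

def t51 : fda 4 17 15270 6588 7643 137 16 = true := by decide +kernel

def t52 : fda 4 17 15270 6588 7643 153 19 = true := by decide +kernel

def t53 : fda 4 17 15270 6588 7643 172 21 = true := by decide +kernel

def t54 : fda 4 17 15270 6588 7643 193 23 = true := by decide +kernel

def t55 : fda 4 17 15270 6588 7643 216 25 = true := by decide +kernel

def t56 : fda 4 17 15270 6588 7643 241 29 = true := by decide +kernel

def t57 : fda 4 17 15270 6588 7643 270 33 = true := by decide +kernel

def t58 : fda 4 17 15270 6588 7643 303 35 = true := by decide +kernel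

def t59 : fda 4 17 15270 6588 7643 338 39 = true := by decide +kernel

def t60 : fda 4 17 15270 6588 7643 377 45 = true := by decide +kernel

def t61 : fda 4 17 15270 6588 7643 422 53 = true := by decide +kernel

def t62 : fda 4 17 15270 6588 7643 475 58 = true := by decide +kernel

def t63 : fda 4 17 15270 6588 7643 533 63 = true := by decide +kernel

def t64 : fda 4 17 15270 6588 7643 596 82 = true := by decide +kernel

def t65 : fda 4 17 15270 6588 7643 678 60 = true := by decide +kernel

def t66 : fda 4 17 15270 6588 7643 738 119 = true := by decide +kernel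

def t67 : fda 4 17 15270 6588 7643 857 60 = true := by decide +kernel

def t68 : fda 4 17 15270 6588 7643 917 37 = true := by decide +kernel

theorem c41 : FPE 4 6588 7643 :=
  FP.toE (A := 954) ((((((((((((((((((((((((((((((((((((((((((((((((((((((FPn.toFP u41_0 (by norm_num) (by norm_num) (i1 := 1) rfl).trans
    (FPn.toFP u41_1 (by norm_num) (by norm_num) (i1 := 2) rfl)).trans
    (FPn.toFP u41_2 (by norm_num) (by norm_num) (i1 := 3) rfl)).trans
    (FPn.toFP u41_3 (by norm_num) (by norm_num) (i1 := 4) rfl)).trans
    (FPn.toFP u41_4 (by norm_num) (by norm_num) (i1 := 5) rfl)).trans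
    (FPn.toFP u41_5 (by norm_num) (by norm_num) (i1 := 6) rfl)).trans
    (FPn.toFP u41_6 (by norm_num) (by norm_num) (i1 := 7) rfl)).trans
    (FPn.toFP u41_7 (by norm_num) (by norm_num) (i1 := 8) rfl)).trans
    (FP_of t23 (by norm_num) (by norm_num) (i1 := 9) rfl)).trans
    (FP_of t24 (by norm_num) (by norm_num) (i1 := 10) rfl)).trans
    (FP_of t25 (by norm_num) (by norm_num) (i1 := 11) rfl)).trans
    (FP_of t26 (by norm_num) (by norm_num) (i1 := 12) rfl)).trans
    (FP_of t27 (by norm_num) (by norm_num) (i1 := 13) rfl)).trans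
    (FP_of t28 (by norm_num) (by norm_num) (i1 := 14) rfl)).trans
    (FP_of t29 (by norm_num) (by norm_num) (i1 := 15) rfl)).trans
    (FP_of t30 (by norm_num) (by norm_num) (i1 := 16) rfl)).trans
    (FP_of t31 (by norm_num) (by norm_num) (i1 := 18) rfl)).trans
    (FP_of t32 (by norm_num) (by norm_num) (i1 := 20) rfl)).trans
    (FP_of t33 (by norm_num) (by norm_num) (i1 := 22) rfl)).trans
    (FP_of t34 (by norm_num) (by norm_num) (i1 := 24) rfl)).trans
    (FP_of t35 (by norm_num) (by norm_num) (i1 := 27) rfl)).trans
    (FP_of t36 (by norm_num) (by norm_num) (i1 := 30) rfl)).trans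
    (FP_of t37 (by norm_num) (by norm_num) (i1 := 33) rfl)).trans
    (FP_of t38 (by norm_num) (by norm_num) (i1 := 37) rfl)).trans
    (FP_of t39 (by norm_num) (by norm_num) (i1 := 41) rfl)).trans
    (FP_of t40 (by norm_num) (by norm_num) (i1 := 46) rfl)).trans
    (FP_of t41 (by norm_num) (by norm_num) (i1 := 51) rfl)).trans
    (FP_of t42 (by norm_num) (by norm_num) (i1 := 57) rfl)).trans
    (FP_of t43 (by norm_num) (by norm_num) (i1 := 63) rfl)).trans
    (FP_of t44 (by norm_num) (by norm_num) (i1 := 70) rfl)).trans
    (FP_of t45 (by norm_num) (by norm_num) (i1 := 78) rfl)).trans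
    (FP_of t46 (by norm_num) (by norm_num) (i1 := 87) rfl)).trans
    (FP_of t47 (by norm_num) (by norm_num) (i1 := 97) rfl)).trans
    (FP_of t48 (by norm_num) (by norm_num) (i1 := 109) rfl)).trans
    (FP_of t49 (by norm_num) (by norm_num) (i1 := 122) rfl)).trans
    (FP_of t50 (by norm_num) (by norm_num) (i1 := 137) rfl)).trans
    (FP_of t51 (by norm_num) (by norm_num) (i1 := 153) rfl)).trans
    (FP_of t52 (by norm_num) (by norm_num) (i1 := 172) rfl)).trans
    (FP_of t53 (by norm_num) (by norm_num) (i1 := 193) rfl)).trans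
    (FP_of t54 (by norm_num) (by norm_num) (i1 := 216) rfl)).trans
    (FP_of t55 (by norm_num) (by norm_num) (i1 := 241) rfl)).trans
    (FP_of t56 (by norm_num) (by norm_num) (i1 := 270) rfl)).trans
    (FP_of t57 (by norm_num) (by norm_num) (i1 := 303) rfl)).trans
    (FP_of t58 (by norm_num) (by norm_num) (i1 := 338) rfl)).trans
    (FP_of t59 (by norm_num) (by norm_num) (i1 := 377) rfl)).trans
    (FP_of t60 (by norm_num) (by norm_num) (i1 := 422) rfl)).trans
    (FP_of t61 (by norm_num) (by norm_num) (i1 := 475) rfl)).trans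
    (FP_of t62 (by norm_num) (by norm_num) (i1 := 533) rfl)).trans
    (FP_of t63 (by norm_num) (by norm_num) (i1 := 596) rfl)).trans
    (FP_of t64 (by norm_num) (by norm_num) (i1 := 678) rfl)).trans
    (FP_of t65 (by norm_num) (by norm_num) (i1 := 738) rfl)).trans
    (FP_of t66 (by norm_num) (by norm_num) (i1 := 857) rfl)).trans
    (FP_of t67 (by norm_num) (by norm_num) (i1 := 917) rfl)).trans
    (FP_of t68 (by norm_num) (by norm_num) (i1 := 954) rfl)) (by norm_num)

theorem fe : FPE 4 6588 7643 :=
  c41

end Pool.Agent.SignedQ.KD.Fd4_5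
end

section

set_option autoImplicit false
set_option maxRecDepth 100000

namespace Pool.Agent.SignedQ.KD.Fd4_6

def t0 : fdr 4 17 17718 3 2544 60 = true := by decide +kernel

def t1 : fdr 4 17 17718 3 2604 60 = true := by decide +kernel

def t2 : fdr 4 17 17718 3 2664 60 = true := by decide +kernel

def t3 : fdr 4 17 17718 3 2724 60 = true := by decide +kernel

def t4 : fdr 4 17 17718 3 2784 60 = true := by decide +kernel

def t5 : fdr 4 17 17718 3 2844 60 = true := by decide +kernel

def t6 : fdr 4 17 17718 3 2904 48 = true := by decide +kernel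

theorem u42_0 : FPn 4 (2 * 0 + 3) 2544 2952 :=
  (((((((FPn_of t0 (by norm_num) (by norm_num) (by norm_num) (n1 := 2604) rfl).trans (FPn_of t1 (by norm_num) (by norm_num) (by norm_num) (n1 := 2664) rfl)).trans (FPn_of t2 (by norm_num) (by norm_num) (by norm_num) (n1 := 2724) rfl)).trans (FPn_of t3 (by norm_num) (by norm_num) (by norm_num) (n1 := 2784) rfl)).trans (FPn_of t4 (by norm_num) (by norm_num) (by norm_num) (n1 := 2844) rfl)).trans (FPn_of t5 (by norm_num) (by norm_num) (by norm_num) (n1 := 2904) rfl)).trans (FPn_of t6 (by norm_num) (by norm_num) (by norm_num) (n1 := 2952) rfl))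

def t7 : fdr 4 17 17718 5 1525 60 = true := by decide +kernel

def t8 : fdr 4 17 17718 5 1585 60 = true := by decide +kernel

def t9 : fdr 4 17 17718 5 1645 60 = true := by decide +kernel

def t10 : fdr 4 17 17718 5 1705 60 = true := by decide +kernel

def t11 : fdr 4 17 17718 5 1765 5 = true := by decide +kernel

theorem u42_1 : FPn 4 (2 * 1 + 3) 1525 1770 :=
  (((((FPn_of t7 (by norm_num) (by norm_num) (by norm_num) (n1 := 1585) rfl).trans (FPn_of t8 (by norm_num) (by norm_num) (by norm_num) (n1 := 1645) rfl)).trans (FPn_of t9 (by norm_num) (by norm_num) (by norm_num) (n1 := 1705) rfl)).trans (FPn_of t10 (by norm_num) (by norm_num) (by norm_num) (n1 := 1765) rfl)).trans (FPn_of t11 (by norm_num) (by norm_num) (by norm_num) (n1 := 1770) rfl))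

def t12 : fdr 4 17 17718 7 1088 60 = true := by decide +kernel

def t13 : fdr 4 17 17718 7 1148 60 = true := by decide +kernel

def t14 : fdr 4 17 17718 7 1208 55 = true := by decide +kernel

theorem u42_2 : FPn 4 (2 * 2 + 3) 1088 1263 :=
  (((FPn_of t12 (by norm_num) (by norm_num) (by norm_num) (n1 := 1148) rfl).trans (FPn_of t13 (by norm_num) (by norm_num) (by norm_num) (n1 := 1208) rfl)).trans (FPn_of t14 (by norm_num) (by norm_num) (by norm_num) (n1 := 1263) rfl))

def t15 : fdr 4 17 17718 9 846 60 = true := by decide +kernel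

def t16 : fdr 4 17 17718 9 906 60 = true := by decide +kernel

def t17 : fdr 4 17 17718 9 966 16 = true := by decide +kernel

theorem u42_3 : FPn 4 (2 * 3 + 3) 846 982 :=
  (((FPn_of t15 (by norm_num) (by norm_num) (by norm_num) (n1 := 906) rfl).trans (FPn_of t16 (by norm_num) (by norm_num) (by norm_num) (n1 := 966) rfl)).trans (FPn_of t17 (by norm_num) (by norm_num) (by norm_num) (n1 := 982) rfl))

def t18 : fdr 4 17 17718 11 691 60 = true := by decide +kernel

def t19 : fdr 4 17 17718 11 751 51 = true := by decide +kernel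

theorem u42_4 : FPn 4 (2 * 4 + 3) 691 802 :=
  ((FPn_of t18 (by norm_num) (by norm_num) (by norm_num) (n1 := 751) rfl).trans (FPn_of t19 (by norm_num) (by norm_num) (by norm_num) (n1 := 802) rfl))

def t20 : fdr 4 17 17718 13 584 60 = true := by decide +kernel

def t21 : fdr 4 17 17718 13 644 34 = true := by decide +kernel

theorem u42_5 : FPn 4 (2 * 5 + 3) 584 678 :=
  ((FPn_of t20 (by norm_num) (by norm_num) (by norm_num) (n1 := 644) rfl).trans (FPn_of t21 (by norm_num) (by norm_num) (by norm_num) (n1 := 678) rfl))

def t22 : fdr 4 17 17718 15 506 60 = true := by decide +kernel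

def t23 : fdr 4 17 17718 15 566 22 = true := by decide +kernel

theorem u42_6 : FPn 4 (2 * 6 + 3) 506 588 :=
  ((FPn_of t22 (by norm_num) (by norm_num) (by norm_num) (n1 := 566) rfl).trans (FPn_of t23 (by norm_num) (by norm_num) (by norm_num) (n1 := 588) rfl))

def t24 : fdr 4 17 17718 17 446 60 = true := by decide +kernel

def t25 : fdr 4 17 17718 17 506 12 = true := by decide +kernel

theorem u42_7 : FPn 4 (2 * 7 + 3) 446 518 :=
  ((FPn_of t24 (by norm_num) (by norm_num) (by norm_num) (n1 := 506) rfl).trans (FPn_of t25 (by norm_num) (by norm_num) (by norm_num) (n1 := 518) rfl))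

def t26 : fdr 4 17 17718 19 399 60 = true := by decide +kernel

def t27 : fdr 4 17 17718 19 459 4 = true := by decide +kernel

theorem u42_8 : FPn 4 (2 * 8 + 3) 399 463 :=
  ((FPn_of t26 (by norm_num) (by norm_num) (by norm_num) (n1 := 459) rfl).trans (FPn_of t27 (by norm_num) (by norm_num) (by norm_num) (n1 := 463) rfl))

def t28 : fda 4 17 17718 7643 8866 9 1 = true := by decide +kernel

def t29 : fda 4 17 17718 7643 8866 10 1 = true := by decide +kernel

def t30 : fda 4 17 17718 7643 8866 11 1 = true := by decide +kernel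

def t31 : fda 4 17 17718 7643 8866 12 1 = true := by decide +kernel

def t32 : fda 4 17 17718 7643 8866 13 1 = true := by decide +kernel

def t33 : fda 4 17 17718 7643 8866 14 1 = true := by decide +kernel

def t34 : fda 4 17 17718 7643 8866 15 1 = true := by decide +kernel

def t35 : fda 4 17 17718 7643 8866 16 1 = true := by decide +kernel

def t36 : fda 4 17 17718 7643 8866 17 1 = true := by decide +kernel

def t37 : fda 4 17 17718 7643 8866 18 1 = true := by decide +kernel

def t38 : fda 4 17 17718 7643 8866 19 2 = true := by decide +kernel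

def t39 : fda 4 17 17718 7643 8866 21 2 = true := by decide +kernel

def t40 : fda 4 17 17718 7643 8866 23 2 = true := by decide +kernel

def t41 : fda 4 17 17718 7643 8866 25 2 = true := by decide +kernel

def t42 : fda 4 17 17718 7643 8866 27 2 = true := by decide +kernel

def t43 : fda 4 17 17718 7643 8866 29 3 = true := by decide +kernel

def t44 : fda 4 17 17718 7643 8866 32 3 = true := by decide +kernel

def t45 : fda 4 17 17718 7643 8866 35 3 = true := by decide +kernel

def t46 : fda 4 17 17718 7643 8866 38 4 = true := by decide +kernel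

def t47 : fda 4 17 17718 7643 8866 42 4 = true := by decide +kernel

def t48 : fda 4 17 17718 7643 8866 46 4 = true := by decide +kernel

def t49 : fda 4 17 17718 7643 8866 50 5 = true := by decide +kernel

def t50 : fda 4 17 17718 7643 8866 55 5 = true := by decide +kernel

def t51 : fda 4 17 17718 7643 8866 60 6 = true := by decide +kernel

def t52 : fda 4 17 17718 7643 8866 66 6 = true := by decide +kernel

def t53 : fda 4 17 17718 7643 8866 72 7 = true := by decide +kernel

def t54 : fda 4 17 17718 7643 8866 79 8 = true := by decide +kernel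

def t55 : fda 4 17 17718 7643 8866 87 9 = true := by decide +kernel

def t56 : fda 4 17 17718 7643 8866 96 9 = true := by decide +kernel

def t57 : fda 4 17 17718 7643 8866 105 10 = true := by decide +kernel

def t58 : fda 4 17 17718 7643 8866 115 11 = true := by decide +kernel

def t59 : fda 4 17 17718 7643 8866 126 13 = true := by decide +kernel

def t60 : fda 4 17 17718 7643 8866 139 14 = true := by decide +kernel

def t61 : fda 4 17 17718 7643 8866 153 15 = true := by decide +kernel

def t62 : fda 4 17 17718 7643 8866 168 17 = true := by decide +kernel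

def t63 : fda 4 17 17718 7643 8866 185 19 = true := by decide +kernel

def t64 : fda 4 17 17718 7643 8866 204 21 = true := by decide +kernel

def t65 : fda 4 17 17718 7643 8866 225 23 = true := by decide +kernel

def t66 : fda 4 17 17718 7643 8866 248 26 = true := by decide +kernel

def t67 : fda 4 17 17718 7643 8866 274 28 = true := by decide +kernel

def t68 : fda 4 17 17718 7643 8866 302 30 = true := by decide +kernel

def t69 : fda 4 17 17718 7643 8866 332 33 = true := by decide +kernel

def t70 : fda 4 17 17718 7643 8866 365 36 = true := by decide +kernel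

def t71 : fda 4 17 17718 7643 8866 401 41 = true := by decide +kernel

def t72 : fda 4 17 17718 7643 8866 442 47 = true := by decide +kernel

def t73 : fda 4 17 17718 7643 8866 489 56 = true := by decide +kernel

def t74 : fda 4 17 17718 7643 8866 545 52 = true := by decide +kernel

def t75 : fda 4 17 17718 7643 8866 597 64 = true := by decide +kernel

def t76 : fda 4 17 17718 7643 8866 661 60 = true := by decide +kernel

def t77 : fda 4 17 17718 7643 8866 721 85 = true := by decide +kernel

def t78 : fda 4 17 17718 7643 8866 806 60 = true := by decide +kernel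

def t79 : fda 4 17 17718 7643 8866 866 128 = true := by decide +kernel

def t80 : fda 4 17 17718 7643 8866 994 60 = true := by decide +kernel

def t81 : fda 4 17 17718 7643 8866 1054 53 = true := by decide +kernel

theorem c42 : FPE 4 7643 8866 :=
  FP.toE (A := 1107) (((((((((((((((((((((((((((((((((((((((((((((((((((((((((((((((FPn.toFP u42_0 (by norm_num) (by norm_num) (i1 := 1) rfl).trans
    (FPn.toFP u42_1 (by norm_num) (by norm_num) (i1 := 2) rfl)).trans
    (FPn.toFP u42_2 (by norm_num) (by norm_num) (i1 := 3) rfl)).trans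
    (FPn.toFP u42_3 (by norm_num) (by norm_num) (i1 := 4) rfl)).trans
    (FPn.toFP u42_4 (by norm_num) (by norm_num) (i1 := 5) rfl)).trans
    (FPn.toFP u42_5 (by norm_num) (by norm_num) (i1 := 6) rfl)).trans
    (FPn.toFP u42_6 (by norm_num) (by norm_num) (i1 := 7) rfl)).trans
    (FPn.toFP u42_7 (by norm_num) (by norm_num) (i1 := 8) rfl)).trans
    (FPn.toFP u42_8 (by norm_num) (by norm_num) (i1 := 9) rfl)).trans
    (FP_of t28 (by norm_num) (by norm_num) (i1 := 10) rfl)).trans
    (FP_of t29 (by norm_num) (by norm_num) (i1 := 11) rfl)).trans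
    (FP_of t30 (by norm_num) (by norm_num) (i1 := 12) rfl)).trans
    (FP_of t31 (by norm_num) (by norm_num) (i1 := 13) rfl)).trans
    (FP_of t32 (by norm_num) (by norm_num) (i1 := 14) rfl)).trans
    (FP_of t33 (by norm_num) (by norm_num) (i1 := 15) rfl)).trans
    (FP_of t34 (by norm_num) (by norm_num) (i1 := 16) rfl)).trans
    (FP_of t35 (by norm_num) (by norm_num) (i1 := 17) rfl)).trans
    (FP_of t36 (by norm_num) (by norm_num) (i1 := 18) rfl)).trans
    (FP_of t37 (by norm_num) (by norm_num) (i1 := 19) rfl)).trans
    (FP_of t38 (by norm_num) (by norm_num) (i1 := 21) rfl)).trans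
    (FP_of t39 (by norm_num) (by norm_num) (i1 := 23) rfl)).trans
    (FP_of t40 (by norm_num) (by norm_num) (i1 := 25) rfl)).trans
    (FP_of t41 (by norm_num) (by norm_num) (i1 := 27) rfl)).trans
    (FP_of t42 (by norm_num) (by norm_num) (i1 := 29) rfl)).trans
    (FP_of t43 (by norm_num) (by norm_num) (i1 := 32) rfl)).trans
    (FP_of t44 (by norm_num) (by norm_num) (i1 := 35) rfl)).trans
    (FP_of t45 (by norm_num) (by norm_num) (i1 := 38) rfl)).trans
    (FP_of t46 (by norm_num) (by norm_num) (i1 := 42) rfl)).trans
    (FP_of t47 (by norm_num) (by norm_num) (i1 := 46) rfl)).trans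
    (FP_of t48 (by norm_num) (by norm_num) (i1 := 50) rfl)).trans
    (FP_of t49 (by norm_num) (by norm_num) (i1 := 55) rfl)).trans
    (FP_of t50 (by norm_num) (by norm_num) (i1 := 60) rfl)).trans
    (FP_of t51 (by norm_num) (by norm_num) (i1 := 66) rfl)).trans
    (FP_of t52 (by norm_num) (by norm_num) (i1 := 72) rfl)).trans
    (FP_of t53 (by norm_num) (by norm_num) (i1 := 79) rfl)).trans
    (FP_of t54 (by norm_num) (by norm_num) (i1 := 87) rfl)).trans
    (FP_of t55 (by norm_num) (by norm_num) (i1 := 96) rfl)).trans
    (FP_of t56 (by norm_num) (by norm_num) (i1 := 105) rfl)).trans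
    (FP_of t57 (by norm_num) (by norm_num) (i1 := 115) rfl)).trans
    (FP_of t58 (by norm_num) (by norm_num) (i1 := 126) rfl)).trans
    (FP_of t59 (by norm_num) (by norm_num) (i1 := 139) rfl)).trans
    (FP_of t60 (by norm_num) (by norm_num) (i1 := 153) rfl)).trans
    (FP_of t61 (by norm_num) (by norm_num) (i1 := 168) rfl)).trans
    (FP_of t62 (by norm_num) (by norm_num) (i1 := 185) rfl)).trans
    (FP_of t63 (by norm_num) (by norm_num) (i1 := 204) rfl)).trans
    (FP_of t64 (by norm_num) (by norm_num) (i1 := 225) rfl)).trans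
    (FP_of t65 (by norm_num) (by norm_num) (i1 := 248) rfl)).trans
    (FP_of t66 (by norm_num) (by norm_num) (i1 := 274) rfl)).trans
    (FP_of t67 (by norm_num) (by norm_num) (i1 := 302) rfl)).trans
    (FP_of t68 (by norm_num) (by norm_num) (i1 := 332) rfl)).trans
    (FP_of t69 (by norm_num) (by norm_num) (i1 := 365) rfl)).trans
    (FP_of t70 (by norm_num) (by norm_num) (i1 := 401) rfl)).trans
    (FP_of t71 (by norm_num) (by norm_num) (i1 := 442) rfl)).trans
    (FP_of t72 (by norm_num) (by norm_num) (i1 := 489) rfl)).trans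
    (FP_of t73 (by norm_num) (by norm_num) (i1 := 545) rfl)).trans
    (FP_of t74 (by norm_num) (by norm_num) (i1 := 597) rfl)).trans
    (FP_of t75 (by norm_num) (by norm_num) (i1 := 661) rfl)).trans
    (FP_of t76 (by norm_num) (by norm_num) (i1 := 721) rfl)).trans
    (FP_of t77 (by norm_num) (by norm_num) (i1 := 806) rfl)).trans
    (FP_of t78 (by norm_num) (by norm_num) (i1 := 866) rfl)).trans
    (FP_of t79 (by norm_num) (by norm_num) (i1 := 994) rfl)).trans
    (FP_of t80 (by norm_num) (by norm_num) (i1 := 1054) rfl)).trans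
    (FP_of t81 (by norm_num) (by norm_num) (i1 := 1107) rfl)) (by norm_num)

theorem fe : FPE 4 7643 8866 :=
  c42

end Pool.Agent.SignedQ.KD.Fd4_6
end

section

set_option autoImplicit false
set_option maxRecDepth 100000

namespace Pool.Agent.SignedQ.KD.Fd4_7

def t0 : fda 4 17 18078 8866 9047 0 1 = true := by decide +kernel

def t1 : fda 4 17 18078 8866 9047 1 1 = true := by decide +kernel

def t2 : fda 4 17 18078 8866 9047 2 2 = true := by decide +kernel

def t3 : fda 4 17 18078 8866 9047 4 4 = true := by decide +kernel

def t4 : fda 4 17 18078 8866 9047 8 8 = true := by decide +kernel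

def t5 : fda 4 17 18078 8866 9047 16 16 = true := by decide +kernel

def t6 : fda 4 17 18078 8866 9047 32 31 = true := by decide +kernel

def t7 : fda 4 17 18078 8866 9047 63 57 = true := by decide +kernel

def t8 : fda 4 17 18078 8866 9047 120 113 = true := by decide +kernel

def t9 : fda 4 17 18078 8866 9047 233 214 = true := by decide +kernel

def t10 : fda 4 17 18078 8866 9047 447 446 = true := by decide +kernel

def t11 : fda 4 17 18078 8866 9047 893 237 = true := by decide +kernel

theorem c43 : FPE 4 8866 9047 :=
  FP.toE (A := 1130) ((((((((((((FP_of t0 (by norm_num) (by norm_num) (i1 := 1) rfl).trans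
    (FP_of t1 (by norm_num) (by norm_num) (i1 := 2) rfl)).trans
    (FP_of t2 (by norm_num) (by norm_num) (i1 := 4) rfl)).trans
    (FP_of t3 (by norm_num) (by norm_num) (i1 := 8) rfl)).trans
    (FP_of t4 (by norm_num) (by norm_num) (i1 := 16) rfl)).trans
    (FP_of t5 (by norm_num) (by norm_num) (i1 := 32) rfl)).trans
    (FP_of t6 (by norm_num) (by norm_num) (i1 := 63) rfl)).trans
    (FP_of t7 (by norm_num) (by norm_num) (i1 := 120) rfl)).trans
    (FP_of t8 (by norm_num) (by norm_num) (i1 := 233) rfl)).trans
    (FP_of t9 (by norm_num) (by norm_num) (i1 := 447) rfl)).trans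
    (FP_of t10 (by norm_num) (by norm_num) (i1 := 893) rfl)).trans
    (FP_of t11 (by norm_num) (by norm_num) (i1 := 1130) rfl)) (by norm_num)

theorem fe : FPE 4 8866 9047 :=
  c43

end Pool.Agent.SignedQ.KD.Fd4_7
end
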