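import Pool.Agent.Lib.MP_cf17a0_co.Mg.G059

section

set_option autoImplicit false
set_option maxRecDepth 100000

namespace Pool.Agent.SignedQ.KD.Fd5_0

def t0 : fda 5 10 17 15 18 0 1 = true := by decide +kernel

theorem c0 : FPE 5 15 18 :=
  FP.toE (A := 1) (FP_of t0 (by norm_num) (by norm_num) (i1 := 1) rfl) (by norm_num)

def t1 : fda 5 10 1 18 21 0 1 = true := by decide +kernel

theorem c1 : FPE 5 18 21 :=
  FP.toE (A := 1) (FP_of t1 (by norm_num) (by norm_num) (i1 := 1) rfl) (by norm_num)

def t2 : fda 5 10 32 21 25 0 1 = true := by decide +kernel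

theorem c2 : FPE 5 21 25 :=
  FP.toE (A := 1) (FP_of t2 (by norm_num) (by norm_num) (i1 := 1) rfl) (by norm_num)

def t3 : fda 5 10 47 25 29 0 2 = true := by decide +kernel

theorem c3 : FPE 5 25 29 :=
  FP.toE (A := 2) (FP_of t3 (by norm_num) (by norm_num) (i1 := 2) rfl) (by norm_num)

def t4 : fda 5 10 62 29 34 0 2 = true := by decide +kernel

theorem c4 : FPE 5 29 34 :=
  FP.toE (A := 2) (FP_of t4 (by norm_num) (by norm_num) (i1 := 2) rfl) (by norm_num)

def t5 : fda 5 10 77 34 40 0 3 = true := by decide +kernel

theorem c5 : FPE 5 34 40 :=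
  FP.toE (A := 3) (FP_of t5 (by norm_num) (by norm_num) (i1 := 3) rfl) (by norm_num)

def t6 : fda 5 11 92 40 47 0 4 = true := by decide +kernel

theorem c6 : FPE 5 40 47 :=
  FP.toE (A := 4) (FP_of t6 (by norm_num) (by norm_num) (i1 := 4) rfl) (by norm_num)

def t7 : fda 5 11 107 47 55 0 4 = true := by decide +kernel

theorem c7 : FPE 5 47 55 :=
  FP.toE (A := 4) (FP_of t7 (by norm_num) (by norm_num) (i1 := 4) rfl) (by norm_num)

def t8 : fda 5 11 137 55 64 0 5 = true := by decide +kernel

theorem c8 : FPE 5 55 64 :=
  FP.toE (A := 5) (FP_of t8 (by norm_num) (by norm_num) (i1 := 5) rfl) (by norm_num)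

def t9 : fda 5 11 152 64 75 0 6 = true := by decide +kernel

theorem c9 : FPE 5 64 75 :=
  FP.toE (A := 6) (FP_of t9 (by norm_num) (by norm_num) (i1 := 6) rfl) (by norm_num)

def t10 : fda 5 12 197 75 88 0 8 = true := by decide +kernel

theorem c10 : FPE 5 75 88 :=
  FP.toE (A := 8) (FP_of t10 (by norm_num) (by norm_num) (i1 := 8) rfl) (by norm_num)

def t11 : fda 5 12 227 88 103 0 9 = true := by decide +kernel

theorem c11 : FPE 5 88 103 :=
  FP.toE (A := 9) (FP_of t11 (by norm_num) (by norm_num) (i1 := 9) rfl) (by norm_num)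

def t12 : fda 5 12 272 103 120 0 11 = true := by decide +kernel

theorem c12 : FPE 5 103 120 :=
  FP.toE (A := 11) (FP_of t12 (by norm_num) (by norm_num) (i1 := 11) rfl) (by norm_num)

def t13 : fda 5 12 317 120 140 0 13 = true := by decide +kernel

theorem c13 : FPE 5 120 140 :=
  FP.toE (A := 13) (FP_of t13 (by norm_num) (by norm_num) (i1 := 13) rfl) (by norm_num)

def t14 : fda 5 12 377 140 163 0 15 = true := by decide +kernel

theorem c14 : FPE 5 140 163 :=
  FP.toE (A := 15) (FP_of t14 (by norm_num) (by norm_num) (i1 := 15) rfl) (by norm_num)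

def t15 : fda 5 13 452 163 190 0 18 = true := by decide +kernel

theorem c15 : FPE 5 163 190 :=
  FP.toE (A := 18) (FP_of t15 (by norm_num) (by norm_num) (i1 := 18) rfl) (by norm_num)

def t16 : fda 5 13 527 190 221 0 21 = true := by decide +kernel

theorem c16 : FPE 5 190 221 :=
  FP.toE (A := 21) (FP_of t16 (by norm_num) (by norm_num) (i1 := 21) rfl) (by norm_num)

def t17 : fda 5 13 617 221 257 0 25 = true := by decide +kernel

theorem c17 : FPE 5 221 257 :=
  FP.toE (A := 25) (FP_of t17 (by norm_num) (by norm_num) (i1 := 25) rfl) (by norm_num)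

def t18 : fda 5 13 722 257 299 0 29 = true := by decide +kernel

theorem c18 : FPE 5 257 299 :=
  FP.toE (A := 29) (FP_of t18 (by norm_num) (by norm_num) (i1 := 29) rfl) (by norm_num)

def t19 : fda 5 14 842 299 347 0 34 = true := by decide +kernel

theorem c19 : FPE 5 299 347 :=
  FP.toE (A := 34) (FP_of t19 (by norm_num) (by norm_num) (i1 := 34) rfl) (by norm_num)

def t20 : fda 5 14 977 347 403 0 39 = true := by decide +kernel

theorem c20 : FPE 5 347 403 :=
  FP.toE (A := 39) (FP_of t20 (by norm_num) (by norm_num) (i1 := 39) rfl) (by norm_num)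

def t21 : fda 5 14 1142 403 468 0 46 = true := by decide +kernel

theorem c21 : FPE 5 403 468 :=
  FP.toE (A := 46) (FP_of t21 (by norm_num) (by norm_num) (i1 := 46) rfl) (by norm_num)

def t22 : fda 5 14 1322 468 543 0 53 = true := by decide +kernel

theorem c22 : FPE 5 468 543 :=
  FP.toE (A := 53) (FP_of t22 (by norm_num) (by norm_num) (i1 := 53) rfl) (by norm_num)

def t23 : fda 5 14 1547 543 630 0 62 = true := by decide +kernel

theorem c23 : FPE 5 543 630 :=
  FP.toE (A := 62) (FP_of t23 (by norm_num) (by norm_num) (i1 := 62) rfl) (by norm_num)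

def t24 : fda 5 15 1802 630 731 0 11 = true := by decide +kernel

def t25 : fda 5 15 1802 630 731 11 61 = true := by decide +kernel

theorem c24 : FPE 5 630 731 :=
  FP.toE (A := 72) ((FP_of t24 (by norm_num) (by norm_num) (i1 := 11) rfl).trans
    (FP_of t25 (by norm_num) (by norm_num) (i1 := 72) rfl)) (by norm_num)

def t26 : fda 5 15 2087 731 848 0 6 = true := by decide +kernel

def t27 : fda 5 15 2087 731 848 6 47 = true := by decide +kernel

def t28 : fda 5 15 2087 731 848 53 31 = true := by decide +kernel

theorem c25 : FPE 5 731 848 :=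
  FP.toE (A := 84) (((FP_of t26 (by norm_num) (by norm_num) (i1 := 6) rfl).trans
    (FP_of t27 (by norm_num) (by norm_num) (i1 := 53) rfl)).trans
    (FP_of t28 (by norm_num) (by norm_num) (i1 := 84) rfl)) (by norm_num)

def t29 : fda 5 15 2432 848 984 0 5 = true := by decide +kernel

def t30 : fda 5 15 2432 848 984 5 29 = true := by decide +kernel

def t31 : fda 5 15 2432 848 984 34 63 = true := by decide +kernel

theorem c26 : FPE 5 848 984 :=
  FP.toE (A := 97) (((FP_of t29 (by norm_num) (by norm_num) (i1 := 5) rfl).trans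
    (FP_of t30 (by norm_num) (by norm_num) (i1 := 34) rfl)).trans
    (FP_of t31 (by norm_num) (by norm_num) (i1 := 97) rfl)) (by norm_num)

def t32 : fda 5 15 2822 984 1142 0 3 = true := by decide +kernel

def t33 : fda 5 15 2822 984 1142 3 15 = true := by decide +kernel

def t34 : fda 5 15 2822 984 1142 18 62 = true := by decide +kernel

def t35 : fda 5 15 2822 984 1142 80 33 = true := by decide +kernel

theorem c27 : FPE 5 984 1142 :=
  FP.toE (A := 113) ((((FP_of t32 (by norm_num) (by norm_num) (i1 := 3) rfl).trans
    (FP_of t33 (by norm_num) (by norm_num) (i1 := 18) rfl)).trans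
    (FP_of t34 (by norm_num) (by norm_num) (i1 := 80) rfl)).trans
    (FP_of t35 (by norm_num) (by norm_num) (i1 := 113) rfl)) (by norm_num)

def t36 : fda 5 16 3287 1142 1325 0 2 = true := by decide +kernel

def t37 : fda 5 16 3287 1142 1325 2 8 = true := by decide +kernel

def t38 : fda 5 16 3287 1142 1325 10 29 = true := by decide +kernel

def t39 : fda 5 16 3287 1142 1325 39 91 = true := by decide +kernel

def t40 : fda 5 16 3287 1142 1325 130 1 = true := by decide +kernel

theorem c28 : FPE 5 1142 1325 :=
  FP.toE (A := 131) (((((FP_of t36 (by norm_num) (by norm_num) (i1 := 2) rfl).trans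
    (FP_of t37 (by norm_num) (by norm_num) (i1 := 10) rfl)).trans
    (FP_of t38 (by norm_num) (by norm_num) (i1 := 39) rfl)).trans
    (FP_of t39 (by norm_num) (by norm_num) (i1 := 130) rfl)).trans
    (FP_of t40 (by norm_num) (by norm_num) (i1 := 131) rfl)) (by norm_num)

def t41 : fda 5 16 3812 1325 1538 0 2 = true := by decide +kernel

def t42 : fda 5 16 3812 1325 1538 2 6 = true := by decide +kernel

def t43 : fda 5 16 3812 1325 1538 8 18 = true := by decide +kernel

def t44 : fda 5 16 3812 1325 1538 26 57 = true := by decide +kernel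

def t45 : fda 5 16 3812 1325 1538 83 70 = true := by decide +kernel

theorem c29 : FPE 5 1325 1538 :=
  FP.toE (A := 153) (((((FP_of t41 (by norm_num) (by norm_num) (i1 := 2) rfl).trans
    (FP_of t42 (by norm_num) (by norm_num) (i1 := 8) rfl)).trans
    (FP_of t43 (by norm_num) (by norm_num) (i1 := 26) rfl)).trans
    (FP_of t44 (by norm_num) (by norm_num) (i1 := 83) rfl)).trans
    (FP_of t45 (by norm_num) (by norm_num) (i1 := 153) rfl)) (by norm_num)

def t46 : fda 5 16 4427 1538 1785 0 1 = true := by decide +kernel

def t47 : fda 5 16 4427 1538 1785 1 3 = true := by decide +kernel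

def t48 : fda 5 16 4427 1538 1785 4 8 = true := by decide +kernel

def t49 : fda 5 16 4427 1538 1785 12 21 = true := by decide +kernel

def t50 : fda 5 16 4427 1538 1785 33 56 = true := by decide +kernel

def t51 : fda 5 16 4427 1538 1785 89 88 = true := by decide +kernel

theorem c30 : FPE 5 1538 1785 :=
  FP.toE (A := 177) ((((((FP_of t46 (by norm_num) (by norm_num) (i1 := 1) rfl).trans
    (FP_of t47 (by norm_num) (by norm_num) (i1 := 4) rfl)).trans
    (FP_of t48 (by norm_num) (by norm_num) (i1 := 12) rfl)).trans
    (FP_of t49 (by norm_num) (by norm_num) (i1 := 33) rfl)).trans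
    (FP_of t50 (by norm_num) (by norm_num) (i1 := 89) rfl)).trans
    (FP_of t51 (by norm_num) (by norm_num) (i1 := 177) rfl)) (by norm_num)

def t52 : fda 5 16 5147 1785 2071 0 1 = true := by decide +kernel

def t53 : fda 5 16 5147 1785 2071 1 2 = true := by decide +kernel

def t54 : fda 5 16 5147 1785 2071 3 5 = true := by decide +kernel

def t55 : fda 5 16 5147 1785 2071 8 12 = true := by decide +kernel

def t56 : fda 5 16 5147 1785 2071 20 28 = true := by decide +kernel

def t57 : fda 5 16 5147 1785 2071 48 62 = true := by decide +kernel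

def t58 : fda 5 16 5147 1785 2071 110 96 = true := by decide +kernel

theorem c31 : FPE 5 1785 2071 :=
  FP.toE (A := 206) (((((((FP_of t52 (by norm_num) (by norm_num) (i1 := 1) rfl).trans
    (FP_of t53 (by norm_num) (by norm_num) (i1 := 3) rfl)).trans
    (FP_of t54 (by norm_num) (by norm_num) (i1 := 8) rfl)).trans
    (FP_of t55 (by norm_num) (by norm_num) (i1 := 20) rfl)).trans
    (FP_of t56 (by norm_num) (by norm_num) (i1 := 48) rfl)).trans
    (FP_of t57 (by norm_num) (by norm_num) (i1 := 110) rfl)).trans
    (FP_of t58 (by norm_num) (by norm_num) (i1 := 206) rfl)) (by norm_num)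

def t59 : fda 5 16 5972 2071 2403 0 1 = true := by decide +kernel

def t60 : fda 5 16 5972 2071 2403 1 2 = true := by decide +kernel

def t61 : fda 5 16 5972 2071 2403 3 4 = true := by decide +kernel

def t62 : fda 5 16 5972 2071 2403 7 8 = true := by decide +kernel

def t63 : fda 5 16 5972 2071 2403 15 17 = true := by decide +kernel

def t64 : fda 5 16 5972 2071 2403 32 36 = true := by decide +kernel

def t65 : fda 5 16 5972 2071 2403 68 81 = true := by decide +kernel

def t66 : fda 5 16 5972 2071 2403 149 90 = true := by decide +kernel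

theorem c32 : FPE 5 2071 2403 :=
  FP.toE (A := 239) ((((((((FP_of t59 (by norm_num) (by norm_num) (i1 := 1) rfl).trans
    (FP_of t60 (by norm_num) (by norm_num) (i1 := 3) rfl)).trans
    (FP_of t61 (by norm_num) (by norm_num) (i1 := 7) rfl)).trans
    (FP_of t62 (by norm_num) (by norm_num) (i1 := 15) rfl)).trans
    (FP_of t63 (by norm_num) (by norm_num) (i1 := 32) rfl)).trans
    (FP_of t64 (by norm_num) (by norm_num) (i1 := 68) rfl)).trans
    (FP_of t65 (by norm_num) (by norm_num) (i1 := 149) rfl)).trans
    (FP_of t66 (by norm_num) (by norm_num) (i1 := 239) rfl)) (by norm_num)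

theorem fe : FPE 5 15 2403 :=
  ((((((((((((((((((((((((((((((((c0.trans c1).trans c2).trans c3).trans c4).trans c5).trans c6).trans c7).trans c8).trans c9).trans c10).trans c11).trans c12).trans c13).trans c14).trans c15).trans c16).trans c17).trans c18).trans c19).trans c20).trans c21).trans c22).trans c23).trans c24).trans c25).trans c26).trans c27).trans c28).trans c29).trans c30).trans c31).trans c32)

end Pool.Agent.SignedQ.KD.Fd5_0
end

section

set_option autoImplicit false
set_option maxRecDepth 100000

namespace Pool.Agent.SignedQ.KD.Fd5_1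

def t0 : fdr 5 17 6947 3 796 120 = true := by decide +kernel

def t1 : fdr 5 17 6947 3 916 9 = true := by decide +kernel

theorem u33_0 : FPn 5 (2 * 0 + 3) 796 925 :=
  ((FPn_of t0 (by norm_num) (by norm_num) (by norm_num) (n1 := 916) rfl).trans (FPn_of t1 (by norm_num) (by norm_num) (by norm_num) (n1 := 925) rfl))

def t2 : fda 5 17 6947 2403 2788 1 1 = true := by decide +kernel

def t3 : fda 5 17 6947 2403 2788 2 2 = true := by decide +kernel

def t4 : fda 5 17 6947 2403 2788 4 4 = true := by decide +kernel

def t5 : fda 5 17 6947 2403 2788 8 7 = true := by decide +kernel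

def t6 : fda 5 17 6947 2403 2788 15 14 = true := by decide +kernel

def t7 : fda 5 17 6947 2403 2788 29 24 = true := by decide +kernel

def t8 : fda 5 17 6947 2403 2788 53 46 = true := by decide +kernel

def t9 : fda 5 17 6947 2403 2788 99 85 = true := by decide +kernel

def t10 : fda 5 17 6947 2403 2788 184 94 = true := by decide +kernel

theorem c33 : FPE 5 2403 2788 :=
  FP.toE (A := 278) ((((((((((FPn.toFP u33_0 (by norm_num) (by norm_num) (i1 := 1) rfl).trans
    (FP_of t2 (by norm_num) (by norm_num) (i1 := 2) rfl)).trans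
    (FP_of t3 (by norm_num) (by norm_num) (i1 := 4) rfl)).trans
    (FP_of t4 (by norm_num) (by norm_num) (i1 := 8) rfl)).trans
    (FP_of t5 (by norm_num) (by norm_num) (i1 := 15) rfl)).trans
    (FP_of t6 (by norm_num) (by norm_num) (i1 := 29) rfl)).trans
    (FP_of t7 (by norm_num) (by norm_num) (i1 := 53) rfl)).trans
    (FP_of t8 (by norm_num) (by norm_num) (i1 := 99) rfl)).trans
    (FP_of t9 (by norm_num) (by norm_num) (i1 := 184) rfl)).trans
    (FP_of t10 (by norm_num) (by norm_num) (i1 := 278) rfl)) (by norm_num)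

def t11 : fdr 5 17 8057 3 925 121 = true := by decide +kernel

def t12 : fdr 5 17 8057 3 1046 28 = true := by decide +kernel

theorem u34_0 : FPn 5 (2 * 0 + 3) 925 1074 :=
  ((FPn_of t11 (by norm_num) (by norm_num) (by norm_num) (n1 := 1046) rfl).trans (FPn_of t12 (by norm_num) (by norm_num) (by norm_num) (n1 := 1074) rfl))

def t13 : fda 5 17 8057 2788 3235 1 1 = true := by decide +kernel

def t14 : fda 5 17 8057 2788 3235 2 2 = true := by decide +kernel

def t15 : fda 5 17 8057 2788 3235 4 3 = true := by decide +kernel

def t16 : fda 5 17 8057 2788 3235 7 5 = true := by decide +kernel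

def t17 : fda 5 17 8057 2788 3235 12 9 = true := by decide +kernel

def t18 : fda 5 17 8057 2788 3235 21 15 = true := by decide +kernel

def t19 : fda 5 17 8057 2788 3235 36 27 = true := by decide +kernel

def t20 : fda 5 17 8057 2788 3235 63 45 = true := by decide +kernel

def t21 : fda 5 17 8057 2788 3235 108 90 = true := by decide +kernel

def t22 : fda 5 17 8057 2788 3235 198 108 = true := by decide +kernel

def t23 : fda 5 17 8057 2788 3235 306 16 = true := by decide +kernel

theorem c34 : FPE 5 2788 3235 :=
  FP.toE (A := 322) ((((((((((((FPn.toFP u34_0 (by norm_num) (by norm_num) (i1 := 1) rfl).trans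
    (FP_of t13 (by norm_num) (by norm_num) (i1 := 2) rfl)).trans
    (FP_of t14 (by norm_num) (by norm_num) (i1 := 4) rfl)).trans
    (FP_of t15 (by norm_num) (by norm_num) (i1 := 7) rfl)).trans
    (FP_of t16 (by norm_num) (by norm_num) (i1 := 12) rfl)).trans
    (FP_of t17 (by norm_num) (by norm_num) (i1 := 21) rfl)).trans
    (FP_of t18 (by norm_num) (by norm_num) (i1 := 36) rfl)).trans
    (FP_of t19 (by norm_num) (by norm_num) (i1 := 63) rfl)).trans
    (FP_of t20 (by norm_num) (by norm_num) (i1 := 108) rfl)).trans
    (FP_of t21 (by norm_num) (by norm_num) (i1 := 198) rfl)).trans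
    (FP_of t22 (by norm_num) (by norm_num) (i1 := 306) rfl)).trans
    (FP_of t23 (by norm_num) (by norm_num) (i1 := 322) rfl)) (by norm_num)

def t24 : fdr 5 17 9347 3 1074 120 = true := by decide +kernel

def t25 : fdr 5 17 9347 3 1194 52 = true := by decide +kernel

theorem u35_0 : FPn 5 (2 * 0 + 3) 1074 1246 :=
  ((FPn_of t24 (by norm_num) (by norm_num) (by norm_num) (n1 := 1194) rfl).trans (FPn_of t25 (by norm_num) (by norm_num) (by norm_num) (n1 := 1246) rfl))

def t26 : fda 5 17 9347 3235 3753 1 1 = true := by decide +kernel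

def t27 : fda 5 17 9347 3235 3753 2 1 = true := by decide +kernel

def t28 : fda 5 17 9347 3235 3753 3 2 = true := by decide +kernel

def t29 : fda 5 17 9347 3235 3753 5 3 = true := by decide +kernel

def t30 : fda 5 17 9347 3235 3753 8 5 = true := by decide +kernel

def t31 : fda 5 17 9347 3235 3753 13 7 = true := by decide +kernel

def t32 : fda 5 17 9347 3235 3753 20 12 = true := by decide +kernel

def t33 : fda 5 17 9347 3235 3753 32 19 = true := by decide +kernel

def t34 : fda 5 17 9347 3235 3753 51 29 = true := by decide +kernel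

def t35 : fda 5 17 9347 3235 3753 80 48 = true := by decide +kernel

def t36 : fda 5 17 9347 3235 3753 128 72 = true := by decide +kernel

def t37 : fda 5 17 9347 3235 3753 200 138 = true := by decide +kernel

def t38 : fda 5 17 9347 3235 3753 338 36 = true := by decide +kernel

theorem c35 : FPE 5 3235 3753 :=
  FP.toE (A := 374) ((((((((((((((FPn.toFP u35_0 (by norm_num) (by norm_num) (i1 := 1) rfl).trans
    (FP_of t26 (by norm_num) (by norm_num) (i1 := 2) rfl)).trans
    (FP_of t27 (by norm_num) (by norm_num) (i1 := 3) rfl)).trans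
    (FP_of t28 (by norm_num) (by norm_num) (i1 := 5) rfl)).trans
    (FP_of t29 (by norm_num) (by norm_num) (i1 := 8) rfl)).trans
    (FP_of t30 (by norm_num) (by norm_num) (i1 := 13) rfl)).trans
    (FP_of t31 (by norm_num) (by norm_num) (i1 := 20) rfl)).trans
    (FP_of t32 (by norm_num) (by norm_num) (i1 := 32) rfl)).trans
    (FP_of t33 (by norm_num) (by norm_num) (i1 := 51) rfl)).trans
    (FP_of t34 (by norm_num) (by norm_num) (i1 := 80) rfl)).trans
    (FP_of t35 (by norm_num) (by norm_num) (i1 := 128) rfl)).trans
    (FP_of t36 (by norm_num) (by norm_num) (i1 := 200) rfl)).trans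
    (FP_of t37 (by norm_num) (by norm_num) (i1 := 338) rfl)).trans
    (FP_of t38 (by norm_num) (by norm_num) (i1 := 374) rfl)) (by norm_num)

def t39 : fdr 5 17 10862 3 1246 120 = true := by decide +kernel

def t40 : fdr 5 17 10862 3 1366 81 = true := by decide +kernel

theorem u36_0 : FPn 5 (2 * 0 + 3) 1246 1447 :=
  ((FPn_of t39 (by norm_num) (by norm_num) (by norm_num) (n1 := 1366) rfl).trans (FPn_of t40 (by norm_num) (by norm_num) (by norm_num) (n1 := 1447) rfl))

def t41 : fda 5 17 10862 3753 4354 1 1 = true := by decide +kernel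

def t42 : fda 5 17 10862 3753 4354 2 1 = true := by decide +kernel

def t43 : fda 5 17 10862 3753 4354 3 1 = true := by decide +kernel

def t44 : fda 5 17 10862 3753 4354 4 2 = true := by decide +kernel

def t45 : fda 5 17 10862 3753 4354 6 3 = true := by decide +kernel

def t46 : fda 5 17 10862 3753 4354 9 4 = true := by decide +kernel

def t47 : fda 5 17 10862 3753 4354 13 7 = true := by decide +kernel

def t48 : fda 5 17 10862 3753 4354 20 10 = true := by decide +kernel

def t49 : fda 5 17 10862 3753 4354 30 15 = true := by decide +kernel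

def t50 : fda 5 17 10862 3753 4354 45 23 = true := by decide +kernel

def t51 : fda 5 17 10862 3753 4354 68 33 = true := by decide +kernel

def t52 : fda 5 17 10862 3753 4354 101 49 = true := by decide +kernel

def t53 : fda 5 17 10862 3753 4354 150 74 = true := by decide +kernel

def t54 : fda 5 17 10862 3753 4354 224 150 = true := by decide +kernel

def t55 : fda 5 17 10862 3753 4354 374 60 = true := by decide +kernel

theorem c36 : FPE 5 3753 4354 :=
  FP.toE (A := 434) ((((((((((((((((FPn.toFP u36_0 (by norm_num) (by norm_num) (i1 := 1) rfl).trans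
    (FP_of t41 (by norm_num) (by norm_num) (i1 := 2) rfl)).trans
    (FP_of t42 (by norm_num) (by norm_num) (i1 := 3) rfl)).trans
    (FP_of t43 (by norm_num) (by norm_num) (i1 := 4) rfl)).trans
    (FP_of t44 (by norm_num) (by norm_num) (i1 := 6) rfl)).trans
    (FP_of t45 (by norm_num) (by norm_num) (i1 := 9) rfl)).trans
    (FP_of t46 (by norm_num) (by norm_num) (i1 := 13) rfl)).trans
    (FP_of t47 (by norm_num) (by norm_num) (i1 := 20) rfl)).trans
    (FP_of t48 (by norm_num) (by norm_num) (i1 := 30) rfl)).trans
    (FP_of t49 (by norm_num) (by norm_num) (i1 := 45) rfl)).trans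
    (FP_of t50 (by norm_num) (by norm_num) (i1 := 68) rfl)).trans
    (FP_of t51 (by norm_num) (by norm_num) (i1 := 101) rfl)).trans
    (FP_of t52 (by norm_num) (by norm_num) (i1 := 150) rfl)).trans
    (FP_of t53 (by norm_num) (by norm_num) (i1 := 224) rfl)).trans
    (FP_of t54 (by norm_num) (by norm_num) (i1 := 374) rfl)).trans
    (FP_of t55 (by norm_num) (by norm_num) (i1 := 434) rfl)) (by norm_num)

def t56 : fdr 5 17 12602 3 1447 121 = true := by decide +kernel

def t57 : fdr 5 17 12602 3 1568 111 = true := by decide +kernel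

theorem u37_0 : FPn 5 (2 * 0 + 3) 1447 1679 :=
  ((FPn_of t56 (by norm_num) (by norm_num) (by norm_num) (n1 := 1568) rfl).trans (FPn_of t57 (by norm_num) (by norm_num) (by norm_num) (n1 := 1679) rfl))

def t58 : fdr 5 17 12602 5 866 120 = true := by decide +kernel

def t59 : fdr 5 17 12602 5 986 20 = true := by decide +kernel

theorem u37_1 : FPn 5 (2 * 1 + 3) 866 1006 :=
  ((FPn_of t58 (by norm_num) (by norm_num) (by norm_num) (n1 := 986) rfl).trans (FPn_of t59 (by norm_num) (by norm_num) (by norm_num) (n1 := 1006) rfl))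

def t60 : fda 5 17 12602 4354 5051 2 1 = true := by decide +kernel

def t61 : fda 5 17 12602 4354 5051 3 1 = true := by decide +kernel

def t62 : fda 5 17 12602 4354 5051 4 2 = true := by decide +kernel

def t63 : fda 5 17 12602 4354 5051 6 2 = true := by decide +kernel

def t64 : fda 5 17 12602 4354 5051 8 3 = true := by decide +kernel

def t65 : fda 5 17 12602 4354 5051 11 4 = true := by decide +kernel

def t66 : fda 5 17 12602 4354 5051 15 6 = true := by decide +kernel

def t67 : fda 5 17 12602 4354 5051 21 8 = true := by decide +kernel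

def t68 : fda 5 17 12602 4354 5051 29 12 = true := by decide +kernel

def t69 : fda 5 17 12602 4354 5051 41 16 = true := by decide +kernel

def t70 : fda 5 17 12602 4354 5051 57 23 = true := by decide +kernel

def t71 : fda 5 17 12602 4354 5051 80 34 = true := by decide +kernel

def t72 : fda 5 17 12602 4354 5051 114 46 = true := by decide +kernel

def t73 : fda 5 17 12602 4354 5051 160 63 = true := by decide +kernel

def t74 : fda 5 17 12602 4354 5051 223 102 = true := by decide +kernel

def t75 : fda 5 17 12602 4354 5051 325 134 = true := by decide +kernel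

def t76 : fda 5 17 12602 4354 5051 459 45 = true := by decide +kernel

theorem c37 : FPE 5 4354 5051 :=
  FP.toE (A := 504) (((((((((((((((((((FPn.toFP u37_0 (by norm_num) (by norm_num) (i1 := 1) rfl).trans
    (FPn.toFP u37_1 (by norm_num) (by norm_num) (i1 := 2) rfl)).trans
    (FP_of t60 (by norm_num) (by norm_num) (i1 := 3) rfl)).trans
    (FP_of t61 (by norm_num) (by norm_num) (i1 := 4) rfl)).trans
    (FP_of t62 (by norm_num) (by norm_num) (i1 := 6) rfl)).trans
    (FP_of t63 (by norm_num) (by norm_num) (i1 := 8) rfl)).trans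
    (FP_of t64 (by norm_num) (by norm_num) (i1 := 11) rfl)).trans
    (FP_of t65 (by norm_num) (by norm_num) (i1 := 15) rfl)).trans
    (FP_of t66 (by norm_num) (by norm_num) (i1 := 21) rfl)).trans
    (FP_of t67 (by norm_num) (by norm_num) (i1 := 29) rfl)).trans
    (FP_of t68 (by norm_num) (by norm_num) (i1 := 41) rfl)).trans
    (FP_of t69 (by norm_num) (by norm_num) (i1 := 57) rfl)).trans
    (FP_of t70 (by norm_num) (by norm_num) (i1 := 80) rfl)).trans
    (FP_of t71 (by norm_num) (by norm_num) (i1 := 114) rfl)).trans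
    (FP_of t72 (by norm_num) (by norm_num) (i1 := 160) rfl)).trans
    (FP_of t73 (by norm_num) (by norm_num) (i1 := 223) rfl)).trans
    (FP_of t74 (by norm_num) (by norm_num) (i1 := 325) rfl)).trans
    (FP_of t75 (by norm_num) (by norm_num) (i1 := 459) rfl)).trans
    (FP_of t76 (by norm_num) (by norm_num) (i1 := 504) rfl)) (by norm_num)

theorem fe : FPE 5 2403 5051 :=
  ((((c33.trans c34).trans c35).trans c36).trans c37)

end Pool.Agent.SignedQ.KD.Fd5_1
end

section

set_option autoImplicit false
set_option maxRecDepth 100000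

namespace Pool.Agent.SignedQ.KD.Fd5_2

def t0 : fdr 5 18 14627 3 1679 121 = true := by decide +kernel

def t1 : fdr 5 18 14627 3 1800 120 = true := by decide +kernel

def t2 : fdr 5 18 14627 3 1920 29 = true := by decide +kernel

theorem u38_0 : FPn 5 (2 * 0 + 3) 1679 1949 :=
  (((FPn_of t0 (by norm_num) (by norm_num) (by norm_num) (n1 := 1800) rfl).trans (FPn_of t1 (by norm_num) (by norm_num) (by norm_num) (n1 := 1920) rfl)).trans (FPn_of t2 (by norm_num) (by norm_num) (by norm_num) (n1 := 1949) rfl))

def t3 : fdr 5 18 14627 5 1006 120 = true := by decide +kernel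

def t4 : fdr 5 18 14627 5 1126 41 = true := by decide +kernel

theorem u38_1 : FPn 5 (2 * 1 + 3) 1006 1167 :=
  ((FPn_of t3 (by norm_num) (by norm_num) (by norm_num) (n1 := 1126) rfl).trans (FPn_of t4 (by norm_num) (by norm_num) (by norm_num) (n1 := 1167) rfl))

def t5 : fda 5 18 14627 5051 5860 2 1 = true := by decide +kernel

def t6 : fda 5 18 14627 5051 5860 3 1 = true := by decide +kernel

def t7 : fda 5 18 14627 5051 5860 4 1 = true := by decide +kernel

def t8 : fda 5 18 14627 5051 5860 5 2 = true := by decide +kernel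

def t9 : fda 5 18 14627 5051 5860 7 2 = true := by decide +kernel

def t10 : fda 5 18 14627 5051 5860 9 3 = true := by decide +kernel

def t11 : fda 5 18 14627 5051 5860 12 4 = true := by decide +kernel

def t12 : fda 5 18 14627 5051 5860 16 6 = true := by decide +kernel

def t13 : fda 5 18 14627 5051 5860 22 8 = true := by decide +kernel

def t14 : fda 5 18 14627 5051 5860 30 11 = true := by decide +kernel

def t15 : fda 5 18 14627 5051 5860 41 15 = true := by decide +kernel

def t16 : fda 5 18 14627 5051 5860 56 20 = true := by decide +kernel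

def t17 : fda 5 18 14627 5051 5860 76 26 = true := by decide +kernel

def t18 : fda 5 18 14627 5051 5860 102 35 = true := by decide +kernel

def t19 : fda 5 18 14627 5051 5860 137 49 = true := by decide +kernel

def t20 : fda 5 18 14627 5051 5860 186 64 = true := by decide +kernel

def t21 : fda 5 18 14627 5051 5860 250 110 = true := by decide +kernel

def t22 : fda 5 18 14627 5051 5860 360 146 = true := by decide +kernel

def t23 : fda 5 18 14627 5051 5860 506 60 = true := by decide +kernel

def t24 : fda 5 18 14627 5051 5860 566 19 = true := by decide +kernel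

theorem c38 : FPE 5 5051 5860 :=
  FP.toE (A := 585) ((((((((((((((((((((((FPn.toFP u38_0 (by norm_num) (by norm_num) (i1 := 1) rfl).trans
    (FPn.toFP u38_1 (by norm_num) (by norm_num) (i1 := 2) rfl)).trans
    (FP_of t5 (by norm_num) (by norm_num) (i1 := 3) rfl)).trans
    (FP_of t6 (by norm_num) (by norm_num) (i1 := 4) rfl)).trans
    (FP_of t7 (by norm_num) (by norm_num) (i1 := 5) rfl)).trans
    (FP_of t8 (by norm_num) (by norm_num) (i1 := 7) rfl)).trans
    (FP_of t9 (by norm_num) (by norm_num) (i1 := 9) rfl)).trans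
    (FP_of t10 (by norm_num) (by norm_num) (i1 := 12) rfl)).trans
    (FP_of t11 (by norm_num) (by norm_num) (i1 := 16) rfl)).trans
    (FP_of t12 (by norm_num) (by norm_num) (i1 := 22) rfl)).trans
    (FP_of t13 (by norm_num) (by norm_num) (i1 := 30) rfl)).trans
    (FP_of t14 (by norm_num) (by norm_num) (i1 := 41) rfl)).trans
    (FP_of t15 (by norm_num) (by norm_num) (i1 := 56) rfl)).trans
    (FP_of t16 (by norm_num) (by norm_num) (i1 := 76) rfl)).trans
    (FP_of t17 (by norm_num) (by norm_num) (i1 := 102) rfl)).trans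
    (FP_of t18 (by norm_num) (by norm_num) (i1 := 137) rfl)).trans
    (FP_of t19 (by norm_num) (by norm_num) (i1 := 186) rfl)).trans
    (FP_of t20 (by norm_num) (by norm_num) (i1 := 250) rfl)).trans
    (FP_of t21 (by norm_num) (by norm_num) (i1 := 360) rfl)).trans
    (FP_of t22 (by norm_num) (by norm_num) (i1 := 506) rfl)).trans
    (FP_of t23 (by norm_num) (by norm_num) (i1 := 566) rfl)).trans
    (FP_of t24 (by norm_num) (by norm_num) (i1 := 585) rfl)) (by norm_num)

def t25 : fdr 5 18 16967 3 1949 121 = true := by decide +kernel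

def t26 : fdr 5 18 16967 3 2070 120 = true := by decide +kernel

def t27 : fdr 5 18 16967 3 2190 71 = true := by decide +kernel

theorem u39_0 : FPn 5 (2 * 0 + 3) 1949 2261 :=
  (((FPn_of t25 (by norm_num) (by norm_num) (by norm_num) (n1 := 2070) rfl).trans (FPn_of t26 (by norm_num) (by norm_num) (by norm_num) (n1 := 2190) rfl)).trans (FPn_of t27 (by norm_num) (by norm_num) (by norm_num) (n1 := 2261) rfl))

def t28 : fdr 5 18 16967 5 1167 121 = true := by decide +kernel

def t29 : fdr 5 18 16967 5 1288 67 = true := by decide +kernel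

theorem u39_1 : FPn 5 (2 * 1 + 3) 1167 1355 :=
  ((FPn_of t28 (by norm_num) (by norm_num) (by norm_num) (n1 := 1288) rfl).trans (FPn_of t29 (by norm_num) (by norm_num) (by norm_num) (n1 := 1355) rfl))

def t30 : fdr 5 18 16967 7 833 121 = true := by decide +kernel

def t31 : fdr 5 18 16967 7 954 13 = true := by decide +kernel

theorem u39_2 : FPn 5 (2 * 2 + 3) 833 967 :=
  ((FPn_of t30 (by norm_num) (by norm_num) (by norm_num) (n1 := 954) rfl).trans (FPn_of t31 (by norm_num) (by norm_num) (by norm_num) (n1 := 967) rfl))

def t32 : fda 5 18 16967 5860 6798 3 1 = true := by decide +kernel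

def t33 : fda 5 18 16967 5860 6798 4 1 = true := by decide +kernel

def t34 : fda 5 18 16967 5860 6798 5 1 = true := by decide +kernel

def t35 : fda 5 18 16967 5860 6798 6 2 = true := by decide +kernel

def t36 : fda 5 18 16967 5860 6798 8 2 = true := by decide +kernel

def t37 : fda 5 18 16967 5860 6798 10 3 = true := by decide +kernel

def t38 : fda 5 18 16967 5860 6798 13 4 = true := by decide +kernel

def t39 : fda 5 18 16967 5860 6798 17 5 = true := by decide +kernel

def t40 : fda 5 18 16967 5860 6798 22 6 = true := by decide +kernel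

def t41 : fda 5 18 16967 5860 6798 28 8 = true := by decide +kernel

def t42 : fda 5 18 16967 5860 6798 36 10 = true := by decide +kernel

def t43 : fda 5 18 16967 5860 6798 46 13 = true := by decide +kernel

def t44 : fda 5 18 16967 5860 6798 59 17 = true := by decide +kernel

def t45 : fda 5 18 16967 5860 6798 76 23 = true := by decide +kernel

def t46 : fda 5 18 16967 5860 6798 99 29 = true := by decide +kernel

def t47 : fda 5 18 16967 5860 6798 128 37 = true := by decide +kernel

def t48 : fda 5 18 16967 5860 6798 165 48 = true := by decide +kernel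

def t49 : fda 5 18 16967 5860 6798 213 63 = true := by decide +kernel

def t50 : fda 5 18 16967 5860 6798 276 77 = true := by decide +kernel

def t51 : fda 5 18 16967 5860 6798 353 101 = true := by decide +kernel

def t52 : fda 5 18 16967 5860 6798 454 160 = true := by decide +kernel

def t53 : fda 5 18 16967 5860 6798 614 60 = true := by decide +kernel

def t54 : fda 5 18 16967 5860 6798 674 5 = true := by decide +kernel

theorem c39 : FPE 5 5860 6798 :=
  FP.toE (A := 679) ((((((((((((((((((((((((((FPn.toFP u39_0 (by norm_num) (by norm_num) (i1 := 1) rfl).trans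
    (FPn.toFP u39_1 (by norm_num) (by norm_num) (i1 := 2) rfl)).trans
    (FPn.toFP u39_2 (by norm_num) (by norm_num) (i1 := 3) rfl)).trans
    (FP_of t32 (by norm_num) (by norm_num) (i1 := 4) rfl)).trans
    (FP_of t33 (by norm_num) (by norm_num) (i1 := 5) rfl)).trans
    (FP_of t34 (by norm_num) (by norm_num) (i1 := 6) rfl)).trans
    (FP_of t35 (by norm_num) (by norm_num) (i1 := 8) rfl)).trans
    (FP_of t36 (by norm_num) (by norm_num) (i1 := 10) rfl)).trans
    (FP_of t37 (by norm_num) (by norm_num) (i1 := 13) rfl)).trans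
    (FP_of t38 (by norm_num) (by norm_num) (i1 := 17) rfl)).trans
    (FP_of t39 (by norm_num) (by norm_num) (i1 := 22) rfl)).trans
    (FP_of t40 (by norm_num) (by norm_num) (i1 := 28) rfl)).trans
    (FP_of t41 (by norm_num) (by norm_num) (i1 := 36) rfl)).trans
    (FP_of t42 (by norm_num) (by norm_num) (i1 := 46) rfl)).trans
    (FP_of t43 (by norm_num) (by norm_num) (i1 := 59) rfl)).trans
    (FP_of t44 (by norm_num) (by norm_num) (i1 := 76) rfl)).trans
    (FP_of t45 (by norm_num) (by norm_num) (i1 := 99) rfl)).trans
    (FP_of t46 (by norm_num) (by norm_num) (i1 := 128) rfl)).trans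
    (FP_of t47 (by norm_num) (by norm_num) (i1 := 165) rfl)).trans
    (FP_of t48 (by norm_num) (by norm_num) (i1 := 213) rfl)).trans
    (FP_of t49 (by norm_num) (by norm_num) (i1 := 276) rfl)).trans
    (FP_of t50 (by norm_num) (by norm_num) (i1 := 353) rfl)).trans
    (FP_of t51 (by norm_num) (by norm_num) (i1 := 454) rfl)).trans
    (FP_of t52 (by norm_num) (by norm_num) (i1 := 614) rfl)).trans
    (FP_of t53 (by norm_num) (by norm_num) (i1 := 674) rfl)).trans
    (FP_of t54 (by norm_num) (by norm_num) (i1 := 679) rfl)) (by norm_num)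

def t55 : fdr 5 18 19682 3 2261 121 = true := by decide +kernel

def t56 : fdr 5 18 19682 3 2382 120 = true := by decide +kernel

def t57 : fdr 5 18 19682 3 2502 120 = true := by decide +kernel

def t58 : fdr 5 18 19682 3 2622 2 = true := by decide +kernel

theorem u40_0 : FPn 5 (2 * 0 + 3) 2261 2624 :=
  ((((FPn_of t55 (by norm_num) (by norm_num) (by norm_num) (n1 := 2382) rfl).trans (FPn_of t56 (by norm_num) (by norm_num) (by norm_num) (n1 := 2502) rfl)).trans (FPn_of t57 (by norm_num) (by norm_num) (by norm_num) (n1 := 2622) rfl)).trans (FPn_of t58 (by norm_num) (by norm_num) (by norm_num) (n1 := 2624) rfl))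

def t59 : fdr 5 18 19682 5 1355 121 = true := by decide +kernel

def t60 : fdr 5 18 19682 5 1476 97 = true := by decide +kernel

theorem u40_1 : FPn 5 (2 * 1 + 3) 1355 1573 :=
  ((FPn_of t59 (by norm_num) (by norm_num) (by norm_num) (n1 := 1476) rfl).trans (FPn_of t60 (by norm_num) (by norm_num) (by norm_num) (n1 := 1573) rfl))

def t61 : fdr 5 18 19682 7 967 121 = true := by decide +kernel

def t62 : fdr 5 18 19682 7 1088 34 = true := by decide +kernel

theorem u40_2 : FPn 5 (2 * 2 + 3) 967 1122 :=
  ((FPn_of t61 (by norm_num) (by norm_num) (by norm_num) (n1 := 1088) rfl).trans (FPn_of t62 (by norm_num) (by norm_num) (by norm_num) (n1 := 1122) rfl))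

def t63 : fda 5 18 19682 6798 7886 3 1 = true := by decide +kernel

def t64 : fda 5 18 19682 6798 7886 4 1 = true := by decide +kernel

def t65 : fda 5 18 19682 6798 7886 5 1 = true := by decide +kernel

def t66 : fda 5 18 19682 6798 7886 6 1 = true := by decide +kernel

def t67 : fda 5 18 19682 6798 7886 7 1 = true := by decide +kernel

def t68 : fda 5 18 19682 6798 7886 8 2 = true := by decide +kernel

def t69 : fda 5 18 19682 6798 7886 10 2 = true := by decide +kernel

def t70 : fda 5 18 19682 6798 7886 12 3 = true := by decide +kernel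

def t71 : fda 5 18 19682 6798 7886 15 3 = true := by decide +kernel

def t72 : fda 5 18 19682 6798 7886 18 4 = true := by decide +kernel

def t73 : fda 5 18 19682 6798 7886 22 5 = true := by decide +kernel

def t74 : fda 5 18 19682 6798 7886 27 6 = true := by decide +kernel

def t75 : fda 5 18 19682 6798 7886 33 8 = true := by decide +kernel

def t76 : fda 5 18 19682 6798 7886 41 10 = true := by decide +kernel

def t77 : fda 5 18 19682 6798 7886 51 12 = true := by decide +kernel

def t78 : fda 5 18 19682 6798 7886 63 15 = true := by decide +kernel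

def t79 : fda 5 18 19682 6798 7886 78 19 = true := by decide +kernel

def t80 : fda 5 18 19682 6798 7886 97 24 = true := by decide +kernel

def t81 : fda 5 18 19682 6798 7886 121 30 = true := by decide +kernel

def t82 : fda 5 18 19682 6798 7886 151 36 = true := by decide +kernel

def t83 : fda 5 18 19682 6798 7886 187 47 = true := by decide +kernel

def t84 : fda 5 18 19682 6798 7886 234 58 = true := by decide +kernel

def t85 : fda 5 18 19682 6798 7886 292 86 = true := by decide +kernel

def t86 : fda 5 18 19682 6798 7886 378 108 = true := by decide +kernel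

def t87 : fda 5 18 19682 6798 7886 486 60 = true := by decide +kernel

def t88 : fda 5 18 19682 6798 7886 546 177 = true := by decide +kernel

def t89 : fda 5 18 19682 6798 7886 723 60 = true := by decide +kernel

def t90 : fda 5 18 19682 6798 7886 783 5 = true := by decide +kernel

theorem c40 : FPE 5 6798 7886 :=
  FP.toE (A := 788) (((((((((((((((((((((((((((((((FPn.toFP u40_0 (by norm_num) (by norm_num) (i1 := 1) rfl).trans
    (FPn.toFP u40_1 (by norm_num) (by norm_num) (i1 := 2) rfl)).trans
    (FPn.toFP u40_2 (by norm_num) (by norm_num) (i1 := 3) rfl)).trans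
    (FP_of t63 (by norm_num) (by norm_num) (i1 := 4) rfl)).trans
    (FP_of t64 (by norm_num) (by norm_num) (i1 := 5) rfl)).trans
    (FP_of t65 (by norm_num) (by norm_num) (i1 := 6) rfl)).trans
    (FP_of t66 (by norm_num) (by norm_num) (i1 := 7) rfl)).trans
    (FP_of t67 (by norm_num) (by norm_num) (i1 := 8) rfl)).trans
    (FP_of t68 (by norm_num) (by norm_num) (i1 := 10) rfl)).trans
    (FP_of t69 (by norm_num) (by norm_num) (i1 := 12) rfl)).trans
    (FP_of t70 (by norm_num) (by norm_num) (i1 := 15) rfl)).trans
    (FP_of t71 (by norm_num) (by norm_num) (i1 := 18) rfl)).trans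
    (FP_of t72 (by norm_num) (by norm_num) (i1 := 22) rfl)).trans
    (FP_of t73 (by norm_num) (by norm_num) (i1 := 27) rfl)).trans
    (FP_of t74 (by norm_num) (by norm_num) (i1 := 33) rfl)).trans
    (FP_of t75 (by norm_num) (by norm_num) (i1 := 41) rfl)).trans
    (FP_of t76 (by norm_num) (by norm_num) (i1 := 51) rfl)).trans
    (FP_of t77 (by norm_num) (by norm_num) (i1 := 63) rfl)).trans
    (FP_of t78 (by norm_num) (by norm_num) (i1 := 78) rfl)).trans
    (FP_of t79 (by norm_num) (by norm_num) (i1 := 97) rfl)).trans
    (FP_of t80 (by norm_num) (by norm_num) (i1 := 121) rfl)).trans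
    (FP_of t81 (by norm_num) (by norm_num) (i1 := 151) rfl)).trans
    (FP_of t82 (by norm_num) (by norm_num) (i1 := 187) rfl)).trans
    (FP_of t83 (by norm_num) (by norm_num) (i1 := 234) rfl)).trans
    (FP_of t84 (by norm_num) (by norm_num) (i1 := 292) rfl)).trans
    (FP_of t85 (by norm_num) (by norm_num) (i1 := 378) rfl)).trans
    (FP_of t86 (by norm_num) (by norm_num) (i1 := 486) rfl)).trans
    (FP_of t87 (by norm_num) (by norm_num) (i1 := 546) rfl)).trans
    (FP_of t88 (by norm_num) (by norm_num) (i1 := 723) rfl)).trans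
    (FP_of t89 (by norm_num) (by norm_num) (i1 := 783) rfl)).trans
    (FP_of t90 (by norm_num) (by norm_num) (i1 := 788) rfl)) (by norm_num)

theorem fe : FPE 5 5051 7886 :=
  ((c38.trans c39).trans c40)

end Pool.Agent.SignedQ.KD.Fd5_2
end

section

set_option autoImplicit false
set_option maxRecDepth 100000

namespace Pool.Agent.SignedQ.KD.Fd5_3

def t0 : fdr 5 18 22847 3 2624 120 = true := by decide +kernel

def t1 : fdr 5 18 22847 3 2744 120 = true := by decide +kernel

def t2 : fdr 5 18 22847 3 2864 120 = true := by decide +kernel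

def t3 : fdr 5 18 22847 3 2984 61 = true := by decide +kernel

theorem u41_0 : FPn 5 (2 * 0 + 3) 2624 3045 :=
  ((((FPn_of t0 (by norm_num) (by norm_num) (by norm_num) (n1 := 2744) rfl).trans (FPn_of t1 (by norm_num) (by norm_num) (by norm_num) (n1 := 2864) rfl)).trans (FPn_of t2 (by norm_num) (by norm_num) (by norm_num) (n1 := 2984) rfl)).trans (FPn_of t3 (by norm_num) (by norm_num) (by norm_num) (n1 := 3045) rfl))

def t4 : fdr 5 18 22847 5 1573 121 = true := by decide +kernel

def t5 : fdr 5 18 22847 5 1694 120 = true := by decide +kernel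

def t6 : fdr 5 18 22847 5 1814 11 = true := by decide +kernel

theorem u41_1 : FPn 5 (2 * 1 + 3) 1573 1825 :=
  (((FPn_of t4 (by norm_num) (by norm_num) (by norm_num) (n1 := 1694) rfl).trans (FPn_of t5 (by norm_num) (by norm_num) (by norm_num) (n1 := 1814) rfl)).trans (FPn_of t6 (by norm_num) (by norm_num) (by norm_num) (n1 := 1825) rfl))

def t7 : fdr 5 18 22847 7 1122 120 = true := by decide +kernel

def t8 : fdr 5 18 22847 7 1242 60 = true := by decide +kernel

theorem u41_2 : FPn 5 (2 * 2 + 3) 1122 1302 :=
  ((FPn_of t7 (by norm_num) (by norm_num) (by norm_num) (n1 := 1242) rfl).trans (FPn_of t8 (by norm_num) (by norm_num) (by norm_num) (n1 := 1302) rfl))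

def t9 : fdr 5 18 22847 9 872 120 = true := by decide +kernel

def t10 : fdr 5 18 22847 9 992 20 = true := by decide +kernel

theorem u41_3 : FPn 5 (2 * 3 + 3) 872 1012 :=
  ((FPn_of t9 (by norm_num) (by norm_num) (by norm_num) (n1 := 992) rfl).trans (FPn_of t10 (by norm_num) (by norm_num) (by norm_num) (n1 := 1012) rfl))

def t11 : fda 5 18 22847 7886 9148 4 1 = true := by decide +kernel

def t12 : fda 5 18 22847 7886 9148 5 1 = true := by decide +kernel

def t13 : fda 5 18 22847 7886 9148 6 1 = true := by decide +kernel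

def t14 : fda 5 18 22847 7886 9148 7 1 = true := by decide +kernel

def t15 : fda 5 18 22847 7886 9148 8 1 = true := by decide +kernel

def t16 : fda 5 18 22847 7886 9148 9 2 = true := by decide +kernel

def t17 : fda 5 18 22847 7886 9148 11 2 = true := by decide +kernel

def t18 : fda 5 18 22847 7886 9148 13 2 = true := by decide +kernel

def t19 : fda 5 18 22847 7886 9148 15 3 = true := by decide +kernel

def t20 : fda 5 18 22847 7886 9148 18 4 = true := by decide +kernel

def t21 : fda 5 18 22847 7886 9148 22 4 = true := by decide +kernel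

def t22 : fda 5 18 22847 7886 9148 26 5 = true := by decide +kernel

def t23 : fda 5 18 22847 7886 9148 31 7 = true := by decide +kernel

def t24 : fda 5 18 22847 7886 9148 38 8 = true := by decide +kernel

def t25 : fda 5 18 22847 7886 9148 46 10 = true := by decide +kernel

def t26 : fda 5 18 22847 7886 9148 56 12 = true := by decide +kernel

def t27 : fda 5 18 22847 7886 9148 68 14 = true := by decide +kernel

def t28 : fda 5 18 22847 7886 9148 82 18 = true := by decide +kernel

def t29 : fda 5 18 22847 7886 9148 100 21 = true := by decide +kernel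

def t30 : fda 5 18 22847 7886 9148 121 25 = true := by decide +kernel

def t31 : fda 5 18 22847 7886 9148 146 30 = true := by decide +kernel

def t32 : fda 5 18 22847 7886 9148 176 37 = true := by decide +kernel

def t33 : fda 5 18 22847 7886 9148 213 47 = true := by decide +kernel

def t34 : fda 5 18 22847 7886 9148 260 52 = true := by decide +kernel

def t35 : fda 5 18 22847 7886 9148 312 66 = true := by decide +kernel

def t36 : fda 5 18 22847 7886 9148 378 82 = true := by decide +kernel

def t37 : fda 5 18 22847 7886 9148 460 115 = true := by decide +kernel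

def t38 : fda 5 18 22847 7886 9148 575 60 = true := by decide +kernel

def t39 : fda 5 18 22847 7886 9148 635 196 = true := by decide +kernel

def t40 : fda 5 18 22847 7886 9148 831 60 = true := by decide +kernel

def t41 : fda 5 18 22847 7886 9148 891 23 = true := by decide +kernel

theorem c41 : FPE 5 7886 9148 :=
  FP.toE (A := 914) (((((((((((((((((((((((((((((((((((FPn.toFP u41_0 (by norm_num) (by norm_num) (i1 := 1) rfl).trans
    (FPn.toFP u41_1 (by norm_num) (by norm_num) (i1 := 2) rfl)).trans
    (FPn.toFP u41_2 (by norm_num) (by norm_num) (i1 := 3) rfl)).trans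
    (FPn.toFP u41_3 (by norm_num) (by norm_num) (i1 := 4) rfl)).trans
    (FP_of t11 (by norm_num) (by norm_num) (i1 := 5) rfl)).trans
    (FP_of t12 (by norm_num) (by norm_num) (i1 := 6) rfl)).trans
    (FP_of t13 (by norm_num) (by norm_num) (i1 := 7) rfl)).trans
    (FP_of t14 (by norm_num) (by norm_num) (i1 := 8) rfl)).trans
    (FP_of t15 (by norm_num) (by norm_num) (i1 := 9) rfl)).trans
    (FP_of t16 (by norm_num) (by norm_num) (i1 := 11) rfl)).trans
    (FP_of t17 (by norm_num) (by norm_num) (i1 := 13) rfl)).trans
    (FP_of t18 (by norm_num) (by norm_num) (i1 := 15) rfl)).trans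
    (FP_of t19 (by norm_num) (by norm_num) (i1 := 18) rfl)).trans
    (FP_of t20 (by norm_num) (by norm_num) (i1 := 22) rfl)).trans
    (FP_of t21 (by norm_num) (by norm_num) (i1 := 26) rfl)).trans
    (FP_of t22 (by norm_num) (by norm_num) (i1 := 31) rfl)).trans
    (FP_of t23 (by norm_num) (by norm_num) (i1 := 38) rfl)).trans
    (FP_of t24 (by norm_num) (by norm_num) (i1 := 46) rfl)).trans
    (FP_of t25 (by norm_num) (by norm_num) (i1 := 56) rfl)).trans
    (FP_of t26 (by norm_num) (by norm_num) (i1 := 68) rfl)).trans
    (FP_of t27 (by norm_num) (by norm_num) (i1 := 82) rfl)).trans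
    (FP_of t28 (by norm_num) (by norm_num) (i1 := 100) rfl)).trans
    (FP_of t29 (by norm_num) (by norm_num) (i1 := 121) rfl)).trans
    (FP_of t30 (by norm_num) (by norm_num) (i1 := 146) rfl)).trans
    (FP_of t31 (by norm_num) (by norm_num) (i1 := 176) rfl)).trans
    (FP_of t32 (by norm_num) (by norm_num) (i1 := 213) rfl)).trans
    (FP_of t33 (by norm_num) (by norm_num) (i1 := 260) rfl)).trans
    (FP_of t34 (by norm_num) (by norm_num) (i1 := 312) rfl)).trans
    (FP_of t35 (by norm_num) (by norm_num) (i1 := 378) rfl)).trans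
    (FP_of t36 (by norm_num) (by norm_num) (i1 := 460) rfl)).trans
    (FP_of t37 (by norm_num) (by norm_num) (i1 := 575) rfl)).trans
    (FP_of t38 (by norm_num) (by norm_num) (i1 := 635) rfl)).trans
    (FP_of t39 (by norm_num) (by norm_num) (i1 := 831) rfl)).trans
    (FP_of t40 (by norm_num) (by norm_num) (i1 := 891) rfl)).trans
    (FP_of t41 (by norm_num) (by norm_num) (i1 := 914) rfl)) (by norm_num)

def t42 : fdr 5 19 26507 3 3045 121 = true := by decide +kernel

def t43 : fdr 5 19 26507 3 3166 120 = true := by decide +kernel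

def t44 : fdr 5 19 26507 3 3286 120 = true := by decide +kernel

def t45 : fdr 5 19 26507 3 3406 120 = true := by decide +kernel

def t46 : fdr 5 19 26507 3 3526 7 = true := by decide +kernel

theorem u42_0 : FPn 5 (2 * 0 + 3) 3045 3533 :=
  (((((FPn_of t42 (by norm_num) (by norm_num) (by norm_num) (n1 := 3166) rfl).trans (FPn_of t43 (by norm_num) (by norm_num) (by norm_num) (n1 := 3286) rfl)).trans (FPn_of t44 (by norm_num) (by norm_num) (by norm_num) (n1 := 3406) rfl)).trans (FPn_of t45 (by norm_num) (by norm_num) (by norm_num) (n1 := 3526) rfl)).trans (FPn_of t46 (by norm_num) (by norm_num) (by norm_num) (n1 := 3533) rfl))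

def t47 : fdr 5 19 26507 5 1825 121 = true := by decide +kernel

def t48 : fdr 5 19 26507 5 1946 120 = true := by decide +kernel

def t49 : fdr 5 19 26507 5 2066 52 = true := by decide +kernel

theorem u42_1 : FPn 5 (2 * 1 + 3) 1825 2118 :=
  (((FPn_of t47 (by norm_num) (by norm_num) (by norm_num) (n1 := 1946) rfl).trans (FPn_of t48 (by norm_num) (by norm_num) (by norm_num) (n1 := 2066) rfl)).trans (FPn_of t49 (by norm_num) (by norm_num) (by norm_num) (n1 := 2118) rfl))

def t50 : fdr 5 19 26507 7 1302 120 = true := by decide +kernel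

def t51 : fdr 5 19 26507 7 1422 89 = true := by decide +kernel

theorem u42_2 : FPn 5 (2 * 2 + 3) 1302 1511 :=
  ((FPn_of t50 (by norm_num) (by norm_num) (by norm_num) (n1 := 1422) rfl).trans (FPn_of t51 (by norm_num) (by norm_num) (by norm_num) (n1 := 1511) rfl))

def t52 : fdr 5 19 26507 9 1012 120 = true := by decide +kernel

def t53 : fdr 5 19 26507 9 1132 43 = true := by decide +kernel

theorem u42_3 : FPn 5 (2 * 3 + 3) 1012 1175 :=
  ((FPn_of t52 (by norm_num) (by norm_num) (by norm_num) (n1 := 1132) rfl).trans (FPn_of t53 (by norm_num) (by norm_num) (by norm_num) (n1 := 1175) rfl))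

def t54 : fdr 5 19 26507 11 827 121 = true := by decide +kernel

def t55 : fdr 5 19 26507 11 948 12 = true := by decide +kernel

theorem u42_4 : FPn 5 (2 * 4 + 3) 827 960 :=
  ((FPn_of t54 (by norm_num) (by norm_num) (by norm_num) (n1 := 948) rfl).trans (FPn_of t55 (by norm_num) (by norm_num) (by norm_num) (n1 := 960) rfl))

def t56 : fda 5 19 26507 9148 10612 5 1 = true := by decide +kernel

def t57 : fda 5 19 26507 9148 10612 6 1 = true := by decide +kernel

def t58 : fda 5 19 26507 9148 10612 7 1 = true := by decide +kernel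

def t59 : fda 5 19 26507 9148 10612 8 1 = true := by decide +kernel

def t60 : fda 5 19 26507 9148 10612 9 1 = true := by decide +kernel

def t61 : fda 5 19 26507 9148 10612 10 1 = true := by decide +kernel

def t62 : fda 5 19 26507 9148 10612 11 2 = true := by decide +kernel

def t63 : fda 5 19 26507 9148 10612 13 2 = true := by decide +kernel

def t64 : fda 5 19 26507 9148 10612 15 2 = true := by decide +kernel

def t65 : fda 5 19 26507 9148 10612 17 3 = true := by decide +kernel

def t66 : fda 5 19 26507 9148 10612 20 3 = true := by decide +kernel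

def t67 : fda 5 19 26507 9148 10612 23 4 = true := by decide +kernel

def t68 : fda 5 19 26507 9148 10612 27 5 = true := by decide +kernel

def t69 : fda 5 19 26507 9148 10612 32 5 = true := by decide +kernel

def t70 : fda 5 19 26507 9148 10612 37 6 = true := by decide +kernel

def t71 : fda 5 19 26507 9148 10612 43 7 = true := by decide +kernel

def t72 : fda 5 19 26507 9148 10612 50 8 = true := by decide +kernel

def t73 : fda 5 19 26507 9148 10612 58 10 = true := by decide +kernel

def t74 : fda 5 19 26507 9148 10612 68 12 = true := by decide +kernel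

def t75 : fda 5 19 26507 9148 10612 80 14 = true := by decide +kernel

def t76 : fda 5 19 26507 9148 10612 94 17 = true := by decide +kernel

def t77 : fda 5 19 26507 9148 10612 111 20 = true := by decide +kernel

def t78 : fda 5 19 26507 9148 10612 131 24 = true := by decide +kernel

def t79 : fda 5 19 26507 9148 10612 155 27 = true := by decide +kernel

def t80 : fda 5 19 26507 9148 10612 182 33 = true := by decide +kernel

def t81 : fda 5 19 26507 9148 10612 215 36 = true := by decide +kernel

def t82 : fda 5 19 26507 9148 10612 251 49 = true := by decide +kernel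

def t83 : fda 5 19 26507 9148 10612 300 52 = true := by decide +kernel

def t84 : fda 5 19 26507 9148 10612 352 67 = true := by decide +kernel

def t85 : fda 5 19 26507 9148 10612 419 60 = true := by decide +kernel

def t86 : fda 5 19 26507 9148 10612 479 86 = true := by decide +kernel

def t87 : fda 5 19 26507 9148 10612 565 123 = true := by decide +kernel

def t88 : fda 5 19 26507 9148 10612 688 60 = true := by decide +kernel

def t89 : fda 5 19 26507 9148 10612 748 217 = true := by decide +kernel

def t90 : fda 5 19 26507 9148 10612 965 60 = true := by decide +kernel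

def t91 : fda 5 19 26507 9148 10612 1025 35 = true := by decide +kernel

theorem c42 : FPE 5 9148 10612 :=
  FP.toE (A := 1060) (((((((((((((((((((((((((((((((((((((((((FPn.toFP u42_0 (by norm_num) (by norm_num) (i1 := 1) rfl).trans
    (FPn.toFP u42_1 (by norm_num) (by norm_num) (i1 := 2) rfl)).trans
    (FPn.toFP u42_2 (by norm_num) (by norm_num) (i1 := 3) rfl)).trans
    (FPn.toFP u42_3 (by norm_num) (by norm_num) (i1 := 4) rfl)).trans
    (FPn.toFP u42_4 (by norm_num) (by norm_num) (i1 := 5) rfl)).trans
    (FP_of t56 (by norm_num) (by norm_num) (i1 := 6) rfl)).trans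
    (FP_of t57 (by norm_num) (by norm_num) (i1 := 7) rfl)).trans
    (FP_of t58 (by norm_num) (by norm_num) (i1 := 8) rfl)).trans
    (FP_of t59 (by norm_num) (by norm_num) (i1 := 9) rfl)).trans
    (FP_of t60 (by norm_num) (by norm_num) (i1 := 10) rfl)).trans
    (FP_of t61 (by norm_num) (by norm_num) (i1 := 11) rfl)).trans
    (FP_of t62 (by norm_num) (by norm_num) (i1 := 13) rfl)).trans
    (FP_of t63 (by norm_num) (by norm_num) (i1 := 15) rfl)).trans
    (FP_of t64 (by norm_num) (by norm_num) (i1 := 17) rfl)).trans
    (FP_of t65 (by norm_num) (by norm_num) (i1 := 20) rfl)).trans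
    (FP_of t66 (by norm_num) (by norm_num) (i1 := 23) rfl)).trans
    (FP_of t67 (by norm_num) (by norm_num) (i1 := 27) rfl)).trans
    (FP_of t68 (by norm_num) (by norm_num) (i1 := 32) rfl)).trans
    (FP_of t69 (by norm_num) (by norm_num) (i1 := 37) rfl)).trans
    (FP_of t70 (by norm_num) (by norm_num) (i1 := 43) rfl)).trans
    (FP_of t71 (by norm_num) (by norm_num) (i1 := 50) rfl)).trans
    (FP_of t72 (by norm_num) (by norm_num) (i1 := 58) rfl)).trans
    (FP_of t73 (by norm_num) (by norm_num) (i1 := 68) rfl)).trans
    (FP_of t74 (by norm_num) (by norm_num) (i1 := 80) rfl)).trans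
    (FP_of t75 (by norm_num) (by norm_num) (i1 := 94) rfl)).trans
    (FP_of t76 (by norm_num) (by norm_num) (i1 := 111) rfl)).trans
    (FP_of t77 (by norm_num) (by norm_num) (i1 := 131) rfl)).trans
    (FP_of t78 (by norm_num) (by norm_num) (i1 := 155) rfl)).trans
    (FP_of t79 (by norm_num) (by norm_num) (i1 := 182) rfl)).trans
    (FP_of t80 (by norm_num) (by norm_num) (i1 := 215) rfl)).trans
    (FP_of t81 (by norm_num) (by norm_num) (i1 := 251) rfl)).trans
    (FP_of t82 (by norm_num) (by norm_num) (i1 := 300) rfl)).trans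
    (FP_of t83 (by norm_num) (by norm_num) (i1 := 352) rfl)).trans
    (FP_of t84 (by norm_num) (by norm_num) (i1 := 419) rfl)).trans
    (FP_of t85 (by norm_num) (by norm_num) (i1 := 479) rfl)).trans
    (FP_of t86 (by norm_num) (by norm_num) (i1 := 565) rfl)).trans
    (FP_of t87 (by norm_num) (by norm_num) (i1 := 688) rfl)).trans
    (FP_of t88 (by norm_num) (by norm_num) (i1 := 748) rfl)).trans
    (FP_of t89 (by norm_num) (by norm_num) (i1 := 965) rfl)).trans
    (FP_of t90 (by norm_num) (by norm_num) (i1 := 1025) rfl)).trans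
    (FP_of t91 (by norm_num) (by norm_num) (i1 := 1060) rfl)) (by norm_num)

theorem fe : FPE 5 7886 10612 :=
  (c41.trans c42)

end Pool.Agent.SignedQ.KD.Fd5_3
end

section

set_option autoImplicit false
set_option maxRecDepth 100000

namespace Pool.Agent.SignedQ.KD.Fd6_0

def t0 : fda 6 11 23 18 21 0 1 = true := by decide +kernel

theorem c0 : FPE 6 18 21 :=
  FP.toE (A := 1) (FP_of t0 (by norm_num) (by norm_num) (i1 := 1) rfl) (by norm_num)

def t1 : fda 6 12 41 21 25 0 1 = true := by decide +kernel

theorem c1 : FPE 6 21 25 :=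
  FP.toE (A := 1) (FP_of t1 (by norm_num) (by norm_num) (i1 := 1) rfl) (by norm_num)

def t2 : fda 6 12 50 25 29 0 1 = true := by decide +kernel

theorem c2 : FPE 6 25 29 :=
  FP.toE (A := 1) (FP_of t2 (by norm_num) (by norm_num) (i1 := 1) rfl) (by norm_num)

def t3 : fda 6 13 68 29 34 0 2 = true := by decide +kernel

theorem c3 : FPE 6 29 34 :=
  FP.toE (A := 2) (FP_of t3 (by norm_num) (by norm_num) (i1 := 2) rfl) (by norm_num)

def t4 : fda 6 14 86 34 40 0 2 = true := by decide +kernel

theorem c4 : FPE 6 34 40 :=
  FP.toE (A := 2) (FP_of t4 (by norm_num) (by norm_num) (i1 := 2) rfl) (by norm_num)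

def t5 : fda 6 14 104 40 47 0 3 = true := by decide +kernel

theorem c5 : FPE 6 40 47 :=
  FP.toE (A := 3) (FP_of t5 (by norm_num) (by norm_num) (i1 := 3) rfl) (by norm_num)

def t6 : fda 6 15 131 47 55 0 4 = true := by decide +kernel

theorem c6 : FPE 6 47 55 :=
  FP.toE (A := 4) (FP_of t6 (by norm_num) (by norm_num) (i1 := 4) rfl) (by norm_num)

def t7 : fda 6 15 158 55 64 0 4 = true := by decide +kernel

theorem c7 : FPE 6 55 64 :=
  FP.toE (A := 4) (FP_of t7 (by norm_num) (by norm_num) (i1 := 4) rfl) (by norm_num)

def t8 : fda 6 16 185 64 75 0 5 = true := by decide +kernel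

theorem c8 : FPE 6 64 75 :=
  FP.toE (A := 5) (FP_of t8 (by norm_num) (by norm_num) (i1 := 5) rfl) (by norm_num)

def t9 : fda 6 16 230 75 88 0 6 = true := by decide +kernel

theorem c9 : FPE 6 75 88 :=
  FP.toE (A := 6) (FP_of t9 (by norm_num) (by norm_num) (i1 := 6) rfl) (by norm_num)

def t10 : fda 6 17 275 88 103 0 8 = true := by decide +kernel

theorem c10 : FPE 6 88 103 :=
  FP.toE (A := 8) (FP_of t10 (by norm_num) (by norm_num) (i1 := 8) rfl) (by norm_num)

def t11 : fda 6 17 320 103 120 0 9 = true := by decide +kernel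

theorem c11 : FPE 6 103 120 :=
  FP.toE (A := 9) (FP_of t11 (by norm_num) (by norm_num) (i1 := 9) rfl) (by norm_num)

def t12 : fda 6 18 383 120 140 0 11 = true := by decide +kernel

theorem c12 : FPE 6 120 140 :=
  FP.toE (A := 11) (FP_of t12 (by norm_num) (by norm_num) (i1 := 11) rfl) (by norm_num)

def t13 : fda 6 18 455 140 163 0 13 = true := by decide +kernel

theorem c13 : FPE 6 140 163 :=
  FP.toE (A := 13) (FP_of t13 (by norm_num) (by norm_num) (i1 := 13) rfl) (by norm_num)

def t14 : fda 6 19 536 163 190 0 15 = true := by decide +kernel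

theorem c14 : FPE 6 163 190 :=
  FP.toE (A := 15) (FP_of t14 (by norm_num) (by norm_num) (i1 := 15) rfl) (by norm_num)

def t15 : fda 6 19 626 190 221 0 17 = true := by decide +kernel

theorem c15 : FPE 6 190 221 :=
  FP.toE (A := 17) (FP_of t15 (by norm_num) (by norm_num) (i1 := 17) rfl) (by norm_num)

def t16 : fda 6 19 734 221 257 0 20 = true := by decide +kernel

theorem c16 : FPE 6 221 257 :=
  FP.toE (A := 20) (FP_of t16 (by norm_num) (by norm_num) (i1 := 20) rfl) (by norm_num)

def t17 : fda 6 20 860 257 299 0 24 = true := by decide +kernel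

theorem c17 : FPE 6 257 299 :=
  FP.toE (A := 24) (FP_of t17 (by norm_num) (by norm_num) (i1 := 24) rfl) (by norm_num)

def t18 : fda 6 20 1004 299 347 0 28 = true := by decide +kernel

theorem c18 : FPE 6 299 347 :=
  FP.toE (A := 28) (FP_of t18 (by norm_num) (by norm_num) (i1 := 28) rfl) (by norm_num)

def t19 : fda 6 21 1175 347 403 0 8 = true := by decide +kernel

def t20 : fda 6 21 1175 347 403 8 25 = true := by decide +kernel

theorem c19 : FPE 6 347 403 :=
  FP.toE (A := 33) ((FP_of t19 (by norm_num) (by norm_num) (i1 := 8) rfl).trans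
    (FP_of t20 (by norm_num) (by norm_num) (i1 := 33) rfl)) (by norm_num)

def t21 : fda 6 21 1364 403 468 0 5 = true := by decide +kernel

def t22 : fda 6 21 1364 403 468 5 31 = true := by decide +kernel

def t23 : fda 6 21 1364 403 468 36 2 = true := by decide +kernel

theorem c20 : FPE 6 403 468 :=
  FP.toE (A := 38) (((FP_of t21 (by norm_num) (by norm_num) (i1 := 5) rfl).trans
    (FP_of t22 (by norm_num) (by norm_num) (i1 := 36) rfl)).trans
    (FP_of t23 (by norm_num) (by norm_num) (i1 := 38) rfl)) (by norm_num)

def t24 : fda 6 22 1589 468 543 0 4 = true := by decide +kernel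

def t25 : fda 6 22 1589 468 543 4 20 = true := by decide +kernel

def t26 : fda 6 22 1589 468 543 24 20 = true := by decide +kernel

theorem c21 : FPE 6 468 543 :=
  FP.toE (A := 44) (((FP_of t24 (by norm_num) (by norm_num) (i1 := 4) rfl).trans
    (FP_of t25 (by norm_num) (by norm_num) (i1 := 24) rfl)).trans
    (FP_of t26 (by norm_num) (by norm_num) (i1 := 44) rfl)) (by norm_num)

def t27 : fda 6 22 1850 543 630 0 3 = true := by decide +kernel

def t28 : fda 6 22 1850 543 630 3 11 = true := by decide +kernel

def t29 : fda 6 22 1850 543 630 14 37 = true := by decide +kernel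

theorem c22 : FPE 6 543 630 :=
  FP.toE (A := 51) (((FP_of t27 (by norm_num) (by norm_num) (i1 := 3) rfl).trans
    (FP_of t28 (by norm_num) (by norm_num) (i1 := 14) rfl)).trans
    (FP_of t29 (by norm_num) (by norm_num) (i1 := 51) rfl)) (by norm_num)

def t30 : fda 6 23 2156 630 731 0 2 = true := by decide +kernel

def t31 : fda 6 23 2156 630 731 2 6 = true := by decide +kernel

def t32 : fda 6 23 2156 630 731 8 22 = true := by decide +kernel

def t33 : fda 6 23 2156 630 731 30 30 = true := by decide +kernel

theorem c23 : FPE 6 630 731 :=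
  FP.toE (A := 60) ((((FP_of t30 (by norm_num) (by norm_num) (i1 := 2) rfl).trans
    (FP_of t31 (by norm_num) (by norm_num) (i1 := 8) rfl)).trans
    (FP_of t32 (by norm_num) (by norm_num) (i1 := 30) rfl)).trans
    (FP_of t33 (by norm_num) (by norm_num) (i1 := 60) rfl)) (by norm_num)

def t34 : fda 6 23 2507 731 848 0 1 = true := by decide +kernel

def t35 : fda 6 23 2507 731 848 1 3 = true := by decide +kernel

def t36 : fda 6 23 2507 731 848 4 9 = true := by decide +kernel

def t37 : fda 6 23 2507 731 848 13 24 = true := by decide +kernel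

def t38 : fda 6 23 2507 731 848 37 33 = true := by decide +kernel

theorem c24 : FPE 6 731 848 :=
  FP.toE (A := 70) (((((FP_of t34 (by norm_num) (by norm_num) (i1 := 1) rfl).trans
    (FP_of t35 (by norm_num) (by norm_num) (i1 := 4) rfl)).trans
    (FP_of t36 (by norm_num) (by norm_num) (i1 := 13) rfl)).trans
    (FP_of t37 (by norm_num) (by norm_num) (i1 := 37) rfl)).trans
    (FP_of t38 (by norm_num) (by norm_num) (i1 := 70) rfl)) (by norm_num)

def t39 : fda 6 23 2912 848 984 0 1 = true := by decide +kernel

def t40 : fda 6 23 2912 848 984 1 2 = true := by decide +kernel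

def t41 : fda 6 23 2912 848 984 3 5 = true := by decide +kernel

def t42 : fda 6 23 2912 848 984 8 13 = true := by decide +kernel

def t43 : fda 6 23 2912 848 984 21 31 = true := by decide +kernel

def t44 : fda 6 23 2912 848 984 52 29 = true := by decide +kernel

theorem c25 : FPE 6 848 984 :=
  FP.toE (A := 81) ((((((FP_of t39 (by norm_num) (by norm_num) (i1 := 1) rfl).trans
    (FP_of t40 (by norm_num) (by norm_num) (i1 := 3) rfl)).trans
    (FP_of t41 (by norm_num) (by norm_num) (i1 := 8) rfl)).trans
    (FP_of t42 (by norm_num) (by norm_num) (i1 := 21) rfl)).trans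
    (FP_of t43 (by norm_num) (by norm_num) (i1 := 52) rfl)).trans
    (FP_of t44 (by norm_num) (by norm_num) (i1 := 81) rfl)) (by norm_num)

def t45 : fda 6 24 3389 984 1142 0 1 = true := by decide +kernel

def t46 : fda 6 24 3389 984 1142 1 2 = true := by decide +kernel

def t47 : fda 6 24 3389 984 1142 3 4 = true := by decide +kernel

def t48 : fda 6 24 3389 984 1142 7 8 = true := by decide +kernel

def t49 : fda 6 24 3389 984 1142 15 17 = true := by decide +kernel

def t50 : fda 6 24 3389 984 1142 32 37 = true := by decide +kernel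

def t51 : fda 6 24 3389 984 1142 69 25 = true := by decide +kernel

theorem c26 : FPE 6 984 1142 :=
  FP.toE (A := 94) (((((((FP_of t45 (by norm_num) (by norm_num) (i1 := 1) rfl).trans
    (FP_of t46 (by norm_num) (by norm_num) (i1 := 3) rfl)).trans
    (FP_of t47 (by norm_num) (by norm_num) (i1 := 7) rfl)).trans
    (FP_of t48 (by norm_num) (by norm_num) (i1 := 15) rfl)).trans
    (FP_of t49 (by norm_num) (by norm_num) (i1 := 32) rfl)).trans
    (FP_of t50 (by norm_num) (by norm_num) (i1 := 69) rfl)).trans
    (FP_of t51 (by norm_num) (by norm_num) (i1 := 94) rfl)) (by norm_num)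

def t52 : fdr 6 24 3938 3 375 60 = true := by decide +kernel

def t53 : fdr 6 24 3938 3 435 1 = true := by decide +kernel

theorem u27_0 : FPn 6 (2 * 0 + 3) 375 436 :=
  ((FPn_of t52 (by norm_num) (by norm_num) (by norm_num) (n1 := 435) rfl).trans (FPn_of t53 (by norm_num) (by norm_num) (by norm_num) (n1 := 436) rfl))

def t54 : fda 6 24 3938 1142 1325 1 1 = true := by decide +kernel

def t55 : fda 6 24 3938 1142 1325 2 2 = true := by decide +kernel

def t56 : fda 6 24 3938 1142 1325 4 4 = true := by decide +kernel

def t57 : fda 6 24 3938 1142 1325 8 8 = true := by decide +kernel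

def t58 : fda 6 24 3938 1142 1325 16 16 = true := by decide +kernel

def t59 : fda 6 24 3938 1142 1325 32 32 = true := by decide +kernel

def t60 : fda 6 24 3938 1142 1325 64 45 = true := by decide +kernel

theorem c27 : FPE 6 1142 1325 :=
  FP.toE (A := 109) ((((((((FPn.toFP u27_0 (by norm_num) (by norm_num) (i1 := 1) rfl).trans
    (FP_of t54 (by norm_num) (by norm_num) (i1 := 2) rfl)).trans
    (FP_of t55 (by norm_num) (by norm_num) (i1 := 4) rfl)).trans
    (FP_of t56 (by norm_num) (by norm_num) (i1 := 8) rfl)).trans
    (FP_of t57 (by norm_num) (by norm_num) (i1 := 16) rfl)).trans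
    (FP_of t58 (by norm_num) (by norm_num) (i1 := 32) rfl)).trans
    (FP_of t59 (by norm_num) (by norm_num) (i1 := 64) rfl)).trans
    (FP_of t60 (by norm_num) (by norm_num) (i1 := 109) rfl)) (by norm_num)

theorem fe : FPE 6 18 1325 :=
  (((((((((((((((((((((((((((c0.trans c1).trans c2).trans c3).trans c4).trans c5).trans c6).trans c7).trans c8).trans c9).trans c10).trans c11).trans c12).trans c13).trans c14).trans c15).trans c16).trans c17).trans c18).trans c19).trans c20).trans c21).trans c22).trans c23).trans c24).trans c25).trans c26).trans c27)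

end Pool.Agent.SignedQ.KD.Fd6_0
end
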