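import Pool.Agent.Lib.MP_cf17a0_co.Mg.G059

section

set_option autoImplicit false
set_option maxRecDepth 100000

namespace Pool.Agent.SignedQ.KD.Fd5_4

def t0 : fdr 5 19 30752 3 3533 121 = true := by decide +kernel

def t1 : fdr 5 19 30752 3 3654 120 = true := by decide +kernel

def t2 : fdr 5 19 30752 3 3774 120 = true := by decide +kernel

def t3 : fdr 5 19 30752 3 3894 120 = true := by decide +kernel

def t4 : fdr 5 19 30752 3 4014 85 = true := by decide +kernel

theorem u43_0 : FPn 5 (2 * 0 + 3) 3533 4099 :=
  (((((FPn_of t0 (by norm_num) (by norm_num) (by norm_num) (n1 := 3654) rfl).trans (FPn_of t1 (by norm_num) (by norm_num) (by norm_num) (n1 := 3774) rfl)).trans (FPn_of t2 (by norm_num) (by norm_num) (by norm_num) (n1 := 3894) rfl)).trans (FPn_of t3 (by norm_num) (by norm_num) (by norm_num) (n1 := 4014) rfl)).trans (FPn_of t4 (by norm_num) (by norm_num) (by norm_num) (n1 := 4099) rfl))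

def t5 : fdr 5 19 30752 5 2118 120 = true := by decide +kernel

def t6 : fdr 5 19 30752 5 2238 120 = true := by decide +kernel

def t7 : fdr 5 19 30752 5 2358 99 = true := by decide +kernel

theorem u43_1 : FPn 5 (2 * 1 + 3) 2118 2457 :=
  (((FPn_of t5 (by norm_num) (by norm_num) (by norm_num) (n1 := 2238) rfl).trans (FPn_of t6 (by norm_num) (by norm_num) (by norm_num) (n1 := 2358) rfl)).trans (FPn_of t7 (by norm_num) (by norm_num) (by norm_num) (n1 := 2457) rfl))

def t8 : fdr 5 19 30752 7 1511 121 = true := by decide +kernel

def t9 : fdr 5 19 30752 7 1632 120 = true := by decide +kernel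

def t10 : fdr 5 19 30752 7 1752 2 = true := by decide +kernel

theorem u43_2 : FPn 5 (2 * 2 + 3) 1511 1754 :=
  (((FPn_of t8 (by norm_num) (by norm_num) (by norm_num) (n1 := 1632) rfl).trans (FPn_of t9 (by norm_num) (by norm_num) (by norm_num) (n1 := 1752) rfl)).trans (FPn_of t10 (by norm_num) (by norm_num) (by norm_num) (n1 := 1754) rfl))

def t11 : fdr 5 19 30752 9 1175 121 = true := by decide +kernel

def t12 : fdr 5 19 30752 9 1296 67 = true := by decide +kernel

theorem u43_3 : FPn 5 (2 * 3 + 3) 1175 1363 :=
  ((FPn_of t11 (by norm_num) (by norm_num) (by norm_num) (n1 := 1296) rfl).trans (FPn_of t12 (by norm_num) (by norm_num) (by norm_num) (n1 := 1363) rfl))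

def t13 : fdr 5 19 30752 11 960 120 = true := by decide +kernel

def t14 : fdr 5 19 30752 11 1080 35 = true := by decide +kernel

theorem u43_4 : FPn 5 (2 * 4 + 3) 960 1115 :=
  ((FPn_of t13 (by norm_num) (by norm_num) (by norm_num) (n1 := 1080) rfl).trans (FPn_of t14 (by norm_num) (by norm_num) (by norm_num) (n1 := 1115) rfl))

def t15 : fdr 5 19 30752 13 812 120 = true := by decide +kernel

def t16 : fdr 5 19 30752 13 932 10 = true := by decide +kernel

theorem u43_5 : FPn 5 (2 * 5 + 3) 812 942 :=
  ((FPn_of t15 (by norm_num) (by norm_num) (by norm_num) (n1 := 932) rfl).trans (FPn_of t16 (by norm_num) (by norm_num) (by norm_num) (n1 := 942) rfl))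

def t17 : fda 5 19 30752 10612 12310 6 1 = true := by decide +kernel

def t18 : fda 5 19 30752 10612 12310 7 1 = true := by decide +kernel

def t19 : fda 5 19 30752 10612 12310 8 1 = true := by decide +kernel

def t20 : fda 5 19 30752 10612 12310 9 1 = true := by decide +kernel

def t21 : fda 5 19 30752 10612 12310 10 1 = true := by decide +kernel

def t22 : fda 5 19 30752 10612 12310 11 1 = true := by decide +kernel

def t23 : fda 5 19 30752 10612 12310 12 2 = true := by decide +kernel

def t24 : fda 5 19 30752 10612 12310 14 2 = true := by decide +kernel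

def t25 : fda 5 19 30752 10612 12310 16 2 = true := by decide +kernel

def t26 : fda 5 19 30752 10612 12310 18 2 = true := by decide +kernel

def t27 : fda 5 19 30752 10612 12310 20 3 = true := by decide +kernel

def t28 : fda 5 19 30752 10612 12310 23 3 = true := by decide +kernel

def t29 : fda 5 19 30752 10612 12310 26 4 = true := by decide +kernel

def t30 : fda 5 19 30752 10612 12310 30 4 = true := by decide +kernel

def t31 : fda 5 19 30752 10612 12310 34 5 = true := by decide +kernel

def t32 : fda 5 19 30752 10612 12310 39 6 = true := by decide +kernel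

def t33 : fda 5 19 30752 10612 12310 45 7 = true := by decide +kernel

def t34 : fda 5 19 30752 10612 12310 52 8 = true := by decide +kernel

def t35 : fda 5 19 30752 10612 12310 60 9 = true := by decide +kernel

def t36 : fda 5 19 30752 10612 12310 69 10 = true := by decide +kernel

def t37 : fda 5 19 30752 10612 12310 79 12 = true := by decide +kernel

def t38 : fda 5 19 30752 10612 12310 91 13 = true := by decide +kernel

def t39 : fda 5 19 30752 10612 12310 104 15 = true := by decide +kernel

def t40 : fda 5 19 30752 10612 12310 119 17 = true := by decide +kernel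

def t41 : fda 5 19 30752 10612 12310 136 20 = true := by decide +kernel

def t42 : fda 5 19 30752 10612 12310 156 24 = true := by decide +kernel

def t43 : fda 5 19 30752 10612 12310 180 27 = true := by decide +kernel

def t44 : fda 5 19 30752 10612 12310 207 31 = true := by decide +kernel

def t45 : fda 5 19 30752 10612 12310 238 38 = true := by decide +kernel

def t46 : fda 5 19 30752 10612 12310 276 40 = true := by decide +kernel

def t47 : fda 5 19 30752 10612 12310 316 45 = true := by decide +kernel

def t48 : fda 5 19 30752 10612 12310 361 58 = true := by decide +kernel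

def t49 : fda 5 19 30752 10612 12310 419 69 = true := by decide +kernel

def t50 : fda 5 19 30752 10612 12310 488 60 = true := by decide +kernel

def t51 : fda 5 19 30752 10612 12310 548 90 = true := by decide +kernel

def t52 : fda 5 19 30752 10612 12310 638 134 = true := by decide +kernel

def t53 : fda 5 19 30752 10612 12310 772 60 = true := by decide +kernel

def t54 : fda 5 19 30752 10612 12310 832 242 = true := by decide +kernel

def t55 : fda 5 19 30752 10612 12310 1074 60 = true := by decide +kernel

def t56 : fda 5 19 30752 10612 12310 1134 60 = true := by decide +kernel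

def t57 : fda 5 19 30752 10612 12310 1194 36 = true := by decide +kernel

theorem c43 : FPE 5 10612 12310 :=
  FP.toE (A := 1230) (((((((((((((((((((((((((((((((((((((((((((((((FPn.toFP u43_0 (by norm_num) (by norm_num) (i1 := 1) rfl).trans
    (FPn.toFP u43_1 (by norm_num) (by norm_num) (i1 := 2) rfl)).trans
    (FPn.toFP u43_2 (by norm_num) (by norm_num) (i1 := 3) rfl)).trans
    (FPn.toFP u43_3 (by norm_num) (by norm_num) (i1 := 4) rfl)).trans
    (FPn.toFP u43_4 (by norm_num) (by norm_num) (i1 := 5) rfl)).trans
    (FPn.toFP u43_5 (by norm_num) (by norm_num) (i1 := 6) rfl)).trans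
    (FP_of t17 (by norm_num) (by norm_num) (i1 := 7) rfl)).trans
    (FP_of t18 (by norm_num) (by norm_num) (i1 := 8) rfl)).trans
    (FP_of t19 (by norm_num) (by norm_num) (i1 := 9) rfl)).trans
    (FP_of t20 (by norm_num) (by norm_num) (i1 := 10) rfl)).trans
    (FP_of t21 (by norm_num) (by norm_num) (i1 := 11) rfl)).trans
    (FP_of t22 (by norm_num) (by norm_num) (i1 := 12) rfl)).trans
    (FP_of t23 (by norm_num) (by norm_num) (i1 := 14) rfl)).trans
    (FP_of t24 (by norm_num) (by norm_num) (i1 := 16) rfl)).trans
    (FP_of t25 (by norm_num) (by norm_num) (i1 := 18) rfl)).trans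
    (FP_of t26 (by norm_num) (by norm_num) (i1 := 20) rfl)).trans
    (FP_of t27 (by norm_num) (by norm_num) (i1 := 23) rfl)).trans
    (FP_of t28 (by norm_num) (by norm_num) (i1 := 26) rfl)).trans
    (FP_of t29 (by norm_num) (by norm_num) (i1 := 30) rfl)).trans
    (FP_of t30 (by norm_num) (by norm_num) (i1 := 34) rfl)).trans
    (FP_of t31 (by norm_num) (by norm_num) (i1 := 39) rfl)).trans
    (FP_of t32 (by norm_num) (by norm_num) (i1 := 45) rfl)).trans
    (FP_of t33 (by norm_num) (by norm_num) (i1 := 52) rfl)).trans
    (FP_of t34 (by norm_num) (by norm_num) (i1 := 60) rfl)).trans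
    (FP_of t35 (by norm_num) (by norm_num) (i1 := 69) rfl)).trans
    (FP_of t36 (by norm_num) (by norm_num) (i1 := 79) rfl)).trans
    (FP_of t37 (by norm_num) (by norm_num) (i1 := 91) rfl)).trans
    (FP_of t38 (by norm_num) (by norm_num) (i1 := 104) rfl)).trans
    (FP_of t39 (by norm_num) (by norm_num) (i1 := 119) rfl)).trans
    (FP_of t40 (by norm_num) (by norm_num) (i1 := 136) rfl)).trans
    (FP_of t41 (by norm_num) (by norm_num) (i1 := 156) rfl)).trans
    (FP_of t42 (by norm_num) (by norm_num) (i1 := 180) rfl)).trans
    (FP_of t43 (by norm_num) (by norm_num) (i1 := 207) rfl)).trans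
    (FP_of t44 (by norm_num) (by norm_num) (i1 := 238) rfl)).trans
    (FP_of t45 (by norm_num) (by norm_num) (i1 := 276) rfl)).trans
    (FP_of t46 (by norm_num) (by norm_num) (i1 := 316) rfl)).trans
    (FP_of t47 (by norm_num) (by norm_num) (i1 := 361) rfl)).trans
    (FP_of t48 (by norm_num) (by norm_num) (i1 := 419) rfl)).trans
    (FP_of t49 (by norm_num) (by norm_num) (i1 := 488) rfl)).trans
    (FP_of t50 (by norm_num) (by norm_num) (i1 := 548) rfl)).trans
    (FP_of t51 (by norm_num) (by norm_num) (i1 := 638) rfl)).trans
    (FP_of t52 (by norm_num) (by norm_num) (i1 := 772) rfl)).trans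
    (FP_of t53 (by norm_num) (by norm_num) (i1 := 832) rfl)).trans
    (FP_of t54 (by norm_num) (by norm_num) (i1 := 1074) rfl)).trans
    (FP_of t55 (by norm_num) (by norm_num) (i1 := 1134) rfl)).trans
    (FP_of t56 (by norm_num) (by norm_num) (i1 := 1194) rfl)).trans
    (FP_of t57 (by norm_num) (by norm_num) (i1 := 1230) rfl)) (by norm_num)

def t58 : fdr 5 19 35672 3 4099 121 = true := by decide +kernel

def t59 : fdr 5 19 35672 3 4220 120 = true := by decide +kernel

def t60 : fdr 5 19 35672 3 4340 120 = true := by decide +kernel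

def t61 : fdr 5 19 35672 3 4460 120 = true := by decide +kernel

def t62 : fdr 5 19 35672 3 4580 120 = true := by decide +kernel

def t63 : fdr 5 19 35672 3 4700 55 = true := by decide +kernel

theorem u44_0 : FPn 5 (2 * 0 + 3) 4099 4755 :=
  ((((((FPn_of t58 (by norm_num) (by norm_num) (by norm_num) (n1 := 4220) rfl).trans (FPn_of t59 (by norm_num) (by norm_num) (by norm_num) (n1 := 4340) rfl)).trans (FPn_of t60 (by norm_num) (by norm_num) (by norm_num) (n1 := 4460) rfl)).trans (FPn_of t61 (by norm_num) (by norm_num) (by norm_num) (n1 := 4580) rfl)).trans (FPn_of t62 (by norm_num) (by norm_num) (by norm_num) (n1 := 4700) rfl)).trans (FPn_of t63 (by norm_num) (by norm_num) (by norm_num) (n1 := 4755) rfl))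

def t64 : fdr 5 19 35672 5 2457 121 = true := by decide +kernel

def t65 : fdr 5 19 35672 5 2578 120 = true := by decide +kernel

def t66 : fdr 5 19 35672 5 2698 120 = true := by decide +kernel

def t67 : fdr 5 19 35672 5 2818 33 = true := by decide +kernel

theorem u44_1 : FPn 5 (2 * 1 + 3) 2457 2851 :=
  ((((FPn_of t64 (by norm_num) (by norm_num) (by norm_num) (n1 := 2578) rfl).trans (FPn_of t65 (by norm_num) (by norm_num) (by norm_num) (n1 := 2698) rfl)).trans (FPn_of t66 (by norm_num) (by norm_num) (by norm_num) (n1 := 2818) rfl)).trans (FPn_of t67 (by norm_num) (by norm_num) (by norm_num) (n1 := 2851) rfl))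

def t68 : fdr 5 19 35672 7 1754 120 = true := by decide +kernel

def t69 : fdr 5 19 35672 7 1874 120 = true := by decide +kernel

def t70 : fdr 5 19 35672 7 1994 41 = true := by decide +kernel

theorem u44_2 : FPn 5 (2 * 2 + 3) 1754 2035 :=
  (((FPn_of t68 (by norm_num) (by norm_num) (by norm_num) (n1 := 1874) rfl).trans (FPn_of t69 (by norm_num) (by norm_num) (by norm_num) (n1 := 1994) rfl)).trans (FPn_of t70 (by norm_num) (by norm_num) (by norm_num) (n1 := 2035) rfl))

def t71 : fdr 5 19 35672 9 1363 121 = true := by decide +kernel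

def t72 : fdr 5 19 35672 9 1484 98 = true := by decide +kernel

theorem u44_3 : FPn 5 (2 * 3 + 3) 1363 1582 :=
  ((FPn_of t71 (by norm_num) (by norm_num) (by norm_num) (n1 := 1484) rfl).trans (FPn_of t72 (by norm_num) (by norm_num) (by norm_num) (n1 := 1582) rfl))

def t73 : fdr 5 19 35672 11 1115 121 = true := by decide +kernel

def t74 : fdr 5 19 35672 11 1236 58 = true := by decide +kernel

theorem u44_4 : FPn 5 (2 * 4 + 3) 1115 1294 :=
  ((FPn_of t73 (by norm_num) (by norm_num) (by norm_num) (n1 := 1236) rfl).trans (FPn_of t74 (by norm_num) (by norm_num) (by norm_num) (n1 := 1294) rfl))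

def t75 : fdr 5 19 35672 13 942 120 = true := by decide +kernel

def t76 : fdr 5 19 35672 13 1062 32 = true := by decide +kernel

theorem u44_5 : FPn 5 (2 * 5 + 3) 942 1094 :=
  ((FPn_of t75 (by norm_num) (by norm_num) (by norm_num) (n1 := 1062) rfl).trans (FPn_of t76 (by norm_num) (by norm_num) (by norm_num) (n1 := 1094) rfl))

def t77 : fdr 5 19 35672 15 816 120 = true := by decide +kernel

def t78 : fdr 5 19 35672 15 936 11 = true := by decide +kernel

theorem u44_6 : FPn 5 (2 * 6 + 3) 816 947 :=
  ((FPn_of t77 (by norm_num) (by norm_num) (by norm_num) (n1 := 936) rfl).trans (FPn_of t78 (by norm_num) (by norm_num) (by norm_num) (n1 := 947) rfl))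

def t79 : fda 5 19 35672 12310 14280 7 1 = true := by decide +kernel

def t80 : fda 5 19 35672 12310 14280 8 1 = true := by decide +kernel

def t81 : fda 5 19 35672 12310 14280 9 1 = true := by decide +kernel

def t82 : fda 5 19 35672 12310 14280 10 1 = true := by decide +kernel

def t83 : fda 5 19 35672 12310 14280 11 1 = true := by decide +kernel

def t84 : fda 5 19 35672 12310 14280 12 1 = true := by decide +kernel

def t85 : fda 5 19 35672 12310 14280 13 1 = true := by decide +kernel

def t86 : fda 5 19 35672 12310 14280 14 2 = true := by decide +kernel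

def t87 : fda 5 19 35672 12310 14280 16 2 = true := by decide +kernel

def t88 : fda 5 19 35672 12310 14280 18 2 = true := by decide +kernel

def t89 : fda 5 19 35672 12310 14280 20 2 = true := by decide +kernel

def t90 : fda 5 19 35672 12310 14280 22 3 = true := by decide +kernel

def t91 : fda 5 19 35672 12310 14280 25 3 = true := by decide +kernel

def t92 : fda 5 19 35672 12310 14280 28 3 = true := by decide +kernel

def t93 : fda 5 19 35672 12310 14280 31 4 = true := by decide +kernel

def t94 : fda 5 19 35672 12310 14280 35 4 = true := by decide +kernel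

def t95 : fda 5 19 35672 12310 14280 39 5 = true := by decide +kernel

def t96 : fda 5 19 35672 12310 14280 44 5 = true := by decide +kernel

def t97 : fda 5 19 35672 12310 14280 49 6 = true := by decide +kernel

def t98 : fda 5 19 35672 12310 14280 55 7 = true := by decide +kernel

def t99 : fda 5 19 35672 12310 14280 62 8 = true := by decide +kernel

def t100 : fda 5 19 35672 12310 14280 70 9 = true := by decide +kernel

def t101 : fda 5 19 35672 12310 14280 79 10 = true := by decide +kernel

def t102 : fda 5 19 35672 12310 14280 89 11 = true := by decide +kernel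

def t103 : fda 5 19 35672 12310 14280 100 13 = true := by decide +kernel

def t104 : fda 5 19 35672 12310 14280 113 15 = true := by decide +kernel

def t105 : fda 5 19 35672 12310 14280 128 16 = true := by decide +kernel

def t106 : fda 5 19 35672 12310 14280 144 18 = true := by decide +kernel

def t107 : fda 5 19 35672 12310 14280 162 21 = true := by decide +kernel

def t108 : fda 5 19 35672 12310 14280 183 24 = true := by decide +kernel

def t109 : fda 5 19 35672 12310 14280 207 27 = true := by decide +kernel

def t110 : fda 5 19 35672 12310 14280 234 31 = true := by decide +kernel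

def t111 : fda 5 19 35672 12310 14280 265 34 = true := by decide +kernel

def t112 : fda 5 19 35672 12310 14280 299 37 = true := by decide +kernel

def t113 : fda 5 19 35672 12310 14280 336 43 = true := by decide +kernel

def t114 : fda 5 19 35672 12310 14280 379 50 = true := by decide +kernel

def t115 : fda 5 19 35672 12310 14280 429 57 = true := by decide +kernel

def t116 : fda 5 19 35672 12310 14280 486 60 = true := by decide +kernel

def t117 : fda 5 19 35672 12310 14280 546 71 = true := by decide +kernel

def t118 : fda 5 19 35672 12310 14280 617 95 = true := by decide +kernel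

def t119 : fda 5 19 35672 12310 14280 712 60 = true := by decide +kernel

def t120 : fda 5 19 35672 12310 14280 772 146 = true := by decide +kernel

def t121 : fda 5 19 35672 12310 14280 918 60 = true := by decide +kernel

def t122 : fda 5 19 35672 12310 14280 978 271 = true := by decide +kernel

def t123 : fda 5 19 35672 12310 14280 1249 60 = true := by decide +kernel

def t124 : fda 5 19 35672 12310 14280 1309 60 = true := by decide +kernel

def t125 : fda 5 19 35672 12310 14280 1369 58 = true := by decide +kernel

theorem c44 : FPE 5 12310 14280 :=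
  FP.toE (A := 1427) ((((((((((((((((((((((((((((((((((((((((((((((((((((((FPn.toFP u44_0 (by norm_num) (by norm_num) (i1 := 1) rfl).trans
    (FPn.toFP u44_1 (by norm_num) (by norm_num) (i1 := 2) rfl)).trans
    (FPn.toFP u44_2 (by norm_num) (by norm_num) (i1 := 3) rfl)).trans
    (FPn.toFP u44_3 (by norm_num) (by norm_num) (i1 := 4) rfl)).trans
    (FPn.toFP u44_4 (by norm_num) (by norm_num) (i1 := 5) rfl)).trans
    (FPn.toFP u44_5 (by norm_num) (by norm_num) (i1 := 6) rfl)).trans
    (FPn.toFP u44_6 (by norm_num) (by norm_num) (i1 := 7) rfl)).trans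
    (FP_of t79 (by norm_num) (by norm_num) (i1 := 8) rfl)).trans
    (FP_of t80 (by norm_num) (by norm_num) (i1 := 9) rfl)).trans
    (FP_of t81 (by norm_num) (by norm_num) (i1 := 10) rfl)).trans
    (FP_of t82 (by norm_num) (by norm_num) (i1 := 11) rfl)).trans
    (FP_of t83 (by norm_num) (by norm_num) (i1 := 12) rfl)).trans
    (FP_of t84 (by norm_num) (by norm_num) (i1 := 13) rfl)).trans
    (FP_of t85 (by norm_num) (by norm_num) (i1 := 14) rfl)).trans
    (FP_of t86 (by norm_num) (by norm_num) (i1 := 16) rfl)).trans
    (FP_of t87 (by norm_num) (by norm_num) (i1 := 18) rfl)).trans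
    (FP_of t88 (by norm_num) (by norm_num) (i1 := 20) rfl)).trans
    (FP_of t89 (by norm_num) (by norm_num) (i1 := 22) rfl)).trans
    (FP_of t90 (by norm_num) (by norm_num) (i1 := 25) rfl)).trans
    (FP_of t91 (by norm_num) (by norm_num) (i1 := 28) rfl)).trans
    (FP_of t92 (by norm_num) (by norm_num) (i1 := 31) rfl)).trans
    (FP_of t93 (by norm_num) (by norm_num) (i1 := 35) rfl)).trans
    (FP_of t94 (by norm_num) (by norm_num) (i1 := 39) rfl)).trans
    (FP_of t95 (by norm_num) (by norm_num) (i1 := 44) rfl)).trans
    (FP_of t96 (by norm_num) (by norm_num) (i1 := 49) rfl)).trans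
    (FP_of t97 (by norm_num) (by norm_num) (i1 := 55) rfl)).trans
    (FP_of t98 (by norm_num) (by norm_num) (i1 := 62) rfl)).trans
    (FP_of t99 (by norm_num) (by norm_num) (i1 := 70) rfl)).trans
    (FP_of t100 (by norm_num) (by norm_num) (i1 := 79) rfl)).trans
    (FP_of t101 (by norm_num) (by norm_num) (i1 := 89) rfl)).trans
    (FP_of t102 (by norm_num) (by norm_num) (i1 := 100) rfl)).trans
    (FP_of t103 (by norm_num) (by norm_num) (i1 := 113) rfl)).trans
    (FP_of t104 (by norm_num) (by norm_num) (i1 := 128) rfl)).trans
    (FP_of t105 (by norm_num) (by norm_num) (i1 := 144) rfl)).trans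
    (FP_of t106 (by norm_num) (by norm_num) (i1 := 162) rfl)).trans
    (FP_of t107 (by norm_num) (by norm_num) (i1 := 183) rfl)).trans
    (FP_of t108 (by norm_num) (by norm_num) (i1 := 207) rfl)).trans
    (FP_of t109 (by norm_num) (by norm_num) (i1 := 234) rfl)).trans
    (FP_of t110 (by norm_num) (by norm_num) (i1 := 265) rfl)).trans
    (FP_of t111 (by norm_num) (by norm_num) (i1 := 299) rfl)).trans
    (FP_of t112 (by norm_num) (by norm_num) (i1 := 336) rfl)).trans
    (FP_of t113 (by norm_num) (by norm_num) (i1 := 379) rfl)).trans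
    (FP_of t114 (by norm_num) (by norm_num) (i1 := 429) rfl)).trans
    (FP_of t115 (by norm_num) (by norm_num) (i1 := 486) rfl)).trans
    (FP_of t116 (by norm_num) (by norm_num) (i1 := 546) rfl)).trans
    (FP_of t117 (by norm_num) (by norm_num) (i1 := 617) rfl)).trans
    (FP_of t118 (by norm_num) (by norm_num) (i1 := 712) rfl)).trans
    (FP_of t119 (by norm_num) (by norm_num) (i1 := 772) rfl)).trans
    (FP_of t120 (by norm_num) (by norm_num) (i1 := 918) rfl)).trans
    (FP_of t121 (by norm_num) (by norm_num) (i1 := 978) rfl)).trans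
    (FP_of t122 (by norm_num) (by norm_num) (i1 := 1249) rfl)).trans
    (FP_of t123 (by norm_num) (by norm_num) (i1 := 1309) rfl)).trans
    (FP_of t124 (by norm_num) (by norm_num) (i1 := 1369) rfl)).trans
    (FP_of t125 (by norm_num) (by norm_num) (i1 := 1427) rfl)) (by norm_num)

theorem fe : FPE 5 10612 14280 :=
  (c43.trans c44)

end Pool.Agent.SignedQ.KD.Fd5_4
end

section

set_option autoImplicit false
set_option maxRecDepth 100000

namespace Pool.Agent.SignedQ.KD.Fd5_5

def t0 : fdr 5 19 41387 3 4755 121 = true := by decide +kernel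

def t1 : fdr 5 19 41387 3 4876 120 = true := by decide +kernel

def t2 : fdr 5 19 41387 3 4996 120 = true := by decide +kernel

def t3 : fdr 5 19 41387 3 5116 120 = true := by decide +kernel

def t4 : fdr 5 19 41387 3 5236 120 = true := by decide +kernel

def t5 : fdr 5 19 41387 3 5356 120 = true := by decide +kernel

def t6 : fdr 5 19 41387 3 5476 41 = true := by decide +kernel

theorem u45_0 : FPn 5 (2 * 0 + 3) 4755 5517 :=
  (((((((FPn_of t0 (by norm_num) (by norm_num) (by norm_num) (n1 := 4876) rfl).trans (FPn_of t1 (by norm_num) (by norm_num) (by norm_num) (n1 := 4996) rfl)).trans (FPn_of t2 (by norm_num) (by norm_num) (by norm_num) (n1 := 5116) rfl)).trans (FPn_of t3 (by norm_num) (by norm_num) (by norm_num) (n1 := 5236) rfl)).trans (FPn_of t4 (by norm_num) (by norm_num) (by norm_num) (n1 := 5356) rfl)).trans (FPn_of t5 (by norm_num) (by norm_num) (by norm_num) (n1 := 5476) rfl)).trans (FPn_of t6 (by norm_num) (by norm_num) (by norm_num) (n1 := 5517) rfl))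

def t7 : fdr 5 19 41387 5 2851 121 = true := by decide +kernel

def t8 : fdr 5 19 41387 5 2972 120 = true := by decide +kernel

def t9 : fdr 5 19 41387 5 3092 120 = true := by decide +kernel

def t10 : fdr 5 19 41387 5 3212 96 = true := by decide +kernel

theorem u45_1 : FPn 5 (2 * 1 + 3) 2851 3308 :=
  ((((FPn_of t7 (by norm_num) (by norm_num) (by norm_num) (n1 := 2972) rfl).trans (FPn_of t8 (by norm_num) (by norm_num) (by norm_num) (n1 := 3092) rfl)).trans (FPn_of t9 (by norm_num) (by norm_num) (by norm_num) (n1 := 3212) rfl)).trans (FPn_of t10 (by norm_num) (by norm_num) (by norm_num) (n1 := 3308) rfl))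

def t11 : fdr 5 19 41387 7 2035 121 = true := by decide +kernel

def t12 : fdr 5 19 41387 7 2156 120 = true := by decide +kernel

def t13 : fdr 5 19 41387 7 2276 86 = true := by decide +kernel

theorem u45_2 : FPn 5 (2 * 2 + 3) 2035 2362 :=
  (((FPn_of t11 (by norm_num) (by norm_num) (by norm_num) (n1 := 2156) rfl).trans (FPn_of t12 (by norm_num) (by norm_num) (by norm_num) (n1 := 2276) rfl)).trans (FPn_of t13 (by norm_num) (by norm_num) (by norm_num) (n1 := 2362) rfl))

def t14 : fdr 5 19 41387 9 1582 120 = true := by decide +kernel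

def t15 : fdr 5 19 41387 9 1702 120 = true := by decide +kernel

def t16 : fdr 5 19 41387 9 1822 14 = true := by decide +kernel

theorem u45_3 : FPn 5 (2 * 3 + 3) 1582 1836 :=
  (((FPn_of t14 (by norm_num) (by norm_num) (by norm_num) (n1 := 1702) rfl).trans (FPn_of t15 (by norm_num) (by norm_num) (by norm_num) (n1 := 1822) rfl)).trans (FPn_of t16 (by norm_num) (by norm_num) (by norm_num) (n1 := 1836) rfl))

def t17 : fdr 5 19 41387 11 1294 120 = true := by decide +kernel

def t18 : fdr 5 19 41387 11 1414 87 = true := by decide +kernel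

theorem u45_4 : FPn 5 (2 * 4 + 3) 1294 1501 :=
  ((FPn_of t17 (by norm_num) (by norm_num) (by norm_num) (n1 := 1414) rfl).trans (FPn_of t18 (by norm_num) (by norm_num) (by norm_num) (n1 := 1501) rfl))

def t19 : fdr 5 19 41387 13 1094 120 = true := by decide +kernel

def t20 : fdr 5 19 41387 13 1214 56 = true := by decide +kernel

theorem u45_5 : FPn 5 (2 * 5 + 3) 1094 1270 :=
  ((FPn_of t19 (by norm_num) (by norm_num) (by norm_num) (n1 := 1214) rfl).trans (FPn_of t20 (by norm_num) (by norm_num) (by norm_num) (n1 := 1270) rfl))

def t21 : fdr 5 19 41387 15 947 121 = true := by decide +kernel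

def t22 : fdr 5 19 41387 15 1068 32 = true := by decide +kernel

theorem u45_6 : FPn 5 (2 * 6 + 3) 947 1100 :=
  ((FPn_of t21 (by norm_num) (by norm_num) (by norm_num) (n1 := 1068) rfl).trans (FPn_of t22 (by norm_num) (by norm_num) (by norm_num) (n1 := 1100) rfl))

def t23 : fdr 5 19 41387 17 835 121 = true := by decide +kernel

def t24 : fdr 5 19 41387 17 956 14 = true := by decide +kernel

theorem u45_7 : FPn 5 (2 * 7 + 3) 835 970 :=
  ((FPn_of t23 (by norm_num) (by norm_num) (by norm_num) (n1 := 956) rfl).trans (FPn_of t24 (by norm_num) (by norm_num) (by norm_num) (n1 := 970) rfl))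

def t25 : fda 5 19 41387 14280 16565 8 1 = true := by decide +kernel

def t26 : fda 5 19 41387 14280 16565 9 1 = true := by decide +kernel

def t27 : fda 5 19 41387 14280 16565 10 1 = true := by decide +kernel

def t28 : fda 5 19 41387 14280 16565 11 1 = true := by decide +kernel

def t29 : fda 5 19 41387 14280 16565 12 1 = true := by decide +kernel

def t30 : fda 5 19 41387 14280 16565 13 1 = true := by decide +kernel

def t31 : fda 5 19 41387 14280 16565 14 1 = true := by decide +kernel

def t32 : fda 5 19 41387 14280 16565 15 1 = true := by decide +kernel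

def t33 : fda 5 19 41387 14280 16565 16 1 = true := by decide +kernel

def t34 : fda 5 19 41387 14280 16565 17 2 = true := by decide +kernel

def t35 : fda 5 19 41387 14280 16565 19 2 = true := by decide +kernel

def t36 : fda 5 19 41387 14280 16565 21 2 = true := by decide +kernel

def t37 : fda 5 19 41387 14280 16565 23 2 = true := by decide +kernel

def t38 : fda 5 19 41387 14280 16565 25 2 = true := by decide +kernel

def t39 : fda 5 19 41387 14280 16565 27 3 = true := by decide +kernel

def t40 : fda 5 19 41387 14280 16565 30 3 = true := by decide +kernel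

def t41 : fda 5 19 41387 14280 16565 33 3 = true := by decide +kernel

def t42 : fda 5 19 41387 14280 16565 36 4 = true := by decide +kernel

def t43 : fda 5 19 41387 14280 16565 40 4 = true := by decide +kernel

def t44 : fda 5 19 41387 14280 16565 44 5 = true := by decide +kernel

def t45 : fda 5 19 41387 14280 16565 49 5 = true := by decide +kernel

def t46 : fda 5 19 41387 14280 16565 54 6 = true := by decide +kernel

def t47 : fda 5 19 41387 14280 16565 60 7 = true := by decide +kernel

def t48 : fda 5 19 41387 14280 16565 67 7 = true := by decide +kernel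

def t49 : fda 5 19 41387 14280 16565 74 8 = true := by decide +kernel

def t50 : fda 5 19 41387 14280 16565 82 9 = true := by decide +kernel

def t51 : fda 5 19 41387 14280 16565 91 10 = true := by decide +kernel

def t52 : fda 5 19 41387 14280 16565 101 11 = true := by decide +kernel

def t53 : fda 5 19 41387 14280 16565 112 12 = true := by decide +kernel

def t54 : fda 5 19 41387 14280 16565 124 14 = true := by decide +kernel

def t55 : fda 5 19 41387 14280 16565 138 15 = true := by decide +kernel

def t56 : fda 5 19 41387 14280 16565 153 17 = true := by decide +kernel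

def t57 : fda 5 19 41387 14280 16565 170 19 = true := by decide +kernel

def t58 : fda 5 19 41387 14280 16565 189 20 = true := by decide +kernel

def t59 : fda 5 19 41387 14280 16565 209 23 = true := by decide +kernel

def t60 : fda 5 19 41387 14280 16565 232 25 = true := by decide +kernel

def t61 : fda 5 19 41387 14280 16565 257 28 = true := by decide +kernel

def t62 : fda 5 19 41387 14280 16565 285 31 = true := by decide +kernel

def t63 : fda 5 19 41387 14280 16565 316 34 = true := by decide +kernel

def t64 : fda 5 19 41387 14280 16565 350 38 = true := by decide +kernel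

def t65 : fda 5 19 41387 14280 16565 388 43 = true := by decide +kernel

def t66 : fda 5 19 41387 14280 16565 431 50 = true := by decide +kernel

def t67 : fda 5 19 41387 14280 16565 481 55 = true := by decide +kernel

def t68 : fda 5 19 41387 14280 16565 536 57 = true := by decide +kernel

def t69 : fda 5 19 41387 14280 16565 593 72 = true := by decide +kernel

def t70 : fda 5 19 41387 14280 16565 665 60 = true := by decide +kernel

def t71 : fda 5 19 41387 14280 16565 725 100 = true := by decide +kernel

def t72 : fda 5 19 41387 14280 16565 825 60 = true := by decide +kernel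

def t73 : fda 5 19 41387 14280 16565 885 160 = true := by decide +kernel

def t74 : fda 5 19 41387 14280 16565 1045 60 = true := by decide +kernel

def t75 : fda 5 19 41387 14280 16565 1105 60 = true := by decide +kernel

def t76 : fda 5 19 41387 14280 16565 1165 305 = true := by decide +kernel

def t77 : fda 5 19 41387 14280 16565 1470 60 = true := by decide +kernel

def t78 : fda 5 19 41387 14280 16565 1530 60 = true := by decide +kernel

def t79 : fda 5 19 41387 14280 16565 1590 60 = true := by decide +kernel

def t80 : fda 5 19 41387 14280 16565 1650 5 = true := by decide +kernel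

theorem c45 : FPE 5 14280 16565 :=
  FP.toE (A := 1655) ((((((((((((((((((((((((((((((((((((((((((((((((((((((((((((((((FPn.toFP u45_0 (by norm_num) (by norm_num) (i1 := 1) rfl).trans
    (FPn.toFP u45_1 (by norm_num) (by norm_num) (i1 := 2) rfl)).trans
    (FPn.toFP u45_2 (by norm_num) (by norm_num) (i1 := 3) rfl)).trans
    (FPn.toFP u45_3 (by norm_num) (by norm_num) (i1 := 4) rfl)).trans
    (FPn.toFP u45_4 (by norm_num) (by norm_num) (i1 := 5) rfl)).trans
    (FPn.toFP u45_5 (by norm_num) (by norm_num) (i1 := 6) rfl)).trans
    (FPn.toFP u45_6 (by norm_num) (by norm_num) (i1 := 7) rfl)).trans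
    (FPn.toFP u45_7 (by norm_num) (by norm_num) (i1 := 8) rfl)).trans
    (FP_of t25 (by norm_num) (by norm_num) (i1 := 9) rfl)).trans
    (FP_of t26 (by norm_num) (by norm_num) (i1 := 10) rfl)).trans
    (FP_of t27 (by norm_num) (by norm_num) (i1 := 11) rfl)).trans
    (FP_of t28 (by norm_num) (by norm_num) (i1 := 12) rfl)).trans
    (FP_of t29 (by norm_num) (by norm_num) (i1 := 13) rfl)).trans
    (FP_of t30 (by norm_num) (by norm_num) (i1 := 14) rfl)).trans
    (FP_of t31 (by norm_num) (by norm_num) (i1 := 15) rfl)).trans
    (FP_of t32 (by norm_num) (by norm_num) (i1 := 16) rfl)).trans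
    (FP_of t33 (by norm_num) (by norm_num) (i1 := 17) rfl)).trans
    (FP_of t34 (by norm_num) (by norm_num) (i1 := 19) rfl)).trans
    (FP_of t35 (by norm_num) (by norm_num) (i1 := 21) rfl)).trans
    (FP_of t36 (by norm_num) (by norm_num) (i1 := 23) rfl)).trans
    (FP_of t37 (by norm_num) (by norm_num) (i1 := 25) rfl)).trans
    (FP_of t38 (by norm_num) (by norm_num) (i1 := 27) rfl)).trans
    (FP_of t39 (by norm_num) (by norm_num) (i1 := 30) rfl)).trans
    (FP_of t40 (by norm_num) (by norm_num) (i1 := 33) rfl)).trans
    (FP_of t41 (by norm_num) (by norm_num) (i1 := 36) rfl)).trans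
    (FP_of t42 (by norm_num) (by norm_num) (i1 := 40) rfl)).trans
    (FP_of t43 (by norm_num) (by norm_num) (i1 := 44) rfl)).trans
    (FP_of t44 (by norm_num) (by norm_num) (i1 := 49) rfl)).trans
    (FP_of t45 (by norm_num) (by norm_num) (i1 := 54) rfl)).trans
    (FP_of t46 (by norm_num) (by norm_num) (i1 := 60) rfl)).trans
    (FP_of t47 (by norm_num) (by norm_num) (i1 := 67) rfl)).trans
    (FP_of t48 (by norm_num) (by norm_num) (i1 := 74) rfl)).trans
    (FP_of t49 (by norm_num) (by norm_num) (i1 := 82) rfl)).trans
    (FP_of t50 (by norm_num) (by norm_num) (i1 := 91) rfl)).trans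
    (FP_of t51 (by norm_num) (by norm_num) (i1 := 101) rfl)).trans
    (FP_of t52 (by norm_num) (by norm_num) (i1 := 112) rfl)).trans
    (FP_of t53 (by norm_num) (by norm_num) (i1 := 124) rfl)).trans
    (FP_of t54 (by norm_num) (by norm_num) (i1 := 138) rfl)).trans
    (FP_of t55 (by norm_num) (by norm_num) (i1 := 153) rfl)).trans
    (FP_of t56 (by norm_num) (by norm_num) (i1 := 170) rfl)).trans
    (FP_of t57 (by norm_num) (by norm_num) (i1 := 189) rfl)).trans
    (FP_of t58 (by norm_num) (by norm_num) (i1 := 209) rfl)).trans
    (FP_of t59 (by norm_num) (by norm_num) (i1 := 232) rfl)).trans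
    (FP_of t60 (by norm_num) (by norm_num) (i1 := 257) rfl)).trans
    (FP_of t61 (by norm_num) (by norm_num) (i1 := 285) rfl)).trans
    (FP_of t62 (by norm_num) (by norm_num) (i1 := 316) rfl)).trans
    (FP_of t63 (by norm_num) (by norm_num) (i1 := 350) rfl)).trans
    (FP_of t64 (by norm_num) (by norm_num) (i1 := 388) rfl)).trans
    (FP_of t65 (by norm_num) (by norm_num) (i1 := 431) rfl)).trans
    (FP_of t66 (by norm_num) (by norm_num) (i1 := 481) rfl)).trans
    (FP_of t67 (by norm_num) (by norm_num) (i1 := 536) rfl)).trans
    (FP_of t68 (by norm_num) (by norm_num) (i1 := 593) rfl)).trans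
    (FP_of t69 (by norm_num) (by norm_num) (i1 := 665) rfl)).trans
    (FP_of t70 (by norm_num) (by norm_num) (i1 := 725) rfl)).trans
    (FP_of t71 (by norm_num) (by norm_num) (i1 := 825) rfl)).trans
    (FP_of t72 (by norm_num) (by norm_num) (i1 := 885) rfl)).trans
    (FP_of t73 (by norm_num) (by norm_num) (i1 := 1045) rfl)).trans
    (FP_of t74 (by norm_num) (by norm_num) (i1 := 1105) rfl)).trans
    (FP_of t75 (by norm_num) (by norm_num) (i1 := 1165) rfl)).trans
    (FP_of t76 (by norm_num) (by norm_num) (i1 := 1470) rfl)).trans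
    (FP_of t77 (by norm_num) (by norm_num) (i1 := 1530) rfl)).trans
    (FP_of t78 (by norm_num) (by norm_num) (i1 := 1590) rfl)).trans
    (FP_of t79 (by norm_num) (by norm_num) (i1 := 1650) rfl)).trans
    (FP_of t80 (by norm_num) (by norm_num) (i1 := 1655) rfl)) (by norm_num)

theorem fe : FPE 5 14280 16565 :=
  c45

end Pool.Agent.SignedQ.KD.Fd5_5
end

section

set_option autoImplicit false
set_option maxRecDepth 100000

namespace Pool.Agent.SignedQ.KD.Fd5_6

def t0 : fdr 5 19 45437 3 5517 121 = true := by decide +kernel

def t1 : fdr 5 19 45437 3 5638 120 = true := by decide +kernel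

def t2 : fdr 5 19 45437 3 5758 120 = true := by decide +kernel

def t3 : fdr 5 19 45437 3 5878 120 = true := by decide +kernel

def t4 : fdr 5 19 45437 3 5998 60 = true := by decide +kernel

theorem u46_0 : FPn 5 (2 * 0 + 3) 5517 6058 :=
  (((((FPn_of t0 (by norm_num) (by norm_num) (by norm_num) (n1 := 5638) rfl).trans (FPn_of t1 (by norm_num) (by norm_num) (by norm_num) (n1 := 5758) rfl)).trans (FPn_of t2 (by norm_num) (by norm_num) (by norm_num) (n1 := 5878) rfl)).trans (FPn_of t3 (by norm_num) (by norm_num) (by norm_num) (n1 := 5998) rfl)).trans (FPn_of t4 (by norm_num) (by norm_num) (by norm_num) (n1 := 6058) rfl))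

def t5 : fdr 5 19 45437 5 3308 120 = true := by decide +kernel

def t6 : fdr 5 19 45437 5 3428 120 = true := by decide +kernel

def t7 : fdr 5 19 45437 5 3548 85 = true := by decide +kernel

theorem u46_1 : FPn 5 (2 * 1 + 3) 3308 3633 :=
  (((FPn_of t5 (by norm_num) (by norm_num) (by norm_num) (n1 := 3428) rfl).trans (FPn_of t6 (by norm_num) (by norm_num) (by norm_num) (n1 := 3548) rfl)).trans (FPn_of t7 (by norm_num) (by norm_num) (by norm_num) (n1 := 3633) rfl))

def t8 : fdr 5 19 45437 7 2362 120 = true := by decide +kernel

def t9 : fdr 5 19 45437 7 2482 112 = true := by decide +kernel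

theorem u46_2 : FPn 5 (2 * 2 + 3) 2362 2594 :=
  ((FPn_of t8 (by norm_num) (by norm_num) (by norm_num) (n1 := 2482) rfl).trans (FPn_of t9 (by norm_num) (by norm_num) (by norm_num) (n1 := 2594) rfl))

def t10 : fdr 5 19 45437 9 1836 120 = true := by decide +kernel

def t11 : fdr 5 19 45437 9 1956 60 = true := by decide +kernel

theorem u46_3 : FPn 5 (2 * 3 + 3) 1836 2016 :=
  ((FPn_of t10 (by norm_num) (by norm_num) (by norm_num) (n1 := 1956) rfl).trans (FPn_of t11 (by norm_num) (by norm_num) (by norm_num) (n1 := 2016) rfl))

def t12 : fdr 5 19 45437 11 1501 121 = true := by decide +kernel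

def t13 : fdr 5 19 45437 11 1622 27 = true := by decide +kernel

theorem u46_4 : FPn 5 (2 * 4 + 3) 1501 1649 :=
  ((FPn_of t12 (by norm_num) (by norm_num) (by norm_num) (n1 := 1622) rfl).trans (FPn_of t13 (by norm_num) (by norm_num) (by norm_num) (n1 := 1649) rfl))

def t14 : fdr 5 19 45437 13 1270 120 = true := by decide +kernel

def t15 : fdr 5 19 45437 13 1390 5 = true := by decide +kernel

theorem u46_5 : FPn 5 (2 * 5 + 3) 1270 1395 :=
  ((FPn_of t14 (by norm_num) (by norm_num) (by norm_num) (n1 := 1390) rfl).trans (FPn_of t15 (by norm_num) (by norm_num) (by norm_num) (n1 := 1395) rfl))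

def t16 : fda 5 19 45437 16565 18188 6 1 = true := by decide +kernel

def t17 : fda 5 19 45437 16565 18188 7 1 = true := by decide +kernel

def t18 : fda 5 19 45437 16565 18188 8 1 = true := by decide +kernel

def t19 : fda 5 19 45437 16565 18188 9 1 = true := by decide +kernel

def t20 : fda 5 19 45437 16565 18188 10 1 = true := by decide +kernel

def t21 : fda 5 19 45437 16565 18188 11 1 = true := by decide +kernel

def t22 : fda 5 19 45437 16565 18188 12 2 = true := by decide +kernel

def t23 : fda 5 19 45437 16565 18188 14 2 = true := by decide +kernel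

def t24 : fda 5 19 45437 16565 18188 16 2 = true := by decide +kernel

def t25 : fda 5 19 45437 16565 18188 18 3 = true := by decide +kernel

def t26 : fda 5 19 45437 16565 18188 21 3 = true := by decide +kernel

def t27 : fda 5 19 45437 16565 18188 24 3 = true := by decide +kernel

def t28 : fda 5 19 45437 16565 18188 27 4 = true := by decide +kernel

def t29 : fda 5 19 45437 16565 18188 31 5 = true := by decide +kernel

def t30 : fda 5 19 45437 16565 18188 36 5 = true := by decide +kernel

def t31 : fda 5 19 45437 16565 18188 41 6 = true := by decide +kernel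

def t32 : fda 5 19 45437 16565 18188 47 7 = true := by decide +kernel

def t33 : fda 5 19 45437 16565 18188 54 8 = true := by decide +kernel

def t34 : fda 5 19 45437 16565 18188 62 10 = true := by decide +kernel

def t35 : fda 5 19 45437 16565 18188 72 11 = true := by decide +kernel

def t36 : fda 5 19 45437 16565 18188 83 13 = true := by decide +kernel

def t37 : fda 5 19 45437 16565 18188 96 15 = true := by decide +kernel

def t38 : fda 5 19 45437 16565 18188 111 18 = true := by decide +kernel

def t39 : fda 5 19 45437 16565 18188 129 20 = true := by decide +kernel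

def t40 : fda 5 19 45437 16565 18188 149 23 = true := by decide +kernel

def t41 : fda 5 19 45437 16565 18188 172 28 = true := by decide +kernel

def t42 : fda 5 19 45437 16565 18188 200 31 = true := by decide +kernel

def t43 : fda 5 19 45437 16565 18188 231 38 = true := by decide +kernel

def t44 : fda 5 19 45437 16565 18188 269 42 = true := by decide +kernel

def t45 : fda 5 19 45437 16565 18188 311 50 = true := by decide +kernel

def t46 : fda 5 19 45437 16565 18188 361 57 = true := by decide +kernel

def t47 : fda 5 19 45437 16565 18188 418 71 = true := by decide +kernel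

def t48 : fda 5 19 45437 16565 18188 489 77 = true := by decide +kernel

def t49 : fda 5 19 45437 16565 18188 566 91 = true := by decide +kernel

def t50 : fda 5 19 45437 16565 18188 657 113 = true := by decide +kernel

def t51 : fda 5 19 45437 16565 18188 770 153 = true := by decide +kernel

def t52 : fda 5 19 45437 16565 18188 923 60 = true := by decide +kernel

def t53 : fda 5 19 45437 16565 18188 983 233 = true := by decide +kernel

def t54 : fda 5 19 45437 16565 18188 1216 60 = true := by decide +kernel

def t55 : fda 5 19 45437 16565 18188 1276 417 = true := by decide +kernel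

def t56 : fda 5 19 45437 16565 18188 1693 60 = true := by decide +kernel

def t57 : fda 5 19 45437 16565 18188 1753 60 = true := by decide +kernel

def t58 : fda 5 19 45437 16565 18188 1813 5 = true := by decide +kernel

theorem c46 : FPE 5 16565 18188 :=
  FP.toE (A := 1818) (((((((((((((((((((((((((((((((((((((((((((((((((FPn.toFP u46_0 (by norm_num) (by norm_num) (i1 := 1) rfl).trans
    (FPn.toFP u46_1 (by norm_num) (by norm_num) (i1 := 2) rfl)).trans
    (FPn.toFP u46_2 (by norm_num) (by norm_num) (i1 := 3) rfl)).trans
    (FPn.toFP u46_3 (by norm_num) (by norm_num) (i1 := 4) rfl)).trans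
    (FPn.toFP u46_4 (by norm_num) (by norm_num) (i1 := 5) rfl)).trans
    (FPn.toFP u46_5 (by norm_num) (by norm_num) (i1 := 6) rfl)).trans
    (FP_of t16 (by norm_num) (by norm_num) (i1 := 7) rfl)).trans
    (FP_of t17 (by norm_num) (by norm_num) (i1 := 8) rfl)).trans
    (FP_of t18 (by norm_num) (by norm_num) (i1 := 9) rfl)).trans
    (FP_of t19 (by norm_num) (by norm_num) (i1 := 10) rfl)).trans
    (FP_of t20 (by norm_num) (by norm_num) (i1 := 11) rfl)).trans
    (FP_of t21 (by norm_num) (by norm_num) (i1 := 12) rfl)).trans
    (FP_of t22 (by norm_num) (by norm_num) (i1 := 14) rfl)).trans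
    (FP_of t23 (by norm_num) (by norm_num) (i1 := 16) rfl)).trans
    (FP_of t24 (by norm_num) (by norm_num) (i1 := 18) rfl)).trans
    (FP_of t25 (by norm_num) (by norm_num) (i1 := 21) rfl)).trans
    (FP_of t26 (by norm_num) (by norm_num) (i1 := 24) rfl)).trans
    (FP_of t27 (by norm_num) (by norm_num) (i1 := 27) rfl)).trans
    (FP_of t28 (by norm_num) (by norm_num) (i1 := 31) rfl)).trans
    (FP_of t29 (by norm_num) (by norm_num) (i1 := 36) rfl)).trans
    (FP_of t30 (by norm_num) (by norm_num) (i1 := 41) rfl)).trans
    (FP_of t31 (by norm_num) (by norm_num) (i1 := 47) rfl)).trans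
    (FP_of t32 (by norm_num) (by norm_num) (i1 := 54) rfl)).trans
    (FP_of t33 (by norm_num) (by norm_num) (i1 := 62) rfl)).trans
    (FP_of t34 (by norm_num) (by norm_num) (i1 := 72) rfl)).trans
    (FP_of t35 (by norm_num) (by norm_num) (i1 := 83) rfl)).trans
    (FP_of t36 (by norm_num) (by norm_num) (i1 := 96) rfl)).trans
    (FP_of t37 (by norm_num) (by norm_num) (i1 := 111) rfl)).trans
    (FP_of t38 (by norm_num) (by norm_num) (i1 := 129) rfl)).trans
    (FP_of t39 (by norm_num) (by norm_num) (i1 := 149) rfl)).trans
    (FP_of t40 (by norm_num) (by norm_num) (i1 := 172) rfl)).trans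
    (FP_of t41 (by norm_num) (by norm_num) (i1 := 200) rfl)).trans
    (FP_of t42 (by norm_num) (by norm_num) (i1 := 231) rfl)).trans
    (FP_of t43 (by norm_num) (by norm_num) (i1 := 269) rfl)).trans
    (FP_of t44 (by norm_num) (by norm_num) (i1 := 311) rfl)).trans
    (FP_of t45 (by norm_num) (by norm_num) (i1 := 361) rfl)).trans
    (FP_of t46 (by norm_num) (by norm_num) (i1 := 418) rfl)).trans
    (FP_of t47 (by norm_num) (by norm_num) (i1 := 489) rfl)).trans
    (FP_of t48 (by norm_num) (by norm_num) (i1 := 566) rfl)).trans
    (FP_of t49 (by norm_num) (by norm_num) (i1 := 657) rfl)).trans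
    (FP_of t50 (by norm_num) (by norm_num) (i1 := 770) rfl)).trans
    (FP_of t51 (by norm_num) (by norm_num) (i1 := 923) rfl)).trans
    (FP_of t52 (by norm_num) (by norm_num) (i1 := 983) rfl)).trans
    (FP_of t53 (by norm_num) (by norm_num) (i1 := 1216) rfl)).trans
    (FP_of t54 (by norm_num) (by norm_num) (i1 := 1276) rfl)).trans
    (FP_of t55 (by norm_num) (by norm_num) (i1 := 1693) rfl)).trans
    (FP_of t56 (by norm_num) (by norm_num) (i1 := 1753) rfl)).trans
    (FP_of t57 (by norm_num) (by norm_num) (i1 := 1813) rfl)).trans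
    (FP_of t58 (by norm_num) (by norm_num) (i1 := 1818) rfl)) (by norm_num)

theorem fe : FPE 5 16565 18188 :=
  c46

end Pool.Agent.SignedQ.KD.Fd5_6
end
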