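import Pool.Agent.Lib.MP_cf17a0_co.Mg.G059

section

set_option autoImplicit false
set_option maxRecDepth 100000

namespace Pool.Agent.SignedQ.KD.Fd6_1

def t0 : fdr 6 25 4577 3 436 60 = true := by decide +kernel

def t1 : fdr 6 25 4577 3 496 11 = true := by decide +kernel

theorem u28_0 : FPn 6 (2 * 0 + 3) 436 507 :=
  ((FPn_of t0 (by norm_num) (by norm_num) (by norm_num) (n1 := 496) rfl).trans (FPn_of t1 (by norm_num) (by norm_num) (by norm_num) (n1 := 507) rfl))

def t2 : fda 6 25 4577 1325 1538 1 1 = true := by decide +kernel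

def t3 : fda 6 25 4577 1325 1538 2 2 = true := by decide +kernel

def t4 : fda 6 25 4577 1325 1538 4 3 = true := by decide +kernel

def t5 : fda 6 25 4577 1325 1538 7 6 = true := by decide +kernel

def t6 : fda 6 25 4577 1325 1538 13 10 = true := by decide +kernel

def t7 : fda 6 25 4577 1325 1538 23 18 = true := by decide +kernel

def t8 : fda 6 25 4577 1325 1538 41 32 = true := by decide +kernel

def t9 : fda 6 25 4577 1325 1538 73 54 = true := by decide +kernel

theorem c28 : FPE 6 1325 1538 :=
  FP.toE (A := 127) (((((((((FPn.toFP u28_0 (by norm_num) (by norm_num) (i1 := 1) rfl).trans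
    (FP_of t2 (by norm_num) (by norm_num) (i1 := 2) rfl)).trans
    (FP_of t3 (by norm_num) (by norm_num) (i1 := 4) rfl)).trans
    (FP_of t4 (by norm_num) (by norm_num) (i1 := 7) rfl)).trans
    (FP_of t5 (by norm_num) (by norm_num) (i1 := 13) rfl)).trans
    (FP_of t6 (by norm_num) (by norm_num) (i1 := 23) rfl)).trans
    (FP_of t7 (by norm_num) (by norm_num) (i1 := 41) rfl)).trans
    (FP_of t8 (by norm_num) (by norm_num) (i1 := 73) rfl)).trans
    (FP_of t9 (by norm_num) (by norm_num) (i1 := 127) rfl)) (by norm_num)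

def t10 : fdr 6 25 5315 3 507 60 = true := by decide +kernel

def t11 : fdr 6 25 5315 3 567 22 = true := by decide +kernel

theorem u29_0 : FPn 6 (2 * 0 + 3) 507 589 :=
  ((FPn_of t10 (by norm_num) (by norm_num) (by norm_num) (n1 := 567) rfl).trans (FPn_of t11 (by norm_num) (by norm_num) (by norm_num) (n1 := 589) rfl))

def t12 : fda 6 25 5315 1538 1785 1 1 = true := by decide +kernel

def t13 : fda 6 25 5315 1538 1785 2 1 = true := by decide +kernel

def t14 : fda 6 25 5315 1538 1785 3 2 = true := by decide +kernel

def t15 : fda 6 25 5315 1538 1785 5 3 = true := by decide +kernel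

def t16 : fda 6 25 5315 1538 1785 8 5 = true := by decide +kernel

def t17 : fda 6 25 5315 1538 1785 13 8 = true := by decide +kernel

def t18 : fda 6 25 5315 1538 1785 21 14 = true := by decide +kernel

def t19 : fda 6 25 5315 1538 1785 35 22 = true := by decide +kernel

def t20 : fda 6 25 5315 1538 1785 57 37 = true := by decide +kernel

def t21 : fda 6 25 5315 1538 1785 94 54 = true := by decide +kernel

theorem c29 : FPE 6 1538 1785 :=
  FP.toE (A := 148) (((((((((((FPn.toFP u29_0 (by norm_num) (by norm_num) (i1 := 1) rfl).trans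
    (FP_of t12 (by norm_num) (by norm_num) (i1 := 2) rfl)).trans
    (FP_of t13 (by norm_num) (by norm_num) (i1 := 3) rfl)).trans
    (FP_of t14 (by norm_num) (by norm_num) (i1 := 5) rfl)).trans
    (FP_of t15 (by norm_num) (by norm_num) (i1 := 8) rfl)).trans
    (FP_of t16 (by norm_num) (by norm_num) (i1 := 13) rfl)).trans
    (FP_of t17 (by norm_num) (by norm_num) (i1 := 21) rfl)).trans
    (FP_of t18 (by norm_num) (by norm_num) (i1 := 35) rfl)).trans
    (FP_of t19 (by norm_num) (by norm_num) (i1 := 57) rfl)).trans
    (FP_of t20 (by norm_num) (by norm_num) (i1 := 94) rfl)).trans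
    (FP_of t21 (by norm_num) (by norm_num) (i1 := 148) rfl)) (by norm_num)

def t22 : fdr 6 26 6179 3 589 60 = true := by decide +kernel

def t23 : fdr 6 26 6179 3 649 36 = true := by decide +kernel

theorem u30_0 : FPn 6 (2 * 0 + 3) 589 685 :=
  ((FPn_of t22 (by norm_num) (by norm_num) (by norm_num) (n1 := 649) rfl).trans (FPn_of t23 (by norm_num) (by norm_num) (by norm_num) (n1 := 685) rfl))

def t24 : fda 6 26 6179 1785 2071 1 1 = true := by decide +kernel

def t25 : fda 6 26 6179 1785 2071 2 1 = true := by decide +kernel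

def t26 : fda 6 26 6179 1785 2071 3 2 = true := by decide +kernel

def t27 : fda 6 26 6179 1785 2071 5 3 = true := by decide +kernel

def t28 : fda 6 26 6179 1785 2071 8 4 = true := by decide +kernel

def t29 : fda 6 26 6179 1785 2071 12 6 = true := by decide +kernel

def t30 : fda 6 26 6179 1785 2071 18 9 = true := by decide +kernel

def t31 : fda 6 26 6179 1785 2071 27 15 = true := by decide +kernel

def t32 : fda 6 26 6179 1785 2071 42 22 = true := by decide +kernel

def t33 : fda 6 26 6179 1785 2071 64 34 = true := by decide +kernel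

def t34 : fda 6 26 6179 1785 2071 98 51 = true := by decide +kernel

def t35 : fda 6 26 6179 1785 2071 149 23 = true := by decide +kernel

theorem c30 : FPE 6 1785 2071 :=
  FP.toE (A := 172) (((((((((((((FPn.toFP u30_0 (by norm_num) (by norm_num) (i1 := 1) rfl).trans
    (FP_of t24 (by norm_num) (by norm_num) (i1 := 2) rfl)).trans
    (FP_of t25 (by norm_num) (by norm_num) (i1 := 3) rfl)).trans
    (FP_of t26 (by norm_num) (by norm_num) (i1 := 5) rfl)).trans
    (FP_of t27 (by norm_num) (by norm_num) (i1 := 8) rfl)).trans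
    (FP_of t28 (by norm_num) (by norm_num) (i1 := 12) rfl)).trans
    (FP_of t29 (by norm_num) (by norm_num) (i1 := 18) rfl)).trans
    (FP_of t30 (by norm_num) (by norm_num) (i1 := 27) rfl)).trans
    (FP_of t31 (by norm_num) (by norm_num) (i1 := 42) rfl)).trans
    (FP_of t32 (by norm_num) (by norm_num) (i1 := 64) rfl)).trans
    (FP_of t33 (by norm_num) (by norm_num) (i1 := 98) rfl)).trans
    (FP_of t34 (by norm_num) (by norm_num) (i1 := 149) rfl)).trans
    (FP_of t35 (by norm_num) (by norm_num) (i1 := 172) rfl)) (by norm_num)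

def t36 : fdr 6 26 7169 3 685 60 = true := by decide +kernel

def t37 : fdr 6 26 7169 3 745 50 = true := by decide +kernel

theorem u31_0 : FPn 6 (2 * 0 + 3) 685 795 :=
  ((FPn_of t36 (by norm_num) (by norm_num) (by norm_num) (n1 := 745) rfl).trans (FPn_of t37 (by norm_num) (by norm_num) (by norm_num) (n1 := 795) rfl))

def t38 : fdr 6 26 7169 5 409 60 = true := by decide +kernel

def t39 : fdr 6 26 7169 5 469 6 = true := by decide +kernel

theorem u31_1 : FPn 6 (2 * 1 + 3) 409 475 :=
  ((FPn_of t38 (by norm_num) (by norm_num) (by norm_num) (n1 := 469) rfl).trans (FPn_of t39 (by norm_num) (by norm_num) (by norm_num) (n1 := 475) rfl))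

def t40 : fda 6 26 7169 2071 2403 2 1 = true := by decide +kernel

def t41 : fda 6 26 7169 2071 2403 3 1 = true := by decide +kernel

def t42 : fda 6 26 7169 2071 2403 4 2 = true := by decide +kernel

def t43 : fda 6 26 7169 2071 2403 6 3 = true := by decide +kernel

def t44 : fda 6 26 7169 2071 2403 9 4 = true := by decide +kernel

def t45 : fda 6 26 7169 2071 2403 13 6 = true := by decide +kernel

def t46 : fda 6 26 7169 2071 2403 19 8 = true := by decide +kernel

def t47 : fda 6 26 7169 2071 2403 27 12 = true := by decide +kernel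

def t48 : fda 6 26 7169 2071 2403 39 17 = true := by decide +kernel

def t49 : fda 6 26 7169 2071 2403 56 25 = true := by decide +kernel

def t50 : fda 6 26 7169 2071 2403 81 36 = true := by decide +kernel

def t51 : fda 6 26 7169 2071 2403 117 52 = true := by decide +kernel

def t52 : fda 6 26 7169 2071 2403 169 30 = true := by decide +kernel

theorem c31 : FPE 6 2071 2403 :=
  FP.toE (A := 199) (((((((((((((((FPn.toFP u31_0 (by norm_num) (by norm_num) (i1 := 1) rfl).trans
    (FPn.toFP u31_1 (by norm_num) (by norm_num) (i1 := 2) rfl)).trans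
    (FP_of t40 (by norm_num) (by norm_num) (i1 := 3) rfl)).trans
    (FP_of t41 (by norm_num) (by norm_num) (i1 := 4) rfl)).trans
    (FP_of t42 (by norm_num) (by norm_num) (i1 := 6) rfl)).trans
    (FP_of t43 (by norm_num) (by norm_num) (i1 := 9) rfl)).trans
    (FP_of t44 (by norm_num) (by norm_num) (i1 := 13) rfl)).trans
    (FP_of t45 (by norm_num) (by norm_num) (i1 := 19) rfl)).trans
    (FP_of t46 (by norm_num) (by norm_num) (i1 := 27) rfl)).trans
    (FP_of t47 (by norm_num) (by norm_num) (i1 := 39) rfl)).trans
    (FP_of t48 (by norm_num) (by norm_num) (i1 := 56) rfl)).trans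
    (FP_of t49 (by norm_num) (by norm_num) (i1 := 81) rfl)).trans
    (FP_of t50 (by norm_num) (by norm_num) (i1 := 117) rfl)).trans
    (FP_of t51 (by norm_num) (by norm_num) (i1 := 169) rfl)).trans
    (FP_of t52 (by norm_num) (by norm_num) (i1 := 199) rfl)) (by norm_num)

def t53 : fdr 6 26 8330 3 795 60 = true := by decide +kernel

def t54 : fdr 6 26 8330 3 855 60 = true := by decide +kernel

def t55 : fdr 6 26 8330 3 915 9 = true := by decide +kernel

theorem u32_0 : FPn 6 (2 * 0 + 3) 795 924 :=
  (((FPn_of t53 (by norm_num) (by norm_num) (by norm_num) (n1 := 855) rfl).trans (FPn_of t54 (by norm_num) (by norm_num) (by norm_num) (n1 := 915) rfl)).trans (FPn_of t55 (by norm_num) (by norm_num) (by norm_num) (n1 := 924) rfl))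

def t56 : fdr 6 26 8330 5 475 60 = true := by decide +kernel

def t57 : fdr 6 26 8330 5 535 17 = true := by decide +kernel

theorem u32_1 : FPn 6 (2 * 1 + 3) 475 552 :=
  ((FPn_of t56 (by norm_num) (by norm_num) (by norm_num) (n1 := 535) rfl).trans (FPn_of t57 (by norm_num) (by norm_num) (by norm_num) (n1 := 552) rfl))

def t58 : fda 6 26 8330 2403 2788 2 1 = true := by decide +kernel

def t59 : fda 6 26 8330 2403 2788 3 1 = true := by decide +kernel

def t60 : fda 6 26 8330 2403 2788 4 1 = true := by decide +kernel

def t61 : fda 6 26 8330 2403 2788 5 2 = true := by decide +kernel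

def t62 : fda 6 26 8330 2403 2788 7 3 = true := by decide +kernel

def t63 : fda 6 26 8330 2403 2788 10 3 = true := by decide +kernel

def t64 : fda 6 26 8330 2403 2788 13 5 = true := by decide +kernel

def t65 : fda 6 26 8330 2403 2788 18 7 = true := by decide +kernel

def t66 : fda 6 26 8330 2403 2788 25 9 = true := by decide +kernel

def t67 : fda 6 26 8330 2403 2788 34 12 = true := by decide +kernel

def t68 : fda 6 26 8330 2403 2788 46 16 = true := by decide +kernel

def t69 : fda 6 26 8330 2403 2788 62 23 = true := by decide +kernel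

def t70 : fda 6 26 8330 2403 2788 85 30 = true := by decide +kernel

def t71 : fda 6 26 8330 2403 2788 115 42 = true := by decide +kernel

def t72 : fda 6 26 8330 2403 2788 157 59 = true := by decide +kernel

def t73 : fda 6 26 8330 2403 2788 216 15 = true := by decide +kernel

theorem c32 : FPE 6 2403 2788 :=
  FP.toE (A := 231) ((((((((((((((((((FPn.toFP u32_0 (by norm_num) (by norm_num) (i1 := 1) rfl).trans
    (FPn.toFP u32_1 (by norm_num) (by norm_num) (i1 := 2) rfl)).trans
    (FP_of t58 (by norm_num) (by norm_num) (i1 := 3) rfl)).trans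
    (FP_of t59 (by norm_num) (by norm_num) (i1 := 4) rfl)).trans
    (FP_of t60 (by norm_num) (by norm_num) (i1 := 5) rfl)).trans
    (FP_of t61 (by norm_num) (by norm_num) (i1 := 7) rfl)).trans
    (FP_of t62 (by norm_num) (by norm_num) (i1 := 10) rfl)).trans
    (FP_of t63 (by norm_num) (by norm_num) (i1 := 13) rfl)).trans
    (FP_of t64 (by norm_num) (by norm_num) (i1 := 18) rfl)).trans
    (FP_of t65 (by norm_num) (by norm_num) (i1 := 25) rfl)).trans
    (FP_of t66 (by norm_num) (by norm_num) (i1 := 34) rfl)).trans
    (FP_of t67 (by norm_num) (by norm_num) (i1 := 46) rfl)).trans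
    (FP_of t68 (by norm_num) (by norm_num) (i1 := 62) rfl)).trans
    (FP_of t69 (by norm_num) (by norm_num) (i1 := 85) rfl)).trans
    (FP_of t70 (by norm_num) (by norm_num) (i1 := 115) rfl)).trans
    (FP_of t71 (by norm_num) (by norm_num) (i1 := 157) rfl)).trans
    (FP_of t72 (by norm_num) (by norm_num) (i1 := 216) rfl)).trans
    (FP_of t73 (by norm_num) (by norm_num) (i1 := 231) rfl)) (by norm_num)

theorem fe : FPE 6 1325 2788 :=
  ((((c28.trans c29).trans c30).trans c31).trans c32)

end Pool.Agent.SignedQ.KD.Fd6_1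
end

section

set_option autoImplicit false
set_option maxRecDepth 100000

namespace Pool.Agent.SignedQ.KD.Fd6_2

def t0 : fdr 6 27 9671 3 924 60 = true := by decide +kernel

def t1 : fdr 6 27 9671 3 984 60 = true := by decide +kernel

def t2 : fdr 6 27 9671 3 1044 29 = true := by decide +kernel

theorem u33_0 : FPn 6 (2 * 0 + 3) 924 1073 :=
  (((FPn_of t0 (by norm_num) (by norm_num) (by norm_num) (n1 := 984) rfl).trans (FPn_of t1 (by norm_num) (by norm_num) (by norm_num) (n1 := 1044) rfl)).trans (FPn_of t2 (by norm_num) (by norm_num) (by norm_num) (n1 := 1073) rfl))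

def t3 : fdr 6 27 9671 5 552 60 = true := by decide +kernel

def t4 : fdr 6 27 9671 5 612 29 = true := by decide +kernel

theorem u33_1 : FPn 6 (2 * 1 + 3) 552 641 :=
  ((FPn_of t3 (by norm_num) (by norm_num) (by norm_num) (n1 := 612) rfl).trans (FPn_of t4 (by norm_num) (by norm_num) (by norm_num) (n1 := 641) rfl))

def t5 : fdr 6 27 9671 7 393 60 = true := by decide +kernel

def t6 : fdr 6 27 9671 7 453 4 = true := by decide +kernel

theorem u33_2 : FPn 6 (2 * 2 + 3) 393 457 :=
  ((FPn_of t5 (by norm_num) (by norm_num) (by norm_num) (n1 := 453) rfl).trans (FPn_of t6 (by norm_num) (by norm_num) (by norm_num) (n1 := 457) rfl))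

def t7 : fda 6 27 9671 2788 3235 3 1 = true := by decide +kernel

def t8 : fda 6 27 9671 2788 3235 4 1 = true := by decide +kernel

def t9 : fda 6 27 9671 2788 3235 5 1 = true := by decide +kernel

def t10 : fda 6 27 9671 2788 3235 6 2 = true := by decide +kernel

def t11 : fda 6 27 9671 2788 3235 8 2 = true := by decide +kernel

def t12 : fda 6 27 9671 2788 3235 10 3 = true := by decide +kernel

def t13 : fda 6 27 9671 2788 3235 13 4 = true := by decide +kernel

def t14 : fda 6 27 9671 2788 3235 17 5 = true := by decide +kernel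

def t15 : fda 6 27 9671 2788 3235 22 7 = true := by decide +kernel

def t16 : fda 6 27 9671 2788 3235 29 9 = true := by decide +kernel

def t17 : fda 6 27 9671 2788 3235 38 12 = true := by decide +kernel

def t18 : fda 6 27 9671 2788 3235 50 15 = true := by decide +kernel

def t19 : fda 6 27 9671 2788 3235 65 20 = true := by decide +kernel

def t20 : fda 6 27 9671 2788 3235 85 26 = true := by decide +kernel

def t21 : fda 6 27 9671 2788 3235 111 33 = true := by decide +kernel

def t22 : fda 6 27 9671 2788 3235 144 45 = true := by decide +kernel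

def t23 : fda 6 27 9671 2788 3235 189 58 = true := by decide +kernel

def t24 : fda 6 27 9671 2788 3235 247 22 = true := by decide +kernel

theorem c33 : FPE 6 2788 3235 :=
  FP.toE (A := 269) (((((((((((((((((((((FPn.toFP u33_0 (by norm_num) (by norm_num) (i1 := 1) rfl).trans
    (FPn.toFP u33_1 (by norm_num) (by norm_num) (i1 := 2) rfl)).trans
    (FPn.toFP u33_2 (by norm_num) (by norm_num) (i1 := 3) rfl)).trans
    (FP_of t7 (by norm_num) (by norm_num) (i1 := 4) rfl)).trans
    (FP_of t8 (by norm_num) (by norm_num) (i1 := 5) rfl)).trans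
    (FP_of t9 (by norm_num) (by norm_num) (i1 := 6) rfl)).trans
    (FP_of t10 (by norm_num) (by norm_num) (i1 := 8) rfl)).trans
    (FP_of t11 (by norm_num) (by norm_num) (i1 := 10) rfl)).trans
    (FP_of t12 (by norm_num) (by norm_num) (i1 := 13) rfl)).trans
    (FP_of t13 (by norm_num) (by norm_num) (i1 := 17) rfl)).trans
    (FP_of t14 (by norm_num) (by norm_num) (i1 := 22) rfl)).trans
    (FP_of t15 (by norm_num) (by norm_num) (i1 := 29) rfl)).trans
    (FP_of t16 (by norm_num) (by norm_num) (i1 := 38) rfl)).trans
    (FP_of t17 (by norm_num) (by norm_num) (i1 := 50) rfl)).trans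
    (FP_of t18 (by norm_num) (by norm_num) (i1 := 65) rfl)).trans
    (FP_of t19 (by norm_num) (by norm_num) (i1 := 85) rfl)).trans
    (FP_of t20 (by norm_num) (by norm_num) (i1 := 111) rfl)).trans
    (FP_of t21 (by norm_num) (by norm_num) (i1 := 144) rfl)).trans
    (FP_of t22 (by norm_num) (by norm_num) (i1 := 189) rfl)).trans
    (FP_of t23 (by norm_num) (by norm_num) (i1 := 247) rfl)).trans
    (FP_of t24 (by norm_num) (by norm_num) (i1 := 269) rfl)) (by norm_num)

def t25 : fdr 6 27 10589 3 1073 60 = true := by decide +kernel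

def t26 : fdr 6 27 10589 3 1133 42 = true := by decide +kernel

theorem u34_0 : FPn 6 (2 * 0 + 3) 1073 1175 :=
  ((FPn_of t25 (by norm_num) (by norm_num) (by norm_num) (n1 := 1133) rfl).trans (FPn_of t26 (by norm_num) (by norm_num) (by norm_num) (n1 := 1175) rfl))

def t27 : fdr 6 27 10589 5 641 60 = true := by decide +kernel

def t28 : fdr 6 27 10589 5 701 2 = true := by decide +kernel

theorem u34_1 : FPn 6 (2 * 1 + 3) 641 703 :=
  ((FPn_of t27 (by norm_num) (by norm_num) (by norm_num) (n1 := 701) rfl).trans (FPn_of t28 (by norm_num) (by norm_num) (by norm_num) (n1 := 703) rfl))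

def t29 : fda 6 27 10589 3235 3543 2 1 = true := by decide +kernel

def t30 : fda 6 27 10589 3235 3543 3 1 = true := by decide +kernel

def t31 : fda 6 27 10589 3235 3543 4 2 = true := by decide +kernel

def t32 : fda 6 27 10589 3235 3543 6 3 = true := by decide +kernel

def t33 : fda 6 27 10589 3235 3543 9 4 = true := by decide +kernel

def t34 : fda 6 27 10589 3235 3543 13 6 = true := by decide +kernel

def t35 : fda 6 27 10589 3235 3543 19 9 = true := by decide +kernel

def t36 : fda 6 27 10589 3235 3543 28 13 = true := by decide +kernel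

def t37 : fda 6 27 10589 3235 3543 41 21 = true := by decide +kernel

def t38 : fda 6 27 10589 3235 3543 62 29 = true := by decide +kernel

def t39 : fda 6 27 10589 3235 3543 91 44 = true := by decide +kernel

def t40 : fda 6 27 10589 3235 3543 135 68 = true := by decide +kernel

def t41 : fda 6 27 10589 3235 3543 203 87 = true := by decide +kernel

def t42 : fda 6 27 10589 3235 3543 290 4 = true := by decide +kernel

theorem c34 : FPE 6 3235 3543 :=
  FP.toE (A := 294) ((((((((((((((((FPn.toFP u34_0 (by norm_num) (by norm_num) (i1 := 1) rfl).trans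
    (FPn.toFP u34_1 (by norm_num) (by norm_num) (i1 := 2) rfl)).trans
    (FP_of t29 (by norm_num) (by norm_num) (i1 := 3) rfl)).trans
    (FP_of t30 (by norm_num) (by norm_num) (i1 := 4) rfl)).trans
    (FP_of t31 (by norm_num) (by norm_num) (i1 := 6) rfl)).trans
    (FP_of t32 (by norm_num) (by norm_num) (i1 := 9) rfl)).trans
    (FP_of t33 (by norm_num) (by norm_num) (i1 := 13) rfl)).trans
    (FP_of t34 (by norm_num) (by norm_num) (i1 := 19) rfl)).trans
    (FP_of t35 (by norm_num) (by norm_num) (i1 := 28) rfl)).trans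
    (FP_of t36 (by norm_num) (by norm_num) (i1 := 41) rfl)).trans
    (FP_of t37 (by norm_num) (by norm_num) (i1 := 62) rfl)).trans
    (FP_of t38 (by norm_num) (by norm_num) (i1 := 91) rfl)).trans
    (FP_of t39 (by norm_num) (by norm_num) (i1 := 135) rfl)).trans
    (FP_of t40 (by norm_num) (by norm_num) (i1 := 203) rfl)).trans
    (FP_of t41 (by norm_num) (by norm_num) (i1 := 290) rfl)).trans
    (FP_of t42 (by norm_num) (by norm_num) (i1 := 294) rfl)) (by norm_num)

theorem fe : FPE 6 2788 3543 :=
  (c33.trans c34)

end Pool.Agent.SignedQ.KD.Fd6_2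
end

section

set_option autoImplicit false
set_option maxRecDepth 100000

namespace Pool.Agent.SignedQ.KD.Fd7_0

def t0 : fda 7 13 31 21 25 0 1 = true := by decide +kernel

theorem c0 : FPE 7 21 25 :=
  FP.toE (A := 1) (FP_of t0 (by norm_num) (by norm_num) (i1 := 1) rfl) (by norm_num)

def t1 : fda 7 14 52 25 29 0 1 = true := by decide +kernel

theorem c1 : FPE 7 25 29 :=
  FP.toE (A := 1) (FP_of t1 (by norm_num) (by norm_num) (i1 := 1) rfl) (by norm_num)

def t2 : fda 7 15 73 29 34 0 1 = true := by decide +kernel

theorem c2 : FPE 7 29 34 :=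
  FP.toE (A := 1) (FP_of t2 (by norm_num) (by norm_num) (i1 := 1) rfl) (by norm_num)

def t3 : fda 7 15 94 34 40 0 2 = true := by decide +kernel

theorem c3 : FPE 7 34 40 :=
  FP.toE (A := 2) (FP_of t3 (by norm_num) (by norm_num) (i1 := 2) rfl) (by norm_num)

def t4 : fda 7 16 115 40 47 0 2 = true := by decide +kernel

theorem c4 : FPE 7 40 47 :=
  FP.toE (A := 2) (FP_of t4 (by norm_num) (by norm_num) (i1 := 2) rfl) (by norm_num)

def t5 : fda 7 16 136 47 55 0 3 = true := by decide +kernel

theorem c5 : FPE 7 47 55 :=
  FP.toE (A := 3) (FP_of t5 (by norm_num) (by norm_num) (i1 := 3) rfl) (by norm_num)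

def t6 : fda 7 17 178 55 64 0 4 = true := by decide +kernel

theorem c6 : FPE 7 55 64 :=
  FP.toE (A := 4) (FP_of t6 (by norm_num) (by norm_num) (i1 := 4) rfl) (by norm_num)

def t7 : fda 7 17 199 64 75 0 4 = true := by decide +kernel

theorem c7 : FPE 7 64 75 :=
  FP.toE (A := 4) (FP_of t7 (by norm_num) (by norm_num) (i1 := 4) rfl) (by norm_num)

def t8 : fda 7 18 262 75 88 0 5 = true := by decide +kernel

theorem c8 : FPE 7 75 88 :=
  FP.toE (A := 5) (FP_of t8 (by norm_num) (by norm_num) (i1 := 5) rfl) (by norm_num)

def t9 : fda 7 18 304 88 103 0 6 = true := by decide +kernel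

theorem c9 : FPE 7 88 103 :=
  FP.toE (A := 6) (FP_of t9 (by norm_num) (by norm_num) (i1 := 6) rfl) (by norm_num)

def t10 : fda 7 19 367 103 120 0 8 = true := by decide +kernel

theorem c10 : FPE 7 103 120 :=
  FP.toE (A := 8) (FP_of t10 (by norm_num) (by norm_num) (i1 := 8) rfl) (by norm_num)

def t11 : fda 7 19 430 120 140 0 9 = true := by decide +kernel

theorem c11 : FPE 7 120 140 :=
  FP.toE (A := 9) (FP_of t11 (by norm_num) (by norm_num) (i1 := 9) rfl) (by norm_num)

def t12 : fda 7 20 514 140 163 0 11 = true := by decide +kernel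

theorem c12 : FPE 7 140 163 :=
  FP.toE (A := 11) (FP_of t12 (by norm_num) (by norm_num) (i1 := 11) rfl) (by norm_num)

def t13 : fda 7 20 619 163 190 0 13 = true := by decide +kernel

theorem c13 : FPE 7 163 190 :=
  FP.toE (A := 13) (FP_of t13 (by norm_num) (by norm_num) (i1 := 13) rfl) (by norm_num)

def t14 : fda 7 21 724 190 221 0 15 = true := by decide +kernel

theorem c14 : FPE 7 190 221 :=
  FP.toE (A := 15) (FP_of t14 (by norm_num) (by norm_num) (i1 := 15) rfl) (by norm_num)

def t15 : fda 7 21 850 221 257 0 17 = true := by decide +kernel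

theorem c15 : FPE 7 221 257 :=
  FP.toE (A := 17) (FP_of t15 (by norm_num) (by norm_num) (i1 := 17) rfl) (by norm_num)

def t16 : fda 7 22 997 257 299 0 20 = true := by decide +kernel

theorem c16 : FPE 7 257 299 :=
  FP.toE (A := 20) (FP_of t16 (by norm_num) (by norm_num) (i1 := 20) rfl) (by norm_num)

def t17 : fda 7 22 1165 299 347 0 24 = true := by decide +kernel

theorem c17 : FPE 7 299 347 :=
  FP.toE (A := 24) (FP_of t17 (by norm_num) (by norm_num) (i1 := 24) rfl) (by norm_num)

def t18 : fda 7 23 1354 347 403 0 28 = true := by decide +kernel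

theorem c18 : FPE 7 347 403 :=
  FP.toE (A := 28) (FP_of t18 (by norm_num) (by norm_num) (i1 := 28) rfl) (by norm_num)

def t19 : fda 7 23 1585 403 468 0 32 = true := by decide +kernel

theorem c19 : FPE 7 403 468 :=
  FP.toE (A := 32) (FP_of t19 (by norm_num) (by norm_num) (i1 := 32) rfl) (by norm_num)

def t20 : fda 7 23 1837 468 543 0 25 = true := by decide +kernel

def t21 : fda 7 23 1837 468 543 25 13 = true := by decide +kernel

theorem c20 : FPE 7 468 543 :=
  FP.toE (A := 38) ((FP_of t20 (by norm_num) (by norm_num) (i1 := 25) rfl).trans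
    (FP_of t21 (by norm_num) (by norm_num) (i1 := 38) rfl)) (by norm_num)

def t22 : fda 7 24 2152 543 630 0 13 = true := by decide +kernel

def t23 : fda 7 24 2152 543 630 13 31 = true := by decide +kernel

theorem c21 : FPE 7 543 630 :=
  FP.toE (A := 44) ((FP_of t22 (by norm_num) (by norm_num) (i1 := 13) rfl).trans
    (FP_of t23 (by norm_num) (by norm_num) (i1 := 44) rfl)) (by norm_num)

def t24 : fda 7 24 2509 630 731 0 11 = true := by decide +kernel

def t25 : fda 7 24 2509 630 731 11 40 = true := by decide +kernel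

theorem c22 : FPE 7 630 731 :=
  FP.toE (A := 51) ((FP_of t24 (by norm_num) (by norm_num) (i1 := 11) rfl).trans
    (FP_of t25 (by norm_num) (by norm_num) (i1 := 51) rfl)) (by norm_num)

def t26 : fda 7 25 2908 731 848 0 6 = true := by decide +kernel

def t27 : fda 7 25 2908 731 848 6 47 = true := by decide +kernel

def t28 : fda 7 25 2908 731 848 53 7 = true := by decide +kernel

theorem c23 : FPE 7 731 848 :=
  FP.toE (A := 60) (((FP_of t26 (by norm_num) (by norm_num) (i1 := 6) rfl).trans
    (FP_of t27 (by norm_num) (by norm_num) (i1 := 53) rfl)).trans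
    (FP_of t28 (by norm_num) (by norm_num) (i1 := 60) rfl)) (by norm_num)

def t29 : fda 7 25 3391 848 984 0 5 = true := by decide +kernel

def t30 : fda 7 25 3391 848 984 5 29 = true := by decide +kernel

def t31 : fda 7 25 3391 848 984 34 35 = true := by decide +kernel

theorem c24 : FPE 7 848 984 :=
  FP.toE (A := 69) (((FP_of t29 (by norm_num) (by norm_num) (i1 := 5) rfl).trans
    (FP_of t30 (by norm_num) (by norm_num) (i1 := 34) rfl)).trans
    (FP_of t31 (by norm_num) (by norm_num) (i1 := 69) rfl)) (by norm_num)

def t32 : fda 7 26 3937 984 1142 0 3 = true := by decide +kernel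

def t33 : fda 7 26 3937 984 1142 3 15 = true := by decide +kernel

def t34 : fda 7 26 3937 984 1142 18 62 = true := by decide +kernel

def t35 : fda 7 26 3937 984 1142 80 1 = true := by decide +kernel

theorem c25 : FPE 7 984 1142 :=
  FP.toE (A := 81) ((((FP_of t32 (by norm_num) (by norm_num) (i1 := 3) rfl).trans
    (FP_of t33 (by norm_num) (by norm_num) (i1 := 18) rfl)).trans
    (FP_of t34 (by norm_num) (by norm_num) (i1 := 80) rfl)).trans
    (FP_of t35 (by norm_num) (by norm_num) (i1 := 81) rfl)) (by norm_num)

def t36 : fda 7 26 4588 1142 1325 0 2 = true := by decide +kernel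

def t37 : fda 7 26 4588 1142 1325 2 8 = true := by decide +kernel

def t38 : fda 7 26 4588 1142 1325 10 29 = true := by decide +kernel

def t39 : fda 7 26 4588 1142 1325 39 55 = true := by decide +kernel

theorem c26 : FPE 7 1142 1325 :=
  FP.toE (A := 94) ((((FP_of t36 (by norm_num) (by norm_num) (i1 := 2) rfl).trans
    (FP_of t37 (by norm_num) (by norm_num) (i1 := 10) rfl)).trans
    (FP_of t38 (by norm_num) (by norm_num) (i1 := 39) rfl)).trans
    (FP_of t39 (by norm_num) (by norm_num) (i1 := 94) rfl)) (by norm_num)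

def t40 : fda 7 27 5323 1325 1538 0 2 = true := by decide +kernel

def t41 : fda 7 27 5323 1325 1538 2 6 = true := by decide +kernel

def t42 : fda 7 27 5323 1325 1538 8 18 = true := by decide +kernel

def t43 : fda 7 27 5323 1325 1538 26 57 = true := by decide +kernel

def t44 : fda 7 27 5323 1325 1538 83 26 = true := by decide +kernel

theorem c27 : FPE 7 1325 1538 :=
  FP.toE (A := 109) (((((FP_of t40 (by norm_num) (by norm_num) (i1 := 2) rfl).trans
    (FP_of t41 (by norm_num) (by norm_num) (i1 := 8) rfl)).trans
    (FP_of t42 (by norm_num) (by norm_num) (i1 := 26) rfl)).trans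
    (FP_of t43 (by norm_num) (by norm_num) (i1 := 83) rfl)).trans
    (FP_of t44 (by norm_num) (by norm_num) (i1 := 109) rfl)) (by norm_num)

def t45 : fda 7 27 6184 1538 1785 0 1 = true := by decide +kernel

def t46 : fda 7 27 6184 1538 1785 1 3 = true := by decide +kernel

def t47 : fda 7 27 6184 1538 1785 4 8 = true := by decide +kernel

def t48 : fda 7 27 6184 1538 1785 12 21 = true := by decide +kernel

def t49 : fda 7 27 6184 1538 1785 33 56 = true := by decide +kernel

def t50 : fda 7 27 6184 1538 1785 89 37 = true := by decide +kernel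

theorem c28 : FPE 7 1538 1785 :=
  FP.toE (A := 126) ((((((FP_of t45 (by norm_num) (by norm_num) (i1 := 1) rfl).trans
    (FP_of t46 (by norm_num) (by norm_num) (i1 := 4) rfl)).trans
    (FP_of t47 (by norm_num) (by norm_num) (i1 := 12) rfl)).trans
    (FP_of t48 (by norm_num) (by norm_num) (i1 := 33) rfl)).trans
    (FP_of t49 (by norm_num) (by norm_num) (i1 := 89) rfl)).trans
    (FP_of t50 (by norm_num) (by norm_num) (i1 := 126) rfl)) (by norm_num)

def t51 : fda 7 27 7192 1785 2071 0 1 = true := by decide +kernel

def t52 : fda 7 27 7192 1785 2071 1 2 = true := by decide +kernel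

def t53 : fda 7 27 7192 1785 2071 3 5 = true := by decide +kernel

def t54 : fda 7 27 7192 1785 2071 8 12 = true := by decide +kernel

def t55 : fda 7 27 7192 1785 2071 20 28 = true := by decide +kernel

def t56 : fda 7 27 7192 1785 2071 48 62 = true := by decide +kernel

def t57 : fda 7 27 7192 1785 2071 110 37 = true := by decide +kernel

theorem c29 : FPE 7 1785 2071 :=
  FP.toE (A := 147) (((((((FP_of t51 (by norm_num) (by norm_num) (i1 := 1) rfl).trans
    (FP_of t52 (by norm_num) (by norm_num) (i1 := 3) rfl)).trans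
    (FP_of t53 (by norm_num) (by norm_num) (i1 := 8) rfl)).trans
    (FP_of t54 (by norm_num) (by norm_num) (i1 := 20) rfl)).trans
    (FP_of t55 (by norm_num) (by norm_num) (i1 := 48) rfl)).trans
    (FP_of t56 (by norm_num) (by norm_num) (i1 := 110) rfl)).trans
    (FP_of t57 (by norm_num) (by norm_num) (i1 := 147) rfl)) (by norm_num)

def t58 : fda 7 28 8347 2071 2403 0 1 = true := by decide +kernel

def t59 : fda 7 28 8347 2071 2403 1 2 = true := by decide +kernel

def t60 : fda 7 28 8347 2071 2403 3 4 = true := by decide +kernel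

def t61 : fda 7 28 8347 2071 2403 7 8 = true := by decide +kernel

def t62 : fda 7 28 8347 2071 2403 15 17 = true := by decide +kernel

def t63 : fda 7 28 8347 2071 2403 32 36 = true := by decide +kernel

def t64 : fda 7 28 8347 2071 2403 68 81 = true := by decide +kernel

def t65 : fda 7 28 8347 2071 2403 149 22 = true := by decide +kernel

theorem c30 : FPE 7 2071 2403 :=
  FP.toE (A := 171) ((((((((FP_of t58 (by norm_num) (by norm_num) (i1 := 1) rfl).trans
    (FP_of t59 (by norm_num) (by norm_num) (i1 := 3) rfl)).trans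
    (FP_of t60 (by norm_num) (by norm_num) (i1 := 7) rfl)).trans
    (FP_of t61 (by norm_num) (by norm_num) (i1 := 15) rfl)).trans
    (FP_of t62 (by norm_num) (by norm_num) (i1 := 32) rfl)).trans
    (FP_of t63 (by norm_num) (by norm_num) (i1 := 68) rfl)).trans
    (FP_of t64 (by norm_num) (by norm_num) (i1 := 149) rfl)).trans
    (FP_of t65 (by norm_num) (by norm_num) (i1 := 171) rfl)) (by norm_num)

theorem fe : FPE 7 21 2403 :=
  ((((((((((((((((((((((((((((((c0.trans c1).trans c2).trans c3).trans c4).trans c5).trans c6).trans c7).trans c8).trans c9).trans c10).trans c11).trans c12).trans c13).trans c14).trans c15).trans c16).trans c17).trans c18).trans c19).trans c20).trans c21).trans c22).trans c23).trans c24).trans c25).trans c26).trans c27).trans c28).trans c29).trans c30)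

end Pool.Agent.SignedQ.KD.Fd7_0
end

section

set_option autoImplicit false
set_option maxRecDepth 100000

namespace Pool.Agent.SignedQ.KD.Fd9_1

def t0 : fdr 9 40 13710 3 872 120 = true := by decide +kernel

def t1 : fdr 9 40 13710 3 992 21 = true := by decide +kernel

theorem u30_0 : FPn 9 (2 * 0 + 3) 872 1013 :=
  ((FPn_of t0 (by norm_num) (by norm_num) (by norm_num) (n1 := 992) rfl).trans (FPn_of t1 (by norm_num) (by norm_num) (by norm_num) (n1 := 1013) rfl))

def t2 : fda 9 40 13710 2641 3064 1 1 = true := by decide +kernel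

def t3 : fda 9 40 13710 2641 3064 2 2 = true := by decide +kernel

def t4 : fda 9 40 13710 2641 3064 4 3 = true := by decide +kernel

def t5 : fda 9 40 13710 2641 3064 7 6 = true := by decide +kernel

def t6 : fda 9 40 13710 2641 3064 13 11 = true := by decide +kernel

def t7 : fda 9 40 13710 2641 3064 24 19 = true := by decide +kernel

def t8 : fda 9 40 13710 2641 3064 43 34 = true := by decide +kernel

def t9 : fda 9 40 13710 2641 3064 77 57 = true := by decide +kernel

def t10 : fda 9 40 13710 2641 3064 134 35 = true := by decide +kernel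

theorem c30 : FPE 9 2641 3064 :=
  FP.toE (A := 169) ((((((((((FPn.toFP u30_0 (by norm_num) (by norm_num) (i1 := 1) rfl).trans
    (FP_of t2 (by norm_num) (by norm_num) (i1 := 2) rfl)).trans
    (FP_of t3 (by norm_num) (by norm_num) (i1 := 4) rfl)).trans
    (FP_of t4 (by norm_num) (by norm_num) (i1 := 7) rfl)).trans
    (FP_of t5 (by norm_num) (by norm_num) (i1 := 13) rfl)).trans
    (FP_of t6 (by norm_num) (by norm_num) (i1 := 24) rfl)).trans
    (FP_of t7 (by norm_num) (by norm_num) (i1 := 43) rfl)).trans
    (FP_of t8 (by norm_num) (by norm_num) (i1 := 77) rfl)).trans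
    (FP_of t9 (by norm_num) (by norm_num) (i1 := 134) rfl)).trans
    (FP_of t10 (by norm_num) (by norm_num) (i1 := 169) rfl)) (by norm_num)

def t11 : fdr 9 41 15897 3 1013 121 = true := by decide +kernel

def t12 : fdr 9 41 15897 3 1134 42 = true := by decide +kernel

theorem u31_0 : FPn 9 (2 * 0 + 3) 1013 1176 :=
  ((FPn_of t11 (by norm_num) (by norm_num) (by norm_num) (n1 := 1134) rfl).trans (FPn_of t12 (by norm_num) (by norm_num) (by norm_num) (n1 := 1176) rfl))

def t13 : fda 9 41 15897 3064 3555 1 1 = true := by decide +kernel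

def t14 : fda 9 41 15897 3064 3555 2 1 = true := by decide +kernel

def t15 : fda 9 41 15897 3064 3555 3 2 = true := by decide +kernel

def t16 : fda 9 41 15897 3064 3555 5 3 = true := by decide +kernel

def t17 : fda 9 41 15897 3064 3555 8 5 = true := by decide +kernel

def t18 : fda 9 41 15897 3064 3555 13 8 = true := by decide +kernel

def t19 : fda 9 41 15897 3064 3555 21 14 = true := by decide +kernel

def t20 : fda 9 41 15897 3064 3555 35 22 = true := by decide +kernel

def t21 : fda 9 41 15897 3064 3555 57 36 = true := by decide +kernel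

def t22 : fda 9 41 15897 3064 3555 93 59 = true := by decide +kernel

def t23 : fda 9 41 15897 3064 3555 152 44 = true := by decide +kernel

theorem c31 : FPE 9 3064 3555 :=
  FP.toE (A := 196) ((((((((((((FPn.toFP u31_0 (by norm_num) (by norm_num) (i1 := 1) rfl).trans
    (FP_of t13 (by norm_num) (by norm_num) (i1 := 2) rfl)).trans
    (FP_of t14 (by norm_num) (by norm_num) (i1 := 3) rfl)).trans
    (FP_of t15 (by norm_num) (by norm_num) (i1 := 5) rfl)).trans
    (FP_of t16 (by norm_num) (by norm_num) (i1 := 8) rfl)).trans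
    (FP_of t17 (by norm_num) (by norm_num) (i1 := 13) rfl)).trans
    (FP_of t18 (by norm_num) (by norm_num) (i1 := 21) rfl)).trans
    (FP_of t19 (by norm_num) (by norm_num) (i1 := 35) rfl)).trans
    (FP_of t20 (by norm_num) (by norm_num) (i1 := 57) rfl)).trans
    (FP_of t21 (by norm_num) (by norm_num) (i1 := 93) rfl)).trans
    (FP_of t22 (by norm_num) (by norm_num) (i1 := 152) rfl)).trans
    (FP_of t23 (by norm_num) (by norm_num) (i1 := 196) rfl)) (by norm_num)

def t24 : fdr 9 41 18462 3 1176 120 = true := by decide +kernel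

def t25 : fdr 9 41 18462 3 1296 70 = true := by decide +kernel

theorem u32_0 : FPn 9 (2 * 0 + 3) 1176 1366 :=
  ((FPn_of t24 (by norm_num) (by norm_num) (by norm_num) (n1 := 1296) rfl).trans (FPn_of t25 (by norm_num) (by norm_num) (by norm_num) (n1 := 1366) rfl))

def t26 : fda 9 41 18462 3555 4124 1 1 = true := by decide +kernel

def t27 : fda 9 41 18462 3555 4124 2 1 = true := by decide +kernel

def t28 : fda 9 41 18462 3555 4124 3 2 = true := by decide +kernel

def t29 : fda 9 41 18462 3555 4124 5 3 = true := by decide +kernel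

def t30 : fda 9 41 18462 3555 4124 8 4 = true := by decide +kernel

def t31 : fda 9 41 18462 3555 4124 12 6 = true := by decide +kernel

def t32 : fda 9 41 18462 3555 4124 18 10 = true := by decide +kernel

def t33 : fda 9 41 18462 3555 4124 28 14 = true := by decide +kernel

def t34 : fda 9 41 18462 3555 4124 42 22 = true := by decide +kernel

def t35 : fda 9 41 18462 3555 4124 64 34 = true := by decide +kernel

def t36 : fda 9 41 18462 3555 4124 98 53 = true := by decide +kernel

def t37 : fda 9 41 18462 3555 4124 151 73 = true := by decide +kernel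

def t38 : fda 9 41 18462 3555 4124 224 4 = true := by decide +kernel

theorem c32 : FPE 9 3555 4124 :=
  FP.toE (A := 228) ((((((((((((((FPn.toFP u32_0 (by norm_num) (by norm_num) (i1 := 1) rfl).trans
    (FP_of t26 (by norm_num) (by norm_num) (i1 := 2) rfl)).trans
    (FP_of t27 (by norm_num) (by norm_num) (i1 := 3) rfl)).trans
    (FP_of t28 (by norm_num) (by norm_num) (i1 := 5) rfl)).trans
    (FP_of t29 (by norm_num) (by norm_num) (i1 := 8) rfl)).trans
    (FP_of t30 (by norm_num) (by norm_num) (i1 := 12) rfl)).trans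
    (FP_of t31 (by norm_num) (by norm_num) (i1 := 18) rfl)).trans
    (FP_of t32 (by norm_num) (by norm_num) (i1 := 28) rfl)).trans
    (FP_of t33 (by norm_num) (by norm_num) (i1 := 42) rfl)).trans
    (FP_of t34 (by norm_num) (by norm_num) (i1 := 64) rfl)).trans
    (FP_of t35 (by norm_num) (by norm_num) (i1 := 98) rfl)).trans
    (FP_of t36 (by norm_num) (by norm_num) (i1 := 151) rfl)).trans
    (FP_of t37 (by norm_num) (by norm_num) (i1 := 224) rfl)).trans
    (FP_of t38 (by norm_num) (by norm_num) (i1 := 228) rfl)) (by norm_num)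

def t39 : fdr 9 42 21135 3 1366 120 = true := by decide +kernel

def t40 : fdr 9 42 21135 3 1486 78 = true := by decide +kernel

theorem u33_0 : FPn 9 (2 * 0 + 3) 1366 1564 :=
  ((FPn_of t39 (by norm_num) (by norm_num) (by norm_num) (n1 := 1486) rfl).trans (FPn_of t40 (by norm_num) (by norm_num) (by norm_num) (n1 := 1564) rfl))

def t41 : fda 9 42 21135 4124 4719 1 1 = true := by decide +kernel

def t42 : fda 9 42 21135 4124 4719 2 1 = true := by decide +kernel

def t43 : fda 9 42 21135 4124 4719 3 2 = true := by decide +kernel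

def t44 : fda 9 42 21135 4124 4719 5 3 = true := by decide +kernel

def t45 : fda 9 42 21135 4124 4719 8 4 = true := by decide +kernel

def t46 : fda 9 42 21135 4124 4719 12 6 = true := by decide +kernel

def t47 : fda 9 42 21135 4124 4719 18 9 = true := by decide +kernel

def t48 : fda 9 42 21135 4124 4719 27 14 = true := by decide +kernel

def t49 : fda 9 42 21135 4124 4719 41 21 = true := by decide +kernel

def t50 : fda 9 42 21135 4124 4719 62 32 = true := by decide +kernel

def t51 : fda 9 42 21135 4124 4719 94 47 = true := by decide +kernel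

def t52 : fda 9 42 21135 4124 4719 141 68 = true := by decide +kernel

def t53 : fda 9 42 21135 4124 4719 209 52 = true := by decide +kernel

theorem c33 : FPE 9 4124 4719 :=
  FP.toE (A := 261) ((((((((((((((FPn.toFP u33_0 (by norm_num) (by norm_num) (i1 := 1) rfl).trans
    (FP_of t41 (by norm_num) (by norm_num) (i1 := 2) rfl)).trans
    (FP_of t42 (by norm_num) (by norm_num) (i1 := 3) rfl)).trans
    (FP_of t43 (by norm_num) (by norm_num) (i1 := 5) rfl)).trans
    (FP_of t44 (by norm_num) (by norm_num) (i1 := 8) rfl)).trans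
    (FP_of t45 (by norm_num) (by norm_num) (i1 := 12) rfl)).trans
    (FP_of t46 (by norm_num) (by norm_num) (i1 := 18) rfl)).trans
    (FP_of t47 (by norm_num) (by norm_num) (i1 := 27) rfl)).trans
    (FP_of t48 (by norm_num) (by norm_num) (i1 := 41) rfl)).trans
    (FP_of t49 (by norm_num) (by norm_num) (i1 := 62) rfl)).trans
    (FP_of t50 (by norm_num) (by norm_num) (i1 := 94) rfl)).trans
    (FP_of t51 (by norm_num) (by norm_num) (i1 := 141) rfl)).trans
    (FP_of t52 (by norm_num) (by norm_num) (i1 := 209) rfl)).trans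
    (FP_of t53 (by norm_num) (by norm_num) (i1 := 261) rfl)) (by norm_num)

theorem fe : FPE 9 2641 4719 :=
  (((c30.trans c31).trans c32).trans c33)

end Pool.Agent.SignedQ.KD.Fd9_1
end
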