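import Pool.Agent.Lib.MP_cf17a0_co.Mg.G059

section

set_option autoImplicit false
set_option maxRecDepth 100000

namespace Pool.Agent.SignedQ.KD.Fd7_1

def t0 : fdr 7 28 9712 3 794 120 = true := by decide +kernel

def t1 : fdr 7 28 9712 3 914 9 = true := by decide +kernel

theorem u31_0 : FPn 7 (2 * 0 + 3) 794 923 :=
  ((FPn_of t0 (by norm_num) (by norm_num) (by norm_num) (n1 := 914) rfl).trans (FPn_of t1 (by norm_num) (by norm_num) (by norm_num) (n1 := 923) rfl))

def t2 : fda 7 28 9712 2403 2788 1 1 = true := by decide +kernel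

def t3 : fda 7 28 9712 2403 2788 2 2 = true := by decide +kernel

def t4 : fda 7 28 9712 2403 2788 4 4 = true := by decide +kernel

def t5 : fda 7 28 9712 2403 2788 8 7 = true := by decide +kernel

def t6 : fda 7 28 9712 2403 2788 15 14 = true := by decide +kernel

def t7 : fda 7 28 9712 2403 2788 29 24 = true := by decide +kernel

def t8 : fda 7 28 9712 2403 2788 53 46 = true := by decide +kernel

def t9 : fda 7 28 9712 2403 2788 99 85 = true := by decide +kernel

def t10 : fda 7 28 9712 2403 2788 184 14 = true := by decide +kernel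

theorem c31 : FPE 7 2403 2788 :=
  FP.toE (A := 198) ((((((((((FPn.toFP u31_0 (by norm_num) (by norm_num) (i1 := 1) rfl).trans
    (FP_of t2 (by norm_num) (by norm_num) (i1 := 2) rfl)).trans
    (FP_of t3 (by norm_num) (by norm_num) (i1 := 4) rfl)).trans
    (FP_of t4 (by norm_num) (by norm_num) (i1 := 8) rfl)).trans
    (FP_of t5 (by norm_num) (by norm_num) (i1 := 15) rfl)).trans
    (FP_of t6 (by norm_num) (by norm_num) (i1 := 29) rfl)).trans
    (FP_of t7 (by norm_num) (by norm_num) (i1 := 53) rfl)).trans
    (FP_of t8 (by norm_num) (by norm_num) (i1 := 99) rfl)).trans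
    (FP_of t9 (by norm_num) (by norm_num) (i1 := 184) rfl)).trans
    (FP_of t10 (by norm_num) (by norm_num) (i1 := 198) rfl)) (by norm_num)

def t11 : fdr 7 29 11266 3 923 121 = true := by decide +kernel

def t12 : fdr 7 29 11266 3 1044 28 = true := by decide +kernel

theorem u32_0 : FPn 7 (2 * 0 + 3) 923 1072 :=
  ((FPn_of t11 (by norm_num) (by norm_num) (by norm_num) (n1 := 1044) rfl).trans (FPn_of t12 (by norm_num) (by norm_num) (by norm_num) (n1 := 1072) rfl))

def t13 : fda 7 29 11266 2788 3235 1 1 = true := by decide +kernel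

def t14 : fda 7 29 11266 2788 3235 2 2 = true := by decide +kernel

def t15 : fda 7 29 11266 2788 3235 4 3 = true := by decide +kernel

def t16 : fda 7 29 11266 2788 3235 7 5 = true := by decide +kernel

def t17 : fda 7 29 11266 2788 3235 12 9 = true := by decide +kernel

def t18 : fda 7 29 11266 2788 3235 21 15 = true := by decide +kernel

def t19 : fda 7 29 11266 2788 3235 36 27 = true := by decide +kernel

def t20 : fda 7 29 11266 2788 3235 63 45 = true := by decide +kernel

def t21 : fda 7 29 11266 2788 3235 108 90 = true := by decide +kernel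

def t22 : fda 7 29 11266 2788 3235 198 32 = true := by decide +kernel

theorem c32 : FPE 7 2788 3235 :=
  FP.toE (A := 230) (((((((((((FPn.toFP u32_0 (by norm_num) (by norm_num) (i1 := 1) rfl).trans
    (FP_of t13 (by norm_num) (by norm_num) (i1 := 2) rfl)).trans
    (FP_of t14 (by norm_num) (by norm_num) (i1 := 4) rfl)).trans
    (FP_of t15 (by norm_num) (by norm_num) (i1 := 7) rfl)).trans
    (FP_of t16 (by norm_num) (by norm_num) (i1 := 12) rfl)).trans
    (FP_of t17 (by norm_num) (by norm_num) (i1 := 21) rfl)).trans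
    (FP_of t18 (by norm_num) (by norm_num) (i1 := 36) rfl)).trans
    (FP_of t19 (by norm_num) (by norm_num) (i1 := 63) rfl)).trans
    (FP_of t20 (by norm_num) (by norm_num) (i1 := 108) rfl)).trans
    (FP_of t21 (by norm_num) (by norm_num) (i1 := 198) rfl)).trans
    (FP_of t22 (by norm_num) (by norm_num) (i1 := 230) rfl)) (by norm_num)

def t23 : fdr 7 29 13072 3 1072 120 = true := by decide +kernel

def t24 : fdr 7 29 13072 3 1192 52 = true := by decide +kernel

theorem u33_0 : FPn 7 (2 * 0 + 3) 1072 1244 :=
  ((FPn_of t23 (by norm_num) (by norm_num) (by norm_num) (n1 := 1192) rfl).trans (FPn_of t24 (by norm_num) (by norm_num) (by norm_num) (n1 := 1244) rfl))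

def t25 : fda 7 29 13072 3235 3753 1 1 = true := by decide +kernel

def t26 : fda 7 29 13072 3235 3753 2 1 = true := by decide +kernel

def t27 : fda 7 29 13072 3235 3753 3 2 = true := by decide +kernel

def t28 : fda 7 29 13072 3235 3753 5 3 = true := by decide +kernel

def t29 : fda 7 29 13072 3235 3753 8 5 = true := by decide +kernel

def t30 : fda 7 29 13072 3235 3753 13 7 = true := by decide +kernel

def t31 : fda 7 29 13072 3235 3753 20 12 = true := by decide +kernel

def t32 : fda 7 29 13072 3235 3753 32 19 = true := by decide +kernel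

def t33 : fda 7 29 13072 3235 3753 51 29 = true := by decide +kernel

def t34 : fda 7 29 13072 3235 3753 80 48 = true := by decide +kernel

def t35 : fda 7 29 13072 3235 3753 128 72 = true := by decide +kernel

def t36 : fda 7 29 13072 3235 3753 200 67 = true := by decide +kernel

theorem c33 : FPE 7 3235 3753 :=
  FP.toE (A := 267) (((((((((((((FPn.toFP u33_0 (by norm_num) (by norm_num) (i1 := 1) rfl).trans
    (FP_of t25 (by norm_num) (by norm_num) (i1 := 2) rfl)).trans
    (FP_of t26 (by norm_num) (by norm_num) (i1 := 3) rfl)).trans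
    (FP_of t27 (by norm_num) (by norm_num) (i1 := 5) rfl)).trans
    (FP_of t28 (by norm_num) (by norm_num) (i1 := 8) rfl)).trans
    (FP_of t29 (by norm_num) (by norm_num) (i1 := 13) rfl)).trans
    (FP_of t30 (by norm_num) (by norm_num) (i1 := 20) rfl)).trans
    (FP_of t31 (by norm_num) (by norm_num) (i1 := 32) rfl)).trans
    (FP_of t32 (by norm_num) (by norm_num) (i1 := 51) rfl)).trans
    (FP_of t33 (by norm_num) (by norm_num) (i1 := 80) rfl)).trans
    (FP_of t34 (by norm_num) (by norm_num) (i1 := 128) rfl)).trans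
    (FP_of t35 (by norm_num) (by norm_num) (i1 := 200) rfl)).trans
    (FP_of t36 (by norm_num) (by norm_num) (i1 := 267) rfl)) (by norm_num)

def t37 : fda 7 29 13576 3753 3894 0 4 = true := by decide +kernel

def t38 : fda 7 29 13576 3753 3894 4 23 = true := by decide +kernel

def t39 : fda 7 29 13576 3753 3894 27 143 = true := by decide +kernel

def t40 : fda 7 29 13576 3753 3894 170 107 = true := by decide +kernel

theorem c34 : FPE 7 3753 3894 :=
  FP.toE (A := 277) ((((FP_of t37 (by norm_num) (by norm_num) (i1 := 4) rfl).trans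
    (FP_of t38 (by norm_num) (by norm_num) (i1 := 27) rfl)).trans
    (FP_of t39 (by norm_num) (by norm_num) (i1 := 170) rfl)).trans
    (FP_of t40 (by norm_num) (by norm_num) (i1 := 277) rfl)) (by norm_num)

theorem fe : FPE 7 2403 3894 :=
  (((c31.trans c32).trans c33).trans c34)

end Pool.Agent.SignedQ.KD.Fd7_1
end

section

set_option autoImplicit false
set_option maxRecDepth 100000

namespace Pool.Agent.SignedQ.KD.Fd8_0

def t0 : fda 8 15 51 24 28 0 1 = true := by decide +kernel

theorem c0 : FPE 8 24 28 :=
  FP.toE (A := 1) (FP_of t0 (by norm_num) (by norm_num) (i1 := 1) rfl) (by norm_num)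

def t1 : fda 8 16 63 28 33 0 1 = true := by decide +kernel

theorem c1 : FPE 8 28 33 :=
  FP.toE (A := 1) (FP_of t1 (by norm_num) (by norm_num) (i1 := 1) rfl) (by norm_num)

def t2 : fda 8 18 87 33 39 0 1 = true := by decide +kernel

theorem c2 : FPE 8 33 39 :=
  FP.toE (A := 1) (FP_of t2 (by norm_num) (by norm_num) (i1 := 1) rfl) (by norm_num)

def t3 : fda 8 18 123 39 46 0 2 = true := by decide +kernel

theorem c3 : FPE 8 39 46 :=
  FP.toE (A := 2) (FP_of t3 (by norm_num) (by norm_num) (i1 := 2) rfl) (by norm_num)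

def t4 : fda 8 19 147 46 54 0 2 = true := by decide +kernel

theorem c4 : FPE 8 46 54 :=
  FP.toE (A := 2) (FP_of t4 (by norm_num) (by norm_num) (i1 := 2) rfl) (by norm_num)

def t5 : fda 8 20 183 54 63 0 3 = true := by decide +kernel

theorem c5 : FPE 8 54 63 :=
  FP.toE (A := 3) (FP_of t5 (by norm_num) (by norm_num) (i1 := 3) rfl) (by norm_num)

def t6 : fda 8 21 231 63 74 0 4 = true := by decide +kernel

theorem c6 : FPE 8 63 74 :=
  FP.toE (A := 4) (FP_of t6 (by norm_num) (by norm_num) (i1 := 4) rfl) (by norm_num)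

def t7 : fda 8 22 279 74 86 0 4 = true := by decide +kernel

theorem c7 : FPE 8 74 86 :=
  FP.toE (A := 4) (FP_of t7 (by norm_num) (by norm_num) (i1 := 4) rfl) (by norm_num)

def t8 : fda 8 23 339 86 100 0 5 = true := by decide +kernel

theorem c8 : FPE 8 86 100 :=
  FP.toE (A := 5) (FP_of t8 (by norm_num) (by norm_num) (i1 := 5) rfl) (by norm_num)

def t9 : fda 8 23 399 100 116 0 6 = true := by decide +kernel

theorem c9 : FPE 8 100 116 :=
  FP.toE (A := 6) (FP_of t9 (by norm_num) (by norm_num) (i1 := 6) rfl) (by norm_num)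

def t10 : fda 8 24 471 116 135 0 7 = true := by decide +kernel

theorem c10 : FPE 8 116 135 :=
  FP.toE (A := 7) (FP_of t10 (by norm_num) (by norm_num) (i1 := 7) rfl) (by norm_num)

def t11 : fda 8 25 567 135 157 0 9 = true := by decide +kernel

theorem c11 : FPE 8 135 157 :=
  FP.toE (A := 9) (FP_of t11 (by norm_num) (by norm_num) (i1 := 9) rfl) (by norm_num)

def t12 : fda 8 26 663 157 183 0 10 = true := by decide +kernel

theorem c12 : FPE 8 157 183 :=
  FP.toE (A := 10) (FP_of t12 (by norm_num) (by norm_num) (i1 := 10) rfl) (by norm_num)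

def t13 : fda 8 26 783 183 213 0 12 = true := by decide +kernel

theorem c13 : FPE 8 183 213 :=
  FP.toE (A := 12) (FP_of t13 (by norm_num) (by norm_num) (i1 := 12) rfl) (by norm_num)

def t14 : fda 8 27 927 213 248 0 14 = true := by decide +kernel

theorem c14 : FPE 8 213 248 :=
  FP.toE (A := 14) (FP_of t14 (by norm_num) (by norm_num) (i1 := 14) rfl) (by norm_num)

def t15 : fda 8 28 1083 248 288 0 17 = true := by decide +kernel

theorem c15 : FPE 8 248 288 :=
  FP.toE (A := 17) (FP_of t15 (by norm_num) (by norm_num) (i1 := 17) rfl) (by norm_num)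

def t16 : fda 8 28 1275 288 335 0 13 = true := by decide +kernel

def t17 : fda 8 28 1275 288 335 13 7 = true := by decide +kernel

theorem c16 : FPE 8 288 335 :=
  FP.toE (A := 20) ((FP_of t16 (by norm_num) (by norm_num) (i1 := 13) rfl).trans
    (FP_of t17 (by norm_num) (by norm_num) (i1 := 20) rfl)) (by norm_num)

def t18 : fda 8 29 1491 335 389 0 8 = true := by decide +kernel

def t19 : fda 8 29 1491 335 389 8 15 = true := by decide +kernel

theorem c17 : FPE 8 335 389 :=
  FP.toE (A := 23) ((FP_of t18 (by norm_num) (by norm_num) (i1 := 8) rfl).trans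
    (FP_of t19 (by norm_num) (by norm_num) (i1 := 23) rfl)) (by norm_num)

def t20 : fda 8 30 1743 389 452 0 5 = true := by decide +kernel

def t21 : fda 8 30 1743 389 452 5 22 = true := by decide +kernel

theorem c18 : FPE 8 389 452 :=
  FP.toE (A := 27) ((FP_of t20 (by norm_num) (by norm_num) (i1 := 5) rfl).trans
    (FP_of t21 (by norm_num) (by norm_num) (i1 := 27) rfl)) (by norm_num)

def t22 : fda 8 30 2031 452 525 0 4 = true := by decide +kernel

def t23 : fda 8 30 2031 452 525 4 23 = true := by decide +kernel

def t24 : fda 8 30 2031 452 525 27 5 = true := by decide +kernel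

theorem c19 : FPE 8 452 525 :=
  FP.toE (A := 32) (((FP_of t22 (by norm_num) (by norm_num) (i1 := 4) rfl).trans
    (FP_of t23 (by norm_num) (by norm_num) (i1 := 27) rfl)).trans
    (FP_of t24 (by norm_num) (by norm_num) (i1 := 32) rfl)) (by norm_num)

def t25 : fda 8 31 2379 525 610 0 3 = true := by decide +kernel

def t26 : fda 8 31 2379 525 610 3 11 = true := by decide +kernel

def t27 : fda 8 31 2379 525 610 14 23 = true := by decide +kernel

theorem c20 : FPE 8 525 610 :=
  FP.toE (A := 37) (((FP_of t25 (by norm_num) (by norm_num) (i1 := 3) rfl).trans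
    (FP_of t26 (by norm_num) (by norm_num) (i1 := 14) rfl)).trans
    (FP_of t27 (by norm_num) (by norm_num) (i1 := 37) rfl)) (by norm_num)

def t28 : fda 8 32 2739 610 700 0 3 = true := by decide +kernel

def t29 : fda 8 32 2739 610 700 3 11 = true := by decide +kernel

def t30 : fda 8 32 2739 610 700 14 29 = true := by decide +kernel

theorem c21 : FPE 8 610 700 :=
  FP.toE (A := 43) (((FP_of t28 (by norm_num) (by norm_num) (i1 := 3) rfl).trans
    (FP_of t29 (by norm_num) (by norm_num) (i1 := 14) rfl)).trans
    (FP_of t30 (by norm_num) (by norm_num) (i1 := 43) rfl)) (by norm_num)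

theorem fe : FPE 8 24 700 :=
  (((((((((((((((((((((c0.trans c1).trans c2).trans c3).trans c4).trans c5).trans c6).trans c7).trans c8).trans c9).trans c10).trans c11).trans c12).trans c13).trans c14).trans c15).trans c16).trans c17).trans c18).trans c19).trans c20).trans c21)

end Pool.Agent.SignedQ.KD.Fd8_0
end

section

set_option autoImplicit false
set_option maxRecDepth 100000

namespace Pool.Agent.SignedQ.KD.Fd9_0

def t0 : fda 9 16 48 27 32 0 1 = true := by decide +kernel

theorem c0 : FPE 9 27 32 :=
  FP.toE (A := 1) (FP_of t0 (by norm_num) (by norm_num) (i1 := 1) rfl) (by norm_num)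

def t1 : fda 9 18 75 32 38 0 1 = true := by decide +kernel

theorem c1 : FPE 9 32 38 :=
  FP.toE (A := 1) (FP_of t1 (by norm_num) (by norm_num) (i1 := 1) rfl) (by norm_num)

def t2 : fda 9 19 102 38 45 0 1 = true := by decide +kernel

theorem c2 : FPE 9 38 45 :=
  FP.toE (A := 1) (FP_of t2 (by norm_num) (by norm_num) (i1 := 1) rfl) (by norm_num)

def t3 : fda 9 21 156 45 53 0 2 = true := by decide +kernel

theorem c3 : FPE 9 45 53 :=
  FP.toE (A := 2) (FP_of t3 (by norm_num) (by norm_num) (i1 := 2) rfl) (by norm_num)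

def t4 : fda 9 22 183 53 62 0 2 = true := by decide +kernel

theorem c4 : FPE 9 53 62 :=
  FP.toE (A := 2) (FP_of t4 (by norm_num) (by norm_num) (i1 := 2) rfl) (by norm_num)

def t5 : fda 9 23 237 62 72 0 3 = true := by decide +kernel

theorem c5 : FPE 9 62 72 :=
  FP.toE (A := 3) (FP_of t5 (by norm_num) (by norm_num) (i1 := 3) rfl) (by norm_num)

def t6 : fda 9 24 291 72 84 0 4 = true := by decide +kernel

theorem c6 : FPE 9 72 84 :=
  FP.toE (A := 4) (FP_of t6 (by norm_num) (by norm_num) (i1 := 4) rfl) (by norm_num)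

def t7 : fda 9 24 345 84 98 0 4 = true := by decide +kernel

theorem c7 : FPE 9 84 98 :=
  FP.toE (A := 4) (FP_of t7 (by norm_num) (by norm_num) (i1 := 4) rfl) (by norm_num)

def t8 : fda 9 25 426 98 114 0 5 = true := by decide +kernel

theorem c8 : FPE 9 98 114 :=
  FP.toE (A := 5) (FP_of t8 (by norm_num) (by norm_num) (i1 := 5) rfl) (by norm_num)

def t9 : fda 9 26 507 114 133 0 6 = true := by decide +kernel

theorem c9 : FPE 9 114 133 :=
  FP.toE (A := 6) (FP_of t9 (by norm_num) (by norm_num) (i1 := 6) rfl) (by norm_num)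

def t10 : fda 9 27 615 133 155 0 8 = true := by decide +kernel

theorem c10 : FPE 9 133 155 :=
  FP.toE (A := 8) (FP_of t10 (by norm_num) (by norm_num) (i1 := 8) rfl) (by norm_num)

def t11 : fda 9 27 723 155 180 0 9 = true := by decide +kernel

theorem c11 : FPE 9 155 180 :=
  FP.toE (A := 9) (FP_of t11 (by norm_num) (by norm_num) (i1 := 9) rfl) (by norm_num)

def t12 : fda 9 28 858 180 209 0 11 = true := by decide +kernel

theorem c12 : FPE 9 180 209 :=
  FP.toE (A := 11) (FP_of t12 (by norm_num) (by norm_num) (i1 := 11) rfl) (by norm_num)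

def t13 : fda 9 29 993 209 243 0 12 = true := by decide +kernel

theorem c13 : FPE 9 209 243 :=
  FP.toE (A := 12) (FP_of t13 (by norm_num) (by norm_num) (i1 := 12) rfl) (by norm_num)

def t14 : fda 9 29 1182 243 282 0 15 = true := by decide +kernel

theorem c14 : FPE 9 243 282 :=
  FP.toE (A := 15) (FP_of t14 (by norm_num) (by norm_num) (i1 := 15) rfl) (by norm_num)

def t15 : fda 9 30 1398 282 328 0 17 = true := by decide +kernel

theorem c15 : FPE 9 282 328 :=
  FP.toE (A := 17) (FP_of t15 (by norm_num) (by norm_num) (i1 := 17) rfl) (by norm_num)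

def t16 : fda 9 31 1614 328 381 0 20 = true := by decide +kernel

theorem c16 : FPE 9 328 381 :=
  FP.toE (A := 20) (FP_of t16 (by norm_num) (by norm_num) (i1 := 20) rfl) (by norm_num)

def t17 : fda 9 31 1911 381 442 0 24 = true := by decide +kernel

theorem c17 : FPE 9 381 442 :=
  FP.toE (A := 24) (FP_of t17 (by norm_num) (by norm_num) (i1 := 24) rfl) (by norm_num)

def t18 : fda 9 32 2208 442 513 0 27 = true := by decide +kernel

theorem c18 : FPE 9 442 513 :=
  FP.toE (A := 27) (FP_of t18 (by norm_num) (by norm_num) (i1 := 27) rfl) (by norm_num)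

def t19 : fda 9 33 2586 513 596 0 14 = true := by decide +kernel

def t20 : fda 9 33 2586 513 596 14 18 = true := by decide +kernel

theorem c19 : FPE 9 513 596 :=
  FP.toE (A := 32) ((FP_of t19 (by norm_num) (by norm_num) (i1 := 14) rfl).trans
    (FP_of t20 (by norm_num) (by norm_num) (i1 := 32) rfl)) (by norm_num)

def t21 : fda 9 33 3018 596 692 0 13 = true := by decide +kernel

def t22 : fda 9 33 3018 596 692 13 24 = true := by decide +kernel

theorem c20 : FPE 9 596 692 :=
  FP.toE (A := 37) ((FP_of t21 (by norm_num) (by norm_num) (i1 := 13) rfl).trans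
    (FP_of t22 (by norm_num) (by norm_num) (i1 := 37) rfl)) (by norm_num)

def t23 : fda 9 34 3531 692 803 0 7 = true := by decide +kernel

def t24 : fda 9 34 3531 692 803 7 37 = true := by decide +kernel

theorem c21 : FPE 9 692 803 :=
  FP.toE (A := 44) ((FP_of t23 (by norm_num) (by norm_num) (i1 := 7) rfl).trans
    (FP_of t24 (by norm_num) (by norm_num) (i1 := 44) rfl)) (by norm_num)

def t25 : fda 9 35 4098 803 932 0 5 = true := by decide +kernel

def t26 : fda 9 35 4098 803 932 5 33 = true := by decide +kernel

def t27 : fda 9 35 4098 803 932 38 13 = true := by decide +kernel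

theorem c22 : FPE 9 803 932 :=
  FP.toE (A := 51) (((FP_of t25 (by norm_num) (by norm_num) (i1 := 5) rfl).trans
    (FP_of t26 (by norm_num) (by norm_num) (i1 := 38) rfl)).trans
    (FP_of t27 (by norm_num) (by norm_num) (i1 := 51) rfl)) (by norm_num)

def t28 : fda 9 35 4773 932 1082 0 4 = true := by decide +kernel

def t29 : fda 9 35 4773 932 1082 4 18 = true := by decide +kernel

def t30 : fda 9 35 4773 932 1082 22 37 = true := by decide +kernel

theorem c23 : FPE 9 932 1082 :=
  FP.toE (A := 59) (((FP_of t28 (by norm_num) (by norm_num) (i1 := 4) rfl).trans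
    (FP_of t29 (by norm_num) (by norm_num) (i1 := 22) rfl)).trans
    (FP_of t30 (by norm_num) (by norm_num) (i1 := 59) rfl)) (by norm_num)

def t31 : fda 9 36 5556 1082 1256 0 3 = true := by decide +kernel

def t32 : fda 9 36 5556 1082 1256 3 12 = true := by decide +kernel

def t33 : fda 9 36 5556 1082 1256 15 49 = true := by decide +kernel

def t34 : fda 9 36 5556 1082 1256 64 5 = true := by decide +kernel

theorem c24 : FPE 9 1082 1256 :=
  FP.toE (A := 69) ((((FP_of t31 (by norm_num) (by norm_num) (i1 := 3) rfl).trans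
    (FP_of t32 (by norm_num) (by norm_num) (i1 := 15) rfl)).trans
    (FP_of t33 (by norm_num) (by norm_num) (i1 := 64) rfl)).trans
    (FP_of t34 (by norm_num) (by norm_num) (i1 := 69) rfl)) (by norm_num)

def t35 : fda 9 37 6474 1256 1457 0 2 = true := by decide +kernel

def t36 : fda 9 37 6474 1256 1457 2 7 = true := by decide +kernel

def t37 : fda 9 37 6474 1256 1457 9 22 = true := by decide +kernel

def t38 : fda 9 37 6474 1256 1457 31 49 = true := by decide +kernel

theorem c25 : FPE 9 1256 1457 :=
  FP.toE (A := 80) ((((FP_of t35 (by norm_num) (by norm_num) (i1 := 2) rfl).trans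
    (FP_of t36 (by norm_num) (by norm_num) (i1 := 9) rfl)).trans
    (FP_of t37 (by norm_num) (by norm_num) (i1 := 31) rfl)).trans
    (FP_of t38 (by norm_num) (by norm_num) (i1 := 80) rfl)) (by norm_num)

def t39 : fda 9 37 7527 1457 1691 0 1 = true := by decide +kernel

def t40 : fda 9 37 7527 1457 1691 1 3 = true := by decide +kernel

def t41 : fda 9 37 7527 1457 1691 4 9 = true := by decide +kernel

def t42 : fda 9 37 7527 1457 1691 13 24 = true := by decide +kernel

def t43 : fda 9 37 7527 1457 1691 37 56 = true := by decide +kernel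

theorem c26 : FPE 9 1457 1691 :=
  FP.toE (A := 93) (((((FP_of t39 (by norm_num) (by norm_num) (i1 := 1) rfl).trans
    (FP_of t40 (by norm_num) (by norm_num) (i1 := 4) rfl)).trans
    (FP_of t41 (by norm_num) (by norm_num) (i1 := 13) rfl)).trans
    (FP_of t42 (by norm_num) (by norm_num) (i1 := 37) rfl)).trans
    (FP_of t43 (by norm_num) (by norm_num) (i1 := 93) rfl)) (by norm_num)

def t44 : fda 9 38 8742 1691 1962 0 1 = true := by decide +kernel

def t45 : fda 9 38 8742 1691 1962 1 2 = true := by decide +kernel

def t46 : fda 9 38 8742 1691 1962 3 5 = true := by decide +kernel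

def t47 : fda 9 38 8742 1691 1962 8 12 = true := by decide +kernel

def t48 : fda 9 38 8742 1691 1962 20 29 = true := by decide +kernel

def t49 : fda 9 38 8742 1691 1962 49 59 = true := by decide +kernel

theorem c27 : FPE 9 1691 1962 :=
  FP.toE (A := 108) ((((((FP_of t44 (by norm_num) (by norm_num) (i1 := 1) rfl).trans
    (FP_of t45 (by norm_num) (by norm_num) (i1 := 3) rfl)).trans
    (FP_of t46 (by norm_num) (by norm_num) (i1 := 8) rfl)).trans
    (FP_of t47 (by norm_num) (by norm_num) (i1 := 20) rfl)).trans
    (FP_of t48 (by norm_num) (by norm_num) (i1 := 49) rfl)).trans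
    (FP_of t49 (by norm_num) (by norm_num) (i1 := 108) rfl)) (by norm_num)

def t50 : fda 9 39 10146 1962 2276 0 1 = true := by decide +kernel

def t51 : fda 9 39 10146 1962 2276 1 2 = true := by decide +kernel

def t52 : fda 9 39 10146 1962 2276 3 4 = true := by decide +kernel

def t53 : fda 9 39 10146 1962 2276 7 9 = true := by decide +kernel

def t54 : fda 9 39 10146 1962 2276 16 20 = true := by decide +kernel

def t55 : fda 9 39 10146 1962 2276 36 43 = true := by decide +kernel

def t56 : fda 9 39 10146 1962 2276 79 46 = true := by decide +kernel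

theorem c28 : FPE 9 1962 2276 :=
  FP.toE (A := 125) (((((((FP_of t50 (by norm_num) (by norm_num) (i1 := 1) rfl).trans
    (FP_of t51 (by norm_num) (by norm_num) (i1 := 3) rfl)).trans
    (FP_of t52 (by norm_num) (by norm_num) (i1 := 7) rfl)).trans
    (FP_of t53 (by norm_num) (by norm_num) (i1 := 16) rfl)).trans
    (FP_of t54 (by norm_num) (by norm_num) (i1 := 36) rfl)).trans
    (FP_of t55 (by norm_num) (by norm_num) (i1 := 79) rfl)).trans
    (FP_of t56 (by norm_num) (by norm_num) (i1 := 125) rfl)) (by norm_num)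

def t57 : fdr 9 39 11793 3 750 120 = true := by decide +kernel

def t58 : fdr 9 39 11793 3 870 2 = true := by decide +kernel

theorem u29_0 : FPn 9 (2 * 0 + 3) 750 872 :=
  ((FPn_of t57 (by norm_num) (by norm_num) (by norm_num) (n1 := 870) rfl).trans (FPn_of t58 (by norm_num) (by norm_num) (by norm_num) (n1 := 872) rfl))

def t59 : fda 9 39 11793 2276 2641 1 1 = true := by decide +kernel

def t60 : fda 9 39 11793 2276 2641 2 2 = true := by decide +kernel

def t61 : fda 9 39 11793 2276 2641 4 4 = true := by decide +kernel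

def t62 : fda 9 39 11793 2276 2641 8 8 = true := by decide +kernel

def t63 : fda 9 39 11793 2276 2641 16 15 = true := by decide +kernel

def t64 : fda 9 39 11793 2276 2641 31 29 = true := by decide +kernel

def t65 : fda 9 39 11793 2276 2641 60 55 = true := by decide +kernel

def t66 : fda 9 39 11793 2276 2641 115 31 = true := by decide +kernel

theorem c29 : FPE 9 2276 2641 :=
  FP.toE (A := 146) (((((((((FPn.toFP u29_0 (by norm_num) (by norm_num) (i1 := 1) rfl).trans
    (FP_of t59 (by norm_num) (by norm_num) (i1 := 2) rfl)).trans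
    (FP_of t60 (by norm_num) (by norm_num) (i1 := 4) rfl)).trans
    (FP_of t61 (by norm_num) (by norm_num) (i1 := 8) rfl)).trans
    (FP_of t62 (by norm_num) (by norm_num) (i1 := 16) rfl)).trans
    (FP_of t63 (by norm_num) (by norm_num) (i1 := 31) rfl)).trans
    (FP_of t64 (by norm_num) (by norm_num) (i1 := 60) rfl)).trans
    (FP_of t65 (by norm_num) (by norm_num) (i1 := 115) rfl)).trans
    (FP_of t66 (by norm_num) (by norm_num) (i1 := 146) rfl)) (by norm_num)

theorem fe : FPE 9 27 2641 :=
  (((((((((((((((((((((((((((((c0.trans c1).trans c2).trans c3).trans c4).trans c5).trans c6).trans c7).trans c8).trans c9).trans c10).trans c11).trans c12).trans c13).trans c14).trans c15).trans c16).trans c17).trans c18).trans c19).trans c20).trans c21).trans c22).trans c23).trans c24).trans c25).trans c26).trans c27).trans c28).trans c29)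

end Pool.Agent.SignedQ.KD.Fd9_0
end
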