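import Pool.Agent.Lib.MP_cf17a0_co.Mg.G067

section

set_option autoImplicit false
set_option maxRecDepth 100000

namespace Pool.Agent.SignedQ.KD.Tr12_0

def t0 : ftr 12 44 1501 3 287 126 = true := by decide +kernel

def t1 : ftr 12 44 1501 3 413 87 = true := by decide +kernel

theorem u0 : TRn 12 1501 (2 * 0 + 3) 287 500 :=
  ((TRn_of t0 (by norm_num) (by norm_num) (n1 := 413) rfl).trans (TRn_of t1 (by norm_num) (by norm_num) (n1 := 500) rfl))

def t2 : ftr 12 44 1501 5 167 126 = true := by decide +kernel

def t3 : ftr 12 44 1501 5 293 7 = true := by decide +kernel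

theorem u1 : TRn 12 1501 (2 * 1 + 3) 167 300 :=
  ((TRn_of t2 (by norm_num) (by norm_num) (n1 := 293) rfl).trans (TRn_of t3 (by norm_num) (by norm_num) (n1 := 300) rfl))

def t4 : tra 12 44 1501 895 1501 2 1 = true := by decide +kernel

def t5 : tra 12 44 1501 895 1501 3 1 = true := by decide +kernel

def t6 : tra 12 44 1501 895 1501 4 2 = true := by decide +kernel

def t7 : tra 12 44 1501 895 1501 6 3 = true := by decide +kernel

def t8 : tra 12 44 1501 895 1501 9 4 = true := by decide +kernel

def t9 : tra 12 44 1501 895 1501 13 5 = true := by decide +kernel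

def t10 : tra 12 44 1501 895 1501 18 6 = true := by decide +kernel

def t11 : tra 12 44 1501 895 1501 24 7 = true := by decide +kernel

def t12 : tra 12 44 1501 895 1501 31 8 = true := by decide +kernel

def t13 : tra 12 44 1501 895 1501 39 12 = true := by decide +kernel

def t14 : tra 12 44 1501 895 1501 51 19 = true := by decide +kernel

def t15 : tra 12 44 1501 895 1501 70 43 = true := by decide +kernel

def t16 : tra 12 44 1501 895 1501 113 183 = true := by decide +kernel

def t17 : tra 12 44 1501 895 1501 296 453 = true := by decide +kernel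

theorem tr : TR 12 1501 895 1501 0 749 :=
  ((((((((((((((((TRn.toTR u0 (by norm_num) (by norm_num) (i1 := 1) rfl).trans
    (TRn.toTR u1 (by norm_num) (by norm_num) (i1 := 2) rfl)).trans
    (TR_of t4 (by norm_num) (by norm_num) (i1 := 3) rfl)).trans
    (TR_of t5 (by norm_num) (by norm_num) (i1 := 4) rfl)).trans
    (TR_of t6 (by norm_num) (by norm_num) (i1 := 6) rfl)).trans
    (TR_of t7 (by norm_num) (by norm_num) (i1 := 9) rfl)).trans
    (TR_of t8 (by norm_num) (by norm_num) (i1 := 13) rfl)).trans
    (TR_of t9 (by norm_num) (by norm_num) (i1 := 18) rfl)).trans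
    (TR_of t10 (by norm_num) (by norm_num) (i1 := 24) rfl)).trans
    (TR_of t11 (by norm_num) (by norm_num) (i1 := 31) rfl)).trans
    (TR_of t12 (by norm_num) (by norm_num) (i1 := 39) rfl)).trans
    (TR_of t13 (by norm_num) (by norm_num) (i1 := 51) rfl)).trans
    (TR_of t14 (by norm_num) (by norm_num) (i1 := 70) rfl)).trans
    (TR_of t15 (by norm_num) (by norm_num) (i1 := 113) rfl)).trans
    (TR_of t16 (by norm_num) (by norm_num) (i1 := 296) rfl)).trans
    (TR_of t17 (by norm_num) (by norm_num) (i1 := 749) rfl))

end Pool.Agent.SignedQ.KD.Tr12_0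
end

section

set_option autoImplicit false
set_option maxRecDepth 100000

namespace Pool.Agent.SignedQ.KD.Tr13_0

def t0 : ftr 13 47 1986 3 295 232 = true := by decide +kernel

def t1 : ftr 13 47 1986 3 527 134 = true := by decide +kernel

theorem u0 : TRn 13 1986 (2 * 0 + 3) 295 661 :=
  ((TRn_of t0 (by norm_num) (by norm_num) (n1 := 527) rfl).trans (TRn_of t1 (by norm_num) (by norm_num) (n1 := 661) rfl))

def t2 : tra 13 47 1986 923 1986 1 1 = true := by decide +kernel

def t3 : tra 13 47 1986 923 1986 2 1 = true := by decide +kernel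

def t4 : tra 13 47 1986 923 1986 3 2 = true := by decide +kernel

def t5 : tra 13 47 1986 923 1986 5 2 = true := by decide +kernel

def t6 : tra 13 47 1986 923 1986 7 3 = true := by decide +kernel

def t7 : tra 13 47 1986 923 1986 10 5 = true := by decide +kernel

def t8 : tra 13 47 1986 923 1986 15 6 = true := by decide +kernel

def t9 : tra 13 47 1986 923 1986 21 8 = true := by decide +kernel

def t10 : tra 13 47 1986 923 1986 29 10 = true := by decide +kernel

def t11 : tra 13 47 1986 923 1986 39 15 = true := by decide +kernel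

def t12 : tra 13 47 1986 923 1986 54 26 = true := by decide +kernel

def t13 : tra 13 47 1986 923 1986 80 65 = true := by decide +kernel

def t14 : tra 13 47 1986 923 1986 145 360 = true := by decide +kernel

def t15 : tra 13 47 1986 923 1986 505 487 = true := by decide +kernel

theorem tr : TR 13 1986 923 1986 0 992 :=
  (((((((((((((((TRn.toTR u0 (by norm_num) (by norm_num) (i1 := 1) rfl).trans
    (TR_of t2 (by norm_num) (by norm_num) (i1 := 2) rfl)).trans
    (TR_of t3 (by norm_num) (by norm_num) (i1 := 3) rfl)).trans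
    (TR_of t4 (by norm_num) (by norm_num) (i1 := 5) rfl)).trans
    (TR_of t5 (by norm_num) (by norm_num) (i1 := 7) rfl)).trans
    (TR_of t6 (by norm_num) (by norm_num) (i1 := 10) rfl)).trans
    (TR_of t7 (by norm_num) (by norm_num) (i1 := 15) rfl)).trans
    (TR_of t8 (by norm_num) (by norm_num) (i1 := 21) rfl)).trans
    (TR_of t9 (by norm_num) (by norm_num) (i1 := 29) rfl)).trans
    (TR_of t10 (by norm_num) (by norm_num) (i1 := 39) rfl)).trans
    (TR_of t11 (by norm_num) (by norm_num) (i1 := 54) rfl)).trans
    (TR_of t12 (by norm_num) (by norm_num) (i1 := 80) rfl)).trans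
    (TR_of t13 (by norm_num) (by norm_num) (i1 := 145) rfl)).trans
    (TR_of t14 (by norm_num) (by norm_num) (i1 := 505) rfl)).trans
    (TR_of t15 (by norm_num) (by norm_num) (i1 := 992) rfl))

end Pool.Agent.SignedQ.KD.Tr13_0
end

section

set_option autoImplicit false
set_option maxRecDepth 100000

namespace Pool.Agent.SignedQ.KD.Tr14_0

def t0 : ftr 14 49 1306 3 167 108 = true := by decide +kernel

def t1 : ftr 14 49 1306 3 275 108 = true := by decide +kernel

def t2 : ftr 14 49 1306 3 383 52 = true := by decide +kernel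

theorem u0 : TRn 14 1306 (2 * 0 + 3) 167 435 :=
  (((TRn_of t0 (by norm_num) (by norm_num) (n1 := 275) rfl).trans (TRn_of t1 (by norm_num) (by norm_num) (n1 := 383) rfl)).trans (TRn_of t2 (by norm_num) (by norm_num) (n1 := 435) rfl))

def t3 : ftr 14 49 1306 5 95 108 = true := by decide +kernel

def t4 : ftr 14 49 1306 5 203 58 = true := by decide +kernel

theorem u1 : TRn 14 1306 (2 * 1 + 3) 95 261 :=
  ((TRn_of t3 (by norm_num) (by norm_num) (n1 := 203) rfl).trans (TRn_of t4 (by norm_num) (by norm_num) (n1 := 261) rfl))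

def t5 : ftr 14 49 1306 7 64 108 = true := by decide +kernel

def t6 : ftr 14 49 1306 7 172 14 = true := by decide +kernel

theorem u2 : TRn 14 1306 (2 * 2 + 3) 64 186 :=
  ((TRn_of t5 (by norm_num) (by norm_num) (n1 := 172) rfl).trans (TRn_of t6 (by norm_num) (by norm_num) (n1 := 186) rfl))

def t7 : tra 14 49 1306 542 1306 3 1 = true := by decide +kernel

def t8 : tra 14 49 1306 542 1306 4 1 = true := by decide +kernel

def t9 : tra 14 49 1306 542 1306 5 1 = true := by decide +kernel

def t10 : tra 14 49 1306 542 1306 6 1 = true := by decide +kernel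

def t11 : tra 14 49 1306 542 1306 7 2 = true := by decide +kernel

def t12 : tra 14 49 1306 542 1306 9 2 = true := by decide +kernel

def t13 : tra 14 49 1306 542 1306 11 3 = true := by decide +kernel

def t14 : tra 14 49 1306 542 1306 14 3 = true := by decide +kernel

def t15 : tra 14 49 1306 542 1306 17 4 = true := by decide +kernel

def t16 : tra 14 49 1306 542 1306 21 5 = true := by decide +kernel

def t17 : tra 14 49 1306 542 1306 26 7 = true := by decide +kernel

def t18 : tra 14 49 1306 542 1306 33 11 = true := by decide +kernel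

def t19 : tra 14 49 1306 542 1306 44 21 = true := by decide +kernel

def t20 : tra 14 49 1306 542 1306 65 57 = true := by decide +kernel

def t21 : tra 14 49 1306 542 1306 122 530 = true := by decide +kernel

theorem tr : TR 14 1306 542 1306 0 652 :=
  ((((((((((((((((((TRn.toTR u0 (by norm_num) (by norm_num) (i1 := 1) rfl).trans
    (TRn.toTR u1 (by norm_num) (by norm_num) (i1 := 2) rfl)).trans
    (TRn.toTR u2 (by norm_num) (by norm_num) (i1 := 3) rfl)).trans
    (TR_of t7 (by norm_num) (by norm_num) (i1 := 4) rfl)).trans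
    (TR_of t8 (by norm_num) (by norm_num) (i1 := 5) rfl)).trans
    (TR_of t9 (by norm_num) (by norm_num) (i1 := 6) rfl)).trans
    (TR_of t10 (by norm_num) (by norm_num) (i1 := 7) rfl)).trans
    (TR_of t11 (by norm_num) (by norm_num) (i1 := 9) rfl)).trans
    (TR_of t12 (by norm_num) (by norm_num) (i1 := 11) rfl)).trans
    (TR_of t13 (by norm_num) (by norm_num) (i1 := 14) rfl)).trans
    (TR_of t14 (by norm_num) (by norm_num) (i1 := 17) rfl)).trans
    (TR_of t15 (by norm_num) (by norm_num) (i1 := 21) rfl)).trans
    (TR_of t16 (by norm_num) (by norm_num) (i1 := 26) rfl)).trans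
    (TR_of t17 (by norm_num) (by norm_num) (i1 := 33) rfl)).trans
    (TR_of t18 (by norm_num) (by norm_num) (i1 := 44) rfl)).trans
    (TR_of t19 (by norm_num) (by norm_num) (i1 := 65) rfl)).trans
    (TR_of t20 (by norm_num) (by norm_num) (i1 := 122) rfl)).trans
    (TR_of t21 (by norm_num) (by norm_num) (i1 := 652) rfl))

end Pool.Agent.SignedQ.KD.Tr14_0
end

section

set_option autoImplicit false
set_option maxRecDepth 100000

namespace Pool.Agent.SignedQ.KD.Tr15_0

def t0 : ftr 15 55 2284 3 375 202 = true := by decide +kernel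

def t1 : ftr 15 55 2284 3 577 184 = true := by decide +kernel

theorem u0 : TRn 15 2284 (2 * 0 + 3) 375 761 :=
  ((TRn_of t0 (by norm_num) (by norm_num) (n1 := 577) rfl).trans (TRn_of t1 (by norm_num) (by norm_num) (n1 := 761) rfl))

def t2 : ftr 15 55 2284 5 219 202 = true := by decide +kernel

def t3 : ftr 15 55 2284 5 421 35 = true := by decide +kernel

theorem u1 : TRn 15 2284 (2 * 1 + 3) 219 456 :=
  ((TRn_of t2 (by norm_num) (by norm_num) (n1 := 421) rfl).trans (TRn_of t3 (by norm_num) (by norm_num) (n1 := 456) rfl))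

def t4 : tra 15 55 2284 1168 2284 2 1 = true := by decide +kernel

def t5 : tra 15 55 2284 1168 2284 3 1 = true := by decide +kernel

def t6 : tra 15 55 2284 1168 2284 4 1 = true := by decide +kernel

def t7 : tra 15 55 2284 1168 2284 5 2 = true := by decide +kernel

def t8 : tra 15 55 2284 1168 2284 7 3 = true := by decide +kernel

def t9 : tra 15 55 2284 1168 2284 10 3 = true := by decide +kernel

def t10 : tra 15 55 2284 1168 2284 13 4 = true := by decide +kernel

def t11 : tra 15 55 2284 1168 2284 17 5 = true := by decide +kernel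

def t12 : tra 15 55 2284 1168 2284 22 7 = true := by decide +kernel

def t13 : tra 15 55 2284 1168 2284 29 8 = true := by decide +kernel

def t14 : tra 15 55 2284 1168 2284 37 10 = true := by decide +kernel

def t15 : tra 15 55 2284 1168 2284 47 14 = true := by decide +kernel

def t16 : tra 15 55 2284 1168 2284 61 23 = true := by decide +kernel

def t17 : tra 15 55 2284 1168 2284 84 47 = true := by decide +kernel

def t18 : tra 15 55 2284 1168 2284 131 145 = true := by decide +kernel

def t19 : tra 15 55 2284 1168 2284 276 865 = true := by decide +kernel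

theorem tr : TR 15 2284 1168 2284 0 1141 :=
  ((((((((((((((((((TRn.toTR u0 (by norm_num) (by norm_num) (i1 := 1) rfl).trans
    (TRn.toTR u1 (by norm_num) (by norm_num) (i1 := 2) rfl)).trans
    (TR_of t4 (by norm_num) (by norm_num) (i1 := 3) rfl)).trans
    (TR_of t5 (by norm_num) (by norm_num) (i1 := 4) rfl)).trans
    (TR_of t6 (by norm_num) (by norm_num) (i1 := 5) rfl)).trans
    (TR_of t7 (by norm_num) (by norm_num) (i1 := 7) rfl)).trans
    (TR_of t8 (by norm_num) (by norm_num) (i1 := 10) rfl)).trans
    (TR_of t9 (by norm_num) (by norm_num) (i1 := 13) rfl)).trans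
    (TR_of t10 (by norm_num) (by norm_num) (i1 := 17) rfl)).trans
    (TR_of t11 (by norm_num) (by norm_num) (i1 := 22) rfl)).trans
    (TR_of t12 (by norm_num) (by norm_num) (i1 := 29) rfl)).trans
    (TR_of t13 (by norm_num) (by norm_num) (i1 := 37) rfl)).trans
    (TR_of t14 (by norm_num) (by norm_num) (i1 := 47) rfl)).trans
    (TR_of t15 (by norm_num) (by norm_num) (i1 := 61) rfl)).trans
    (TR_of t16 (by norm_num) (by norm_num) (i1 := 84) rfl)).trans
    (TR_of t17 (by norm_num) (by norm_num) (i1 := 131) rfl)).trans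
    (TR_of t18 (by norm_num) (by norm_num) (i1 := 276) rfl)).trans
    (TR_of t19 (by norm_num) (by norm_num) (i1 := 1141) rfl))

end Pool.Agent.SignedQ.KD.Tr15_0
end
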