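import Pool.Agent.Lib.MP_cf17a0_co.Mg.G067

section

set_option autoImplicit false
set_option maxRecDepth 100000

namespace Pool.Agent.SignedQ.KD.Tr16_0

def t0 : ftr 16 58 1727 3 208 94 = true := by decide +kernel

def t1 : ftr 16 58 1727 3 302 94 = true := by decide +kernel

def t2 : ftr 16 58 1727 3 396 94 = true := by decide +kernel

def t3 : ftr 16 58 1727 3 490 85 = true := by decide +kernel

theorem u0 : TRn 16 1727 (2 * 0 + 3) 208 575 :=
  ((((TRn_of t0 (by norm_num) (by norm_num) (n1 := 302) rfl).trans (TRn_of t1 (by norm_num) (by norm_num) (n1 := 396) rfl)).trans (TRn_of t2 (by norm_num) (by norm_num) (n1 := 490) rfl)).trans (TRn_of t3 (by norm_num) (by norm_num) (n1 := 575) rfl))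

def t4 : ftr 16 58 1727 5 119 94 = true := by decide +kernel

def t5 : ftr 16 58 1727 5 213 94 = true := by decide +kernel

def t6 : ftr 16 58 1727 5 307 38 = true := by decide +kernel

theorem u1 : TRn 16 1727 (2 * 1 + 3) 119 345 :=
  (((TRn_of t4 (by norm_num) (by norm_num) (n1 := 213) rfl).trans (TRn_of t5 (by norm_num) (by norm_num) (n1 := 307) rfl)).trans (TRn_of t6 (by norm_num) (by norm_num) (n1 := 345) rfl))

def t7 : ftr 16 58 1727 7 80 94 = true := by decide +kernel

def t8 : ftr 16 58 1727 7 174 72 = true := by decide +kernel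

theorem u2 : TRn 16 1727 (2 * 2 + 3) 80 246 :=
  ((TRn_of t7 (by norm_num) (by norm_num) (n1 := 174) rfl).trans (TRn_of t8 (by norm_num) (by norm_num) (n1 := 246) rfl))

def t9 : ftr 16 58 1727 9 59 94 = true := by decide +kernel

def t10 : ftr 16 58 1727 9 153 38 = true := by decide +kernel

theorem u3 : TRn 16 1727 (2 * 3 + 3) 59 191 :=
  ((TRn_of t9 (by norm_num) (by norm_num) (n1 := 153) rfl).trans (TRn_of t10 (by norm_num) (by norm_num) (n1 := 191) rfl))

def t11 : ftr 16 58 1727 11 46 94 = true := by decide +kernel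

def t12 : ftr 16 58 1727 11 140 16 = true := by decide +kernel

theorem u4 : TRn 16 1727 (2 * 4 + 3) 46 156 :=
  ((TRn_of t11 (by norm_num) (by norm_num) (n1 := 140) rfl).trans (TRn_of t12 (by norm_num) (by norm_num) (n1 := 156) rfl))

def t13 : tra 16 58 1727 672 1727 5 1 = true := by decide +kernel

def t14 : tra 16 58 1727 672 1727 6 1 = true := by decide +kernel

def t15 : tra 16 58 1727 672 1727 7 1 = true := by decide +kernel

def t16 : tra 16 58 1727 672 1727 8 1 = true := by decide +kernel

def t17 : tra 16 58 1727 672 1727 9 1 = true := by decide +kernel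

def t18 : tra 16 58 1727 672 1727 10 1 = true := by decide +kernel

def t19 : tra 16 58 1727 672 1727 11 1 = true := by decide +kernel

def t20 : tra 16 58 1727 672 1727 12 2 = true := by decide +kernel

def t21 : tra 16 58 1727 672 1727 14 2 = true := by decide +kernel

def t22 : tra 16 58 1727 672 1727 16 2 = true := by decide +kernel

def t23 : tra 16 58 1727 672 1727 18 2 = true := by decide +kernel

def t24 : tra 16 58 1727 672 1727 20 3 = true := by decide +kernel

def t25 : tra 16 58 1727 672 1727 23 3 = true := by decide +kernel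

def t26 : tra 16 58 1727 672 1727 26 4 = true := by decide +kernel

def t27 : tra 16 58 1727 672 1727 30 5 = true := by decide +kernel

def t28 : tra 16 58 1727 672 1727 35 6 = true := by decide +kernel

def t29 : tra 16 58 1727 672 1727 41 8 = true := by decide +kernel

def t30 : tra 16 58 1727 672 1727 49 12 = true := by decide +kernel

def t31 : tra 16 58 1727 672 1727 61 20 = true := by decide +kernel

def t32 : tra 16 58 1727 672 1727 81 40 = true := by decide +kernel

def t33 : tra 16 58 1727 672 1727 121 121 = true := by decide +kernel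

def t34 : tra 16 58 1727 672 1727 242 620 = true := by decide +kernel

theorem tr : TR 16 1727 672 1727 0 862 :=
  (((((((((((((((((((((((((((TRn.toTR u0 (by norm_num) (by norm_num) (i1 := 1) rfl).trans
    (TRn.toTR u1 (by norm_num) (by norm_num) (i1 := 2) rfl)).trans
    (TRn.toTR u2 (by norm_num) (by norm_num) (i1 := 3) rfl)).trans
    (TRn.toTR u3 (by norm_num) (by norm_num) (i1 := 4) rfl)).trans
    (TRn.toTR u4 (by norm_num) (by norm_num) (i1 := 5) rfl)).trans
    (TR_of t13 (by norm_num) (by norm_num) (i1 := 6) rfl)).trans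
    (TR_of t14 (by norm_num) (by norm_num) (i1 := 7) rfl)).trans
    (TR_of t15 (by norm_num) (by norm_num) (i1 := 8) rfl)).trans
    (TR_of t16 (by norm_num) (by norm_num) (i1 := 9) rfl)).trans
    (TR_of t17 (by norm_num) (by norm_num) (i1 := 10) rfl)).trans
    (TR_of t18 (by norm_num) (by norm_num) (i1 := 11) rfl)).trans
    (TR_of t19 (by norm_num) (by norm_num) (i1 := 12) rfl)).trans
    (TR_of t20 (by norm_num) (by norm_num) (i1 := 14) rfl)).trans
    (TR_of t21 (by norm_num) (by norm_num) (i1 := 16) rfl)).trans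
    (TR_of t22 (by norm_num) (by norm_num) (i1 := 18) rfl)).trans
    (TR_of t23 (by norm_num) (by norm_num) (i1 := 20) rfl)).trans
    (TR_of t24 (by norm_num) (by norm_num) (i1 := 23) rfl)).trans
    (TR_of t25 (by norm_num) (by norm_num) (i1 := 26) rfl)).trans
    (TR_of t26 (by norm_num) (by norm_num) (i1 := 30) rfl)).trans
    (TR_of t27 (by norm_num) (by norm_num) (i1 := 35) rfl)).trans
    (TR_of t28 (by norm_num) (by norm_num) (i1 := 41) rfl)).trans
    (TR_of t29 (by norm_num) (by norm_num) (i1 := 49) rfl)).trans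
    (TR_of t30 (by norm_num) (by norm_num) (i1 := 61) rfl)).trans
    (TR_of t31 (by norm_num) (by norm_num) (i1 := 81) rfl)).trans
    (TR_of t32 (by norm_num) (by norm_num) (i1 := 121) rfl)).trans
    (TR_of t33 (by norm_num) (by norm_num) (i1 := 242) rfl)).trans
    (TR_of t34 (by norm_num) (by norm_num) (i1 := 862) rfl))

end Pool.Agent.SignedQ.KD.Tr16_0
end

section

set_option autoImplicit false
set_option maxRecDepth 100000

namespace Pool.Agent.SignedQ.KD.Tr17_0

def t0 : ftr 17 60 1986 3 236 177 = true := by decide +kernel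

def t1 : ftr 17 60 1986 3 413 178 = true := by decide +kernel

def t2 : ftr 17 60 1986 3 591 70 = true := by decide +kernel

theorem u0 : TRn 17 1986 (2 * 0 + 3) 236 661 :=
  (((TRn_of t0 (by norm_num) (by norm_num) (n1 := 413) rfl).trans (TRn_of t1 (by norm_num) (by norm_num) (n1 := 591) rfl)).trans (TRn_of t2 (by norm_num) (by norm_num) (n1 := 661) rfl))

def t3 : ftr 17 60 1986 5 135 178 = true := by decide +kernel

def t4 : ftr 17 60 1986 5 313 84 = true := by decide +kernel

theorem u1 : TRn 17 1986 (2 * 1 + 3) 135 397 :=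
  ((TRn_of t3 (by norm_num) (by norm_num) (n1 := 313) rfl).trans (TRn_of t4 (by norm_num) (by norm_num) (n1 := 397) rfl))

def t5 : ftr 17 60 1986 7 92 177 = true := by decide +kernel

def t6 : ftr 17 60 1986 7 269 14 = true := by decide +kernel

theorem u2 : TRn 17 1986 (2 * 2 + 3) 92 283 :=
  ((TRn_of t5 (by norm_num) (by norm_num) (n1 := 269) rfl).trans (TRn_of t6 (by norm_num) (by norm_num) (n1 := 283) rfl))

def t7 : tra 17 60 1986 759 1986 3 1 = true := by decide +kernel

def t8 : tra 17 60 1986 759 1986 4 1 = true := by decide +kernel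

def t9 : tra 17 60 1986 759 1986 5 1 = true := by decide +kernel

def t10 : tra 17 60 1986 759 1986 6 2 = true := by decide +kernel

def t11 : tra 17 60 1986 759 1986 8 2 = true := by decide +kernel

def t12 : tra 17 60 1986 759 1986 10 3 = true := by decide +kernel

def t13 : tra 17 60 1986 759 1986 13 3 = true := by decide +kernel

def t14 : tra 17 60 1986 759 1986 16 4 = true := by decide +kernel

def t15 : tra 17 60 1986 759 1986 20 5 = true := by decide +kernel

def t16 : tra 17 60 1986 759 1986 25 6 = true := by decide +kernel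

def t17 : tra 17 60 1986 759 1986 31 9 = true := by decide +kernel

def t18 : tra 17 60 1986 759 1986 40 13 = true := by decide +kernel

def t19 : tra 17 60 1986 759 1986 53 24 = true := by decide +kernel

def t20 : tra 17 60 1986 759 1986 77 59 = true := by decide +kernel

def t21 : tra 17 60 1986 759 1986 136 300 = true := by decide +kernel

def t22 : tra 17 60 1986 759 1986 436 556 = true := by decide +kernel

theorem tr : TR 17 1986 759 1986 0 992 :=
  (((((((((((((((((((TRn.toTR u0 (by norm_num) (by norm_num) (i1 := 1) rfl).trans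
    (TRn.toTR u1 (by norm_num) (by norm_num) (i1 := 2) rfl)).trans
    (TRn.toTR u2 (by norm_num) (by norm_num) (i1 := 3) rfl)).trans
    (TR_of t7 (by norm_num) (by norm_num) (i1 := 4) rfl)).trans
    (TR_of t8 (by norm_num) (by norm_num) (i1 := 5) rfl)).trans
    (TR_of t9 (by norm_num) (by norm_num) (i1 := 6) rfl)).trans
    (TR_of t10 (by norm_num) (by norm_num) (i1 := 8) rfl)).trans
    (TR_of t11 (by norm_num) (by norm_num) (i1 := 10) rfl)).trans
    (TR_of t12 (by norm_num) (by norm_num) (i1 := 13) rfl)).trans
    (TR_of t13 (by norm_num) (by norm_num) (i1 := 16) rfl)).trans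
    (TR_of t14 (by norm_num) (by norm_num) (i1 := 20) rfl)).trans
    (TR_of t15 (by norm_num) (by norm_num) (i1 := 25) rfl)).trans
    (TR_of t16 (by norm_num) (by norm_num) (i1 := 31) rfl)).trans
    (TR_of t17 (by norm_num) (by norm_num) (i1 := 40) rfl)).trans
    (TR_of t18 (by norm_num) (by norm_num) (i1 := 53) rfl)).trans
    (TR_of t19 (by norm_num) (by norm_num) (i1 := 77) rfl)).trans
    (TR_of t20 (by norm_num) (by norm_num) (i1 := 136) rfl)).trans
    (TR_of t21 (by norm_num) (by norm_num) (i1 := 436) rfl)).trans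
    (TR_of t22 (by norm_num) (by norm_num) (i1 := 992) rfl))

end Pool.Agent.SignedQ.KD.Tr17_0
end

section

set_option autoImplicit false
set_option maxRecDepth 100000

namespace Pool.Agent.SignedQ.KD.Tr18_0

def t0 : ftr 18 67 2284 3 253 84 = true := by decide +kernel

def t1 : ftr 18 67 2284 3 337 84 = true := by decide +kernel

def t2 : ftr 18 67 2284 3 421 84 = true := by decide +kernel

def t3 : ftr 18 67 2284 3 505 84 = true := by decide +kernel

def t4 : ftr 18 67 2284 3 589 84 = true := by decide +kernel

def t5 : ftr 18 67 2284 3 673 88 = true := by decide +kernel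

theorem u0 : TRn 18 2284 (2 * 0 + 3) 253 761 :=
  ((((((TRn_of t0 (by norm_num) (by norm_num) (n1 := 337) rfl).trans (TRn_of t1 (by norm_num) (by norm_num) (n1 := 421) rfl)).trans (TRn_of t2 (by norm_num) (by norm_num) (n1 := 505) rfl)).trans (TRn_of t3 (by norm_num) (by norm_num) (n1 := 589) rfl)).trans (TRn_of t4 (by norm_num) (by norm_num) (n1 := 673) rfl)).trans (TRn_of t5 (by norm_num) (by norm_num) (n1 := 761) rfl))

def t6 : ftr 18 67 2284 5 145 84 = true := by decide +kernel

def t7 : ftr 18 67 2284 5 229 84 = true := by decide +kernel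

def t8 : ftr 18 67 2284 5 313 84 = true := by decide +kernel

def t9 : ftr 18 67 2284 5 397 59 = true := by decide +kernel

theorem u1 : TRn 18 2284 (2 * 1 + 3) 145 456 :=
  ((((TRn_of t6 (by norm_num) (by norm_num) (n1 := 229) rfl).trans (TRn_of t7 (by norm_num) (by norm_num) (n1 := 313) rfl)).trans (TRn_of t8 (by norm_num) (by norm_num) (n1 := 397) rfl)).trans (TRn_of t9 (by norm_num) (by norm_num) (n1 := 456) rfl))

def t10 : ftr 18 67 2284 7 98 84 = true := by decide +kernel

def t11 : ftr 18 67 2284 7 182 84 = true := by decide +kernel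

def t12 : ftr 18 67 2284 7 266 60 = true := by decide +kernel

theorem u2 : TRn 18 2284 (2 * 2 + 3) 98 326 :=
  (((TRn_of t10 (by norm_num) (by norm_num) (n1 := 182) rfl).trans (TRn_of t11 (by norm_num) (by norm_num) (n1 := 266) rfl)).trans (TRn_of t12 (by norm_num) (by norm_num) (n1 := 326) rfl))

def t13 : ftr 18 67 2284 9 73 84 = true := by decide +kernel

def t14 : ftr 18 67 2284 9 157 85 = true := by decide +kernel

def t15 : ftr 18 67 2284 9 242 11 = true := by decide +kernel

theorem u3 : TRn 18 2284 (2 * 3 + 3) 73 253 :=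
  (((TRn_of t13 (by norm_num) (by norm_num) (n1 := 157) rfl).trans (TRn_of t14 (by norm_num) (by norm_num) (n1 := 242) rfl)).trans (TRn_of t15 (by norm_num) (by norm_num) (n1 := 253) rfl))

def t16 : ftr 18 67 2284 11 56 84 = true := by decide +kernel

def t17 : ftr 18 67 2284 11 140 67 = true := by decide +kernel

theorem u4 : TRn 18 2284 (2 * 4 + 3) 56 207 :=
  ((TRn_of t16 (by norm_num) (by norm_num) (n1 := 140) rfl).trans (TRn_of t17 (by norm_num) (by norm_num) (n1 := 207) rfl))

def t18 : ftr 18 67 2284 13 45 84 = true := by decide +kernel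

def t19 : ftr 18 67 2284 13 129 46 = true := by decide +kernel

theorem u5 : TRn 18 2284 (2 * 5 + 3) 45 175 :=
  ((TRn_of t18 (by norm_num) (by norm_num) (n1 := 129) rfl).trans (TRn_of t19 (by norm_num) (by norm_num) (n1 := 175) rfl))

def t20 : ftr 18 67 2284 15 37 84 = true := by decide +kernel

def t21 : ftr 18 67 2284 15 121 31 = true := by decide +kernel

theorem u6 : TRn 18 2284 (2 * 6 + 3) 37 152 :=
  ((TRn_of t20 (by norm_num) (by norm_num) (n1 := 121) rfl).trans (TRn_of t21 (by norm_num) (by norm_num) (n1 := 152) rfl))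

def t22 : ftr 18 67 2284 17 30 84 = true := by decide +kernel

def t23 : ftr 18 67 2284 17 114 20 = true := by decide +kernel

theorem u7 : TRn 18 2284 (2 * 7 + 3) 30 134 :=
  ((TRn_of t22 (by norm_num) (by norm_num) (n1 := 114) rfl).trans (TRn_of t23 (by norm_num) (by norm_num) (n1 := 134) rfl))

def t24 : ftr 18 67 2284 19 25 85 = true := by decide +kernel

def t25 : ftr 18 67 2284 19 110 10 = true := by decide +kernel

theorem u8 : TRn 18 2284 (2 * 8 + 3) 25 120 :=
  ((TRn_of t24 (by norm_num) (by norm_num) (n1 := 110) rfl).trans (TRn_of t25 (by norm_num) (by norm_num) (n1 := 120) rfl))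

def t26 : tra 18 67 2284 812 2284 9 1 = true := by decide +kernel

def t27 : tra 18 67 2284 812 2284 10 1 = true := by decide +kernel

def t28 : tra 18 67 2284 812 2284 11 1 = true := by decide +kernel

def t29 : tra 18 67 2284 812 2284 12 1 = true := by decide +kernel

def t30 : tra 18 67 2284 812 2284 13 1 = true := by decide +kernel

def t31 : tra 18 67 2284 812 2284 14 1 = true := by decide +kernel

def t32 : tra 18 67 2284 812 2284 15 1 = true := by decide +kernel

def t33 : tra 18 67 2284 812 2284 16 1 = true := by decide +kernel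

def t34 : tra 18 67 2284 812 2284 17 1 = true := by decide +kernel

def t35 : tra 18 67 2284 812 2284 18 1 = true := by decide +kernel

def t36 : tra 18 67 2284 812 2284 19 1 = true := by decide +kernel

def t37 : tra 18 67 2284 812 2284 20 1 = true := by decide +kernel

def t38 : tra 18 67 2284 812 2284 21 2 = true := by decide +kernel

def t39 : tra 18 67 2284 812 2284 23 2 = true := by decide +kernel

def t40 : tra 18 67 2284 812 2284 25 2 = true := by decide +kernel

def t41 : tra 18 67 2284 812 2284 27 2 = true := by decide +kernel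

def t42 : tra 18 67 2284 812 2284 29 3 = true := by decide +kernel

def t43 : tra 18 67 2284 812 2284 32 3 = true := by decide +kernel

def t44 : tra 18 67 2284 812 2284 35 3 = true := by decide +kernel

def t45 : tra 18 67 2284 812 2284 38 4 = true := by decide +kernel

def t46 : tra 18 67 2284 812 2284 42 5 = true := by decide +kernel

def t47 : tra 18 67 2284 812 2284 47 6 = true := by decide +kernel

def t48 : tra 18 67 2284 812 2284 53 7 = true := by decide +kernel

def t49 : tra 18 67 2284 812 2284 60 10 = true := by decide +kernel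

theorem tr : TR 18 2284 812 2284 0 70 :=
  (((((((((((((((((((((((((((((((((TRn.toTR u0 (by norm_num) (by norm_num) (i1 := 1) rfl).trans
    (TRn.toTR u1 (by norm_num) (by norm_num) (i1 := 2) rfl)).trans
    (TRn.toTR u2 (by norm_num) (by norm_num) (i1 := 3) rfl)).trans
    (TRn.toTR u3 (by norm_num) (by norm_num) (i1 := 4) rfl)).trans
    (TRn.toTR u4 (by norm_num) (by norm_num) (i1 := 5) rfl)).trans
    (TRn.toTR u5 (by norm_num) (by norm_num) (i1 := 6) rfl)).trans
    (TRn.toTR u6 (by norm_num) (by norm_num) (i1 := 7) rfl)).trans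
    (TRn.toTR u7 (by norm_num) (by norm_num) (i1 := 8) rfl)).trans
    (TRn.toTR u8 (by norm_num) (by norm_num) (i1 := 9) rfl)).trans
    (TR_of t26 (by norm_num) (by norm_num) (i1 := 10) rfl)).trans
    (TR_of t27 (by norm_num) (by norm_num) (i1 := 11) rfl)).trans
    (TR_of t28 (by norm_num) (by norm_num) (i1 := 12) rfl)).trans
    (TR_of t29 (by norm_num) (by norm_num) (i1 := 13) rfl)).trans
    (TR_of t30 (by norm_num) (by norm_num) (i1 := 14) rfl)).trans
    (TR_of t31 (by norm_num) (by norm_num) (i1 := 15) rfl)).trans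
    (TR_of t32 (by norm_num) (by norm_num) (i1 := 16) rfl)).trans
    (TR_of t33 (by norm_num) (by norm_num) (i1 := 17) rfl)).trans
    (TR_of t34 (by norm_num) (by norm_num) (i1 := 18) rfl)).trans
    (TR_of t35 (by norm_num) (by norm_num) (i1 := 19) rfl)).trans
    (TR_of t36 (by norm_num) (by norm_num) (i1 := 20) rfl)).trans
    (TR_of t37 (by norm_num) (by norm_num) (i1 := 21) rfl)).trans
    (TR_of t38 (by norm_num) (by norm_num) (i1 := 23) rfl)).trans
    (TR_of t39 (by norm_num) (by norm_num) (i1 := 25) rfl)).trans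
    (TR_of t40 (by norm_num) (by norm_num) (i1 := 27) rfl)).trans
    (TR_of t41 (by norm_num) (by norm_num) (i1 := 29) rfl)).trans
    (TR_of t42 (by norm_num) (by norm_num) (i1 := 32) rfl)).trans
    (TR_of t43 (by norm_num) (by norm_num) (i1 := 35) rfl)).trans
    (TR_of t44 (by norm_num) (by norm_num) (i1 := 38) rfl)).trans
    (TR_of t45 (by norm_num) (by norm_num) (i1 := 42) rfl)).trans
    (TR_of t46 (by norm_num) (by norm_num) (i1 := 47) rfl)).trans
    (TR_of t47 (by norm_num) (by norm_num) (i1 := 53) rfl)).trans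
    (TR_of t48 (by norm_num) (by norm_num) (i1 := 60) rfl)).trans
    (TR_of t49 (by norm_num) (by norm_num) (i1 := 70) rfl))

end Pool.Agent.SignedQ.KD.Tr18_0
end
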