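import Pool.Agent.Lib.MP_cf17a0_co.Mg.G067

section

set_option autoImplicit false
set_option maxRecDepth 100000

namespace Pool.Agent.SignedQ.KD.Tr18_1

def t0 : tra 18 67 2284 812 2284 70 13 = true := by decide +kernel

def t1 : tra 18 67 2284 812 2284 83 19 = true := by decide +kernel

def t2 : tra 18 67 2284 812 2284 102 32 = true := by decide +kernel

def t3 : tra 18 67 2284 812 2284 134 60 = true := by decide +kernel

def t4 : tra 18 67 2284 812 2284 194 162 = true := by decide +kernel

def t5 : tra 18 67 2284 812 2284 356 785 = true := by decide +kernel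

theorem tr : TR 18 2284 812 2284 70 1141 :=
  ((((((TR_of t0 (by norm_num) (by norm_num) (i1 := 83) rfl).trans
    (TR_of t1 (by norm_num) (by norm_num) (i1 := 102) rfl)).trans
    (TR_of t2 (by norm_num) (by norm_num) (i1 := 134) rfl)).trans
    (TR_of t3 (by norm_num) (by norm_num) (i1 := 194) rfl)).trans
    (TR_of t4 (by norm_num) (by norm_num) (i1 := 356) rfl)).trans
    (TR_of t5 (by norm_num) (by norm_num) (i1 := 1141) rfl))

end Pool.Agent.SignedQ.KD.Tr18_1
end

section

set_option autoImplicit false
set_option maxRecDepth 100000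

namespace Pool.Agent.SignedQ.KD.Tr19_0

def t0 : ftr 19 69 2626 3 281 158 = true := by decide +kernel

def t1 : ftr 19 69 2626 3 439 158 = true := by decide +kernel

def t2 : ftr 19 69 2626 3 597 158 = true := by decide +kernel

def t3 : ftr 19 69 2626 3 755 120 = true := by decide +kernel

theorem u0 : TRn 19 2626 (2 * 0 + 3) 281 875 :=
  ((((TRn_of t0 (by norm_num) (by norm_num) (n1 := 439) rfl).trans (TRn_of t1 (by norm_num) (by norm_num) (n1 := 597) rfl)).trans (TRn_of t2 (by norm_num) (by norm_num) (n1 := 755) rfl)).trans (TRn_of t3 (by norm_num) (by norm_num) (n1 := 875) rfl))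

def t4 : ftr 19 69 2626 5 161 158 = true := by decide +kernel

def t5 : ftr 19 69 2626 5 319 158 = true := by decide +kernel

def t6 : ftr 19 69 2626 5 477 48 = true := by decide +kernel

theorem u1 : TRn 19 2626 (2 * 1 + 3) 161 525 :=
  (((TRn_of t4 (by norm_num) (by norm_num) (n1 := 319) rfl).trans (TRn_of t5 (by norm_num) (by norm_num) (n1 := 477) rfl)).trans (TRn_of t6 (by norm_num) (by norm_num) (n1 := 525) rfl))

def t7 : ftr 19 69 2626 7 110 157 = true := by decide +kernel

def t8 : ftr 19 69 2626 7 267 108 = true := by decide +kernel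

theorem u2 : TRn 19 2626 (2 * 2 + 3) 110 375 :=
  ((TRn_of t7 (by norm_num) (by norm_num) (n1 := 267) rfl).trans (TRn_of t8 (by norm_num) (by norm_num) (n1 := 375) rfl))

def t9 : ftr 19 69 2626 9 81 158 = true := by decide +kernel

def t10 : ftr 19 69 2626 9 239 52 = true := by decide +kernel

theorem u3 : TRn 19 2626 (2 * 3 + 3) 81 291 :=
  ((TRn_of t9 (by norm_num) (by norm_num) (n1 := 239) rfl).trans (TRn_of t10 (by norm_num) (by norm_num) (n1 := 291) rfl))

def t11 : ftr 19 69 2626 11 63 160 = true := by decide +kernel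

def t12 : ftr 19 69 2626 11 223 15 = true := by decide +kernel

theorem u4 : TRn 19 2626 (2 * 4 + 3) 63 238 :=
  ((TRn_of t11 (by norm_num) (by norm_num) (n1 := 223) rfl).trans (TRn_of t12 (by norm_num) (by norm_num) (n1 := 238) rfl))

def t13 : tra 19 69 2626 898 2626 5 1 = true := by decide +kernel

def t14 : tra 19 69 2626 898 2626 6 1 = true := by decide +kernel

def t15 : tra 19 69 2626 898 2626 7 1 = true := by decide +kernel

def t16 : tra 19 69 2626 898 2626 8 1 = true := by decide +kernel

def t17 : tra 19 69 2626 898 2626 9 1 = true := by decide +kernel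

def t18 : tra 19 69 2626 898 2626 10 1 = true := by decide +kernel

def t19 : tra 19 69 2626 898 2626 11 2 = true := by decide +kernel

def t20 : tra 19 69 2626 898 2626 13 2 = true := by decide +kernel

def t21 : tra 19 69 2626 898 2626 15 2 = true := by decide +kernel

def t22 : tra 19 69 2626 898 2626 17 2 = true := by decide +kernel

def t23 : tra 19 69 2626 898 2626 19 3 = true := by decide +kernel

def t24 : tra 19 69 2626 898 2626 22 3 = true := by decide +kernel

def t25 : tra 19 69 2626 898 2626 25 4 = true := by decide +kernel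

def t26 : tra 19 69 2626 898 2626 29 4 = true := by decide +kernel

def t27 : tra 19 69 2626 898 2626 33 5 = true := by decide +kernel

def t28 : tra 19 69 2626 898 2626 38 7 = true := by decide +kernel

def t29 : tra 19 69 2626 898 2626 45 9 = true := by decide +kernel

def t30 : tra 19 69 2626 898 2626 54 12 = true := by decide +kernel

def t31 : tra 19 69 2626 898 2626 66 19 = true := by decide +kernel

def t32 : tra 19 69 2626 898 2626 85 32 = true := by decide +kernel

def t33 : tra 19 69 2626 898 2626 117 69 = true := by decide +kernel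

def t34 : tra 19 69 2626 898 2626 186 222 = true := by decide +kernel

def t35 : tra 19 69 2626 898 2626 408 904 = true := by decide +kernel

theorem tr : TR 19 2626 898 2626 0 1312 :=
  ((((((((((((((((((((((((((((TRn.toTR u0 (by norm_num) (by norm_num) (i1 := 1) rfl).trans
    (TRn.toTR u1 (by norm_num) (by norm_num) (i1 := 2) rfl)).trans
    (TRn.toTR u2 (by norm_num) (by norm_num) (i1 := 3) rfl)).trans
    (TRn.toTR u3 (by norm_num) (by norm_num) (i1 := 4) rfl)).trans
    (TRn.toTR u4 (by norm_num) (by norm_num) (i1 := 5) rfl)).trans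
    (TR_of t13 (by norm_num) (by norm_num) (i1 := 6) rfl)).trans
    (TR_of t14 (by norm_num) (by norm_num) (i1 := 7) rfl)).trans
    (TR_of t15 (by norm_num) (by norm_num) (i1 := 8) rfl)).trans
    (TR_of t16 (by norm_num) (by norm_num) (i1 := 9) rfl)).trans
    (TR_of t17 (by norm_num) (by norm_num) (i1 := 10) rfl)).trans
    (TR_of t18 (by norm_num) (by norm_num) (i1 := 11) rfl)).trans
    (TR_of t19 (by norm_num) (by norm_num) (i1 := 13) rfl)).trans
    (TR_of t20 (by norm_num) (by norm_num) (i1 := 15) rfl)).trans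
    (TR_of t21 (by norm_num) (by norm_num) (i1 := 17) rfl)).trans
    (TR_of t22 (by norm_num) (by norm_num) (i1 := 19) rfl)).trans
    (TR_of t23 (by norm_num) (by norm_num) (i1 := 22) rfl)).trans
    (TR_of t24 (by norm_num) (by norm_num) (i1 := 25) rfl)).trans
    (TR_of t25 (by norm_num) (by norm_num) (i1 := 29) rfl)).trans
    (TR_of t26 (by norm_num) (by norm_num) (i1 := 33) rfl)).trans
    (TR_of t27 (by norm_num) (by norm_num) (i1 := 38) rfl)).trans
    (TR_of t28 (by norm_num) (by norm_num) (i1 := 45) rfl)).trans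
    (TR_of t29 (by norm_num) (by norm_num) (i1 := 54) rfl)).trans
    (TR_of t30 (by norm_num) (by norm_num) (i1 := 66) rfl)).trans
    (TR_of t31 (by norm_num) (by norm_num) (i1 := 85) rfl)).trans
    (TR_of t32 (by norm_num) (by norm_num) (i1 := 117) rfl)).trans
    (TR_of t33 (by norm_num) (by norm_num) (i1 := 186) rfl)).trans
    (TR_of t34 (by norm_num) (by norm_num) (i1 := 408) rfl)).trans
    (TR_of t35 (by norm_num) (by norm_num) (i1 := 1312) rfl))

end Pool.Agent.SignedQ.KD.Tr19_0
end

section

set_option autoImplicit false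
set_option maxRecDepth 100000

namespace Pool.Agent.SignedQ.KD.Tr20_0

def t0 : ftr 20 74 2626 3 258 76 = true := by decide +kernel

def t1 : ftr 20 74 2626 3 334 76 = true := by decide +kernel

def t2 : ftr 20 74 2626 3 410 76 = true := by decide +kernel

def t3 : ftr 20 74 2626 3 486 76 = true := by decide +kernel

def t4 : ftr 20 74 2626 3 562 76 = true := by decide +kernel

def t5 : ftr 20 74 2626 3 638 76 = true := by decide +kernel

def t6 : ftr 20 74 2626 3 714 76 = true := by decide +kernel

def t7 : ftr 20 74 2626 3 790 82 = true := by decide +kernel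

def t8 : ftr 20 74 2626 3 872 3 = true := by decide +kernel

theorem u0 : TRn 20 2626 (2 * 0 + 3) 258 875 :=
  (((((((((TRn_of t0 (by norm_num) (by norm_num) (n1 := 334) rfl).trans (TRn_of t1 (by norm_num) (by norm_num) (n1 := 410) rfl)).trans (TRn_of t2 (by norm_num) (by norm_num) (n1 := 486) rfl)).trans (TRn_of t3 (by norm_num) (by norm_num) (n1 := 562) rfl)).trans (TRn_of t4 (by norm_num) (by norm_num) (n1 := 638) rfl)).trans (TRn_of t5 (by norm_num) (by norm_num) (n1 := 714) rfl)).trans (TRn_of t6 (by norm_num) (by norm_num) (n1 := 790) rfl)).trans (TRn_of t7 (by norm_num) (by norm_num) (n1 := 872) rfl)).trans (TRn_of t8 (by norm_num) (by norm_num) (n1 := 875) rfl))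

def t9 : ftr 20 74 2626 5 147 76 = true := by decide +kernel

def t10 : ftr 20 74 2626 5 223 76 = true := by decide +kernel

def t11 : ftr 20 74 2626 5 299 76 = true := by decide +kernel

def t12 : ftr 20 74 2626 5 375 76 = true := by decide +kernel

def t13 : ftr 20 74 2626 5 451 74 = true := by decide +kernel

theorem u1 : TRn 20 2626 (2 * 1 + 3) 147 525 :=
  (((((TRn_of t9 (by norm_num) (by norm_num) (n1 := 223) rfl).trans (TRn_of t10 (by norm_num) (by norm_num) (n1 := 299) rfl)).trans (TRn_of t11 (by norm_num) (by norm_num) (n1 := 375) rfl)).trans (TRn_of t12 (by norm_num) (by norm_num) (n1 := 451) rfl)).trans (TRn_of t13 (by norm_num) (by norm_num) (n1 := 525) rfl))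

def t14 : ftr 20 74 2626 7 100 76 = true := by decide +kernel

def t15 : ftr 20 74 2626 7 176 76 = true := by decide +kernel

def t16 : ftr 20 74 2626 7 252 76 = true := by decide +kernel

def t17 : ftr 20 74 2626 7 328 47 = true := by decide +kernel

theorem u2 : TRn 20 2626 (2 * 2 + 3) 100 375 :=
  ((((TRn_of t14 (by norm_num) (by norm_num) (n1 := 176) rfl).trans (TRn_of t15 (by norm_num) (by norm_num) (n1 := 252) rfl)).trans (TRn_of t16 (by norm_num) (by norm_num) (n1 := 328) rfl)).trans (TRn_of t17 (by norm_num) (by norm_num) (n1 := 375) rfl))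

def t18 : ftr 20 74 2626 9 73 76 = true := by decide +kernel

def t19 : ftr 20 74 2626 9 149 76 = true := by decide +kernel

def t20 : ftr 20 74 2626 9 225 66 = true := by decide +kernel

theorem u3 : TRn 20 2626 (2 * 3 + 3) 73 291 :=
  (((TRn_of t18 (by norm_num) (by norm_num) (n1 := 149) rfl).trans (TRn_of t19 (by norm_num) (by norm_num) (n1 := 225) rfl)).trans (TRn_of t20 (by norm_num) (by norm_num) (n1 := 291) rfl))

def t21 : ftr 20 74 2626 11 56 76 = true := by decide +kernel

def t22 : ftr 20 74 2626 11 132 76 = true := by decide +kernel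

def t23 : ftr 20 74 2626 11 208 30 = true := by decide +kernel

theorem u4 : TRn 20 2626 (2 * 4 + 3) 56 238 :=
  (((TRn_of t21 (by norm_num) (by norm_num) (n1 := 132) rfl).trans (TRn_of t22 (by norm_num) (by norm_num) (n1 := 208) rfl)).trans (TRn_of t23 (by norm_num) (by norm_num) (n1 := 238) rfl))

def t24 : ftr 20 74 2626 13 45 76 = true := by decide +kernel

def t25 : ftr 20 74 2626 13 121 80 = true := by decide +kernel

theorem u5 : TRn 20 2626 (2 * 5 + 3) 45 201 :=
  ((TRn_of t24 (by norm_num) (by norm_num) (n1 := 121) rfl).trans (TRn_of t25 (by norm_num) (by norm_num) (n1 := 201) rfl))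

def t26 : ftr 20 74 2626 15 36 76 = true := by decide +kernel

def t27 : ftr 20 74 2626 15 112 63 = true := by decide +kernel

theorem u6 : TRn 20 2626 (2 * 6 + 3) 36 175 :=
  ((TRn_of t26 (by norm_num) (by norm_num) (n1 := 112) rfl).trans (TRn_of t27 (by norm_num) (by norm_num) (n1 := 175) rfl))

def t28 : ftr 20 74 2626 17 30 76 = true := by decide +kernel

def t29 : ftr 20 74 2626 17 106 48 = true := by decide +kernel

theorem u7 : TRn 20 2626 (2 * 7 + 3) 30 154 :=
  ((TRn_of t28 (by norm_num) (by norm_num) (n1 := 106) rfl).trans (TRn_of t29 (by norm_num) (by norm_num) (n1 := 154) rfl))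

def t30 : ftr 20 74 2626 19 24 76 = true := by decide +kernel

def t31 : ftr 20 74 2626 19 100 38 = true := by decide +kernel

theorem u8 : TRn 20 2626 (2 * 8 + 3) 24 138 :=
  ((TRn_of t30 (by norm_num) (by norm_num) (n1 := 100) rfl).trans (TRn_of t31 (by norm_num) (by norm_num) (n1 := 138) rfl))

def t32 : ftr 20 74 2626 21 20 76 = true := by decide +kernel

def t33 : ftr 20 74 2626 21 96 29 = true := by decide +kernel

theorem u9 : TRn 20 2626 (2 * 9 + 3) 20 125 :=
  ((TRn_of t32 (by norm_num) (by norm_num) (n1 := 96) rfl).trans (TRn_of t33 (by norm_num) (by norm_num) (n1 := 125) rfl))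

def t34 : ftr 20 74 2626 23 17 76 = true := by decide +kernel

def t35 : ftr 20 74 2626 23 93 21 = true := by decide +kernel

theorem u10 : TRn 20 2626 (2 * 10 + 3) 17 114 :=
  ((TRn_of t34 (by norm_num) (by norm_num) (n1 := 93) rfl).trans (TRn_of t35 (by norm_num) (by norm_num) (n1 := 114) rfl))

def t36 : ftr 20 74 2626 25 14 76 = true := by decide +kernel

def t37 : ftr 20 74 2626 25 90 15 = true := by decide +kernel

theorem u11 : TRn 20 2626 (2 * 11 + 3) 14 105 :=
  ((TRn_of t36 (by norm_num) (by norm_num) (n1 := 90) rfl).trans (TRn_of t37 (by norm_num) (by norm_num) (n1 := 105) rfl))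

def t38 : ftr 20 74 2626 27 11 79 = true := by decide +kernel

def t39 : ftr 20 74 2626 27 90 7 = true := by decide +kernel

theorem u12 : TRn 20 2626 (2 * 12 + 3) 11 97 :=
  ((TRn_of t38 (by norm_num) (by norm_num) (n1 := 90) rfl).trans (TRn_of t39 (by norm_num) (by norm_num) (n1 := 97) rfl))

def t40 : tra 20 74 2626 834 2626 13 1 = true := by decide +kernel

def t41 : tra 20 74 2626 834 2626 14 1 = true := by decide +kernel

def t42 : tra 20 74 2626 834 2626 15 1 = true := by decide +kernel

def t43 : tra 20 74 2626 834 2626 16 1 = true := by decide +kernel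

def t44 : tra 20 74 2626 834 2626 17 1 = true := by decide +kernel

def t45 : tra 20 74 2626 834 2626 18 1 = true := by decide +kernel

def t46 : tra 20 74 2626 834 2626 19 1 = true := by decide +kernel

def t47 : tra 20 74 2626 834 2626 20 1 = true := by decide +kernel

def t48 : tra 20 74 2626 834 2626 21 1 = true := by decide +kernel

def t49 : tra 20 74 2626 834 2626 22 1 = true := by decide +kernel

theorem tr : TR 20 2626 834 2626 0 23 :=
  (((((((((((((((((((((((TRn.toTR u0 (by norm_num) (by norm_num) (i1 := 1) rfl).trans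
    (TRn.toTR u1 (by norm_num) (by norm_num) (i1 := 2) rfl)).trans
    (TRn.toTR u2 (by norm_num) (by norm_num) (i1 := 3) rfl)).trans
    (TRn.toTR u3 (by norm_num) (by norm_num) (i1 := 4) rfl)).trans
    (TRn.toTR u4 (by norm_num) (by norm_num) (i1 := 5) rfl)).trans
    (TRn.toTR u5 (by norm_num) (by norm_num) (i1 := 6) rfl)).trans
    (TRn.toTR u6 (by norm_num) (by norm_num) (i1 := 7) rfl)).trans
    (TRn.toTR u7 (by norm_num) (by norm_num) (i1 := 8) rfl)).trans
    (TRn.toTR u8 (by norm_num) (by norm_num) (i1 := 9) rfl)).trans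
    (TRn.toTR u9 (by norm_num) (by norm_num) (i1 := 10) rfl)).trans
    (TRn.toTR u10 (by norm_num) (by norm_num) (i1 := 11) rfl)).trans
    (TRn.toTR u11 (by norm_num) (by norm_num) (i1 := 12) rfl)).trans
    (TRn.toTR u12 (by norm_num) (by norm_num) (i1 := 13) rfl)).trans
    (TR_of t40 (by norm_num) (by norm_num) (i1 := 14) rfl)).trans
    (TR_of t41 (by norm_num) (by norm_num) (i1 := 15) rfl)).trans
    (TR_of t42 (by norm_num) (by norm_num) (i1 := 16) rfl)).trans
    (TR_of t43 (by norm_num) (by norm_num) (i1 := 17) rfl)).trans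
    (TR_of t44 (by norm_num) (by norm_num) (i1 := 18) rfl)).trans
    (TR_of t45 (by norm_num) (by norm_num) (i1 := 19) rfl)).trans
    (TR_of t46 (by norm_num) (by norm_num) (i1 := 20) rfl)).trans
    (TR_of t47 (by norm_num) (by norm_num) (i1 := 21) rfl)).trans
    (TR_of t48 (by norm_num) (by norm_num) (i1 := 22) rfl)).trans
    (TR_of t49 (by norm_num) (by norm_num) (i1 := 23) rfl))

end Pool.Agent.SignedQ.KD.Tr20_0
end

section

set_option autoImplicit false
set_option maxRecDepth 100000

namespace Pool.Agent.SignedQ.KD.Tr6_0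

def t0 : tra 6 25 3995 3543 3995 0 2 = true := by decide +kernel

def t1 : tra 6 25 3995 3543 3995 2 5 = true := by decide +kernel

def t2 : tra 6 25 3995 3543 3995 7 13 = true := by decide +kernel

def t3 : tra 6 25 3995 3543 3995 20 26 = true := by decide +kernel

def t4 : tra 6 25 3995 3543 3995 46 42 = true := by decide +kernel

def t5 : tra 6 25 3995 3543 3995 88 55 = true := by decide +kernel

def t6 : tra 6 25 3995 3543 3995 143 66 = true := by decide +kernel

def t7 : tra 6 25 3995 3543 3995 209 72 = true := by decide +kernel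

def t8 : tra 6 25 3995 3543 3995 281 83 = true := by decide +kernel

def t9 : tra 6 25 3995 3543 3995 364 133 = true := by decide +kernel

def t10 : tra 6 25 3995 3543 3995 497 330 = true := by decide +kernel

def t11 : tra 6 25 3995 3543 3995 827 1158 = true := by decide +kernel

def t12 : tra 6 25 3995 3543 3995 1985 11 = true := by decide +kernel

theorem tr : TR 6 3995 3543 3995 0 1996 :=
  (((((((((((((TR_of t0 (by norm_num) (by norm_num) (i1 := 2) rfl).trans
    (TR_of t1 (by norm_num) (by norm_num) (i1 := 7) rfl)).trans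
    (TR_of t2 (by norm_num) (by norm_num) (i1 := 20) rfl)).trans
    (TR_of t3 (by norm_num) (by norm_num) (i1 := 46) rfl)).trans
    (TR_of t4 (by norm_num) (by norm_num) (i1 := 88) rfl)).trans
    (TR_of t5 (by norm_num) (by norm_num) (i1 := 143) rfl)).trans
    (TR_of t6 (by norm_num) (by norm_num) (i1 := 209) rfl)).trans
    (TR_of t7 (by norm_num) (by norm_num) (i1 := 281) rfl)).trans
    (TR_of t8 (by norm_num) (by norm_num) (i1 := 364) rfl)).trans
    (TR_of t9 (by norm_num) (by norm_num) (i1 := 497) rfl)).trans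
    (TR_of t10 (by norm_num) (by norm_num) (i1 := 827) rfl)).trans
    (TR_of t11 (by norm_num) (by norm_num) (i1 := 1985) rfl)).trans
    (TR_of t12 (by norm_num) (by norm_num) (i1 := 1996) rfl))

end Pool.Agent.SignedQ.KD.Tr6_0
end
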