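import Pool.Agent.Lib.MP_cf17a0_co.Mg.G067

section

set_option autoImplicit false
set_option maxRecDepth 100000

namespace Pool.Agent.SignedQ.KD.Tr20_1

def t0 : tra 20 74 2626 834 2626 23 1 = true := by decide +kernel

def t1 : tra 20 74 2626 834 2626 24 1 = true := by decide +kernel

def t2 : tra 20 74 2626 834 2626 25 1 = true := by decide +kernel

def t3 : tra 20 74 2626 834 2626 26 2 = true := by decide +kernel

def t4 : tra 20 74 2626 834 2626 28 2 = true := by decide +kernel

def t5 : tra 20 74 2626 834 2626 30 2 = true := by decide +kernel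

def t6 : tra 20 74 2626 834 2626 32 2 = true := by decide +kernel

def t7 : tra 20 74 2626 834 2626 34 2 = true := by decide +kernel

def t8 : tra 20 74 2626 834 2626 36 3 = true := by decide +kernel

def t9 : tra 20 74 2626 834 2626 39 3 = true := by decide +kernel

def t10 : tra 20 74 2626 834 2626 42 3 = true := by decide +kernel

def t11 : tra 20 74 2626 834 2626 45 4 = true := by decide +kernel

def t12 : tra 20 74 2626 834 2626 49 4 = true := by decide +kernel

def t13 : tra 20 74 2626 834 2626 53 5 = true := by decide +kernel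

def t14 : tra 20 74 2626 834 2626 58 6 = true := by decide +kernel

def t15 : tra 20 74 2626 834 2626 64 8 = true := by decide +kernel

def t16 : tra 20 74 2626 834 2626 72 10 = true := by decide +kernel

def t17 : tra 20 74 2626 834 2626 82 13 = true := by decide +kernel

def t18 : tra 20 74 2626 834 2626 95 19 = true := by decide +kernel

def t19 : tra 20 74 2626 834 2626 114 28 = true := by decide +kernel

def t20 : tra 20 74 2626 834 2626 142 47 = true := by decide +kernel

def t21 : tra 20 74 2626 834 2626 189 96 = true := by decide +kernel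

def t22 : tra 20 74 2626 834 2626 285 292 = true := by decide +kernel

def t23 : tra 20 74 2626 834 2626 577 735 = true := by decide +kernel

theorem tr : TR 20 2626 834 2626 23 1312 :=
  ((((((((((((((((((((((((TR_of t0 (by norm_num) (by norm_num) (i1 := 24) rfl).trans
    (TR_of t1 (by norm_num) (by norm_num) (i1 := 25) rfl)).trans
    (TR_of t2 (by norm_num) (by norm_num) (i1 := 26) rfl)).trans
    (TR_of t3 (by norm_num) (by norm_num) (i1 := 28) rfl)).trans
    (TR_of t4 (by norm_num) (by norm_num) (i1 := 30) rfl)).trans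
    (TR_of t5 (by norm_num) (by norm_num) (i1 := 32) rfl)).trans
    (TR_of t6 (by norm_num) (by norm_num) (i1 := 34) rfl)).trans
    (TR_of t7 (by norm_num) (by norm_num) (i1 := 36) rfl)).trans
    (TR_of t8 (by norm_num) (by norm_num) (i1 := 39) rfl)).trans
    (TR_of t9 (by norm_num) (by norm_num) (i1 := 42) rfl)).trans
    (TR_of t10 (by norm_num) (by norm_num) (i1 := 45) rfl)).trans
    (TR_of t11 (by norm_num) (by norm_num) (i1 := 49) rfl)).trans
    (TR_of t12 (by norm_num) (by norm_num) (i1 := 53) rfl)).trans
    (TR_of t13 (by norm_num) (by norm_num) (i1 := 58) rfl)).trans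
    (TR_of t14 (by norm_num) (by norm_num) (i1 := 64) rfl)).trans
    (TR_of t15 (by norm_num) (by norm_num) (i1 := 72) rfl)).trans
    (TR_of t16 (by norm_num) (by norm_num) (i1 := 82) rfl)).trans
    (TR_of t17 (by norm_num) (by norm_num) (i1 := 95) rfl)).trans
    (TR_of t18 (by norm_num) (by norm_num) (i1 := 114) rfl)).trans
    (TR_of t19 (by norm_num) (by norm_num) (i1 := 142) rfl)).trans
    (TR_of t20 (by norm_num) (by norm_num) (i1 := 189) rfl)).trans
    (TR_of t21 (by norm_num) (by norm_num) (i1 := 285) rfl)).trans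
    (TR_of t22 (by norm_num) (by norm_num) (i1 := 577) rfl)).trans
    (TR_of t23 (by norm_num) (by norm_num) (i1 := 1312) rfl))

end Pool.Agent.SignedQ.KD.Tr20_1
end

section

set_option autoImplicit false
set_option maxRecDepth 100000

namespace Pool.Agent.SignedQ.KD.Tr21_0

def t0 : ftr 21 79 3474 3 322 143 = true := by decide +kernel

def t1 : ftr 21 79 3474 3 465 144 = true := by decide +kernel

def t2 : ftr 21 79 3474 3 609 144 = true := by decide +kernel

def t3 : ftr 21 79 3474 3 753 144 = true := by decide +kernel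

def t4 : ftr 21 79 3474 3 897 144 = true := by decide +kernel

def t5 : ftr 21 79 3474 3 1041 116 = true := by decide +kernel

theorem u0 : TRn 21 3474 (2 * 0 + 3) 322 1157 :=
  ((((((TRn_of t0 (by norm_num) (by norm_num) (n1 := 465) rfl).trans (TRn_of t1 (by norm_num) (by norm_num) (n1 := 609) rfl)).trans (TRn_of t2 (by norm_num) (by norm_num) (n1 := 753) rfl)).trans (TRn_of t3 (by norm_num) (by norm_num) (n1 := 897) rfl)).trans (TRn_of t4 (by norm_num) (by norm_num) (n1 := 1041) rfl)).trans (TRn_of t5 (by norm_num) (by norm_num) (n1 := 1157) rfl))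

def t6 : ftr 21 79 3474 5 185 144 = true := by decide +kernel

def t7 : ftr 21 79 3474 5 329 144 = true := by decide +kernel

def t8 : ftr 21 79 3474 5 473 144 = true := by decide +kernel

def t9 : ftr 21 79 3474 5 617 77 = true := by decide +kernel

theorem u1 : TRn 21 3474 (2 * 1 + 3) 185 694 :=
  ((((TRn_of t6 (by norm_num) (by norm_num) (n1 := 329) rfl).trans (TRn_of t7 (by norm_num) (by norm_num) (n1 := 473) rfl)).trans (TRn_of t8 (by norm_num) (by norm_num) (n1 := 617) rfl)).trans (TRn_of t9 (by norm_num) (by norm_num) (n1 := 694) rfl))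

def t10 : ftr 21 79 3474 7 126 143 = true := by decide +kernel

def t11 : ftr 21 79 3474 7 269 144 = true := by decide +kernel

def t12 : ftr 21 79 3474 7 413 83 = true := by decide +kernel

theorem u2 : TRn 21 3474 (2 * 2 + 3) 126 496 :=
  (((TRn_of t10 (by norm_num) (by norm_num) (n1 := 269) rfl).trans (TRn_of t11 (by norm_num) (by norm_num) (n1 := 413) rfl)).trans (TRn_of t12 (by norm_num) (by norm_num) (n1 := 496) rfl))

def t13 : ftr 21 79 3474 9 94 143 = true := by decide +kernel

def t14 : ftr 21 79 3474 9 237 148 = true := by decide +kernel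

theorem u3 : TRn 21 3474 (2 * 3 + 3) 94 385 :=
  ((TRn_of t13 (by norm_num) (by norm_num) (n1 := 237) rfl).trans (TRn_of t14 (by norm_num) (by norm_num) (n1 := 385) rfl))

def t15 : ftr 21 79 3474 11 73 144 = true := by decide +kernel

def t16 : ftr 21 79 3474 11 217 98 = true := by decide +kernel

theorem u4 : TRn 21 3474 (2 * 4 + 3) 73 315 :=
  ((TRn_of t15 (by norm_num) (by norm_num) (n1 := 217) rfl).trans (TRn_of t16 (by norm_num) (by norm_num) (n1 := 315) rfl))

def t17 : ftr 21 79 3474 13 59 144 = true := by decide +kernel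

def t18 : ftr 21 79 3474 13 203 64 = true := by decide +kernel

theorem u5 : TRn 21 3474 (2 * 5 + 3) 59 267 :=
  ((TRn_of t17 (by norm_num) (by norm_num) (n1 := 203) rfl).trans (TRn_of t18 (by norm_num) (by norm_num) (n1 := 267) rfl))

def t19 : ftr 21 79 3474 15 48 143 = true := by decide +kernel

def t20 : ftr 21 79 3474 15 191 40 = true := by decide +kernel

theorem u6 : TRn 21 3474 (2 * 6 + 3) 48 231 :=
  ((TRn_of t19 (by norm_num) (by norm_num) (n1 := 191) rfl).trans (TRn_of t20 (by norm_num) (by norm_num) (n1 := 231) rfl))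

def t21 : ftr 21 79 3474 17 40 143 = true := by decide +kernel

def t22 : ftr 21 79 3474 17 183 21 = true := by decide +kernel

theorem u7 : TRn 21 3474 (2 * 7 + 3) 40 204 :=
  ((TRn_of t21 (by norm_num) (by norm_num) (n1 := 183) rfl).trans (TRn_of t22 (by norm_num) (by norm_num) (n1 := 204) rfl))

def t23 : tra 21 79 3474 1028 3474 8 1 = true := by decide +kernel

def t24 : tra 21 79 3474 1028 3474 9 1 = true := by decide +kernel

def t25 : tra 21 79 3474 1028 3474 10 1 = true := by decide +kernel

def t26 : tra 21 79 3474 1028 3474 11 1 = true := by decide +kernel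

def t27 : tra 21 79 3474 1028 3474 12 1 = true := by decide +kernel

def t28 : tra 21 79 3474 1028 3474 13 1 = true := by decide +kernel

def t29 : tra 21 79 3474 1028 3474 14 1 = true := by decide +kernel

def t30 : tra 21 79 3474 1028 3474 15 1 = true := by decide +kernel

def t31 : tra 21 79 3474 1028 3474 16 1 = true := by decide +kernel

def t32 : tra 21 79 3474 1028 3474 17 1 = true := by decide +kernel

def t33 : tra 21 79 3474 1028 3474 18 2 = true := by decide +kernel

def t34 : tra 21 79 3474 1028 3474 20 2 = true := by decide +kernel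

def t35 : tra 21 79 3474 1028 3474 22 2 = true := by decide +kernel

def t36 : tra 21 79 3474 1028 3474 24 2 = true := by decide +kernel

def t37 : tra 21 79 3474 1028 3474 26 2 = true := by decide +kernel

def t38 : tra 21 79 3474 1028 3474 28 3 = true := by decide +kernel

def t39 : tra 21 79 3474 1028 3474 31 3 = true := by decide +kernel

def t40 : tra 21 79 3474 1028 3474 34 3 = true := by decide +kernel

def t41 : tra 21 79 3474 1028 3474 37 4 = true := by decide +kernel

def t42 : tra 21 79 3474 1028 3474 41 4 = true := by decide +kernel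

def t43 : tra 21 79 3474 1028 3474 45 5 = true := by decide +kernel

def t44 : tra 21 79 3474 1028 3474 50 6 = true := by decide +kernel

def t45 : tra 21 79 3474 1028 3474 56 7 = true := by decide +kernel

def t46 : tra 21 79 3474 1028 3474 63 9 = true := by decide +kernel

def t47 : tra 21 79 3474 1028 3474 72 11 = true := by decide +kernel

def t48 : tra 21 79 3474 1028 3474 83 15 = true := by decide +kernel

def t49 : tra 21 79 3474 1028 3474 98 22 = true := by decide +kernel

theorem tr : TR 21 3474 1028 3474 0 120 :=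
  (((((((((((((((((((((((((((((((((((TRn.toTR u0 (by norm_num) (by norm_num) (i1 := 1) rfl).trans
    (TRn.toTR u1 (by norm_num) (by norm_num) (i1 := 2) rfl)).trans
    (TRn.toTR u2 (by norm_num) (by norm_num) (i1 := 3) rfl)).trans
    (TRn.toTR u3 (by norm_num) (by norm_num) (i1 := 4) rfl)).trans
    (TRn.toTR u4 (by norm_num) (by norm_num) (i1 := 5) rfl)).trans
    (TRn.toTR u5 (by norm_num) (by norm_num) (i1 := 6) rfl)).trans
    (TRn.toTR u6 (by norm_num) (by norm_num) (i1 := 7) rfl)).trans
    (TRn.toTR u7 (by norm_num) (by norm_num) (i1 := 8) rfl)).trans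
    (TR_of t23 (by norm_num) (by norm_num) (i1 := 9) rfl)).trans
    (TR_of t24 (by norm_num) (by norm_num) (i1 := 10) rfl)).trans
    (TR_of t25 (by norm_num) (by norm_num) (i1 := 11) rfl)).trans
    (TR_of t26 (by norm_num) (by norm_num) (i1 := 12) rfl)).trans
    (TR_of t27 (by norm_num) (by norm_num) (i1 := 13) rfl)).trans
    (TR_of t28 (by norm_num) (by norm_num) (i1 := 14) rfl)).trans
    (TR_of t29 (by norm_num) (by norm_num) (i1 := 15) rfl)).trans
    (TR_of t30 (by norm_num) (by norm_num) (i1 := 16) rfl)).trans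
    (TR_of t31 (by norm_num) (by norm_num) (i1 := 17) rfl)).trans
    (TR_of t32 (by norm_num) (by norm_num) (i1 := 18) rfl)).trans
    (TR_of t33 (by norm_num) (by norm_num) (i1 := 20) rfl)).trans
    (TR_of t34 (by norm_num) (by norm_num) (i1 := 22) rfl)).trans
    (TR_of t35 (by norm_num) (by norm_num) (i1 := 24) rfl)).trans
    (TR_of t36 (by norm_num) (by norm_num) (i1 := 26) rfl)).trans
    (TR_of t37 (by norm_num) (by norm_num) (i1 := 28) rfl)).trans
    (TR_of t38 (by norm_num) (by norm_num) (i1 := 31) rfl)).trans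
    (TR_of t39 (by norm_num) (by norm_num) (i1 := 34) rfl)).trans
    (TR_of t40 (by norm_num) (by norm_num) (i1 := 37) rfl)).trans
    (TR_of t41 (by norm_num) (by norm_num) (i1 := 41) rfl)).trans
    (TR_of t42 (by norm_num) (by norm_num) (i1 := 45) rfl)).trans
    (TR_of t43 (by norm_num) (by norm_num) (i1 := 50) rfl)).trans
    (TR_of t44 (by norm_num) (by norm_num) (i1 := 56) rfl)).trans
    (TR_of t45 (by norm_num) (by norm_num) (i1 := 63) rfl)).trans
    (TR_of t46 (by norm_num) (by norm_num) (i1 := 72) rfl)).trans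
    (TR_of t47 (by norm_num) (by norm_num) (i1 := 83) rfl)).trans
    (TR_of t48 (by norm_num) (by norm_num) (i1 := 98) rfl)).trans
    (TR_of t49 (by norm_num) (by norm_num) (i1 := 120) rfl))

end Pool.Agent.SignedQ.KD.Tr21_0
end

section

set_option autoImplicit false
set_option maxRecDepth 100000

namespace Pool.Agent.SignedQ.KD.Tr21_1

def t0 : tra 21 79 3474 1028 3474 120 34 = true := by decide +kernel

def t1 : tra 21 79 3474 1028 3474 154 59 = true := by decide +kernel

def t2 : tra 21 79 3474 1028 3474 213 125 = true := by decide +kernel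

def t3 : tra 21 79 3474 1028 3474 338 403 = true := by decide +kernel

def t4 : tra 21 79 3474 1028 3474 741 995 = true := by decide +kernel

theorem tr : TR 21 3474 1028 3474 120 1736 :=
  (((((TR_of t0 (by norm_num) (by norm_num) (i1 := 154) rfl).trans
    (TR_of t1 (by norm_num) (by norm_num) (i1 := 213) rfl)).trans
    (TR_of t2 (by norm_num) (by norm_num) (i1 := 338) rfl)).trans
    (TR_of t3 (by norm_num) (by norm_num) (i1 := 741) rfl)).trans
    (TR_of t4 (by norm_num) (by norm_num) (i1 := 1736) rfl))

end Pool.Agent.SignedQ.KD.Tr21_1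
end

section

set_option autoImplicit false
set_option maxRecDepth 100000

namespace Pool.Agent.SignedQ.KD.Tr24_1

def t0 : ftr 24 94 4594 11 74 63 = true := by decide +kernel

def t1 : ftr 24 94 4594 11 137 63 = true := by decide +kernel

def t2 : ftr 24 94 4594 11 200 63 = true := by decide +kernel

def t3 : ftr 24 94 4594 11 263 63 = true := by decide +kernel

def t4 : ftr 24 94 4594 11 326 63 = true := by decide +kernel

def t5 : ftr 24 94 4594 11 389 28 = true := by decide +kernel

theorem u4 : TRn 24 4594 (2 * 4 + 3) 74 417 :=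
  ((((((TRn_of t0 (by norm_num) (by norm_num) (n1 := 137) rfl).trans (TRn_of t1 (by norm_num) (by norm_num) (n1 := 200) rfl)).trans (TRn_of t2 (by norm_num) (by norm_num) (n1 := 263) rfl)).trans (TRn_of t3 (by norm_num) (by norm_num) (n1 := 326) rfl)).trans (TRn_of t4 (by norm_num) (by norm_num) (n1 := 389) rfl)).trans (TRn_of t5 (by norm_num) (by norm_num) (n1 := 417) rfl))

def t6 : ftr 24 94 4594 13 59 63 = true := by decide +kernel

def t7 : ftr 24 94 4594 13 122 63 = true := by decide +kernel

def t8 : ftr 24 94 4594 13 185 63 = true := by decide +kernel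

def t9 : ftr 24 94 4594 13 248 63 = true := by decide +kernel

def t10 : ftr 24 94 4594 13 311 42 = true := by decide +kernel

theorem u5 : TRn 24 4594 (2 * 5 + 3) 59 353 :=
  (((((TRn_of t6 (by norm_num) (by norm_num) (n1 := 122) rfl).trans (TRn_of t7 (by norm_num) (by norm_num) (n1 := 185) rfl)).trans (TRn_of t8 (by norm_num) (by norm_num) (n1 := 248) rfl)).trans (TRn_of t9 (by norm_num) (by norm_num) (n1 := 311) rfl)).trans (TRn_of t10 (by norm_num) (by norm_num) (n1 := 353) rfl))

def t11 : ftr 24 94 4594 15 48 63 = true := by decide +kernel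

def t12 : ftr 24 94 4594 15 111 63 = true := by decide +kernel

def t13 : ftr 24 94 4594 15 174 63 = true := by decide +kernel

def t14 : ftr 24 94 4594 15 237 69 = true := by decide +kernel

theorem u6 : TRn 24 4594 (2 * 6 + 3) 48 306 :=
  ((((TRn_of t11 (by norm_num) (by norm_num) (n1 := 111) rfl).trans (TRn_of t12 (by norm_num) (by norm_num) (n1 := 174) rfl)).trans (TRn_of t13 (by norm_num) (by norm_num) (n1 := 237) rfl)).trans (TRn_of t14 (by norm_num) (by norm_num) (n1 := 306) rfl))

def t15 : ftr 24 94 4594 17 40 63 = true := by decide +kernel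

def t16 : ftr 24 94 4594 17 103 63 = true := by decide +kernel

def t17 : ftr 24 94 4594 17 166 63 = true := by decide +kernel

def t18 : ftr 24 94 4594 17 229 41 = true := by decide +kernel

theorem u7 : TRn 24 4594 (2 * 7 + 3) 40 270 :=
  ((((TRn_of t15 (by norm_num) (by norm_num) (n1 := 103) rfl).trans (TRn_of t16 (by norm_num) (by norm_num) (n1 := 166) rfl)).trans (TRn_of t17 (by norm_num) (by norm_num) (n1 := 229) rfl)).trans (TRn_of t18 (by norm_num) (by norm_num) (n1 := 270) rfl))

def t19 : ftr 24 94 4594 19 33 63 = true := by decide +kernel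

def t20 : ftr 24 94 4594 19 96 63 = true := by decide +kernel

def t21 : ftr 24 94 4594 19 159 63 = true := by decide +kernel

def t22 : ftr 24 94 4594 19 222 19 = true := by decide +kernel

theorem u8 : TRn 24 4594 (2 * 8 + 3) 33 241 :=
  ((((TRn_of t19 (by norm_num) (by norm_num) (n1 := 96) rfl).trans (TRn_of t20 (by norm_num) (by norm_num) (n1 := 159) rfl)).trans (TRn_of t21 (by norm_num) (by norm_num) (n1 := 222) rfl)).trans (TRn_of t22 (by norm_num) (by norm_num) (n1 := 241) rfl))

def t23 : ftr 24 94 4594 21 28 63 = true := by decide +kernel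

def t24 : ftr 24 94 4594 21 91 63 = true := by decide +kernel

def t25 : ftr 24 94 4594 21 154 64 = true := by decide +kernel

theorem u9 : TRn 24 4594 (2 * 9 + 3) 28 218 :=
  (((TRn_of t23 (by norm_num) (by norm_num) (n1 := 91) rfl).trans (TRn_of t24 (by norm_num) (by norm_num) (n1 := 154) rfl)).trans (TRn_of t25 (by norm_num) (by norm_num) (n1 := 218) rfl))

def t26 : ftr 24 94 4594 23 23 63 = true := by decide +kernel

def t27 : ftr 24 94 4594 23 86 63 = true := by decide +kernel

def t28 : ftr 24 94 4594 23 149 50 = true := by decide +kernel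

theorem u10 : TRn 24 4594 (2 * 10 + 3) 23 199 :=
  (((TRn_of t26 (by norm_num) (by norm_num) (n1 := 86) rfl).trans (TRn_of t27 (by norm_num) (by norm_num) (n1 := 149) rfl)).trans (TRn_of t28 (by norm_num) (by norm_num) (n1 := 199) rfl))

def t29 : ftr 24 94 4594 25 20 63 = true := by decide +kernel

def t30 : ftr 24 94 4594 25 83 63 = true := by decide +kernel

def t31 : ftr 24 94 4594 25 146 37 = true := by decide +kernel

theorem u11 : TRn 24 4594 (2 * 11 + 3) 20 183 :=
  (((TRn_of t29 (by norm_num) (by norm_num) (n1 := 83) rfl).trans (TRn_of t30 (by norm_num) (by norm_num) (n1 := 146) rfl)).trans (TRn_of t31 (by norm_num) (by norm_num) (n1 := 183) rfl))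

def t32 : ftr 24 94 4594 27 16 63 = true := by decide +kernel

def t33 : ftr 24 94 4594 27 79 63 = true := by decide +kernel

def t34 : ftr 24 94 4594 27 142 28 = true := by decide +kernel

theorem u12 : TRn 24 4594 (2 * 12 + 3) 16 170 :=
  (((TRn_of t32 (by norm_num) (by norm_num) (n1 := 79) rfl).trans (TRn_of t33 (by norm_num) (by norm_num) (n1 := 142) rfl)).trans (TRn_of t34 (by norm_num) (by norm_num) (n1 := 170) rfl))

def t35 : ftr 24 94 4594 29 14 63 = true := by decide +kernel

def t36 : ftr 24 94 4594 29 77 64 = true := by decide +kernel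

def t37 : ftr 24 94 4594 29 141 17 = true := by decide +kernel

theorem u13 : TRn 24 4594 (2 * 13 + 3) 14 158 :=
  (((TRn_of t35 (by norm_num) (by norm_num) (n1 := 77) rfl).trans (TRn_of t36 (by norm_num) (by norm_num) (n1 := 141) rfl)).trans (TRn_of t37 (by norm_num) (by norm_num) (n1 := 158) rfl))

def t38 : ftr 24 94 4594 31 11 63 = true := by decide +kernel

def t39 : ftr 24 94 4594 31 74 74 = true := by decide +kernel

theorem u14 : TRn 24 4594 (2 * 14 + 3) 11 148 :=
  ((TRn_of t38 (by norm_num) (by norm_num) (n1 := 74) rfl).trans (TRn_of t39 (by norm_num) (by norm_num) (n1 := 148) rfl))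

def t40 : ftr 24 94 4594 33 9 63 = true := by decide +kernel

def t41 : ftr 24 94 4594 33 72 67 = true := by decide +kernel

theorem u15 : TRn 24 4594 (2 * 15 + 3) 9 139 :=
  ((TRn_of t40 (by norm_num) (by norm_num) (n1 := 72) rfl).trans (TRn_of t41 (by norm_num) (by norm_num) (n1 := 139) rfl))

def t42 : ftr 24 94 4594 35 7 63 = true := by decide +kernel

def t43 : ftr 24 94 4594 35 70 61 = true := by decide +kernel

theorem u16 : TRn 24 4594 (2 * 16 + 3) 7 131 :=
  ((TRn_of t42 (by norm_num) (by norm_num) (n1 := 70) rfl).trans (TRn_of t43 (by norm_num) (by norm_num) (n1 := 131) rfl))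

def t44 : ftr 24 94 4594 37 6 63 = true := by decide +kernel

def t45 : ftr 24 94 4594 37 69 55 = true := by decide +kernel

theorem u17 : TRn 24 4594 (2 * 17 + 3) 6 124 :=
  ((TRn_of t44 (by norm_num) (by norm_num) (n1 := 69) rfl).trans (TRn_of t45 (by norm_num) (by norm_num) (n1 := 124) rfl))

def t46 : ftr 24 94 4594 39 4 63 = true := by decide +kernel

def t47 : ftr 24 94 4594 39 67 50 = true := by decide +kernel

theorem u18 : TRn 24 4594 (2 * 18 + 3) 4 117 :=
  ((TRn_of t46 (by norm_num) (by norm_num) (n1 := 67) rfl).trans (TRn_of t47 (by norm_num) (by norm_num) (n1 := 117) rfl))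

def t48 : ftr 24 94 4594 41 3 63 = true := by decide +kernel

def t49 : ftr 24 94 4594 41 66 46 = true := by decide +kernel

theorem u19 : TRn 24 4594 (2 * 19 + 3) 3 112 :=
  ((TRn_of t48 (by norm_num) (by norm_num) (n1 := 66) rfl).trans (TRn_of t49 (by norm_num) (by norm_num) (n1 := 112) rfl))

theorem tr : TR 24 4594 1078 4594 4 20 :=
  ((((((((((((((((TRn.toTR u4 (by norm_num) (by norm_num) (i1 := 5) rfl).trans
    (TRn.toTR u5 (by norm_num) (by norm_num) (i1 := 6) rfl)).trans
    (TRn.toTR u6 (by norm_num) (by norm_num) (i1 := 7) rfl)).trans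
    (TRn.toTR u7 (by norm_num) (by norm_num) (i1 := 8) rfl)).trans
    (TRn.toTR u8 (by norm_num) (by norm_num) (i1 := 9) rfl)).trans
    (TRn.toTR u9 (by norm_num) (by norm_num) (i1 := 10) rfl)).trans
    (TRn.toTR u10 (by norm_num) (by norm_num) (i1 := 11) rfl)).trans
    (TRn.toTR u11 (by norm_num) (by norm_num) (i1 := 12) rfl)).trans
    (TRn.toTR u12 (by norm_num) (by norm_num) (i1 := 13) rfl)).trans
    (TRn.toTR u13 (by norm_num) (by norm_num) (i1 := 14) rfl)).trans
    (TRn.toTR u14 (by norm_num) (by norm_num) (i1 := 15) rfl)).trans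
    (TRn.toTR u15 (by norm_num) (by norm_num) (i1 := 16) rfl)).trans
    (TRn.toTR u16 (by norm_num) (by norm_num) (i1 := 17) rfl)).trans
    (TRn.toTR u17 (by norm_num) (by norm_num) (i1 := 18) rfl)).trans
    (TRn.toTR u18 (by norm_num) (by norm_num) (i1 := 19) rfl)).trans
    (TRn.toTR u19 (by norm_num) (by norm_num) (i1 := 20) rfl))

end Pool.Agent.SignedQ.KD.Tr24_1
end
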