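import Pool.Agent.Lib.MP_cf17a0_co.Mg.G067

section

set_option autoImplicit false
set_option maxRecDepth 100000

namespace Pool.Agent.SignedQ.KD.Tr22_0

def t0 : ftr 22 84 3474 3 301 69 = true := by decide +kernel

def t1 : ftr 22 84 3474 3 370 69 = true := by decide +kernel

def t2 : ftr 22 84 3474 3 439 69 = true := by decide +kernel

def t3 : ftr 22 84 3474 3 508 69 = true := by decide +kernel

def t4 : ftr 22 84 3474 3 577 69 = true := by decide +kernel

def t5 : ftr 22 84 3474 3 646 69 = true := by decide +kernel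

def t6 : ftr 22 84 3474 3 715 69 = true := by decide +kernel

def t7 : ftr 22 84 3474 3 784 69 = true := by decide +kernel

def t8 : ftr 22 84 3474 3 853 69 = true := by decide +kernel

def t9 : ftr 22 84 3474 3 922 69 = true := by decide +kernel

def t10 : ftr 22 84 3474 3 991 69 = true := by decide +kernel

def t11 : ftr 22 84 3474 3 1060 69 = true := by decide +kernel

def t12 : ftr 22 84 3474 3 1129 28 = true := by decide +kernel

theorem u0 : TRn 22 3474 (2 * 0 + 3) 301 1157 :=
  (((((((((((((TRn_of t0 (by norm_num) (by norm_num) (n1 := 370) rfl).trans (TRn_of t1 (by norm_num) (by norm_num) (n1 := 439) rfl)).trans (TRn_of t2 (by norm_num) (by norm_num) (n1 := 508) rfl)).trans (TRn_of t3 (by norm_num) (by norm_num) (n1 := 577) rfl)).trans (TRn_of t4 (by norm_num) (by norm_num) (n1 := 646) rfl)).trans (TRn_of t5 (by norm_num) (by norm_num) (n1 := 715) rfl)).trans (TRn_of t6 (by norm_num) (by norm_num) (n1 := 784) rfl)).trans (TRn_of t7 (by norm_num) (by norm_num) (n1 := 853) rfl)).trans (TRn_of t8 (by norm_num) (by norm_num) (n1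 := 922) rfl)).trans (TRn_of t9 (by norm_num) (by norm_num) (n1 := 991) rfl)).trans (TRn_of t10 (by norm_num) (by norm_num) (n1 := 1060) rfl)).trans (TRn_of t11 (by norm_num) (by norm_num) (n1 := 1129) rfl)).trans (TRn_of t12 (by norm_num) (by norm_num) (n1 := 1157) rfl))

def t13 : ftr 22 84 3474 5 172 69 = true := by decide +kernel

def t14 : ftr 22 84 3474 5 241 69 = true := by decide +kernel

def t15 : ftr 22 84 3474 5 310 69 = true := by decide +kernel

def t16 : ftr 22 84 3474 5 379 69 = true := by decide +kernel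

def t17 : ftr 22 84 3474 5 448 69 = true := by decide +kernel

def t18 : ftr 22 84 3474 5 517 69 = true := by decide +kernel

def t19 : ftr 22 84 3474 5 586 69 = true := by decide +kernel

def t20 : ftr 22 84 3474 5 655 39 = true := by decide +kernel

theorem u1 : TRn 22 3474 (2 * 1 + 3) 172 694 :=
  ((((((((TRn_of t13 (by norm_num) (by norm_num) (n1 := 241) rfl).trans (TRn_of t14 (by norm_num) (by norm_num) (n1 := 310) rfl)).trans (TRn_of t15 (by norm_num) (by norm_num) (n1 := 379) rfl)).trans (TRn_of t16 (by norm_num) (by norm_num) (n1 := 448) rfl)).trans (TRn_of t17 (by norm_num) (by norm_num) (n1 := 517) rfl)).trans (TRn_of t18 (by norm_num) (by norm_num) (n1 := 586) rfl)).trans (TRn_of t19 (by norm_num) (by norm_num) (n1 := 655) rfl)).trans (TRn_of t20 (by norm_num) (by norm_num) (n1 := 694) rfl))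

def t21 : ftr 22 84 3474 7 117 69 = true := by decide +kernel

def t22 : ftr 22 84 3474 7 186 69 = true := by decide +kernel

def t23 : ftr 22 84 3474 7 255 69 = true := by decide +kernel

def t24 : ftr 22 84 3474 7 324 69 = true := by decide +kernel

def t25 : ftr 22 84 3474 7 393 69 = true := by decide +kernel

def t26 : ftr 22 84 3474 7 462 34 = true := by decide +kernel

theorem u2 : TRn 22 3474 (2 * 2 + 3) 117 496 :=
  ((((((TRn_of t21 (by norm_num) (by norm_num) (n1 := 186) rfl).trans (TRn_of t22 (by norm_num) (by norm_num) (n1 := 255) rfl)).trans (TRn_of t23 (by norm_num) (by norm_num) (n1 := 324) rfl)).trans (TRn_of t24 (by norm_num) (by norm_num) (n1 := 393) rfl)).trans (TRn_of t25 (by norm_num) (by norm_num) (n1 := 462) rfl)).trans (TRn_of t26 (by norm_num) (by norm_num) (n1 := 496) rfl))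

def t27 : ftr 22 84 3474 9 86 69 = true := by decide +kernel

def t28 : ftr 22 84 3474 9 155 69 = true := by decide +kernel

def t29 : ftr 22 84 3474 9 224 69 = true := by decide +kernel

def t30 : ftr 22 84 3474 9 293 69 = true := by decide +kernel

def t31 : ftr 22 84 3474 9 362 23 = true := by decide +kernel

theorem u3 : TRn 22 3474 (2 * 3 + 3) 86 385 :=
  (((((TRn_of t27 (by norm_num) (by norm_num) (n1 := 155) rfl).trans (TRn_of t28 (by norm_num) (by norm_num) (n1 := 224) rfl)).trans (TRn_of t29 (by norm_num) (by norm_num) (n1 := 293) rfl)).trans (TRn_of t30 (by norm_num) (by norm_num) (n1 := 362) rfl)).trans (TRn_of t31 (by norm_num) (by norm_num) (n1 := 385) rfl))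

def t32 : ftr 22 84 3474 11 66 69 = true := by decide +kernel

def t33 : ftr 22 84 3474 11 135 69 = true := by decide +kernel

def t34 : ftr 22 84 3474 11 204 69 = true := by decide +kernel

def t35 : ftr 22 84 3474 11 273 42 = true := by decide +kernel

theorem u4 : TRn 22 3474 (2 * 4 + 3) 66 315 :=
  ((((TRn_of t32 (by norm_num) (by norm_num) (n1 := 135) rfl).trans (TRn_of t33 (by norm_num) (by norm_num) (n1 := 204) rfl)).trans (TRn_of t34 (by norm_num) (by norm_num) (n1 := 273) rfl)).trans (TRn_of t35 (by norm_num) (by norm_num) (n1 := 315) rfl))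

def t36 : ftr 22 84 3474 13 53 69 = true := by decide +kernel

def t37 : ftr 22 84 3474 13 122 69 = true := by decide +kernel

def t38 : ftr 22 84 3474 13 191 76 = true := by decide +kernel

theorem u5 : TRn 22 3474 (2 * 5 + 3) 53 267 :=
  (((TRn_of t36 (by norm_num) (by norm_num) (n1 := 122) rfl).trans (TRn_of t37 (by norm_num) (by norm_num) (n1 := 191) rfl)).trans (TRn_of t38 (by norm_num) (by norm_num) (n1 := 267) rfl))

def t39 : ftr 22 84 3474 15 43 69 = true := by decide +kernel

def t40 : ftr 22 84 3474 15 112 69 = true := by decide +kernel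

def t41 : ftr 22 84 3474 15 181 50 = true := by decide +kernel

theorem u6 : TRn 22 3474 (2 * 6 + 3) 43 231 :=
  (((TRn_of t39 (by norm_num) (by norm_num) (n1 := 112) rfl).trans (TRn_of t40 (by norm_num) (by norm_num) (n1 := 181) rfl)).trans (TRn_of t41 (by norm_num) (by norm_num) (n1 := 231) rfl))

def t42 : ftr 22 84 3474 17 35 69 = true := by decide +kernel

def t43 : ftr 22 84 3474 17 104 69 = true := by decide +kernel

def t44 : ftr 22 84 3474 17 173 31 = true := by decide +kernel

theorem u7 : TRn 22 3474 (2 * 7 + 3) 35 204 :=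
  (((TRn_of t42 (by norm_num) (by norm_num) (n1 := 104) rfl).trans (TRn_of t43 (by norm_num) (by norm_num) (n1 := 173) rfl)).trans (TRn_of t44 (by norm_num) (by norm_num) (n1 := 204) rfl))

def t45 : ftr 22 84 3474 19 29 69 = true := by decide +kernel

def t46 : ftr 22 84 3474 19 98 70 = true := by decide +kernel

def t47 : ftr 22 84 3474 19 168 14 = true := by decide +kernel

theorem u8 : TRn 22 3474 (2 * 8 + 3) 29 182 :=
  (((TRn_of t45 (by norm_num) (by norm_num) (n1 := 98) rfl).trans (TRn_of t46 (by norm_num) (by norm_num) (n1 := 168) rfl)).trans (TRn_of t47 (by norm_num) (by norm_num) (n1 := 182) rfl))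

def t48 : ftr 22 84 3474 21 25 69 = true := by decide +kernel

def t49 : ftr 22 84 3474 21 94 71 = true := by decide +kernel

theorem u9 : TRn 22 3474 (2 * 9 + 3) 25 165 :=
  ((TRn_of t48 (by norm_num) (by norm_num) (n1 := 94) rfl).trans (TRn_of t49 (by norm_num) (by norm_num) (n1 := 165) rfl))

theorem tr : TR 22 3474 967 3474 0 10 :=
  ((((((((((TRn.toTR u0 (by norm_num) (by norm_num) (i1 := 1) rfl).trans
    (TRn.toTR u1 (by norm_num) (by norm_num) (i1 := 2) rfl)).trans
    (TRn.toTR u2 (by norm_num) (by norm_num) (i1 := 3) rfl)).trans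
    (TRn.toTR u3 (by norm_num) (by norm_num) (i1 := 4) rfl)).trans
    (TRn.toTR u4 (by norm_num) (by norm_num) (i1 := 5) rfl)).trans
    (TRn.toTR u5 (by norm_num) (by norm_num) (i1 := 6) rfl)).trans
    (TRn.toTR u6 (by norm_num) (by norm_num) (i1 := 7) rfl)).trans
    (TRn.toTR u7 (by norm_num) (by norm_num) (i1 := 8) rfl)).trans
    (TRn.toTR u8 (by norm_num) (by norm_num) (i1 := 9) rfl)).trans
    (TRn.toTR u9 (by norm_num) (by norm_num) (i1 := 10) rfl))

end Pool.Agent.SignedQ.KD.Tr22_0
end

section

set_option autoImplicit false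
set_option maxRecDepth 100000

namespace Pool.Agent.SignedQ.KD.Tr22_1

def t0 : ftr 22 84 3474 23 21 69 = true := by decide +kernel

def t1 : ftr 22 84 3474 23 90 61 = true := by decide +kernel

theorem u10 : TRn 22 3474 (2 * 10 + 3) 21 151 :=
  ((TRn_of t0 (by norm_num) (by norm_num) (n1 := 90) rfl).trans (TRn_of t1 (by norm_num) (by norm_num) (n1 := 151) rfl))

def t2 : ftr 22 84 3474 25 17 69 = true := by decide +kernel

def t3 : ftr 22 84 3474 25 86 52 = true := by decide +kernel

theorem u11 : TRn 22 3474 (2 * 11 + 3) 17 138 :=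
  ((TRn_of t2 (by norm_num) (by norm_num) (n1 := 86) rfl).trans (TRn_of t3 (by norm_num) (by norm_num) (n1 := 138) rfl))

def t4 : ftr 22 84 3474 27 14 69 = true := by decide +kernel

def t5 : ftr 22 84 3474 27 83 45 = true := by decide +kernel

theorem u12 : TRn 22 3474 (2 * 12 + 3) 14 128 :=
  ((TRn_of t4 (by norm_num) (by norm_num) (n1 := 83) rfl).trans (TRn_of t5 (by norm_num) (by norm_num) (n1 := 128) rfl))

def t6 : ftr 22 84 3474 29 12 69 = true := by decide +kernel

def t7 : ftr 22 84 3474 29 81 38 = true := by decide +kernel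

theorem u13 : TRn 22 3474 (2 * 13 + 3) 12 119 :=
  ((TRn_of t6 (by norm_num) (by norm_num) (n1 := 81) rfl).trans (TRn_of t7 (by norm_num) (by norm_num) (n1 := 119) rfl))

def t8 : ftr 22 84 3474 31 10 69 = true := by decide +kernel

def t9 : ftr 22 84 3474 31 79 33 = true := by decide +kernel

theorem u14 : TRn 22 3474 (2 * 14 + 3) 10 112 :=
  ((TRn_of t8 (by norm_num) (by norm_num) (n1 := 79) rfl).trans (TRn_of t9 (by norm_num) (by norm_num) (n1 := 112) rfl))

def t10 : ftr 22 84 3474 33 8 69 = true := by decide +kernel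

def t11 : ftr 22 84 3474 33 77 28 = true := by decide +kernel

theorem u15 : TRn 22 3474 (2 * 15 + 3) 8 105 :=
  ((TRn_of t10 (by norm_num) (by norm_num) (n1 := 77) rfl).trans (TRn_of t11 (by norm_num) (by norm_num) (n1 := 105) rfl))

def t12 : ftr 22 84 3474 35 6 69 = true := by decide +kernel

def t13 : ftr 22 84 3474 35 75 24 = true := by decide +kernel

theorem u16 : TRn 22 3474 (2 * 16 + 3) 6 99 :=
  ((TRn_of t12 (by norm_num) (by norm_num) (n1 := 75) rfl).trans (TRn_of t13 (by norm_num) (by norm_num) (n1 := 99) rfl))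

def t14 : ftr 22 84 3474 37 5 69 = true := by decide +kernel

def t15 : ftr 22 84 3474 37 74 19 = true := by decide +kernel

theorem u17 : TRn 22 3474 (2 * 17 + 3) 5 93 :=
  ((TRn_of t14 (by norm_num) (by norm_num) (n1 := 74) rfl).trans (TRn_of t15 (by norm_num) (by norm_num) (n1 := 93) rfl))

def t16 : ftr 22 84 3474 39 3 69 = true := by decide +kernel

def t17 : ftr 22 84 3474 39 72 17 = true := by decide +kernel

theorem u18 : TRn 22 3474 (2 * 18 + 3) 3 89 :=
  ((TRn_of t16 (by norm_num) (by norm_num) (n1 := 72) rfl).trans (TRn_of t17 (by norm_num) (by norm_num) (n1 := 89) rfl))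

def t18 : ftr 22 84 3474 41 2 71 = true := by decide +kernel

def t19 : ftr 22 84 3474 41 73 11 = true := by decide +kernel

theorem u19 : TRn 22 3474 (2 * 19 + 3) 2 84 :=
  ((TRn_of t18 (by norm_num) (by norm_num) (n1 := 73) rfl).trans (TRn_of t19 (by norm_num) (by norm_num) (n1 := 84) rfl))

def t20 : ftr 22 84 3474 43 1 76 = true := by decide +kernel

def t21 : ftr 22 84 3474 43 77 3 = true := by decide +kernel

theorem u20 : TRn 22 3474 (2 * 20 + 3) 1 80 :=
  ((TRn_of t20 (by norm_num) (by norm_num) (n1 := 77) rfl).trans (TRn_of t21 (by norm_num) (by norm_num) (n1 := 80) rfl))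

def t22 : tra 22 84 3474 967 3474 21 1 = true := by decide +kernel

def t23 : tra 22 84 3474 967 3474 22 1 = true := by decide +kernel

def t24 : tra 22 84 3474 967 3474 23 1 = true := by decide +kernel

def t25 : tra 22 84 3474 967 3474 24 1 = true := by decide +kernel

def t26 : tra 22 84 3474 967 3474 25 1 = true := by decide +kernel

def t27 : tra 22 84 3474 967 3474 26 1 = true := by decide +kernel

def t28 : tra 22 84 3474 967 3474 27 1 = true := by decide +kernel

def t29 : tra 22 84 3474 967 3474 28 1 = true := by decide +kernel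

def t30 : tra 22 84 3474 967 3474 29 1 = true := by decide +kernel

def t31 : tra 22 84 3474 967 3474 30 1 = true := by decide +kernel

def t32 : tra 22 84 3474 967 3474 31 1 = true := by decide +kernel

def t33 : tra 22 84 3474 967 3474 32 1 = true := by decide +kernel

def t34 : tra 22 84 3474 967 3474 33 1 = true := by decide +kernel

def t35 : tra 22 84 3474 967 3474 34 1 = true := by decide +kernel

def t36 : tra 22 84 3474 967 3474 35 1 = true := by decide +kernel

def t37 : tra 22 84 3474 967 3474 36 1 = true := by decide +kernel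

def t38 : tra 22 84 3474 967 3474 37 2 = true := by decide +kernel

def t39 : tra 22 84 3474 967 3474 39 2 = true := by decide +kernel

def t40 : tra 22 84 3474 967 3474 41 2 = true := by decide +kernel

def t41 : tra 22 84 3474 967 3474 43 2 = true := by decide +kernel

def t42 : tra 22 84 3474 967 3474 45 2 = true := by decide +kernel

def t43 : tra 22 84 3474 967 3474 47 2 = true := by decide +kernel

def t44 : tra 22 84 3474 967 3474 49 2 = true := by decide +kernel

def t45 : tra 22 84 3474 967 3474 51 3 = true := by decide +kernel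

def t46 : tra 22 84 3474 967 3474 54 3 = true := by decide +kernel

def t47 : tra 22 84 3474 967 3474 57 3 = true := by decide +kernel

def t48 : tra 22 84 3474 967 3474 60 4 = true := by decide +kernel

def t49 : tra 22 84 3474 967 3474 64 4 = true := by decide +kernel

theorem tr : TR 22 3474 967 3474 10 68 :=
  (((((((((((((((((((((((((((((((((((((((TRn.toTR u10 (by norm_num) (by norm_num) (i1 := 11) rfl).trans
    (TRn.toTR u11 (by norm_num) (by norm_num) (i1 := 12) rfl)).trans
    (TRn.toTR u12 (by norm_num) (by norm_num) (i1 := 13) rfl)).trans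
    (TRn.toTR u13 (by norm_num) (by norm_num) (i1 := 14) rfl)).trans
    (TRn.toTR u14 (by norm_num) (by norm_num) (i1 := 15) rfl)).trans
    (TRn.toTR u15 (by norm_num) (by norm_num) (i1 := 16) rfl)).trans
    (TRn.toTR u16 (by norm_num) (by norm_num) (i1 := 17) rfl)).trans
    (TRn.toTR u17 (by norm_num) (by norm_num) (i1 := 18) rfl)).trans
    (TRn.toTR u18 (by norm_num) (by norm_num) (i1 := 19) rfl)).trans
    (TRn.toTR u19 (by norm_num) (by norm_num) (i1 := 20) rfl)).trans
    (TRn.toTR u20 (by norm_num) (by norm_num) (i1 := 21) rfl)).trans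
    (TR_of t22 (by norm_num) (by norm_num) (i1 := 22) rfl)).trans
    (TR_of t23 (by norm_num) (by norm_num) (i1 := 23) rfl)).trans
    (TR_of t24 (by norm_num) (by norm_num) (i1 := 24) rfl)).trans
    (TR_of t25 (by norm_num) (by norm_num) (i1 := 25) rfl)).trans
    (TR_of t26 (by norm_num) (by norm_num) (i1 := 26) rfl)).trans
    (TR_of t27 (by norm_num) (by norm_num) (i1 := 27) rfl)).trans
    (TR_of t28 (by norm_num) (by norm_num) (i1 := 28) rfl)).trans
    (TR_of t29 (by norm_num) (by norm_num) (i1 := 29) rfl)).trans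
    (TR_of t30 (by norm_num) (by norm_num) (i1 := 30) rfl)).trans
    (TR_of t31 (by norm_num) (by norm_num) (i1 := 31) rfl)).trans
    (TR_of t32 (by norm_num) (by norm_num) (i1 := 32) rfl)).trans
    (TR_of t33 (by norm_num) (by norm_num) (i1 := 33) rfl)).trans
    (TR_of t34 (by norm_num) (by norm_num) (i1 := 34) rfl)).trans
    (TR_of t35 (by norm_num) (by norm_num) (i1 := 35) rfl)).trans
    (TR_of t36 (by norm_num) (by norm_num) (i1 := 36) rfl)).trans
    (TR_of t37 (by norm_num) (by norm_num) (i1 := 37) rfl)).trans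
    (TR_of t38 (by norm_num) (by norm_num) (i1 := 39) rfl)).trans
    (TR_of t39 (by norm_num) (by norm_num) (i1 := 41) rfl)).trans
    (TR_of t40 (by norm_num) (by norm_num) (i1 := 43) rfl)).trans
    (TR_of t41 (by norm_num) (by norm_num) (i1 := 45) rfl)).trans
    (TR_of t42 (by norm_num) (by norm_num) (i1 := 47) rfl)).trans
    (TR_of t43 (by norm_num) (by norm_num) (i1 := 49) rfl)).trans
    (TR_of t44 (by norm_num) (by norm_num) (i1 := 51) rfl)).trans
    (TR_of t45 (by norm_num) (by norm_num) (i1 := 54) rfl)).trans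
    (TR_of t46 (by norm_num) (by norm_num) (i1 := 57) rfl)).trans
    (TR_of t47 (by norm_num) (by norm_num) (i1 := 60) rfl)).trans
    (TR_of t48 (by norm_num) (by norm_num) (i1 := 64) rfl)).trans
    (TR_of t49 (by norm_num) (by norm_num) (i1 := 68) rfl))

end Pool.Agent.SignedQ.KD.Tr22_1
end

section

set_option autoImplicit false
set_option maxRecDepth 100000

namespace Pool.Agent.SignedQ.KD.Tr22_2

def t0 : tra 22 84 3474 967 3474 68 5 = true := by decide +kernel

def t1 : tra 22 84 3474 967 3474 73 5 = true := by decide +kernel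

def t2 : tra 22 84 3474 967 3474 78 6 = true := by decide +kernel

def t3 : tra 22 84 3474 967 3474 84 7 = true := by decide +kernel

def t4 : tra 22 84 3474 967 3474 91 9 = true := by decide +kernel

def t5 : tra 22 84 3474 967 3474 100 11 = true := by decide +kernel

def t6 : tra 22 84 3474 967 3474 111 13 = true := by decide +kernel

def t7 : tra 22 84 3474 967 3474 124 17 = true := by decide +kernel

def t8 : tra 22 84 3474 967 3474 141 23 = true := by decide +kernel

def t9 : tra 22 84 3474 967 3474 164 32 = true := by decide +kernel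

def t10 : tra 22 84 3474 967 3474 196 47 = true := by decide +kernel

def t11 : tra 22 84 3474 967 3474 243 80 = true := by decide +kernel

def t12 : tra 22 84 3474 967 3474 323 157 = true := by decide +kernel

def t13 : tra 22 84 3474 967 3474 480 432 = true := by decide +kernel

def t14 : tra 22 84 3474 967 3474 912 824 = true := by decide +kernel

theorem tr : TR 22 3474 967 3474 68 1736 :=
  (((((((((((((((TR_of t0 (by norm_num) (by norm_num) (i1 := 73) rfl).trans
    (TR_of t1 (by norm_num) (by norm_num) (i1 := 78) rfl)).trans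
    (TR_of t2 (by norm_num) (by norm_num) (i1 := 84) rfl)).trans
    (TR_of t3 (by norm_num) (by norm_num) (i1 := 91) rfl)).trans
    (TR_of t4 (by norm_num) (by norm_num) (i1 := 100) rfl)).trans
    (TR_of t5 (by norm_num) (by norm_num) (i1 := 111) rfl)).trans
    (TR_of t6 (by norm_num) (by norm_num) (i1 := 124) rfl)).trans
    (TR_of t7 (by norm_num) (by norm_num) (i1 := 141) rfl)).trans
    (TR_of t8 (by norm_num) (by norm_num) (i1 := 164) rfl)).trans
    (TR_of t9 (by norm_num) (by norm_num) (i1 := 196) rfl)).trans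
    (TR_of t10 (by norm_num) (by norm_num) (i1 := 243) rfl)).trans
    (TR_of t11 (by norm_num) (by norm_num) (i1 := 323) rfl)).trans
    (TR_of t12 (by norm_num) (by norm_num) (i1 := 480) rfl)).trans
    (TR_of t13 (by norm_num) (by norm_num) (i1 := 912) rfl)).trans
    (TR_of t14 (by norm_num) (by norm_num) (i1 := 1736) rfl))

end Pool.Agent.SignedQ.KD.Tr22_2
end
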