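import Pool.Agent.Lib.MP_cf17a0_co.Mg.G067

section

set_option autoImplicit false
set_option maxRecDepth 100000

namespace Pool.Agent.SignedQ.KD.Tr23_0

def t0 : ftr 23 87 3995 3 337 132 = true := by decide +kernel

def t1 : ftr 23 87 3995 3 469 132 = true := by decide +kernel

def t2 : ftr 23 87 3995 3 601 132 = true := by decide +kernel

def t3 : ftr 23 87 3995 3 733 132 = true := by decide +kernel

def t4 : ftr 23 87 3995 3 865 132 = true := by decide +kernel

def t5 : ftr 23 87 3995 3 997 132 = true := by decide +kernel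

def t6 : ftr 23 87 3995 3 1129 132 = true := by decide +kernel

def t7 : ftr 23 87 3995 3 1261 70 = true := by decide +kernel

theorem u0 : TRn 23 3995 (2 * 0 + 3) 337 1331 :=
  ((((((((TRn_of t0 (by norm_num) (by norm_num) (n1 := 469) rfl).trans (TRn_of t1 (by norm_num) (by norm_num) (n1 := 601) rfl)).trans (TRn_of t2 (by norm_num) (by norm_num) (n1 := 733) rfl)).trans (TRn_of t3 (by norm_num) (by norm_num) (n1 := 865) rfl)).trans (TRn_of t4 (by norm_num) (by norm_num) (n1 := 997) rfl)).trans (TRn_of t5 (by norm_num) (by norm_num) (n1 := 1129) rfl)).trans (TRn_of t6 (by norm_num) (by norm_num) (n1 := 1261) rfl)).trans (TRn_of t7 (by norm_num) (by norm_num) (n1 := 1331) rfl))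

def t8 : ftr 23 87 3995 5 193 132 = true := by decide +kernel

def t9 : ftr 23 87 3995 5 325 132 = true := by decide +kernel

def t10 : ftr 23 87 3995 5 457 132 = true := by decide +kernel

def t11 : ftr 23 87 3995 5 589 132 = true := by decide +kernel

def t12 : ftr 23 87 3995 5 721 77 = true := by decide +kernel

theorem u1 : TRn 23 3995 (2 * 1 + 3) 193 798 :=
  (((((TRn_of t8 (by norm_num) (by norm_num) (n1 := 325) rfl).trans (TRn_of t9 (by norm_num) (by norm_num) (n1 := 457) rfl)).trans (TRn_of t10 (by norm_num) (by norm_num) (n1 := 589) rfl)).trans (TRn_of t11 (by norm_num) (by norm_num) (n1 := 721) rfl)).trans (TRn_of t12 (by norm_num) (by norm_num) (n1 := 798) rfl))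

def t13 : ftr 23 87 3995 7 131 132 = true := by decide +kernel

def t14 : ftr 23 87 3995 7 263 132 = true := by decide +kernel

def t15 : ftr 23 87 3995 7 395 132 = true := by decide +kernel

def t16 : ftr 23 87 3995 7 527 43 = true := by decide +kernel

theorem u2 : TRn 23 3995 (2 * 2 + 3) 131 570 :=
  ((((TRn_of t13 (by norm_num) (by norm_num) (n1 := 263) rfl).trans (TRn_of t14 (by norm_num) (by norm_num) (n1 := 395) rfl)).trans (TRn_of t15 (by norm_num) (by norm_num) (n1 := 527) rfl)).trans (TRn_of t16 (by norm_num) (by norm_num) (n1 := 570) rfl))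

def t17 : ftr 23 87 3995 9 97 132 = true := by decide +kernel

def t18 : ftr 23 87 3995 9 229 132 = true := by decide +kernel

def t19 : ftr 23 87 3995 9 361 82 = true := by decide +kernel

theorem u3 : TRn 23 3995 (2 * 3 + 3) 97 443 :=
  (((TRn_of t17 (by norm_num) (by norm_num) (n1 := 229) rfl).trans (TRn_of t18 (by norm_num) (by norm_num) (n1 := 361) rfl)).trans (TRn_of t19 (by norm_num) (by norm_num) (n1 := 443) rfl))

def t20 : ftr 23 87 3995 11 75 132 = true := by decide +kernel

def t21 : ftr 23 87 3995 11 207 132 = true := by decide +kernel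

def t22 : ftr 23 87 3995 11 339 24 = true := by decide +kernel

theorem u4 : TRn 23 3995 (2 * 4 + 3) 75 363 :=
  (((TRn_of t20 (by norm_num) (by norm_num) (n1 := 207) rfl).trans (TRn_of t21 (by norm_num) (by norm_num) (n1 := 339) rfl)).trans (TRn_of t22 (by norm_num) (by norm_num) (n1 := 363) rfl))

def t23 : ftr 23 87 3995 13 60 131 = true := by decide +kernel

def t24 : ftr 23 87 3995 13 191 116 = true := by decide +kernel

theorem u5 : TRn 23 3995 (2 * 5 + 3) 60 307 :=
  ((TRn_of t23 (by norm_num) (by norm_num) (n1 := 191) rfl).trans (TRn_of t24 (by norm_num) (by norm_num) (n1 := 307) rfl))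

def t25 : ftr 23 87 3995 15 49 132 = true := by decide +kernel

def t26 : ftr 23 87 3995 15 181 85 = true := by decide +kernel

theorem u6 : TRn 23 3995 (2 * 6 + 3) 49 266 :=
  ((TRn_of t25 (by norm_num) (by norm_num) (n1 := 181) rfl).trans (TRn_of t26 (by norm_num) (by norm_num) (n1 := 266) rfl))

def t27 : ftr 23 87 3995 17 41 132 = true := by decide +kernel

def t28 : ftr 23 87 3995 17 173 61 = true := by decide +kernel

theorem u7 : TRn 23 3995 (2 * 7 + 3) 41 234 :=
  ((TRn_of t27 (by norm_num) (by norm_num) (n1 := 173) rfl).trans (TRn_of t28 (by norm_num) (by norm_num) (n1 := 234) rfl))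

def t29 : ftr 23 87 3995 19 34 131 = true := by decide +kernel

def t30 : ftr 23 87 3995 19 165 45 = true := by decide +kernel

theorem u8 : TRn 23 3995 (2 * 8 + 3) 34 210 :=
  ((TRn_of t29 (by norm_num) (by norm_num) (n1 := 165) rfl).trans (TRn_of t30 (by norm_num) (by norm_num) (n1 := 210) rfl))

def t31 : ftr 23 87 3995 21 29 132 = true := by decide +kernel

def t32 : ftr 23 87 3995 21 161 29 = true := by decide +kernel

theorem u9 : TRn 23 3995 (2 * 9 + 3) 29 190 :=
  ((TRn_of t31 (by norm_num) (by norm_num) (n1 := 161) rfl).trans (TRn_of t32 (by norm_num) (by norm_num) (n1 := 190) rfl))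

def t33 : ftr 23 87 3995 23 24 131 = true := by decide +kernel

def t34 : ftr 23 87 3995 23 155 18 = true := by decide +kernel

theorem u10 : TRn 23 3995 (2 * 10 + 3) 24 173 :=
  ((TRn_of t33 (by norm_num) (by norm_num) (n1 := 155) rfl).trans (TRn_of t34 (by norm_num) (by norm_num) (n1 := 173) rfl))

def t35 : tra 23 87 3995 1078 3995 11 1 = true := by decide +kernel

def t36 : tra 23 87 3995 1078 3995 12 1 = true := by decide +kernel

def t37 : tra 23 87 3995 1078 3995 13 1 = true := by decide +kernel

def t38 : tra 23 87 3995 1078 3995 14 1 = true := by decide +kernel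

def t39 : tra 23 87 3995 1078 3995 15 1 = true := by decide +kernel

def t40 : tra 23 87 3995 1078 3995 16 1 = true := by decide +kernel

def t41 : tra 23 87 3995 1078 3995 17 1 = true := by decide +kernel

def t42 : tra 23 87 3995 1078 3995 18 1 = true := by decide +kernel

def t43 : tra 23 87 3995 1078 3995 19 1 = true := by decide +kernel

def t44 : tra 23 87 3995 1078 3995 20 1 = true := by decide +kernel

def t45 : tra 23 87 3995 1078 3995 21 1 = true := by decide +kernel

def t46 : tra 23 87 3995 1078 3995 22 1 = true := by decide +kernel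

def t47 : tra 23 87 3995 1078 3995 23 1 = true := by decide +kernel

def t48 : tra 23 87 3995 1078 3995 24 1 = true := by decide +kernel

def t49 : tra 23 87 3995 1078 3995 25 2 = true := by decide +kernel

theorem tr : TR 23 3995 1078 3995 0 27 :=
  ((((((((((((((((((((((((((TRn.toTR u0 (by norm_num) (by norm_num) (i1 := 1) rfl).trans
    (TRn.toTR u1 (by norm_num) (by norm_num) (i1 := 2) rfl)).trans
    (TRn.toTR u2 (by norm_num) (by norm_num) (i1 := 3) rfl)).trans
    (TRn.toTR u3 (by norm_num) (by norm_num) (i1 := 4) rfl)).trans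
    (TRn.toTR u4 (by norm_num) (by norm_num) (i1 := 5) rfl)).trans
    (TRn.toTR u5 (by norm_num) (by norm_num) (i1 := 6) rfl)).trans
    (TRn.toTR u6 (by norm_num) (by norm_num) (i1 := 7) rfl)).trans
    (TRn.toTR u7 (by norm_num) (by norm_num) (i1 := 8) rfl)).trans
    (TRn.toTR u8 (by norm_num) (by norm_num) (i1 := 9) rfl)).trans
    (TRn.toTR u9 (by norm_num) (by norm_num) (i1 := 10) rfl)).trans
    (TRn.toTR u10 (by norm_num) (by norm_num) (i1 := 11) rfl)).trans
    (TR_of t35 (by norm_num) (by norm_num) (i1 := 12) rfl)).trans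
    (TR_of t36 (by norm_num) (by norm_num) (i1 := 13) rfl)).trans
    (TR_of t37 (by norm_num) (by norm_num) (i1 := 14) rfl)).trans
    (TR_of t38 (by norm_num) (by norm_num) (i1 := 15) rfl)).trans
    (TR_of t39 (by norm_num) (by norm_num) (i1 := 16) rfl)).trans
    (TR_of t40 (by norm_num) (by norm_num) (i1 := 17) rfl)).trans
    (TR_of t41 (by norm_num) (by norm_num) (i1 := 18) rfl)).trans
    (TR_of t42 (by norm_num) (by norm_num) (i1 := 19) rfl)).trans
    (TR_of t43 (by norm_num) (by norm_num) (i1 := 20) rfl)).trans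
    (TR_of t44 (by norm_num) (by norm_num) (i1 := 21) rfl)).trans
    (TR_of t45 (by norm_num) (by norm_num) (i1 := 22) rfl)).trans
    (TR_of t46 (by norm_num) (by norm_num) (i1 := 23) rfl)).trans
    (TR_of t47 (by norm_num) (by norm_num) (i1 := 24) rfl)).trans
    (TR_of t48 (by norm_num) (by norm_num) (i1 := 25) rfl)).trans
    (TR_of t49 (by norm_num) (by norm_num) (i1 := 27) rfl))

end Pool.Agent.SignedQ.KD.Tr23_0
end

section

set_option autoImplicit false
set_option maxRecDepth 100000

namespace Pool.Agent.SignedQ.KD.Tr23_1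

def t0 : tra 23 87 3995 1078 3995 27 2 = true := by decide +kernel

def t1 : tra 23 87 3995 1078 3995 29 2 = true := by decide +kernel

def t2 : tra 23 87 3995 1078 3995 31 2 = true := by decide +kernel

def t3 : tra 23 87 3995 1078 3995 33 2 = true := by decide +kernel

def t4 : tra 23 87 3995 1078 3995 35 3 = true := by decide +kernel

def t5 : tra 23 87 3995 1078 3995 38 3 = true := by decide +kernel

def t6 : tra 23 87 3995 1078 3995 41 3 = true := by decide +kernel

def t7 : tra 23 87 3995 1078 3995 44 4 = true := by decide +kernel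

def t8 : tra 23 87 3995 1078 3995 48 4 = true := by decide +kernel

def t9 : tra 23 87 3995 1078 3995 52 5 = true := by decide +kernel

def t10 : tra 23 87 3995 1078 3995 57 5 = true := by decide +kernel

def t11 : tra 23 87 3995 1078 3995 62 6 = true := by decide +kernel

def t12 : tra 23 87 3995 1078 3995 68 7 = true := by decide +kernel

def t13 : tra 23 87 3995 1078 3995 75 9 = true := by decide +kernel

def t14 : tra 23 87 3995 1078 3995 84 11 = true := by decide +kernel

def t15 : tra 23 87 3995 1078 3995 95 15 = true := by decide +kernel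

def t16 : tra 23 87 3995 1078 3995 110 20 = true := by decide +kernel

def t17 : tra 23 87 3995 1078 3995 130 29 = true := by decide +kernel

def t18 : tra 23 87 3995 1078 3995 159 45 = true := by decide +kernel

def t19 : tra 23 87 3995 1078 3995 204 77 = true := by decide +kernel

def t20 : tra 23 87 3995 1078 3995 281 164 = true := by decide +kernel

def t21 : tra 23 87 3995 1078 3995 445 477 = true := by decide +kernel

def t22 : tra 23 87 3995 1078 3995 922 1074 = true := by decide +kernel

theorem tr : TR 23 3995 1078 3995 27 1996 :=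
  (((((((((((((((((((((((TR_of t0 (by norm_num) (by norm_num) (i1 := 29) rfl).trans
    (TR_of t1 (by norm_num) (by norm_num) (i1 := 31) rfl)).trans
    (TR_of t2 (by norm_num) (by norm_num) (i1 := 33) rfl)).trans
    (TR_of t3 (by norm_num) (by norm_num) (i1 := 35) rfl)).trans
    (TR_of t4 (by norm_num) (by norm_num) (i1 := 38) rfl)).trans
    (TR_of t5 (by norm_num) (by norm_num) (i1 := 41) rfl)).trans
    (TR_of t6 (by norm_num) (by norm_num) (i1 := 44) rfl)).trans
    (TR_of t7 (by norm_num) (by norm_num) (i1 := 48) rfl)).trans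
    (TR_of t8 (by norm_num) (by norm_num) (i1 := 52) rfl)).trans
    (TR_of t9 (by norm_num) (by norm_num) (i1 := 57) rfl)).trans
    (TR_of t10 (by norm_num) (by norm_num) (i1 := 62) rfl)).trans
    (TR_of t11 (by norm_num) (by norm_num) (i1 := 68) rfl)).trans
    (TR_of t12 (by norm_num) (by norm_num) (i1 := 75) rfl)).trans
    (TR_of t13 (by norm_num) (by norm_num) (i1 := 84) rfl)).trans
    (TR_of t14 (by norm_num) (by norm_num) (i1 := 95) rfl)).trans
    (TR_of t15 (by norm_num) (by norm_num) (i1 := 110) rfl)).trans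
    (TR_of t16 (by norm_num) (by norm_num) (i1 := 130) rfl)).trans
    (TR_of t17 (by norm_num) (by norm_num) (i1 := 159) rfl)).trans
    (TR_of t18 (by norm_num) (by norm_num) (i1 := 204) rfl)).trans
    (TR_of t19 (by norm_num) (by norm_num) (i1 := 281) rfl)).trans
    (TR_of t20 (by norm_num) (by norm_num) (i1 := 445) rfl)).trans
    (TR_of t21 (by norm_num) (by norm_num) (i1 := 922) rfl)).trans
    (TR_of t22 (by norm_num) (by norm_num) (i1 := 1996) rfl))

end Pool.Agent.SignedQ.KD.Tr23_1
end

section

set_option autoImplicit false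
set_option maxRecDepth 100000

namespace Pool.Agent.SignedQ.KD.Tr24_0

def t0 : ftr 24 94 4594 3 336 63 = true := by decide +kernel

def t1 : ftr 24 94 4594 3 399 63 = true := by decide +kernel

def t2 : ftr 24 94 4594 3 462 63 = true := by decide +kernel

def t3 : ftr 24 94 4594 3 525 63 = true := by decide +kernel

def t4 : ftr 24 94 4594 3 588 63 = true := by decide +kernel

def t5 : ftr 24 94 4594 3 651 63 = true := by decide +kernel

def t6 : ftr 24 94 4594 3 714 63 = true := by decide +kernel

def t7 : ftr 24 94 4594 3 777 63 = true := by decide +kernel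

def t8 : ftr 24 94 4594 3 840 63 = true := by decide +kernel

def t9 : ftr 24 94 4594 3 903 63 = true := by decide +kernel

def t10 : ftr 24 94 4594 3 966 63 = true := by decide +kernel

def t11 : ftr 24 94 4594 3 1029 63 = true := by decide +kernel

def t12 : ftr 24 94 4594 3 1092 63 = true := by decide +kernel

def t13 : ftr 24 94 4594 3 1155 63 = true := by decide +kernel

def t14 : ftr 24 94 4594 3 1218 63 = true := by decide +kernel

def t15 : ftr 24 94 4594 3 1281 63 = true := by decide +kernel

def t16 : ftr 24 94 4594 3 1344 63 = true := by decide +kernel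

def t17 : ftr 24 94 4594 3 1407 63 = true := by decide +kernel

def t18 : ftr 24 94 4594 3 1470 61 = true := by decide +kernel

theorem u0 : TRn 24 4594 (2 * 0 + 3) 336 1531 :=
  (((((((((((((((((((TRn_of t0 (by norm_num) (by norm_num) (n1 := 399) rfl).trans (TRn_of t1 (by norm_num) (by norm_num) (n1 := 462) rfl)).trans (TRn_of t2 (by norm_num) (by norm_num) (n1 := 525) rfl)).trans (TRn_of t3 (by norm_num) (by norm_num) (n1 := 588) rfl)).trans (TRn_of t4 (by norm_num) (by norm_num) (n1 := 651) rfl)).trans (TRn_of t5 (by norm_num) (by norm_num) (n1 := 714) rfl)).trans (TRn_of t6 (by norm_num) (by norm_num) (n1 := 777) rfl)).trans (TRn_of t7 (by norm_num) (by norm_num) (n1 := 840) rfl)).trans (TRn_of t8 (by norm_num) (by norm_num) (n1 := 903) rfl)).trans (TRn_of t9 (by norm_num) (by norm_num) (n1 := 966) rfl)).trans (TRn_of t10 (by norm_num) (by norm_num) (n1 := 1029) rfl)).trans (TRn_of t11 (by norm_num) (by norm_num) (n1 := 1092) rfl)).trans (TRn_of t12 (by norm_num) (by norm_num) (n1 := 1155) rfl)).trans (TRn_of t13 (by norm_num) (by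 norm_num) (n1 := 1218) rfl)).trans (TRn_of t14 (by norm_num) (by norm_num) (n1 := 1281) rfl)).trans (TRn_of t15 (by norm_num) (by norm_num) (n1 := 1344) rfl)).trans (TRn_of t16 (by norm_num) (by norm_num) (n1 := 1407) rfl)).trans (TRn_of t17 (by norm_num) (by norm_num) (n1 := 1470) rfl)).trans (TRn_of t18 (by norm_num) (by norm_num) (n1 := 1531) rfl))

def t19 : ftr 24 94 4594 5 192 63 = true := by decide +kernel

def t20 : ftr 24 94 4594 5 255 63 = true := by decide +kernel

def t21 : ftr 24 94 4594 5 318 63 = true := by decide +kernel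

def t22 : ftr 24 94 4594 5 381 63 = true := by decide +kernel

def t23 : ftr 24 94 4594 5 444 63 = true := by decide +kernel

def t24 : ftr 24 94 4594 5 507 63 = true := by decide +kernel

def t25 : ftr 24 94 4594 5 570 63 = true := by decide +kernel

def t26 : ftr 24 94 4594 5 633 63 = true := by decide +kernel

def t27 : ftr 24 94 4594 5 696 63 = true := by decide +kernel

def t28 : ftr 24 94 4594 5 759 63 = true := by decide +kernel

def t29 : ftr 24 94 4594 5 822 63 = true := by decide +kernel

def t30 : ftr 24 94 4594 5 885 33 = true := by decide +kernel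

theorem u1 : TRn 24 4594 (2 * 1 + 3) 192 918 :=
  ((((((((((((TRn_of t19 (by norm_num) (by norm_num) (n1 := 255) rfl).trans (TRn_of t20 (by norm_num) (by norm_num) (n1 := 318) rfl)).trans (TRn_of t21 (by norm_num) (by norm_num) (n1 := 381) rfl)).trans (TRn_of t22 (by norm_num) (by norm_num) (n1 := 444) rfl)).trans (TRn_of t23 (by norm_num) (by norm_num) (n1 := 507) rfl)).trans (TRn_of t24 (by norm_num) (by norm_num) (n1 := 570) rfl)).trans (TRn_of t25 (by norm_num) (by norm_num) (n1 := 633) rfl)).trans (TRn_of t26 (by norm_num) (by norm_num) (n1 := 696) rfl)).trans (TRn_of t27 (by norm_num) (by norm_num) (n1 := 759) rfl)).trans (TRn_of t28 (by norm_num) (by norm_num) (n1 := 822) rfl)).trans (TRn_of t29 (by norm_num) (by norm_num) (n1 := 885) rfl)).trans (TRn_of t30 (by norm_num) (by norm_num) (n1 := 918) rfl))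

def t31 : ftr 24 94 4594 7 130 63 = true := by decide +kernel

def t32 : ftr 24 94 4594 7 193 63 = true := by decide +kernel

def t33 : ftr 24 94 4594 7 256 63 = true := by decide +kernel

def t34 : ftr 24 94 4594 7 319 63 = true := by decide +kernel

def t35 : ftr 24 94 4594 7 382 63 = true := by decide +kernel

def t36 : ftr 24 94 4594 7 445 63 = true := by decide +kernel

def t37 : ftr 24 94 4594 7 508 63 = true := by decide +kernel

def t38 : ftr 24 94 4594 7 571 63 = true := by decide +kernel

def t39 : ftr 24 94 4594 7 634 22 = true := by decide +kernel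

theorem u2 : TRn 24 4594 (2 * 2 + 3) 130 656 :=
  (((((((((TRn_of t31 (by norm_num) (by norm_num) (n1 := 193) rfl).trans (TRn_of t32 (by norm_num) (by norm_num) (n1 := 256) rfl)).trans (TRn_of t33 (by norm_num) (by norm_num) (n1 := 319) rfl)).trans (TRn_of t34 (by norm_num) (by norm_num) (n1 := 382) rfl)).trans (TRn_of t35 (by norm_num) (by norm_num) (n1 := 445) rfl)).trans (TRn_of t36 (by norm_num) (by norm_num) (n1 := 508) rfl)).trans (TRn_of t37 (by norm_num) (by norm_num) (n1 := 571) rfl)).trans (TRn_of t38 (by norm_num) (by norm_num) (n1 := 634) rfl)).trans (TRn_of t39 (by norm_num) (by norm_num) (n1 := 656) rfl))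

def t40 : ftr 24 94 4594 9 96 63 = true := by decide +kernel

def t41 : ftr 24 94 4594 9 159 63 = true := by decide +kernel

def t42 : ftr 24 94 4594 9 222 63 = true := by decide +kernel

def t43 : ftr 24 94 4594 9 285 63 = true := by decide +kernel

def t44 : ftr 24 94 4594 9 348 63 = true := by decide +kernel

def t45 : ftr 24 94 4594 9 411 63 = true := by decide +kernel

def t46 : ftr 24 94 4594 9 474 36 = true := by decide +kernel

theorem u3 : TRn 24 4594 (2 * 3 + 3) 96 510 :=
  (((((((TRn_of t40 (by norm_num) (by norm_num) (n1 := 159) rfl).trans (TRn_of t41 (by norm_num) (by norm_num) (n1 := 222) rfl)).trans (TRn_of t42 (by norm_num) (by norm_num) (n1 := 285) rfl)).trans (TRn_of t43 (by norm_num) (by norm_num) (n1 := 348) rfl)).trans (TRn_of t44 (by norm_num) (by norm_num) (n1 := 411) rfl)).trans (TRn_of t45 (by norm_num) (by norm_num) (n1 := 474) rfl)).trans (TRn_of t46 (by norm_num) (by norm_num) (n1 := 510) rfl))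

theorem tr : TR 24 4594 1078 4594 0 4 :=
  ((((TRn.toTR u0 (by norm_num) (by norm_num) (i1 := 1) rfl).trans
    (TRn.toTR u1 (by norm_num) (by norm_num) (i1 := 2) rfl)).trans
    (TRn.toTR u2 (by norm_num) (by norm_num) (i1 := 3) rfl)).trans
    (TRn.toTR u3 (by norm_num) (by norm_num) (i1 := 4) rfl))

end Pool.Agent.SignedQ.KD.Tr24_0
end
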