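import Pool.Agent.Lib.MP_cf17a0_co.Mg.G067

section

set_option autoImplicit false
set_option maxRecDepth 100000

namespace Pool.Agent.SignedQ.KD.Tr24_2

def t0 : ftr 24 94 4594 43 2 63 = true := by decide +kernel

def t1 : ftr 24 94 4594 43 65 41 = true := by decide +kernel

theorem u20 : TRn 24 4594 (2 * 20 + 3) 2 106 :=
  ((TRn_of t0 (by norm_num) (by norm_num) (n1 := 65) rfl).trans (TRn_of t1 (by norm_num) (by norm_num) (n1 := 106) rfl))

def t2 : ftr 24 94 4594 45 0 63 = true := by decide +kernel

def t3 : ftr 24 94 4594 45 63 39 = true := by decide +kernel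

theorem u21 : TRn 24 4594 (2 * 21 + 3) 0 102 :=
  ((TRn_of t2 (by norm_num) (by norm_num) (n1 := 63) rfl).trans (TRn_of t3 (by norm_num) (by norm_num) (n1 := 102) rfl))

def t4 : ftr 24 94 4594 47 0 63 = true := by decide +kernel

def t5 : ftr 24 94 4594 47 63 34 = true := by decide +kernel

theorem u22 : TRn 24 4594 (2 * 22 + 3) 0 97 :=
  ((TRn_of t4 (by norm_num) (by norm_num) (n1 := 63) rfl).trans (TRn_of t5 (by norm_num) (by norm_num) (n1 := 97) rfl))

def t6 : ftr 24 94 4594 49 0 63 = true := by decide +kernel

def t7 : ftr 24 94 4594 49 63 30 = true := by decide +kernel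

theorem u23 : TRn 24 4594 (2 * 23 + 3) 0 93 :=
  ((TRn_of t6 (by norm_num) (by norm_num) (n1 := 63) rfl).trans (TRn_of t7 (by norm_num) (by norm_num) (n1 := 93) rfl))

def t8 : ftr 24 94 4594 51 0 63 = true := by decide +kernel

def t9 : ftr 24 94 4594 51 63 27 = true := by decide +kernel

theorem u24 : TRn 24 4594 (2 * 24 + 3) 0 90 :=
  ((TRn_of t8 (by norm_num) (by norm_num) (n1 := 63) rfl).trans (TRn_of t9 (by norm_num) (by norm_num) (n1 := 90) rfl))

def t10 : ftr 24 94 4594 53 0 63 = true := by decide +kernel

def t11 : ftr 24 94 4594 53 63 23 = true := by decide +kernel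

theorem u25 : TRn 24 4594 (2 * 25 + 3) 0 86 :=
  ((TRn_of t10 (by norm_num) (by norm_num) (n1 := 63) rfl).trans (TRn_of t11 (by norm_num) (by norm_num) (n1 := 86) rfl))

def t12 : ftr 24 94 4594 55 0 63 = true := by decide +kernel

def t13 : ftr 24 94 4594 55 63 20 = true := by decide +kernel

theorem u26 : TRn 24 4594 (2 * 26 + 3) 0 83 :=
  ((TRn_of t12 (by norm_num) (by norm_num) (n1 := 63) rfl).trans (TRn_of t13 (by norm_num) (by norm_num) (n1 := 83) rfl))

def t14 : ftr 24 94 4594 57 0 64 = true := by decide +kernel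

def t15 : ftr 24 94 4594 57 64 16 = true := by decide +kernel

theorem u27 : TRn 24 4594 (2 * 27 + 3) 0 80 :=
  ((TRn_of t14 (by norm_num) (by norm_num) (n1 := 64) rfl).trans (TRn_of t15 (by norm_num) (by norm_num) (n1 := 80) rfl))

def t16 : ftr 24 94 4594 59 0 66 = true := by decide +kernel

def t17 : ftr 24 94 4594 59 66 11 = true := by decide +kernel

theorem u28 : TRn 24 4594 (2 * 28 + 3) 0 77 :=
  ((TRn_of t16 (by norm_num) (by norm_num) (n1 := 66) rfl).trans (TRn_of t17 (by norm_num) (by norm_num) (n1 := 77) rfl))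

def t18 : ftr 24 94 4594 61 0 69 = true := by decide +kernel

def t19 : ftr 24 94 4594 61 69 6 = true := by decide +kernel

theorem u29 : TRn 24 4594 (2 * 29 + 3) 0 75 :=
  ((TRn_of t18 (by norm_num) (by norm_num) (n1 := 69) rfl).trans (TRn_of t19 (by norm_num) (by norm_num) (n1 := 75) rfl))

def t20 : tra 24 94 4594 1078 4594 30 1 = true := by decide +kernel

def t21 : tra 24 94 4594 1078 4594 31 1 = true := by decide +kernel

def t22 : tra 24 94 4594 1078 4594 32 1 = true := by decide +kernel

def t23 : tra 24 94 4594 1078 4594 33 1 = true := by decide +kernel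

def t24 : tra 24 94 4594 1078 4594 34 1 = true := by decide +kernel

def t25 : tra 24 94 4594 1078 4594 35 1 = true := by decide +kernel

def t26 : tra 24 94 4594 1078 4594 36 1 = true := by decide +kernel

def t27 : tra 24 94 4594 1078 4594 37 1 = true := by decide +kernel

def t28 : tra 24 94 4594 1078 4594 38 1 = true := by decide +kernel

def t29 : tra 24 94 4594 1078 4594 39 1 = true := by decide +kernel

def t30 : tra 24 94 4594 1078 4594 40 1 = true := by decide +kernel

def t31 : tra 24 94 4594 1078 4594 41 1 = true := by decide +kernel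

def t32 : tra 24 94 4594 1078 4594 42 1 = true := by decide +kernel

def t33 : tra 24 94 4594 1078 4594 43 1 = true := by decide +kernel

def t34 : tra 24 94 4594 1078 4594 44 1 = true := by decide +kernel

def t35 : tra 24 94 4594 1078 4594 45 1 = true := by decide +kernel

def t36 : tra 24 94 4594 1078 4594 46 1 = true := by decide +kernel

def t37 : tra 24 94 4594 1078 4594 47 1 = true := by decide +kernel

def t38 : tra 24 94 4594 1078 4594 48 1 = true := by decide +kernel

def t39 : tra 24 94 4594 1078 4594 49 1 = true := by decide +kernel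

def t40 : tra 24 94 4594 1078 4594 50 1 = true := by decide +kernel

def t41 : tra 24 94 4594 1078 4594 51 2 = true := by decide +kernel

def t42 : tra 24 94 4594 1078 4594 53 2 = true := by decide +kernel

def t43 : tra 24 94 4594 1078 4594 55 2 = true := by decide +kernel

def t44 : tra 24 94 4594 1078 4594 57 2 = true := by decide +kernel

def t45 : tra 24 94 4594 1078 4594 59 2 = true := by decide +kernel

def t46 : tra 24 94 4594 1078 4594 61 2 = true := by decide +kernel

def t47 : tra 24 94 4594 1078 4594 63 2 = true := by decide +kernel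

def t48 : tra 24 94 4594 1078 4594 65 2 = true := by decide +kernel

def t49 : tra 24 94 4594 1078 4594 67 2 = true := by decide +kernel

theorem tr : TR 24 4594 1078 4594 20 69 :=
  ((((((((((((((((((((((((((((((((((((((((TRn.toTR u20 (by norm_num) (by norm_num) (i1 := 21) rfl).trans
    (TRn.toTR u21 (by norm_num) (by norm_num) (i1 := 22) rfl)).trans
    (TRn.toTR u22 (by norm_num) (by norm_num) (i1 := 23) rfl)).trans
    (TRn.toTR u23 (by norm_num) (by norm_num) (i1 := 24) rfl)).trans
    (TRn.toTR u24 (by norm_num) (by norm_num) (i1 := 25) rfl)).trans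
    (TRn.toTR u25 (by norm_num) (by norm_num) (i1 := 26) rfl)).trans
    (TRn.toTR u26 (by norm_num) (by norm_num) (i1 := 27) rfl)).trans
    (TRn.toTR u27 (by norm_num) (by norm_num) (i1 := 28) rfl)).trans
    (TRn.toTR u28 (by norm_num) (by norm_num) (i1 := 29) rfl)).trans
    (TRn.toTR u29 (by norm_num) (by norm_num) (i1 := 30) rfl)).trans
    (TR_of t20 (by norm_num) (by norm_num) (i1 := 31) rfl)).trans
    (TR_of t21 (by norm_num) (by norm_num) (i1 := 32) rfl)).trans
    (TR_of t22 (by norm_num) (by norm_num) (i1 := 33) rfl)).trans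
    (TR_of t23 (by norm_num) (by norm_num) (i1 := 34) rfl)).trans
    (TR_of t24 (by norm_num) (by norm_num) (i1 := 35) rfl)).trans
    (TR_of t25 (by norm_num) (by norm_num) (i1 := 36) rfl)).trans
    (TR_of t26 (by norm_num) (by norm_num) (i1 := 37) rfl)).trans
    (TR_of t27 (by norm_num) (by norm_num) (i1 := 38) rfl)).trans
    (TR_of t28 (by norm_num) (by norm_num) (i1 := 39) rfl)).trans
    (TR_of t29 (by norm_num) (by norm_num) (i1 := 40) rfl)).trans
    (TR_of t30 (by norm_num) (by norm_num) (i1 := 41) rfl)).trans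
    (TR_of t31 (by norm_num) (by norm_num) (i1 := 42) rfl)).trans
    (TR_of t32 (by norm_num) (by norm_num) (i1 := 43) rfl)).trans
    (TR_of t33 (by norm_num) (by norm_num) (i1 := 44) rfl)).trans
    (TR_of t34 (by norm_num) (by norm_num) (i1 := 45) rfl)).trans
    (TR_of t35 (by norm_num) (by norm_num) (i1 := 46) rfl)).trans
    (TR_of t36 (by norm_num) (by norm_num) (i1 := 47) rfl)).trans
    (TR_of t37 (by norm_num) (by norm_num) (i1 := 48) rfl)).trans
    (TR_of t38 (by norm_num) (by norm_num) (i1 := 49) rfl)).trans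
    (TR_of t39 (by norm_num) (by norm_num) (i1 := 50) rfl)).trans
    (TR_of t40 (by norm_num) (by norm_num) (i1 := 51) rfl)).trans
    (TR_of t41 (by norm_num) (by norm_num) (i1 := 53) rfl)).trans
    (TR_of t42 (by norm_num) (by norm_num) (i1 := 55) rfl)).trans
    (TR_of t43 (by norm_num) (by norm_num) (i1 := 57) rfl)).trans
    (TR_of t44 (by norm_num) (by norm_num) (i1 := 59) rfl)).trans
    (TR_of t45 (by norm_num) (by norm_num) (i1 := 61) rfl)).trans
    (TR_of t46 (by norm_num) (by norm_num) (i1 := 63) rfl)).trans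
    (TR_of t47 (by norm_num) (by norm_num) (i1 := 65) rfl)).trans
    (TR_of t48 (by norm_num) (by norm_num) (i1 := 67) rfl)).trans
    (TR_of t49 (by norm_num) (by norm_num) (i1 := 69) rfl))

end Pool.Agent.SignedQ.KD.Tr24_2
end

section

set_option autoImplicit false
set_option maxRecDepth 100000

namespace Pool.Agent.SignedQ.KD.Tr24_3

def t0 : tra 24 94 4594 1078 4594 69 3 = true := by decide +kernel

def t1 : tra 24 94 4594 1078 4594 72 3 = true := by decide +kernel

def t2 : tra 24 94 4594 1078 4594 75 3 = true := by decide +kernel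

def t3 : tra 24 94 4594 1078 4594 78 3 = true := by decide +kernel

def t4 : tra 24 94 4594 1078 4594 81 4 = true := by decide +kernel

def t5 : tra 24 94 4594 1078 4594 85 4 = true := by decide +kernel

def t6 : tra 24 94 4594 1078 4594 89 4 = true := by decide +kernel

def t7 : tra 24 94 4594 1078 4594 93 5 = true := by decide +kernel

def t8 : tra 24 94 4594 1078 4594 98 5 = true := by decide +kernel

def t9 : tra 24 94 4594 1078 4594 103 6 = true := by decide +kernel

def t10 : tra 24 94 4594 1078 4594 109 7 = true := by decide +kernel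

def t11 : tra 24 94 4594 1078 4594 116 8 = true := by decide +kernel

def t12 : tra 24 94 4594 1078 4594 124 9 = true := by decide +kernel

def t13 : tra 24 94 4594 1078 4594 133 11 = true := by decide +kernel

def t14 : tra 24 94 4594 1078 4594 144 13 = true := by decide +kernel

def t15 : tra 24 94 4594 1078 4594 157 15 = true := by decide +kernel

def t16 : tra 24 94 4594 1078 4594 172 18 = true := by decide +kernel

def t17 : tra 24 94 4594 1078 4594 190 23 = true := by decide +kernel

def t18 : tra 24 94 4594 1078 4594 213 29 = true := by decide +kernel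

def t19 : tra 24 94 4594 1078 4594 242 38 = true := by decide +kernel

def t20 : tra 24 94 4594 1078 4594 280 53 = true := by decide +kernel

def t21 : tra 24 94 4594 1078 4594 333 80 = true := by decide +kernel

def t22 : tra 24 94 4594 1078 4594 413 127 = true := by decide +kernel

def t23 : tra 24 94 4594 1078 4594 540 231 = true := by decide +kernel

def t24 : tra 24 94 4594 1078 4594 771 748 = true := by decide +kernel

def t25 : tra 24 94 4594 1078 4594 1519 777 = true := by decide +kernel

theorem tr : TR 24 4594 1078 4594 69 2296 :=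
  ((((((((((((((((((((((((((TR_of t0 (by norm_num) (by norm_num) (i1 := 72) rfl).trans
    (TR_of t1 (by norm_num) (by norm_num) (i1 := 75) rfl)).trans
    (TR_of t2 (by norm_num) (by norm_num) (i1 := 78) rfl)).trans
    (TR_of t3 (by norm_num) (by norm_num) (i1 := 81) rfl)).trans
    (TR_of t4 (by norm_num) (by norm_num) (i1 := 85) rfl)).trans
    (TR_of t5 (by norm_num) (by norm_num) (i1 := 89) rfl)).trans
    (TR_of t6 (by norm_num) (by norm_num) (i1 := 93) rfl)).trans
    (TR_of t7 (by norm_num) (by norm_num) (i1 := 98) rfl)).trans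
    (TR_of t8 (by norm_num) (by norm_num) (i1 := 103) rfl)).trans
    (TR_of t9 (by norm_num) (by norm_num) (i1 := 109) rfl)).trans
    (TR_of t10 (by norm_num) (by norm_num) (i1 := 116) rfl)).trans
    (TR_of t11 (by norm_num) (by norm_num) (i1 := 124) rfl)).trans
    (TR_of t12 (by norm_num) (by norm_num) (i1 := 133) rfl)).trans
    (TR_of t13 (by norm_num) (by norm_num) (i1 := 144) rfl)).trans
    (TR_of t14 (by norm_num) (by norm_num) (i1 := 157) rfl)).trans
    (TR_of t15 (by norm_num) (by norm_num) (i1 := 172) rfl)).trans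
    (TR_of t16 (by norm_num) (by norm_num) (i1 := 190) rfl)).trans
    (TR_of t17 (by norm_num) (by norm_num) (i1 := 213) rfl)).trans
    (TR_of t18 (by norm_num) (by norm_num) (i1 := 242) rfl)).trans
    (TR_of t19 (by norm_num) (by norm_num) (i1 := 280) rfl)).trans
    (TR_of t20 (by norm_num) (by norm_num) (i1 := 333) rfl)).trans
    (TR_of t21 (by norm_num) (by norm_num) (i1 := 413) rfl)).trans
    (TR_of t22 (by norm_num) (by norm_num) (i1 := 540) rfl)).trans
    (TR_of t23 (by norm_num) (by norm_num) (i1 := 771) rfl)).trans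
    (TR_of t24 (by norm_num) (by norm_num) (i1 := 1519) rfl)).trans
    (TR_of t25 (by norm_num) (by norm_num) (i1 := 2296) rfl))

end Pool.Agent.SignedQ.KD.Tr24_3
end

section

set_option autoImplicit false
set_option maxRecDepth 100000

namespace Pool.Agent.SignedQ.KD.Tr25_0

def t0 : ftr 25 97 5283 3 367 122 = true := by decide +kernel

def t1 : ftr 25 97 5283 3 489 122 = true := by decide +kernel

def t2 : ftr 25 97 5283 3 611 122 = true := by decide +kernel

def t3 : ftr 25 97 5283 3 733 122 = true := by decide +kernel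

def t4 : ftr 25 97 5283 3 855 122 = true := by decide +kernel

def t5 : ftr 25 97 5283 3 977 122 = true := by decide +kernel

def t6 : ftr 25 97 5283 3 1099 122 = true := by decide +kernel

def t7 : ftr 25 97 5283 3 1221 122 = true := by decide +kernel

def t8 : ftr 25 97 5283 3 1343 122 = true := by decide +kernel

def t9 : ftr 25 97 5283 3 1465 122 = true := by decide +kernel

def t10 : ftr 25 97 5283 3 1587 122 = true := by decide +kernel

def t11 : ftr 25 97 5283 3 1709 51 = true := by decide +kernel

theorem u0 : TRn 25 5283 (2 * 0 + 3) 367 1760 :=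
  ((((((((((((TRn_of t0 (by norm_num) (by norm_num) (n1 := 489) rfl).trans (TRn_of t1 (by norm_num) (by norm_num) (n1 := 611) rfl)).trans (TRn_of t2 (by norm_num) (by norm_num) (n1 := 733) rfl)).trans (TRn_of t3 (by norm_num) (by norm_num) (n1 := 855) rfl)).trans (TRn_of t4 (by norm_num) (by norm_num) (n1 := 977) rfl)).trans (TRn_of t5 (by norm_num) (by norm_num) (n1 := 1099) rfl)).trans (TRn_of t6 (by norm_num) (by norm_num) (n1 := 1221) rfl)).trans (TRn_of t7 (by norm_num) (by norm_num) (n1 := 1343) rfl)).trans (TRn_of t8 (by norm_num) (by norm_num) (n1 := 1465) rfl)).trans (TRn_of t9 (by norm_num) (by norm_num) (n1 := 1587) rfl)).trans (TRn_of t10 (by norm_num) (by norm_num) (n1 := 1709) rfl)).trans (TRn_of t11 (by norm_num) (by norm_num) (n1 := 1760) rfl))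

def t12 : ftr 25 97 5283 5 211 122 = true := by decide +kernel

def t13 : ftr 25 97 5283 5 333 122 = true := by decide +kernel

def t14 : ftr 25 97 5283 5 455 122 = true := by decide +kernel

def t15 : ftr 25 97 5283 5 577 122 = true := by decide +kernel

def t16 : ftr 25 97 5283 5 699 122 = true := by decide +kernel

def t17 : ftr 25 97 5283 5 821 122 = true := by decide +kernel

def t18 : ftr 25 97 5283 5 943 113 = true := by decide +kernel

theorem u1 : TRn 25 5283 (2 * 1 + 3) 211 1056 :=
  (((((((TRn_of t12 (by norm_num) (by norm_num) (n1 := 333) rfl).trans (TRn_of t13 (by norm_num) (by norm_num) (n1 := 455) rfl)).trans (TRn_of t14 (by norm_num) (by norm_num) (n1 := 577) rfl)).trans (TRn_of t15 (by norm_num) (by norm_num) (n1 := 699) rfl)).trans (TRn_of t16 (by norm_num) (by norm_num) (n1 := 821) rfl)).trans (TRn_of t17 (by norm_num) (by norm_num) (n1 := 943) rfl)).trans (TRn_of t18 (by norm_num) (by norm_num) (n1 := 1056) rfl))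

def t19 : ftr 25 97 5283 7 143 122 = true := by decide +kernel

def t20 : ftr 25 97 5283 7 265 122 = true := by decide +kernel

def t21 : ftr 25 97 5283 7 387 122 = true := by decide +kernel

def t22 : ftr 25 97 5283 7 509 122 = true := by decide +kernel

def t23 : ftr 25 97 5283 7 631 123 = true := by decide +kernel

theorem u2 : TRn 25 5283 (2 * 2 + 3) 143 754 :=
  (((((TRn_of t19 (by norm_num) (by norm_num) (n1 := 265) rfl).trans (TRn_of t20 (by norm_num) (by norm_num) (n1 := 387) rfl)).trans (TRn_of t21 (by norm_num) (by norm_num) (n1 := 509) rfl)).trans (TRn_of t22 (by norm_num) (by norm_num) (n1 := 631) rfl)).trans (TRn_of t23 (by norm_num) (by norm_num) (n1 := 754) rfl))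

def t24 : ftr 25 97 5283 9 106 121 = true := by decide +kernel

def t25 : ftr 25 97 5283 9 227 122 = true := by decide +kernel

def t26 : ftr 25 97 5283 9 349 122 = true := by decide +kernel

def t27 : ftr 25 97 5283 9 471 115 = true := by decide +kernel

theorem u3 : TRn 25 5283 (2 * 3 + 3) 106 586 :=
  ((((TRn_of t24 (by norm_num) (by norm_num) (n1 := 227) rfl).trans (TRn_of t25 (by norm_num) (by norm_num) (n1 := 349) rfl)).trans (TRn_of t26 (by norm_num) (by norm_num) (n1 := 471) rfl)).trans (TRn_of t27 (by norm_num) (by norm_num) (n1 := 586) rfl))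

def t28 : ftr 25 97 5283 11 82 121 = true := by decide +kernel

def t29 : ftr 25 97 5283 11 203 122 = true := by decide +kernel

def t30 : ftr 25 97 5283 11 325 122 = true := by decide +kernel

def t31 : ftr 25 97 5283 11 447 33 = true := by decide +kernel

theorem u4 : TRn 25 5283 (2 * 4 + 3) 82 480 :=
  ((((TRn_of t28 (by norm_num) (by norm_num) (n1 := 203) rfl).trans (TRn_of t29 (by norm_num) (by norm_num) (n1 := 325) rfl)).trans (TRn_of t30 (by norm_num) (by norm_num) (n1 := 447) rfl)).trans (TRn_of t31 (by norm_num) (by norm_num) (n1 := 480) rfl))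

def t32 : ftr 25 97 5283 13 66 121 = true := by decide +kernel

def t33 : ftr 25 97 5283 13 187 122 = true := by decide +kernel

def t34 : ftr 25 97 5283 13 309 97 = true := by decide +kernel

theorem u5 : TRn 25 5283 (2 * 5 + 3) 66 406 :=
  (((TRn_of t32 (by norm_num) (by norm_num) (n1 := 187) rfl).trans (TRn_of t33 (by norm_num) (by norm_num) (n1 := 309) rfl)).trans (TRn_of t34 (by norm_num) (by norm_num) (n1 := 406) rfl))

def t35 : ftr 25 97 5283 15 54 121 = true := by decide +kernel

def t36 : ftr 25 97 5283 15 175 122 = true := by decide +kernel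

def t37 : ftr 25 97 5283 15 297 55 = true := by decide +kernel

theorem u6 : TRn 25 5283 (2 * 6 + 3) 54 352 :=
  (((TRn_of t35 (by norm_num) (by norm_num) (n1 := 175) rfl).trans (TRn_of t36 (by norm_num) (by norm_num) (n1 := 297) rfl)).trans (TRn_of t37 (by norm_num) (by norm_num) (n1 := 352) rfl))

def t38 : ftr 25 97 5283 17 45 122 = true := by decide +kernel

def t39 : ftr 25 97 5283 17 167 122 = true := by decide +kernel

def t40 : ftr 25 97 5283 17 289 21 = true := by decide +kernel

theorem u7 : TRn 25 5283 (2 * 7 + 3) 45 310 :=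
  (((TRn_of t38 (by norm_num) (by norm_num) (n1 := 167) rfl).trans (TRn_of t39 (by norm_num) (by norm_num) (n1 := 289) rfl)).trans (TRn_of t40 (by norm_num) (by norm_num) (n1 := 310) rfl))

def t41 : ftr 25 97 5283 19 37 122 = true := by decide +kernel

def t42 : ftr 25 97 5283 19 159 119 = true := by decide +kernel

theorem u8 : TRn 25 5283 (2 * 8 + 3) 37 278 :=
  ((TRn_of t41 (by norm_num) (by norm_num) (n1 := 159) rfl).trans (TRn_of t42 (by norm_num) (by norm_num) (n1 := 278) rfl))

def t43 : ftr 25 97 5283 21 31 122 = true := by decide +kernel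

def t44 : ftr 25 97 5283 21 153 98 = true := by decide +kernel

theorem u9 : TRn 25 5283 (2 * 9 + 3) 31 251 :=
  ((TRn_of t43 (by norm_num) (by norm_num) (n1 := 153) rfl).trans (TRn_of t44 (by norm_num) (by norm_num) (n1 := 251) rfl))

def t45 : ftr 25 97 5283 23 27 122 = true := by decide +kernel

def t46 : ftr 25 97 5283 23 149 80 = true := by decide +kernel

theorem u10 : TRn 25 5283 (2 * 10 + 3) 27 229 :=
  ((TRn_of t45 (by norm_num) (by norm_num) (n1 := 149) rfl).trans (TRn_of t46 (by norm_num) (by norm_num) (n1 := 229) rfl))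

def t47 : ftr 25 97 5283 25 23 122 = true := by decide +kernel

def t48 : ftr 25 97 5283 25 145 66 = true := by decide +kernel

theorem u11 : TRn 25 5283 (2 * 11 + 3) 23 211 :=
  ((TRn_of t47 (by norm_num) (by norm_num) (n1 := 145) rfl).trans (TRn_of t48 (by norm_num) (by norm_num) (n1 := 211) rfl))

theorem tr : TR 25 5283 1176 5283 0 12 :=
  ((((((((((((TRn.toTR u0 (by norm_num) (by norm_num) (i1 := 1) rfl).trans
    (TRn.toTR u1 (by norm_num) (by norm_num) (i1 := 2) rfl)).trans
    (TRn.toTR u2 (by norm_num) (by norm_num) (i1 := 3) rfl)).trans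
    (TRn.toTR u3 (by norm_num) (by norm_num) (i1 := 4) rfl)).trans
    (TRn.toTR u4 (by norm_num) (by norm_num) (i1 := 5) rfl)).trans
    (TRn.toTR u5 (by norm_num) (by norm_num) (i1 := 6) rfl)).trans
    (TRn.toTR u6 (by norm_num) (by norm_num) (i1 := 7) rfl)).trans
    (TRn.toTR u7 (by norm_num) (by norm_num) (i1 := 8) rfl)).trans
    (TRn.toTR u8 (by norm_num) (by norm_num) (i1 := 9) rfl)).trans
    (TRn.toTR u9 (by norm_num) (by norm_num) (i1 := 10) rfl)).trans
    (TRn.toTR u10 (by norm_num) (by norm_num) (i1 := 11) rfl)).trans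
    (TRn.toTR u11 (by norm_num) (by norm_num) (i1 := 12) rfl))

end Pool.Agent.SignedQ.KD.Tr25_0
end
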