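import Pool.Agent.Lib.MP_cf17a0_co.Mg.G067

section

set_option autoImplicit false
set_option maxRecDepth 100000

namespace Pool.Agent.SignedQ.KD.Tr25_1

def t0 : ftr 25 97 5283 27 19 122 = true := by decide +kernel

def t1 : ftr 25 97 5283 27 141 54 = true := by decide +kernel

theorem u12 : TRn 25 5283 (2 * 12 + 3) 19 195 :=
  ((TRn_of t0 (by norm_num) (by norm_num) (n1 := 141) rfl).trans (TRn_of t1 (by norm_num) (by norm_num) (n1 := 195) rfl))

def t2 : ftr 25 97 5283 29 16 121 = true := by decide +kernel

def t3 : ftr 25 97 5283 29 137 45 = true := by decide +kernel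

theorem u13 : TRn 25 5283 (2 * 13 + 3) 16 182 :=
  ((TRn_of t2 (by norm_num) (by norm_num) (n1 := 137) rfl).trans (TRn_of t3 (by norm_num) (by norm_num) (n1 := 182) rfl))

def t4 : ftr 25 97 5283 31 13 122 = true := by decide +kernel

def t5 : ftr 25 97 5283 31 135 35 = true := by decide +kernel

theorem u14 : TRn 25 5283 (2 * 14 + 3) 13 170 :=
  ((TRn_of t4 (by norm_num) (by norm_num) (n1 := 135) rfl).trans (TRn_of t5 (by norm_num) (by norm_num) (n1 := 170) rfl))

def t6 : ftr 25 97 5283 33 11 122 = true := by decide +kernel

def t7 : ftr 25 97 5283 33 133 27 = true := by decide +kernel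

theorem u15 : TRn 25 5283 (2 * 15 + 3) 11 160 :=
  ((TRn_of t6 (by norm_num) (by norm_num) (n1 := 133) rfl).trans (TRn_of t7 (by norm_num) (by norm_num) (n1 := 160) rfl))

def t8 : ftr 25 97 5283 35 9 122 = true := by decide +kernel

def t9 : ftr 25 97 5283 35 131 19 = true := by decide +kernel

theorem u16 : TRn 25 5283 (2 * 16 + 3) 9 150 :=
  ((TRn_of t8 (by norm_num) (by norm_num) (n1 := 131) rfl).trans (TRn_of t9 (by norm_num) (by norm_num) (n1 := 150) rfl))

def t10 : ftr 25 97 5283 37 7 124 = true := by decide +kernel

def t11 : ftr 25 97 5283 37 131 11 = true := by decide +kernel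

theorem u17 : TRn 25 5283 (2 * 17 + 3) 7 142 :=
  ((TRn_of t10 (by norm_num) (by norm_num) (n1 := 131) rfl).trans (TRn_of t11 (by norm_num) (by norm_num) (n1 := 142) rfl))

def t12 : tra 25 97 5283 1176 5283 18 1 = true := by decide +kernel

def t13 : tra 25 97 5283 1176 5283 19 1 = true := by decide +kernel

def t14 : tra 25 97 5283 1176 5283 20 1 = true := by decide +kernel

def t15 : tra 25 97 5283 1176 5283 21 1 = true := by decide +kernel

def t16 : tra 25 97 5283 1176 5283 22 1 = true := by decide +kernel

def t17 : tra 25 97 5283 1176 5283 23 1 = true := by decide +kernel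

def t18 : tra 25 97 5283 1176 5283 24 1 = true := by decide +kernel

def t19 : tra 25 97 5283 1176 5283 25 1 = true := by decide +kernel

def t20 : tra 25 97 5283 1176 5283 26 1 = true := by decide +kernel

def t21 : tra 25 97 5283 1176 5283 27 1 = true := by decide +kernel

def t22 : tra 25 97 5283 1176 5283 28 1 = true := by decide +kernel

def t23 : tra 25 97 5283 1176 5283 29 1 = true := by decide +kernel

def t24 : tra 25 97 5283 1176 5283 30 1 = true := by decide +kernel

def t25 : tra 25 97 5283 1176 5283 31 1 = true := by decide +kernel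

def t26 : tra 25 97 5283 1176 5283 32 1 = true := by decide +kernel

def t27 : tra 25 97 5283 1176 5283 33 1 = true := by decide +kernel

def t28 : tra 25 97 5283 1176 5283 34 1 = true := by decide +kernel

def t29 : tra 25 97 5283 1176 5283 35 2 = true := by decide +kernel

def t30 : tra 25 97 5283 1176 5283 37 2 = true := by decide +kernel

def t31 : tra 25 97 5283 1176 5283 39 2 = true := by decide +kernel

def t32 : tra 25 97 5283 1176 5283 41 2 = true := by decide +kernel

def t33 : tra 25 97 5283 1176 5283 43 2 = true := by decide +kernel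

def t34 : tra 25 97 5283 1176 5283 45 2 = true := by decide +kernel

def t35 : tra 25 97 5283 1176 5283 47 2 = true := by decide +kernel

def t36 : tra 25 97 5283 1176 5283 49 3 = true := by decide +kernel

def t37 : tra 25 97 5283 1176 5283 52 3 = true := by decide +kernel

def t38 : tra 25 97 5283 1176 5283 55 3 = true := by decide +kernel

def t39 : tra 25 97 5283 1176 5283 58 3 = true := by decide +kernel

def t40 : tra 25 97 5283 1176 5283 61 4 = true := by decide +kernel

def t41 : tra 25 97 5283 1176 5283 65 4 = true := by decide +kernel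

def t42 : tra 25 97 5283 1176 5283 69 4 = true := by decide +kernel

def t43 : tra 25 97 5283 1176 5283 73 5 = true := by decide +kernel

def t44 : tra 25 97 5283 1176 5283 78 5 = true := by decide +kernel

def t45 : tra 25 97 5283 1176 5283 83 6 = true := by decide +kernel

def t46 : tra 25 97 5283 1176 5283 89 7 = true := by decide +kernel

def t47 : tra 25 97 5283 1176 5283 96 8 = true := by decide +kernel

def t48 : tra 25 97 5283 1176 5283 104 9 = true := by decide +kernel

def t49 : tra 25 97 5283 1176 5283 113 11 = true := by decide +kernel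

theorem tr : TR 25 5283 1176 5283 12 124 :=
  ((((((((((((((((((((((((((((((((((((((((((((TRn.toTR u12 (by norm_num) (by norm_num) (i1 := 13) rfl).trans
    (TRn.toTR u13 (by norm_num) (by norm_num) (i1 := 14) rfl)).trans
    (TRn.toTR u14 (by norm_num) (by norm_num) (i1 := 15) rfl)).trans
    (TRn.toTR u15 (by norm_num) (by norm_num) (i1 := 16) rfl)).trans
    (TRn.toTR u16 (by norm_num) (by norm_num) (i1 := 17) rfl)).trans
    (TRn.toTR u17 (by norm_num) (by norm_num) (i1 := 18) rfl)).trans
    (TR_of t12 (by norm_num) (by norm_num) (i1 := 19) rfl)).trans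
    (TR_of t13 (by norm_num) (by norm_num) (i1 := 20) rfl)).trans
    (TR_of t14 (by norm_num) (by norm_num) (i1 := 21) rfl)).trans
    (TR_of t15 (by norm_num) (by norm_num) (i1 := 22) rfl)).trans
    (TR_of t16 (by norm_num) (by norm_num) (i1 := 23) rfl)).trans
    (TR_of t17 (by norm_num) (by norm_num) (i1 := 24) rfl)).trans
    (TR_of t18 (by norm_num) (by norm_num) (i1 := 25) rfl)).trans
    (TR_of t19 (by norm_num) (by norm_num) (i1 := 26) rfl)).trans
    (TR_of t20 (by norm_num) (by norm_num) (i1 := 27) rfl)).trans
    (TR_of t21 (by norm_num) (by norm_num) (i1 := 28) rfl)).trans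
    (TR_of t22 (by norm_num) (by norm_num) (i1 := 29) rfl)).trans
    (TR_of t23 (by norm_num) (by norm_num) (i1 := 30) rfl)).trans
    (TR_of t24 (by norm_num) (by norm_num) (i1 := 31) rfl)).trans
    (TR_of t25 (by norm_num) (by norm_num) (i1 := 32) rfl)).trans
    (TR_of t26 (by norm_num) (by norm_num) (i1 := 33) rfl)).trans
    (TR_of t27 (by norm_num) (by norm_num) (i1 := 34) rfl)).trans
    (TR_of t28 (by norm_num) (by norm_num) (i1 := 35) rfl)).trans
    (TR_of t29 (by norm_num) (by norm_num) (i1 := 37) rfl)).trans
    (TR_of t30 (by norm_num) (by norm_num) (i1 := 39) rfl)).trans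
    (TR_of t31 (by norm_num) (by norm_num) (i1 := 41) rfl)).trans
    (TR_of t32 (by norm_num) (by norm_num) (i1 := 43) rfl)).trans
    (TR_of t33 (by norm_num) (by norm_num) (i1 := 45) rfl)).trans
    (TR_of t34 (by norm_num) (by norm_num) (i1 := 47) rfl)).trans
    (TR_of t35 (by norm_num) (by norm_num) (i1 := 49) rfl)).trans
    (TR_of t36 (by norm_num) (by norm_num) (i1 := 52) rfl)).trans
    (TR_of t37 (by norm_num) (by norm_num) (i1 := 55) rfl)).trans
    (TR_of t38 (by norm_num) (by norm_num) (i1 := 58) rfl)).trans
    (TR_of t39 (by norm_num) (by norm_num) (i1 := 61) rfl)).trans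
    (TR_of t40 (by norm_num) (by norm_num) (i1 := 65) rfl)).trans
    (TR_of t41 (by norm_num) (by norm_num) (i1 := 69) rfl)).trans
    (TR_of t42 (by norm_num) (by norm_num) (i1 := 73) rfl)).trans
    (TR_of t43 (by norm_num) (by norm_num) (i1 := 78) rfl)).trans
    (TR_of t44 (by norm_num) (by norm_num) (i1 := 83) rfl)).trans
    (TR_of t45 (by norm_num) (by norm_num) (i1 := 89) rfl)).trans
    (TR_of t46 (by norm_num) (by norm_num) (i1 := 96) rfl)).trans
    (TR_of t47 (by norm_num) (by norm_num) (i1 := 104) rfl)).trans
    (TR_of t48 (by norm_num) (by norm_num) (i1 := 113) rfl)).trans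
    (TR_of t49 (by norm_num) (by norm_num) (i1 := 124) rfl))

end Pool.Agent.SignedQ.KD.Tr25_1
end

section

set_option autoImplicit false
set_option maxRecDepth 100000

namespace Pool.Agent.SignedQ.KD.Tr25_2

def t0 : tra 25 97 5283 1176 5283 124 14 = true := by decide +kernel

def t1 : tra 25 97 5283 1176 5283 138 17 = true := by decide +kernel

def t2 : tra 25 97 5283 1176 5283 155 22 = true := by decide +kernel

def t3 : tra 25 97 5283 1176 5283 177 29 = true := by decide +kernel

def t4 : tra 25 97 5283 1176 5283 206 40 = true := by decide +kernel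

def t5 : tra 25 97 5283 1176 5283 246 59 = true := by decide +kernel

def t6 : tra 25 97 5283 1176 5283 305 93 = true := by decide +kernel

def t7 : tra 25 97 5283 1176 5283 398 165 = true := by decide +kernel

def t8 : tra 25 97 5283 1176 5283 563 338 = true := by decide +kernel

def t9 : tra 25 97 5283 1176 5283 901 1081 = true := by decide +kernel

def t10 : tra 25 97 5283 1176 5283 1982 658 = true := by decide +kernel

theorem tr : TR 25 5283 1176 5283 124 2640 :=
  (((((((((((TR_of t0 (by norm_num) (by norm_num) (i1 := 138) rfl).trans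
    (TR_of t1 (by norm_num) (by norm_num) (i1 := 155) rfl)).trans
    (TR_of t2 (by norm_num) (by norm_num) (i1 := 177) rfl)).trans
    (TR_of t3 (by norm_num) (by norm_num) (i1 := 206) rfl)).trans
    (TR_of t4 (by norm_num) (by norm_num) (i1 := 246) rfl)).trans
    (TR_of t5 (by norm_num) (by norm_num) (i1 := 305) rfl)).trans
    (TR_of t6 (by norm_num) (by norm_num) (i1 := 398) rfl)).trans
    (TR_of t7 (by norm_num) (by norm_num) (i1 := 563) rfl)).trans
    (TR_of t8 (by norm_num) (by norm_num) (i1 := 901) rfl)).trans
    (TR_of t9 (by norm_num) (by norm_num) (i1 := 1982) rfl)).trans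
    (TR_of t10 (by norm_num) (by norm_num) (i1 := 2640) rfl))

end Pool.Agent.SignedQ.KD.Tr25_2
end

section

set_option autoImplicit false
set_option maxRecDepth 100000

namespace Pool.Agent.SignedQ.KD.Tr4_0

def t0 : tra 4 16 9241 9047 9241 0 29 = true := by decide +kernel

def t1 : tra 4 16 9241 9047 9241 29 140 = true := by decide +kernel

def t2 : tra 4 16 9241 9047 9241 169 200 = true := by decide +kernel

def t3 : tra 4 16 9241 9047 9241 369 216 = true := by decide +kernel

def t4 : tra 4 16 9241 9047 9241 585 230 = true := by decide +kernel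

def t5 : tra 4 16 9241 9047 9241 815 237 = true := by decide +kernel

def t6 : tra 4 16 9241 9047 9241 1052 234 = true := by decide +kernel

def t7 : tra 4 16 9241 9047 9241 1286 250 = true := by decide +kernel

def t8 : tra 4 16 9241 9047 9241 1536 497 = true := by decide +kernel

def t9 : tra 4 16 9241 9047 9241 2033 948 = true := by decide +kernel

def t10 : tra 4 16 9241 9047 9241 2981 1500 = true := by decide +kernel

def t11 : tra 4 16 9241 9047 9241 4481 138 = true := by decide +kernel

theorem tr : TR 4 9241 9047 9241 0 4619 :=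
  ((((((((((((TR_of t0 (by norm_num) (by norm_num) (i1 := 29) rfl).trans
    (TR_of t1 (by norm_num) (by norm_num) (i1 := 169) rfl)).trans
    (TR_of t2 (by norm_num) (by norm_num) (i1 := 369) rfl)).trans
    (TR_of t3 (by norm_num) (by norm_num) (i1 := 585) rfl)).trans
    (TR_of t4 (by norm_num) (by norm_num) (i1 := 815) rfl)).trans
    (TR_of t5 (by norm_num) (by norm_num) (i1 := 1052) rfl)).trans
    (TR_of t6 (by norm_num) (by norm_num) (i1 := 1286) rfl)).trans
    (TR_of t7 (by norm_num) (by norm_num) (i1 := 1536) rfl)).trans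
    (TR_of t8 (by norm_num) (by norm_num) (i1 := 2033) rfl)).trans
    (TR_of t9 (by norm_num) (by norm_num) (i1 := 2981) rfl)).trans
    (TR_of t10 (by norm_num) (by norm_num) (i1 := 4481) rfl)).trans
    (TR_of t11 (by norm_num) (by norm_num) (i1 := 4619) rfl))

end Pool.Agent.SignedQ.KD.Tr4_0
end

section

set_option autoImplicit false
set_option maxRecDepth 100000

namespace Pool.Agent.SignedQ.KD.Tr5_0

def t0 : tra 5 18 18587 18188 18587 0 16 = true := by decide +kernel

def t1 : tra 5 18 18587 18188 18587 16 103 = true := by decide +kernel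

def t2 : tra 5 18 18587 18188 18587 119 200 = true := by decide +kernel

def t3 : tra 5 18 18587 18188 18587 319 243 = true := by decide +kernel

def t4 : tra 5 18 18587 18188 18587 562 270 = true := by decide +kernel

def t5 : tra 5 18 18587 18188 18587 832 259 = true := by decide +kernel

def t6 : tra 5 18 18587 18188 18587 1091 281 = true := by decide +kernel

def t7 : tra 5 18 18587 18188 18587 1372 287 = true := by decide +kernel

def t8 : tra 5 18 18587 18188 18587 1659 283 = true := by decide +kernel

def t9 : tra 5 18 18587 18188 18587 1942 250 = true := by decide +kernel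

def t10 : tra 5 18 18587 18188 18587 2192 310 = true := by decide +kernel

def t11 : tra 5 18 18587 18188 18587 2502 375 = true := by decide +kernel

def t12 : tra 5 18 18587 18188 18587 2877 530 = true := by decide +kernel

def t13 : tra 5 18 18587 18188 18587 3407 750 = true := by decide +kernel

def t14 : tra 5 18 18587 18188 18587 4157 1011 = true := by decide +kernel

def t15 : tra 5 18 18587 18188 18587 5168 1500 = true := by decide +kernel

def t16 : tra 5 18 18587 18188 18587 6668 1500 = true := by decide +kernel

def t17 : tra 5 18 18587 18188 18587 8168 1124 = true := by decide +kernel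

theorem tr : TR 5 18587 18188 18587 0 9292 :=
  ((((((((((((((((((TR_of t0 (by norm_num) (by norm_num) (i1 := 16) rfl).trans
    (TR_of t1 (by norm_num) (by norm_num) (i1 := 119) rfl)).trans
    (TR_of t2 (by norm_num) (by norm_num) (i1 := 319) rfl)).trans
    (TR_of t3 (by norm_num) (by norm_num) (i1 := 562) rfl)).trans
    (TR_of t4 (by norm_num) (by norm_num) (i1 := 832) rfl)).trans
    (TR_of t5 (by norm_num) (by norm_num) (i1 := 1091) rfl)).trans
    (TR_of t6 (by norm_num) (by norm_num) (i1 := 1372) rfl)).trans
    (TR_of t7 (by norm_num) (by norm_num) (i1 := 1659) rfl)).trans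
    (TR_of t8 (by norm_num) (by norm_num) (i1 := 1942) rfl)).trans
    (TR_of t9 (by norm_num) (by norm_num) (i1 := 2192) rfl)).trans
    (TR_of t10 (by norm_num) (by norm_num) (i1 := 2502) rfl)).trans
    (TR_of t11 (by norm_num) (by norm_num) (i1 := 2877) rfl)).trans
    (TR_of t12 (by norm_num) (by norm_num) (i1 := 3407) rfl)).trans
    (TR_of t13 (by norm_num) (by norm_num) (i1 := 4157) rfl)).trans
    (TR_of t14 (by norm_num) (by norm_num) (i1 := 5168) rfl)).trans
    (TR_of t15 (by norm_num) (by norm_num) (i1 := 6668) rfl)).trans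
    (TR_of t16 (by norm_num) (by norm_num) (i1 := 8168) rfl)).trans
    (TR_of t17 (by norm_num) (by norm_num) (i1 := 9292) rfl))

end Pool.Agent.SignedQ.KD.Tr5_0
end
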