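import Pool.Agent.Lib.MP_cf17a0_co.Mg.G067
import Pool.Agent.Lib.MP_cf17a0_co.Mg.G068
import Pool.Agent.Lib.MP_cf17a0_co.S1.Dom
import Pool.Agent.Lib.MP_cf17a0_co.S1.TF1
import Pool.Agent.Lib.MP_cf17a0_co.S1.TF2
import Pool.Agent.Lib.MP_cf17a0_co.S1.TF3
import Pool.Agent.Lib.MP_cf17a0_co.S1.TF4
import Pool.Agent.Lib.MP_cf17a0_co.S1.TF5

section

set_option autoImplicit false
set_option maxRecDepth 100000

namespace Pool.Agent.SignedQ.KD.Tr7_0

def t0 : ftr 7 27 5283 3 1291 430 = true := by decide +kernel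

def t1 : ftr 7 27 5283 3 1721 39 = true := by decide +kernel

theorem u0 : TRn 7 5283 (2 * 0 + 3) 1291 1760 :=
  ((TRn_of t0 (by norm_num) (by norm_num) (n1 := 1721) rfl).trans (TRn_of t1 (by norm_num) (by norm_num) (n1 := 1760) rfl))

def t2 : tra 7 27 5283 3894 5283 1 1 = true := by decide +kernel

def t3 : tra 7 27 5283 3894 5283 2 2 = true := by decide +kernel

def t4 : tra 7 27 5283 3894 5283 4 4 = true := by decide +kernel

def t5 : tra 7 27 5283 3894 5283 8 7 = true := by decide +kernel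

def t6 : tra 7 27 5283 3894 5283 15 12 = true := by decide +kernel

def t7 : tra 7 27 5283 3894 5283 27 19 = true := by decide +kernel

def t8 : tra 7 27 5283 3894 5283 46 29 = true := by decide +kernel

def t9 : tra 7 27 5283 3894 5283 75 41 = true := by decide +kernel

def t10 : tra 7 27 5283 3894 5283 116 54 = true := by decide +kernel

def t11 : tra 7 27 5283 3894 5283 170 65 = true := by decide +kernel

def t12 : tra 7 27 5283 3894 5283 235 77 = true := by decide +kernel

def t13 : tra 7 27 5283 3894 5283 312 99 = true := by decide +kernel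

def t14 : tra 7 27 5283 3894 5283 411 178 = true := by decide +kernel

def t15 : tra 7 27 5283 3894 5283 589 390 = true := by decide +kernel

def t16 : tra 7 27 5283 3894 5283 979 1159 = true := by decide +kernel

def t17 : tra 7 27 5283 3894 5283 2138 502 = true := by decide +kernel

theorem tr : TR 7 5283 3894 5283 0 2640 :=
  (((((((((((((((((TRn.toTR u0 (by norm_num) (by norm_num) (i1 := 1) rfl).trans
    (TR_of t2 (by norm_num) (by norm_num) (i1 := 2) rfl)).trans
    (TR_of t3 (by norm_num) (by norm_num) (i1 := 4) rfl)).trans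
    (TR_of t4 (by norm_num) (by norm_num) (i1 := 8) rfl)).trans
    (TR_of t5 (by norm_num) (by norm_num) (i1 := 15) rfl)).trans
    (TR_of t6 (by norm_num) (by norm_num) (i1 := 27) rfl)).trans
    (TR_of t7 (by norm_num) (by norm_num) (i1 := 46) rfl)).trans
    (TR_of t8 (by norm_num) (by norm_num) (i1 := 75) rfl)).trans
    (TR_of t9 (by norm_num) (by norm_num) (i1 := 116) rfl)).trans
    (TR_of t10 (by norm_num) (by norm_num) (i1 := 170) rfl)).trans
    (TR_of t11 (by norm_num) (by norm_num) (i1 := 235) rfl)).trans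
    (TR_of t12 (by norm_num) (by norm_num) (i1 := 312) rfl)).trans
    (TR_of t13 (by norm_num) (by norm_num) (i1 := 411) rfl)).trans
    (TR_of t14 (by norm_num) (by norm_num) (i1 := 589) rfl)).trans
    (TR_of t15 (by norm_num) (by norm_num) (i1 := 979) rfl)).trans
    (TR_of t16 (by norm_num) (by norm_num) (i1 := 2138) rfl)).trans
    (TR_of t17 (by norm_num) (by norm_num) (i1 := 2640) rfl))

end Pool.Agent.SignedQ.KD.Tr7_0
end

section

set_option autoImplicit false
set_option maxRecDepth 100000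

namespace Pool.Agent.SignedQ.KD.Tr8_0

def t0 : tra 8 28 858 700 858 0 7 = true := by decide +kernel

def t1 : tra 8 28 858 700 858 7 22 = true := by decide +kernel

def t2 : tra 8 28 858 700 858 29 45 = true := by decide +kernel

def t3 : tra 8 28 858 700 858 74 354 = true := by decide +kernel

theorem tr : TR 8 858 700 858 0 428 :=
  ((((TR_of t0 (by norm_num) (by norm_num) (i1 := 7) rfl).trans
    (TR_of t1 (by norm_num) (by norm_num) (i1 := 29) rfl)).trans
    (TR_of t2 (by norm_num) (by norm_num) (i1 := 74) rfl)).trans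
    (TR_of t3 (by norm_num) (by norm_num) (i1 := 428) rfl))

end Pool.Agent.SignedQ.KD.Tr8_0
end

section

set_option autoImplicit false
set_option maxRecDepth 100000

namespace Pool.Agent.SignedQ.KD.Tr9_0

def t0 : ftr 9 38 6987 3 1564 333 = true := by decide +kernel

def t1 : ftr 9 38 6987 3 1897 334 = true := by decide +kernel

def t2 : ftr 9 38 6987 3 2231 97 = true := by decide +kernel

theorem u0 : TRn 9 6987 (2 * 0 + 3) 1564 2328 :=
  (((TRn_of t0 (by norm_num) (by norm_num) (n1 := 1897) rfl).trans (TRn_of t1 (by norm_num) (by norm_num) (n1 := 2231) rfl)).trans (TRn_of t2 (by norm_num) (by norm_num) (n1 := 2328) rfl))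

def t3 : ftr 9 38 6987 5 935 334 = true := by decide +kernel

def t4 : ftr 9 38 6987 5 1269 128 = true := by decide +kernel

theorem u1 : TRn 9 6987 (2 * 1 + 3) 935 1397 :=
  ((TRn_of t3 (by norm_num) (by norm_num) (n1 := 1269) rfl).trans (TRn_of t4 (by norm_num) (by norm_num) (n1 := 1397) rfl))

def t5 : tra 9 38 6987 4719 6987 2 1 = true := by decide +kernel

def t6 : tra 9 38 6987 4719 6987 3 1 = true := by decide +kernel

def t7 : tra 9 38 6987 4719 6987 4 1 = true := by decide +kernel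

def t8 : tra 9 38 6987 4719 6987 5 1 = true := by decide +kernel

def t9 : tra 9 38 6987 4719 6987 6 2 = true := by decide +kernel

def t10 : tra 9 38 6987 4719 6987 8 2 = true := by decide +kernel

def t11 : tra 9 38 6987 4719 6987 10 3 = true := by decide +kernel

def t12 : tra 9 38 6987 4719 6987 13 4 = true := by decide +kernel

def t13 : tra 9 38 6987 4719 6987 17 5 = true := by decide +kernel

def t14 : tra 9 38 6987 4719 6987 22 7 = true := by decide +kernel

def t15 : tra 9 38 6987 4719 6987 29 8 = true := by decide +kernel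

def t16 : tra 9 38 6987 4719 6987 37 11 = true := by decide +kernel

def t17 : tra 9 38 6987 4719 6987 48 13 = true := by decide +kernel

def t18 : tra 9 38 6987 4719 6987 61 16 = true := by decide +kernel

def t19 : tra 9 38 6987 4719 6987 77 19 = true := by decide +kernel

def t20 : tra 9 38 6987 4719 6987 96 22 = true := by decide +kernel

def t21 : tra 9 38 6987 4719 6987 118 26 = true := by decide +kernel

def t22 : tra 9 38 6987 4719 6987 144 29 = true := by decide +kernel

def t23 : tra 9 38 6987 4719 6987 173 33 = true := by decide +kernel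

def t24 : tra 9 38 6987 4719 6987 206 36 = true := by decide +kernel

def t25 : tra 9 38 6987 4719 6987 242 39 = true := by decide +kernel

def t26 : tra 9 38 6987 4719 6987 281 44 = true := by decide +kernel

def t27 : tra 9 38 6987 4719 6987 325 56 = true := by decide +kernel

def t28 : tra 9 38 6987 4719 6987 381 78 = true := by decide +kernel

def t29 : tra 9 38 6987 4719 6987 459 112 = true := by decide +kernel

def t30 : tra 9 38 6987 4719 6987 571 181 = true := by decide +kernel

def t31 : tra 9 38 6987 4719 6987 752 315 = true := by decide +kernel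

def t32 : tra 9 38 6987 4719 6987 1067 654 = true := by decide +kernel

def t33 : tra 9 38 6987 4719 6987 1721 1475 = true := by decide +kernel

def t34 : tra 9 38 6987 4719 6987 3196 296 = true := by decide +kernel

theorem tr : TR 9 6987 4719 6987 0 3492 :=
  ((((((((((((((((((((((((((((((((TRn.toTR u0 (by norm_num) (by norm_num) (i1 := 1) rfl).trans
    (TRn.toTR u1 (by norm_num) (by norm_num) (i1 := 2) rfl)).trans
    (TR_of t5 (by norm_num) (by norm_num) (i1 := 3) rfl)).trans
    (TR_of t6 (by norm_num) (by norm_num) (i1 := 4) rfl)).trans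
    (TR_of t7 (by norm_num) (by norm_num) (i1 := 5) rfl)).trans
    (TR_of t8 (by norm_num) (by norm_num) (i1 := 6) rfl)).trans
    (TR_of t9 (by norm_num) (by norm_num) (i1 := 8) rfl)).trans
    (TR_of t10 (by norm_num) (by norm_num) (i1 := 10) rfl)).trans
    (TR_of t11 (by norm_num) (by norm_num) (i1 := 13) rfl)).trans
    (TR_of t12 (by norm_num) (by norm_num) (i1 := 17) rfl)).trans
    (TR_of t13 (by norm_num) (by norm_num) (i1 := 22) rfl)).trans
    (TR_of t14 (by norm_num) (by norm_num) (i1 := 29) rfl)).trans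
    (TR_of t15 (by norm_num) (by norm_num) (i1 := 37) rfl)).trans
    (TR_of t16 (by norm_num) (by norm_num) (i1 := 48) rfl)).trans
    (TR_of t17 (by norm_num) (by norm_num) (i1 := 61) rfl)).trans
    (TR_of t18 (by norm_num) (by norm_num) (i1 := 77) rfl)).trans
    (TR_of t19 (by norm_num) (by norm_num) (i1 := 96) rfl)).trans
    (TR_of t20 (by norm_num) (by norm_num) (i1 := 118) rfl)).trans
    (TR_of t21 (by norm_num) (by norm_num) (i1 := 144) rfl)).trans
    (TR_of t22 (by norm_num) (by norm_num) (i1 := 173) rfl)).trans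
    (TR_of t23 (by norm_num) (by norm_num) (i1 := 206) rfl)).trans
    (TR_of t24 (by norm_num) (by norm_num) (i1 := 242) rfl)).trans
    (TR_of t25 (by norm_num) (by norm_num) (i1 := 281) rfl)).trans
    (TR_of t26 (by norm_num) (by norm_num) (i1 := 325) rfl)).trans
    (TR_of t27 (by norm_num) (by norm_num) (i1 := 381) rfl)).trans
    (TR_of t28 (by norm_num) (by norm_num) (i1 := 459) rfl)).trans
    (TR_of t29 (by norm_num) (by norm_num) (i1 := 571) rfl)).trans
    (TR_of t30 (by norm_num) (by norm_num) (i1 := 752) rfl)).trans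
    (TR_of t31 (by norm_num) (by norm_num) (i1 := 1067) rfl)).trans
    (TR_of t32 (by norm_num) (by norm_num) (i1 := 1721) rfl)).trans
    (TR_of t33 (by norm_num) (by norm_num) (i1 := 3196) rfl)).trans
    (TR_of t34 (by norm_num) (by norm_num) (i1 := 3492) rfl))

end Pool.Agent.SignedQ.KD.Tr9_0
end

section

/-!
# The tail lemma, part D: `LOC → GROW → TAIL`, with the base `k = 560` as a hypothesis
-/

set_option autoImplicit false

namespace Pool.Agent.Lib.MP_cf17a0_co.S1

open Polynomial Finset Pool.Agent.SignedQ Pool.Agent.SignedQ.An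

/-- the base of the tail induction (a finite check) -/
def BASE : Prop := ∀ n a : ℕ, Odd a → 3 ≤ a →
  Grw (sq (fser n 560 a)) (13 / 100) (thk 560) 1957 560

theorem sq_f {n k a : ℕ} {f : ℚ[X]} (hf : f * poch (-X : ℚ[X]) k = num n k a) (m : ℕ) :
    sq (fser n k a) m = (f.coeff m : ℝ) := by
  rw [sq_natCast, fser, ← f_series hf, Polynomial.coeff_coe]

theorem exists_f (n k : ℕ) {a : ℕ} (ha : 1 ≤ a) :
    ∃ f : ℚ[X], f * poch (-X : ℚ[X]) k = num n k a := by
  obtain ⟨f, hf'⟩ := den_dvd n k a ha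
  exact ⟨f, by rw [hf', mul_comm]⟩

/-- the degree of `f` is at least `k (k + 1)` -/
theorem degree_ge {n k a : ℕ} (ha3 : 3 ≤ a) {f : ℚ[X]}
    (hf : f * poch (-X : ℚ[X]) k = num n k a) : k * (k + 1) ≤ f.natDegree := by
  have h1 := natDegree_f (by omega) hf
  have h2 : ∑ v ∈ range k, 3 * (v + 1) ≤ ∑ v ∈ range k, a * (n + v + 1) :=
    sum_le_sum fun v _ => Nat.mul_le_mul ha3 (by omega)
  rw [← mul_sum] at h2
  have h3 : (∑ v ∈ range k, (v + 1)) * 2 = k * (k + 1) := by
    have := Finset.sum_range_succ' (fun v => v) k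
    simp only [add_zero] at this
    rw [← this, Finset.sum_range_id_mul_two]
    simp [mul_comm]
  omega

/-- what the circle method gives at a new index -/
theorem grow_at (hL : LOC) (hG : GROW) {n k a m : ℕ} {f : ℚ[X]} (hk : 560 < k)
    (he : Even (n * k)) (ha : Odd a) (ha3 : 3 ≤ a)
    (hf : f * poch (-X : ℚ[X]) k = num n k a) (hp : PosAll k a)
    (hm1 : (((k - 2 : ℕ) : ℝ) / (2 * Real.log (k - 2 : ℕ))) ^ 2 ≤ m)
    (hm2 : (m : ℝ) ≤ (k / (2 * Real.log k)) ^ 2) :
    0 < f.coeff m ∧ ∀ s : ℕ, s ≤ m →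
      (f.coeff (m - s) : ℝ) ≤ (13 / 100 : ℝ)⁻¹ * thk k ^ s * (f.coeff m : ℝ) := by
  have hkR : (560 : ℝ) < k := by exact_mod_cast hk
  have hlog := log_ge_four (k := k) (by omega)
  have hlog2 := log_ge_four (k := k - 2) (by omega)
  have hk2 : (0 : ℝ) < ((k - 2 : ℕ) : ℝ) := by
    have : 0 < k - 2 := by omega
    exact_mod_cast this
  have hm0 : (0 : ℝ) < m := by
    refine lt_of_lt_of_le ?_ hm1
    positivity
  have hdeg : (k : ℝ) * (k + 1) ≤ (f.natDegree : ℝ) := by exact_mod_cast degree_ge ha3 hf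
  have hm3 : (m : ℝ) < (f.natDegree : ℝ) / 2 := by
    have h1 : (k : ℝ) / (2 * Real.log k) ≤ k / 8 := by
      refine div_le_div_of_nonneg_left (by linarith) (by norm_num) (by linarith)
    have h2 : ((k : ℝ) / (2 * Real.log k)) ^ 2 ≤ (k / 8) ^ 2 :=
      pow_le_pow_left₀ (by positivity) h1 2
    nlinarith
  obtain ⟨t, ht, hts⟩ := exists_saddle he ha hf (s := (f.natDegree : ℝ) / 2 - m) (by linarith)
    (by linarith)
  have hmu : mu n k a f t = m := by
    unfold mu
    rw [hts]
    ring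
  obtain ⟨-, -, l3, l4⟩ := hL n k a t f he ha ha3 (by omega) ht hf
  have htk : Real.log k / k ≤ t := l3 hk (by rw [hmu]; exact hm2)
  have hD : DOM k t := l4 hk (by rw [hmu]; exact hm1)
  have hPar : Par n k a := by
    refine ⟨he, ha, ha3, ?_⟩
    unfold An.Small
    omega
  obtain ⟨g1, g2⟩ := hG n k a t m f hPar hD (by omega) hf hp hmu
  refine ⟨g1, fun s hs => ?_⟩
  have h1 := g2 (m - s)
  have hfm : (0 : ℝ) < (f.coeff m : ℝ) := by exact_mod_cast g1
  have h2 : Real.exp (-(t * m)) = Real.exp (-(t * ((m - s : ℕ) : ℝ))) * Real.exp (-(t * s)) := by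
    rw [← Real.exp_add]
    congr 1
    rw [Nat.cast_sub hs]
    ring
  have h3 : Real.exp (-(t * s)) ≤ thk k ^ s := by
    unfold thk
    rw [← Real.exp_nat_mul, Real.exp_le_exp]
    have : (0 : ℝ) ≤ s := Nat.cast_nonneg s
    nlinarith
  have h4 := Real.exp_pos (-(t * ((m - s : ℕ) : ℝ)))
  have h5 : 0.13 * (f.coeff (m - s) : ℝ) ≤ (f.coeff m : ℝ) * Real.exp (-(t * s)) := by
    refine le_of_mul_le_mul_right ?_ h4
    rw [h2] at h1
    calc 0.13 * (f.coeff (m - s) : ℝ) * Real.exp (-(t * ((m - s : ℕ) : ℝ)))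
        = 0.13 * ((f.coeff (m - s) : ℝ) * Real.exp (-(t * ((m - s : ℕ) : ℝ)))) := by ring
      _ ≤ _ := h1
      _ = _ := by ring
  have h6 : (f.coeff m : ℝ) * Real.exp (-(t * s)) ≤ (f.coeff m : ℝ) * thk k ^ s :=
    mul_le_mul_of_nonneg_left h3 hfm.le
  have h7 : (0.13 : ℝ) * (f.coeff (m - s) : ℝ) ≤ (f.coeff m : ℝ) * thk k ^ s := h5.trans h6
  have h8 : (f.coeff (m - s) : ℝ) ≤ ((f.coeff m : ℝ) * thk k ^ s) / 0.13 := by
    rw [le_div_iff₀ (by norm_num)]
    linarith
  refine h8.trans (le_of_eq ?_)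
  norm_num
  ring

/-- the upper end of the range at level `k` -/
noncomputable def Mk (k : ℕ) : ℤ := ⌊((k : ℝ) / (2 * Real.log k)) ^ 2⌋

theorem log_560 : (6.32787 : ℝ) ≤ Real.log 560 := by
  have h1 : (560 : ℝ) = 2 ^ 9 * (1 + 3 / 32) := by norm_num
  rw [h1, Real.log_mul (by norm_num) (by norm_num), Real.log_pow]
  have h2 : (0.6931471803 : ℝ) < Real.log 2 := Real.log_two_gt_d9
  have h3 : 2 * (3 / 32 : ℝ) / (3 / 32 + 2) ≤ Real.log (1 + 3 / 32) :=
    Real.le_log_one_add_of_nonneg (by norm_num)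
  push_cast
  norm_num at h3 ⊢
  linarith

theorem Mk_560 : Mk 560 ≤ 1957 := by
  unfold Mk
  have h1 := log_560
  have h2 : ((560 : ℕ) : ℝ) = 560 := by norm_num
  rw [h2]
  have h3 : (560 : ℝ) / (2 * Real.log 560) ≤ 560 / (2 * 6.32787) :=
    div_le_div_of_nonneg_left (by norm_num) (by norm_num) (by linarith)
  have h4 : ((560 : ℝ) / (2 * Real.log 560)) ^ 2 ≤ (560 / (2 * 6.32787)) ^ 2 :=
    pow_le_pow_left₀ (by positivity) h3 2
  have h5 : ((560 : ℝ) / (2 * 6.32787)) ^ 2 < 1958 := by norm_num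
  have h6 : ⌊((560 : ℝ) / (2 * Real.log 560)) ^ 2⌋ < (1958 : ℤ) := by
    rw [Int.floor_lt]
    push_cast
    linarith
  omega

theorem grw_all (hB : BASE) (hL : LOC) (hG : GROW) {K : ℕ}
    (hpos : ∀ k' < K, 4 ≤ k' → ∀ n a : ℕ, Even (n * k') → Odd a → 3 ≤ a → Pos n k' a)
    (n : ℕ) {a : ℕ} (ha : Odd a) (ha3 : 3 ≤ a) :
    ∀ k, 560 ≤ k → k ≤ K → Even k →
      Grw (sq (fser n k a)) (13 / 100) (thk k) (Mk k) k := by
  refine tail_induction (by norm_num) (by decide) ha ha3 Mk ?_ ?_
  · intro m hm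
    exact hB n a ha ha3 m (hm.trans Mk_560)
  · intro k hk hkK hke m hm1 hm2
    obtain ⟨f, hf⟩ := exists_f n (k + 2) (a := a) (by omega)
    have hk560 : (560 : ℝ) ≤ k := by exact_mod_cast hk
    have hlog := log_ge_four (k := k) (by omega)
    have hm0 : 0 ≤ m := by
      have : 0 ≤ Mk k := Int.floor_nonneg.2 (by positivity)
      omega
    obtain ⟨m', rfl⟩ := Int.eq_ofNat_of_zero_le hm0
    have h1 : ((k : ℝ) / (2 * Real.log k)) ^ 2 ≤ m' := by
      have := Int.floor_lt.1 hm1
      push_cast at this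
      exact this.le
    have h2 : (m' : ℝ) ≤ (((k + 2 : ℕ) : ℝ) / (2 * Real.log (k + 2 : ℕ))) ^ 2 := by
      have := Int.le_floor.1 hm2
      exact_mod_cast this
    have hpa : PosAll (k + 2) a := fun k' hk' h24 n' he' =>
      hpos k' (by omega) (by omega) n' a he' ha ha3
    have hev2 : Even (n * (k + 2)) := (hke.add (by decide)).mul_left n
    obtain ⟨g1, g2⟩ := grow_at hL hG (k := k + 2) (by omega) hev2 ha ha3 hf
      hpa (by simpa using h1) h2
    have g1' : (0 : ℝ) < (f.coeff m' : ℝ) := by exact_mod_cast g1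
    rw [sq_f hf]
    refine ⟨g1'.le, fun s hs => ?_⟩
    by_cases hsm : s ≤ m'
    · rw [show ((m' : ℤ) - (s : ℤ)) = ((m' - s : ℕ) : ℤ) by omega, sq_f hf]
      exact g2 s hsm
    · rw [sq_neg (by omega)]
      have := thk_pos (k + 2)
      positivity

/-- **`LOC → GROW → TAIL`**, given the base. -/
theorem tail_of_base (hB : BASE) : TAIL := by
  intro hL hG k hk hpos n a f he ha ha3 hf m hm
  have hlog := log_ge_four (k := k) (by omega)
  have hkR : (560 : ℝ) < k := by exact_mod_cast hk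
  have hmf : (m : ℤ) ≤ Mk k := by
    unfold Mk
    rw [Int.le_floor]
    exact_mod_cast hm
  have key : (0 : ℝ) ≤ sq (fser n k a) (m : ℤ) → 0 ≤ f.coeff m := by
    intro h
    rw [sq_f hf] at h
    exact_mod_cast h
  rcases Nat.even_or_odd k with hke | hko
  · exact key (grw_all hB hL hG (K := k) hpos n ha ha3 k hk.le le_rfl hke m hmf).1
  · have hne : Even n := by
      rcases Nat.even_mul.1 he with h | h
      · exact h
      · exact absurd h (Nat.not_even_iff_odd.2 hko)
    obtain ⟨j, rfl⟩ : ∃ j, k = j + 1 := ⟨k - 1, by omega⟩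
    have hje : Even j := by
      rcases Nat.even_or_odd j with h | h
      · exact h
      · exact absurd h.add_one (Nat.not_even_iff_odd.2 hko)
    have hG' := grw_all hB hL hG (K := j + 1) hpos n ha ha3 j (by omega) (by omega) hje
    rcases le_or_gt (m : ℤ) (Mk j) with h | h
    · exact key (odd_thk (by omega) hje hne ha hG' m h)
    · have h1 : ((j : ℝ) / (2 * Real.log j)) ^ 2 ≤ m := by
        have := Int.floor_lt.1 h
        exact_mod_cast this.le
      have hj : (560 : ℝ) ≤ j := by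
        have : 560 ≤ j := by omega
        exact_mod_cast this
      have hlj := log_ge_four (k := j) (by omega)
      have hlj1 := log_ge_four (k := j - 1) (by omega)
      have hj1 : (559 : ℝ) ≤ ((j - 1 : ℕ) : ℝ) := by
        have : 559 ≤ j - 1 := by omega
        exact_mod_cast this
      have hmono : Real.log j / j ≤ Real.log ((j - 1 : ℕ) : ℝ) / ((j - 1 : ℕ) : ℝ) := by
        have hexp : Real.exp 1 ≤ 3 := by
          have := Real.exp_one_lt_d9
          linarith
        refine Real.log_div_self_antitoneOn (a := ((j - 1 : ℕ) : ℝ)) (b := (j : ℝ)) ?_ ?_ ?_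
        · show Real.exp 1 ≤ ((j - 1 : ℕ) : ℝ)
          linarith
        · show Real.exp 1 ≤ (j : ℝ)
          linarith
        · exact_mod_cast Nat.sub_le j 1
      have h2 : ((j - 1 : ℕ) : ℝ) / (2 * Real.log ((j - 1 : ℕ) : ℝ)) ≤ j / (2 * Real.log j) := by
        rw [div_le_div_iff₀ (by linarith) (by linarith)] at hmono ⊢
        linarith
      have h3 : (((j - 1 : ℕ) : ℝ) / (2 * Real.log ((j - 1 : ℕ) : ℝ))) ^ 2 ≤ m :=
        (pow_le_pow_left₀ (by positivity) h2 2).trans h1
      have h4 : j + 1 - 2 = j - 1 := by omega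
      have hp : PosAll (j + 1) a := fun k' hk' h24 n' he' =>
        hpos k' hk' (by omega) n' a he' ha ha3
      obtain ⟨g1, -⟩ := grow_at hL hG (k := j + 1) hk he ha ha3 hf hp (by rw [h4]; exact h3) hm
      exact g1.le

end Pool.Agent.Lib.MP_cf17a0_co.S1
end

section

/-! # The tail lemma, part G: the base `k = 560`, and `TAIL` -/

set_option autoImplicit false

namespace Pool.Agent.SignedQ.KB

open PowerSeries Finset
open Pool.Agent.SignedQ.KC (gi gi_mul fs)
open Pool.Agent.SignedQ.KD (Nu Fs)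

theorem good_all {n a : ℕ} (ha : Odd a) (ha3 : 3 ≤ a) : Good 1958 112 (Hs n a) := by
  have hC : 2 * (((1958 : ℕ) : ℤ) * (2 * 2 ^ 112)) < 2 ^ 128 := by norm_num
  have hC' : 2 * (175 * (2 : ℤ) ^ 112) < 2 ^ 128 := by norm_num
  have key : ∀ {a0 cnt : ℕ}, 1 ≤ a0 → run 128 1958 112 a0 cnt = true →
      ∀ c < cnt, ∀ n, Good 1958 112 (Hs n (a0 + 2 * c)) := fun h1 h2 =>
    run_spec (by norm_num) (by norm_num) (by norm_num) (by norm_num) hC hC' (by norm_num) h1 h2
  have use : ∀ {a0 cnt : ℕ}, 1 ≤ a0 → Odd a0 → run 128 1958 112 a0 cnt = true → a0 ≤ a →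
      a < a0 + 2 * cnt → Good 1958 112 (Hs n a) := by
    intro a0 cnt h1 h2 h3 h4 h5
    obtain ⟨u, hu⟩ := ha
    obtain ⟨v, hv⟩ := h2
    have := key h1 h3 (u - v) (by omega) n
    rwa [show a0 + 2 * (u - v) = a by omega] at this
  rcases Nat.lt_or_ge a 9 with h | h
  · exact use (by norm_num) (by decide) run_1 ha3 (by omega)
  rcases Nat.lt_or_ge a 31 with h' | h'
  · exact use (by norm_num) (by decide) run_2 h (by omega)
  rcases Nat.lt_or_ge a 111 with h | h
  · exact use (by norm_num) (by decide) run_3 h' (by omega)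
  rcases Nat.lt_or_ge a 431 with h' | h'
  · exact use (by norm_num) (by decide) run_4 h (by omega)
  rcases Nat.lt_or_ge a 1959 with h | h
  · exact use (by norm_num) (by decide) run_5 h' (by omega)
  · -- no numerators below `q^1958`
    have h1 := key (a0 := 431) (cnt := 764) (by norm_num) run_5 763 (by norm_num) 1
    intro i hi
    have h2 := h1 i hi
    unfold Hs at h2 ⊢
    rw [coeff_Nu_big _ (by norm_num) 560 hi] at h2
    rw [coeff_Nu_big _ ((show 1958 ≤ a * 1 by omega).trans (Nat.mul_le_mul_left a (by omega)))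
      560 hi]
    exact h2

theorem Fs_eq_Fp_small : ∀ k ≤ 80, Fs k = Fp k := by
  intro k
  induction k with
  | zero => intro _; rfl
  | succ k ih =>
    intro hk
    rw [KD.Fs_succ, ih (by omega)]
    show _ = (if k % 2 = 0 ∧ k ≤ 79 then Fp k * (1 + X) else Fp k) * gi (k + 1)
    congr 1
    by_cases h : k % 2 = 0
    · rw [if_pos h, if_pos ⟨h, by omega⟩]
    · rw [if_neg h, if_neg (fun h1 => h h1.1)]

theorem Fs_eq_Fp (k : ℕ) : Fs (80 + k) = Fp (80 + k) * (1 + X) ^ ((k + 1) / 2) := by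
  induction k with
  | zero => simpa using Fs_eq_Fp_small 80 le_rfl
  | succ k ih =>
    rw [show 80 + (k + 1) = (80 + k) + 1 by ring, KD.Fs_succ, ih]
    show _ = (if (80 + k) % 2 = 0 ∧ 80 + k ≤ 79 then Fp (80 + k) * (1 + X) else Fp (80 + k)) *
      gi (80 + k + 1) * _
    rw [if_neg (fun h : (80 + k) % 2 = 0 ∧ 80 + k ≤ 79 => by omega)]
    by_cases h : (80 + k) % 2 = 0
    · rw [if_pos h, show (k + 1 + 1) / 2 = (k + 1) / 2 + 1 by omega, pow_succ]
      ring
    · rw [if_neg h, show (k + 1 + 1) / 2 = (k + 1) / 2 by omega]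
      ring

theorem fs_mul (n a : ℕ) : fs n a 560 * (87 - 88 * X) = Hs n a * (1 + X) ^ 240 := by
  rw [KD.fs_eq, show (560 : ℕ) = 80 + 480 by norm_num, Fs_eq_Fp]
  unfold Hs
  norm_num
  ring

theorem nonneg_mul {M : ℕ} (e : ℕ) : ∀ P : ℤ⟦X⟧, (∀ i < M, 0 ≤ coeff i P) →
    ∀ i < M, 0 ≤ coeff i (P * (1 + X) ^ e) := by
  induction e with
  | zero => intro P h i hi; simpa using h i hi
  | succ e ih =>
    intro P h i hi
    rw [pow_succ', ← mul_assoc]
    refine ih _ (fun j hj => ?_) i hi
    rw [mul_add, mul_one, map_add, show P * X = P * X ^ 1 by rw [pow_one], coeff_mul_X_pow']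
    split_ifs with h1
    · exact add_nonneg (h j hj) (h _ (by omega))
    · rw [add_zero]; exact h j hj

theorem coeff_lin (P : ℤ⟦X⟧) (m : ℕ) :
    coeff (m + 1) (P * (87 - 88 * X)) = 87 * coeff (m + 1) P - 88 * coeff m P := by
  have e : P * (87 - 88 * X) = C (87 : ℤ) * P - C (88 : ℤ) * (P * X) := by
    have e1 : (C (87 : ℤ) : ℤ⟦X⟧) = 87 := by simp
    have e2 : (C (88 : ℤ) : ℤ⟦X⟧) = 88 := by simp
    rw [e1, e2]
    ring
  rw [e, map_sub, coeff_C_mul, coeff_C_mul, coeff_succ_mul_X]

theorem one_step {n a : ℕ} (ha : Odd a) (ha3 : 3 ≤ a) (m : ℕ) (hm : m + 1 < 1958) :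
    88 * coeff m (fs n a 560) ≤ 87 * coeff (m + 1) (fs n a 560) := by
  have h1 := nonneg_mul 240 (Hs n a) (fun i hi => (good_all ha ha3 i hi).1) (m + 1) hm
  rw [← fs_mul, coeff_lin] at h1
  linarith

theorem coeff_zero_fs (n a : ℕ) (ha3 : 3 ≤ a) : 0 ≤ coeff 0 (fs n a 560) :=
  KC.coeff_low (by omega) (Nat.mul_pos (by omega) (by omega))

theorem fs_nonneg {n a : ℕ} (ha : Odd a) (ha3 : 3 ≤ a) : ∀ m < 1958, 0 ≤ coeff m (fs n a 560) := by
  intro m
  induction m with
  | zero => intro _; exact coeff_zero_fs n a ha3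
  | succ m ih =>
    intro hm
    have h1 := ih (by omega)
    have h2 := one_step (n := n) ha ha3 m hm
    linarith

end Pool.Agent.SignedQ.KB

namespace Pool.Agent.Lib.MP_cf17a0_co.S1

open PowerSeries Finset Pool.Agent.SignedQ Pool.Agent.SignedQ.An

theorem coeff_fser (n k a m : ℕ) :
    sq (fser n k a) m = ((coeff m (KC.fs n a k) : ℤ) : ℝ) := by
  rw [sq_natCast]
  have h : coeff m (fser n k a) = ((coeff m (KC.fs n a k) : ℤ) : ℚ) := by
    unfold fser
    rw [← KC.map_fs, coeff_map]
    rfl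
  rw [h]
  norm_cast

theorem thk_560 : (87 / 88 : ℝ) ≤ thk 560 := by
  unfold thk
  have h1 : Real.log ((560 : ℕ) : ℝ) ≤ 6.34 := by
    have e : ((560 : ℕ) : ℝ) = 2 ^ 9 * (1 + 3 / 32) := by norm_num
    rw [e, Real.log_mul (by norm_num) (by norm_num), Real.log_pow]
    have h2 : Real.log 2 < 0.6931471808 := Real.log_two_lt_d9
    have h3 := Real.log_le_sub_one_of_pos (show (0 : ℝ) < 1 + 3 / 32 by norm_num)
    push_cast
    linarith
  have h4 : (87 / 88 : ℝ) = Real.exp (Real.log (87 / 88)) := (Real.exp_log (by norm_num)).symm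
  rw [h4, Real.exp_le_exp]
  have h5 := Real.log_le_sub_one_of_pos (show (0 : ℝ) < 87 / 88 by norm_num)
  have h6 : Real.log ((560 : ℕ) : ℝ) / ((560 : ℕ) : ℝ) ≤ 6.34 / 560 := by
    push_cast at h1 ⊢
    exact div_le_div_of_nonneg_right h1 (by norm_num)
  have h7 : (6.34 : ℝ) / 560 ≤ 1 - 87 / 88 := by norm_num
  linarith

/-- **The base.** -/
theorem base : BASE := by
  intro n a ha ha3 m hm
  have hthk := thk_pos 560
  rcases lt_or_ge m 0 with h0 | h0
  · rw [sq_neg h0]
    refine ⟨le_rfl, fun s _ => ?_⟩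
    rw [sq_neg (by omega), mul_zero]
  obtain ⟨m, rfl⟩ := Int.eq_ofNat_of_zero_le h0
  have hm' : m < 1958 := by omega
  have hnn : (0 : ℝ) ≤ ((coeff m (KC.fs n a 560) : ℤ) : ℝ) := by
    exact_mod_cast KB.fs_nonneg ha ha3 m hm'
  rw [coeff_fser]
  refine ⟨hnn, fun s _ => ?_⟩
  by_cases hs : s ≤ m
  · rw [show ((m : ℤ) - (s : ℤ)) = ((m - s : ℕ) : ℤ) by omega, coeff_fser]
    have key : ∀ s ≤ m, ((coeff (m - s) (KC.fs n a 560) : ℤ) : ℝ) ≤
        (87 / 88) ^ s * ((coeff m (KC.fs n a 560) : ℤ) : ℝ) := by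
      intro s
      induction s with
      | zero => intro _; simp
      | succ s ih =>
        intro h1
        have h2 := ih (by omega)
        have h3 := KB.one_step (n := n) ha ha3 (m - (s + 1)) (by omega)
        rw [show m - (s + 1) + 1 = m - s by omega] at h3
        have h4 : (88 : ℝ) * ((coeff (m - (s + 1)) (KC.fs n a 560) : ℤ) : ℝ) ≤
            87 * ((coeff (m - s) (KC.fs n a 560) : ℤ) : ℝ) := by exact_mod_cast h3
        rw [pow_succ]
        linarith
    refine (key s hs).trans (mul_le_mul_of_nonneg_right ?_ hnn)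
    have h5 : (87 / 88 : ℝ) ^ s ≤ thk 560 ^ s := pow_le_pow_left₀ (by norm_num) thk_560 s
    have h6 : 0 < thk 560 ^ s := by positivity
    have h7 : (1 : ℝ) ≤ (13 / 100 : ℝ)⁻¹ := by norm_num
    nlinarith
  · rw [sq_neg (by omega)]
    positivity

/-- **The tail lemma.** -/
theorem tail : TAIL := tail_of_base base

end Pool.Agent.Lib.MP_cf17a0_co.S1
end
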