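import Pool.Agent.Lib.MP_cf17a0_co.S1.Dom
import Pool.Agent.Lib.MP_cf17a0_co.Mg.G003
import Pool.Agent.Lib.MP_cf17a0_co.S1.Z3b

section

/-! # The modulus ratio near `π/3` (helper78) -/

namespace Pool.Agent.SignedQ.An

open Polynomial Finset

namespace Z3c

/-- `tanh (y t/2)`. -/
noncomputable def tau (t : ℝ) (y : ℕ) : ℝ := Real.tanh (y * (t / 2))

/-- `|1 - ζ^j|²/4` on the circle. -/
noncomputable def s2 (j : ℕ) (θ : ℝ) : ℝ :=
  if Even j then Real.sin (j * θ / 2) ^ 2 else Real.cos (j * θ / 2) ^ 2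

noncomputable def ch (t : ℝ) (y : ℕ) : ℝ := Real.cosh (y * (t / 2))
noncomputable def sh (t : ℝ) (y : ℕ) : ℝ := Real.sinh (y * (t / 2))

lemma ch_pos (t : ℝ) (y : ℕ) : 0 < ch t y := Real.cosh_pos _

lemma sh_pos {t : ℝ} (ht : 0 < t) {y : ℕ} (hy : 1 ≤ y) : 0 < sh t y := by
  apply Real.sinh_pos_iff.2
  have : (1 : ℝ) ≤ y := by exact_mod_cast hy
  positivity

lemma tau_mul_ch (t : ℝ) (y : ℕ) : tau t y * ch t y = sh t y := by
  unfold tau ch sh
  rw [Real.tanh_eq_sinh_div_cosh, div_mul_cancel₀ _ (Real.cosh_pos _).ne']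

lemma tau_pos {t : ℝ} (ht : 0 < t) {y : ℕ} (hy : 1 ≤ y) : 0 < tau t y := by
  have h1 := tau_mul_ch t y
  have h2 := ch_pos t y
  have h3 := sh_pos ht hy
  rw [← h1] at h3
  exact pos_of_mul_pos_left h3 h2.le

lemma tau_mono {t : ℝ} (ht : 0 < t) {x y : ℕ} (h : x ≤ y) : tau t x ≤ tau t y := by
  unfold tau
  rw [Real.tanh_eq_sinh_div_cosh, Real.tanh_eq_sinh_div_cosh]
  apply tanh_mono_aux
  have : (x : ℝ) ≤ y := by exact_mod_cast h
  exact mul_le_mul_of_nonneg_right this (by positivity)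

lemma s2_nonneg (j : ℕ) (θ : ℝ) : 0 ≤ s2 j θ := (fac_s_mem j θ).1

lemma s2_le_one (j : ℕ) (θ : ℝ) : s2 j θ ≤ 1 := (fac_s_mem j θ).2

lemma g2_eq (j : ℕ) (t θ : ℝ) : g2 j t θ = sh t j ^ 2 + s2 j θ := by
  unfold g2 sh s2
  rw [mul_div_assoc]

lemma g2_le_ch (j : ℕ) (t θ : ℝ) : g2 j t θ ≤ ch t j ^ 2 := by
  rw [g2_eq]
  have h1 := s2_le_one j θ
  have h2 : ch t j ^ 2 = sh t j ^ 2 + 1 := Real.cosh_sq _
  linarith

lemma s2_mul_ch (j : ℕ) (t θ : ℝ) : s2 j θ * ch t j ^ 2 ≤ g2 j t θ := by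
  rw [g2_eq]
  have h1 := s2_le_one j θ
  have h0 := s2_nonneg j θ
  have h2 : ch t j ^ 2 = sh t j ^ 2 + 1 := Real.cosh_sq _
  have h3 : 0 ≤ sh t j ^ 2 := sq_nonneg _
  rw [h2]
  nlinarith

lemma g2_zero (j : ℕ) (t : ℝ) : g2 j t 0 = ch t j ^ 2 * (if Even j then tau t j ^ 2 else 1) := by
  split_ifs with h
  · rw [g2_zero_even h, ← mul_pow, mul_comm (ch t j), tau_mul_ch]
    unfold sh
    rw [mul_div_assoc]
  · rw [g2_zero_odd (Nat.not_even_iff_odd.1 h), mul_one]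
    unfold ch
    rw [mul_div_assoc]

lemma prod_three (G : ℕ → ℝ) (k : ℕ) : ∏ v ∈ range k, G (v + 1) =
    (∏ i ∈ range (k / 3), G (3 * (i + 1))) * ∏ v ∈ range k, (if 3 ∣ v + 1 then 1 else G (v + 1)) := by
  induction k with
  | zero => simp
  | succ k ih =>
    rw [prod_range_succ, prod_range_succ _ k, ih]
    by_cases h : 3 ∣ k + 1
    · rw [if_pos h, show (k + 1) / 3 = k / 3 + 1 by omega, prod_range_succ,
        show 3 * (k / 3 + 1) = k + 1 by omega]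
      ring
    · rw [if_neg h, show (k + 1) / 3 = k / 3 by omega]
      ring

lemma prod_even (F : ℕ → ℝ) (n k : ℕ) :
    ∏ v ∈ range k, (if Even (n + v + 1) then F (n + v + 1) else 1) =
      ∏ i ∈ range ((n + k) / 2 - n / 2), F (2 * (n / 2 + i + 1)) := by
  induction k with
  | zero => simp
  | succ k ih =>
    rw [prod_range_succ, ih]
    by_cases h : Even (n + k + 1)
    · have h' := h
      rw [Nat.even_iff] at h'
      rw [if_pos h, show (n + (k + 1)) / 2 - n / 2 = (n + k) / 2 - n / 2 + 1 by omega,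
        prod_range_succ, show 2 * (n / 2 + ((n + k) / 2 - n / 2) + 1) = n + k + 1 by omega]
    · have h' := h
      rw [Nat.even_iff] at h'
      rw [if_neg h, mul_one, show (n + (k + 1)) / 2 - n / 2 = (n + k) / 2 - n / 2 by omega]

lemma sub_prod {k I : ℕ} (G C : ℕ → ℝ) (v : ℕ → ℕ) (hG : ∀ j, 0 < G j) (hGC : ∀ j, G j ≤ C j)
    (hv : ∀ i < I, v i < k) (hinj : ∀ i < I, ∀ j < I, v i = v j → i = j) :
    (∏ j ∈ range k, G j) * ∏ i ∈ range I, C (v i) ≤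
      (∏ i ∈ range I, G (v i)) * ∏ j ∈ range k, C j := by
  obtain ⟨S, hS⟩ : ∃ S, S = (range I).image v := ⟨_, rfl⟩
  have hsub : S ⊆ range k := by
    rw [hS]
    intro x hx
    obtain ⟨i, hi, rfl⟩ := mem_image.1 hx
    exact mem_range.2 (hv i (mem_range.1 hi))
  have hi : ∀ f : ℕ → ℝ, ∏ i ∈ range I, f (v i) = ∏ x ∈ S, f x := by
    intro f
    rw [hS, prod_image]
    intro x hx y hy hxy
    exact hinj x (mem_range.1 hx) y (mem_range.1 hy) hxy
  rw [hi, hi, ← prod_sdiff hsub, ← prod_sdiff hsub]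
  have h1 : ∏ x ∈ range k \ S, G x ≤ ∏ x ∈ range k \ S, C x :=
    prod_le_prod (fun i _ => (hG i).le) fun i _ => hGC i
  have h2 : 0 ≤ (∏ x ∈ S, G x) * ∏ x ∈ S, C x :=
    mul_nonneg (prod_nonneg fun i _ => (hG i).le)
      (prod_nonneg fun i _ => (hG i).le.trans (hGC i))
  have h3 := mul_le_mul_of_nonneg_right h1 h2
  linarith

/-- The product of the `s2 j` over `3 ∤ j`. -/
noncomputable def DD (k : ℕ) (θ : ℝ) : ℝ :=
  ∏ v ∈ range k, (if 3 ∣ v + 1 then 1 else s2 (v + 1) θ)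

/-- The core of the bound. -/
theorem core_le {n k a : ℕ} (ha : 1 ≤ a) {t : ℝ} (ht : 0 < t) (θ : ℝ) (v : ℕ → ℕ) (c N : ℕ)
    (hc : 1 ≤ c) (hv : ∀ i < k / 3, v i < k)
    (hinj : ∀ i < k / 3, ∀ j < k / 3, v i = v j → i = j)
    (hm : ∀ i < k / 3, 3 * (c * (N + i + 1)) = a * (n + v i + 1)) :
    (∏ v ∈ range k, g2 (a * (n + v + 1)) t θ) * (∏ v ∈ range k, ch t (v + 1) ^ 2) * DD k θ *
      (∏ i ∈ range (k / 3), tau t (3 * (i + 1))) ^ 2 ≤
    (∏ v ∈ range k, ch t (a * (n + v + 1)) ^ 2) * (∏ v ∈ range k, g2 (v + 1) t θ) *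
      (∏ i ∈ range (k / 3), tau t (a * (n + v i + 1))) ^ 2 := by
  have hb : ∀ j, 1 ≤ a * (n + j + 1) := fun j => Nat.mul_pos ha (by omega)
  have s1 := sub_prod (I := k / 3) (fun j => g2 (a * (n + j + 1)) t θ)
    (fun j => ch t (a * (n + j + 1)) ^ 2) v (fun j => g2_pos (hb j) ht θ)
    (fun j => g2_le_ch _ t θ) hv hinj
  have s2' := Z3a.matched_g2 ht θ c N (k / 3) hc
  have e1 : ∏ i ∈ range (k / 3), g2 (3 * (c * (N + i + 1))) t θ =
      ∏ i ∈ range (k / 3), g2 (a * (n + v i + 1)) t θ :=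
    prod_congr rfl fun i hi => by rw [hm i (mem_range.1 hi)]
  have e2 : ∏ i ∈ range (k / 3), Real.sinh ((3 * (c * (N + i + 1)) : ℕ) * (t / 2)) ^ 2 =
      (∏ i ∈ range (k / 3), tau t (a * (n + v i + 1))) ^ 2 *
        ∏ i ∈ range (k / 3), ch t (a * (n + v i + 1)) ^ 2 := by
    rw [← prod_pow, ← prod_mul_distrib]
    refine prod_congr rfl fun i hi => ?_
    rw [hm i (mem_range.1 hi), ← mul_pow, tau_mul_ch]
    rfl
  have e3 : ∏ i ∈ range (k / 3), Real.sinh ((3 * (i + 1) : ℕ) * (t / 2)) ^ 2 =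
      (∏ i ∈ range (k / 3), tau t (3 * (i + 1))) ^ 2 *
        ∏ i ∈ range (k / 3), ch t (3 * (i + 1)) ^ 2 := by
    rw [← prod_pow, ← prod_mul_distrib]
    refine prod_congr rfl fun i hi => ?_
    rw [← mul_pow, tau_mul_ch]
    rfl
  rw [e1, e2, e3] at s2'
  have e4 := prod_three (fun j => g2 j t θ) k
  have e5 := prod_three (fun j => ch t j ^ 2) k
  have s3 : DD k θ * (∏ v ∈ range k, (if 3 ∣ v + 1 then 1 else ch t (v + 1) ^ 2)) ≤
      ∏ v ∈ range k, (if 3 ∣ v + 1 then 1 else g2 (v + 1) t θ) := by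
    unfold DD
    rw [← prod_mul_distrib]
    apply prod_le_prod
    · intro j _
      split_ifs
      · norm_num
      · exact mul_nonneg (s2_nonneg _ _) (sq_nonneg _)
    · intro j _
      split_ifs
      · norm_num
      · exact s2_mul_ch _ _ _
  rw [e4, e5]
  -- abbreviations
  have hCM : 0 < ∏ i ∈ range (k / 3), ch t (a * (n + v i + 1)) ^ 2 :=
    prod_pos fun i _ => pow_pos (ch_pos _ _) 2
  have hGM : 0 < ∏ i ∈ range (k / 3), g2 (a * (n + v i + 1)) t θ :=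
    prod_pos fun i _ => g2_pos (hb _) ht θ
  have hPB : 0 < ∏ v ∈ range k, g2 (a * (n + v + 1)) t θ :=
    prod_pos fun i _ => g2_pos (hb _) ht θ
  have hCB : 0 < ∏ v ∈ range k, ch t (a * (n + v + 1)) ^ 2 :=
    prod_pos fun i _ => pow_pos (ch_pos _ _) 2
  have hG3 : 0 < ∏ i ∈ range (k / 3), g2 (3 * (i + 1)) t θ :=
    prod_pos fun i _ => g2_pos (by omega) ht θ
  have hC3 : 0 < ∏ i ∈ range (k / 3), ch t (3 * (i + 1)) ^ 2 :=
    prod_pos fun i _ => pow_pos (ch_pos _ _) 2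
  have hV : 0 < ∏ i ∈ range (k / 3), tau t (3 * (i + 1)) :=
    prod_pos fun i _ => tau_pos ht (by omega)
  have hX : 0 < ∏ i ∈ range (k / 3), tau t (a * (n + v i + 1)) :=
    prod_pos fun i _ => tau_pos ht (hb _)
  have hD : 0 ≤ DD k θ := by
    unfold DD
    apply prod_nonneg
    intro j _
    split_ifs
    · norm_num
    · exact s2_nonneg _ _
  have hC' : 0 < ∏ v ∈ range k, (if 3 ∣ v + 1 then 1 else ch t (v + 1) ^ 2) := by
    apply prod_pos
    intro j _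
    split_ifs
    · norm_num
    · exact pow_pos (ch_pos _ _) 2
  have hR : 0 < ∏ v ∈ range k, (if 3 ∣ v + 1 then 1 else g2 (v + 1) t θ) := by
    apply prod_pos
    intro j _
    split_ifs
    · norm_num
    · exact g2_pos (by omega) ht θ
  generalize (∏ i ∈ range (k / 3), ch t (a * (n + v i + 1)) ^ 2) = CM at *
  generalize (∏ i ∈ range (k / 3), g2 (a * (n + v i + 1)) t θ) = GM at *
  generalize (∏ v ∈ range k, g2 (a * (n + v + 1)) t θ) = PB at *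
  generalize (∏ v ∈ range k, ch t (a * (n + v + 1)) ^ 2) = CB at *
  generalize (∏ i ∈ range (k / 3), g2 (3 * (i + 1)) t θ) = G3 at *
  generalize (∏ i ∈ range (k / 3), ch t (3 * (i + 1)) ^ 2) = C3 at *
  generalize (∏ i ∈ range (k / 3), tau t (3 * (i + 1))) = V at *
  generalize (∏ i ∈ range (k / 3), tau t (a * (n + v i + 1))) = X at *
  generalize DD k θ = D at *
  generalize (∏ v ∈ range k, (if 3 ∣ v + 1 then 1 else ch t (v + 1) ^ 2)) = C' at *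
  generalize (∏ v ∈ range k, (if 3 ∣ v + 1 then 1 else g2 (v + 1) t θ)) = R at *
  refine le_of_mul_le_mul_left ?_ hCM
  calc CM * (PB * (C3 * C') * D * V ^ 2) = (PB * CM) * (C3 * C' * D * V ^ 2) := by ring
    _ ≤ (GM * CB) * (C3 * C' * D * V ^ 2) := mul_le_mul_of_nonneg_right s1 (by positivity)
    _ = (GM * (V ^ 2 * C3)) * (CB * (D * C')) := by ring
    _ ≤ (X ^ 2 * CM * G3) * (CB * R) := by
        apply mul_le_mul s2' (mul_le_mul_of_nonneg_left s3 hCB.le) (by positivity) (by positivity)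
    _ = CM * (CB * (G3 * R) * X ^ 2) := by ring

end Z3c

end Pool.Agent.SignedQ.An
end

section

/-! # The product over `3 ∤ j` near `π/3` (helper78) -/

namespace Pool.Agent.SignedQ.An

open Polynomial Finset

namespace Z3d

open Z3c

lemma exp_ge_three_half : (3 / 2 : ℝ) ≤ Real.exp (811 / 2000) := by
  have h := Real.sum_le_exp_of_nonneg (show (0 : ℝ) ≤ 811 / 2000 by norm_num) 6
  refine le_trans ?_ h
  simp only [sum_range_succ, range_zero, sum_empty, Nat.factorial]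
  norm_num

/-- `exp (-1.2165 z) ≤ 1 - z` for `0 ≤ z ≤ 1/3`. -/
lemma exp_le_one_sub {z : ℝ} (h0 : 0 ≤ z) (h1 : z ≤ 1 / 3) :
    Real.exp (-(2433 / 2000 * z)) ≤ 1 - z := by
  have h2 := convexOn_exp.2 (Set.mem_univ (0 : ℝ)) (Set.mem_univ (-(811 / 2000) : ℝ))
    (show 0 ≤ 1 - 3 * z by linarith) (show 0 ≤ 3 * z by linarith) (by ring)
  simp only [smul_eq_mul] at h2
  rw [show (1 - 3 * z) * 0 + 3 * z * -(811 / 2000) = -(2433 / 2000 * z) by ring,
    Real.exp_zero] at h2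
  have h3 : Real.exp (-(811 / 2000)) ≤ 2 / 3 := by
    rw [Real.exp_neg, inv_le_comm₀ (Real.exp_pos _) (by norm_num)]
    refine le_trans ?_ exp_ge_three_half
    norm_num
  have h4 := mul_le_mul_of_nonneg_left h3 (show 0 ≤ 3 * z by linarith)
  linarith

lemma s2_eq (j : ℕ) (θ : ℝ) : s2 j θ = Real.sin (j * (θ + Real.pi) / 2) ^ 2 := by
  have h1 : Real.sin (j * (θ + Real.pi) / 2) ^ 2 = (1 - Real.cos (j * (θ + Real.pi))) / 2 := by
    have := Real.cos_two_mul' (j * (θ + Real.pi) / 2)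
    rw [show 2 * (j * (θ + Real.pi) / 2) = j * (θ + Real.pi) by ring] at this
    rw [this, Real.cos_sq']
    ring
  have h2 : Real.cos (j * (θ + Real.pi)) = (-1) ^ j * Real.cos (j * θ) := by
    rw [mul_add, Real.cos_add_nat_mul_pi]
  have hc : Real.cos (j * θ) = 2 * Real.cos (j * θ / 2) ^ 2 - 1 := by
    rw [← Real.cos_two_mul]; congr 1; ring
  rw [h1, h2]
  unfold s2
  rcases Nat.even_or_odd j with hj | hj
  · rw [if_pos hj, hj.neg_one_pow, hc, Real.sin_sq]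
    ring
  · rw [if_neg (Nat.not_even_iff_odd.2 hj), hj.neg_one_pow, hc]
    ring

/-- `sin² (j (4π/3 + δ)/2)` for `j = 3 i + 1`. -/
lemma s2_one (i : ℕ) (δ : ℝ) : s2 (3 * i + 1) (Real.pi / 3 + δ) =
    (√3 / 2 * Real.cos ((3 * i + 1) * δ / 2) - 1 / 2 * Real.sin ((3 * i + 1) * δ / 2)) ^ 2 := by
  rw [s2_eq]
  have e : ((3 * i + 1 : ℕ) : ℝ) * (Real.pi / 3 + δ + Real.pi) / 2 =
      (Real.pi - (Real.pi / 3 - (3 * i + 1) * δ / 2)) + (i : ℝ) * (2 * Real.pi) := by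
    push_cast; ring
  rw [e, Real.sin_add_nat_mul_two_pi, Real.sin_pi_sub, Real.sin_sub, Real.sin_pi_div_three,
    Real.cos_pi_div_three]

lemma s2_two (i : ℕ) (δ : ℝ) : s2 (3 * i + 2) (Real.pi / 3 + δ) =
    (√3 / 2 * Real.cos ((3 * i + 2) * δ / 2) + 1 / 2 * Real.sin ((3 * i + 2) * δ / 2)) ^ 2 := by
  rw [s2_eq]
  have e : ((3 * i + 2 : ℕ) : ℝ) * (Real.pi / 3 + δ + Real.pi) / 2 =
      ((Real.pi / 3 + (3 * i + 2) * δ / 2) + Real.pi) + (i : ℝ) * (2 * Real.pi) := by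
    push_cast; ring
  rw [e, Real.sin_add_nat_mul_two_pi, Real.sin_add_pi, Real.sin_add, Real.sin_pi_div_three,
    Real.cos_pi_div_three]
  ring

lemma s2_pair (i : ℕ) (δ : ℝ) :
    s2 (3 * i + 1) (Real.pi / 3 + δ) * s2 (3 * i + 2) (Real.pi / 3 + δ) =
      ((Real.cos ((2 * i + 1) * (3 * δ / 2)) + 1 / 2 * Real.cos (δ / 2) +
        √3 / 2 * Real.sin (δ / 2)) / 2) ^ 2 := by
  rw [s2_one, s2_two, ← mul_pow]
  congr 1
  obtain ⟨x, hx⟩ : ∃ x : ℝ, x = (3 * i + 1) * δ / 2 := ⟨_, rfl⟩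
  obtain ⟨y, hy⟩ : ∃ y : ℝ, y = (3 * i + 2) * δ / 2 := ⟨_, rfl⟩
  have e1 : (2 * i + 1) * (3 * δ / 2) = x + y := by rw [hx, hy]; ring
  have e2 : δ / 2 = y - x := by rw [hx, hy]; ring
  rw [← hx, ← hy, e1, e2, Real.cos_add, Real.cos_sub, Real.sin_sub]
  have h3 : √3 * √3 = (3 : ℝ) := Real.mul_self_sqrt (by norm_num)
  linear_combination (1 / 4 * Real.cos x * Real.cos y) * h3

lemma sqrt3_le : √3 ≤ (17321 / 10000 : ℝ) := by
  rw [Real.sqrt_le_left (by norm_num)]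
  norm_num

lemma sqrt3_ge : (1732 / 1000 : ℝ) ≤ √3 := by
  apply Real.le_sqrt_of_sq_le
  norm_num

/-- The pair bound. -/
lemma pair_ge {k i : ℕ} (hk : 26 ≤ k) (hi : 3 * (2 * i + 1) ≤ 2 * k - 1) {δ : ℝ}
    (hδ : k * |δ| ≤ 1) :
    9 / 16 * Real.exp (-(811 / 1000 * ((2 * i + 1) * (3 * |δ| / 2)) ^ 2 + 7064 / 10000 * |δ|)) ≤
      s2 (3 * i + 1) (Real.pi / 3 + δ) * s2 (3 * i + 2) (Real.pi / 3 + δ) := by
  have hk' : (26 : ℝ) ≤ k := by exact_mod_cast hk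
  have hd0 : 0 ≤ |δ| := abs_nonneg δ
  have hd1 : |δ| ≤ 1 / 26 := by
    rw [le_div_iff₀ (by norm_num)]
    nlinarith
  obtain ⟨u, hu⟩ : ∃ u : ℝ, u = (2 * i + 1) * (3 * |δ| / 2) := ⟨_, rfl⟩
  have hu0 : 0 ≤ u := by rw [hu]; positivity
  have hi' : (3 : ℝ) * (2 * i + 1) ≤ 2 * k - 1 := by
    have h : 3 * (2 * i + 1) + 1 ≤ 2 * k := by omega
    have h' : ((3 * (2 * i + 1) + 1 : ℕ) : ℝ) ≤ ((2 * k : ℕ) : ℝ) := by exact_mod_cast h
    push_cast at h'
    linarith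
  have hu1 : u ≤ 1 - |δ| / 2 := by
    rw [hu]
    nlinarith
  -- z
  obtain ⟨z, hz⟩ : ∃ z : ℝ, z = u ^ 2 / 3 + 2903 / 10000 * |δ| := ⟨_, rfl⟩
  have hz0 : 0 ≤ z := by rw [hz]; positivity
  have hz1 : z ≤ 1 / 3 := by
    rw [hz]
    have h1 : u ^ 2 ≤ (1 - |δ| / 2) ^ 2 := pow_le_pow_left₀ hu0 hu1 2
    nlinarith
  have hexp := exp_le_one_sub hz0 hz1
  -- w
  have hw : 3 / 2 * (1 - z) ≤ Real.cos ((2 * i + 1) * (3 * δ / 2)) + 1 / 2 * Real.cos (δ / 2) +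
      √3 / 2 * Real.sin (δ / 2) := by
    have h1 := Real.one_sub_sq_div_two_le_cos (x := (2 * i + 1) * (3 * δ / 2))
    have h2 := Real.one_sub_sq_div_two_le_cos (x := δ / 2)
    have h3 : -(|δ| / 2) ≤ Real.sin (δ / 2) := by
      have : |Real.sin (δ / 2)| ≤ |δ / 2| := Real.abs_sin_le_abs
      rw [abs_div, abs_two] at this
      exact (abs_le.1 this).1
    have h4 : u ^ 2 = ((2 * i + 1) * (3 * δ / 2)) ^ 2 := by
      rw [hu, mul_pow, mul_pow, div_pow, div_pow, mul_pow, mul_pow, sq_abs]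
    have h5 : |δ| ^ 2 = δ ^ 2 := sq_abs δ
    have h6 := sqrt3_le
    have h7 : 0 ≤ √3 := Real.sqrt_nonneg 3
    have h8 : -(17321 / 10000 / 2 * (|δ| / 2)) ≤ √3 / 2 * Real.sin (δ / 2) := by
      have h9 : √3 / 2 * (-(|δ| / 2)) ≤ √3 / 2 * Real.sin (δ / 2) :=
        mul_le_mul_of_nonneg_left h3 (by positivity)
      nlinarith
    rw [hz]
    nlinarith
  have hw0 : 0 ≤ 1 - z := by linarith
  rw [s2_pair]
  have h10 : (3 / 4 * (1 - z)) ^ 2 ≤ ((Real.cos ((2 * i + 1) * (3 * δ / 2)) +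
      1 / 2 * Real.cos (δ / 2) + √3 / 2 * Real.sin (δ / 2)) / 2) ^ 2 := by
    apply pow_le_pow_left₀ (by positivity)
    linarith
  refine le_trans ?_ h10
  have h11 : Real.exp (-(2433 / 2000 * z)) ^ 2 ≤ (1 - z) ^ 2 :=
    pow_le_pow_left₀ (Real.exp_pos _).le hexp 2
  rw [← Real.exp_nat_mul] at h11
  have h12 : -(811 / 1000 * ((2 * i + 1) * (3 * |δ| / 2)) ^ 2 + 7064 / 10000 * |δ|) ≤
      ((2 : ℕ) : ℝ) * -(2433 / 2000 * z) := by
    rw [← hu, hz]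
    push_cast
    nlinarith
  have h13 := Real.exp_le_exp.2 h12
  rw [show (3 / 4 * (1 - z)) ^ 2 = 9 / 16 * (1 - z) ^ 2 by ring]
  exact mul_le_mul_of_nonneg_left (h13.trans h11) (by norm_num)

lemma DD_three (m : ℕ) (θ : ℝ) :
    DD (3 * m) θ = ∏ i ∈ range m, (s2 (3 * i + 1) θ * s2 (3 * i + 2) θ) := by
  induction m with
  | zero => simp [DD]
  | succ m ih =>
    rw [prod_range_succ, ← ih]
    unfold DD
    rw [show 3 * (m + 1) = 3 * m + 1 + 1 + 1 by ring, prod_range_succ, prod_range_succ,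
      prod_range_succ, if_neg (by omega), if_neg (by omega), if_pos (by omega)]
    ring

lemma DD_one (m : ℕ) (θ : ℝ) : DD (3 * m + 1) θ = DD (3 * m) θ * s2 (3 * m + 1) θ := by
  unfold DD
  rw [prod_range_succ, if_neg (by omega)]

lemma DD_two (m : ℕ) (θ : ℝ) : DD (3 * m + 2) θ = DD (3 * (m + 1)) θ := by
  unfold DD
  rw [show 3 * (m + 1) = 3 * m + 2 + 1 by ring, prod_range_succ _ (3 * m + 2), if_pos (by omega),
    mul_one]

lemma sum_sq (m : ℕ) (d : ℝ) : ∑ i ∈ range m, ((2 * (i : ℝ) + 1) * d) ^ 2 =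
    d ^ 2 * (m * (4 * m ^ 2 - 1) / 3) := by
  induction m with
  | zero => simp
  | succ m ih =>
    rw [sum_range_succ, ih]
    push_cast
    ring

/-- Product of the pairs. -/
lemma DD_ge {k m : ℕ} (hk : 26 ≤ k) (hm : 3 * (2 * m) ≤ 2 * k + 2) {δ : ℝ} (hδ : k * |δ| ≤ 1) :
    (9 / 16) ^ m * Real.exp (-(811 / 1000 * ((3 * |δ| / 2) ^ 2 * (m * (4 * m ^ 2 - 1) / 3)) +
      7064 / 10000 * |δ| * m)) ≤ DD (3 * m) (Real.pi / 3 + δ) := by
  rw [DD_three]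
  have h1 : ∏ i ∈ range m, (9 / 16 * Real.exp (-(811 / 1000 * ((2 * i + 1) *
      (3 * |δ| / 2)) ^ 2 + 7064 / 10000 * |δ|))) ≤ ∏ i ∈ range m,
      (s2 (3 * i + 1) (Real.pi / 3 + δ) * s2 (3 * i + 2) (Real.pi / 3 + δ)) := by
    apply prod_le_prod
    · intro i _; positivity
    · intro i hi
      rw [mem_range] at hi
      exact pair_ge hk (by omega) hδ
  refine le_trans (le_of_eq ?_) h1
  rw [prod_mul_distrib, prod_const, card_range, ← Real.exp_sum]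
  congr 2
  rw [sum_neg_distrib, sum_add_distrib, ← mul_sum, sum_sq, sum_const, card_range, nsmul_eq_mul]
  ring

lemma exp_ge_three : (3 : ℝ) ≤ Real.exp (11 / 10) := by
  have h := Real.sum_le_exp_of_nonneg (show (0 : ℝ) ≤ 11 / 10 by norm_num) 8
  refine le_trans ?_ h
  simp only [sum_range_succ, range_zero, sum_empty, Nat.factorial]
  norm_num

/-- The single factor `j = k ≡ 1 mod 3`. -/
lemma single_ge {m : ℕ} {δ : ℝ} (hδ : (3 * m + 1) * |δ| ≤ 1) :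
    3 / 4 * Real.exp (-(11 / 10)) ≤ s2 (3 * m + 1) (Real.pi / 3 + δ) := by
  have h1 : Real.exp (-(11 / 10)) ≤ 1 / 3 := by
    rw [Real.exp_neg, inv_le_comm₀ (Real.exp_pos _) (by norm_num)]
    refine le_trans ?_ exp_ge_three
    norm_num
  rw [s2_one]
  obtain ⟨x, hx⟩ : ∃ x : ℝ, x = (3 * m + 1) * δ / 2 := ⟨_, rfl⟩
  have hx1 : |x| ≤ 1 / 2 := by
    rw [hx, abs_div, abs_mul, abs_two, abs_of_nonneg (show (0 : ℝ) ≤ 3 * m + 1 by positivity)]
    linarith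
  rw [← hx]
  have h2 := Real.one_sub_sq_div_two_le_cos (x := x)
  have h3 : |Real.sin x| ≤ |x| := Real.abs_sin_le_abs
  have h4 : Real.sin x ≤ 1 / 2 := (le_abs_self _).trans (h3.trans hx1)
  have h5 : x ^ 2 ≤ 1 / 4 := by
    rw [← sq_abs]
    have := abs_nonneg x
    nlinarith
  have h6 : 7 / 8 ≤ Real.cos x := by linarith
  have h7 := sqrt3_ge
  have h8 : 1 / 2 ≤ √3 / 2 * Real.cos x - 1 / 2 * Real.sin x := by nlinarith
  nlinarith

/-- The product over `3 ∤ j`. -/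
theorem DD_all {k : ℕ} (hk : 26 ≤ k) {δ : ℝ} (hδ : k * |δ| ≤ 1) :
    (3 / 4) ^ (k - k / 3) * Real.exp (-(451 / 5000 * k + 111 / 100)) ≤
      DD k (Real.pi / 3 + δ) := by
  have hd0 : 0 ≤ |δ| := abs_nonneg δ
  obtain ⟨m, hm⟩ : ∃ m, m = k / 3 := ⟨_, rfl⟩
  have hcase : k = 3 * m ∨ k = 3 * m + 1 ∨ k = 3 * m + 2 := by omega
  rcases hcase with h | h | h
  · have h1 := DD_ge (m := m) hk (by omega) hδ
    rw [← hm, show k - m = 2 * m by omega, pow_mul]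
    rw [show DD k (Real.pi / 3 + δ) = DD (3 * m) (Real.pi / 3 + δ) by rw [h]]
    refine le_trans ?_ h1
    rw [show ((3 / 4 : ℝ) ^ 2) ^ m = (9 / 16) ^ m by norm_num]
    apply mul_le_mul_of_nonneg_left _ (by positivity)
    apply Real.exp_le_exp.2
    have hkm : (k : ℝ) = 3 * m := by rw [h]; push_cast; ring
    rw [hkm] at hδ ⊢
    have hm0 : (0 : ℝ) ≤ m := Nat.cast_nonneg m
    obtain ⟨w, hw⟩ : ∃ w : ℝ, w = m * |δ| := ⟨_, rfl⟩
    have hw0 : 0 ≤ w := by rw [hw]; positivity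
    have hw1 : w ≤ 1 / 3 := by rw [hw]; linarith
    have e1 : (3 * |δ| / 2) ^ 2 * (m * (4 * m ^ 2 - 1) / 3) = 3 * w ^ 2 * m - 3 / 4 * |δ| ^ 2 * m := by
      rw [hw]; ring
    have e2 : 7064 / 10000 * |δ| * m = 7064 / 10000 * w := by rw [hw]; ring
    rw [e1, e2]
    have h2 : w ^ 2 * m ≤ 1 / 9 * m := by
      apply mul_le_mul_of_nonneg_right _ hm0
      nlinarith
    have h3 : 0 ≤ |δ| ^ 2 * m := by positivity
    linarith
  · have h1 := DD_ge (m := m) hk (by omega) hδ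
    rw [← hm, show k - m = 2 * m + 1 by omega, pow_succ, pow_mul]
    rw [show DD k (Real.pi / 3 + δ) = DD (3 * m + 1) (Real.pi / 3 + δ) by rw [h], DD_one]
    have hkm : (k : ℝ) = 3 * m + 1 := by rw [h]; push_cast; ring
    rw [hkm] at hδ ⊢
    have h4 := single_ge hδ
    have h5 := mul_le_mul h1 h4 (by positivity) ((by positivity : (0 : ℝ) ≤ _).trans h1)
    refine le_trans ?_ h5
    rw [show ((3 / 4 : ℝ) ^ 2) ^ m = (9 / 16) ^ m by norm_num]
    rw [show ∀ A B C D : ℝ, A * B * (C * D) = (A * C) * (B * D) by intros; ring, ← Real.exp_add]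
    apply mul_le_mul_of_nonneg_left _ (by positivity)
    apply Real.exp_le_exp.2
    have hm0 : (8 : ℝ) ≤ m := by
      have : 8 ≤ m := by omega
      exact_mod_cast this
    obtain ⟨w, hw⟩ : ∃ w : ℝ, w = m * |δ| := ⟨_, rfl⟩
    have hw0 : 0 ≤ w := by rw [hw]; positivity
    have hw1 : (3 * m + 1) * w ≤ m := by rw [hw]; nlinarith
    have hw2 : w ≤ 1 / 3 := by nlinarith
    have e1 : (3 * |δ| / 2) ^ 2 * (m * (4 * m ^ 2 - 1) / 3) = 3 * w ^ 2 * m - 3 / 4 * |δ| ^ 2 * m := by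
      rw [hw]; ring
    have e2 : 7064 / 10000 * |δ| * m = 7064 / 10000 * w := by rw [hw]; ring
    rw [e1, e2]
    have h2 : w ^ 2 * m ≤ 1 / 9 * m - 6 / 100 := by
      have h7 : ((3 * m + 1) * w) ^ 2 ≤ (m : ℝ) ^ 2 := pow_le_pow_left₀ (by positivity) hw1 2
      have h8 : (3 * (m : ℝ) + 1) ^ 2 * (w ^ 2 * m) ≤ (3 * m + 1) ^ 2 * (1 / 9 * m - 6 / 100) := by
        have h9 : (3 * (m : ℝ) + 1) ^ 2 * (w ^ 2 * m) = ((3 * m + 1) * w) ^ 2 * m := by ring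
        rw [h9]
        have h10 := mul_le_mul_of_nonneg_right h7 (show (0 : ℝ) ≤ m by linarith)
        nlinarith
      exact le_of_mul_le_mul_left h8 (by positivity)
    have h3 : 0 ≤ |δ| ^ 2 * m := by positivity
    linarith
  · have h1 := DD_ge (m := m + 1) hk (by omega) hδ
    rw [← hm, show k - m = 2 * (m + 1) by omega, pow_mul]
    rw [show DD k (Real.pi / 3 + δ) = DD (3 * m + 2) (Real.pi / 3 + δ) by rw [h], DD_two]
    refine le_trans ?_ h1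
    rw [show ((3 / 4 : ℝ) ^ 2) ^ (m + 1) = (9 / 16) ^ (m + 1) by norm_num]
    apply mul_le_mul_of_nonneg_left _ (by positivity)
    apply Real.exp_le_exp.2
    obtain ⟨M, hM⟩ : ∃ M : ℝ, M = ((m + 1 : ℕ) : ℝ) := ⟨_, rfl⟩
    have hkm : (k : ℝ) = 3 * M - 1 := by rw [h, hM]; push_cast; ring
    rw [hkm] at hδ ⊢
    rw [← hM]
    have hm0 : (9 : ℝ) ≤ M := by
      have : 9 ≤ m + 1 := by omega
      rw [hM]
      exact_mod_cast this
    obtain ⟨w, hw⟩ : ∃ w : ℝ, w = M * |δ| := ⟨_, rfl⟩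
    have hw0 : 0 ≤ w := by rw [hw]; positivity
    have hw1 : (3 * M - 1) * w ≤ M := by rw [hw]; nlinarith
    have hw2 : w ≤ 9 / 26 := by nlinarith
    have e1 : (3 * |δ| / 2) ^ 2 * (M * (4 * M ^ 2 - 1) / 3) = 3 * w ^ 2 * M - 3 / 4 * |δ| ^ 2 * M := by
      rw [hw]; ring
    have e2 : 7064 / 10000 * |δ| * M = 7064 / 10000 * w := by rw [hw]; ring
    rw [e1, e2]
    have h2 : w ^ 2 * M ≤ 1 / 9 * M + 9 / 100 := by
      have hp : 0 < 3 * M - 1 := by linarith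
      have h7 : ((3 * M - 1) * w) ^ 2 ≤ M ^ 2 := pow_le_pow_left₀ (by positivity) hw1 2
      have h8 : (3 * M - 1) ^ 2 * (w ^ 2 * M) ≤ (3 * M - 1) ^ 2 * (1 / 9 * M + 9 / 100) := by
        have h9 : (3 * M - 1) ^ 2 * (w ^ 2 * M) = ((3 * M - 1) * w) ^ 2 * M := by ring
        rw [h9]
        have h10 := mul_le_mul_of_nonneg_right h7 (show (0 : ℝ) ≤ M by linarith)
        nlinarith
      exact le_of_mul_le_mul_left h8 (by positivity)
    have h3 : 0 ≤ |δ| ^ 2 * M := by positivity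
    linarith

/-- The factor `q`. -/
lemma q_le {t δ : ℝ} (ht : 0 < t) (ht' : t ≤ 1 / 26) :
    (Real.cosh t + Real.cos (Real.pi / 3 + δ)) / (Real.cosh t + 1) ≤
      3 / 4 * Real.exp (5774 / 10000 * |δ| + 9 / 100 * t ^ 2) := by
  have h1 : Real.cos (Real.pi / 3 + δ) ≤ 1 / 2 + √3 / 2 * |δ| := by
    rw [Real.cos_add, Real.cos_pi_div_three, Real.sin_pi_div_three]
    have h2 := Real.cos_le_one δ
    have h3 : |Real.sin δ| ≤ |δ| := Real.abs_sin_le_abs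
    have h4 := neg_abs_le (Real.sin δ)
    have h5 : 0 ≤ √3 / 2 := by positivity
    nlinarith
  have h2 := sqrt3_le
  have h3 : 1 ≤ Real.cosh t := Real.one_le_cosh t
  have h4 : Real.cosh t ≤ 1 + 51 / 100 * t ^ 2 := by
    refine (Real.cosh_le_exp_half_sq t).trans ?_
    have h5 : t ^ 2 ≤ 1 / 676 := by nlinarith
    have h6 : Real.exp (t ^ 2 / 2) ≤ 1 / (1 - t ^ 2 / 2) := by
      have h7 := Real.add_one_le_exp (-(t ^ 2 / 2))
      rw [Real.exp_neg] at h7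
      rw [le_div_iff₀ (by linarith)]
      have h8 : 0 < Real.exp (t ^ 2 / 2) := Real.exp_pos _
      have h9 := mul_le_mul_of_nonneg_left h7 h8.le
      rw [mul_inv_cancel₀ h8.ne'] at h9
      linarith
    refine h6.trans ?_
    rw [div_le_iff₀ (by linarith)]
    have : 0 ≤ t ^ 2 := sq_nonneg t
    nlinarith
  have h5 : (Real.cosh t + Real.cos (Real.pi / 3 + δ)) / (Real.cosh t + 1) ≤
      3 / 4 + √3 / 4 * |δ| + (Real.cosh t - 1) / 8 := by
    rw [div_le_iff₀ (by linarith)]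
    have : 0 ≤ √3 / 4 * |δ| := by positivity
    nlinarith
  have h6 := Real.add_one_le_exp (5774 / 10000 * |δ| + 9 / 100 * t ^ 2)
  have h7 := abs_nonneg δ
  nlinarith

/-- **The factor `q^K` against the product over `3 ∤ j`.** -/
theorem q_pow_le {k : ℕ} (hk : 26 ≤ k) {t δ : ℝ} (ht : 0 < t) (hkt : k * t ≤ 1)
    (hδ : k * |δ| ≤ 1) :
    ((Real.cosh t + Real.cos (Real.pi / 3 + δ)) / (Real.cosh t + 1)) ^ ((k + 1) / 2) ≤
      (4 / 3) ^ (k / 2 - k / 3) * Real.exp (451 / 5000 * k + 71 / 50) *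
        DD k (Real.pi / 3 + δ) := by
  have hk' : (26 : ℝ) ≤ k := by exact_mod_cast hk
  have ht' : t ≤ 1 / 26 := by
    rw [le_div_iff₀ (by norm_num)]
    nlinarith
  have h1 := q_le (δ := δ) ht ht'
  have hq0 : 0 ≤ (Real.cosh t + Real.cos (Real.pi / 3 + δ)) / (Real.cosh t + 1) := by
    have h3 : 1 ≤ Real.cosh t := Real.one_le_cosh t
    have h4 := Real.neg_one_le_cos (Real.pi / 3 + δ)
    exact div_nonneg (by linarith) (by linarith)
  have h2 := pow_le_pow_left₀ hq0 h1 ((k + 1) / 2)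
  refine h2.trans ?_
  rw [mul_pow, ← Real.exp_nat_mul]
  have hK : (((k + 1) / 2 : ℕ) : ℝ) ≤ (k + 1) / 2 := by
    have := @Nat.cast_div_le ℝ _ _ _ (k + 1) 2
    push_cast at this
    exact this
  have h3 : (((k + 1) / 2 : ℕ) : ℝ) * (5774 / 10000 * |δ| + 9 / 100 * t ^ 2) ≤ 31 / 100 := by
    have h0 : 0 ≤ 5774 / 10000 * |δ| + 9 / 100 * t ^ 2 := by positivity
    refine (mul_le_mul_of_nonneg_right hK h0).trans ?_
    have h4 : (k + 1 : ℝ) ≤ 27 / 26 * k := by linarith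
    have h5 : (k + 1 : ℝ) / 2 * (5774 / 10000 * |δ| + 9 / 100 * t ^ 2) ≤
        27 / 52 * k * (5774 / 10000 * |δ| + 9 / 100 * t ^ 2) :=
      mul_le_mul_of_nonneg_right (by linarith) h0
    refine h5.trans ?_
    have h6 : (k : ℝ) * t ^ 2 ≤ 1 / 26 := by
      have : (k : ℝ) * t ^ 2 = (k * t) * t := by ring
      rw [this]
      nlinarith
    nlinarith
  have h4 := Real.exp_le_exp.2 h3
  have h5 := DD_all hk hδ
  have e1 : (3 / 4 : ℝ) ^ ((k + 1) / 2) = (4 / 3) ^ (k / 2 - k / 3) * (3 / 4) ^ (k - k / 3) := by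
    have : k - k / 3 = (k / 2 - k / 3) + (k + 1) / 2 := by omega
    rw [this, pow_add, ← mul_assoc, ← mul_pow]
    norm_num
  rw [e1]
  have h6 : Real.exp (31 / 100) ≤ Real.exp (451 / 5000 * k + 71 / 50) *
      Real.exp (-(451 / 5000 * k + 111 / 100)) := by
    rw [← Real.exp_add]
    apply Real.exp_le_exp.2
    linarith
  calc (4 / 3 : ℝ) ^ (k / 2 - k / 3) * (3 / 4) ^ (k - k / 3) *
        Real.exp ((((k + 1) / 2 : ℕ) : ℝ) * (5774 / 10000 * |δ| + 9 / 100 * t ^ 2))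
      ≤ (4 / 3 : ℝ) ^ (k / 2 - k / 3) * (3 / 4) ^ (k - k / 3) *
        (Real.exp (451 / 5000 * k + 71 / 50) * Real.exp (-(451 / 5000 * k + 111 / 100))) :=
        mul_le_mul_of_nonneg_left (h4.trans h6) (by positivity)
    _ = (4 / 3 : ℝ) ^ (k / 2 - k / 3) * Real.exp (451 / 5000 * k + 71 / 50) *
        ((3 / 4) ^ (k - k / 3) * Real.exp (-(451 / 5000 * k + 111 / 100))) := by ring
    _ ≤ _ := mul_le_mul_of_nonneg_left h5 (by positivity)

end Z3d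

end Pool.Agent.SignedQ.An
end
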