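import Pool.Agent.Lib.MP_cf17a0_co.QB

section

/-! # Partial fractions -/

namespace Pool.Agent.SignedQ

open Finset Polynomial

/-- The factors of the denominator without their poles of maximal order: `1 - x ^ v = c v * d v`,
where `x = - X`. -/
noncomputable def cf (v : ℕ) : ℚ[X] := if Even v then 1 - X ^ 2 else 1 + X

noncomputable def df (v : ℕ) : ℚ[X] :=
  if Even v then ∑ i ∈ range (v / 2), (X ^ 2) ^ i else ∑ i ∈ range v, (-X) ^ i

theorem cf_mul_df (v : ℕ) : cf v * df v = 1 - (-X : ℚ[X]) ^ v := by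
  unfold cf df
  split
  · rename_i h
    obtain ⟨w, rfl⟩ := h
    have h1 : (w + w) / 2 = w := by omega
    rw [h1, ← two_mul, pow_mul, neg_sq]
    have := mul_neg_geom_sum (X ^ 2 : ℚ[X]) w
    exact this
  · rename_i h
    have := mul_neg_geom_sum (-X : ℚ[X]) v
    rw [sub_neg_eq_add] at this
    exact this

theorem eval_df_one {v : ℕ} (hv : 1 ≤ v) :
    (df v).eval 1 = if Even v then (v / 2 : ℕ) else 1 := by
  unfold df
  split
  · rename_i h
    simp [eval_finsetSum]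
  · rename_i h
    rw [Nat.not_even_iff_odd] at h
    obtain ⟨w, rfl⟩ := h
    have h2 : ∀ w : ℕ, ∑ i ∈ range (2 * w + 1), (-1 : ℚ) ^ i = 1 := by
      intro w
      induction w with
      | zero => simp
      | succ w ih =>
        rw [show 2 * (w + 1) + 1 = 2 * w + 1 + 1 + 1 by ring, sum_range_succ, sum_range_succ, ih]
        have h3 : (-1 : ℚ) ^ (2 * w + 1 + 1) = 1 := by
          rw [show 2 * w + 1 + 1 = 2 * (w + 1) by ring, pow_mul]; norm_num
        rw [h3, pow_succ, pow_mul]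
        norm_num
    simp [eval_finsetSum, h2 w]

theorem eval_df_neg_one {v : ℕ} :
    (df v).eval (-1) = if Even v then ((v / 2 : ℕ) : ℚ) else v := by
  unfold df
  split <;> simp [eval_finsetSum]

theorem eval_df_neg_one_ne {v : ℕ} (hv : 1 ≤ v) : (df v).eval (-1) ≠ 0 := by
  rw [eval_df_neg_one]
  split
  · rename_i h
    obtain ⟨w, rfl⟩ := h
    have : (w + w) / 2 ≠ 0 := by omega
    exact_mod_cast this
  · have : v ≠ 0 := by omega
    exact_mod_cast this

/-- A criterion of coprimality. -/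
theorem isCoprime_of {p r : ℚ[X]} (hp : p.eval (-1) ≠ 0) {u v : ℚ[X]} (h : u * p + v * r = 1 + X) :
    IsCoprime p r := by
  obtain ⟨w, hw⟩ : (X - C (-1)) ∣ (p - C (p.eval (-1))) := X_sub_C_dvd_sub_C_eval
  have hc : C (p.eval (-1))⁻¹ * C (p.eval (-1)) = (1 : ℚ[X]) := by
    rw [← C_mul, inv_mul_cancel₀ hp, C_1]
  have h2 : (X - C (-1) : ℚ[X]) = 1 + X := by
    rw [map_neg, C_1]; ring
  rw [h2] at hw
  refine ⟨C (p.eval (-1))⁻¹ * (1 - u * w), - C (p.eval (-1))⁻¹ * (w * v), ?_⟩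
  linear_combination (C (p.eval (-1))⁻¹) * hw + (-C (p.eval (-1))⁻¹ * w) * h + hc

theorem coprime_adj {v : ℕ} (hv : 1 ≤ v) : IsCoprime (df v) (df (v + 1)) := by
  refine isCoprime_of (eval_df_neg_one_ne hv) (u := - (-X) * cf v) (v := cf (v + 1)) ?_
  have h1 := cf_mul_df v
  have h2 := cf_mul_df (v + 1)
  rw [pow_succ] at h2
  linear_combination X * h1 + h2

theorem coprime_35 : IsCoprime (df 3) (df 5) := by
  refine isCoprime_of (eval_df_neg_one_ne (by norm_num))
    (u := (1 - X ^ 3) * cf 3) (v := X * cf 5) ?_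
  have h1 := cf_mul_df 3
  have h2 := cf_mul_df 5
  linear_combination (1 - X ^ 3) * h1 + X * h2

theorem df_dvd {v L : ℕ} (h : 2 * v ∣ L) : df v ∣ 1 - (X : ℚ[X]) ^ L := by
  obtain ⟨w, rfl⟩ := h
  have h1 : df v ∣ 1 - (-X : ℚ[X]) ^ v := ⟨cf v, by rw [← cf_mul_df]; ring⟩
  refine h1.trans ?_
  have h2 : (X : ℚ[X]) ^ (2 * v * w) = ((-X : ℚ[X]) ^ v) ^ (2 * w) := by
    have h3 : ((-X : ℚ[X]) ^ v) ^ (2 * w) = ((-X : ℚ[X]) ^ 2) ^ (v * w) := by
      rw [← pow_mul, ← pow_mul]; congr 1; ring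
    rw [h3, neg_sq, ← pow_mul]
    congr 1; ring
  rw [h2]
  have := sub_dvd_pow_sub_pow (1 : ℚ[X]) ((-X) ^ v) (2 * w)
  rwa [one_pow] at this

/-- The product of the factors `d v`. -/
noncomputable def Df (k : ℕ) : ℚ[X] := ∏ v ∈ range k, df (v + 1)

theorem df_one : df 1 = 1 := by
  unfold df
  simp

theorem df_two : df 2 = 1 := by
  unfold df
  simp

theorem Df_dvd : ∀ j p L : ℕ, p ≤ 1 → (∀ v ∈ Icc 1 (2 * j + 4 + p), 2 * v ∣ L) →
    Df (2 * j + 4 + p) ∣ (1 - (X : ℚ[X]) ^ L) ^ (j + 1) := by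
  intro j
  induction j with
  | zero =>
    intro p L hp h
    have h3 : df 3 ∣ 1 - (X : ℚ[X]) ^ L := df_dvd (h 3 (by rw [mem_Icc]; omega))
    have h4 : df 4 ∣ 1 - (X : ℚ[X]) ^ L := df_dvd (h 4 (by rw [mem_Icc]; omega))
    have h34 : df 3 * df 4 ∣ 1 - (X : ℚ[X]) ^ L :=
      (coprime_adj (v := 3) (by norm_num)).mul_dvd h3 h4
    obtain rfl | rfl : p = 0 ∨ p = 1 := by omega
    · have : Df (2 * 0 + 4 + 0) = df 3 * df 4 := by
        unfold Df
        simp [prod_range_succ, df_one, df_two]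
      rw [this, zero_add, pow_one]
      exact h34
    · have h5 : df 5 ∣ 1 - (X : ℚ[X]) ^ L := df_dvd (h 5 (by rw [mem_Icc]; omega))
      have : Df (2 * 0 + 4 + 1) = df 3 * df 4 * df 5 := by
        unfold Df
        simp [prod_range_succ, df_one, df_two]
      rw [this, zero_add, pow_one]
      refine IsCoprime.mul_dvd ?_ h34 h5
      exact coprime_35.mul_left (coprime_adj (v := 4) (by norm_num))
  | succ j ih =>
    intro p L hp h
    have h1 := ih p L hp (fun v hv => h v (by rw [mem_Icc] at hv ⊢; omega))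
    have : Df (2 * (j + 1) + 4 + p) = Df (2 * j + 4 + p) *
        (df (2 * j + 4 + p + 1) * df (2 * j + 4 + p + 1 + 1)) := by
      unfold Df
      rw [show 2 * (j + 1) + 4 + p = 2 * j + 4 + p + 1 + 1 by ring, prod_range_succ,
        prod_range_succ]
      ring
    rw [this, pow_succ (1 - (X : ℚ[X]) ^ L) (j + 1)]
    refine mul_dvd_mul h1 ((coprime_adj (by omega)).mul_dvd (df_dvd (h _ ?_)) (df_dvd (h _ ?_)))
    · rw [mem_Icc]; omega
    · rw [mem_Icc]; omega

theorem Df_eval (k : ℕ) (hk : 3 ≤ k) :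
    0 < (Df k).eval 1 ∧ (Df k).eval 1 < (Df k).eval (-1) := by
  have key : ∀ k, 3 ≤ k → 0 < (Df k).eval 1 ∧ (Df k).eval 1 < (Df k).eval (-1) := by
    intro k hk
    induction k, hk using Nat.le_induction with
    | base =>
      have : Df 3 = df 3 := by
        unfold Df
        simp [prod_range_succ, df_one, df_two]
      rw [this, eval_df_one (by norm_num), eval_df_neg_one]
      have h3 : ¬ Even 3 := by decide
      rw [if_neg h3, if_neg h3]
      norm_num
    | succ k hk ih =>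
      have h1 : Df (k + 1) = Df k * df (k + 1) := by
        unfold Df; rw [prod_range_succ]
      rw [h1, eval_mul, eval_mul]
      have h2 : 0 < (df (k + 1)).eval 1 := by
        rw [eval_df_one (by omega)]
        split
        · have : 0 < (k + 1) / 2 := by omega
          exact_mod_cast this
        · norm_num
      have h3 : (df (k + 1)).eval 1 ≤ (df (k + 1)).eval (-1) := by
        rw [eval_df_one (by omega), eval_df_neg_one]
        split
        · exact le_refl _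
        · push_cast
          have : (0 : ℚ) ≤ k := by positivity
          linarith
      refine ⟨mul_pos ih.1 h2, ?_⟩
      calc (Df k).eval 1 * (df (k + 1)).eval 1 < (Df k).eval (-1) * (df (k + 1)).eval 1 :=
            mul_lt_mul_of_pos_right ih.2 h2
        _ ≤ (Df k).eval (-1) * (df (k + 1)).eval (-1) :=
            mul_le_mul_of_nonneg_left h3 (ih.1.trans ih.2).le
  exact key k hk

theorem coprime_X_sub_C {p : ℚ[X]} {a : ℚ} (h : p.eval a ≠ 0) : IsCoprime (X - C a) p := by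
  refine (irreducible_X_sub_C a).coprime_iff_not_dvd.2 fun hd => h ?_
  exact dvd_iff_isRoot.1 hd

/-- The partial fraction decomposition, multiplied by the denominators. -/
theorem frac (k : ℕ) (hk : 3 ≤ k) (κ : ℕ) (hκ : 1 ≤ κ) : ∃ (α β : ℚ) (V U : ℚ[X]), 0 < α ∧ 0 < β ∧
    (C α + C β * X) * Df k + V * (1 - X ^ 2) * Df k + U * (1 - X ^ 2) ^ κ = 1 := by
  obtain ⟨h0, h1⟩ := Df_eval k hk
  have hcop : IsCoprime ((1 - X ^ 2 : ℚ[X]) ^ κ) (Df k) := by
    refine IsCoprime.pow_left ?_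
    have e : (1 - X ^ 2 : ℚ[X]) = - ((X - C 1) * (X - C (-1))) := by
      rw [map_neg, C_1]; ring
    rw [e]
    refine IsCoprime.neg_left ?_
    exact (coprime_X_sub_C h0.ne').mul_left (coprime_X_sub_C (h0.trans h1).ne')
  obtain ⟨U, W, hUW⟩ := hcop
  have hκ0 : κ ≠ 0 := by omega
  have hW1 : W.eval 1 * (Df k).eval 1 = 1 := by
    have := congrArg (Polynomial.eval 1) hUW
    simpa [hκ0] using this
  have hW2 : W.eval (-1) * (Df k).eval (-1) = 1 := by
    have := congrArg (Polynomial.eval (-1)) hUW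
    simpa [hκ0] using this
  have hW1' : W.eval 1 = ((Df k).eval 1)⁻¹ := eq_inv_of_mul_eq_one_left hW1
  have hW2' : W.eval (-1) = ((Df k).eval (-1))⁻¹ := eq_inv_of_mul_eq_one_left hW2
  have hpos : 0 < W.eval (-1) := by
    rw [hW2']; exact inv_pos.2 (h0.trans h1)
  have hlt : W.eval (-1) < W.eval 1 := by
    rw [hW1', hW2']
    exact inv_strictAnti₀ h0 h1
  set α := (W.eval 1 + W.eval (-1)) / 2 with hα
  set β := (W.eval 1 - W.eval (-1)) / 2 with hβ
  have hdvd : (1 - X ^ 2 : ℚ[X]) ∣ W - (C α + C β * X) := by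
    have e : (1 - X ^ 2 : ℚ[X]) = (X - C 1) * (-(X - C (-1))) := by
      rw [map_neg, C_1]; ring
    rw [e]
    refine IsCoprime.mul_dvd ?_ ?_ ?_
    · refine coprime_X_sub_C ?_
      simp
    · rw [dvd_iff_isRoot]
      simp only [IsRoot, eval_sub, eval_add, eval_C, eval_mul, eval_X]
      rw [hα, hβ]; ring
    · rw [neg_dvd, dvd_iff_isRoot]
      simp only [IsRoot, eval_sub, eval_add, eval_C, eval_mul, eval_X]
      rw [hα, hβ]; ring
  obtain ⟨V, hV⟩ := hdvd
  refine ⟨α, β, V, U, by rw [hα]; linarith, by rw [hβ]; linarith, ?_⟩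
  have : W = (C α + C β * X) + (1 - X ^ 2) * V := by rw [← hV]; ring
  rw [this] at hUW
  linear_combination hUW

end Pool.Agent.SignedQ
end

section

/-! # Lower bounds for the coefficients of the main term -/

namespace Pool.Agent.SignedQ

open Finset PowerSeries

/-- `Q` is nonnegative, and its coefficients between `l` and `r` are at least `h`. -/
def Bd (Q : PowerSeries ℚ) (l r : ℕ) (h : ℚ) : Prop :=
  NN Q ∧ ∀ N, l ≤ N → N ≤ r → h ≤ coeff N Q

/-- The polynomial `1 + X ^ 2 + ⋯ + X ^ (2 (m - 1))`. -/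
noncomputable def str (m : ℕ) : PowerSeries ℚ := ∑ i ∈ range m, X ^ (2 * i)

theorem NN_str (m : ℕ) : NN (str m) := NN.sum fun i _ => NN.varX.pow _

theorem coeff_mul_str (Q : PowerSeries ℚ) (m N : ℕ) :
    coeff N (Q * str m) = ∑ i ∈ range m, if 2 * i ≤ N then coeff (N - 2 * i) Q else 0 := by
  unfold str
  rw [mul_sum, map_sum]
  refine sum_congr rfl fun i _ => ?_
  rw [coeff_mul_X_pow']

theorem Bd.str {Q : PowerSeries ℚ} {l r : ℕ} {h : ℚ} (hQ : Bd Q l r h) (m δ r' : ℕ)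
    (h0 : 0 ≤ h) (h1 : δ ≤ m) (h2 : l + 2 * δ ≤ r) (hr : r' + 2 + 2 * δ = r + 2 * m) :
    Bd (Q * str m) (l + 2 * δ) r' (h * δ) := by
  refine ⟨hQ.1.mul (NN_str m), fun N hl hN => ?_⟩
  rw [coeff_mul_str]
  set i0 := (N - r + 1) / 2 with hi0
  have hsub : Ico i0 (i0 + δ) ⊆ range m := by
    intro i hi
    rw [mem_Ico] at hi
    rw [mem_range]
    omega
  have hnn : ∀ i ∈ range m, i ∉ Ico i0 (i0 + δ) →
      0 ≤ if 2 * i ≤ N then coeff (N - 2 * i) Q else 0 := by
    intro i _ _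
    split
    · exact hQ.1 _
    · exact le_refl _
  refine le_trans ?_ (sum_le_sum_of_subset_of_nonneg hsub hnn)
  have : ∑ i ∈ Ico i0 (i0 + δ), h ≤
      ∑ i ∈ Ico i0 (i0 + δ), if 2 * i ≤ N then coeff (N - 2 * i) Q else 0 := by
    refine sum_le_sum fun i hi => ?_
    rw [mem_Ico] at hi
    have h3 : 2 * i ≤ N := by omega
    rw [if_pos h3]
    exact hQ.2 _ (by omega) (by omega)
  refine le_trans (le_of_eq ?_) this
  rw [sum_const, Nat.card_Ico, nsmul_eq_mul]
  have : i0 + δ - i0 = δ := by omega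
  rw [this]
  ring

theorem Bd.odd {Q : PowerSeries ℚ} {l r : ℕ} {h : ℚ} (hQ : Bd Q l r h) (b : ℕ)
    (hb : b + l ≤ r + 1) : Bd (Q * (1 + X ^ b)) l (r + b) h := by
  refine ⟨hQ.1.mul (NN.one.add (NN.varX.pow _)), fun N hl hN => ?_⟩
  rw [mul_add, mul_one, map_add, coeff_mul_X_pow']
  rcases le_or_gt N r with hNr | hNr
  · have := hQ.2 N hl hNr
    have h2 : 0 ≤ if b ≤ N then coeff (N - b) Q else 0 := by
      split
      · exact hQ.1 _
      · exact le_refl _
    linarith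
  · rw [if_pos (by omega)]
    have := hQ.2 (N - b) (by omega) (by omega)
    have h2 := hQ.1 N
    linarith

theorem Bd_single (m : ℕ) (hm : 1 ≤ m) : Bd ((1 + X) * str m) 0 (2 * m - 1) 1 := by
  refine ⟨(NN.one.add NN.varX).mul (NN_str m), fun N _ hN => ?_⟩
  have e : (1 + X : PowerSeries ℚ) * str m = ∑ i ∈ range (2 * m), X ^ i := by
    clear hN hm
    unfold str
    induction m with
    | zero => simp
    | succ m ih =>
      rw [sum_range_succ, mul_add, ih, show 2 * (m + 1) = 2 * m + 1 + 1 by ring, sum_range_succ,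
        sum_range_succ]
      ring
  rw [e, map_sum]
  have h2 : ∑ i ∈ range (2 * m), coeff N ((X : PowerSeries ℚ) ^ i) =
      ∑ i ∈ range (2 * m), if N = i then 1 else 0 := by
    refine sum_congr rfl fun i _ => ?_
    rw [coeff_X_pow]
  rw [h2, sum_ite_eq, if_pos]
  rw [mem_range]
  omega

theorem Bd_evens (δ : ℕ) (m : ℕ → ℕ) (s : Finset ℕ) (hs : s.Nonempty)
    (hm : ∀ v ∈ s, 2 * δ + 2 ≤ m v) :
    ∃ j r : ℕ, s.card = j + 1 ∧ r + 1 + 2 * (j * (δ + 1)) = ∑ v ∈ s, 2 * m v ∧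
      2 * (j * δ) + 2 * δ ≤ r ∧
      Bd ((1 + X) * ∏ v ∈ s, str (m v)) (2 * (j * δ)) r ((δ : ℚ) ^ j) := by
  induction hs using Finset.Nonempty.cons_induction with
  | singleton a =>
    have ha := hm a (mem_singleton_self a)
    refine ⟨0, 2 * m a - 1, by simp, ?_, by omega, ?_⟩
    · rw [sum_singleton]; omega
    · rw [prod_singleton]
      simpa using Bd_single (m a) (by omega)
  | cons a s ha hs ih =>
    obtain ⟨j, r, hj, hr, hlr, hB⟩ := ih (fun v hv => hm v (mem_cons_of_mem hv))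
    have hma := hm a (mem_cons_self a s)
    refine ⟨j + 1, r + 2 * m a - 2 - 2 * δ, by rw [card_cons, hj], ?_, ?_, ?_⟩
    · rw [sum_cons, ← hr]
      have : (j + 1) * (δ + 1) = j * (δ + 1) + (δ + 1) := by ring
      omega
    · have : (j + 1) * δ = j * δ + δ := by ring
      omega
    · have h1 := hB.str (m a) δ (r + 2 * m a - 2 - 2 * δ) (by positivity) (by omega) hlr (by omega)
      rw [prod_cons]
      have e1 : (1 + X) * (str (m a) * ∏ v ∈ s, str (m v)) =
          (1 + X) * (∏ v ∈ s, str (m v)) * str (m a) := by ring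
      have e2 : 2 * ((j + 1) * δ) = 2 * (j * δ) + 2 * δ := by ring
      rw [e1, e2, pow_succ]
      exact h1

theorem Bd.odds {Q : PowerSeries ℚ} {l r : ℕ} {h : ℚ} (hQ : Bd Q l r h) (b : ℕ → ℕ)
    (t : Finset ℕ) (hb : ∀ v ∈ t, b v + l ≤ r + 1) :
    Bd (Q * ∏ v ∈ t, (1 + X ^ b v)) l (r + ∑ v ∈ t, b v) h := by
  induction t using Finset.cons_induction with
  | empty => simpa using hQ
  | cons a t ha ih =>
    have h1 := ih (fun v hv => hb v (mem_cons_of_mem hv))
    have h2 := hb a (mem_cons_self a t)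
    have h3 := h1.odd (b a) (by omega)
    rw [prod_cons, sum_cons]
    have e1 : Q * ((1 + X ^ b a) * ∏ v ∈ t, (1 + X ^ b v)) =
        Q * (∏ v ∈ t, (1 + X ^ b v)) * (1 + X ^ b a) := by ring
    have e2 : r + (b a + ∑ v ∈ t, b v) = r + ∑ v ∈ t, b v + b a := by ring
    rw [e1, e2]
    exact h3

/-- The lower bound for the main term. -/
theorem main_lower (δ : ℕ) (m b : ℕ → ℕ) (s t : Finset ℕ) (j : ℕ) (hs : s.card = j + 1)
    (hm : ∀ v ∈ s, 2 * δ + 2 ≤ m v)
    (hb : ∀ v ∈ t, b v + 2 * (j * (2 * δ + 1)) ≤ ∑ v ∈ s, 2 * m v) (N : ℕ)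
    (h1 : 2 * (j * δ) ≤ N) (h2 : N + 1 + 2 * (j * (δ + 1)) ≤ ∑ v ∈ s, 2 * m v + ∑ v ∈ t, b v) :
    (δ : ℚ) ^ j ≤ coeff N ((1 + X) * (∏ v ∈ s, str (m v)) * ∏ v ∈ t, (1 + X ^ b v)) := by
  obtain ⟨j', r, hj, hr, hlr, hB⟩ := Bd_evens δ m s (card_pos.1 (by omega)) hm
  obtain rfl : j' = j := by omega
  have e : j' * (2 * δ + 1) = j' * (δ + 1) + j' * δ := by ring
  refine (hB.odds b t fun v hv => ?_).2 N h1 ?_
  · have := hb v hv
    rw [e] at this
    omega
  · omega

end Pool.Agent.SignedQ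
end
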